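import Pool.Agent.Lib.MP_e19099_pr.ChainLaw

/-!
# Existence of the chain (task A33)

Ionescu-Tulcea: `Ω = ℕ → E`, `X k ω = ω k`, `P` the composition of `Pi` (moved to `Π i : Iic 0, E`) and `Kernel.traj κ 0` with
`κ n = K.comap (fun h => h ⟨n, _⟩)`.  See `ProbabilityTheory.Kernel.traj`, `Kernel.traj_map_frestrictLe`, `Kernel.partialTraj_succ_eq_comp`,
`Kernel.partialTraj_compProd_traj`.
-/

set_option autoImplicit false

open MeasureTheory ProbabilityTheory Filter Set
open scoped NNReal Topology ENNReal

namespace Pool.Agent.Lib.MP_e19099_pr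

private theorem map_comap_compProd' {α β γ : Type*} [MeasurableSpace α] [MeasurableSpace β]
    [MeasurableSpace γ] (μ : Measure α) [SFinite μ] {f : α → β} (hf : Measurable f)
    (K : Kernel β γ) [IsSFiniteKernel K] :
    (μ ⊗ₘ K.comap f hf).map (Prod.map f id) = μ.map f ⊗ₘ K := by
  have hm : Measurable (Prod.map f (id : γ → γ)) := hf.prodMap measurable_id
  ext s hs
  rw [Measure.map_apply hm hs, Measure.compProd_apply (hm hs), Measure.compProd_apply hs,
    lintegral_map (Kernel.measurable_kernel_prodMk_left hs) hf]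
  rfl

theorem chain_exists {E : Type} [MeasurableSpace E] {Pi : Measure E} [IsProbabilityMeasure Pi]
    {K : Kernel E E} [IsMarkovKernel K] :
    ∃ P : Measure (ℕ → E), IsChain P (fun k ω => ω k) Pi K := by
  let κ : (n : ℕ) → Kernel (Π _ : Finset.Iic n, E) E := fun n =>
    K.comap (fun h => h ⟨n, Finset.mem_Iic.2 le_rfl⟩) (measurable_pi_apply _)
  refine ⟨Kernel.trajMeasure (X := fun _ => E) Pi κ, fun k => measurable_pi_apply k, ?_, fun k => ?_⟩
  · -- the initial law
    have h1 : (fun ω : ℕ → E => ω 0) =
        (fun h : (Π _ : Finset.Iic 0, E) => h ⟨0, Finset.mem_Iic.2 le_rfl⟩) ∘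
          (Preorder.frestrictLe (π := fun _ => E) 0) := rfl
    have hm : Measurable (fun h : (Π _ : Finset.Iic 0, E) => h ⟨0, Finset.mem_Iic.2 le_rfl⟩) :=
      measurable_pi_apply _
    have h2 : (Kernel.trajMeasure (X := fun _ => E) Pi κ).map
        (Preorder.frestrictLe (π := fun _ => E) 0) =
        Pi.map (MeasurableEquiv.piUnique (fun _ : Finset.Iic 0 => E)).symm := by
      rw [Kernel.trajMeasure, Measure.map_comp _ _ (by fun_prop), Kernel.traj_map_frestrictLe,
        Kernel.partialTraj_self, Measure.id_comp]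
    show (Kernel.trajMeasure (X := fun _ => E) Pi κ).map (fun ω : ℕ → E => ω 0) = Pi
    rw [h1, ← Measure.map_map hm (by fun_prop), h2, Measure.map_map hm (by fun_prop)]
    have h3 : ((fun h : (Π _ : Finset.Iic 0, E) => h ⟨0, Finset.mem_Iic.2 le_rfl⟩) ∘
        (MeasurableEquiv.piUnique (fun _ : Finset.Iic 0 => E)).symm) = id := by
      funext x
      rfl
    rw [h3, Measure.map_id]
  · have hstep := Kernel.map_frestrictLe_trajMeasure_compProd_eq_map_trajMeasure
      (X := fun _ => E) (μ₀ := Pi) (κ := κ) (a := k)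
    set P := Kernel.trajMeasure (X := fun _ => E) Pi κ with hP
    let e : (Π _ : Finset.Iic k, E) → (Fin (k + 1) → E) := fun h i =>
      h ⟨i, Finset.mem_Iic.2 (Nat.lt_succ_iff.1 i.isLt)⟩
    have he : Measurable e := measurable_pi_iff.2 fun i => measurable_pi_apply _
    have hem : Measurable (Prod.map e (id : E → E)) := he.prodMap measurable_id
    have h1 : P.map (fun ω => ((fun i : Fin (k + 1) => ω i), ω (k + 1))) =
        (P.map (fun x => (Preorder.frestrictLe (π := fun _ => E) k x, x (k + 1)))).map
          (Prod.map e id) := by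
      rw [Measure.map_map hem (by fun_prop)]
      rfl
    have h2 : κ k = (K.comap (fun h : Fin (k + 1) → E => h (Fin.last k))
        (measurable_pi_apply _)).comap e he := by
      ext h : 1
      rfl
    show P.map (fun ω => ((fun i : Fin (k + 1) => ω i), ω (k + 1))) = _
    rw [h1, ← hstep, h2, map_comap_compProd', Measure.map_map he (by fun_prop)]
    rfl

end Pool.Agent.Lib.MP_e19099_pr
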