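import Pool.Agent.Lib.MP_e19099_pr.Unique

/-!
# Langevin diffusions have limit laws (task A30b)

`pathOf hU ω` is the path `t ↦ U t ω`.  `res`: given `f, lam, u, u'`, the resolvent `v, v'` of `hU.markov` satisfies `v = u` (`res_unique`);
the product `∏_{t ∈ T} G_t(U_t)` is bounded and measurable with respect to `m = σ(U_r, r ≤ s)`, so
`∫ (∏ G_t(U_t)) Z dQ = ∫ (∏ G_t(U_t)) Q[Z | m] dQ` (`condExp_mul_of_stronglyMeasurable_left`, `integral_condExp`) with `Z = ∫₀^∞ …`, which is
`potl lam f s (path)`.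
-/

set_option autoImplicit false

open MeasureTheory ProbabilityTheory Filter Set
open scoped NNReal Topology ENNReal

namespace Pool.Agent.Lib.MP_e19099_pr

variable {E : ℕ → Type} [∀ n, MeasurableSpace (E n)] {p : ℝ → ℝ} {h : ℝ} {τ : ℕ → ℝ}
  {Pi : ∀ n, Measure (E n)} {K : ∀ n, Kernel (E n) (E n)} {φ : ∀ n, E n → ℝ}
  {Ω : Type*} [MeasurableSpace Ω] {Q : Measure Ω} {U : ℝ≥0 → Ω → ℝ} {π : Measure ℝ}

/-- the path of a process with continuous paths -/
def pathOf (hU : IsLangevin Q U π h) (ω : Ω) : C(ℝ≥0, ℝ) := ⟨fun t => U t ω, hU.cont ω⟩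

theorem pathOf_meas (hU : IsLangevin Q U π h) : Measurable (pathOf hU) :=
  path_meas_of_eval fun t => hU.meas t

private theorem FL_key {Ω : Type*} {m mΩ : MeasurableSpace Ω} {Q : Measure Ω}
    [IsProbabilityMeasure Q] (hm : m ≤ mΩ) {g Z w : Ω → ℝ} {c : ℝ}
    (hgm : Measurable[m] g) (hgb : ∀ ω, |g ω| ≤ 1) (hZm : Measurable Z) (hZb : ∀ ω, |Z ω| ≤ c)
    (hwm : Measurable w) (hwb : ∀ ω, |w ω| ≤ c) (hc : Q[Z | m] =ᵐ[Q] w) :
    ∫ ω, (g ω * Z ω - g ω * w ω) ∂Q = 0 := by
  have hgs : StronglyMeasurable[m] g := hgm.stronglyMeasurable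
  have hZi : Integrable Z Q :=
    Integrable.of_bound hZm.aestronglyMeasurable c (Eventually.of_forall fun ω => by
      rw [Real.norm_eq_abs]; exact hZb ω)
  have hgZ : Integrable (g * Z) Q := by
    refine Integrable.of_bound ((hgm.mono hm le_rfl).mul hZm).aestronglyMeasurable c
      (Eventually.of_forall fun ω => ?_)
    rw [Real.norm_eq_abs, Pi.mul_apply, abs_mul]
    calc |g ω| * |Z ω| ≤ 1 * c := mul_le_mul (hgb ω) (hZb ω) (abs_nonneg _) zero_le_one
      _ = c := one_mul _
  have hgv : Integrable (fun ω => g ω * w ω) Q := by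
    refine Integrable.of_bound ((hgm.mono hm le_rfl).mul hwm).aestronglyMeasurable c
      (Eventually.of_forall fun ω => ?_)
    rw [Real.norm_eq_abs, abs_mul]
    calc |g ω| * |w ω| ≤ 1 * c := mul_le_mul (hgb ω) (hwb ω) (abs_nonneg _) zero_le_one
      _ = c := one_mul _
  have e1 : ∫ ω, (g * Z) ω ∂Q = ∫ ω, g ω * w ω ∂Q := by
    rw [← integral_condExp hm (f := g * Z)]
    refine integral_congr_ae ?_
    have h2 := condExp_mul_of_stronglyMeasurable_left hgs hgZ hZi
    filter_upwards [h2, hc] with ω h3 h4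
    rw [h3, Pi.mul_apply]
    rw [h4]
  have e2 : ∫ ω, (g ω * Z ω - g ω * w ω) ∂Q = ∫ ω, (g * Z) ω ∂Q - ∫ ω, g ω * w ω ∂Q :=
    integral_sub hgZ hgv
  rw [e2, e1, sub_self]

theorem langevin_lim (S : Setup E p h τ Pi K φ) (hU : IsLangevin Q U (tgt p) h) :
    IsLim p h (Q.map (pathOf hU)) := by
  have hT := tgt_prob S.dens
  have hQ : IsProbabilityMeasure Q := by
    constructor
    have h1 : (Q.map (U 0)) univ = 1 := by
      rw [hU.stat 0]
      exact hT.measure_univ
    rwa [Measure.map_apply (hU.meas 0) MeasurableSet.univ, preimage_univ] at h1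
  refine ⟨Measure.isProbabilityMeasure_map (pathOf_meas hU).aemeasurable, fun t => ?_, ?_⟩
  · rw [Measure.map_map (path_meas_eval t) (pathOf_meas hU)]
    exact hU.stat t
  · intro C f hf lam hlam u u' hu s T hTs G hG
    have hub := fun x => res_bdd S hlam ⟨hf.cont.measurable, hf.bdd⟩ hu x
    have huc : Continuous u := dom_cont hu.1
    have huB : BC (C / lam) u := ⟨huc, hub⟩
    rw [integral_map (pathOf_meas hU).aemeasurable
      (lfun_cont hlam hf huB T hG s).1.measurable.aestronglyMeasurable]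
    obtain ⟨v, v', hv, hcond⟩ := hU.markov f hf.cont ⟨C, hf.bdd⟩ lam hlam
    have huv : v = u := res_unique S.dens S.hpos hlam
      (memLp_bdd S.dens hf.cont.measurable hf.bdd) hv hu
    subst huv
    have hm : (⨆ r : {r : ℝ≥0 // r ≤ s}, MeasurableSpace.comap (U r)
        (inferInstance : MeasurableSpace ℝ)) ≤ ‹MeasurableSpace Ω› :=
      iSup_le fun r => (hU.meas r).comap_le
    have hUm : ∀ t : ℝ≥0, t ≤ s → Measurable[⨆ r : {r : ℝ≥0 // r ≤ s},
        MeasurableSpace.comap (U r) (inferInstance : MeasurableSpace ℝ)] (U t) := fun t ht => by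
      have h1 := le_iSup (fun r : {r : ℝ≥0 // r ≤ s} => MeasurableSpace.comap (U r)
          (inferInstance : MeasurableSpace ℝ)) ⟨t, ht⟩
      exact fun A hA => h1 _ ⟨A, hA, rfl⟩
    have hgb : ∀ ω, |∏ t ∈ T, G t (U t ω)| ≤ 1 := fun ω => by
      rw [Finset.abs_prod]
      exact Finset.prod_le_one (fun t _ => abs_nonneg _) fun t _ => (hG t).bdd _
    have hZm : Measurable fun ω => potl lam f s (pathOf hU ω) :=
      (potl_cont hlam hf s).measurable.comp (pathOf_meas hU)
    have key := FL_key (Q := Q) hm (g := fun ω => ∏ t ∈ T, G t (U t ω))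
      (Z := fun ω => potl lam f s (pathOf hU ω)) (w := fun ω => v (U s ω)) (c := C / lam)
      (Finset.measurable_prod T fun t ht => (hG t).cont.measurable.comp (hUm t (hTs t ht))) hgb
      hZm (fun ω => potl_bdd hlam hf s (pathOf hU ω)) (huc.measurable.comp (hU.meas s))
      (fun ω => hub _) (hcond s)
    rw [← key]
    refine integral_congr_ae (Eventually.of_forall fun ω => ?_)
    simp only [lfun]
    rw [mul_sub]
    rfl

end Pool.Agent.Lib.MP_e19099_pr
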