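import Pool.Agent.Lib.MP_e19099_pr.Unique

/-!
# Limit laws are Langevin diffusions (task A30)

`Q = μ` on `C(ℝ≥0, ℝ)`, `U t y = y t`.  For the Markov property take `u, u'` of `res_exists`; use
`ae_eq_condExp_of_forall_setIntegral_eq`: for `A` in `σ(U_r, r ≤ s) = generateFrom (cylS s)` (`cylS_gen`) show
`∫_A potl lam f s dμ = ∫_A u(y s) dμ` by `MeasurableSpace.induction_on_inter` (`cylS_pi`): for cylinder sets by `closed_approx`, `hμ.res` and dominated
convergence (`lfun`); complements and disjoint unions are routine (the functions are bounded).  `u ∘ eval s` is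
`σ(U_r, r ≤ s)`-strongly measurable.
-/

set_option autoImplicit false

open MeasureTheory ProbabilityTheory Filter Set
open scoped NNReal Topology ENNReal

namespace Pool.Agent.Lib.MP_e19099_pr

variable {E : ℕ → Type} [∀ n, MeasurableSpace (E n)] {p : ℝ → ℝ} {h : ℝ} {τ : ℕ → ℝ}
  {Pi : ∀ n, Measure (E n)} {K : ∀ n, Kernel (E n) (E n)} {φ : ∀ n, E n → ℝ}

private theorem tl_pot_int {μ : Measure C(ℝ≥0, ℝ)} [IsProbabilityMeasure μ] {C lam : ℝ}
    (hlam : 0 < lam) {f : ℝ → ℝ} (hf : BC C f) (s : ℝ≥0) : Integrable (potl lam f s) μ :=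
  Integrable.of_bound (potl_cont hlam hf s).measurable.aestronglyMeasurable (C / lam)
    (Eventually.of_forall fun y => by
      rw [Real.norm_eq_abs]
      exact potl_bdd hlam hf s y)

private theorem tl_u_int {μ : Measure C(ℝ≥0, ℝ)} [IsProbabilityMeasure μ] {C : ℝ}
    {u : ℝ → ℝ} (hu : BC C u) (s : ℝ≥0) : Integrable (fun y : C(ℝ≥0, ℝ) => u (y s)) μ :=
  Integrable.of_bound (hu.cont.measurable.comp (path_meas_eval s)).aestronglyMeasurable C
    (Eventually.of_forall fun y => by
      rw [Real.norm_eq_abs]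
      exact hu.bdd _)

theorem lim_cyl {μ : Measure C(ℝ≥0, ℝ)} (hμ : IsLim p h μ) {C lam C' : ℝ} (hlam : 0 < lam)
    {f u u' : ℝ → ℝ} (hf : BC C f) (hu : IsResolvent (tgt p) h lam f u u') (hu' : BC C' u)
    {s : ℝ≥0} {A : Set C(ℝ≥0, ℝ)} (hA : A ∈ cylS s) :
    ∫ y in A, potl lam f s y ∂μ = ∫ y in A, u (y s) ∂μ := by
  have hprob := hμ.prob
  obtain ⟨T, F, hT, hF, rfl⟩ := hA
  choose g hg hgt using fun t => closed_approx (hF t)
  have hA : MeasurableSet {y : C(ℝ≥0, ℝ) | ∀ t ∈ T, y t ∈ F t} := by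
    have h1 : {y : C(ℝ≥0, ℝ) | ∀ t ∈ T, y t ∈ F t} = ⋂ t ∈ T, (fun y : C(ℝ≥0, ℝ) => y t) ⁻¹' (F t) := by
      ext y
      simp
    rw [h1]
    exact MeasurableSet.biInter T.countable_toSet fun t _ => (path_meas_eval t) (hF t).measurableSet
  have hzero : ∀ m : ℕ, ∫ y, lfun lam f u T (fun t => g t m) s y ∂μ = 0 := fun m =>
    hμ.res C f hf lam hlam u u' hu s T hT (fun t => g t m) (fun t => hg t m)
  have hlim : Tendsto (fun m : ℕ => ∫ y, lfun lam f u T (fun t => g t m) s y ∂μ) atTop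
      (𝓝 (∫ y in {y : C(ℝ≥0, ℝ) | ∀ t ∈ T, y t ∈ F t}, (potl lam f s y - u (y s)) ∂μ)) := by
    rw [← integral_indicator hA]
    refine tendsto_integral_of_dominated_convergence (fun _ => C / lam + C') ?_
      (integrable_const _) ?_ ?_
    · intro m
      exact (lfun_cont hlam hf hu' T (fun t => hg t m) s).1.measurable.aestronglyMeasurable
    · intro m
      exact Eventually.of_forall fun y => by
        rw [Real.norm_eq_abs]
        exact (lfun_cont hlam hf hu' T (fun t => hg t m) s).2 y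
    · refine Eventually.of_forall fun y => ?_
      have h2 : ({y : C(ℝ≥0, ℝ) | ∀ t ∈ T, y t ∈ F t}.indicator
            (fun y => potl lam f s y - u (y s)) y)
          = (∏ t ∈ T, (F t).indicator (fun _ => (1 : ℝ)) (y t)) * (potl lam f s y - u (y s)) := by
        by_cases hy : ∀ t ∈ T, y t ∈ F t
        · rw [indicator_of_mem (show y ∈ {y : C(ℝ≥0, ℝ) | ∀ t ∈ T, y t ∈ F t} from hy)]
          rw [Finset.prod_eq_one, one_mul]
          intro t ht
          rw [indicator_of_mem (hy t ht)]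
        · rw [indicator_of_notMem (show y ∉ {y : C(ℝ≥0, ℝ) | ∀ t ∈ T, y t ∈ F t} from hy)]
          push Not at hy
          obtain ⟨t, ht, hyt⟩ := hy
          rw [Finset.prod_eq_zero ht, zero_mul]
          rw [indicator_of_notMem hyt]
      rw [h2]
      exact (tendsto_finsetProd T fun t _ => hgt t (y t)).mul_const _
  simp only [hzero] at hlim
  have h0 := tendsto_nhds_unique hlim tendsto_const_nhds
  rw [integral_sub (tl_pot_int hlam hf s).integrableOn (tl_u_int hu' s).integrableOn] at h0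
  linarith

theorem lim_langevin (S : Setup E p h τ Pi K φ) {μ : Measure C(ℝ≥0, ℝ)} (hμ : IsLim p h μ) :
    IsLangevin μ (fun t y => y t) (tgt p) h := by
  have hprob := hμ.prob
  refine ⟨fun y => y.continuous, path_meas_eval, hμ.stat, ?_⟩
  rintro f hfc ⟨C, hC⟩ lam hlam
  have hf : BC C f := ⟨hfc, hC⟩
  obtain ⟨u, u', hu, -, -⟩ := res_exists S.dens S.hpos hlam
    (memLp_bdd S.dens hfc.measurable hC)
  have huB : BC (C / lam) u :=
    ⟨dom_cont hu.1, fun x => res_bdd S hlam ⟨hfc.measurable, hC⟩ hu x⟩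
  refine ⟨u, u', hu, fun s => ?_⟩
  have hm : (⨆ r : {r : ℝ≥0 // r ≤ s}, MeasurableSpace.comap (fun y : C(ℝ≥0, ℝ) => y r)
      inferInstance) ≤ instMeasPath := iSup_le fun r => (path_meas_eval r.1).comap_le
  have hgm : Measurable[⨆ r : {r : ℝ≥0 // r ≤ s}, MeasurableSpace.comap
      (fun y : C(ℝ≥0, ℝ) => y r) inferInstance] fun y : C(ℝ≥0, ℝ) => u (y s) := by
    refine huB.cont.measurable.comp ?_
    have h1 : MeasurableSpace.comap (fun y : C(ℝ≥0, ℝ) => y s) inferInstance ≤
        ⨆ r : {r : ℝ≥0 // r ≤ s}, MeasurableSpace.comap (fun y : C(ℝ≥0, ℝ) => y r)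
          (inferInstance : MeasurableSpace ℝ) :=
      le_iSup (fun r : {r : ℝ≥0 // r ≤ s} => MeasurableSpace.comap
        (fun y : C(ℝ≥0, ℝ) => y r) (inferInstance : MeasurableSpace ℝ)) ⟨s, le_rfl⟩
    exact measurable_iff_comap_le.2 h1
  have hD : Integrable (fun y : C(ℝ≥0, ℝ) => potl lam f s y - u (y s)) μ :=
    (tl_pot_int hlam hf s).sub (tl_u_int huB s)
  have hcyl : ∀ A ∈ cylS s, ∫ y in A, (potl lam f s y - u (y s)) ∂μ = 0 := by
    intro A hA
    rw [integral_sub (tl_pot_int hlam hf s).integrableOn (tl_u_int huB s).integrableOn,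
      lim_cyl hμ hlam hf hu huB hA, sub_self]
  have huniv : ∫ y, (potl lam f s y - u (y s)) ∂μ = 0 := by
    have := hcyl univ ⟨∅, fun _ => univ, by simp, fun _ => isClosed_univ, by simp⟩
    rwa [setIntegral_univ] at this
  have hall : ∀ A, MeasurableSet[⨆ r : {r : ℝ≥0 // r ≤ s}, MeasurableSpace.comap
      (fun y : C(ℝ≥0, ℝ) => y r) inferInstance] A →
      ∫ y in A, (potl lam f s y - u (y s)) ∂μ = 0 := by
    intro A hA
    refine MeasurableSpace.induction_on_inter
      (m := ⨆ r : {r : ℝ≥0 // r ≤ s}, MeasurableSpace.comap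
        (fun y : C(ℝ≥0, ℝ) => y r) inferInstance)
      (C := fun A _ => ∫ y in A, (potl lam f s y - u (y s)) ∂μ = 0)
      (cylS_gen s) (cylS_pi s) ?_ ?_ ?_ ?_ A hA
    · simp
    · intro t ht
      exact hcyl t ht
    · intro t htm ht
      have h1 := integral_add_compl (hm _ htm) hD
      rw [ht, huniv] at h1
      linarith
    · intro g hd hgm' hg
      rw [integral_iUnion (fun i => hm _ (hgm' i)) hd hD.integrableOn]
      simp [hg]
  refine (ae_eq_condExp_of_forall_setIntegral_eq hm (tl_pot_int hlam hf s) ?_ ?_ ?_).symm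
  · intro A _ _
    exact (tl_u_int huB s).integrableOn
  · intro A hA _
    have := hall A hA
    rw [integral_sub (tl_pot_int hlam hf s).integrableOn (tl_u_int huB s).integrableOn] at this
    linarith
  · exact hgm.stronglyMeasurable.aestronglyMeasurable

end Pool.Agent.Lib.MP_e19099_pr
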