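import Pool.Agent.Lib.MP_e19099_pr.J1Pass
import Pool.Agent.Lib.MP_e19099_pr.ToLangevin
import Pool.Agent.Lib.MP_e19099_pr.FromLangevin
import Pool.Agent.Lib.MP_e19099_pr.ChainEx

/-!
# The abstract limit theorem (task A34)

`abs_exists`: chains exist (`chain_exists`), `lim_law` gives a limit law `μ`, `lim_langevin`.
`abs_conv`: `lim_law` for the given chains, the limit law is `Q.map (pathOf hU)` by `lim_unique` and `langevin_lim`; `pass_step`;
`(Q.map (pathOf hU)).map toD = Q.map (toD ∘ pathOf hU)`.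
-/

set_option autoImplicit false

open MeasureTheory ProbabilityTheory Filter Set
open scoped NNReal Topology ENNReal

namespace Pool.Agent.Lib.MP_e19099_pr

universe u v

variable {E : ℕ → Type} [∀ n, MeasurableSpace (E n)] {p : ℝ → ℝ} {h : ℝ} {τ : ℕ → ℝ}
  {Pi : ∀ n, Measure (E n)} {K : ∀ n, Kernel (E n) (E n)} {φ : ∀ n, E n → ℝ}

private theorem abs_law (S : Setup E p h τ Pi K φ) {Ω : ℕ → Type u} [∀ n, MeasurableSpace (Ω n)]
    {P : ∀ n, Measure (Ω n)} {X : ∀ n, ℕ → Ω n → E n}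
    (hX : ∀ n, IsChain (P n) (X n) (Pi n) (K n)) :
    ∃ (ρ : ℕ → ProbabilityMeasure C(ℝ≥0, ℝ)) (μ : ProbabilityMeasure C(ℝ≥0, ℝ)),
      (∀ n, (ρ n : Measure C(ℝ≥0, ℝ)) = (P n).map (ip (τ n) (φ n) (X n))) ∧
      IsLim p h (μ : Measure C(ℝ≥0, ℝ)) ∧ Tendsto ρ atTop (𝓝 μ) := by
  have hprob : ∀ n, IsProbabilityMeasure ((P n).map (ip (τ n) (φ n) (X n))) := by
    intro n
    have := (hX n).prob (S.rev n)
    exact Measure.isProbabilityMeasure_map (ip_meas S hX n).aemeasurable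
  obtain ⟨μ, hμ, hlim⟩ := lim_law S hX
    (ρ := fun n => ⟨(P n).map (ip (τ n) (φ n) (X n)), hprob n⟩) (fun n => rfl)
  exact ⟨_, μ, fun n => rfl, hμ, hlim⟩

theorem abs_exists (S : Setup E p h τ Pi K φ) :
    ∃ (Q : Measure C(ℝ≥0, ℝ)), IsProbabilityMeasure Q ∧
      IsLangevin Q (fun t (y : C(ℝ≥0, ℝ)) => y t) (tgt p) h := by
  have hex : ∀ n, ∃ P : Measure (ℕ → E n), IsChain P (fun k ω => ω k) (Pi n) (K n) := by
    intro n
    have := (S.rev n).prob
    have := (S.rev n).markov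
    exact chain_exists
  choose P hP using hex
  obtain ⟨ρ, μ, -, hμ, -⟩ := abs_law S hP
  exact ⟨μ, hμ.prob, lim_langevin S hμ⟩

theorem abs_conv (S : Setup E p h τ Pi K φ) {Ω : ℕ → Type u} [∀ n, MeasurableSpace (Ω n)]
    {P : ∀ n, Measure (Ω n)} {X : ∀ n, ℕ → Ω n → E n}
    (hX : ∀ n, IsChain (P n) (X n) (Pi n) (K n)) {Ω' : Type v} [MeasurableSpace Ω']
    {Q : Measure Ω'} {U : ℝ≥0 → Ω' → ℝ} (hU : IsLangevin Q U (tgt p) h) :
    TendstoWeakly (fun n => (P n).map (sp (τ n) (φ n) (X n)))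
      (Q.map fun ω => toD (pathOf hU ω)) := by
  obtain ⟨ρ, μ, hρ, hμ, hlim⟩ := abs_law S hX
  have h1 : (μ : Measure C(ℝ≥0, ℝ)) = Q.map (pathOf hU) := lim_unique S hμ (langevin_lim S hU)
  have h2 := pass_step S hX hρ hlim
  rw [h1, Measure.map_map toD_meas (pathOf_meas hU)] at h2
  exact h2

end Pool.Agent.Lib.MP_e19099_pr
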