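import Pool.Agent.Lib.MP_e19099_pr.BCharC

/-!
# Averaging of integrable functions with integrable Fourier transform (module B, B7)

`Φ x = ∫ (𝓕 Φ)(w) e^{2πi w x} dw` (`MeasureTheory.Integrable.fourierInv_fourier_eq` or `Continuous.fourierInv_fourier_eq`), so by Fubini
`∫ Φ(S) G = ∫ (𝓕 Φ)(w) (∫ e^{2πi w S} G) dw`; for each `w` the inner integral minus `exp(-(2πw)²σ²/2) ∫ G` tends to `0` (`char_lim`, `t = 2πw`) and is bounded
by `2`; dominated convergence.  `∫ (𝓕 Φ)(w) exp(-(2πw)²σ²/2) dw = ∫ Φ dN(0,σ²)` (Fubini, `charFun_gaussianReal`).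
`avg_s`: transfer to `sm` by `pi_tv` (`A.close`, `(n+1) · η/(n+1) → 0`) for the bounded functions `Φ(S) G`, `G`, `|G(ys) - G(xs)|/2`.
-/

set_option autoImplicit false

open MeasureTheory ProbabilityTheory Filter Set
open scoped NNReal Topology ENNReal FourierTransform

namespace Pool.Agent.Lib.MP_e19099_pr

variable {p : ℝ → ℝ} {q : ℕ → ℝ → ℝ → ℝ} {l σ : ℝ} {τ : ℕ → ℝ} {s' : ℕ → Measure (ℝ × ℝ)}
  {δ η : ℕ → ℝ}

/-- the normal distribution with variance `σ²` -/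
noncomputable def gsn (σ : ℝ) : Measure ℝ := gaussianReal 0 (σ ^ 2).toNNReal

/-- functions for which averaging works -/
structure Nice (Φ : ℝ → ℝ) : Prop where
  cont : Continuous Φ
  int : Integrable Φ
  fint : Integrable (𝓕 fun x : ℝ => (Φ x : ℂ))
  bdd : ∃ C : ℝ, ∀ x, |Φ x| ≤ C


/-- Fourier inversion inside an integral -/
private theorem BAvgA_fubini {Ω : Type*} [MeasurableSpace Ω] (ν : Measure Ω)
    [IsProbabilityMeasure ν] {Φ : ℝ → ℝ} (hΦ : Nice Φ) {S : Ω → ℝ} (hS : Measurable S)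
    {G : Ω → ℝ} (hG : MB 1 G) :
    Integrable (fun w : ℝ => (𝓕 fun x : ℝ => (Φ x : ℂ)) w
        * ∫ ω, Complex.exp ((2 * Real.pi * w * S ω : ℝ) * Complex.I) * (G ω : ℂ) ∂ν) ∧
    ((∫ ω, Φ (S ω) * G ω ∂ν : ℝ) : ℂ) = ∫ w : ℝ, (𝓕 fun x : ℝ => (Φ x : ℂ)) w
        * ∫ ω, Complex.exp ((2 * Real.pi * w * S ω : ℝ) * Complex.I) * (G ω : ℂ) ∂ν := by
  set Ψ : ℝ → ℂ := 𝓕 fun x : ℝ => (Φ x : ℂ) with hΨ
  have hc : Continuous fun x : ℝ => (Φ x : ℂ) := Complex.continuous_ofReal.comp hΦ.cont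
  have hi : Integrable fun x : ℝ => (Φ x : ℂ) := hΦ.int.ofReal
  have hinv : ∀ x : ℝ, (Φ x : ℂ)
      = ∫ w : ℝ, Complex.exp ((2 * Real.pi * w * x : ℝ) * Complex.I) * Ψ w := by
    intro x
    have h1 := congrFun (hc.fourierInv_fourier_eq hi hΦ.fint) x
    rw [Real.fourierInv_eq'] at h1
    rw [← h1]
    refine integral_congr_ae (Eventually.of_forall fun w => ?_)
    simp only [smul_eq_mul]
    congr 3
    simp only [RCLike.inner_apply, conj_trivial]
    ring_nf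
  have hGm : Measurable fun ω => (G ω : ℂ) := Complex.measurable_ofReal.comp hG.meas
  have hGi : Integrable (fun ω => (G ω : ℂ)) ν := by
    refine Integrable.of_bound hGm.aestronglyMeasurable 1 (Eventually.of_forall fun ω => ?_)
    rw [Complex.norm_real, Real.norm_eq_abs]
    exact hG.bdd ω
  have hexpm : Measurable fun z : Ω × ℝ =>
      Complex.exp ((2 * Real.pi * z.2 * S z.1 : ℝ) * Complex.I) := by
    have h1 : Measurable fun z : Ω × ℝ => 2 * Real.pi * z.2 * S z.1 :=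
      (measurable_snd.const_mul _).mul (hS.comp measurable_fst)
    exact Complex.measurable_exp.comp ((Complex.measurable_ofReal.comp h1).mul_const _)
  have hint : Integrable (fun z : Ω × ℝ =>
      Complex.exp ((2 * Real.pi * z.2 * S z.1 : ℝ) * Complex.I) * ((G z.1 : ℂ) * Ψ z.2))
      (ν.prod volume) := by
    refine Integrable.bdd_mul (c := 1) (Integrable.mul_prod hGi hΦ.fint)
      hexpm.aestronglyMeasurable (Eventually.of_forall fun z => ?_)
    rw [Complex.norm_exp_ofReal_mul_I]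
  have hswap : ∀ w : ℝ, ∫ ω, Complex.exp ((2 * Real.pi * w * S ω : ℝ) * Complex.I)
      * ((G ω : ℂ) * Ψ w) ∂ν
      = Ψ w * ∫ ω, Complex.exp ((2 * Real.pi * w * S ω : ℝ) * Complex.I) * (G ω : ℂ) ∂ν := by
    intro w
    rw [← integral_const_mul]
    refine integral_congr_ae (Eventually.of_forall fun ω => ?_)
    simp only
    ring
  constructor
  · have h1 := hint.integral_prod_right
    refine h1.congr (Eventually.of_forall fun w => ?_)
    exact hswap w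
  · have h1 := integral_integral_swap (μ := ν) (ν := (volume : Measure ℝ))
      (f := fun (ω : Ω) (w : ℝ) => Complex.exp ((2 * Real.pi * w * S ω : ℝ) * Complex.I)
        * ((G ω : ℂ) * Ψ w)) hint
    rw [← integral_complex_ofReal]
    have h2 : ∀ ω, ((Φ (S ω) * G ω : ℝ) : ℂ) = ∫ w : ℝ,
        Complex.exp ((2 * Real.pi * w * S ω : ℝ) * Complex.I) * ((G ω : ℂ) * Ψ w) := by
      intro ω
      rw [Complex.ofReal_mul, hinv (S ω), ← integral_mul_const]
      refine integral_congr_ae (Eventually.of_forall fun w => ?_)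
      simp only
      ring
    simp_rw [h2]
    rw [h1]
    exact integral_congr_ae (Eventually.of_forall fun w => hswap w)

private theorem BAvgA_norm_le {Ω : Type*} [MeasurableSpace Ω] (ν : Measure Ω)
    [IsProbabilityMeasure ν] {G : Ω → ℝ} (hG : MB 1 G) (T : Ω → ℝ) :
    ‖∫ ω, Complex.exp ((T ω : ℝ) * Complex.I) * (G ω : ℂ) ∂ν‖ ≤ 1 := by
  refine (norm_integral_le_of_norm_le_const (C := 1)
    (Eventually.of_forall fun ω => ?_)).trans ?_
  · rw [norm_mul, Complex.norm_exp_ofReal_mul_I, one_mul, Complex.norm_real, Real.norm_eq_abs]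
    exact hG.bdd ω
  · simp

private theorem BAvgA_gauss (σ : ℝ) {Φ : ℝ → ℝ} (hΦ : Nice Φ) :
    Integrable (fun w : ℝ => (𝓕 fun x : ℝ => (Φ x : ℂ)) w
        * (Real.exp (-(2 * Real.pi * w) ^ 2 * σ ^ 2 / 2) : ℂ)) ∧
    ((∫ x, Φ x ∂(gsn σ) : ℝ) : ℂ) = ∫ w : ℝ, (𝓕 fun x : ℝ => (Φ x : ℂ)) w
        * (Real.exp (-(2 * Real.pi * w) ^ 2 * σ ^ 2 / 2) : ℂ) := by
  have : IsProbabilityMeasure (gsn σ) := by unfold gsn; infer_instance
  have hG : MB (1 : ℝ) (fun _ : ℝ => (1 : ℝ)) := ⟨measurable_const, fun x => by simp⟩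
  have h := BAvgA_fubini (gsn σ) hΦ (S := fun x => x) measurable_id hG
  have hchar : ∀ w : ℝ, ∫ x : ℝ, Complex.exp ((2 * Real.pi * w * x : ℝ) * Complex.I)
      * ((1 : ℝ) : ℂ) ∂(gsn σ) = (Real.exp (-(2 * Real.pi * w) ^ 2 * σ ^ 2 / 2) : ℂ) := by
    intro w
    have h1 := charFun_gaussianReal (μ := 0) (v := (σ ^ 2).toNNReal) (2 * Real.pi * w)
    rw [charFun_apply_real] at h1
    have h2 : ∫ x : ℝ, Complex.exp ((2 * Real.pi * w * x : ℝ) * Complex.I)
        * ((1 : ℝ) : ℂ) ∂(gsn σ)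
        = ∫ x : ℝ, Complex.exp (((2 * Real.pi * w : ℝ) : ℂ) * x * Complex.I)
          ∂(gaussianReal 0 (σ ^ 2).toNNReal) := by
      unfold gsn
      refine integral_congr_ae (Eventually.of_forall fun x => ?_)
      simp only [Complex.ofReal_one, mul_one]
      congr 2
      push_cast
      ring
    rw [h2, h1, Complex.ofReal_exp]
    congr 1
    rw [Real.coe_toNNReal _ (sq_nonneg σ)]
    push_cast
    ring
  simp_rw [hchar] at h
  refine ⟨h.1, ?_⟩
  rw [← h.2]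
  congr 1
  refine integral_congr_ae (Eventually.of_forall fun x => ?_)
  simp

theorem avg_aux (B : BSetup p q l σ τ) (A : Aux p q s' δ η) {Φ : ℝ → ℝ} (hΦ : Nice Φ)
    {G : ∀ n : ℕ, (Fin (n + 1) → ℝ) → ℝ} (hG : ∀ n, MB 1 (G n))
    (hs : Tendsto (fun n => ∫ w, |G n (ys w) - G n (xs w)| ∂(pw (s' n) (n + 1))) atTop (𝓝 0)) :
    Tendsto (fun n => ∫ w, Φ (Sn (Rf p (q n)) w) * G n (xs w) ∂(pw (s' n) (n + 1))
        - (∫ x, Φ x ∂(gsn σ)) * ∫ w, G n (xs w) ∂(pw (s' n) (n + 1))) atTop (𝓝 0) := by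
  have hprob : ∀ n, IsProbabilityMeasure (s' n) := A.prob
  set Ψ : ℝ → ℂ := 𝓕 fun x : ℝ => (Φ x : ℂ) with hΨ
  have hMB : ∀ n, MB 1 fun w : Fin (n + 1) → ℝ × ℝ => G n (xs w) := fun n =>
    ⟨(hG n).meas.comp xs_meas, fun w => (hG n).bdd _⟩
  have hR : ∀ n, Measurable (Rf p (q n)) := fun n => Rf_meas B.dens (B.prop n)
  set I : ℕ → ℝ → ℂ := fun n w =>
    ∫ ω, Complex.exp ((2 * Real.pi * w * Sn (Rf p (q n)) ω : ℝ) * Complex.I)
        * (G n (xs ω) : ℂ) ∂(pw (s' n) (n + 1))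
      - (Real.exp (-(2 * Real.pi * w) ^ 2 * σ ^ 2 / 2) : ℂ)
        * ((∫ ω, G n (xs ω) ∂(pw (s' n) (n + 1)) : ℝ) : ℂ) with hI
  have hf := fun n => BAvgA_fubini (pw (s' n) (n + 1)) hΦ (Sn_meas (hR n)) (hMB n)
  have hg := BAvgA_gauss σ hΦ
  have hsplit : ∀ n, (fun w : ℝ => Ψ w * I n w) = fun w : ℝ =>
      (Ψ w * ∫ ω, Complex.exp ((2 * Real.pi * w * Sn (Rf p (q n)) ω : ℝ) * Complex.I)
        * (G n (xs ω) : ℂ) ∂(pw (s' n) (n + 1)))
      - (Ψ w * (Real.exp (-(2 * Real.pi * w) ^ 2 * σ ^ 2 / 2) : ℂ))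
        * ((∫ ω, G n (xs ω) ∂(pw (s' n) (n + 1)) : ℝ) : ℂ) := by
    intro n
    funext w
    simp only [hI]
    ring
  have hint : ∀ n, Integrable fun w : ℝ => Ψ w * I n w := by
    intro n
    rw [hsplit n]
    exact (hf n).1.sub (hg.1.mul_const _)
  have heq : ∀ n, ((∫ w, Φ (Sn (Rf p (q n)) w) * G n (xs w) ∂(pw (s' n) (n + 1))
      - (∫ x, Φ x ∂(gsn σ)) * ∫ w, G n (xs w) ∂(pw (s' n) (n + 1)) : ℝ) : ℂ)
      = ∫ w : ℝ, Ψ w * I n w := by
    intro n
    rw [hsplit n, integral_sub (hf n).1 (hg.1.mul_const _), integral_mul_const,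
      Complex.ofReal_sub, Complex.ofReal_mul, (hf n).2, hg.2]
  have hI2 : ∀ n w, ‖I n w‖ ≤ 2 := by
    intro n w
    have h1 := BAvgA_norm_le (pw (s' n) (n + 1)) (hMB n)
      (fun ω => 2 * Real.pi * w * Sn (Rf p (q n)) ω)
    have h2 : ‖(Real.exp (-(2 * Real.pi * w) ^ 2 * σ ^ 2 / 2) : ℂ)
        * ((∫ ω, G n (xs ω) ∂(pw (s' n) (n + 1)) : ℝ) : ℂ)‖ ≤ 1 := by
      rw [norm_mul, Complex.norm_real, Complex.norm_real, Real.norm_eq_abs,
        abs_of_pos (Real.exp_pos _)]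
      have h3 : Real.exp (-(2 * Real.pi * w) ^ 2 * σ ^ 2 / 2) ≤ 1 := by
        rw [Real.exp_le_one_iff]
        have := mul_nonneg (sq_nonneg (2 * Real.pi * w)) (sq_nonneg σ)
        linarith
      have h4 : ‖∫ ω, G n (xs ω) ∂(pw (s' n) (n + 1))‖ ≤ 1 := by
        refine (norm_integral_le_of_norm_le_const (C := 1)
          (Eventually.of_forall fun ω => ?_)).trans ?_
        · rw [Real.norm_eq_abs]
          exact (hMB n).bdd ω
        · simp
      calc _ ≤ (1 : ℝ) * 1 := mul_le_mul h3 h4 (norm_nonneg _) zero_le_one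
        _ = 1 := one_mul 1
    calc ‖I n w‖ ≤ _ := norm_sub_le _ _
      _ ≤ 1 + 1 := add_le_add h1 h2
      _ = 2 := by norm_num
  have hlim : Tendsto (fun n => ∫ w : ℝ, Ψ w * I n w) atTop (𝓝 (∫ _ : ℝ, (0 : ℂ))) := by
    refine tendsto_integral_of_dominated_convergence (fun w => ‖Ψ w‖ * 2)
      (fun n => (hint n).aestronglyMeasurable) (hΦ.fint.norm.mul_const 2)
      (fun n => Eventually.of_forall fun w => ?_) (Eventually.of_forall fun w => ?_)
    · rw [norm_mul]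
      exact mul_le_mul_of_nonneg_left (hI2 n w) (norm_nonneg _)
    · have h1 := char_lim B A (2 * Real.pi * w) hG hs
      have h2 := h1.const_mul (Ψ w)
      rw [mul_zero] at h2
      exact h2
  rw [integral_zero] at hlim
  have hlim2 := hlim.norm
  rw [norm_zero] at hlim2
  rw [tendsto_zero_iff_norm_tendsto_zero]
  refine hlim2.congr fun n => ?_
  rw [← heq n, Complex.norm_real]


private theorem BAvgA_transfer (A : Aux p q s' δ η) (hB : ∀ n, IsProbabilityMeasure (sm p (q n)))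
    (n : ℕ) {C : ℝ} (hC : 0 < C) {F : (Fin (n + 1) → ℝ × ℝ) → ℝ} (hF : MB C F) :
    |∫ w, F w ∂(pw (sm p (q n)) (n + 1)) - ∫ w, F w ∂(pw (s' n) (n + 1))| ≤ C * η n := by
  have hprob : ∀ n, IsProbabilityMeasure (s' n) := A.prob
  have hF' : MB 1 fun w => C⁻¹ * F w := by
    refine ⟨hF.meas.const_mul _, fun w => ?_⟩
    rw [abs_mul, abs_of_pos (inv_pos.2 hC), inv_mul_le_iff₀ hC, mul_one]
    exact hF.bdd w
  have h := pi_tv (s := sm p (q n)) (s' := s' n) (A.close n) (n + 1) hF'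
  rw [integral_const_mul, integral_const_mul, ← mul_sub, abs_mul, abs_of_pos (inv_pos.2 hC),
    inv_mul_le_iff₀ hC] at h
  refine h.trans (le_of_eq ?_)
  congr 1
  push_cast
  field_simp

theorem avg_s (B : BSetup p q l σ τ) {Φ : ℝ → ℝ} (hΦ : Nice Φ)
    {G : ∀ n : ℕ, (Fin (n + 1) → ℝ) → ℝ} (hG : ∀ n, MB 1 (G n))
    (hs : Tendsto (fun n => ∫ w, |G n (ys w) - G n (xs w)| ∂(pw (sm p (q n)) (n + 1)))
      atTop (𝓝 0)) :
    Tendsto (fun n => ∫ w, Φ (Sn (Rf p (q n)) w) * G n (xs w) ∂(pw (sm p (q n)) (n + 1))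
        - (∫ x, Φ x ∂(gsn σ)) * ∫ w, G n (xs w) ∂(pw (sm p (q n)) (n + 1))) atTop (𝓝 0) := by
  obtain ⟨s', δ, η, A⟩ := B.aux
  have hprob : ∀ n, IsProbabilityMeasure (s' n) := A.prob
  have hprob2 : ∀ n, IsProbabilityMeasure (sm p (q n)) := fun n => sm_prob B.dens (B.prop n)
  have hη : ∀ C : ℝ, Tendsto (fun n => C * η n) atTop (𝓝 0) := by
    intro C
    have := A.ηlim.const_mul C
    rwa [mul_zero] at this
  have hR : ∀ n, Measurable (Rf p (q n)) := fun n => Rf_meas B.dens (B.prop n)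
  -- the three functions
  have hM1 : ∀ n, MB 1 fun w : Fin (n + 1) → ℝ × ℝ => G n (xs w) := fun n =>
    ⟨(hG n).meas.comp xs_meas, fun w => (hG n).bdd _⟩
  have hM2 : ∀ n, MB 2 fun w : Fin (n + 1) → ℝ × ℝ => |G n (ys w) - G n (xs w)| := by
    intro n
    refine ⟨(((hG n).meas.comp ys_meas).sub ((hG n).meas.comp xs_meas)).abs, fun w => ?_⟩
    rw [abs_abs]
    have h1 := abs_le.1 ((hG n).bdd (ys w))
    have h2 := abs_le.1 ((hG n).bdd (xs w))
    rw [abs_le]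
    constructor <;> linarith
  obtain ⟨C, hC⟩ := hΦ.bdd
  have hC0 : 0 ≤ C := (abs_nonneg _).trans (hC 0)
  have hM3 : ∀ n, MB (C + 1) fun w : Fin (n + 1) → ℝ × ℝ =>
      Φ (Sn (Rf p (q n)) w) * G n (xs w) := by
    intro n
    refine ⟨(hΦ.cont.measurable.comp (Sn_meas (hR n))).mul ((hG n).meas.comp xs_meas),
      fun w => ?_⟩
    rw [abs_mul]
    calc |Φ (Sn (Rf p (q n)) w)| * |G n (xs w)| ≤ C * 1 :=
          mul_le_mul (hC _) ((hG n).bdd _) (abs_nonneg _) hC0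
      _ ≤ C + 1 := by linarith
  have hs' : Tendsto (fun n => ∫ w, |G n (ys w) - G n (xs w)| ∂(pw (s' n) (n + 1))) atTop
      (𝓝 0) := by
    have h1 := hs.add (hη 2)
    rw [add_zero] at h1
    refine squeeze_zero (fun n => integral_nonneg fun w => abs_nonneg _) (fun n => ?_) h1
    have h2 := abs_le.1 (BAvgA_transfer A hprob2 n two_pos (hM2 n))
    linarith [h2.1]
  have hmain := avg_aux B A hΦ hG hs'
  set a := ∫ x, Φ x ∂(gsn σ) with ha
  have hb : Tendsto (fun n => (C + 1) * η n + |a| * (1 * η n)) atTop (𝓝 0) := by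
    have h1 := (hη (C + 1)).add ((hη 1).const_mul |a|)
    rwa [mul_zero, add_zero] at h1
  have hdiff : Tendsto (fun n =>
      (∫ w, Φ (Sn (Rf p (q n)) w) * G n (xs w) ∂(pw (sm p (q n)) (n + 1))
        - a * ∫ w, G n (xs w) ∂(pw (sm p (q n)) (n + 1)))
      - (∫ w, Φ (Sn (Rf p (q n)) w) * G n (xs w) ∂(pw (s' n) (n + 1))
        - a * ∫ w, G n (xs w) ∂(pw (s' n) (n + 1)))) atTop (𝓝 0) := by
    refine squeeze_zero_norm (fun n => ?_) hb
    have h1 := BAvgA_transfer A hprob2 n (by linarith) (hM3 n)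
    have h2 := BAvgA_transfer A hprob2 n one_pos (hM1 n)
    have h3 : (∫ w, Φ (Sn (Rf p (q n)) w) * G n (xs w) ∂(pw (sm p (q n)) (n + 1))
        - a * ∫ w, G n (xs w) ∂(pw (sm p (q n)) (n + 1)))
      - (∫ w, Φ (Sn (Rf p (q n)) w) * G n (xs w) ∂(pw (s' n) (n + 1))
        - a * ∫ w, G n (xs w) ∂(pw (s' n) (n + 1)))
      = (∫ w, Φ (Sn (Rf p (q n)) w) * G n (xs w) ∂(pw (sm p (q n)) (n + 1))
          - ∫ w, Φ (Sn (Rf p (q n)) w) * G n (xs w) ∂(pw (s' n) (n + 1)))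
        - a * (∫ w, G n (xs w) ∂(pw (sm p (q n)) (n + 1))
          - ∫ w, G n (xs w) ∂(pw (s' n) (n + 1))) := by ring
    rw [h3, Real.norm_eq_abs]
    refine (abs_sub _ _).trans (add_le_add h1 ?_)
    rw [abs_mul]
    exact mul_le_mul_of_nonneg_left h2 (abs_nonneg _)
  have := hdiff.add hmain
  rw [add_zero] at this
  refine this.congr fun n => ?_
  ring

end Pool.Agent.Lib.MP_e19099_pr
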