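import Pool.Agent.Lib.MP_e19099_pr.BNice

/-!
# The averaging lemma (module B, B9)

`PiN n = pw (tgt p) (n+1)`, `s = sm p (q n)`, `N = n + 1`.
`pi_change`: `∫ G dPiN = Z^N ∫ e^{-S/2} G(xs) ds^N` (the density of `μ^N` is the product; e.g. `pkl` is not needed: use
`Measure.pi` of a `withDensity`: `μ₁ = s.withDensity(ofReal (Z e^{-R/2}))` has first marginal `tgt p` (`integral_mu_fst`), `pw μ₁ N = (pw s N).withDensity (∏ …)`, or
induction on `N` with `pi_cons`).
`pi_exp`: `Z^N ∫ e^{-S/2} ds^N = 1 = Z^N ∫ e^{S/2} ds^N` (`integral_exp`, product).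
`avg_pi`: `I_n = ∫ G(xs) ds^N`.  For `e > 0`, `Φ_e = exp(-x/2 - e x²) ≤ exp(-x/2)`:
`|∫ G dPiN - Z^N ∫ Φ_e(S) G| ≤ 1 - Z^N ∫ Φ_e(S) → r(e) := 1 - e^{-σ²/8} ∫ Φ_e dN`, and
`Z^N ∫ Φ_e(S) G - Z^N (∫ Φ_e dN) I_n → 0`, `|Z^N ∫ Φ_e dN - 1| → r(e)`; so `limsup |∫ G dPiN - I_n| ≤ 2 r(e) → 0` (`gau_lim`).
`averaging`: combine with `avg_s` for `exp(-|x|/2)`, `B.zlim` and `abar_eq`.
-/

set_option autoImplicit false

open MeasureTheory ProbabilityTheory Filter Set
open scoped NNReal Topology ENNReal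

namespace Pool.Agent.Lib.MP_e19099_pr

variable {p : ℝ → ℝ} {q : ℕ → ℝ → ℝ → ℝ} {l σ : ℝ} {τ : ℕ → ℝ}

private theorem bb_exp (c : ℝ) {N : ℕ} (R : ℝ × ℝ → ℝ) (w : Fin N → ℝ × ℝ) :
    Real.exp (c * Sn R w) = ∏ i, Real.exp (c * R (w i)) := by
  unfold Sn
  rw [← Real.exp_sum, Finset.mul_sum]

private theorem bb_pow {s : Measure (ℝ × ℝ)} [IsProbabilityMeasure s] (c : ℝ) (R : ℝ × ℝ → ℝ)
    (h : Integrable (fun z => Real.exp (c * R z)) s) {Z : ℝ} (hZ : Z ≠ 0)
    (h1 : ∫ z, Real.exp (c * R z) ∂s = Z⁻¹) (N : ℕ) :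
    Integrable (fun w => Real.exp (c * Sn R w)) (pw s N) ∧
      Z ^ N * ∫ w, Real.exp (c * Sn R w) ∂(pw s N) = 1 := by
  have e1 : (fun w : Fin N → ℝ × ℝ => Real.exp (c * Sn R w)) =
      fun w => ∏ i, (fun (_ : Fin N) (z : ℝ × ℝ) => Real.exp (c * R z)) i (w i) := by
    funext w
    exact bb_exp c R w
  rw [e1]
  constructor
  · exact Integrable.fintype_prod fun _ => h
  · have h2 := integral_fintype_prod_eq_prod (μ := fun _ : Fin N => s)
      (fun (_ : Fin N) (z : ℝ × ℝ) => Real.exp (c * R z))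
    rw [h2]
    simp only [h1, Finset.prod_const, Finset.card_univ, Fintype.card_fin]
    rw [inv_pow, mul_inv_cancel₀ (pow_ne_zero _ hZ)]

theorem pi_exp (B : BSetup p q l σ τ) (n N : ℕ) :
    (Integrable (fun w => Real.exp (-(Sn (Rf p (q n)) w) / 2)) (pw (sm p (q n)) N) ∧
      Zf p (q n) ^ N * ∫ w, Real.exp (-(Sn (Rf p (q n)) w) / 2) ∂(pw (sm p (q n)) N) = 1) ∧
    (Integrable (fun w => Real.exp (Sn (Rf p (q n)) w / 2)) (pw (sm p (q n)) N) ∧
      Zf p (q n) ^ N * ∫ w, Real.exp (Sn (Rf p (q n)) w / 2) ∂(pw (sm p (q n)) N) = 1) := by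
  have := sm_prob B.dens (B.prop n)
  have hZ := (Zf_pos B.dens (B.prop n)).ne'
  have h1 := exp_integrable B.dens (B.prop n)
  have h2 := integral_exp B.dens (B.prop n)
  have e1 : (fun z => Real.exp (-(Rf p (q n) z) / 2)) =
      fun z => Real.exp ((-1 / 2) * Rf p (q n) z) := by
    funext z
    congr 1
    ring
  have e2 : (fun z => Real.exp (Rf p (q n) z / 2)) =
      fun z => Real.exp ((1 / 2) * Rf p (q n) z) := by
    funext z
    congr 1
    ring
  have e3 : (fun w : Fin N → ℝ × ℝ => Real.exp (-(Sn (Rf p (q n)) w) / 2)) =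
      fun w => Real.exp ((-1 / 2) * Sn (Rf p (q n)) w) := by
    funext z
    congr 1
    ring
  have e4 : (fun w : Fin N → ℝ × ℝ => Real.exp (Sn (Rf p (q n)) w / 2)) =
      fun w => Real.exp ((1 / 2) * Sn (Rf p (q n)) w) := by
    funext z
    congr 1
    ring
  rw [e1, e2] at h1 h2
  rw [e3, e4]
  exact ⟨bb_pow (-1 / 2) (Rf p (q n)) h1.1 hZ h2.1 N, bb_pow (1 / 2) (Rf p (q n)) h1.2 hZ h2.2 N⟩

private theorem bb_cons_meas {N : ℕ} {α : Type*} [MeasurableSpace α] :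
    Measurable (fun z : α × (Fin N → α) => (Fin.cons z.1 z.2 : Fin (N + 1) → α)) := by
  rw [measurable_pi_iff]
  intro i
  refine Fin.cases ?_ (fun j => ?_) i
  · simp only [Fin.cons_zero]
    exact measurable_fst
  · simp only [Fin.cons_succ]
    exact (measurable_pi_apply j).comp measurable_snd

private theorem bb_change (B : BSetup p q l σ τ) (n : ℕ) {C : ℝ} (N : ℕ) :
    ∀ G : (Fin N → ℝ) → ℝ, MB C G → ∫ x, G x ∂(pw (tgt p) N)
      = Zf p (q n) ^ N * ∫ w, Real.exp (-(Sn (Rf p (q n)) w) / 2) * G (xs w)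
          ∂(pw (sm p (q n)) N) := by
  have i1 := sm_prob B.dens (B.prop n)
  have i2 := tgt_prob B.dens
  have hRm := Rf_meas B.dens (B.prop n)
  induction N with
  | zero =>
    intro G hG
    have d1 : pw (tgt p) 0 = Measure.dirac (isEmptyElim) := Measure.pi_of_empty _
    have d2 : pw (sm p (q n)) 0 = Measure.dirac (isEmptyElim) := Measure.pi_of_empty _
    rw [d1, d2, integral_dirac, integral_dirac, pow_zero, one_mul]
    have e1 : Sn (Rf p (q n)) (isEmptyElim : Fin 0 → ℝ × ℝ) = 0 := by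
      unfold Sn
      exact Finset.sum_of_isEmpty _
    rw [e1, neg_zero, zero_div, Real.exp_zero, one_mul]
    congr 1
    exact Subsingleton.elim _ _
  | succ N ih =>
    intro G hG
    have hGc : ∀ z, MB C (fun w : Fin N → ℝ => G (Fin.cons z w)) := fun z =>
      ⟨hG.meas.comp (bb_cons_meas.comp (measurable_const.prodMk measurable_id)),
        fun w => hG.bdd _⟩
    have hGi : Integrable G (pw (tgt p) (N + 1)) :=
      Integrable.of_bound hG.meas.aestronglyMeasurable C (Eventually.of_forall hG.bdd)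
    rw [pi_cons hGi]
    set H : ℝ → ℝ := fun z => ∫ w, G (Fin.cons z w) ∂(pw (tgt p) N) with hH
    have hHm : Measurable H := by
      have h1 : StronglyMeasurable (fun z : ℝ × (Fin N → ℝ) => G (Fin.cons z.1 z.2)) :=
        (hG.meas.comp bb_cons_meas).stronglyMeasurable
      exact (h1.integral_prod_right' (ν := pw (tgt p) N)).measurable
    have hHb : ∀ z, |H z| ≤ C := by
      intro z
      have h1 := norm_integral_le_of_norm_le_const (μ := pw (tgt p) N)
        (f := fun w => G (Fin.cons z w)) (C := C) (Eventually.of_forall (hGc z).bdd)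
      simpa using h1
    have hmu := integral_mu_fst B.dens (B.prop n) hHm hHb
    rw [← hmu]
    have hint : Integrable (fun w : Fin (N + 1) → ℝ × ℝ =>
        Real.exp (-(Sn (Rf p (q n)) w) / 2) * G (xs w)) (pw (sm p (q n)) (N + 1)) :=
      (pi_exp B n (N + 1)).1.1.mul_bdd (c := C) (hG.meas.comp xs_meas).aestronglyMeasurable
        (Eventually.of_forall fun w => hG.bdd _)
    rw [pi_cons hint, pow_succ, mul_comm (Zf p (q n) ^ N), mul_assoc]
    refine congrArg (fun x => Zf p (q n) * x) ?_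
    rw [← integral_const_mul]
    refine integral_congr_ae (Eventually.of_forall fun z => ?_)
    have h2 : ∀ w : Fin N → ℝ × ℝ, Real.exp (-(Sn (Rf p (q n)) (Fin.cons z w)) / 2) *
        G (xs (Fin.cons z w)) = Real.exp (-(Rf p (q n) z) / 2) *
          (Real.exp (-(Sn (Rf p (q n)) w) / 2) * G (Fin.cons z.1 (xs w))) := by
      intro w
      have e1 : Sn (Rf p (q n)) (Fin.cons z w : Fin (N + 1) → ℝ × ℝ) =
          Rf p (q n) z + Sn (Rf p (q n)) w := by
        unfold Sn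
        rw [Fin.sum_univ_succ]
        simp only [Fin.cons_zero, Fin.cons_succ]
      have e2 : xs (Fin.cons z w : Fin (N + 1) → ℝ × ℝ) = Fin.cons z.1 (xs w) := by
        funext i
        refine Fin.cases ?_ (fun j => ?_) i
        · simp [xs]
        · simp [xs]
      rw [e1, e2, ← mul_assoc, ← Real.exp_add]
      congr 2
      ring
    simp only [h2]
    rw [integral_const_mul, hH]
    simp only
    rw [ih _ (hGc z.1)]
    ring

theorem pi_change (B : BSetup p q l σ τ) (n N : ℕ) {C : ℝ} {G : (Fin N → ℝ) → ℝ} (hG : MB C G) :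
    ∫ x, G x ∂(pw (tgt p) N)
      = Zf p (q n) ^ N * ∫ w, Real.exp (-(Sn (Rf p (q n)) w) / 2) * G (xs w)
          ∂(pw (sm p (q n)) N) :=
  bb_change B n N G hG

private theorem bb_zeta (B : BSetup p q l σ τ) (n N : ℕ) :
    0 ≤ Zf p (q n) ^ N ∧ Zf p (q n) ^ N ≤ 1 :=
  ⟨pow_nonneg (Zf_pos B.dens (B.prop n)).le _,
    pow_le_one₀ (Zf_pos B.dens (B.prop n)).le (Zf_le B.dens (B.prop n))⟩

private theorem bb_abs_le {α : Type*} [MeasurableSpace α] {μ : Measure α} [IsProbabilityMeasure μ]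
    {f : α → ℝ} {C : ℝ} (h : ∀ x, |f x| ≤ C) : |∫ x, f x ∂μ| ≤ C := by
  have h1 := norm_integral_le_of_norm_le_const (μ := μ) (f := f) (C := C) (Eventually.of_forall h)
  simpa using h1

theorem avg_pi (B : BSetup p q l σ τ) {G : ∀ n : ℕ, (Fin (n + 1) → ℝ) → ℝ}
    (hG : ∀ n, MB 1 (G n))
    (hs : Tendsto (fun n => ∫ w, |G n (ys w) - G n (xs w)| ∂(pw (sm p (q n)) (n + 1)))
      atTop (𝓝 0)) :
    Tendsto (fun n => ∫ x, G n x ∂(pw (tgt p) (n + 1))
      - ∫ w, G n (xs w) ∂(pw (sm p (q n)) (n + 1))) atTop (𝓝 0) := by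
  have hz := B.zlim
  set z := Real.exp (-σ ^ 2 / 8) with hzdef
  have hz0 : 0 < z := Real.exp_pos _
  -- the limit of the constants
  have hlim : Tendsto (fun e : ℝ => z * ∫ x, Real.exp (-x / 2 - e * x ^ 2) ∂(gsn σ)) (𝓝[>] 0)
      (𝓝 1) := by
    have h1 := (gau_lim σ).const_mul z
    have h2 : z * Real.exp (σ ^ 2 / 8) = 1 := by
      rw [hzdef, ← Real.exp_add]
      have : -σ ^ 2 / 8 + σ ^ 2 / 8 = 0 := by ring
      rw [this, Real.exp_zero]
    rwa [h2] at h1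
  rw [Metric.tendsto_atTop]
  intro ε hε
  have h3 : ∀ᶠ e : ℝ in 𝓝[>] 0, |z * ∫ x, Real.exp (-x / 2 - e * x ^ 2) ∂(gsn σ) - 1| < ε / 4 := by
    have := (Metric.tendsto_nhds.mp hlim) (ε / 4) (by positivity)
    simpa only [Real.dist_eq] using this
  obtain ⟨e, h4, he⟩ := (h3.and self_mem_nhdsWithin).exists
  have he' : 0 < e := he
  set g := ∫ x, Real.exp (-x / 2 - e * x ^ 2) ∂(gsn σ) with hg
  have hN := nice_gau he'
  have a1 := avg_s B hN hG hs
  have a2 := avg_s B hN (G := fun _ _ => (1 : ℝ)) (fun n => ⟨measurable_const, fun x => by simp⟩)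
    (by simp)
  obtain ⟨C, hC⟩ := hN.bdd
  set Φ : ℝ → ℝ := fun x => Real.exp (-x / 2 - e * x ^ 2) with hΦ
  -- the bound
  have hb : ∀ n : ℕ, |∫ x, G n x ∂(pw (tgt p) (n + 1))
      - ∫ w, G n (xs w) ∂(pw (sm p (q n)) (n + 1))| ≤
      (1 - Zf p (q n) ^ (n + 1) * ∫ w, Φ (Sn (Rf p (q n)) w) ∂(pw (sm p (q n)) (n + 1))) +
      Zf p (q n) ^ (n + 1) * |∫ w, Φ (Sn (Rf p (q n)) w) * G n (xs w) ∂(pw (sm p (q n)) (n + 1))
        - g * ∫ w, G n (xs w) ∂(pw (sm p (q n)) (n + 1))| + |Zf p (q n) ^ (n + 1) * g - 1| := by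
    intro n
    have i1 := sm_prob B.dens (B.prop n)
    have hRm := Rf_meas B.dens (B.prop n)
    have hzn := bb_zeta B n (n + 1)
    have hpe := (pi_exp B n (n + 1)).1
    rw [pi_change B n (n + 1) (hG n)]
    set ζ := Zf p (q n) ^ (n + 1) with hζ
    have hGm : AEStronglyMeasurable (fun w : Fin (n + 1) → ℝ × ℝ => G n (xs w))
        (pw (sm p (q n)) (n + 1)) := ((hG n).meas.comp xs_meas).aestronglyMeasurable
    have hGb : ∀ᵐ w ∂(pw (sm p (q n)) (n + 1)), ‖G n (xs w)‖ ≤ 1 :=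
      Eventually.of_forall fun w => (hG n).bdd _
    have hΦi : Integrable (fun w => Φ (Sn (Rf p (q n)) w)) (pw (sm p (q n)) (n + 1)) :=
      Integrable.of_bound (hN.cont.measurable.comp (Sn_meas hRm)).aestronglyMeasurable C
        (Eventually.of_forall fun w => hC _)
    have hΦG : Integrable (fun w => Φ (Sn (Rf p (q n)) w) * G n (xs w))
        (pw (sm p (q n)) (n + 1)) := hΦi.mul_bdd hGm hGb
    have hEG : Integrable (fun w => Real.exp (-(Sn (Rf p (q n)) w) / 2) * G n (xs w))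
        (pw (sm p (q n)) (n + 1)) := hpe.1.mul_bdd hGm hGb
    have hI : |∫ w, G n (xs w) ∂(pw (sm p (q n)) (n + 1))| ≤ 1 := bb_abs_le fun w => (hG n).bdd _
    have hle : ∀ w : Fin (n + 1) → ℝ × ℝ, Φ (Sn (Rf p (q n)) w) ≤
        Real.exp (-(Sn (Rf p (q n)) w) / 2) := by
      intro w
      rw [hΦ]
      apply Real.exp_le_exp.mpr
      have : 0 ≤ e * Sn (Rf p (q n)) w ^ 2 := by positivity
      linarith
    have hd : |∫ w, Real.exp (-(Sn (Rf p (q n)) w) / 2) * G n (xs w) ∂(pw (sm p (q n)) (n + 1)) -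
        ∫ w, Φ (Sn (Rf p (q n)) w) * G n (xs w) ∂(pw (sm p (q n)) (n + 1))| ≤
        ∫ w, Real.exp (-(Sn (Rf p (q n)) w) / 2) ∂(pw (sm p (q n)) (n + 1)) -
        ∫ w, Φ (Sn (Rf p (q n)) w) ∂(pw (sm p (q n)) (n + 1)) := by
      rw [← integral_sub hEG hΦG, ← integral_sub hpe.1 hΦi]
      refine (abs_integral_le_integral_abs).trans ?_
      refine integral_mono (hEG.sub hΦG).abs (hpe.1.sub hΦi) fun w => ?_
      have h5 : Real.exp (-(Sn (Rf p (q n)) w) / 2) * G n (xs w) -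
          Φ (Sn (Rf p (q n)) w) * G n (xs w) =
          (Real.exp (-(Sn (Rf p (q n)) w) / 2) - Φ (Sn (Rf p (q n)) w)) * G n (xs w) := by ring
      simp only [h5, abs_mul]
      have h6 : 0 ≤ Real.exp (-(Sn (Rf p (q n)) w) / 2) - Φ (Sn (Rf p (q n)) w) := by
        linarith [hle w]
      rw [abs_of_nonneg h6]
      exact mul_le_of_le_one_right h6 ((hG n).bdd _)
    set E := ∫ w, Real.exp (-(Sn (Rf p (q n)) w) / 2) ∂(pw (sm p (q n)) (n + 1)) with hE
    set J := ∫ w, Φ (Sn (Rf p (q n)) w) ∂(pw (sm p (q n)) (n + 1)) with hJ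
    set EG := ∫ w, Real.exp (-(Sn (Rf p (q n)) w) / 2) * G n (xs w)
      ∂(pw (sm p (q n)) (n + 1)) with hEGd
    set JG := ∫ w, Φ (Sn (Rf p (q n)) w) * G n (xs w) ∂(pw (sm p (q n)) (n + 1)) with hJG
    set I := ∫ w, G n (xs w) ∂(pw (sm p (q n)) (n + 1)) with hId
    have h7 : ζ * EG - I = ζ * (EG - JG) + ζ * (JG - g * I) + (ζ * g - 1) * I := by ring
    have h8 : |ζ * (EG - JG)| ≤ 1 - ζ * J := by
      rw [abs_mul, abs_of_nonneg hzn.1, ← hpe.2, ← mul_sub]
      exact mul_le_mul_of_nonneg_left hd hzn.1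
    have h9 : |(ζ * g - 1) * I| ≤ |ζ * g - 1| := by
      rw [abs_mul]
      exact mul_le_of_le_one_right (abs_nonneg _) hI
    have h10 : |ζ * (JG - g * I)| = ζ * |JG - g * I| := by
      rw [abs_mul, abs_of_nonneg hzn.1]
    rw [h7]
    have h11 := abs_add_three (ζ * (EG - JG)) (ζ * (JG - g * I)) ((ζ * g - 1) * I)
    linarith
  -- the limit of the bound
  have l2 : Tendsto (fun n : ℕ => ∫ w, Φ (Sn (Rf p (q n)) w) ∂(pw (sm p (q n)) (n + 1))) atTop
      (𝓝 g) := by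
    have h5 : ∀ n : ℕ, ∫ w, Φ (Sn (Rf p (q n)) w) ∂(pw (sm p (q n)) (n + 1)) =
        (∫ w, Φ (Sn (Rf p (q n)) w) * (1 : ℝ) ∂(pw (sm p (q n)) (n + 1)) -
          g * ∫ _w, (1 : ℝ) ∂(pw (sm p (q n)) (n + 1))) + g := by
      intro n
      have i1 := sm_prob B.dens (B.prop n)
      simp
    have h6 := a2.add_const g
    rw [zero_add] at h6
    exact h6.congr fun n => (h5 n).symm
  have l3 : Tendsto (fun n : ℕ =>
      (1 - Zf p (q n) ^ (n + 1) * ∫ w, Φ (Sn (Rf p (q n)) w) ∂(pw (sm p (q n)) (n + 1))) +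
      Zf p (q n) ^ (n + 1) * |∫ w, Φ (Sn (Rf p (q n)) w) * G n (xs w) ∂(pw (sm p (q n)) (n + 1))
        - g * ∫ w, G n (xs w) ∂(pw (sm p (q n)) (n + 1))| + |Zf p (q n) ^ (n + 1) * g - 1|) atTop
      (𝓝 ((1 - z * g) + z * |0| + |z * g - 1|)) :=
    (((hz.mul l2).const_sub 1).add (hz.mul a1.abs)).add ((hz.mul_const g).sub_const 1).abs
  have h12 : (1 - z * g) + z * |0| + |z * g - 1| < ε := by
    rw [abs_zero, mul_zero, add_zero]
    have := neg_abs_le (z * g - 1)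
    linarith
  obtain ⟨n₀, hn₀⟩ := Filter.eventually_atTop.mp (l3.eventually (gt_mem_nhds h12))
  refine ⟨n₀, fun n hn => ?_⟩
  rw [Real.dist_eq, sub_zero]
  exact lt_of_le_of_lt (hb n) (hn₀ n hn)

theorem averaging (B : BSetup p q l σ τ) {G : ∀ n : ℕ, (Fin (n + 1) → ℝ) → ℝ} {M : ℝ}
    (hG : ∀ n, MB M (G n))
    (hs : Tendsto (fun n => ∫ w, |G n (ys w) - G n (xs w)| ∂(pw (sm p (q n)) (n + 1)))
      atTop (𝓝 0)) :
    Tendsto (fun n => Zf p (q n) ^ (n + 1)
        * (∫ w, Real.exp (-|Sn (Rf p (q n)) w| / 2) * G n (xs w) ∂(pw (sm p (q n)) (n + 1)))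
      - abar σ * ∫ x, G n x ∂(pw (tgt p) (n + 1))) atTop (𝓝 0) := by
  set K := max M 1 with hK
  have hK0 : 0 < K := lt_of_lt_of_le one_pos (le_max_right _ _)
  set G' : ∀ n : ℕ, (Fin (n + 1) → ℝ) → ℝ := fun n x => K⁻¹ * G n x with hG'
  have hGb : ∀ n, MB 1 (G' n) := by
    intro n
    refine ⟨(hG n).meas.const_mul _, fun x => ?_⟩
    rw [hG']
    simp only [abs_mul]
    rw [abs_of_pos (inv_pos.mpr hK0), inv_mul_le_iff₀ hK0, mul_one]
    exact ((hG n).bdd x).trans (le_max_left _ _)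
  have hs' : Tendsto (fun n => ∫ w, |G' n (ys w) - G' n (xs w)| ∂(pw (sm p (q n)) (n + 1)))
      atTop (𝓝 0) := by
    have h1 := hs.const_mul K⁻¹
    rw [mul_zero] at h1
    refine h1.congr fun n => ?_
    rw [← integral_const_mul]
    refine integral_congr_ae (Eventually.of_forall fun w => ?_)
    simp only [hG']
    rw [← mul_sub, abs_mul, abs_of_pos (inv_pos.mpr hK0)]
  have a1 := avg_s B nice_abs hGb hs'
  have a2 := avg_pi B hGb hs'
  have hz := B.zlim
  set z := Real.exp (-σ ^ 2 / 8) with hzdef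
  set A := ∫ x, Real.exp (-|x| / 2) ∂(gsn σ) with hA
  have hab : z * A = abar σ := abar_eq B.σpos
  -- `G'`
  have key : Tendsto (fun n => Zf p (q n) ^ (n + 1)
        * (∫ w, Real.exp (-|Sn (Rf p (q n)) w| / 2) * G' n (xs w) ∂(pw (sm p (q n)) (n + 1)))
      - abar σ * ∫ x, G' n x ∂(pw (tgt p) (n + 1))) atTop (𝓝 0) := by
    have t1 := hz.mul a1
    rw [mul_zero] at t1
    have t2 : Tendsto (fun n => (Zf p (q n) ^ (n + 1) * A - abar σ) *
        ∫ w, G' n (xs w) ∂(pw (sm p (q n)) (n + 1))) atTop (𝓝 0) := by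
      have h1 : Tendsto (fun n => |Zf p (q n) ^ (n + 1) * A - abar σ|) atTop (𝓝 0) := by
        have h2 := ((hz.mul_const A).sub_const (abar σ)).abs
        rw [hab, sub_self, abs_zero] at h2
        exact h2
      rw [tendsto_zero_iff_abs_tendsto_zero]
      refine squeeze_zero (fun n => abs_nonneg _) (fun n => ?_) h1
      have i1 := sm_prob B.dens (B.prop n)
      rw [Function.comp_apply, abs_mul]
      exact mul_le_of_le_one_right (abs_nonneg _) (bb_abs_le fun w => (hGb n).bdd _)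
    have t3 := a2.const_mul (abar σ)
    rw [mul_zero] at t3
    have t4 := (t1.add t2).sub t3
    rw [add_zero, sub_zero] at t4
    refine t4.congr fun n => ?_
    ring
  have h1 := key.const_mul K
  rw [mul_zero] at h1
  refine h1.congr fun n => ?_
  have e1 : ∫ w, Real.exp (-|Sn (Rf p (q n)) w| / 2) * G' n (xs w) ∂(pw (sm p (q n)) (n + 1)) =
      K⁻¹ * ∫ w, Real.exp (-|Sn (Rf p (q n)) w| / 2) * G n (xs w)
        ∂(pw (sm p (q n)) (n + 1)) := by
    rw [← integral_const_mul]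
    refine integral_congr_ae (Eventually.of_forall fun w => ?_)
    simp only [hG']
    ring
  have e2 : ∫ x, G' n x ∂(pw (tgt p) (n + 1)) = K⁻¹ * ∫ x, G n x ∂(pw (tgt p) (n + 1)) := by
    rw [← integral_const_mul]
  rw [e1, e2]
  field_simp

end Pool.Agent.Lib.MP_e19099_pr
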