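import Pool.Agent.Lib.MP_e19099_pr.BSetup

/-!
# Product measures (module B, B2)

`xs w`, `ys w` are the two halves of `w : Fin N → ℝ × ℝ`, `Sn R w = ∑ R (w i)`.
`pi_tv`: by induction on `N` with `measurePreserving_piFinSuccAbove` (one coordinate split off, Fubini):
`|∫ F d(s^{N+1}) - ∫ F d(s'^{N+1})| ≤ ∫ |∫ F(z, ·) ds^N - ∫ F(z, ·) ds'^N| ds(z) + |∫ (∫ F(z, ·) ds'^N) d(s - s')(z)|`.
`pi_cons`: `measurePreserving_piFinSuccAbove (fun _ => α) 0`, `Fin.cons z w = Fin.insertNth 0 z w`.
`pi_swap`: `Measure.pi_map_pi` with `Prod.swap`.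
`pkl`: induction on `N` with `pi_cons`; for fixed first coordinate the integral over the other ones is computed by the induction hypothesis for
`ψ (cons c₀ ·)`, which gives a bounded measurable function `H (C ω₀)`, then use `ha` with `θ = H`.
-/

set_option autoImplicit false

open MeasureTheory ProbabilityTheory Filter Set
open scoped NNReal Topology ENNReal

namespace Pool.Agent.Lib.MP_e19099_pr

/-- first halves -/
def xs {N : ℕ} (w : Fin N → ℝ × ℝ) : Fin N → ℝ := fun i => (w i).1

/-- second halves -/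
def ys {N : ℕ} (w : Fin N → ℝ × ℝ) : Fin N → ℝ := fun i => (w i).2

/-- the sum of the `R (w i)` -/
noncomputable def Sn (R : ℝ × ℝ → ℝ) {N : ℕ} (w : Fin N → ℝ × ℝ) : ℝ := ∑ i, R (w i)

/-- the power of a measure -/
noncomputable abbrev pw {α : Type*} [MeasurableSpace α] (s : Measure α) (N : ℕ) :
    Measure (Fin N → α) := Measure.pi fun _ => s

theorem xs_meas {N : ℕ} : Measurable (xs : (Fin N → ℝ × ℝ) → Fin N → ℝ) :=
  measurable_pi_lambda _ fun i => measurable_fst.comp (measurable_pi_apply i)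

theorem ys_meas {N : ℕ} : Measurable (ys : (Fin N → ℝ × ℝ) → Fin N → ℝ) :=
  measurable_pi_lambda _ fun i => measurable_snd.comp (measurable_pi_apply i)

theorem Sn_meas {R : ℝ × ℝ → ℝ} (hR : Measurable R) {N : ℕ} :
    Measurable (Sn R : (Fin N → ℝ × ℝ) → ℝ) := by
  unfold Sn
  exact Finset.measurable_sum _ fun i _ => hR.comp (measurable_pi_apply i)

namespace BPiAux

variable {α : Type*} [MeasurableSpace α] {s : Measure α} [IsProbabilityMeasure s]

/-- `Fin.cons` preserves the product measures -/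
theorem mp_cons (s : Measure α) [IsProbabilityMeasure s] (N : ℕ) :
    MeasurePreserving (MeasurableEquiv.piFinSuccAbove (fun _ : Fin (N + 1) => α) 0).symm
      (s.prod (pw s N)) (pw s (N + 1)) :=
  (measurePreserving_piFinSuccAbove (fun _ : Fin (N + 1) => s) 0).symm _

theorem equiv_cons {N : ℕ} (z : α × (Fin N → α)) :
    (MeasurableEquiv.piFinSuccAbove (fun _ : Fin (N + 1) => α) 0).symm z
      = (Fin.cons z.1 z.2 : Fin (N + 1) → α) := by
  exact Fin.insertNth_zero' (β := α) z.1 z.2

theorem cons_meas {N : ℕ} :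
    Measurable (fun z : α × (Fin N → α) => (Fin.cons z.1 z.2 : Fin (N + 1) → α)) := by
  have h := (MeasurableEquiv.piFinSuccAbove (fun _ : Fin (N + 1) => α) 0).symm.measurable
  exact (funext fun z => equiv_cons z : _ = fun z : α × (Fin N → α) =>
    (Fin.cons z.1 z.2 : Fin (N + 1) → α)) ▸ h

theorem cons_eq {N : ℕ} {G : Type*} [NormedAddCommGroup G] [NormedSpace ℝ G]
    (F : (Fin (N + 1) → α) → G) :
    ∫ w, F w ∂(pw s (N + 1)) = ∫ z : α × (Fin N → α), F (Fin.cons z.1 z.2) ∂(s.prod (pw s N)) := by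
  rw [← (mp_cons s N).integral_comp' F]
  refine integral_congr_ae (Eventually.of_forall fun z => ?_)
  simp only
  rw [equiv_cons]

theorem cons_int {N : ℕ} {G : Type*} [NormedAddCommGroup G]
    {F : (Fin (N + 1) → α) → G} (hF : Integrable F (pw s (N + 1))) :
    Integrable (fun z : α × (Fin N → α) => F (Fin.cons z.1 z.2)) (s.prod (pw s N)) := by
  have h := (mp_cons s N).integrable_comp_of_integrable hF
  refine h.congr (Eventually.of_forall fun z => ?_)
  simp only [Function.comp_apply]
  rw [equiv_cons]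

theorem gcons {N : ℕ} {G : Type*} [NormedAddCommGroup G] [NormedSpace ℝ G]
    {F : (Fin (N + 1) → α) → G} (hF : Integrable F (pw s (N + 1))) :
    ∫ w, F w ∂(pw s (N + 1)) = ∫ z, ∫ w, F (Fin.cons z w) ∂(pw s N) ∂s := by
  rw [cons_eq, integral_prod _ (cons_int hF)]

end BPiAux

section tools

variable {α : Type*} [MeasurableSpace α] {s s' : Measure α} [IsProbabilityMeasure s]
  [IsProbabilityMeasure s']

theorem pi_tv {η : ℝ} (h : ∀ F : α → ℝ, MB 1 F → |∫ z, F z ∂s - ∫ z, F z ∂s'| ≤ η) (N : ℕ)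
    {F : (Fin N → α) → ℝ} (hF : MB 1 F) :
    |∫ w, F w ∂(pw s N) - ∫ w, F w ∂(pw s' N)| ≤ N * η := by
  have hint : ∀ {β : Type _} [MeasurableSpace β] (μ : Measure β) [IsFiniteMeasure μ] {G : β → ℝ},
      MB 1 G → Integrable G μ := fun μ _ G hG =>
    Integrable.of_bound hG.meas.aestronglyMeasurable 1 (Eventually.of_forall hG.bdd)
  induction N with
  | zero =>
    have h1 : pw s 0 = pw s' 0 := by
      unfold pw
      rw [Measure.pi_of_empty (fun _ : Fin 0 => s) (fun i => i.elim0),
        Measure.pi_of_empty (fun _ : Fin 0 => s') (fun i => i.elim0)]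
    rw [h1]
    simp
  | succ N ih =>
    have hcons : ∀ z, MB 1 (fun w : Fin N → α => F (Fin.cons z w)) := fun z =>
      ⟨hF.meas.comp (BPiAux.cons_meas.comp measurable_prodMk_left), fun w => hF.bdd _⟩
    have hFm : Measurable fun z : α × (Fin N → α) => F (Fin.cons z.1 z.2) :=
      hF.meas.comp BPiAux.cons_meas
    set G : α → ℝ := fun z => ∫ w, F (Fin.cons z w) ∂(pw s N) with hG
    set G' : α → ℝ := fun z => ∫ w, F (Fin.cons z w) ∂(pw s' N) with hG'
    have hGm : MB 1 G := by
      refine ⟨(hFm.stronglyMeasurable.integral_prod_right').measurable, fun z => ?_⟩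
      have h := norm_integral_le_of_norm_le_const (μ := pw s N) (f := fun w => F (Fin.cons z w))
        (C := 1) (Eventually.of_forall (hcons z).bdd)
      simpa using h
    have hGm' : MB 1 G' := by
      refine ⟨(hFm.stronglyMeasurable.integral_prod_right').measurable, fun z => ?_⟩
      have h := norm_integral_le_of_norm_le_const (μ := pw s' N) (f := fun w => F (Fin.cons z w))
        (C := 1) (Eventually.of_forall (hcons z).bdd)
      simpa using h
    have e1 : ∫ w, F w ∂(pw s (N + 1)) = ∫ z, G z ∂s := BPiAux.gcons (hint _ hF)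
    have e2 : ∫ w, F w ∂(pw s' (N + 1)) = ∫ z, G' z ∂s' := BPiAux.gcons (hint _ hF)
    rw [e1, e2]
    have h1 : |∫ z, G z ∂s - ∫ z, G' z ∂s| ≤ N * η := by
      rw [← integral_sub (hint s hGm) (hint s hGm')]
      have h := norm_integral_le_of_norm_le_const (μ := s) (f := fun z => G z - G' z)
        (C := N * η) (Eventually.of_forall fun z => ih (hcons z))
      simpa using h
    have h2 := h G' hGm'
    have h3 : ∫ z, G z ∂s - ∫ z, G' z ∂s' = (∫ z, G z ∂s - ∫ z, G' z ∂s)
        + (∫ z, G' z ∂s - ∫ z, G' z ∂s') := by ring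
    rw [h3]
    push_cast
    calc _ ≤ |∫ z, G z ∂s - ∫ z, G' z ∂s| + |∫ z, G' z ∂s - ∫ z, G' z ∂s'| := abs_add_le _ _
      _ ≤ N * η + η := add_le_add h1 h2
      _ = (N + 1) * η := by ring

theorem pi_cons {N : ℕ} {F : (Fin (N + 1) → α) → ℝ} (hF : Integrable F (pw s (N + 1))) :
    ∫ w, F w ∂(pw s (N + 1)) = ∫ z, ∫ w, F (Fin.cons z w) ∂(pw s N) ∂s :=
  BPiAux.gcons hF

theorem pi_cons_lintegral {N : ℕ} {F : (Fin (N + 1) → α) → ℝ≥0∞} (hF : Measurable F) :
    ∫⁻ w, F w ∂(pw s (N + 1)) = ∫⁻ z, ∫⁻ w, F (Fin.cons z w) ∂(pw s N) ∂s := by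
  rw [← (BPiAux.mp_cons s N).lintegral_comp hF]
  have h : ∀ z : α × (Fin N → α),
      F ((MeasurableEquiv.piFinSuccAbove (fun _ : Fin (N + 1) => α) 0).symm z)
        = F (Fin.cons z.1 z.2) := fun z => by rw [BPiAux.equiv_cons]
  simp_rw [h]
  have hm : Measurable fun z : α × (Fin N → α) => F (Fin.cons z.1 z.2) :=
    hF.comp BPiAux.cons_meas
  exact lintegral_prod _ hm.aemeasurable

/-- the law of the coordinate `0` -/
theorem pi_zero {N : ℕ} {f : α → ℝ} (hf : Integrable f s) :
    Integrable (fun w : Fin (N + 1) → α => f (w 0)) (pw s (N + 1)) ∧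
      ∫ w : Fin (N + 1) → α, f (w 0) ∂(pw s (N + 1)) = ∫ z, f z ∂s := by
  have h := measurePreserving_eval (fun _ : Fin (N + 1) => s) 0
  refine ⟨h.integrable_comp_of_integrable hf, ?_⟩
  have h2 : ∫ z, f z ∂((pw s (N + 1)).map (Function.eval 0))
      = ∫ w : Fin (N + 1) → α, f (w 0) ∂(pw s (N + 1)) := by
    apply integral_map h.measurable.aemeasurable
    rw [h.map_eq]
    exact hf.aestronglyMeasurable
  rw [← h2, h.map_eq]

end tools

theorem pi_swap {s : Measure (ℝ × ℝ)} [IsProbabilityMeasure s] (hs : s.map Prod.swap = s) (N : ℕ) :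
    (pw s N).map (fun w i => (w i).swap) = pw s N := by
  have hs' : ∀ _ : Fin N, SigmaFinite (s.map Prod.swap) := fun _ => by
    rw [hs]
    infer_instance
  have h := Measure.pi_map_pi (μ := fun _ : Fin N => s) (f := fun _ : Fin N => Prod.swap)
    (hμ := hs') (fun _ => measurable_swap.aemeasurable)
  unfold pw
  rw [h]
  simp only [hs]

/-- the law of the first halves -/
theorem pi_xs {s : Measure (ℝ × ℝ)} [IsProbabilityMeasure s] (N : ℕ) :
    (pw s N).map xs = pw (s.map Prod.fst) N := by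
  have hs' : ∀ _ : Fin N, SigmaFinite (s.map Prod.fst) := fun _ => by
    have : IsProbabilityMeasure (s.map Prod.fst) :=
      Measure.isProbabilityMeasure_map measurable_fst.aemeasurable
    infer_instance
  exact Measure.pi_map_pi (μ := fun _ : Fin N => s) (f := fun _ : Fin N => Prod.fst)
    (hμ := hs') (fun _ => measurable_fst.aemeasurable)

theorem pkl {Ω : Type*} [MeasurableSpace Ω] {P : Measure Ω} [IsProbabilityMeasure P] {c : Ω → ℝ}
    (hc : Measurable c) {f : Ω → ℂ} (hf : Measurable f) (hf1 : ∀ ω, ‖f ω‖ ≤ 1) {a : ℝ → ℂ}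
    (ha : Measurable a) {A : ℝ} (ha1 : ∀ x, ‖a x‖ ≤ A)
    (h : ∀ (C : ℝ) (θ : ℝ → ℝ), MB C θ →
      ∫ ω, f ω * (θ (c ω) : ℂ) ∂P = ∫ x, a x * (θ x : ℂ) ∂(P.map c))
    (N : ℕ) {C : ℝ} {ψ : (Fin N → ℝ) → ℂ} (hψ : Measurable ψ) (hψ1 : ∀ x, ‖ψ x‖ ≤ C) :
    ∫ ω : Fin N → Ω, (∏ i, f (ω i)) * ψ (fun i => c (ω i)) ∂(pw P N)
      = ∫ x : Fin N → ℝ, (∏ i, a (x i)) * ψ x ∂(pw (P.map c) N) := by
  have hPc : IsProbabilityMeasure (P.map c) := Measure.isProbabilityMeasure_map hc.aemeasurable
  have hA0 : 0 ≤ A := (norm_nonneg _).trans (ha1 0)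
  -- complex version of `h`
  have hcx : ∀ (D : ℝ) (θ : ℝ → ℂ), Measurable θ → (∀ x, ‖θ x‖ ≤ D) →
      ∫ ω, f ω * θ (c ω) ∂P = ∫ x, a x * θ x ∂(P.map c) := by
    intro D θ hθ hθ1
    have hre : MB D (fun x => (θ x).re) :=
      ⟨Complex.measurable_re.comp hθ, fun x => (Complex.abs_re_le_norm _).trans (hθ1 x)⟩
    have him : MB D (fun x => (θ x).im) :=
      ⟨Complex.measurable_im.comp hθ, fun x => (Complex.abs_im_le_norm _).trans (hθ1 x)⟩
    have i1 : ∀ {u : ℝ → ℝ}, MB D u → Integrable (fun ω => f ω * (u (c ω) : ℂ)) P := by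
      intro u hu
      refine Integrable.of_bound (hf.mul (Complex.measurable_ofReal.comp
        (hu.meas.comp hc))).aestronglyMeasurable (1 * D) (Eventually.of_forall fun ω => ?_)
      rw [norm_mul]
      refine mul_le_mul (hf1 ω) ?_ (norm_nonneg _) zero_le_one
      rw [Complex.norm_real]
      exact hu.bdd _
    have i2 : ∀ {u : ℝ → ℝ}, MB D u → Integrable (fun x => a x * (u x : ℂ)) (P.map c) := by
      intro u hu
      refine Integrable.of_bound (ha.mul (Complex.measurable_ofReal.comp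
        hu.meas)).aestronglyMeasurable (A * D) (Eventually.of_forall fun x => ?_)
      rw [norm_mul]
      refine mul_le_mul (ha1 x) ?_ (norm_nonneg _) hA0
      rw [Complex.norm_real]
      exact hu.bdd _
    have h1 := h D _ hre
    have h2 := h D _ him
    have e1 : ∫ ω, f ω * θ (c ω) ∂P
        = ∫ ω, (f ω * ((θ (c ω)).re : ℂ) + Complex.I * (f ω * ((θ (c ω)).im : ℂ))) ∂P := by
      refine integral_congr_ae (Eventually.of_forall fun ω => ?_)
      show f ω * θ (c ω) = f ω * ((θ (c ω)).re : ℂ) + Complex.I * (f ω * ((θ (c ω)).im : ℂ))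
      conv_lhs => rw [← Complex.re_add_im (θ (c ω))]
      ring
    have e2 : ∫ x, a x * θ x ∂(P.map c)
        = ∫ x, (a x * ((θ x).re : ℂ) + Complex.I * (a x * ((θ x).im : ℂ))) ∂(P.map c) := by
      refine integral_congr_ae (Eventually.of_forall fun x => ?_)
      show a x * θ x = a x * ((θ x).re : ℂ) + Complex.I * (a x * ((θ x).im : ℂ))
      conv_lhs => rw [← Complex.re_add_im (θ x)]
      ring
    rw [e1, e2, integral_add (i1 hre) ((i1 him).const_mul _),
      integral_add (i2 hre) ((i2 him).const_mul _), integral_const_mul, integral_const_mul,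
      h1, h2]
  induction N generalizing C with
  | zero =>
    unfold pw
    rw [Measure.pi_of_empty (fun _ : Fin 0 => P) (fun i => i.elim0),
      Measure.pi_of_empty (fun _ : Fin 0 => P.map c) (fun i => i.elim0),
      integral_dirac' _ _ (Subsingleton.measurable.stronglyMeasurable),
      integral_dirac' _ _ (Subsingleton.measurable.stronglyMeasurable)]
    simp only [Finset.univ_eq_empty, Finset.prod_empty, one_mul]
    congr 1
    funext i
    exact i.elim0
  | succ N ih =>
    -- measurability of cons for real sequences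
    have hψc : Measurable fun z : ℝ × (Fin N → ℝ) => ψ (Fin.cons z.1 z.2) :=
      hψ.comp BPiAux.cons_meas
    have hC0 : 0 ≤ C := (norm_nonneg _).trans (hψ1 0)
    set Hf : ℝ → ℂ := fun x0 => ∫ x : Fin N → ℝ, (∏ i, a (x i)) * ψ (Fin.cons x0 x)
      ∂(pw (P.map c) N) with hHf
    have hprodm : Measurable fun x : Fin N → ℝ => ∏ i, a (x i) :=
      Finset.measurable_prod _ fun i _ => ha.comp (measurable_pi_apply i)
    have hHm : Measurable Hf := by
      have : Measurable fun z : ℝ × (Fin N → ℝ) => (∏ i, a (z.2 i)) * ψ (Fin.cons z.1 z.2) :=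
        (hprodm.comp measurable_snd).mul hψc
      exact (this.stronglyMeasurable.integral_prod_right').measurable
    have hprodb : ∀ x : Fin N → ℝ, ‖∏ i, a (x i)‖ ≤ A ^ N := by
      intro x
      rw [norm_prod]
      calc ∏ i, ‖a (x i)‖ ≤ ∏ _i : Fin N, A :=
            Finset.prod_le_prod (fun i _ => norm_nonneg _) fun i _ => ha1 _
        _ = A ^ N := by simp
    have hHb : ∀ x, ‖Hf x‖ ≤ A ^ N * C := by
      intro x0
      have := norm_integral_le_of_norm_le_const (μ := pw (P.map c) N)
        (f := fun x : Fin N → ℝ => (∏ i, a (x i)) * ψ (Fin.cons x0 x)) (C := A ^ N * C)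
        (Eventually.of_forall fun x => by
          rw [norm_mul]
          exact mul_le_mul (hprodb x) (hψ1 _) (norm_nonneg _) (by positivity))
      simpa using this
    have key := hcx (A ^ N * C) Hf hHm hHb
    have hcm : ∀ {M : ℕ}, Measurable fun ω : Fin M → Ω => fun i => c (ω i) := fun {M} =>
      measurable_pi_lambda _ fun i => hc.comp (measurable_pi_apply i)
    have hI1 : Integrable (fun ω : Fin (N + 1) → Ω => (∏ i, f (ω i)) * ψ (fun i => c (ω i)))
        (pw P (N + 1)) := by
      refine Integrable.of_bound ?_ (1 * C) (Eventually.of_forall fun ω => ?_)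
      · exact ((Finset.measurable_prod _ fun i _ => hf.comp (measurable_pi_apply i)).mul
          (hψ.comp hcm)).aestronglyMeasurable
      · rw [norm_mul, norm_prod]
        refine mul_le_mul ?_ (hψ1 _) (norm_nonneg _) zero_le_one
        exact Finset.prod_le_one (fun i _ => norm_nonneg _) fun i _ => hf1 _
    have hI2 : Integrable (fun x : Fin (N + 1) → ℝ => (∏ i, a (x i)) * ψ x)
        (pw (P.map c) (N + 1)) := by
      refine Integrable.of_bound ?_ (A ^ (N + 1) * C) (Eventually.of_forall fun x => ?_)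
      · exact ((Finset.measurable_prod _ fun i _ => ha.comp (measurable_pi_apply i)).mul
          hψ).aestronglyMeasurable
      · rw [norm_mul, norm_prod]
        refine mul_le_mul ?_ (hψ1 _) (norm_nonneg _) (by positivity)
        calc ∏ i, ‖a (x i)‖ ≤ ∏ _i : Fin (N + 1), A :=
              Finset.prod_le_prod (fun i _ => norm_nonneg _) fun i _ => ha1 _
          _ = A ^ (N + 1) := by simp
    rw [BPiAux.gcons hI1, BPiAux.gcons hI2]
    have e1 : ∀ ω0 : Ω, ∫ w : Fin N → Ω, (∏ i, f ((Fin.cons ω0 w : Fin (N + 1) → Ω) i)) *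
        ψ (fun i => c ((Fin.cons ω0 w : Fin (N + 1) → Ω) i)) ∂(pw P N) = f ω0 * Hf (c ω0) := by
      intro ω0
      have hψ' : Measurable fun x : Fin N → ℝ => ψ (Fin.cons (c ω0) x) :=
        hψc.comp measurable_prodMk_left
      have h1 := ih (C := C) (ψ := fun x : Fin N → ℝ => ψ (Fin.cons (c ω0) x)) hψ'
        (fun x => hψ1 _)
      rw [hHf]
      simp only
      rw [← h1, ← integral_const_mul]
      refine integral_congr_ae (Eventually.of_forall fun w => ?_)
      simp only
      rw [Fin.prod_univ_succ]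
      have e3 : (fun i => c ((Fin.cons ω0 w : Fin (N + 1) → Ω) i))
          = (Fin.cons (c ω0) (fun i => c (w i)) : Fin (N + 1) → ℝ) := by
        funext i
        refine Fin.cases ?_ (fun j => ?_) i
        · simp
        · simp
      rw [e3]
      simp only [Fin.cons_zero, Fin.cons_succ]
      ring
    have e2 : ∀ x0 : ℝ, ∫ x : Fin N → ℝ, (∏ i, a ((Fin.cons x0 x : Fin (N + 1) → ℝ) i)) *
        ψ (Fin.cons x0 x) ∂(pw (P.map c) N) = a x0 * Hf x0 := by
      intro x0
      rw [hHf]
      simp only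
      rw [← integral_const_mul]
      refine integral_congr_ae (Eventually.of_forall fun w => ?_)
      simp only
      rw [Fin.prod_univ_succ]
      simp only [Fin.cons_zero, Fin.cons_succ]
      ring
    simp_rw [e1, e2]
    exact key

end Pool.Agent.Lib.MP_e19099_pr
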