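import Pool.Agent.Lib.MP_e19099_pr.BSpec
import Pool.Agent.Lib.MP_e19099_pr.BPi

/-!
# Conditional characteristic functions (module B, B4)

`ak K R t k x = E[exp(i t R(X_k, X_{k+1})) | X_0 = x]` written with real and imaginary part.
`ak_mean`: `∫ kop^k u = ∫ u` and `∫ ksl g = ∫ g`; `∫ sin(tR) = 0` by antisymmetry.
`ak_sq`: `C = kop^k (ksl cos)`, `D = kop^k (ksl sin)`; `C² = 1 - 2 (1 - C) + (1 - C)²`, `1 - C = kop^k (ksl (1 - cos))`,
`∫ (1 - C)² ≤ ∫ (1 - cos(tR))²` (`kop_iter_contr`, `ksl_sq`), `∫ D² ≤ ½ (1/(k+1) + 2δ) ∫ sin²` (`anti_est`).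
`char_bound`: `|∫ (∏ a - α) G|² ≤ ∫ |∏ a - α|² = (∫|a|²)^N - 2 α Re (∫ a)^N + α²` (`integral_fintype_prod_eq_prod`), Cauchy-Schwarz (Jensen).
-/

set_option autoImplicit false
set_option linter.style.haveILetI false

open MeasureTheory ProbabilityTheory Filter Set
open scoped NNReal Topology ENNReal

namespace Pool.Agent.Lib.MP_e19099_pr

/-- `E[exp(i t R(X_k, X_{k+1})) | X_0 = x]` -/
noncomputable def ak (K : Kernel ℝ ℝ) (R : ℝ × ℝ → ℝ) (t : ℝ) (k : ℕ) (x : ℝ) : ℂ :=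
  ⟨(kop K)^[k] (ksl K fun z => Real.cos (t * R z)) x,
    (kop K)^[k] (ksl K fun z => Real.sin (t * R z)) x⟩

variable {Pi : Measure ℝ} {K : Kernel ℝ ℝ} {R : ℝ × ℝ → ℝ}

private theorem ak_eq (K : Kernel ℝ ℝ) (R : ℝ × ℝ → ℝ) (t : ℝ) (k : ℕ) (x : ℝ) :
    ak K R t k x = (((kop K)^[k] (ksl K fun z => Real.cos (t * R z)) x : ℝ) : ℂ) +
      (((kop K)^[k] (ksl K fun z => Real.sin (t * R z)) x : ℝ) : ℂ) * Complex.I := by
  unfold ak
  exact Complex.mk_eq_add_mul_I _ _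

private theorem ak_cos (hR : Measurable R) (t : ℝ) : MB 1 (fun z => Real.cos (t * R z)) :=
  ⟨Real.measurable_cos.comp (hR.const_mul t), fun _ => Real.abs_cos_le_one _⟩

private theorem ak_sin (hR : Measurable R) (t : ℝ) : MB 1 (fun z => Real.sin (t * R z)) :=
  ⟨Real.measurable_sin.comp (hR.const_mul t), fun _ => Real.abs_sin_le_one _⟩

private theorem ak_int {C : ℝ} {f : ℝ → ℝ} (hK : Rev Pi K) (hf : MB C f) : Integrable f Pi := by
  haveI := hK.prob
  exact Integrable.of_bound hf.meas.aestronglyMeasurable C (Eventually.of_forall hf.bdd)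

private theorem ak_int2 {C : ℝ} {f : ℝ × ℝ → ℝ} (hK : Rev Pi K) (hf : MB C f) :
    Integrable f (Pi ⊗ₘ K) := by
  haveI := hK.edge_prob
  exact Integrable.of_bound hf.meas.aestronglyMeasurable C (Eventually.of_forall hf.bdd)

theorem ak_meas (hK : Rev Pi K) (hR : Measurable R) (t : ℝ) (k : ℕ) :
    Measurable (ak K R t k) ∧ ∀ x, ‖ak K R t k x‖ ≤ 2 := by
  haveI := hK.prob
  haveI := hK.markov
  have h1 := kop_iter_mb (K := K) (ksl_mb hK (ak_cos hR t)) k
  have h2 := kop_iter_mb (K := K) (ksl_mb hK (ak_sin hR t)) k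
  constructor
  · have : ak K R t k = fun x => (((kop K)^[k] (ksl K fun z => Real.cos (t * R z)) x : ℝ) : ℂ) +
        (((kop K)^[k] (ksl K fun z => Real.sin (t * R z)) x : ℝ) : ℂ) * Complex.I := by
      funext x; exact ak_eq K R t k x
    rw [this]
    exact (Complex.measurable_ofReal.comp h1.meas).add
      ((Complex.measurable_ofReal.comp h2.meas).mul_const _)
  · intro x
    rw [ak_eq]
    refine (norm_add_le _ _).trans ?_
    rw [norm_mul, Complex.norm_I, mul_one, Complex.norm_real, Complex.norm_real]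
    have a1 := h1.bdd x
    have a2 := h2.bdd x
    rw [Real.norm_eq_abs, Real.norm_eq_abs]
    linarith

private theorem ak_iter_mean {C : ℝ} {f : ℝ → ℝ} (hK : Rev Pi K) (hf : MB C f) (k : ℕ) :
    ∫ x, (kop K)^[k] f x ∂Pi = ∫ x, f x ∂Pi := by
  haveI := hK.prob
  haveI := hK.markov
  induction k with
  | zero => rfl
  | succ k ih =>
    rw [← ih]
    simp only [Function.iterate_succ_apply']
    exact hK.kop_mean (kop_iter_mb hf k)

private theorem ak_ksl_mean {C : ℝ} {g : ℝ × ℝ → ℝ} (hK : Rev Pi K) (hg : MB C g) :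
    ∫ x, ksl K g x ∂Pi = ∫ z, g z ∂(Pi ⊗ₘ K) := by
  have h1 : MB (1 : ℝ) (fun _ : ℝ => (1 : ℝ)) := ⟨measurable_const, fun _ => by simp⟩
  have h2 := ksl_pair hK hg h1
  simpa using h2

private theorem ak_anti (hK : Rev Pi K) {g : ℝ × ℝ → ℝ} (hg : Measurable g)
    (ha : ∀ z, g z.swap = - g z) : ∫ z, g z ∂(Pi ⊗ₘ K) = 0 := by
  have h1 : ∫ z, g z.swap ∂(Pi ⊗ₘ K) = ∫ z, g z ∂(Pi ⊗ₘ K) := by
    conv_rhs => rw [← hK.symm]
    rw [integral_map measurable_swap.aemeasurable hg.aestronglyMeasurable]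
  simp only [ha, integral_neg] at h1
  linarith

theorem ak_mean (hK : Rev Pi K) (hR : Measurable R) (ha : ∀ z, R z.swap = - R z) (t : ℝ) (k : ℕ) :
    ∫ x, ak K R t k x ∂Pi = ((∫ z, Real.cos (t * R z) ∂(Pi ⊗ₘ K) : ℝ) : ℂ) := by
  haveI := hK.prob
  haveI := hK.markov
  have h1 := kop_iter_mb (K := K) (ksl_mb hK (ak_cos hR t)) k
  have h2 := kop_iter_mb (K := K) (ksl_mb hK (ak_sin hR t)) k
  simp only [ak_eq]
  rw [integral_add ((ak_int hK h1).ofReal) (((ak_int hK h2).ofReal).mul_const _),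
    integral_mul_const, integral_complex_ofReal, integral_complex_ofReal,
    ak_iter_mean hK (ksl_mb hK (ak_cos hR t)) k, ak_iter_mean hK (ksl_mb hK (ak_sin hR t)) k,
    ak_ksl_mean hK (ak_cos hR t), ak_ksl_mean hK (ak_sin hR t),
    ak_anti hK (ak_sin hR t).meas (by
      intro z
      rw [ha z, mul_neg, Real.sin_neg])]
  simp

private theorem ak_kop_one_sub [IsMarkovKernel K] {C : ℝ} {u : ℝ → ℝ} (hu : MB C u) (k : ℕ) :
    (kop K)^[k] (fun x => 1 - u x) = fun x => 1 - (kop K)^[k] u x := by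
  induction k with
  | zero => rfl
  | succ k ih =>
    rw [Function.iterate_succ_apply', ih, Function.iterate_succ_apply']
    funext x
    have hm := kop_iter_mb (K := K) hu k
    show ∫ y, (1 - (kop K)^[k] u y) ∂(K x) = 1 - ∫ y, (kop K)^[k] u y ∂(K x)
    rw [integral_sub (integrable_const _)
      (Integrable.of_bound hm.meas.aestronglyMeasurable C (Eventually.of_forall hm.bdd))]
    simp

theorem ak_sq (hK : Rev Pi K) (hR : Measurable R) (ha : ∀ z, R z.swap = - R z) {δ : ℝ}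
    (hδ : 0 ≤ δ) (hδ1 : δ ≤ 1)
    (hKp : ∀ (C : ℝ) (f : ℝ → ℝ), MB C f →
      -δ * ∫ x, f x ^ 2 ∂Pi ≤ ∫ x, kop K f x * f x ∂Pi) (t : ℝ) (k : ℕ) :
    ∫ x, ‖ak K R t k x‖ ^ 2 ∂Pi
      ≤ 1 - 2 * ∫ z, (1 - Real.cos (t * R z)) ∂(Pi ⊗ₘ K)
        + ∫ z, (1 - Real.cos (t * R z)) ^ 2 ∂(Pi ⊗ₘ K)
        + 1 / 2 * (1 / (k + 1) + 2 * δ) * ∫ z, Real.sin (t * R z) ^ 2 ∂(Pi ⊗ₘ K) := by
  haveI := hK.prob
  haveI := hK.markov
  have hc := ak_cos hR t
  have hs := ak_sin hR t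
  have hu := ksl_mb hK hc
  have h1 := kop_iter_mb (K := K) (ksl_mb hK hc) k
  have h2 := kop_iter_mb (K := K) (ksl_mb hK hs) k
  set Cf := (kop K)^[k] (ksl K fun z => Real.cos (t * R z)) with hCf
  set Df := (kop K)^[k] (ksl K fun z => Real.sin (t * R z)) with hDf
  have hg : MB 2 (fun z => 1 - Real.cos (t * R z)) := by
    refine ⟨measurable_const.sub hc.meas, fun z => ?_⟩
    have := hc.bdd z
    rw [abs_le] at this ⊢
    constructor <;> linarith
  have hv : ksl K (fun z => 1 - Real.cos (t * R z)) =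
      fun x => 1 - ksl K (fun z => Real.cos (t * R z)) x := by
    funext x
    show ∫ y, (1 - Real.cos (t * R (x, y))) ∂(K x) = 1 - ∫ y, Real.cos (t * R (x, y)) ∂(K x)
    have hm : Measurable fun y => Real.cos (t * R (x, y)) :=
      hc.meas.comp (measurable_const.prodMk measurable_id)
    rw [integral_sub (integrable_const _)
      (Integrable.of_bound hm.aestronglyMeasurable 1 (Eventually.of_forall fun y => hc.bdd (x, y)))]
    simp
  have h3 : (fun x => 1 - Cf x) = (kop K)^[k] (ksl K fun z => 1 - Real.cos (t * R z)) := by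
    rw [hv, ak_kop_one_sub hu k]
  have h4 : ∫ x, (1 - Cf x) ^ 2 ∂Pi ≤ ∫ z, (1 - Real.cos (t * R z)) ^ 2 ∂(Pi ⊗ₘ K) := by
    have e1 : ∀ x, 1 - Cf x = (kop K)^[k] (ksl K fun z => 1 - Real.cos (t * R z)) x :=
      fun x => congrFun h3 x
    simp only [e1]
    exact (kop_iter_contr hK (ksl_mb hK hg) k).trans (ksl_sq hK hg)
  have h5 : ∫ x, (1 - Cf x) ∂Pi = ∫ z, (1 - Real.cos (t * R z)) ∂(Pi ⊗ₘ K) := by
    have e1 : ∀ x, 1 - Cf x = (kop K)^[k] (ksl K fun z => 1 - Real.cos (t * R z)) x :=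
      fun x => congrFun h3 x
    simp only [e1]
    rw [ak_iter_mean hK (ksl_mb hK hg) k, ak_ksl_mean hK hg]
  have h6 : ∫ x, Df x ^ 2 ∂Pi ≤
      1 / 2 * (1 / (k + 1) + 2 * δ) * ∫ z, Real.sin (t * R z) ^ 2 ∂(Pi ⊗ₘ K) :=
    anti_est hK hδ hδ1 hKp hs (by
      intro z
      rw [ha z, mul_neg, Real.sin_neg]) k
  have hC1 : MB 2 (fun x => 1 - Cf x) := by
    refine ⟨measurable_const.sub h1.meas, fun z => ?_⟩
    have := h1.bdd z
    rw [abs_le] at this ⊢
    constructor <;> linarith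
  have hC2 : MB 4 (fun x => (1 - Cf x) ^ 2) := by
    refine ⟨hC1.meas.pow_const 2, fun z => ?_⟩
    rw [abs_pow]
    calc |1 - Cf z| ^ 2 ≤ 2 ^ 2 := pow_le_pow_left₀ (abs_nonneg _) (hC1.bdd z) 2
      _ = 4 := by norm_num
  have hD2 : MB 1 (fun x => Df x ^ 2) := by
    refine ⟨h2.meas.pow_const 2, fun z => ?_⟩
    rw [abs_pow]
    calc |Df z| ^ 2 ≤ 1 ^ 2 := pow_le_pow_left₀ (abs_nonneg _) (h2.bdd z) 2
      _ = 1 := by norm_num
  have h7 : ∀ x, ‖ak K R t k x‖ ^ 2 = (1 - 2 * (1 - Cf x)) + (1 - Cf x) ^ 2 + Df x ^ 2 := by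
    intro x
    rw [← Complex.normSq_eq_norm_sq, Complex.normSq_apply]
    show Cf x * Cf x + Df x * Df x = _
    ring
  simp only [h7]
  have i1 : Integrable (fun x => 1 - 2 * (1 - Cf x)) Pi :=
    (integrable_const _).sub ((ak_int hK hC1).const_mul 2)
  have i2 : Integrable (fun x => 1 - 2 * (1 - Cf x) + (1 - Cf x) ^ 2) Pi :=
    i1.add (ak_int hK hC2)
  rw [integral_add i2 (ak_int hK hD2),
    integral_add i1 (ak_int hK hC2),
    integral_sub (integrable_const _) ((ak_int hK hC1).const_mul 2), integral_const_mul, h5]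
  simp only [integral_const, probReal_univ, smul_eq_mul, one_mul]
  linarith

theorem char_bound [IsProbabilityMeasure Pi] {a : ℝ → ℂ} (ha : Measurable a) {A : ℝ}
    (hA : ∀ x, ‖a x‖ ≤ A) {χ : ℝ} (hχ : ∫ x, a x ∂Pi = (χ : ℂ)) (α : ℝ) (N : ℕ)
    {G : (Fin N → ℝ) → ℝ} (hG : MB 1 G) :
    ‖∫ x, (∏ i, a (x i)) * (G x : ℂ) ∂(pw Pi N) - (α : ℂ) * ((∫ x, G x ∂(pw Pi N) : ℝ) : ℂ)‖ ^ 2
      ≤ (∫ x, ‖a x‖ ^ 2 ∂Pi) ^ N - 2 * α * χ ^ N + α ^ 2 := by
  have hA0 : 0 ≤ A := (norm_nonneg _).trans (hA 0)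
  set b : (Fin N → ℝ) → ℂ := fun x => ∏ i, a (x i) with hb
  have hbm : Measurable b := by
    apply Finset.measurable_prod
    intro i _
    exact ha.comp (measurable_pi_apply i)
  have hbb : ∀ x, ‖b x‖ ≤ A ^ N := by
    intro x
    rw [hb]
    simp only [norm_prod]
    calc ∏ i, ‖a (x i)‖ ≤ ∏ _i : Fin N, A :=
          Finset.prod_le_prod (fun i _ => norm_nonneg _) (fun i _ => hA _)
      _ = A ^ N := by simp
  have hbi : Integrable b (pw Pi N) :=
    Integrable.of_bound hbm.aestronglyMeasurable (A ^ N) (Eventually.of_forall hbb)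
  have hGm : Measurable fun x => (G x : ℂ) := Complex.measurable_ofReal.comp hG.meas
  have hGb : ∀ x, ‖(G x : ℂ)‖ ≤ 1 := by
    intro x
    rw [Complex.norm_real]
    exact hG.bdd x
  have hGi : Integrable (fun x => (G x : ℂ)) (pw Pi N) :=
    Integrable.of_bound hGm.aestronglyMeasurable 1 (Eventually.of_forall hGb)
  have hbG : Integrable (fun x => b x * (G x : ℂ)) (pw Pi N) := by
    refine Integrable.of_bound (hbm.mul hGm).aestronglyMeasurable (A ^ N * 1)
      (Eventually.of_forall fun x => ?_)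
    rw [norm_mul]
    exact mul_le_mul (hbb x) (hGb x) (norm_nonneg _) (by positivity)
  -- the difference as one integral
  have e1 : ∫ x, b x * (G x : ℂ) ∂(pw Pi N) - (α : ℂ) * ((∫ x, G x ∂(pw Pi N) : ℝ) : ℂ) =
      ∫ x, (b x - α) * (G x : ℂ) ∂(pw Pi N) := by
    rw [← integral_complex_ofReal, ← integral_const_mul, ← integral_sub hbG (hGi.const_mul _)]
    refine integral_congr_ae (Eventually.of_forall fun x => ?_)
    show b x * (G x : ℂ) - α * (G x : ℂ) = (b x - α) * (G x : ℂ)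
    ring
  set h : (Fin N → ℝ) → ℝ := fun x => ‖b x - α‖ with hh
  have hhm : Measurable h := (hbm.sub_const _).norm
  have hhb : ∀ x, |h x| ≤ A ^ N + |α| := by
    intro x
    rw [hh]
    simp only [abs_norm]
    refine (norm_sub_le _ _).trans ?_
    rw [Complex.norm_real, Real.norm_eq_abs]
    exact add_le_add (hbb x) le_rfl
  have hhi : Integrable h (pw Pi N) :=
    Integrable.of_bound hhm.aestronglyMeasurable (A ^ N + |α|) (Eventually.of_forall hhb)
  have hh2i : Integrable (fun x => h x ^ 2) (pw Pi N) := by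
    refine Integrable.of_bound (hhm.pow_const 2).aestronglyMeasurable ((A ^ N + |α|) ^ 2)
      (Eventually.of_forall fun x => ?_)
    rw [Real.norm_eq_abs, abs_pow]
    exact pow_le_pow_left₀ (abs_nonneg _) (hhb x) 2
  have e2 : ‖∫ x, (b x - α) * (G x : ℂ) ∂(pw Pi N)‖ ≤ ∫ x, h x ∂(pw Pi N) := by
    refine (norm_integral_le_integral_norm _).trans ?_
    refine integral_mono_of_nonneg (Eventually.of_forall fun x => norm_nonneg _) hhi
      (Eventually.of_forall fun x => ?_)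
    show ‖(b x - α) * (G x : ℂ)‖ ≤ h x
    rw [norm_mul]
    exact mul_le_of_le_one_right (norm_nonneg _) (hGb x)
  -- Jensen
  have e3 : (∫ x, h x ∂(pw Pi N)) ^ 2 ≤ ∫ x, h x ^ 2 ∂(pw Pi N) := by
    set c := ∫ x, h x ∂(pw Pi N) with hc
    have h0 : 0 ≤ ∫ x, (h x - c) ^ 2 ∂(pw Pi N) := integral_nonneg fun x => sq_nonneg _
    have h1 : ∫ x, (h x - c) ^ 2 ∂(pw Pi N) =
        ∫ x, (h x ^ 2 - 2 * c * h x + c ^ 2) ∂(pw Pi N) :=
      integral_congr_ae (Eventually.of_forall fun x => by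
        show (h x - c) ^ 2 = h x ^ 2 - 2 * c * h x + c ^ 2
        ring)
    have i3 : Integrable (fun x => h x ^ 2 - 2 * c * h x) (pw Pi N) :=
      hh2i.sub (hhi.const_mul _)
    rw [h1, integral_add i3 (integrable_const _),
      integral_sub hh2i (hhi.const_mul _), integral_const_mul, ← hc] at h0
    simp only [integral_const, probReal_univ, smul_eq_mul, one_mul] at h0
    nlinarith
  -- the second moment
  have hbn : Integrable (fun x => ‖b x‖ ^ 2) (pw Pi N) := by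
    refine Integrable.of_bound (hbm.norm.pow_const 2).aestronglyMeasurable ((A ^ N) ^ 2)
      (Eventually.of_forall fun x => ?_)
    rw [Real.norm_eq_abs, abs_pow, abs_norm]
    exact pow_le_pow_left₀ (norm_nonneg _) (hbb x) 2
  have hbre : Integrable (fun x => (b x).re) (pw Pi N) := hbi.re
  have e4 : ∫ x, h x ^ 2 ∂(pw Pi N) =
      ∫ x, ‖b x‖ ^ 2 ∂(pw Pi N) - 2 * α * ∫ x, (b x).re ∂(pw Pi N) + α ^ 2 := by
    have h1 : ∀ x, h x ^ 2 = ‖b x‖ ^ 2 - 2 * α * (b x).re + α ^ 2 := by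
      intro x
      rw [hh]
      simp only
      rw [← Complex.normSq_eq_norm_sq, ← Complex.normSq_eq_norm_sq, Complex.normSq_apply,
        Complex.normSq_apply, Complex.sub_re, Complex.sub_im, Complex.ofReal_re,
        Complex.ofReal_im]
      ring
    simp only [h1]
    have i4 : Integrable (fun x => ‖b x‖ ^ 2 - 2 * α * (b x).re) (pw Pi N) :=
      hbn.sub (hbre.const_mul _)
    rw [integral_add i4 (integrable_const _),
      integral_sub hbn (hbre.const_mul _), integral_const_mul]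
    simp
  have e5 : ∫ x, ‖b x‖ ^ 2 ∂(pw Pi N) = (∫ x, ‖a x‖ ^ 2 ∂Pi) ^ N := by
    have h1 : ∀ x, ‖b x‖ ^ 2 = ∏ i : Fin N, ‖a (x i)‖ ^ 2 := by
      intro x
      rw [hb]
      simp only [norm_prod, Finset.prod_pow]
    simp only [h1]
    have := integral_fintype_prod_eq_prod (𝕜 := ℝ) (μ := fun _ : Fin N => Pi)
      (fun (_ : Fin N) (y : ℝ) => ‖a y‖ ^ 2)
    rw [this]
    simp
  have e6 : ∫ x, b x ∂(pw Pi N) = ((χ ^ N : ℝ) : ℂ) := by
    have := integral_fintype_prod_eq_prod (𝕜 := ℂ) (μ := fun _ : Fin N => Pi)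
      (fun (_ : Fin N) (y : ℝ) => a y)
    rw [hb, this, hχ]
    simp
  have e7 : ∫ x, (b x).re ∂(pw Pi N) = χ ^ N := by
    have := integral_re hbi
    have h2 : ∫ x, (b x).re ∂(pw Pi N) = (∫ x, b x ∂(pw Pi N)).re := this
    rw [h2, e6, Complex.ofReal_re]
  have e8 : ‖∫ x, (b x - α) * (G x : ℂ) ∂(pw Pi N)‖ ^ 2 ≤ (∫ x, h x ∂(pw Pi N)) ^ 2 :=
    pow_le_pow_left₀ (norm_nonneg _) e2 2
  rw [e1]
  rw [e4, e5, e7] at e3
  exact e8.trans e3

end Pool.Agent.Lib.MP_e19099_pr
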