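import Pool.Agent.Lib.MP_e19099_pr.ChainLaw

/-!
# Markov property for powers and for the resolvent (task A14, A15)

`markov_iter`: induction on `j`: `G(h_k)` is a function of the history `h_{k+j}`, so `pair` at time `k + j` with
`F (x, y) = f y` gives `E G f(X_{k+j+1}) = E G (kop K f)(X_{k+j})`, and `(kop K)^[j] (kop K f) = (kop K)^[j+1] f`
(`Function.iterate_succ_apply`).
`markov_resv`: sum over `j` with the weights (dominated convergence / `integral_tsum_of_summable_integral_norm`).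
-/

set_option autoImplicit false

open MeasureTheory ProbabilityTheory Filter Set
open scoped NNReal Topology ENNReal

namespace Pool.Agent.Lib.MP_e19099_pr

variable {Ω E : Type*} [MeasurableSpace Ω] [MeasurableSpace E] {P : Measure Ω} {X : ℕ → Ω → E}
  {Pi : Measure E} {K : Kernel E E}

private theorem interchange [IsProbabilityMeasure P] {Γ : Ω → ℝ} (hΓ : Measurable Γ) {C C' : ℝ}
    (hΓb : ∀ ω, |Γ ω| ≤ C) {g : ℕ → Ω → ℝ} (hg : ∀ j, Measurable (g j))
    (hgb : ∀ j ω, |g j ω| ≤ C') {w : ℕ → ℝ} (hw : Summable w) (hw0 : ∀ j, 0 ≤ w j) :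
    ∫ ω, Γ ω * ∑' j, w j * g j ω ∂P = ∑' j, w j * ∫ ω, Γ ω * g j ω ∂P := by
  have hb : ∀ j ω, ‖Γ ω * (w j * g j ω)‖ ≤ C * (w j * C') := by
    intro j ω
    rw [norm_mul, norm_mul, Real.norm_eq_abs, Real.norm_eq_abs, Real.norm_eq_abs,
      abs_of_nonneg (hw0 j)]
    have h1 : 0 ≤ C := (abs_nonneg _).trans (hΓb ω)
    exact mul_le_mul (hΓb ω) (mul_le_mul_of_nonneg_left (hgb j ω) (hw0 j))
      (mul_nonneg (hw0 j) (abs_nonneg _)) h1
  have hint : ∀ j, Integrable (fun ω => Γ ω * (w j * g j ω)) P := by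
    intro j
    refine Integrable.of_bound (C := C * (w j * C')) ?_ (Filter.Eventually.of_forall (hb j))
    exact (hΓ.mul (measurable_const.mul (hg j))).aestronglyMeasurable
  have hle : ∀ j, ∫ ω, ‖Γ ω * (w j * g j ω)‖ ∂P ≤ C * (w j * C') := by
    intro j
    have h2 := integral_mono (μ := P) (hint j).norm (integrable_const (C * (w j * C'))) (hb j)
    simpa using h2
  have hsum : Summable fun j => ∫ ω, ‖Γ ω * (w j * g j ω)‖ ∂P :=
    Summable.of_nonneg_of_le (fun j => integral_nonneg fun ω => norm_nonneg _) hle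
      ((hw.mul_right C').mul_left C)
  have h3 := hasSum_integral_of_summable_integral_norm hint hsum
  have h4 : ∀ ω, Γ ω * ∑' j, w j * g j ω = ∑' j, Γ ω * (w j * g j ω) := fun ω =>
    tsum_mul_left.symm
  simp_rw [h4]
  rw [← h3.tsum_eq]
  refine tsum_congr fun j => ?_
  rw [← integral_const_mul]
  refine integral_congr_ae (Filter.Eventually.of_forall fun ω => ?_)
  simp only
  ring

theorem IsChain.markov_iter (hX : IsChain P X Pi K) (hR : Rev Pi K) {k : ℕ} {C C' : ℝ}
    {G : (Fin (k + 1) → E) → ℝ} (hG : MB C G) {f : E → ℝ} (hf : MB C' f) (j : ℕ) :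
    ∫ ω, G (fun i => X i ω) * f (X (k + j) ω) ∂P
      = ∫ ω, G (fun i => X i ω) * (kop K)^[j] f (X k ω) ∂P := by
  have := hR.markov
  induction j generalizing f with
  | zero => rfl
  | succ j ih =>
    have hle : k + 1 ≤ (k + j) + 1 := by omega
    have hG' : MB C (fun h : Fin ((k + j) + 1) → E => G (fun i => h (Fin.castLE hle i))) :=
      ⟨hG.meas.comp (measurable_pi_lambda _ fun i => measurable_pi_apply _), fun h => hG.bdd _⟩
    have hF : MB C' (fun z : E × E => f z.2) := ⟨hf.meas.comp measurable_snd, fun z => hf.bdd _⟩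
    have h1 := hX.pair hR hG' hF
    have h2 := ih (kop_mb (K := K) hf)
    rw [Function.iterate_succ_apply, ← h2]
    exact h1

theorem IsChain.markov_resv (hX : IsChain P X Pi K) (hR : Rev Pi K) {k : ℕ} {C C' τ lam : ℝ}
    (hτ : 0 < τ) (hlam : 0 < lam)
    {G : (Fin (k + 1) → E) → ℝ} (hG : MB C G) {f : E → ℝ} (hf : MB C' f) :
    ∫ ω, G (fun i => X i ω) * ∑' j : ℕ, τ * ((1 + lam * τ) ^ (j + 1))⁻¹ * f (X (k + j) ω) ∂P
      = ∫ ω, G (fun i => X i ω) * resv τ lam K f (X k ω) ∂P := by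
  have := hR.markov
  have := hX.prob hR
  have hΓ : Measurable (fun ω => G (fun i => X i ω)) :=
    hG.meas.comp (measurable_pi_lambda _ fun i => hX.meas _)
  have hw := (weights_sum hτ hlam).summable
  have hw0 : ∀ j : ℕ, 0 ≤ τ * ((1 + lam * τ) ^ (j + 1))⁻¹ := fun j => by positivity
  have h1 := interchange (P := P) hΓ (C := C) (fun ω => hG.bdd _)
    (g := fun j ω => f (X (k + j) ω)) (fun j => hf.meas.comp (hX.meas _)) (C' := C')
    (fun j ω => hf.bdd _) hw hw0
  have h2 := interchange (P := P) hΓ (C := C) (fun ω => hG.bdd _)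
    (g := fun j ω => (kop K)^[j] f (X k ω))
    (fun j => (kop_iter_mb hf j).meas.comp (hX.meas _)) (C' := C')
    (fun j ω => (kop_iter_mb hf j).bdd _) hw hw0
  unfold resv
  rw [h1, h2]
  refine tsum_congr fun j => ?_
  rw [hX.markov_iter hR hG hf j]

end Pool.Agent.Lib.MP_e19099_pr
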