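import Pool.Agent.Lib.MP_e19099_pr.BCharA
import Pool.Agent.Lib.MP_e19099_pr.ChainEx
import Pool.Agent.Lib.MP_e19099_pr.MarkovPow

/-!
# Characteristic functions along the product chain (module B, B5)

`chain_char`: in one coordinate, `∫ exp(i t R(X_k, X_{k+1})) θ(X_0) dP = ∫ ak θ dPi` (real and imaginary part; `pair` at time `k`
with `G = θ(X_0)`, then `markov_iter` from time `0`), so `pkl` applies with `c = X_0` and `f = exp(i t R(X_k, X_{k+1}))`.
`chain_slow`: on `pw P N` put `Y_j ω i = X j (ω i)`; the law of `(Y_j, Y_{j+1})` (zipped) is `pw (Pi ⊗ₘ K) N` (`Measure.pi_map_pi`,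
`IsChain.edge`); `|G(Y_k) - G(Y_0)| ≤ ∑_{j<k} |G(Y_{j+1}) - G(Y_j)|`.
`char_main`: `∫ exp(i t S(w)) G(xs w) d(pw s' N) = ∫ exp(i t S(Y_k, Y_{k+1})) G(Y_k) dPN`, replace `G(Y_k)` by `G(Y_0)`, then
`chain_char` and `char_bound`; also `∫ G(xs w) = ∫ G d(pw Pi N)` (`pi_xs`, `edge_fst`).  The chain exists by `chain_exists`.
`exp(i t S) = ∏ exp(i t R)` (`Complex.exp_sum`).
-/

set_option autoImplicit false

open MeasureTheory ProbabilityTheory Filter Set
open scoped NNReal Topology ENNReal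

namespace Pool.Agent.Lib.MP_e19099_pr

variable {Pi : Measure ℝ} {K : Kernel ℝ ℝ} {R : ℝ × ℝ → ℝ}

private theorem bcb_int {α : Type*} [MeasurableSpace α] {μ : Measure α} [IsFiniteMeasure μ]
    {f : α → ℝ} (hf : Measurable f) {C : ℝ} (hC : ∀ x, |f x| ≤ C) : Integrable f μ :=
  Integrable.of_bound hf.aestronglyMeasurable C (Eventually.of_forall hC)

private theorem bcb_split {α : Type*} [MeasurableSpace α] {μ : Measure α}
    {f g : α → ℝ} (hf : Integrable f μ) (hg : Integrable g μ) :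
    ∫ x, ((f x : ℂ) + (g x : ℂ) * Complex.I) ∂μ
      = ((∫ x, f x ∂μ : ℝ) : ℂ) + ((∫ x, g x ∂μ : ℝ) : ℂ) * Complex.I := by
  have hf' : Integrable (fun x => (f x : ℂ)) μ := hf.ofReal
  have hg' : Integrable (fun x => (g x : ℂ) * Complex.I) μ := (hg.ofReal (𝕜 := ℂ)).mul_const _
  rw [integral_add hf' hg', integral_mul_const, integral_complex_ofReal, integral_complex_ofReal]

private theorem bcb_real {Ω : Type*} [MeasurableSpace Ω] {P : Measure Ω} {X : ℕ → Ω → ℝ}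
    (hX : IsChain P X Pi K) (hK : Rev Pi K) (k : ℕ) {C C' : ℝ} {g : ℝ × ℝ → ℝ} (hg : MB C' g)
    {θ : ℝ → ℝ} (hθ : MB C θ) :
    ∫ ω, g (X k ω, X (k + 1) ω) * θ (X 0 ω) ∂P
      = ∫ x, (kop K)^[k] (ksl K g) x * θ x ∂Pi := by
  have := hK.markov
  have hks : MB C' (ksl K g) := ksl_mb hK hg
  have hG1 : MB C (fun h : Fin (k + 1) → ℝ => θ (h 0)) :=
    ⟨hθ.meas.comp (measurable_pi_apply _), fun h => hθ.bdd _⟩
  have hG2 : MB C (fun h : Fin (0 + 1) → ℝ => θ (h 0)) :=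
    ⟨hθ.meas.comp (measurable_pi_apply _), fun h => hθ.bdd _⟩
  have h1 := hX.pair hK hG1 hg
  have h2 := hX.markov_iter hK hG2 hks k
  have h1' : ∫ ω, θ (X 0 ω) * g (X k ω, X (k + 1) ω) ∂P
      = ∫ ω, θ (X 0 ω) * ksl K g (X k ω) ∂P := h1
  have h2' : ∫ ω, θ (X 0 ω) * ksl K g (X (0 + k) ω) ∂P
      = ∫ ω, θ (X 0 ω) * (kop K)^[k] (ksl K g) (X 0 ω) ∂P := h2
  rw [Nat.zero_add] at h2'
  have hm : Measurable (fun x => (kop K)^[k] (ksl K g) x * θ x) :=
    (kop_iter_mb hks k).meas.mul hθ.meas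
  have h3 : ∫ x, (kop K)^[k] (ksl K g) x * θ x ∂Pi
      = ∫ ω, (kop K)^[k] (ksl K g) (X 0 ω) * θ (X 0 ω) ∂P := by
    rw [← hX.init, integral_map (hX.meas 0).aemeasurable hm.aestronglyMeasurable]
  rw [h3]
  have h4 : ∫ ω, g (X k ω, X (k + 1) ω) * θ (X 0 ω) ∂P
      = ∫ ω, θ (X 0 ω) * g (X k ω, X (k + 1) ω) ∂P :=
    integral_congr_ae (Eventually.of_forall fun ω => mul_comm _ _)
  rw [h4, h1', h2']
  exact integral_congr_ae (Eventually.of_forall fun ω => mul_comm _ _)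

theorem chain_char1 {Ω : Type*} [MeasurableSpace Ω] {P : Measure Ω} {X : ℕ → Ω → ℝ}
    (hX : IsChain P X Pi K) (hK : Rev Pi K) (hR : Measurable R) (t : ℝ) (k : ℕ) {C : ℝ}
    {θ : ℝ → ℝ} (hθ : MB C θ) :
    ∫ ω, Complex.exp ((t * R (X k ω, X (k + 1) ω) : ℝ) * Complex.I) * (θ (X 0 ω) : ℂ) ∂P
      = ∫ x, ak K R t k x * (θ x : ℂ) ∂Pi := by
  have := hK.markov
  have := hK.prob
  have := hX.prob hK
  have hc : MB 1 (fun z : ℝ × ℝ => Real.cos (t * R z)) :=
    ⟨Real.measurable_cos.comp (measurable_const.mul hR), fun z => Real.abs_cos_le_one _⟩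
  have hs : MB 1 (fun z : ℝ × ℝ => Real.sin (t * R z)) :=
    ⟨Real.measurable_sin.comp (measurable_const.mul hR), fun z => Real.abs_sin_le_one _⟩
  have hp : Measurable (fun ω => (X k ω, X (k + 1) ω)) := (hX.meas k).prodMk (hX.meas (k + 1))
  have key : ∀ {g : ℝ × ℝ → ℝ}, MB 1 g →
      Integrable (fun ω => g (X k ω, X (k + 1) ω) * θ (X 0 ω)) P := by
    intro g hg
    refine bcb_int ((hg.meas.comp hp).mul (hθ.meas.comp (hX.meas 0))) (C := 1 * C) fun ω => ?_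
    rw [abs_mul]
    exact mul_le_mul (hg.bdd _) (hθ.bdd _) (abs_nonneg _) zero_le_one
  have key2 : ∀ {g : ℝ × ℝ → ℝ}, MB 1 g →
      Integrable (fun x => (kop K)^[k] (ksl K g) x * θ x) Pi := by
    intro g hg
    have hks : MB 1 (ksl K g) := ksl_mb hK hg
    refine bcb_int ((kop_iter_mb hks k).meas.mul hθ.meas) (C := 1 * C) fun x => ?_
    rw [abs_mul]
    exact mul_le_mul ((kop_iter_mb hks k).bdd _) (hθ.bdd _) (abs_nonneg _) zero_le_one
  have e1 : ∫ ω, Complex.exp ((t * R (X k ω, X (k + 1) ω) : ℝ) * Complex.I) *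
        (θ (X 0 ω) : ℂ) ∂P
      = ∫ ω, (((Real.cos (t * R (X k ω, X (k + 1) ω)) * θ (X 0 ω) : ℝ) : ℂ) +
          ((Real.sin (t * R (X k ω, X (k + 1) ω)) * θ (X 0 ω) : ℝ) : ℂ) * Complex.I) ∂P := by
    refine integral_congr_ae (Eventually.of_forall fun ω => ?_)
    show Complex.exp ((t * R (X k ω, X (k + 1) ω) : ℝ) * Complex.I) * (θ (X 0 ω) : ℂ) =
      ((Real.cos (t * R (X k ω, X (k + 1) ω)) * θ (X 0 ω) : ℝ) : ℂ) +
          ((Real.sin (t * R (X k ω, X (k + 1) ω)) * θ (X 0 ω) : ℝ) : ℂ) * Complex.I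
    rw [Complex.exp_mul_I, ← Complex.ofReal_cos, ← Complex.ofReal_sin]
    push_cast
    ring
  have e2 : ∫ x, ak K R t k x * (θ x : ℂ) ∂Pi
      = ∫ x, ((((kop K)^[k] (ksl K fun z => Real.cos (t * R z)) x * θ x : ℝ) : ℂ) +
          (((kop K)^[k] (ksl K fun z => Real.sin (t * R z)) x * θ x : ℝ) : ℂ) * Complex.I)
          ∂Pi := by
    refine integral_congr_ae (Eventually.of_forall fun x => ?_)
    show ak K R t k x * (θ x : ℂ) =
      (((kop K)^[k] (ksl K fun z => Real.cos (t * R z)) x * θ x : ℝ) : ℂ) +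
          (((kop K)^[k] (ksl K fun z => Real.sin (t * R z)) x * θ x : ℝ) : ℂ) * Complex.I
    have h : ak K R t k x = (((kop K)^[k] (ksl K fun z => Real.cos (t * R z)) x : ℝ) : ℂ) +
        (((kop K)^[k] (ksl K fun z => Real.sin (t * R z)) x : ℝ) : ℂ) * Complex.I :=
      Complex.mk_eq_add_mul_I _ _
    rw [h]
    push_cast
    ring
  rw [e1, e2, bcb_split (key hc) (key hs), bcb_split (key2 hc) (key2 hs),
    bcb_real hX hK k hc hθ, bcb_real hX hK k hs hθ]

theorem chain_char {Ω : Type*} [MeasurableSpace Ω] {P : Measure Ω} {X : ℕ → Ω → ℝ}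
    (hX : IsChain P X Pi K) (hK : Rev Pi K) (hR : Measurable R) (t : ℝ) (k N : ℕ)
    {G : (Fin N → ℝ) → ℝ} (hG : MB 1 G) :
    ∫ ω : Fin N → Ω, (∏ i, Complex.exp ((t * R (X k (ω i), X (k + 1) (ω i)) : ℝ) * Complex.I))
        * (G (fun i => X 0 (ω i)) : ℂ) ∂(pw P N)
      = ∫ x : Fin N → ℝ, (∏ i, ak K R t k (x i)) * (G x : ℂ) ∂(pw Pi N) := by
  have := hX.prob hK
  have hp : Measurable (fun ω => (X k ω, X (k + 1) ω)) := (hX.meas k).prodMk (hX.meas (k + 1))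
  have hf : Measurable
      (fun ω => Complex.exp ((t * R (X k ω, X (k + 1) ω) : ℝ) * Complex.I)) := by
    have h1 : Measurable (fun ω => t * R (X k ω, X (k + 1) ω)) :=
      measurable_const.mul (hR.comp hp)
    exact Complex.measurable_exp.comp ((Complex.measurable_ofReal.comp h1).mul_const _)
  have hf1 : ∀ ω, ‖Complex.exp ((t * R (X k ω, X (k + 1) ω) : ℝ) * Complex.I)‖ ≤ 1 := fun ω => by
    rw [Complex.norm_exp_ofReal_mul_I]
  have hak := ak_meas hK hR t k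
  have hψ : Measurable (fun x : Fin N → ℝ => (G x : ℂ)) := Complex.measurable_ofReal.comp hG.meas
  have hψ1 : ∀ x : Fin N → ℝ, ‖(G x : ℂ)‖ ≤ 1 := fun x => by
    rw [Complex.norm_real]; exact hG.bdd x
  have h := pkl (hX.meas 0) hf hf1 hak.1 hak.2 (fun C θ hθ => by
    rw [hX.init]
    exact chain_char1 hX hK hR t k hθ) N hψ hψ1
  rw [hX.init] at h
  exact h

private theorem bcb_edge {Ω : Type*} [MeasurableSpace Ω] {P : Measure Ω} {X : ℕ → Ω → ℝ}
    (hX : IsChain P X Pi K) (hK : Rev Pi K) (k N : ℕ) :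
    (pw P N).map (fun ω i => (X k (ω i), X (k + 1) (ω i))) = pw (Pi ⊗ₘ K) N := by
  have := hX.prob hK
  have hp : Measurable (fun ω => (X k ω, X (k + 1) ω)) := (hX.meas k).prodMk (hX.meas (k + 1))
  have h1 : ∀ i : Fin N, SigmaFinite (P.map (fun ω => (X k ω, X (k + 1) ω))) := fun i => by
    have := Measure.isProbabilityMeasure_map (μ := P) hp.aemeasurable
    infer_instance
  have h := Measure.pi_map_pi (μ := fun _ : Fin N => P)
    (f := fun _ : Fin N => fun ω => (X k ω, X (k + 1) ω)) (hμ := h1)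
    (fun i => hp.aemeasurable)
  rw [hX.edge hK k] at h
  exact h

private theorem bcb_edge_meas {Ω : Type*} [MeasurableSpace Ω] {P : Measure Ω} {X : ℕ → Ω → ℝ}
    (hX : IsChain P X Pi K) (k N : ℕ) :
    Measurable (fun (ω : Fin N → Ω) (i : Fin N) => (X k (ω i), X (k + 1) (ω i))) :=
  measurable_pi_iff.2 fun i =>
    ((hX.meas k).comp (measurable_pi_apply i)).prodMk ((hX.meas (k + 1)).comp (measurable_pi_apply i))

private theorem bcb_Y_meas {Ω : Type*} [MeasurableSpace Ω] {P : Measure Ω} {X : ℕ → Ω → ℝ}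
    (hX : IsChain P X Pi K) (k N : ℕ) :
    Measurable (fun (ω : Fin N → Ω) (i : Fin N) => X k (ω i)) :=
  measurable_pi_iff.2 fun i => (hX.meas k).comp (measurable_pi_apply i)

theorem chain_slow {Ω : Type*} [MeasurableSpace Ω] {P : Measure Ω} {X : ℕ → Ω → ℝ}
    (hX : IsChain P X Pi K) (hK : Rev Pi K) (k N : ℕ) {G : (Fin N → ℝ) → ℝ} (hG : MB 1 G) :
    ∫ ω : Fin N → Ω, |G (fun i => X k (ω i)) - G (fun i => X 0 (ω i))| ∂(pw P N)
      ≤ k * ∫ w, |G (ys w) - G (xs w)| ∂(pw (Pi ⊗ₘ K) N) := by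
  have := hX.prob hK
  have := hK.edge_prob
  have hint : ∀ a b : ℕ, Integrable
      (fun ω : Fin N → Ω => |G (fun i => X a (ω i)) - G (fun i => X b (ω i))|) (pw P N) := by
    intro a b
    refine bcb_int (C := 2) ?_ fun ω => ?_
    · exact ((hG.meas.comp (bcb_Y_meas hX a N)).sub (hG.meas.comp (bcb_Y_meas hX b N))).norm
    · rw [abs_abs]
      refine (abs_sub _ _).trans ?_
      linarith [hG.bdd (fun i => X a (ω i)), hG.bdd (fun i => X b (ω i))]
  induction k with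
  | zero => simp
  | succ k ih =>
    have h1 : ∫ ω : Fin N → Ω, |G (fun i => X (k + 1) (ω i)) - G (fun i => X k (ω i))| ∂(pw P N)
        = ∫ w, |G (ys w) - G (xs w)| ∂(pw (Pi ⊗ₘ K) N) := by
      rw [← bcb_edge hX hK k N, integral_map (bcb_edge_meas hX k N).aemeasurable]
      · rfl
      · exact ((hG.meas.comp ys_meas).sub (hG.meas.comp xs_meas)).norm.aestronglyMeasurable
    have h2 : ∫ ω : Fin N → Ω, |G (fun i => X (k + 1) (ω i)) - G (fun i => X 0 (ω i))| ∂(pw P N)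
        ≤ ∫ ω : Fin N → Ω, (|G (fun i => X (k + 1) (ω i)) - G (fun i => X k (ω i))| +
          |G (fun i => X k (ω i)) - G (fun i => X 0 (ω i))|) ∂(pw P N) :=
      integral_mono (hint _ _) ((hint _ _).add (hint _ _)) fun ω => abs_sub_le _ _ _
    rw [integral_add (hint _ _) (hint _ _), h1] at h2
    push_cast
    linarith

theorem char_main (hK : Rev Pi K) (hR : Measurable R) (ha : ∀ z, R z.swap = - R z) (t : ℝ)
    (k N : ℕ) (α : ℝ) {G : (Fin N → ℝ) → ℝ} (hG : MB 1 G) :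
    ‖∫ w, Complex.exp ((t * Sn R w : ℝ) * Complex.I) * (G (xs w) : ℂ) ∂(pw (Pi ⊗ₘ K) N)
        - (α : ℂ) * ((∫ w, G (xs w) ∂(pw (Pi ⊗ₘ K) N) : ℝ) : ℂ)‖
      ≤ k * (∫ w, |G (ys w) - G (xs w)| ∂(pw (Pi ⊗ₘ K) N))
        + √((∫ x, ‖ak K R t k x‖ ^ 2 ∂Pi) ^ N
          - 2 * α * (∫ z, Real.cos (t * R z) ∂(Pi ⊗ₘ K)) ^ N + α ^ 2) := by
  have := hK.prob
  have := hK.markov
  have := hK.edge_prob
  obtain ⟨P, hX⟩ := chain_exists (Pi := Pi) (K := K)
  have := hX.prob hK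
  set X : ℕ → (ℕ → ℝ) → ℝ := fun k ω => ω k with hXdef
  -- the two integrals
  have hem := bcb_edge_meas hX k N
  have hexpm : Measurable (fun w : Fin N → ℝ × ℝ =>
      Complex.exp ((t * Sn R w : ℝ) * Complex.I)) := by
    have h1 : Measurable (fun w : Fin N → ℝ × ℝ => t * Sn R w) :=
      measurable_const.mul (Sn_meas hR)
    exact Complex.measurable_exp.comp ((Complex.measurable_ofReal.comp h1).mul_const _)
  have hGx : Measurable (fun w : Fin N → ℝ × ℝ => (G (xs w) : ℂ)) :=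
    Complex.measurable_ofReal.comp (hG.meas.comp xs_meas)
  have hmain : Measurable (fun w : Fin N → ℝ × ℝ =>
      Complex.exp ((t * Sn R w : ℝ) * Complex.I) * (G (xs w) : ℂ)) := hexpm.mul hGx
  let e : (Fin N → (ℕ → ℝ)) → ℂ := fun ω =>
    Complex.exp ((t * Sn R (fun i => (X k (ω i), X (k + 1) (ω i))) : ℝ) * Complex.I)
  have hem' : Measurable e := hexpm.comp hem
  have he1 : ∀ ω, ‖e ω‖ = 1 := fun ω => Complex.norm_exp_ofReal_mul_I _
  have e1 : ∫ w, Complex.exp ((t * Sn R w : ℝ) * Complex.I) * (G (xs w) : ℂ) ∂(pw (Pi ⊗ₘ K) N)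
      = ∫ ω, e ω * (G (fun i => X k (ω i)) : ℂ) ∂(pw P N) := by
    rw [← bcb_edge hX hK k N, integral_map hem.aemeasurable hmain.aestronglyMeasurable]
    rfl
  have e2 : ∫ ω, e ω * (G (fun i => X 0 (ω i)) : ℂ) ∂(pw P N)
      = ∫ x : Fin N → ℝ, (∏ i, ak K R t k (x i)) * (G x : ℂ) ∂(pw Pi N) := by
    rw [← chain_char hX hK hR t k N hG]
    refine integral_congr_ae (Eventually.of_forall fun ω => ?_)
    show e ω * (G (fun i => X 0 (ω i)) : ℂ) =
      (∏ i, Complex.exp ((t * R (X k (ω i), X (k + 1) (ω i)) : ℝ) * Complex.I))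
        * (G (fun i => X 0 (ω i)) : ℂ)
    congr 1
    rw [← Complex.exp_sum]
    show Complex.exp ((t * Sn R (fun i => (X k (ω i), X (k + 1) (ω i))) : ℝ) * Complex.I) = _
    congr 1
    unfold Sn
    push_cast
    rw [Finset.mul_sum, Finset.sum_mul]
  have e3 : ∫ w, G (xs w) ∂(pw (Pi ⊗ₘ K) N) = ∫ x, G x ∂(pw Pi N) := by
    have h := pi_xs (s := Pi ⊗ₘ K) N
    rw [hK.edge_fst] at h
    rw [← h, integral_map xs_meas.aemeasurable hG.meas.aestronglyMeasurable]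
  have hintk : ∀ j : ℕ, Integrable (fun ω => e ω * (G (fun i => X j (ω i)) : ℂ)) (pw P N) := by
    intro j
    refine Integrable.of_bound (C := 1) (hem'.mul (Complex.measurable_ofReal.comp
      (hG.meas.comp (bcb_Y_meas hX j N)))).aestronglyMeasurable (Eventually.of_forall fun ω => ?_)
    rw [norm_mul, he1, one_mul, Complex.norm_real]
    exact hG.bdd _
  have h1 : ‖∫ ω, e ω * (G (fun i => X k (ω i)) : ℂ) ∂(pw P N)
      - ∫ ω, e ω * (G (fun i => X 0 (ω i)) : ℂ) ∂(pw P N)‖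
      ≤ k * (∫ w, |G (ys w) - G (xs w)| ∂(pw (Pi ⊗ₘ K) N)) := by
    rw [← integral_sub (hintk k) (hintk 0)]
    refine (norm_integral_le_integral_norm _).trans ?_
    refine le_trans (le_of_eq ?_) (chain_slow hX hK k N hG)
    refine integral_congr_ae (Eventually.of_forall fun ω => ?_)
    show ‖e ω * (G (fun i => X k (ω i)) : ℂ) - e ω * (G (fun i => X 0 (ω i)) : ℂ)‖ =
      |G (fun i => X k (ω i)) - G (fun i => X 0 (ω i))|
    rw [← mul_sub, norm_mul, he1, one_mul, ← Complex.ofReal_sub, Complex.norm_real,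
      Real.norm_eq_abs]
  have hak := ak_meas hK hR t k
  have h2 := char_bound hak.1 hak.2 (ak_mean hK hR ha t k) α N hG
  rw [← e2, ← e3] at h2
  have h3 := Real.sqrt_le_sqrt h2
  rw [Real.sqrt_sq (norm_nonneg _)] at h3
  rw [e1]
  refine le_trans ?_ (add_le_add h1 h3)
  refine le_trans (le_of_eq ?_) (norm_add_le _ _)
  congr 1
  ring

end Pool.Agent.Lib.MP_e19099_pr
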