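import Pool.Agent.Lib.MP_e19099_pr.BCharB

/-!
# The characteristic function in the limit (module B, B6)

`K n = (s' n).condKernel`, `Pi n = (s' n).fst`: `Pi n ⊗ₘ K n = s' n` (`Measure.disintegrate`), reversible by `A.swap`, and
`∫ kop K f · f dPi = ∫ f(x) f(y) ds'`, so `A.psd` gives the hypothesis of `ak_sq`.
`clt_aux`: `A.close` for `(1 - cos(tR))/2`.  `sq_aux`: `(1 - cos θ)² = 2 (1 - cos θ) - ½ (1 - cos 2θ)`, so
`(n+1) ∫ (1 - cos(tR))² → t²σ² - t²σ² = 0`; `sin² θ = (1 - cos 2θ)/2`, so `(n+1) ∫ sin² → t² σ²`.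
`char_lim`: let `N = n+1`, `α = exp(-t²σ²/2)`, `χ = ∫ cos(tR) ds'`: `χ^N → α` (`Real.tendsto_one_add_pow_exp_of_tendsto`, shifted by one), and
`(∫|a|²)^N ≤ exp(N (∫|a|² - 1))`, whose limsup is at most `exp(-t²σ² + t²σ²/(2(k+1)))` by `ak_sq`.  So the limsup of the norm in `char_main` is at most
`√(α² (exp(t²σ²/(2(k+1))) - 1))`, for every `k`.
-/

set_option autoImplicit false

open MeasureTheory ProbabilityTheory Filter Set
open scoped NNReal Topology ENNReal

namespace Pool.Agent.Lib.MP_e19099_pr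

variable {p : ℝ → ℝ} {q : ℕ → ℝ → ℝ → ℝ} {l σ : ℝ} {τ : ℕ → ℝ} {s' : ℕ → Measure (ℝ × ℝ)}
  {δ η : ℕ → ℝ}

theorem aux_kernel (A : Aux p q s' δ η) (n : ℕ) :
    ∃ (Pi : Measure ℝ) (K : Kernel ℝ ℝ), Rev Pi K ∧ Pi ⊗ₘ K = s' n ∧
      ∀ (C : ℝ) (f : ℝ → ℝ), MB C f →
        -(δ n) * ∫ x, f x ^ 2 ∂Pi ≤ ∫ x, kop K f x * f x ∂Pi := by
  have := A.prob n
  have hdis : (s' n).fst ⊗ₘ (s' n).condKernel = s' n := (s' n).disintegrate _
  have hrev : Rev (s' n).fst (s' n).condKernel :=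
    ⟨inferInstance, inferInstance, by rw [hdis]; exact A.swap n⟩
  refine ⟨(s' n).fst, (s' n).condKernel, hrev, hdis, fun C f hf => ?_⟩
  have h1 := A.psd n C f hf
  have h2 : ∫ x, f x ^ 2 ∂(s' n).fst = ∫ z, f z.1 ^ 2 ∂(s' n) := by
    have hm : Measurable fun x => f x ^ 2 := hf.meas.pow_const 2
    rw [Measure.fst, integral_map measurable_fst.aemeasurable hm.aestronglyMeasurable]
  have hg : MB C (fun z : ℝ × ℝ => f z.2) :=
    ⟨hf.meas.comp measurable_snd, fun z => hf.bdd _⟩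
  have h3 := ksl_pair hrev hg hf
  rw [hdis] at h3
  have h4 : ∫ x, kop (s' n).condKernel f x * f x ∂(s' n).fst = ∫ z, f z.1 * f z.2 ∂(s' n) := by
    have h5 : ∫ x, kop (s' n).condKernel f x * f x ∂(s' n).fst =
        ∫ x, ksl (s' n).condKernel (fun z : ℝ × ℝ => f z.2) x * f x ∂(s' n).fst := rfl
    rw [h5, h3]
    exact integral_congr_ae (Eventually.of_forall fun z => mul_comm _ _)
  rw [h2, h4]
  exact h1

private theorem cos_meas (B : BSetup p q l σ τ) (n : ℕ) (t : ℝ) :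
    Measurable fun z => Real.cos (t * Rf p (q n) z) :=
  Real.measurable_cos.comp ((Rf_meas B.dens (B.prop n)).const_mul t)

private theorem sin_meas (B : BSetup p q l σ τ) (n : ℕ) (t : ℝ) :
    Measurable fun z => Real.sin (t * Rf p (q n) z) :=
  Real.measurable_sin.comp ((Rf_meas B.dens (B.prop n)).const_mul t)

theorem clt_aux (B : BSetup p q l σ τ) (A : Aux p q s' δ η) (t : ℝ) :
    Tendsto (fun n : ℕ => ((n : ℝ) + 1) * ∫ z, (1 - Real.cos (t * Rf p (q n) z)) ∂(s' n)) atTop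
      (𝓝 (t ^ 2 * σ ^ 2 / 2)) := by
  have h1 := B.clt t
  have h2 : Tendsto (fun n : ℕ => ((n : ℝ) + 1) * ∫ z, (1 - Real.cos (t * Rf p (q n) z)) ∂(s' n)
      - ((n : ℝ) + 1) * ∫ z, (1 - Real.cos (t * Rf p (q n) z)) ∂(sm p (q n))) atTop (𝓝 0) := by
    have h3 : Tendsto (fun n => 2 * η n) atTop (𝓝 0) := by
      simpa using A.ηlim.const_mul 2
    refine squeeze_zero_norm (fun n => ?_) h3
    have hF : MB 1 (fun z => (1 - Real.cos (t * Rf p (q n) z)) / 2) := by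
      refine ⟨(measurable_const.sub (cos_meas B n t)).div_const 2, fun z => ?_⟩
      have h4 := Real.neg_one_le_cos (t * Rf p (q n) z)
      have h5 := Real.cos_le_one (t * Rf p (q n) z)
      rw [abs_le]
      constructor <;> linarith
    have h6 := A.close n _ hF
    rw [integral_div, integral_div] at h6
    have hn : (0 : ℝ) < (n : ℝ) + 1 := by positivity
    rw [Real.norm_eq_abs, ← mul_sub, abs_mul, abs_of_pos hn, abs_sub_comm]
    rw [← sub_div, abs_div, abs_of_pos (by norm_num : (0 : ℝ) < 2), le_div_iff₀ hn] at h6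
    linarith
  have h7 := h2.add h1
  rw [zero_add] at h7
  exact h7.congr fun n => by ring

theorem sq_aux (B : BSetup p q l σ τ) (A : Aux p q s' δ η) (t : ℝ) :
    Tendsto (fun n : ℕ => ((n : ℝ) + 1) * ∫ z, (1 - Real.cos (t * Rf p (q n) z)) ^ 2 ∂(s' n)) atTop
      (𝓝 0) ∧
    Tendsto (fun n : ℕ => ((n : ℝ) + 1) * ∫ z, Real.sin (t * Rf p (q n) z) ^ 2 ∂(s' n)) atTop
      (𝓝 (t ^ 2 * σ ^ 2)) := by
  have h1 := clt_aux B A t
  have h2 := clt_aux B A (2 * t)
  have hi : ∀ (n : ℕ) (r : ℝ), Integrable (fun z => 1 - Real.cos (r * Rf p (q n) z)) (s' n) := by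
    intro n r
    have := A.prob n
    refine Integrable.of_bound (C := 2)
      (measurable_const.sub (cos_meas B n r)).aestronglyMeasurable
      (Eventually.of_forall fun z => ?_)
    have h4 := Real.neg_one_le_cos (r * Rf p (q n) z)
    have h5 := Real.cos_le_one (r * Rf p (q n) z)
    rw [Real.norm_eq_abs, abs_le]
    constructor <;> linarith
  constructor
  · have h3 := (h1.const_mul 2).sub (h2.const_mul (1 / 2))
    have h4 : 2 * (t ^ 2 * σ ^ 2 / 2) - 1 / 2 * ((2 * t) ^ 2 * σ ^ 2 / 2) = 0 := by ring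
    rw [h4] at h3
    refine h3.congr fun n => ?_
    have h5 : ∫ z, (1 - Real.cos (t * Rf p (q n) z)) ^ 2 ∂(s' n) =
        2 * ∫ z, (1 - Real.cos (t * Rf p (q n) z)) ∂(s' n) -
          1 / 2 * ∫ z, (1 - Real.cos (2 * t * Rf p (q n) z)) ∂(s' n) := by
      rw [← integral_const_mul, ← integral_const_mul,
        ← integral_sub ((hi n t).const_mul 2) ((hi n (2 * t)).const_mul (1 / 2))]
      refine integral_congr_ae (Eventually.of_forall fun z => ?_)
      have h6 : Real.cos (2 * t * Rf p (q n) z) = 2 * Real.cos (t * Rf p (q n) z) ^ 2 - 1 := by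
        rw [mul_assoc, Real.cos_two_mul]
      simp only
      rw [h6]
      ring
    rw [h5]
    ring
  · have h3 := h2.const_mul (1 / 2)
    have h4 : 1 / 2 * ((2 * t) ^ 2 * σ ^ 2 / 2) = t ^ 2 * σ ^ 2 := by ring
    rw [h4] at h3
    refine h3.congr fun n => ?_
    have h5 : ∫ z, Real.sin (t * Rf p (q n) z) ^ 2 ∂(s' n) =
        1 / 2 * ∫ z, (1 - Real.cos (2 * t * Rf p (q n) z)) ∂(s' n) := by
      rw [← integral_const_mul]
      refine integral_congr_ae (Eventually.of_forall fun z => ?_)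
      have h6 : Real.cos (2 * t * Rf p (q n) z) = 2 * Real.cos (t * Rf p (q n) z) ^ 2 - 1 := by
        rw [mul_assoc, Real.cos_two_mul]
      have h7 := Real.sin_sq_add_cos_sq (t * Rf p (q n) z)
      simp only
      rw [h6]
      linarith
    rw [h5]
    ring

theorem char_lim (B : BSetup p q l σ τ) (A : Aux p q s' δ η) (t : ℝ)
    {G : ∀ n : ℕ, (Fin (n + 1) → ℝ) → ℝ} (hG : ∀ n, MB 1 (G n))
    (hs : Tendsto (fun n => ∫ w, |G n (ys w) - G n (xs w)| ∂(pw (s' n) (n + 1))) atTop (𝓝 0)) :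
    Tendsto (fun n => ∫ w, Complex.exp ((t * Sn (Rf p (q n)) w : ℝ) * Complex.I)
          * (G n (xs w) : ℂ) ∂(pw (s' n) (n + 1))
        - (Real.exp (-t ^ 2 * σ ^ 2 / 2) : ℂ) * ((∫ w, G n (xs w) ∂(pw (s' n) (n + 1)) : ℝ) : ℂ))
      atTop (𝓝 0) := by
  choose Pi K hrev hcomp hpsd using aux_kernel A
  set α : ℝ := Real.exp (-t ^ 2 * σ ^ 2 / 2) with hα
  set c : ℝ := t ^ 2 * σ ^ 2 / 2 with hc
  have hx := clt_aux B A t
  obtain ⟨hy, hz⟩ := sq_aux B A t
  -- the mean of the cosine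
  have hchi : ∀ n : ℕ, ∫ z, Real.cos (t * Rf p (q n) z) ∂(s' n) =
      1 - ∫ z, (1 - Real.cos (t * Rf p (q n) z)) ∂(s' n) := by
    intro n
    have := A.prob n
    have hi : Integrable (fun z => Real.cos (t * Rf p (q n) z)) (s' n) :=
      Integrable.of_bound (C := 1) (cos_meas B n t).aestronglyMeasurable
        (Eventually.of_forall fun z => Real.abs_cos_le_one _)
    rw [integral_sub (integrable_const 1) hi, integral_const, probReal_univ]
    simp
  have hpow : Tendsto (fun n : ℕ => (∫ z, Real.cos (t * Rf p (q n) z) ∂(s' n)) ^ (n + 1)) atTop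
      (𝓝 α) := by
    set g : ℕ → ℝ := fun m => -∫ z, (1 - Real.cos (t * Rf p (q (m - 1)) z)) ∂(s' (m - 1)) with hg
    have h1 : Tendsto (fun m : ℕ => (m : ℝ) * g m) atTop (𝓝 (-c)) := by
      rw [← tendsto_add_atTop_iff_nat 1]
      refine hx.neg.congr fun n => ?_
      rw [hg]
      simp only [Nat.add_sub_cancel, Nat.cast_add, Nat.cast_one]
      ring
    have h2 := Real.tendsto_one_add_pow_exp_of_tendsto h1
    rw [← tendsto_add_atTop_iff_nat 1] at h2
    have h3 : Real.exp (-c) = α := by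
      rw [hα, hc]; congr 1; ring
    rw [h3] at h2
    refine h2.congr fun n => ?_
    rw [hchi n, hg]
    simp only [Nat.add_sub_cancel]
    rw [← sub_eq_add_neg]
  -- the main bound
  have hbound : ∀ (k n : ℕ),
      ‖∫ w, Complex.exp ((t * Sn (Rf p (q n)) w : ℝ) * Complex.I)
          * (G n (xs w) : ℂ) ∂(pw (s' n) (n + 1))
        - (α : ℂ) * ((∫ w, G n (xs w) ∂(pw (s' n) (n + 1)) : ℝ) : ℂ)‖ ≤
      k * (∫ w, |G n (ys w) - G n (xs w)| ∂(pw (s' n) (n + 1))) +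
        √(Real.exp (-2 * (((n : ℝ) + 1) * ∫ z, (1 - Real.cos (t * Rf p (q n) z)) ∂(s' n)) +
            (((n : ℝ) + 1) * ∫ z, (1 - Real.cos (t * Rf p (q n) z)) ^ 2 ∂(s' n)) +
            1 / 2 * (1 / (k + 1) + 2 * δ n) *
              (((n : ℝ) + 1) * ∫ z, Real.sin (t * Rf p (q n) z) ^ 2 ∂(s' n))) -
          2 * α * (∫ z, Real.cos (t * Rf p (q n) z) ∂(s' n)) ^ (n + 1) + α ^ 2) := by
    intro k n
    have hRm := Rf_meas B.dens (B.prop n)
    have hRa := Rf_anti B.dens (B.prop n)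
    have h1 := char_main (hrev n) hRm hRa t k (n + 1) α (hG n)
    have h2 := ak_sq (hrev n) hRm hRa (A.δpos n).1 (A.δpos n).2 (hpsd n) t k
    rw [hcomp n] at h1 h2
    refine h1.trans (add_le_add le_rfl (Real.sqrt_le_sqrt ?_))
    have h3 : 0 ≤ ∫ x, ‖ak (K n) (Rf p (q n)) t k x‖ ^ 2 ∂(Pi n) :=
      integral_nonneg fun x => by positivity
    set I := ∫ x, ‖ak (K n) (Rf p (q n)) t k x‖ ^ 2 ∂(Pi n) with hI
    have h4 : I ≤ Real.exp (I - 1) := by
      have := Real.add_one_le_exp (I - 1)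
      linarith
    have h5 : I ^ (n + 1) ≤ Real.exp (((n : ℝ) + 1) * (I - 1)) := by
      refine (pow_le_pow_left₀ h3 h4 (n + 1)).trans (le_of_eq ?_)
      rw [← Real.exp_nat_mul]
      push_cast
      ring_nf
    have h6 : ((n : ℝ) + 1) * (I - 1) ≤
        -2 * (((n : ℝ) + 1) * ∫ z, (1 - Real.cos (t * Rf p (q n) z)) ∂(s' n)) +
            (((n : ℝ) + 1) * ∫ z, (1 - Real.cos (t * Rf p (q n) z)) ^ 2 ∂(s' n)) +
            1 / 2 * (1 / (k + 1) + 2 * δ n) *
              (((n : ℝ) + 1) * ∫ z, Real.sin (t * Rf p (q n) z) ^ 2 ∂(s' n)) := by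
      have h7 := mul_le_mul_of_nonneg_left h2 (by positivity : (0 : ℝ) ≤ (n : ℝ) + 1)
      linarith
    have h8 := h5.trans (Real.exp_le_exp.2 h6)
    linarith
  -- the limit of the bound
  have hlim : ∀ k : ℕ, Tendsto (fun n : ℕ =>
      k * (∫ w, |G n (ys w) - G n (xs w)| ∂(pw (s' n) (n + 1))) +
        √(Real.exp (-2 * (((n : ℝ) + 1) * ∫ z, (1 - Real.cos (t * Rf p (q n) z)) ∂(s' n)) +
            (((n : ℝ) + 1) * ∫ z, (1 - Real.cos (t * Rf p (q n) z)) ^ 2 ∂(s' n)) +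
            1 / 2 * (1 / (k + 1) + 2 * δ n) *
              (((n : ℝ) + 1) * ∫ z, Real.sin (t * Rf p (q n) z) ^ 2 ∂(s' n))) -
          2 * α * (∫ z, Real.cos (t * Rf p (q n) z) ∂(s' n)) ^ (n + 1) + α ^ 2)) atTop
      (𝓝 (k * 0 + √(Real.exp (-2 * c + 0 + 1 / 2 * (1 / (k + 1) + 2 * 0) * (t ^ 2 * σ ^ 2)) -
        2 * α * α + α ^ 2))) := by
    intro k
    refine (hs.const_mul (k : ℝ)).add ?_
    refine (Real.continuous_sqrt.tendsto _).comp ?_
    refine Tendsto.add (Tendsto.sub ?_ (hpow.const_mul _)) tendsto_const_nhds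
    refine (Real.continuous_exp.tendsto _).comp ?_
    refine ((hx.const_mul (-2)).add hy).add ?_
    refine Tendsto.mul (Tendsto.const_mul _ ?_) hz
    exact (A.δlim.const_mul 2).const_add _
  -- the limit in `k`
  have hk : Tendsto (fun k : ℕ => (k : ℝ) * 0 +
      √(Real.exp (-2 * c + 0 + 1 / 2 * (1 / (k + 1) + 2 * 0) * (t ^ 2 * σ ^ 2)) -
        2 * α * α + α ^ 2)) atTop (𝓝 0) := by
    have h1 : Tendsto (fun k : ℕ => (1 : ℝ) / ((k : ℝ) + 1)) atTop (𝓝 0) :=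
      tendsto_one_div_add_atTop_nhds_zero_nat
    have h2 : Tendsto (fun k : ℕ => √(Real.exp (-2 * c + 0 +
        1 / 2 * (1 / ((k : ℝ) + 1) + 2 * 0) * (t ^ 2 * σ ^ 2)) - 2 * α * α + α ^ 2)) atTop
        (𝓝 (√(Real.exp (-2 * c + 0 + 1 / 2 * (0 + 2 * 0) * (t ^ 2 * σ ^ 2)) -
          2 * α * α + α ^ 2))) := by
      refine (Real.continuous_sqrt.tendsto _).comp ?_
      refine Tendsto.add (Tendsto.sub ?_ tendsto_const_nhds) tendsto_const_nhds
      refine (Real.continuous_exp.tendsto _).comp ?_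
      refine Tendsto.const_add _ ?_
      refine Tendsto.mul_const _ ?_
      refine Tendsto.const_mul _ ?_
      exact h1.add_const _
    have h3 : Real.exp (-2 * c + 0 + 1 / 2 * (0 + 2 * 0) * (t ^ 2 * σ ^ 2)) = α ^ 2 := by
      rw [hα, ← Real.exp_nat_mul, hc]
      congr 1
      push_cast
      ring
    have h4 : α ^ 2 - 2 * α * α + α ^ 2 = 0 := by ring
    rw [h3, h4, Real.sqrt_zero] at h2
    exact h2.congr fun k => by ring
  rw [tendsto_zero_iff_norm_tendsto_zero]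
  refine tendsto_order.2 ⟨fun a ha => Eventually.of_forall fun n => ha.trans_le (norm_nonneg _),
    fun ε hε => ?_⟩
  obtain ⟨k, hkε⟩ := ((tendsto_order.1 hk).2 ε hε).exists
  filter_upwards [(tendsto_order.1 (hlim k)).2 ε hkε] with n hn
  exact (hbound k n).trans_lt hn

end Pool.Agent.Lib.MP_e19099_pr
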