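import Pool.Agent.Lib.MP_e19099_pr.Tgt

/-!
# One coordinate of the proposal (module B, B1)

`p` is the target density, `q x y` the proposal density.  `sdn (x,y) = √(p(x) q(x,y) p(y) q(y,x))`, `Zf` its integral,
`sm` the symmetric probability measure with density `sdn / Zf`, `Rf` the log ratio.  Everything is elementary:
`sdn ≤ ½ (p(x)q(x,y) + p(y)q(y,x))`, so `0 < Zf ≤ 1`; `sdn e^{-R/2} = p(x) q(x,y)` and `sdn e^{R/2} = p(y) q(y,x)`.
-/

set_option autoImplicit false

open MeasureTheory ProbabilityTheory Filter Set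
open scoped NNReal Topology ENNReal

namespace Pool.Agent.Lib.MP_e19099_pr

/-- `q x ·` is a positive probability density, jointly measurable -/
structure IsProp (q : ℝ → ℝ → ℝ) : Prop where
  meas : Measurable (Function.uncurry q)
  pos : ∀ x y, 0 < q x y
  one : ∀ x, ∫ y, q x y = 1

/-- the symmetrized density -/
noncomputable def sdn (p : ℝ → ℝ) (q : ℝ → ℝ → ℝ) (z : ℝ × ℝ) : ℝ :=
  √(p z.1 * q z.1 z.2 * (p z.2 * q z.2 z.1))

/-- the logarithm of the Metropolis-Hastings ratio -/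
noncomputable def Rf (p : ℝ → ℝ) (q : ℝ → ℝ → ℝ) (z : ℝ × ℝ) : ℝ :=
  Real.log (p z.2 * q z.2 z.1 / (p z.1 * q z.1 z.2))

/-- the normalization -/
noncomputable def Zf (p : ℝ → ℝ) (q : ℝ → ℝ → ℝ) : ℝ := ∫ z : ℝ × ℝ, sdn p q z

/-- the symmetric edge measure -/
noncomputable def sm (p : ℝ → ℝ) (q : ℝ → ℝ → ℝ) : Measure (ℝ × ℝ) :=
  (volume : Measure (ℝ × ℝ)).withDensity fun z => ENNReal.ofReal (sdn p q z / Zf p q)

variable {p : ℝ → ℝ} {q : ℝ → ℝ → ℝ}

theorem q_integrable (hq : IsProp q) (x : ℝ) : Integrable (q x) := by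
  by_contra h
  have h1 := hq.one x
  rw [integral_undef h] at h1
  exact zero_ne_one h1

theorem pq_integrable (hp : Dens p) (hq : IsProp q) :
    Integrable fun z : ℝ × ℝ => p z.1 * q z.1 z.2 := by
  have hm : Measurable fun z : ℝ × ℝ => p z.1 * q z.1 z.2 :=
    (hp.cont.measurable.comp measurable_fst).mul hq.meas
  rw [Measure.volume_eq_prod, integrable_prod_iff hm.aestronglyMeasurable]
  refine ⟨Eventually.of_forall fun x => (q_integrable hq x).const_mul (p x), ?_⟩
  refine hp.int.congr (Eventually.of_forall fun x => ?_)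
  show p x = ∫ y, ‖p x * q x y‖
  have h1 : ∀ y, ‖p x * q x y‖ = p x * q x y := fun y => by
    rw [Real.norm_eq_abs, abs_of_pos (mul_pos (hp.pos x) (hq.pos x y))]
  simp_rw [h1]
  rw [integral_const_mul, hq.one x, mul_one]

theorem pq_one (hp : Dens p) (hq : IsProp q) : ∫ z : ℝ × ℝ, p z.1 * q z.1 z.2 = 1 := by
  have h := pq_integrable hp hq
  rw [Measure.volume_eq_prod] at h ⊢
  rw [integral_prod _ h]
  have h1 : ∀ x, ∫ y, p x * q x y = p x := fun x => by
    rw [integral_const_mul, hq.one x, mul_one]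
  simp_rw [h1]
  exact hp.one

theorem sdn_meas (hp : Dens p) (hq : IsProp q) : Measurable (sdn p q) := by
  have h1 : Measurable fun z : ℝ × ℝ => p z.1 * q z.1 z.2 :=
    (hp.cont.measurable.comp measurable_fst).mul hq.meas
  have h2 : Measurable fun z : ℝ × ℝ => p z.2 * q z.2 z.1 := h1.comp measurable_swap
  exact (h1.mul h2).sqrt

theorem sdn_pos (hp : Dens p) (hq : IsProp q) (z : ℝ × ℝ) : 0 < sdn p q z := by
  exact Real.sqrt_pos.2 (mul_pos (mul_pos (hp.pos _) (hq.pos _ _)) (mul_pos (hp.pos _) (hq.pos _ _)))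

theorem sdn_symm (z : ℝ × ℝ) : sdn p q z.swap = sdn p q z := by
  unfold sdn
  rw [Prod.fst_swap, Prod.snd_swap, mul_comm]

theorem sdn_le (hp : Dens p) (hq : IsProp q) (z : ℝ × ℝ) :
    sdn p q z ≤ (p z.1 * q z.1 z.2 + p z.2 * q z.2 z.1) / 2 := by
  have ha : 0 < p z.1 * q z.1 z.2 := mul_pos (hp.pos _) (hq.pos _ _)
  have hb : 0 < p z.2 * q z.2 z.1 := mul_pos (hp.pos _) (hq.pos _ _)
  unfold sdn
  rw [Real.sqrt_le_iff]
  refine ⟨by linarith, ?_⟩
  nlinarith [sq_nonneg (p z.1 * q z.1 z.2 - p z.2 * q z.2 z.1)]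

private theorem pq_swap_integrable (hp : Dens p) (hq : IsProp q) :
    Integrable fun z : ℝ × ℝ => p z.2 * q z.2 z.1 := by
  have h := pq_integrable hp hq
  rw [Measure.volume_eq_prod] at h ⊢
  exact h.swap

private theorem pq_swap_one (hp : Dens p) (hq : IsProp q) :
    ∫ z : ℝ × ℝ, p z.2 * q z.2 z.1 = 1 := by
  have h := pq_one hp hq
  rw [Measure.volume_eq_prod] at h ⊢
  rw [← h]
  exact integral_prod_swap fun z : ℝ × ℝ => p z.1 * q z.1 z.2

theorem sdn_integrable (hp : Dens p) (hq : IsProp q) : Integrable (sdn p q) := by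
  have h1 := ((pq_integrable hp hq).add (pq_swap_integrable hp hq)).div_const 2
  refine h1.mono' (sdn_meas hp hq).aestronglyMeasurable (Eventually.of_forall fun z => ?_)
  rw [Real.norm_eq_abs, abs_of_pos (sdn_pos hp hq z)]
  exact sdn_le hp hq z

theorem Zf_pos (hp : Dens p) (hq : IsProp q) : 0 < Zf p q := by
  unfold Zf
  rw [integral_pos_iff_support_of_nonneg (fun z => (sdn_pos hp hq z).le) (sdn_integrable hp hq)]
  have h : Function.support (sdn p q) = univ :=
    eq_univ_of_forall fun z => (sdn_pos hp hq z).ne'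
  rw [h]
  exact isOpen_univ.measure_pos volume univ_nonempty

theorem Zf_le (hp : Dens p) (hq : IsProp q) : Zf p q ≤ 1 := by
  have h1 : Zf p q ≤ ∫ z : ℝ × ℝ, (p z.1 * q z.1 z.2 + p z.2 * q z.2 z.1) / 2 :=
    integral_mono (sdn_integrable hp hq)
      (((pq_integrable hp hq).add (pq_swap_integrable hp hq)).div_const 2) (sdn_le hp hq)
  refine h1.trans (le_of_eq ?_)
  rw [integral_div, integral_add (pq_integrable hp hq) (pq_swap_integrable hp hq), pq_one hp hq,
    pq_swap_one hp hq]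
  norm_num

theorem Rf_meas (hp : Dens p) (hq : IsProp q) : Measurable (Rf p q) := by
  have h1 : Measurable fun z : ℝ × ℝ => p z.1 * q z.1 z.2 :=
    (hp.cont.measurable.comp measurable_fst).mul hq.meas
  have h2 : Measurable fun z : ℝ × ℝ => p z.2 * q z.2 z.1 := h1.comp measurable_swap
  exact Real.measurable_log.comp (h2.div h1)

theorem Rf_anti (hp : Dens p) (hq : IsProp q) (z : ℝ × ℝ) : Rf p q z.swap = - Rf p q z := by
  unfold Rf
  rw [Prod.fst_swap, Prod.snd_swap, ← Real.log_inv, inv_div]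

private theorem sdn_eq (hp : Dens p) (hq : IsProp q) (z : ℝ × ℝ) :
    sdn p q z = Real.exp ((Real.log (p z.1 * q z.1 z.2) + Real.log (p z.2 * q z.2 z.1)) / 2) := by
  have ha : 0 < p z.1 * q z.1 z.2 := mul_pos (hp.pos _) (hq.pos _ _)
  have hb : 0 < p z.2 * q z.2 z.1 := mul_pos (hp.pos _) (hq.pos _ _)
  unfold sdn
  rw [Real.sqrt_eq_rpow, Real.rpow_def_of_pos (mul_pos ha hb), Real.log_mul ha.ne' hb.ne']
  congr 1
  ring

private theorem Rf_eq (hp : Dens p) (hq : IsProp q) (z : ℝ × ℝ) :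
    Rf p q z = Real.log (p z.2 * q z.2 z.1) - Real.log (p z.1 * q z.1 z.2) := by
  have ha : 0 < p z.1 * q z.1 z.2 := mul_pos (hp.pos _) (hq.pos _ _)
  have hb : 0 < p z.2 * q z.2 z.1 := mul_pos (hp.pos _) (hq.pos _ _)
  unfold Rf
  rw [Real.log_div hb.ne' ha.ne']

theorem sdn_exp_neg (hp : Dens p) (hq : IsProp q) (z : ℝ × ℝ) :
    sdn p q z * Real.exp (-(Rf p q z) / 2) = p z.1 * q z.1 z.2 := by
  have ha : 0 < p z.1 * q z.1 z.2 := mul_pos (hp.pos _) (hq.pos _ _)
  rw [sdn_eq hp hq, Rf_eq hp hq, ← Real.exp_add]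
  rw [show (Real.log (p z.1 * q z.1 z.2) + Real.log (p z.2 * q z.2 z.1)) / 2 +
      -(Real.log (p z.2 * q z.2 z.1) - Real.log (p z.1 * q z.1 z.2)) / 2 =
      Real.log (p z.1 * q z.1 z.2) by ring]
  exact Real.exp_log ha

theorem sdn_exp_pos (hp : Dens p) (hq : IsProp q) (z : ℝ × ℝ) :
    sdn p q z * Real.exp (Rf p q z / 2) = p z.2 * q z.2 z.1 := by
  have hb : 0 < p z.2 * q z.2 z.1 := mul_pos (hp.pos _) (hq.pos _ _)
  rw [sdn_eq hp hq, Rf_eq hp hq, ← Real.exp_add]
  rw [show (Real.log (p z.1 * q z.1 z.2) + Real.log (p z.2 * q z.2 z.1)) / 2 +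
      (Real.log (p z.2 * q z.2 z.1) - Real.log (p z.1 * q z.1 z.2)) / 2 =
      Real.log (p z.2 * q z.2 z.1) by ring]
  exact Real.exp_log hb

private theorem dens_meas (hp : Dens p) (hq : IsProp q) :
    Measurable fun z => ENNReal.ofReal (sdn p q z / Zf p q) :=
  ((sdn_meas hp hq).div_const _).ennreal_ofReal

private theorem dens_pos (hp : Dens p) (hq : IsProp q) (z : ℝ × ℝ) : 0 < sdn p q z / Zf p q :=
  div_pos (sdn_pos hp hq z) (Zf_pos hp hq)

theorem sm_prob (hp : Dens p) (hq : IsProp q) : IsProbabilityMeasure (sm p q) := by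
  constructor
  unfold sm
  rw [withDensity_apply _ MeasurableSet.univ, Measure.restrict_univ,
    ← ofReal_integral_eq_lintegral_ofReal ((sdn_integrable hp hq).div_const _)
      (Eventually.of_forall fun z => (dens_pos hp hq z).le), integral_div]
  have h : (∫ z : ℝ × ℝ, sdn p q z) / Zf p q = 1 := div_self (Zf_pos hp hq).ne'
  rw [h, ENNReal.ofReal_one]

theorem sm_swap (hp : Dens p) (hq : IsProp q) : (sm p q).map Prod.swap = sm p q := by
  unfold sm
  ext s hs
  rw [Measure.map_apply measurable_swap hs, withDensity_apply _ hs,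
    withDensity_apply _ (measurable_swap hs)]
  have hmp : MeasurePreserving (Prod.swap : ℝ × ℝ → ℝ × ℝ) volume volume := by
    rw [Measure.volume_eq_prod]
    exact Measure.measurePreserving_swap
  rw [← hmp.setLIntegral_comp_preimage hs (dens_meas hp hq)]
  refine lintegral_congr fun z => ?_
  rw [sdn_symm]

theorem integral_sm (hp : Dens p) (hq : IsProp q) (F : ℝ × ℝ → ℝ) :
    ∫ z, F z ∂(sm p q) = (Zf p q)⁻¹ * ∫ z : ℝ × ℝ, F z * sdn p q z := by
  unfold sm
  rw [integral_withDensity_eq_integral_toReal_smul (dens_meas hp hq)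
    (Eventually.of_forall fun z => ENNReal.ofReal_lt_top), ← integral_const_mul]
  refine integral_congr_ae (Eventually.of_forall fun z => ?_)
  show (ENNReal.ofReal (sdn p q z / Zf p q)).toReal • F z = (Zf p q)⁻¹ * (F z * sdn p q z)
  rw [ENNReal.toReal_ofReal (dens_pos hp hq z).le, smul_eq_mul]
  ring

theorem integrable_sm (hp : Dens p) (hq : IsProp q) (F : ℝ × ℝ → ℝ) :
    Integrable F (sm p q) ↔ Integrable fun z : ℝ × ℝ => F z * sdn p q z := by
  unfold sm
  rw [integrable_withDensity_iff_integrable_smul' (dens_meas hp hq)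
    (Eventually.of_forall fun z => ENNReal.ofReal_lt_top)]
  rw [← integrable_const_mul_iff (isUnit_iff_ne_zero.2 (inv_ne_zero (Zf_pos hp hq).ne'))
    fun z : ℝ × ℝ => F z * sdn p q z]
  refine integrable_congr (Eventually.of_forall fun z => ?_)
  show (ENNReal.ofReal (sdn p q z / Zf p q)).toReal • F z = (Zf p q)⁻¹ * (F z * sdn p q z)
  rw [ENNReal.toReal_ofReal (dens_pos hp hq z).le, smul_eq_mul]
  ring

theorem ae_sm (hp : Dens p) (hq : IsProp q) {s : ℝ × ℝ → Prop} :
    (∀ᵐ z ∂(sm p q), s z) ↔ ∀ᵐ z : ℝ × ℝ, s z := by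
  unfold sm
  rw [ae_withDensity_iff (dens_meas hp hq)]
  have h : ∀ z, ENNReal.ofReal (sdn p q z / Zf p q) ≠ 0 := fun z => by
    rw [Ne, ENNReal.ofReal_eq_zero, not_le]
    exact dens_pos hp hq z
  constructor
  · intro h1
    filter_upwards [h1] with z hz
    exact hz (h z)
  · intro h1
    filter_upwards [h1] with z hz _
    exact hz

/-- `Z e^{-R/2} ds = p(x) q(x,y) dx dy` -/
theorem integral_mu (hp : Dens p) (hq : IsProp q) (F : ℝ × ℝ → ℝ) :
    Zf p q * ∫ z, Real.exp (-(Rf p q z) / 2) * F z ∂(sm p q)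
      = ∫ z : ℝ × ℝ, F z * (p z.1 * q z.1 z.2) := by
  rw [integral_sm hp hq, ← mul_assoc, mul_inv_cancel₀ (Zf_pos hp hq).ne', one_mul]
  refine integral_congr_ae (Eventually.of_forall fun z => ?_)
  show Real.exp (-(Rf p q z) / 2) * F z * sdn p q z = F z * (p z.1 * q z.1 z.2)
  rw [← sdn_exp_neg hp hq]
  ring

/-- the first marginal of `Z e^{-R/2} ds` is `tgt p` -/
theorem integral_mu_fst (hp : Dens p) (hq : IsProp q) {C : ℝ} {f : ℝ → ℝ} (hf : Measurable f)
    (hb : ∀ x, |f x| ≤ C) :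
    Zf p q * ∫ z, Real.exp (-(Rf p q z) / 2) * f z.1 ∂(sm p q) = ∫ x, f x ∂(tgt p) := by
  rw [integral_mu hp hq fun z => f z.1, integral_tgt hp]
  have hi : Integrable fun z : ℝ × ℝ => f z.1 * (p z.1 * q z.1 z.2) := by
    refine (pq_integrable hp hq).bdd_mul (c := C)
      (hf.comp measurable_fst).aestronglyMeasurable (Eventually.of_forall fun z => ?_)
    exact hb z.1
  rw [Measure.volume_eq_prod] at hi ⊢
  rw [integral_prod _ hi]
  refine integral_congr_ae (Eventually.of_forall fun x => ?_)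
  show ∫ y, f x * (p x * q x y) = f x * p x
  rw [integral_const_mul, integral_const_mul, hq.one x, mul_one]

theorem exp_integrable (hp : Dens p) (hq : IsProp q) :
    Integrable (fun z => Real.exp (-(Rf p q z) / 2)) (sm p q) ∧
      Integrable (fun z => Real.exp (Rf p q z / 2)) (sm p q) := by
  rw [integrable_sm hp hq, integrable_sm hp hq]
  constructor
  · refine (pq_integrable hp hq).congr (Eventually.of_forall fun z => ?_)
    show p z.1 * q z.1 z.2 = Real.exp (-(Rf p q z) / 2) * sdn p q z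
    rw [← sdn_exp_neg hp hq, mul_comm]
  · refine (pq_swap_integrable hp hq).congr (Eventually.of_forall fun z => ?_)
    show p z.2 * q z.2 z.1 = Real.exp (Rf p q z / 2) * sdn p q z
    rw [← sdn_exp_pos hp hq, mul_comm]

theorem integral_exp (hp : Dens p) (hq : IsProp q) :
    ∫ z, Real.exp (-(Rf p q z) / 2) ∂(sm p q) = (Zf p q)⁻¹ ∧
      ∫ z, Real.exp (Rf p q z / 2) ∂(sm p q) = (Zf p q)⁻¹ := by
  rw [integral_sm hp hq, integral_sm hp hq]
  constructor
  · have h : ∫ z : ℝ × ℝ, Real.exp (-(Rf p q z) / 2) * sdn p q z = 1 := by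
      rw [← pq_one hp hq]
      refine integral_congr_ae (Eventually.of_forall fun z => ?_)
      show Real.exp (-(Rf p q z) / 2) * sdn p q z = p z.1 * q z.1 z.2
      rw [mul_comm, sdn_exp_neg hp hq]
    rw [h, mul_one]
  · have h : ∫ z : ℝ × ℝ, Real.exp (Rf p q z / 2) * sdn p q z = 1 := by
      rw [← pq_swap_one hp hq]
      refine integral_congr_ae (Eventually.of_forall fun z => ?_)
      show Real.exp (Rf p q z / 2) * sdn p q z = p z.2 * q z.2 z.1
      rw [mul_comm, sdn_exp_pos hp hq]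
    rw [h, mul_one]

/-- `ds ≤ (1/2Z) (dμ + dμ^swap)` -/
theorem integral_sm_le (hp : Dens p) (hq : IsProp q) {F : ℝ × ℝ → ℝ} (hF : Measurable F)
    (h0 : ∀ z, 0 ≤ F z) (hs : ∀ z, F z.swap = F z)
    (hi : Integrable fun z : ℝ × ℝ => F z * (p z.1 * q z.1 z.2)) :
    Integrable F (sm p q) ∧
      ∫ z, F z ∂(sm p q) ≤ (Zf p q)⁻¹ * ∫ z : ℝ × ℝ, F z * (p z.1 * q z.1 z.2) := by
  have hi' : Integrable fun z : ℝ × ℝ => F z * (p z.2 * q z.2 z.1) := by
    have h1 := hi
    rw [Measure.volume_eq_prod] at h1 ⊢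
    refine h1.swap.congr (Eventually.of_forall fun z => ?_)
    show F z.swap * (p z.swap.1 * q z.swap.1 z.swap.2) = F z * (p z.2 * q z.2 z.1)
    rw [hs z]
    rfl
  have he : ∫ z : ℝ × ℝ, F z * (p z.2 * q z.2 z.1) = ∫ z : ℝ × ℝ, F z * (p z.1 * q z.1 z.2) := by
    rw [Measure.volume_eq_prod]
    rw [← integral_prod_swap fun z : ℝ × ℝ => F z * (p z.1 * q z.1 z.2)]
    refine integral_congr_ae (Eventually.of_forall fun z => ?_)
    show F z * (p z.2 * q z.2 z.1) = F z.swap * (p z.swap.1 * q z.swap.1 z.swap.2)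
    rw [hs z]
    rfl
  have hsum := (hi.add hi').div_const 2
  have hle : ∀ z : ℝ × ℝ, F z * sdn p q z ≤
      (F z * (p z.1 * q z.1 z.2) + F z * (p z.2 * q z.2 z.1)) / 2 := fun z => by
    have h1 := mul_le_mul_of_nonneg_left (sdn_le hp hq z) (h0 z)
    refine h1.trans (le_of_eq ?_)
    ring
  have hint : Integrable fun z : ℝ × ℝ => F z * sdn p q z := by
    refine hsum.mono' (hF.mul (sdn_meas hp hq)).aestronglyMeasurable
      (Eventually.of_forall fun z => ?_)
    rw [Real.norm_eq_abs, abs_of_nonneg (mul_nonneg (h0 z) (sdn_pos hp hq z).le)]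
    exact hle z
  refine ⟨(integrable_sm hp hq F).2 hint, ?_⟩
  rw [integral_sm hp hq]
  refine mul_le_mul_of_nonneg_left ?_ (inv_nonneg.2 (Zf_pos hp hq).le)
  have h2 : ∫ z : ℝ × ℝ, F z * sdn p q z ≤
      ∫ z : ℝ × ℝ, (F z * (p z.1 * q z.1 z.2) + F z * (p z.2 * q z.2 z.1)) / 2 :=
    integral_mono hint hsum hle
  refine h2.trans (le_of_eq ?_)
  rw [integral_div, integral_add hi hi', he]
  ring

end Pool.Agent.Lib.MP_e19099_pr
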