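import Pool.Agent.Lib.MP_e19099_pr.BSlow

/-!
# First coordinate duality, first part (module B, B14)

`T0, T1, T2` are the energy of `U` and `v = vf p t a` in the first coordinate, with `v(y₀) - v(x₀)` replaced by `g` (`T1`) and with `S` replaced by the sum without the
first coordinate (`T2`).
`dual01`: Cauchy-Schwarz: `|T0 - T1| ≤ (1/2τ) √(Z^N ∫ e^{-|S|/2} ΔU²) √(Z^N ∫ (Δv - g)²) ≤ (1/2τ) √(M τ) √(∫ (Δv - g)² ds)` (`pi_zero`, `Z ≤ 1`) and `hg.close`.
`dual12`: on `|R₀| ≤ 1`: `|e^{-|S|/2} - e^{-|S-R₀|/2}| ≤ |R₀| e^{-|S|/2}` (`expdiff`), Cauchy-Schwarz and `rg_lim`; on `|R₀| > 1` the difference is at most `1`, `|ΔU| ≤ 2M`: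
`≤ (M/τ) ∫_{|R|>1} |g| ds`, `hg.tail`.
-/

set_option autoImplicit false

open MeasureTheory ProbabilityTheory Filter Set
open scoped NNReal Topology ENNReal

namespace Pool.Agent.Lib.MP_e19099_pr

/-- the energy of `U` and `v(x₀)` -/
noncomputable def T0 (p : ℝ → ℝ) (q : ℕ → ℝ → ℝ → ℝ) (τ : ℕ → ℝ)
    (U : ∀ n : ℕ, (Fin (n + 1) → ℝ) → ℝ) (v : ℝ → ℝ) (n : ℕ) : ℝ :=
  Zf p (q n) ^ (n + 1) / (2 * τ n) * ∫ w : Fin (n + 1) → ℝ × ℝ,
    Real.exp (-|Sn (Rf p (q n)) w| / 2) * ((U n (ys w) - U n (xs w))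
      * (v (w 0).2 - v (w 0).1)) ∂(pw (sm p (q n)) (n + 1))

noncomputable def T1 (p : ℝ → ℝ) (q : ℕ → ℝ → ℝ → ℝ) (τ : ℕ → ℝ)
    (U : ∀ n : ℕ, (Fin (n + 1) → ℝ) → ℝ) (g : ℕ → ℝ × ℝ → ℝ) (n : ℕ) : ℝ :=
  Zf p (q n) ^ (n + 1) / (2 * τ n) * ∫ w : Fin (n + 1) → ℝ × ℝ,
    Real.exp (-|Sn (Rf p (q n)) w| / 2) * ((U n (ys w) - U n (xs w)) * g n (w 0))
      ∂(pw (sm p (q n)) (n + 1))

noncomputable def T2 (p : ℝ → ℝ) (q : ℕ → ℝ → ℝ → ℝ) (τ : ℕ → ℝ)
    (U : ∀ n : ℕ, (Fin (n + 1) → ℝ) → ℝ) (g : ℕ → ℝ × ℝ → ℝ) (n : ℕ) : ℝ :=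
  Zf p (q n) ^ (n + 1) / (2 * τ n) * ∫ w : Fin (n + 1) → ℝ × ℝ,
    Real.exp (-|Sn (Rf p (q n)) w - Rf p (q n) (w 0)| / 2)
      * ((U n (ys w) - U n (xs w)) * g n (w 0)) ∂(pw (sm p (q n)) (n + 1))

variable {p : ℝ → ℝ} {q : ℕ → ℝ → ℝ → ℝ} {l σ : ℝ} {τ : ℕ → ℝ} {M : ℝ}
  {U : ∀ n : ℕ, (Fin (n + 1) → ℝ) → ℝ}

private theorem bda_squeeze {a b d : ℕ → ℝ} {c : ℝ} (hc : 0 ≤ c)
    (h : ∀ ε : ℝ, 0 < ε → ∀ n, |a n| ≤ ε * c + (1 / ε) * b n + d n)
    (hb : Tendsto b atTop (𝓝 0)) (hd : Tendsto d atTop (𝓝 0)) : Tendsto a atTop (𝓝 0) := by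
  rw [tendsto_zero_iff_abs_tendsto_zero]
  refine tendsto_order.2 ⟨fun x hx => Eventually.of_forall fun n => hx.trans_le (abs_nonneg _),
    fun δ hδ => ?_⟩
  set ε : ℝ := δ / (2 * (c + 1)) with hε
  have hε0 : 0 < ε := by positivity
  have hεc : ε * c < δ := by
    rw [hε, div_mul_eq_mul_div, div_lt_iff₀ (by positivity)]
    nlinarith
  have h1 : Tendsto (fun n => ε * c + (1 / ε) * b n + d n) atTop (𝓝 (ε * c + (1 / ε) * 0 + 0)) :=
    ((hb.const_mul (1 / ε)).const_add (ε * c)).add hd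
  rw [mul_zero, add_zero, add_zero] at h1
  filter_upwards [h1.eventually (gt_mem_nhds hεc)] with n hn
  exact (h ε hε0 n).trans_lt hn

private theorem bda_amgm {ε : ℝ} (hε : 0 < ε) (x y : ℝ) :
    |x| * |y| ≤ ε / 2 * x ^ 2 + 1 / (2 * ε) * y ^ 2 := by
  have h1 : 0 ≤ (ε * |x| - |y|) ^ 2 / (2 * ε) := by positivity
  have h2 : (ε * |x| - |y|) ^ 2 / (2 * ε) =
      ε / 2 * x ^ 2 + 1 / (2 * ε) * y ^ 2 - |x| * |y| := by
    rw [← sq_abs x, ← sq_abs y]
    field_simp
    ring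
  linarith

theorem expdiff {s r : ℝ} (hr : |r| ≤ 1) :
    |Real.exp (-|s| / 2) - Real.exp (-|s - r| / 2)| ≤ |r| * Real.exp (-|s| / 2) := by
  have h1 : |(|s| - |s - r|)| ≤ |r| := by
    have h2 := abs_abs_sub_abs_le_abs_sub s (s - r)
    have h3 : s - (s - r) = r := by ring
    rwa [h3] at h2
  have h2 : |(|s| - |s - r|) / 2| ≤ 1 := by
    rw [abs_div, abs_of_pos (by norm_num : (0 : ℝ) < 2)]
    linarith
  have h3 := Real.abs_exp_sub_one_le h2
  have h4 : Real.exp (-|s - r| / 2) = Real.exp (-|s| / 2) * Real.exp ((|s| - |s - r|) / 2) := by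
    rw [← Real.exp_add]
    congr 1
    ring
  have h5 : Real.exp (-|s| / 2) - Real.exp (-|s - r| / 2) =
      -(Real.exp (-|s| / 2) * (Real.exp ((|s| - |s - r|) / 2) - 1)) := by
    rw [h4]
    ring
  rw [h5, abs_neg, abs_mul, abs_of_pos (Real.exp_pos _), mul_comm (|r|)]
  refine mul_le_mul_of_nonneg_left ?_ (Real.exp_pos _).le
  refine h3.trans ?_
  rw [abs_div, abs_of_pos (by norm_num : (0 : ℝ) < 2)]
  linarith

private theorem bda_exp_le (x : ℝ) : Real.exp (-|x| / 2) ≤ 1 := by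
  rw [Real.exp_le_one_iff]
  have := abs_nonneg x
  linarith

private theorem bda_int {α : Type*} [MeasurableSpace α] {P : Measure α} [IsProbabilityMeasure P]
    {f : α → ℝ} (hf : Measurable f) {C : ℝ} (hC : ∀ x, |f x| ≤ C) : Integrable f P :=
  Integrable.of_bound hf.aestronglyMeasurable C (Eventually.of_forall hC)

private theorem bda_E_meas (B : BSetup p q l σ τ) (n : ℕ) :
    Measurable fun w : Fin (n + 1) → ℝ × ℝ => Real.exp (-|Sn (Rf p (q n)) w| / 2) := by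
  have h1 : Measurable fun w : Fin (n + 1) → ℝ × ℝ => |Sn (Rf p (q n)) w| :=
    continuous_abs.measurable.comp (Sn_meas (Rf_meas B.dens (B.prop n)))
  exact (h1.neg.div_const 2).exp

private theorem bda_E2_meas (B : BSetup p q l σ τ) (n : ℕ) :
    Measurable fun w : Fin (n + 1) → ℝ × ℝ =>
      Real.exp (-|Sn (Rf p (q n)) w - Rf p (q n) (w 0)| / 2) := by
  have h1 : Measurable fun w : Fin (n + 1) → ℝ × ℝ => |Sn (Rf p (q n)) w - Rf p (q n) (w 0)| :=
    continuous_abs.measurable.comp ((Sn_meas (Rf_meas B.dens (B.prop n))).sub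
      ((Rf_meas B.dens (B.prop n)).comp (measurable_pi_apply 0)))
  exact (h1.neg.div_const 2).exp

private theorem bda_U_meas (hU : BE p q τ M U) (n : ℕ) :
    Measurable fun w : Fin (n + 1) → ℝ × ℝ => U n (ys w) - U n (xs w) :=
  ((hU.mb n).meas.comp ys_meas).sub ((hU.mb n).meas.comp xs_meas)

private theorem bda_U_bdd (hU : BE p q τ M U) (n : ℕ) (w : Fin (n + 1) → ℝ × ℝ) :
    |U n (ys w) - U n (xs w)| ≤ 2 * M := by
  have h1 := (hU.mb n).bdd (ys w)
  have h2 := (hU.mb n).bdd (xs w)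
  have h3 := abs_sub (U n (ys w)) (U n (xs w))
  linarith

private theorem bda_M (hU : BE p q τ M U) : 0 ≤ M :=
  (abs_nonneg _).trans ((hU.mb 0).bdd fun _ => 0)

/-- the main estimate: a difference of integrals with a weight -/
private theorem bda_main (B : BSetup p q l σ τ) (hU : BE p q τ M U) (n : ℕ)
    {f0 f1 : (Fin (n + 1) → ℝ × ℝ) → ℝ} {A D : ℝ × ℝ → ℝ} {ε : ℝ} (hε : 0 < ε)
    (i0 : Integrable f0 (pw (sm p (q n)) (n + 1))) (i1 : Integrable f1 (pw (sm p (q n)) (n + 1)))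
    (iA : Integrable A (sm p (q n))) (iD : Integrable D (sm p (q n)))
    (hA : ∀ z, 0 ≤ A z) (hD : ∀ z, 0 ≤ D z)
    (h : ∀ w, |f0 w - f1 w| ≤ ε / 2 * (Real.exp (-|Sn (Rf p (q n)) w| / 2)
      * (U n (ys w) - U n (xs w)) ^ 2) + 1 / (2 * ε) * A (w 0) + 2 * M * D (w 0)) :
    |Zf p (q n) ^ (n + 1) / (2 * τ n) * ∫ w, f0 w ∂(pw (sm p (q n)) (n + 1))
      - Zf p (q n) ^ (n + 1) / (2 * τ n) * ∫ w, f1 w ∂(pw (sm p (q n)) (n + 1))| ≤
      ε * (M / 4) + (1 / ε) * (1 / 4 * ((τ n)⁻¹ * ∫ z, A z ∂(sm p (q n))))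
        + M * ((τ n)⁻¹ * ∫ z, D z ∂(sm p (q n))) := by
  have hprob := sm_prob B.dens (B.prop n)
  have hZ := Zf_pos B.dens (B.prop n)
  have hZ1 : Zf p (q n) ^ (n + 1) ≤ 1 := pow_le_one₀ hZ.le (Zf_le B.dens (B.prop n))
  have hZ0 : 0 < Zf p (q n) ^ (n + 1) := pow_pos hZ _
  have hτ := B.tpos n
  have hM := bda_M hU
  set P := pw (sm p (q n)) (n + 1) with hP
  have iE : Integrable (fun w => Real.exp (-|Sn (Rf p (q n)) w| / 2)
      * (U n (ys w) - U n (xs w)) ^ 2) P := by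
    refine bda_int ((bda_E_meas B n).mul ((bda_U_meas hU n).pow_const 2))
      (C := 1 * (2 * M) ^ 2) fun w => ?_
    rw [abs_mul, abs_of_pos (Real.exp_pos _), abs_pow]
    exact mul_le_mul (bda_exp_le _) (pow_le_pow_left₀ (abs_nonneg _) (bda_U_bdd hU n w) 2)
      (by positivity) zero_le_one
  have pA := pi_zero (N := n) iA
  have pD := pi_zero (N := n) iD
  rw [← mul_sub, ← integral_sub i0 i1, abs_mul, abs_of_pos (div_pos hZ0 (by positivity))]
  have h1 : |∫ w, (f0 w - f1 w) ∂P| ≤ ε / 2 * (∫ w, (Real.exp (-|Sn (Rf p (q n)) w| / 2)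
      * (U n (ys w) - U n (xs w)) ^ 2) ∂P) + 1 / (2 * ε) * (∫ z, A z ∂(sm p (q n)))
      + 2 * M * ∫ z, D z ∂(sm p (q n)) := by
    refine (abs_integral_le_integral_abs).trans ?_
    have h2 : ∫ w, |f0 w - f1 w| ∂P ≤ ∫ w, (ε / 2 * (Real.exp (-|Sn (Rf p (q n)) w| / 2)
      * (U n (ys w) - U n (xs w)) ^ 2) + 1 / (2 * ε) * A (w 0) + 2 * M * D (w 0)) ∂P :=
      integral_mono (i0.sub i1).abs
        (((iE.const_mul _).add (pA.1.const_mul _)).add (pD.1.const_mul _)) h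
    refine h2.trans (le_of_eq ?_)
    have j1 : Integrable (fun w : Fin (n + 1) → ℝ × ℝ =>
        ε / 2 * (Real.exp (-|Sn (Rf p (q n)) w| / 2) * (U n (ys w) - U n (xs w)) ^ 2)) P :=
      iE.const_mul _
    have j2 : Integrable (fun w : Fin (n + 1) → ℝ × ℝ => 1 / (2 * ε) * A (w 0)) P :=
      pA.1.const_mul _
    have j3 : Integrable (fun w : Fin (n + 1) → ℝ × ℝ => 2 * M * D (w 0)) P := pD.1.const_mul _
    have j12 : Integrable (fun w : Fin (n + 1) → ℝ × ℝ =>
        ε / 2 * (Real.exp (-|Sn (Rf p (q n)) w| / 2) * (U n (ys w) - U n (xs w)) ^ 2)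
          + 1 / (2 * ε) * A (w 0)) P := j1.add j2
    rw [integral_add j12 j3, integral_add j1 j2, integral_const_mul, integral_const_mul,
      integral_const_mul, pA.2, pD.2]
  have hen := hU.en n
  set IE := ∫ w, (Real.exp (-|Sn (Rf p (q n)) w| / 2) * (U n (ys w) - U n (xs w)) ^ 2) ∂P with hIE
  set IA := ∫ z, A z ∂(sm p (q n)) with hIA
  set ID := ∫ z, D z ∂(sm p (q n)) with hID
  have hIA0 : 0 ≤ IA := integral_nonneg hA
  have hID0 : 0 ≤ ID := integral_nonneg hD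
  set Z := Zf p (q n) ^ (n + 1) with hZd
  have h3 : Z / (2 * τ n) * |∫ w, (f0 w - f1 w) ∂P| ≤
      Z / (2 * τ n) * (ε / 2 * IE + 1 / (2 * ε) * IA + 2 * M * ID) :=
    mul_le_mul_of_nonneg_left h1 (by positivity)
  refine h3.trans ?_
  have h4 : Z / (2 * τ n) * (ε / 2 * IE + 1 / (2 * ε) * IA + 2 * M * ID) =
      (ε / (4 * τ n)) * (Z * IE) + Z * ((1 / ε) * (1 / 4 * ((τ n)⁻¹ * IA)))
        + Z * (M * ((τ n)⁻¹ * ID)) := by
    field_simp
    ring
  rw [h4]
  have h5 : (ε / (4 * τ n)) * (Z * IE) ≤ ε * (M / 4) := by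
    have h6 := mul_le_mul_of_nonneg_left hen (by positivity : 0 ≤ ε / (4 * τ n))
    refine h6.trans (le_of_eq ?_)
    field_simp
  have h6 : Z * ((1 / ε) * (1 / 4 * ((τ n)⁻¹ * IA))) ≤ (1 / ε) * (1 / 4 * ((τ n)⁻¹ * IA)) :=
    mul_le_of_le_one_left (by positivity) hZ1
  have h7 : Z * (M * ((τ n)⁻¹ * ID)) ≤ M * ((τ n)⁻¹ * ID) :=
    mul_le_of_le_one_left (by positivity) hZ1
  linarith

theorem dual01 (B : BSetup p q l σ τ) (hU : BE p q τ M U) {t : ℝ → ℝ} (ht : IsTest t) {a : ℝ}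
    {g : ℕ → ℝ × ℝ → ℝ} {C : ℝ} (hg : FC p q l τ t a g C) :
    Tendsto (fun n => T0 p q τ U (vf p t a) n - T1 p q τ U g n) atTop (𝓝 0) := by
  have hM := bda_M hU
  obtain ⟨V, hV⟩ := vf_bdd B.dens ht a
  have hvc := vf_cont B.dens ht a
  have hV0 : 0 ≤ V := (abs_nonneg _).trans (hV 0)
  have hC0 : 0 ≤ C := (abs_nonneg _).trans (hg.bdd 0 (0, 0))
  refine bda_squeeze (c := M / 4) (b := fun n => 1 / 4 * ((τ n)⁻¹ *
    ∫ z, (vf p t a z.2 - vf p t a z.1 - g n z) ^ 2 ∂(sm p (q n)))) (d := fun _ => 0)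
    (by positivity) ?_ ?_ tendsto_const_nhds
  · intro ε hε n
    have hprob := sm_prob B.dens (B.prop n)
    have hvm : Measurable fun z : ℝ × ℝ => vf p t a z.2 - vf p t a z.1 :=
      (hvc.measurable.comp measurable_snd).sub (hvc.measurable.comp measurable_fst)
    have hvb : ∀ z : ℝ × ℝ, |vf p t a z.2 - vf p t a z.1| ≤ 2 * V := fun z => by
      have h1 := hV z.2
      have h2 := hV z.1
      have h3 := abs_sub (vf p t a z.2) (vf p t a z.1)
      linarith
    have hDb : ∀ z : ℝ × ℝ, |vf p t a z.2 - vf p t a z.1 - g n z| ≤ 2 * V + C := fun z => by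
      have h1 := hvb z
      have h2 := hg.bdd n z
      have h3 := abs_sub (vf p t a z.2 - vf p t a z.1) (g n z)
      linarith
    have i0 : Integrable (fun w : Fin (n + 1) → ℝ × ℝ =>
        Real.exp (-|Sn (Rf p (q n)) w| / 2) * ((U n (ys w) - U n (xs w))
          * (vf p t a (w 0).2 - vf p t a (w 0).1))) (pw (sm p (q n)) (n + 1)) := by
      refine bda_int ((bda_E_meas B n).mul ((bda_U_meas hU n).mul
        (hvm.comp (measurable_pi_apply 0)))) (C := 1 * ((2 * M) * (2 * V))) fun w => ?_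
      rw [abs_mul, abs_mul, abs_of_pos (Real.exp_pos _)]
      exact mul_le_mul (bda_exp_le _) (mul_le_mul (bda_U_bdd hU n w) (hvb _) (abs_nonneg _)
        (by positivity)) (by positivity) zero_le_one
    have i1 : Integrable (fun w : Fin (n + 1) → ℝ × ℝ =>
        Real.exp (-|Sn (Rf p (q n)) w| / 2) * ((U n (ys w) - U n (xs w)) * g n (w 0)))
        (pw (sm p (q n)) (n + 1)) := by
      refine bda_int ((bda_E_meas B n).mul ((bda_U_meas hU n).mul
        ((hg.meas n).comp (measurable_pi_apply 0)))) (C := 1 * ((2 * M) * C)) fun w => ?_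
      rw [abs_mul, abs_mul, abs_of_pos (Real.exp_pos _)]
      exact mul_le_mul (bda_exp_le _) (mul_le_mul (bda_U_bdd hU n w) (hg.bdd n _) (abs_nonneg _)
        (by positivity)) (by positivity) zero_le_one
    have iA : Integrable (fun z : ℝ × ℝ => (vf p t a z.2 - vf p t a z.1 - g n z) ^ 2)
        (sm p (q n)) := by
      refine bda_int ((hvm.sub (hg.meas n)).pow_const 2) (C := (2 * V + C) ^ 2) fun z => ?_
      rw [abs_pow]
      exact pow_le_pow_left₀ (abs_nonneg _) (hDb z) 2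
    have iD : Integrable (fun _ : ℝ × ℝ => (0 : ℝ)) (sm p (q n)) := integrable_const 0
    have key := bda_main B hU n hε i0 i1 iA iD (fun z => sq_nonneg _) (fun _ => le_rfl) ?_
    · simp only [integral_zero, mul_zero] at key
      exact key
    · intro w
      set e := Real.exp (-|Sn (Rf p (q n)) w| / 2) with he
      have he0 : 0 ≤ e := (Real.exp_pos _).le
      have he1 : e ≤ 1 := bda_exp_le _
      set X := U n (ys w) - U n (xs w) with hX
      set Y := vf p t a (w 0).2 - vf p t a (w 0).1 - g n (w 0) with hY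
      have h1 : e * (X * (vf p t a (w 0).2 - vf p t a (w 0).1)) - e * (X * g n (w 0)) =
          e * (X * Y) := by
        rw [hY]
        ring
      rw [h1, abs_mul, abs_mul, abs_of_nonneg he0]
      have h2 := mul_le_mul_of_nonneg_left (bda_amgm hε X Y) he0
      have h3 : e * (1 / (2 * ε) * Y ^ 2) ≤ 1 / (2 * ε) * Y ^ 2 :=
        mul_le_of_le_one_left (by positivity) he1
      have h4 : e * (ε / 2 * X ^ 2 + 1 / (2 * ε) * Y ^ 2) =
          ε / 2 * (e * X ^ 2) + e * (1 / (2 * ε) * Y ^ 2) := by ring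
      linarith
  · have h1 := hg.close.const_mul (1 / 4)
    rw [mul_zero] at h1
    exact h1

theorem dual12 (B : BSetup p q l σ τ) (hU : BE p q τ M U) {t : ℝ → ℝ} {a : ℝ}
    {g : ℕ → ℝ × ℝ → ℝ} {C : ℝ} (hg : FC p q l τ t a g C) :
    Tendsto (fun n => T1 p q τ U g n - T2 p q τ U g n) atTop (𝓝 0) := by
  have hM := bda_M hU
  have hC0 : 0 ≤ C := (abs_nonneg _).trans (hg.bdd 0 (0, 0))
  refine bda_squeeze (c := M / 4) (b := fun n => 1 / 4 * ((τ n)⁻¹ *
      ∫ z in {z | |Rf p (q n) z| ≤ 1}, (Rf p (q n) z * g n z) ^ 2 ∂(sm p (q n))))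
    (d := fun n => M * ((τ n)⁻¹ *
      ∫ z in {z | 1 < |Rf p (q n) z|}, |g n z| ∂(sm p (q n)))) (by positivity) ?_ ?_ ?_
  · intro ε hε n
    have hprob := sm_prob B.dens (B.prop n)
    have hRm := Rf_meas B.dens (B.prop n)
    have hRa : Measurable fun z => |Rf p (q n) z| := continuous_abs.measurable.comp hRm
    have hs1 : MeasurableSet {z | |Rf p (q n) z| ≤ 1} := measurableSet_le hRa measurable_const
    have hs2 : MeasurableSet {z | 1 < |Rf p (q n) z|} := measurableSet_lt measurable_const hRa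
    rw [← integral_indicator hs1, ← integral_indicator hs2]
    have i0 : Integrable (fun w : Fin (n + 1) → ℝ × ℝ =>
        Real.exp (-|Sn (Rf p (q n)) w| / 2) * ((U n (ys w) - U n (xs w)) * g n (w 0)))
        (pw (sm p (q n)) (n + 1)) := by
      refine bda_int ((bda_E_meas B n).mul ((bda_U_meas hU n).mul
        ((hg.meas n).comp (measurable_pi_apply 0)))) (C := 1 * ((2 * M) * C)) fun w => ?_
      rw [abs_mul, abs_mul, abs_of_pos (Real.exp_pos _)]
      exact mul_le_mul (bda_exp_le _) (mul_le_mul (bda_U_bdd hU n w) (hg.bdd n _) (abs_nonneg _)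
        (by positivity)) (by positivity) zero_le_one
    have i1 : Integrable (fun w : Fin (n + 1) → ℝ × ℝ =>
        Real.exp (-|Sn (Rf p (q n)) w - Rf p (q n) (w 0)| / 2)
          * ((U n (ys w) - U n (xs w)) * g n (w 0))) (pw (sm p (q n)) (n + 1)) := by
      refine bda_int ((bda_E2_meas B n).mul ((bda_U_meas hU n).mul
        ((hg.meas n).comp (measurable_pi_apply 0)))) (C := 1 * ((2 * M) * C)) fun w => ?_
      rw [abs_mul, abs_mul, abs_of_pos (Real.exp_pos _)]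
      exact mul_le_mul (bda_exp_le _) (mul_le_mul (bda_U_bdd hU n w) (hg.bdd n _) (abs_nonneg _)
        (by positivity)) (by positivity) zero_le_one
    have iA : Integrable ({z | |Rf p (q n) z| ≤ 1}.indicator
        fun z => (Rf p (q n) z * g n z) ^ 2) (sm p (q n)) := by
      refine bda_int (((hRm.mul (hg.meas n)).pow_const 2).indicator hs1) (C := C ^ 2)
        fun z => ?_
      rw [indicator_apply]
      split_ifs with hz
      · rw [abs_pow, abs_mul]
        have h1 : |Rf p (q n) z| * |g n z| ≤ 1 * C :=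
          mul_le_mul hz (hg.bdd n z) (abs_nonneg _) zero_le_one
        rw [one_mul] at h1
        exact pow_le_pow_left₀ (by positivity) h1 2
      · rw [abs_zero]
        positivity
    have iD : Integrable ({z | 1 < |Rf p (q n) z|}.indicator fun z => |g n z|)
        (sm p (q n)) := by
      refine bda_int ((continuous_abs.measurable.comp (hg.meas n)).indicator hs2) (C := C)
        fun z => ?_
      rw [indicator_apply]
      split_ifs with hz
      · rw [abs_abs]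
        exact hg.bdd n z
      · rw [abs_zero]
        exact hC0
    refine bda_main B hU n hε i0 i1 iA iD (fun z => indicator_nonneg (fun _ _ => sq_nonneg _) z)
      (fun z => indicator_nonneg (fun _ _ => abs_nonneg _) z) ?_
    intro w
    set e := Real.exp (-|Sn (Rf p (q n)) w| / 2) with he
    set e2 := Real.exp (-|Sn (Rf p (q n)) w - Rf p (q n) (w 0)| / 2) with he2
    have he0 : 0 ≤ e := (Real.exp_pos _).le
    have he1 : e ≤ 1 := bda_exp_le _
    have he20 : 0 ≤ e2 := (Real.exp_pos _).le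
    have he21 : e2 ≤ 1 := bda_exp_le _
    set X := U n (ys w) - U n (xs w) with hX
    have hXb : |X| ≤ 2 * M := bda_U_bdd hU n w
    set r := Rf p (q n) (w 0) with hr
    set G := g n (w 0) with hG
    have h1 : e * (X * G) - e2 * (X * G) = (e - e2) * (X * G) := by ring
    rw [h1, abs_mul, abs_mul, indicator_apply, indicator_apply]
    by_cases hc : |r| ≤ 1
    · have hc' : ¬ (1 < |r|) := not_lt.2 hc
      rw [if_pos (show w 0 ∈ {z | |Rf p (q n) z| ≤ 1} from hc),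
        if_neg (show ¬ w 0 ∈ {z | 1 < |Rf p (q n) z|} from hc'), mul_zero, add_zero]
      have h2 : |e - e2| ≤ |r| * e := expdiff hc
      have h3 : |e - e2| * (|X| * |G|) ≤ (|r| * e) * (|X| * |G|) :=
        mul_le_mul_of_nonneg_right h2 (by positivity)
      have h4 : (|r| * e) * (|X| * |G|) = e * (|X| * |r * G|) := by
        rw [abs_mul]
        ring
      have h5 := mul_le_mul_of_nonneg_left (bda_amgm hε X (r * G)) he0
      have h6 : e * (1 / (2 * ε) * (r * G) ^ 2) ≤ 1 / (2 * ε) * (r * G) ^ 2 :=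
        mul_le_of_le_one_left (by positivity) he1
      have h7 : e * (ε / 2 * X ^ 2 + 1 / (2 * ε) * (r * G) ^ 2) =
          ε / 2 * (e * X ^ 2) + e * (1 / (2 * ε) * (r * G) ^ 2) := by ring
      linarith
    · have hc' : 1 < |r| := not_le.1 hc
      rw [if_neg (show ¬ w 0 ∈ {z | |Rf p (q n) z| ≤ 1} from hc),
        if_pos (show w 0 ∈ {z | 1 < |Rf p (q n) z|} from hc'), mul_zero, add_zero]
      have h2 : |e - e2| ≤ 1 := abs_le.2 ⟨by linarith, by linarith⟩
      have h3 : |e - e2| * (|X| * |G|) ≤ 1 * (2 * M * |G|) :=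
        mul_le_mul h2 (mul_le_mul_of_nonneg_right hXb (abs_nonneg _)) (by positivity) zero_le_one
      have h4 : 0 ≤ ε / 2 * (e * X ^ 2) := by positivity
      linarith
  · have h1 := (rg_lim B hg).const_mul (1 / 4)
    rw [mul_zero] at h1
    exact h1
  · have h1 := hg.tail.const_mul M
    rw [mul_zero] at h1
    exact h1

end Pool.Agent.Lib.MP_e19099_pr
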