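import Pool.Agent.Lib.MP_e19099_pr.BDualA

/-!
# First coordinate duality, second part (module B, B15)

`T2_eq`: `pi_cons`, `w = cons z w'`: `Sn (cons z w') - R z = Sn w'`, `ys (cons z w') = cons z.2 (ys w')` etc.; in the term with `U(cons z.2 (ys w'))` apply the symmetry
`w' ↦ swap` (`pi_swap`, `Rf_anti`, `|Sn|` is invariant, `ys ∘ swap = xs`).
`dual23`: `hg.gen` with `w(x) = U(cons x (xs w'))/M` for every `w'` (`M > 0`), `Z^N ∫ e^{-|S'|/2} ≤ 1`.
`dual34`: `T4` by `pi_cons`; replace `e^{-|S'+R(z)|/2}` by `e^{-|S'|/2}` (error `≤ C ∫ min 1 |R| ds`, `rmin_lim`) and `ds(z)` by `Z e^{-R/2} ds(z)`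
(error `≤ C ∫ |Z e^{-R/2} - 1| ds`, `expd_lim`), then `integral_mu_fst` with `f x = U(cons x x') t'(x)/p(x)` and `integral_tgt`.
-/

set_option autoImplicit false

open MeasureTheory ProbabilityTheory Filter Set
open scoped NNReal Topology ENNReal

namespace Pool.Agent.Lib.MP_e19099_pr

noncomputable def T3 (p : ℝ → ℝ) (q : ℕ → ℝ → ℝ → ℝ) (l : ℝ)
    (U : ∀ n : ℕ, (Fin (n + 1) → ℝ) → ℝ) (t : ℝ → ℝ) (n : ℕ) : ℝ :=
  -(l ^ 2 / 2) * (Zf p (q n) ^ (n + 1) * ∫ w : Fin n → ℝ × ℝ,
    Real.exp (-|Sn (Rf p (q n)) w| / 2)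
      * (∫ x, U n (Fin.cons x (xs w)) * deriv t x) ∂(pw (sm p (q n)) n))

noncomputable def T4 (p : ℝ → ℝ) (q : ℕ → ℝ → ℝ → ℝ) (l : ℝ)
    (U : ∀ n : ℕ, (Fin (n + 1) → ℝ) → ℝ) (t : ℝ → ℝ) (n : ℕ) : ℝ :=
  -(l ^ 2 / 2) * (Zf p (q n) ^ (n + 1) * ∫ w : Fin (n + 1) → ℝ × ℝ,
    Real.exp (-|Sn (Rf p (q n)) w| / 2)
      * (U n (xs w) * (deriv t (xs w 0) / p (xs w 0))) ∂(pw (sm p (q n)) (n + 1)))

variable {p : ℝ → ℝ} {q : ℕ → ℝ → ℝ → ℝ} {l σ : ℝ} {τ : ℕ → ℝ} {M : ℝ}
  {U : ∀ n : ℕ, (Fin (n + 1) → ℝ) → ℝ}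

private theorem bd_cons_meas {N : ℕ} {α : Type*} [MeasurableSpace α] :
    Measurable (fun z : α × (Fin N → α) => (Fin.cons z.1 z.2 : Fin (N + 1) → α)) := by
  rw [measurable_pi_iff]
  intro i
  refine Fin.cases ?_ (fun j => ?_) i
  · simp only [Fin.cons_zero]
    exact measurable_fst
  · simp only [Fin.cons_succ]
    exact (measurable_pi_apply j).comp measurable_snd

private theorem bd_Sn {N : ℕ} (R : ℝ × ℝ → ℝ) (z : ℝ × ℝ) (w : Fin N → ℝ × ℝ) :
    Sn R (Fin.cons z w : Fin (N + 1) → ℝ × ℝ) = R z + Sn R w := by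
  unfold Sn
  rw [Fin.sum_univ_succ]
  simp only [Fin.cons_zero, Fin.cons_succ]

private theorem bd_xs {N : ℕ} (z : ℝ × ℝ) (w : Fin N → ℝ × ℝ) :
    xs (Fin.cons z w : Fin (N + 1) → ℝ × ℝ) = Fin.cons z.1 (xs w) := by
  funext i
  refine Fin.cases ?_ (fun j => ?_) i
  · simp [xs]
  · simp [xs]

private theorem bd_ys {N : ℕ} (z : ℝ × ℝ) (w : Fin N → ℝ × ℝ) :
    ys (Fin.cons z w : Fin (N + 1) → ℝ × ℝ) = Fin.cons z.2 (ys w) := by
  funext i
  refine Fin.cases ?_ (fun j => ?_) i
  · simp [ys]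
  · simp [ys]

private theorem bd_abs_le {α : Type*} [MeasurableSpace α] {μ : Measure α} [IsProbabilityMeasure μ]
    {f : α → ℝ} {C : ℝ} (h : ∀ x, |f x| ≤ C) : |∫ x, f x ∂μ| ≤ C := by
  have h1 := norm_integral_le_of_norm_le_const (μ := μ) (f := f) (C := C) (Eventually.of_forall h)
  simpa using h1

/-- split off the coordinate `0` and integrate it first -/
private theorem bd_swap {α : Type*} [MeasurableSpace α] {s : Measure α} [IsProbabilityMeasure s]
    {N : ℕ} {F : (Fin (N + 1) → α) → ℝ} {C : ℝ} (hF : MB C F) :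
    ∫ w, F w ∂(pw s (N + 1)) = ∫ w, ∫ z, F (Fin.cons z w) ∂s ∂(pw s N) := by
  have h1 : Integrable F (pw s (N + 1)) :=
    Integrable.of_bound hF.meas.aestronglyMeasurable C (Eventually.of_forall hF.bdd)
  rw [pi_cons h1]
  refine integral_integral_swap ?_
  exact Integrable.of_bound (hF.meas.comp bd_cons_meas).aestronglyMeasurable C
    (Eventually.of_forall fun z => hF.bdd _)

private theorem bd_exp_meas {R : ℝ × ℝ → ℝ} (hR : Measurable R) (N : ℕ) :
    MB 1 (fun w : Fin N → ℝ × ℝ => Real.exp (-|Sn R w| / 2)) := by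
  refine ⟨?_, fun w => ?_⟩
  · have := Sn_meas hR (N := N)
    fun_prop
  · rw [Real.abs_exp]
    apply Real.exp_le_one_iff.mpr
    have := abs_nonneg (Sn R w)
    linarith

private theorem bd_mul {α : Type*} [MeasurableSpace α] {f g : α → ℝ} {A C : ℝ} (hf : MB A f)
    (hg : MB C g) : MB (A * C) (fun x => f x * g x) := by
  refine ⟨hf.meas.mul hg.meas, fun x => ?_⟩
  rw [abs_mul]
  exact mul_le_mul (hf.bdd x) (hg.bdd x) (abs_nonneg _) (hf.nonneg x)

theorem T2_eq (B : BSetup p q l σ τ) (hU : BE p q τ M U) {t : ℝ → ℝ} {a : ℝ}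
    {g : ℕ → ℝ × ℝ → ℝ} {C : ℝ} (hg : FC p q l τ t a g C) (n : ℕ) :
    T2 p q τ U g n = Zf p (q n) ^ (n + 1) * ∫ w : Fin n → ℝ × ℝ,
      Real.exp (-|Sn (Rf p (q n)) w| / 2)
        * (1 / (2 * τ n) * ∫ z : ℝ × ℝ, g n z
          * (U n (Fin.cons z.2 (xs w)) - U n (Fin.cons z.1 (xs w))) ∂(sm p (q n)))
        ∂(pw (sm p (q n)) n) := by
  have i1 := sm_prob B.dens (B.prop n)
  have hR := Rf_meas B.dens (B.prop n)
  have hUm := (hU.mb n).meas
  have hUb := (hU.mb n).bdd
  have hgm := hg.meas n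
  have hgb := hg.bdd n
  have hM : 0 ≤ M := (abs_nonneg _).trans (hUb fun _ => 0)
  have hC : 0 ≤ C := (abs_nonneg _).trans (hgb (0, 0))
  set s := sm p (q n) with hs
  set R := Rf p (q n) with hRd
  -- the two families of functions on the product
  have hem : Measurable (fun x : (ℝ × ℝ) × (Fin n → ℝ × ℝ) => Real.exp (-|Sn R x.2| / 2)) :=
    (bd_exp_meas hR n).meas.comp measurable_snd
  have hx2 : Measurable (fun x : (ℝ × ℝ) × (Fin n → ℝ × ℝ) =>
      U n (Fin.cons x.1.2 (xs x.2))) :=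
    hUm.comp (bd_cons_meas.comp ((measurable_snd.comp measurable_fst).prodMk
      (xs_meas.comp measurable_snd)))
  have hx1 : Measurable (fun x : (ℝ × ℝ) × (Fin n → ℝ × ℝ) =>
      U n (Fin.cons x.1.1 (xs x.2))) :=
    hUm.comp (bd_cons_meas.comp ((measurable_fst.comp measurable_fst).prodMk
      (xs_meas.comp measurable_snd)))
  unfold T2
  have hF : MB (1 * ((M + M) * C)) (fun w : Fin (n + 1) → ℝ × ℝ =>
      Real.exp (-|Sn R w - R (w 0)| / 2) * ((U n (ys w) - U n (xs w)) * g n (w 0))) := by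
    refine bd_mul ⟨?_, fun w => ?_⟩ (bd_mul ⟨?_, fun w => ?_⟩ ⟨?_, fun w => hgb _⟩)
    · have h1 := Sn_meas hR (N := n + 1)
      have h2 : Measurable (fun w : Fin (n + 1) → ℝ × ℝ => R (w 0)) :=
        hR.comp (measurable_pi_apply 0)
      fun_prop
    · rw [Real.abs_exp]
      apply Real.exp_le_one_iff.mpr
      have := abs_nonneg (Sn R w - R (w 0))
      linarith
    · exact (hUm.comp ys_meas).sub (hUm.comp xs_meas)
    · refine (abs_sub _ _).trans ?_
      exact add_le_add (hUb _) (hUb _)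
    · exact hgm.comp (measurable_pi_apply 0)
  have hFi : Integrable (fun w : Fin (n + 1) → ℝ × ℝ =>
      Real.exp (-|Sn R w - R (w 0)| / 2) * ((U n (ys w) - U n (xs w)) * g n (w 0)))
      (pw s (n + 1)) :=
    Integrable.of_bound hF.meas.aestronglyMeasurable _ (Eventually.of_forall hF.bdd)
  rw [pi_cons hFi]
  -- for fixed `z`
  have hz : ∀ z : ℝ × ℝ, ∫ w, Real.exp (-|Sn R (Fin.cons z w : Fin (n + 1) → ℝ × ℝ) -
      R ((Fin.cons z w : Fin (n + 1) → ℝ × ℝ) 0)| / 2) *
      ((U n (ys (Fin.cons z w : Fin (n + 1) → ℝ × ℝ)) -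
        U n (xs (Fin.cons z w : Fin (n + 1) → ℝ × ℝ))) *
        g n ((Fin.cons z w : Fin (n + 1) → ℝ × ℝ) 0)) ∂(pw s n) =
      ∫ w, Real.exp (-|Sn R w| / 2) *
        (g n z * (U n (Fin.cons z.2 (xs w)) - U n (Fin.cons z.1 (xs w)))) ∂(pw s n) := by
    intro z
    have e1 : ∀ w : Fin n → ℝ × ℝ, Real.exp (-|Sn R (Fin.cons z w : Fin (n + 1) → ℝ × ℝ) -
      R ((Fin.cons z w : Fin (n + 1) → ℝ × ℝ) 0)| / 2) *
      ((U n (ys (Fin.cons z w : Fin (n + 1) → ℝ × ℝ)) -
        U n (xs (Fin.cons z w : Fin (n + 1) → ℝ × ℝ))) *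
        g n ((Fin.cons z w : Fin (n + 1) → ℝ × ℝ) 0)) =
        g n z * (Real.exp (-|Sn R w| / 2) * U n (Fin.cons z.2 (ys w))) -
        g n z * (Real.exp (-|Sn R w| / 2) * U n (Fin.cons z.1 (xs w))) := by
      intro w
      rw [bd_Sn, bd_xs, bd_ys, Fin.cons_zero, add_sub_cancel_left]
      ring
    have e2 : ∀ w : Fin n → ℝ × ℝ, Real.exp (-|Sn R w| / 2) *
        (g n z * (U n (Fin.cons z.2 (xs w)) - U n (Fin.cons z.1 (xs w)))) =
        g n z * (Real.exp (-|Sn R w| / 2) * U n (Fin.cons z.2 (xs w))) -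
        g n z * (Real.exp (-|Sn R w| / 2) * U n (Fin.cons z.1 (xs w))) := by
      intro w
      ring
    simp only [e1, e2]
    have mc : ∀ c : ℝ, Measurable (fun x : Fin n → ℝ => U n (Fin.cons c x)) := fun c =>
      hUm.comp (bd_cons_meas.comp (measurable_const.prodMk measurable_id))
    have my : MB (1 * M) (fun w : Fin n → ℝ × ℝ =>
        Real.exp (-|Sn R w| / 2) * U n (Fin.cons z.2 (ys w))) :=
      bd_mul (bd_exp_meas hR n) ⟨(mc _).comp ys_meas, fun w => hUb _⟩
    have mx : ∀ c : ℝ, MB (1 * M) (fun w : Fin n → ℝ × ℝ =>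
        Real.exp (-|Sn R w| / 2) * U n (Fin.cons c (xs w))) := fun c =>
      bd_mul (bd_exp_meas hR n) ⟨(mc _).comp xs_meas, fun w => hUb _⟩
    have int : ∀ {f : (Fin n → ℝ × ℝ) → ℝ} {D : ℝ}, MB D f → Integrable f (pw s n) :=
      fun hf => Integrable.of_bound hf.meas.aestronglyMeasurable _ (Eventually.of_forall hf.bdd)
    rw [integral_sub ((int my).const_mul _) ((int (mx _)).const_mul _),
      integral_sub ((int (mx _)).const_mul _) ((int (mx _)).const_mul _),
      integral_const_mul, integral_const_mul, integral_const_mul]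
    congr 2
    -- symmetry
    have hsw := pi_swap (sm_swap B.dens (B.prop n)) n
    have hmap : ∫ w, Real.exp (-|Sn R w| / 2) * U n (Fin.cons z.2 (ys w)) ∂(pw s n) =
        ∫ w, Real.exp (-|Sn R (fun i => (w i).swap)| / 2) *
          U n (Fin.cons z.2 (ys fun i => (w i).swap)) ∂(pw s n) := by
      conv_lhs => rw [← hsw]
      rw [integral_map]
      · have : Measurable (fun (w : Fin n → ℝ × ℝ) (i : Fin n) => (w i).swap) :=
          measurable_pi_lambda _ fun i => measurable_swap.comp (measurable_pi_apply i)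
        exact this.aemeasurable
      · exact my.meas.aestronglyMeasurable
    rw [hmap]
    refine integral_congr_ae (Eventually.of_forall fun w => ?_)
    have e3 : Sn R (fun i => (w i).swap) = - Sn R w := by
      unfold Sn
      rw [← Finset.sum_neg_distrib]
      exact Finset.sum_congr rfl fun i _ => Rf_anti B.dens (B.prop n) (w i)
    simp only [e3, abs_neg]
    rfl
  simp only [hz]
  -- exchange the integrals
  have hprod : Integrable (Function.uncurry fun (z : ℝ × ℝ) (w : Fin n → ℝ × ℝ) =>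
      Real.exp (-|Sn R w| / 2) *
        (g n z * (U n (Fin.cons z.2 (xs w)) - U n (Fin.cons z.1 (xs w)))))
      (s.prod (pw s n)) := by
    have h1 : MB (1 * (C * (M + M))) (fun x : (ℝ × ℝ) × (Fin n → ℝ × ℝ) =>
        Real.exp (-|Sn R x.2| / 2) *
        (g n x.1 * (U n (Fin.cons x.1.2 (xs x.2)) - U n (Fin.cons x.1.1 (xs x.2))))) := by
      refine bd_mul ⟨hem, fun x => (bd_exp_meas hR n).bdd x.2⟩
        (bd_mul ⟨hgm.comp measurable_fst, fun x => hgb _⟩ ⟨hx2.sub hx1, fun x => ?_⟩)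
      refine (abs_sub _ _).trans ?_
      exact add_le_add (hUb _) (hUb _)
    exact Integrable.of_bound h1.meas.aestronglyMeasurable _ (Eventually.of_forall h1.bdd)
  rw [integral_integral_swap hprod, div_eq_mul_inv, mul_assoc]
  congr 1
  rw [← integral_const_mul]
  refine integral_congr_ae (Eventually.of_forall fun w => ?_)
  simp only
  rw [integral_const_mul, one_div]
  ring

private theorem bd_zeta (B : BSetup p q l σ τ) (n N : ℕ) :
    0 ≤ Zf p (q n) ^ N ∧ Zf p (q n) ^ N ≤ 1 :=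
  ⟨pow_nonneg (Zf_pos B.dens (B.prop n)).le _,
    pow_le_one₀ (Zf_pos B.dens (B.prop n)).le (Zf_le B.dens (B.prop n))⟩

private theorem bd_t'int {t : ℝ → ℝ} (ht : IsTest t) : Integrable (deriv t) :=
  (ht.smooth.continuous_deriv le_rfl).integrable_of_hasCompactSupport ht.supp.deriv

private theorem bd_J (B : BSetup p q l σ τ) (hU : BE p q τ M U) {t : ℝ → ℝ} (ht : IsTest t)
    (n : ℕ) : MB (∫ x, M * |deriv t x|)
      (fun w : Fin n → ℝ × ℝ => ∫ x, U n (Fin.cons x (xs w)) * deriv t x) := by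
  have hUm := (hU.mb n).meas
  have hUb := (hU.mb n).bdd
  constructor
  · have h1 : Measurable (fun x : (Fin n → ℝ × ℝ) × ℝ =>
        U n (Fin.cons x.2 (xs x.1)) * deriv t x.2) :=
      (hUm.comp (bd_cons_meas.comp (measurable_snd.prodMk (xs_meas.comp measurable_fst)))).mul
        ((ht.smooth.continuous_deriv le_rfl).measurable.comp measurable_snd)
    exact (h1.stronglyMeasurable.integral_prod_right' (ν := (volume : Measure ℝ))).measurable
  · intro w
    have h1 : Integrable (fun x => M * |deriv t x|) := ((bd_t'int ht).abs).const_mul M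
    have h2 := norm_integral_le_of_norm_le h1 (f := fun x => U n (Fin.cons x (xs w)) * deriv t x)
      (Eventually.of_forall fun x => by
        rw [norm_mul, Real.norm_eq_abs, Real.norm_eq_abs]
        exact mul_le_mul_of_nonneg_right (hUb _) (abs_nonneg _))
    rwa [Real.norm_eq_abs] at h2

theorem dual23 (B : BSetup p q l σ τ) (hU : BE p q τ M U) {t : ℝ → ℝ} (ht : IsTest t) {a : ℝ}
    {g : ℕ → ℝ × ℝ → ℝ} {C : ℝ} (hg : FC p q l τ t a g C) :
    Tendsto (fun n => T2 p q τ U g n - T3 p q l U t n) atTop (𝓝 0) := by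
  rw [Metric.tendsto_atTop]
  intro ε hε
  set K := max M 1 with hK
  have hK0 : 0 < K := lt_of_lt_of_le one_pos (le_max_right _ _)
  obtain ⟨n₀, hn₀⟩ := Filter.eventually_atTop.mp (hg.gen (ε / (2 * K)) (by positivity))
  refine ⟨n₀, fun n hn => ?_⟩
  have hgen := hn₀ n hn
  have i1 := sm_prob B.dens (B.prop n)
  have hR := Rf_meas B.dens (B.prop n)
  have hUm := (hU.mb n).meas
  have hUb := (hU.mb n).bdd
  have hgm := hg.meas n
  have hgb := hg.bdd n
  have hz := bd_zeta B n (n + 1)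
  rw [Real.dist_eq, sub_zero, T2_eq B hU hg n]
  unfold T3
  set s := sm p (q n) with hs
  set R := Rf p (q n) with hRd
  set ζ := Zf p (q n) ^ (n + 1) with hζ
  -- the two inner integrals
  have hJ := bd_J B hU ht n
  set J : (Fin n → ℝ × ℝ) → ℝ := fun w => ∫ x, U n (Fin.cons x (xs w)) * deriv t x with hJd
  set A : (Fin n → ℝ × ℝ) → ℝ := fun w => 1 / (2 * τ n) * ∫ z : ℝ × ℝ, g n z
    * (U n (Fin.cons z.2 (xs w)) - U n (Fin.cons z.1 (xs w))) ∂s with hAd
  have hA : MB (|1 / (2 * τ n)| * (C * (M + M))) A := by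
    constructor
    · have h1 : Measurable (fun x : (Fin n → ℝ × ℝ) × (ℝ × ℝ) => g n x.2 *
          (U n (Fin.cons x.2.2 (xs x.1)) - U n (Fin.cons x.2.1 (xs x.1)))) := by
        refine (hgm.comp measurable_snd).mul ((hUm.comp (bd_cons_meas.comp
          ((measurable_snd.comp measurable_snd).prodMk (xs_meas.comp measurable_fst)))).sub
          (hUm.comp (bd_cons_meas.comp
          ((measurable_fst.comp measurable_snd).prodMk (xs_meas.comp measurable_fst)))))
      exact (h1.stronglyMeasurable.integral_prod_right' (ν := s)).measurable.const_mul _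
    · intro w
      rw [hAd]
      simp only
      rw [abs_mul]
      refine mul_le_mul_of_nonneg_left (bd_abs_le fun z => ?_) (abs_nonneg _)
      rw [abs_mul]
      exact mul_le_mul (hgb _) ((abs_sub _ _).trans (add_le_add (hUb _) (hUb _)))
        (abs_nonneg _) ((abs_nonneg _).trans (hgb z))
  have hkey : ∀ w, |A w + l ^ 2 / 2 * J w| ≤ ε / 2 := by
    intro w
    have h1 := hgen (fun x => K⁻¹ * U n (Fin.cons x (xs w)))
      ((hUm.comp (bd_cons_meas.comp (measurable_id.prodMk measurable_const))).const_mul _)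
      (fun x => by
        rw [abs_mul, abs_of_pos (inv_pos.mpr hK0), inv_mul_le_iff₀ hK0, mul_one]
        exact (hUb _).trans (le_max_left _ _))
    have e1 : ∫ z, g n z * (K⁻¹ * U n (Fin.cons z.2 (xs w)) - K⁻¹ * U n (Fin.cons z.1 (xs w))) ∂s =
        K⁻¹ * ∫ z, g n z * (U n (Fin.cons z.2 (xs w)) - U n (Fin.cons z.1 (xs w))) ∂s := by
      rw [← integral_const_mul]
      refine integral_congr_ae (Eventually.of_forall fun z => ?_)
      simp only
      ring
    have e2 : ∫ x, K⁻¹ * U n (Fin.cons x (xs w)) * deriv t x = K⁻¹ * J w := by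
      rw [hJd]
      simp only
      rw [← integral_const_mul]
      refine integral_congr_ae (Eventually.of_forall fun z => ?_)
      simp only
      ring
    rw [e1, e2] at h1
    have e3 : A w + l ^ 2 / 2 * J w = K * (1 / (2 * τ n) * (K⁻¹ * ∫ z, g n z *
        (U n (Fin.cons z.2 (xs w)) - U n (Fin.cons z.1 (xs w))) ∂s) +
        l ^ 2 / 2 * (K⁻¹ * J w)) := by
      rw [hAd]
      simp only
      have hKK : K * K⁻¹ = 1 := mul_inv_cancel₀ hK0.ne'
      linear_combination (-(1 / (2 * τ n) * ∫ z, g n z *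
        (U n (Fin.cons z.2 (xs w)) - U n (Fin.cons z.1 (xs w))) ∂s) - l ^ 2 / 2 * J w) * hKK
    rw [e3, abs_mul, abs_of_pos hK0]
    calc K * _ ≤ K * (ε / (2 * K)) := mul_le_mul_of_nonneg_left h1 hK0.le
      _ = ε / 2 := by field_simp
  have int : ∀ {f : (Fin n → ℝ × ℝ) → ℝ} {D : ℝ}, MB D f → Integrable f (pw s n) :=
    fun hf => Integrable.of_bound hf.meas.aestronglyMeasurable _ (Eventually.of_forall hf.bdd)
  have he := bd_exp_meas hR n
  have e4 : ζ * (∫ w, Real.exp (-|Sn R w| / 2) * A w ∂(pw s n)) -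
      -(l ^ 2 / 2) * (ζ * ∫ w, Real.exp (-|Sn R w| / 2) * J w ∂(pw s n)) =
      ζ * ∫ w, Real.exp (-|Sn R w| / 2) * (A w + l ^ 2 / 2 * J w) ∂(pw s n) := by
    have e5 : ∀ w, Real.exp (-|Sn R w| / 2) * (A w + l ^ 2 / 2 * J w) =
        Real.exp (-|Sn R w| / 2) * A w + l ^ 2 / 2 * (Real.exp (-|Sn R w| / 2) * J w) := by
      intro w
      ring
    simp only [e5]
    rw [integral_add (int (bd_mul he hA)) ((int (bd_mul he hJ)).const_mul _), integral_const_mul]
    ring
  rw [e4, abs_mul, abs_of_nonneg hz.1]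
  have h5 : |∫ w, Real.exp (-|Sn R w| / 2) * (A w + l ^ 2 / 2 * J w) ∂(pw s n)| ≤ ε / 2 := by
    refine bd_abs_le fun w => ?_
    rw [abs_mul]
    calc |Real.exp (-|Sn R w| / 2)| * |A w + l ^ 2 / 2 * J w| ≤ 1 * (ε / 2) :=
          mul_le_mul (he.bdd w) (hkey w) (abs_nonneg _) zero_le_one
      _ = ε / 2 := one_mul _
  calc ζ * _ ≤ 1 * (ε / 2) := mul_le_mul hz.2 h5 (abs_nonneg _) zero_le_one
    _ < ε := by linarith

private theorem bd_expmin (a r : ℝ) :
    |Real.exp (-|a| / 2) - Real.exp (-|r + a| / 2)| ≤ min 1 |r| := by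
  have hlip : ∀ x y : ℝ, 0 ≤ x → x ≤ y →
      Real.exp (-x / 2) - Real.exp (-y / 2) ≤ y - x := by
    intro x y hx hxy
    have h1 : Real.exp (-y / 2) = Real.exp (-x / 2) * Real.exp (-(y - x) / 2) := by
      rw [← Real.exp_add]
      congr 1
      ring
    have h2 := Real.add_one_le_exp (-(y - x) / 2)
    have h3 : Real.exp (-x / 2) ≤ 1 := Real.exp_le_one_iff.mpr (by linarith)
    have h4 : 0 < Real.exp (-x / 2) := Real.exp_pos _
    rw [h1]
    nlinarith
  have hpos := fun x : ℝ => Real.exp_pos (-|x| / 2)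
  have hle : ∀ x : ℝ, Real.exp (-|x| / 2) ≤ 1 := fun x =>
    Real.exp_le_one_iff.mpr (by have := abs_nonneg x; linarith)
  apply le_min
  · rw [abs_le]
    constructor
    · linarith [hpos a, hle (r + a)]
    · linarith [hpos (r + a), hle a]
  · have t1 : |r + a| ≤ |r| + |a| := abs_add_le _ _
    have t2 : |a| ≤ |r| + |r + a| := by
      have := abs_add_le (-r) (r + a)
      rw [neg_add_cancel_left, abs_neg] at this
      exact this
    have hmono : ∀ x y : ℝ, x ≤ y → Real.exp (-y / 2) ≤ Real.exp (-x / 2) := fun x y hxy =>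
      Real.exp_le_exp.mpr (by linarith)
    rw [abs_le]
    rcases le_total |a| |r + a| with h | h
    · have h1 := hlip _ _ (abs_nonneg a) h
      have h2 := hmono _ _ h
      constructor
      · have := abs_nonneg r
        linarith
      · linarith
    · have h1 := hlip _ _ (abs_nonneg (r + a)) h
      have h2 := hmono _ _ h
      constructor
      · linarith
      · have := abs_nonneg r
        linarith

theorem dual34 (B : BSetup p q l σ τ) (hU : BE p q τ M U) {t : ℝ → ℝ} (ht : IsTest t) :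
    Tendsto (fun n => T3 p q l U t n - T4 p q l U t n) atTop (𝓝 0) := by
  obtain ⟨Ct, hCt⟩ : ∃ Ct, ∀ x, |deriv t x / p x| ≤ Ct := by
    obtain ⟨C, hC⟩ := gen_bdd B.dens ht 2
    refine ⟨C, fun x => ?_⟩
    have := hC x
    unfold gen at this
    rwa [show (2 : ℝ) / 2 = 1 by norm_num, one_mul] at this
  have hM : 0 ≤ M := (abs_nonneg _).trans ((hU.mb 0).bdd fun _ => 0)
  have hCt0 : 0 ≤ Ct := (abs_nonneg _).trans (hCt 0)
  have htm : Measurable (fun x => deriv t x / p x) :=
    (ht.smooth.continuous_deriv le_rfl).measurable.div B.dens.cont.measurable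
  -- the bound
  have hb : ∀ n, |T3 p q l U t n - T4 p q l U t n| ≤ l ^ 2 / 2 * (M * Ct *
      (∫ z, |Zf p (q n) * Real.exp (-(Rf p (q n) z) / 2) - 1| ∂(sm p (q n)) +
        ∫ z, min 1 |Rf p (q n) z| ∂(sm p (q n)))) := by
    intro n
    have i1 := sm_prob B.dens (B.prop n)
    have hR := Rf_meas B.dens (B.prop n)
    have hUm := (hU.mb n).meas
    have hUb := (hU.mb n).bdd
    have hz := bd_zeta B n (n + 1)
    have hexi := (exp_integrable B.dens (B.prop n)).1
    have hmu : ∀ f : ℝ → ℝ, Measurable f → (∀ x, |f x| ≤ M * Ct) →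
        Zf p (q n) * ∫ z, Real.exp (-(Rf p (q n) z) / 2) * f z.1 ∂(sm p (q n)) =
          ∫ x, f x ∂(tgt p) := fun f hf hb => integral_mu_fst B.dens (B.prop n) hf hb
    unfold T3 T4
    set s := sm p (q n) with hs
    set R := Rf p (q n) with hRd
    set ζ := Zf p (q n) ^ (n + 1) with hζ
    set Z := Zf p (q n) with hZ
    have hJ := bd_J B hU ht n
    have he := bd_exp_meas hR n
    -- the function `f`
    set f : (Fin n → ℝ) → ℝ → ℝ := fun x' x => U n (Fin.cons x x') * (deriv t x / p x) with hf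
    have hfb : ∀ x' x, |f x' x| ≤ M * Ct := by
      intro x' x
      rw [hf]
      simp only
      rw [abs_mul]
      exact mul_le_mul (hUb _) (hCt _) (abs_nonneg _) hM
    have hfm : ∀ x', Measurable (f x') := fun x' =>
      (hUm.comp (bd_cons_meas.comp (measurable_id.prodMk measurable_const))).mul htm
    have hJf : ∀ w : Fin n → ℝ × ℝ, ∫ x, U n (Fin.cons x (xs w)) * deriv t x =
        Z * ∫ z, Real.exp (-(R z) / 2) * f (xs w) z.1 ∂s := by
      intro w
      rw [hmu (f (xs w)) (hfm _) (hfb _), integral_tgt B.dens]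
      refine integral_congr_ae (Eventually.of_forall fun x => ?_)
      rw [hf]
      simp only
      have := (B.dens.pos x).ne'
      field_simp
    -- `T4`
    set A4 : (Fin n → ℝ × ℝ) → ℝ := fun w =>
      ∫ z, Real.exp (-|R z + Sn R w| / 2) * f (xs w) z.1 ∂s with hA4
    have h4 : ∫ w : Fin (n + 1) → ℝ × ℝ, Real.exp (-|Sn R w| / 2)
        * (U n (xs w) * (deriv t (xs w 0) / p (xs w 0))) ∂(pw s (n + 1)) =
        ∫ w, A4 w ∂(pw s n) := by
      have hF : MB (1 * (M * Ct)) (fun w : Fin (n + 1) → ℝ × ℝ => Real.exp (-|Sn R w| / 2)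
        * (U n (xs w) * (deriv t (xs w 0) / p (xs w 0)))) :=
        bd_mul (bd_exp_meas hR (n + 1)) (bd_mul ⟨hUm.comp xs_meas, fun w => hUb _⟩
          ⟨htm.comp ((measurable_pi_apply 0).comp xs_meas), fun w => hCt _⟩)
      rw [bd_swap hF]
      refine integral_congr_ae (Eventually.of_forall fun w => ?_)
      rw [hA4]
      simp only
      refine integral_congr_ae (Eventually.of_forall fun z => ?_)
      simp only
      rw [bd_Sn, bd_xs, Fin.cons_zero]
    have hmz : Measurable (fun x : (Fin n → ℝ × ℝ) × (ℝ × ℝ) =>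
        Real.exp (-|R x.2 + Sn R x.1| / 2)) := by
      have h1 : Measurable (fun x : (Fin n → ℝ × ℝ) × (ℝ × ℝ) => R x.2) := hR.comp measurable_snd
      have h2 : Measurable (fun x : (Fin n → ℝ × ℝ) × (ℝ × ℝ) => Sn R x.1) :=
        (Sn_meas hR).comp measurable_fst
      fun_prop
    have hmf : Measurable (fun x : (Fin n → ℝ × ℝ) × (ℝ × ℝ) => f (xs x.1) x.2.1) :=
      (hUm.comp (bd_cons_meas.comp ((measurable_fst.comp measurable_snd).prodMk
        (xs_meas.comp measurable_fst)))).mul (htm.comp (measurable_fst.comp measurable_snd))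
    have hle1 : ∀ x : ℝ, |Real.exp (-|x| / 2)| ≤ 1 := by
      intro x
      rw [Real.abs_exp]
      apply Real.exp_le_one_iff.mpr
      have := abs_nonneg x
      linarith
    have hA4b : MB (1 * (M * Ct)) A4 := by
      constructor
      · exact ((hmz.mul hmf).stronglyMeasurable.integral_prod_right' (ν := s)).measurable
      · intro w
        refine bd_abs_le fun z => ?_
        rw [abs_mul]
        exact mul_le_mul (hle1 _) (hfb _ _) (abs_nonneg _) zero_le_one
    have int : ∀ {f : (Fin n → ℝ × ℝ) → ℝ} {D : ℝ}, MB D f → Integrable f (pw s n) :=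
      fun hf => Integrable.of_bound hf.meas.aestronglyMeasurable _ (Eventually.of_forall hf.bdd)
    rw [h4]
    have e1 : -(l ^ 2 / 2) * (ζ * ∫ w : Fin n → ℝ × ℝ, Real.exp (-|Sn R w| / 2)
        * (∫ x, U n (Fin.cons x (xs w)) * deriv t x) ∂(pw s n)) -
        -(l ^ 2 / 2) * (ζ * ∫ w, A4 w ∂(pw s n)) =
        -(l ^ 2 / 2) * (ζ * ∫ w : Fin n → ℝ × ℝ, (Real.exp (-|Sn R w| / 2)
        * (∫ x, U n (Fin.cons x (xs w)) * deriv t x) - A4 w) ∂(pw s n)) := by
      rw [integral_sub (int (bd_mul he hJ)) (int hA4b)]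
      ring
    rw [e1, abs_mul, abs_neg, abs_of_nonneg (by positivity : (0 : ℝ) ≤ l ^ 2 / 2), abs_mul,
      abs_of_nonneg hz.1]
    refine mul_le_mul_of_nonneg_left ?_ (by positivity)
    set E := M * Ct * (∫ z, |Z * Real.exp (-(R z) / 2) - 1| ∂s + ∫ z, min 1 |R z| ∂s) with hE
    have hin : |∫ w : Fin n → ℝ × ℝ, (Real.exp (-|Sn R w| / 2)
        * (∫ x, U n (Fin.cons x (xs w)) * deriv t x) - A4 w) ∂(pw s n)| ≤ E := by
      refine bd_abs_le fun w => ?_
      rw [hJf w]
      have hfz : AEStronglyMeasurable (fun z : ℝ × ℝ => f (xs w) z.1) s :=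
        ((hfm _).comp measurable_fst).aestronglyMeasurable
      have hfzb : ∀ᵐ z ∂s, ‖f (xs w) z.1‖ ≤ M * Ct := Eventually.of_forall fun z => hfb _ _
      have hi1 : Integrable (fun z => Real.exp (-(R z) / 2) * f (xs w) z.1) s :=
        hexi.mul_bdd hfz hfzb
      have hmz2 : Measurable (fun z : ℝ × ℝ => Real.exp (-|R z + Sn R w| / 2)) := by fun_prop
      have hi2 : Integrable (fun z => Real.exp (-|R z + Sn R w| / 2) * f (xs w) z.1) s := by
        refine Integrable.mul_bdd ?_ hfz hfzb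
        exact Integrable.of_bound hmz2.aestronglyMeasurable 1 (Eventually.of_forall fun z => hle1 _)
      have e2 : Real.exp (-|Sn R w| / 2) * (Z * ∫ z, Real.exp (-(R z) / 2) * f (xs w) z.1 ∂s) -
          A4 w = ∫ z, ((Real.exp (-|Sn R w| / 2) * Z) * (Real.exp (-(R z) / 2) * f (xs w) z.1) -
            Real.exp (-|R z + Sn R w| / 2) * f (xs w) z.1) ∂s := by
        rw [integral_sub (hi1.const_mul _) hi2, integral_const_mul, hA4]
        ring
      rw [e2]
      have hi3 : Integrable (fun z => |Z * Real.exp (-(R z) / 2) - 1|) s :=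
        ((hexi.const_mul Z).sub (integrable_const 1)).abs
      have hi4 : Integrable (fun z => min 1 |R z|) s := by
        refine Integrable.of_bound (by fun_prop) 1 (Eventually.of_forall fun z => ?_)
        rw [Real.norm_eq_abs, abs_of_nonneg (le_min zero_le_one (abs_nonneg _))]
        exact min_le_left _ _
      have e3 : E = ∫ z, M * Ct * (|Z * Real.exp (-(R z) / 2) - 1| + min 1 |R z|) ∂s := by
        rw [integral_const_mul, integral_add hi3 hi4]
      rw [e3]
      have h6 := norm_integral_le_of_norm_le ((hi3.add hi4).const_mul (M * Ct))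
        (f := fun z => (Real.exp (-|Sn R w| / 2) * Z) * (Real.exp (-(R z) / 2) * f (xs w) z.1) -
            Real.exp (-|R z + Sn R w| / 2) * f (xs w) z.1) (Eventually.of_forall fun z => by
          have e4 : (Real.exp (-|Sn R w| / 2) * Z) * (Real.exp (-(R z) / 2) * f (xs w) z.1) -
            Real.exp (-|R z + Sn R w| / 2) * f (xs w) z.1 =
            (Real.exp (-|Sn R w| / 2) * (Z * Real.exp (-(R z) / 2) - 1) +
              (Real.exp (-|Sn R w| / 2) - Real.exp (-|R z + Sn R w| / 2))) * f (xs w) z.1 := by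
            ring
          rw [e4, norm_mul, Real.norm_eq_abs, Real.norm_eq_abs, mul_comm]
          refine mul_le_mul (hfb _ _) ?_ (abs_nonneg _) (by positivity)
          refine (abs_add_le _ _).trans (add_le_add ?_ (bd_expmin _ _))
          rw [abs_mul]
          exact mul_le_of_le_one_left (abs_nonneg _) (hle1 _))
      rw [Real.norm_eq_abs] at h6
      exact h6
    calc ζ * _ ≤ 1 * E := mul_le_mul hz.2 hin (abs_nonneg _) zero_le_one
      _ = E := one_mul _
  -- the limit
  have hlim : Tendsto (fun n => l ^ 2 / 2 * (M * Ct *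
      (∫ z, |Zf p (q n) * Real.exp (-(Rf p (q n) z) / 2) - 1| ∂(sm p (q n)) +
        ∫ z, min 1 |Rf p (q n) z| ∂(sm p (q n))))) atTop (𝓝 0) := by
    have h1 := (((expd_lim B).add (rmin_lim B)).const_mul (M * Ct)).const_mul (l ^ 2 / 2)
    simpa using h1
  rw [tendsto_zero_iff_abs_tendsto_zero]
  exact squeeze_zero (fun n => abs_nonneg _) hb hlim

end Pool.Agent.Lib.MP_e19099_pr
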