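import Pool.Agent.Lib.MP_e19099_pr.BPi

/-!
# The product Metropolis-Hastings kernel, pointwise identities (module B, B10)

`dN p x = ∏ p(x_i)`, `qN q x y = ∏ q(x_i, y_i)`.  `e^{S} = dN(y) qN(y,x) / (dN(x) qN(x,y))`, so
`dN(x) qN(x,y) min(1, e^S) = ∏ sdn(x_i,y_i) · e^{-S/2} min(1, e^S) = ∏ sdn · e^{-|S|/2}` (`sdn_exp_neg`).
`mh_kernel_exists`: the formula of `IsMH` defines a kernel: `Kernel.withDensity` of the constant kernel plus
`Kernel.withDensity` of the identity kernel (`Kernel.deterministic`/`Kernel.id`), measurability by Fubini type theorems.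
-/

set_option autoImplicit false

open MeasureTheory ProbabilityTheory Filter Set
open scoped NNReal Topology ENNReal

namespace Pool.Agent.Lib.MP_e19099_pr

/-- product density -/
noncomputable def dN (p : ℝ → ℝ) {N : ℕ} (x : Fin N → ℝ) : ℝ := ∏ i, p (x i)

/-- product proposal density -/
noncomputable def qN (q : ℝ → ℝ → ℝ) {N : ℕ} (x y : Fin N → ℝ) : ℝ := ∏ i, q (x i) (y i)

variable {p : ℝ → ℝ} {q : ℝ → ℝ → ℝ} {N : ℕ}

theorem dN_meas (hp : Dens p) : Measurable (dN p : (Fin N → ℝ) → ℝ) := by
  unfold dN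
  exact Finset.measurable_prod _ fun i _ => hp.cont.measurable.comp (measurable_pi_apply i)

theorem dN_pos (hp : Dens p) (x : Fin N → ℝ) : 0 < dN p x :=
  Finset.prod_pos fun i _ => hp.pos _

theorem qN_meas (hq : IsProp q) :
    Measurable fun z : (Fin N → ℝ) × (Fin N → ℝ) => qN q z.1 z.2 := by
  unfold qN
  refine Finset.measurable_prod _ fun i _ => ?_
  have h1 : Measurable fun z : (Fin N → ℝ) × (Fin N → ℝ) => (z.1 i, z.2 i) :=
    ((measurable_pi_apply i).comp measurable_fst).prodMk
      ((measurable_pi_apply i).comp measurable_snd)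
  exact hq.meas.comp h1

theorem qN_pos (hq : IsProp q) (x y : Fin N → ℝ) : 0 < qN q x y :=
  Finset.prod_pos fun i _ => hq.pos _ _

theorem qN_one (hq : IsProp q) (x : Fin N → ℝ) :
    Integrable (qN q x) ∧ ∫ y, qN q x y = 1 := by
  constructor
  · exact Integrable.fintype_prod_dep (f := fun i => q (x i)) fun i => q_integrable hq (x i)
  · have h1 : ∫ y : Fin N → ℝ, qN q x y = ∏ i, ∫ t, q (x i) t :=
      integral_fintype_prod_volume_eq_prod (fun i => q (x i))
    rw [h1]
    exact Finset.prod_eq_one fun i _ => hq.one (x i)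

private theorem bmha_dN_int (hp : Dens p) : Integrable (dN p : (Fin N → ℝ) → ℝ) :=
  Integrable.fintype_prod (f := fun _ : Fin N => p) fun _ => hp.int

private theorem bmha_ind (s : Fin N → Set ℝ) (x : Fin N → ℝ) :
    (Set.pi univ s).indicator (dN p) x = ∏ i, (s i).indicator p (x i) := by
  classical
  by_cases h : x ∈ Set.pi univ s
  · rw [Set.indicator_of_mem h]
    unfold dN
    refine Finset.prod_congr rfl fun i _ => ?_
    rw [Set.indicator_of_mem (h i (mem_univ i))]
  · rw [Set.indicator_of_notMem h]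
    have h1 : ∃ i, x i ∉ s i := by
      by_contra h2
      push Not at h2
      exact h fun i _ => h2 i
    obtain ⟨i, hi⟩ := h1
    exact (Finset.prod_eq_zero (Finset.mem_univ i) (Set.indicator_of_notMem hi _)).symm

theorem pw_tgt (hp : Dens p) :
    pw (tgt p) N = (volume : Measure (Fin N → ℝ)).withDensity fun x => ENNReal.ofReal (dN p x) := by
  haveI := tgt_prob hp
  refine Measure.pi_eq fun s hs => ?_
  have hS : MeasurableSet (Set.pi univ s) := MeasurableSet.univ_pi hs
  rw [withDensity_apply _ hS,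
    ← ofReal_integral_eq_lintegral_ofReal (bmha_dN_int hp).integrableOn
      (Eventually.of_forall fun x => (dN_pos hp x).le),
    ← integral_indicator hS]
  have h1 : ∫ x : Fin N → ℝ, (Set.pi univ s).indicator (dN p) x =
      ∏ i, ∫ t, (s i).indicator p t := by
    rw [← integral_fintype_prod_volume_eq_prod (fun i => (s i).indicator p)]
    exact integral_congr_ae (Eventually.of_forall fun x => bmha_ind s x)
  rw [h1, ENNReal.ofReal_prod_of_nonneg fun i _ => integral_nonneg fun t =>
    Set.indicator_nonneg (fun t _ => (hp.pos t).le) t]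
  refine Finset.prod_congr rfl fun i _ => ?_
  unfold tgt
  rw [withDensity_apply _ (hs i), integral_indicator (hs i),
    ofReal_integral_eq_lintegral_ofReal hp.int.integrableOn
      (Eventually.of_forall fun x => (hp.pos x).le)]

theorem accept_meas (hp : Dens p) (hq : IsProp q) :
    Measurable fun z : (Fin N → ℝ) × (Fin N → ℝ) => accept (dN p) (qN q) z.1 z.2 := by
  unfold accept
  have h1 : Measurable fun z : (Fin N → ℝ) × (Fin N → ℝ) => dN p z.1 :=
    (dN_meas hp).comp measurable_fst
  have h2 : Measurable fun z : (Fin N → ℝ) × (Fin N → ℝ) => dN p z.2 :=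
    (dN_meas hp).comp measurable_snd
  have h3 : Measurable fun z : (Fin N → ℝ) × (Fin N → ℝ) => qN q z.2 z.1 :=
    (qN_meas hq).comp measurable_swap
  exact measurable_const.min ((h2.mul h3).div (h1.mul (qN_meas hq)))

theorem accept_mem (hp : Dens p) (hq : IsProp q) (x y : Fin N → ℝ) :
    0 < accept (dN p) (qN q) x y ∧ accept (dN p) (qN q) x y ≤ 1 := by
  unfold accept
  refine ⟨lt_min one_pos ?_, min_le_left _ _⟩
  exact div_pos (mul_pos (dN_pos hp _) (qN_pos hq _ _)) (mul_pos (dN_pos hp _) (qN_pos hq _ _))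

/-- the main identity -/
theorem accept_eq (hp : Dens p) (hq : IsProp q) (w : Fin N → ℝ × ℝ) :
    dN p (xs w) * (qN q (xs w) (ys w) * accept (dN p) (qN q) (xs w) (ys w))
      = (∏ i, sdn p q (w i)) * Real.exp (-|Sn (Rf p q) w| / 2) := by
  have hA : dN p (xs w) * qN q (xs w) (ys w) =
      (∏ i, sdn p q (w i)) * Real.exp (-(Sn (Rf p q) w) / 2) := by
    unfold dN qN Sn xs ys
    have h1 : Real.exp (-(∑ i, Rf p q (w i)) / 2) = ∏ i, Real.exp (-(Rf p q (w i)) / 2) := by
      rw [← Real.exp_sum]
      congr 1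
      rw [neg_div, Finset.sum_div, ← Finset.sum_neg_distrib]
      exact Finset.sum_congr rfl fun i _ => by ring
    rw [h1, ← Finset.prod_mul_distrib, ← Finset.prod_mul_distrib]
    exact Finset.prod_congr rfl fun i _ => (sdn_exp_neg hp hq (w i)).symm
  have hB : dN p (ys w) * qN q (ys w) (xs w) =
      (∏ i, sdn p q (w i)) * Real.exp (Sn (Rf p q) w / 2) := by
    unfold dN qN Sn xs ys
    have h1 : Real.exp ((∑ i, Rf p q (w i)) / 2) = ∏ i, Real.exp (Rf p q (w i) / 2) := by
      rw [← Real.exp_sum]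
      congr 1
      rw [Finset.sum_div]
    rw [h1, ← Finset.prod_mul_distrib, ← Finset.prod_mul_distrib]
    exact Finset.prod_congr rfl fun i _ => (sdn_exp_pos hp hq (w i)).symm
  have hApos : 0 < dN p (xs w) * qN q (xs w) (ys w) := mul_pos (dN_pos hp _) (qN_pos hq _ _)
  have hP : 0 ≤ ∏ i, sdn p q (w i) := Finset.prod_nonneg fun i _ => (sdn_pos hp hq (w i)).le
  unfold accept
  rw [← mul_assoc, mul_min_of_nonneg _ _ hApos.le, mul_one, mul_div_cancel₀ _ hApos.ne', hA, hB,
    ← mul_min_of_nonneg _ _ hP]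
  congr 1
  rcases le_total 0 (Sn (Rf p q) w) with h | h
  · rw [abs_of_nonneg h, min_eq_left (Real.exp_le_exp.mpr (by linarith))]
  · rw [abs_of_nonpos h, neg_neg, min_eq_right (Real.exp_le_exp.mpr (by linarith))]

theorem mh_kernel_exists (hp : Dens p) (hq : IsProp q) :
    ∃ K : Kernel (Fin N → ℝ) (Fin N → ℝ), IsMH volume (dN p) (qN q) K := by
  have hm : Measurable fun z : (Fin N → ℝ) × (Fin N → ℝ) =>
      qN q z.1 z.2 * accept (dN p) (qN q) z.1 z.2 := (qN_meas hq).mul (accept_meas hp hq)
  have h1 : Measurable (Function.uncurry fun x y : Fin N → ℝ =>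
      ENNReal.ofReal (qN q x y * accept (dN p) (qN q) x y)) := hm.ennreal_ofReal
  have h2 : Measurable fun x : Fin N → ℝ => ∫ y, qN q x y * accept (dN p) (qN q) x y :=
    (hm.stronglyMeasurable.integral_prod_right' (ν := (volume : Measure (Fin N → ℝ)))).measurable
  have h3 : Measurable (Function.uncurry fun x _ : Fin N → ℝ =>
      ENNReal.ofReal (1 - ∫ y, qN q x y * accept (dN p) (qN q) x y)) :=
    ((measurable_const.sub h2).ennreal_ofReal).comp measurable_fst
  refine ⟨Kernel.withDensity (Kernel.const (Fin N → ℝ) (volume : Measure (Fin N → ℝ)))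
      (fun x y => ENNReal.ofReal (qN q x y * accept (dN p) (qN q) x y)) +
    Kernel.withDensity (Kernel.id : Kernel (Fin N → ℝ) (Fin N → ℝ))
      (fun x _ => ENNReal.ofReal (1 - ∫ y, qN q x y * accept (dN p) (qN q) x y)), fun x => ?_⟩
  rw [Kernel.add_apply, Kernel.withDensity_apply _ h1, Kernel.withDensity_apply _ h3,
    Kernel.const_apply, Kernel.id_apply, withDensity_const]

end Pool.Agent.Lib.MP_e19099_pr
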