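import Pool.Agent.Lib.MP_e19099_pr.Disc

/-!
# Energy (task A11)

`Rev Pi K`: `K` is a Markov kernel reversible with respect to the probability measure `Pi`.
`edge_fst`, `edge_snd`: first marginal of `Pi ⊗ₘ K` is `Pi` (`Measure.fst_compProd`), the second one too by symmetry.
`en_eq`: expand `(u y - u x)(v y - v x)` and use symmetry (`rev.symm`) and `integral_compProd`:
`(1/2τ) ∫∫ = (1/2τ) (2 ∫ u v dPi - 2 ∫ v (K u) dPi)`.
`resv_weak`: from `resv_eq`: `lam U + (U - K U)/τ = f`, multiply by `v` and integrate.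
`resv_energy`: take `v = U`.
-/

set_option autoImplicit false

open MeasureTheory ProbabilityTheory Filter Set
open scoped NNReal Topology ENNReal

namespace Pool.Agent.Lib.MP_e19099_pr

variable {E : Type*} [MeasurableSpace E]

/-- `K` is a Markov kernel which is reversible with respect to the probability measure `Pi`. -/
structure Rev (Pi : Measure E) (K : Kernel E E) : Prop where
  prob : IsProbabilityMeasure Pi
  markov : IsMarkovKernel K
  symm : (Pi ⊗ₘ K).map Prod.swap = Pi ⊗ₘ K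

/-- the energy `(1/2τ) ∫∫ (u(y) - u(x)) (v(y) - v(x)) Pi(dx) K(x,dy)` -/
noncomputable def en (τ : ℝ) (Pi : Measure E) (K : Kernel E E) (u v : E → ℝ) : ℝ :=
  1 / (2 * τ) * ∫ z : E × E, (u z.2 - u z.1) * (v z.2 - v z.1) ∂(Pi ⊗ₘ K)

variable {Pi : Measure E} {K : Kernel E E} {C C' τ lam : ℝ} {f u v : E → ℝ}

theorem Rev.edge_prob (hR : Rev Pi K) : IsProbabilityMeasure (Pi ⊗ₘ K) := by
  haveI := hR.prob
  haveI := hR.markov
  infer_instance

theorem Rev.edge_fst (hR : Rev Pi K) : (Pi ⊗ₘ K).map Prod.fst = Pi := by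
  haveI := hR.prob
  haveI := hR.markov
  exact Measure.fst_compProd Pi K

theorem Rev.edge_snd (hR : Rev Pi K) : (Pi ⊗ₘ K).map Prod.snd = Pi := by
  have h1 : (Pi ⊗ₘ K).map Prod.snd = ((Pi ⊗ₘ K).map Prod.swap).map Prod.snd := by
    rw [hR.symm]
  rw [h1, Measure.map_map measurable_snd measurable_swap]
  exact hR.edge_fst

private theorem en_int (hR : Rev Pi K) {g : E × E → ℝ} (hg : Measurable g) {D : ℝ}
    (hD : ∀ z, |g z| ≤ D) : Integrable g (Pi ⊗ₘ K) := by
  haveI := hR.edge_prob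
  exact Integrable.of_bound hg.aestronglyMeasurable D (Eventually.of_forall hD)

private theorem en_intP (hR : Rev Pi K) {g : E → ℝ} (hg : Measurable g) {D : ℝ}
    (hD : ∀ z, |g z| ≤ D) : Integrable g Pi := by
  haveI := hR.prob
  exact Integrable.of_bound hg.aestronglyMeasurable D (Eventually.of_forall hD)

private theorem en_mul_bdd {x y : ℝ} (hx : |x| ≤ C) (hy : |y| ≤ C') : |x * y| ≤ C * C' := by
  rw [abs_mul]
  exact mul_le_mul hx hy (abs_nonneg _) ((abs_nonneg _).trans hx)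

private theorem en_cross (hR : Rev Pi K) (hu : MB C u) (hv : MB C' v) :
    ∫ z : E × E, u z.1 * v z.2 ∂(Pi ⊗ₘ K) = ∫ x, u x * kop K v x ∂Pi := by
  haveI := hR.prob
  haveI := hR.markov
  have hm : Measurable fun z : E × E => u z.1 * v z.2 :=
    (hu.meas.comp measurable_fst).mul (hv.meas.comp measurable_snd)
  have hi : Integrable (fun z : E × E => u z.1 * v z.2) (Pi ⊗ₘ K) :=
    en_int hR hm fun z => en_mul_bdd (hu.bdd _) (hv.bdd _)
  rw [Measure.integral_compProd hi]
  refine integral_congr_ae (Eventually.of_forall fun x => ?_)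
  show ∫ y, u x * v y ∂(K x) = u x * kop K v x
  rw [integral_const_mul]
  rfl

private theorem en_cross' (hR : Rev Pi K) (hu : MB C u) (hv : MB C' v) :
    ∫ z : E × E, u z.2 * v z.1 ∂(Pi ⊗ₘ K) = ∫ x, kop K u x * v x ∂Pi := by
  have h1 := en_cross hR hv hu
  have h2 : ∫ z : E × E, u z.2 * v z.1 ∂(Pi ⊗ₘ K) = ∫ z : E × E, v z.1 * u z.2 ∂(Pi ⊗ₘ K) :=
    integral_congr_ae (Eventually.of_forall fun z => mul_comm _ _)
  rw [h2, h1]
  exact integral_congr_ae (Eventually.of_forall fun z => mul_comm _ _)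

private theorem en_swap (hR : Rev Pi K) {g : E × E → ℝ} (hg : Measurable g) :
    ∫ z : E × E, g z.swap ∂(Pi ⊗ₘ K) = ∫ z, g z ∂(Pi ⊗ₘ K) := by
  conv_rhs => rw [← hR.symm]
  rw [integral_map measurable_swap.aemeasurable hg.aestronglyMeasurable]

private theorem en_fst (hR : Rev Pi K) {g : E → ℝ} (hg : Measurable g) :
    ∫ z : E × E, g z.1 ∂(Pi ⊗ₘ K) = ∫ x, g x ∂Pi := by
  conv_rhs => rw [← hR.edge_fst]
  rw [integral_map measurable_fst.aemeasurable hg.aestronglyMeasurable]

private theorem en_snd (hR : Rev Pi K) {g : E → ℝ} (hg : Measurable g) :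
    ∫ z : E × E, g z.2 ∂(Pi ⊗ₘ K) = ∫ x, g x ∂Pi := by
  conv_rhs => rw [← hR.edge_snd]
  rw [integral_map measurable_snd.aemeasurable hg.aestronglyMeasurable]

/-- self-adjointness -/
theorem Rev.kop_symm (hR : Rev Pi K) (hu : MB C u) (hv : MB C' v) :
    ∫ x, u x * kop K v x ∂Pi = ∫ x, kop K u x * v x ∂Pi := by
  rw [← en_cross hR hu hv, ← en_cross' hR hu hv]
  exact en_swap hR (g := fun z : E × E => u z.2 * v z.1)
    ((hu.meas.comp measurable_snd).mul (hv.meas.comp measurable_fst))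

theorem Rev.kop_mean (hR : Rev Pi K) (hu : MB C u) : ∫ x, kop K u x ∂Pi = ∫ x, u x ∂Pi := by
  haveI := hR.prob
  haveI := hR.markov
  have h1 : MB (1 : ℝ) (fun _ : E => (1 : ℝ)) := ⟨measurable_const, fun _ => by simp⟩
  have h2 := hR.kop_symm hu h1
  have h3 : ∀ x : E, kop K (fun _ => (1 : ℝ)) x = 1 := by
    intro x
    show ∫ _, (1 : ℝ) ∂(K x) = 1
    simp
  simp only [h3, mul_one] at h2
  exact h2.symm

theorem en_eq (hR : Rev Pi K) (hτ : 0 < τ) (hu : MB C u) (hv : MB C' v) :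
    en τ Pi K u v = 1 / τ * ∫ x, (u x - kop K u x) * v x ∂Pi := by
  haveI := hR.prob
  haveI := hR.markov
  have i11 : Integrable (fun z : E × E => u z.1 * v z.1) (Pi ⊗ₘ K) :=
    en_int hR ((hu.meas.comp measurable_fst).mul (hv.meas.comp measurable_fst))
      fun z => en_mul_bdd (hu.bdd _) (hv.bdd _)
  have i22 : Integrable (fun z : E × E => u z.2 * v z.2) (Pi ⊗ₘ K) :=
    en_int hR ((hu.meas.comp measurable_snd).mul (hv.meas.comp measurable_snd))
      fun z => en_mul_bdd (hu.bdd _) (hv.bdd _)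
  have i12 : Integrable (fun z : E × E => u z.1 * v z.2) (Pi ⊗ₘ K) :=
    en_int hR ((hu.meas.comp measurable_fst).mul (hv.meas.comp measurable_snd))
      fun z => en_mul_bdd (hu.bdd _) (hv.bdd _)
  have i21 : Integrable (fun z : E × E => u z.2 * v z.1) (Pi ⊗ₘ K) :=
    en_int hR ((hu.meas.comp measurable_snd).mul (hv.meas.comp measurable_fst))
      fun z => en_mul_bdd (hu.bdd _) (hv.bdd _)
  have hk := kop_mb (K := K) hu
  have j1 : Integrable (fun x => u x * v x) Pi :=
    en_intP hR (hu.meas.mul hv.meas) fun z => en_mul_bdd (hu.bdd _) (hv.bdd _)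
  have j2 : Integrable (fun x => kop K u x * v x) Pi :=
    en_intP hR (hk.meas.mul hv.meas) fun z => en_mul_bdd (hk.bdd _) (hv.bdd _)
  have h1 : ∫ z : E × E, (u z.2 - u z.1) * (v z.2 - v z.1) ∂(Pi ⊗ₘ K) =
      2 * ∫ x, u x * v x ∂Pi - 2 * ∫ x, kop K u x * v x ∂Pi := by
    have h2 : ∫ z : E × E, (u z.2 - u z.1) * (v z.2 - v z.1) ∂(Pi ⊗ₘ K) =
        ∫ z : E × E, ((u z.2 * v z.2 + u z.1 * v z.1) - (u z.2 * v z.1 + u z.1 * v z.2))
          ∂(Pi ⊗ₘ K) :=
      integral_congr_ae (Eventually.of_forall fun z => by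
        show (u z.2 - u z.1) * (v z.2 - v z.1) =
          (u z.2 * v z.2 + u z.1 * v z.1) - (u z.2 * v z.1 + u z.1 * v z.2)
        ring)
    have ia : Integrable (fun z : E × E => u z.2 * v z.2 + u z.1 * v z.1) (Pi ⊗ₘ K) := i22.add i11
    have ib : Integrable (fun z : E × E => u z.2 * v z.1 + u z.1 * v z.2) (Pi ⊗ₘ K) := i21.add i12
    rw [h2, integral_sub ia ib, integral_add i22 i11,
      integral_add i21 i12, en_cross hR hu hv, en_cross' hR hu hv, hR.kop_symm hu hv,
      en_fst hR (g := fun x => u x * v x) (hu.meas.mul hv.meas),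
      en_snd hR (g := fun x => u x * v x) (hu.meas.mul hv.meas)]
    ring
  have h3 : ∫ x, (u x - kop K u x) * v x ∂Pi = ∫ x, u x * v x ∂Pi - ∫ x, kop K u x * v x ∂Pi := by
    rw [← integral_sub j1 j2]
    exact integral_congr_ae (Eventually.of_forall fun z => by
      show (u z - kop K u z) * v z = u z * v z - kop K u z * v z
      ring)
  unfold en
  rw [h1, h3]
  field_simp

theorem en_nonneg (hτ : 0 < τ) : 0 ≤ en τ Pi K u u := by
  unfold en
  apply mul_nonneg (by positivity)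
  exact integral_nonneg fun z => mul_self_nonneg _

theorem resv_weak (hR : Rev Pi K) (hτ : 0 < τ) (hlam : 0 < lam) (hf : MB C f) (hv : MB C' v) :
    lam * ∫ x, resv τ lam K f x * v x ∂Pi + en τ Pi K (resv τ lam K f) v
      = ∫ x, f x * v x ∂Pi := by
  haveI := hR.prob
  haveI := hR.markov
  have hU := resv_mb (K := K) hτ hlam hf
  have j1 : Integrable (fun x => resv τ lam K f x * v x) Pi :=
    en_intP hR (hU.meas.mul hv.meas) fun z => en_mul_bdd (hU.bdd _) (hv.bdd _)
  have j2 : Integrable (fun x => f x * v x) Pi :=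
    en_intP hR (hf.meas.mul hv.meas) fun z => en_mul_bdd (hf.bdd _) (hv.bdd _)
  rw [en_eq hR hτ hU hv]
  have h1 : 1 / τ * ∫ x, (resv τ lam K f x - kop K (resv τ lam K f) x) * v x ∂Pi =
      ∫ x, (f x * v x - lam * (resv τ lam K f x * v x)) ∂Pi := by
    rw [← integral_const_mul]
    refine integral_congr_ae (Eventually.of_forall fun x => ?_)
    show 1 / τ * ((resv τ lam K f x - kop K (resv τ lam K f) x) * v x) =
      f x * v x - lam * (resv τ lam K f x * v x)
    have h2 := resv_eq (K := K) hτ hlam hf x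
    have h3 : kop K (resv τ lam K f) x = (1 + lam * τ) * resv τ lam K f x - τ * f x := by
      linarith
    rw [h3]
    field_simp
    ring
  rw [h1, integral_sub j2 (j1.const_mul lam), integral_const_mul]
  ring

theorem resv_energy (hR : Rev Pi K) (hτ : 0 < τ) (hlam : 0 < lam) (hf : MB C f) :
    en τ Pi K (resv τ lam K f) (resv τ lam K f) ≤ C ^ 2 / lam := by
  haveI := hR.prob
  haveI := hR.markov
  have hU := resv_mb (K := K) hτ hlam hf
  have h1 := resv_weak hR hτ hlam hf hU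
  have h2 : 0 ≤ ∫ x, resv τ lam K f x * resv τ lam K f x ∂Pi :=
    integral_nonneg fun x => mul_self_nonneg _
  have h3 : ∫ x, f x * resv τ lam K f x ∂Pi ≤ C * (C / lam) := by
    have h4 : ∫ x, f x * resv τ lam K f x ∂Pi ≤ ∫ _x, C * (C / lam) ∂Pi := by
      refine integral_mono ?_ (integrable_const _) fun x => ?_
      · exact en_intP hR (hf.meas.mul hU.meas) fun z => en_mul_bdd (hf.bdd _) (hU.bdd _)
      · exact (le_abs_self _).trans (en_mul_bdd (hf.bdd _) (hU.bdd _))
    simpa using h4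
  have h5 : C * (C / lam) = C ^ 2 / lam := by ring
  have h6 := mul_nonneg hlam.le h2
  linarith

theorem resv_energy' (hR : Rev Pi K) (hτ : 0 < τ) (hlam : 0 < lam) (hf : MB C f) :
    ∫ z : E × E, (resv τ lam K f z.2 - resv τ lam K f z.1) ^ 2 ∂(Pi ⊗ₘ K)
      ≤ 2 * C ^ 2 / lam * τ := by
  have h1 := resv_energy hR hτ hlam hf
  unfold en at h1
  have h2 : ∫ z : E × E, (resv τ lam K f z.2 - resv τ lam K f z.1) ^ 2 ∂(Pi ⊗ₘ K) =
      ∫ z : E × E, (resv τ lam K f z.2 - resv τ lam K f z.1) *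
        (resv τ lam K f z.2 - resv τ lam K f z.1) ∂(Pi ⊗ₘ K) :=
    integral_congr_ae (Eventually.of_forall fun z => by
      show (resv τ lam K f z.2 - resv τ lam K f z.1) ^ 2 =
        (resv τ lam K f z.2 - resv τ lam K f z.1) * (resv τ lam K f z.2 - resv τ lam K f z.1)
      ring)
  rw [h2]
  rw [one_div, inv_mul_le_iff₀ (by positivity)] at h1
  calc _ ≤ 2 * τ * (C ^ 2 / lam) := h1
    _ = 2 * C ^ 2 / lam * τ := by ring

/-- expansion of the energy of `u - v` -/
theorem en_sub (hR : Rev Pi K) (hτ : 0 < τ) (hu : MB C u) (hv : MB C' v) :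
    en τ Pi K (fun x => u x - v x) (fun x => u x - v x)
      = en τ Pi K u u - 2 * en τ Pi K u v + en τ Pi K v v := by
  haveI := hR.prob
  haveI := hR.markov
  have bu : ∀ z : E × E, |u z.2 - u z.1| ≤ C + C := fun z =>
    (abs_sub _ _).trans (add_le_add (hu.bdd _) (hu.bdd _))
  have bv : ∀ z : E × E, |v z.2 - v z.1| ≤ C' + C' := fun z =>
    (abs_sub _ _).trans (add_le_add (hv.bdd _) (hv.bdd _))
  have mu : Measurable fun z : E × E => u z.2 - u z.1 :=
    (hu.meas.comp measurable_snd).sub (hu.meas.comp measurable_fst)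
  have mv : Measurable fun z : E × E => v z.2 - v z.1 :=
    (hv.meas.comp measurable_snd).sub (hv.meas.comp measurable_fst)
  have i1 : Integrable (fun z : E × E => (u z.2 - u z.1) * (u z.2 - u z.1)) (Pi ⊗ₘ K) :=
    en_int hR (mu.mul mu) fun z => en_mul_bdd (bu z) (bu z)
  have i2 : Integrable (fun z : E × E => (u z.2 - u z.1) * (v z.2 - v z.1)) (Pi ⊗ₘ K) :=
    en_int hR (mu.mul mv) fun z => en_mul_bdd (bu z) (bv z)
  have i3 : Integrable (fun z : E × E => (v z.2 - v z.1) * (v z.2 - v z.1)) (Pi ⊗ₘ K) :=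
    en_int hR (mv.mul mv) fun z => en_mul_bdd (bv z) (bv z)
  unfold en
  have h1 : ∫ z : E × E, ((u z.2 - v z.2) - (u z.1 - v z.1)) * ((u z.2 - v z.2) - (u z.1 - v z.1))
      ∂(Pi ⊗ₘ K) = ∫ z : E × E, (((u z.2 - u z.1) * (u z.2 - u z.1) -
        2 * ((u z.2 - u z.1) * (v z.2 - v z.1))) + (v z.2 - v z.1) * (v z.2 - v z.1))
          ∂(Pi ⊗ₘ K) :=
    integral_congr_ae (Eventually.of_forall fun z => by
      show ((u z.2 - v z.2) - (u z.1 - v z.1)) * ((u z.2 - v z.2) - (u z.1 - v z.1)) =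
        ((u z.2 - u z.1) * (u z.2 - u z.1) - 2 * ((u z.2 - u z.1) * (v z.2 - v z.1))) +
          (v z.2 - v z.1) * (v z.2 - v z.1)
      ring)
  have i2' : Integrable (fun z : E × E => 2 * ((u z.2 - u z.1) * (v z.2 - v z.1)))
      (Pi ⊗ₘ K) := i2.const_mul 2
  have i12 : Integrable (fun z : E × E => (u z.2 - u z.1) * (u z.2 - u z.1) -
      2 * ((u z.2 - u z.1) * (v z.2 - v z.1))) (Pi ⊗ₘ K) := i1.sub i2'
  rw [h1, integral_add i12 i3, integral_sub i1 i2', integral_const_mul]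
  ring

end Pool.Agent.Lib.MP_e19099_pr
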