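import Pool.Agent.Lib.MP_e19099_pr.BMHA
import Pool.Agent.Lib.MP_e19099_pr.Energy

/-!
# The product Metropolis-Hastings kernel, edge measure (module B, B11)

`mh_lintegral`: `∫⁻ F d(Pi ⊗ₘ K) = ∫⁻ x, ∫⁻ y F(x,y) K(x,dy) dPi` (`Measure.lintegral_compProd`), the Dirac part gives `F(x,x) = 0`; the rest is
`∫⁻∫⁻ F dN(x) qN(x,y) accept(x,y) dy dx`; transfer to `Fin N → ℝ × ℝ` by `volume_measurePreserving_arrowProdEquivProdArrow`, use `accept_eq` and
`pw (sm p q) N = (volume).withDensity (∏ sdn (w i) / Z^N)` (`pw_sm`, as `pw_tgt`).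
`mh_integral`: the Bochner version for measurable `F` with integrable right hand side: positive and negative part.
`mh_rev`: symmetry: split `F` in the diagonal part (`F (x,x)`, symmetric) and the rest (`mh_lintegral`, `pi_swap`, `|S|` is symmetric by `Rf_anti`).
Markov: `K x univ = ∫ qN accept + (1 - ∫ qN accept)`, `0 ≤ ∫ qN accept ≤ 1`.
-/

set_option autoImplicit false

open MeasureTheory ProbabilityTheory Filter Set
open scoped NNReal Topology ENNReal

namespace Pool.Agent.Lib.MP_e19099_pr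

variable {p : ℝ → ℝ} {q : ℝ → ℝ → ℝ} {N : ℕ} {K : Kernel (Fin N → ℝ) (Fin N → ℝ)}

private theorem lint_pi {α : Type*} [MeasurableSpace α] (μ : Measure α) [SigmaFinite μ] :
    ∀ (N : ℕ) (f : Fin N → α → ℝ≥0∞), (∀ i, Measurable (f i)) →
      ∫⁻ w, ∏ i, f i (w i) ∂(pw μ N) = ∏ i, ∫⁻ z, f i z ∂μ := by
  intro N
  induction N with
  | zero =>
    intro f _
    simp only [Finset.univ_eq_empty, Finset.prod_empty]
    rw [lintegral_one]
    show (Measure.pi fun _ : Fin 0 => μ) univ = 1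
    rw [Measure.pi_of_empty (fun _ : Fin 0 => μ) (fun i => i.elim0)]
    exact measure_univ
  | succ N ih =>
    intro f hf
    have hmp : MeasurePreserving (MeasurableEquiv.piFinSuccAbove (fun _ : Fin (N + 1) => α) 0).symm
        (μ.prod (pw μ N)) (pw μ (N + 1)) :=
      (measurePreserving_piFinSuccAbove (fun _ : Fin (N + 1) => μ) 0).symm _
    have hm : Measurable fun w : Fin (N + 1) → α => ∏ i, f i (w i) :=
      Finset.measurable_prod _ fun i _ => (hf i).comp (measurable_pi_apply i)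
    have hm' : Measurable fun w : Fin N → α => ∏ i : Fin N, f i.succ (w i) :=
      Finset.measurable_prod _ fun i _ => (hf i.succ).comp (measurable_pi_apply i)
    rw [← hmp.lintegral_comp hm]
    have he : ∀ z : α × (Fin N → α),
        (∏ i, f i ((MeasurableEquiv.piFinSuccAbove (fun _ : Fin (N + 1) => α) 0).symm z i))
          = f 0 z.1 * ∏ i : Fin N, f i.succ (z.2 i) := fun z => by
      have h1 : (MeasurableEquiv.piFinSuccAbove (fun _ : Fin (N + 1) => α) 0).symm z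
          = (Fin.cons z.1 z.2 : Fin (N + 1) → α) := Fin.insertNth_zero' (β := α) z.1 z.2
      rw [h1, Fin.prod_univ_succ]
      simp only [Fin.cons_zero, Fin.cons_succ]
    rw [lintegral_congr he, lintegral_prod_mul (hf 0).aemeasurable hm'.aemeasurable,
      ih (fun i => f i.succ) (fun i => hf i.succ), Fin.prod_univ_succ]

private theorem dens_mul (hp : Dens p) (hq : IsProp q) (w : Fin N → ℝ × ℝ) :
    ENNReal.ofReal ((∏ i, sdn p q (w i)) / Zf p q ^ N)
      = ∏ i, ENNReal.ofReal (sdn p q (w i) / Zf p q) := by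
  rw [← ENNReal.ofReal_prod_of_nonneg
    (fun i _ => (div_pos (sdn_pos hp hq (w i)) (Zf_pos hp hq)).le),
    Finset.prod_div_distrib, Finset.prod_const, Finset.card_univ, Fintype.card_fin]

private theorem psdn_meas (hp : Dens p) (hq : IsProp q) :
    Measurable fun w : Fin N → ℝ × ℝ => ∏ i, sdn p q (w i) :=
  Finset.measurable_prod _ fun i _ => (sdn_meas hp hq).comp (measurable_pi_apply i)

theorem pw_sm (hp : Dens p) (hq : IsProp q) :
    pw (sm p q) N = (volume : Measure (Fin N → ℝ × ℝ)).withDensity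
      fun w => ENNReal.ofReal ((∏ i, sdn p q (w i)) / Zf p q ^ N) := by
  have := sm_prob hp hq
  refine Measure.pi_eq fun s hs => ?_
  have hg : Measurable fun z => ENNReal.ofReal (sdn p q z / Zf p q) :=
    ((sdn_meas hp hq).div_const _).ennreal_ofReal
  have hpi : MeasurableSet (univ.pi s) := MeasurableSet.univ_pi hs
  rw [withDensity_apply _ hpi, ← lintegral_indicator hpi]
  have h1 : ∀ w : Fin N → ℝ × ℝ, (univ.pi s).indicator
      (fun w => ENNReal.ofReal ((∏ i, sdn p q (w i)) / Zf p q ^ N)) w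
        = ∏ i, (s i).indicator (fun z => ENNReal.ofReal (sdn p q z / Zf p q)) (w i) := fun w => by
    by_cases hw : w ∈ univ.pi s
    · rw [indicator_of_mem hw, dens_mul hp hq]
      refine Finset.prod_congr rfl fun i _ => ?_
      rw [indicator_of_mem (hw i (mem_univ i))]
    · rw [indicator_of_notMem hw]
      have h2 : ∃ i, w i ∉ s i := by
        by_contra h3
        push Not at h3
        exact hw fun i _ => h3 i
      obtain ⟨i, hi⟩ := h2
      exact (Finset.prod_eq_zero (Finset.mem_univ i) (indicator_of_notMem hi _)).symm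
  rw [lintegral_congr h1]
  have h4 := lint_pi (volume : Measure (ℝ × ℝ)) N
    (fun i => (s i).indicator (fun z => ENNReal.ofReal (sdn p q z / Zf p q)))
    (fun i => hg.indicator (hs i))
  refine h4.trans (Finset.prod_congr rfl fun i _ => ?_)
  rw [lintegral_indicator (hs i)]
  unfold sm
  rw [withDensity_apply _ (hs i)]

private theorem qa_meas (hp : Dens p) (hq : IsProp q) :
    Measurable fun z : (Fin N → ℝ) × (Fin N → ℝ) =>
      qN q z.1 z.2 * accept (dN p) (qN q) z.1 z.2 :=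
  (qN_meas hq).mul (accept_meas hp hq)

private theorem qa_meas' (hp : Dens p) (hq : IsProp q) (x : Fin N → ℝ) :
    Measurable fun y => qN q x y * accept (dN p) (qN q) x y :=
  (qa_meas hp hq).comp measurable_prodMk_left

private theorem qa_pos (hp : Dens p) (hq : IsProp q) (x y : Fin N → ℝ) :
    0 ≤ qN q x y * accept (dN p) (qN q) x y :=
  (mul_pos (qN_pos hq x y) (accept_mem hp hq x y).1).le

private theorem qa_le (hp : Dens p) (hq : IsProp q) (x y : Fin N → ℝ) :
    qN q x y * accept (dN p) (qN q) x y ≤ qN q x y :=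
  mul_le_of_le_one_right (qN_pos hq x y).le (accept_mem hp hq x y).2

private theorem qa_int (hp : Dens p) (hq : IsProp q) (x : Fin N → ℝ) :
    Integrable fun y => qN q x y * accept (dN p) (qN q) x y := by
  refine (qN_one hq x).1.mono' (qa_meas' hp hq x).aestronglyMeasurable
    (Eventually.of_forall fun y => ?_)
  rw [Real.norm_eq_abs, abs_of_nonneg (qa_pos hp hq x y)]
  exact qa_le hp hq x y

theorem mh_markov (hp : Dens p) (hq : IsProp q) (hK : IsMH volume (dN p) (qN q) K) :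
    IsMarkovKernel K := by
  refine ⟨fun x => ⟨?_⟩⟩
  have h1 : ∫ y, qN q x y * accept (dN p) (qN q) x y ≤ 1 := by
    rw [← (qN_one hq x).2]
    exact integral_mono (qa_int hp hq x) (qN_one hq x).1 (qa_le hp hq x)
  have h0 : 0 ≤ ∫ y, qN q x y * accept (dN p) (qN q) x y :=
    integral_nonneg (qa_pos hp hq x)
  rw [hK x, Measure.add_apply, Measure.smul_apply, withDensity_apply _ MeasurableSet.univ,
    Measure.restrict_univ, ← ofReal_integral_eq_lintegral_ofReal (qa_int hp hq x)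
      (Eventually.of_forall (qa_pos hp hq x)), Measure.dirac_apply' _ MeasurableSet.univ,
    indicator_of_mem (mem_univ x), Pi.one_apply, smul_eq_mul, mul_one,
    ← ENNReal.ofReal_add h0 (sub_nonneg.2 h1)]
  rw [add_sub_cancel, ENNReal.ofReal_one]

private theorem lint_K (hp : Dens p) (hq : IsProp q) (hK : IsMH volume (dN p) (qN q) K)
    {F : (Fin N → ℝ) × (Fin N → ℝ) → ℝ≥0∞} (hF : Measurable F) (h0 : ∀ x, F (x, x) = 0)
    (x : Fin N → ℝ) :
    ∫⁻ y, F (x, y) ∂(K x)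
      = ∫⁻ y, ENNReal.ofReal (qN q x y * accept (dN p) (qN q) x y) * F (x, y) := by
  have hFx : Measurable fun y => F (x, y) := hF.comp measurable_prodMk_left
  rw [hK x, lintegral_add_measure, lintegral_smul_measure, lintegral_dirac' _ hFx, h0 x,
    smul_zero, add_zero, lintegral_withDensity_eq_lintegral_mul _
      (qa_meas' hp hq x).ennreal_ofReal hFx]
  rfl

/-- the edge measure off the diagonal, as an integral over pairs -/
private theorem lint_edge (hp : Dens p) (hq : IsProp q) (hK : IsMH volume (dN p) (qN q) K)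
    {F : (Fin N → ℝ) × (Fin N → ℝ) → ℝ≥0∞} (hF : Measurable F) (h0 : ∀ x, F (x, x) = 0) :
    ∫⁻ z, F z ∂(pw (tgt p) N ⊗ₘ K)
      = ∫⁻ w : Fin N → ℝ × ℝ, ENNReal.ofReal ((∏ i, sdn p q (w i))
          * Real.exp (-|Sn (Rf p q) w| / 2)) * F (xs w, ys w) := by
  have := tgt_prob hp
  have := mh_markov hp hq hK
  set G : (Fin N → ℝ) × (Fin N → ℝ) → ℝ≥0∞ := fun z =>
    ENNReal.ofReal (dN p z.1 * (qN q z.1 z.2 * accept (dN p) (qN q) z.1 z.2)) * F z with hG
  have hGm : Measurable G :=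
    (((dN_meas hp).comp measurable_fst).mul (qa_meas hp hq)).ennreal_ofReal.mul hF
  rw [Measure.lintegral_compProd hF]
  have h1 : ∀ x, ∫⁻ y, F (x, y) ∂(K x)
      = ∫⁻ y, ENNReal.ofReal (qN q x y * accept (dN p) (qN q) x y) * F (x, y) :=
    lint_K hp hq hK hF h0
  rw [lintegral_congr h1, pw_tgt hp]
  have hm2 : Measurable fun z : (Fin N → ℝ) × (Fin N → ℝ) =>
      ENNReal.ofReal (qN q z.1 z.2 * accept (dN p) (qN q) z.1 z.2) * F z :=
    (qa_meas hp hq).ennreal_ofReal.mul hF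
  have hm3 : Measurable fun x : Fin N → ℝ =>
      ∫⁻ y, ENNReal.ofReal (qN q x y * accept (dN p) (qN q) x y) * F (x, y) :=
    hm2.lintegral_prod_right'
  rw [lintegral_withDensity_eq_lintegral_mul _ (dN_meas hp).ennreal_ofReal hm3]
  have h2 : ∀ x : Fin N → ℝ, ((fun x => ENNReal.ofReal (dN p x) : (Fin N → ℝ) → ℝ≥0∞) *
      (fun x => ∫⁻ y, ENNReal.ofReal (qN q x y * accept (dN p) (qN q) x y) * F (x, y) :
        (Fin N → ℝ) → ℝ≥0∞)) x = ∫⁻ y, G (x, y) := fun x => by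
    show ENNReal.ofReal (dN p x) *
      ∫⁻ y, ENNReal.ofReal (qN q x y * accept (dN p) (qN q) x y) * F (x, y) = _
    have hm4 : Measurable fun y : Fin N → ℝ =>
        ENNReal.ofReal (qN q x y * accept (dN p) (qN q) x y) * F (x, y) :=
      hm2.comp measurable_prodMk_left
    rw [← lintegral_const_mul _ hm4]
    refine lintegral_congr fun y => ?_
    show _ = ENNReal.ofReal (dN p x * (qN q x y * accept (dN p) (qN q) x y)) * F (x, y)
    rw [ENNReal.ofReal_mul (dN_pos hp x).le, mul_assoc]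
  rw [lintegral_congr h2]
  have h3 : ∫⁻ x : Fin N → ℝ, ∫⁻ y, G (x, y)
      = ∫⁻ z, G z ∂((volume : Measure (Fin N → ℝ)).prod volume) :=
    (lintegral_prod _ hGm.aemeasurable).symm
  rw [h3]
  have h4 := (volume_measurePreserving_arrowProdEquivProdArrow ℝ ℝ (Fin N)).lintegral_comp hGm
  rw [Measure.volume_eq_prod] at h4
  rw [← h4]
  refine lintegral_congr fun w => ?_
  show ENNReal.ofReal (dN p (xs w) * (qN q (xs w) (ys w) *
    accept (dN p) (qN q) (xs w) (ys w))) * F (xs w, ys w) = _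
  rw [accept_eq hp hq]

private theorem zn_pos (hp : Dens p) (hq : IsProp q) : 0 < Zf p q ^ N := pow_pos (Zf_pos hp hq) N

private theorem exp_meas (hp : Dens p) (hq : IsProp q) :
    Measurable fun w : Fin N → ℝ × ℝ => Real.exp (-|Sn (Rf p q) w| / 2) := by
  have h : Measurable fun w : Fin N → ℝ × ℝ => |Sn (Rf p q) w| :=
    measurable_abs.comp (Sn_meas (Rf_meas hp hq))
  exact Real.measurable_exp.comp (h.neg.div_const 2)

private theorem pair_meas :
    Measurable fun w : Fin N → ℝ × ℝ => ((xs w, ys w) : (Fin N → ℝ) × (Fin N → ℝ)) :=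
  xs_meas.prodMk ys_meas

private theorem lint_pw_sm (hp : Dens p) (hq : IsProp q) {G : (Fin N → ℝ × ℝ) → ℝ≥0∞}
    (hG : Measurable G) :
    ENNReal.ofReal (Zf p q ^ N) * ∫⁻ w, G w ∂(pw (sm p q) N)
      = ∫⁻ w : Fin N → ℝ × ℝ, ENNReal.ofReal (∏ i, sdn p q (w i)) * G w := by
  rw [pw_sm hp hq, lintegral_withDensity_eq_lintegral_mul _
    ((psdn_meas hp hq).div_const _).ennreal_ofReal hG, ← lintegral_const_mul _
      (((psdn_meas hp hq).div_const _).ennreal_ofReal.mul hG)]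
  refine lintegral_congr fun w => ?_
  show ENNReal.ofReal (Zf p q ^ N) *
    (ENNReal.ofReal ((∏ i, sdn p q (w i)) / Zf p q ^ N) * G w) = _
  rw [← mul_assoc, ← ENNReal.ofReal_mul (zn_pos hp hq).le, mul_div_cancel₀ _ (zn_pos hp hq).ne']

theorem mh_lintegral (hp : Dens p) (hq : IsProp q) (hK : IsMH volume (dN p) (qN q) K)
    {F : (Fin N → ℝ) × (Fin N → ℝ) → ℝ≥0∞} (hF : Measurable F) (h0 : ∀ x, F (x, x) = 0) :
    ∫⁻ z, F z ∂(pw (tgt p) N ⊗ₘ K)
      = ENNReal.ofReal (Zf p q ^ N) * ∫⁻ w, ENNReal.ofReal (Real.exp (-|Sn (Rf p q) w| / 2))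
          * F (xs w, ys w) ∂(pw (sm p q) N) := by
  rw [lint_edge hp hq hK hF h0, lint_pw_sm hp hq
    (G := fun w => ENNReal.ofReal (Real.exp (-|Sn (Rf p q) w| / 2)) * F (xs w, ys w))
    ((exp_meas hp hq).ennreal_ofReal.mul (hF.comp pair_meas))]
  refine lintegral_congr fun w => ?_
  rw [ENNReal.ofReal_mul (Finset.prod_nonneg fun i _ => (sdn_pos hp hq (w i)).le), mul_assoc]

theorem mh_integrable (hp : Dens p) (hq : IsProp q) (hK : IsMH volume (dN p) (qN q) K)
    {F : (Fin N → ℝ) × (Fin N → ℝ) → ℝ} (hF : Measurable F) (h0 : ∀ x, F (x, x) = 0) :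
    Integrable F (pw (tgt p) N ⊗ₘ K) ↔
      Integrable (fun w => Real.exp (-|Sn (Rf p q) w| / 2) * F (xs w, ys w)) (pw (sm p q) N) := by
  have hm : Measurable fun w : Fin N → ℝ × ℝ =>
      Real.exp (-|Sn (Rf p q) w| / 2) * F (xs w, ys w) :=
    (exp_meas hp hq).mul (hF.comp pair_meas)
  have h1 := mh_lintegral hp hq hK (F := fun z => ‖F z‖ₑ) hF.enorm
    (fun x => by rw [h0 x, enorm_zero])
  have h2 : ∀ w : Fin N → ℝ × ℝ, ‖Real.exp (-|Sn (Rf p q) w| / 2) * F (xs w, ys w)‖ₑ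
      = ENNReal.ofReal (Real.exp (-|Sn (Rf p q) w| / 2)) * ‖F (xs w, ys w)‖ₑ := fun w => by
    rw [enorm_mul, Real.enorm_of_nonneg (Real.exp_pos _).le]
  constructor
  · intro h
    refine ⟨hm.aestronglyMeasurable, ?_⟩
    have h3 : ∫⁻ z, ‖F z‖ₑ ∂(pw (tgt p) N ⊗ₘ K) < ⊤ := h.2
    rw [h1] at h3
    show ∫⁻ w, ‖Real.exp (-|Sn (Rf p q) w| / 2) * F (xs w, ys w)‖ₑ ∂(pw (sm p q) N) < ⊤
    rw [lintegral_congr h2]
    exact ENNReal.lt_top_of_mul_ne_top_right h3.ne
      (by rw [Ne, ENNReal.ofReal_eq_zero, not_le]; exact zn_pos hp hq)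
  · intro h
    refine ⟨hF.aestronglyMeasurable, ?_⟩
    show ∫⁻ z, ‖F z‖ₑ ∂(pw (tgt p) N ⊗ₘ K) < ⊤
    rw [h1]
    have h3 : ∫⁻ w, ‖Real.exp (-|Sn (Rf p q) w| / 2) * F (xs w, ys w)‖ₑ ∂(pw (sm p q) N) < ⊤ :=
      h.2
    rw [lintegral_congr h2] at h3
    exact ENNReal.mul_lt_top ENNReal.ofReal_lt_top h3

theorem mh_integral (hp : Dens p) (hq : IsProp q) (hK : IsMH volume (dN p) (qN q) K)
    {F : (Fin N → ℝ) × (Fin N → ℝ) → ℝ} (hF : Measurable F) (h0 : ∀ x, F (x, x) = 0) :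
    ∫ z, F z ∂(pw (tgt p) N ⊗ₘ K)
      = Zf p q ^ N * ∫ w, Real.exp (-|Sn (Rf p q) w| / 2) * F (xs w, ys w)
          ∂(pw (sm p q) N) := by
  by_cases h : Integrable F (pw (tgt p) N ⊗ₘ K)
  · have h' := (mh_integrable hp hq hK hF h0).1 h
    rw [integral_eq_lintegral_pos_part_sub_lintegral_neg_part h,
      integral_eq_lintegral_pos_part_sub_lintegral_neg_part h']
    have h1 := mh_lintegral hp hq hK (F := fun z => ENNReal.ofReal (F z)) hF.ennreal_ofReal
      (fun x => by rw [h0 x, ENNReal.ofReal_zero])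
    have h2 := mh_lintegral hp hq hK (F := fun z => ENNReal.ofReal (-F z)) hF.neg.ennreal_ofReal
      (fun x => by rw [h0 x, neg_zero, ENNReal.ofReal_zero])
    rw [h1, h2, ENNReal.toReal_mul, ENNReal.toReal_mul, ENNReal.toReal_ofReal (zn_pos hp hq).le,
      ← mul_sub]
    have h3 : ∀ w : Fin N → ℝ × ℝ,
        ENNReal.ofReal (Real.exp (-|Sn (Rf p q) w| / 2) * F (xs w, ys w))
        = ENNReal.ofReal (Real.exp (-|Sn (Rf p q) w| / 2)) * ENNReal.ofReal (F (xs w, ys w)) :=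
      fun w => ENNReal.ofReal_mul (Real.exp_pos _).le
    have h4 : ∀ w : Fin N → ℝ × ℝ,
        ENNReal.ofReal (-(Real.exp (-|Sn (Rf p q) w| / 2) * F (xs w, ys w)))
        = ENNReal.ofReal (Real.exp (-|Sn (Rf p q) w| / 2)) * ENNReal.ofReal (-F (xs w, ys w)) :=
      fun w => by rw [← mul_neg, ENNReal.ofReal_mul (Real.exp_pos _).le]
    rw [lintegral_congr h3, lintegral_congr h4]
  · have h' := mt (mh_integrable hp hq hK hF h0).2 h
    rw [integral_undef h, integral_undef h', mul_zero]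

/-- swap all the pairs -/
private def sw (w : Fin N → ℝ × ℝ) : Fin N → ℝ × ℝ := fun i => (w i).swap

private theorem sw_meas : Measurable (sw : (Fin N → ℝ × ℝ) → Fin N → ℝ × ℝ) :=
  measurable_pi_lambda _ fun i => measurable_swap.comp (measurable_pi_apply i)

private theorem Sn_sw (hp : Dens p) (hq : IsProp q) (w : Fin N → ℝ × ℝ) :
    |Sn (Rf p q) (sw w)| = |Sn (Rf p q) w| := by
  have h : Sn (Rf p q) (sw w) = - Sn (Rf p q) w := by
    unfold Sn sw
    rw [← Finset.sum_neg_distrib]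
    exact Finset.sum_congr rfl fun i _ => Rf_anti hp hq (w i)
  rw [h, abs_neg]

private theorem lint_symm (hp : Dens p) (hq : IsProp q) (hK : IsMH volume (dN p) (qN q) K)
    {F : (Fin N → ℝ) × (Fin N → ℝ) → ℝ≥0∞} (hF : Measurable F) (h0 : ∀ x, F (x, x) = 0) :
    ∫⁻ z, F z.swap ∂(pw (tgt p) N ⊗ₘ K) = ∫⁻ z, F z ∂(pw (tgt p) N ⊗ₘ K) := by
  have := sm_prob hp hq
  rw [mh_lintegral hp hq hK (F := fun z => F z.swap) (hF.comp measurable_swap) (fun x => h0 x),
    mh_lintegral hp hq hK hF h0]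
  congr 1
  have hm : Measurable fun w : Fin N → ℝ × ℝ =>
      ENNReal.ofReal (Real.exp (-|Sn (Rf p q) w| / 2)) * F (xs w, ys w) :=
    (exp_meas hp hq).ennreal_ofReal.mul (hF.comp pair_meas)
  have h1 : (pw (sm p q) N).map sw = pw (sm p q) N := pi_swap (sm_swap hp hq) N
  have h2 : ∫⁻ w, ENNReal.ofReal (Real.exp (-|Sn (Rf p q) w| / 2)) * F (xs w, ys w)
      ∂(pw (sm p q) N) = ∫⁻ w, ENNReal.ofReal (Real.exp (-|Sn (Rf p q) w| / 2)) * F (xs w, ys w)
      ∂((pw (sm p q) N).map sw) := by rw [h1]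
  rw [h2, lintegral_map hm sw_meas]
  refine lintegral_congr fun w => ?_
  rw [Sn_sw hp hq]
  rfl

theorem mh_rev (hp : Dens p) (hq : IsProp q) (hK : IsMH volume (dN p) (qN q) K) :
    Rev (pw (tgt p) N) K := by
  have := tgt_prob hp
  have := mh_markov hp hq hK
  refine ⟨inferInstance, inferInstance, ?_⟩
  ext A hA
  rw [Measure.map_apply measurable_swap hA]
  have hd : MeasurableSet {z : (Fin N → ℝ) × (Fin N → ℝ) | z.1 = z.2} :=
    measurableSet_eq_fun measurable_fst measurable_snd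
  set d : Set ((Fin N → ℝ) × (Fin N → ℝ)) := {z | z.1 = z.2} with hdd
  have h1 : ∀ B : Set ((Fin N → ℝ) × (Fin N → ℝ)), MeasurableSet B →
      (pw (tgt p) N ⊗ₘ K) B = (pw (tgt p) N ⊗ₘ K) (B ∩ d) + (pw (tgt p) N ⊗ₘ K) (B \ d) :=
    fun B _ => (measure_inter_add_sdiff B hd).symm
  rw [h1 _ (measurable_swap hA), h1 A hA]
  congr 1
  · congr 1
    ext z
    constructor
    · rintro ⟨h2, h3⟩
      have h4 : z.swap = z := Prod.ext h3.symm h3
      exact ⟨h4 ▸ h2, h3⟩
    · rintro ⟨h2, h3⟩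
      have h4 : z.swap = z := Prod.ext h3.symm h3
      refine ⟨?_, h3⟩
      show z.swap ∈ A
      rw [h4]
      exact h2
  · have h5 := lint_symm hp hq hK (F := (A \ d).indicator 1)
      (measurable_one.indicator (hA.diff hd)) (fun x => by
        refine indicator_of_notMem ?_ _
        intro h6
        exact h6.2 rfl)
    rw [lintegral_indicator_one (hA.diff hd)] at h5
    rw [← h5]
    have h6 : ∀ z : (Fin N → ℝ) × (Fin N → ℝ), (A \ d).indicator
        (1 : (Fin N → ℝ) × (Fin N → ℝ) → ℝ≥0∞) z.swap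
        = (Prod.swap ⁻¹' A \ d).indicator (1 : (Fin N → ℝ) × (Fin N → ℝ) → ℝ≥0∞) z := fun z => by
      by_cases h7 : z.swap ∈ A \ d
      · rw [indicator_of_mem h7, indicator_of_mem]
        · rfl
        · exact ⟨h7.1, fun h8 => h7.2 (Eq.symm h8)⟩
      · rw [indicator_of_notMem h7, indicator_of_notMem]
        intro h8
        exact h7 ⟨h8.1, fun h9 => h8.2 (Eq.symm h9)⟩
    rw [lintegral_congr h6, lintegral_indicator_one ((measurable_swap hA).diff hd)]

/-- the chain moves at most as the proposal -/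
theorem mh_mom (hp : Dens p) (hq : IsProp q) {n : ℕ}
    {K : Kernel (Fin (n + 1) → ℝ) (Fin (n + 1) → ℝ)} (hK : IsMH volume (dN p) (qN q) K)
    (hi : Integrable fun z : ℝ × ℝ => (z.2 - z.1) ^ 4 * (p z.1 * q z.1 z.2)) :
    Integrable (fun z : (Fin (n + 1) → ℝ) × (Fin (n + 1) → ℝ) => (z.2 0 - z.1 0) ^ 4)
        (pw (tgt p) (n + 1) ⊗ₘ K) ∧
      ∫ z : (Fin (n + 1) → ℝ) × (Fin (n + 1) → ℝ), (z.2 0 - z.1 0) ^ 4
          ∂(pw (tgt p) (n + 1) ⊗ₘ K)
        ≤ ∫ z : ℝ × ℝ, (z.2 - z.1) ^ 4 * (p z.1 * q z.1 z.2) := by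
  have hev : Even 4 := by decide
  have hpq : Measurable fun z : ℝ × ℝ => p z.1 * q z.1 z.2 :=
    (hp.cont.measurable.comp measurable_fst).mul hq.meas
  have hpq0 : ∀ z : ℝ × ℝ, 0 ≤ p z.1 * q z.1 z.2 := fun z =>
    (mul_pos (hp.pos z.1) (hq.pos z.1 z.2)).le
  have hFm : Measurable fun z : (Fin (n + 1) → ℝ) × (Fin (n + 1) → ℝ) => (z.2 0 - z.1 0) ^ 4 :=
    (((measurable_pi_apply 0).comp measurable_snd).sub
      ((measurable_pi_apply 0).comp measurable_fst)).pow_const 4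
  have hgm : Measurable fun z : ℝ × ℝ => (z.2 - z.1) ^ 4 :=
    (measurable_snd.sub measurable_fst).pow_const 4
  have hF0 : ∀ z : (Fin (n + 1) → ℝ) × (Fin (n + 1) → ℝ), 0 ≤ (z.2 0 - z.1 0) ^ 4 := fun z =>
    hev.pow_nonneg _
  have hone : ∫⁻ z : ℝ × ℝ, ENNReal.ofReal (p z.1 * q z.1 z.2) = 1 := by
    rw [← ofReal_integral_eq_lintegral_ofReal (pq_integrable hp hq) (Eventually.of_forall hpq0),
      pq_one hp hq, ENNReal.ofReal_one]
  -- the bound on the level of lower integrals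
  have key : ∫⁻ z, ENNReal.ofReal ((z.2 0 - z.1 0) ^ 4) ∂(pw (tgt p) (n + 1) ⊗ₘ K)
      ≤ ∫⁻ z : ℝ × ℝ, ENNReal.ofReal ((z.2 - z.1) ^ 4 * (p z.1 * q z.1 z.2)) := by
    rw [lint_edge hp hq hK (F := fun z => ENNReal.ofReal ((z.2 0 - z.1 0) ^ 4)) hFm.ennreal_ofReal
      (fun x => by
        show ENNReal.ofReal ((x 0 - x 0) ^ 4) = 0
        rw [sub_self, zero_pow (by norm_num), ENNReal.ofReal_zero])]
    set f : Fin (n + 1) → ℝ × ℝ → ℝ≥0∞ := fun i => Fin.cases
      (fun z : ℝ × ℝ => ENNReal.ofReal ((z.2 - z.1) ^ 4 * (p z.1 * q z.1 z.2)))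
      (fun _ z => ENNReal.ofReal (p z.1 * q z.1 z.2)) i with hf
    have hfm : ∀ i, Measurable (f i) := fun i => by
      refine Fin.cases ?_ (fun j => ?_) i
      · exact (hgm.mul hpq).ennreal_ofReal
      · exact hpq.ennreal_ofReal
    have h1 := lint_pi (volume : Measure (ℝ × ℝ)) (n + 1) f hfm
    rw [Fin.prod_univ_succ] at h1
    have h2 : ∏ j : Fin n, ∫⁻ z : ℝ × ℝ, f j.succ z = 1 := by
      refine Finset.prod_eq_one fun j _ => ?_
      exact hone
    rw [h2, mul_one] at h1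
    have h3 : ∫⁻ z : ℝ × ℝ, f 0 z
        = ∫⁻ z : ℝ × ℝ, ENNReal.ofReal ((z.2 - z.1) ^ 4 * (p z.1 * q z.1 z.2)) := rfl
    rw [← h3, ← h1]
    refine lintegral_mono fun w => ?_
    show ENNReal.ofReal ((∏ i, sdn p q (w i)) * Real.exp (-|Sn (Rf p q) w| / 2)) *
      ENNReal.ofReal (((w 0).2 - (w 0).1) ^ 4) ≤ ∏ i, f i (w i)
    have h4 : ∏ i, f i (w i) = ENNReal.ofReal ((∏ i, p (w i).1 * q (w i).1 (w i).2) *
        ((w 0).2 - (w 0).1) ^ 4) := by
      rw [Fin.prod_univ_succ]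
      have h5 : ∀ j : Fin n, f j.succ (w j.succ)
          = ENNReal.ofReal (p (w j.succ).1 * q (w j.succ).1 (w j.succ).2) := fun j => rfl
      have h6 : f 0 (w 0) = ENNReal.ofReal (((w 0).2 - (w 0).1) ^ 4 *
        (p (w 0).1 * q (w 0).1 (w 0).2)) := rfl
      rw [Finset.prod_congr rfl fun j _ => h5 j, h6, ← ENNReal.ofReal_prod_of_nonneg
        (fun j _ => hpq0 (w j.succ)), ← ENNReal.ofReal_mul (mul_nonneg (hev.pow_nonneg _)
          (hpq0 (w 0))), Fin.prod_univ_succ]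
      congr 1
      ring
    rw [h4, ← ENNReal.ofReal_mul (mul_nonneg (Finset.prod_nonneg fun i _ =>
      (sdn_pos hp hq (w i)).le) (Real.exp_pos _).le)]
    refine ENNReal.ofReal_le_ofReal (mul_le_mul_of_nonneg_right ?_ (hev.pow_nonneg _))
    have h7 : ∏ i, (p (w i).1 * q (w i).1 (w i).2)
        = (∏ i, sdn p q (w i)) * Real.exp (-(Sn (Rf p q) w) / 2) := by
      have h8 : Real.exp (-(Sn (Rf p q) w) / 2) = ∏ i, Real.exp (-(Rf p q (w i)) / 2) := by
        rw [← Real.exp_sum]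
        congr 1
        unfold Sn
        rw [← Finset.sum_neg_distrib, Finset.sum_div]
      rw [h8, ← Finset.prod_mul_distrib]
      exact Finset.prod_congr rfl fun i _ => (sdn_exp_neg hp hq (w i)).symm
    rw [h7]
    refine mul_le_mul_of_nonneg_left (Real.exp_le_exp.2 ?_)
      (Finset.prod_nonneg fun i _ => (sdn_pos hp hq (w i)).le)
    have h9 := le_abs_self (Sn (Rf p q) w)
    linarith
  have hg0 : ∀ z : ℝ × ℝ, 0 ≤ (z.2 - z.1) ^ 4 * (p z.1 * q z.1 z.2) := fun z =>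
    mul_nonneg (hev.pow_nonneg _) (hpq0 z)
  have hfin : ∫⁻ z : ℝ × ℝ, ENNReal.ofReal ((z.2 - z.1) ^ 4 * (p z.1 * q z.1 z.2)) < ⊤ := by
    rw [← ofReal_integral_eq_lintegral_ofReal hi (Eventually.of_forall hg0)]
    exact ENNReal.ofReal_lt_top
  refine ⟨⟨hFm.aestronglyMeasurable, ?_⟩, ?_⟩
  · rw [hasFiniteIntegral_iff_ofReal (Eventually.of_forall hF0)]
    exact key.trans_lt hfin
  · rw [integral_eq_lintegral_of_nonneg_ae (Eventually.of_forall hF0) hFm.aestronglyMeasurable,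
      integral_eq_lintegral_of_nonneg_ae (Eventually.of_forall hg0) hi.1]
    exact ENNReal.toReal_mono hfin.ne key

end Pool.Agent.Lib.MP_e19099_pr
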