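import Pool.Agent.Lib.MP_e19099_pr.BDualB
import Pool.Agent.Lib.MP_e19099_pr.BMHB
import Pool.Agent.Lib.MP_e19099_pr.Abstract

/-!
# The product chain satisfies the abstract setup (module B, B16)

`dual4`: `averaging` with `G = U(x) ψ(x₀)`, `ψ = t'/p` (continuous with compact support, so uniformly continuous and bounded), `slow_mul`.
`b_setup`: `rev` = `mh_rev`; `law`: the law of the coordinate `0` under `pw (tgt p)`; `int4`, `mom` = `mh_mom`, `B.mom`; `genr`: the energy hypothesis is `BE.en` by
`mh_integral` (with a common bound `max M 0`…: `M ≥ 0` automatically as `MB M`), `en = T0` by `mh_integral`, and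
`T0 → T1 → T2 → T3 → T4 → -(l²/2) ā ∫ U ψ dPi = -∫ U gen dPi`.
-/

set_option autoImplicit false

open MeasureTheory ProbabilityTheory Filter Set
open scoped NNReal Topology ENNReal

namespace Pool.Agent.Lib.MP_e19099_pr

variable {p : ℝ → ℝ} {q : ℕ → ℝ → ℝ → ℝ} {l σ : ℝ} {τ : ℕ → ℝ} {M : ℝ}
  {U : ∀ n : ℕ, (Fin (n + 1) → ℝ) → ℝ}

private theorem bm_gen (t : ℝ → ℝ) (x : ℝ) : gen 2 p t x = deriv t x / p x := by
  unfold gen
  norm_num

theorem dual4 (B : BSetup p q l σ τ) (hU : BE p q τ M U) {t : ℝ → ℝ} (ht : IsTest t) :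
    Tendsto (fun n => T4 p q l U t n + l ^ 2 / 2 * abar σ
      * ∫ x, U n x * (deriv t (x 0) / p (x 0)) ∂(pw (tgt p) (n + 1))) atTop (𝓝 0) := by
  obtain ⟨C, hC⟩ := gen_bdd B.dens ht 2
  have hcont : Continuous fun x => deriv t x / p x := by
    have := gen_cont B.dens ht 2
    have e : gen 2 p t = fun x => deriv t x / p x := funext fun x => bm_gen t x
    rwa [e] at this
  have hsupp : HasCompactSupport fun x => deriv t x / p x := by
    have := gen_supp (p := p) ht 2
    have e : gen 2 p t = fun x => deriv t x / p x := funext fun x => bm_gen t x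
    rwa [e] at this
  have huc : UniformContinuous fun x => deriv t x / p x :=
    hcont.uniformContinuous_of_tendsto_cocompact hsupp.is_zero_at_infty
  have hb : ∀ x, |deriv t x / p x| ≤ C := fun x => by rw [← bm_gen t x]; exact hC x
  have hs := slow_mul B hU huc hb
  have hG : ∀ n, MB (M * C) (fun x : Fin (n + 1) → ℝ => U n x * (deriv t (x 0) / p (x 0))) := by
    intro n
    refine ⟨(hU.mb n).meas.mul (hcont.measurable.comp (measurable_pi_apply 0)), fun x => ?_⟩
    rw [abs_mul]
    exact mul_le_mul ((hU.mb n).bdd x) (hb _) (abs_nonneg _) ((hU.mb n).nonneg x)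
  have h1 := averaging B (G := fun n (x : Fin (n + 1) → ℝ) => U n x * (deriv t (x 0) / p (x 0)))
    hG hs
  have h2 := h1.const_mul (-(l ^ 2 / 2))
  rw [mul_zero] at h2
  refine h2.congr fun n => ?_
  unfold T4
  ring

/-- the speed -/
noncomputable def spd (l σ : ℝ) : ℝ := l ^ 2 * abar σ

theorem b_setup (B : BSetup p q l σ τ)
    {K : ∀ n : ℕ, Kernel (Fin (n + 1) → ℝ) (Fin (n + 1) → ℝ)}
    (hK : ∀ n, IsMH volume (dN p) (qN (q n)) (K n)) :
    Setup (fun n => Fin (n + 1) → ℝ) p (spd l σ) τ (fun n => pw (tgt p) (n + 1)) K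
      (fun _ x => x 0) where
  dens := B.dens
  hpos := by
    have := B.lpos
    have := abar_pos σ
    unfold spd
    positivity
  rev := fun n => mh_rev B.dens (B.prop n) (hK n)
  meas := fun n => measurable_pi_apply 0
  law := fun n => by
    have := tgt_prob B.dens
    exact (measurePreserving_eval (fun _ : Fin (n + 1) => tgt p) 0).map_eq
  tpos := B.tpos
  tlim := B.tlim
  int4 := fun n => (mh_mom B.dens (B.prop n) (hK n) (B.int4 n)).1
  mom := by
    obtain ⟨C, hC⟩ := B.mom
    exact ⟨C, fun n => (mh_mom B.dens (B.prop n) (hK n) (B.int4 n)).2.trans (hC n)⟩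
  genr := by
    intro t ht a M u hu hen
    have hvm : Measurable (vf p t a) := (vf_cont B.dens ht a).measurable
    have hBE : BE p q τ M u := by
      refine ⟨hu, fun n => ?_⟩
      have hm : Measurable fun z : (Fin (n + 1) → ℝ) × (Fin (n + 1) → ℝ) =>
          (u n z.2 - u n z.1) ^ 2 :=
        (((hu n).meas.comp measurable_snd).sub ((hu n).meas.comp measurable_fst)).pow_const 2
      have h1 := mh_integral B.dens (B.prop n) (hK n) hm (fun x => by simp)
      have h2 := hen n
      rw [h1] at h2
      exact h2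
    obtain ⟨g, C, hg⟩ := B.fc t ht a
    have h0 : ∀ n, en (τ n) (pw (tgt p) (n + 1)) (K n) (u n)
        (fun x : Fin (n + 1) → ℝ => vf p t a (x 0)) = T0 p q τ u (vf p t a) n := by
      intro n
      have hm : Measurable fun z : (Fin (n + 1) → ℝ) × (Fin (n + 1) → ℝ) =>
          (u n z.2 - u n z.1) * (vf p t a (z.2 0) - vf p t a (z.1 0)) :=
        (((hu n).meas.comp measurable_snd).sub ((hu n).meas.comp measurable_fst)).mul
          ((hvm.comp ((measurable_pi_apply 0).comp measurable_snd)).sub
            (hvm.comp ((measurable_pi_apply 0).comp measurable_fst)))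
      have h1 := mh_integral B.dens (B.prop n) (hK n) hm (fun x => by simp)
      unfold en T0
      rw [h1]
      simp only [xs, ys]
      ring
    have h1 := dual01 B hBE ht hg
    have h2 := dual12 B hBE hg
    have h3 := dual23 B hBE ht hg
    have h4 := dual34 B hBE ht
    have h5 := dual4 B hBE ht
    have h6 := (((h1.add h2).add h3).add h4).add h5
    simp only [add_zero] at h6
    refine h6.congr fun n => ?_
    rw [h0 n]
    have h7 : ∫ x : Fin (n + 1) → ℝ, u n x * gen (spd l σ) p t (x 0) ∂(pw (tgt p) (n + 1)) =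
        l ^ 2 / 2 * abar σ *
          ∫ x : Fin (n + 1) → ℝ, u n x * (deriv t (x 0) / p (x 0)) ∂(pw (tgt p) (n + 1)) := by
      rw [← integral_const_mul]
      refine integral_congr_ae (Eventually.of_forall fun x => ?_)
      simp only [gen, spd]
      ring
    rw [h7]
    ring

end Pool.Agent.Lib.MP_e19099_pr
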