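import Pool.Agent.Lib.MP_e19099_pr.BAvgA

/-!
# Two families of test functions and the constant (module B, B8)

`nice_abs`: the Fourier transform of `exp(-|x|/2)` is `1/(1/4 + 4π²w²)` (integrate separately over the half lines).
`nice_gau`: `exp(-x/2 - ηx²)`; Gaussian integrals (`fourierIntegral_gaussian`/`integral_cexp_quadratic`), the transform is a constant times
`exp(-(π²/η) w² + …i w)`, integrable.
`gau_lim`: `exp(-x/2-ηx²) ↑ exp(-x/2)` as `η → 0`, dominated convergence, `∫ exp(-x/2) dN(0,σ²) = exp(σ²/8)` (`mgf_gaussianReal`).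
`abar_eq`: `∫ exp(-|x|/2) dN(0,σ²) = 2 e^{σ²/8} Φ(-σ/2)`: by symmetry it is `2 ∫_{x>0} e^{-x/2} dN`, complete the square:
density `e^{σ²/8}` times the density of `N(-σ²/2, σ²)` on `x > 0`, whose mass is `P(N(0,1) > σ/2) = Φ(-σ/2)`.
-/

set_option autoImplicit false

open MeasureTheory ProbabilityTheory Filter Set
open scoped NNReal Topology ENNReal FourierTransform

namespace Pool.Agent.Lib.MP_e19099_pr

namespace BNiceAux

theorem int_abs : Integrable (fun x : ℝ => Real.exp (-|x| / 2)) := by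
  have h1 : IntegrableOn (fun x : ℝ => Real.exp (-|x| / 2)) (Iic 0) := by
    refine (integrableOn_exp_mul_Iic (a := 1 / 2) (by norm_num) 0).congr_fun ?_ measurableSet_Iic
    intro x hx
    have hx' : x ≤ 0 := hx
    simp only
    rw [abs_of_nonpos hx']
    congr 1
    ring
  have h2 : IntegrableOn (fun x : ℝ => Real.exp (-|x| / 2)) (Ioi 0) := by
    refine (integrableOn_exp_mul_Ioi (a := -(1 / 2)) (by norm_num) 0).congr_fun ?_
      measurableSet_Ioi
    intro x hx
    have hx' : 0 < x := hx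
    simp only
    rw [abs_of_pos hx']
    congr 1
    ring
  have h3 := h1.union h2
  rwa [Iic_union_Ioi, integrableOn_univ] at h3

theorem fourier_abs (w : ℝ) :
    𝓕 (fun x : ℝ => ((Real.exp (-|x| / 2) : ℝ) : ℂ)) w =
      (((1 / 4 + 4 * Real.pi ^ 2 * w ^ 2)⁻¹ : ℝ) : ℂ) := by
  rw [Real.fourier_real_eq_integral_exp_smul]
  set a : ℂ := 1 / 2 - 2 * Real.pi * w * Complex.I with ha
  set b : ℂ := -(1 / 2) - 2 * Real.pi * w * Complex.I with hb
  have hare : 0 < a.re := by
    rw [ha]
    simp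
  have hbre : b.re < 0 := by
    rw [hb]
    simp
  have e1 : EqOn (fun v : ℝ => Complex.exp (a * v))
      (fun v : ℝ => Complex.exp (↑(-2 * Real.pi * v * w) * Complex.I) •
        ((Real.exp (-|v| / 2) : ℝ) : ℂ)) (Iic 0) := by
    intro v hv
    have hv' : v ≤ 0 := hv
    simp only
    rw [abs_of_nonpos hv', smul_eq_mul, Complex.ofReal_exp, ← Complex.exp_add, ha]
    congr 1
    push_cast
    ring
  have e2 : EqOn (fun v : ℝ => Complex.exp (b * v))
      (fun v : ℝ => Complex.exp (↑(-2 * Real.pi * v * w) * Complex.I) •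
        ((Real.exp (-|v| / 2) : ℝ) : ℂ)) (Ioi 0) := by
    intro v hv
    have hv' : 0 < v := hv
    simp only
    rw [abs_of_pos hv', smul_eq_mul, Complex.ofReal_exp, ← Complex.exp_add, hb]
    congr 1
    push_cast
    ring
  have i1 := (integrableOn_exp_mul_complex_Iic hare 0).congr_fun e1 measurableSet_Iic
  have i2 := (integrableOn_exp_mul_complex_Ioi hbre 0).congr_fun e2 measurableSet_Ioi
  rw [← setIntegral_univ, ← Iic_union_Ioi (a := (0 : ℝ)),
    setIntegral_union (Set.Iic_disjoint_Ioi le_rfl) measurableSet_Ioi i1 i2,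
    ← setIntegral_congr_fun measurableSet_Iic e1, ← setIntegral_congr_fun measurableSet_Ioi e2,
    integral_exp_mul_complex_Iic hare, integral_exp_mul_complex_Ioi hbre]
  have ha0 : a ≠ 0 := fun h => by rw [h] at hare; simp at hare
  have hb0 : b ≠ 0 := fun h => by rw [h] at hbre; simp at hbre
  have hprod : a * (-b) = 1 / 4 + 4 * Real.pi ^ 2 * w ^ 2 := by
    rw [ha, hb]
    linear_combination (-(4 * (Real.pi : ℂ) ^ 2 * (w : ℂ) ^ 2)) * Complex.I_sq
  have hsum : a + (-b) = 1 := by
    rw [ha, hb]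
    ring
  have hne : a * (-b) ≠ 0 := mul_ne_zero ha0 (neg_ne_zero.2 hb0)
  have key : Complex.exp (a * ((0 : ℝ) : ℂ)) / a + -Complex.exp (b * ((0 : ℝ) : ℂ)) / b =
      (a + (-b)) / (a * (-b)) := by
    simp only [Complex.ofReal_zero, mul_zero, Complex.exp_zero]
    field_simp
    ring
  rw [key, hsum, hprod]
  push_cast
  rw [one_div]

theorem int_inv : Integrable (fun w : ℝ => (1 / 4 + 4 * Real.pi ^ 2 * w ^ 2)⁻¹) := by
  have h1 : Integrable (fun w : ℝ => 4 * (1 + (4 * Real.pi * w) ^ 2)⁻¹) :=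
    (integrable_inv_one_add_sq.comp_mul_left' (R := 4 * Real.pi)
      (by positivity)).const_mul 4
  refine h1.congr (Eventually.of_forall fun w => ?_)
  simp only
  have h2 : (0 : ℝ) < 1 / 4 + 4 * Real.pi ^ 2 * w ^ 2 := by positivity
  have h3 : (0 : ℝ) < 1 + (4 * Real.pi * w) ^ 2 := by positivity
  field_simp

theorem tnn {σ : ℝ} : (((σ ^ 2).toNNReal : ℝ≥0) : ℝ) = σ ^ 2 :=
  Real.coe_toNNReal _ (sq_nonneg σ)

end BNiceAux

open BNiceAux

theorem nice_abs : Nice fun x => Real.exp (-|x| / 2) := by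
  refine ⟨by fun_prop, int_abs, ?_, 1, fun x => ?_⟩
  · have h : (𝓕 fun x : ℝ => ((Real.exp (-|x| / 2) : ℝ) : ℂ)) =
        fun w : ℝ => (((1 / 4 + 4 * Real.pi ^ 2 * w ^ 2)⁻¹ : ℝ) : ℂ) := by
      ext w
      exact fourier_abs w
    rw [h]
    exact int_inv.ofReal
  · rw [abs_of_pos (Real.exp_pos _)]
    apply Real.exp_le_one_iff.2
    have := abs_nonneg x
    linarith

theorem nice_gau {e : ℝ} (he : 0 < e) : Nice fun x => Real.exp (-x / 2 - e * x ^ 2) := by
  have hpi : (Real.pi : ℂ) ≠ 0 := by exact_mod_cast Real.pi_ne_zero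
  have hfun : (fun x : ℝ => ((Real.exp (-x / 2 - e * x ^ 2) : ℝ) : ℂ)) =
      fun x : ℝ => Complex.exp (-Real.pi * ((e / Real.pi : ℝ) : ℂ) * x ^ 2 +
        2 * Real.pi * ((-1 / (4 * Real.pi) : ℝ) : ℂ) * x) := by
    ext x
    rw [Complex.ofReal_exp]
    congr 1
    push_cast
    field_simp
    ring
  have hb : 0 < (((e / Real.pi : ℝ) : ℂ)).re := by
    rw [Complex.ofReal_re]
    positivity
  refine ⟨by fun_prop, ?_, ?_, Real.exp (1 / (16 * e)), fun x => ?_⟩
  · have h1 := integrable_cexp_quadratic' (b := ((-e : ℝ) : ℂ)) (by simpa using he)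
      ((-1 / 2 : ℝ) : ℂ) 0
    have h2 := h1.re
    refine h2.congr (Eventually.of_forall fun x => ?_)
    have h3 : Complex.exp (((-e : ℝ) : ℂ) * (x : ℂ) ^ 2 + ((-1 / 2 : ℝ) : ℂ) * x + 0) =
        ((Real.exp (-x / 2 - e * x ^ 2) : ℝ) : ℂ) := by
      rw [Complex.ofReal_exp]
      congr 1
      push_cast
      ring
    simp only
    rw [h3]
    exact Complex.ofReal_re _
  · rw [hfun, fourier_gaussian_pi' hb]
    refine Integrable.const_mul ?_ _
    have h1 := integrable_cexp_quadratic'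
      (b := -Real.pi / ((e / Real.pi : ℝ) : ℂ)) (by
        have : -(Real.pi : ℂ) / ((e / Real.pi : ℝ) : ℂ) =
            ((-Real.pi / (e / Real.pi) : ℝ) : ℂ) := by push_cast; ring
        rw [this, Complex.ofReal_re]
        have h2 : 0 < Real.pi / (e / Real.pi) := by positivity
        rw [neg_div]
        linarith)
      (-Real.pi / ((e / Real.pi : ℝ) : ℂ) * (2 * Complex.I * ((-1 / (4 * Real.pi) : ℝ) : ℂ)))
      (-Real.pi / ((e / Real.pi : ℝ) : ℂ) * (Complex.I * ((-1 / (4 * Real.pi) : ℝ) : ℂ)) ^ 2)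
    refine h1.congr (Eventually.of_forall fun t => ?_)
    simp only
    congr 1
    ring
  · rw [abs_of_pos (Real.exp_pos _)]
    apply Real.exp_le_exp.2
    have h1 : -x / 2 - e * x ^ 2 = 1 / (16 * e) - e * (x + 1 / (4 * e)) ^ 2 := by
      field_simp
      ring
    rw [h1]
    have : 0 ≤ e * (x + 1 / (4 * e)) ^ 2 := by positivity
    linarith

theorem gau_lim (σ : ℝ) :
    Tendsto (fun e : ℝ => ∫ x, Real.exp (-x / 2 - e * x ^ 2) ∂(gsn σ)) (𝓝[>] 0)
      (𝓝 (Real.exp (σ ^ 2 / 8))) := by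
  have hint : Integrable (fun x : ℝ => Real.exp (-(1 / 2) * x)) (gsn σ) :=
    integrable_exp_mul_gaussianReal _
  have hval : ∫ x, Real.exp (-(1 / 2) * x) ∂(gsn σ) = Real.exp (σ ^ 2 / 8) := by
    have h1 := congrFun (mgf_id_gaussianReal (μ := 0) (v := (σ ^ 2).toNNReal)) (-(1 / 2))
    unfold mgf at h1
    simp only [id_eq] at h1
    unfold gsn
    rw [h1, tnn]
    congr 1
    ring
  rw [← hval]
  refine tendsto_integral_filter_of_dominated_convergence (fun x => Real.exp (-(1 / 2) * x))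
    ?_ ?_ hint ?_
  · exact Eventually.of_forall fun e => by
      apply Continuous.aestronglyMeasurable
      fun_prop
  · filter_upwards [self_mem_nhdsWithin] with e he
    refine Eventually.of_forall fun x => ?_
    have he' : 0 < e := he
    rw [Real.norm_of_nonneg (Real.exp_pos _).le]
    apply Real.exp_le_exp.2
    have : 0 ≤ e * x ^ 2 := by positivity
    linarith
  · refine Eventually.of_forall fun x => ?_
    have h1 : Tendsto (fun e : ℝ => Real.exp (-x / 2 - e * x ^ 2)) (𝓝 0)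
        (𝓝 (Real.exp (-x / 2 - 0 * x ^ 2))) := by
      apply Continuous.tendsto
      fun_prop
    have h2 := h1.mono_left (nhdsWithin_le_nhds (s := Ioi (0 : ℝ)))
    have h3 : Real.exp (-x / 2 - 0 * x ^ 2) = Real.exp (-(1 / 2) * x) := by
      congr 1
      ring
    rwa [h3] at h2

/-- the limiting acceptance rate `2 Φ(-σ/2)` -/
noncomputable def abar (σ : ℝ) : ℝ := 2 * cdf (gaussianReal 0 1) (-σ / 2)

theorem abar_eq {σ : ℝ} (hσ : 0 < σ) :
    Real.exp (-σ ^ 2 / 8) * ∫ x, Real.exp (-|x| / 2) ∂(gsn σ) = abar σ := by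
  set v : ℝ≥0 := (σ ^ 2).toNNReal with hv
  have hvc : (v : ℝ) = σ ^ 2 := tnn
  have hv0 : v ≠ 0 := by
    intro h
    rw [h] at hvc
    have : 0 < σ ^ 2 := by positivity
    rw [NNReal.coe_zero] at hvc
    linarith
  -- the two Gaussian masses
  have m1 : (gaussianReal ((v : ℝ) / 2) v).real (Iic 0) = cdf (gaussianReal 0 1) (-σ / 2) := by
    have h1 : gaussianReal ((v : ℝ) / 2) v =
        ((gaussianReal 0 1).map (σ * ·)).map (· + (v : ℝ) / 2) := by
      rw [gaussianReal_map_const_mul, gaussianReal_map_add_const]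
      congr 1
      · ring
      · ext
        simp [hvc]
    rw [h1, Measure.map_map (by fun_prop) (by fun_prop), map_measureReal_apply (by fun_prop)
      measurableSet_Iic, cdf_eq_real]
    congr 1
    ext x
    simp only [Function.comp, mem_preimage, mem_Iic]
    rw [hvc]
    constructor
    · intro h
      have h2 : σ * (x + σ / 2) ≤ 0 := by nlinarith
      have h3 : x + σ / 2 ≤ 0 := by
        by_contra hc
        push Not at hc
        have : 0 < σ * (x + σ / 2) := by positivity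
        linarith
      linarith
    · intro h
      have h3 : x + σ / 2 ≤ 0 := by linarith
      have h4 : σ * (x + σ / 2) ≤ 0 := mul_nonpos_of_nonneg_of_nonpos hσ.le h3
      nlinarith
  have m2 : (gaussianReal (-((v : ℝ) / 2)) v).real (Ioi 0) = cdf (gaussianReal 0 1) (-σ / 2) := by
    rw [← m1]
    have h1 : gaussianReal (-((v : ℝ) / 2)) v = (gaussianReal ((v : ℝ) / 2) v).map (fun x => -x) := by
      rw [gaussianReal_map_neg]
    rw [h1, map_measureReal_apply (by fun_prop) measurableSet_Ioi]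
    have h2 : (fun x : ℝ => -x) ⁻¹' (Ioi 0) = Iio 0 := by
      ext x
      simp
    rw [h2]
    have := nullSingletonClass_gaussianReal (μ := (v : ℝ) / 2) hv0
    exact measureReal_congr Iio_ae_eq_Iic
  -- densities
  have d1 : ∀ x : ℝ, gaussianPDFReal 0 v x * Real.exp (x / 2) =
      Real.exp (σ ^ 2 / 8) * gaussianPDFReal ((v : ℝ) / 2) v x := by
    intro x
    unfold gaussianPDFReal
    rw [hvc]
    have : ∀ A B C D : ℝ, B + C = D → A * Real.exp B * Real.exp C = A * Real.exp D := by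
      intro A B C D h
      rw [mul_assoc, ← Real.exp_add, h]
    have h2 : ∀ A B D E : ℝ, D = E + B → A * Real.exp D = Real.exp E * (A * Real.exp B) := by
      intro A B D E h
      rw [h, Real.exp_add]
      ring
    rw [this _ _ _ (-(x - 0) ^ 2 / (2 * σ ^ 2) + x / 2) rfl]
    apply h2
    field_simp
    ring
  have d2 : ∀ x : ℝ, gaussianPDFReal 0 v x * Real.exp (-x / 2) =
      Real.exp (σ ^ 2 / 8) * gaussianPDFReal (-((v : ℝ) / 2)) v x := by
    intro x
    unfold gaussianPDFReal
    rw [hvc]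
    have : ∀ A B C D : ℝ, B + C = D → A * Real.exp B * Real.exp C = A * Real.exp D := by
      intro A B C D h
      rw [mul_assoc, ← Real.exp_add, h]
    have h2 : ∀ A B D E : ℝ, D = E + B → A * Real.exp D = Real.exp E * (A * Real.exp B) := by
      intro A B D E h
      rw [h, Real.exp_add]
      ring
    rw [this _ _ _ (-(x - 0) ^ 2 / (2 * σ ^ 2) + -x / 2) rfl]
    apply h2
    field_simp
    ring
  have p1 : ∀ m : ℝ, ∀ s : Set ℝ, MeasurableSet s →
      ∫ x in s, gaussianPDFReal m v x = (gaussianReal m v).real s := by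
    intro m s _
    rw [measureReal_def, gaussianReal_apply_eq_integral m hv0 s, ENNReal.toReal_ofReal]
    exact integral_nonneg fun x => gaussianPDFReal_nonneg m v x
  have e1 : EqOn (fun x : ℝ => Real.exp (σ ^ 2 / 8) * gaussianPDFReal ((v : ℝ) / 2) v x)
      (fun x : ℝ => gaussianPDFReal 0 v x • Real.exp (-|x| / 2)) (Iic 0) := by
    intro x hx
    have hx' : x ≤ 0 := hx
    simp only [smul_eq_mul]
    rw [← d1, abs_of_nonpos hx', neg_neg]
  have e2 : EqOn (fun x : ℝ => Real.exp (σ ^ 2 / 8) * gaussianPDFReal (-((v : ℝ) / 2)) v x)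
      (fun x : ℝ => gaussianPDFReal 0 v x • Real.exp (-|x| / 2)) (Ioi 0) := by
    intro x hx
    have hx' : 0 < x := hx
    simp only [smul_eq_mul]
    rw [← d2, abs_of_pos hx']
  have i1 := ((integrable_gaussianPDFReal ((v : ℝ) / 2) v).const_mul
    (Real.exp (σ ^ 2 / 8))).integrableOn.congr_fun e1 measurableSet_Iic
  have i2 := ((integrable_gaussianPDFReal (-((v : ℝ) / 2)) v).const_mul
    (Real.exp (σ ^ 2 / 8))).integrableOn.congr_fun e2 measurableSet_Ioi
  have hmain : ∫ x, Real.exp (-|x| / 2) ∂(gsn σ) = Real.exp (σ ^ 2 / 8) * abar σ := by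
    unfold gsn
    rw [← hv, integral_gaussianReal_eq_integral_smul hv0, ← setIntegral_univ,
      ← Iic_union_Ioi (a := (0 : ℝ)),
      setIntegral_union (Set.Iic_disjoint_Ioi le_rfl) measurableSet_Ioi i1 i2,
      ← setIntegral_congr_fun measurableSet_Iic e1, ← setIntegral_congr_fun measurableSet_Ioi e2,
      integral_const_mul, integral_const_mul, p1 _ _ measurableSet_Iic, p1 _ _ measurableSet_Ioi,
      m1, m2]
    unfold abar
    ring
  rw [hmain, ← mul_assoc, ← Real.exp_add]
  have : -σ ^ 2 / 8 + σ ^ 2 / 8 = 0 := by ring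
  rw [this, Real.exp_zero, one_mul]

theorem abar_pos (σ : ℝ) : 0 < abar σ := by
  unfold abar
  rw [cdf_eq_real]
  have h1 : (gaussianReal 0 1) (Iic (-σ / 2)) ≠ 0 := by
    intro h
    have h2 := gaussianReal_absolutelyContinuous' 0 (one_ne_zero : (1 : ℝ≥0) ≠ 0) h
    rw [Real.volume_Iic] at h2
    exact ENNReal.top_ne_zero h2
  have h2 : 0 < (gaussianReal 0 1).real (Iic (-σ / 2)) := by
    rw [measureReal_def]
    exact ENNReal.toReal_pos h1 (measure_ne_top _ _)
  linarith

end Pool.Agent.Lib.MP_e19099_pr
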