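import Pool.Agent.Lib.MP_e19099_pr.Tgt

/-!
# Test functions (task A2)

For a `C¹` function `q` with compact support and `a : ℝ` put `v = vf p q a = a + ∫₀ˣ q/p`, so `p v' = q`, and
`L v = gen h p q = (h/2) q'/p`.  `q/p` is continuous with compact support, so `v` is `C¹`, bounded and Lipschitz.
`core_ibp`: with `integral_tgt` the claim is `∫ q w' = - ∫ q' w` for absolutely continuous `w` (that is
`w b - w a = ∫_a^b w'`, `w'` locally integrable) and `q` `C¹` with compact support in `[-A, A]`: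
integration by parts on `[-A, A]` (`intervalIntegral.integral_mul_deriv_eq_deriv_mul` needs derivatives everywhere;
alternatively write `w x = w(-A) + ∫_{-A}^x w'` and use Fubini: `∫_{-A}^A q'(x) ∫_{-A}^x w'(t) dt dx
= ∫_{-A}^A w'(t) (q(A) - q(t)) dt = - ∫ q w'`).
-/

set_option autoImplicit false

open MeasureTheory ProbabilityTheory Filter Set
open scoped NNReal Topology ENNReal

namespace Pool.Agent.Lib.MP_e19099_pr

/-- `q` is a `C¹` function with compact support. -/
structure IsTest (q : ℝ → ℝ) : Prop where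
  smooth : ContDiff ℝ 1 q
  supp : HasCompactSupport q

/-- the test function `v = a + ∫₀ˣ q/p` -/
noncomputable def vf (p q : ℝ → ℝ) (a x : ℝ) : ℝ := a + ∫ t in (0 : ℝ)..x, q t / p t

/-- the generator applied to `vf p q a` -/
noncomputable def gen (h : ℝ) (p q : ℝ → ℝ) (x : ℝ) : ℝ := h / 2 * (deriv q x / p x)

variable {p q : ℝ → ℝ}

theorem qp_cont (hp : Dens p) (hq : IsTest q) : Continuous fun x => q x / p x :=
  hq.smooth.continuous.div hp.cont fun x => (hp.pos x).ne'

theorem qp_supp (hq : IsTest q) : HasCompactSupport fun x => q x / p x := by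
  have h := hq.supp.mul_right (f' := fun x => (p x)⁻¹)
  have e : (fun x => q x / p x) = q * fun x => (p x)⁻¹ := by
    funext x
    simp [div_eq_mul_inv]
  rw [e]
  exact h

theorem vf_deriv (hp : Dens p) (hq : IsTest q) (a x : ℝ) :
    HasDerivAt (vf p q a) (q x / p x) x := by
  have hc := qp_cont hp hq
  have h := intervalIntegral.integral_hasDerivAt_right (hc.intervalIntegrable 0 x)
    (hc.stronglyMeasurableAtFilter _ _) hc.continuousAt
  exact h.const_add a

theorem vf_cont (hp : Dens p) (hq : IsTest q) (a : ℝ) : Continuous (vf p q a) :=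
  continuous_iff_continuousAt.mpr fun x => (vf_deriv hp hq a x).continuousAt

theorem vf_bdd (hp : Dens p) (hq : IsTest q) (a : ℝ) : ∃ C, ∀ x, |vf p q a x| ≤ C := by
  have hc := qp_cont hp hq
  have hi : Integrable fun x => q x / p x := hc.integrable_of_hasCompactSupport (qp_supp hq)
  refine ⟨|a| + ∫ x, ‖q x / p x‖, fun x => ?_⟩
  have h1 : ‖∫ t in (0 : ℝ)..x, q t / p t‖ ≤ ∫ x, ‖q x / p x‖ := by
    refine (intervalIntegral.norm_integral_le_integral_norm_uIoc).trans ?_
    exact setIntegral_le_integral hi.norm (Filter.Eventually.of_forall fun x => norm_nonneg _)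
  rw [Real.norm_eq_abs] at h1
  exact (abs_add_le _ _).trans (by linarith)

theorem vf_lip (hp : Dens p) (hq : IsTest q) (a : ℝ) :
    ∃ C, 0 ≤ C ∧ ∀ x y, |vf p q a x - vf p q a y| ≤ C * |x - y| := by
  have hc := qp_cont hp hq
  obtain ⟨C, hC⟩ := hc.bounded_above_of_compact_support (qp_supp hq)
  refine ⟨C, (norm_nonneg _).trans (hC 0), fun x y => ?_⟩
  have h1 := Convex.norm_image_sub_le_of_norm_hasDerivWithin_le (f := vf p q a)
    (f' := fun x => q x / p x) (s := Set.univ) (x := y) (y := x) (C := C)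
    (fun z _ => (vf_deriv hp hq a z).hasDerivWithinAt) (fun z _ => hC z) convex_univ
    (Set.mem_univ _) (Set.mem_univ _)
  simpa [Real.norm_eq_abs] using h1

theorem gen_cont (hp : Dens p) (hq : IsTest q) (h : ℝ) : Continuous (gen h p q) :=
  continuous_const.mul ((hq.smooth.continuous_deriv le_rfl).div hp.cont fun x => (hp.pos x).ne')

theorem gen_supp (hq : IsTest q) (h : ℝ) : HasCompactSupport (gen h p q) := by
  have h1 := (hq.supp.deriv).mul_right (f' := fun x => h / 2 * (p x)⁻¹)
  have e : gen h p q = deriv q * fun x => h / 2 * (p x)⁻¹ := by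
    funext x
    simp only [gen, Pi.mul_apply, div_eq_mul_inv]
    ring
  rw [e]
  exact h1

theorem gen_bdd (hp : Dens p) (hq : IsTest q) (h : ℝ) : ∃ C, ∀ x, |gen h p q x| ≤ C := by
  obtain ⟨C, hC⟩ := (gen_cont hp hq h).bounded_above_of_compact_support (gen_supp hq h)
  exact ⟨C, fun x => by simpa [Real.norm_eq_abs] using hC x⟩

theorem vf_dom (hp : Dens p) (hq : IsTest q) (a : ℝ) :
    Dom (tgt p) (vf p q a) (fun x => q x / p x) where
  loc := fun a b => (qp_cont hp hq).intervalIntegrable a b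
  ftc := fun b c => by
    have hc := qp_cont hp hq
    have h := intervalIntegral.integral_eq_sub_of_hasDerivAt (a := b) (b := c)
      (fun x _ => vf_deriv hp hq a x) (hc.intervalIntegrable b c)
    exact h.symm
  l2 := by
    obtain ⟨C, hC⟩ := vf_bdd hp hq a
    exact memLp_bdd hp (vf_cont hp hq a).measurable hC
  l2' := by
    obtain ⟨C, hC⟩ := (qp_cont hp hq).bounded_above_of_compact_support (qp_supp hq)
    exact memLp_bdd hp (qp_cont hp hq).measurable hC

theorem core_ibp (hp : Dens p) (hq : IsTest q) {w w' : ℝ → ℝ} (hw : Dom (tgt p) w w') :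
    ∫ x, (q x / p x) * w' x ∂(tgt p) = - ∫ x, (deriv q x / p x) * w x ∂(tgt p) := by
  have e1 : ∫ x, (q x / p x) * w' x ∂(tgt p) = ∫ x, q x * w' x := by
    rw [integral_tgt hp]
    refine integral_congr_ae (Filter.Eventually.of_forall fun x => ?_)
    have := (hp.pos x).ne'
    simp only
    field_simp
  have e2 : ∫ x, (deriv q x / p x) * w x ∂(tgt p) = ∫ x, deriv q x * w x := by
    rw [integral_tgt hp]
    refine integral_congr_ae (Filter.Eventually.of_forall fun x => ?_)
    have := (hp.pos x).ne'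
    simp only
    field_simp
  rw [e1, e2]
  obtain ⟨A, hA0, hA⟩ := hq.supp.isCompact.isBounded.subset_ball_lt 0 0
  have hA' : tsupport q ⊆ Ioo (-A) A := by
    rw [Real.ball_eq_Ioo, zero_sub, zero_add] at hA
    exact hA
  have hqz : ∀ x, x ∉ Ioo (-A) A → q x = 0 := fun x hx => by
    by_contra hne
    exact hx (hA' (subset_tsupport q hne))
  have hqA : q A = 0 := hqz A (by simp)
  have hqA' : q (-A) = 0 := hqz (-A) (by simp)
  have s1 : Function.support (fun x => q x * w' x) ⊆ Ioc (-A) A := by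
    intro x hx
    have h1 : q x ≠ 0 := fun hc => hx (by simp [hc])
    exact Ioo_subset_Ioc_self (hA' (subset_tsupport q h1))
  have s2 : Function.support (fun x => deriv q x * w x) ⊆ Ioc (-A) A := by
    intro x hx
    have h1 : deriv q x ≠ 0 := fun hc => hx (by simp [hc])
    exact Ioo_subset_Ioc_self (hA' (support_deriv_subset h1))
  rw [← intervalIntegral.integral_eq_integral_of_support_subset s1,
    ← intervalIntegral.integral_eq_integral_of_support_subset s2]
  -- `w` is absolutely continuous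
  have hw1 : AbsolutelyContinuousOnInterval (fun x => ∫ t in (-A)..x, w' t) (-A) A :=
    (hw.loc (-A) A).absolutelyContinuousOnInterval_intervalIntegral left_mem_uIcc
  have hq1 : AbsolutelyContinuousOnInterval q (-A) A :=
    hq.smooth.contDiffOn.absolutelyContinuousOnInterval
  have h3 := hq1.integral_mul_deriv_eq_deriv_mul hw1
  have h4 : ∫ x in (-A)..A, q x * deriv (fun x => ∫ t in (-A)..x, w' t) x
      = ∫ x in (-A)..A, q x * w' x := by
    apply intervalIntegral.integral_congr_ae
    filter_upwards [(hw.loc (-A) A).ae_hasDerivAt_integral] with x hx hx2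
    rw [(hx (uIoc_subset_uIcc hx2) (-A) left_mem_uIcc).deriv]
  have h5 : ∫ x in (-A)..A, deriv q x * (∫ t in (-A)..x, w' t)
      = ∫ x in (-A)..A, deriv q x * w x := by
    have h6 : ∀ x, deriv q x * (∫ t in (-A)..x, w' t)
        = deriv q x * w x - deriv q x * w (-A) := by
      intro x
      rw [← hw.ftc]
      ring
    have hdq : Continuous (deriv q) := hq.smooth.continuous_deriv le_rfl
    have hwc : ContinuousOn w (uIcc (-A) A) := by
      have h7 : w = fun x => w (-A) + ∫ t in (-A)..x, w' t := by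
        funext x
        rw [← hw.ftc]
        ring
      rw [h7]
      exact continuousOn_const.add hw1.continuousOn
    rw [intervalIntegral.integral_congr (fun x _ => h6 x), intervalIntegral.integral_sub,
      intervalIntegral.integral_mul_const,
      intervalIntegral.integral_deriv_eq_sub (fun x _ => (hq.smooth.differentiable (by simp)) x)
        (hdq.intervalIntegrable _ _), hqA, hqA']
    · ring
    · exact (hdq.continuousOn.mul hwc).intervalIntegrable
    · exact (hdq.mul continuous_const).intervalIntegrable _ _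
  rw [h4, h5, hqA, hqA'] at h3
  rw [h3]
  ring

theorem isTest_sub {q₁ q₂ : ℝ → ℝ} (h₁ : IsTest q₁) (h₂ : IsTest q₂) :
    IsTest (fun x => q₁ x - q₂ x) :=
  ⟨h₁.smooth.sub h₂.smooth, h₁.supp.sub h₂.supp⟩

theorem isTest_comb {q₁ q₂ : ℝ → ℝ} (h₁ : IsTest q₁) (h₂ : IsTest q₂) (c₁ c₂ : ℝ) :
    IsTest (fun x => c₁ * q₁ x + c₂ * q₂ x) :=
  ⟨(contDiff_const.mul h₁.smooth).add (contDiff_const.mul h₂.smooth),
    (h₁.supp.mul_left (f := fun _ => c₁)).add (h₂.supp.mul_left (f := fun _ => c₂))⟩

theorem vf_comb (hp : Dens p) {q₁ q₂ : ℝ → ℝ} (h₁ : IsTest q₁) (h₂ : IsTest q₂)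
    (a₁ a₂ c₁ c₂ x : ℝ) :
    vf p (fun x => c₁ * q₁ x + c₂ * q₂ x) (c₁ * a₁ + c₂ * a₂) x
      = c₁ * vf p q₁ a₁ x + c₂ * vf p q₂ a₂ x := by
  unfold vf
  have e : ∫ t in (0 : ℝ)..x, (c₁ * q₁ t + c₂ * q₂ t) / p t
      = c₁ * (∫ t in (0 : ℝ)..x, q₁ t / p t) + c₂ * ∫ t in (0 : ℝ)..x, q₂ t / p t := by
    rw [← intervalIntegral.integral_const_mul, ← intervalIntegral.integral_const_mul,
      ← intervalIntegral.integral_add]
    · refine intervalIntegral.integral_congr fun t _ => ?_
      ring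
    · exact ((qp_cont hp h₁).const_mul _).intervalIntegrable _ _
    · exact ((qp_cont hp h₂).const_mul _).intervalIntegrable _ _
  rw [e]
  ring

theorem gen_comb {q₁ q₂ : ℝ → ℝ} (h₁ : IsTest q₁) (h₂ : IsTest q₂) (c₁ c₂ h x : ℝ) :
    gen h p (fun x => c₁ * q₁ x + c₂ * q₂ x) x = c₁ * gen h p q₁ x + c₂ * gen h p q₂ x := by
  have d1 : HasDerivAt q₁ (deriv q₁ x) x := (h₁.smooth.differentiable (by simp) x).hasDerivAt
  have d2 : HasDerivAt q₂ (deriv q₂ x) x := (h₂.smooth.differentiable (by simp) x).hasDerivAt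
  have d3 := ((d1.const_mul c₁).add (d2.const_mul c₂)).deriv
  have e : deriv (fun x => c₁ * q₁ x + c₂ * q₂ x) x = c₁ * deriv q₁ x + c₂ * deriv q₂ x := d3
  unfold gen
  rw [e]
  ring

theorem vf_sub (hp : Dens p) {q₁ q₂ : ℝ → ℝ} (h₁ : IsTest q₁) (h₂ : IsTest q₂) (a₁ a₂ x : ℝ) :
    vf p (fun x => q₁ x - q₂ x) (a₁ - a₂) x = vf p q₁ a₁ x - vf p q₂ a₂ x := by
  have h := vf_comb hp h₁ h₂ a₁ a₂ 1 (-1) x
  have e1 : (fun x => (1 : ℝ) * q₁ x + -1 * q₂ x) = fun x => q₁ x - q₂ x := by
    funext x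
    ring
  have e2 : (1 : ℝ) * a₁ + -1 * a₂ = a₁ - a₂ := by ring
  rw [e1, e2] at h
  rw [h]
  ring

theorem gen_sub {q₁ q₂ : ℝ → ℝ} (h₁ : IsTest q₁) (h₂ : IsTest q₂) (h x : ℝ) :
    gen h p (fun x => q₁ x - q₂ x) x = gen h p q₁ x - gen h p q₂ x := by
  have h3 := gen_comb (p := p) h₁ h₂ 1 (-1) h x
  have e1 : (fun x => (1 : ℝ) * q₁ x + -1 * q₂ x) = fun x => q₁ x - q₂ x := by
    funext x
    ring
  rw [e1] at h3
  rw [h3]
  ring

end Pool.Agent.Lib.MP_e19099_pr
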