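import Pool.Agent.Lib.MP_e19099_pr.Tgt

/-!
# The discrete resolvent (task A10)

`kop K f x = ∫ f dK(x)`; `resv τ lam K f = τ ∑_{j ≥ 0} (1 + lam τ)^{-(j+1)} K^j f` solves
`(1 + lam τ) U = τ f + K U`.  For `kop_meas` use `StronglyMeasurable.integral_kernel` (or the kernel version of
`MeasureTheory.StronglyMeasurable.integral_prod_right`).  The series is dominated by a geometric series
(`∑ τ (1+lam τ)^{-(j+1)} C = C / lam`), `kop` commutes with the sum by `integral_tsum` / `hasSum_integral_of_summable_integral_norm`.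
-/

set_option autoImplicit false

open MeasureTheory ProbabilityTheory Filter Set
open scoped NNReal Topology ENNReal

namespace Pool.Agent.Lib.MP_e19099_pr

variable {E : Type*} [MeasurableSpace E]

/-- the transition operator `f ↦ ∫ f dK(x)` -/
noncomputable def kop (K : Kernel E E) (f : E → ℝ) (x : E) : ℝ := ∫ y, f y ∂(K x)

/-- the discrete resolvent `τ ∑_{j ≥ 0} (1 + lam τ)^{-(j+1)} K^j f` -/
noncomputable def resv (τ lam : ℝ) (K : Kernel E E) (f : E → ℝ) (x : E) : ℝ :=
  ∑' j : ℕ, τ * ((1 + lam * τ) ^ (j + 1))⁻¹ * (kop K)^[j] f x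

/-- `f` is measurable and bounded by `C` -/
structure MB {E : Type*} [MeasurableSpace E] (C : ℝ) (f : E → ℝ) : Prop where
  meas : Measurable f
  bdd : ∀ x, |f x| ≤ C

variable {K : Kernel E E} {C τ lam : ℝ} {f : E → ℝ}

theorem MB.nonneg (hf : MB C f) (x : E) : 0 ≤ C := le_trans (abs_nonneg _) (hf.bdd x)

theorem kop_mb [IsMarkovKernel K] (hf : MB C f) : MB C (kop K f) := by
  refine ⟨(hf.meas.stronglyMeasurable.integral_kernel (κ := K)).measurable, fun x => ?_⟩
  have h := norm_integral_le_of_norm_le_const (μ := K x) (f := f) (C := C)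
    (Filter.Eventually.of_forall hf.bdd)
  simpa [kop] using h

theorem kop_iter_mb [IsMarkovKernel K] (hf : MB C f) (j : ℕ) : MB C ((kop K)^[j] f) := by
  induction j with
  | zero => exact hf
  | succ j ih =>
    rw [Function.iterate_succ_apply']
    exact kop_mb ih

/-- the weights of the resolvent sum to `1 / lam` -/
theorem weights_sum (hτ : 0 < τ) (hlam : 0 < lam) :
    HasSum (fun j : ℕ => τ * ((1 + lam * τ) ^ (j + 1))⁻¹) (1 / lam) := by
  have h0 : 0 < lam * τ := mul_pos hlam hτ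
  have h1 : 0 < 1 + lam * τ := by linarith
  have hr1 : (1 + lam * τ)⁻¹ < 1 := inv_lt_one_of_one_lt₀ (by linarith)
  have h := (hasSum_geometric_of_lt_one (inv_nonneg.2 h1.le) hr1).mul_left
    (τ * (1 + lam * τ)⁻¹)
  have e1 : τ * (1 + lam * τ)⁻¹ * (1 - (1 + lam * τ)⁻¹)⁻¹ = 1 / lam := by
    have h2 : 1 - (1 + lam * τ)⁻¹ = lam * τ / (1 + lam * τ) := by
      field_simp
      ring
    rw [h2]
    field_simp
  rw [e1] at h
  have e2 : (fun j : ℕ => τ * ((1 + lam * τ) ^ (j + 1))⁻¹)
      = fun j : ℕ => τ * (1 + lam * τ)⁻¹ * (1 + lam * τ)⁻¹ ^ j := by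
    funext j
    rw [inv_pow, pow_succ, mul_inv]
    ring
  rw [e2]
  exact h

private theorem term_bound [IsMarkovKernel K] (hτ : 0 < τ) (hlam : 0 < lam) (hf : MB C f) (j : ℕ)
    (x : E) : ‖τ * ((1 + lam * τ) ^ (j + 1))⁻¹ * (kop K)^[j] f x‖
      ≤ C * (τ * ((1 + lam * τ) ^ (j + 1))⁻¹) := by
  have h1 : 0 < 1 + lam * τ := by
    have := mul_pos hlam hτ
    linarith
  have hw : 0 ≤ τ * ((1 + lam * τ) ^ (j + 1))⁻¹ := by positivity
  rw [norm_mul, Real.norm_of_nonneg hw, mul_comm C]
  exact mul_le_mul_of_nonneg_left ((kop_iter_mb hf j).bdd x) hw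

private theorem term_summable [IsMarkovKernel K] (hτ : 0 < τ) (hlam : 0 < lam) (hf : MB C f)
    (x : E) : Summable (fun j : ℕ => τ * ((1 + lam * τ) ^ (j + 1))⁻¹ * (kop K)^[j] f x) :=
  Summable.of_norm_bounded ((weights_sum hτ hlam).mul_left C).summable
    fun j => term_bound hτ hlam hf j x

theorem resv_mb [IsMarkovKernel K] (hτ : 0 < τ) (hlam : 0 < lam) (hf : MB C f) :
    MB (C / lam) (resv τ lam K f) := by
  constructor
  · refine measurable_of_tendsto_metrizable
      (f := fun (n : ℕ) (x : E) => ∑ j ∈ Finset.range n,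
        τ * ((1 + lam * τ) ^ (j + 1))⁻¹ * (kop K)^[j] f x) (g := resv τ lam K f) ?_ ?_
    · intro n
      exact Finset.measurable_sum _ fun j _ => (kop_iter_mb hf j).meas.const_mul _
    · rw [tendsto_pi_nhds]
      intro x
      exact (term_summable hτ hlam hf x).hasSum.tendsto_sum_nat
  · intro x
    have h := tsum_of_norm_bounded ((weights_sum hτ hlam).mul_left C)
      fun j => term_bound (K := K) hτ hlam hf j x
    rw [mul_one_div] at h
    exact h

theorem resv_eq [IsMarkovKernel K] (hτ : 0 < τ) (hlam : 0 < lam) (hf : MB C f) (x : E) :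
    (1 + lam * τ) * resv τ lam K f x = τ * f x + kop K (resv τ lam K f) x := by
  have h1 : 0 < 1 + lam * τ := by
    have := mul_pos hlam hτ
    linarith
  have hint : ∀ j : ℕ, Integrable
      (fun y => τ * ((1 + lam * τ) ^ (j + 1))⁻¹ * (kop K)^[j] f y) (K x) := by
    intro j
    refine Integrable.of_bound (C := C * (τ * ((1 + lam * τ) ^ (j + 1))⁻¹)) ?_ ?_
    · exact ((kop_iter_mb hf j).meas.const_mul _).aestronglyMeasurable
    · exact Filter.Eventually.of_forall fun y => term_bound hτ hlam hf j y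
  have hsum : Summable (fun j : ℕ =>
      ∫ y, ‖τ * ((1 + lam * τ) ^ (j + 1))⁻¹ * (kop K)^[j] f y‖ ∂(K x)) := by
    refine Summable.of_nonneg_of_le (fun j => integral_nonneg fun y => norm_nonneg _)
      (fun j => ?_) ((weights_sum hτ hlam).mul_left C).summable
    have h2 : ∫ y, ‖τ * ((1 + lam * τ) ^ (j + 1))⁻¹ * (kop K)^[j] f y‖ ∂(K x)
        ≤ ∫ _y, C * (τ * ((1 + lam * τ) ^ (j + 1))⁻¹) ∂(K x) :=
      integral_mono (hint j).norm (integrable_const _) fun y => term_bound hτ hlam hf j y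
    simpa using h2
  have hk : kop K (resv τ lam K f) x
      = ∑' j : ℕ, τ * ((1 + lam * τ) ^ (j + 1))⁻¹ * (kop K)^[j + 1] f x := by
    unfold kop resv
    rw [← integral_tsum_of_summable_integral_norm hint hsum]
    refine tsum_congr fun j => ?_
    rw [integral_const_mul, Function.iterate_succ_apply']
    rfl
  have hs := term_summable (K := K) hτ hlam hf x
  have hl : (1 + lam * τ) * resv τ lam K f x
      = ∑' j : ℕ, τ * ((1 + lam * τ) ^ j)⁻¹ * (kop K)^[j] f x := by
    unfold resv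
    rw [← tsum_mul_left]
    refine tsum_congr fun j => ?_
    rw [pow_succ, mul_inv]
    field_simp
  have hs2 : Summable (fun j : ℕ => τ * ((1 + lam * τ) ^ j)⁻¹ * (kop K)^[j] f x) := by
    have h3 := hs.mul_left (1 + lam * τ)
    refine h3.congr fun j => ?_
    rw [pow_succ, mul_inv]
    field_simp
  rw [hl, hs2.tsum_eq_zero_add, hk]
  simp

end Pool.Agent.Lib.MP_e19099_pr
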