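import Pool.Agent.Lib.MP_e19099_pr.BCoord
import Pool.Agent.Lib.MP_e19099_pr.Core
import Pool.Agent.Lib.MP_e19099_pr.Disc

/-!
# The interface of module B

`BSetup p q l σ τ` collects the one-coordinate conditions on the target density `p` and the proposal densities `q n` under which the first coordinate of the
`(n+1)`-dimensional Metropolis-Hastings chain converges to the Langevin diffusion with speed `2 l² Φ(-σ/2)`.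
-/

set_option autoImplicit false

open MeasureTheory ProbabilityTheory Filter Set
open scoped NNReal Topology ENNReal

namespace Pool.Agent.Lib.MP_e19099_pr

/-- the first coordinate condition for the test function `v = vf p t a` -/
structure FC (p : ℝ → ℝ) (q : ℕ → ℝ → ℝ → ℝ) (l : ℝ) (τ : ℕ → ℝ) (t : ℝ → ℝ) (a : ℝ)
    (g : ℕ → ℝ × ℝ → ℝ) (C : ℝ) : Prop where
  meas : ∀ n, Measurable (g n)
  lip : ∀ n z, |g n z| ≤ C * |z.2 - z.1|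
  bdd : ∀ n z, |g n z| ≤ C
  close : Tendsto (fun n => (τ n)⁻¹ *
    ∫ z, (vf p t a z.2 - vf p t a z.1 - g n z) ^ 2 ∂(sm p (q n))) atTop (𝓝 0)
  tail : Tendsto (fun n => (τ n)⁻¹ *
    ∫ z in {z | 1 < |Rf p (q n) z|}, |g n z| ∂(sm p (q n))) atTop (𝓝 0)
  gen : ∀ ε : ℝ, 0 < ε → ∀ᶠ n in atTop, ∀ w : ℝ → ℝ, Measurable w → (∀ x, |w x| ≤ 1) →
    |1 / (2 * τ n) * ∫ z, g n z * (w z.2 - w z.1) ∂(sm p (q n))
      + l ^ 2 / 2 * ∫ x, w x * deriv t x| ≤ ε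

/-- the auxiliary symmetric measures with almost nonnegative kernels -/
structure Aux (p : ℝ → ℝ) (q : ℕ → ℝ → ℝ → ℝ) (s' : ℕ → Measure (ℝ × ℝ)) (δ η : ℕ → ℝ) :
    Prop where
  prob : ∀ n, IsProbabilityMeasure (s' n)
  swap : ∀ n, (s' n).map Prod.swap = s' n
  δlim : Tendsto δ atTop (𝓝 0)
  ηlim : Tendsto η atTop (𝓝 0)
  δpos : ∀ n, 0 ≤ δ n ∧ δ n ≤ 1
  close : ∀ n, ∀ F : ℝ × ℝ → ℝ, MB 1 F →
    |∫ z, F z ∂(sm p (q n)) - ∫ z, F z ∂(s' n)| ≤ η n / (n + 1)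
  psd : ∀ n, ∀ (C : ℝ) (f : ℝ → ℝ), MB C f →
    -(δ n) * ∫ z, f z.1 ^ 2 ∂(s' n) ≤ ∫ z, f z.1 * f z.2 ∂(s' n)

structure BSetup (p : ℝ → ℝ) (q : ℕ → ℝ → ℝ → ℝ) (l σ : ℝ) (τ : ℕ → ℝ) : Prop where
  dens : Dens p
  prop : ∀ n, IsProp (q n)
  lpos : 0 < l
  σpos : 0 < σ
  tpos : ∀ n, 0 < τ n
  tlim : Tendsto τ atTop (𝓝 0)
  int4 : ∀ n, Integrable fun z : ℝ × ℝ => (z.2 - z.1) ^ 4 * (p z.1 * q n z.1 z.2)
  mom : ∃ C : ℝ, ∀ n, ∫ z : ℝ × ℝ, (z.2 - z.1) ^ 4 * (p z.1 * q n z.1 z.2) ≤ C * τ n ^ 2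
  clt : ∀ t : ℝ, Tendsto (fun n : ℕ => ((n : ℝ) + 1) *
    ∫ z, (1 - Real.cos (t * Rf p (q n) z)) ∂(sm p (q n))) atTop (𝓝 (t ^ 2 * σ ^ 2 / 2))
  rsq : ∃ C : ℝ, ∀ n : ℕ, ((n : ℝ) + 1) * ∫ z, min 1 (Rf p (q n) z ^ 2) ∂(sm p (q n)) ≤ C
  zlim : Tendsto (fun n : ℕ => Zf p (q n) ^ (n + 1)) atTop (𝓝 (Real.exp (-σ ^ 2 / 8)))
  aux : ∃ (s' : ℕ → Measure (ℝ × ℝ)) (δ η : ℕ → ℝ), Aux p q s' δ η
  fc : ∀ t, IsTest t → ∀ a, ∃ g C, FC p q l τ t a g C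

end Pool.Agent.Lib.MP_e19099_pr
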