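import Pool.Agent.Lib.MP_e19099_pr.BSmall
import Pool.Agent.Lib.MP_e19099_pr.BAvgB

/-!
# Functions of bounded energy are slow (module B, B13)

`U n` is bounded by `M` with `Z^N ∫ e^{-|S|/2} (U(ys) - U(xs))² ds^N ≤ M τ` (`N = n+1`).
`slow_u`: `(∫ |ΔU| ds^N)² ≤ ∫ e^{-|S|/2} ΔU² · ∫ e^{|S|/2} ≤ (M τ Z^{-N}) (2 Z^{-N})` (`pi_exp`, `e^{|S|/2} ≤ e^{S/2} + e^{-S/2}`; `z_inv_bdd`).
`slow_mul`: `|Δ(U ψ(x₀))| ≤ C |ΔU| + M |ψ(y₀) - ψ(x₀)|`, `pi_zero` and `disp_lim`.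
-/

set_option autoImplicit false

open MeasureTheory ProbabilityTheory Filter Set
open scoped NNReal Topology ENNReal

namespace Pool.Agent.Lib.MP_e19099_pr

/-- bounded functions of bounded energy -/
structure BE (p : ℝ → ℝ) (q : ℕ → ℝ → ℝ → ℝ) (τ : ℕ → ℝ) (M : ℝ)
    (U : ∀ n : ℕ, (Fin (n + 1) → ℝ) → ℝ) : Prop where
  mb : ∀ n, MB M (U n)
  en : ∀ n : ℕ, Zf p (q n) ^ (n + 1) * ∫ w, Real.exp (-|Sn (Rf p (q n)) w| / 2)
    * (U n (ys w) - U n (xs w)) ^ 2 ∂(pw (sm p (q n)) (n + 1)) ≤ M * τ n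

variable {p : ℝ → ℝ} {q : ℕ → ℝ → ℝ → ℝ} {l σ : ℝ} {τ : ℕ → ℝ} {M : ℝ}
  {U : ∀ n : ℕ, (Fin (n + 1) → ℝ) → ℝ}

private theorem bw_pt {θ : ℝ} (hθ : 0 < θ) (S D : ℝ) :
    |D| ≤ θ / 2 * (Real.exp (-S / 2) + Real.exp (S / 2)) +
      1 / (2 * θ) * (Real.exp (-|S| / 2) * D ^ 2) := by
  have hE := Real.exp_pos (|S| / 2)
  have hF := Real.exp_pos (-|S| / 2)
  have hEF : Real.exp (|S| / 2) * Real.exp (-|S| / 2) = 1 := by
    rw [← Real.exp_add]
    have : |S| / 2 + -|S| / 2 = 0 := by ring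
    rw [this, Real.exp_zero]
  have hle : Real.exp (|S| / 2) ≤ Real.exp (-S / 2) + Real.exp (S / 2) := by
    rcases le_total 0 S with h | h
    · rw [abs_of_nonneg h]
      have := (Real.exp_pos (-S / 2)).le
      linarith
    · rw [abs_of_nonpos h]
      have := (Real.exp_pos (S / 2)).le
      linarith
  generalize Real.exp (|S| / 2) = E at *
  generalize Real.exp (-|S| / 2) = F at *
  have h1 : 0 ≤ (θ * E - |D|) ^ 2 * F / (2 * θ) := by positivity
  have h2 : (θ * E - |D|) ^ 2 * F / (2 * θ) = θ / 2 * E - |D| + 1 / (2 * θ) * (F * D ^ 2) := by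
    have h3 : (θ * E - |D|) ^ 2 * F = θ ^ 2 * E * (E * F) - 2 * θ * |D| * (E * F) + D ^ 2 * F := by
      rw [← sq_abs D]
      ring
    rw [h3, hEF]
    field_simp
  rw [h2] at h1
  have h4 : θ / 2 * E ≤ θ / 2 * (Real.exp (-S / 2) + Real.exp (S / 2)) :=
    mul_le_mul_of_nonneg_left hle (by positivity)
  linarith

private theorem bw_abs_int {E : Type*} [MeasurableSpace E] {μ : Measure E} [IsFiniteMeasure μ]
    {f : E → ℝ} {C : ℝ} (hf : MB C f) : Integrable f μ :=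
  Integrable.of_bound hf.meas.aestronglyMeasurable C (Eventually.of_forall hf.bdd)

theorem slow_u (B : BSetup p q l σ τ) (hU : BE p q τ M U) :
    Tendsto (fun n => ∫ w, |U n (ys w) - U n (xs w)| ∂(pw (sm p (q n)) (n + 1)))
      atTop (𝓝 0) := by
  obtain ⟨C', hC'⟩ := z_inv_bdd B
  have hM : 0 ≤ M := (abs_nonneg _).trans ((hU.mb 0).bdd (fun _ => 0))
  have hC0 : 0 ≤ C' := (inv_nonneg.2 (Zf_pos B.dens (B.prop 0)).le).trans (hC' 0).1
  have hmain : ∀ n, ∫ w, |U n (ys w) - U n (xs w)| ∂(pw (sm p (q n)) (n + 1)) ≤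
      (C' + M * C' / 2) * √(τ n) := by
    intro n
    have := sm_prob B.dens (B.prop n)
    have hZ := Zf_pos B.dens (B.prop n)
    have hZn : 0 < Zf p (q n) ^ (n + 1) := pow_pos hZ _
    have hτ := B.tpos n
    have hm := Rf_meas B.dens (B.prop n)
    obtain ⟨θ, hθ⟩ : ∃ θ, θ = √(τ n) := ⟨_, rfl⟩
    have hθ0 : 0 < θ := by rw [hθ]; exact Real.sqrt_pos.2 hτ
    have hθθ : θ * θ = τ n := by rw [hθ]; exact Real.mul_self_sqrt hτ.le
    obtain ⟨⟨i1, e1⟩, ⟨i2, e2⟩⟩ := pi_exp B n (n + 1)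
    have e3 := hU.en n
    have hUm := (hU.mb n).meas
    have hUb := (hU.mb n).bdd
    have hDm : Measurable fun w : Fin (n + 1) → ℝ × ℝ => U n (ys w) - U n (xs w) :=
      (hUm.comp ys_meas).sub (hUm.comp xs_meas)
    have hDb : ∀ w : Fin (n + 1) → ℝ × ℝ, |U n (ys w) - U n (xs w)| ≤ 2 * M := by
      intro w
      have h1 := hUb (ys w)
      have h2 := hUb (xs w)
      calc |U n (ys w) - U n (xs w)| ≤ |U n (ys w)| + |U n (xs w)| := abs_sub _ _
        _ ≤ 2 * M := by linarith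
    have i3 : Integrable (fun w : Fin (n + 1) → ℝ × ℝ =>
        Real.exp (-|Sn (Rf p (q n)) w| / 2) * (U n (ys w) - U n (xs w)) ^ 2)
        (pw (sm p (q n)) (n + 1)) := by
      refine bw_abs_int (C := (2 * M) ^ 2) ⟨?_, ?_⟩
      · have hS : Measurable fun w : Fin (n + 1) → ℝ × ℝ => |Sn (Rf p (q n)) w| := by
          have h1 := (Sn_meas (N := n + 1) hm).norm
          simpa [Real.norm_eq_abs] using h1
        exact ((hS.neg.div_const 2).exp).mul (hDm.pow_const 2)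
      · intro w
        have h1 : Real.exp (-|Sn (Rf p (q n)) w| / 2) ≤ 1 := by
          rw [Real.exp_le_one_iff]
          have := abs_nonneg (Sn (Rf p (q n)) w)
          linarith
        have h2 : (U n (ys w) - U n (xs w)) ^ 2 ≤ (2 * M) ^ 2 := by
          rw [← sq_abs]
          exact pow_le_pow_left₀ (abs_nonneg _) (hDb w) 2
        rw [abs_of_nonneg (by positivity)]
        calc Real.exp (-|Sn (Rf p (q n)) w| / 2) * (U n (ys w) - U n (xs w)) ^ 2
            ≤ 1 * (2 * M) ^ 2 := mul_le_mul h1 h2 (sq_nonneg _) zero_le_one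
          _ = (2 * M) ^ 2 := one_mul _
    have i4 : Integrable (fun w : Fin (n + 1) → ℝ × ℝ => |U n (ys w) - U n (xs w)|)
        (pw (sm p (q n)) (n + 1)) := (bw_abs_int ⟨hDm, hDb⟩).abs
    have i12 : Integrable (fun w : Fin (n + 1) → ℝ × ℝ =>
        Real.exp (-(Sn (Rf p (q n)) w) / 2) + Real.exp (Sn (Rf p (q n)) w / 2))
        (pw (sm p (q n)) (n + 1)) := i1.add i2
    have h5 : ∫ w, |U n (ys w) - U n (xs w)| ∂(pw (sm p (q n)) (n + 1)) ≤
        ∫ w, (θ / 2 * (Real.exp (-(Sn (Rf p (q n)) w) / 2) + Real.exp (Sn (Rf p (q n)) w / 2)) +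
          1 / (2 * θ) * (Real.exp (-|Sn (Rf p (q n)) w| / 2) *
            (U n (ys w) - U n (xs w)) ^ 2)) ∂(pw (sm p (q n)) (n + 1)) :=
      integral_mono i4 ((i12.const_mul _).add (i3.const_mul _))
        (fun w => bw_pt hθ0 _ _)
    rw [integral_add (i12.const_mul _) (i3.const_mul _), integral_const_mul,
      integral_const_mul, integral_add i1 i2] at h5
    have e1' : ∫ w, Real.exp (-(Sn (Rf p (q n)) w) / 2) ∂(pw (sm p (q n)) (n + 1)) ≤ C' := by
      have h6 := (hC' n).2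
      rwa [← eq_inv_of_mul_eq_one_right e1] at h6
    have e2' : ∫ w, Real.exp (Sn (Rf p (q n)) w / 2) ∂(pw (sm p (q n)) (n + 1)) ≤ C' := by
      have h6 := (hC' n).2
      rwa [← eq_inv_of_mul_eq_one_right e2] at h6
    have e3' : ∫ w, Real.exp (-|Sn (Rf p (q n)) w| / 2) * (U n (ys w) - U n (xs w)) ^ 2
        ∂(pw (sm p (q n)) (n + 1)) ≤ M * (θ * θ) * C' := by
      rw [← hθθ, mul_comm, ← le_div_iff₀ hZn, div_eq_mul_inv] at e3
      refine e3.trans ?_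
      exact mul_le_mul_of_nonneg_left (hC' n).2 (by positivity)
    have h7 : θ / 2 * (∫ w, Real.exp (-(Sn (Rf p (q n)) w) / 2) ∂(pw (sm p (q n)) (n + 1)) +
        ∫ w, Real.exp (Sn (Rf p (q n)) w / 2) ∂(pw (sm p (q n)) (n + 1))) ≤ θ / 2 * (C' + C') :=
      mul_le_mul_of_nonneg_left (add_le_add e1' e2') (by positivity)
    have h8 : 1 / (2 * θ) * ∫ w, Real.exp (-|Sn (Rf p (q n)) w| / 2) *
        (U n (ys w) - U n (xs w)) ^ 2 ∂(pw (sm p (q n)) (n + 1)) ≤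
        1 / (2 * θ) * (M * (θ * θ) * C') :=
      mul_le_mul_of_nonneg_left e3' (by positivity)
    have h9 : 1 / (2 * θ) * (M * (θ * θ) * C') = M * C' / 2 * θ := by
      field_simp
    rw [← hθ]
    calc _ ≤ _ := h5
      _ ≤ θ / 2 * (C' + C') + 1 / (2 * θ) * (M * (θ * θ) * C') := add_le_add h7 h8
      _ = (C' + M * C' / 2) * θ := by rw [h9]; ring
  have hlim : Tendsto (fun n => (C' + M * C' / 2) * √(τ n)) atTop (𝓝 0) := by
    have h1 := ((Real.continuous_sqrt.tendsto 0).comp B.tlim).const_mul (C' + M * C' / 2)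
    rw [Real.sqrt_zero, mul_zero] at h1
    exact h1
  exact squeeze_zero (fun n => integral_nonneg fun w => abs_nonneg _) hmain hlim

theorem slow_mul (B : BSetup p q l σ τ) (hU : BE p q τ M U) {ψ : ℝ → ℝ}
    (hψ : UniformContinuous ψ) {C : ℝ} (hb : ∀ x, |ψ x| ≤ C) :
    Tendsto (fun n => ∫ w, |U n (ys w) * ψ (ys w 0) - U n (xs w) * ψ (xs w 0)|
      ∂(pw (sm p (q n)) (n + 1))) atTop (𝓝 0) := by
  have hM : 0 ≤ M := (abs_nonneg _).trans ((hU.mb 0).bdd (fun _ => 0))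
  have hC : 0 ≤ C := (abs_nonneg _).trans (hb 0)
  have hψm : Measurable ψ := hψ.continuous.measurable
  have hlim := ((slow_u B hU).const_mul C).add ((disp_lim B hψ hb).const_mul M)
  rw [mul_zero, mul_zero, add_zero] at hlim
  refine squeeze_zero (fun n => integral_nonneg fun w => abs_nonneg _) (fun n => ?_) hlim
  have := sm_prob B.dens (B.prop n)
  have hUm := (hU.mb n).meas
  have hUb := (hU.mb n).bdd
  have hDm : Measurable fun w : Fin (n + 1) → ℝ × ℝ => U n (ys w) - U n (xs w) :=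
    (hUm.comp ys_meas).sub (hUm.comp xs_meas)
  have hDb : ∀ w : Fin (n + 1) → ℝ × ℝ, |U n (ys w) - U n (xs w)| ≤ 2 * M := by
    intro w
    have h1 := hUb (ys w)
    have h2 := hUb (xs w)
    calc |U n (ys w) - U n (xs w)| ≤ |U n (ys w)| + |U n (xs w)| := abs_sub _ _
      _ ≤ 2 * M := by linarith
  have i4 : Integrable (fun w : Fin (n + 1) → ℝ × ℝ => |U n (ys w) - U n (xs w)|)
      (pw (sm p (q n)) (n + 1)) := (bw_abs_int ⟨hDm, hDb⟩).abs
  have hf : Integrable (fun z : ℝ × ℝ => |ψ z.2 - ψ z.1|) (sm p (q n)) := by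
    refine (bw_abs_int (C := 2 * C) ⟨(hψm.comp measurable_snd).sub (hψm.comp measurable_fst),
      fun z => ?_⟩).abs
    show |ψ z.2 - ψ z.1| ≤ 2 * C
    calc |ψ z.2 - ψ z.1| ≤ |ψ z.2| + |ψ z.1| := abs_sub _ _
      _ ≤ 2 * C := by linarith [hb z.2, hb z.1]
  obtain ⟨i5, e5⟩ := pi_zero (N := n) hf
  have h1 : ∀ w : Fin (n + 1) → ℝ × ℝ, |U n (ys w) * ψ (ys w 0) - U n (xs w) * ψ (xs w 0)| ≤
      C * |U n (ys w) - U n (xs w)| + M * |ψ (w 0).2 - ψ (w 0).1| := by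
    intro w
    show |U n (ys w) * ψ (w 0).2 - U n (xs w) * ψ (w 0).1| ≤ _
    have h2 : U n (ys w) * ψ (w 0).2 - U n (xs w) * ψ (w 0).1 =
        ψ (w 0).2 * (U n (ys w) - U n (xs w)) + U n (xs w) * (ψ (w 0).2 - ψ (w 0).1) := by ring
    rw [h2]
    refine (abs_add_le _ _).trans ?_
    rw [abs_mul, abs_mul]
    exact add_le_add (mul_le_mul_of_nonneg_right (hb _) (abs_nonneg _))
      (mul_le_mul_of_nonneg_right (hUb _) (abs_nonneg _))
  have h3 : ∫ w, |U n (ys w) * ψ (ys w 0) - U n (xs w) * ψ (xs w 0)|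
      ∂(pw (sm p (q n)) (n + 1)) ≤
      ∫ w : Fin (n + 1) → ℝ × ℝ, (C * |U n (ys w) - U n (xs w)| + M * |ψ (w 0).2 - ψ (w 0).1|)
        ∂(pw (sm p (q n)) (n + 1)) :=
    integral_mono_of_nonneg (Eventually.of_forall fun w => abs_nonneg _)
      ((i4.const_mul _).add (i5.const_mul _)) (Eventually.of_forall h1)
  rw [integral_add (i4.const_mul _) (i5.const_mul _), integral_const_mul, integral_const_mul,
    e5] at h3
  exact h3

end Pool.Agent.Lib.MP_e19099_pr
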