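import Pool.Agent.Lib.MP_e19099_pr.BSetup

/-!
# Small quantities in one coordinate (module B, B12)

`rmin_lim`: `∫ min 1 |R| ds ≤ √(∫ min 1 R²) ≤ √(C/(n+1))`.
`z_lim`: `Z ≤ 1` and `Z^(n+1) → e^{-σ²/8} > 0`, so `Z → 1` (e.g. `1 - Z ≤ -log Z = -log(Z^(n+1))/(n+1)`).
`expd_lim`: Scheffé: `∫ Z e^{-R/2} ds = 1`, so `∫ |Z e^{-R/2} - 1| = 2 ∫ (1 - Z e^{-R/2})₊ ≤ 2 (1 - Z) + 2 ∫ (1 - e^{-R/2})₊` and
`(1 - e^{-R/2})₊ ≤ min 1 |R|`.
`mom_s`: `integral_sm_le` with `F = (y - x)⁴`: `∫ (y-x)⁴ ds ≤ Z⁻¹ C τ²`, and `Z⁻¹` is bounded.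
`rg_lim`: `∫_{|R| ≤ 1} R² g² ≤ C² ∫ min(1,R²) (y-x)² ≤ C² √(∫ min(1,R²)) √(∫ (y-x)⁴) ≤ C² √(C'/(n+1)) √(C'' τ²)`.
`disp_lim`: for uniformly continuous bounded `ψ`: `∫ |ψ y - ψ x| ds → 0` since `∫ (y-x)⁴ ds → 0` (`≤ ω(δ) + 2C δ⁻⁴ ∫ (y-x)⁴`).
-/

set_option autoImplicit false

open MeasureTheory ProbabilityTheory Filter Set
open scoped NNReal Topology ENNReal

namespace Pool.Agent.Lib.MP_e19099_pr

variable {p : ℝ → ℝ} {q : ℕ → ℝ → ℝ → ℝ} {l σ : ℝ} {τ : ℕ → ℝ}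

private theorem bs_sqrt_lim (K : ℝ) :
    Tendsto (fun n : ℕ => K / √((n : ℝ) + 1)) atTop (𝓝 0) := by
  have h1 : Tendsto (fun n : ℕ => √((n : ℝ) + 1)) atTop atTop := by
    refine Real.tendsto_sqrt_atTop.comp ?_
    exact tendsto_atTop_add_const_right _ _ tendsto_natCast_atTop_atTop
  exact h1.const_div_atTop K

private theorem bs_min_sq (R : ℝ) : (min 1 |R|) ^ 2 = min 1 (R ^ 2) := by
  rcases le_total 1 |R| with h | h
  · rw [min_eq_left h]
    have h1 : 1 ≤ R ^ 2 := by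
      rw [← sq_abs]
      nlinarith
    rw [min_eq_left h1]
    norm_num
  · rw [min_eq_right h]
    have h1 : R ^ 2 ≤ 1 := by
      rw [← sq_abs]
      have := abs_nonneg R
      nlinarith
    rw [min_eq_right h1, sq_abs]

private theorem bs_int_min (B : BSetup p q l σ τ) (n : ℕ) :
    Integrable (fun z => min 1 |Rf p (q n) z|) (sm p (q n)) ∧
      Integrable (fun z => min 1 (Rf p (q n) z ^ 2)) (sm p (q n)) := by
  have := sm_prob B.dens (B.prop n)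
  have hm := Rf_meas B.dens (B.prop n)
  constructor
  · refine Integrable.of_bound (C := 1) ?_ (Eventually.of_forall fun z => ?_)
    · have h1 : Measurable fun z => |Rf p (q n) z| := by
        have h2 := hm.norm
        simpa [Real.norm_eq_abs] using h2
      exact (measurable_const.min h1).aestronglyMeasurable
    · rw [Real.norm_eq_abs, abs_of_nonneg (le_min zero_le_one (abs_nonneg _))]
      exact min_le_left _ _
  · refine Integrable.of_bound (C := 1) ?_ (Eventually.of_forall fun z => ?_)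
    · exact (measurable_const.min (hm.pow_const 2)).aestronglyMeasurable
    · rw [Real.norm_eq_abs, abs_of_nonneg (le_min zero_le_one (sq_nonneg _))]
      exact min_le_left _ _

theorem rmin_lim (B : BSetup p q l σ τ) :
    Tendsto (fun n => ∫ z, min 1 |Rf p (q n) z| ∂(sm p (q n))) atTop (𝓝 0) := by
  obtain ⟨C, hC⟩ := B.rsq
  have hmain : ∀ n : ℕ, ∫ z, min 1 |Rf p (q n) z| ∂(sm p (q n)) ≤
      ((C + 1) / 2) / √((n : ℝ) + 1) := by
    intro n
    have := sm_prob B.dens (B.prop n)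
    have hn : (0 : ℝ) < (n : ℝ) + 1 := by positivity
    obtain ⟨hi1, hi2⟩ := bs_int_min B n
    set t : ℝ := √((n : ℝ) + 1) with ht
    have ht0 : 0 < t := Real.sqrt_pos.2 hn
    have htt : t * t = (n : ℝ) + 1 := Real.mul_self_sqrt hn.le
    have h1 : ∀ z, min 1 |Rf p (q n) z| ≤ (t * min 1 (Rf p (q n) z ^ 2) + t⁻¹) / 2 := by
      intro z
      rw [← bs_min_sq]
      set a := min 1 |Rf p (q n) z|
      have h2 : 0 ≤ (t * a - 1) ^ 2 / t := by positivity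
      have h3 : (t * a - 1) ^ 2 / t = t * a ^ 2 - 2 * a + t⁻¹ := by
        field_simp
        ring
      rw [h3] at h2
      linarith
    have h4 : ∫ z, min 1 |Rf p (q n) z| ∂(sm p (q n)) ≤
        ∫ z, (t * min 1 (Rf p (q n) z ^ 2) + t⁻¹) / 2 ∂(sm p (q n)) :=
      integral_mono hi1 (((hi2.const_mul t).add (integrable_const _)).div_const 2) h1
    have h5 : ∫ z, (t * min 1 (Rf p (q n) z ^ 2) + t⁻¹) / 2 ∂(sm p (q n)) =
        (t * ∫ z, min 1 (Rf p (q n) z ^ 2) ∂(sm p (q n)) + t⁻¹) / 2 := by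
      rw [integral_div, integral_add (hi2.const_mul t) (integrable_const _), integral_const_mul]
      simp
    have h6 : t * ∫ z, min 1 (Rf p (q n) z ^ 2) ∂(sm p (q n)) ≤ C / t := by
      rw [le_div_iff₀ ht0]
      have h7 := hC n
      calc t * (∫ z, min 1 (Rf p (q n) z ^ 2) ∂(sm p (q n))) * t =
          (t * t) * ∫ z, min 1 (Rf p (q n) z ^ 2) ∂(sm p (q n)) := by ring
        _ ≤ C := by rw [htt]; exact h7
    calc ∫ z, min 1 |Rf p (q n) z| ∂(sm p (q n)) ≤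
        (t * ∫ z, min 1 (Rf p (q n) z ^ 2) ∂(sm p (q n)) + t⁻¹) / 2 := h4.trans (le_of_eq h5)
      _ ≤ (C / t + t⁻¹) / 2 := by linarith
      _ = ((C + 1) / 2) / t := by
        field_simp
  exact squeeze_zero (fun n => integral_nonneg fun z => le_min zero_le_one (abs_nonneg _)) hmain
    (bs_sqrt_lim _)

theorem z_lim (B : BSetup p q l σ τ) : Tendsto (fun n => Zf p (q n)) atTop (𝓝 1) := by
  have hpos : ∀ n, 0 < Zf p (q n) := fun n => Zf_pos B.dens (B.prop n)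
  have h1 : Tendsto (fun n : ℕ => Real.log (Zf p (q n) ^ (n + 1))) atTop
      (𝓝 (Real.log (Real.exp (-σ ^ 2 / 8)))) :=
    (Real.continuousAt_log (Real.exp_pos _).ne').tendsto.comp B.zlim
  have h2 : Tendsto (fun n : ℕ => (n : ℝ) + 1) atTop atTop :=
    tendsto_atTop_add_const_right _ _ tendsto_natCast_atTop_atTop
  have h3 : Tendsto (fun n : ℕ => Real.log (Zf p (q n) ^ (n + 1)) / ((n : ℝ) + 1)) atTop (𝓝 0) :=
    h1.div_atTop h2
  have h4 : ∀ n : ℕ, Real.log (Zf p (q n) ^ (n + 1)) / ((n : ℝ) + 1) = Real.log (Zf p (q n)) := by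
    intro n
    rw [Real.log_pow]
    have : ((n : ℝ) + 1) ≠ 0 := by positivity
    push_cast
    field_simp
  simp_rw [h4] at h3
  have h5 := (Real.continuous_exp.tendsto 0).comp h3
  rw [Real.exp_zero] at h5
  refine h5.congr fun n => ?_
  exact Real.exp_log (hpos n)

theorem z_inv_bdd (B : BSetup p q l σ τ) :
    ∃ C : ℝ, ∀ n : ℕ, (Zf p (q n))⁻¹ ≤ C ∧ (Zf p (q n) ^ (n + 1))⁻¹ ≤ C := by
  have h1 : Tendsto (fun n => (Zf p (q n))⁻¹) atTop (𝓝 1⁻¹) := (z_lim B).inv₀ one_ne_zero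
  have h2 : Tendsto (fun n : ℕ => (Zf p (q n) ^ (n + 1))⁻¹) atTop
      (𝓝 (Real.exp (-σ ^ 2 / 8))⁻¹) := B.zlim.inv₀ (Real.exp_pos _).ne'
  obtain ⟨C1, hC1⟩ := h1.bddAbove_range
  obtain ⟨C2, hC2⟩ := h2.bddAbove_range
  refine ⟨max C1 C2, fun n => ⟨?_, ?_⟩⟩
  · exact (hC1 ⟨n, rfl⟩).trans (le_max_left _ _)
  · exact (hC2 ⟨n, rfl⟩).trans (le_max_right _ _)

theorem expd_lim (B : BSetup p q l σ τ) :
    Tendsto (fun n => ∫ z, |Zf p (q n) * Real.exp (-(Rf p (q n) z) / 2) - 1| ∂(sm p (q n)))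
      atTop (𝓝 0) := by
  have hmain : ∀ n : ℕ,
      ∫ z, |Zf p (q n) * Real.exp (-(Rf p (q n) z) / 2) - 1| ∂(sm p (q n)) ≤
        2 * (1 - Zf p (q n)) + 2 * ∫ z, min 1 |Rf p (q n) z| ∂(sm p (q n)) := by
    intro n
    have := sm_prob B.dens (B.prop n)
    have hZ := Zf_pos B.dens (B.prop n)
    have hZ1 := Zf_le B.dens (B.prop n)
    obtain ⟨hi1, -⟩ := bs_int_min B n
    have hie := (exp_integrable B.dens (B.prop n)).1
    have hie' : Integrable (fun z => Zf p (q n) * Real.exp (-(Rf p (q n) z) / 2) - 1)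
        (sm p (q n)) := (hie.const_mul (Zf p (q n))).sub (integrable_const (1 : ℝ))
    have h1 : ∀ z, |Zf p (q n) * Real.exp (-(Rf p (q n) z) / 2) - 1| ≤
        (Zf p (q n) * Real.exp (-(Rf p (q n) z) / 2) - 1) +
          (2 * (1 - Zf p (q n)) + 2 * min 1 |Rf p (q n) z|) := by
      intro z
      set R := Rf p (q n) z
      have he := Real.exp_pos (-R / 2)
      have hmin : 0 ≤ min 1 |R| := le_min zero_le_one (abs_nonneg _)
      have h2 : 1 - Real.exp (-R / 2) ≤ min 1 |R| := by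
        refine le_min (by linarith) ?_
        have h3 := Real.add_one_le_exp (-R / 2)
        rcases le_total 0 R with h4 | h4
        · rw [abs_of_nonneg h4]
          linarith
        · rw [abs_of_nonpos h4]
          have h5 : 1 ≤ Real.exp (-R / 2) := Real.one_le_exp (by linarith)
          linarith
      have h6 : 1 - Zf p (q n) * Real.exp (-R / 2) ≤ (1 - Zf p (q n)) + min 1 |R| := by
        have h7 : 1 - Zf p (q n) * Real.exp (-R / 2) =
            (1 - Zf p (q n)) + Zf p (q n) * (1 - Real.exp (-R / 2)) := by ring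
        rw [h7]
        have h8 : Zf p (q n) * (1 - Real.exp (-R / 2)) ≤ min 1 |R| := by
          calc Zf p (q n) * (1 - Real.exp (-R / 2)) ≤ Zf p (q n) * min 1 |R| :=
                mul_le_mul_of_nonneg_left h2 hZ.le
            _ ≤ 1 * min 1 |R| := mul_le_mul_of_nonneg_right hZ1 hmin
            _ = min 1 |R| := one_mul _
        linarith
      rw [abs_le]
      constructor
      · linarith
      · linarith
    have hie2 : Integrable (fun z => 2 * (1 - Zf p (q n)) + 2 * min 1 |Rf p (q n) z|)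
        (sm p (q n)) := (integrable_const (μ := sm p (q n)) (2 * (1 - Zf p (q n)))).add
      (hi1.const_mul 2)
    have h9 := integral_mono (μ := sm p (q n)) hie'.abs (hie'.add hie2) h1
    have h10 : ∫ z, ((Zf p (q n) * Real.exp (-(Rf p (q n) z) / 2) - 1) +
          (2 * (1 - Zf p (q n)) + 2 * min 1 |Rf p (q n) z|)) ∂(sm p (q n)) =
        2 * (1 - Zf p (q n)) + 2 * ∫ z, min 1 |Rf p (q n) z| ∂(sm p (q n)) := by
      rw [integral_add hie' hie2, integral_sub (hie.const_mul _) (integrable_const _),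
        integral_const_mul, (integral_exp B.dens (B.prop n)).1,
        integral_add (integrable_const _) (hi1.const_mul 2)]
      simp only [integral_const_mul, integral_const, probReal_univ, smul_eq_mul, one_mul]
      rw [mul_inv_cancel₀ hZ.ne']
      ring
    exact h9.trans (le_of_eq h10)
  have hlim : Tendsto (fun n : ℕ => 2 * (1 - Zf p (q n)) +
      2 * ∫ z, min 1 |Rf p (q n) z| ∂(sm p (q n))) atTop (𝓝 (2 * (1 - 1) + 2 * 0)) :=
    ((tendsto_const_nhds.sub (z_lim B)).const_mul 2).add ((rmin_lim B).const_mul 2)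
  have e : (2 : ℝ) * (1 - 1) + 2 * 0 = 0 := by norm_num
  rw [e] at hlim
  exact squeeze_zero (fun n => integral_nonneg fun z => abs_nonneg _) hmain hlim

theorem mom_s (B : BSetup p q l σ τ) :
    ∃ C : ℝ, ∀ n, Integrable (fun z : ℝ × ℝ => (z.2 - z.1) ^ 4) (sm p (q n)) ∧
      ∫ z : ℝ × ℝ, (z.2 - z.1) ^ 4 ∂(sm p (q n)) ≤ C * τ n ^ 2 := by
  obtain ⟨C, hC⟩ := B.mom
  obtain ⟨C', hC'⟩ := z_inv_bdd B
  refine ⟨C' * C, fun n => ?_⟩
  have hF : Measurable (fun z : ℝ × ℝ => (z.2 - z.1) ^ 4) :=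
    (measurable_snd.sub measurable_fst).pow_const 4
  obtain ⟨h1, h2⟩ := integral_sm_le B.dens (B.prop n) hF
    (fun z => by
      show 0 ≤ (z.2 - z.1) ^ 4
      positivity)
    (fun z => by
      show (z.1 - z.2) ^ 4 = (z.2 - z.1) ^ 4
      ring) (B.int4 n)
  refine ⟨h1, h2.trans ?_⟩
  have h3 : 0 ≤ ∫ z : ℝ × ℝ, (z.2 - z.1) ^ 4 * (p z.1 * q n z.1 z.2) := by
    refine integral_nonneg fun z => ?_
    show 0 ≤ (z.2 - z.1) ^ 4 * (p z.1 * q n z.1 z.2)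
    have h4 := (B.dens.pos z.1).le
    have h5 := ((B.prop n).pos z.1 z.2).le
    positivity
  have h6 : 0 ≤ C' := (inv_nonneg.2 (Zf_pos B.dens (B.prop n)).le).trans (hC' n).1
  calc (Zf p (q n))⁻¹ * ∫ z : ℝ × ℝ, (z.2 - z.1) ^ 4 * (p z.1 * q n z.1 z.2)
      ≤ C' * ∫ z : ℝ × ℝ, (z.2 - z.1) ^ 4 * (p z.1 * q n z.1 z.2) :=
        mul_le_mul_of_nonneg_right (hC' n).1 h3
    _ ≤ C' * (C * τ n ^ 2) := mul_le_mul_of_nonneg_left (hC n) h6
    _ = C' * C * τ n ^ 2 := by ring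

theorem rg_lim (B : BSetup p q l σ τ) {t : ℝ → ℝ} {a : ℝ} {g : ℕ → ℝ × ℝ → ℝ} {C : ℝ}
    (hg : FC p q l τ t a g C) :
    Tendsto (fun n => (τ n)⁻¹ *
      ∫ z in {z | |Rf p (q n) z| ≤ 1}, (Rf p (q n) z * g n z) ^ 2 ∂(sm p (q n))) atTop (𝓝 0) := by
  obtain ⟨C1, hC1⟩ := B.rsq
  obtain ⟨C2, hC2⟩ := mom_s B
  have hmain : ∀ n : ℕ, (τ n)⁻¹ *
      ∫ z in {z | |Rf p (q n) z| ≤ 1}, (Rf p (q n) z * g n z) ^ 2 ∂(sm p (q n)) ≤
        (C ^ 2 * (C1 + C2) / 2) / √((n : ℝ) + 1) := by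
    intro n
    have := sm_prob B.dens (B.prop n)
    have hn : (0 : ℝ) < (n : ℝ) + 1 := by positivity
    have hτ := B.tpos n
    obtain ⟨-, hi2⟩ := bs_int_min B n
    obtain ⟨hi4, h4⟩ := hC2 n
    set s : ℝ := √((n : ℝ) + 1) with hs
    have hs0 : 0 < s := Real.sqrt_pos.2 hn
    have hss : s * s = (n : ℝ) + 1 := Real.mul_self_sqrt hn.le
    have hm := Rf_meas B.dens (B.prop n)
    have hgm := hg.meas n
    have hS : MeasurableSet {z | |Rf p (q n) z| ≤ 1} := by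
      have h1 : Measurable fun z => |Rf p (q n) z| := by
        have h2 := hm.norm
        simpa [Real.norm_eq_abs] using h2
      exact measurableSet_le h1 measurable_const
    -- pointwise bound
    have hpt : ∀ z : ℝ × ℝ, |Rf p (q n) z| ≤ 1 → (Rf p (q n) z * g n z) ^ 2 ≤
        C ^ 2 * ((s * τ n * min 1 (Rf p (q n) z ^ 2) + (s * τ n)⁻¹ * (z.2 - z.1) ^ 4) / 2) := by
      intro z hz
      have hl := hg.lip n z
      set R := Rf p (q n) z
      have hR : min 1 (R ^ 2) = R ^ 2 := by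
        refine min_eq_right ?_
        rw [← sq_abs]
        have := abs_nonneg R
        nlinarith
      have hR1 : R ^ 2 ≤ 1 := by
        rw [← hR]
        exact min_le_left _ _
      rw [hR]
      have h1 : g n z ^ 2 ≤ C ^ 2 * (z.2 - z.1) ^ 2 := by
        calc g n z ^ 2 = |g n z| ^ 2 := (sq_abs _).symm
          _ ≤ (C * |z.2 - z.1|) ^ 2 := pow_le_pow_left₀ (abs_nonneg _) hl 2
          _ = C ^ 2 * (z.2 - z.1) ^ 2 := by rw [mul_pow, sq_abs]
      have h2 : (R * g n z) ^ 2 ≤ C ^ 2 * (R ^ 2 * (z.2 - z.1) ^ 2) := by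
        calc (R * g n z) ^ 2 = R ^ 2 * g n z ^ 2 := by ring
          _ ≤ R ^ 2 * (C ^ 2 * (z.2 - z.1) ^ 2) := mul_le_mul_of_nonneg_left h1 (sq_nonneg _)
          _ = C ^ 2 * (R ^ 2 * (z.2 - z.1) ^ 2) := by ring
      refine h2.trans (mul_le_mul_of_nonneg_left ?_ (sq_nonneg _))
      set k := s * τ n with hk
      have hk0 : 0 < k := mul_pos hs0 hτ
      set w := (z.2 - z.1) ^ 2 with hw
      have hw4 : (z.2 - z.1) ^ 4 = w ^ 2 := by rw [hw]; ring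
      rw [hw4]
      have h3 : 0 ≤ (k * R ^ 2 - w) ^ 2 / k := by positivity
      have h5 : (k * R ^ 2 - w) ^ 2 / k = k * (R ^ 2) ^ 2 - 2 * (R ^ 2 * w) + k⁻¹ * w ^ 2 := by
        field_simp
        ring
      rw [h5] at h3
      have h6 : k * (R ^ 2) ^ 2 ≤ k * R ^ 2 := by
        refine mul_le_mul_of_nonneg_left ?_ hk0.le
        nlinarith [sq_nonneg R]
      linarith
    have hi5 : Integrable (fun z : ℝ × ℝ => C ^ 2 *
        ((s * τ n * min 1 (Rf p (q n) z ^ 2) + (s * τ n)⁻¹ * (z.2 - z.1) ^ 4) / 2))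
        (sm p (q n)) :=
      (((hi2.const_mul _).add (hi4.const_mul _)).div_const 2).const_mul _
    have hnn : ∀ z : ℝ × ℝ, 0 ≤ C ^ 2 *
        ((s * τ n * min 1 (Rf p (q n) z ^ 2) + (s * τ n)⁻¹ * (z.2 - z.1) ^ 4) / 2) := by
      intro z
      have h1 : 0 ≤ min 1 (Rf p (q n) z ^ 2) := le_min zero_le_one (sq_nonneg _)
      have h2 : 0 ≤ (z.2 - z.1) ^ 4 := by positivity
      positivity
    have h6 : ∫ z in {z | |Rf p (q n) z| ≤ 1}, (Rf p (q n) z * g n z) ^ 2 ∂(sm p (q n)) ≤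
        ∫ z : ℝ × ℝ, C ^ 2 * ((s * τ n * min 1 (Rf p (q n) z ^ 2) +
          (s * τ n)⁻¹ * (z.2 - z.1) ^ 4) / 2) ∂(sm p (q n)) := by
      calc ∫ z in {z | |Rf p (q n) z| ≤ 1}, (Rf p (q n) z * g n z) ^ 2 ∂(sm p (q n)) ≤
          ∫ z in {z | |Rf p (q n) z| ≤ 1}, C ^ 2 * ((s * τ n * min 1 (Rf p (q n) z ^ 2) +
          (s * τ n)⁻¹ * (z.2 - z.1) ^ 4) / 2) ∂(sm p (q n)) := by
            refine integral_mono_of_nonneg (Eventually.of_forall fun z => sq_nonneg _)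
              hi5.integrableOn ?_
            refine (ae_restrict_iff' hS).2 (Eventually.of_forall fun z hz => ?_)
            exact hpt z hz
        _ ≤ _ := setIntegral_le_integral hi5 (Eventually.of_forall hnn)
    have h7 : ∫ z : ℝ × ℝ, C ^ 2 * ((s * τ n * min 1 (Rf p (q n) z ^ 2) +
          (s * τ n)⁻¹ * (z.2 - z.1) ^ 4) / 2) ∂(sm p (q n)) =
        C ^ 2 * ((s * τ n * ∫ z, min 1 (Rf p (q n) z ^ 2) ∂(sm p (q n)) +
          (s * τ n)⁻¹ * ∫ z : ℝ × ℝ, (z.2 - z.1) ^ 4 ∂(sm p (q n))) / 2) := by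
      rw [integral_const_mul, integral_div, integral_add (hi2.const_mul _) (hi4.const_mul _),
        integral_const_mul, integral_const_mul]
    have h8 : ∫ z, min 1 (Rf p (q n) z ^ 2) ∂(sm p (q n)) ≤ C1 / (s * s) := by
      rw [hss, le_div_iff₀ hn, mul_comm]
      exact hC1 n
    have h9 : (τ n)⁻¹ * (C ^ 2 * ((s * τ n * ∫ z, min 1 (Rf p (q n) z ^ 2) ∂(sm p (q n)) +
          (s * τ n)⁻¹ * ∫ z : ℝ × ℝ, (z.2 - z.1) ^ 4 ∂(sm p (q n))) / 2)) ≤
        (τ n)⁻¹ * (C ^ 2 * ((s * τ n * (C1 / (s * s)) + (s * τ n)⁻¹ * (C2 * τ n ^ 2)) / 2)) := by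
      have hkk : 0 < s * τ n := mul_pos hs0 hτ
      gcongr
    have h10 : (τ n)⁻¹ * (C ^ 2 * ((s * τ n * (C1 / (s * s)) +
        (s * τ n)⁻¹ * (C2 * τ n ^ 2)) / 2)) = (C ^ 2 * (C1 + C2) / 2) / s := by
      field_simp
    calc (τ n)⁻¹ * ∫ z in {z | |Rf p (q n) z| ≤ 1}, (Rf p (q n) z * g n z) ^ 2 ∂(sm p (q n)) ≤
        (τ n)⁻¹ * ∫ z : ℝ × ℝ, C ^ 2 * ((s * τ n * min 1 (Rf p (q n) z ^ 2) +
          (s * τ n)⁻¹ * (z.2 - z.1) ^ 4) / 2) ∂(sm p (q n)) :=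
          mul_le_mul_of_nonneg_left h6 (inv_nonneg.2 hτ.le)
      _ ≤ (C ^ 2 * (C1 + C2) / 2) / s := by
          rw [h7, ← h10]
          exact h9
  refine squeeze_zero (fun n => ?_) hmain (bs_sqrt_lim _)
  exact mul_nonneg (inv_nonneg.2 (B.tpos n).le) (integral_nonneg fun z => sq_nonneg _)

theorem disp_lim (B : BSetup p q l σ τ) {ψ : ℝ → ℝ} (hψ : UniformContinuous ψ) {C : ℝ}
    (hb : ∀ x, |ψ x| ≤ C) :
    Tendsto (fun n => ∫ z, |ψ z.2 - ψ z.1| ∂(sm p (q n))) atTop (𝓝 0) := by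
  obtain ⟨C2, hC2⟩ := mom_s B
  have hC : 0 ≤ C := (abs_nonneg _).trans (hb 0)
  rw [Metric.tendsto_atTop]
  intro ε hε
  obtain ⟨δ, hδ, hδψ⟩ := Metric.uniformContinuous_iff.1 hψ (ε / 2) (by linarith)
  have hpt : ∀ z : ℝ × ℝ, |ψ z.2 - ψ z.1| ≤ ε / 2 + 2 * C / δ ^ 4 * (z.2 - z.1) ^ 4 := by
    intro z
    rcases lt_or_ge (dist z.2 z.1) δ with h | h
    · have h1 := hδψ h
      rw [Real.dist_eq] at h1
      have h2 : 0 ≤ 2 * C / δ ^ 4 * (z.2 - z.1) ^ 4 := by positivity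
      linarith
    · rw [Real.dist_eq] at h
      have h1 : |ψ z.2 - ψ z.1| ≤ 2 * C := by
        calc |ψ z.2 - ψ z.1| ≤ |ψ z.2| + |ψ z.1| := abs_sub _ _
          _ ≤ 2 * C := by linarith [hb z.2, hb z.1]
      have h2 : δ ^ 4 ≤ (z.2 - z.1) ^ 4 := by
        have h3 : δ ^ 4 ≤ |z.2 - z.1| ^ 4 := pow_le_pow_left₀ hδ.le h 4
        have h4 : |z.2 - z.1| ^ 4 = (z.2 - z.1) ^ 4 := by
          rw [show (4 : ℕ) = 2 * 2 by norm_num, pow_mul, pow_mul, sq_abs]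
        rwa [h4] at h3
      have h5 : 2 * C ≤ 2 * C / δ ^ 4 * (z.2 - z.1) ^ 4 := by
        rw [div_mul_eq_mul_div, le_div_iff₀ (by positivity)]
        exact mul_le_mul_of_nonneg_left h2 (by linarith)
      linarith
  have hlim : Tendsto (fun n => 2 * C / δ ^ 4 * (C2 * τ n ^ 2)) atTop
      (𝓝 (2 * C / δ ^ 4 * (C2 * 0 ^ 2))) := ((B.tlim.pow 2).const_mul C2).const_mul _
  have e : 2 * C / δ ^ 4 * (C2 * (0 : ℝ) ^ 2) = 0 := by ring
  rw [e] at hlim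
  obtain ⟨N, hN⟩ := (Metric.tendsto_atTop.1 hlim) (ε / 2) (by linarith)
  refine ⟨N, fun n hn => ?_⟩
  have := sm_prob B.dens (B.prop n)
  obtain ⟨hi4, h4⟩ := hC2 n
  have h1 : ∫ z : ℝ × ℝ, |ψ z.2 - ψ z.1| ∂(sm p (q n)) ≤
      ∫ z : ℝ × ℝ, (ε / 2 + 2 * C / δ ^ 4 * (z.2 - z.1) ^ 4) ∂(sm p (q n)) :=
    integral_mono_of_nonneg (Eventually.of_forall fun z => abs_nonneg _)
      ((integrable_const _).add (hi4.const_mul _)) (Eventually.of_forall hpt)
  have h2 : ∫ z : ℝ × ℝ, (ε / 2 + 2 * C / δ ^ 4 * (z.2 - z.1) ^ 4) ∂(sm p (q n)) =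
      ε / 2 + 2 * C / δ ^ 4 * ∫ z : ℝ × ℝ, (z.2 - z.1) ^ 4 ∂(sm p (q n)) := by
    rw [integral_add (integrable_const _) (hi4.const_mul _), integral_const_mul]
    simp
  have h3 : 2 * C / δ ^ 4 * ∫ z : ℝ × ℝ, (z.2 - z.1) ^ 4 ∂(sm p (q n)) ≤
      2 * C / δ ^ 4 * (C2 * τ n ^ 2) := mul_le_mul_of_nonneg_left h4 (by positivity)
  have h5 := hN n hn
  rw [Real.dist_eq, sub_zero] at h5
  have h6 := (abs_lt.1 h5).2
  rw [Real.dist_eq, sub_zero, abs_of_nonneg (integral_nonneg fun z => abs_nonneg _)]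
  linarith

end Pool.Agent.Lib.MP_e19099_pr
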