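import Pool.Agent.Lib.MP_e19099_pr.Energy

/-!
# The spectral lemma (module B, B3)

`K` reversible with respect to `Pi`, almost nonnegative: `⟨K f, f⟩ ≥ -δ ‖f‖²`.  All functions bounded and measurable.
`kop_contr`: Jensen (`(kop K f x)² ≤ kop K (f²) x`) and `kop_mean`.
`kop_sq_le`: with `A f = K f + δ f`: `⟨A f, f⟩ ≥ 0`, so by Cauchy-Schwarz for the form `⟨A ·, ·⟩`
(discriminant of `t ↦ ⟨A (f + t A f), f + t A f⟩ ≥ 0`, or take `t = -1/(1+δ)`): `‖A f‖² ≤ (1+δ) ⟨A f, f⟩`, as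
`⟨A A f, A f⟩ ≤ (1+δ) ‖A f‖²`.  Expanding, `‖K f‖² ≤ (1-δ) ⟨K f, f⟩ + δ ‖f‖² ≤ ⟨K f, f⟩ + 2 δ ‖f‖²`.
`iter_gap`: `e i = ‖K^i ψ‖²`; `e i - 2 e (i+1) + e (i+2) = ‖K^i ψ - K^{i+2} ψ‖² ≥ 0` (self-adjointness), so the differences `e i - e (i+1)` are
nonnegative (`kop_contr`) and decreasing and their sum over `i ≤ k` is at most `e 0`.
`spec`: `∫∫ (Ψ(y) - Ψ(x))² = 2 (‖Ψ‖² - ⟨K Ψ, Ψ⟩)`, `Ψ = K^k ψ`, and `‖Ψ‖² - ⟨K Ψ, Ψ⟩ ≤ e k - e (k+1) + 2 δ e k`.
-/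

set_option autoImplicit false

open MeasureTheory ProbabilityTheory Filter Set
open scoped NNReal Topology ENNReal

namespace Pool.Agent.Lib.MP_e19099_pr

variable {E : Type*} [MeasurableSpace E] {Pi : Measure E} {K : Kernel E E} {C : ℝ} {f : E → ℝ}

namespace BSpecAux

/-- bounded and measurable -/
def Bd {F : Type*} [MeasurableSpace F] (f : F → ℝ) : Prop := ∃ C, MB C f

theorem Bd.of {F : Type*} [MeasurableSpace F] {f : F → ℝ} {C : ℝ} (h : MB C f) : Bd f := ⟨C, h⟩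

theorem Bd.add {F : Type*} [MeasurableSpace F] {f g : F → ℝ} (hf : Bd f) (hg : Bd g) :
    Bd (fun x => f x + g x) := by
  obtain ⟨C, hC⟩ := hf
  obtain ⟨D, hD⟩ := hg
  exact ⟨C + D, hC.meas.add hD.meas, fun x => (abs_add_le _ _).trans (add_le_add (hC.bdd x) (hD.bdd x))⟩

theorem Bd.sub {F : Type*} [MeasurableSpace F] {f g : F → ℝ} (hf : Bd f) (hg : Bd g) :
    Bd (fun x => f x - g x) := by
  obtain ⟨C, hC⟩ := hf
  obtain ⟨D, hD⟩ := hg
  exact ⟨C + D, hC.meas.sub hD.meas, fun x => (abs_sub _ _).trans (add_le_add (hC.bdd x) (hD.bdd x))⟩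

theorem Bd.mul {F : Type*} [MeasurableSpace F] {f g : F → ℝ} (hf : Bd f) (hg : Bd g) :
    Bd (fun x => f x * g x) := by
  obtain ⟨C, hC⟩ := hf
  obtain ⟨D, hD⟩ := hg
  refine ⟨C * D, hC.meas.mul hD.meas, fun x => ?_⟩
  rw [abs_mul]
  exact mul_le_mul (hC.bdd x) (hD.bdd x) (abs_nonneg _) ((abs_nonneg _).trans (hC.bdd x))

theorem Bd.const {F : Type*} [MeasurableSpace F] (c : ℝ) : Bd (fun _ : F => c) :=
  ⟨|c|, measurable_const, fun _ => le_rfl⟩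

theorem Bd.cmul {F : Type*} [MeasurableSpace F] {f : F → ℝ} (hf : Bd f) (c : ℝ) :
    Bd (fun x => c * f x) := (Bd.const c).mul hf

theorem Bd.int {F : Type*} [MeasurableSpace F] {f : F → ℝ} (hf : Bd f) (μ : Measure F)
    [IsFiniteMeasure μ] : Integrable f μ := by
  obtain ⟨C, hC⟩ := hf
  exact Integrable.of_bound hC.meas.aestronglyMeasurable C (Eventually.of_forall hC.bdd)

theorem Bd.kop [IsMarkovKernel K] {f : E → ℝ} (hf : Bd f) : Bd (kop K f) := by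
  obtain ⟨C, hC⟩ := hf
  exact ⟨C, kop_mb hC⟩

theorem Bd.iter [IsMarkovKernel K] {f : E → ℝ} (hf : Bd f) (j : ℕ) :
    Bd ((Pool.Agent.Lib.MP_e19099_pr.kop K)^[j] f) := by
  obtain ⟨C, hC⟩ := hf
  exact ⟨C, kop_iter_mb hC j⟩

/-- the inner product -/
noncomputable def ip (Pi : Measure E) (u v : E → ℝ) : ℝ := ∫ x, u x * v x ∂Pi

theorem ip_comm (u v : E → ℝ) : ip Pi u v = ip Pi v u := by
  unfold ip
  exact integral_congr_ae (Eventually.of_forall fun x => mul_comm _ _)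

theorem ip_add [IsFiniteMeasure Pi] {u v w : E → ℝ} (hu : Bd u) (hv : Bd v) (hw : Bd w) :
    ip Pi (fun x => u x + v x) w = ip Pi u w + ip Pi v w := by
  unfold ip
  rw [← integral_add ((hu.mul hw).int Pi) ((hv.mul hw).int Pi)]
  exact integral_congr_ae (Eventually.of_forall fun x => add_mul _ _ _)

theorem ip_cmul (c : ℝ) (u v : E → ℝ) : ip Pi (fun x => c * u x) v = c * ip Pi u v := by
  unfold ip
  rw [← integral_const_mul]
  exact integral_congr_ae (Eventually.of_forall fun x => mul_assoc _ _ _)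

theorem ip_self_nonneg (u : E → ℝ) : 0 ≤ ip Pi u u := integral_nonneg fun x => mul_self_nonneg _

theorem ip_self (u : E → ℝ) : ip Pi u u = ∫ x, u x ^ 2 ∂Pi := by
  unfold ip
  exact integral_congr_ae (Eventually.of_forall fun x => (pow_two _).symm)

theorem ip_expand [IsFiniteMeasure Pi] {u v : E → ℝ} (hu : Bd u) (hv : Bd v) (s t : ℝ)
    {u' v' : E → ℝ} (hu' : Bd u') (hv' : Bd v') (s' t' : ℝ) :
    ip Pi (fun x => s * u x + t * v x) (fun x => s' * u' x + t' * v' x) =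
      s * s' * ip Pi u u' + s * t' * ip Pi u v' + t * s' * ip Pi v u' + t * t' * ip Pi v v' := by
  rw [ip_add (hu.cmul s) (hv.cmul t) ((hu'.cmul s').add (hv'.cmul t')), ip_cmul, ip_cmul,
    ip_comm u, ip_comm v, ip_add (hu'.cmul s') (hv'.cmul t') hu,
    ip_add (hu'.cmul s') (hv'.cmul t') hv, ip_cmul, ip_cmul, ip_cmul, ip_cmul,
    ip_comm u' u, ip_comm v' u, ip_comm u' v, ip_comm v' v]
  ring

theorem kop_expand [IsMarkovKernel K] {u v : E → ℝ} (hu : Bd u) (hv : Bd v) (s t : ℝ) :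
    kop K (fun x => s * u x + t * v x) = fun x => s * kop K u x + t * kop K v x := by
  funext x
  unfold kop
  rw [integral_add ((hu.cmul s).int _) ((hv.cmul t).int _), integral_const_mul,
    integral_const_mul]

theorem symm' (hR : Rev Pi K) {u v : E → ℝ} (hu : Bd u) (hv : Bd v) :
    ip Pi u (kop K v) = ip Pi (kop K u) v := by
  obtain ⟨C, hC⟩ := hu
  obtain ⟨D, hD⟩ := hv
  exact hR.kop_symm hC hD

theorem sq_int_le {F : Type*} [MeasurableSpace F] (μ : Measure F) [IsProbabilityMeasure μ]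
    {g : F → ℝ} (hg : Bd g) : (∫ y, g y ∂μ) ^ 2 ≤ ∫ y, g y ^ 2 ∂μ := by
  set m := ∫ y, g y ∂μ with hm
  have h1 : 0 ≤ ∫ y, (g y - m) ^ 2 ∂μ := integral_nonneg fun y => sq_nonneg _
  have hg2 : Bd (fun y => g y ^ 2) := by
    have := hg.mul hg
    simpa [pow_two] using this
  have h2 : ∫ y, (g y - m) ^ 2 ∂μ = ∫ y, g y ^ 2 ∂μ - m ^ 2 := by
    have h3 : ∫ y, (g y - m) ^ 2 ∂μ = ∫ y, (g y ^ 2 - (2 * m) * g y + m ^ 2) ∂μ :=
      integral_congr_ae (Eventually.of_forall fun y => by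
        show (g y - m) ^ 2 = g y ^ 2 - (2 * m) * g y + m ^ 2
        ring)
    rw [h3, integral_add ((hg2.sub (hg.cmul (2 * m))).int μ) (integrable_const _),
      integral_sub (hg2.int μ) ((hg.cmul (2 * m)).int μ), integral_const_mul, integral_const,
      ← hm]
    simp
    ring
  linarith

end BSpecAux

open BSpecAux

theorem kop_contr (hR : Rev Pi K) (hf : MB C f) :
    ∫ x, kop K f x ^ 2 ∂Pi ≤ ∫ x, f x ^ 2 ∂Pi := by
  have := hR.prob
  have := hR.markov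
  have hb := Bd.of hf
  have hb2 : Bd (fun y => f y ^ 2) := by
    have := hb.mul hb
    simpa [pow_two] using this
  have hk2 : Bd (fun y => kop K f y ^ 2) := by
    have := (Bd.kop (K := K) hb).mul (Bd.kop (K := K) hb)
    simpa [pow_two] using this
  obtain ⟨D, hD⟩ := hb2
  calc ∫ x, kop K f x ^ 2 ∂Pi ≤ ∫ x, kop K (fun y => f y ^ 2) x ∂Pi := by
        refine integral_mono (hk2.int Pi) ((Bd.kop (K := K) ⟨D, hD⟩).int Pi) fun x => ?_
        exact sq_int_le (K x) hb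
    _ = ∫ x, f x ^ 2 ∂Pi := hR.kop_mean hD

theorem kop_iter_contr (hR : Rev Pi K) (hf : MB C f) (k : ℕ) :
    ∫ x, (kop K)^[k] f x ^ 2 ∂Pi ≤ ∫ x, f x ^ 2 ∂Pi := by
  have := hR.markov
  induction k with
  | zero => simp
  | succ k ih =>
    rw [Function.iterate_succ_apply']
    exact (kop_contr hR (kop_iter_mb hf k)).trans ih

theorem kop_sq_le (hR : Rev Pi K) {δ : ℝ} (hδ : 0 ≤ δ) (hδ1 : δ ≤ 1)
    (hK : ∀ (C : ℝ) (f : E → ℝ), MB C f →
      -δ * ∫ x, f x ^ 2 ∂Pi ≤ ∫ x, kop K f x * f x ∂Pi) (hf : MB C f) :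
    ∫ x, kop K f x ^ 2 ∂Pi ≤ ∫ x, kop K f x * f x ∂Pi + 2 * δ * ∫ x, f x ^ 2 ∂Pi := by
  have := hR.prob
  have := hR.markov
  have hb := Bd.of hf
  have hkb := Bd.kop (K := K) hb
  -- contraction for general functions
  have hcon : ∀ u : E → ℝ, Bd u → ip Pi (kop K u) (kop K u) ≤ ip Pi u u := by
    intro u hu
    obtain ⟨D, hD⟩ := hu
    rw [ip_self, ip_self]
    exact kop_contr hR hD
  have hK' : ∀ u : E → ℝ, Bd u → -δ * ip Pi u u ≤ ip Pi (kop K u) u := by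
    intro u hu
    obtain ⟨D, hD⟩ := hu
    rw [ip_self]
    exact hK D u hD
  have hle : ∀ u : E → ℝ, Bd u → ip Pi (kop K u) u ≤ ip Pi u u := by
    intro u hu
    have h1 := ip_self_nonneg (Pi := Pi) (fun x => 1 * kop K u x + (-1) * u x)
    rw [ip_expand (Bd.kop (K := K) hu) hu 1 (-1) (Bd.kop (K := K) hu) hu 1 (-1),
      ip_comm u (kop K u)] at h1
    have h2 := hcon u hu
    linarith
  set h : E → ℝ := fun x => 1 * kop K f x + δ * f x with hh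
  have hhb : Bd h := (hkb.cmul 1).add (hb.cmul δ)
  set t : ℝ := -(1 + δ)⁻¹ with ht
  have hd0 : 0 < 1 + δ := by linarith
  set g : E → ℝ := fun x => 1 * f x + t * h x with hg
  have hgb : Bd g := (hb.cmul 1).add (hhb.cmul t)
  have e1 := hK' g hgb
  have e2 : kop K g = fun x => 1 * kop K f x + t * kop K h x := kop_expand hb hhb 1 t
  have e3 : ip Pi (kop K g) g = 1 * 1 * ip Pi (kop K f) f + 1 * t * ip Pi (kop K f) h
      + t * 1 * ip Pi (kop K h) f + t * t * ip Pi (kop K h) h := by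
    rw [e2]
    exact ip_expand hkb (Bd.kop (K := K) hhb) 1 t hb hhb 1 t
  have e4 : ip Pi g g = 1 * 1 * ip Pi f f + 1 * t * ip Pi f h + t * 1 * ip Pi h f
      + t * t * ip Pi h h := ip_expand hb hhb 1 t hb hhb 1 t
  have e5 : ip Pi (kop K h) f = ip Pi (kop K f) h := by
    rw [← symm' hR hhb hb, ip_comm]
  have e6 : ip Pi h f = ip Pi f h := ip_comm _ _
  -- ‖h‖² = ⟨K f, h⟩ + δ ⟨f, h⟩
  have e7 : ip Pi h h = ip Pi (kop K f) h + δ * ip Pi f h := by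
    have := ip_add (Pi := Pi) (hkb.cmul 1) (hb.cmul δ) hhb
    rw [ip_cmul, ip_cmul, one_mul] at this
    exact this
  have e8 := hle h hhb
  have e9 : ip Pi h h = ip Pi (kop K f) (kop K f) + 2 * δ * ip Pi (kop K f) f
      + δ ^ 2 * ip Pi f f := by
    have := ip_expand (Pi := Pi) hkb hb 1 δ hkb hb 1 δ
    rw [ip_comm f (kop K f)] at this
    rw [hh, this]
    ring
  have ht' : t * (1 + δ) = -1 := by
    rw [ht]
    field_simp
  rw [e3, e5] at e1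
  rw [e4, e6] at e1
  have hfh : ip Pi f h = ip Pi (kop K f) f + δ * ip Pi f f := by
    rw [ip_comm]
    have := ip_add (Pi := Pi) (hkb.cmul 1) (hb.cmul δ) hb
    rw [ip_cmul, ip_cmul, one_mul] at this
    exact this
  -- 0 ≤ ⟨A g, g⟩
  set S := ip Pi h h with hS
  set c := ip Pi (kop K f) f with hc
  set a := ip Pi f f with ha
  set d := ip Pi (kop K f) (kop K f) with hd
  have hS0 : 0 ≤ S := ip_self_nonneg _
  have k1 : 0 ≤ c + δ * a + 2 * t * S + t * t * ((1 + δ) * S) := by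
    have : t * t * ip Pi (kop K h) h ≤ t * t * S :=
      mul_le_mul_of_nonneg_left e8 (mul_self_nonneg t)
    have e7' : 2 * t * S = 2 * t * ip Pi (kop K f) h + 2 * t * δ * ip Pi f h := by
      rw [e7]
      ring
    nlinarith
  have k2 : t * t * ((1 + δ) * S) = -t * S := by
    have : t * t * ((1 + δ) * S) = (t * (1 + δ)) * (t * S) := by ring
    rw [this, ht']
    ring
  have k3 : (1 + δ) * (c + δ * a) ≥ S := by
    have k4 : 0 ≤ c + δ * a + t * S := by linarith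
    have k5 : 0 ≤ (1 + δ) * (c + δ * a + t * S) := mul_nonneg hd0.le k4
    have k6 : (1 + δ) * (c + δ * a + t * S) = (1 + δ) * (c + δ * a) + (t * (1 + δ)) * S := by ring
    rw [k6, ht'] at k5
    linarith
  have hca : -δ * a ≤ c := hK' f hb
  have ha0 : 0 ≤ a := ip_self_nonneg _
  have goal : d ≤ c + 2 * δ * a := by
    have k7 : d ≤ (1 - δ) * c + δ * a := by nlinarith
    have k8 : δ * (-δ * a) ≤ δ * c := mul_le_mul_of_nonneg_left hca hδ
    have k9 : δ * (δ * a) ≤ 1 * (δ * a) := mul_le_mul_of_nonneg_right hδ1 (mul_nonneg hδ ha0)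
    nlinarith
  rw [← ip_self, ← ip_self]
  exact goal

theorem iter_gap (hR : Rev Pi K) (hf : MB C f) (k : ℕ) :
    ∫ x, (kop K)^[k] f x ^ 2 ∂Pi - ∫ x, (kop K)^[k + 1] f x ^ 2 ∂Pi
      ≤ 1 / (k + 1) * ∫ x, f x ^ 2 ∂Pi := by
  have := hR.prob
  have := hR.markov
  have hb := Bd.of hf
  set e : ℕ → ℝ := fun i => ip Pi ((kop K)^[i] f) ((kop K)^[i] f) with he
  have he' : ∀ i, ∫ x, (kop K)^[i] f x ^ 2 ∂Pi = e i := fun i => (ip_self _).symm
  have h1 : ∀ i, e (i + 1) ≤ e i := by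
    intro i
    rw [← he', ← he', Function.iterate_succ_apply']
    exact kop_contr hR (kop_iter_mb hf i)
  have h2 : ∀ i, e (i + 1) - e (i + 2) ≤ e i - e (i + 1) := by
    intro i
    have k1 := ip_self_nonneg (Pi := Pi)
      (fun x => 1 * (kop K)^[i] f x + (-1) * (kop K)^[i + 2] f x)
    rw [ip_expand (hb.iter (K := K) i) (hb.iter (K := K) (i + 2)) 1 (-1)
      (hb.iter (K := K) i) (hb.iter (K := K) (i + 2)) 1 (-1),
      ip_comm ((kop K)^[i + 2] f) ((kop K)^[i] f)] at k1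
    have k2 : ip Pi ((kop K)^[i] f) ((kop K)^[i + 2] f) = e (i + 1) := by
      have k3 : (kop K)^[i + 2] f = kop K ((kop K)^[i + 1] f) :=
        Function.iterate_succ_apply' _ _ _
      rw [k3, symm' hR (hb.iter (K := K) i) (hb.iter (K := K) (i + 1))]
      show _ = ip Pi ((kop K)^[i + 1] f) ((kop K)^[i + 1] f)
      have k4 : (kop K)^[i + 1] f = kop K ((kop K)^[i] f) :=
        Function.iterate_succ_apply' _ _ _
      rw [k4]
    rw [k2] at k1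
    show _ ≤ ip Pi ((kop K)^[i] f) ((kop K)^[i] f) - e (i + 1)
    have k5 : e (i + 2) = ip Pi ((kop K)^[i + 2] f) ((kop K)^[i + 2] f) := rfl
    linarith
  have h3 : ∀ n : ℕ, ((n : ℝ) + 1) * (e n - e (n + 1)) ≤ e 0 - e (n + 1) := by
    intro n
    induction n with
    | zero => simp
    | succ n ih =>
      have k1 := h2 n
      have k2 : (0 : ℝ) ≤ (n : ℝ) + 1 := by positivity
      have k3 := mul_le_mul_of_nonneg_left k1 k2
      push_cast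
      nlinarith
  have h4 : ∀ n, 0 ≤ e n := fun n => ip_self_nonneg _
  have h5 : e 0 = ∫ x, f x ^ 2 ∂Pi := by
    rw [← he']
    rfl
  rw [he', he', ← h5, one_div, inv_mul_eq_div, le_div_iff₀ (by positivity)]
  have h6 := h3 k
  have h7 := h4 (k + 1)
  linarith

theorem spec (hR : Rev Pi K) {δ : ℝ} (hδ : 0 ≤ δ) (hδ1 : δ ≤ 1)
    (hK : ∀ (C : ℝ) (f : E → ℝ), MB C f →
      -δ * ∫ x, f x ^ 2 ∂Pi ≤ ∫ x, kop K f x * f x ∂Pi) (hf : MB C f) (k : ℕ) :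
    ∫ z : E × E, ((kop K)^[k] f z.2 - (kop K)^[k] f z.1) ^ 2 ∂(Pi ⊗ₘ K)
      ≤ 2 * (1 / (k + 1) + 2 * δ) * ∫ x, f x ^ 2 ∂Pi := by
  have := hR.prob
  have := hR.markov
  set Ψ := (kop K)^[k] f with hΨ
  have hΨb : MB C Ψ := kop_iter_mb hf k
  have h1 := en_eq hR (τ := 1) one_pos hΨb hΨb
  have h2 : ∫ z : E × E, (Ψ z.2 - Ψ z.1) ^ 2 ∂(Pi ⊗ₘ K) = 2 * en 1 Pi K Ψ Ψ := by
    unfold en
    have : ∫ z : E × E, (Ψ z.2 - Ψ z.1) ^ 2 ∂(Pi ⊗ₘ K)
        = ∫ z : E × E, (Ψ z.2 - Ψ z.1) * (Ψ z.2 - Ψ z.1) ∂(Pi ⊗ₘ K) :=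
      integral_congr_ae (Eventually.of_forall fun z => pow_two _)
    rw [this]
    ring
  have hb := Bd.of hΨb
  have h3 : ∫ x, (Ψ x - kop K Ψ x) * Ψ x ∂Pi = ∫ x, Ψ x ^ 2 ∂Pi - ∫ x, kop K Ψ x * Ψ x ∂Pi := by
    rw [← integral_sub (by
      have := (hb.mul hb).int Pi
      simpa [pow_two] using this) (((Bd.kop (K := K) hb).mul hb).int Pi)]
    exact integral_congr_ae (Eventually.of_forall fun x => by
      show (Ψ x - kop K Ψ x) * Ψ x = Ψ x ^ 2 - kop K Ψ x * Ψ x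
      ring)
  have h4 := kop_sq_le hR hδ hδ1 hK hΨb
  have h5 := iter_gap hR hf k
  have h6 := kop_iter_contr hR hf k
  rw [Function.iterate_succ_apply', ← hΨ] at h5
  rw [← hΨ] at h6
  rw [h2, h1, h3]
  have h7 : 2 * δ * ∫ x, Ψ x ^ 2 ∂Pi ≤ 2 * δ * ∫ x, f x ^ 2 ∂Pi :=
    mul_le_mul_of_nonneg_left h6 (by linarith)
  have h8 : 2 * (1 / 1 * (∫ x, Ψ x ^ 2 ∂Pi - ∫ x, kop K Ψ x * Ψ x ∂Pi)) ≤
      2 * (1 / (k + 1) * ∫ x, f x ^ 2 ∂Pi + 2 * δ * ∫ x, f x ^ 2 ∂Pi) := by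
    have : (1 : ℝ) / 1 = 1 := by norm_num
    rw [this, one_mul]
    linarith
  refine h8.trans (le_of_eq ?_)
  ring

/-- `x ↦ ∫ g(x, y) K(x, dy)` -/
noncomputable def ksl (K : Kernel E E) (g : E × E → ℝ) (x : E) : ℝ := ∫ y, g (x, y) ∂(K x)

theorem ksl_mb (hR : Rev Pi K) {g : E × E → ℝ} (hg : MB C g) : MB C (ksl K g) := by
  have := hR.markov
  refine ⟨?_, fun x => ?_⟩
  · exact (hg.meas.stronglyMeasurable.integral_kernel_prod_right' (κ := K)).measurable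
  · have h := norm_integral_le_of_norm_le_const (μ := K x) (f := fun y => g (x, y)) (C := C)
      (Filter.Eventually.of_forall fun y => hg.bdd _)
    simpa [ksl] using h

theorem ksl_pair (hR : Rev Pi K) {g : E × E → ℝ} (hg : MB C g) {C' : ℝ} (hf : MB C' f) :
    ∫ x, ksl K g x * f x ∂Pi = ∫ z, g z * f z.1 ∂(Pi ⊗ₘ K) := by
  have := hR.prob
  have := hR.markov
  have := hR.edge_prob
  have hb : Bd (fun z : E × E => g z * f z.1) :=
    (Bd.of hg).mul ⟨C', hf.meas.comp measurable_fst, fun z => hf.bdd z.1⟩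
  rw [Measure.integral_compProd (hb.int _)]
  refine integral_congr_ae (Eventually.of_forall fun x => ?_)
  show ksl K g x * f x = ∫ y, g (x, y) * f x ∂(K x)
  rw [integral_mul_const]
  rfl

theorem ksl_sq (hR : Rev Pi K) {g : E × E → ℝ} (hg : MB C g) :
    ∫ x, ksl K g x ^ 2 ∂Pi ≤ ∫ z, g z ^ 2 ∂(Pi ⊗ₘ K) := by
  have := hR.prob
  have := hR.markov
  have := hR.edge_prob
  have hb2 : Bd (fun z : E × E => g z ^ 2) := by
    have := (Bd.of hg).mul (Bd.of hg)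
    simpa [pow_two] using this
  have hk2 : Bd (fun x => ksl K g x ^ 2) := by
    have := (Bd.of (ksl_mb hR hg)).mul (Bd.of (ksl_mb hR hg))
    simpa [pow_two] using this
  have hi := hb2.int (Pi ⊗ₘ K)
  rw [Measure.integral_compProd hi]
  obtain ⟨D, hD⟩ := hb2
  refine integral_mono (hk2.int Pi) ((Bd.of (ksl_mb hR hD)).int Pi) fun x => ?_
  exact sq_int_le (K x) ⟨C, hg.meas.comp measurable_prodMk_left, fun y => hg.bdd _⟩

/-- the antisymmetric estimate: `m = K^k (ksl K g)`, `‖m‖² = ⟨ksl K g, K^k m⟩ = ½ ∫ g (Ψ(x) - Ψ(y))`, `Ψ = K^k m`, then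
Cauchy-Schwarz and `spec`. -/
theorem anti_est (hR : Rev Pi K) {δ : ℝ} (hδ : 0 ≤ δ) (hδ1 : δ ≤ 1)
    (hK : ∀ (C : ℝ) (f : E → ℝ), MB C f →
      -δ * ∫ x, f x ^ 2 ∂Pi ≤ ∫ x, kop K f x * f x ∂Pi)
    {g : E × E → ℝ} (hg : MB C g) (ha : ∀ z, g z.swap = - g z) (k : ℕ) :
    ∫ x, (kop K)^[k] (ksl K g) x ^ 2 ∂Pi
      ≤ 1 / 2 * (1 / (k + 1) + 2 * δ) * ∫ z, g z ^ 2 ∂(Pi ⊗ₘ K) := by
  have := hR.prob
  have := hR.markov
  have := hR.edge_prob
  set s := ksl K g with hs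
  have hsb : MB C s := ksl_mb hR hg
  set m := (kop K)^[k] s with hm
  have hmb : MB C m := kop_iter_mb hsb k
  set Ψ := (kop K)^[k] m with hΨ
  have hΨb : MB C Ψ := kop_iter_mb hmb k
  -- self-adjointness of the iterates
  have hadj : ∀ (j : ℕ) (u v : E → ℝ), Bd u → Bd v →
      ip Pi ((kop K)^[j] u) v = ip Pi u ((kop K)^[j] v) := by
    intro j
    induction j with
    | zero => intro u v _ _; rfl
    | succ j ih =>
      intro u v hu hv
      rw [Function.iterate_succ_apply, Function.iterate_succ_apply',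
        ih _ _ (Bd.kop (K := K) hu) hv, ← symm' hR hu (hv.iter (K := K) j)]
  have h1 : ip Pi m m = ip Pi s Ψ := hadj k s m (Bd.of hsb) (Bd.of hmb)
  have h2 : ip Pi s Ψ = ∫ z, g z * Ψ z.1 ∂(Pi ⊗ₘ K) := ksl_pair hR hg hΨb
  have hgb := Bd.of hg
  have hΨ1 : Bd (fun z : E × E => Ψ z.1) := ⟨C, hΨb.meas.comp measurable_fst, fun z => hΨb.bdd z.1⟩
  have hΨ2 : Bd (fun z : E × E => Ψ z.2) := ⟨C, hΨb.meas.comp measurable_snd, fun z => hΨb.bdd z.2⟩
  have h3 : ∫ z, g z * Ψ z.1 ∂(Pi ⊗ₘ K) = - ∫ z, g z * Ψ z.2 ∂(Pi ⊗ₘ K) := by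
    have h4 : ∫ z, g z * Ψ z.1 ∂((Pi ⊗ₘ K).map Prod.swap)
        = ∫ z : E × E, g z.swap * Ψ z.swap.1 ∂(Pi ⊗ₘ K) :=
      integral_map measurable_swap.aemeasurable
        (hg.meas.mul (hΨb.meas.comp measurable_fst)).aestronglyMeasurable
    rw [hR.symm] at h4
    rw [h4, ← integral_neg]
    refine integral_congr_ae (Eventually.of_forall fun z => ?_)
    show g z.swap * Ψ z.2 = -(g z * Ψ z.2)
    rw [ha]
    ring
  have h5 : ip Pi m m = 1 / 2 * ∫ z, g z * (Ψ z.1 - Ψ z.2) ∂(Pi ⊗ₘ K) := by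
    have h6 : ∫ z, g z * (Ψ z.1 - Ψ z.2) ∂(Pi ⊗ₘ K)
        = ∫ z, g z * Ψ z.1 ∂(Pi ⊗ₘ K) - ∫ z, g z * Ψ z.2 ∂(Pi ⊗ₘ K) := by
      rw [← integral_sub ((hgb.mul hΨ1).int _) ((hgb.mul hΨ2).int _)]
      exact integral_congr_ae (Eventually.of_forall fun z => mul_sub _ _ _)
    rw [h1, h2, h6]
    linarith
  set θ : ℝ := 1 / (k + 1) + 2 * δ with hθ
  have hθ0 : 0 < θ := by
    have : (0 : ℝ) < 1 / ((k : ℝ) + 1) := by positivity
    linarith
  have hspec := spec hR hδ hδ1 hK hmb k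
  rw [← hΨ, ← hθ] at hspec
  have hg2 : Bd (fun z : E × E => g z ^ 2) := by
    have := hgb.mul hgb
    simpa [pow_two] using this
  have hd2 : Bd (fun z : E × E => (Ψ z.2 - Ψ z.1) ^ 2) := by
    have := (hΨ2.sub hΨ1).mul (hΨ2.sub hΨ1)
    simpa [pow_two] using this
  have h7 : ∫ z, g z * (Ψ z.1 - Ψ z.2) ∂(Pi ⊗ₘ K)
      ≤ θ / 2 * ∫ z, g z ^ 2 ∂(Pi ⊗ₘ K) + 1 / (2 * θ) * ∫ z : E × E, (Ψ z.2 - Ψ z.1) ^ 2 ∂(Pi ⊗ₘ K) := by
    rw [← integral_const_mul, ← integral_const_mul,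
      ← integral_add ((hg2.cmul _).int _) ((hd2.cmul _).int _)]
    refine integral_mono ((hgb.mul (hΨ1.sub hΨ2)).int _)
      (((hg2.cmul _).int _).add ((hd2.cmul _).int _)) fun z => ?_
    show g z * (Ψ z.1 - Ψ z.2) ≤ θ / 2 * g z ^ 2 + 1 / (2 * θ) * (Ψ z.2 - Ψ z.1) ^ 2
    have h8 : 0 ≤ (θ * g z + (Ψ z.2 - Ψ z.1)) ^ 2 / (2 * θ) := by positivity
    have h9 : (θ * g z + (Ψ z.2 - Ψ z.1)) ^ 2 / (2 * θ)
        = θ / 2 * g z ^ 2 + 1 / (2 * θ) * (Ψ z.2 - Ψ z.1) ^ 2 - g z * (Ψ z.1 - Ψ z.2) := by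
      field_simp
      ring
    linarith
  have h10 : 1 / (2 * θ) * ∫ z : E × E, (Ψ z.2 - Ψ z.1) ^ 2 ∂(Pi ⊗ₘ K)
      ≤ 1 / (2 * θ) * (2 * θ * ∫ x, m x ^ 2 ∂Pi) :=
    mul_le_mul_of_nonneg_left hspec (by positivity)
  have h11 : 1 / (2 * θ) * (2 * θ * ∫ x, m x ^ 2 ∂Pi) = ∫ x, m x ^ 2 ∂Pi := by
    field_simp
  rw [h11] at h10
  have h12 : ip Pi m m = ∫ x, m x ^ 2 ∂Pi := ip_self m
  rw [h12] at h5
  linarith

end Pool.Agent.Lib.MP_e19099_pr
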