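import Mathlib

/-!
# Gaussian averages of homogeneous asymptotics (module C, C1)

`ga v z = gaussianPDFReal 0 v z`.  If `|J z| ≤ C |z|^a (1 + |z|⁴)` and `|z|^{-a} J(z) → j` as `z → 0`, then
`N_n ∫ J(z) dN(0, v_n)(z) → L j ∫ |z|^a dN(0,1)` when `v_n → 0` and `N_n v_n^{a/2} → L`: with `z = √v ξ`:
`N_n J(√v_n ξ) = (N_n v_n^{a/2}) |ξ|^a (|z|^{-a} J(z))`, dominated convergence (`|·| ≤ C' |ξ|^a (1 + |ξ|⁴)` once `v_n ≤ 1`).
`gauss_abs_moment`: `∫ |z|^a dN(0,1) = 2^{a/2} Γ((a+1)/2)/√π` (substitution `x = z²/2`; `Real.Gamma_eq_integral` / `integral_rpow_mul_exp_neg_mul_sq`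
for `a > -1`).
-/

set_option autoImplicit false

open MeasureTheory ProbabilityTheory Filter Set
open scoped NNReal Topology ENNReal

namespace Pool.Agent.Lib.MP_e19099_pr

/-- the absolute moment of the standard normal distribution -/
noncomputable def gmom (a : ℝ) : ℝ := ∫ z, |z| ^ a ∂(gaussianReal 0 1)

theorem gmom_eq {a : ℝ} (ha : 0 < a) :
    gmom a = 2 ^ (a / 2) * Real.Gamma ((a + 1) / 2) / √Real.pi := by
  unfold gmom
  rw [integral_gaussianReal_eq_integral_smul one_ne_zero, gaussianPDFReal_def]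
  have e1 : ∀ x : ℝ, ((√(2 * Real.pi * ((1 : ℝ≥0) : ℝ)))⁻¹ *
      Real.exp (-(x - 0) ^ 2 / (2 * ((1 : ℝ≥0) : ℝ)))) • |x| ^ a =
      (fun y : ℝ => (√(2 * Real.pi))⁻¹ * (y ^ a * Real.exp (-(1 / 2) * y ^ (2 : ℝ)))) |x| := by
    intro x
    simp only [NNReal.coe_one, mul_one, sub_zero, smul_eq_mul]
    have h1 : -x ^ 2 / 2 = -(1 / 2) * |x| ^ (2 : ℝ) := by
      rw [Real.rpow_two, sq_abs]
      ring
    rw [h1]
    ring
  simp only [e1]
  rw [integral_comp_abs (f := fun y : ℝ => (√(2 * Real.pi))⁻¹ *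
    (y ^ a * Real.exp (-(1 / 2) * y ^ (2 : ℝ)))), integral_const_mul,
    integral_rpow_mul_exp_neg_mul_rpow (by norm_num) (by linarith) (by norm_num)]
  have h2 : (1 / 2 : ℝ) ^ (-(a + 1) / 2) = 2 ^ (a / 2) * √2 := by
    rw [one_div, Real.inv_rpow (by norm_num), ← Real.rpow_neg (by norm_num), Real.sqrt_eq_rpow,
      ← Real.rpow_add (by norm_num)]
    congr 1
    ring
  rw [h2, Real.sqrt_mul (by norm_num) Real.pi]
  have h3 : √2 ≠ 0 := by positivity
  have h4 : √Real.pi ≠ 0 := by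
    have := Real.pi_pos
    positivity
  field_simp

private theorem cg_pow_int (m : ℕ) :
    Integrable (fun z : ℝ => |z| ^ m) (gaussianReal 0 1) := by
  have h := (memLp_id_gaussianReal (μ := 0) (v := 1) (m : ℝ≥0)).integrable_norm_pow'
  simpa [Real.norm_eq_abs] using h

private theorem cg_le {a : ℝ} (ha : 0 ≤ a) {m : ℕ} (hm : a ≤ m) {x : ℝ} (hx : 0 ≤ x) :
    x ^ a ≤ 1 + x ^ m := by
  rcases le_or_gt x 1 with h | h
  · have h1 : x ^ a ≤ 1 := Real.rpow_le_one hx h ha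
    have h2 : 0 ≤ x ^ m := by positivity
    linarith
  · have h1 : x ^ a ≤ x ^ (m : ℝ) := Real.rpow_le_rpow_of_exponent_le h.le hm
    rw [Real.rpow_natCast] at h1
    linarith

theorem gmom_integrable {a : ℝ} (ha : 0 ≤ a) (k : ℕ) :
    Integrable (fun z : ℝ => |z| ^ a * (1 + |z| ^ k)) (gaussianReal 0 1) := by
  obtain ⟨m, hm⟩ := exists_nat_ge a
  have h1 : Integrable (fun z : ℝ => (1 + |z| ^ m) + (|z| ^ k + |z| ^ (m + k)))
      (gaussianReal 0 1) :=
    ((integrable_const 1).add (cg_pow_int m)).add ((cg_pow_int k).add (cg_pow_int (m + k)))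
  refine h1.mono' ?_ (Eventually.of_forall fun z => ?_)
  · exact (by fun_prop : Measurable fun z : ℝ => |z| ^ a * (1 + |z| ^ k)).aestronglyMeasurable
  · have h2 := cg_le ha hm (abs_nonneg z)
    have h3 : 0 ≤ |z| ^ a := Real.rpow_nonneg (abs_nonneg z) a
    have h4 : 0 ≤ |z| ^ k := by positivity
    rw [Real.norm_eq_abs, abs_of_nonneg (by positivity)]
    calc |z| ^ a * (1 + |z| ^ k) ≤ (1 + |z| ^ m) * (1 + |z| ^ k) :=
          mul_le_mul_of_nonneg_right h2 (by positivity)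
      _ = (1 + |z| ^ m) + (|z| ^ k + |z| ^ (m + k)) := by
          rw [pow_add]
          ring

/-- scaling -/
private theorem cg_scale (v : ℝ≥0) {J : ℝ → ℝ} (hJ : Measurable J) :
    ∫ z, J z ∂(gaussianReal 0 v) = ∫ z, J (√(v : ℝ) * z) ∂(gaussianReal 0 1) := by
  have h1 := gaussianReal_map_const_mul (μ := 0) (v := 1) (√(v : ℝ))
  have h2 : (NNReal.mk (√(v : ℝ) ^ 2) (sq_nonneg _) * 1 : ℝ≥0) = v := by
    rw [mul_one]
    apply NNReal.coe_injective
    exact Real.sq_sqrt v.coe_nonneg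
  rw [mul_zero, h2] at h1
  rw [← h1, integral_map (by fun_prop) hJ.aestronglyMeasurable]

private theorem cg_C {a C : ℝ} {J : ℝ → ℝ} (hb : ∀ z, |J z| ≤ C * |z| ^ a * (1 + |z| ^ 4)) :
    0 ≤ C := by
  have h1 := hb 1
  rw [abs_one, Real.one_rpow] at h1
  have h2 := abs_nonneg (J 1)
  norm_num at h1
  linarith

private theorem cg_bound {a C : ℝ} {J : ℝ → ℝ}
    (hb : ∀ z, |J z| ≤ C * |z| ^ a * (1 + |z| ^ 4)) {v : ℝ≥0} (hv : 0 < v) (z : ℝ) :
    |((v : ℝ) ^ (a / 2))⁻¹ * J (√(v : ℝ) * z)| ≤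
      C * (|z| ^ a * (1 + (v : ℝ) ^ 2 * |z| ^ 4)) := by
  have hv' : (0 : ℝ) < v := hv
  have hs : 0 < √(v : ℝ) := Real.sqrt_pos.mpr hv'
  have hp : 0 < (v : ℝ) ^ (a / 2) := Real.rpow_pos_of_pos hv' _
  rw [abs_mul, abs_of_pos (inv_pos.mpr hp), inv_mul_le_iff₀ hp]
  refine (hb _).trans (le_of_eq ?_)
  have e1 : |√(v : ℝ) * z| = √(v : ℝ) * |z| := by rw [abs_mul, abs_of_pos hs]
  have e2 : √(v : ℝ) ^ a = (v : ℝ) ^ (a / 2) := by
    rw [Real.sqrt_eq_rpow, ← Real.rpow_mul hv'.le]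
    congr 1
    ring
  have e3 : √(v : ℝ) ^ 4 = (v : ℝ) ^ 2 := by
    have : √(v : ℝ) ^ 4 = (√(v : ℝ) ^ 2) ^ 2 := by ring
    rw [this, Real.sq_sqrt hv'.le]
  rw [e1, Real.mul_rpow hs.le (abs_nonneg z), mul_pow, e2, e3]
  ring

theorem gauss_avg {a C j L : ℝ} (ha : 0 ≤ a) {J : ℝ → ℝ} (hJ : Measurable J)
    (hb : ∀ z, |J z| ≤ C * |z| ^ a * (1 + |z| ^ 4))
    (hl : Tendsto (fun z : ℝ => |z| ^ (-a) * J z) (𝓝[≠] 0) (𝓝 j)) {v : ℕ → ℝ≥0}
    (hv : ∀ n, 0 < v n) (hv0 : Tendsto v atTop (𝓝 0)) {N : ℕ → ℝ}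
    (hN : Tendsto (fun n => N n * (v n : ℝ) ^ (a / 2)) atTop (𝓝 L)) :
    Tendsto (fun n => N n * ∫ z, J z ∂(gaussianReal 0 (v n))) atTop (𝓝 (L * j * gmom a)) := by
  have hC := cg_C hb
  have hvr : Tendsto (fun n => (v n : ℝ)) atTop (𝓝 0) := by
    have := (NNReal.continuous_coe.tendsto 0).comp hv0
    rwa [NNReal.coe_zero] at this
  -- dominated convergence
  have hdom : Tendsto (fun n => ∫ z, ((v n : ℝ) ^ (a / 2))⁻¹ * J (√(v n : ℝ) * z)
      ∂(gaussianReal 0 1)) atTop (𝓝 (∫ z, j * |z| ^ a ∂(gaussianReal 0 1))) := by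
    refine tendsto_integral_filter_of_dominated_convergence
      (fun z => C * (|z| ^ a * (1 + |z| ^ 4))) ?_ ?_ ?_ ?_
    · refine Eventually.of_forall fun n => ?_
      have : Measurable fun z : ℝ => J (√(v n : ℝ) * z) := hJ.comp (by fun_prop)
      exact (this.const_mul _).aestronglyMeasurable
    · filter_upwards [hvr.eventually (gt_mem_nhds one_pos)] with n hn
      refine Eventually.of_forall fun z => ?_
      rw [Real.norm_eq_abs]
      refine (cg_bound hb (hv n) z).trans ?_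
      refine mul_le_mul_of_nonneg_left ?_ hC
      refine mul_le_mul_of_nonneg_left ?_ (Real.rpow_nonneg (abs_nonneg z) a)
      have h1 : (v n : ℝ) ^ 2 ≤ 1 := pow_le_one₀ (v n).coe_nonneg hn.le
      have h2 : 0 ≤ |z| ^ 4 := by positivity
      nlinarith
    · exact (gmom_integrable ha 4).const_mul C
    · have hne : ∀ᵐ z : ℝ ∂(gaussianReal 0 1), z ≠ 0 := by
        have := nullSingletonClass_gaussianReal (μ := 0) (v := 1) one_ne_zero
        rw [ae_iff]
        simp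
      filter_upwards [hne] with z hz
      have hz' : 0 < |z| := abs_pos.mpr hz
      have h1 : Tendsto (fun n => √(v n : ℝ) * z) atTop (𝓝[≠] 0) := by
        rw [tendsto_nhdsWithin_iff]
        constructor
        · have h2 : Tendsto (fun n => √(v n : ℝ)) atTop (𝓝 (√0)) :=
            (Real.continuous_sqrt.tendsto 0).comp hvr
          have h3 := h2.mul_const z
          rwa [Real.sqrt_zero, zero_mul] at h3
        · refine Eventually.of_forall fun n => ?_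
          have hv' : (0 : ℝ) < v n := hv n
          exact mul_ne_zero (Real.sqrt_pos.mpr hv').ne' hz
      have h4 := (hl.comp h1).mul_const (|z| ^ a)
      refine h4.congr fun n => ?_
      have hv' : (0 : ℝ) < v n := hv n
      have hs : 0 < √(v n : ℝ) := Real.sqrt_pos.mpr hv'
      have hp : 0 < (v n : ℝ) ^ (a / 2) := Real.rpow_pos_of_pos hv' _
      rw [Function.comp_apply]
      have e1 : |√(v n : ℝ) * z| = √(v n : ℝ) * |z| := by rw [abs_mul, abs_of_pos hs]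
      have e2 : √(v n : ℝ) ^ a = (v n : ℝ) ^ (a / 2) := by
        rw [Real.sqrt_eq_rpow, ← Real.rpow_mul hv'.le]
        congr 1
        ring
      rw [e1, Real.rpow_neg (by positivity), Real.mul_rpow hs.le (abs_nonneg z), e2]
      have hza : 0 < |z| ^ a := Real.rpow_pos_of_pos hz' a
      field_simp
  have h5 : ∫ z, j * |z| ^ a ∂(gaussianReal 0 1) = j * gmom a := by
    rw [integral_const_mul]
    rfl
  rw [h5] at hdom
  have h6 := hN.mul hdom
  have h7 : L * (j * gmom a) = L * j * gmom a := by ring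
  rw [h7] at h6
  refine h6.congr fun n => ?_
  have hv' : (0 : ℝ) < v n := hv n
  have hp : 0 < (v n : ℝ) ^ (a / 2) := Real.rpow_pos_of_pos hv' _
  rw [cg_scale (v n) hJ, integral_const_mul]
  have h8 : (v n : ℝ) ^ (a / 2) * ((v n : ℝ) ^ (a / 2))⁻¹ = 1 := mul_inv_cancel₀ hp.ne'
  linear_combination (N n * ∫ z, J (√(v n : ℝ) * z) ∂(gaussianReal 0 1)) * h8

/-- uniform bound -/
theorem gauss_avg_bdd {a C L : ℝ} (ha : 0 ≤ a) {J : ℝ → ℝ} (hJ : Measurable J)
    (hb : ∀ z, |J z| ≤ C * |z| ^ a * (1 + |z| ^ 4)) {v : ℕ → ℝ≥0}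
    (hv : ∀ n, 0 < v n) (hv0 : Tendsto v atTop (𝓝 0)) {N : ℕ → ℝ} (hN0 : ∀ n, 0 ≤ N n)
    (hN : Tendsto (fun n => N n * (v n : ℝ) ^ (a / 2)) atTop (𝓝 L)) :
    ∃ C' : ℝ, ∀ n, N n * ∫ z, |J z| ∂(gaussianReal 0 (v n)) ≤ C' := by
  have hC := cg_C hb
  have hvr : Tendsto (fun n => (v n : ℝ)) atTop (𝓝 0) := by
    have := (NNReal.continuous_coe.tendsto 0).comp hv0
    rwa [NNReal.coe_zero] at this
  obtain ⟨V, hV⟩ := hvr.bddAbove_range
  obtain ⟨K, hK⟩ := hN.bddAbove_range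
  have hV' : ∀ n, (v n : ℝ) ≤ V := fun n => hV ⟨n, rfl⟩
  have hK' : ∀ n, N n * (v n : ℝ) ^ (a / 2) ≤ K := fun n => hK ⟨n, rfl⟩
  have hV0 : 0 ≤ V := (v 0).coe_nonneg.trans (hV' 0)
  set G := ∫ z, |z| ^ a * (1 + |z| ^ 4) ∂(gaussianReal 0 1) with hG
  have hG0 : 0 ≤ G := integral_nonneg fun z => by
    have := Real.rpow_nonneg (abs_nonneg z) a
    positivity
  refine ⟨K * (C * (1 + V ^ 2) * G), fun n => ?_⟩
  have hv' : (0 : ℝ) < v n := hv n
  have hp : 0 < (v n : ℝ) ^ (a / 2) := Real.rpow_pos_of_pos hv' _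
  have hJa : Measurable fun z => |J z| := by fun_prop
  rw [cg_scale (v n) hJa]
  have h1 : ∫ z, |J (√(v n : ℝ) * z)| ∂(gaussianReal 0 1) ≤
      (v n : ℝ) ^ (a / 2) * (C * (1 + V ^ 2) * G) := by
    rw [hG, ← integral_const_mul, ← integral_const_mul]
    refine integral_mono_of_nonneg (Eventually.of_forall fun z => abs_nonneg _)
      (((gmom_integrable ha 4).const_mul _).const_mul _) (Eventually.of_forall fun z => ?_)
    have h2 := cg_bound hb (hv n) z
    rw [abs_mul, abs_of_pos (inv_pos.mpr hp), inv_mul_le_iff₀ hp] at h2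
    refine h2.trans ?_
    refine mul_le_mul_of_nonneg_left ?_ hp.le
    have h3 : 0 ≤ |z| ^ a := Real.rpow_nonneg (abs_nonneg z) a
    have h4 : (v n : ℝ) ^ 2 ≤ V ^ 2 := pow_le_pow_left₀ hv'.le (hV' n) 2
    have h5 : 0 ≤ |z| ^ 4 := by positivity
    have h6 : 1 + (v n : ℝ) ^ 2 * |z| ^ 4 ≤ (1 + V ^ 2) * (1 + |z| ^ 4) := by
      nlinarith [mul_le_mul_of_nonneg_right h4 h5, sq_nonneg V]
    calc C * (|z| ^ a * (1 + (v n : ℝ) ^ 2 * |z| ^ 4)) ≤
        C * (|z| ^ a * ((1 + V ^ 2) * (1 + |z| ^ 4))) :=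
          mul_le_mul_of_nonneg_left (mul_le_mul_of_nonneg_left h6 h3) hC
      _ = C * (1 + V ^ 2) * (|z| ^ a * (1 + |z| ^ 4)) := by ring
  calc N n * ∫ z, |J (√(v n : ℝ) * z)| ∂(gaussianReal 0 1) ≤
      N n * ((v n : ℝ) ^ (a / 2) * (C * (1 + V ^ 2) * G)) :=
        mul_le_mul_of_nonneg_left h1 (hN0 n)
    _ = (N n * (v n : ℝ) ^ (a / 2)) * (C * (1 + V ^ 2) * G) := by ring
    _ ≤ K * (C * (1 + V ^ 2) * G) :=
        mul_le_mul_of_nonneg_right (hK' n) (by positivity)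

/-- tails: everything of polynomial growth away from `0` is negligible compared with any power of `v` -/
theorem gauss_tail {C : ℝ} {k : ℕ} {δ : ℝ} (hδ : 0 < δ) (m : ℕ) {v : ℕ → ℝ≥0}
    (hv : ∀ n, 0 < v n) (hv0 : Tendsto v atTop (𝓝 0)) :
    Tendsto (fun n => ((v n : ℝ) ^ m)⁻¹ *
      ∫ z in {z : ℝ | δ < |z|}, C * (1 + |z| ^ k) ∂(gaussianReal 0 (v n))) atTop (𝓝 0) := by
  have hvr : Tendsto (fun n => (v n : ℝ)) atTop (𝓝 0) := by
    have := (NNReal.continuous_coe.tendsto 0).comp hv0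
    rwa [NNReal.coe_zero] at this
  have hms : MeasurableSet {z : ℝ | δ < |z|} := measurableSet_lt measurable_const (by fun_prop)
  set J : ℝ → ℝ := ({z : ℝ | δ < |z|}).indicator fun z => C * (1 + |z| ^ k) with hJd
  have hJ : Measurable J := Measurable.indicator (by fun_prop) hms
  set A : ℝ := 2 * ((m : ℝ) + k) with hA
  have hA0 : 0 ≤ A := by positivity
  have hAn : ∀ x : ℝ, 0 ≤ x → x ^ A = x ^ (2 * (m + k)) := by
    intro x hx
    rw [hA, ← Real.rpow_natCast]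
    congr 1
    push_cast
    ring
  set D : ℝ := (δ ^ (2 * (m + k)))⁻¹ with hD
  have hD0 : 0 < D := by positivity
  have hb : ∀ z, |J z| ≤ (|C| * (2 * D + 1)) * |z| ^ A * (1 + |z| ^ 4) := by
    intro z
    rw [hAn _ (abs_nonneg z)]
    by_cases hz : δ < |z|
    · have h1 : J z = C * (1 + |z| ^ k) := indicator_of_mem (show z ∈ {z : ℝ | δ < |z|} from hz) _
      have hz0 : 0 < |z| := hδ.trans hz
      have h2 : 1 ≤ D * |z| ^ (2 * (m + k)) := by
        rw [hD, le_inv_mul_iff₀ (by positivity), mul_one]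
        exact pow_le_pow_left₀ hδ.le hz.le _
      have h3 : |z| ^ k ≤ (D + 1) * |z| ^ (2 * (m + k)) := by
        rcases le_or_gt |z| 1 with h | h
        · have h4 : |z| ^ k ≤ 1 := pow_le_one₀ hz0.le h
          have h5 : 0 ≤ |z| ^ (2 * (m + k)) := by positivity
          linarith
        · have h4 : |z| ^ k ≤ |z| ^ (2 * (m + k)) := pow_le_pow_right₀ h.le (by omega)
          have h5 : 0 ≤ D * |z| ^ (2 * (m + k)) := by positivity
          linarith
      rw [h1, abs_mul, abs_of_nonneg (by positivity : (0 : ℝ) ≤ 1 + |z| ^ k), mul_assoc, mul_assoc]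
      refine mul_le_mul_of_nonneg_left ?_ (abs_nonneg C)
      have h6 : 1 + |z| ^ k ≤ (2 * D + 1) * |z| ^ (2 * (m + k)) := by linarith
      refine h6.trans (mul_le_mul_of_nonneg_left ?_ (by positivity))
      have h7 : 0 ≤ |z| ^ 4 := by positivity
      have h8 : 0 ≤ |z| ^ (2 * (m + k)) := by positivity
      nlinarith [mul_nonneg h7 h8]
    · have h1 : J z = 0 := indicator_of_notMem (show z ∉ {z : ℝ | δ < |z|} from hz) _
      rw [h1, abs_zero]
      positivity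
  have hl : Tendsto (fun z : ℝ => |z| ^ (-A) * J z) (𝓝[≠] 0) (𝓝 0) := by
    refine tendsto_const_nhds.congr' ?_
    have h1 : ∀ᶠ z : ℝ in 𝓝 0, |z| < δ := by
      have : Tendsto (fun z : ℝ => |z|) (𝓝 0) (𝓝 |0|) := (continuous_abs).tendsto 0
      rw [abs_zero] at this
      exact this.eventually (gt_mem_nhds hδ)
    filter_upwards [nhdsWithin_le_nhds h1] with z hz
    have h2 : J z = 0 := indicator_of_notMem
      (show z ∉ {z : ℝ | δ < |z|} from fun h => lt_irrefl _ (lt_trans h hz)) _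
    rw [h2, mul_zero]
  have hN : Tendsto (fun n => ((v n : ℝ) ^ m)⁻¹ * (v n : ℝ) ^ (A / 2)) atTop
      (𝓝 ((0 : ℝ) ^ k)) := by
    have h1 : Tendsto (fun n => (v n : ℝ) ^ k) atTop (𝓝 ((0 : ℝ) ^ k)) := hvr.pow k
    refine h1.congr fun n => ?_
    have hv' : (0 : ℝ) < v n := hv n
    have h2 : (v n : ℝ) ^ (A / 2) = (v n : ℝ) ^ (m + k) := by
      rw [hA, ← Real.rpow_natCast]
      congr 1
      push_cast
      ring
    rw [h2, pow_add, ← mul_assoc, inv_mul_cancel₀ (by positivity), one_mul]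
  have h := gauss_avg hA0 hJ hb hl hv hv0 hN
  rw [mul_zero, zero_mul] at h
  refine h.congr fun n => ?_
  rw [hJd, integral_indicator hms]

end Pool.Agent.Lib.MP_e19099_pr
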