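import Pool.Agent.Lib.MP_e19099_pr.CPar
import Pool.Agent.Lib.MP_e19099_pr.Core

/-!
# The generator condition without densities (module C/E, C7a)

`taylor_small2`: Taylor expansion of `Q x = ∫_0^x t` in `L¹(dx)`: `Q(x+z) - Q(x) - z t(x) - z² t'(x)/2 = ∫_x^{x+z} ∫_x^u (t'(r) - t'(x)) dr du`, `t'` is
uniformly continuous with support in `[-A, A]`, `x` ranges in `[-A-1, A+1]` for `|z| ≤ 1`; `J z = 1_{|z| ≤ 1} (2A+2) ω(|z|) z²`, with
`ω(r) = sup_{|x-y| ≤ r} |t' x - t' y|` (monotone in `r`, hence measurable), or `J z = 1_{|z| ≤ 1} · (the integral)` itself (measurable by Fubini).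
`core_gen`: `∫_{|z| ≤ 1} z t(x) dN = 0`, `|w| ≤ 1`, `small_avg` and `sq_avg`.
-/

set_option autoImplicit false

open MeasureTheory ProbabilityTheory Filter Set
open scoped NNReal Topology ENNReal

namespace Pool.Agent.Lib.MP_e19099_pr

variable {t : ℝ → ℝ}

namespace CGenAux

/-- the Taylor remainder -/
noncomputable def FT (t : ℝ → ℝ) (z x : ℝ) : ℝ :=
  (∫ u in x..(x + z), t u) - z * t x - z ^ 2 / 2 * deriv t x

theorem prim_cont (ht : IsTest t) : Continuous fun q : ℝ × ℝ => ∫ u in q.2..(q.2 + q.1), t u := by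
  have hc := ht.smooth.continuous
  have hP : Continuous fun x => ∫ u in (0:ℝ)..x, t u :=
    intervalIntegral.continuous_primitive (fun a b => hc.intervalIntegrable a b) 0
  have h1 : (fun q : ℝ × ℝ => ∫ u in q.2..(q.2 + q.1), t u) =
      fun q => (∫ u in (0:ℝ)..(q.2 + q.1), t u) - ∫ u in (0:ℝ)..q.2, t u := by
    funext q
    rw [intervalIntegral.integral_interval_sub_left (hc.intervalIntegrable _ _)
      (hc.intervalIntegrable _ _)]
  rw [h1]
  exact (hP.comp (continuous_snd.add continuous_fst)).sub (hP.comp continuous_snd)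

theorem FT_cont (ht : IsTest t) : Continuous fun q : ℝ × ℝ => FT t q.1 q.2 := by
  have hc := ht.smooth.continuous
  have hc' : Continuous (deriv t) := ht.smooth.continuous_deriv le_rfl
  unfold FT
  exact ((prim_cont ht).sub (continuous_fst.mul (hc.comp continuous_snd))).sub
    (((continuous_fst.pow 2).div_const 2).mul (hc'.comp continuous_snd))

theorem FT_bound (ht : IsTest t) {z x η : ℝ}
    (h : ∀ r, |r - x| ≤ |z| → |deriv t r - deriv t x| ≤ η) : |FT t z x| ≤ η * z ^ 2 := by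
  have hc := ht.smooth.continuous
  have hd : Differentiable ℝ t := ht.smooth.differentiable one_ne_zero
  have hη : 0 ≤ η := (abs_nonneg _).trans (h x (by simp))
  have h1 : FT t z x = ∫ u in x..(x + z), (t u - t x - (u - x) * deriv t x) := by
    have i1 : IntervalIntegrable (fun u => t u) volume x (x + z) := hc.intervalIntegrable _ _
    have i2 : IntervalIntegrable (fun _ : ℝ => t x) volume x (x + z) :=
      continuous_const.intervalIntegrable _ _
    have i3 : IntervalIntegrable (fun u : ℝ => (u - x) * deriv t x) volume x (x + z) :=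
      ((continuous_id.sub continuous_const).mul continuous_const).intervalIntegrable _ _
    have h2 : ∫ u in x..(x + z), (u - x) = z ^ 2 / 2 := by
      have j1 : IntervalIntegrable (fun u : ℝ => u) volume x (x + z) :=
        continuous_id.intervalIntegrable _ _
      have j2 : IntervalIntegrable (fun _ : ℝ => x) volume x (x + z) :=
        continuous_const.intervalIntegrable _ _
      rw [intervalIntegral.integral_sub j1 j2, intervalIntegral.integral_const, integral_id,
        smul_eq_mul]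
      ring
    rw [intervalIntegral.integral_sub (i1.sub i2) i3, intervalIntegral.integral_sub i1 i2,
      intervalIntegral.integral_const, intervalIntegral.integral_mul_const, h2, smul_eq_mul]
    unfold FT
    ring
  rw [h1]
  have h3 : ∀ u ∈ uIoc x (x + z), ‖t u - t x - (u - x) * deriv t x‖ ≤ η * |z| := by
    intro u hu
    have hux : |u - x| ≤ |z| := by
      have := abs_sub_left_of_mem_uIcc (uIoc_subset_uIcc hu)
      simpa using this
    have h4 := Convex.norm_image_sub_le_of_norm_hasDerivWithin_le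
      (f := fun r => t r - r * deriv t x) (f' := fun r => deriv t r - deriv t x)
      (s := Metric.closedBall x |z|) (x := x) (y := u) (C := η)
      (fun r _ => by
        have e1 := (hd r).hasDerivAt
        have e2 : HasDerivAt (fun r : ℝ => r * deriv t x) (deriv t x) r := by
          simpa using (hasDerivAt_id r).mul_const (deriv t x)
        exact (e1.sub e2).hasDerivWithinAt)
      (fun r hr => by
        rw [Real.norm_eq_abs]
        apply h
        rw [Metric.mem_closedBall, Real.dist_eq] at hr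
        exact hr)
      (convex_closedBall _ _) (Metric.mem_closedBall_self (abs_nonneg _))
      (by rw [Metric.mem_closedBall, Real.dist_eq]; exact hux)
    have h5 : t u - t x - (u - x) * deriv t x = (t u - u * deriv t x) - (t x - x * deriv t x) := by
      ring
    rw [h5]
    refine h4.trans (mul_le_mul_of_nonneg_left ?_ hη)
    rw [Real.norm_eq_abs]
    exact hux
  have h6 := intervalIntegral.norm_integral_le_of_norm_le_const h3
  rw [Real.norm_eq_abs, add_sub_cancel_left, mul_assoc, abs_mul_abs_self] at h6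
  rw [sq]
  exact h6

theorem exists_supp (ht : IsTest t) : ∃ A : ℝ, 0 < A ∧ ∀ x, x ∉ Ioo (-A) A → t x = 0 ∧ deriv t x = 0 := by
  obtain ⟨A, hA0, hA⟩ := ht.supp.isCompact.isBounded.subset_ball_lt 0 0
  have hA' : tsupport t ⊆ Ioo (-A) A := by
    rw [Real.ball_eq_Ioo, zero_sub, zero_add] at hA
    exact hA
  refine ⟨A, hA0, fun x hx => ⟨?_, ?_⟩⟩
  · by_contra hne
    exact hx (hA' (subset_tsupport t hne))
  · by_contra hne
    exact hx (hA' (support_deriv_subset hne))

theorem prim_zero {A z x : ℝ} (hA : ∀ x, x ∉ Ioo (-A) A → t x = 0 ∧ deriv t x = 0) (hz : |z| ≤ 1)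
    (hx : x ∉ Icc (-(A + 1)) (A + 1)) : (∫ u in x..(x + z), t u) = 0 := by
  have h1 : EqOn t (fun _ => (0 : ℝ)) (uIcc x (x + z)) := by
    intro u hu
    have hux : |u - x| ≤ 1 := by
      have := abs_sub_left_of_mem_uIcc hu
      simp only [add_sub_cancel_left] at this
      exact this.trans hz
    apply (hA u _).1
    intro h2
    apply hx
    rw [abs_le] at hux
    constructor
    · linarith [h2.1]
    · linarith [h2.2]
  rw [intervalIntegral.integral_congr h1, intervalIntegral.integral_zero]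

theorem FT_zero {A z x : ℝ} (hA : ∀ x, x ∉ Ioo (-A) A → t x = 0 ∧ deriv t x = 0) (hz : |z| ≤ 1)
    (hx : x ∉ Icc (-(A + 1)) (A + 1)) : FT t z x = 0 := by
  have hx' : x ∉ Ioo (-A) A := fun h => hx ⟨by linarith [h.1], by linarith [h.2]⟩
  unfold FT
  rw [prim_zero hA hz hx, (hA x hx').1, (hA x hx').2]
  ring

theorem FT_integrable (ht : IsTest t) {A z : ℝ} (hA : ∀ x, x ∉ Ioo (-A) A → t x = 0 ∧ deriv t x = 0)
    (hz : |z| ≤ 1) : Integrable (fun x => |FT t z x|) := by
  have hc : Continuous fun x => |FT t z x| :=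
    ((FT_cont ht).comp (continuous_const.prodMk continuous_id)).abs
  refine hc.integrable_of_hasCompactSupport
    (HasCompactSupport.intro (isCompact_Icc (a := -(A + 1)) (b := A + 1)) fun x hx => ?_)
  rw [FT_zero hA hz hx, abs_zero]

theorem FT_int (ht : IsTest t) {A z η : ℝ} (hA0 : 0 < A)
    (hA : ∀ x, x ∉ Ioo (-A) A → t x = 0 ∧ deriv t x = 0) (hz : |z| ≤ 1)
    (h : ∀ x r, |r - x| ≤ |z| → |deriv t r - deriv t x| ≤ η) :
    ∫ x, |FT t z x| ≤ η * z ^ 2 * (2 * A + 2) := by
  rw [← setIntegral_eq_integral_of_forall_compl_eq_zero (s := Icc (-(A + 1)) (A + 1))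
    (fun x hx => by rw [FT_zero hA hz hx, abs_zero])]
  have h1 := norm_setIntegral_le_of_norm_le_const (μ := volume) (s := Icc (-(A + 1)) (A + 1))
    (f := fun x => |FT t z x|) (C := η * z ^ 2) (by simp)
    (fun x _ => by
      rw [Real.norm_eq_abs, abs_abs]
      exact FT_bound ht (h x))
  refine (le_abs_self _).trans (h1.trans (le_of_eq ?_))
  rw [Real.volume_real_Icc_of_le (by linarith)]
  ring

/-- the `L¹` norm of the remainder, cut off at `|z| ≤ 1` -/
noncomputable def JT (t : ℝ → ℝ) : ℝ → ℝ := {z : ℝ | |z| ≤ 1}.indicator (fun z => ∫ x, |FT t z x|)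

theorem measS : MeasurableSet {z : ℝ | |z| ≤ 1} := measurableSet_le measurable_abs measurable_const

theorem JT_of_le {z : ℝ} (hz : |z| ≤ 1) : JT t z = ∫ x, |FT t z x| :=
  Set.indicator_of_mem (show z ∈ {z : ℝ | |z| ≤ 1} from hz) _

theorem JT_of_not_le {z : ℝ} (hz : ¬ |z| ≤ 1) : JT t z = 0 :=
  Set.indicator_of_notMem (show z ∉ {z : ℝ | |z| ≤ 1} from hz) _

theorem JT_nonneg (t : ℝ → ℝ) (z : ℝ) : 0 ≤ JT t z := by
  by_cases hz : |z| ≤ 1
  · rw [JT_of_le hz]
    exact integral_nonneg fun x => abs_nonneg _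
  · rw [JT_of_not_le hz]

theorem JT_meas (ht : IsTest t) : Measurable (JT t) := by
  have h1 : StronglyMeasurable (fun q : ℝ × ℝ => |FT t q.1 q.2|) :=
    (FT_cont ht).abs.stronglyMeasurable
  exact (h1.integral_prod_right').measurable.indicator measS

theorem JT_le (ht : IsTest t) : ∃ C : ℝ, 0 ≤ C ∧ ∀ z, JT t z ≤ C * z ^ 2 := by
  obtain ⟨A, hA0, hA⟩ := exists_supp ht
  have hc' : Continuous (deriv t) := ht.smooth.continuous_deriv le_rfl
  obtain ⟨C0, hC0⟩ := hc'.bounded_above_of_compact_support ht.supp.deriv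
  have hC00 : 0 ≤ C0 := (norm_nonneg _).trans (hC0 0)
  refine ⟨2 * C0 * (2 * A + 2), by positivity, fun z => ?_⟩
  by_cases hz : |z| ≤ 1
  · rw [JT_of_le hz]
    have h1 := FT_int ht (z := z) (η := 2 * C0) hA0 hA hz (fun x r _ => by
      have e1 := hC0 r
      have e2 := hC0 x
      rw [Real.norm_eq_abs] at e1 e2
      calc |deriv t r - deriv t x| ≤ |deriv t r| + |deriv t x| := abs_sub _ _
        _ ≤ 2 * C0 := by linarith)
    calc _ ≤ _ := h1
      _ = _ := by ring
  · rw [JT_of_not_le hz]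
    positivity

theorem JT_bound (ht : IsTest t) : ∃ C : ℝ, ∀ z, |JT t z| ≤ C * z ^ 2 * (1 + z ^ 4) := by
  obtain ⟨C, hC0, hC⟩ := JT_le ht
  refine ⟨C, fun z => ?_⟩
  rw [abs_of_nonneg (JT_nonneg t z)]
  have hz4 : 0 ≤ z ^ 4 := by positivity
  have hpos : 0 ≤ C * z ^ 2 := by positivity
  nlinarith [mul_nonneg hpos hz4, hC z]

theorem JT_small (ht : IsTest t) (ε : ℝ) (hε : 0 < ε) :
    ∃ δ : ℝ, 0 < δ ∧ ∀ z, |z| ≤ δ → |JT t z| ≤ ε * z ^ 2 := by
  obtain ⟨A, hA0, hA⟩ := exists_supp ht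
  have hc' : Continuous (deriv t) := ht.smooth.continuous_deriv le_rfl
  have huc : UniformContinuous (deriv t) := ht.supp.deriv.uniformContinuous_of_continuous hc'
  rw [Metric.uniformContinuous_iff] at huc
  obtain ⟨δ, hδ, hδ'⟩ := huc (ε / (2 * A + 2)) (by positivity)
  refine ⟨δ / 2, by positivity, fun z hz => ?_⟩
  rw [abs_of_nonneg (JT_nonneg t z)]
  by_cases hz1 : |z| ≤ 1
  · rw [JT_of_le hz1]
    have h1 := FT_int ht (z := z) (η := ε / (2 * A + 2)) hA0 hA hz1 (fun x r hr => by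
      have e1 := @hδ' r x (by rw [Real.dist_eq]; linarith)
      rw [Real.dist_eq] at e1
      exact e1.le)
    have h2 : ε / (2 * A + 2) * z ^ 2 * (2 * A + 2) = ε * z ^ 2 := by
      have : 2 * A + 2 ≠ 0 := by positivity
      field_simp
    rw [h2] at h1
    exact h1
  · rw [JT_of_not_le hz1]
    positivity

theorem S_eq : {z : ℝ | |z| ≤ 1} = Icc (-1) 1 := by
  ext z
  simp [abs_le]

theorem cont_int {N : Measure ℝ} [IsProbabilityMeasure N] {f : ℝ → ℝ} (hf : Continuous f) :
    Integrable f (N.restrict {z : ℝ | |z| ≤ 1}) := by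
  rw [S_eq]
  exact hf.integrableOn_Icc

theorem odd_zero (v : ℝ≥0) : ∫ z in {z : ℝ | |z| ≤ 1}, z ∂(gaussianReal 0 v) = 0 := by
  rw [← integral_indicator measS]
  set g : ℝ → ℝ := {z : ℝ | |z| ≤ 1}.indicator (fun z => z) with hg
  have hgm : Measurable g := measurable_id.indicator measS
  have hodd : ∀ z, g (-z) = - g z := by
    intro z
    by_cases hz : |z| ≤ 1
    · rw [hg, Set.indicator_of_mem (show z ∈ {z : ℝ | |z| ≤ 1} from hz),
        Set.indicator_of_mem (show -z ∈ {z : ℝ | |z| ≤ 1} by rw [mem_ofPred_eq, abs_neg]; exact hz)]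
    · rw [hg, Set.indicator_of_notMem (show z ∉ {z : ℝ | |z| ≤ 1} from hz),
        Set.indicator_of_notMem (show -z ∉ {z : ℝ | |z| ≤ 1} by rw [mem_ofPred_eq, abs_neg]; exact hz),
        neg_zero]
  have h1 : (gaussianReal 0 v).map (fun z => -z) = gaussianReal 0 v := by
    have := gaussianReal_map_neg (μ := 0) (v := v)
    rwa [neg_zero] at this
  have h2 : ∫ z, g z ∂(gaussianReal 0 v) = ∫ z, g (-z) ∂(gaussianReal 0 v) := by
    conv_lhs => rw [← h1]
    rw [integral_map measurable_neg.aemeasurable hgm.aestronglyMeasurable]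
  have h3 : ∫ z, g (-z) ∂(gaussianReal 0 v) = - ∫ z, g z ∂(gaussianReal 0 v) := by
    rw [← integral_neg]
    exact integral_congr_ae (Filter.Eventually.of_forall fun z => hodd z)
  rw [h3] at h2
  linarith

variable {N : Measure ℝ}

theorem prod_int (ht : IsTest t) [IsProbabilityMeasure N] :
    Integrable (fun q : ℝ × ℝ => FT t q.2 q.1) (volume.prod (N.restrict {z : ℝ | |z| ≤ 1})) := by
  obtain ⟨A, hA0, hA⟩ := exists_supp ht
  have hcont : Continuous (fun q : ℝ × ℝ => FT t q.2 q.1) := (FT_cont ht).comp continuous_swap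
  rw [integrable_prod_iff' hcont.aestronglyMeasurable]
  have hae : ∀ᵐ z ∂(N.restrict {z : ℝ | |z| ≤ 1}), |z| ≤ 1 := ae_restrict_mem measS
  constructor
  · filter_upwards [hae] with z hz
    have h1 := FT_integrable ht hA hz
    have h2 : Continuous fun x => FT t z x :=
      (FT_cont ht).comp (continuous_const.prodMk continuous_id)
    exact (integrable_norm_iff h2.aestronglyMeasurable).mp h1
  · obtain ⟨C, hC0, hC⟩ := JT_le ht
    have h1 : StronglyMeasurable (fun q : ℝ × ℝ => ‖FT t q.1 q.2‖) :=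
      (FT_cont ht).norm.stronglyMeasurable
    refine Integrable.of_bound (h1.integral_prod_right').aestronglyMeasurable C ?_
    filter_upwards [hae] with z hz
    have h2 := hC z
    rw [JT_of_le hz] at h2
    have h3 : z ^ 2 ≤ 1 := by
      rw [← sq_abs]
      nlinarith [abs_nonneg z]
    rw [Real.norm_eq_abs, abs_of_nonneg (integral_nonneg fun x => norm_nonneg _)]
    exact h2.trans (by nlinarith)

theorem H_le (ht : IsTest t) [IsProbabilityMeasure N] {w : ℝ → ℝ} (hw : Measurable w)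
    (hw1 : ∀ x, |w x| ≤ 1) :
    Integrable (fun x => w x * ∫ z in {z : ℝ | |z| ≤ 1}, FT t z x ∂N) ∧
    |∫ x, w x * ∫ z in {z : ℝ | |z| ≤ 1}, FT t z x ∂N| ≤ ∫ z, |JT t z| ∂N := by
  have hp := prod_int (N := N) ht
  have hH := hp.integral_prod_left
  have hHn := hp.norm.integral_prod_left
  have hH1 : Integrable (fun x => w x * ∫ z in {z : ℝ | |z| ≤ 1}, FT t z x ∂N) :=
    hH.bdd_mul (c := 1) hw.aestronglyMeasurable (Filter.Eventually.of_forall fun x => hw1 x)
  refine ⟨hH1, ?_⟩
  calc |∫ x, w x * ∫ z in {z : ℝ | |z| ≤ 1}, FT t z x ∂N|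
      ≤ ∫ x, |w x * ∫ z in {z : ℝ | |z| ≤ 1}, FT t z x ∂N| := abs_integral_le_integral_abs
    _ ≤ ∫ x, ∫ z in {z : ℝ | |z| ≤ 1}, ‖FT t z x‖ ∂N := by
        refine integral_mono hH1.abs hHn fun x => ?_
        simp only
        rw [abs_mul]
        calc |w x| * |∫ z in {z : ℝ | |z| ≤ 1}, FT t z x ∂N|
            ≤ 1 * |∫ z in {z : ℝ | |z| ≤ 1}, FT t z x ∂N| :=
              mul_le_mul_of_nonneg_right (hw1 x) (abs_nonneg _)
          _ ≤ ∫ z in {z : ℝ | |z| ≤ 1}, ‖FT t z x‖ ∂N := by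
              rw [one_mul]
              exact norm_integral_le_integral_norm (fun z => FT t z x)
    _ = ∫ z in {z : ℝ | |z| ≤ 1}, (∫ x, ‖FT t z x‖) ∂N := integral_integral_swap hp.norm
    _ = ∫ z, |JT t z| ∂N := by
        rw [← integral_indicator measS]
        refine integral_congr_ae (Filter.Eventually.of_forall fun z => ?_)
        simp only
        rw [abs_of_nonneg (JT_nonneg t z)]
        rfl

theorem split_int (ht : IsTest t) (v : ℝ≥0) (x : ℝ) :
    ∫ z in {z : ℝ | |z| ≤ 1}, (∫ u in x..(x + z), t u) ∂(gaussianReal 0 v) =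
      (∫ z in {z : ℝ | |z| ≤ 1}, FT t z x ∂(gaussianReal 0 v)) +
      (∫ z in {z : ℝ | |z| ≤ 1}, z ^ 2 ∂(gaussianReal 0 v)) / 2 * deriv t x := by
  have hc : Continuous fun z => FT t z x := (FT_cont ht).comp (continuous_id.prodMk continuous_const)
  have i1 := cont_int (N := gaussianReal 0 v) hc
  have i2 : Integrable (fun z : ℝ => z * t x) ((gaussianReal 0 v).restrict {z : ℝ | |z| ≤ 1}) :=
    cont_int (continuous_id.mul continuous_const)
  have i3 : Integrable (fun z : ℝ => z ^ 2 / 2 * deriv t x)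
      ((gaussianReal 0 v).restrict {z : ℝ | |z| ≤ 1}) :=
    cont_int (((continuous_id.pow 2).div_const 2).mul continuous_const)
  have h1 : ∫ z in {z : ℝ | |z| ≤ 1}, (∫ u in x..(x + z), t u) ∂(gaussianReal 0 v) =
      ∫ z in {z : ℝ | |z| ≤ 1}, (FT t z x + z * t x + z ^ 2 / 2 * deriv t x) ∂(gaussianReal 0 v) := by
    refine integral_congr_ae (Filter.Eventually.of_forall fun z => ?_)
    simp only [FT]
    ring
  have i12 : Integrable (fun z : ℝ => FT t z x + z * t x)
      ((gaussianReal 0 v).restrict {z : ℝ | |z| ≤ 1}) := i1.add i2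
  rw [h1, integral_add i12 i3, integral_add i1 i2, integral_mul_const, integral_mul_const,
    integral_div, odd_zero, zero_mul, add_zero]

end CGenAux

open CGenAux

/-- Taylor expansion of `Q` in `L¹(dx)` -/
theorem taylor_small2 (ht : IsTest t) :
    ∃ J : ℝ → ℝ, ∃ C : ℝ, Measurable J ∧ (∀ z, |J z| ≤ C * z ^ 2 * (1 + z ^ 4)) ∧
      (∀ ε : ℝ, 0 < ε → ∃ δ : ℝ, 0 < δ ∧ ∀ z, |z| ≤ δ → |J z| ≤ ε * z ^ 2) ∧
      ∀ z, |z| ≤ 1 → Integrable (fun x => |(∫ u in x..(x + z), t u) - z * t x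
        - z ^ 2 / 2 * deriv t x|) ∧
      ∫ x, |(∫ u in x..(x + z), t u) - z * t x - z ^ 2 / 2 * deriv t x| ≤ J z := by
  obtain ⟨A, hA0, hA⟩ := exists_supp ht
  obtain ⟨C, hC⟩ := JT_bound ht
  exact ⟨JT t, C, JT_meas ht, hC, JT_small ht, fun z hz => ⟨FT_integrable ht hA hz,
    (JT_of_le hz).symm.le⟩⟩

theorem core_gen {l a : ℝ} (hl : 0 < l) (ha : 0 < a) (ht : IsTest t) {ε : ℝ} (hε : 0 < ε) :
    ∀ᶠ n in atTop, ∀ w : ℝ → ℝ, Measurable w → (∀ x, |w x| ≤ 1) →
      |(tauH a n)⁻¹ * (∫ x, w x *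
        ∫ z in {z : ℝ | |z| ≤ 1}, (∫ u in x..(x + z), t u) ∂(gaussianReal 0 (vH l a n)))
        - l ^ 2 / 2 * ∫ x, w x * deriv t x| ≤ ε := by
  obtain ⟨C, hC⟩ := JT_bound ht
  have hc' : Continuous (deriv t) := ht.smooth.continuous_deriv le_rfl
  have hdi : Integrable (deriv t) := hc'.integrable_of_hasCompactSupport ht.supp.deriv
  set B : ℝ := ∫ x, |deriv t x| with hB
  have hB0 : 0 ≤ B := integral_nonneg fun x => abs_nonneg _
  have h1 := small_avg hl ha (JT_meas ht) hC (JT_small ht)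
  have h2 := sq_avg (l := l) (a := a) hl ha
  have h3 : Tendsto (fun n => |(tauH a n)⁻¹ *
      (∫ z in {z : ℝ | |z| ≤ 1}, z ^ 2 ∂(gaussianReal 0 (vH l a n))) - l ^ 2| / 2 * B) atTop
      (𝓝 0) := by
    have h4 := (((h2.sub_const (l ^ 2)).abs).div_const 2).mul_const B
    simpa using h4
  have h5 := h1.add h3
  rw [add_zero] at h5
  filter_upwards [h5.eventually (gt_mem_nhds hε)] with n hn w hw hw1
  obtain ⟨hi, hle⟩ := H_le (N := gaussianReal 0 (vH l a n)) ht hw hw1
  set Sn : ℝ := ∫ z in {z : ℝ | |z| ≤ 1}, z ^ 2 ∂(gaussianReal 0 (vH l a n)) with hSn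
  have hτ : 0 < (tauH a n)⁻¹ := inv_pos.mpr (tauH_pos a n)
  have hwd : Integrable (fun x => w x * deriv t x) :=
    hdi.bdd_mul (c := 1) hw.aestronglyMeasurable (Filter.Eventually.of_forall fun x => hw1 x)
  have h6 : ∫ x, w x * ∫ z in {z : ℝ | |z| ≤ 1}, (∫ u in x..(x + z), t u)
      ∂(gaussianReal 0 (vH l a n)) =
      (∫ x, w x * ∫ z in {z : ℝ | |z| ≤ 1}, FT t z x ∂(gaussianReal 0 (vH l a n))) +
        Sn / 2 * ∫ x, w x * deriv t x := by
    rw [← integral_const_mul, ← integral_add hi (hwd.const_mul _)]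
    refine integral_congr_ae (Filter.Eventually.of_forall fun x => ?_)
    simp only
    rw [split_int ht]
    ring
  rw [h6]
  have h7 : |∫ x, w x * deriv t x| ≤ B := by
    refine abs_integral_le_integral_abs.trans (integral_mono hwd.abs hdi.abs fun x => ?_)
    simp only
    rw [abs_mul]
    exact mul_le_of_le_one_left (abs_nonneg _) (hw1 x)
  have h8 : (tauH a n)⁻¹ * ((∫ x, w x * ∫ z in {z : ℝ | |z| ≤ 1}, FT t z x
      ∂(gaussianReal 0 (vH l a n))) + Sn / 2 * ∫ x, w x * deriv t x) -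
      l ^ 2 / 2 * ∫ x, w x * deriv t x =
      (tauH a n)⁻¹ * (∫ x, w x * ∫ z in {z : ℝ | |z| ≤ 1}, FT t z x
      ∂(gaussianReal 0 (vH l a n))) +
      ((tauH a n)⁻¹ * Sn - l ^ 2) / 2 * ∫ x, w x * deriv t x := by ring
  rw [h8]
  refine (abs_add_le _ _).trans (le_trans ?_ hn.le)
  apply add_le_add
  · rw [abs_mul, abs_of_pos hτ]
    exact mul_le_mul_of_nonneg_left hle hτ.le
  · rw [abs_mul, abs_div, abs_two]
    exact mul_le_mul_of_nonneg_left h7 (by positivity)

end Pool.Agent.Lib.MP_e19099_pr
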