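import Pool.Agent.Lib.MP_e19099_pr.BMHA

/-!
# Normalized densities (module C, C0)

`nrm V = exp V / ∫ exp V`.
-/

set_option autoImplicit false

open MeasureTheory ProbabilityTheory Filter Set
open scoped NNReal Topology ENNReal

namespace Pool.Agent.Lib.MP_e19099_pr

/-- normalized density -/
noncomputable def nrm (V : ℝ → ℝ) (x : ℝ) : ℝ := Real.exp (V x) / ∫ y, Real.exp (V y)

variable {V : ℝ → ℝ}

private theorem cn_pos (hi : Integrable fun x => Real.exp (V x)) : 0 < ∫ y, Real.exp (V y) := by
  rw [integral_pos_iff_support_of_nonneg (fun z => (Real.exp_pos _).le) hi]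
  have h : Function.support (fun y => Real.exp (V y)) = univ :=
    eq_univ_of_forall fun z => (Real.exp_pos _).ne'
  rw [h]
  exact isOpen_univ.measure_pos volume univ_nonempty

theorem nrm_dens (hc : Continuous V) (hi : Integrable fun x => Real.exp (V x)) : Dens (nrm V) where
  cont := (Real.continuous_exp.comp hc).div_const _
  pos := fun _ => div_pos (Real.exp_pos _) (cn_pos hi)
  int := hi.div_const _
  one := by
    unfold nrm
    rw [integral_div, div_self (cn_pos hi).ne']

theorem target_eq (hc : Continuous V) (hi : Integrable fun x => Real.exp (V x)) :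
    target V = tgt (nrm V) := by
  have hZ := cn_pos hi
  have hm : Measurable fun x => ENNReal.ofReal (Real.exp (V x)) :=
    (Real.continuous_exp.comp hc).measurable.ennreal_ofReal
  unfold target tgt
  rw [← ofReal_integral_eq_lintegral_ofReal hi (Eventually.of_forall fun x => (Real.exp_pos _).le),
    ← withDensity_smul _ hm]
  congr 1
  funext x
  show (ENNReal.ofReal (∫ y, Real.exp (V y)))⁻¹ * ENNReal.ofReal (Real.exp (V x)) =
    ENNReal.ofReal (nrm V x)
  unfold nrm
  rw [ENNReal.ofReal_div_of_pos hZ, ENNReal.div_eq_inv_mul]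

/-- `p(y)/p(x) = exp(V y - V x)` -/
theorem nrm_ratio (hc : Continuous V) (hi : Integrable fun x => Real.exp (V x)) (x y : ℝ) :
    nrm V y / nrm V x = Real.exp (V y - V x) := by
  have hZ := cn_pos hi
  have _ := hc
  unfold nrm
  rw [div_div_div_cancel_right₀ hZ.ne', Real.exp_sub]

/-- the acceptance probability does not depend on the normalization -/
theorem accept_nrm (hc : Continuous V) (hi : Integrable fun x => Real.exp (V x)) {N : ℕ}
    (q : (Fin N → ℝ) → (Fin N → ℝ) → ℝ) (x y : Fin N → ℝ) :
    accept (fun x => ∏ i, Real.exp (V (x i))) q x y = accept (dN (nrm V)) q x y := by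
  have hZ := cn_pos hi
  have _ := hc
  have hZN : (∫ y, Real.exp (V y)) ^ N ≠ 0 := (pow_pos hZ N).ne'
  have h1 : ∀ z : Fin N → ℝ, dN (nrm V) z =
      (∏ i, Real.exp (V (z i))) / (∫ y, Real.exp (V y)) ^ N := by
    intro z
    unfold dN nrm
    rw [Finset.prod_div_distrib, Finset.prod_const, Finset.card_univ, Fintype.card_fin]
  unfold accept
  rw [h1, h1, div_mul_eq_mul_div, div_mul_eq_mul_div, div_div_div_cancel_right₀ hZN]

/-- a Metropolis-Hastings kernel for the unnormalized density is one for the normalized density -/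
theorem isMH_nrm (hc : Continuous V) (hi : Integrable fun x => Real.exp (V x)) {N : ℕ}
    {q : (Fin N → ℝ) → (Fin N → ℝ) → ℝ} {K : Kernel (Fin N → ℝ) (Fin N → ℝ)} :
    IsMH volume (fun x => ∏ i, Real.exp (V (x i))) q K ↔ IsMH volume (dN (nrm V)) q K := by
  unfold IsMH
  simp only [accept_nrm hc hi]

end Pool.Agent.Lib.MP_e19099_pr
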