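import Pool.Agent.Lib.MP_e19099_pr.CGAvg

/-!
# Scales (module C/E)

`tauH a n = (n+1)^{-1/a}`, `vH l a n = l² tauH a n` (as `ℝ≥0`), so `(n+1) (vH l a n)^a = l^{2a}`.  `a = H` for RWM, `a = 2 + H` for MALA.
-/

set_option autoImplicit false

open MeasureTheory ProbabilityTheory Filter Set
open scoped NNReal Topology ENNReal

namespace Pool.Agent.Lib.MP_e19099_pr

noncomputable def tauH (a : ℝ) (n : ℕ) : ℝ := ((n : ℝ) + 1) ^ (-(1 / a))

noncomputable def vH (l a : ℝ) (n : ℕ) : ℝ≥0 := Real.toNNReal (l ^ 2 * tauH a n)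

variable {l a : ℝ}

theorem tauH_pos (a : ℝ) (n : ℕ) : 0 < tauH a n := by
  unfold tauH
  positivity

theorem tauH_lim (ha : 0 < a) : Tendsto (tauH a) atTop (𝓝 0) := by
  have h1 : Tendsto (fun n : ℕ => (n : ℝ) + 1) atTop atTop :=
    tendsto_atTop_add_const_right _ _ tendsto_natCast_atTop_atTop
  have h2 : (0 : ℝ) < 1 / a := by positivity
  exact (tendsto_rpow_neg_atTop h2).comp h1

theorem vH_coe (l a : ℝ) (n : ℕ) : (vH l a n : ℝ) = l ^ 2 * tauH a n := by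
  unfold vH
  exact Real.coe_toNNReal _ (mul_nonneg (sq_nonneg _) (tauH_pos a n).le)

theorem vH_pos (hl : 0 < l) (a : ℝ) (n : ℕ) : 0 < vH l a n := by
  unfold vH
  exact Real.toNNReal_pos.mpr (mul_pos (pow_pos hl 2) (tauH_pos a n))

theorem vH_lim (hl : 0 < l) (ha : 0 < a) : Tendsto (vH l a) atTop (𝓝 0) := by
  rw [← NNReal.tendsto_coe]
  have h1 : Tendsto (fun n => l ^ 2 * tauH a n) atTop (𝓝 (l ^ 2 * 0)) :=
    (tauH_lim ha).const_mul (l ^ 2)
  rw [mul_zero] at h1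
  refine Tendsto.congr (fun n => (vH_coe l a n).symm) ?_
  simpa using h1

theorem vH_pow (hl : 0 < l) (ha : 0 < a) (n : ℕ) :
    ((n : ℝ) + 1) * (vH l a n : ℝ) ^ a = l ^ (2 * a) := by
  have hn : (0 : ℝ) < (n : ℝ) + 1 := by positivity
  rw [vH_coe, Real.mul_rpow (sq_nonneg l) (tauH_pos a n).le]
  unfold tauH
  rw [← Real.rpow_mul hn.le]
  have h1 : -(1 / a) * a = -1 := by
    field_simp
  have h2 : (l ^ 2) ^ a = l ^ (2 * a) := by
    rw [← Real.rpow_natCast l 2, ← Real.rpow_mul hl.le, Nat.cast_ofNat]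
  rw [h1, Real.rpow_neg_one, h2]
  field_simp

private theorem CPar_rpow_two (z : ℝ) : |z| ^ (2 : ℝ) = z ^ 2 := by
  rw [Real.rpow_two, sq_abs]

private theorem CPar_four (z : ℝ) : |z| ^ 4 = z ^ 4 := by
  have : |z| ^ 4 = (|z| ^ 2) ^ 2 := by ring
  rw [this, sq_abs]
  ring

private theorem CPar_N (hl : 0 < l) (a : ℝ) :
    Tendsto (fun n => (tauH a n)⁻¹ * (vH l a n : ℝ) ^ ((2 : ℝ) / 2)) atTop (𝓝 (l ^ 2)) := by
  have : (fun n => (tauH a n)⁻¹ * (vH l a n : ℝ) ^ ((2 : ℝ) / 2)) = fun _ => l ^ 2 := by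
    funext n
    have := (tauH_pos a n).ne'
    rw [div_self (by norm_num : (2 : ℝ) ≠ 0), Real.rpow_one, vH_coe]
    field_simp
  rw [this]
  exact tendsto_const_nhds

private theorem CPar_gmom : gmom 2 = 1 := by
  rw [gmom_eq (by norm_num)]
  have h1 : ((2 : ℝ) + 1) / 2 = 1 / 2 + 1 := by norm_num
  rw [h1, Real.Gamma_add_one (by norm_num), Real.Gamma_one_half_eq,
    div_self (by norm_num : (2 : ℝ) ≠ 0), Real.rpow_one]
  have : √Real.pi ≠ 0 := by positivity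
  field_simp

/-- `τ⁻¹ ∫ J dN(0, v_n) → 0` when `J = o(z²)` at `0` and `|J| ≤ C z² (1 + z⁴)` (`gauss_avg` with exponent `2`, `N = 1/τ`) -/
theorem small_avg (hl : 0 < l) (ha : 0 < a) {C : ℝ} {J : ℝ → ℝ} (hJ : Measurable J)
    (hb : ∀ z, |J z| ≤ C * z ^ 2 * (1 + z ^ 4))
    (hl0 : ∀ ε : ℝ, 0 < ε → ∃ δ : ℝ, 0 < δ ∧ ∀ z, |z| ≤ δ → |J z| ≤ ε * z ^ 2) :
    Tendsto (fun n => (tauH a n)⁻¹ * ∫ z, |J z| ∂(gaussianReal 0 (vH l a n))) atTop (𝓝 0) := by
  have h1 : Tendsto (fun z : ℝ => |z| ^ (-(2 : ℝ)) * |J z|) (𝓝[≠] 0) (𝓝 0) := by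
    rw [Metric.tendsto_nhdsWithin_nhds]
    intro ε hε
    obtain ⟨δ, hδ, hδ'⟩ := hl0 (ε / 2) (by positivity)
    refine ⟨δ, hδ, fun {z} hz hzd => ?_⟩
    have hz0 : z ≠ 0 := hz
    rw [Real.dist_eq, sub_zero] at hzd
    have h2 := hδ' z hzd.le
    have h3 : 0 < z ^ 2 := by positivity
    rw [Real.dist_eq, sub_zero, Real.rpow_neg (abs_nonneg z), CPar_rpow_two, abs_mul, abs_abs,
      abs_of_pos (inv_pos.mpr h3), inv_mul_lt_iff₀ h3]
    nlinarith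
  have h2 := gauss_avg (a := 2) (C := C) (j := 0) (L := l ^ 2) (by norm_num) (J := fun z => |J z|)
    hJ.abs (fun z => by
      rw [abs_abs, CPar_rpow_two, CPar_four]
      exact hb z) h1 (vH_pos hl a) (vH_lim hl ha) (CPar_N hl a)
  rw [mul_zero, zero_mul] at h2
  exact h2

/-- `τ⁻¹ ∫_{|z| ≤ 1} z² dN(0, v_n) → l²` -/
theorem sq_avg (hl : 0 < l) (ha : 0 < a) :
    Tendsto (fun n => (tauH a n)⁻¹ *
      ∫ z in {z : ℝ | |z| ≤ 1}, z ^ 2 ∂(gaussianReal 0 (vH l a n))) atTop (𝓝 (l ^ 2)) := by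
  have hS : MeasurableSet {z : ℝ | |z| ≤ 1} := measurableSet_le measurable_abs measurable_const
  have h1 : Tendsto (fun z : ℝ => |z| ^ (-(2 : ℝ)) * ({z : ℝ | |z| ≤ 1}.indicator (fun z => z ^ 2) z))
      (𝓝[≠] 0) (𝓝 1) := by
    refine tendsto_const_nhds.congr' ?_
    have h2 : ∀ᶠ z : ℝ in 𝓝[≠] 0, |z| ≤ 1 := by
      apply eventually_nhdsWithin_of_eventually_nhds
      have : ∀ᶠ z : ℝ in 𝓝 0, z ∈ Metric.ball (0 : ℝ) 1 := Metric.ball_mem_nhds _ one_pos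
      filter_upwards [this] with z hz
      rw [mem_ball_zero_iff, Real.norm_eq_abs] at hz
      exact hz.le
    filter_upwards [h2, self_mem_nhdsWithin] with z hz hz0
    have hz0 : z ≠ 0 := hz0
    rw [Set.indicator_of_mem (show z ∈ {z : ℝ | |z| ≤ 1} from hz), Real.rpow_neg (abs_nonneg z),
      CPar_rpow_two]
    field_simp
  have h2 := gauss_avg (a := 2) (C := 1) (j := 1) (L := l ^ 2) (by norm_num)
    (J := {z : ℝ | |z| ≤ 1}.indicator (fun z => z ^ 2))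
    ((measurable_id.pow_const 2).indicator hS) (fun z => by
      rw [CPar_rpow_two, CPar_four, one_mul]
      have h3 : 0 ≤ z ^ 4 := by positivity
      by_cases hz : |z| ≤ 1
      · rw [Set.indicator_of_mem (show z ∈ {z : ℝ | |z| ≤ 1} from hz), abs_of_nonneg (sq_nonneg z)]
        nlinarith [sq_nonneg z, mul_nonneg (sq_nonneg z) h3]
      · rw [Set.indicator_of_notMem (show z ∉ {z : ℝ | |z| ≤ 1} from hz), abs_zero]
        positivity) h1 (vH_pos hl a) (vH_lim hl ha) (CPar_N hl a)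
  rw [CPar_gmom, mul_one, mul_one] at h2
  refine h2.congr fun n => ?_
  rw [integral_indicator hS]

end Pool.Agent.Lib.MP_e19099_pr
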