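import Pool.Agent.Lib.MP_e19099_pr.CVGood
import Pool.Agent.Lib.MP_e19099_pr.CGAvg

/-!
# The law of large numbers for functions of the increment (module C, C3)

`rw_bound`: `|∫ W(x, x+h) dx| ≤ A ∫ (e^{-x²/4} + e^{-(x+h)²/4}) (V(x+h) - V(x))² ≤ 2 A C |h|^{2H} (1+|h|⁴)`
(substitution `x = y - h` in the second term, lag `-h`).
`rw_point`: given `η`, choose `A'` with `e^{-(A'-1)²/8}` small: the part `|x| > A'` of both integrals is `≤ η |h|^{2H}` for `|h| ≤ 1` by `hV.bound` (use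
`e^{-x²/4} ≤ e^{-A'²/8} e^{-x²/8}`); with a continuous cutoff `χ` (`1` on `[-A', A']`, support in `[-A'-1, A'+1]`):
`∫ χ m (ΔV)² / |h|^{2H} → ∫ χ m` (`hV.lln`), and by `hl` the difference `∫ χ |W - m ΔV²| ≤ η ∫ χ ΔV²`.
`rw_lim`: Fubini, `∫∫ W(x,y) γ_v(y-x) dx dy = ∫ (∫ W(x, x+z) dx) γ_v(z) dz`, and `gauss_avg` with `a = 2H`.
-/

set_option autoImplicit false

open MeasureTheory ProbabilityTheory Filter Set
open scoped NNReal Topology ENNReal

namespace Pool.Agent.Lib.MP_e19099_pr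

/-- a weight comparable with `m(x) (V y - V x)²` near the diagonal -/
structure IncW (V m : ℝ → ℝ) (A : ℝ) (W : ℝ × ℝ → ℝ) : Prop where
  meas : Measurable W
  bdd : ∀ x y, |W (x, y)| ≤ A * (Real.exp (-x ^ 2 / 4) + Real.exp (-y ^ 2 / 4)) * (V y - V x) ^ 2
  mcont : Continuous m
  mbdd : ∀ x, |m x| ≤ A * Real.exp (-x ^ 2 / 4)
  loc : ∀ A' η : ℝ, 0 < η → ∃ δ : ℝ, 0 < δ ∧ ∀ x y, |x| ≤ A' → |y - x| ≤ δ →
    |W (x, y) - m x * (V y - V x) ^ 2| ≤ η * (V y - V x) ^ 2

variable {H : ℝ} {V m : ℝ → ℝ} {A : ℝ} {W : ℝ × ℝ → ℝ}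

private theorem crl_A (hW : IncW V m A W) : 0 ≤ A := by
  have h := (abs_nonneg _).trans (hW.mbdd 0)
  simpa using h

private theorem crl_Hb (hV : VGood H V) : ∃ C : ℝ, 0 ≤ C ∧ ∀ h : ℝ,
    ∫ x, Real.exp (-x ^ 2 / 8) * (V (x + h) - V x) ^ 2 ≤ C * |h| ^ (2 * H) * (1 + |h| ^ 4) := by
  obtain ⟨C, hC⟩ := hV.bound
  refine ⟨C, ?_, hC⟩
  have h1 := hC 1
  have h2 : (0 : ℝ) ≤ ∫ x, Real.exp (-x ^ 2 / 8) * (V (x + 1) - V x) ^ 2 :=
    integral_nonneg fun x => by positivity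
  have h3 := h2.trans h1
  simp only [abs_one, Real.one_rpow, one_pow, mul_one] at h3
  linarith

/-- the second half of the bound, shifted -/
private theorem crl_shift (hV : VGood H V) (h : ℝ) :
    Integrable (fun x => Real.exp (-(x + h) ^ 2 / 8) * (V (x + h) - V x) ^ 2) ∧
      ∫ x, Real.exp (-(x + h) ^ 2 / 8) * (V (x + h) - V x) ^ 2
        = ∫ x, Real.exp (-x ^ 2 / 8) * (V (x + (-h)) - V x) ^ 2 := by
  have e : (fun x => Real.exp (-(x + h) ^ 2 / 8) * (V (x + h) - V x) ^ 2) =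
      fun x => (fun y => Real.exp (-y ^ 2 / 8) * (V (y + (-h)) - V y) ^ 2) (x + h) := by
    funext x
    show Real.exp (-(x + h) ^ 2 / 8) * (V (x + h) - V x) ^ 2 =
      Real.exp (-(x + h) ^ 2 / 8) * (V (x + h + (-h)) - V (x + h)) ^ 2
    rw [add_neg_cancel_right]
    ring
  rw [e]
  exact ⟨(hV.bint (-h)).comp_add_right h,
    integral_add_right_eq_self (fun y => Real.exp (-y ^ 2 / 8) * (V (y + (-h)) - V y) ^ 2) h⟩

private theorem crl_meas (hW : IncW V m A W) (h : ℝ) : Measurable (fun x => W (x, x + h)) :=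
  hW.meas.comp (measurable_id.prodMk (measurable_id.add_const h))

private theorem crl_exp (x : ℝ) : Real.exp (-x ^ 2 / 4) ≤ Real.exp (-x ^ 2 / 8) :=
  Real.exp_le_exp.2 (by nlinarith [sq_nonneg x])

theorem rw_bound (hH : 0 < H) (hH1 : H < 1) (hV : VGood H V) (hW : IncW V m A W) :
    ∃ C : ℝ, ∀ h : ℝ, Integrable (fun x => W (x, x + h)) ∧
      ∫ x, |W (x, x + h)| ≤ C * |h| ^ (2 * H) * (1 + |h| ^ 4) := by
  obtain ⟨C, hC0, hC⟩ := crl_Hb hV
  have hA := crl_A hW
  refine ⟨2 * A * C, fun h => ?_⟩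
  have i1 := (hV.bint h).const_mul A
  have i2 := (crl_shift hV h).1.const_mul A
  have hle : ∀ x, |W (x, x + h)| ≤ A * (Real.exp (-x ^ 2 / 8) * (V (x + h) - V x) ^ 2) +
      A * (Real.exp (-(x + h) ^ 2 / 8) * (V (x + h) - V x) ^ 2) := by
    intro x
    refine (hW.bdd x (x + h)).trans ?_
    have h1 := crl_exp x
    have h2 := crl_exp (x + h)
    calc A * (Real.exp (-x ^ 2 / 4) + Real.exp (-(x + h) ^ 2 / 4)) * (V (x + h) - V x) ^ 2
        ≤ A * (Real.exp (-x ^ 2 / 8) + Real.exp (-(x + h) ^ 2 / 8)) * (V (x + h) - V x) ^ 2 := by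
          gcongr
      _ = _ := by ring
  have hint : Integrable (fun x => W (x, x + h)) := by
    refine (i1.add i2).mono' (crl_meas hW h).aestronglyMeasurable (ae_of_all _ fun x => ?_)
    exact hle x
  refine ⟨hint, ?_⟩
  calc ∫ x, |W (x, x + h)| ≤ ∫ x, (A * (Real.exp (-x ^ 2 / 8) * (V (x + h) - V x) ^ 2) +
      A * (Real.exp (-(x + h) ^ 2 / 8) * (V (x + h) - V x) ^ 2)) :=
        integral_mono hint.abs (i1.add i2) hle
    _ = A * (∫ x, Real.exp (-x ^ 2 / 8) * (V (x + h) - V x) ^ 2) +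
        A * (∫ x, Real.exp (-x ^ 2 / 8) * (V (x + (-h)) - V x) ^ 2) := by
        rw [integral_add i1 i2, integral_const_mul, integral_const_mul, (crl_shift hV h).2]
    _ ≤ A * (C * |h| ^ (2 * H) * (1 + |h| ^ 4)) + A * (C * |h| ^ (2 * H) * (1 + |h| ^ 4)) := by
        have h1 := hC h
        have h2 := hC (-h)
        rw [abs_neg] at h2
        gcongr
    _ = 2 * A * C * |h| ^ (2 * H) * (1 + |h| ^ 4) := by ring

/-- continuous cutoff -/
private noncomputable def crl_chi (R x : ℝ) : ℝ := max 0 (min 1 (R + 1 - |x|))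

private theorem crl_chi_cont (R : ℝ) : Continuous (crl_chi R) := by
  unfold crl_chi
  fun_prop

private theorem crl_chi_nonneg (R x : ℝ) : 0 ≤ crl_chi R x := le_max_left _ _

private theorem crl_chi_le (R x : ℝ) : crl_chi R x ≤ 1 := max_le zero_le_one (min_le_left _ _)

private theorem crl_chi_one {R x : ℝ} (h : |x| ≤ R) : crl_chi R x = 1 := by
  unfold crl_chi
  rw [min_eq_left (by linarith), max_eq_right zero_le_one]

private theorem crl_chi_zero {R x : ℝ} (h : R + 1 ≤ |x|) : crl_chi R x = 0 := by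
  unfold crl_chi
  exact max_eq_left ((min_le_right _ _).trans (by linarith))

private theorem crl_supp {R : ℝ} {f : ℝ → ℝ} : HasCompactSupport (fun x => crl_chi R x * f x) := by
  refine HasCompactSupport.intro (K := Icc (-(R + 1)) (R + 1)) isCompact_Icc fun x hx => ?_
  have h : R + 1 ≤ |x| := by
    by_contra hc
    have := abs_lt.1 (not_le.1 hc)
    exact hx ⟨this.1.le, this.2.le⟩
  rw [crl_chi_zero h, zero_mul]

/-- the tail of the weight -/
private theorem crl_tail_exp {R x : ℝ} (hR : 1 ≤ R) (hx : R - 1 ≤ |x|) :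
    Real.exp (-x ^ 2 / 4) ≤ Real.exp (-(R - 1) ^ 2 / 8) * Real.exp (-x ^ 2 / 8) := by
  rw [← Real.exp_add]
  apply Real.exp_le_exp.2
  have h1 : (R - 1) ^ 2 ≤ x ^ 2 := by
    rw [← sq_abs x]
    exact pow_le_pow_left₀ (by linarith) hx 2
  linarith

private theorem crl_tail (hV : VGood H V) (hW : IncW V m A W) {C : ℝ}
    (hC : ∀ h : ℝ, ∫ x, Real.exp (-x ^ 2 / 8) * (V (x + h) - V x) ^ 2
      ≤ C * |h| ^ (2 * H) * (1 + |h| ^ 4)) {R : ℝ} (hR : 1 ≤ R) {h : ℝ} (hh : |h| ≤ 1)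
    (hint : Integrable (fun x => W (x, x + h))) :
    |(∫ x, W (x, x + h)) - ∫ x, crl_chi R x * W (x, x + h)|
      ≤ 4 * A * C * Real.exp (-(R - 1) ^ 2 / 8) * |h| ^ (2 * H) := by
  have hA := crl_A hW
  set ρ := Real.exp (-(R - 1) ^ 2 / 8) with hρ
  have hρ0 : 0 ≤ ρ := (Real.exp_pos _).le
  have i1 := (hV.bint h).const_mul (A * ρ)
  have i2 := (crl_shift hV h).1.const_mul (A * ρ)
  have hchi : Integrable (fun x => crl_chi R x * W (x, x + h)) := by
    refine hint.bdd_mul (c := 1) (crl_chi_cont R).aestronglyMeasurable (ae_of_all _ fun x => ?_)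
    rw [Real.norm_of_nonneg (crl_chi_nonneg R x)]
    exact crl_chi_le R x
  rw [← integral_sub hint hchi]
  have hle : ∀ x, |W (x, x + h) - crl_chi R x * W (x, x + h)| ≤
      A * ρ * (Real.exp (-x ^ 2 / 8) * (V (x + h) - V x) ^ 2) +
      A * ρ * (Real.exp (-(x + h) ^ 2 / 8) * (V (x + h) - V x) ^ 2) := by
    intro x
    by_cases hx : |x| ≤ R
    · rw [crl_chi_one hx, one_mul, sub_self, abs_zero]
      positivity
    · have hx' : R ≤ |x| := (not_le.1 hx).le
      have h1 : |W (x, x + h) - crl_chi R x * W (x, x + h)| ≤ |W (x, x + h)| := by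
        have e : W (x, x + h) - crl_chi R x * W (x, x + h) =
          (1 - crl_chi R x) * W (x, x + h) := by ring
        rw [e, abs_mul, abs_of_nonneg (by linarith [crl_chi_le R x] : 0 ≤ 1 - crl_chi R x)]
        have := crl_chi_nonneg R x
        exact mul_le_of_le_one_left (abs_nonneg _) (by linarith)
      refine h1.trans ((hW.bdd x (x + h)).trans ?_)
      have h2 : Real.exp (-x ^ 2 / 4) ≤ ρ * Real.exp (-x ^ 2 / 8) :=
        crl_tail_exp hR (by linarith)
      have h3 : Real.exp (-(x + h) ^ 2 / 4) ≤ ρ * Real.exp (-(x + h) ^ 2 / 8) := by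
        refine crl_tail_exp hR ?_
        have h4 : |x| ≤ |x + h| + |h| := by
          have h5 := abs_sub (x + h) h
          rwa [add_sub_cancel_right] at h5
        linarith
      calc A * (Real.exp (-x ^ 2 / 4) + Real.exp (-(x + h) ^ 2 / 4)) * (V (x + h) - V x) ^ 2
          ≤ A * (ρ * Real.exp (-x ^ 2 / 8) + ρ * Real.exp (-(x + h) ^ 2 / 8)) *
            (V (x + h) - V x) ^ 2 := by gcongr
        _ = _ := by ring
  refine (abs_integral_le_integral_abs).trans ?_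
  refine (integral_mono (hint.sub hchi).abs (i1.add i2) hle).trans ?_
  rw [integral_add' i1 i2, integral_const_mul, integral_const_mul, (crl_shift hV h).2]
  have h1 := hC h
  have h2 := hC (-h)
  rw [abs_neg] at h2
  have h0 : 0 ≤ ∫ x, Real.exp (-x ^ 2 / 8) * (V (x + h) - V x) ^ 2 :=
    integral_nonneg fun x => by positivity
  have hP : 0 ≤ C * |h| ^ (2 * H) := by
    have h3 := h0.trans h1
    by_contra hc
    have h4 : C * |h| ^ (2 * H) * (1 + |h| ^ 4) < 0 :=
      mul_neg_of_neg_of_pos (not_le.1 hc) (by positivity)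
    linarith
  have h3 : C * |h| ^ (2 * H) * (1 + |h| ^ 4) ≤ C * |h| ^ (2 * H) * 2 := by
    have : |h| ^ 4 ≤ 1 := pow_le_one₀ (abs_nonneg h) hh
    gcongr
    linarith
  have hAρ : 0 ≤ A * ρ := mul_nonneg hA hρ0
  calc _ ≤ A * ρ * (C * |h| ^ (2 * H) * 2) + A * ρ * (C * |h| ^ (2 * H) * 2) := by
        gcongr
        · exact h1.trans h3
        · exact h2.trans h3
    _ = _ := by ring

private theorem crl_m_int (hW : IncW V m A W) : Integrable m := by
  have h1 : Integrable (fun x : ℝ => A * Real.exp (-x ^ 2 / 4)) := by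
    have h2 := (integrable_exp_neg_mul_sq (b := 1 / 4) (by norm_num)).const_mul A
    refine h2.congr (ae_of_all _ fun x => ?_)
    show A * Real.exp (-(1 / 4) * x ^ 2) = A * Real.exp (-x ^ 2 / 4)
    congr 2
    ring
  exact h1.mono' hW.mcont.aestronglyMeasurable (ae_of_all _ hW.mbdd)

private theorem crl_m_tail (hW : IncW V m A W) {R : ℝ} (hR : 1 ≤ R) :
    |(∫ x, crl_chi R x * m x) - ∫ x, m x|
      ≤ A * Real.exp (-(R - 1) ^ 2 / 8) * ∫ x : ℝ, Real.exp (-x ^ 2 / 8) := by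
  have hA := crl_A hW
  set ρ := Real.exp (-(R - 1) ^ 2 / 8) with hρ
  have hρ0 : 0 ≤ ρ := (Real.exp_pos _).le
  have hm := crl_m_int hW
  have hchi : Integrable (fun x => crl_chi R x * m x) := by
    refine hm.bdd_mul (c := 1) (crl_chi_cont R).aestronglyMeasurable (ae_of_all _ fun x => ?_)
    rw [Real.norm_of_nonneg (crl_chi_nonneg R x)]
    exact crl_chi_le R x
  have hG : Integrable (fun x : ℝ => Real.exp (-x ^ 2 / 8)) := by
    have h2 := (integrable_exp_neg_mul_sq (b := 1 / 8) (by norm_num))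
    refine h2.congr (ae_of_all _ fun x => ?_)
    show Real.exp (-(1 / 8) * x ^ 2) = Real.exp (-x ^ 2 / 8)
    congr 1
    ring
  rw [← integral_sub hchi hm, ← integral_const_mul]
  refine (abs_integral_le_integral_abs).trans ?_
  refine integral_mono (hchi.sub hm).abs (hG.const_mul _) fun x => ?_
  show |crl_chi R x * m x - m x| ≤ A * ρ * Real.exp (-x ^ 2 / 8)
  by_cases hx : |x| ≤ R
  · rw [crl_chi_one hx, one_mul, sub_self, abs_zero]
    positivity
  · have hx' : R ≤ |x| := (not_le.1 hx).le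
    have e : crl_chi R x * m x - m x = -((1 - crl_chi R x) * m x) := by ring
    rw [e, abs_neg, abs_mul, abs_of_nonneg (by linarith [crl_chi_le R x] : 0 ≤ 1 - crl_chi R x)]
    have h0 := crl_chi_nonneg R x
    refine (mul_le_of_le_one_left (abs_nonneg _) (by linarith)).trans ?_
    refine (hW.mbdd x).trans ?_
    have h2 : Real.exp (-x ^ 2 / 4) ≤ ρ * Real.exp (-x ^ 2 / 8) := crl_tail_exp hR (by linarith)
    calc A * Real.exp (-x ^ 2 / 4) ≤ A * (ρ * Real.exp (-x ^ 2 / 8)) := by gcongr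
      _ = _ := by ring

private theorem crl_rho : Tendsto (fun R : ℝ => Real.exp (-(R - 1) ^ 2 / 8)) atTop (𝓝 0) := by
  have h1 : Tendsto (fun R : ℝ => (R - 1) ^ 2 / 8) atTop atTop := by
    have h2 : Tendsto (fun R : ℝ => R - 1) atTop atTop := tendsto_atTop_add_const_right _ _ tendsto_id
    exact ((tendsto_pow_atTop (by norm_num : (2 : ℕ) ≠ 0)).comp h2).atTop_div_const (by norm_num)
  have h3 := Real.tendsto_exp_neg_atTop_nhds_zero.comp h1
  refine h3.congr fun R => ?_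
  show Real.exp (-((R - 1) ^ 2 / 8)) = Real.exp (-(R - 1) ^ 2 / 8)
  congr 1
  ring

/-- the middle part -/
private theorem crl_mid (hV : VGood H V) (hW : IncW V m A W) {R η δ : ℝ} (hη : 0 ≤ η)
    (hloc : ∀ x y, |x| ≤ R + 1 → |y - x| ≤ δ →
      |W (x, y) - m x * (V y - V x) ^ 2| ≤ η * (V y - V x) ^ 2) {h : ℝ} (hh : |h| ≤ δ)
    (hint : Integrable (fun x => W (x, x + h))) :
    |(∫ x, crl_chi R x * W (x, x + h)) - ∫ x, crl_chi R x * m x * (V (x + h) - V x) ^ 2|
      ≤ η * ∫ x, crl_chi R x * (V (x + h) - V x) ^ 2 := by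
  have hVc := hV.cont
  have hmc := hW.mcont
  have hcc := crl_chi_cont R
  have hchi : Integrable (fun x => crl_chi R x * W (x, x + h)) := by
    refine hint.bdd_mul (c := 1) (crl_chi_cont R).aestronglyMeasurable (ae_of_all _ fun x => ?_)
    rw [Real.norm_of_nonneg (crl_chi_nonneg R x)]
    exact crl_chi_le R x
  have i1 : Integrable (fun x => crl_chi R x * m x * (V (x + h) - V x) ^ 2) := by
    have hc : Continuous (fun x => crl_chi R x * (m x * (V (x + h) - V x) ^ 2)) := by fun_prop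
    have := hc.integrable_of_hasCompactSupport (μ := volume) crl_supp
    exact this.congr (ae_of_all _ fun x => by ring)
  have i2 : Integrable (fun x => crl_chi R x * (V (x + h) - V x) ^ 2) := by
    have hc : Continuous (fun x => crl_chi R x * (V (x + h) - V x) ^ 2) := by fun_prop
    exact hc.integrable_of_hasCompactSupport (μ := volume) crl_supp
  rw [← integral_sub hchi i1, ← integral_const_mul]
  refine (abs_integral_le_integral_abs).trans ?_
  refine integral_mono (hchi.sub i1).abs (i2.const_mul _) fun x => ?_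
  show |crl_chi R x * W (x, x + h) - crl_chi R x * m x * (V (x + h) - V x) ^ 2| ≤
    η * (crl_chi R x * (V (x + h) - V x) ^ 2)
  by_cases hx : |x| ≤ R + 1
  · have h1 := hloc x (x + h) hx (by simpa using hh)
    have e : crl_chi R x * W (x, x + h) - crl_chi R x * m x * (V (x + h) - V x) ^ 2 =
      crl_chi R x * (W (x, x + h) - m x * (V (x + h) - V x) ^ 2) := by ring
    rw [e, abs_mul, abs_of_nonneg (crl_chi_nonneg R x)]
    calc crl_chi R x * |W (x, x + h) - m x * (V (x + h) - V x) ^ 2|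
        ≤ crl_chi R x * (η * (V (x + h) - V x) ^ 2) :=
          mul_le_mul_of_nonneg_left h1 (crl_chi_nonneg R x)
      _ = _ := by ring
  · rw [crl_chi_zero (not_le.1 hx).le]
    simp

theorem rw_point (hH : 0 < H) (hH1 : H < 1) (hV : VGood H V) (hW : IncW V m A W) :
    Tendsto (fun h : ℝ => |h| ^ (-(2 * H)) * ∫ x, W (x, x + h)) (𝓝[≠] 0) (𝓝 (∫ x, m x)) := by
  obtain ⟨C, hC0, hC⟩ := crl_Hb hV
  obtain ⟨C1, hC1⟩ := rw_bound hH hH1 hV hW
  have hA := crl_A hW
  rw [Metric.tendsto_nhds]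
  intro ε hε
  set G : ℝ := ∫ x : ℝ, Real.exp (-x ^ 2 / 8) with hG
  -- choose R
  have hR0 : Tendsto (fun R : ℝ => (4 * A * C + A * G) * Real.exp (-(R - 1) ^ 2 / 8)) atTop
      (𝓝 0) := by
    have := crl_rho.const_mul (4 * A * C + A * G)
    rwa [mul_zero] at this
  obtain ⟨R, hRε, hR1⟩ : ∃ R : ℝ, (4 * A * C + A * G) * Real.exp (-(R - 1) ^ 2 / 8) < ε / 4 ∧
      1 ≤ R := by
    have h1 : ∀ᶠ R : ℝ in atTop, (4 * A * C + A * G) * Real.exp (-(R - 1) ^ 2 / 8) < ε / 4 :=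
      hR0.eventually (gt_mem_nhds (by linarith))
    obtain ⟨R, hR⟩ := (h1.and (eventually_ge_atTop 1)).exists
    exact ⟨R, hR⟩
  set ρ := Real.exp (-(R - 1) ^ 2 / 8) with hρ
  set K : ℝ := ∫ x, crl_chi R x with hK
  have hK0 : 0 ≤ K := integral_nonneg fun x => crl_chi_nonneg R x
  -- choose η, δ
  set η : ℝ := ε / (4 * (K + 1)) with hη
  have hη0 : 0 < η := by positivity
  obtain ⟨δ, hδ, hloc⟩ := hW.loc (R + 1) η hη0
  have l1 : Tendsto (fun h : ℝ => |h| ^ (-(2 * H)) * ∫ x, crl_chi R x * (V (x + h) - V x) ^ 2)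
      (𝓝[≠] 0) (𝓝 K) := by
    refine hV.lln (crl_chi R) (crl_chi_cont R) ?_
    have := crl_supp (R := R) (f := fun _ => 1)
    simpa using this
  have l2 : Tendsto (fun h : ℝ => |h| ^ (-(2 * H)) *
      ∫ x, crl_chi R x * m x * (V (x + h) - V x) ^ 2) (𝓝[≠] 0)
      (𝓝 (∫ x, crl_chi R x * m x)) :=
    hV.lln (fun x => crl_chi R x * m x) ((crl_chi_cont R).mul hW.mcont) crl_supp
  have e1 : ∀ᶠ h : ℝ in 𝓝[≠] 0,
      |h| ^ (-(2 * H)) * (∫ x, crl_chi R x * (V (x + h) - V x) ^ 2) < K + 1 :=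
    l1.eventually (gt_mem_nhds (by linarith))
  have e2 : ∀ᶠ h : ℝ in 𝓝[≠] 0, |(|h| ^ (-(2 * H)) *
      ∫ x, crl_chi R x * m x * (V (x + h) - V x) ^ 2) - ∫ x, crl_chi R x * m x| < ε / 4 := by
    have := Metric.tendsto_nhds.1 l2 (ε / 4) (by linarith)
    simpa [Real.dist_eq] using this
  have e3 : ∀ᶠ h : ℝ in 𝓝[≠] 0, |h| ≤ min 1 δ := by
    have h1 : ∀ᶠ h : ℝ in 𝓝 0, |h| < min 1 δ := by
      have : (0 : ℝ) < min 1 δ := lt_min one_pos hδ
      have h2 : Tendsto (fun h : ℝ => |h|) (𝓝 0) (𝓝 0) := by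
        simpa using (continuous_abs.tendsto (0 : ℝ))
      exact h2.eventually (gt_mem_nhds this)
    exact (h1.filter_mono nhdsWithin_le_nhds).mono fun h hh => hh.le
  have e4 : ∀ᶠ h : ℝ in 𝓝[≠] 0, h ≠ 0 := eventually_mem_nhdsWithin
  filter_upwards [e1, e2, e3, e4] with h hh1 hh2 hh3 hh4
  have hhp : 0 < |h| := abs_pos.2 hh4
  have hp : 0 < |h| ^ (-(2 * H)) := Real.rpow_pos_of_pos hhp _
  have hpp : |h| ^ (-(2 * H)) * |h| ^ (2 * H) = 1 := by
    rw [← Real.rpow_add hhp]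
    simp
  have t1 := crl_tail hV hW hC hR1 (hh3.trans (min_le_left _ _)) (hC1 h).1
  have t2 := crl_mid (R := R) hV hW hη0.le hloc (hh3.trans (min_le_right _ _)) (hC1 h).1
  have t3 := crl_m_tail hW hR1
  rw [← hρ] at t1 t3
  rw [← hG] at t3
  rw [Real.dist_eq]
  set I0 := ∫ x, W (x, x + h)
  set I1 := ∫ x, crl_chi R x * W (x, x + h)
  set I2 := ∫ x, crl_chi R x * m x * (V (x + h) - V x) ^ 2
  set I3 := ∫ x, crl_chi R x * (V (x + h) - V x) ^ 2
  set M1 := ∫ x, crl_chi R x * m x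
  set M := ∫ x, m x
  set P := |h| ^ (-(2 * H))
  have s1 : |P * (I0 - I1)| ≤ 4 * A * C * ρ := by
    rw [abs_mul, abs_of_pos hp]
    calc P * |I0 - I1| ≤ P * (4 * A * C * ρ * |h| ^ (2 * H)) :=
          mul_le_mul_of_nonneg_left t1 hp.le
      _ = 4 * A * C * ρ * (P * |h| ^ (2 * H)) := by ring
      _ = 4 * A * C * ρ := by rw [hpp, mul_one]
  have s2 : |P * (I1 - I2)| ≤ ε / 4 := by
    rw [abs_mul, abs_of_pos hp]
    calc P * |I1 - I2| ≤ P * (η * I3) := mul_le_mul_of_nonneg_left t2 hp.le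
      _ = η * (P * I3) := by ring
      _ ≤ η * (K + 1) := mul_le_mul_of_nonneg_left hh1.le hη0.le
      _ = ε / 4 := by rw [hη]; field_simp
  have e : P * I0 - M = P * (I0 - I1) + P * (I1 - I2) + (P * I2 - M1) + (M1 - M) := by ring
  rw [e]
  have a1 := abs_add_le (P * (I0 - I1) + P * (I1 - I2) + (P * I2 - M1)) (M1 - M)
  have a2 := abs_add_le (P * (I0 - I1) + P * (I1 - I2)) (P * I2 - M1)
  have a3 := abs_add_le (P * (I0 - I1)) (P * (I1 - I2))
  have t3' : |M1 - M| ≤ A * ρ * G := t3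
  have r1 : 4 * A * C * ρ + A * ρ * G < ε / 4 := by
    have : (4 * A * C + A * G) * ρ = 4 * A * C * ρ + A * ρ * G := by ring
    linarith
  linarith

/-- integrability of polynomial functions against the Gaussian density -/
private theorem crl_poly (hH : 0 < H) (hH1 : H < 1) (v : ℝ≥0) (hv : v ≠ 0) (C : ℝ) :
    Integrable (fun h : ℝ => C * |h| ^ (2 * H) * (1 + |h| ^ 4) * gaussianPDFReal 0 v h) := by
  have hg : ∀ k : ℕ, Integrable (fun h : ℝ => h ^ k) (gaussianReal 0 v) := by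
    intro k
    rcases Nat.eq_zero_or_pos k with rfl | hk
    · simp
    · have h1 := memLp_id_gaussianReal (μ := 0) (v := v) (k : ℝ≥0)
      have h2 : MemLp (id : ℝ → ℝ) (k : ℝ≥0∞) (gaussianReal 0 v) := by
        exact_mod_cast h1
      have h3 := h2.integrable_norm_pow hk.ne'
      have h4 : Integrable (fun h : ℝ => ‖h ^ k‖) (gaussianReal 0 v) := by
        refine h3.congr (ae_of_all _ fun h => ?_)
        simp [norm_pow]
      exact (integrable_norm_iff (by fun_prop)).1 h4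
  have hdom : Integrable (fun h : ℝ => |C| * ((1 + h ^ 2) * (1 + h ^ 4))) (gaussianReal 0 v) := by
    have e : (fun h : ℝ => |C| * ((1 + h ^ 2) * (1 + h ^ 4))) =
        fun h => |C| * (h ^ 0 + h ^ 2 + h ^ 4 + h ^ 6) := by
      funext h
      ring
    rw [e]
    exact ((((hg 0).add (hg 2)).add (hg 4)).add (hg 6)).const_mul _
  have hmain : Integrable (fun h : ℝ => C * |h| ^ (2 * H) * (1 + |h| ^ 4)) (gaussianReal 0 v) := by
    refine hdom.mono' ?_ (ae_of_all _ fun h => ?_)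
    · have hm : Measurable (fun h : ℝ => C * |h| ^ (2 * H) * (1 + |h| ^ 4)) := by fun_prop
      exact hm.aestronglyMeasurable
    · rw [Real.norm_eq_abs, abs_mul, abs_mul, abs_of_nonneg (Real.rpow_nonneg (abs_nonneg h) _),
        abs_of_nonneg (by positivity : (0 : ℝ) ≤ 1 + |h| ^ 4), mul_assoc]
      have h1 : |h| ^ (2 * H) ≤ 1 + h ^ 2 := by
        rcases le_total |h| 1 with h2 | h2
        · have h3 : |h| ^ (2 * H) ≤ 1 := Real.rpow_le_one (abs_nonneg _) h2 (by linarith)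
          nlinarith [sq_nonneg h]
        · have h3 : |h| ^ (2 * H) ≤ |h| ^ (2 : ℝ) :=
            Real.rpow_le_rpow_of_exponent_le h2 (by linarith)
          rw [Real.rpow_two, sq_abs] at h3
          linarith
      have h4 : |h| ^ 4 = h ^ 4 := by
        rw [show (4 : ℕ) = 2 * 2 from rfl, pow_mul, sq_abs, ← pow_mul]
      rw [h4]
      gcongr
  rw [gaussianReal_of_var_ne_zero _ hv] at hmain
  rw [integrable_withDensity_iff_integrable_smul' (measurable_gaussianPDF _ _)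
    (ae_of_all _ fun _ => gaussianPDF_lt_top)] at hmain
  refine hmain.congr (ae_of_all _ fun h => ?_)
  show (gaussianPDF 0 v h).toReal • (C * |h| ^ (2 * H) * (1 + |h| ^ 4)) =
    C * |h| ^ (2 * H) * (1 + |h| ^ 4) * gaussianPDFReal 0 v h
  rw [toReal_gaussianPDF, smul_eq_mul]
  ring

private theorem crl_fub (hH : 0 < H) (hH1 : H < 1) {U : ℝ × ℝ → ℝ} (hU : Measurable U) {C : ℝ}
    (hb : ∀ h : ℝ, Integrable (fun x => U (x, x + h)) ∧
      ∫ x, |U (x, x + h)| ≤ C * |h| ^ (2 * H) * (1 + |h| ^ 4)) {v : ℝ≥0} (hv : 0 < v) :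
    Integrable (fun z : ℝ × ℝ => U z * gaussianPDFReal 0 v (z.2 - z.1)) ∧
    ∫ z : ℝ × ℝ, U z * gaussianPDFReal 0 v (z.2 - z.1)
      = ∫ h, (∫ x, U (x, x + h)) ∂(gaussianReal 0 v) := by
  have hT : MeasurePreserving (fun z : ℝ × ℝ => (z.1, z.1 + z.2))
      ((volume : Measure ℝ).prod volume) ((volume : Measure ℝ).prod volume) :=
    measurePreserving_prod_add volume volume
  have hTe : MeasurableEmbedding (fun z : ℝ × ℝ => (z.1, z.1 + z.2)) :=
    (MeasurableEquiv.shearAddRight ℝ).measurableEmbedding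
  have hgm : Measurable (gaussianPDFReal 0 v) := measurable_gaussianPDFReal _ _
  have hm : Measurable (fun z : ℝ × ℝ => U (z.1, z.1 + z.2) * gaussianPDFReal 0 v z.2) :=
    (hU.comp (measurable_fst.prodMk (measurable_fst.add measurable_snd))).mul
      (hgm.comp measurable_snd)
  have Gi : Integrable (fun z : ℝ × ℝ => U (z.1, z.1 + z.2) * gaussianPDFReal 0 v z.2)
      ((volume : Measure ℝ).prod volume) := by
    rw [integrable_prod_iff' hm.aestronglyMeasurable]
    have hsec : ∀ h : ℝ, Integrable (fun x => U (x, x + h) * gaussianPDFReal 0 v h) :=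
      fun h => (hb h).1.mul_const _
    refine ⟨ae_of_all _ fun h => hsec h, ?_⟩
    have h1 : ∀ h : ℝ, ∫ x, ‖U (x, x + h) * gaussianPDFReal 0 v h‖ =
        (∫ x, |U (x, x + h)|) * gaussianPDFReal 0 v h := by
      intro h
      rw [← integral_mul_const]
      refine integral_congr_ae (ae_of_all _ fun x => ?_)
      show ‖U (x, x + h) * gaussianPDFReal 0 v h‖ = |U (x, x + h)| * gaussianPDFReal 0 v h
      rw [norm_mul, Real.norm_eq_abs, Real.norm_of_nonneg (gaussianPDFReal_nonneg _ _ _)]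
    refine (crl_poly hH hH1 v hv.ne' C).mono' ?_ (ae_of_all _ fun h => ?_)
    · exact (hm.norm.stronglyMeasurable.integral_prod_left).aestronglyMeasurable
    · show ‖∫ x, ‖U (x, x + h) * gaussianPDFReal 0 v h‖‖ ≤ _
      rw [h1 h, Real.norm_of_nonneg (mul_nonneg (integral_nonneg fun x => abs_nonneg _)
        (gaussianPDFReal_nonneg _ _ _))]
      exact mul_le_mul_of_nonneg_right (hb h).2 (gaussianPDFReal_nonneg _ _ _)
  have hcomp : (fun z : ℝ × ℝ => U z * gaussianPDFReal 0 v (z.2 - z.1)) ∘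
      (fun z : ℝ × ℝ => (z.1, z.1 + z.2)) =
      fun z : ℝ × ℝ => U (z.1, z.1 + z.2) * gaussianPDFReal 0 v z.2 := by
    funext z
    show U (z.1, z.1 + z.2) * gaussianPDFReal 0 v (z.1 + z.2 - z.1) = _
    rw [add_sub_cancel_left]
  have hI : Integrable (fun z : ℝ × ℝ => U z * gaussianPDFReal 0 v (z.2 - z.1))
      ((volume : Measure ℝ).prod volume) := by
    rw [← hT.integrable_comp_emb hTe, hcomp]
    exact Gi
  refine ⟨hI, ?_⟩
  have h1 : ∫ z : ℝ × ℝ, U z * gaussianPDFReal 0 v (z.2 - z.1) ∂((volume : Measure ℝ).prod volume)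
      = ∫ z : ℝ × ℝ, U (z.1, z.1 + z.2) * gaussianPDFReal 0 v z.2
        ∂((volume : Measure ℝ).prod volume) := by
    rw [← hT.integral_comp hTe]
    refine integral_congr_ae (ae_of_all _ fun z => ?_)
    exact congrFun hcomp z
  have h2 : ∫ z : ℝ × ℝ, U z * gaussianPDFReal 0 v (z.2 - z.1) =
    ∫ z : ℝ × ℝ, U z * gaussianPDFReal 0 v (z.2 - z.1) ∂((volume : Measure ℝ).prod volume) := rfl
  rw [h2, h1, integral_prod_symm _ Gi, integral_gaussianReal_eq_integral_smul hv.ne']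
  refine integral_congr_ae (ae_of_all _ fun h => ?_)
  show ∫ x, U (x, x + h) * gaussianPDFReal 0 v h = gaussianPDFReal 0 v h • ∫ x, U (x, x + h)
  rw [integral_mul_const, smul_eq_mul, mul_comm]

/-- Fubini -/
theorem rw_fubini (hH : 0 < H) (hH1 : H < 1) (hV : VGood H V) (hW : IncW V m A W) {v : ℝ≥0}
    (hv : 0 < v) :
    Integrable (fun z : ℝ × ℝ => W z * gaussianPDFReal 0 v (z.2 - z.1)) ∧
    ∫ z : ℝ × ℝ, W z * gaussianPDFReal 0 v (z.2 - z.1)
      = ∫ h, (∫ x, W (x, x + h)) ∂(gaussianReal 0 v) := by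
  obtain ⟨C, hC⟩ := rw_bound hH hH1 hV hW
  exact crl_fub hH hH1 hW.meas hC hv

private theorem crl_J_meas {U : ℝ × ℝ → ℝ} (hU : Measurable U) :
    Measurable (fun h : ℝ => ∫ x, U (x, x + h)) := by
  have h1 : StronglyMeasurable (fun z : ℝ × ℝ => U (z.2, z.2 + z.1)) :=
    (hU.comp (measurable_snd.prodMk (measurable_snd.add measurable_fst))).stronglyMeasurable
  exact (h1.integral_prod_right (ν := volume)).measurable

theorem rw_lim (hH : 0 < H) (hH1 : H < 1) (hV : VGood H V) (hW : IncW V m A W) {v : ℕ → ℝ≥0}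
    (hv : ∀ n, 0 < v n) (hv0 : Tendsto v atTop (𝓝 0)) {L : ℝ}
    (hN : Tendsto (fun n : ℕ => ((n : ℝ) + 1) * (v n : ℝ) ^ H) atTop (𝓝 L)) :
    Tendsto (fun n : ℕ => ((n : ℝ) + 1) *
      ∫ z : ℝ × ℝ, W z * gaussianPDFReal 0 (v n) (z.2 - z.1)) atTop
      (𝓝 (L * (∫ x, m x) * gmom (2 * H))) := by
  obtain ⟨C, hC⟩ := rw_bound hH hH1 hV hW
  have hN' : Tendsto (fun n : ℕ => ((n : ℝ) + 1) * (v n : ℝ) ^ (2 * H / 2)) atTop (𝓝 L) := by
    have : 2 * H / 2 = H := by ring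
    rw [this]
    exact hN
  have h := gauss_avg (a := 2 * H) (C := C) (by linarith) (crl_J_meas hW.meas)
    (fun z => (abs_integral_le_integral_abs).trans (hC z).2) (rw_point hH hH1 hV hW) hv hv0
    (N := fun n => (n : ℝ) + 1) hN'
  refine h.congr fun n => ?_
  rw [(rw_fubini hH hH1 hV hW (hv n)).2]

theorem rw_bdd (hH : 0 < H) (hH1 : H < 1) (hV : VGood H V) (hW : IncW V m A W) {v : ℕ → ℝ≥0}
    (hv : ∀ n, 0 < v n) (hv0 : Tendsto v atTop (𝓝 0)) {L : ℝ}
    (hN : Tendsto (fun n : ℕ => ((n : ℝ) + 1) * (v n : ℝ) ^ H) atTop (𝓝 L)) :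
    ∃ C : ℝ, ∀ n : ℕ, ((n : ℝ) + 1) *
      ∫ z : ℝ × ℝ, |W z| * gaussianPDFReal 0 (v n) (z.2 - z.1) ≤ C := by
  obtain ⟨C, hC⟩ := rw_bound hH hH1 hV hW
  have hN' : Tendsto (fun n : ℕ => ((n : ℝ) + 1) * (v n : ℝ) ^ (2 * H / 2)) atTop (𝓝 L) := by
    have : 2 * H / 2 = H := by ring
    rw [this]
    exact hN
  have hU : Measurable (fun z => |W z|) := hW.meas.norm
  have hCU : ∀ h : ℝ, Integrable (fun x => |W (x, x + h)|) ∧
      ∫ x, |(|W (x, x + h)|)| ≤ C * |h| ^ (2 * H) * (1 + |h| ^ 4) := by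
    intro h
    refine ⟨(hC h).1.abs, ?_⟩
    simp only [abs_abs]
    exact (hC h).2
  obtain ⟨C', hC'⟩ := gauss_avg_bdd (a := 2 * H) (C := C) (by linarith) (crl_J_meas hU)
    (fun z => (abs_integral_le_integral_abs).trans (hCU z).2) hv hv0
    (N := fun n => (n : ℝ) + 1) (fun n => by positivity) hN'
  refine ⟨C', fun n => ?_⟩
  rw [(crl_fub (U := fun z => |W z|) hH hH1 hU hCU (hv n)).2]
  refine le_trans (le_of_eq ?_) (hC' n)
  congr 1
  refine integral_congr_ae (ae_of_all _ fun h => ?_)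
  show ∫ x, |W (x, x + h)| = |(∫ x, |W (x, x + h)|)|
  rw [abs_of_nonneg (integral_nonneg fun x => abs_nonneg _)]

end Pool.Agent.Lib.MP_e19099_pr
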