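import Pool.Agent.Lib.MP_e19099_pr.CRwId
import Pool.Agent.Lib.MP_e19099_pr.CRwLim

/-!
# Random walk proposals: central limit conditions (module C, C5)

The three weights satisfy `IncW` (bounds from `nrm_le`: `√(p(x)p(y)) ≤ ½(p(x)+p(y))`, `nrm V x ≤ C e^{-7x²/16} ≤ C e^{-x²/4}`;
`1 - cos θ ≤ θ²/2`, `(√p(y) - √p(x))² ≤ (p(x)+p(y)) (V y - V x)²/4` by the mean value theorem for `exp(·/2)`; local behaviour: `V` and `p` are uniformly continuous on compacts
and `1 - cos θ = θ²/2 (1 + o(1))`, `√p(y) - √p(x) = √p(x) (e^{ΔV/2} - 1)`).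
Then `rw_lim` with `vH_pow` (`L = l^{2H}`), `∫ nrm V = 1`.
-/

set_option autoImplicit false

open MeasureTheory ProbabilityTheory Filter Set
open scoped NNReal Topology ENNReal

namespace Pool.Agent.Lib.MP_e19099_pr

/-- `σ² = l^{2H} E|N|^{2H}` for RWM -/
noncomputable def sgR (H l : ℝ) : ℝ := √(l ^ (2 * H) * gmom (2 * H))

private theorem gmom_pos {H : ℝ} (hH : 0 < H) : 0 < gmom (2 * H) := by
  have h : 0 < 2 * H := by linarith
  rw [gmom_eq h]
  have h1 : 0 < Real.Gamma ((2 * H + 1) / 2) := Real.Gamma_pos_of_pos (by linarith)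
  have h2 : 0 < √Real.pi := Real.sqrt_pos.2 Real.pi_pos
  have h3 : (0 : ℝ) < 2 ^ (2 * H / 2) := Real.rpow_pos_of_pos (by norm_num) _
  positivity

private theorem sgR_arg {H l : ℝ} (hH : 0 < H) (hl : 0 < l) :
    0 < l ^ (2 * H) * gmom (2 * H) :=
  mul_pos (Real.rpow_pos_of_pos hl _) (gmom_pos hH)

theorem sgR_pos {H l : ℝ} (hH : 0 < H) (hl : 0 < l) : 0 < sgR H l :=
  Real.sqrt_pos.2 (sgR_arg hH hl)

theorem sgR_sq {H l : ℝ} (hH : 0 < H) (hl : 0 < l) :
    sgR H l ^ 2 = l ^ (2 * H) * gmom (2 * H) :=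
  Real.sq_sqrt (sgR_arg hH hl).le

variable {H l : ℝ} {V : ℝ → ℝ}

private theorem incW_gen (hV : VGood H V) {G W : ℝ × ℝ → ℝ} {m : ℝ → ℝ} (hG : Continuous G)
    {A0 : ℝ} (hA : 0 ≤ A0) (hb : ∀ x y, |G (x, y)| ≤ A0 * (nrm V x + nrm V y))
    (hm : ∀ x, m x = G (x, x)) (hW : ∀ x y, W (x, y) = G (x, y) * (V y - V x) ^ 2) :
    ∃ A, IncW V m A W := by
  obtain ⟨C, hC, hn⟩ := hV.nrm_le
  have hn' : ∀ x, nrm V x ≤ C * Real.exp (-x ^ 2 / 4) := fun x => by
    refine (hn x).trans (mul_le_mul_of_nonneg_left (Real.exp_le_exp.2 ?_) hC.le)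
    nlinarith [sq_nonneg x]
  have hVc := hV.cont
  have hWc : Continuous W := by
    have h1 : W = fun z => G z * (V z.2 - V z.1) ^ 2 := funext fun z => hW z.1 z.2
    rw [h1]
    fun_prop
  have hmc : Continuous m := by
    have h1 : m = fun x => G (x, x) := funext hm
    rw [h1]
    fun_prop
  refine ⟨2 * A0 * C, hWc.measurable, fun x y => ?_, hmc, fun x => ?_, fun A' η hη => ?_⟩
  · rw [hW, abs_mul, abs_of_nonneg (sq_nonneg (V y - V x))]
    refine mul_le_mul_of_nonneg_right ?_ (sq_nonneg _)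
    refine (hb x y).trans ?_
    have h3 := Real.exp_pos (-x ^ 2 / 4)
    have h4 := Real.exp_pos (-y ^ 2 / 4)
    calc A0 * (nrm V x + nrm V y)
        ≤ A0 * (C * Real.exp (-x ^ 2 / 4) + C * Real.exp (-y ^ 2 / 4)) :=
          mul_le_mul_of_nonneg_left (add_le_add (hn' x) (hn' y)) hA
      _ = A0 * C * (Real.exp (-x ^ 2 / 4) + Real.exp (-y ^ 2 / 4)) := by ring
      _ ≤ 2 * A0 * C * (Real.exp (-x ^ 2 / 4) + Real.exp (-y ^ 2 / 4)) := by
          have h5 : 0 ≤ A0 * C * (Real.exp (-x ^ 2 / 4) + Real.exp (-y ^ 2 / 4)) := by positivity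
          linarith
  · rw [hm]
    refine (hb x x).trans ?_
    calc A0 * (nrm V x + nrm V x)
        ≤ A0 * (C * Real.exp (-x ^ 2 / 4) + C * Real.exp (-x ^ 2 / 4)) :=
          mul_le_mul_of_nonneg_left (add_le_add (hn' x) (hn' x)) hA
      _ = 2 * A0 * C * Real.exp (-x ^ 2 / 4) := by ring
  · have hK : IsCompact (Metric.closedBall (0 : ℝ × ℝ) (|A'| + 1)) := isCompact_closedBall _ _
    have hu := hK.uniformContinuousOn_of_continuous hG.continuousOn
    rw [Metric.uniformContinuousOn_iff] at hu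
    obtain ⟨δ, hδ, h⟩ := hu η hη
    refine ⟨min (δ / 2) 1, lt_min (half_pos hδ) one_pos, fun x y hx hy => ?_⟩
    have hy1 : |y - x| ≤ 1 := hy.trans (min_le_right _ _)
    have hyδ : |y - x| < δ := (hy.trans (min_le_left _ _)).trans_lt (half_lt_self hδ)
    have hx' : |x| ≤ |A'| := hx.trans (le_abs_self _)
    have hyy : |y| ≤ |A'| + 1 := by
      calc |y| = |x + (y - x)| := by rw [add_sub_cancel]
        _ ≤ |x| + |y - x| := abs_add_le _ _
        _ ≤ _ := add_le_add hx' hy1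
    have hxx : |x| ≤ |A'| + 1 := hx'.trans (by linarith)
    have m1 : ((x, y) : ℝ × ℝ) ∈ Metric.closedBall (0 : ℝ × ℝ) (|A'| + 1) := by
      rw [mem_closedBall_zero_iff, Prod.norm_def]
      exact max_le hxx hyy
    have m2 : ((x, x) : ℝ × ℝ) ∈ Metric.closedBall (0 : ℝ × ℝ) (|A'| + 1) := by
      rw [mem_closedBall_zero_iff, Prod.norm_def]
      exact max_le hxx hxx
    have hd : dist ((x, y) : ℝ × ℝ) (x, x) < δ := by
      rw [Prod.dist_eq]
      refine max_lt ?_ ?_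
      · show dist x x < δ
        rw [dist_self]
        exact hδ
      · show dist y x < δ
        rw [Real.dist_eq]
        exact hyδ
    have h5 := h (x, y) m1 (x, x) m2 hd
    rw [Real.dist_eq] at h5
    rw [hW, hm, ← sub_mul, abs_mul, abs_of_nonneg (sq_nonneg (V y - V x))]
    exact mul_le_mul_of_nonneg_right h5.le (sq_nonneg _)

private theorem dens' (hV : VGood H V) : Dens (nrm V) := nrm_dens hV.cont hV.exp_int

private theorem sqrt_mul_le {a b : ℝ} (ha : 0 < a) (hb : 0 < b) : √(a * b) ≤ (a + b) / 2 := by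
  rw [Real.sqrt_le_iff]
  exact ⟨by linarith, by nlinarith [sq_nonneg (a - b)]⟩

private theorem one_sub_cos (θ : ℝ) : 1 - Real.cos θ = θ ^ 2 / 2 * Real.sinc (θ / 2) ^ 2 := by
  by_cases h : θ = 0
  · rw [h]
    simp
  · have h2 : θ / 2 ≠ 0 := div_ne_zero h two_ne_zero
    rw [Real.sinc_of_ne_zero h2]
    have h3 : Real.cos θ = 1 - 2 * Real.sin (θ / 2) ^ 2 := by
      have h4 : θ = 2 * (θ / 2) := by ring
      have h5 := Real.sin_sq_add_cos_sq (θ / 2)
      have h6 : Real.cos θ = 2 * Real.cos (θ / 2) ^ 2 - 1 := by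
        conv_lhs => rw [h4]
        exact Real.cos_two_mul _
      rw [h6]
      linarith
    rw [h3]
    field_simp
    ring

private theorem exp_fac : ∃ κ : ℝ → ℝ, Continuous κ ∧ κ 0 = 1 ∧
    (∀ u, Real.exp u - 1 = u * κ u) ∧ ∀ u, κ u ^ 2 ≤ 1 + Real.exp (2 * u) := by
  have he : ∀ u, Real.exp u - 1 = u * dslope Real.exp 0 u := fun u => by
    have h := sub_smul_dslope Real.exp 0 u
    rw [smul_eq_mul, sub_zero, Real.exp_zero] at h
    exact h.symm
  have h0 : dslope Real.exp 0 0 = 1 := by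
    rw [dslope_same, Real.deriv_exp, Real.exp_zero]
  refine ⟨dslope Real.exp 0, ?_, h0, he, fun u => ?_⟩
  · rw [continuous_iff_continuousAt]
    intro x
    by_cases hx : x = 0
    · rw [hx, continuousAt_dslope_same]
      exact Real.differentiable_exp.differentiableAt
    · rw [continuousAt_dslope_of_ne hx]
      exact Real.continuous_exp.continuousAt
  · by_cases hu : u = 0
    · rw [hu, h0, mul_zero, Real.exp_zero]
      norm_num
    · have h1 : (Real.exp u - 1) ^ 2 ≤ u ^ 2 * (1 + Real.exp (2 * u)) := by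
        have h2 : Real.exp (2 * u) = Real.exp u ^ 2 := by
          rw [← Real.exp_nat_mul]
          norm_num
        rw [h2]
        rcases le_total 0 u with h3 | h3
        · have h4 : Real.exp u - 1 ≤ u * Real.exp u := by
            have h5 := Real.add_one_le_exp (-u)
            have h6 : Real.exp u * Real.exp (-u) = 1 := by
              rw [← Real.exp_add, add_neg_cancel, Real.exp_zero]
            nlinarith [Real.exp_pos u]
          have h5 : 0 ≤ Real.exp u - 1 := by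
            have := Real.add_one_le_exp u
            linarith
          have h6 : (Real.exp u - 1) ^ 2 ≤ (u * Real.exp u) ^ 2 := pow_le_pow_left₀ h5 h4 2
          nlinarith [sq_nonneg u]
        · have h4 : 1 - Real.exp u ≤ -u := by
            have := Real.add_one_le_exp u
            linarith
          have h5 : 0 ≤ 1 - Real.exp u := by
            have := Real.exp_le_one_iff.2 h3
            linarith
          have h6 : (1 - Real.exp u) ^ 2 ≤ (-u) ^ 2 := pow_le_pow_left₀ h5 h4 2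
          nlinarith [mul_nonneg (sq_nonneg u) (sq_nonneg (Real.exp u))]
      rw [he u, mul_pow] at h1
      exact le_of_mul_le_mul_left h1 (pow_pos (lt_of_le_of_ne (abs_nonneg u)
        (Ne.symm (abs_ne_zero.2 hu))) 2 |> fun h => by rwa [sq_abs] at h)

private theorem nrm_exp (hV : VGood H V) (x y : ℝ) :
    nrm V y = nrm V x * Real.exp (V y - V x) := by
  rw [← nrm_ratio hV.cont hV.exp_int x y, mul_div_cancel₀ _ ((dens' hV).pos x).ne']

theorem incW_cos (hV : VGood H V) (t : ℝ) :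
    ∃ A, IncW V (fun x => t ^ 2 / 2 * nrm V x) A
      (fun z => √(nrm V z.1 * nrm V z.2) * (1 - Real.cos (t * (V z.2 - V z.1)))) := by
  have hd := dens' hV
  have hVc := hV.cont
  have hnc := hd.cont
  have hsc := Real.continuous_sinc
  refine incW_gen hV (G := fun z => √(nrm V z.1 * nrm V z.2) *
    (t ^ 2 / 2 * Real.sinc (t * (V z.2 - V z.1) / 2) ^ 2)) (A0 := t ^ 2 / 4) ?_ (by positivity)
    (fun x y => ?_) (fun x => ?_) (fun x y => ?_)
  · fun_prop
  · simp only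
    have h1 := sqrt_mul_le (hd.pos x) (hd.pos y)
    have h2 : Real.sinc (t * (V y - V x) / 2) ^ 2 ≤ 1 := by
      rw [← sq_abs]
      exact pow_le_one₀ (abs_nonneg _) (Real.abs_sinc_le_one _)
    rw [abs_of_nonneg (by positivity)]
    calc √(nrm V x * nrm V y) * (t ^ 2 / 2 * Real.sinc (t * (V y - V x) / 2) ^ 2)
        ≤ (nrm V x + nrm V y) / 2 * (t ^ 2 / 2 * 1) := by
          refine mul_le_mul h1 (mul_le_mul_of_nonneg_left h2 (by positivity)) (by positivity) ?_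
          have := hd.pos x
          have := hd.pos y
          positivity
      _ = t ^ 2 / 4 * (nrm V x + nrm V y) := by ring
  · simp only
    rw [sub_self, mul_zero, zero_div, Real.sinc_zero, Real.sqrt_mul_self (hd.pos x).le]
    ring
  · simp only
    rw [one_sub_cos]
    ring

theorem incW_hell (hV : VGood H V) :
    ∃ A, IncW V (fun x => 1 / 8 * nrm V x) A
      (fun z => (√(nrm V z.2) - √(nrm V z.1)) ^ 2 / 2) := by
  have hd := dens' hV
  have hVc := hV.cont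
  have hnc := hd.cont
  obtain ⟨κ, hκc, hκ0, hκe, hκb⟩ := exp_fac
  refine incW_gen hV (G := fun z => nrm V z.1 * (κ ((V z.2 - V z.1) / 2) ^ 2 / 8))
    (A0 := 1 / 8) ?_ (by norm_num) (fun x y => ?_) (fun x => ?_) (fun x y => ?_)
  · fun_prop
  · simp only
    have h1 := hκb ((V y - V x) / 2)
    have h2 : 2 * ((V y - V x) / 2) = V y - V x := by ring
    rw [h2] at h1
    have h3 := hd.pos x
    rw [abs_of_nonneg (by positivity), nrm_exp hV x y]
    have h4 := mul_le_mul_of_nonneg_left h1 h3.le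
    linarith
  · simp only
    rw [sub_self, zero_div, hκ0]
    ring
  · simp only
    have h3 := hd.pos x
    have h1 : √(nrm V y) = √(nrm V x) * Real.exp ((V y - V x) / 2) := by
      rw [nrm_exp hV x y, Real.sqrt_mul h3.le, Real.exp_half]
    rw [h1]
    have h4 : √(nrm V x) * Real.exp ((V y - V x) / 2) - √(nrm V x)
        = √(nrm V x) * ((V y - V x) / 2 * κ ((V y - V x) / 2)) := by
      rw [← hκe]
      ring
    rw [h4, mul_pow, Real.sq_sqrt h3.le]
    ring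

theorem incW_sq (hV : VGood H V) :
    ∃ A, IncW V (nrm V) A (fun z => √(nrm V z.1 * nrm V z.2) * (V z.2 - V z.1) ^ 2) := by
  have hd := dens' hV
  have hVc := hV.cont
  have hnc := hd.cont
  refine incW_gen hV (G := fun z => √(nrm V z.1 * nrm V z.2)) (A0 := 1 / 2) ?_ (by norm_num)
    (fun x y => ?_) (fun x => ?_) (fun x y => rfl)
  · fun_prop
  · simp only
    rw [abs_of_nonneg (Real.sqrt_nonneg _)]
    refine (sqrt_mul_le (hd.pos x) (hd.pos y)).trans (le_of_eq ?_)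
    ring
  · simp only
    rw [Real.sqrt_mul_self (hd.pos x).le]

private theorem hN (hH : 0 < H) (hl : 0 < l) :
    Tendsto (fun n : ℕ => ((n : ℝ) + 1) * (vH l H n : ℝ) ^ H) atTop (𝓝 (l ^ (2 * H))) :=
  tendsto_const_nhds.congr fun n => (vH_pow hl hH n).symm

/-- `(n+1) (1 - Z) → σ²/8` -/
theorem rw_z (hH : 0 < H) (hH1 : H < 1) (hl : 0 < l) (hV : VGood H V) :
    Tendsto (fun n : ℕ => ((n : ℝ) + 1) * (1 - Zf (nrm V) (rwq (vH l H n)))) atTop
      (𝓝 (sgR H l ^ 2 / 8)) := by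
  obtain ⟨A, hW⟩ := incW_hell hV
  have h := rw_lim hH hH1 hV hW (fun n => vH_pos hl H n) (vH_lim hl hH) (hN hH hl)
  have h1 : l ^ (2 * H) * (∫ x, 1 / 8 * nrm V x) * gmom (2 * H) = sgR H l ^ 2 / 8 := by
    rw [sgR_sq hH hl, integral_const_mul, (dens' hV).one]
    ring
  rw [h1] at h
  refine h.congr fun n => ?_
  rw [Zf_rw hV (vH_pos hl H n)]

private theorem z_one (hH : 0 < H) (hH1 : H < 1) (hl : 0 < l) (hV : VGood H V) :
    Tendsto (fun n : ℕ => Zf (nrm V) (rwq (vH l H n))) atTop (𝓝 1) := by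
  have h := rw_z hH hH1 hl hV
  have h1 : Tendsto (fun n : ℕ => ((n : ℝ) + 1)⁻¹) atTop (𝓝 0) := by
    have h2 := tendsto_one_div_add_atTop_nhds_zero_nat (𝕜 := ℝ)
    refine h2.congr fun n => ?_
    rw [one_div]
  have h3 := h.mul h1
  rw [mul_zero] at h3
  have h4 := (tendsto_const_nhds (x := (1 : ℝ))).sub h3
  rw [sub_zero] at h4
  refine h4.congr fun n => ?_
  have h5 : ((n : ℝ) + 1) ≠ 0 := by positivity
  field_simp
  ring

private theorem zi_one (hH : 0 < H) (hH1 : H < 1) (hl : 0 < l) (hV : VGood H V) :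
    Tendsto (fun n : ℕ => (Zf (nrm V) (rwq (vH l H n)))⁻¹) atTop (𝓝 1) := by
  have h := (z_one hH hH1 hl hV).inv₀ one_ne_zero
  rwa [inv_one] at h

theorem rw_zlim (hH : 0 < H) (hH1 : H < 1) (hl : 0 < l) (hV : VGood H V) :
    Tendsto (fun n : ℕ => Zf (nrm V) (rwq (vH l H n)) ^ (n + 1)) atTop
      (𝓝 (Real.exp (-sgR H l ^ 2 / 8))) := by
  set g : ℕ → ℝ := fun n => Zf (nrm V) (rwq (vH l H (n - 1))) - 1 with hg
  have h1 : Tendsto (fun n : ℕ => (n : ℝ) * g n) atTop (𝓝 (-sgR H l ^ 2 / 8)) := by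
    rw [← tendsto_add_atTop_iff_nat 1]
    have h2 := (rw_z hH hH1 hl hV).neg
    rw [← neg_div] at h2
    refine h2.congr fun n => ?_
    simp only [hg, Nat.add_sub_cancel, Nat.cast_add, Nat.cast_one]
    ring
  have h3 := Real.tendsto_one_add_pow_exp_of_tendsto h1
  rw [← tendsto_add_atTop_iff_nat 1] at h3
  refine h3.congr fun n => ?_
  simp only [hg, Nat.add_sub_cancel]
  congr 1
  ring

private theorem prop' (hl : 0 < l) (n : ℕ) : IsProp (rwq (vH l H n)) := rwq_prop (vH_pos hl H n)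

theorem rw_clt (hH : 0 < H) (hH1 : H < 1) (hl : 0 < l) (hV : VGood H V) (t : ℝ) :
    Tendsto (fun n : ℕ => ((n : ℝ) + 1) *
      ∫ z, (1 - Real.cos (t * Rf (nrm V) (rwq (vH l H n)) z)) ∂(sm (nrm V) (rwq (vH l H n))))
      atTop (𝓝 (t ^ 2 * sgR H l ^ 2 / 2)) := by
  obtain ⟨A, hW⟩ := incW_cos hV t
  have h := rw_lim hH hH1 hV hW (fun n => vH_pos hl H n) (vH_lim hl hH) (hN hH hl)
  have h1 : l ^ (2 * H) * (∫ x, t ^ 2 / 2 * nrm V x) * gmom (2 * H)
      = t ^ 2 * sgR H l ^ 2 / 2 := by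
    rw [sgR_sq hH hl, integral_const_mul, (dens' hV).one]
    ring
  rw [h1] at h
  have h2 := (zi_one hH hH1 hl hV).mul h
  rw [one_mul] at h2
  refine h2.congr fun n => ?_
  rw [integral_sm (dens' hV) (prop' hl n)]
  have h3 : ∀ z : ℝ × ℝ, (1 - Real.cos (t * Rf (nrm V) (rwq (vH l H n)) z)) *
      sdn (nrm V) (rwq (vH l H n)) z = √(nrm V z.1 * nrm V z.2) *
        (1 - Real.cos (t * (V z.2 - V z.1))) * gaussianPDFReal 0 (vH l H n) (z.2 - z.1) :=
    fun z => by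
      rw [Rf_rw hV (vH_pos hl H n), sdn_rw hV]
      ring
  rw [integral_congr_ae (Eventually.of_forall h3)]
  ring

theorem rw_rsq (hH : 0 < H) (hH1 : H < 1) (hl : 0 < l) (hV : VGood H V) :
    ∃ C : ℝ, ∀ n : ℕ, ((n : ℝ) + 1) *
      ∫ z, min 1 (Rf (nrm V) (rwq (vH l H n)) z ^ 2) ∂(sm (nrm V) (rwq (vH l H n))) ≤ C := by
  obtain ⟨A, hW⟩ := incW_sq hV
  obtain ⟨C, hC⟩ := rw_bdd hH hH1 hV hW (fun n => vH_pos hl H n) (vH_lim hl hH) (hN hH hl)
  obtain ⟨B, hB⟩ := (zi_one hH hH1 hl hV).bddAbove_range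
  have hB' : ∀ n, (Zf (nrm V) (rwq (vH l H n)))⁻¹ ≤ B := fun n => hB (mem_range_self n)
  have hd := dens' hV
  have hZ : ∀ n, 0 < (Zf (nrm V) (rwq (vH l H n)))⁻¹ := fun n =>
    inv_pos.2 (Zf_pos hd (prop' hl n))
  refine ⟨B * C, fun n => ?_⟩
  have hv := vH_pos hl H n
  obtain ⟨hi, -⟩ := rw_fubini hH hH1 hV hW hv
  rw [integral_sm hd (prop' hl n)]
  have hW0 : ∀ z : ℝ × ℝ, 0 ≤ √(nrm V z.1 * nrm V z.2) * (V z.2 - V z.1) ^ 2 := fun z =>
    mul_nonneg (Real.sqrt_nonneg _) (sq_nonneg _)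
  have hg0 : ∀ x, 0 ≤ gaussianPDFReal 0 (vH l H n) x := fun x => gaussianPDFReal_nonneg _ _ _
  have hs0 : ∀ z, 0 ≤ sdn (nrm V) (rwq (vH l H n)) z := fun z => (sdn_pos hd (prop' hl n) z).le
  have hle : ∀ z : ℝ × ℝ, min 1 (Rf (nrm V) (rwq (vH l H n)) z ^ 2) *
      sdn (nrm V) (rwq (vH l H n)) z
      ≤ |√(nrm V z.1 * nrm V z.2) * (V z.2 - V z.1) ^ 2| *
        gaussianPDFReal 0 (vH l H n) (z.2 - z.1) := fun z => by
    rw [abs_of_nonneg (hW0 z)]
    calc min 1 (Rf (nrm V) (rwq (vH l H n)) z ^ 2) * sdn (nrm V) (rwq (vH l H n)) z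
        ≤ Rf (nrm V) (rwq (vH l H n)) z ^ 2 * sdn (nrm V) (rwq (vH l H n)) z :=
          mul_le_mul_of_nonneg_right (min_le_right _ _) (hs0 z)
      _ = _ := by
          rw [Rf_rw hV hv, sdn_rw hV]
          ring
  have h0 : ∀ z : ℝ × ℝ, 0 ≤ min 1 (Rf (nrm V) (rwq (vH l H n)) z ^ 2) *
      sdn (nrm V) (rwq (vH l H n)) z := fun z =>
    mul_nonneg (le_min zero_le_one (sq_nonneg _)) (hs0 z)
  have hi' : Integrable fun z : ℝ × ℝ => |√(nrm V z.1 * nrm V z.2) * (V z.2 - V z.1) ^ 2| *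
        gaussianPDFReal 0 (vH l H n) (z.2 - z.1) := by
    refine hi.congr (Eventually.of_forall fun z => ?_)
    simp only
    rw [abs_of_nonneg (hW0 z)]
  have h1 : ∫ z : ℝ × ℝ, min 1 (Rf (nrm V) (rwq (vH l H n)) z ^ 2) *
      sdn (nrm V) (rwq (vH l H n)) z
      ≤ ∫ z : ℝ × ℝ, |√(nrm V z.1 * nrm V z.2) * (V z.2 - V z.1) ^ 2| *
        gaussianPDFReal 0 (vH l H n) (z.2 - z.1) :=
    integral_mono_of_nonneg (Eventually.of_forall h0) hi' (Eventually.of_forall hle)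
  have h2 : 0 ≤ ∫ z : ℝ × ℝ, |√(nrm V z.1 * nrm V z.2) * (V z.2 - V z.1) ^ 2| *
        gaussianPDFReal 0 (vH l H n) (z.2 - z.1) :=
    integral_nonneg fun z => mul_nonneg (abs_nonneg _) (hg0 _)
  have h3 := hC n
  have hn : (0 : ℝ) ≤ (n : ℝ) + 1 := by positivity
  have hC0 : 0 ≤ C := (mul_nonneg hn h2).trans h3
  calc ((n : ℝ) + 1) * ((Zf (nrm V) (rwq (vH l H n)))⁻¹ *
        ∫ z : ℝ × ℝ, min 1 (Rf (nrm V) (rwq (vH l H n)) z ^ 2) *
          sdn (nrm V) (rwq (vH l H n)) z)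
      = (Zf (nrm V) (rwq (vH l H n)))⁻¹ * (((n : ℝ) + 1) *
        ∫ z : ℝ × ℝ, min 1 (Rf (nrm V) (rwq (vH l H n)) z ^ 2) *
          sdn (nrm V) (rwq (vH l H n)) z) := by ring
    _ ≤ (Zf (nrm V) (rwq (vH l H n)))⁻¹ * C :=
        mul_le_mul_of_nonneg_left ((mul_le_mul_of_nonneg_left h1 hn).trans h3) (hZ n).le
    _ ≤ B * C := mul_le_mul_of_nonneg_right (hB' n) hC0

end Pool.Agent.Lib.MP_e19099_pr
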