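import Pool.Agent.Lib.MP_e19099_pr.CRwClt

/-!
# Random walk proposals: the first coordinate condition, first part (module C, C6)

`rwg V t (x,y) = 1_{|y-x| ≤ 1} (∫_x^y t) / √(p(x) p(y))`.  Let `t` have support in `[-A, A]`.  If `|y-x| ≤ 1` and `∫_x^y t ≠ 0` then `x, y ∈ [-A-1, A+1]`, where `p` is bounded
below.  `rwg_bdd`: `|rwg| ≤ C |y-x|`.
`rwg_close`: `J(z) = ∫ (v(x+z) - v(x) - g(x,x+z))² √(p(x)p(x+z)) dx` satisfies the hypotheses of `small_avg` (`|z| ≤ 1`: `|∫_x^y t (1/p(u) - 1/√(p(x)p(y))) du| ≤ ω(|z|)|z|`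
with `ω` from the uniform continuity of `p` on `[-A-2,A+2]`, `x` ranges in a compact; `|z| > 1`: `v` is bounded and `∫ √(p(x)p(x+z)) dx ≤ 1`), `Z → 1` (`Z ≥ 1/2` eventually).
`rwg_tail`: `J(z) = ∫_{|V(x+z)-V(x)|>1} |g| √(p p) dx` is `0` for small `z` and bounded.
-/

set_option autoImplicit false

open MeasureTheory ProbabilityTheory Filter Set
open scoped NNReal Topology ENNReal

namespace Pool.Agent.Lib.MP_e19099_pr

noncomputable def rwg (V t : ℝ → ℝ) (z : ℝ × ℝ) : ℝ :=
  if |z.2 - z.1| ≤ 1 then (∫ u in z.1..z.2, t u) / √(nrm V z.1 * nrm V z.2) else 0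

variable {H l : ℝ} {V t : ℝ → ℝ}

private theorem fca_dens (hV : VGood H V) : Dens (nrm V) := nrm_dens hV.cont hV.exp_int

private theorem fca_cont (ht : IsTest t) : Continuous t := ht.smooth.continuous

private theorem fca_supp (ht : IsTest t) : ∃ A : ℝ, 0 < A ∧ ∀ x, t x ≠ 0 → |x| < A := by
  obtain ⟨A, hA0, hA⟩ := ht.supp.isCompact.isBounded.subset_ball_lt 0 0
  refine ⟨A, hA0, fun x hx => ?_⟩
  have := hA (subset_tsupport t hx)
  rwa [mem_ball_zero_iff, Real.norm_eq_abs] at this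

private theorem fca_bd (ht : IsTest t) : ∃ C : ℝ, 0 ≤ C ∧ ∀ x, |t x| ≤ C := by
  obtain ⟨C, hC⟩ := (fca_cont ht).bounded_above_of_compact_support ht.supp
  exact ⟨C, (norm_nonneg _).trans (hC 0), fun x => hC x⟩

/-- if `t u ≠ 0` with `u` between `x` and `y`, `|y - x| ≤ 1` then all three points are in `K` -/
private theorem fca_in {A : ℝ} (hA : ∀ x, t x ≠ 0 → |x| < A) {x y u : ℝ} (hu : u ∈ uIcc x y)
    (hxy : |y - x| ≤ 1) (htu : t u ≠ 0) :
    x ∈ Icc (-(A + 1)) (A + 1) ∧ y ∈ Icc (-(A + 1)) (A + 1) ∧ u ∈ Icc (-(A + 1)) (A + 1) ∧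
      |u - x| ≤ |y - x| ∧ |u - y| ≤ |y - x| := by
  have h1 : |u - x| ≤ |y - x| := abs_sub_left_of_mem_uIcc hu
  have h2 : |u - y| ≤ |y - x| := by
    have := abs_sub_right_of_mem_uIcc hu
    rwa [abs_sub_comm] at this
  have h3 := hA u htu
  have h4 := abs_lt.mp h3
  have h5 := abs_le.mp (h1.trans hxy)
  have h6 := abs_le.mp (h2.trans hxy)
  refine ⟨⟨by linarith, by linarith⟩, ⟨by linarith, by linarith⟩, ⟨by linarith, by linarith⟩, h1, h2⟩

/-- `r = 1/√p` -/
private noncomputable def fr (V : ℝ → ℝ) (x : ℝ) : ℝ := (√(nrm V x))⁻¹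

private theorem fr_cont (hV : VGood H V) : Continuous (fr V) := by
  have hp := fca_dens hV
  unfold fr
  exact (Real.continuous_sqrt.comp hp.cont).inv₀ fun x => (Real.sqrt_pos.mpr (hp.pos x)).ne'

private theorem fr_pos (hV : VGood H V) (x : ℝ) : 0 < fr V x :=
  inv_pos.mpr (Real.sqrt_pos.mpr ((fca_dens hV).pos x))

private theorem fr_mul (hV : VGood H V) (x y : ℝ) : (√(nrm V x * nrm V y))⁻¹ = fr V x * fr V y := by
  unfold fr
  rw [Real.sqrt_mul ((fca_dens hV).pos x).le, mul_inv]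

private theorem fr_sq (hV : VGood H V) (x : ℝ) : (nrm V x)⁻¹ = fr V x * fr V x := by
  rw [← fr_mul hV, Real.sqrt_mul_self ((fca_dens hV).pos x).le]

/-- the bound of `r` on the compact interval -/
private theorem fr_bd (hV : VGood H V) (A : ℝ) : ∃ R : ℝ, 0 < R ∧
    ∀ x ∈ Icc (-(A + 1)) (A + 1), fr V x ≤ R := by
  obtain ⟨R, hR⟩ := (isCompact_Icc (a := -(A + 1)) (b := A + 1)).exists_bound_of_continuousOn
    (fr_cont hV).continuousOn
  refine ⟨max R 1, by positivity, fun x hx => ?_⟩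
  have := hR x hx
  rw [Real.norm_eq_abs, abs_of_pos (fr_pos hV x)] at this
  exact this.trans (le_max_left _ _)

private theorem rwg_eq (hV : VGood H V) {z : ℝ × ℝ} (hz : |z.2 - z.1| ≤ 1) :
    rwg V t z = ∫ u in z.1..z.2, t u * (fr V z.1 * fr V z.2) := by
  unfold rwg
  rw [if_pos hz, intervalIntegral.integral_mul_const, div_eq_mul_inv, fr_mul hV]

theorem rwg_meas (hV : VGood H V) (ht : IsTest t) : Measurable (rwg V t) := by
  have hp := fca_dens hV
  have hc := fca_cont ht
  unfold rwg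
  refine Measurable.ite (measurableSet_le (measurable_snd.sub measurable_fst).abs measurable_const)
    ?_ measurable_const
  have h1 : (fun z : ℝ × ℝ => ∫ u in z.1..z.2, t u) =
      fun z : ℝ × ℝ => (∫ u in (0 : ℝ)..z.2, t u) - ∫ u in (0 : ℝ)..z.1, t u := by
    funext z
    rw [intervalIntegral.integral_interval_sub_left (hc.intervalIntegrable _ _)
      (hc.intervalIntegrable _ _)]
  have h2 : Continuous fun x : ℝ => ∫ u in (0 : ℝ)..x, t u :=
    intervalIntegral.continuous_primitive (fun a b => hc.intervalIntegrable a b) 0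
  have h3 : Measurable (fun z : ℝ × ℝ => ∫ u in z.1..z.2, t u) := by
    rw [h1]
    exact ((h2.comp continuous_snd).sub (h2.comp continuous_fst)).measurable
  have h4 : Measurable (fun z : ℝ × ℝ => √(nrm V z.1 * nrm V z.2)) :=
    (Real.continuous_sqrt.comp ((hp.cont.comp continuous_fst).mul
      (hp.cont.comp continuous_snd))).measurable
  exact h3.div h4

theorem rwg_bdd (hV : VGood H V) (ht : IsTest t) :
    ∃ C : ℝ, ∀ z, |rwg V t z| ≤ C * |z.2 - z.1| ∧ |rwg V t z| ≤ C := by
  obtain ⟨A, hA0, hA⟩ := fca_supp ht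
  obtain ⟨C0, hC00, hC0⟩ := fca_bd ht
  obtain ⟨R, hR0, hR⟩ := fr_bd hV A
  have hC : 0 ≤ C0 * (R * R) := by positivity
  refine ⟨C0 * (R * R), fun z => ?_⟩
  by_cases hz : |z.2 - z.1| ≤ 1
  · have h1 : |rwg V t z| ≤ C0 * (R * R) * |z.2 - z.1| := by
      rw [rwg_eq hV hz, ← Real.norm_eq_abs]
      refine intervalIntegral.norm_integral_le_of_norm_le_const fun u hu => ?_
      rw [Real.norm_eq_abs, abs_mul]
      by_cases htu : t u = 0
      · rw [htu, abs_zero, zero_mul]
        exact hC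
      · obtain ⟨hx, hy, -, -, -⟩ := fca_in hA (uIoc_subset_uIcc hu) hz htu
        rw [abs_of_pos (mul_pos (fr_pos hV _) (fr_pos hV _))]
        exact mul_le_mul (hC0 u) (mul_le_mul (hR _ hx) (hR _ hy) (fr_pos hV _).le hR0.le)
          (mul_pos (fr_pos hV _) (fr_pos hV _)).le hC00
    refine ⟨h1, h1.trans ?_⟩
    exact mul_le_of_le_one_right hC hz
  · have h0 : rwg V t z = 0 := if_neg hz
    rw [h0, abs_zero]
    exact ⟨by positivity, hC⟩

/-- the overlap integral -/
private theorem fca_ov {p : ℝ → ℝ} (hp : Dens p) (h : ℝ) :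
    Integrable (fun x => √(p x * p (x + h))) ∧ ∫ x, √(p x * p (x + h)) ≤ 1 := by
  have hi : Integrable (fun x => (p x + p (x + h)) / 2) :=
    (hp.int.add (hp.int.comp_add_right h)).div_const 2
  have hle : ∀ x, √(p x * p (x + h)) ≤ (p x + p (x + h)) / 2 := by
    intro x
    have h1 := hp.pos x
    have h2 := hp.pos (x + h)
    rw [Real.sqrt_le_left (by positivity)]
    nlinarith [sq_nonneg (p x - p (x + h))]
  have hc : Continuous (fun x => √(p x * p (x + h))) :=
    Real.continuous_sqrt.comp (hp.cont.mul (hp.cont.comp (continuous_id.add continuous_const)))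
  have hI : Integrable (fun x => √(p x * p (x + h))) :=
    hi.mono' hc.aestronglyMeasurable (ae_of_all _ fun x => by
      rw [Real.norm_of_nonneg (Real.sqrt_nonneg _)]
      exact hle x)
  refine ⟨hI, ?_⟩
  have h2 : ∫ x, (p x + p (x + h)) / 2 = 1 := by
    rw [integral_div, integral_add hp.int (hp.int.comp_add_right h),
      integral_add_right_eq_self p h, hp.one]
    norm_num
  rw [← h2]
  exact integral_mono hI hi hle

private theorem fca_fub {U : ℝ × ℝ → ℝ} (hU : Measurable U) {C : ℝ}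
    (hb : ∀ h : ℝ, Integrable (fun x => U (x, x + h)) ∧ ∫ x, |U (x, x + h)| ≤ C)
    {v : ℝ≥0} (hv : 0 < v) :
    ∫ z : ℝ × ℝ, U z * gaussianPDFReal 0 v (z.2 - z.1)
      = ∫ h, (∫ x, U (x, x + h)) ∂(gaussianReal 0 v) := by
  have hT : MeasurePreserving (fun z : ℝ × ℝ => (z.1, z.1 + z.2))
      ((volume : Measure ℝ).prod volume) ((volume : Measure ℝ).prod volume) :=
    measurePreserving_prod_add volume volume
  have hTe : MeasurableEmbedding (fun z : ℝ × ℝ => (z.1, z.1 + z.2)) :=
    (MeasurableEquiv.shearAddRight ℝ).measurableEmbedding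
  have hgm : Measurable (gaussianPDFReal 0 v) := measurable_gaussianPDFReal _ _
  have hm : Measurable (fun z : ℝ × ℝ => U (z.1, z.1 + z.2) * gaussianPDFReal 0 v z.2) :=
    (hU.comp (measurable_fst.prodMk (measurable_fst.add measurable_snd))).mul
      (hgm.comp measurable_snd)
  have Gi : Integrable (fun z : ℝ × ℝ => U (z.1, z.1 + z.2) * gaussianPDFReal 0 v z.2)
      ((volume : Measure ℝ).prod volume) := by
    rw [integrable_prod_iff' hm.aestronglyMeasurable]
    have hsec : ∀ h : ℝ, Integrable (fun x => U (x, x + h) * gaussianPDFReal 0 v h) :=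
      fun h => (hb h).1.mul_const _
    refine ⟨ae_of_all _ fun h => hsec h, ?_⟩
    have h1 : ∀ h : ℝ, ∫ x, ‖U (x, x + h) * gaussianPDFReal 0 v h‖ =
        (∫ x, |U (x, x + h)|) * gaussianPDFReal 0 v h := by
      intro h
      rw [← integral_mul_const]
      refine integral_congr_ae (ae_of_all _ fun x => ?_)
      show ‖U (x, x + h) * gaussianPDFReal 0 v h‖ = |U (x, x + h)| * gaussianPDFReal 0 v h
      rw [norm_mul, Real.norm_eq_abs, Real.norm_of_nonneg (gaussianPDFReal_nonneg _ _ _)]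
    refine ((integrable_gaussianPDFReal 0 v).const_mul C).mono' ?_ (ae_of_all _ fun h => ?_)
    · exact (hm.norm.stronglyMeasurable.integral_prod_left).aestronglyMeasurable
    · show ‖∫ x, ‖U (x, x + h) * gaussianPDFReal 0 v h‖‖ ≤ _
      rw [h1 h, Real.norm_of_nonneg (mul_nonneg (integral_nonneg fun x => abs_nonneg _)
        (gaussianPDFReal_nonneg _ _ _))]
      exact mul_le_mul_of_nonneg_right (hb h).2 (gaussianPDFReal_nonneg _ _ _)
  have hcomp : (fun z : ℝ × ℝ => U z * gaussianPDFReal 0 v (z.2 - z.1)) ∘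
      (fun z : ℝ × ℝ => (z.1, z.1 + z.2)) =
      fun z : ℝ × ℝ => U (z.1, z.1 + z.2) * gaussianPDFReal 0 v z.2 := by
    funext z
    show U (z.1, z.1 + z.2) * gaussianPDFReal 0 v (z.1 + z.2 - z.1) = _
    rw [add_sub_cancel_left]
  have h1 : ∫ z : ℝ × ℝ, U z * gaussianPDFReal 0 v (z.2 - z.1) ∂((volume : Measure ℝ).prod volume)
      = ∫ z : ℝ × ℝ, U (z.1, z.1 + z.2) * gaussianPDFReal 0 v z.2
        ∂((volume : Measure ℝ).prod volume) := by
    rw [← hT.integral_comp hTe]
    refine integral_congr_ae (ae_of_all _ fun z => ?_)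
    exact congrFun hcomp z
  have h2 : ∫ z : ℝ × ℝ, U z * gaussianPDFReal 0 v (z.2 - z.1) =
    ∫ z : ℝ × ℝ, U z * gaussianPDFReal 0 v (z.2 - z.1) ∂((volume : Measure ℝ).prod volume) := rfl
  rw [h2, h1, integral_prod_symm _ Gi, integral_gaussianReal_eq_integral_smul hv.ne']
  refine integral_congr_ae (ae_of_all _ fun h => ?_)
  show ∫ x, U (x, x + h) * gaussianPDFReal 0 v h = gaussianPDFReal 0 v h • ∫ x, U (x, x + h)
  rw [integral_mul_const, smul_eq_mul, mul_comm]

private theorem fca_U_meas (hV : VGood H V) {F : ℝ × ℝ → ℝ} (hF : Measurable F) :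
    Measurable fun z : ℝ × ℝ => F z * √(nrm V z.1 * nrm V z.2) := by
  have hp := fca_dens hV
  exact hF.mul (Real.continuous_sqrt.comp ((hp.cont.comp continuous_fst).mul
      (hp.cont.comp continuous_snd))).measurable

/-- the sections of `F √(pp)` -/
private theorem fca_sec (hV : VGood H V) {F : ℝ × ℝ → ℝ} (hF : Measurable F) {h M : ℝ}
    (hM : 0 ≤ M) (hb : ∀ x, |F (x, x + h)| ≤ M) :
    Integrable (fun x => F (x, x + h) * √(nrm V x * nrm V (x + h))) ∧
      ∫ x, |F (x, x + h) * √(nrm V x * nrm V (x + h))| ≤ M := by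
  obtain ⟨hoi, ho⟩ := fca_ov (fca_dens hV) h
  have hm : Measurable (fun x => F (x, x + h) * √(nrm V x * nrm V (x + h))) :=
    (fca_U_meas hV hF).comp (measurable_id.prodMk (measurable_id.add measurable_const))
  have hle : ∀ x, |F (x, x + h) * √(nrm V x * nrm V (x + h))| ≤
      M * √(nrm V x * nrm V (x + h)) := by
    intro x
    rw [abs_mul, abs_of_nonneg (Real.sqrt_nonneg _)]
    exact mul_le_mul_of_nonneg_right (hb x) (Real.sqrt_nonneg _)
  have hI : Integrable (fun x => F (x, x + h) * √(nrm V x * nrm V (x + h))) :=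
    (hoi.const_mul M).mono' hm.aestronglyMeasurable (ae_of_all _ hle)
  refine ⟨hI, ?_⟩
  calc ∫ x, |F (x, x + h) * √(nrm V x * nrm V (x + h))|
      ≤ ∫ x, M * √(nrm V x * nrm V (x + h)) := integral_mono hI.abs (hoi.const_mul M) hle
    _ = M * ∫ x, √(nrm V x * nrm V (x + h)) := integral_const_mul _ _
    _ ≤ M * 1 := mul_le_mul_of_nonneg_left ho hM
    _ = M := mul_one M

/-- integrals against `sm` as Gaussian averages -/
theorem sm_rw_avg (hV : VGood H V) {v : ℝ≥0} (hv : 0 < v) {F : ℝ × ℝ → ℝ} (hF : Measurable F)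
    {C : ℝ} (hb : ∀ z, |F z| ≤ C) :
    ∫ z, F z ∂(sm (nrm V) (rwq v)) = (Zf (nrm V) (rwq v))⁻¹ *
      ∫ h, (∫ x, F (x, x + h) * √(nrm V x * nrm V (x + h))) ∂(gaussianReal 0 v) := by
  have hC : 0 ≤ C := (abs_nonneg _).trans (hb 0)
  rw [integral_sm (fca_dens hV) (rwq_prop hv)]
  have h1 := fca_fub (U := fun z => F z * √(nrm V z.1 * nrm V z.2)) (fca_U_meas hV hF) (C := C)
    (fun h => fca_sec hV hF hC fun x => hb _) hv
  rw [← h1]
  refine congrArg ((Zf (nrm V) (rwq v))⁻¹ * ·) ?_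
  refine integral_congr_ae (ae_of_all _ fun z => ?_)
  show F z * sdn (nrm V) (rwq v) z =
    F z * √(nrm V z.1 * nrm V z.2) * gaussianPDFReal 0 v (z.2 - z.1)
  rw [sdn_rw hV, mul_assoc]

private theorem fca_zi (hH : 0 < H) (hH1 : H < 1) (hl : 0 < l) (hV : VGood H V) :
    Tendsto (fun n : ℕ => (Zf (nrm V) (rwq (vH l H n)))⁻¹) atTop (𝓝 1) := by
  have h := rw_z hH hH1 hl hV
  have h1 : Tendsto (fun n : ℕ => ((n : ℝ) + 1)⁻¹) atTop (𝓝 0) := by
    have h2 := tendsto_one_div_add_atTop_nhds_zero_nat (𝕜 := ℝ)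
    refine h2.congr fun n => ?_
    rw [one_div]
  have h3 := h.mul h1
  rw [mul_zero] at h3
  have h4 := (tendsto_const_nhds (x := (1 : ℝ))).sub h3
  rw [sub_zero] at h4
  have h6 : Tendsto (fun n : ℕ => Zf (nrm V) (rwq (vH l H n))) atTop (𝓝 1) := by
    refine h4.congr fun n => ?_
    have h5 : ((n : ℝ) + 1) ≠ 0 := by positivity
    field_simp
    ring
  have h7 := h6.inv₀ one_ne_zero
  rwa [inv_one] at h7

/-- nonnegative functions which are `o(z²)` near the diagonal -/
private theorem fca_lim (hH : 0 < H) (hH1 : H < 1) (hl : 0 < l) (hV : VGood H V)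
    {F : ℝ × ℝ → ℝ} (hF : Measurable F) (h0 : ∀ z, 0 ≤ F z) {C C' : ℝ} (hb : ∀ z, |F z| ≤ C)
    (hC' : 0 ≤ C') (hg : ∀ x h, F (x, x + h) ≤ C' * h ^ 2)
    (hs : ∀ ε : ℝ, 0 < ε → ∃ δ : ℝ, 0 < δ ∧ ∀ x h, |h| ≤ δ → F (x, x + h) ≤ ε * h ^ 2) :
    Tendsto (fun n => (tauH H n)⁻¹ * ∫ z, F z ∂(sm (nrm V) (rwq (vH l H n)))) atTop (𝓝 0) := by
  set J : ℝ → ℝ := fun h => ∫ x, F (x, x + h) * √(nrm V x * nrm V (x + h)) with hJ
  have hJ0 : ∀ h, 0 ≤ J h := fun h =>
    integral_nonneg fun x => mul_nonneg (h0 _) (Real.sqrt_nonneg _)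
  have hJM : ∀ h M : ℝ, 0 ≤ M → (∀ x, F (x, x + h) ≤ M) → |J h| ≤ M := by
    intro h M hM hx
    refine (abs_integral_le_integral_abs).trans ?_
    exact (fca_sec hV hF hM fun x => by rw [abs_of_nonneg (h0 _)]; exact hx x).2
  have hJm : Measurable J := by
    have h1 : StronglyMeasurable (fun z : ℝ × ℝ =>
        F (z.2, z.2 + z.1) * √(nrm V z.2 * nrm V (z.2 + z.1))) :=
      ((fca_U_meas hV hF).comp
        (measurable_snd.prodMk (measurable_snd.add measurable_fst))).stronglyMeasurable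
    exact (h1.integral_prod_right (ν := volume)).measurable
  have h1 := small_avg (a := H) hl hH (C := C') (J := J) hJm (fun h => by
      have h2 : (0 : ℝ) ≤ h ^ 4 := by positivity
      have h3 : 0 ≤ C' * h ^ 2 := by positivity
      have h4 := hJM h (C' * h ^ 2) h3 fun x => hg x h
      nlinarith [mul_nonneg h3 h2])
    (fun ε hε => by
      obtain ⟨δ, hδ, hδ'⟩ := hs ε hε
      exact ⟨δ, hδ, fun h hh => hJM h (ε * h ^ 2) (by positivity) fun x => hδ' x h hh⟩)
  have h2 := (fca_zi hH hH1 hl hV).mul h1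
  rw [mul_zero] at h2
  refine h2.congr fun n => ?_
  have h3 : ∫ h, |J h| ∂(gaussianReal 0 (vH l H n)) = ∫ h, J h ∂(gaussianReal 0 (vH l H n)) := by
    refine integral_congr_ae (ae_of_all _ fun h => ?_)
    exact abs_of_nonneg (hJ0 h)
  rw [h3, sm_rw_avg hV (vH_pos hl H n) hF hb]
  ring

theorem rwg_close (hH : 0 < H) (hH1 : H < 1) (hl : 0 < l) (hV : VGood H V) (ht : IsTest t)
    (a : ℝ) :
    Tendsto (fun n => (tauH H n)⁻¹ *
      ∫ z, (vf (nrm V) t a z.2 - vf (nrm V) t a z.1 - rwg V t z) ^ 2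
        ∂(sm (nrm V) (rwq (vH l H n)))) atTop (𝓝 0) := by
  have hp := fca_dens hV
  obtain ⟨A, hA0, hA⟩ := fca_supp ht
  obtain ⟨C0, hC00, hC0⟩ := fca_bd ht
  obtain ⟨R, hR0, hR⟩ := fr_bd hV A
  obtain ⟨B, hB⟩ := vf_bdd hp ht a
  obtain ⟨L, hL0, hL⟩ := vf_lip hp ht a
  obtain ⟨C, hC⟩ := rwg_bdd hV ht
  have hC1 : 0 ≤ C := (abs_nonneg _).trans (hC 0).2
  have hB0 : 0 ≤ B := (abs_nonneg _).trans (hB 0)
  refine fca_lim hH hH1 hl hV (C := (2 * B + C) ^ 2) (C' := (L + C) ^ 2) ?_ (fun z => sq_nonneg _)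
    (fun z => ?_) (by positivity) (fun x h => ?_) fun ε hε => ?_
  · exact ((((vf_cont hp ht a).measurable.comp measurable_snd).sub
      ((vf_cont hp ht a).measurable.comp measurable_fst)).sub (rwg_meas hV ht)).pow_const 2
  · rw [abs_of_nonneg (sq_nonneg _)]
    have h1 : |vf (nrm V) t a z.2 - vf (nrm V) t a z.1 - rwg V t z| ≤ 2 * B + C := by
      have e1 := abs_le.mp (hB z.2)
      have e2 := abs_le.mp (hB z.1)
      have e3 := abs_le.mp (hC z).2
      rw [abs_le]
      constructor <;> linarith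
    rw [← sq_abs]
    exact pow_le_pow_left₀ (abs_nonneg _) h1 2
  · show (vf (nrm V) t a (x + h) - vf (nrm V) t a x - rwg V t (x, x + h)) ^ 2 ≤ _
    have h1 : |vf (nrm V) t a (x + h) - vf (nrm V) t a x - rwg V t (x, x + h)| ≤
        (L + C) * |h| := by
      have e1 := abs_le.mp (hL (x + h) x)
      have e2 := abs_le.mp (hC (x, x + h)).1
      simp only [add_sub_cancel_left] at e1 e2
      rw [abs_le]
      constructor <;> linarith
    rw [← sq_abs, ← sq_abs h, ← mul_pow]
    exact pow_le_pow_left₀ (abs_nonneg _) h1 2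
  · have huc : UniformContinuousOn (fr V) (Icc (-(A + 1)) (A + 1)) :=
      (isCompact_Icc).uniformContinuousOn_of_continuous (fr_cont hV).continuousOn
    rw [Metric.uniformContinuousOn_iff] at huc
    have hs0 : 0 < √ε := Real.sqrt_pos.mpr hε
    have hη : 0 < √ε / (2 * (C0 + 1) * R) := by positivity
    obtain ⟨δ, hδ, hδ'⟩ := huc (√ε / (2 * (C0 + 1) * R)) hη
    set η : ℝ := √ε / (2 * (C0 + 1) * R) with hηd
    refine ⟨min 1 (δ / 2), by positivity, fun x h hh => ?_⟩
    have hh1 : |h| ≤ 1 := hh.trans (min_le_left _ _)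
    have hh2 : |h| < δ := by
      have := hh.trans (min_le_right _ _)
      linarith
    show (vf (nrm V) t a (x + h) - vf (nrm V) t a x - rwg V t (x, x + h)) ^ 2 ≤ _
    have hxy : |(x + h) - x| ≤ 1 := by rwa [add_sub_cancel_left]
    have e1 : vf (nrm V) t a (x + h) - vf (nrm V) t a x =
        ∫ u in x..(x + h), t u * (fr V u * fr V u) := by
      have h2 := intervalIntegral.integral_eq_sub_of_hasDerivAt (a := x) (b := x + h)
        (fun u _ => vf_deriv hp ht a u) ((qp_cont hp ht).intervalIntegrable x (x + h))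
      rw [← h2]
      refine intervalIntegral.integral_congr fun u _ => ?_
      show t u / nrm V u = t u * (fr V u * fr V u)
      rw [← fr_sq hV, div_eq_mul_inv]
    have e2 : rwg V t (x, x + h) = ∫ u in x..(x + h), t u * (fr V x * fr V (x + h)) :=
      rwg_eq hV (z := (x, x + h)) hxy
    have hc1 : Continuous fun u => t u * (fr V u * fr V u) :=
      (fca_cont ht).mul ((fr_cont hV).mul (fr_cont hV))
    have hc2 : Continuous fun u => t u * (fr V x * fr V (x + h)) :=
      (fca_cont ht).mul continuous_const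
    have h1 : |vf (nrm V) t a (x + h) - vf (nrm V) t a x - rwg V t (x, x + h)| ≤ √ε * |h| := by
      rw [e1, e2, ← intervalIntegral.integral_sub (hc1.intervalIntegrable _ _)
        (hc2.intervalIntegrable _ _), ← Real.norm_eq_abs]
      have h3 : |(x + h) - x| = |h| := by rw [add_sub_cancel_left]
      rw [← h3]
      refine intervalIntegral.norm_integral_le_of_norm_le_const fun u hu => ?_
      rw [Real.norm_eq_abs, ← mul_sub, abs_mul]
      by_cases htu : t u = 0
      · rw [htu, abs_zero, zero_mul]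
        exact hs0.le
      · obtain ⟨hx, hy, huK, hux, huy⟩ := fca_in hA (uIoc_subset_uIcc hu) hxy htu
        rw [h3] at hux huy
        have d1 : |fr V u - fr V x| < η := by
          have := hδ' u huK x hx (by rw [Real.dist_eq]; linarith)
          rwa [Real.dist_eq] at this
        have d2 : |fr V u - fr V (x + h)| < η := by
          have := hδ' u huK (x + h) hy (by rw [Real.dist_eq]; linarith)
          rwa [Real.dist_eq] at this
        have d3 : |fr V u * fr V u - fr V x * fr V (x + h)| ≤ 2 * R * η := by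
          have d4 : fr V u * fr V u - fr V x * fr V (x + h) =
            fr V u * (fr V u - fr V x) + fr V x * (fr V u - fr V (x + h)) := by ring
          rw [d4]
          refine (abs_add_le _ _).trans ?_
          rw [abs_mul, abs_mul, abs_of_pos (fr_pos hV _), abs_of_pos (fr_pos hV _)]
          have d5 := mul_le_mul (hR u huK) d1.le (abs_nonneg _) hR0.le
          have d6 := mul_le_mul (hR x hx) d2.le (abs_nonneg _) hR0.le
          linarith
        calc |t u| * |fr V u * fr V u - fr V x * fr V (x + h)| ≤ C0 * (2 * R * η) :=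
              mul_le_mul (hC0 u) d3 (abs_nonneg _) hC00
          _ ≤ (C0 + 1) * (2 * R * η) := by
              have : 0 ≤ 2 * R * η := by positivity
              nlinarith
          _ = √ε := by
              rw [hηd]
              field_simp
    have h4 : ε * h ^ 2 = (√ε * |h|) ^ 2 := by
      rw [mul_pow, Real.sq_sqrt hε.le, sq_abs]
    rw [h4, ← sq_abs]
    exact pow_le_pow_left₀ (abs_nonneg _) h1 2

theorem rwg_tail (hH : 0 < H) (hH1 : H < 1) (hl : 0 < l) (hV : VGood H V) (ht : IsTest t) :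
    Tendsto (fun n => (tauH H n)⁻¹ *
      ∫ z in {z | 1 < |Rf (nrm V) (rwq (vH l H n)) z|}, |rwg V t z|
        ∂(sm (nrm V) (rwq (vH l H n)))) atTop (𝓝 0) := by
  obtain ⟨A, hA0, hA⟩ := fca_supp ht
  obtain ⟨C, hC⟩ := rwg_bdd hV ht
  have hC1 : 0 ≤ C := (abs_nonneg _).trans (hC 0).2
  set S : Set (ℝ × ℝ) := {z | 1 < |V z.2 - V z.1|} with hSd
  have hS : MeasurableSet S :=
    measurableSet_lt measurable_const
      ((hV.cont.measurable.comp measurable_snd).sub (hV.cont.measurable.comp measurable_fst)).abs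
  have hSn : ∀ n, {z | 1 < |Rf (nrm V) (rwq (vH l H n)) z|} = S := by
    intro n
    ext z
    rw [hSd, mem_ofPred_eq, mem_ofPred_eq, Rf_rw hV (vH_pos hl H n)]
  have huc : UniformContinuousOn V (Icc (-(A + 1)) (A + 1)) :=
    (isCompact_Icc).uniformContinuousOn_of_continuous hV.cont.continuousOn
  rw [Metric.uniformContinuousOn_iff] at huc
  obtain ⟨δ, hδ, hδ'⟩ := huc 1 one_pos
  have hzero : ∀ x h : ℝ, |h| ≤ min 1 (δ / 2) → S.indicator (fun z => |rwg V t z|) (x, x + h) = 0 := by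
    intro x h hh
    have hh1 : |h| ≤ 1 := hh.trans (min_le_left _ _)
    have hh2 : |h| < δ := by
      have := hh.trans (min_le_right _ _)
      linarith
    have hxy : |(x + h) - x| ≤ 1 := by rwa [add_sub_cancel_left]
    by_cases hz : (x, x + h) ∈ S
    · rw [indicator_of_mem hz]
      have e2 : rwg V t (x, x + h) = ∫ u in x..(x + h), t u * (fr V x * fr V (x + h)) :=
        rwg_eq hV (z := (x, x + h)) hxy
      have e3 : EqOn (fun u => t u * (fr V x * fr V (x + h))) (fun _ => (0 : ℝ))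
          (uIcc x (x + h)) := by
        intro u hu
        show t u * (fr V x * fr V (x + h)) = 0
        by_contra hne
        have htu : t u ≠ 0 := fun h0 => hne (by rw [h0, zero_mul])
        obtain ⟨hx, hy, -, -, -⟩ := fca_in hA hu hxy htu
        have e4 := hδ' (x + h) hy x hx (by rw [Real.dist_eq, add_sub_cancel_left]; exact hh2)
        rw [Real.dist_eq] at e4
        exact absurd hz (not_lt.mpr e4.le)
      rw [e2, intervalIntegral.integral_congr e3, intervalIntegral.integral_zero, abs_zero]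
    · exact indicator_of_notMem hz _
  have hle : ∀ z, S.indicator (fun z => |rwg V t z|) z ≤ C := by
    intro z
    by_cases hz : z ∈ S
    · rw [indicator_of_mem hz]
      exact (hC z).2
    · rw [indicator_of_notMem hz]
      exact hC1
  have hnn : ∀ z, 0 ≤ S.indicator (fun z => |rwg V t z|) z :=
    fun z => indicator_nonneg (fun z _ => abs_nonneg _) z
  set δ' : ℝ := min 1 (δ / 2) with hδd
  have hδ0 : 0 < δ' := by positivity
  have h1 := fca_lim hH hH1 hl hV (F := S.indicator fun z => |rwg V t z|)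
    ((rwg_meas hV ht).abs.indicator hS) hnn (C := C)
    (C' := C / δ' ^ 2) (fun z => by rw [abs_of_nonneg (hnn z)]; exact hle z) (by positivity)
    (fun x h => by
      by_cases hh : |h| ≤ δ'
      · rw [hzero x h hh]
        positivity
      · push Not at hh
        have h2 : δ' ^ 2 ≤ h ^ 2 := by
          rw [← sq_abs h]
          exact pow_le_pow_left₀ hδ0.le hh.le 2
        have h3 : C / δ' ^ 2 * δ' ^ 2 = C := by field_simp
        calc S.indicator (fun z => |rwg V t z|) (x, x + h) ≤ C := hle _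
          _ = C / δ' ^ 2 * δ' ^ 2 := h3.symm
          _ ≤ C / δ' ^ 2 * h ^ 2 := mul_le_mul_of_nonneg_left h2 (by positivity))
    (fun ε hε => ⟨δ', hδ0, fun x h hh => by
      rw [hzero x h hh]
      positivity⟩)
  refine h1.congr fun n => ?_
  rw [hSn n, integral_indicator hS]

end Pool.Agent.Lib.MP_e19099_pr
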