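import Pool.Agent.Lib.MP_e19099_pr.CRwFcA

/-!
# Random walk proposals: the first coordinate condition, second part (module C, C7)

`rwg_pair`: `√(p(x)p(y))` cancels: with `Q x = ∫_0^x t`,
`∫ g (w(y) - w(x)) ds = Z⁻¹ ∫_{|z| ≤ 1} ∫ (Q(x+z) - Q(x)) (w(x+z) - w(x)) dx dN(0,v)(z) = -2 Z⁻¹ ∫ w(x) ∫_{|z| ≤ 1} (Q(x+z) - Q(x)) dN(z) dx` (substitute
`x → x - z`, `z → -z` in the term with `w(x+z)`).
`rwg_gen`: `∫_{|z| ≤ 1} z t(x) dN = 0`; `J(z) = 1_{|z| ≤ 1} ∫ |Q(x+z) - Q(x) - z t(x) - z² t'(x)/2| dx` satisfies `small_avg` (Taylor with integral remainder, `t'` is uniformly continuous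
with compact support), `τ⁻¹ ∫_{|z| ≤ 1} z²/2 dN → l²/2` (`sq_avg`), `Z⁻¹ → 1`.
-/

set_option autoImplicit false

open MeasureTheory ProbabilityTheory Filter Set
open scoped NNReal Topology ENNReal

namespace Pool.Agent.Lib.MP_e19099_pr

variable {H l : ℝ} {V t : ℝ → ℝ}

private theorem cb_bound {f : ℝ → ℝ} (hc : Continuous f) (hs : HasCompactSupport f) :
    ∃ K : ℝ, 0 < K ∧ ∀ x, |f x| ≤ K := by
  obtain ⟨C, hC⟩ := hc.bounded_above_of_compact_support hs
  refine ⟨max C 1, by positivity, fun x => ?_⟩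
  have := hC x
  rw [Real.norm_eq_abs] at this
  exact this.trans (le_max_left _ _)

private theorem cb_rad (ht : IsTest t) :
    ∃ A : ℝ, 0 < A ∧ ∀ x, A < |x| → t x = 0 ∧ deriv t x = 0 := by
  obtain ⟨r, hr⟩ := ht.supp.isCompact.isBounded.subset_closedBall 0
  refine ⟨max r 1, by positivity, fun x hx => ?_⟩
  have h1 : x ∉ tsupport t := by
    intro h
    have h2 := hr h
    rw [Metric.mem_closedBall, dist_zero_right, Real.norm_eq_abs] at h2
    exact absurd (h2.trans (le_max_left r 1)) (not_le.mpr hx)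
  constructor
  · exact image_eq_zero_of_notMem_tsupport h1
  · have h2 : x ∉ tsupport (deriv t) := fun h => h1 (tsupport_deriv_subset (𝕜 := ℝ) h)
    exact image_eq_zero_of_notMem_tsupport h2

/-- increments of the primitive -/
private noncomputable def Qh (t : ℝ → ℝ) (h x : ℝ) : ℝ := ∫ u in x..(x + h), t u

private theorem Qh_cont (hc : Continuous t) : Continuous fun z : ℝ × ℝ => Qh t z.1 z.2 := by
  have hI : ∀ a b : ℝ, IntervalIntegrable t volume a b := fun a b => hc.intervalIntegrable a b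
  have hP := intervalIntegral.continuous_primitive hI 0
  have h1 : (fun z : ℝ × ℝ => Qh t z.1 z.2) =
      fun z : ℝ × ℝ => (∫ u in (0 : ℝ)..(z.2 + z.1), t u) - ∫ u in (0 : ℝ)..z.2, t u := by
    funext z
    unfold Qh
    rw [intervalIntegral.integral_interval_sub_left (hI _ _) (hI _ _)]
  rw [h1]
  exact (hP.comp (continuous_snd.add continuous_fst)).sub (hP.comp continuous_snd)

private theorem Qh_bound {K : ℝ} (hK : ∀ x, |t x| ≤ K) (h x : ℝ) : |Qh t h x| ≤ K * |h| := by
  unfold Qh
  have := intervalIntegral.norm_integral_le_of_norm_le_const (a := x) (b := x + h) (f := t)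
    (C := K) (fun u _ => by rw [Real.norm_eq_abs]; exact hK u)
  rw [Real.norm_eq_abs, add_sub_cancel_left] at this
  exact this

private theorem Qh_zero {A : ℝ} (hA : ∀ x, A < |x| → t x = 0) {h x : ℝ} (hh : |h| ≤ 1)
    (hx : A + 1 < |x|) : Qh t h x = 0 := by
  unfold Qh
  have h1 : ∫ u in x..(x + h), t u = ∫ u in x..(x + h), (0 : ℝ) := by
    refine intervalIntegral.integral_congr fun u hu => ?_
    apply hA
    have h2 : |u - x| ≤ |h| := by
      have := abs_sub_left_of_mem_uIcc hu
      rwa [add_sub_cancel_left] at this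
    have h3 : |x| ≤ |u| + |u - x| := by
      have := abs_sub_abs_le_abs_sub x u
      rw [abs_sub_comm x u] at this
      linarith
    linarith
  rw [h1, intervalIntegral.integral_zero]

private theorem Qh_neg (h x : ℝ) : Qh t h (x - h) = - Qh t (-h) x := by
  unfold Qh
  rw [sub_add_cancel, ← sub_eq_add_neg, intervalIntegral.integral_symm]

private theorem cb_prod_int {γ : Measure ℝ} [IsProbabilityMeasure γ] {G : ℝ → ℝ → ℝ} {K B : ℝ}
    (hm : Measurable fun z : ℝ × ℝ => G z.1 z.2) (hK : ∀ h x, |G h x| ≤ K)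
    (h0 : ∀ h x, B < |x| → G h x = 0) :
    Integrable (Function.uncurry G) (γ.prod (volume : Measure ℝ)) := by
  have hK0 : 0 ≤ K := (abs_nonneg _).trans (hK 0 0)
  have h1 : Integrable (fun x : ℝ => (Icc (-B) B).indicator (fun _ => K) x) volume := by
    rw [integrable_indicator_iff measurableSet_Icc]
    exact integrableOn_const (by rw [Real.volume_Icc]; exact ENNReal.ofReal_ne_top)
  have h2 := h1.comp_snd γ
  refine h2.mono' hm.aestronglyMeasurable (Eventually.of_forall fun z => ?_)
  rw [Real.norm_eq_abs]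
  show |G z.1 z.2| ≤ (Icc (-B) B).indicator (fun _ => K) z.2
  by_cases hz : z.2 ∈ Icc (-B) B
  · rw [indicator_of_mem hz]
    exact hK _ _
  · rw [indicator_of_notMem hz]
    have : B < |z.2| := by
      by_contra h
      push Not at h
      exact hz (abs_le.mp h)
    rw [h0 _ _ this, abs_zero]

theorem rwg_pair (hV : VGood H V) (ht : IsTest t) {v : ℝ≥0} (hv : 0 < v) {w : ℝ → ℝ}
    (hw : Measurable w) (hw1 : ∀ x, |w x| ≤ 1) :
    ∫ z, rwg V t z * (w z.2 - w z.1) ∂(sm (nrm V) (rwq v))
      = -2 * (Zf (nrm V) (rwq v))⁻¹ * ∫ x, w x *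
        ∫ z in {z : ℝ | |z| ≤ 1}, (∫ u in x..(x + z), t u) ∂(gaussianReal 0 v) := by
  obtain ⟨C, hC⟩ := rwg_bdd hV ht
  obtain ⟨K, hK0, hK⟩ := cb_bound ht.smooth.continuous ht.supp
  obtain ⟨A, hA0, hA⟩ := cb_rad ht
  have hA1 : ∀ x, A < |x| → t x = 0 := fun x hx => (hA x hx).1
  have hC0 : 0 ≤ C := (abs_nonneg _).trans (hC 0).2
  have hc := ht.smooth.continuous
  have hQc := Qh_cont hc
  have hQx : ∀ h, Continuous fun x => Qh t h x := fun h =>
    hQc.comp (continuous_const.prodMk continuous_id)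
  have hp := nrm_dens hV.cont hV.exp_int
  set γ := gaussianReal 0 v with hγ
  have hFm : Measurable fun z : ℝ × ℝ => rwg V t z * (w z.2 - w z.1) :=
    (rwg_meas hV ht).mul ((hw.comp measurable_snd).sub (hw.comp measurable_fst))
  have hFb : ∀ z : ℝ × ℝ, |rwg V t z * (w z.2 - w z.1)| ≤ C * 2 := by
    intro z
    rw [abs_mul]
    refine mul_le_mul (hC z).2 ?_ (abs_nonneg _) hC0
    have := abs_sub (w z.2) (w z.1)
    have h1 := hw1 z.2
    have h2 := hw1 z.1
    linarith
  rw [sm_rw_avg hV hv hFm hFb]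
  set G : ℝ → ℝ → ℝ := fun h x => if |h| ≤ 1 then w x * Qh t h x else 0 with hG
  set B : ℝ → ℝ := fun h => ∫ x, G h x with hB
  have hSm : MeasurableSet {z : ℝ × ℝ | |z.1| ≤ 1} :=
    measurableSet_le (continuous_abs.measurable.comp measurable_fst) measurable_const
  have hGm : Measurable fun z : ℝ × ℝ => G z.1 z.2 :=
    Measurable.ite hSm ((hw.comp measurable_snd).mul hQc.measurable) measurable_const
  have hGb : ∀ h x, |G h x| ≤ K := by
    intro h x
    rw [hG]
    simp only
    split_ifs with hh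
    · rw [abs_mul]
      calc |w x| * |Qh t h x| ≤ 1 * (K * |h|) :=
            mul_le_mul (hw1 x) (Qh_bound hK h x) (abs_nonneg _) zero_le_one
        _ ≤ K := by nlinarith [abs_nonneg h]
    · rw [abs_zero]; exact hK0.le
  have hG0 : ∀ h x, A + 1 < |x| → G h x = 0 := by
    intro h x hx
    rw [hG]
    simp only
    split_ifs with hh
    · rw [Qh_zero hA1 hh hx, mul_zero]
    · rfl
  have hGi := cb_prod_int (γ := γ) hGm hGb hG0
  have hBi : Integrable B γ := hGi.integral_prod_left
  have hmp : MeasurePreserving (fun x : ℝ => -x) γ γ := by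
    refine ⟨measurable_neg, ?_⟩
    rw [hγ, gaussianReal_map_neg, neg_zero]
  have hBneg : ∫ h, B (-h) ∂γ = ∫ h, B h ∂γ :=
    hmp.integral_comp (MeasurableEquiv.neg ℝ).measurableEmbedding B
  have hBni : Integrable (fun h => B (-h)) γ :=
    (hmp.integrable_comp_emb (MeasurableEquiv.neg ℝ).measurableEmbedding).mpr hBi
  -- the inner integrals
  have hcs : ∀ h, |h| ≤ 1 → HasCompactSupport fun x => Qh t h x := by
    intro h hh
    refine HasCompactSupport.intro (isCompact_Icc (a := -(A + 1)) (b := A + 1)) fun x hx => ?_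
    refine Qh_zero hA1 hh ?_
    by_contra h'
    push Not at h'
    exact hx (abs_le.mp h')
  have hwQi : ∀ h, |h| ≤ 1 → Integrable fun x => w x * Qh t h x := by
    intro h hh
    refine Integrable.bdd_mul (c := 1) ((hQx h).integrable_of_hasCompactSupport (hcs h hh))
      hw.aestronglyMeasurable (Eventually.of_forall fun x => ?_)
    rw [Real.norm_eq_abs]
    exact hw1 x
  have hin : ∀ h, ∫ x, (fun z : ℝ × ℝ => rwg V t z * (w z.2 - w z.1)) (x, x + h) *
      √(nrm V x * nrm V (x + h)) = -(B h + B (-h)) := by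
    intro h
    by_cases hh : |h| ≤ 1
    · have hh' : |-h| ≤ 1 := by rwa [abs_neg]
      have e1 : ∀ x, (fun z : ℝ × ℝ => rwg V t z * (w z.2 - w z.1)) (x, x + h) *
          √(nrm V x * nrm V (x + h)) = w (x + h) * Qh t h x - w x * Qh t h x := by
        intro x
        have hpos : 0 < √(nrm V x * nrm V (x + h)) :=
          Real.sqrt_pos.mpr (mul_pos (hp.pos _) (hp.pos _))
        simp only [rwg]
        rw [if_pos (by rwa [add_sub_cancel_left])]
        unfold Qh
        field_simp
      have e2 : ∫ x, w (x + h) * Qh t h x = ∫ x, w x * Qh t h (x - h) := by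
        have := integral_add_right_eq_self (μ := (volume : Measure ℝ))
          (fun x => w x * Qh t h (x - h)) h
        simp only [add_sub_cancel_right] at this
        exact this
      have e3 : Integrable fun x => w (x + h) * Qh t h x := by
        refine Integrable.bdd_mul (c := 1) ((hQx h).integrable_of_hasCompactSupport (hcs h hh))
          (hw.comp (measurable_add_const h)).aestronglyMeasurable (Eventually.of_forall fun x => ?_)
        rw [Real.norm_eq_abs]
        exact hw1 _
      simp_rw [e1]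
      rw [integral_sub e3 (hwQi h hh), e2]
      have e4 : ∫ x, w x * Qh t h (x - h) = - B (-h) := by
        rw [hB]
        simp only [hG]
        rw [← integral_neg]
        refine integral_congr_ae (Eventually.of_forall fun x => ?_)
        simp only
        rw [if_pos hh', Qh_neg]
        ring
      have e5 : ∫ x, w x * Qh t h x = B h := by
        rw [hB]
        simp only [hG]
        refine integral_congr_ae (Eventually.of_forall fun x => ?_)
        simp only
        rw [if_pos hh]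
      rw [e4, e5]
      ring
    · have hh' : ¬ |-h| ≤ 1 := by rwa [abs_neg]
      have e1 : ∀ x, (fun z : ℝ × ℝ => rwg V t z * (w z.2 - w z.1)) (x, x + h) *
          √(nrm V x * nrm V (x + h)) = 0 := by
        intro x
        simp only [rwg]
        rw [if_neg (by rwa [add_sub_cancel_left])]
        ring
      simp_rw [e1]
      have e2 : B h = 0 := by
        rw [hB]
        simp only [hG, if_neg hh, integral_zero]
      have e3 : B (-h) = 0 := by
        rw [hB]
        simp only [hG, if_neg hh', integral_zero]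
      rw [e2, e3, integral_zero]
      ring
  simp_rw [hin]
  rw [integral_neg, integral_add hBi hBni, hBneg]
  have hsw : ∫ h, B h ∂γ = ∫ x, w x *
        ∫ z in {z : ℝ | |z| ≤ 1}, (∫ u in x..(x + z), t u) ∂γ := by
    rw [hB]
    rw [integral_integral_swap hGi]
    refine integral_congr_ae (Eventually.of_forall fun x => ?_)
    simp only
    have hS : MeasurableSet {z : ℝ | |z| ≤ 1} :=
      measurableSet_le continuous_abs.measurable measurable_const
    rw [← integral_indicator hS, ← integral_const_mul]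
    refine integral_congr_ae (Eventually.of_forall fun h => ?_)
    simp only [hG, indicator, mem_ofPred_eq]
    by_cases hh : |h| ≤ 1
    · simp only [hh, if_true]
      rfl
    · simp only [hh, if_false, mul_zero]
  rw [hsw]
  ring

/-- second order remainder -/
private noncomputable def rem (t : ℝ → ℝ) (z x : ℝ) : ℝ :=
  Qh t z x - z * t x - z ^ 2 / 2 * deriv t x

private theorem rem_cont (ht : IsTest t) : Continuous fun z : ℝ × ℝ => rem t z.1 z.2 := by
  have h1 := Qh_cont ht.smooth.continuous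
  have h2 := ht.smooth.continuous
  have h3 : Continuous (deriv t) := ht.smooth.continuous_deriv le_rfl
  unfold rem
  exact (h1.sub (continuous_fst.mul (h2.comp continuous_snd))).sub
    (((continuous_fst.pow 2).div_const 2).mul (h3.comp continuous_snd))

private theorem rem_zero (ht : IsTest t) {A : ℝ} (hA : ∀ x, A < |x| → t x = 0 ∧ deriv t x = 0)
    {z x : ℝ} (hz : |z| ≤ 1) (hx : A + 1 < |x|) : rem t z x = 0 := by
  unfold rem
  have h1 : A < |x| := by linarith
  rw [Qh_zero (fun x hx => (hA x hx).1) hz hx, (hA x h1).1, (hA x h1).2]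
  ring

private theorem rem_le (ht : IsTest t) {ω z x : ℝ}
    (h : ∀ s, |s| ≤ |z| → |deriv t (x + s) - deriv t x| ≤ ω) : |rem t z x| ≤ ω * z ^ 2 := by
  have hω : 0 ≤ ω := (abs_nonneg _).trans (h 0 (by rw [abs_zero]; exact abs_nonneg z))
  have htd : ∀ y, HasDerivAt t (deriv t y) y := fun y =>
    ((ht.smooth.differentiable (by norm_num)) y).hasDerivAt
  have hmem : ∀ s ∈ uIcc (0 : ℝ) z, |s| ≤ |z| := by
    intro s hs
    have := abs_sub_left_of_mem_uIcc hs
    rwa [sub_zero, sub_zero] at this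
  -- first order
  have hψ : ∀ s ∈ uIcc (0 : ℝ) z, |t (x + s) - t x - s * deriv t x| ≤ ω * |z| := by
    intro s hs
    have hd : ∀ r ∈ uIcc (0 : ℝ) z, HasDerivWithinAt (fun r => t (x + r) - t x - r * deriv t x)
        (deriv t (x + r) - deriv t x) (uIcc (0 : ℝ) z) r := by
      intro r _
      have h1 : HasDerivAt (fun r => t (x + r)) (deriv t (x + r)) r :=
        HasDerivAt.comp_const_add x r (htd (x + r))
      have h2 := (h1.sub_const (t x)).fun_sub ((hasDerivAt_id' r).mul_const (deriv t x))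
      rw [one_mul] at h2
      exact h2.hasDerivWithinAt
    have h3 := Convex.norm_image_sub_le_of_norm_hasDerivWithin_le (C := ω) hd
      (fun r hr => by rw [Real.norm_eq_abs]; exact h r (hmem r hr)) (convex_uIcc 0 z)
      (left_mem_uIcc) hs
    simp only [add_zero, sub_self, zero_mul, sub_zero, Real.norm_eq_abs] at h3
    exact h3.trans (mul_le_mul_of_nonneg_left (hmem s hs) hω)
  -- second order
  have hd : ∀ r ∈ uIcc (0 : ℝ) z, HasDerivWithinAt (fun r => rem t r x)
      (t (x + r) - t x - r * deriv t x) (uIcc (0 : ℝ) z) r := by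
    intro r _
    have h0 : HasDerivAt (fun y => ∫ u in x..y, t u) (t (x + r)) (x + r) :=
      intervalIntegral.integral_hasDerivAt_right (ht.smooth.continuous.intervalIntegrable _ _)
        (ht.smooth.continuous.stronglyMeasurableAtFilter _ _) ht.smooth.continuous.continuousAt
    have h1 : HasDerivAt (fun r => ∫ u in x..(x + r), t u) (t (x + r)) r :=
      HasDerivAt.comp_const_add x r h0
    have h2 : HasDerivAt (fun r : ℝ => r ^ 2 / 2) r r := by
      have := (hasDerivAt_pow 2 r).div_const 2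
      simpa using this
    have h3 := (h1.fun_sub ((hasDerivAt_id' r).mul_const (t x))).fun_sub
      (h2.mul_const (deriv t x))
    rw [one_mul] at h3
    exact h3.hasDerivWithinAt
  have h3 := Convex.norm_image_sub_le_of_norm_hasDerivWithin_le (C := ω * |z|) hd
    (fun r hr => by rw [Real.norm_eq_abs]; exact hψ r hr) (convex_uIcc 0 z)
    (left_mem_uIcc) (right_mem_uIcc)
  have h4 : rem t 0 x = 0 := by
    unfold rem Qh
    simp
  simp only [h4, sub_zero, Real.norm_eq_abs] at h3
  calc |rem t z x| ≤ ω * |z| * |z| := h3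
    _ = ω * z ^ 2 := by rw [mul_assoc, ← sq, sq_abs]

private noncomputable def JJ (t : ℝ → ℝ) (z : ℝ) : ℝ :=
  if |z| ≤ 1 then ∫ x, |rem t z x| else 0

private theorem JJ_meas (ht : IsTest t) : Measurable (JJ t) := by
  have h1 := ((rem_cont ht).abs.stronglyMeasurable.integral_prod_right'
    (ν := (volume : Measure ℝ))).measurable
  exact Measurable.ite (measurableSet_le continuous_abs.measurable measurable_const) h1
    measurable_const

private theorem rem_integrable (ht : IsTest t) {z : ℝ} (hz : |z| ≤ 1) :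
    Integrable fun x => |rem t z x| := by
  obtain ⟨A, hA0, hA⟩ := cb_rad ht
  have hc : Continuous fun x => |rem t z x| :=
    ((rem_cont ht).comp (continuous_const.prodMk continuous_id)).abs
  refine hc.integrable_of_hasCompactSupport
    (HasCompactSupport.intro (isCompact_Icc (a := -(A + 1)) (b := A + 1)) fun x hx => ?_)
  have : A + 1 < |x| := by
    by_contra h'
    push Not at h'
    exact hx (abs_le.mp h')
  rw [rem_zero ht hA hz this, abs_zero]

private theorem JJ_le (ht : IsTest t) {A : ℝ} (hA0 : 0 < A)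
    (hA : ∀ x, A < |x| → t x = 0 ∧ deriv t x = 0) {ω z : ℝ} (hω : 0 ≤ ω)
    (h : ∀ x s, |s| ≤ |z| → |deriv t (x + s) - deriv t x| ≤ ω) :
    |JJ t z| ≤ ω * z ^ 2 * (2 * (A + 1)) := by
  unfold JJ
  split_ifs with hz
  · have h1 : ∫ x, |rem t z x| = ∫ x in Icc (-(A + 1)) (A + 1), |rem t z x| := by
      rw [setIntegral_eq_integral_of_forall_compl_eq_zero]
      intro x hx
      have : A + 1 < |x| := by
        by_contra h'
        push Not at h'
        exact hx (abs_le.mp h')
      rw [rem_zero ht hA hz this, abs_zero]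
    rw [h1]
    have h2 := norm_setIntegral_le_of_norm_le_const (μ := (volume : Measure ℝ))
      (s := Icc (-(A + 1)) (A + 1)) (f := fun x => |rem t z x|) (C := ω * z ^ 2)
      (by rw [Real.volume_Icc]; exact ENNReal.ofReal_lt_top)
      (fun x _ => by rw [Real.norm_eq_abs, abs_abs]; exact rem_le ht (h x))
    rw [Real.norm_eq_abs, Real.volume_real_Icc_of_le (by linarith)] at h2
    calc _ ≤ _ := h2
      _ = ω * z ^ 2 * (2 * (A + 1)) := by ring
  · rw [abs_zero]
    positivity

/-- Taylor expansion of `Q` in `L¹(dx)` -/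
private theorem taylor_aux (ht : IsTest t) :
    ∃ C : ℝ, 0 < C ∧ (∀ z, |JJ t z| ≤ C * z ^ 2 * (1 + z ^ 4)) ∧ (∀ z, |JJ t z| ≤ C) ∧
      (∀ ε : ℝ, 0 < ε → ∃ δ : ℝ, 0 < δ ∧ ∀ z, |z| ≤ δ → |JJ t z| ≤ ε * z ^ 2) := by
  obtain ⟨A, hA0, hA⟩ := cb_rad ht
  have hdc : Continuous (deriv t) := ht.smooth.continuous_deriv le_rfl
  have hds : HasCompactSupport (deriv t) := ht.supp.deriv
  obtain ⟨K, hK0, hK⟩ := cb_bound hdc hds
  have hgl : ∀ z, |JJ t z| ≤ 2 * K * z ^ 2 * (2 * (A + 1)) := by
    intro z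
    refine JJ_le ht hA0 hA (by positivity) fun x s _ => ?_
    have := abs_sub (deriv t (x + s)) (deriv t x)
    have h1 := hK (x + s)
    have h2 := hK x
    linarith
  refine ⟨2 * K * (2 * (A + 1)), by positivity, fun z => ?_, fun z => ?_, fun ε hε => ?_⟩
  · refine (hgl z).trans ?_
    have h1 : 0 ≤ 2 * K * (2 * (A + 1)) * z ^ 2 := by positivity
    have h2 : 0 ≤ z ^ 4 := by positivity
    nlinarith [mul_nonneg h1 h2]
  · by_cases hz : |z| ≤ 1
    · refine (hgl z).trans ?_
      have h1 : z ^ 2 ≤ 1 := by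
        rw [← sq_abs]
        exact pow_le_one₀ (abs_nonneg z) hz
      have h2 : 0 ≤ 2 * K * (2 * (A + 1)) := by positivity
      nlinarith [mul_le_mul_of_nonneg_left h1 h2]
    · unfold JJ
      rw [if_neg hz, abs_zero]
      positivity
  · have huc : UniformContinuous (deriv t) :=
      hdc.uniformContinuous_of_tendsto_cocompact hds.is_zero_at_infty
    obtain ⟨δ, hδ, hd⟩ := Metric.uniformContinuous_iff.mp huc (ε / (2 * (A + 1)))
      (by positivity)
    refine ⟨δ / 2, by positivity, fun z hz => ?_⟩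
    have h1 := JJ_le ht hA0 hA (ω := ε / (2 * (A + 1))) (z := z) (by positivity)
      (fun x s hs => by
        have h2 : dist (x + s) x < δ := by
          rw [Real.dist_eq, add_sub_cancel_left]
          linarith
        have h3 := hd h2
        rw [Real.dist_eq] at h3
        exact h3.le)
    calc |JJ t z| ≤ _ := h1
      _ = ε * z ^ 2 := by
          have : A + 1 ≠ 0 := by positivity
          field_simp

/-- Taylor expansion of `Q` in `L¹(dx)` -/
theorem taylor_small (ht : IsTest t) :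
    ∃ J : ℝ → ℝ, ∃ C : ℝ, Measurable J ∧ (∀ z, |J z| ≤ C * z ^ 2 * (1 + z ^ 4)) ∧
      (∀ ε : ℝ, 0 < ε → ∃ δ : ℝ, 0 < δ ∧ ∀ z, |z| ≤ δ → |J z| ≤ ε * z ^ 2) ∧
      ∀ z, |z| ≤ 1 → Integrable (fun x => |(∫ u in x..(x + z), t u) - z * t x
        - z ^ 2 / 2 * deriv t x|) ∧
      ∫ x, |(∫ u in x..(x + z), t u) - z * t x - z ^ 2 / 2 * deriv t x| ≤ J z := by
  obtain ⟨C, hC0, h1, h2, h3⟩ := taylor_aux ht
  refine ⟨JJ t, C, JJ_meas ht, h1, h3, fun z hz => ⟨rem_integrable ht hz, ?_⟩⟩
  have h4 : JJ t z = ∫ x, |rem t z x| := by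
    unfold JJ
    rw [if_pos hz]
  rw [h4]
  exact le_refl _

private theorem gen_S : {z : ℝ | |z| ≤ 1} = Icc (-1 : ℝ) 1 := by
  ext z
  rw [mem_ofPred_eq, mem_Icc, abs_le]

private theorem gen_odd (v : ℝ≥0) :
    ∫ z in {z : ℝ | |z| ≤ 1}, z ∂(gaussianReal 0 v) = 0 := by
  have hmp : MeasurePreserving (fun x : ℝ => -x) (gaussianReal 0 v) (gaussianReal 0 v) := by
    refine ⟨measurable_neg, ?_⟩
    rw [gaussianReal_map_neg, neg_zero]
  have hS : MeasurableSet {z : ℝ | |z| ≤ 1} :=
    measurableSet_le continuous_abs.measurable measurable_const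
  have h1 := hmp.integral_comp (MeasurableEquiv.neg ℝ).measurableEmbedding
    ({z : ℝ | |z| ≤ 1}.indicator fun z => z)
  have h2 : ∀ x : ℝ, ({z : ℝ | |z| ≤ 1}.indicator fun z => z) (-x) =
      -({z : ℝ | |z| ≤ 1}.indicator fun z => z) x := by
    intro x
    simp only [indicator, mem_ofPred_eq, abs_neg]
    split_ifs
    · rfl
    · rw [neg_zero]
  simp_rw [h2] at h1
  rw [integral_neg] at h1
  rw [← integral_indicator hS]
  linarith

private theorem gen_split (ht : IsTest t) (v : ℝ≥0) {w : ℝ → ℝ}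
    (hw : Measurable w) (hw1 : ∀ x, |w x| ≤ 1) :
    |(∫ x, w x * ∫ z in {z : ℝ | |z| ≤ 1}, (∫ u in x..(x + z), t u) ∂(gaussianReal 0 v)) -
      (∫ z in {z : ℝ | |z| ≤ 1}, z ^ 2 ∂(gaussianReal 0 v)) / 2 * ∫ x, w x * deriv t x| ≤
      ∫ z, |JJ t z| ∂(gaussianReal 0 v) := by
  obtain ⟨A, hA0, hA⟩ := cb_rad ht
  have hdc : Continuous (deriv t) := ht.smooth.continuous_deriv le_rfl
  have hds : HasCompactSupport (deriv t) := ht.supp.deriv
  obtain ⟨K, hK0, hK⟩ := cb_bound hdc hds
  obtain ⟨C, hC0, -, hJC, -⟩ := taylor_aux ht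
  have hrc := rem_cont ht
  set γ := gaussianReal 0 v with hγ
  have hS : MeasurableSet {z : ℝ | |z| ≤ 1} :=
    measurableSet_le continuous_abs.measurable measurable_const
  have hcI : ∀ f : ℝ → ℝ, Continuous f → IntegrableOn f {z : ℝ | |z| ≤ 1} γ := by
    intro f hf
    rw [gen_S]
    exact hf.continuousOn.integrableOn_compact isCompact_Icc
  have hrz : ∀ x, Continuous fun z => rem t z x := fun x =>
    hrc.comp (continuous_id.prodMk continuous_const)
  -- pointwise expansion
  have hpt : ∀ x, ∫ z in {z : ℝ | |z| ≤ 1}, (∫ u in x..(x + z), t u) ∂γ =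
      (∫ z in {z : ℝ | |z| ≤ 1}, rem t z x ∂γ) +
        (∫ z in {z : ℝ | |z| ≤ 1}, z ^ 2 ∂γ) / 2 * deriv t x := by
    intro x
    have e1 : ∀ z : ℝ, (∫ u in x..(x + z), t u) =
        rem t z x + (z * t x + z ^ 2 * (deriv t x / 2)) := by
      intro z
      unfold rem Qh
      ring
    simp_rw [e1]
    have i1 := hcI _ (hrz x)
    have i2 := hcI (fun z => z * t x) (by fun_prop)
    have i3 := hcI (fun z => z ^ 2 * (deriv t x / 2)) (by fun_prop)
    have i23 : IntegrableOn (fun z => z * t x + z ^ 2 * (deriv t x / 2))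
        {z : ℝ | |z| ≤ 1} γ := i2.add i3
    rw [integral_add i1 i23, integral_add i2 i3, integral_mul_const, integral_mul_const,
      gen_odd v]
    ring
  simp_rw [hpt]
  -- Fubini
  set G : ℝ → ℝ → ℝ := fun z x => if |z| ≤ 1 then w x * rem t z x else 0 with hG
  have hSm : MeasurableSet {z : ℝ × ℝ | |z.1| ≤ 1} :=
    measurableSet_le (continuous_abs.measurable.comp measurable_fst) measurable_const
  have hGm : Measurable fun z : ℝ × ℝ => G z.1 z.2 :=
    Measurable.ite hSm ((hw.comp measurable_snd).mul hrc.measurable) measurable_const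
  have hGb : ∀ z x, |G z x| ≤ 2 * K := by
    intro z x
    rw [hG]
    simp only
    split_ifs with hz
    · rw [abs_mul]
      have h1 : |rem t z x| ≤ 2 * K * z ^ 2 := by
        refine rem_le ht fun s _ => ?_
        have := abs_sub (deriv t (x + s)) (deriv t x)
        have h1 := hK (x + s)
        have h2 := hK x
        linarith
      have h2 : z ^ 2 ≤ 1 := by
        rw [← sq_abs]
        exact pow_le_one₀ (abs_nonneg z) hz
      calc |w x| * |rem t z x| ≤ 1 * (2 * K * z ^ 2) :=
            mul_le_mul (hw1 x) h1 (abs_nonneg _) zero_le_one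
        _ ≤ 2 * K := by nlinarith
    · rw [abs_zero]; positivity
  have hG0 : ∀ z x, A + 1 < |x| → G z x = 0 := by
    intro z x hx
    rw [hG]
    simp only
    split_ifs with hz
    · rw [rem_zero ht hA hz hx, mul_zero]
    · rfl
  have hGi := cb_prod_int (γ := γ) hGm hGb hG0
  have hGx : ∀ x, ∫ z, G z x ∂γ = w x * ∫ z in {z : ℝ | |z| ≤ 1}, rem t z x ∂γ := by
    intro x
    rw [← integral_indicator hS, ← integral_const_mul]
    refine integral_congr_ae (Eventually.of_forall fun z => ?_)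
    simp only [hG, indicator, mem_ofPred_eq]
    by_cases hh : |z| ≤ 1
    · simp only [hh, if_true]
    · simp only [hh, if_false, mul_zero]
  have hwR : Integrable fun x => w x * ∫ z in {z : ℝ | |z| ≤ 1}, rem t z x ∂γ := by
    have h1 := hGi.integral_prod_right
    refine h1.congr (Eventually.of_forall fun x => ?_)
    exact hGx x
  have hwd : Integrable fun x => w x * deriv t x := by
    refine Integrable.bdd_mul (c := 1) (hdc.integrable_of_hasCompactSupport hds)
      hw.aestronglyMeasurable (Eventually.of_forall fun x => ?_)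
    rw [Real.norm_eq_abs]
    exact hw1 x
  have e2 : ∫ x, w x * ((∫ z in {z : ℝ | |z| ≤ 1}, rem t z x ∂γ) +
        (∫ z in {z : ℝ | |z| ≤ 1}, z ^ 2 ∂γ) / 2 * deriv t x) =
      (∫ x, w x * ∫ z in {z : ℝ | |z| ≤ 1}, rem t z x ∂γ) +
      (∫ z in {z : ℝ | |z| ≤ 1}, z ^ 2 ∂γ) / 2 * ∫ x, w x * deriv t x := by
    rw [← integral_const_mul, ← integral_add hwR (hwd.const_mul _)]
    refine integral_congr_ae (Eventually.of_forall fun x => ?_)
    simp only
    ring
  rw [e2, add_sub_cancel_right]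
  have e3 : ∫ x, w x * ∫ z in {z : ℝ | |z| ≤ 1}, rem t z x ∂γ = ∫ z, (∫ x, G z x) ∂γ := by
    rw [integral_integral_swap hGi]
    refine integral_congr_ae (Eventually.of_forall fun x => ?_)
    exact (hGx x).symm
  rw [e3, ← Real.norm_eq_abs]
  have hJi : Integrable (fun z => |JJ t z|) γ := by
    refine Integrable.of_bound (JJ_meas ht).abs.aestronglyMeasurable C
      (Eventually.of_forall fun z => ?_)
    rw [Real.norm_eq_abs, abs_abs]
    exact hJC z
  refine norm_integral_le_of_norm_le hJi (Eventually.of_forall fun z => ?_)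
  by_cases hz : |z| ≤ 1
  · have h1 : JJ t z = ∫ x, |rem t z x| := by
      unfold JJ
      rw [if_pos hz]
    rw [h1]
    refine le_trans ?_ (le_abs_self _)
    refine norm_integral_le_of_norm_le (rem_integrable ht hz) (Eventually.of_forall fun x => ?_)
    rw [Real.norm_eq_abs]
    simp only [hG]
    rw [if_pos hz, abs_mul]
    calc |w x| * |rem t z x| ≤ 1 * |rem t z x| :=
          mul_le_mul_of_nonneg_right (hw1 x) (abs_nonneg _)
      _ = |rem t z x| := one_mul _
  · have h1 : ∫ x, G z x = 0 := by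
      simp only [hG, if_neg hz, integral_zero]
    rw [h1, norm_zero]
    exact abs_nonneg _

private theorem gen_zlim (hH : 0 < H) (hH1 : H < 1) (hl : 0 < l) (hV : VGood H V) :
    Tendsto (fun n : ℕ => Zf (nrm V) (rwq (vH l H n))) atTop (𝓝 1) := by
  have h1 := rw_z hH hH1 hl hV
  have h2 : Tendsto (fun n : ℕ => 1 / ((n : ℝ) + 1)) atTop (𝓝 0) :=
    tendsto_one_div_add_atTop_nhds_zero_nat
  have h3 := (h1.mul h2).const_sub 1
  rw [mul_zero, sub_zero] at h3
  refine h3.congr fun n => ?_
  have : (n : ℝ) + 1 ≠ 0 := by positivity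
  field_simp
  ring

theorem rwg_gen (hH : 0 < H) (hH1 : H < 1) (hl : 0 < l) (hV : VGood H V) (ht : IsTest t) {ε : ℝ}
    (hε : 0 < ε) :
    ∀ᶠ n in atTop, ∀ w : ℝ → ℝ, Measurable w → (∀ x, |w x| ≤ 1) →
      |1 / (2 * tauH H n) * ∫ z, rwg V t z * (w z.2 - w z.1) ∂(sm (nrm V) (rwq (vH l H n)))
        + l ^ 2 / 2 * ∫ x, w x * deriv t x| ≤ ε := by
  obtain ⟨C, hC0, hJ1, -, hJ2⟩ := taylor_aux ht
  have hdc : Continuous (deriv t) := ht.smooth.continuous_deriv le_rfl
  have hds : HasCompactSupport (deriv t) := ht.supp.deriv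
  have hdi : Integrable (deriv t) := hdc.integrable_of_hasCompactSupport hds
  have hp := nrm_dens hV.cont hV.exp_int
  set T1 : ℝ := ∫ x, |deriv t x| with hT1
  set a : ℕ → ℝ := fun n => ∫ z, |JJ t z| ∂(gaussianReal 0 (vH l H n)) with ha
  set s : ℕ → ℝ := fun n => ∫ z in {z : ℝ | |z| ≤ 1}, z ^ 2 ∂(gaussianReal 0 (vH l H n)) with hs
  have la : Tendsto (fun n => (tauH H n)⁻¹ * a n) atTop (𝓝 0) :=
    small_avg hl hH (JJ_meas ht) hJ1 hJ2
  have ls : Tendsto (fun n => (tauH H n)⁻¹ * s n) atTop (𝓝 (l ^ 2)) := sq_avg hl hH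
  have lz : Tendsto (fun n : ℕ => (Zf (nrm V) (rwq (vH l H n)))⁻¹) atTop (𝓝 1) := by
    have := (gen_zlim hH hH1 hl hV).inv₀ one_ne_zero
    rwa [inv_one] at this
  have lim : Tendsto (fun n : ℕ => (Zf (nrm V) (rwq (vH l H n)))⁻¹ * ((tauH H n)⁻¹ * a n) +
      |(Zf (nrm V) (rwq (vH l H n)))⁻¹ * ((tauH H n)⁻¹ * s n) - l ^ 2| / 2 * T1) atTop (𝓝 0) := by
    have h1 := (lz.mul la).add (((((lz.mul ls).sub_const (l ^ 2)).abs).div_const 2).mul_const T1)
    simpa using h1
  filter_upwards [lim.eventually_lt_const hε] with n hn w hw hw1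
  refine le_trans ?_ hn.le
  have hvn := vH_pos hl H n
  rw [rwg_pair hV ht hvn hw hw1]
  have hsp := gen_split ht (vH l H n) hw hw1
  set I : ℝ := ∫ x, w x * ∫ z in {z : ℝ | |z| ≤ 1}, (∫ u in x..(x + z), t u)
    ∂(gaussianReal 0 (vH l H n)) with hI
  set W : ℝ := ∫ x, w x * deriv t x with hW
  have hWT : |W| ≤ T1 := by
    rw [← Real.norm_eq_abs]
    refine norm_integral_le_of_norm_le hdi.abs (Eventually.of_forall fun x => ?_)
    rw [Real.norm_eq_abs, abs_mul]
    calc |w x| * |deriv t x| ≤ 1 * |deriv t x| :=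
          mul_le_mul_of_nonneg_right (hw1 x) (abs_nonneg _)
      _ = |deriv t x| := one_mul _
  have hZ : 0 < (Zf (nrm V) (rwq (vH l H n)))⁻¹ :=
    inv_pos.mpr (Zf_pos hp (rwq_prop hvn))
  have hτ : 0 < (tauH H n)⁻¹ := inv_pos.mpr (tauH_pos H n)
  set z' : ℝ := (Zf (nrm V) (rwq (vH l H n)))⁻¹ with hz'
  set τ' : ℝ := (tauH H n)⁻¹ with hτ'
  have e1 : 1 / (2 * tauH H n) * (-2 * z' * I) + l ^ 2 / 2 * W =
      -(z' * τ' * (I - s n / 2 * W)) - (z' * (τ' * s n) - l ^ 2) / 2 * W := by
    have : 1 / (2 * tauH H n) = τ' / 2 := by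
      rw [hτ']
      field_simp
    rw [this]
    ring
  rw [e1]
  calc |-(z' * τ' * (I - s n / 2 * W)) - (z' * (τ' * s n) - l ^ 2) / 2 * W|
      ≤ |-(z' * τ' * (I - s n / 2 * W))| + |(z' * (τ' * s n) - l ^ 2) / 2 * W| := abs_sub _ _
    _ ≤ z' * (τ' * a n) + |z' * (τ' * s n) - l ^ 2| / 2 * T1 := by
        refine add_le_add ?_ ?_
        · rw [abs_neg, abs_mul, abs_of_pos (mul_pos hZ hτ), mul_assoc]
          exact mul_le_mul_of_nonneg_left (mul_le_mul_of_nonneg_left hsp hτ.le) hZ.le
        · rw [abs_mul, abs_div, abs_of_pos (by norm_num : (0 : ℝ) < 2)]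
          exact mul_le_mul_of_nonneg_left hWT (by positivity)

end Pool.Agent.Lib.MP_e19099_pr
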