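import Pool.Agent.Lib.MP_e19099_pr.CVGood
import Pool.Agent.Lib.MP_e19099_pr.CPar

/-!
# Random walk proposals: identities (module C, C4)

`rwq v x y` = density at `y` of `N(x, v)`, symmetric in `x, y`; so `R(x,y) = V y - V x` and `sdn = √(p(x)p(y)) γ_v(y-x)`;
`1 - Z = ∫∫ ½ (√p(y) - √p(x))² γ_v(y-x)` (since `∫∫ ½(p(x)+p(y)) γ_v(y-x) = 1`).
`rw_mom`: `∫∫ (y-x)⁴ p(x) γ_v(y-x) = 3v²`.
`gau_psd`: `γ_v(y-x) = ∫ γ_{v/2}(x-u) γ_{v/2}(y-u) du`, Fubini.
-/

set_option autoImplicit false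

open MeasureTheory ProbabilityTheory Filter Set
open scoped NNReal Topology ENNReal

namespace Pool.Agent.Lib.MP_e19099_pr

/-- random walk proposal density -/
noncomputable def rwq (v : ℝ≥0) (x y : ℝ) : ℝ := gaussianPDFReal x v y

theorem rwq_eq (v : ℝ≥0) (x y : ℝ) : rwq v x y = gaussianPDFReal 0 v (y - x) := by
  unfold rwq
  rw [gaussianPDFReal_sub, zero_add]

theorem rwq_symm (v : ℝ≥0) (x y : ℝ) : rwq v x y = rwq v y x := by
  unfold rwq
  rw [gaussianPDFReal_def, gaussianPDFReal_def]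
  show (√(2 * Real.pi * v))⁻¹ * Real.exp (-(y - x) ^ 2 / (2 * v)) =
    (√(2 * Real.pi * v))⁻¹ * Real.exp (-(x - y) ^ 2 / (2 * v))
  have : (y - x) ^ 2 = (x - y) ^ 2 := by ring
  rw [this]

theorem rwq_prop {v : ℝ≥0} (hv : 0 < v) : IsProp (rwq v) where
  meas := by
    have h1 : Function.uncurry (rwq v) = fun z : ℝ × ℝ => gaussianPDFReal 0 v (z.2 - z.1) := by
      funext z
      exact rwq_eq v z.1 z.2
    rw [h1]
    exact (measurable_gaussianPDFReal 0 v).comp (measurable_snd.sub measurable_fst)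
  pos := fun x y => gaussianPDFReal_pos x v y hv.ne'
  one := fun x => integral_gaussianPDFReal_eq_one x hv.ne'

variable {H : ℝ} {V : ℝ → ℝ} {v : ℝ≥0}

private theorem cid_dens (hV : VGood H V) : Dens (nrm V) := nrm_dens hV.cont hV.exp_int

theorem Rf_rw (hV : VGood H V) (hv : 0 < v) (z : ℝ × ℝ) :
    Rf (nrm V) (rwq v) z = V z.2 - V z.1 := by
  unfold Rf
  have h1 : rwq v z.1 z.2 ≠ 0 := ((rwq_prop hv).pos z.1 z.2).ne'
  rw [rwq_symm v z.2 z.1, mul_div_mul_right _ _ h1, nrm_ratio hV.cont hV.exp_int, Real.log_exp]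

theorem sdn_rw (hV : VGood H V) (z : ℝ × ℝ) :
    sdn (nrm V) (rwq v) z = √(nrm V z.1 * nrm V z.2) * gaussianPDFReal 0 v (z.2 - z.1) := by
  have hp := cid_dens hV
  have h0 : 0 ≤ gaussianPDFReal 0 v (z.2 - z.1) := gaussianPDFReal_nonneg _ _ _
  unfold sdn
  rw [rwq_symm v z.2 z.1, rwq_eq]
  have h1 : nrm V z.1 * gaussianPDFReal 0 v (z.2 - z.1) *
      (nrm V z.2 * gaussianPDFReal 0 v (z.2 - z.1)) =
      nrm V z.1 * nrm V z.2 * (gaussianPDFReal 0 v (z.2 - z.1)) ^ 2 := by ring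
  rw [h1, Real.sqrt_mul (mul_pos (hp.pos _) (hp.pos _)).le, Real.sqrt_sq h0]

private theorem cid_swap {F : ℝ × ℝ → ℝ} (hi : Integrable F) :
    Integrable (fun z : ℝ × ℝ => F z.swap) ∧ ∫ z : ℝ × ℝ, F z.swap = ∫ z : ℝ × ℝ, F z := by
  rw [Measure.volume_eq_prod] at hi ⊢
  exact ⟨hi.swap, integral_prod_swap F⟩

theorem Zf_rw (hV : VGood H V) (hv : 0 < v) :
    1 - Zf (nrm V) (rwq v) = ∫ z : ℝ × ℝ, (√(nrm V z.2) - √(nrm V z.1)) ^ 2 / 2
      * gaussianPDFReal 0 v (z.2 - z.1) := by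
  have hp := cid_dens hV
  have hq := rwq_prop hv
  have hi := pq_integrable hp hq
  obtain ⟨hs, hs'⟩ := cid_swap hi
  have h1 : ∫ z : ℝ × ℝ, (nrm V z.1 * rwq v z.1 z.2 +
      nrm V z.swap.1 * rwq v z.swap.1 z.swap.2) / 2 = 1 := by
    rw [integral_div, integral_add hi hs, hs', pq_one hp hq]
    norm_num
  have hsum : Integrable fun z : ℝ × ℝ => (nrm V z.1 * rwq v z.1 z.2 +
      nrm V z.swap.1 * rwq v z.swap.1 z.swap.2) / 2 := (hi.add hs).div_const 2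
  unfold Zf
  nth_rewrite 1 [← h1]
  rw [← integral_sub hsum (sdn_integrable hp hq)]
  refine integral_congr_ae (Eventually.of_forall fun z => ?_)
  show (nrm V z.1 * rwq v z.1 z.2 + nrm V z.2 * rwq v z.2 z.1) / 2 - sdn (nrm V) (rwq v) z =
    (√(nrm V z.2) - √(nrm V z.1)) ^ 2 / 2 * gaussianPDFReal 0 v (z.2 - z.1)
  rw [sdn_rw hV, rwq_symm v z.2 z.1, rwq_eq, Real.sqrt_mul (hp.pos _).le]
  have e1 := Real.sq_sqrt (hp.pos z.1).le
  have e2 := Real.sq_sqrt (hp.pos z.2).le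
  nth_rewrite 1 [← e1]
  nth_rewrite 1 [← e2]
  ring

private theorem cid_gmom : gmom 4 = 3 := by
  rw [gmom_eq (by norm_num)]
  have h1 : ((4 : ℝ) + 1) / 2 = (1 / 2 + 1) + 1 := by norm_num
  rw [h1, Real.Gamma_add_one (by norm_num), Real.Gamma_add_one (by norm_num),
    Real.Gamma_one_half_eq]
  have h2 : (2 : ℝ) ^ ((4 : ℝ) / 2) = 4 := by
    rw [show (4 : ℝ) / 2 = 2 by norm_num, Real.rpow_two]
    norm_num
  rw [h2]
  have : √Real.pi ≠ 0 := by positivity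
  field_simp
  norm_num

private theorem cid_four (z : ℝ) : |z| ^ (4 : ℝ) = z ^ 4 := by
  have h : |z| ^ 4 = z ^ 4 := by
    have : |z| ^ 4 = (|z| ^ 2) ^ 2 := by ring
    rw [this, sq_abs]
    ring
  rw [show (4 : ℝ) = ((4 : ℕ) : ℝ) by norm_num, Real.rpow_natCast, h]

private theorem cid_gauss4 (v : ℝ≥0) :
    Integrable (fun z : ℝ => z ^ 4) (gaussianReal 0 v) ∧
      ∫ z, z ^ 4 ∂(gaussianReal 0 v) = 3 * (v : ℝ) ^ 2 := by
  have hint : Integrable (fun z : ℝ => z ^ 4) (gaussianReal 0 v) := by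
    have h := (memLp_id_gaussianReal (μ := 0) (v := v) ((4 : ℕ) : ℝ≥0)).integrable_norm_pow'
    refine h.congr (Eventually.of_forall fun z => ?_)
    show ‖z‖ ^ 4 = z ^ 4
    rw [Real.norm_eq_abs]
    have : |z| ^ 4 = (|z| ^ 2) ^ 2 := by ring
    rw [this, sq_abs]
    ring
  refine ⟨hint, ?_⟩
  have h1 := gaussianReal_map_const_mul (μ := 0) (v := 1) (√(v : ℝ))
  have h2 : (NNReal.mk (√(v : ℝ) ^ 2) (sq_nonneg _) * 1 : ℝ≥0) = v := by
    rw [mul_one]
    apply NNReal.coe_injective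
    exact Real.sq_sqrt v.coe_nonneg
  rw [mul_zero, h2] at h1
  rw [← h1, integral_map (by fun_prop) (by fun_prop)]
  have e3 : √(v : ℝ) ^ 4 = (v : ℝ) ^ 2 := by
    have : √(v : ℝ) ^ 4 = (√(v : ℝ) ^ 2) ^ 2 := by ring
    rw [this, Real.sq_sqrt v.coe_nonneg]
  have e4 : ∀ z : ℝ, (√(v : ℝ) * z) ^ 4 = (v : ℝ) ^ 2 * |z| ^ (4 : ℝ) := fun z => by
    rw [mul_pow, e3, cid_four]
  simp_rw [e4]
  rw [integral_const_mul]
  have := cid_gmom
  unfold gmom at this
  rw [this]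
  ring

private theorem cid_row4 (hv : 0 < v) (x : ℝ) :
    Integrable (fun y : ℝ => (y - x) ^ 4 * rwq v x y) ∧
      ∫ y : ℝ, (y - x) ^ 4 * rwq v x y = 3 * (v : ℝ) ^ 2 := by
  obtain ⟨h1, h2⟩ := cid_gauss4 v
  have hd : gaussianReal 0 v = volume.withDensity (gaussianPDF 0 v) :=
    gaussianReal_of_var_ne_zero 0 hv.ne'
  rw [hd, integrable_withDensity_iff_integrable_smul' (measurable_gaussianPDF 0 v)
    (Eventually.of_forall fun x => gaussianPDF_lt_top)] at h1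
  rw [integral_gaussianReal_eq_integral_smul hv.ne'] at h2
  have h3 : Integrable fun z : ℝ => z ^ 4 * gaussianPDFReal 0 v z := by
    refine h1.congr (Eventually.of_forall fun z => ?_)
    show (gaussianPDF 0 v z).toReal • z ^ 4 = z ^ 4 * gaussianPDFReal 0 v z
    rw [toReal_gaussianPDF, smul_eq_mul, mul_comm]
  have h4 : ∫ z : ℝ, z ^ 4 * gaussianPDFReal 0 v z = 3 * (v : ℝ) ^ 2 := by
    rw [← h2]
    refine integral_congr_ae (Eventually.of_forall fun z => ?_)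
    show z ^ 4 * gaussianPDFReal 0 v z = gaussianPDFReal 0 v z • z ^ 4
    rw [smul_eq_mul, mul_comm]
  have e : (fun y : ℝ => (y - x) ^ 4 * rwq v x y) =
      fun y => (fun z : ℝ => z ^ 4 * gaussianPDFReal 0 v z) (y - x) := by
    funext y
    rw [rwq_eq]
  rw [e]
  refine ⟨h3.comp_sub_right x, ?_⟩
  rw [integral_sub_right_eq_self (fun z : ℝ => z ^ 4 * gaussianPDFReal 0 v z) x, h4]

theorem rw_mom (hV : VGood H V) (hv : 0 < v) :
    Integrable (fun z : ℝ × ℝ => (z.2 - z.1) ^ 4 * (nrm V z.1 * rwq v z.1 z.2)) ∧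
      ∫ z : ℝ × ℝ, (z.2 - z.1) ^ 4 * (nrm V z.1 * rwq v z.1 z.2) = 3 * (v : ℝ) ^ 2 := by
  have hp := cid_dens hV
  have hq := rwq_prop hv
  have hm : Measurable fun z : ℝ × ℝ => (z.2 - z.1) ^ 4 * (nrm V z.1 * rwq v z.1 z.2) :=
    ((measurable_snd.sub measurable_fst).pow_const 4).mul
      ((hp.cont.measurable.comp measurable_fst).mul hq.meas)
  have e : ∀ x y : ℝ, (y - x) ^ 4 * (nrm V x * rwq v x y) =
      nrm V x * ((y - x) ^ 4 * rwq v x y) := fun x y => by ring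
  have hi : Integrable (fun z : ℝ × ℝ => (z.2 - z.1) ^ 4 * (nrm V z.1 * rwq v z.1 z.2)) := by
    rw [Measure.volume_eq_prod, integrable_prod_iff hm.aestronglyMeasurable]
    refine ⟨Eventually.of_forall fun x => ?_, ?_⟩
    · show Integrable fun y : ℝ => (y - x) ^ 4 * (nrm V x * rwq v x y)
      simp_rw [e x]
      exact (cid_row4 hv x).1.const_mul _
    · refine (hp.int.mul_const (3 * (v : ℝ) ^ 2)).congr (Eventually.of_forall fun x => ?_)
      show nrm V x * (3 * (v : ℝ) ^ 2) = ∫ y, ‖(y - x) ^ 4 * (nrm V x * rwq v x y)‖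
      have h1 : ∀ y, ‖(y - x) ^ 4 * (nrm V x * rwq v x y)‖ =
          nrm V x * ((y - x) ^ 4 * rwq v x y) := fun y => by
        rw [Real.norm_eq_abs, abs_of_nonneg, e]
        exact mul_nonneg (by positivity) (mul_pos (hp.pos x) (hq.pos x y)).le
      simp_rw [h1]
      rw [integral_const_mul, (cid_row4 hv x).2]
  refine ⟨hi, ?_⟩
  rw [Measure.volume_eq_prod] at hi ⊢
  rw [integral_prod _ hi]
  have h1 : ∀ x, ∫ y, (y - x) ^ 4 * (nrm V x * rwq v x y) = nrm V x * (3 * (v : ℝ) ^ 2) := by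
    intro x
    simp_rw [e x]
    rw [integral_const_mul, (cid_row4 hv x).2]
  show ∫ x, ∫ y, (y - x) ^ 4 * (nrm V x * rwq v x y) = 3 * (v : ℝ) ^ 2
  simp_rw [h1]
  rw [integral_mul_const, hp.one, one_mul]

/-- completing the square -/
private theorem cid_conv (hv : 0 < v) (x y u : ℝ) :
    gaussianPDFReal 0 (v / 2) (x - u) * gaussianPDFReal 0 (v / 2) (y - u) =
      gaussianPDFReal 0 v (y - x) * gaussianPDFReal ((x + y) / 2) (v / 4) u := by
  have hv' : (0 : ℝ) < v := hv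
  simp only [gaussianPDFReal_def]
  have c2 : ((v / 2 : ℝ≥0) : ℝ) = (v : ℝ) / 2 := by push_cast; rfl
  have c4 : ((v / 4 : ℝ≥0) : ℝ) = (v : ℝ) / 4 := by push_cast; rfl
  rw [c2, c4]
  have hpi := Real.pi_pos
  have s1 : (√(2 * Real.pi * ((v : ℝ) / 2)))⁻¹ * (√(2 * Real.pi * ((v : ℝ) / 2)))⁻¹ =
      (√(2 * Real.pi * (v : ℝ)))⁻¹ * (√(2 * Real.pi * ((v : ℝ) / 4)))⁻¹ := by
    rw [← mul_inv, ← mul_inv, Real.mul_self_sqrt (by positivity), ← Real.sqrt_mul (by positivity)]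
    have : 2 * Real.pi * (v : ℝ) * (2 * Real.pi * ((v : ℝ) / 4)) =
        (2 * Real.pi * ((v : ℝ) / 2)) ^ 2 := by ring
    rw [this, Real.sqrt_sq (by positivity)]
  have s2 : Real.exp (-(x - u - 0) ^ 2 / (2 * ((v : ℝ) / 2))) *
      Real.exp (-(y - u - 0) ^ 2 / (2 * ((v : ℝ) / 2))) =
      Real.exp (-(y - x - 0) ^ 2 / (2 * (v : ℝ))) *
        Real.exp (-(u - (x + y) / 2) ^ 2 / (2 * ((v : ℝ) / 4))) := by
    rw [← Real.exp_add, ← Real.exp_add]
    congr 1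
    field_simp
    ring
  calc (√(2 * Real.pi * ((v : ℝ) / 2)))⁻¹ * Real.exp (-(x - u - 0) ^ 2 / (2 * ((v : ℝ) / 2))) *
      ((√(2 * Real.pi * ((v : ℝ) / 2)))⁻¹ * Real.exp (-(y - u - 0) ^ 2 / (2 * ((v : ℝ) / 2)))) =
      ((√(2 * Real.pi * ((v : ℝ) / 2)))⁻¹ * (√(2 * Real.pi * ((v : ℝ) / 2)))⁻¹) *
      (Real.exp (-(x - u - 0) ^ 2 / (2 * ((v : ℝ) / 2))) *
        Real.exp (-(y - u - 0) ^ 2 / (2 * ((v : ℝ) / 2)))) := by ring
    _ = _ := by
      rw [s1, s2]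
      ring

private theorem cid_gau_bdd (v : ℝ≥0) (x : ℝ) :
    |gaussianPDFReal 0 v x| ≤ (√(2 * Real.pi * v))⁻¹ := by
  rw [abs_of_nonneg (gaussianPDFReal_nonneg _ _ _), gaussianPDFReal_def]
  have h1 : Real.exp (-(x - 0) ^ 2 / (2 * (v : ℝ))) ≤ 1 := by
    rw [Real.exp_le_one_iff]
    exact div_nonpos_of_nonpos_of_nonneg (neg_nonpos.2 (sq_nonneg _)) (by positivity)
  calc (√(2 * Real.pi * v))⁻¹ * Real.exp (-(x - 0) ^ 2 / (2 * (v : ℝ))) ≤
      (√(2 * Real.pi * v))⁻¹ * 1 := mul_le_mul_of_nonneg_left h1 (by positivity)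
    _ = _ := mul_one _

theorem gau_psd (hv : 0 < v) {F : ℝ → ℝ} (hF : Measurable F) (hi : Integrable F) :
    Integrable (fun z : ℝ × ℝ => F z.1 * F z.2 * gaussianPDFReal 0 v (z.2 - z.1)) ∧
    0 ≤ ∫ z : ℝ × ℝ, F z.1 * F z.2 * gaussianPDFReal 0 v (z.2 - z.1) := by
  have hi2 : Integrable (fun z : ℝ × ℝ => F z.1 * F z.2) := by
    rw [Measure.volume_eq_prod]
    exact hi.mul_prod hi
  have hgm : Measurable fun z : ℝ × ℝ => gaussianPDFReal 0 v (z.2 - z.1) :=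
    (measurable_gaussianPDFReal 0 v).comp (measurable_snd.sub measurable_fst)
  have h1 : Integrable (fun z : ℝ × ℝ => F z.1 * F z.2 * gaussianPDFReal 0 v (z.2 - z.1)) :=
    hi2.mul_bdd (c := (√(2 * Real.pi * v))⁻¹) hgm.aestronglyMeasurable
      (Eventually.of_forall fun z => cid_gau_bdd v _)
  refine ⟨h1, ?_⟩
  have hv2 : (v / 2 : ℝ≥0) ≠ 0 := (div_pos hv (by norm_num)).ne'
  have hv4 : (v / 4 : ℝ≥0) ≠ 0 := (div_pos hv (by norm_num)).ne'
  -- the triple integral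
  set Φ : ℝ × ℝ → ℝ → ℝ := fun z u => F z.1 * F z.2 *
    (gaussianPDFReal 0 (v / 2) (z.1 - u) * gaussianPDFReal 0 (v / 2) (z.2 - u)) with hΦ
  have hΦ' : ∀ z u, Φ z u = (F z.1 * F z.2 * gaussianPDFReal 0 v (z.2 - z.1)) *
      gaussianPDFReal ((z.1 + z.2) / 2) (v / 4) u := fun z u => by
    rw [hΦ]
    show F z.1 * F z.2 *
      (gaussianPDFReal 0 (v / 2) (z.1 - u) * gaussianPDFReal 0 (v / 2) (z.2 - u)) = _
    rw [cid_conv hv]
    ring
  have hΦm : Measurable (Function.uncurry Φ) := by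
    have a1 : Measurable fun w : (ℝ × ℝ) × ℝ => F w.1.1 := hF.comp (by fun_prop)
    have a2 : Measurable fun w : (ℝ × ℝ) × ℝ => F w.1.2 := hF.comp (by fun_prop)
    have a3 : Measurable fun w : (ℝ × ℝ) × ℝ => gaussianPDFReal 0 (v / 2) (w.1.1 - w.2) :=
      (measurable_gaussianPDFReal 0 (v / 2)).comp (by fun_prop)
    have a4 : Measurable fun w : (ℝ × ℝ) × ℝ => gaussianPDFReal 0 (v / 2) (w.1.2 - w.2) :=
      (measurable_gaussianPDFReal 0 (v / 2)).comp (by fun_prop)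
    exact (a1.mul a2).mul (a3.mul a4)
  have hin : ∀ z, ∫ u, Φ z u = F z.1 * F z.2 * gaussianPDFReal 0 v (z.2 - z.1) := fun z => by
    simp_rw [hΦ']
    rw [integral_const_mul, integral_gaussianPDFReal_eq_one _ hv4, mul_one]
  have hΦi : Integrable (Function.uncurry Φ) ((volume : Measure (ℝ × ℝ)).prod volume) := by
    rw [integrable_prod_iff hΦm.aestronglyMeasurable]
    refine ⟨Eventually.of_forall fun z => ?_, ?_⟩
    · show Integrable fun u => Φ z u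
      simp_rw [hΦ']
      exact (integrable_gaussianPDFReal _ _).const_mul _
    · refine h1.norm.congr (Eventually.of_forall fun z => ?_)
      show ‖F z.1 * F z.2 * gaussianPDFReal 0 v (z.2 - z.1)‖ = ∫ u, ‖Φ z u‖
      have e1 : ∀ u, ‖Φ z u‖ = ‖F z.1 * F z.2 * gaussianPDFReal 0 v (z.2 - z.1)‖ *
          gaussianPDFReal ((z.1 + z.2) / 2) (v / 4) u := fun u => by
        rw [hΦ', norm_mul]
        congr 1
        rw [Real.norm_eq_abs, abs_of_nonneg (gaussianPDFReal_nonneg _ _ _)]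
      simp_rw [e1]
      rw [integral_const_mul, integral_gaussianPDFReal_eq_one _ hv4, mul_one]
  have h2 : ∫ z : ℝ × ℝ, F z.1 * F z.2 * gaussianPDFReal 0 v (z.2 - z.1) =
      ∫ u, ∫ z, Φ z u := by
    rw [← integral_integral_swap hΦi]
    exact integral_congr_ae (Eventually.of_forall fun z => (hin z).symm)
  rw [h2]
  refine integral_nonneg fun u => ?_
  show 0 ≤ ∫ z, Φ z u
  have h3 : ∫ z : ℝ × ℝ, Φ z u = (∫ x, F x * gaussianPDFReal 0 (v / 2) (x - u)) *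
      ∫ y, F y * gaussianPDFReal 0 (v / 2) (y - u) := by
    rw [← integral_prod_mul, Measure.volume_eq_prod]
    refine integral_congr_ae (Eventually.of_forall fun z => ?_)
    show F z.1 * F z.2 *
      (gaussianPDFReal 0 (v / 2) (z.1 - u) * gaussianPDFReal 0 (v / 2) (z.2 - u)) =
      F z.1 * gaussianPDFReal 0 (v / 2) (z.1 - u) * (F z.2 * gaussianPDFReal 0 (v / 2) (z.2 - u))
    ring
  rw [h3]
  exact mul_self_nonneg _

private theorem cid_sqrt_int (hV : VGood H V) {C : ℝ} {f : ℝ → ℝ} (hf : MB C f) :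
    Integrable fun x => f x * √(nrm V x) := by
  obtain ⟨K, hK, hKb⟩ := hV.nrm_le
  have hp := cid_dens hV
  have h1 : Integrable fun x : ℝ => √K * Real.exp (-(7 / 32) * x ^ 2) :=
    (integrable_exp_neg_mul_sq (by norm_num)).const_mul _
  have h2 : Integrable fun x => √(nrm V x) := by
    refine h1.mono' hp.cont.measurable.sqrt.aestronglyMeasurable
      (Eventually.of_forall fun x => ?_)
    rw [Real.norm_eq_abs, abs_of_nonneg (Real.sqrt_nonneg _)]
    have e1 : Real.exp (-7 * x ^ 2 / 16) = Real.exp (-(7 / 32) * x ^ 2) ^ 2 := by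
      rw [← Real.exp_nat_mul]
      congr 1
      push_cast
      ring
    calc √(nrm V x) ≤ √(K * Real.exp (-7 * x ^ 2 / 16)) := Real.sqrt_le_sqrt (hKb x)
      _ = √K * Real.exp (-(7 / 32) * x ^ 2) := by
        rw [Real.sqrt_mul hK.le, e1, Real.sqrt_sq (Real.exp_pos _).le]
  exact h2.bdd_mul (c := C) hf.meas.aestronglyMeasurable (Eventually.of_forall fun x => hf.bdd x)

/-- the kernel of the symmetrized random walk is nonnegative -/
theorem rw_psd (hV : VGood H V) (hv : 0 < v) {C : ℝ} {f : ℝ → ℝ} (hf : MB C f) :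
    0 ≤ ∫ z, f z.1 * f z.2 ∂(sm (nrm V) (rwq v)) := by
  have hp := cid_dens hV
  have hq := rwq_prop hv
  rw [integral_sm hp hq]
  refine mul_nonneg (inv_nonneg.2 (Zf_pos hp hq).le) ?_
  have h1 := (gau_psd hv (F := fun x => f x * √(nrm V x))
    (hf.meas.mul hp.cont.measurable.sqrt) (cid_sqrt_int hV hf)).2
  refine h1.trans (le_of_eq ?_)
  refine integral_congr_ae (Eventually.of_forall fun z => ?_)
  show f z.1 * √(nrm V z.1) * (f z.2 * √(nrm V z.2)) * gaussianPDFReal 0 v (z.2 - z.1) =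
    f z.1 * f z.2 * sdn (nrm V) (rwq v) z
  rw [sdn_rw hV, Real.sqrt_mul (hp.pos _).le]
  ring

end Pool.Agent.Lib.MP_e19099_pr
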