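import Pool.Agent.Lib.MP_e19099_pr.CRwFcB

/-!
# Random walk proposals satisfy the conditions of module B (module C, C8)
-/

set_option autoImplicit false

open MeasureTheory ProbabilityTheory Filter Set
open scoped NNReal Topology ENNReal

namespace Pool.Agent.Lib.MP_e19099_pr

theorem rw_setup {H l : ℝ} {V : ℝ → ℝ} (hH : 0 < H) (hH1 : H < 1) (hl : 0 < l)
    (hV : VGood H V) :
    BSetup (nrm V) (fun n => rwq (vH l H n)) l (sgR H l) (tauH H) := by
  have hd : Dens (nrm V) := nrm_dens hV.cont hV.exp_int
  have hp : ∀ n, IsProp (rwq (vH l H n)) := fun n => rwq_prop (vH_pos hl H n)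
  refine
    { dens := hd
      prop := hp
      lpos := hl
      σpos := sgR_pos hH hl
      tpos := tauH_pos H
      tlim := tauH_lim hH
      int4 := fun n => (rw_mom hV (vH_pos hl H n)).1
      mom := ⟨3 * l ^ 4, fun n => ?_⟩
      clt := rw_clt hH hH1 hl hV
      rsq := rw_rsq hH hH1 hl hV
      zlim := rw_zlim hH hH1 hl hV
      aux := ⟨fun n => sm (nrm V) (rwq (vH l H n)), fun _ => 0, fun _ => 0, ?_⟩
      fc := fun t ht a => ?_ }
  · rw [(rw_mom hV (vH_pos hl H n)).2, vH_coe]
    exact le_of_eq (by ring)
  · exact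
      { prob := fun n => sm_prob hd (hp n)
        swap := fun n => sm_swap hd (hp n)
        δlim := tendsto_const_nhds
        ηlim := tendsto_const_nhds
        δpos := fun n => ⟨le_rfl, zero_le_one⟩
        close := fun n F _ => by simp
        psd := fun n C f hf => by
          rw [neg_zero, zero_mul]
          exact rw_psd hV (vH_pos hl H n) hf }
  · obtain ⟨C, hC⟩ := rwg_bdd hV ht
    exact ⟨fun _ => rwg V t, C,
      { meas := fun _ => rwg_meas hV ht
        lip := fun _ z => (hC z).1
        bdd := fun _ z => (hC z).2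
        close := rwg_close hH hH1 hl hV ht a
        tail := rwg_tail hH hH1 hl hV ht
        gen := fun ε hε => rwg_gen hH hH1 hl hV ht hε }⟩

end Pool.Agent.Lib.MP_e19099_pr
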