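import Pool.Agent.Lib.MP_e19099_pr.DGood
import Pool.Agent.Lib.MP_e19099_pr.CNrm

/-!
# The rough potential (module C, C2)

`VGood H V`: what we need of `V = b - x²/2`.
`Good.vgood`: `V(x+h) - V(x) = (b(x+h) - b(x)) - (x h + h²/2)`.  `up`: `V x ≤ C + x²/16 - x²/2 = C - 7x²/16`.
`bound`: for `|h| ≤ 1` from `hb.bound` and `∫ e^{-x²/8} (xh + h²/2)² ≤ C h² ≤ C |h|^{2H}` (`H ≤ 1`); for `|h| > 1` from the growth:
`(V(x+h) - V(x))² ≤ C (1 + x⁴ + h⁴)`, so the integral is `≤ C (1 + h⁴) ≤ C |h|^{2H} (1 + |h|⁴)`.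
`lln`: expand the square; cross terms by Cauchy-Schwarz are `O(|h|^{H+1}) = o(|h|^{2H})` (weights `g ≥ 0` and `g ≤ 0` parts: use `|g|`).
-/

set_option autoImplicit false

open MeasureTheory ProbabilityTheory Filter Set
open scoped NNReal Topology ENNReal

namespace Pool.Agent.Lib.MP_e19099_pr

structure VGood (H : ℝ) (V : ℝ → ℝ) : Prop where
  cont : Continuous V
  up : ∃ C : ℝ, ∀ x, V x ≤ C - 7 * x ^ 2 / 16
  abs : ∃ C : ℝ, ∀ x, |V x| ≤ C * (1 + x ^ 2)
  bint : ∀ h : ℝ, Integrable fun x => Real.exp (-x ^ 2 / 8) * (V (x + h) - V x) ^ 2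
  bound : ∃ C : ℝ, ∀ h : ℝ, ∫ x, Real.exp (-x ^ 2 / 8) * (V (x + h) - V x) ^ 2
    ≤ C * |h| ^ (2 * H) * (1 + |h| ^ 4)
  lln : ∀ g : ℝ → ℝ, Continuous g → HasCompactSupport g →
    Tendsto (fun h : ℝ => |h| ^ (-(2 * H)) * ∫ x, g x * (V (x + h) - V x) ^ 2) (𝓝[≠] 0)
      (𝓝 (∫ x, g x))

private theorem cv_gauss : Integrable fun x : ℝ => Real.exp (-x ^ 2 / 16) := by
  have h := integrable_exp_neg_mul_sq (b := 1 / 16) (by norm_num)
  refine h.congr (Eventually.of_forall fun x => ?_)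
  simp only
  congr 1
  ring

private theorem cv_pt {f : ℝ → ℝ} {A B : ℝ} (hA : 0 ≤ A) (hB : 0 ≤ B)
    (hf : ∀ x, |f x| ≤ A + B * x ^ 2) (x : ℝ) :
    Real.exp (-x ^ 2 / 8) * f x ^ 2 ≤ 2 * (A + 16 * B) ^ 2 * Real.exp (-x ^ 2 / 16) := by
  have hu : (0 : ℝ) ≤ x ^ 2 / 16 := by positivity
  have h1 := Real.quadratic_le_exp_of_nonneg hu
  have h2 : (1 + x ^ 2 / 16) ^ 2 ≤ 2 * Real.exp (x ^ 2 / 16) := by nlinarith
  have h3 : f x ^ 2 ≤ ((A + 16 * B) * (1 + x ^ 2 / 16)) ^ 2 := by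
    rw [← sq_abs (f x)]
    refine pow_le_pow_left₀ (abs_nonneg _) ((hf x).trans ?_) 2
    nlinarith [mul_nonneg hA hu]
  have h4 : f x ^ 2 ≤ 2 * (A + 16 * B) ^ 2 * Real.exp (x ^ 2 / 16) := by
    refine h3.trans ?_
    rw [mul_pow]
    have := mul_le_mul_of_nonneg_left h2 (sq_nonneg (A + 16 * B))
    linarith
  have h5 : Real.exp (-x ^ 2 / 8) * Real.exp (x ^ 2 / 16) = Real.exp (-x ^ 2 / 16) := by
    rw [← Real.exp_add]
    congr 1
    ring
  calc Real.exp (-x ^ 2 / 8) * f x ^ 2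
      ≤ Real.exp (-x ^ 2 / 8) * (2 * (A + 16 * B) ^ 2 * Real.exp (x ^ 2 / 16)) :=
        mul_le_mul_of_nonneg_left h4 (Real.exp_pos _).le
    _ = 2 * (A + 16 * B) ^ 2 * (Real.exp (-x ^ 2 / 8) * Real.exp (x ^ 2 / 16)) := by ring
    _ = _ := by rw [h5]

private theorem cv_int {f : ℝ → ℝ} (hc : Continuous f) {A B : ℝ} (hA : 0 ≤ A) (hB : 0 ≤ B)
    (hf : ∀ x, |f x| ≤ A + B * x ^ 2) :
    Integrable (fun x => Real.exp (-x ^ 2 / 8) * f x ^ 2) ∧
      ∫ x, Real.exp (-x ^ 2 / 8) * f x ^ 2 ≤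
        2 * (A + 16 * B) ^ 2 * ∫ x : ℝ, Real.exp (-x ^ 2 / 16) := by
  have hi : Integrable (fun x => Real.exp (-x ^ 2 / 8) * f x ^ 2) := by
    refine Integrable.mono' (cv_gauss.const_mul (2 * (A + 16 * B) ^ 2))
      (by fun_prop) (Eventually.of_forall fun x => ?_)
    rw [Real.norm_of_nonneg (by positivity)]
    exact cv_pt hA hB hf x
  refine ⟨hi, ?_⟩
  rw [← integral_const_mul]
  exact integral_mono hi (cv_gauss.const_mul _) fun x => cv_pt hA hB hf x

theorem Good.vgood {H : ℝ} (hH : 0 < H) (hH1 : H < 1) {b : ℝ → ℝ} (hb : Good H b) :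
    VGood H fun x => b x - x ^ 2 / 2 := by
  obtain ⟨C, hC⟩ := hb.growth
  have hC0 : 0 ≤ C := by
    have := (abs_nonneg _).trans (hC 0)
    simpa using this
  set J : ℝ := ∫ x : ℝ, Real.exp (-x ^ 2 / 16) with hJ
  have hJ0 : 0 ≤ J := integral_nonneg fun x => (Real.exp_pos _).le
  have hcb := hb.cont
  have hVc : Continuous fun x => b x - x ^ 2 / 2 := by fun_prop
  -- the quadratic part
  have hq : ∀ h : ℝ, |h| ≤ 1 → ∀ x, |x * h + h ^ 2 / 2| ≤ |h| * (1 + x ^ 2) := by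
    intro h hh x
    have e : x * h + h ^ 2 / 2 = h * (x + h / 2) := by ring
    rw [e, abs_mul]
    refine mul_le_mul_of_nonneg_left ?_ (abs_nonneg _)
    rw [abs_le] at hh ⊢
    constructor
    · nlinarith [sq_nonneg (x + 1 / 2)]
    · nlinarith [sq_nonneg (x - 1 / 2)]
  have hqi : ∀ h : ℝ, |h| ≤ 1 →
      Integrable (fun x => Real.exp (-x ^ 2 / 8) * (x * h + h ^ 2 / 2) ^ 2) ∧
      ∫ x, Real.exp (-x ^ 2 / 8) * (x * h + h ^ 2 / 2) ^ 2 ≤ 578 * J * h ^ 2 := by
    intro h hh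
    have h1 := cv_int (f := fun x => x * h + h ^ 2 / 2) (by fun_prop) (A := |h|) (B := |h|)
      (abs_nonneg _) (abs_nonneg _) (fun x => (hq h hh x).trans (le_of_eq (by ring)))
    refine ⟨h1.1, h1.2.trans (le_of_eq ?_)⟩
    rw [← sq_abs h]
    ring
  -- the increments of `b`
  have hbi : ∀ h : ℝ, Integrable (fun x => Real.exp (-x ^ 2 / 8) * (b (x + h) - b x) ^ 2) := by
    intro h
    refine (cv_int (f := fun x => b (x + h) - b x) (by fun_prop) (A := 2 * C + h ^ 2 / 8)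
      (B := 3 / 16) (by positivity) (by norm_num) fun x => ?_).1
    have h1 := hC (x + h)
    have h2 := hC x
    refine (abs_sub _ _).trans ?_
    nlinarith [sq_nonneg (x - h)]
  have habs : ∀ x, |b x - x ^ 2 / 2| ≤ (C + 1) * (1 + x ^ 2) := by
    intro x
    refine (abs_sub _ _).trans ?_
    rw [abs_of_nonneg (by positivity : (0 : ℝ) ≤ x ^ 2 / 2)]
    nlinarith [hC x, mul_nonneg hC0 (sq_nonneg x), sq_nonneg x]
  have hVabs : ∀ h x : ℝ, |(b (x + h) - (x + h) ^ 2 / 2) - (b x - x ^ 2 / 2)| ≤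
      (C + 1) * (2 + 2 * h ^ 2) + 3 * (C + 1) * x ^ 2 := by
    intro h x
    refine (abs_sub _ _).trans ?_
    have h1 := habs (x + h)
    have h2 := habs x
    have h3 : (x + h) ^ 2 ≤ 2 * x ^ 2 + 2 * h ^ 2 := by nlinarith [sq_nonneg (x - h)]
    have h4 : (C + 1) * (x + h) ^ 2 ≤ (C + 1) * (2 * x ^ 2 + 2 * h ^ 2) :=
      mul_le_mul_of_nonneg_left h3 (by positivity)
    nlinarith
  have hVi : ∀ h : ℝ, Integrable (fun x => Real.exp (-x ^ 2 / 8) *
        ((b (x + h) - (x + h) ^ 2 / 2) - (b x - x ^ 2 / 2)) ^ 2) ∧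
      ∫ x, Real.exp (-x ^ 2 / 8) * ((b (x + h) - (x + h) ^ 2 / 2) - (b x - x ^ 2 / 2)) ^ 2 ≤
        2 * ((C + 1) * (2 + 2 * h ^ 2) + 16 * (3 * (C + 1))) ^ 2 * J := fun h =>
    cv_int (f := fun x => (b (x + h) - (x + h) ^ 2 / 2) - (b x - x ^ 2 / 2)) (by fun_prop)
      (by positivity) (by positivity) (hVabs h)
  have hVe : ∀ h x : ℝ, (b (x + h) - (x + h) ^ 2 / 2) - (b x - x ^ 2 / 2) =
      (b (x + h) - b x) - (x * h + h ^ 2 / 2) := fun h x => by ring
  refine
    { cont := hVc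
      up := ⟨C, fun x => ?_⟩
      abs := ⟨C + 1, habs⟩
      bint := fun h => (hVi h).1
      bound := ?_
      lln := ?_ }
  · have := (abs_le.1 (hC x)).2
    linarith
  · -- the bound
    obtain ⟨D, hD⟩ := hb.bound
    have hD0 : 0 ≤ D := by
      have h1 := hD 1 (by simp)
      have h2 : (0 : ℝ) ≤ ∫ x, Real.exp (-x ^ 2 / 8) * (b (x + 1) - b x) ^ 2 :=
        integral_nonneg fun x => by positivity
      simp only [abs_one, Real.one_rpow, mul_one] at h1
      linarith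
    refine ⟨2 * D + 1156 * J + 5000 * (C + 1) ^ 2 * J, fun h => ?_⟩
    show ∫ x, Real.exp (-x ^ 2 / 8) *
      ((b (x + h) - (x + h) ^ 2 / 2) - (b x - x ^ 2 / 2)) ^ 2 ≤ _
    have hK0 : 0 ≤ 2 * D + 1156 * J + 5000 * (C + 1) ^ 2 * J := by positivity
    rcases le_or_gt |h| 1 with hh | hh
    · have h1 : ∫ x, Real.exp (-x ^ 2 / 8) *
          ((b (x + h) - (x + h) ^ 2 / 2) - (b x - x ^ 2 / 2)) ^ 2 ≤
          2 * (∫ x, Real.exp (-x ^ 2 / 8) * (b (x + h) - b x) ^ 2) +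
          2 * ∫ x, Real.exp (-x ^ 2 / 8) * (x * h + h ^ 2 / 2) ^ 2 := by
        rw [← integral_const_mul, ← integral_const_mul,
          ← integral_add ((hbi h).const_mul 2) ((hqi h hh).1.const_mul 2)]
        refine integral_mono (hVi h).1 (((hbi h).const_mul 2).add ((hqi h hh).1.const_mul 2))
          fun x => ?_
        simp only
        rw [hVe h x]
        have h2 : ((b (x + h) - b x) - (x * h + h ^ 2 / 2)) ^ 2 ≤
            2 * (b (x + h) - b x) ^ 2 + 2 * (x * h + h ^ 2 / 2) ^ 2 := by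
          nlinarith [sq_nonneg ((b (x + h) - b x) + (x * h + h ^ 2 / 2))]
        have h3 := mul_le_mul_of_nonneg_left h2 (Real.exp_pos (-x ^ 2 / 8)).le
        linarith
      have h2 := hD h hh
      have h3 := (hqi h hh).2
      have h4 : h ^ 2 ≤ |h| ^ (2 * H) := by
        rw [← sq_abs h, ← Real.rpow_two]
        exact Real.rpow_le_rpow_of_exponent_ge' (abs_nonneg _) hh (by positivity) (by linarith)
      have h5 : (0 : ℝ) ≤ |h| ^ (2 * H) := Real.rpow_nonneg (abs_nonneg _) _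
      have h6 : (0 : ℝ) ≤ |h| ^ 4 := by positivity
      calc ∫ x, Real.exp (-x ^ 2 / 8) *
          ((b (x + h) - (x + h) ^ 2 / 2) - (b x - x ^ 2 / 2)) ^ 2
          ≤ 2 * (D * |h| ^ (2 * H)) + 2 * (578 * J * |h| ^ (2 * H)) := by
            have h7 : 578 * J * h ^ 2 ≤ 578 * J * |h| ^ (2 * H) :=
              mul_le_mul_of_nonneg_left h4 (by positivity)
            linarith
        _ = (2 * D + 1156 * J) * |h| ^ (2 * H) * 1 := by ring
        _ ≤ (2 * D + 1156 * J + 5000 * (C + 1) ^ 2 * J) * |h| ^ (2 * H) * (1 + |h| ^ 4) := by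
            refine mul_le_mul (mul_le_mul_of_nonneg_right ?_ h5) (by linarith) zero_le_one
              (mul_nonneg hK0 h5)
            have : 0 ≤ 5000 * (C + 1) ^ 2 * J := by positivity
            linarith
    · have h1 := (hVi h).2
      have h2 : (1 : ℝ) ≤ |h| ^ (2 * H) := Real.one_le_rpow hh.le (by positivity)
      have h3 : (h ^ 2) ^ 2 = |h| ^ 4 := by
        rw [← sq_abs h]
        ring
      have h4 : 2 * ((C + 1) * (2 + 2 * h ^ 2) + 16 * (3 * (C + 1))) ^ 2 * J ≤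
          5000 * (C + 1) ^ 2 * J * (1 + |h| ^ 4) := by
        have e : 2 * ((C + 1) * (2 + 2 * h ^ 2) + 16 * (3 * (C + 1))) ^ 2 * J =
            (C + 1) ^ 2 * J * (2 * (50 + 2 * h ^ 2) ^ 2) := by ring
        rw [e]
        have h5 : 2 * (50 + 2 * h ^ 2) ^ 2 ≤ 5000 * (1 + |h| ^ 4) + 400 * h ^ 2 := by
          rw [← h3]
          nlinarith [sq_nonneg (h ^ 2)]
        have hh1 : 1 ≤ h ^ 2 := by
          rw [← sq_abs h]
          nlinarith
        have h6 : 2 * (50 + 2 * h ^ 2) ^ 2 ≤ 5000 * (1 + |h| ^ 4) := by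
          rw [← h3]
          nlinarith [sq_nonneg (h ^ 2 - 1)]
        have h7 := mul_le_mul_of_nonneg_left h6
          (by positivity : (0 : ℝ) ≤ (C + 1) ^ 2 * J)
        linarith
      have h5 : 5000 * (C + 1) ^ 2 * J * (1 + |h| ^ 4) ≤
          (2 * D + 1156 * J + 5000 * (C + 1) ^ 2 * J) * |h| ^ (2 * H) * (1 + |h| ^ 4) := by
        refine mul_le_mul_of_nonneg_right ?_ (by positivity)
        have h6 : (2 * D + 1156 * J + 5000 * (C + 1) ^ 2 * J) * 1 ≤
            (2 * D + 1156 * J + 5000 * (C + 1) ^ 2 * J) * |h| ^ (2 * H) :=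
          mul_le_mul_of_nonneg_left h2 hK0
        have : 0 ≤ 2 * D + 1156 * J := by positivity
        linarith
      exact h1.trans (h4.trans h5)
  · -- the law of large numbers
    intro g hg hgs
    obtain ⟨D, hD⟩ := hb.bound
    -- `|g| ≤ K e^{-x²/8}`
    obtain ⟨K, hK⟩ : ∃ K, ∀ x, |g x| ≤ K * Real.exp (-x ^ 2 / 8) := by
      have hc : Continuous fun x => g x * Real.exp (x ^ 2 / 8) := by fun_prop
      obtain ⟨K, hK⟩ := hc.bounded_above_of_compact_support (hgs.mul_right)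
      refine ⟨K, fun x => ?_⟩
      have h1 := hK x
      rw [norm_mul, Real.norm_eq_abs, Real.norm_of_nonneg (Real.exp_pos _).le] at h1
      have h2 : |g x| = |g x| * Real.exp (x ^ 2 / 8) * Real.exp (-x ^ 2 / 8) := by
        rw [mul_assoc, ← Real.exp_add]
        have : x ^ 2 / 8 + -x ^ 2 / 8 = 0 := by ring
        rw [this, Real.exp_zero, mul_one]
      rw [h2]
      exact mul_le_mul_of_nonneg_right h1 (Real.exp_pos _).le
    have hK0 : 0 ≤ K := by
      have := (abs_nonneg _).trans (hK 0)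
      simpa using this
    have hl := hb.lln g hg hgs
    have hgi : ∀ {f : ℝ → ℝ}, Continuous f → Integrable fun x => g x * f x := by
      intro f hf
      exact (hg.mul hf).integrable_of_hasCompactSupport (hgs.mul_right)
    -- the difference
    have hdiff : ∀ h : ℝ, h ≠ 0 → |h| ≤ 1 →
        |(∫ x, g x * ((b (x + h) - (x + h) ^ 2 / 2) - (b x - x ^ 2 / 2)) ^ 2) -
          ∫ x, g x * (b (x + h) - b x) ^ 2| ≤
        K * (|h| ^ (1 - H) * (D * |h| ^ (2 * H)) +
          (|h| ^ (-(1 - H)) + 1) * (578 * J * h ^ 2)) := by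
      intro h h0 hh
      have hp : 0 < |h| := abs_pos.2 h0
      set t : ℝ := |h| ^ (1 - H) with ht
      have ht0 : 0 < t := Real.rpow_pos_of_pos hp _
      have hti : |h| ^ (-(1 - H)) = t⁻¹ := by rw [Real.rpow_neg hp.le]
      rw [hti]
      have i1 : Integrable fun x =>
          g x * ((b (x + h) - (x + h) ^ 2 / 2) - (b x - x ^ 2 / 2)) ^ 2 := hgi (by fun_prop)
      have i2 : Integrable fun x => g x * (b (x + h) - b x) ^ 2 := hgi (by fun_prop)
      rw [← integral_sub i1 i2]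
      have j1 := (hbi h).const_mul t
      have j2 := (hqi h hh).1.const_mul (t⁻¹ + 1)
      have h1 : |∫ x, (g x * ((b (x + h) - (x + h) ^ 2 / 2) - (b x - x ^ 2 / 2)) ^ 2 -
          g x * (b (x + h) - b x) ^ 2)| ≤
          ∫ x, K * (t * (Real.exp (-x ^ 2 / 8) * (b (x + h) - b x) ^ 2) +
            (t⁻¹ + 1) * (Real.exp (-x ^ 2 / 8) * (x * h + h ^ 2 / 2) ^ 2)) := by
        rw [← Real.norm_eq_abs]
        refine norm_integral_le_of_norm_le ((j1.add j2).const_mul K)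
          (Eventually.of_forall fun x => ?_)
        rw [hVe h x, ← mul_sub, norm_mul, Real.norm_eq_abs, Real.norm_eq_abs]
        set u := b (x + h) - b x with hu
        set v := x * h + h ^ 2 / 2 with hv
        have h2 : |(u - v) ^ 2 - u ^ 2| ≤ t * u ^ 2 + (t⁻¹ + 1) * v ^ 2 := by
          have h3 : 2 * (|u| * |v|) ≤ t * u ^ 2 + t⁻¹ * v ^ 2 := by
            have h4 : 0 ≤ t⁻¹ * (t * |u| - |v|) ^ 2 := by positivity
            have h5 : t⁻¹ * (t * |u| - |v|) ^ 2 =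
                t * |u| ^ 2 - 2 * (|u| * |v|) + t⁻¹ * |v| ^ 2 := by
              field_simp
              ring
            rw [sq_abs, sq_abs] at h5
            linarith
          have h6 : (u - v) ^ 2 - u ^ 2 = -(2 * (u * v)) + v ^ 2 := by ring
          rw [h6]
          refine (abs_add_le _ _).trans ?_
          rw [abs_neg, abs_mul, abs_mul, abs_two, abs_of_nonneg (sq_nonneg v)]
          linarith
        have h7 : 0 ≤ t * u ^ 2 + (t⁻¹ + 1) * v ^ 2 := by positivity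
        calc |g x| * |(u - v) ^ 2 - u ^ 2|
            ≤ (K * Real.exp (-x ^ 2 / 8)) * (t * u ^ 2 + (t⁻¹ + 1) * v ^ 2) :=
              mul_le_mul (hK x) h2 (abs_nonneg _) (by positivity)
          _ = K * (t * (Real.exp (-x ^ 2 / 8) * u ^ 2) +
            (t⁻¹ + 1) * (Real.exp (-x ^ 2 / 8) * v ^ 2)) := by ring
      refine h1.trans ?_
      rw [integral_const_mul, integral_add j1 j2, integral_const_mul, integral_const_mul]
      refine mul_le_mul_of_nonneg_left ?_ hK0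
      exact add_le_add (mul_le_mul_of_nonneg_left (hD h hh) ht0.le)
        (mul_le_mul_of_nonneg_left (hqi h hh).2 (by positivity))
    -- the limit of the error
    have hpow : ∀ r : ℝ, 0 < r → Tendsto (fun h : ℝ => |h| ^ r) (𝓝[≠] 0) (𝓝 0) := by
      intro r hr
      have h1 : Tendsto (fun h : ℝ => |h| ^ r) (𝓝 0) (𝓝 (|(0 : ℝ)| ^ r)) :=
        ((continuous_abs.rpow_const fun _ => Or.inr hr.le).tendsto 0)
      rw [abs_zero, Real.zero_rpow hr.ne'] at h1
      exact h1.mono_left nhdsWithin_le_nhds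
    have herr : Tendsto (fun h : ℝ => K * (D * |h| ^ (1 - H) + 578 * J * |h| ^ (1 - H) +
        578 * J * |h| ^ (2 - 2 * H))) (𝓝[≠] 0) (𝓝 0) := by
      have h1 := (((hpow (1 - H) (by linarith)).const_mul D).add
        ((hpow (1 - H) (by linarith)).const_mul (578 * J))).add
        ((hpow (2 - 2 * H) (by linarith)).const_mul (578 * J))
      have h2 := h1.const_mul K
      simpa using h2
    have hsmall : ∀ᶠ h : ℝ in 𝓝[≠] 0, |h| ≤ 1 := by
      have h1 : ∀ᶠ h : ℝ in 𝓝 (0 : ℝ), |h| < 1 := by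
        have := (continuous_abs : Continuous fun x : ℝ => |x|).tendsto 0
        rw [abs_zero] at this
        exact (tendsto_order.1 this).2 1 one_pos
      exact (h1.filter_mono nhdsWithin_le_nhds).mono fun h hh => hh.le
    have hz : Tendsto (fun h : ℝ => |h| ^ (-(2 * H)) *
        (∫ x, g x * ((b (x + h) - (x + h) ^ 2 / 2) - (b x - x ^ 2 / 2)) ^ 2) -
        |h| ^ (-(2 * H)) * ∫ x, g x * (b (x + h) - b x) ^ 2) (𝓝[≠] 0) (𝓝 0) := by
      refine squeeze_zero_norm' ?_ herr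
      filter_upwards [hsmall, self_mem_nhdsWithin] with h hh h0
      have h0' : h ≠ 0 := h0
      have hp : 0 < |h| := abs_pos.2 h0'
      have hpp : 0 < |h| ^ (-(2 * H)) := Real.rpow_pos_of_pos hp _
      rw [← mul_sub, Real.norm_eq_abs, abs_mul, abs_of_pos hpp]
      have h1 := mul_le_mul_of_nonneg_left (hdiff h h0' hh) hpp.le
      refine h1.trans (le_of_eq ?_)
      have e1 : |h| ^ (-(2 * H)) * |h| ^ (2 * H) = 1 := by
        rw [← Real.rpow_add hp]
        simp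
      have e2 : h ^ 2 = |h| ^ (2 : ℝ) := by
        rw [Real.rpow_two, sq_abs]
      have e3 : |h| ^ (-(2 * H)) * |h| ^ (-(1 - H)) * |h| ^ (2 : ℝ) = |h| ^ (1 - H) := by
        rw [← Real.rpow_add hp, ← Real.rpow_add hp]
        congr 1
        ring
      have e4 : |h| ^ (-(2 * H)) * |h| ^ (2 : ℝ) = |h| ^ (2 - 2 * H) := by
        rw [← Real.rpow_add hp]
        congr 1
        ring
      rw [e2]
      calc |h| ^ (-(2 * H)) * (K * (|h| ^ (1 - H) * (D * |h| ^ (2 * H)) +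
            (|h| ^ (-(1 - H)) + 1) * (578 * J * |h| ^ (2 : ℝ))))
          = K * (D * |h| ^ (1 - H) * (|h| ^ (-(2 * H)) * |h| ^ (2 * H)) +
            578 * J * (|h| ^ (-(2 * H)) * |h| ^ (-(1 - H)) * |h| ^ (2 : ℝ)) +
            578 * J * (|h| ^ (-(2 * H)) * |h| ^ (2 : ℝ))) := by ring
        _ = _ := by rw [e1, e3, e4, mul_one]
    have hfin := hz.add hl
    rw [zero_add] at hfin
    refine hfin.congr fun h => ?_
    ring

theorem VGood.exp_int {H : ℝ} {V : ℝ → ℝ} (hV : VGood H V) :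
    Integrable fun x => Real.exp (V x) := by
  obtain ⟨C, hC⟩ := hV.up
  have h := (integrable_exp_neg_mul_sq (b := 7 / 16) (by norm_num)).const_mul (Real.exp C)
  refine Integrable.mono' h (Real.continuous_exp.comp hV.cont).aestronglyMeasurable
    (Eventually.of_forall fun x => ?_)
  rw [Real.norm_of_nonneg (Real.exp_pos _).le, ← Real.exp_add]
  apply Real.exp_le_exp.2
  have := hC x
  linarith

/-- `nrm V x ≤ C e^{-7x²/16}` -/
theorem VGood.nrm_le {H : ℝ} {V : ℝ → ℝ} (hV : VGood H V) :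
    ∃ C : ℝ, 0 < C ∧ ∀ x, nrm V x ≤ C * Real.exp (-7 * x ^ 2 / 16) := by
  obtain ⟨C, hC⟩ := hV.up
  have hZ : 0 < ∫ y, Real.exp (V y) := integral_exp_pos hV.exp_int
  refine ⟨Real.exp C / ∫ y, Real.exp (V y), by positivity, fun x => ?_⟩
  unfold nrm
  rw [div_mul_eq_mul_div]
  refine div_le_div_of_nonneg_right ?_ hZ.le
  rw [← Real.exp_add]
  apply Real.exp_le_exp.2
  have := hC x
  linarith

end Pool.Agent.Lib.MP_e19099_pr
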