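import Pool.Agent.Lib.MP_e19099_pr.Energy

/-!
# Laws of the stationary chain (task A13)

`IsChain.prob`: `P.map (X 0) = Pi` is a probability measure.
`IsChain.pair`: for a function `G` of the history `(X 0, …, X k)`:
`E G(h) F(X_k, X_{k+1}) = E G(h) ∫ F(X_k, y) K(X_k, dy)`: apply `step` and `integral_compProd`
(`Measure.integral_compProd`), with `Kernel.comap_apply`.
`IsChain.edge`: push `step` forward by `(h, y) ↦ (h last, y)`, with `P.map (X k) = Pi` (induction using `edge_snd`).
`IsChain.shift`: push `step` at time `k + j` forward along the last `j + 1` coordinates of the history; initial law `Pi` by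
`law`.
-/

set_option autoImplicit false

open MeasureTheory ProbabilityTheory Filter Set
open scoped NNReal Topology ENNReal

namespace Pool.Agent.Lib.MP_e19099_pr

private theorem map_comap_compProd {α β γ : Type*} [MeasurableSpace α] [MeasurableSpace β]
    [MeasurableSpace γ] (μ : Measure α) [SFinite μ] {f : α → β} (hf : Measurable f)
    (K : Kernel β γ) [IsSFiniteKernel K] :
    (μ ⊗ₘ K.comap f hf).map (Prod.map f id) = μ.map f ⊗ₘ K := by
  have hm : Measurable (Prod.map f (id : γ → γ)) := hf.prodMap measurable_id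
  ext s hs
  rw [Measure.map_apply hm hs, Measure.compProd_apply (hm hs), Measure.compProd_apply hs,
    lintegral_map (Kernel.measurable_kernel_prodMk_left hs) hf]
  rfl

variable {Ω E : Type*} [MeasurableSpace Ω] [MeasurableSpace E] {P : Measure Ω} {X : ℕ → Ω → E}
  {Pi : Measure E} {K : Kernel E E}

theorem IsChain.prob (hX : IsChain P X Pi K) (hR : Rev Pi K) : IsProbabilityMeasure P := by
  haveI := hR.prob
  constructor
  have h := congrArg (fun μ : Measure E => μ univ) hX.init
  simp only [Measure.map_apply (hX.meas 0) MeasurableSet.univ, preimage_univ, measure_univ] at h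
  exact h

private theorem hist_meas (hX : IsChain P X Pi K) (k : ℕ) :
    Measurable (fun ω (i : Fin (k + 1)) => X i ω) :=
  measurable_pi_iff.2 fun i => hX.meas i

/-- one step Markov property, integrable version -/
private theorem pair_int_aux (hX : IsChain P X Pi K) (hR : Rev Pi K) {k : ℕ}
    {G : (Fin (k + 1) → E) → ℝ} (hG : Measurable G) {F : E × E → ℝ} (hF : Measurable F)
    (hi : Integrable (fun ω => G (fun i => X i ω) * F (X k ω, X (k + 1) ω)) P) :
    ∫ ω, G (fun i => X i ω) * F (X k ω, X (k + 1) ω) ∂P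
      = ∫ ω, G (fun i => X i ω) * ∫ y, F (X k ω, y) ∂(K (X k ω)) ∂P := by
  haveI := hX.prob hR
  haveI := hR.markov
  have hH := hist_meas hX k
  have hpm : Measurable (fun ω => ((fun i : Fin (k + 1) => X i ω), X (k + 1) ω)) :=
    hH.prodMk (hX.meas (k + 1))
  set Ψ : (Fin (k + 1) → E) × E → ℝ := fun p => G p.1 * F (p.1 (Fin.last k), p.2) with hΨ
  have hlast : Measurable (fun h : Fin (k + 1) → E => h (Fin.last k)) := measurable_pi_apply _
  have hΨm : Measurable Ψ :=
    (hG.comp measurable_fst).mul (hF.comp ((hlast.comp measurable_fst).prodMk measurable_snd))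
  haveI : IsProbabilityMeasure (P.map fun ω (i : Fin (k + 1)) => X i ω) :=
    Measure.isProbabilityMeasure_map hH.aemeasurable
  have e1 : ∫ ω, G (fun i => X i ω) * F (X k ω, X (k + 1) ω) ∂P
      = ∫ p, Ψ p ∂(P.map (fun ω => ((fun i : Fin (k + 1) => X i ω), X (k + 1) ω))) := by
    rw [integral_map hpm.aemeasurable hΨm.aestronglyMeasurable]
    rfl
  have hint : Integrable Ψ (P.map (fun ω => ((fun i : Fin (k + 1) => X i ω), X (k + 1) ω))) := by
    rw [integrable_map_measure hΨm.aestronglyMeasurable hpm.aemeasurable]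
    exact hi
  rw [e1]
  rw [hX.step k] at hint ⊢
  rw [Measure.integral_compProd hint]
  have e2 : ∀ h : Fin (k + 1) → E,
      ∫ y, Ψ (h, y) ∂((K.comap (fun h : Fin (k + 1) → E => h (Fin.last k)) hlast) h)
        = G h * ∫ y, F (h (Fin.last k), y) ∂(K (h (Fin.last k))) := by
    intro h
    rw [Kernel.comap_apply, hΨ]
    exact integral_const_mul (G h) (fun y => F (h (Fin.last k), y))
  rw [integral_congr_ae (Eventually.of_forall e2)]
  have hm2 : Measurable (fun h : Fin (k + 1) → E =>
      G h * ∫ y, F (h (Fin.last k), y) ∂(K (h (Fin.last k)))) := by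
    refine hG.mul ?_
    have h3 : StronglyMeasurable (fun x : E => ∫ y, F (x, y) ∂(K x)) :=
      (hF.stronglyMeasurable).integral_kernel_prod_right'
    exact h3.measurable.comp hlast
  rw [integral_map hH.aemeasurable hm2.aestronglyMeasurable]
  rfl

/-- one step Markov property, bounded version -/
theorem IsChain.pair (hX : IsChain P X Pi K) (hR : Rev Pi K) {k : ℕ} {C C' : ℝ}
    {G : (Fin (k + 1) → E) → ℝ} (hG : MB C G) {F : E × E → ℝ} (hF : MB C' F) :
    ∫ ω, G (fun i => X i ω) * F (X k ω, X (k + 1) ω) ∂P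
      = ∫ ω, G (fun i => X i ω) * ∫ y, F (X k ω, y) ∂(K (X k ω)) ∂P := by
  haveI := hX.prob hR
  refine pair_int_aux hX hR hG.meas hF.meas ?_
  refine Integrable.of_bound (C := C * C') ?_ (Eventually.of_forall fun ω => ?_)
  · exact ((hG.meas.comp (hist_meas hX k)).mul
      (hF.meas.comp ((hX.meas k).prodMk (hX.meas (k + 1))))).aestronglyMeasurable
  · rw [norm_mul]
    exact mul_le_mul (hG.bdd _) (hF.bdd _) (norm_nonneg _) (hG.nonneg fun i => X i ω)

/-- one step Markov property, integrable version -/
theorem IsChain.pair_int (hX : IsChain P X Pi K) (hR : Rev Pi K) {k : ℕ}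
    {G : (Fin (k + 1) → E) → ℝ} (hG : Measurable G) {F : E × E → ℝ} (hF : Measurable F)
    (hi : Integrable (fun ω => G (fun i => X i ω) * F (X k ω, X (k + 1) ω)) P) :
    ∫ ω, G (fun i => X i ω) * F (X k ω, X (k + 1) ω) ∂P
      = ∫ ω, G (fun i => X i ω) * ∫ y, F (X k ω, y) ∂(K (X k ω)) ∂P :=
  pair_int_aux hX hR hG hF hi

private theorem edge_of_law (hX : IsChain P X Pi K) (hR : Rev Pi K) (k : ℕ)
    (hk : P.map (X k) = Pi) : P.map (fun ω => (X k ω, X (k + 1) ω)) = Pi ⊗ₘ K := by
  haveI := hX.prob hR
  haveI := hR.markov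
  have hH := hist_meas hX k
  have hlast : Measurable (fun h : Fin (k + 1) → E => h (Fin.last k)) := measurable_pi_apply _
  haveI : IsProbabilityMeasure (P.map fun ω (i : Fin (k + 1)) => X i ω) :=
    Measure.isProbabilityMeasure_map hH.aemeasurable
  have hpm : Measurable (fun ω => ((fun i : Fin (k + 1) => X i ω), X (k + 1) ω)) :=
    hH.prodMk (hX.meas (k + 1))
  have hm : Measurable (Prod.map (fun h : Fin (k + 1) → E => h (Fin.last k)) (id : E → E)) :=
    hlast.prodMap measurable_id
  have h1 : P.map (fun ω => (X k ω, X (k + 1) ω))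
      = (P.map (fun ω => ((fun i : Fin (k + 1) => X i ω), X (k + 1) ω))).map
          (Prod.map (fun h : Fin (k + 1) → E => h (Fin.last k)) (id : E → E)) := by
    rw [Measure.map_map hm hpm]
    rfl
  rw [h1, hX.step k, map_comap_compProd, Measure.map_map hlast hH]
  have h2 : ((fun h : Fin (k + 1) → E => h (Fin.last k)) ∘ fun ω (i : Fin (k + 1)) => X i ω)
      = X k := by
    funext ω
    simp
  rw [h2, hk]

theorem IsChain.law (hX : IsChain P X Pi K) (hR : Rev Pi K) (k : ℕ) : P.map (X k) = Pi := by
  induction k with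
  | zero => exact hX.init
  | succ k ih =>
    have h := edge_of_law hX hR k ih
    have h2 := congrArg (fun μ : Measure (E × E) => μ.map Prod.snd) h
    simp only [hR.edge_snd] at h2
    rw [Measure.map_map measurable_snd ((hX.meas k).prodMk (hX.meas (k + 1)))] at h2
    exact h2

theorem IsChain.edge (hX : IsChain P X Pi K) (hR : Rev Pi K) (k : ℕ) :
    P.map (fun ω => (X k ω, X (k + 1) ω)) = Pi ⊗ₘ K :=
  edge_of_law hX hR k (hX.law hR k)

theorem IsChain.shift (hX : IsChain P X Pi K) (hR : Rev Pi K) (k : ℕ) :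
    IsChain P (fun j => X (k + j)) Pi K := by
  haveI := hX.prob hR
  haveI := hR.markov
  refine ⟨fun j => hX.meas (k + j), hX.law hR k, fun j => ?_⟩
  have hH := hist_meas hX (k + j)
  haveI : IsProbabilityMeasure (P.map fun ω (i : Fin (k + j + 1)) => X i ω) :=
    Measure.isProbabilityMeasure_map hH.aemeasurable
  have hpm : Measurable (fun ω => ((fun i : Fin (k + j + 1) => X i ω), X (k + j + 1) ω)) :=
    hH.prodMk (hX.meas (k + j + 1))
  set f : (Fin (k + j + 1) → E) → (Fin (j + 1) → E) := fun h i =>
    h ⟨k + i, by have := i.isLt; omega⟩ with hf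
  have hfm : Measurable f := measurable_pi_iff.2 fun i => measurable_pi_apply _
  have hm : Measurable (Prod.map f (id : E → E)) := hfm.prodMap measurable_id
  have h1 : P.map (fun ω => ((fun i : Fin (j + 1) => X (k + i) ω), X (k + (j + 1)) ω))
      = (P.map (fun ω => ((fun i : Fin (k + j + 1) => X i ω), X (k + j + 1) ω))).map
          (Prod.map f (id : E → E)) := by
    rw [Measure.map_map hm hpm]
    rfl
  have h2 : K.comap (fun h : Fin (k + j + 1) → E => h (Fin.last (k + j)))
        (measurable_pi_apply _)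
      = (K.comap (fun h : Fin (j + 1) → E => h (Fin.last j)) (measurable_pi_apply _)).comap f
          hfm := by
    ext h : 1
    rfl
  rw [h1, hX.step (k + j), h2, map_comap_compProd, Measure.map_map hfm hH]
  rfl

end Pool.Agent.Lib.MP_e19099_pr
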