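import Pool.Agent.Lib.MP_e19099_pr.Defs

/-!
# Chaining (task A20)

Deterministic: if the dyadic increments of level `j` of a continuous `y` on `[0, N]` are at most `ρ^j` for all `j ≥ J`
(`0 < ρ < 1`) then `|y s - y t| ≤ 4/(1-ρ) · ρ^j` for all `j ≥ J`, `s, t ≤ N`, `|s - t| ≤ 2^{-j}`.
Proof: `s_m = ⌊s 2^m⌋₊ / 2^m`; `s_{m+1} = s_m` or `s_m + 2^{-(m+1)}`, so `|y(s_{m+1}) - y(s_m)| ≤ ρ^{m+1}` (care at the end point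
`s = N`: then `s_m = N` for all `m`); `y(s) = lim y(s_m)`, so `|y s - y(s_j)| ≤ ρ^{j+1}/(1-ρ)`, and `s_j`, `t_j` are equal
or adjacent.
-/

set_option autoImplicit false

open MeasureTheory ProbabilityTheory Filter Set
open scoped NNReal Topology ENNReal

namespace Pool.Agent.Lib.MP_e19099_pr

/-- the dyadic point `k / 2^j` -/
noncomputable def dy (j k : ℕ) : ℝ≥0 := (k : ℝ≥0) / 2 ^ j

private lemma dy_double (j k : ℕ) : dy (j + 1) (2 * k) = dy j k := by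
  unfold dy
  rw [pow_succ]
  push_cast
  rw [mul_comm (2 : ℝ≥0) (k : ℝ≥0)]
  exact mul_div_mul_right _ _ two_ne_zero

private lemma floor_step (s : ℝ≥0) (m : ℕ) :
    ⌊s * 2 ^ (m + 1)⌋₊ = 2 * ⌊s * 2 ^ m⌋₊ ∨ ⌊s * 2 ^ (m + 1)⌋₊ = 2 * ⌊s * 2 ^ m⌋₊ + 1 := by
  have h1 : ((⌊s * 2 ^ m⌋₊ : ℕ) : ℝ≥0) ≤ s * 2 ^ m := Nat.floor_le zero_le
  have h2 : s * 2 ^ m < ((⌊s * 2 ^ m⌋₊ : ℕ) : ℝ≥0) + 1 := Nat.lt_floor_add_one _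
  have h3 : ((⌊s * 2 ^ (m + 1)⌋₊ : ℕ) : ℝ≥0) ≤ s * 2 ^ (m + 1) := Nat.floor_le zero_le
  have e : s * 2 ^ (m + 1) = 2 * (s * 2 ^ m) := by rw [pow_succ]; ring
  have h4 : 2 * ⌊s * 2 ^ m⌋₊ ≤ ⌊s * 2 ^ (m + 1)⌋₊ := by
    apply Nat.le_floor
    rw [e]
    push_cast
    gcongr
  have h5 : ⌊s * 2 ^ (m + 1)⌋₊ < 2 * ⌊s * 2 ^ m⌋₊ + 2 := by
    have : ((⌊s * 2 ^ (m + 1)⌋₊ : ℕ) : ℝ≥0) < ((2 * ⌊s * 2 ^ m⌋₊ + 2 : ℕ) : ℝ≥0) := by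
      refine lt_of_le_of_lt h3 ?_
      rw [e]
      push_cast
      calc 2 * (s * 2 ^ m) < 2 * (((⌊s * 2 ^ m⌋₊ : ℕ) : ℝ≥0) + 1) := by
            exact mul_lt_mul_of_pos_left h2 (by norm_num)
        _ = 2 * ((⌊s * 2 ^ m⌋₊ : ℕ) : ℝ≥0) + 2 := by ring
    exact_mod_cast this
  omega

private lemma step_le {y : ℝ≥0 → ℝ} {ρ : ℝ} (h0 : 0 < ρ) {N J : ℕ}
    (h : ∀ j, J ≤ j → ∀ k < N * 2 ^ j, |y (dy j (k + 1)) - y (dy j k)| ≤ ρ ^ j)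
    (s : ℝ≥0) (hs : s ≤ N) (m : ℕ) (hm : J ≤ m) :
    |y (dy (m + 1) ⌊s * 2 ^ (m + 1)⌋₊) - y (dy m ⌊s * 2 ^ m⌋₊)| ≤ ρ ^ (m + 1) := by
  rcases floor_step s m with e | e
  · rw [e, dy_double]
    simp only [sub_self, abs_zero]
    positivity
  · rw [e]
    have hk : 2 * ⌊s * 2 ^ m⌋₊ < N * 2 ^ (m + 1) := by
      have h3 : ((⌊s * 2 ^ (m + 1)⌋₊ : ℕ) : ℝ≥0) ≤ s * 2 ^ (m + 1) := Nat.floor_le zero_le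
      have h4 : ((⌊s * 2 ^ (m + 1)⌋₊ : ℕ) : ℝ≥0) ≤ ((N * 2 ^ (m + 1) : ℕ) : ℝ≥0) := by
        refine h3.trans ?_
        push_cast
        gcongr
      have h5 : ⌊s * 2 ^ (m + 1)⌋₊ ≤ N * 2 ^ (m + 1) := by exact_mod_cast h4
      omega
    have := h (m + 1) (by omega) _ hk
    rwa [dy_double m ⌊s * 2 ^ m⌋₊] at this

private lemma sum_le {y : ℝ≥0 → ℝ} {ρ : ℝ} (h0 : 0 < ρ) (h1 : ρ < 1) {N J : ℕ}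
    (h : ∀ j, J ≤ j → ∀ k < N * 2 ^ j, |y (dy j (k + 1)) - y (dy j k)| ≤ ρ ^ j)
    (s : ℝ≥0) (hs : s ≤ N) (j : ℕ) (hj : J ≤ j) (n : ℕ) :
    |y (dy (j + n) ⌊s * 2 ^ (j + n)⌋₊) - y (dy j ⌊s * 2 ^ j⌋₊)|
      ≤ (ρ ^ (j + 1) - ρ ^ (j + n + 1)) / (1 - ρ) := by
  have h1' : 0 < 1 - ρ := by linarith
  induction n with
  | zero => simp
  | succ n ih =>
    have h2 := step_le h0 h s hs (j + n) (by omega)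
    have h3 : |y (dy (j + (n + 1)) ⌊s * 2 ^ (j + (n + 1))⌋₊) - y (dy j ⌊s * 2 ^ j⌋₊)|
        ≤ |y (dy (j + n + 1) ⌊s * 2 ^ (j + n + 1)⌋₊) - y (dy (j + n) ⌊s * 2 ^ (j + n)⌋₊)|
          + |y (dy (j + n) ⌊s * 2 ^ (j + n)⌋₊) - y (dy j ⌊s * 2 ^ j⌋₊)| := by
      exact abs_sub_le _ _ _
    refine h3.trans ((add_le_add h2 ih).trans (le_of_eq ?_))
    have e1 : ρ ^ (j + (n + 1) + 1) = ρ ^ (j + n + 1) * ρ := by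
      rw [← pow_succ]; rfl
    rw [e1]
    field_simp
    ring

private lemma tendsto_dy (s : ℝ≥0) : Tendsto (fun n => dy n ⌊s * 2 ^ n⌋₊) atTop (𝓝 s) := by
  have hlow : ∀ n : ℕ, (s : ℝ) - (1 / 2) ^ n ≤ ((dy n ⌊s * 2 ^ n⌋₊ : ℝ≥0) : ℝ) := by
    intro n
    have h2 : s * 2 ^ n < ((⌊s * 2 ^ n⌋₊ : ℕ) : ℝ≥0) + 1 := Nat.lt_floor_add_one _
    have h2' : (s : ℝ) * 2 ^ n < ((⌊s * 2 ^ n⌋₊ : ℕ) : ℝ) + 1 := by exact_mod_cast h2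
    have e : ((dy n ⌊s * 2 ^ n⌋₊ : ℝ≥0) : ℝ) = ((⌊s * 2 ^ n⌋₊ : ℕ) : ℝ) / 2 ^ n := by
      unfold dy; push_cast; rfl
    rw [e, le_div_iff₀ (by positivity)]
    have e2 : ((1 : ℝ) / 2) ^ n * 2 ^ n = 1 := by
      rw [← mul_pow]; norm_num
    nlinarith
  have hup : ∀ n : ℕ, ((dy n ⌊s * 2 ^ n⌋₊ : ℝ≥0) : ℝ) ≤ s := by
    intro n
    have h2 : ((⌊s * 2 ^ n⌋₊ : ℕ) : ℝ≥0) ≤ s * 2 ^ n := Nat.floor_le zero_le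
    have h2' : ((⌊s * 2 ^ n⌋₊ : ℕ) : ℝ) ≤ (s : ℝ) * 2 ^ n := by exact_mod_cast h2
    have e : ((dy n ⌊s * 2 ^ n⌋₊ : ℝ≥0) : ℝ) = ((⌊s * 2 ^ n⌋₊ : ℕ) : ℝ) / 2 ^ n := by
      unfold dy; push_cast; rfl
    rw [e, div_le_iff₀ (by positivity)]
    exact h2'
  rw [← NNReal.tendsto_coe]
  refine tendsto_of_tendsto_of_tendsto_of_le_of_le ?_ tendsto_const_nhds hlow hup
  have : Tendsto (fun n : ℕ => (s : ℝ) - (1 / 2) ^ n) atTop (𝓝 ((s : ℝ) - 0)) :=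
    tendsto_const_nhds.sub (tendsto_pow_atTop_nhds_zero_of_lt_one (by norm_num) (by norm_num))
  simpa using this

private lemma approx {y : ℝ≥0 → ℝ} (hy : Continuous y) {ρ : ℝ} (h0 : 0 < ρ) (h1 : ρ < 1) {N J : ℕ}
    (h : ∀ j, J ≤ j → ∀ k < N * 2 ^ j, |y (dy j (k + 1)) - y (dy j k)| ≤ ρ ^ j)
    (s : ℝ≥0) (hs : s ≤ N) (j : ℕ) (hj : J ≤ j) :
    |y s - y (dy j ⌊s * 2 ^ j⌋₊)| ≤ ρ ^ (j + 1) / (1 - ρ) := by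
  have h1' : 0 < 1 - ρ := by linarith
  have ht : Tendsto (fun n => |y (dy (j + n) ⌊s * 2 ^ (j + n)⌋₊) - y (dy j ⌊s * 2 ^ j⌋₊)|) atTop
      (𝓝 |y s - y (dy j ⌊s * 2 ^ j⌋₊)|) := by
    have h2 : Tendsto (fun n : ℕ => j + n) atTop atTop :=
      tendsto_atTop_mono (fun n => Nat.le_add_left n j) tendsto_id
    exact ((((hy.tendsto s).comp ((tendsto_dy s).comp h2))).sub tendsto_const_nhds).abs
  refine le_of_tendsto ht (Eventually.of_forall fun n => ?_)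
  refine (sum_le h0 h1 h s hs j hj n).trans ?_
  have : 0 ≤ ρ ^ (j + n + 1) := by positivity
  gcongr
  linarith

private lemma chaining_le {y : ℝ≥0 → ℝ} (hy : Continuous y) {ρ : ℝ} (h0 : 0 < ρ) (h1 : ρ < 1)
    {N J : ℕ}
    (h : ∀ j, J ≤ j → ∀ k < N * 2 ^ j, |y (dy j (k + 1)) - y (dy j k)| ≤ ρ ^ j) :
    ∀ j, J ≤ j → ∀ s t : ℝ≥0, s ≤ N → t ≤ N → s ≤ t → (t : ℝ) ≤ s + 1 / 2 ^ j →
      |y s - y t| ≤ 4 / (1 - ρ) * ρ ^ j := by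
  intro j hj s t hs ht hst hd
  have h1' : 0 < 1 - ρ := by linarith
  have as := approx hy h0 h1 h s hs j hj
  have at' := approx hy h0 h1 h t ht j hj
  have hp : 0 < ρ ^ j := by positivity
  have hmono : ⌊s * 2 ^ j⌋₊ ≤ ⌊t * 2 ^ j⌋₊ := Nat.floor_mono (by gcongr)
  have hup : ⌊t * 2 ^ j⌋₊ ≤ ⌊s * 2 ^ j⌋₊ + 1 := by
    have h2 : s * 2 ^ j < ((⌊s * 2 ^ j⌋₊ : ℕ) : ℝ≥0) + 1 := Nat.lt_floor_add_one _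
    have h2' : (s : ℝ) * 2 ^ j < ((⌊s * 2 ^ j⌋₊ : ℕ) : ℝ) + 1 := by exact_mod_cast h2
    have h3 : ((⌊t * 2 ^ j⌋₊ : ℕ) : ℝ≥0) ≤ t * 2 ^ j := Nat.floor_le zero_le
    have h3' : ((⌊t * 2 ^ j⌋₊ : ℕ) : ℝ) ≤ (t : ℝ) * 2 ^ j := by exact_mod_cast h3
    have h4 : (t : ℝ) * 2 ^ j ≤ (s : ℝ) * 2 ^ j + 1 := by
      have : (t : ℝ) * 2 ^ j ≤ (s + 1 / 2 ^ j) * 2 ^ j := by gcongr
      have e : ((s : ℝ) + 1 / 2 ^ j) * 2 ^ j = s * 2 ^ j + 1 := by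
        rw [add_mul, one_div, inv_mul_cancel₀ (by positivity)]
      linarith
    have h5 : ((⌊t * 2 ^ j⌋₊ : ℕ) : ℝ) < ((⌊s * 2 ^ j⌋₊ + 2 : ℕ) : ℝ) := by
      push_cast
      linarith
    have h6 : ⌊t * 2 ^ j⌋₊ < ⌊s * 2 ^ j⌋₊ + 2 := by exact_mod_cast h5
    omega
  have hmid : |y (dy j ⌊s * 2 ^ j⌋₊) - y (dy j ⌊t * 2 ^ j⌋₊)| ≤ ρ ^ j := by
    rcases Nat.lt_or_ge ⌊s * 2 ^ j⌋₊ ⌊t * 2 ^ j⌋₊ with hlt | hge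
    · have e : ⌊t * 2 ^ j⌋₊ = ⌊s * 2 ^ j⌋₊ + 1 := by omega
      rw [e, abs_sub_comm]
      apply h j hj
      have h3 : ((⌊t * 2 ^ j⌋₊ : ℕ) : ℝ≥0) ≤ t * 2 ^ j := Nat.floor_le zero_le
      have h4 : ((⌊t * 2 ^ j⌋₊ : ℕ) : ℝ≥0) ≤ ((N * 2 ^ j : ℕ) : ℝ≥0) := by
        refine h3.trans ?_
        push_cast
        gcongr
      have h5 : ⌊t * 2 ^ j⌋₊ ≤ N * 2 ^ j := by exact_mod_cast h4
      omega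
    · have e : ⌊t * 2 ^ j⌋₊ = ⌊s * 2 ^ j⌋₊ := by omega
      rw [e]
      simp only [sub_self, abs_zero]
      positivity
  have tri : |y s - y t| ≤ |y s - y (dy j ⌊s * 2 ^ j⌋₊)|
      + |y (dy j ⌊s * 2 ^ j⌋₊) - y (dy j ⌊t * 2 ^ j⌋₊)|
      + |y (dy j ⌊t * 2 ^ j⌋₊) - y t| := by
    have a1 := abs_sub_le (y s) (y (dy j ⌊s * 2 ^ j⌋₊)) (y t)
    have a2 := abs_sub_le (y (dy j ⌊s * 2 ^ j⌋₊)) (y (dy j ⌊t * 2 ^ j⌋₊)) (y t)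
    linarith
  have h7 : |y (dy j ⌊t * 2 ^ j⌋₊) - y t| ≤ ρ ^ (j + 1) / (1 - ρ) := by
    rw [abs_sub_comm]; exact at'
  have h8 : |y s - y t| ≤ 2 * (ρ ^ (j + 1) / (1 - ρ)) + ρ ^ j := by linarith
  refine h8.trans ?_
  have e1 : 2 * (ρ ^ (j + 1) / (1 - ρ)) + ρ ^ j = (1 + ρ) / (1 - ρ) * ρ ^ j := by
    rw [pow_succ]
    field_simp
    ring
  rw [e1]
  gcongr
  linarith

theorem chaining {y : ℝ≥0 → ℝ} (hy : Continuous y) {ρ : ℝ} (h0 : 0 < ρ) (h1 : ρ < 1) {N J : ℕ}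
    (h : ∀ j, J ≤ j → ∀ k < N * 2 ^ j, |y (dy j (k + 1)) - y (dy j k)| ≤ ρ ^ j) :
    ∀ j, J ≤ j → ∀ s t : ℝ≥0, s ≤ N → t ≤ N → |(s : ℝ) - t| ≤ 1 / 2 ^ j →
      |y s - y t| ≤ 4 / (1 - ρ) * ρ ^ j := by
  intro j hj s t hs ht hd
  have hd' := abs_le.mp hd
  rcases le_total s t with hst | hst
  · exact chaining_le hy h0 h1 h j hj s t hs ht hst (by linarith [hd'.1])
  · rw [abs_sub_comm]
    exact chaining_le hy h0 h1 h j hj t s ht hs hst (by linarith [hd'.2])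

end Pool.Agent.Lib.MP_e19099_pr
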