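import Pool.Agent.Lib.MP_e19099_pr.Paths

/-!
# The Borel σ-algebra of the path space (task A21)

`C(ℝ≥0, ℝ)` with the compact-open topology is second countable, its topology is generated by the sets
`{y | MapsTo y K V}` (`K` compact, `V` open).  `{y | MapsTo y K V} = ⋃_m {y | ∀ t ∈ K, y t ∈ V_m}` with
`V_m = {x | 1/(m+1) ≤ infDist x Vᶜ}` closed (compactness of `y(K)`), and for closed `V_m` it is enough to look at `t` in a countable
dense subset of `K`.  So the Borel σ-algebra is generated by the evaluations: `meas_of_eval`.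
-/

set_option autoImplicit false

open MeasureTheory ProbabilityTheory Filter Set
open scoped NNReal Topology ENNReal

namespace Pool.Agent.Lib.MP_e19099_pr

noncomputable instance instMeasPath : MeasurableSpace C(ℝ≥0, ℝ) := borel _

instance instBorelPath : BorelSpace C(ℝ≥0, ℝ) := ⟨rfl⟩

theorem path_meas_eval (t : ℝ≥0) : Measurable fun y : C(ℝ≥0, ℝ) => y t := by
  exact (show Continuous fun y : C(ℝ≥0, ℝ) => y t from by fun_prop).measurable

private theorem path_mapsTo_meas {K : Set ℝ≥0} (hK : IsCompact K) {U : Set ℝ} (hU : IsOpen U) :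
    MeasurableSet[⨆ t : ℝ≥0, MeasurableSpace.comap (fun y : C(ℝ≥0, ℝ) => y t) inferInstance]
      {f : C(ℝ≥0, ℝ) | MapsTo f K U} := by
  rcases eq_or_ne Uᶜ ∅ with h0 | h0
  · have h1 : U = univ := compl_empty_iff.1 h0
    have h2 : {f : C(ℝ≥0, ℝ) | MapsTo f K U} = univ := by
      ext f
      simp [h1]
    rw [h2]
    exact @MeasurableSet.univ _ (_)
  have hne : (Uᶜ).Nonempty := nonempty_iff_ne_empty.2 h0
  have hcl : IsClosed Uᶜ := hU.isClosed_compl
  obtain ⟨Q, hQK, hQc, hQd⟩ :=
    (TopologicalSpace.IsSeparable.of_separableSpace K).exists_countable_dense_subset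
  have key : {f : C(ℝ≥0, ℝ) | MapsTo f K U} =
      ⋃ m : ℕ, ⋂ t ∈ Q, {f : C(ℝ≥0, ℝ) | 1 / ((m : ℝ) + 1) ≤ Metric.infDist (f t) Uᶜ} := by
    ext f
    simp only [mem_setOf_eq, mem_iUnion, mem_iInter]
    constructor
    · intro hf
      rcases K.eq_empty_or_nonempty with hKe | hKne
      · refine ⟨0, fun t ht => ?_⟩
        rw [hKe] at hQK
        exact absurd (hQK ht) (notMem_empty t)
      · have hc : ContinuousOn (fun t => Metric.infDist (f t) Uᶜ) K :=
          ((Metric.continuous_infDist_pt _).comp f.continuous).continuousOn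
        obtain ⟨t₀, ht₀, hmin⟩ := hK.exists_isMinOn hKne hc
        have hpos : 0 < Metric.infDist (f t₀) Uᶜ :=
          (hcl.notMem_iff_infDist_pos hne).1 (fun h => h (hf ht₀))
        obtain ⟨m, hm⟩ := exists_nat_one_div_lt hpos
        exact ⟨m, fun t ht => hm.le.trans (hmin (hQK ht))⟩
    · rintro ⟨m, hm⟩ t ht
      have hclo : IsClosed {t : ℝ≥0 | 1 / ((m : ℝ) + 1) ≤ Metric.infDist (f t) Uᶜ} :=
        isClosed_le continuous_const ((Metric.continuous_infDist_pt _).comp f.continuous)
      have h1 : t ∈ {t : ℝ≥0 | 1 / ((m : ℝ) + 1) ≤ Metric.infDist (f t) Uᶜ} :=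
        closure_minimal (fun q hq => hm q hq) hclo (hQd ht)
      have h2 : 0 < Metric.infDist (f t) Uᶜ := lt_of_lt_of_le (by positivity) h1
      have h3 := (hcl.notMem_iff_infDist_pos hne).2 h2
      exact not_not.1 h3
  rw [key]
  refine @MeasurableSet.iUnion _ _ (_) _ _ fun m => ?_
  refine @MeasurableSet.biInter _ _ (_) _ _ hQc fun t _ => ?_
  have h1 : MeasurableSpace.comap (fun y : C(ℝ≥0, ℝ) => y t) inferInstance ≤
      ⨆ t : ℝ≥0, MeasurableSpace.comap (fun y : C(ℝ≥0, ℝ) => y t)
        (inferInstance : MeasurableSpace ℝ) :=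
    le_iSup (fun t : ℝ≥0 => MeasurableSpace.comap (fun y : C(ℝ≥0, ℝ) => y t)
      (inferInstance : MeasurableSpace ℝ)) t
  refine h1 _ ⟨{x : ℝ | 1 / ((m : ℝ) + 1) ≤ Metric.infDist x Uᶜ}, ?_, rfl⟩
  exact (isClosed_le continuous_const (Metric.continuous_infDist_pt _)).measurableSet

theorem path_borel_eq :
    (borel C(ℝ≥0, ℝ)) = ⨆ t : ℝ≥0, MeasurableSpace.comap (fun y : C(ℝ≥0, ℝ) => y t)
      inferInstance := by
  apply le_antisymm
  · rw [borel_eq_generateFrom_of_subbasis (ContinuousMap.compactOpen_eq)]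
    refine MeasurableSpace.generateFrom_le ?_
    rintro _ ⟨K, hK, U, hU, rfl⟩
    exact path_mapsTo_meas hK hU
  · exact iSup_le fun t => (path_meas_eval t).comap_le

theorem path_meas_of_eval {Ω : Type*} [MeasurableSpace Ω] {g : Ω → C(ℝ≥0, ℝ)}
    (hg : ∀ t, Measurable fun ω => g ω t) : Measurable g := by
  rw [measurable_iff_comap_le]
  show (borel C(ℝ≥0, ℝ)).comap g ≤ _
  rw [path_borel_eq, MeasurableSpace.comap_iSup]
  refine iSup_le fun t => ?_
  rw [MeasurableSpace.comap_comp]
  exact (hg t).comap_le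

/-- the process `(y, t) ↦ y t` is jointly measurable -/
theorem path_meas_uncurry : Measurable fun z : C(ℝ≥0, ℝ) × ℝ≥0 => z.1 z.2 := by
  have h : Continuous fun z : C(ℝ≥0, ℝ) × ℝ≥0 => z.1 z.2 := by fun_prop
  exact h.measurable

theorem interp_meas {Ω : Type*} [MeasurableSpace Ω] (τ : ℝ) {x : ℕ → Ω → ℝ}
    (hx : ∀ k, Measurable (x k)) : Measurable fun ω => interp τ (fun k => x k ω) := by
  refine path_meas_of_eval fun t => ?_
  simp only [interp_apply, lin]
  exact (hx _).add (measurable_const.mul ((hx _).sub (hx _)))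

theorem toD_meas : Measurable toD := by
  exact Measurable.subtype_mk (measurable_pi_lambda _ fun t => path_meas_eval t)

end Pool.Agent.Lib.MP_e19099_pr
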