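import Pool.Agent.Lib.MP_e19099_pr.Chaining
import Pool.Agent.Lib.MP_e19099_pr.PathMeas

/-!
# Compact sets of paths (task A22)

`kset ρ A J` is closed (evaluations are continuous), equicontinuous (by `chaining`: at `t` take `N > t + 1`), and for each
`t` the values `y t` are bounded (`|y 0| ≤ A`, and `|y t - y 0|` is at most `2^J N` times the bound of `chaining` with `j = J N`).
Use `ArzelaAscoli.isCompact_of_equicontinuous` (look at its exact form; needs compactness of the closure of the values,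
`ℝ` is proper) .
-/

set_option autoImplicit false

open MeasureTheory ProbabilityTheory Filter Set
open scoped NNReal Topology ENNReal

namespace Pool.Agent.Lib.MP_e19099_pr

/-- a compact set of paths: `|y 0| ≤ A`, and on `[0, N]` the dyadic increments of level `j ≥ J N` are at most `ρ^j` -/
def kset (ρ A : ℝ) (J : ℕ → ℕ) : Set C(ℝ≥0, ℝ) :=
  {y | |y 0| ≤ A ∧ ∀ N j : ℕ, J N ≤ j → ∀ k < N * 2 ^ j, |y (dy j (k + 1)) - y (dy j k)| ≤ ρ ^ j}

theorem kset_closed (ρ A : ℝ) (J : ℕ → ℕ) : IsClosed (kset ρ A J) := by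
  have h : kset ρ A J = {y | |y 0| ≤ A} ∩ ⋂ N : ℕ, ⋂ j : ℕ, ⋂ _ : J N ≤ j, ⋂ k : ℕ,
      ⋂ _ : k < N * 2 ^ j, {y | |y (dy j (k + 1)) - y (dy j k)| ≤ ρ ^ j} := by
    ext y
    simp only [kset, mem_inter_iff, mem_ofPred_eq, mem_iInter]
  rw [h]
  have hev : ∀ t : ℝ≥0, Continuous fun y : C(ℝ≥0, ℝ) => y t := fun t =>
    ContinuousEvalConst.continuous_eval_const t
  refine IsClosed.inter (isClosed_le (hev 0).abs continuous_const) ?_
  refine isClosed_iInter fun N => isClosed_iInter fun j => isClosed_iInter fun _ =>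
    isClosed_iInter fun k => isClosed_iInter fun _ => ?_
  exact isClosed_le ((hev _).sub (hev _)).abs continuous_const

namespace Compact

/-- the same set, as a set of functions -/
private def tset (ρ A : ℝ) (J : ℕ → ℕ) : Set (ℝ≥0 → ℝ) :=
  {f | |f 0| ≤ A ∧ (∀ N j : ℕ, J N ≤ j → ∀ k < N * 2 ^ j,
    |f (dy j (k + 1)) - f (dy j k)| ≤ ρ ^ j) ∧
    ∀ N j : ℕ, J N ≤ j → ∀ s t : ℝ≥0, s ≤ N → t ≤ N → |(s : ℝ) - t| ≤ 1 / 2 ^ j →
      |f s - f t| ≤ 4 / (1 - ρ) * ρ ^ j}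

private theorem tset_closed (ρ A : ℝ) (J : ℕ → ℕ) : IsClosed (tset ρ A J) := by
  have h : tset ρ A J = {f | |f 0| ≤ A} ∩ ((⋂ N : ℕ, ⋂ j : ℕ, ⋂ _ : J N ≤ j, ⋂ k : ℕ,
      ⋂ _ : k < N * 2 ^ j, {f | |f (dy j (k + 1)) - f (dy j k)| ≤ ρ ^ j}) ∩
      ⋂ N : ℕ, ⋂ j : ℕ, ⋂ _ : J N ≤ j, ⋂ s : ℝ≥0, ⋂ t : ℝ≥0, ⋂ _ : s ≤ (N : ℝ≥0),
        ⋂ _ : t ≤ (N : ℝ≥0), ⋂ _ : |(s : ℝ) - t| ≤ 1 / 2 ^ j,
        {f | |f s - f t| ≤ 4 / (1 - ρ) * ρ ^ j}) := by
    ext y
    simp only [tset, mem_inter_iff, mem_ofPred_eq, mem_iInter]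
  rw [h]
  have hev : ∀ t : ℝ≥0, Continuous fun y : ℝ≥0 → ℝ => y t := fun t => continuous_apply t
  refine IsClosed.inter (isClosed_le (hev 0).abs continuous_const) (IsClosed.inter ?_ ?_)
  · refine isClosed_iInter fun N => isClosed_iInter fun j => isClosed_iInter fun _ =>
      isClosed_iInter fun k => isClosed_iInter fun _ => ?_
    exact isClosed_le ((hev _).sub (hev _)).abs continuous_const
  · refine isClosed_iInter fun N => isClosed_iInter fun j => isClosed_iInter fun _ =>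
      isClosed_iInter fun s => isClosed_iInter fun t => isClosed_iInter fun _ =>
      isClosed_iInter fun _ => isClosed_iInter fun _ => ?_
    exact isClosed_le ((hev _).sub (hev _)).abs continuous_const

/-- modulus of continuity at a point -/
private theorem modulus {ρ : ℝ} (h0 : 0 < ρ) (h1 : ρ < 1) (A : ℝ) (J : ℕ → ℕ) (t : ℝ≥0) (ε : ℝ)
    (hε : 0 < ε) : ∃ δ > 0, ∀ s : ℝ≥0, dist s t < δ → ∀ f ∈ tset ρ A J, |f s - f t| < ε := by
  obtain ⟨N, hN⟩ := exists_nat_ge (t + 1)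
  have hlim : Tendsto (fun j : ℕ => 4 / (1 - ρ) * ρ ^ j) atTop (𝓝 0) := by
    have := (tendsto_pow_atTop_nhds_zero_of_lt_one h0.le h1).const_mul (4 / (1 - ρ))
    simpa using this
  obtain ⟨j, hj1, hj2⟩ := ((hlim.eventually (gt_mem_nhds hε)).and
    (eventually_ge_atTop (J N))).exists
  refine ⟨1 / 2 ^ j, by positivity, ?_⟩
  intro s hs f hf
  rw [NNReal.dist_eq] at hs
  have hle : (1 : ℝ) / 2 ^ j ≤ 1 := by
    rw [div_le_one (by positivity)]
    exact one_le_pow₀ (by norm_num)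
  have hsN : s ≤ N := by
    rw [← NNReal.coe_le_coe]
    have h3 : ((t + 1 : ℝ≥0) : ℝ) ≤ ((N : ℝ≥0) : ℝ) := NNReal.coe_le_coe.2 hN
    push_cast at h3 ⊢
    have := (abs_lt.1 hs).2
    linarith
  have htN : t ≤ N := le_trans (by simp) hN
  exact lt_of_le_of_lt (hf.2.2 N j hj2 s t hsN htN hs.le) hj1

private theorem tset_cont {ρ : ℝ} (h0 : 0 < ρ) (h1 : ρ < 1) (A : ℝ) (J : ℕ → ℕ) {f : ℝ≥0 → ℝ}
    (hf : f ∈ tset ρ A J) : Continuous f := by
  rw [Metric.continuous_iff]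
  intro t ε hε
  obtain ⟨δ, hδ, h⟩ := modulus h0 h1 A J t ε hε
  refine ⟨δ, hδ, fun s hs => ?_⟩
  rw [Real.dist_eq]
  exact h s hs f hf

private theorem tset_image {ρ : ℝ} (h0 : 0 < ρ) (h1 : ρ < 1) (A : ℝ) (J : ℕ → ℕ) :
    ContinuousMap.toFun '' (kset ρ A J) = tset ρ A J := by
  ext f
  constructor
  · rintro ⟨y, hy, rfl⟩
    refine ⟨hy.1, hy.2, ?_⟩
    intro N j hj s t hs ht hst
    exact chaining y.continuous h0 h1 (hy.2 N) j hj s t hs ht hst
  · intro hf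
    exact ⟨⟨f, tset_cont h0 h1 A J hf⟩, ⟨hf.1, hf.2.1⟩, rfl⟩

private theorem tset_bound {ρ : ℝ} (h0 : 0 < ρ) (A : ℝ) (J : ℕ → ℕ) (t : ℝ≥0) :
    ∃ M : ℝ, ∀ f ∈ tset ρ A J, |f t| ≤ M := by
  obtain ⟨N, hN⟩ := exists_nat_ge t
  refine ⟨A + (N * 2 ^ (J N) : ℕ) * ρ ^ (J N) + 4 / (1 - ρ) * ρ ^ (J N), ?_⟩
  intro f hf
  set j := J N with hj
  have hk : ∀ k : ℕ, k ≤ N * 2 ^ j → |f (dy j k)| ≤ A + k * ρ ^ j := by
    intro k
    induction k with
    | zero =>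
      intro _
      have : dy j 0 = 0 := by simp [dy]
      rw [this]
      simpa using hf.1
    | succ k ih =>
      intro hk
      have h2 := ih (by omega)
      have h3 := hf.2.1 N j le_rfl k (by omega)
      have h4 : |f (dy j (k + 1))| ≤ |f (dy j (k + 1)) - f (dy j k)| + |f (dy j k)| := by
        have := abs_add_le (f (dy j (k + 1)) - f (dy j k)) (f (dy j k))
        simpa using this
      push_cast
      linarith
  set k := ⌊(t : ℝ) * 2 ^ j⌋₊ with hkdef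
  have hfl := Nat.floor_le (show (0 : ℝ) ≤ (t : ℝ) * 2 ^ j by positivity)
  have hfl2 := Nat.lt_floor_add_one ((t : ℝ) * 2 ^ j)
  rw [← hkdef] at hfl hfl2
  have htN : (t : ℝ) ≤ N := by exact_mod_cast NNReal.coe_le_coe.2 hN
  have hkN : k ≤ N * 2 ^ j := by
    have h5 : (k : ℝ) ≤ ((N * 2 ^ j : ℕ) : ℝ) := by
      push_cast
      exact hfl.trans (mul_le_mul_of_nonneg_right htN (by positivity))
    exact_mod_cast h5
  have hdy : ((dy j k : ℝ≥0) : ℝ) = (k : ℝ) / 2 ^ j := by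
    simp [dy]
  have h6 : ((dy j k : ℝ≥0) : ℝ) ≤ t := by
    rw [hdy, div_le_iff₀ (by positivity)]
    exact hfl
  have h7 : |(t : ℝ) - (dy j k : ℝ≥0)| ≤ 1 / 2 ^ j := by
    rw [abs_of_nonneg (by linarith), hdy, sub_le_iff_le_add, ← add_div, le_div_iff₀ (by positivity)]
    linarith
  have h8 := hf.2.2 N j le_rfl t (dy j k) hN (le_trans (NNReal.coe_le_coe.1 h6) hN) h7
  have h9 := hk k hkN
  have h10 : |f t| ≤ |f t - f (dy j k)| + |f (dy j k)| := by
    have := abs_add_le (f t - f (dy j k)) (f (dy j k))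
    simpa using this
  have h11 : (k : ℝ) * ρ ^ j ≤ ((N * 2 ^ j : ℕ) : ℝ) * ρ ^ j :=
    mul_le_mul_of_nonneg_right (by exact_mod_cast hkN) (by positivity)
  linarith

private theorem tset_compact {ρ : ℝ} (h0 : 0 < ρ) (A : ℝ) (J : ℕ → ℕ) :
    IsCompact (tset ρ A J) := by
  choose M hM using tset_bound h0 A J
  refine IsCompact.of_isClosed_subset (isCompact_univ_pi fun t : ℝ≥0 =>
    (isCompact_Icc (a := -M t) (b := M t))) (tset_closed ρ A J) ?_
  intro f hf t _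
  exact abs_le.1 (hM t f hf)

end Compact

theorem kset_compact {ρ : ℝ} (h0 : 0 < ρ) (h1 : ρ < 1) (A : ℝ) (J : ℕ → ℕ) :
    IsCompact (kset ρ A J) := by
  refine ArzelaAscoli.isCompact_of_equicontinuous _ ?_ ?_
  · rw [Compact.tset_image h0 h1]
    exact Compact.tset_compact h0 A J
  · intro t
    rw [Metric.equicontinuousAt_iff]
    intro ε hε
    obtain ⟨δ, hδ, h⟩ := Compact.modulus h0 h1 A J t ε hε
    refine ⟨δ, hδ, fun s hs y => ?_⟩
    rw [dist_comm, Real.dist_eq]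
    refine h s hs _ ?_
    rw [← Compact.tset_image h0 h1]
    exact ⟨y.1, y.2, rfl⟩

end Pool.Agent.Lib.MP_e19099_pr
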