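import Pool.Agent.Lib.MP_e19099_pr.Core

/-!
# The lemma of du Bois-Reymond (task A4)

`G y = ∫₀^y k` is `C¹`, and `∫ G q' = - ∫ k q` for test functions `q` (integration by parts), so `f = u - G` satisfies
`∫ f q' = 0`.  Fix a continuous `η` with compact support and `∫ η = 1`.  For continuous `θ` with compact support
`q x = ∫_{-∞}^x (θ - (∫ θ) η)` is a test function, so `∫ f θ = (∫ θ) (∫ f η)`; with `c = ∫ f η`, `∫ (f - c) θ = 0` for all
(smooth) `θ` with compact support, so `f = c` a.e. (`ae_eq_zero_of_integral_contDiff_smul_eq_zero`).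
-/

set_option autoImplicit false

open MeasureTheory ProbabilityTheory Filter Set
open scoped NNReal Topology ENNReal

namespace Pool.Agent.Lib.MP_e19099_pr

/-- a continuous function with compact support and zero integral is the derivative of a test
function -/
private theorem dbr_prim {φ : ℝ → ℝ} (hφ : Continuous φ) (hs : HasCompactSupport φ)
    (h0 : ∫ x, φ x = 0) : ∃ q, IsTest q ∧ deriv q = φ := by
  obtain ⟨A, hA⟩ : ∃ A : ℝ, ∀ x, A ≤ |x| → φ x = 0 := by
    obtain ⟨R, hR⟩ := (hs.isCompact.isBounded).subset_closedBall (0 : ℝ)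
    refine ⟨R + 1, fun x hx => ?_⟩
    by_contra hne
    have h1 : x ∈ tsupport φ := subset_tsupport φ hne
    have h2 := hR h1
    rw [Metric.mem_closedBall, Real.dist_eq, sub_zero] at h2
    linarith
  have hder : ∀ x, HasDerivAt (fun x => ∫ t in (-A)..x, φ t) (φ x) x := by
    intro x
    exact intervalIntegral.integral_hasDerivAt_right (hφ.intervalIntegrable _ _)
      (hφ.stronglyMeasurableAtFilter _ _) hφ.continuousAt
  have hd : deriv (fun x => ∫ t in (-A)..x, φ t) = φ := funext fun x => (hder x).deriv
  refine ⟨fun x => ∫ t in (-A)..x, φ t, ⟨?_, ?_⟩, hd⟩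
  · rw [contDiff_one_iff_deriv]
    refine ⟨fun x => (hder x).differentiableAt, ?_⟩
    rw [hd]; exact hφ
  · refine HasCompactSupport.intro (isCompact_Icc (a := -|A|) (b := |A|)) ?_
    intro x hx
    have hx' : |A| < |x| := by
      by_contra hcon
      push Not at hcon
      exact hx (abs_le.mp hcon)
    have hA' : A ≤ |A| := le_abs_self A
    rcases le_total 0 x with h | h
    · rw [abs_of_nonneg h] at hx'
      rw [intervalIntegral.integral_eq_integral_of_support_subset, h0]
      intro t ht
      have h1 : ¬ A ≤ |t| := fun h => ht (hA t h)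
      push Not at h1
      rw [abs_lt] at h1
      exact ⟨h1.1, by linarith [h1.2]⟩
    · rw [abs_of_nonpos h] at hx'
      have hxA : x ≤ -A := by linarith
      have h1 : ∫ t in (-A)..x, φ t = ∫ t in (-A)..x, (0 : ℝ) := by
        apply intervalIntegral.integral_congr
        intro t ht
        rw [uIcc_of_ge hxA] at ht
        apply hA
        have : -t ≤ |t| := neg_le_abs t
        linarith [ht.2]
      show ∫ t in (-A)..x, φ t = 0
      rw [h1]; simp

theorem dbr {u k : ℝ → ℝ} (hu : LocallyIntegrable u) (hk : Continuous k)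
    (h : ∀ q, IsTest q → ∫ x, u x * deriv q x = - ∫ x, k x * q x) :
    ∃ c : ℝ, ∀ᵐ x, u x = c + ∫ t in (0 : ℝ)..x, k t := by
  have hG : ∀ x, HasDerivAt (fun x => ∫ t in (0 : ℝ)..x, k t) (k x) x := by
    intro x
    exact intervalIntegral.integral_hasDerivAt_right (hk.intervalIntegrable _ _)
      (hk.stronglyMeasurableAtFilter _ _) hk.continuousAt
  obtain ⟨G, hGdef⟩ : ∃ G : ℝ → ℝ, G = fun x => ∫ t in (0 : ℝ)..x, k t := ⟨_, rfl⟩
  rw [← hGdef] at hG
  have hGc : Continuous G := continuous_iff_continuousAt.mpr fun x => (hG x).continuousAt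
  have hGl : LocallyIntegrable G := hGc.locallyIntegrable
  have hfl : LocallyIntegrable (fun x => u x - G x) := hu.sub hGl
  -- `∫ f φ = 0` for `φ` with zero integral
  have key : ∀ φ : ℝ → ℝ, Continuous φ → HasCompactSupport φ → ∫ x, φ x = 0 →
      ∫ x, φ x * (u x - G x) = 0 := by
    intro φ hφ hs h0
    obtain ⟨q, hq, hqd⟩ := dbr_prim hφ hs h0
    have h1 := h q hq
    rw [hqd] at h1
    have hqc : Continuous q := hq.smooth.continuous
    have hqder : ∀ x, HasDerivAt q (φ x) x := by
      intro x
      have := (hq.smooth.differentiable one_ne_zero x).hasDerivAt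
      rwa [hqd] at this
    have h2 : ∫ x, G x * φ x = - ∫ x, k x * q x := by
      refine integral_mul_deriv_eq_deriv_mul_of_integrable (u := G) (v := q) (u' := k) (v' := φ)
        (fun x _ => hG x) (fun x _ => hqder x) ?_ ?_ ?_
      · exact (hGc.mul hφ).integrable_of_hasCompactSupport hs.mul_left
      · exact (hk.mul hqc).integrable_of_hasCompactSupport hq.supp.mul_left
      · exact (hGc.mul hqc).integrable_of_hasCompactSupport hq.supp.mul_left
    have i1 : Integrable (fun x => φ x * u x) := by
      have := hu.integrable_smul_left_of_hasCompactSupport hφ hs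
      simpa [smul_eq_mul] using this
    have i2 : Integrable (fun x => φ x * G x) := by
      have := hGl.integrable_smul_left_of_hasCompactSupport hφ hs
      simpa [smul_eq_mul] using this
    have h3 : ∫ x, φ x * (u x - G x) = (∫ x, φ x * u x) - ∫ x, φ x * G x := by
      rw [← integral_sub i1 i2]
      congr 1
      funext x
      ring
    have h4 : ∫ x, φ x * u x = ∫ x, u x * φ x := by
      congr 1; funext x; ring
    have h5 : ∫ x, φ x * G x = ∫ x, G x * φ x := by
      congr 1; funext x; ring
    rw [h3, h4, h5, h1, h2, sub_self]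
  -- the bump function
  obtain ⟨η, hηc, hηs, hη1⟩ : ∃ η : ℝ → ℝ, Continuous η ∧ HasCompactSupport η ∧
      ∫ x, η x = 1 := by
    let b : ContDiffBump (0 : ℝ) := default
    exact ⟨b.normed volume, b.continuous_normed, b.hasCompactSupport_normed, b.integral_normed⟩
  obtain ⟨c, hc⟩ : ∃ c : ℝ, c = ∫ x, η x * (u x - G x) := ⟨_, rfl⟩
  refine ⟨c, ?_⟩
  have hfin : ∀ᵐ x, (u x - G x) - c = 0 := by
    refine ae_eq_zero_of_integral_contDiff_smul_eq_zero
      (f := fun x => (u x - G x) - c) (hfl.sub (locallyIntegrable_const c)) ?_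
    intro θ hθd hθs
    have hθc : Continuous θ := hθd.continuous
    have iθ : Integrable θ := hθc.integrable_of_hasCompactSupport hθs
    have iη : Integrable η := hηc.integrable_of_hasCompactSupport hηs
    have iθf : Integrable (fun x => θ x * (u x - G x)) := by
      have := hfl.integrable_smul_left_of_hasCompactSupport hθc hθs
      simpa [smul_eq_mul] using this
    have iηf : Integrable (fun x => η x * (u x - G x)) := by
      have := hfl.integrable_smul_left_of_hasCompactSupport hηc hηs
      simpa [smul_eq_mul] using this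
    have hk1 := key (fun x => θ x - (∫ y, θ y) * η x) (hθc.sub (continuous_const.mul hηc))
      (hθs.sub hηs.mul_left) (by
        rw [integral_sub iθ (iη.const_mul _), integral_const_mul, hη1, mul_one, sub_self])
    have hk2 : ∫ x, (θ x - (∫ y, θ y) * η x) * (u x - G x) =
        (∫ x, θ x * (u x - G x)) - (∫ y, θ y) * c := by
      rw [hc, ← integral_const_mul, ← integral_sub iθf (iηf.const_mul _)]
      congr 1
      funext x
      ring
    rw [hk2] at hk1
    have hk3 : ∫ x, θ x • ((u x - G x) - c) = (∫ x, θ x * (u x - G x)) - (∫ y, θ y) * c := by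
      rw [← integral_mul_const, ← integral_sub iθf (iθ.mul_const _)]
      congr 1
      funext x
      rw [smul_eq_mul]
      ring
    rw [hk3, hk1]
  filter_upwards [hfin] with x hx
  rw [hGdef] at hx
  simp only at hx
  linarith

end Pool.Agent.Lib.MP_e19099_pr
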