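import Mathlib

/-!
# Deterministic properties of almost every path of fractional Brownian motion

This is the interface between the quenched part (D) and the verification of the one-coordinate conditions (C for RWM, E for
MALA).  Almost every path of a two-sided fBm with Hurst parameter `H ∈ (0,1)` satisfies `Good H`.
-/

set_option autoImplicit false

open MeasureTheory ProbabilityTheory Filter Set
open scoped NNReal Topology ENNReal

namespace Pool.Agent.Lib.MP_e19099_pr

/-- Deterministic properties of almost every path of fractional Brownian motion. -/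
structure Good (H : ℝ) (b : ℝ → ℝ) : Prop where
  cont : Continuous b
  growth : ∃ C : ℝ, ∀ x, |b x| ≤ C + x ^ 2 / 16
  bound : ∃ C : ℝ, ∀ h : ℝ, |h| ≤ 1 →
    ∫ x, Real.exp (-x ^ 2 / 8) * (b (x + h) - b x) ^ 2 ≤ C * |h| ^ (2 * H)
  lln : ∀ g : ℝ → ℝ, Continuous g → HasCompactSupport g →
    Tendsto (fun h : ℝ => |h| ^ (-(2 * H)) * ∫ x, g x * (b (x + h) - b x) ^ 2) (𝓝[≠] 0)
      (𝓝 (∫ x, g x))

end Pool.Agent.Lib.MP_e19099_pr
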