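import Mathlib

set_option autoImplicit false

open MeasureTheory ProbabilityTheory Filter Topology Set
open scoped NNReal ENNReal

namespace Pool.Agent.Lib.MP_e19099_pr.F

/-- second moments summable implies almost sure convergence: `∑ ∫⁻ ofReal ((Z k - c)²) < ∞`, so
a.s. `∑ (Z k - c)² < ∞` and the terms tend to zero. -/
theorem ae_tendsto_of_sq {Ω : Type*} [MeasurableSpace Ω] {P : Measure Ω} {Z : ℕ → Ω → ℝ}
    (hZ : ∀ k, AEMeasurable (Z k) P) {c : ℝ} {a : ℕ → ℝ} (ha : ∀ k, 0 ≤ a k) (hs : Summable a)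
    (h : ∀ k, ∫⁻ ω, ENNReal.ofReal ((Z k ω - c) ^ 2) ∂P ≤ ENNReal.ofReal (a k)) :
    ∀ᵐ ω ∂P, Tendsto (fun k => Z k ω) atTop (𝓝 c) := by
  have hm : ∀ k, AEMeasurable (fun ω => ENNReal.ofReal ((Z k ω - c) ^ 2)) P := fun k =>
    (((hZ k).sub_const c).pow_const 2).ennreal_ofReal
  have h1 : ∫⁻ ω, ∑' k, ENNReal.ofReal ((Z k ω - c) ^ 2) ∂P ≠ ⊤ := by
    rw [lintegral_tsum hm]
    refine ne_top_of_le_ne_top ?_ (ENNReal.tsum_le_tsum h)
    rw [← ENNReal.ofReal_tsum_of_nonneg ha hs]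
    exact ENNReal.ofReal_ne_top
  have h2 := ae_lt_top' (AEMeasurable.ennreal_tsum hm) h1
  filter_upwards [h2] with ω hω
  have h3 := ENNReal.tendsto_atTop_zero_of_tsum_ne_top hω.ne
  have h4 : Tendsto (fun k => (Z k ω - c) ^ 2) atTop (𝓝 0) := by
    have h5 := (ENNReal.tendsto_toReal ENNReal.zero_ne_top).comp h3
    rw [ENNReal.toReal_zero] at h5
    refine h5.congr fun k => ?_
    rw [Function.comp_apply, ENNReal.toReal_ofReal (sq_nonneg _)]
  have h5 : Tendsto (fun k => |Z k ω - c|) atTop (𝓝 0) := by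
    have h6 := h4.sqrt
    rw [Real.sqrt_zero] at h6
    refine h6.congr fun k => ?_
    rw [Real.sqrt_sq_eq_abs]
  have h6 : Tendsto (fun k => Z k ω - c) atTop (𝓝 0) :=
    (tendsto_zero_iff_abs_tendsto_zero _).2 h5
  have h7 := h6.add_const c
  rw [zero_add] at h7
  exact h7.congr fun k => by ring

end Pool.Agent.Lib.MP_e19099_pr.F
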