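import Pool.Agent.Lib.MP_e19099_pr.D_Dyad

set_option autoImplicit false

open MeasureTheory ProbabilityTheory Filter Topology Set
open scoped NNReal ENNReal

namespace Pool.Agent.Lib.MP_e19099_pr.F

/-- chaining constant -/
noncomputable def chC (p : ℕ) (β : ℝ) : ℝ :=
  ((1 - (2 : ℝ) ^ (-(β / (2 * p)))) ^ p * (1 - (2 : ℝ) ^ (-(β / 2))))⁻¹

/-- Kolmogorov chaining on one interval: `dyadic_chain` with `c m = (1-θ) θ^m η`,
`θ = 2^(-β/(2p))`, union bound and Markov. -/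
theorem chaining {Ω : Type*} [MeasurableSpace Ω] (P : Measure Ω) {Z : ℝ → Ω → ℝ} {a L : ℝ}
    (hL : 0 < L) (hc : ∀ ω, ContinuousOn (fun t => Z t ω) (Icc a (a + L)))
    (hm : ∀ t ∈ Icc a (a + L), Measurable (Z t)) {p : ℕ} (hp : 1 ≤ p) {β K : ℝ} (hβ : 0 < β)
    (hK : 0 ≤ K)
    (hmom : ∀ s ∈ Icc a (a + L), ∀ t ∈ Icc a (a + L),
      ∫⁻ ω, ENNReal.ofReal (|Z t ω - Z s ω| ^ p) ∂P ≤ ENNReal.ofReal (K * |t - s| ^ (1 + β)))
    {η : ℝ} (hη : 0 < η) :
    P {ω | ∃ t ∈ Icc a (a + L), η < |Z t ω - Z a ω|} ≤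
      ENNReal.ofReal (chC p β * K * L ^ (1 + β) / η ^ p) := by
  have hp' : (0 : ℝ) < p := by exact_mod_cast hp
  obtain ⟨θ, hθ⟩ : ∃ θ : ℝ, θ = (2 : ℝ) ^ (-(β / (2 * p))) := ⟨_, rfl⟩
  obtain ⟨φ, hφ⟩ : ∃ φ : ℝ, φ = (2 : ℝ) ^ (-(β / 2)) := ⟨_, rfl⟩
  have hθ0 : 0 < θ := by rw [hθ]; positivity
  have hφ0 : 0 < φ := by rw [hφ]; positivity
  have hθ1 : θ < 1 := by
    rw [hθ]
    apply Real.rpow_lt_one_of_one_lt_of_neg (by norm_num)
    have : 0 < β / (2 * p) := by positivity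
    linarith
  have hφ1 : φ < 1 := by
    rw [hφ]
    apply Real.rpow_lt_one_of_one_lt_of_neg (by norm_num)
    linarith
  have hθφ : θ ^ p = φ := by
    rw [hθ, hφ, ← Real.rpow_natCast, ← Real.rpow_mul (by norm_num)]
    congr 1
    field_simp
  have h2β : ∀ m : ℕ, ((2 : ℝ) ^ m) ^ (1 + β) = 2 ^ m * (φ ^ m * φ ^ m)⁻¹ := by
    intro m
    rw [Real.rpow_add (by positivity), Real.rpow_one]
    congr 1
    rw [← mul_pow, ← inv_pow]
    have h1 : (φ * φ)⁻¹ = (2 : ℝ) ^ β := by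
      rw [hφ, ← Real.rpow_add (by norm_num), ← Real.rpow_neg (by norm_num)]
      congr 1
      ring
    rw [h1, ← Real.rpow_natCast, ← Real.rpow_natCast, ← Real.rpow_mul (by norm_num),
      ← Real.rpow_mul (by norm_num), mul_comm]
  have h1θ : 0 < 1 - θ := by linarith
  have h1φ : 0 < 1 - φ := by linarith
  obtain ⟨c, hcdef⟩ : ∃ c : ℕ → ℝ, c = fun m => (1 - θ) * θ ^ m * η := ⟨_, rfl⟩
  have hcpos : ∀ m, 0 < c m := by
    intro m; rw [hcdef]; positivity
  have hsum : HasSum c η := by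
    have h1 := ((hasSum_geometric_of_lt_one hθ0.le hθ1).mul_left (1 - θ)).mul_right η
    have h2 : (1 - θ) * (1 - θ)⁻¹ * η = η := by
      rw [mul_inv_cancel₀ h1θ.ne', one_mul]
    rw [h2] at h1
    rw [hcdef]
    exact h1
  obtain ⟨A, hA⟩ : ∃ A : ℝ, A = K * L ^ (1 + β) / ((1 - θ) ^ p * η ^ p) := ⟨_, rfl⟩
  have hA0 : 0 ≤ A := by rw [hA]; positivity
  -- the points
  have hpt : ∀ m k : ℕ, k ≤ 2 ^ m → a + (k : ℝ) * L / 2 ^ m ∈ Icc a (a + L) := by
    intro m k hk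
    have hk' : (k : ℝ) ≤ 2 ^ m := by exact_mod_cast hk
    constructor
    · have : 0 ≤ (k : ℝ) * L / 2 ^ m := by positivity
      linarith
    · have : (k : ℝ) * L / 2 ^ m ≤ L := by
        rw [div_le_iff₀ (by positivity)]
        nlinarith
      linarith
  have hpt' : ∀ m k : ℕ, k < 2 ^ m → a + ((k : ℝ) + 1) * L / 2 ^ m ∈ Icc a (a + L) := by
    intro m k hk
    have := hpt m (k + 1) hk
    push_cast at this
    exact this
  -- the bad sets
  obtain ⟨B, hB⟩ : ∃ B : ℕ → ℕ → Set Ω, B = fun (m k : ℕ) =>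
      {ω | c m < |Z (a + ((k : ℝ) + 1) * L / 2 ^ m) ω - Z (a + (k : ℝ) * L / 2 ^ m) ω|} :=
    ⟨_, rfl⟩
  have hBm : ∀ m k : ℕ, k < 2 ^ m → P (B m k) ≤ ENNReal.ofReal (A * φ ^ m / 2 ^ m) := by
    intro m k hk
    have hs := hpt m k hk.le
    have ht := hpt' m k hk
    have hmeas : AEMeasurable (fun ω => ENNReal.ofReal
        (|Z (a + ((k : ℝ) + 1) * L / 2 ^ m) ω - Z (a + (k : ℝ) * L / 2 ^ m) ω| ^ p)) P := by
      apply Measurable.aemeasurable
      apply ENNReal.measurable_ofReal.comp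
      exact (((hm _ ht).sub (hm _ hs)).abs).pow_const p
    have hsub : B m k ⊆ {ω | ENNReal.ofReal ((c m) ^ p) ≤ ENNReal.ofReal
        (|Z (a + ((k : ℝ) + 1) * L / 2 ^ m) ω - Z (a + (k : ℝ) * L / 2 ^ m) ω| ^ p)} := by
      intro ω hω
      rw [hB] at hω
      simp only [Set.mem_setOf_eq] at hω ⊢
      exact ENNReal.ofReal_le_ofReal (pow_le_pow_left₀ (hcpos m).le hω.le p)
    have hε0 : ENNReal.ofReal ((c m) ^ p) ≠ 0 := by
      have : 0 < (c m) ^ p := pow_pos (hcpos m) p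
      rw [Ne, ENNReal.ofReal_eq_zero, not_le]
      exact this
    have hmarkov := meas_ge_le_lintegral_div hmeas hε0 ENNReal.ofReal_ne_top
    refine (measure_mono hsub).trans (hmarkov.trans ?_)
    have hmo := hmom _ hs _ ht
    have hdiff : |a + ((k : ℝ) + 1) * L / 2 ^ m - (a + (k : ℝ) * L / 2 ^ m)| = L / 2 ^ m := by
      have : a + ((k : ℝ) + 1) * L / 2 ^ m - (a + (k : ℝ) * L / 2 ^ m) = L / 2 ^ m := by ring
      rw [this, abs_of_pos (by positivity)]
    rw [hdiff] at hmo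
    refine (ENNReal.div_le_div_right hmo _).trans ?_
    rw [← ENNReal.ofReal_div_of_pos (pow_pos (hcpos m) p)]
    apply ENNReal.ofReal_le_ofReal
    apply le_of_eq
    rw [Real.div_rpow hL.le (by positivity), h2β, hcdef, hA]
    simp only
    rw [mul_pow, mul_pow, ← pow_mul, mul_comm m p, pow_mul, hθφ]
    field_simp
  -- inclusion
  have hincl : {ω | ∃ t ∈ Icc a (a + L), η < |Z t ω - Z a ω|} ⊆
      ⋃ m : ℕ, ⋃ k ∈ Finset.range (2 ^ m), B m k := by
    intro ω hω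
    obtain ⟨t, ht, htη⟩ := hω
    by_contra hcon
    simp only [Set.mem_iUnion, Finset.mem_range, not_exists] at hcon
    have hle : ∀ m k : ℕ, k < 2 ^ m →
        |Z (a + ((k : ℝ) + 1) * L / 2 ^ m) ω - Z (a + (k : ℝ) * L / 2 ^ m) ω| ≤ c m := by
      intro m k hk
      have h1 := hcon m k hk
      rw [hB] at h1
      simp only [Set.mem_setOf_eq, not_lt] at h1
      exact h1
    have := dyadic_chain (f := fun t => Z t ω) hL (hc ω) (fun m => (hcpos m).le) hsum.summable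
      hsum.tsum_eq.le hle ht
    linarith
  calc P {ω | ∃ t ∈ Icc a (a + L), η < |Z t ω - Z a ω|}
      ≤ P (⋃ m : ℕ, ⋃ k ∈ Finset.range (2 ^ m), B m k) := measure_mono hincl
    _ ≤ ∑' m : ℕ, P (⋃ k ∈ Finset.range (2 ^ m), B m k) := measure_iUnion_le _
    _ ≤ ∑' m : ℕ, ENNReal.ofReal (A * φ ^ m) := by
        apply ENNReal.tsum_le_tsum
        intro m
        refine (measure_biUnion_finset_le _ _).trans ?_
        calc ∑ k ∈ Finset.range (2 ^ m), P (B m k)
            ≤ ∑ k ∈ Finset.range (2 ^ m), ENNReal.ofReal (A * φ ^ m / 2 ^ m) :=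
              Finset.sum_le_sum fun k hk => hBm m k (Finset.mem_range.mp hk)
          _ = ENNReal.ofReal (A * φ ^ m) := by
              rw [Finset.sum_const, Finset.card_range, nsmul_eq_mul]
              have h1 : ((2 ^ m : ℕ) : ℝ≥0∞) = ENNReal.ofReal ((2 : ℝ) ^ m) := by
                rw [ENNReal.ofReal_pow (by norm_num)]
                simp
              rw [h1, ← ENNReal.ofReal_mul (by positivity)]
              congr 1
              field_simp
    _ = ENNReal.ofReal (∑' m : ℕ, A * φ ^ m) := by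
        rw [ENNReal.ofReal_tsum_of_nonneg]
        · intro m; positivity
        · exact (summable_geometric_of_lt_one hφ0.le hφ1).mul_left A
    _ ≤ ENNReal.ofReal (chC p β * K * L ^ (1 + β) / η ^ p) := by
        apply ENNReal.ofReal_le_ofReal
        apply le_of_eq
        rw [tsum_mul_left, tsum_geometric_of_lt_one hφ0.le hφ1, hA]
        unfold chC
        rw [← hθ, ← hφ]
        field_simp

end Pool.Agent.Lib.MP_e19099_pr.F
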