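import Mathlib

set_option autoImplicit false

open MeasureTheory ProbabilityTheory Filter Topology Set
open scoped NNReal ENNReal

namespace Pool.Agent.Lib.MP_e19099_pr.F

private theorem dg_four_abs (z : ℝ) : |z| ^ (4 : ℝ) = z ^ 4 := by
  have h : |z| ^ 4 = z ^ 4 := by
    have : |z| ^ 4 = (|z| ^ 2) ^ 2 := by ring
    rw [this, sq_abs]
    ring
  rw [show (4 : ℝ) = ((4 : ℕ) : ℝ) by norm_num, Real.rpow_natCast, h]

private theorem dg_std : ∫ z, z ^ 4 ∂(gaussianReal 0 1) = 3 := by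
  rw [integral_gaussianReal_eq_integral_smul one_ne_zero, gaussianPDFReal_def]
  have e1 : ∀ x : ℝ, ((√(2 * Real.pi * ((1 : ℝ≥0) : ℝ)))⁻¹ *
      Real.exp (-(x - 0) ^ 2 / (2 * ((1 : ℝ≥0) : ℝ)))) • x ^ 4 =
      (fun y : ℝ => (√(2 * Real.pi))⁻¹ * (y ^ (4 : ℝ) * Real.exp (-(1 / 2) * y ^ (2 : ℝ)))) |x| := by
    intro x
    simp only [NNReal.coe_one, mul_one, sub_zero, smul_eq_mul]
    have h1 : -x ^ 2 / 2 = -(1 / 2) * |x| ^ (2 : ℝ) := by
      rw [Real.rpow_two, sq_abs]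
      ring
    rw [h1, dg_four_abs]
    ring
  simp only [e1]
  rw [integral_comp_abs (f := fun y : ℝ => (√(2 * Real.pi))⁻¹ *
    (y ^ (4 : ℝ) * Real.exp (-(1 / 2) * y ^ (2 : ℝ)))), integral_const_mul,
    integral_rpow_mul_exp_neg_mul_rpow (by norm_num) (by norm_num) (by norm_num)]
  have h2 : (1 / 2 : ℝ) ^ (-(4 + 1) / 2 : ℝ) = 4 * √2 := by
    rw [one_div, Real.inv_rpow (by norm_num), ← Real.rpow_neg (by norm_num), Real.sqrt_eq_rpow]
    have : (4 : ℝ) = 2 ^ (2 : ℝ) := by rw [Real.rpow_two]; norm_num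
    nth_rewrite 2 [this]
    rw [← Real.rpow_add (by norm_num)]
    congr 1
    norm_num
  have h5 : ((4 : ℝ) + 1) / 2 = (1 / 2 + 1) + 1 := by norm_num
  rw [h2, Real.sqrt_mul (by norm_num) Real.pi, h5, Real.Gamma_add_one (by norm_num),
    Real.Gamma_add_one (by norm_num), Real.Gamma_one_half_eq]
  have h3 : √2 ≠ 0 := by positivity
  have h4 : √Real.pi ≠ 0 := by
    have := Real.pi_pos
    positivity
  field_simp
  norm_num

private theorem dg_var (v : ℝ≥0) : ∫ z, z ^ 4 ∂(gaussianReal 0 v) = 3 * (v : ℝ) ^ 2 := by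
  have h1 := gaussianReal_map_const_mul (μ := 0) (v := 1) (√(v : ℝ))
  have h2 : (NNReal.mk (√(v : ℝ) ^ 2) (sq_nonneg _) * 1 : ℝ≥0) = v := by
    rw [mul_one]
    apply NNReal.coe_injective
    exact Real.sq_sqrt v.coe_nonneg
  rw [mul_zero, h2] at h1
  rw [← h1, integral_map (by fun_prop) (by fun_prop)]
  have e3 : √(v : ℝ) ^ 4 = (v : ℝ) ^ 2 := by
    have : √(v : ℝ) ^ 4 = (√(v : ℝ) ^ 2) ^ 2 := by ring
    rw [this, Real.sq_sqrt v.coe_nonneg]
  have e4 : ∀ z : ℝ, (√(v : ℝ) * z) ^ 4 = (v : ℝ) ^ 2 * z ^ 4 := fun z => by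
    rw [mul_pow, e3]
  simp_rw [e4]
  rw [integral_const_mul, dg_std]
  ring

private theorem dg_one {Ω : Type*} [MeasurableSpace Ω] {P : Measure Ω} {Z : Ω → ℝ}
    (h : HasGaussianLaw Z P) (hZ : ∫ ω, Z ω ∂P = 0) :
    ∫ ω, (Z ω) ^ 4 ∂P = 3 * (∫ ω, (Z ω) ^ 2 ∂P) ^ 2 := by
  have hP := h.isProbabilityMeasure
  have hlaw := h.map_eq_gaussianReal
  have hm : AEMeasurable Z P := h.aemeasurable
  have hvar : Var[Z; P] = ∫ ω, (Z ω) ^ 2 ∂P := by
    rw [variance_eq_integral hm, hZ]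
    simp
  rw [hZ, hvar] at hlaw
  have h1 : ∫ ω, (Z ω) ^ 4 ∂P = ∫ z, z ^ 4 ∂(P.map Z) := by
    rw [integral_map hm (by fun_prop)]
  rw [h1, hlaw, dg_var, Real.coe_toNNReal _ (integral_nonneg fun ω => sq_nonneg _)]

private theorem dg_int {Ω : Type*} [MeasurableSpace Ω] {P : Measure Ω} {Z : Ω → ℝ}
    (h : HasGaussianLaw Z P) : Integrable (fun ω => (Z ω) ^ 4) P := by
  have hP := h.isProbabilityMeasure
  have h1 : MemLp Z ((4 : ℕ) : ℝ≥0∞) P := h.memLp (by norm_num)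
  have h2 := h1.integrable_norm_pow'
  refine h2.congr (Eventually.of_forall fun ω => ?_)
  show ‖Z ω‖ ^ 4 = Z ω ^ 4
  rw [Real.norm_eq_abs]
  have : |Z ω| ^ 4 = (|Z ω| ^ 2) ^ 2 := by ring
  rw [this, sq_abs]
  ring

/-- `E X²Y² = E X² E Y² + 2 (E XY)²` for centred jointly Gaussian `X, Y`: write
`Y = a X + W` with `W` independent of `X` (or polarise the fourth moment: for each real `t` the
variable `X + t Y` is centred Gaussian with variance `q t`, so `E (X + tY)^4 = 3 (q t)^2`; compare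
the coefficients of `t^2`). Mathlib may have the moments of `gaussianReal` or Isserlis. -/
theorem gauss_sq_mul_sq {Ω : Type*} [MeasurableSpace Ω] {P : Measure Ω} {X Y : Ω → ℝ}
    (h : HasGaussianLaw (fun ω => (X ω, Y ω)) P) (hX : ∫ ω, X ω ∂P = 0)
    (hY : ∫ ω, Y ω ∂P = 0) :
    ∫ ω, (X ω) ^ 2 * (Y ω) ^ 2 ∂P =
      (∫ ω, (X ω) ^ 2 ∂P) * (∫ ω, (Y ω) ^ 2 ∂P) + 2 * (∫ ω, X ω * Y ω ∂P) ^ 2 := by
  have gX := h.fst
  have gY := h.snd
  have gA := h.fun_add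
  have gS := h.fun_sub
  have hP := gX.isProbabilityMeasure
  have iX : Integrable X P := gX.integrable
  have iY : Integrable Y P := gY.integrable
  have mA : ∫ ω, (X ω + Y ω) ∂P = 0 := by
    rw [integral_add iX iY, hX, hY, add_zero]
  have mS : ∫ ω, (X ω - Y ω) ∂P = 0 := by
    rw [integral_sub iX iY, hX, hY, sub_zero]
  have q1 := dg_one gX hX
  have q2 := dg_one gY hY
  have q3 := dg_one gA mA
  have q4 := dg_one gS mS
  have j1 := dg_int gX
  have j2 := dg_int gY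
  have j3 := dg_int gA
  have j4 := dg_int gS
  have k1 : Integrable (fun ω => (X ω) ^ 2) P := gX.memLp_two.integrable_sq
  have k2 : Integrable (fun ω => (Y ω) ^ 2) P := gY.memLp_two.integrable_sq
  have k3 : Integrable (fun ω => X ω * Y ω) P := gX.memLp_two.integrable_mul gY.memLp_two
  have eA : ∫ ω, (X ω + Y ω) ^ 2 ∂P = (∫ ω, (X ω) ^ 2 ∂P) + 2 * (∫ ω, X ω * Y ω ∂P) +
      ∫ ω, (Y ω) ^ 2 ∂P := by
    have k4 : Integrable (fun ω => 2 * (X ω * Y ω)) P := k3.const_mul 2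
    have k5 : Integrable (fun ω => (X ω) ^ 2 + 2 * (X ω * Y ω)) P := k1.add k4
    rw [← integral_const_mul, ← integral_add k1 k4, ← integral_add k5 k2]
    refine integral_congr_ae (Eventually.of_forall fun ω => ?_)
    ring
  have eS : ∫ ω, (X ω - Y ω) ^ 2 ∂P = (∫ ω, (X ω) ^ 2 ∂P) - 2 * (∫ ω, X ω * Y ω ∂P) +
      ∫ ω, (Y ω) ^ 2 ∂P := by
    have k4 : Integrable (fun ω => 2 * (X ω * Y ω)) P := k3.const_mul 2
    have k5 : Integrable (fun ω => (X ω) ^ 2 - 2 * (X ω * Y ω)) P := k1.sub k4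
    rw [← integral_const_mul, ← integral_sub k1 k4, ← integral_add k5 k2]
    refine integral_congr_ae (Eventually.of_forall fun ω => ?_)
    ring
  have hmain : ∫ ω, (X ω) ^ 2 * (Y ω) ^ 2 ∂P = ((∫ ω, (X ω + Y ω) ^ 4 ∂P) +
      (∫ ω, (X ω - Y ω) ^ 4 ∂P) - 2 * (∫ ω, (X ω) ^ 4 ∂P) - 2 * (∫ ω, (Y ω) ^ 4 ∂P)) / 12 := by
    have l1 : Integrable (fun ω => (X ω + Y ω) ^ 4 + (X ω - Y ω) ^ 4) P := j3.add j4
    have l2 : Integrable (fun ω => 2 * (X ω) ^ 4) P := j1.const_mul 2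
    have l3 : Integrable (fun ω => 2 * (Y ω) ^ 4) P := j2.const_mul 2
    have l4 : Integrable (fun ω => (X ω + Y ω) ^ 4 + (X ω - Y ω) ^ 4 - 2 * (X ω) ^ 4) P :=
      l1.sub l2
    rw [← integral_const_mul, ← integral_const_mul, ← integral_add j3 j4, ← integral_sub l1 l2,
      ← integral_sub l4 l3, ← integral_div]
    refine integral_congr_ae (Eventually.of_forall fun ω => ?_)
    ring
  rw [hmain, q1, q2, q3, q4, eA, eS]
  ring

end Pool.Agent.Lib.MP_e19099_pr.F
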