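import Pool.Agent.Lib.MP_e19099_pr.D_Incr
import Pool.Agent.Lib.MP_e19099_pr.D_Gauss

set_option autoImplicit false

open MeasureTheory ProbabilityTheory Filter Topology Set
open scoped NNReal ENNReal

namespace Pool.Agent.Lib.MP_e19099_pr.F

variable {H : ℝ} {Ω : Type*} [MeasurableSpace Ω] {B : ℝ → Ω → ℝ} {P : Measure Ω}

theorem incr_cov (hB : IsFBM H B P) (hH : 0 < H) (x y h : ℝ) :
    ∫ ω, (B (x + h) ω - B x ω) * (B (y + h) ω - B y ω) ∂P = rk H (x - y) h := by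
  haveI := hB.isProb
  have hm : ∀ u v, Integrable (fun ω => B u ω * B v ω) P := fun u v =>
    (hB.gauss.hasGaussianLaw_eval u).memLp_two.integrable_mul
      (hB.gauss.hasGaussianLaw_eval v).memLp_two
  have e : ∀ ω, (B (x + h) ω - B x ω) * (B (y + h) ω - B y ω) =
      B (x + h) ω * B (y + h) ω - B (x + h) ω * B y ω - B x ω * B (y + h) ω + B x ω * B y ω := by
    intro ω
    ring
  simp_rw [e]
  have j1 : Integrable (fun ω => B (x + h) ω * B (y + h) ω - B (x + h) ω * B y ω) P :=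
    (hm _ _).sub (hm _ _)
  have j2 : Integrable (fun ω => B (x + h) ω * B (y + h) ω - B (x + h) ω * B y ω -
      B x ω * B (y + h) ω) P := j1.sub (hm _ _)
  rw [integral_add j2 (hm _ _), integral_sub j1 (hm _ _), integral_sub (hm _ _) (hm _ _),
    hB.cov, hB.cov, hB.cov, hB.cov]
  unfold rk
  rw [show x + h - (y + h) = x - y by ring, show x + h - y = x - y + h by ring,
    show x - (y + h) = x - y - h by ring]
  ring

theorem integrable_incr_pow (hB : IsFBM H B P) (hH : 0 < H) (x h : ℝ) (n : ℕ) :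
    Integrable (fun ω => (B (x + h) ω - B x ω) ^ n) P := by
  haveI := hB.isProb
  have h1 : HasGaussianLaw (fun ω => B (x + h) ω - B x ω) P := hB.gauss.hasGaussianLaw_fun_sub
  have h2 : MemLp (fun ω => B (x + h) ω - B x ω) n P := h1.memLp (ENNReal.natCast_ne_top n)
  have h3 := h2.integrable_norm_pow'
  refine h3.mono ((((hB.meas _).sub (hB.meas _)).pow_const n).aestronglyMeasurable) ?_
  filter_upwards with ω
  rw [norm_pow, norm_pow, norm_norm]

/-- covariance of centred squares -/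
theorem incr_sq_cov (hB : IsFBM H B P) (hH : 0 < H) (x y h : ℝ) :
    ∫ ω, ((B (x + h) ω - B x ω) ^ 2 - |h| ^ (2 * H)) *
        ((B (y + h) ω - B y ω) ^ 2 - |h| ^ (2 * H)) ∂P = 2 * (rk H (x - y) h) ^ 2 := by
  haveI := hB.isProb
  have hx2 := integrable_incr_pow hB hH x h 2
  have hy2 := integrable_incr_pow hB hH y h 2
  have hx4 := integrable_incr_pow hB hH x h 4
  have hy4 := integrable_incr_pow hB hH y h 4
  have hxy : Integrable (fun ω => (B (x + h) ω - B x ω) ^ 2 * (B (y + h) ω - B y ω) ^ 2) P := by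
    refine (hx4.add hy4).mono' (((((hB.meas _).sub (hB.meas _)).pow_const 2).mul
      (((hB.meas _).sub (hB.meas _)).pow_const 2)).aestronglyMeasurable) ?_
    filter_upwards with ω
    rw [Real.norm_eq_abs, abs_of_nonneg (by positivity)]
    simp only [Pi.add_apply]
    nlinarith [sq_nonneg ((B (x + h) ω - B x ω) ^ 2 - (B (y + h) ω - B y ω) ^ 2),
      sq_nonneg ((B (x + h) ω - B x ω) ^ 2), sq_nonneg ((B (y + h) ω - B y ω) ^ 2)]
  have e : ∀ ω, ((B (x + h) ω - B x ω) ^ 2 - |h| ^ (2 * H)) *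
      ((B (y + h) ω - B y ω) ^ 2 - |h| ^ (2 * H)) =
      (B (x + h) ω - B x ω) ^ 2 * (B (y + h) ω - B y ω) ^ 2 -
        |h| ^ (2 * H) * (B (x + h) ω - B x ω) ^ 2 -
        |h| ^ (2 * H) * (B (y + h) ω - B y ω) ^ 2 + |h| ^ (2 * H) * |h| ^ (2 * H) := by
    intro ω
    ring
  simp_rw [e]
  have j1 : Integrable (fun ω => (B (x + h) ω - B x ω) ^ 2 * (B (y + h) ω - B y ω) ^ 2 -
      |h| ^ (2 * H) * (B (x + h) ω - B x ω) ^ 2) P := hxy.sub (hx2.const_mul _)
  have j2 : Integrable (fun ω => (B (x + h) ω - B x ω) ^ 2 * (B (y + h) ω - B y ω) ^ 2 -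
      |h| ^ (2 * H) * (B (x + h) ω - B x ω) ^ 2 -
      |h| ^ (2 * H) * (B (y + h) ω - B y ω) ^ 2) P := j1.sub (hy2.const_mul _)
  rw [integral_add j2 (integrable_const _), integral_sub j1 (hy2.const_mul _),
    integral_sub hxy (hx2.const_mul _), integral_const_mul, integral_const_mul,
    gauss_sq_mul_sq (incr_joint hB x h y h) (incr_mean hB x h) (incr_mean hB y h),
    incr_var hB hH, incr_var hB hH, incr_cov hB hH, integral_const, probReal_univ, one_smul]
  ring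

/-- `E |(Δ² - σ²)(Δ'² - σ²)| ≤ 2 σ⁴` by Cauchy-Schwarz -/
theorem incr_sq_cov_abs (hB : IsFBM H B P) (hH : 0 < H) (x y h : ℝ) :
    ∫⁻ ω, ENNReal.ofReal |((B (x + h) ω - B x ω) ^ 2 - |h| ^ (2 * H)) *
        ((B (y + h) ω - B y ω) ^ 2 - |h| ^ (2 * H))| ∂P ≤
      ENNReal.ofReal (2 * |h| ^ (4 * H)) := by
  haveI := hB.isProb
  have hrk : rk H 0 h = |h| ^ (2 * H) := by
    unfold rk
    rw [zero_add, zero_sub, abs_neg, abs_zero, Real.zero_rpow (by positivity)]
    ring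
  have hsq : ∀ z, ∫ ω, ((B (z + h) ω - B z ω) ^ 2 - |h| ^ (2 * H)) ^ 2 ∂P =
      2 * |h| ^ (4 * H) := by
    intro z
    have := incr_sq_cov hB hH z z h
    rw [sub_self, hrk] at this
    simp_rw [← pow_two] at this
    rw [this, ← Real.rpow_mul_natCast (abs_nonneg h)]
    congr 2
    push_cast
    ring
  have hint : ∀ z, Integrable (fun ω => ((B (z + h) ω - B z ω) ^ 2 - |h| ^ (2 * H)) ^ 2) P := by
    intro z
    have e : (fun ω => ((B (z + h) ω - B z ω) ^ 2 - |h| ^ (2 * H)) ^ 2) = fun ω =>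
        (B (z + h) ω - B z ω) ^ 4 - 2 * |h| ^ (2 * H) * (B (z + h) ω - B z ω) ^ 2 +
          (|h| ^ (2 * H)) ^ 2 := by
      funext ω
      ring
    rw [e]
    exact ((integrable_incr_pow hB hH z h 4).sub
      ((integrable_incr_pow hB hH z h 2).const_mul _)).add (integrable_const _)
  have hle : ∀ ω, |((B (x + h) ω - B x ω) ^ 2 - |h| ^ (2 * H)) *
      ((B (y + h) ω - B y ω) ^ 2 - |h| ^ (2 * H))| ≤
      (1 / 2) * (((B (x + h) ω - B x ω) ^ 2 - |h| ^ (2 * H)) ^ 2 +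
        ((B (y + h) ω - B y ω) ^ 2 - |h| ^ (2 * H)) ^ 2) := by
    intro ω
    rw [abs_mul]
    nlinarith [sq_nonneg (|(B (x + h) ω - B x ω) ^ 2 - |h| ^ (2 * H)| -
      |(B (y + h) ω - B y ω) ^ 2 - |h| ^ (2 * H)|), sq_abs ((B (x + h) ω - B x ω) ^ 2 -
      |h| ^ (2 * H)), sq_abs ((B (y + h) ω - B y ω) ^ 2 - |h| ^ (2 * H))]
  calc ∫⁻ ω, ENNReal.ofReal |((B (x + h) ω - B x ω) ^ 2 - |h| ^ (2 * H)) *
        ((B (y + h) ω - B y ω) ^ 2 - |h| ^ (2 * H))| ∂P ≤
      ∫⁻ ω, ENNReal.ofReal ((1 / 2) * (((B (x + h) ω - B x ω) ^ 2 - |h| ^ (2 * H)) ^ 2 +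
        ((B (y + h) ω - B y ω) ^ 2 - |h| ^ (2 * H)) ^ 2)) ∂P :=
        lintegral_mono fun ω => ENNReal.ofReal_le_ofReal (hle ω)
    _ = ENNReal.ofReal (∫ ω, (1 / 2) * (((B (x + h) ω - B x ω) ^ 2 - |h| ^ (2 * H)) ^ 2 +
        ((B (y + h) ω - B y ω) ^ 2 - |h| ^ (2 * H)) ^ 2) ∂P) := by
        refine (ofReal_integral_eq_lintegral_ofReal ?_ ?_).symm
        · exact ((hint x).add (hint y)).const_mul _
        · exact Filter.Eventually.of_forall fun ω => by positivity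
    _ = ENNReal.ofReal (2 * |h| ^ (4 * H)) := by
        rw [integral_const_mul, integral_add (hint x) (hint y), hsq, hsq]
        congr 1
        ring

end Pool.Agent.Lib.MP_e19099_pr.F
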