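import Pool.Agent.Lib.MP_e19099_pr.DGood

set_option autoImplicit false

open MeasureTheory ProbabilityTheory Filter Topology Set
open scoped NNReal ENNReal

namespace Pool.Agent.Lib.MP_e19099_pr.F

/-- `B` is a two-sided fractional Brownian motion with Hurst index `H`, with almost surely
continuous paths: a centred Gaussian process on the real line with the usual covariance. -/
structure IsFBM {Ω : Type*} [MeasurableSpace Ω] (H : ℝ) (B : ℝ → Ω → ℝ) (P : Measure Ω) :
    Prop where
  meas : ∀ x, Measurable (B x)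
  gauss : IsGaussianProcess B P
  mean : ∀ x, ∫ ω, B x ω ∂P = 0
  cov : ∀ x y, ∫ ω, B x ω * B y ω ∂P =
    (|x| ^ (2 * H) + |y| ^ (2 * H) - |x - y| ^ (2 * H)) / 2
  cont : ∀ᵐ ω ∂P, Continuous fun x => B x ω

/-- covariance of two increments of length `h` at distance `d` -/
noncomputable def rk (H d h : ℝ) : ℝ :=
  (|d + h| ^ (2 * H) + |d - h| ^ (2 * H) - 2 * |d| ^ (2 * H)) / 2

/-- decay exponent -/
noncomputable def bet (H : ℝ) : ℝ := min (1 / 2) (2 - 2 * H)

theorem bet_pos {H : ℝ} (hH1 : H < 1) : 0 < bet H := by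
  unfold bet
  exact lt_min (by norm_num) (by linarith)

theorem bet_le {H : ℝ} : bet H ≤ 1 / 2 := min_le_left _ _

theorem bet_le' {H : ℝ} : bet H ≤ 2 - 2 * H := min_le_right _ _

/-- structure function with weight `g` -/
noncomputable def SF {Ω : Type*} (B : ℝ → Ω → ℝ) (g : ℝ → ℝ) (h : ℝ) (ω : Ω) : ℝ :=
  ∫ x, g x * (B (x + h) ω - B x ω) ^ 2

end Pool.Agent.Lib.MP_e19099_pr.F
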