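import Mathlib

open MeasureTheory ProbabilityTheory Filter Topology Set
open scoped NNReal ENNReal

namespace Pool.Agent.Lib.MP_e19099_pr.F

private theorem T03a_aux {f : ℝ → ℝ} {a L : ℝ}
    {c : ℕ → ℝ} (hc : ∀ m, 0 ≤ c m)
    (h : ∀ m k : ℕ, k < 2 ^ m →
      |f (a + (k + 1) * L / 2 ^ m) - f (a + k * L / 2 ^ m)| ≤ c m) (m : ℕ) :
    ∀ k : ℕ, k ≤ 2 ^ m → |f (a + k * L / 2 ^ m) - f a| ≤ ∑ j ∈ Finset.range (m + 1), c j := by
  induction m with
  | zero =>
    intro k hk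
    have hk' : k = 0 ∨ k = 1 := by
      rw [pow_zero] at hk
      omega
    rcases hk' with rfl | rfl
    · simp [hc 0]
    · have h1 := h 0 0 (by norm_num)
      simpa using h1
  | succ m ih =>
    intro k hk
    rw [Finset.sum_range_succ]
    rcases Nat.even_or_odd' k with ⟨j, rfl | rfl⟩
    · have h1 : a + ((2 * j : ℕ) : ℝ) * L / 2 ^ (m + 1) = a + (j : ℝ) * L / 2 ^ m := by
        rw [pow_succ]
        push_cast
        field_simp
      rw [h1]
      have h2 := ih j (by rw [pow_succ] at hk; omega)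
      linarith [hc (m + 1)]
    · have h1 : a + ((2 * j : ℕ) : ℝ) * L / 2 ^ (m + 1) = a + (j : ℝ) * L / 2 ^ m := by
        rw [pow_succ]
        push_cast
        field_simp
      have h2 := ih j (by rw [pow_succ] at hk; omega)
      have h3 := h (m + 1) (2 * j) (by omega)
      rw [h1] at h3
      have h4 : a + ((2 * j + 1 : ℕ) : ℝ) * L / 2 ^ (m + 1) =
          a + (((2 * j : ℕ) : ℝ) + 1) * L / 2 ^ (m + 1) := by
        push_cast
        ring
      rw [h4]
      have h5 := abs_sub_le (f (a + (((2 * j : ℕ) : ℝ) + 1) * L / 2 ^ (m + 1)))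
        (f (a + (j : ℝ) * L / 2 ^ m)) (f a)
      linarith

/-- deterministic part: a continuous function on `[a, a+L]` whose dyadic increments at level `m`
are at most `c m`, `Σ c m ≤ η`, satisfies `|f t - f a| ≤ η`. -/
theorem dyadic_chain {f : ℝ → ℝ} {a L η : ℝ} (hL : 0 < L) (hf : ContinuousOn f (Icc a (a + L)))
    {c : ℕ → ℝ} (hc : ∀ m, 0 ≤ c m) (hs : Summable c) (hη : ∑' m, c m ≤ η)
    (h : ∀ m k : ℕ, k < 2 ^ m →
      |f (a + (k + 1) * L / 2 ^ m) - f (a + k * L / 2 ^ m)| ≤ c m)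
    {t : ℝ} (ht : t ∈ Icc a (a + L)) : |f t - f a| ≤ η := by
  set k : ℕ → ℕ := fun m => ⌊(t - a) / L * 2 ^ m⌋₊ with hk
  set u : ℕ → ℝ := fun m => a + (k m : ℝ) * L / 2 ^ m with hu
  have hq0 : 0 ≤ (t - a) / L := div_nonneg (by linarith [ht.1]) hL.le
  have hq1 : (t - a) / L ≤ 1 := by
    rw [div_le_one hL]
    linarith [ht.2]
  have hkle : ∀ m, k m ≤ 2 ^ m := by
    intro m
    have h1 : (t - a) / L * 2 ^ m ≤ ((2 ^ m : ℕ) : ℝ) := by
      push_cast
      have : (0 : ℝ) < 2 ^ m := by positivity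
      nlinarith
    exact Nat.floor_le_of_le h1
  have hk1 : ∀ m, (k m : ℝ) ≤ (t - a) / L * 2 ^ m := fun m => Nat.floor_le (by positivity)
  have hk2 : ∀ m, (t - a) / L * 2 ^ m < (k m : ℝ) + 1 := fun m => Nat.lt_floor_add_one _
  have hule : ∀ m, u m ≤ t := by
    intro m
    have h1 := hk1 m
    have h2 : (k m : ℝ) * L / 2 ^ m ≤ t - a := by
      rw [div_le_iff₀ (by positivity)]
      calc (k m : ℝ) * L ≤ (t - a) / L * 2 ^ m * L := mul_le_mul_of_nonneg_right h1 hL.le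
        _ = (t - a) * 2 ^ m := by field_simp
    show a + (k m : ℝ) * L / 2 ^ m ≤ t
    linarith
  have huge : ∀ m, t - L / 2 ^ m ≤ u m := by
    intro m
    have h1 := (hk2 m).le
    have h2 : t - a ≤ ((k m : ℝ) + 1) * L / 2 ^ m := by
      rw [le_div_iff₀ (by positivity)]
      calc (t - a) * 2 ^ m = (t - a) / L * 2 ^ m * L := by field_simp
        _ ≤ ((k m : ℝ) + 1) * L := mul_le_mul_of_nonneg_right h1 hL.le
    have h3 : ((k m : ℝ) + 1) * L / 2 ^ m = (k m : ℝ) * L / 2 ^ m + L / 2 ^ m := by ring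
    show t - L / 2 ^ m ≤ a + (k m : ℝ) * L / 2 ^ m
    linarith
  have huIcc : ∀ m, u m ∈ Icc a (a + L) := by
    intro m
    refine ⟨?_, (hule m).trans ht.2⟩
    show a ≤ a + (k m : ℝ) * L / 2 ^ m
    have : 0 ≤ (k m : ℝ) * L / 2 ^ m := by positivity
    linarith
  have hpow : Tendsto (fun m : ℕ => L / 2 ^ m) atTop (𝓝 0) := by
    have h1 : Tendsto (fun m : ℕ => L * (1 / 2 : ℝ) ^ m) atTop (𝓝 (L * 0)) :=
      (tendsto_pow_atTop_nhds_zero_of_lt_one (by norm_num) (by norm_num)).const_mul L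
    rw [mul_zero] at h1
    refine h1.congr fun m => ?_
    rw [one_div, inv_pow, ← div_eq_mul_inv]
  have hut : Tendsto u atTop (𝓝 t) := by
    have h1 : Tendsto (fun m : ℕ => t - L / 2 ^ m) atTop (𝓝 (t - 0)) :=
      tendsto_const_nhds.sub hpow
    rw [sub_zero] at h1
    exact tendsto_of_tendsto_of_tendsto_of_le_of_le h1 tendsto_const_nhds huge hule
  have hfu : Tendsto (fun m => f (u m)) atTop (𝓝 (f t)) :=
    (hf t ht).tendsto.comp (tendsto_nhdsWithin_iff.mpr ⟨hut, Eventually.of_forall huIcc⟩)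
  have hlim : Tendsto (fun m => |f (u m) - f a|) atTop (𝓝 |f t - f a|) :=
    (hfu.sub tendsto_const_nhds).abs
  refine le_of_tendsto hlim (Eventually.of_forall fun m => ?_)
  calc |f (u m) - f a| ≤ ∑ j ∈ Finset.range (m + 1), c j := T03a_aux hc h m (k m) (hkle m)
    _ ≤ ∑' j, c j := hs.sum_le_tsum _ (fun j _ => hc j)
    _ ≤ η := hη

end Pool.Agent.Lib.MP_e19099_pr.F
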