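import Pool.Agent.Lib.MP_e19099_pr.D_Defs

set_option autoImplicit false

open MeasureTheory ProbabilityTheory Filter Topology Set
open scoped NNReal ENNReal

namespace Pool.Agent.Lib.MP_e19099_pr.F

private theorem far_bd (b : ℝ) :
    ∃ M : ℝ, 0 ≤ M ∧ ∀ x : ℝ, 3 / 4 ≤ x → x ≤ 5 / 4 → |x ^ b| ≤ M := by
  have hc : ContinuousOn (fun x : ℝ => x ^ b) (Icc (3 / 4) (5 / 4)) := by
    intro x hx
    refine ContinuousAt.continuousWithinAt ?_
    refine Real.continuousAt_rpow_const x b (Or.inl ?_)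
    have := hx.1
    intro h0
    rw [h0] at this
    norm_num at this
  obtain ⟨M, hM⟩ := isCompact_Icc.exists_bound_of_continuousOn hc
  refine ⟨M, (norm_nonneg _).trans (hM 1 ⟨by norm_num, by norm_num⟩), fun x h1 h2 => ?_⟩
  have := hM x ⟨h1, h2⟩
  rwa [Real.norm_eq_abs] at this

/-- first order increments of powers near `1` -/
private theorem far_first (b : ℝ) :
    ∃ K : ℝ, 0 ≤ K ∧ ∀ t : ℝ, |t| ≤ 1 / 4 → |(1 + t) ^ b - (1 - t) ^ b| ≤ K * |t| := by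
  obtain ⟨M, hM0, hM⟩ := far_bd (b - 1)
  refine ⟨2 * (|b| * M), by positivity, fun t ht => ?_⟩
  have h1 : ∀ x ∈ Icc (3 / 4 : ℝ) (5 / 4),
      HasDerivWithinAt (fun x : ℝ => x ^ b) (b * x ^ (b - 1)) (Icc (3 / 4) (5 / 4)) x := by
    intro x hx
    have hx0 : x ≠ 0 := by
      intro h0
      have := hx.1
      rw [h0] at this
      norm_num at this
    exact (Real.hasDerivAt_rpow_const (Or.inl hx0)).hasDerivWithinAt
  have h2 : ∀ x ∈ Icc (3 / 4 : ℝ) (5 / 4), ‖b * x ^ (b - 1)‖ ≤ |b| * M := by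
    intro x hx
    rw [norm_mul, Real.norm_eq_abs, Real.norm_eq_abs]
    exact mul_le_mul_of_nonneg_left (hM x hx.1 hx.2) (abs_nonneg _)
  have ht' := abs_le.1 ht
  have h3 := (convex_Icc (3 / 4 : ℝ) (5 / 4)).norm_image_sub_le_of_norm_hasDerivWithin_le h1 h2
    (x := 1 - t) (y := 1 + t) ⟨by linarith [ht'.2], by linarith [ht'.1]⟩
    ⟨by linarith [ht'.1], by linarith [ht'.2]⟩
  rw [Real.norm_eq_abs, Real.norm_eq_abs] at h3
  refine h3.trans (le_of_eq ?_)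
  have h4 : 1 + t - (1 - t) = 2 * t := by ring
  rw [h4, abs_mul, abs_of_pos (by norm_num : (0 : ℝ) < 2)]
  ring

/-- for `|t| ≤ 1/4`: `|(1+t)^a + (1-t)^a - 2| ≤ C t²` (Taylor, second derivative bounded) -/
theorem exists_second_diff (a : ℝ) :
    ∃ C, 0 < C ∧ ∀ t : ℝ, |t| ≤ 1 / 4 → |(1 + t) ^ a + (1 - t) ^ a - 2| ≤ C * t ^ 2 := by
  obtain ⟨K, hK0, hK⟩ := far_first (a - 1)
  refine ⟨|a| * K + 1, by positivity, fun t ht => ?_⟩
  have h1 : ∀ s ∈ Icc (-|t|) |t|, HasDerivWithinAt (fun s : ℝ => (1 + s) ^ a + (1 - s) ^ a - 2)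
      (a * ((1 + s) ^ (a - 1) - (1 - s) ^ (a - 1))) (Icc (-|t|) |t|) s := by
    intro s hs
    have hs1 : |s| ≤ 1 / 4 := (abs_le.2 hs).trans ht
    have hs2 := abs_le.1 hs1
    have hp : 1 + s ≠ 0 := by
      intro h0
      linarith [hs2.1]
    have hm : 1 - s ≠ 0 := by
      intro h0
      linarith [hs2.2]
    have d1 : HasDerivAt (fun s : ℝ => (1 + s) ^ a) (1 * a * (1 + s) ^ (a - 1)) s :=
      ((hasDerivAt_id s).const_add 1).rpow_const (Or.inl hp)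
    have d2 : HasDerivAt (fun s : ℝ => (1 - s) ^ a) (-1 * a * (1 - s) ^ (a - 1)) s :=
      ((hasDerivAt_id s).const_sub 1).rpow_const (Or.inl hm)
    have d3 := ((d1.add d2).sub_const 2)
    have e : 1 * a * (1 + s) ^ (a - 1) + -1 * a * (1 - s) ^ (a - 1) =
      a * ((1 + s) ^ (a - 1) - (1 - s) ^ (a - 1)) := by ring
    rw [e] at d3
    exact d3.hasDerivWithinAt
  have h2 : ∀ s ∈ Icc (-|t|) |t|,
      ‖a * ((1 + s) ^ (a - 1) - (1 - s) ^ (a - 1))‖ ≤ |a| * (K * |t|) := by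
    intro s hs
    have hs1 : |s| ≤ |t| := abs_le.2 hs
    rw [norm_mul, Real.norm_eq_abs, Real.norm_eq_abs]
    refine mul_le_mul_of_nonneg_left ?_ (abs_nonneg _)
    exact (hK s (hs1.trans ht)).trans (mul_le_mul_of_nonneg_left hs1 hK0)
  have h3 := (convex_Icc (-|t|) |t|).norm_image_sub_le_of_norm_hasDerivWithin_le h1 h2
    (x := 0) (y := t) ⟨by simp, abs_nonneg t⟩ ⟨neg_abs_le t, le_abs_self t⟩
  have e0 : (1 + (0 : ℝ)) ^ a + (1 - (0 : ℝ)) ^ a - 2 = 0 := by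
    rw [add_zero, sub_zero, Real.one_rpow]
    norm_num
  rw [Real.norm_eq_abs, Real.norm_eq_abs] at h3
  have e5 : ((1 + t) ^ a + (1 - t) ^ a - 2) - ((1 + (0 : ℝ)) ^ a + (1 - (0 : ℝ)) ^ a - 2) =
    (1 + t) ^ a + (1 - t) ^ a - 2 := by rw [e0, sub_zero]
  have h3' : |(1 + t) ^ a + (1 - t) ^ a - 2| ≤ |a| * (K * |t|) * |t - 0| := by
    rw [← e5]
    exact h3
  rw [sub_zero] at h3'
  refine h3'.trans ?_
  have h4 : |t| * |t| = t ^ 2 := by rw [← sq, sq_abs]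
  calc |a| * (K * |t|) * |t| = |a| * K * (|t| * |t|) := by ring
    _ = |a| * K * t ^ 2 := by rw [h4]
    _ ≤ (|a| * K + 1) * t ^ 2 := by nlinarith [sq_nonneg t]

/-- `rk² ≤ C |h|^(4H) (|h|/|d|)^β`: for `|d| ≤ 4 |h|` every term is at most `(5|h|)^(2H)`; for
`|d| > 4|h|` factor out `|d|^(2H)` and use `exists_second_diff` with `t = h/d`:
`rk² ≤ C |d|^(4H) t⁴ = C |h|^(4H) |t|^(4-4H)` and `bet H ≤ 4 - 4 H`, `|t| ≤ 1`. -/
theorem exists_rk_sq {H : ℝ} (hH : 0 < H) (hH1 : H < 1) :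
    ∃ C, 0 < C ∧ ∀ d h : ℝ, d ≠ 0 → h ≠ 0 →
      (rk H d h) ^ 2 ≤ C * |h| ^ (4 * H) * (|h| / |d|) ^ (bet H) := by
  obtain ⟨C0, hC0, hC⟩ := exists_second_diff (2 * H)
  have hb0 : 0 < bet H := bet_pos hH1
  have hb1 : bet H ≤ 1 / 2 := bet_le
  have hb2 : bet H ≤ 2 - 2 * H := bet_le'
  refine ⟨10000 + C0 ^ 2, by positivity, fun d h hd hh => ?_⟩
  have hdp : 0 < |d| := abs_pos.2 hd
  have hhp : 0 < |h| := abs_pos.2 hh
  have hX : 0 < |h| ^ (4 * H) * (|h| / |d|) ^ (bet H) := by positivity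
  rcases le_or_gt |d| (4 * |h|) with hcase | hcase
  · have hsq : (5 * |h|) ^ (2 * H) * (5 * |h|) ^ (2 * H) ≤ 625 * |h| ^ (4 * H) := by
      rw [← Real.rpow_add (by positivity), Real.mul_rpow (by norm_num) hhp.le]
      have e1 : 2 * H + 2 * H = 4 * H := by ring
      rw [e1]
      refine mul_le_mul_of_nonneg_right ?_ (by positivity)
      calc (5 : ℝ) ^ (4 * H) ≤ (5 : ℝ) ^ (4 : ℝ) :=
            Real.rpow_le_rpow_of_exponent_le (by norm_num) (by linarith)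
        _ = 625 := by
            rw [show (4 : ℝ) = ((4 : ℕ) : ℝ) by norm_num, Real.rpow_natCast]
            norm_num
    have hP : 0 < (5 * |h|) ^ (2 * H) := by positivity
    have a1 : |d + h| ^ (2 * H) ≤ (5 * |h|) ^ (2 * H) := by
      refine Real.rpow_le_rpow (abs_nonneg _) ?_ (by linarith)
      have := abs_add_le d h
      linarith
    have a2 : |d - h| ^ (2 * H) ≤ (5 * |h|) ^ (2 * H) := by
      refine Real.rpow_le_rpow (abs_nonneg _) ?_ (by linarith)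
      have := abs_sub d h
      linarith
    have a3 : |d| ^ (2 * H) ≤ (5 * |h|) ^ (2 * H) := by
      refine Real.rpow_le_rpow (abs_nonneg _) ?_ (by linarith)
      linarith
    have b1 : 0 ≤ |d + h| ^ (2 * H) := by positivity
    have b2 : 0 ≤ |d - h| ^ (2 * H) := by positivity
    have b3 : 0 ≤ |d| ^ (2 * H) := by positivity
    have hrk : |rk H d h| ≤ 2 * (5 * |h|) ^ (2 * H) := by
      unfold rk
      rw [abs_le]
      constructor <;> linarith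
    have hrk2 : (rk H d h) ^ 2 ≤ 2500 * |h| ^ (4 * H) := by
      rw [← sq_abs]
      calc |rk H d h| ^ 2 ≤ (2 * (5 * |h|) ^ (2 * H)) ^ 2 :=
            pow_le_pow_left₀ (abs_nonneg _) hrk 2
        _ = 4 * ((5 * |h|) ^ (2 * H) * (5 * |h|) ^ (2 * H)) := by ring
        _ ≤ 4 * (625 * |h| ^ (4 * H)) := by gcongr
        _ = 2500 * |h| ^ (4 * H) := by ring
    have hq : (1 : ℝ) / 4 ≤ (|h| / |d|) ^ (bet H) := by
      have h1 : (1 : ℝ) / 4 ≤ |h| / |d| := by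
        rw [div_le_div_iff₀ (by norm_num) hdp]
        linarith
      calc (1 : ℝ) / 4 = (1 / 4) ^ (1 : ℝ) := (Real.rpow_one _).symm
        _ ≤ (1 / 4) ^ (bet H) :=
            Real.rpow_le_rpow_of_exponent_ge (by norm_num) (by norm_num) (by linarith)
        _ ≤ (|h| / |d|) ^ (bet H) := Real.rpow_le_rpow (by norm_num) h1 hb0.le
    have hh4 : 0 < |h| ^ (4 * H) := by positivity
    calc (rk H d h) ^ 2 ≤ 2500 * |h| ^ (4 * H) := hrk2
      _ = 10000 * |h| ^ (4 * H) * (1 / 4) := by ring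
      _ ≤ 10000 * |h| ^ (4 * H) * (|h| / |d|) ^ (bet H) :=
          mul_le_mul_of_nonneg_left hq (by positivity)
      _ ≤ (10000 + C0 ^ 2) * |h| ^ (4 * H) * (|h| / |d|) ^ (bet H) := by
          have := mul_nonneg (sq_nonneg C0) hX.le
          nlinarith
  · set t := h / d with ht
    have htabs : |t| = |h| / |d| := abs_div h d
    have ht0 : 0 < |t| := by rw [htabs]; positivity
    have ht4 : |t| ≤ 1 / 4 := by
      rw [htabs, div_le_div_iff₀ hdp (by norm_num)]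
      linarith
    have ht' := abs_le.1 ht4
    have hdt : d * t = h := by rw [ht]; field_simp
    have c1 : |d + h| ^ (2 * H) = |d| ^ (2 * H) * (1 + t) ^ (2 * H) := by
      have e1 : d + h = d * (1 + t) := by rw [mul_add, mul_one, hdt]
      rw [e1, abs_mul, abs_of_pos (by linarith [ht'.1] : 0 < 1 + t),
        Real.mul_rpow hdp.le (by linarith [ht'.1])]
    have c2 : |d - h| ^ (2 * H) = |d| ^ (2 * H) * (1 - t) ^ (2 * H) := by
      have e1 : d - h = d * (1 - t) := by rw [mul_sub, mul_one, hdt]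
      rw [e1, abs_mul, abs_of_pos (by linarith [ht'.2] : 0 < 1 - t),
        Real.mul_rpow hdp.le (by linarith [ht'.2])]
    have c3 : rk H d h = |d| ^ (2 * H) * (((1 + t) ^ (2 * H) + (1 - t) ^ (2 * H) - 2) / 2) := by
      unfold rk
      rw [c1, c2]
      ring
    have c4 := hC t ht4
    have c5 : (((1 + t) ^ (2 * H) + (1 - t) ^ (2 * H) - 2) / 2) ^ 2 ≤ C0 ^ 2 * |t| ^ 4 := by
      have e1 : ((1 + t) ^ (2 * H) + (1 - t) ^ (2 * H) - 2) ^ 2 ≤ (C0 * t ^ 2) ^ 2 := by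
        rw [← sq_abs ((1 + t) ^ (2 * H) + (1 - t) ^ (2 * H) - 2)]
        exact pow_le_pow_left₀ (abs_nonneg _) c4 2
      have e2 : |t| ^ 4 = t ^ 4 := by
        rw [show (4 : ℕ) = 2 * 2 from rfl, pow_mul, sq_abs, ← pow_mul]
      rw [e2, div_pow]
      have e3 : 0 ≤ (C0 * t ^ 2) ^ 2 := sq_nonneg _
      have e4 : (C0 * t ^ 2) ^ 2 = C0 ^ 2 * t ^ 4 := by ring
      rw [e4] at e1 e3
      linarith
    have c6 : |t| ^ 4 ≤ |t| ^ (4 * H) * |t| ^ (bet H) := by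
      rw [← Real.rpow_add ht0]
      have e1 : |t| ^ 4 = |t| ^ (4 : ℝ) := by
        rw [show (4 : ℝ) = ((4 : ℕ) : ℝ) by norm_num, Real.rpow_natCast]
      rw [e1]
      exact Real.rpow_le_rpow_of_exponent_ge ht0 (by linarith) (by linarith)
    have c7 : (|d| ^ (2 * H)) ^ 2 * |t| ^ (4 * H) = |h| ^ (4 * H) := by
      have e1 : (|d| ^ (2 * H)) ^ 2 = |d| ^ (4 * H) := by
        rw [← Real.rpow_natCast, ← Real.rpow_mul hdp.le]
        congr 1
        push_cast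
        ring
      rw [e1, ← Real.mul_rpow hdp.le ht0.le, ← abs_mul, hdt]
    rw [← htabs] at hX ⊢
    calc (rk H d h) ^ 2
        = (|d| ^ (2 * H)) ^ 2 * (((1 + t) ^ (2 * H) + (1 - t) ^ (2 * H) - 2) / 2) ^ 2 := by
          rw [c3, mul_pow]
      _ ≤ (|d| ^ (2 * H)) ^ 2 * (C0 ^ 2 * |t| ^ 4) := by gcongr
      _ ≤ (|d| ^ (2 * H)) ^ 2 * (C0 ^ 2 * (|t| ^ (4 * H) * |t| ^ (bet H))) := by gcongr
      _ = C0 ^ 2 * ((|d| ^ (2 * H)) ^ 2 * |t| ^ (4 * H)) * |t| ^ (bet H) := by ring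
      _ = C0 ^ 2 * |h| ^ (4 * H) * |t| ^ (bet H) := by rw [c7]
      _ ≤ (10000 + C0 ^ 2) * |h| ^ (4 * H) * |t| ^ (bet H) := by nlinarith

end Pool.Agent.Lib.MP_e19099_pr.F
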