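import Mathlib

set_option autoImplicit false

open MeasureTheory ProbabilityTheory Filter Topology Set
open scoped NNReal ENNReal

namespace Pool.Agent.Lib.MP_e19099_pr.F

/-- lags `s (k+1)^(-p)` -/
noncomputable def lag (p : ℕ) (s : ℝ) (k : ℕ) : ℝ := s / ((k : ℝ) + 1) ^ p

/-- local L² modulus on `[-A, A]` from the weighted bound -/
theorem local_bound {H : ℝ} {b : ℝ → ℝ} (hb : Continuous b) {C : ℝ} (hC : 0 < C)
    (h : ∀ h : ℝ, |h| ≤ 1 →
      ∫⁻ x, ENNReal.ofReal (Real.exp (-x ^ 2 / 8) * (b (x + h) - b x) ^ 2) ≤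
        ENNReal.ofReal (C * |h| ^ (2 * H))) (A : ℝ) :
    ∃ C', 0 < C' ∧ ∀ h : ℝ, |h| ≤ 1 → ∀ c : ℝ, |c| ≤ 1 →
      ∫ x in Icc (-A) A, (b (x + c + h) - b (x + c)) ^ 2 ≤ C' * |h| ^ (2 * H) := by
  refine ⟨Real.exp ((|A| + 1) ^ 2 / 8) * C, by positivity, fun t ht c hc => ?_⟩
  set E : ℝ := Real.exp ((|A| + 1) ^ 2 / 8) with hE
  have hE0 : 0 < E := Real.exp_pos _
  have hcont : Continuous fun x => (b (x + c + t) - b (x + c)) ^ 2 := by
    have h1 : Continuous fun x => b (x + c + t) :=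
      hb.comp ((continuous_add_const c).add continuous_const)
    have h2 : Continuous fun x => b (x + c) := hb.comp (continuous_add_const c)
    fun_prop
  rw [integral_eq_lintegral_of_nonneg_ae (ae_of_all _ fun x => by positivity)
    hcont.aestronglyMeasurable]
  have key : ∫⁻ x in Icc (-A) A, ENNReal.ofReal ((b (x + c + t) - b (x + c)) ^ 2) ≤
      ENNReal.ofReal (E * C * |t| ^ (2 * H)) := by
    calc ∫⁻ x in Icc (-A) A, ENNReal.ofReal ((b (x + c + t) - b (x + c)) ^ 2)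
        ≤ ∫⁻ x in Icc (-A) A, ENNReal.ofReal E * ENNReal.ofReal
            (Real.exp (-(x + c) ^ 2 / 8) * (b (x + c + t) - b (x + c)) ^ 2) := by
          refine setLIntegral_mono' measurableSet_Icc fun x hx => ?_
          rw [← ENNReal.ofReal_mul hE0.le]
          refine ENNReal.ofReal_le_ofReal ?_
          rw [← mul_assoc]
          refine le_mul_of_one_le_left (by positivity) ?_
          rw [hE, ← Real.exp_add]
          refine Real.one_le_exp ?_
          have h1 : |x| ≤ |A| := abs_le_abs hx.2 (by linarith [hx.1])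
          have h2 : |x + c| ≤ |A| + 1 := (abs_add_le _ _).trans (add_le_add h1 hc)
          have h3 : (x + c) ^ 2 ≤ (|A| + 1) ^ 2 := by
            rw [← sq_abs (x + c)]
            exact pow_le_pow_left₀ (abs_nonneg _) h2 2
          linarith
      _ ≤ ∫⁻ x, ENNReal.ofReal E * ENNReal.ofReal
            (Real.exp (-(x + c) ^ 2 / 8) * (b (x + c + t) - b (x + c)) ^ 2) :=
          setLIntegral_le_lintegral _ _
      _ = ∫⁻ y, ENNReal.ofReal E * ENNReal.ofReal
            (Real.exp (-y ^ 2 / 8) * (b (y + t) - b y) ^ 2) :=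
          lintegral_add_right_eq_self (fun y => ENNReal.ofReal E * ENNReal.ofReal
            (Real.exp (-y ^ 2 / 8) * (b (y + t) - b y) ^ 2)) c
      _ = ENNReal.ofReal E * ∫⁻ y, ENNReal.ofReal
            (Real.exp (-y ^ 2 / 8) * (b (y + t) - b y) ^ 2) :=
          lintegral_const_mul' _ _ ENNReal.ofReal_ne_top
      _ ≤ ENNReal.ofReal E * ENNReal.ofReal (C * |t| ^ (2 * H)) := by
          gcongr
          exact h t ht
      _ = ENNReal.ofReal (E * C * |t| ^ (2 * H)) := by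
          rw [← ENNReal.ofReal_mul hE0.le, mul_assoc]
  refine (ENNReal.toReal_mono ENNReal.ofReal_ne_top key).trans (le_of_eq ?_)
  exact ENNReal.toReal_ofReal (by positivity)

private theorem sq_diff_le (u v η : ℝ) (hη : 0 < η) :
    |u ^ 2 - v ^ 2| ≤ 1 / (2 * η) * (u - v) ^ 2 + η * (u ^ 2 + v ^ 2) := by
  have h1 : |u ^ 2 - v ^ 2| = |u - v| * |u + v| := by
    rw [← abs_mul]
    congr 1
    ring
  have h2 : |u - v| * |u + v| ≤ 1 / (2 * η) * |u - v| ^ 2 + η / 2 * |u + v| ^ 2 := by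
    have h3 : 0 ≤ 1 / (2 * η) * (|u - v| - η * |u + v|) ^ 2 := by positivity
    have h4 : 1 / (2 * η) * (|u - v| - η * |u + v|) ^ 2 =
        1 / (2 * η) * |u - v| ^ 2 + η / 2 * |u + v| ^ 2 - |u - v| * |u + v| := by
      field_simp
      ring
    linarith
  rw [sq_abs, sq_abs] at h2
  have h5 : η / 2 * (u + v) ^ 2 ≤ η * (u ^ 2 + v ^ 2) := by
    nlinarith [sq_nonneg (u - v)]
  rw [h1]
  linarith

/-- the scale index -/
private noncomputable def nn (p : ℕ) (h : ℝ) : ℕ := ⌊(|h|⁻¹) ^ (1 / (p : ℝ))⌋₊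

private theorem nn_spec {p : ℕ} (hp : 1 ≤ p) {h : ℝ} (h0 : h ≠ 0) (h1 : |h| ≤ 1) :
    1 ≤ nn p h ∧ |h| ≤ 1 / (nn p h : ℝ) ^ p ∧ 1 / ((nn p h : ℝ) + 1) ^ p < |h| := by
  have ha : 0 < |h| := abs_pos.2 h0
  have hp0 : (0 : ℝ) < p := by exact_mod_cast hp
  have ht : 1 ≤ |h|⁻¹ := (one_le_inv₀ ha).2 h1
  have ht1 : 1 ≤ (|h|⁻¹) ^ (1 / (p : ℝ)) := Real.one_le_rpow ht (by positivity)
  have hN : 1 ≤ nn p h := Nat.le_floor (by simpa using ht1)
  have e : ((|h|⁻¹) ^ (1 / (p : ℝ))) ^ p = |h|⁻¹ := by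
    rw [← Real.rpow_natCast, ← Real.rpow_mul (by positivity), one_div,
      inv_mul_cancel₀ hp0.ne', Real.rpow_one]
  have h2 : ((nn p h : ℕ) : ℝ) ^ p ≤ |h|⁻¹ := by
    rw [← e]
    exact pow_le_pow_left₀ (by positivity) (Nat.floor_le (by positivity)) p
  have h3 : |h|⁻¹ < ((nn p h : ℝ) + 1) ^ p := by
    calc |h|⁻¹ = ((|h|⁻¹) ^ (1 / (p : ℝ))) ^ p := e.symm
      _ < ((nn p h : ℝ) + 1) ^ p :=
        pow_lt_pow_left₀ (Nat.lt_floor_add_one _) (by positivity) (by omega)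
  have hNp : (0 : ℝ) < (nn p h : ℝ) ^ p := by
    have : (0 : ℝ) < nn p h := by exact_mod_cast hN
    positivity
  refine ⟨hN, ?_, ?_⟩
  · rw [le_div_iff₀ hNp]
    calc |h| * (nn p h : ℝ) ^ p ≤ |h| * |h|⁻¹ := by gcongr
      _ = 1 := mul_inv_cancel₀ ha.ne'
  · rw [div_lt_iff₀ (by positivity)]
    calc (1 : ℝ) = |h| * |h|⁻¹ := (mul_inv_cancel₀ ha.ne').symm
      _ < |h| * ((nn p h : ℝ) + 1) ^ p := by gcongr

private theorem tendsto_nn {p : ℕ} (hp : 1 ≤ p) : Tendsto (nn p) (𝓝[≠] 0) atTop := by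
  have hp0 : (0 : ℝ) < p := by exact_mod_cast hp
  have h1 : Tendsto (fun h : ℝ => |h|⁻¹) (𝓝[≠] 0) atTop := by
    have h2 : Tendsto (fun h : ℝ => |h|) (𝓝[≠] 0) (𝓝[>] 0) := tendsto_abs_nhdsNE_zero
    exact tendsto_inv_nhdsGT_zero.comp h2
  have h2 : Tendsto (fun h : ℝ => (|h|⁻¹) ^ (1 / (p : ℝ))) (𝓝[≠] 0) atTop :=
    (tendsto_rpow_atTop (by positivity)).comp h1
  exact tendsto_nat_floor_atTop.comp h2

/-- From the sequence of lags `± (k+1)^(-p)` to all lags: for `h` of the sign `s` with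
`|lag (k+1)| < |h| ≤ |lag k|`, `∫ |g| |Δ_h² - Δ_k²| ≤ M ‖Δ_h - Δ_k‖ (‖Δ_h‖ + ‖Δ_k‖)` in
`L²[-A, A]`, `‖Δ_h - Δ_k‖² ≤ C' |h - lag k|^(2H)` by `local_bound` and
`|h - lag k| ≤ |lag k| - |lag (k+1)| = o(|lag k|)`, `|lag k| / |h| → 1`. -/
theorem full_of_seq {H : ℝ} (hH : 0 < H) {b : ℝ → ℝ} (hb : Continuous b) {C : ℝ} (hC : 0 < C)
    (h : ∀ h : ℝ, |h| ≤ 1 →
      ∫⁻ x, ENNReal.ofReal (Real.exp (-x ^ 2 / 8) * (b (x + h) - b x) ^ 2) ≤
        ENNReal.ofReal (C * |h| ^ (2 * H)))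
    {g : ℝ → ℝ} (hg : Continuous g) (hgc : HasCompactSupport g) {p : ℕ} (hp : 1 ≤ p) {c : ℝ}
    (hs : ∀ s : ℝ, s = 1 ∨ s = -1 →
      Tendsto (fun k : ℕ => |lag p s k| ^ (-(2 * H)) *
        ∫ x, g x * (b (x + lag p s k) - b x) ^ 2) atTop (𝓝 c)) :
    Tendsto (fun h : ℝ => |h| ^ (-(2 * H)) * ∫ x, g x * (b (x + h) - b x) ^ 2) (𝓝[≠] 0)
      (𝓝 c) := by
  obtain ⟨M, hM⟩ := hgc.exists_bound_of_continuous hg
  have hM0 : 0 ≤ M := (norm_nonneg _).trans (hM 0)
  obtain ⟨A, hA⟩ : ∃ A : ℝ, ∀ x, x ∉ Icc (-A) A → g x = 0 := by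
    obtain ⟨A, hA⟩ := hgc.isCompact.isBounded.subset_closedBall 0
    refine ⟨A, fun x hx => ?_⟩
    by_contra h0
    have h1 : x ∈ tsupport g := subset_tsupport g h0
    have h2 := hA h1
    rw [mem_closedBall_zero_iff, Real.norm_eq_abs, abs_le] at h2
    exact hx h2
  obtain ⟨C', hC', hloc⟩ := local_bound hb hC h A
  -- integral over the interval
  have hI : ∀ t : ℝ, ∫ x, g x * (b (x + t) - b x) ^ 2 =
      ∫ x in Icc (-A) A, g x * (b (x + t) - b x) ^ 2 := by
    intro t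
    rw [setIntegral_eq_integral_of_forall_compl_eq_zero]
    intro x hx
    rw [hA x hx, zero_mul]
  have hbt : ∀ t : ℝ, Continuous fun x => b (x + t) := fun t => hb.comp (continuous_add_const t)
  -- comparison of two lags
  have hcomp : ∀ t l η : ℝ, 0 < η → |t| ≤ 1 → |l| ≤ 1 → |t - l| ≤ 1 →
      |(∫ x, g x * (b (x + t) - b x) ^ 2) - ∫ x, g x * (b (x + l) - b x) ^ 2| ≤
        M * (1 / (2 * η) * (C' * |t - l| ^ (2 * H)) +
          η * (C' * |t| ^ (2 * H) + C' * |l| ^ (2 * H))) := by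
    intro t l η hη ht hl htl
    have b1 : ∫ x in Icc (-A) A, (b (x + t) - b x) ^ 2 ≤ C' * |t| ^ (2 * H) := by
      have := hloc t ht 0 (by simp)
      simpa using this
    have b2 : ∫ x in Icc (-A) A, (b (x + l) - b x) ^ 2 ≤ C' * |l| ^ (2 * H) := by
      have := hloc l hl 0 (by simp)
      simpa using this
    have b3 : ∫ x in Icc (-A) A, (b (x + t) - b (x + l)) ^ 2 ≤ C' * |t - l| ^ (2 * H) := by
      have := hloc (t - l) htl l hl
      have e : ∀ x : ℝ, x + l + (t - l) = x + t := fun x => by ring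
      simpa only [e] using this
    have i1 : IntegrableOn (fun x => (b (x + t) - b x) ^ 2) (Icc (-A) A) := by
      have := hbt t
      exact Continuous.integrableOn_Icc (by fun_prop)
    have i2 : IntegrableOn (fun x => (b (x + l) - b x) ^ 2) (Icc (-A) A) := by
      have := hbt l
      exact Continuous.integrableOn_Icc (by fun_prop)
    have i3 : IntegrableOn (fun x => (b (x + t) - b (x + l)) ^ 2) (Icc (-A) A) := by
      have := hbt t
      have := hbt l
      exact Continuous.integrableOn_Icc (by fun_prop)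
    have j1 : IntegrableOn (fun x => g x * (b (x + t) - b x) ^ 2) (Icc (-A) A) := by
      have := hbt t
      exact Continuous.integrableOn_Icc (by fun_prop)
    have j2 : IntegrableOn (fun x => g x * (b (x + l) - b x) ^ 2) (Icc (-A) A) := by
      have := hbt l
      exact Continuous.integrableOn_Icc (by fun_prop)
    rw [hI t, hI l, ← integral_sub j1 j2]
    calc |∫ x in Icc (-A) A, (g x * (b (x + t) - b x) ^ 2 - g x * (b (x + l) - b x) ^ 2)|
        ≤ ∫ x in Icc (-A) A, |g x * (b (x + t) - b x) ^ 2 - g x * (b (x + l) - b x) ^ 2| :=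
          abs_integral_le_integral_abs
      _ ≤ ∫ x in Icc (-A) A, M * (1 / (2 * η) * (b (x + t) - b (x + l)) ^ 2 +
            η * ((b (x + t) - b x) ^ 2 + (b (x + l) - b x) ^ 2)) := by
          refine integral_mono (j1.sub j2).abs
            ((((i3.const_mul _).add ((i1.add i2).const_mul _))).const_mul _) fun x => ?_
          simp only
          rw [← mul_sub, abs_mul]
          refine mul_le_mul (by simpa using hM x) ?_ (abs_nonneg _) hM0
          have := sq_diff_le (b (x + t) - b x) (b (x + l) - b x) η hη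
          have e : b (x + t) - b x - (b (x + l) - b x) = b (x + t) - b (x + l) := by ring
          rwa [e] at this
      _ = M * (1 / (2 * η) * (∫ x in Icc (-A) A, (b (x + t) - b (x + l)) ^ 2) +
            η * ((∫ x in Icc (-A) A, (b (x + t) - b x) ^ 2) +
              ∫ x in Icc (-A) A, (b (x + l) - b x) ^ 2)) := by
          have i12 : IntegrableOn (fun x => η * ((b (x + t) - b x) ^ 2 + (b (x + l) - b x) ^ 2))
              (Icc (-A) A) := (i1.add i2).const_mul _
          rw [integral_const_mul, integral_add (i3.const_mul _) i12,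
            integral_const_mul, integral_const_mul, integral_add i1 i2]
      _ ≤ _ := by
          gcongr
  -- the comparison lag
  set sg : ℝ → ℝ := fun t => if 0 < t then 1 else -1 with hsg
  have hsg1 : ∀ t, sg t = 1 ∨ sg t = -1 := by
    intro t
    simp only [hsg]
    split_ifs <;> simp
  set L : ℝ → ℝ := fun t => lag p (sg t) (nn p t - 1) with hL
  set Φ : ℝ → ℝ := fun t => |t| ^ (-(2 * H)) * ∫ x, g x * (b (x + t) - b x) ^ 2 with hΦ
  have hK : Tendsto (fun t => nn p t - 1) (𝓝[≠] (0 : ℝ)) atTop :=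
    (tendsto_sub_atTop_nat 1).comp (tendsto_nn hp)
  have hΦL : Tendsto (fun t => Φ (L t)) (𝓝[≠] 0) (𝓝 c) := by
    intro U hU
    have e1 := hK.eventually ((hs 1 (Or.inl rfl)).eventually hU)
    have e2 := hK.eventually ((hs (-1) (Or.inr rfl)).eventually hU)
    have e3 : ∀ᶠ t in 𝓝[≠] (0 : ℝ), Φ (L t) ∈ U := by
      filter_upwards [e1, e2] with t t1 t2
      rcases hsg1 t with h1 | h1
      · simp only [hL, h1]
        exact t1
      · simp only [hL, h1]
        exact t2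
    exact e3
  have hsmall : ∀ᶠ t in 𝓝[≠] (0 : ℝ), t ≠ 0 ∧ |t| ≤ 1 := by
    have e1 : ∀ᶠ t in 𝓝[≠] (0 : ℝ), t ≠ 0 := eventually_mem_nhdsWithin
    have e2 : ∀ᶠ t in 𝓝[≠] (0 : ℝ), |t| ≤ 1 := by
      refine nhdsWithin_le_nhds ?_
      filter_upwards [Metric.ball_mem_nhds (0 : ℝ) one_pos] with t ht
      rw [mem_ball_zero_iff, Real.norm_eq_abs] at ht
      exact ht.le
    exact e1.and e2
  -- properties of L
  have hLabs : ∀ t : ℝ, t ≠ 0 → |t| ≤ 1 → |L t| = 1 / (nn p t : ℝ) ^ p ∧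
      |t - L t| = |L t| - |t| := by
    intro t t0 t1
    obtain ⟨n1, n2, n3⟩ := nn_spec hp t0 t1
    have hc1 : ((nn p t - 1 : ℕ) : ℝ) + 1 = nn p t := by
      rw [Nat.cast_sub n1]
      push_cast
      ring
    have hN0 : (0 : ℝ) < (nn p t : ℝ) ^ p := by
      have : (0 : ℝ) < nn p t := by exact_mod_cast n1
      positivity
    have hLe : L t = sg t / (nn p t : ℝ) ^ p := by
      simp only [hL, lag, hc1]
    have ha : |L t| = 1 / (nn p t : ℝ) ^ p := by
      rw [hLe, abs_div, abs_of_pos hN0]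
      rcases hsg1 t with h1 | h1 <;> rw [h1] <;> simp
    refine ⟨ha, ?_⟩
    rcases lt_or_gt_of_ne t0 with tn | tp
    · have h1 : sg t = -1 := by simp [hsg, not_lt.2 tn.le]
      have h2 : L t = -|L t| := by
        rw [ha, hLe, h1]
        ring
      have h3 : t = -|t| := by rw [abs_of_neg tn]; ring
      have h4 : t - L t = |L t| - |t| := by linarith
      rw [h4, abs_of_nonneg]
      rw [ha]
      linarith
    · have h1 : sg t = 1 := by simp [hsg, tp]
      have h2 : L t = |L t| := by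
        rw [ha, hLe, h1]
      have h3 : t = |t| := (abs_of_pos tp).symm
      have h4 : t - L t = -(|L t| - |t|) := by linarith
      rw [h4, abs_neg, abs_of_nonneg]
      rw [ha]
      linarith
  -- δ
  set dl : ℝ → ℝ := fun t => 1 - ((nn p t : ℝ) / ((nn p t : ℝ) + 1)) ^ p with hdl
  have hratio : Tendsto (fun t => ((nn p t : ℝ) / ((nn p t : ℝ) + 1))) (𝓝[≠] (0 : ℝ)) (𝓝 1) := by
    have h1 : Tendsto (fun n : ℕ => (n : ℝ) / ((n : ℝ) + 1)) atTop (𝓝 1) :=
      tendsto_natCast_div_add_atTop 1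
    exact h1.comp (tendsto_nn hp)
  have hdl0 : Tendsto dl (𝓝[≠] 0) (𝓝 0) := by
    have h1 := (hratio.pow p).const_sub 1
    simpa using h1
  have hdlH : Tendsto (fun t => (dl t) ^ H) (𝓝[≠] 0) (𝓝 0) := by
    have h1 := hdl0.rpow_const (p := H) (Or.inr hH.le)
    rwa [Real.zero_rpow hH.ne'] at h1
  -- ratio |L|/|t|
  have hr : Tendsto (fun t => (|L t| / |t|) ^ (2 * H)) (𝓝[≠] 0) (𝓝 1) := by
    have h1 : Tendsto (fun t => |L t| / |t|) (𝓝[≠] 0) (𝓝 1) := by
      have h2 : Tendsto (fun t => (((nn p t : ℝ) / ((nn p t : ℝ) + 1)) ^ p)⁻¹) (𝓝[≠] 0) (𝓝 1) := by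
        have := (hratio.pow p).inv₀ (by simp)
        simpa using this
      refine tendsto_of_tendsto_of_tendsto_of_le_of_le' tendsto_const_nhds h2 ?_ ?_
      · filter_upwards [hsmall] with t ht
        obtain ⟨n1, n2, n3⟩ := nn_spec hp ht.1 ht.2
        rw [le_div_iff₀ (abs_pos.2 ht.1), one_mul, (hLabs t ht.1 ht.2).1]
        exact n2
      · filter_upwards [hsmall] with t ht
        obtain ⟨n1, n2, n3⟩ := nn_spec hp ht.1 ht.2
        have hN0 : (0 : ℝ) < (nn p t : ℝ) := by exact_mod_cast n1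
        rw [div_le_iff₀ (abs_pos.2 ht.1), (hLabs t ht.1 ht.2).1, div_pow, inv_div,
          div_mul_eq_mul_div]
        refine div_le_div_of_nonneg_right ?_ (by positivity)
        have h3 := n3.le
        rw [div_le_iff₀ (by positivity)] at h3
        linarith
    have h2 := h1.rpow_const (p := 2 * H) (Or.inl one_ne_zero)
    simpa using h2
  -- main estimate
  have hmain : ∀ᶠ t in 𝓝[≠] (0 : ℝ), |Φ t - (|L t| / |t|) ^ (2 * H) * Φ (L t)| ≤
      M * C' * (|L t| / |t|) ^ (2 * H) * (5 / 2 * (dl t) ^ H) := by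
    filter_upwards [hsmall] with t ht
    obtain ⟨n1, n2, n3⟩ := nn_spec hp ht.1 ht.2
    obtain ⟨l1, l2⟩ := hLabs t ht.1 ht.2
    have hN1 : (1 : ℝ) ≤ (nn p t : ℝ) := by exact_mod_cast n1
    have hN0 : (0 : ℝ) < (nn p t : ℝ) := by linarith
    have ha : 0 < |t| := abs_pos.2 ht.1
    have hLp : 0 < |L t| := by rw [l1]; positivity
    have hLle : |L t| ≤ 1 := by
      rw [l1, div_le_one (by positivity)]
      exact one_le_pow₀ hN1
    have htL : |t| ≤ |L t| := by rw [l1]; exact n2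
    have hd1 : |t - L t| ≤ |L t| * dl t := by
      rw [l2]
      have h3 : |L t| * ((nn p t : ℝ) / ((nn p t : ℝ) + 1)) ^ p ≤ |t| := by
        rw [l1, div_pow, one_div, inv_mul_eq_div, div_div, mul_comm, ← div_div,
          div_self (by positivity)]
        exact n3.le
      simp only [hdl]
      linarith
    have hdpos : 0 < dl t := by
      simp only [hdl]
      have h4 : ((nn p t : ℝ) / ((nn p t : ℝ) + 1)) ^ p < 1 := by
        refine pow_lt_one₀ (by positivity) ?_ (by omega)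
        rw [div_lt_one (by positivity)]
        linarith
      linarith
    have hdle : dl t ≤ 1 := by
      simp only [hdl]
      have : 0 ≤ ((nn p t : ℝ) / ((nn p t : ℝ) + 1)) ^ p := by positivity
      linarith
    have hd2 : |t - L t| ≤ 1 := by
      refine hd1.trans ?_
      calc |L t| * dl t ≤ 1 * 1 := mul_le_mul hLle hdle hdpos.le zero_le_one
        _ = 1 := one_mul 1
    have hη : 0 < (dl t) ^ H := Real.rpow_pos_of_pos hdpos H
    have hc := hcomp t (L t) ((dl t) ^ H) hη ht.2 hLle hd2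
    have p1 : |t - L t| ^ (2 * H) ≤ |L t| ^ (2 * H) * ((dl t) ^ H) ^ 2 := by
      calc |t - L t| ^ (2 * H) ≤ (|L t| * dl t) ^ (2 * H) :=
            Real.rpow_le_rpow (abs_nonneg _) hd1 (by positivity)
        _ = |L t| ^ (2 * H) * ((dl t) ^ H) ^ 2 := by
            rw [Real.mul_rpow hLp.le hdpos.le, ← Real.rpow_natCast ((dl t) ^ H) 2,
              ← Real.rpow_mul hdpos.le]
            congr 2
            push_cast
            ring
    have p2 : |t| ^ (2 * H) ≤ |L t| ^ (2 * H) :=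
      Real.rpow_le_rpow (abs_nonneg _) htL (by positivity)
    have e1 : Φ t - (|L t| / |t|) ^ (2 * H) * Φ (L t) = |t| ^ (-(2 * H)) *
        ((∫ x, g x * (b (x + t) - b x) ^ 2) - ∫ x, g x * (b (x + L t) - b x) ^ 2) := by
      simp only [hΦ]
      rw [Real.div_rpow hLp.le ha.le, Real.rpow_neg ha.le, Real.rpow_neg hLp.le]
      have q1 : |L t| ^ (2 * H) ≠ 0 := (Real.rpow_pos_of_pos hLp _).ne'
      have q2 : |t| ^ (2 * H) ≠ 0 := (Real.rpow_pos_of_pos ha _).ne'
      field_simp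
    rw [e1, abs_mul, abs_of_pos (Real.rpow_pos_of_pos ha _)]
    calc |t| ^ (-(2 * H)) *
        |(∫ x, g x * (b (x + t) - b x) ^ 2) - ∫ x, g x * (b (x + L t) - b x) ^ 2|
        ≤ |t| ^ (-(2 * H)) * (M * (1 / (2 * (dl t) ^ H) * (C' * |t - L t| ^ (2 * H)) +
          (dl t) ^ H * (C' * |t| ^ (2 * H) + C' * |L t| ^ (2 * H)))) := by gcongr
      _ ≤ |t| ^ (-(2 * H)) * (M * (1 / (2 * (dl t) ^ H) *
            (C' * (|L t| ^ (2 * H) * ((dl t) ^ H) ^ 2)) +
          (dl t) ^ H * (C' * |L t| ^ (2 * H) + C' * |L t| ^ (2 * H)))) := by gcongr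
      _ = M * C' * (|L t| / |t|) ^ (2 * H) * (5 / 2 * (dl t) ^ H) := by
          rw [Real.div_rpow hLp.le ha.le, Real.rpow_neg ha.le]
          field_simp
          ring
  have hzero : Tendsto (fun t => Φ t - (|L t| / |t|) ^ (2 * H) * Φ (L t)) (𝓝[≠] 0) (𝓝 0) := by
    refine squeeze_zero_norm' (a := fun t => M * C' * (|L t| / |t|) ^ (2 * H) *
      (5 / 2 * (dl t) ^ H)) ?_ ?_
    · simpa only [Real.norm_eq_abs] using hmain
    · have := (hr.const_mul (M * C')).mul (hdlH.const_mul (5 / 2))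
      simpa using this
  have hfin := hzero.add (hr.mul hΦL)
  simpa using hfin

end Pool.Agent.Lib.MP_e19099_pr.F
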