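import Pool.Agent.Lib.MP_e19099_pr.D_Osc

set_option autoImplicit false

open MeasureTheory ProbabilityTheory Filter Topology Set
open scoped NNReal ENNReal

namespace Pool.Agent.Lib.MP_e19099_pr.F

variable {H : ℝ} {Ω : Type*} [MeasurableSpace Ω] {B : ℝ → Ω → ℝ} {P : Measure Ω}

/-- growth: Borel-Cantelli over `k : ℤ` for `|B - B_k| ≤ 1 + |k|` on `[k, k+1]` and
`|B_k| ≤ k²/64`; the finitely many exceptional unit intervals are handled by continuity. -/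
theorem ae_growth (hB : IsFBM H B P) (hc : ∀ ω, Continuous fun x => B x ω) (hH : 0 < H)
    (hH1 : H < 1) : ∀ᵐ ω ∂P, ∃ C, ∀ x, |B x ω| ≤ C + x ^ 2 / 16 := by
  obtain ⟨C1, hC1, h1⟩ := exists_osc hB hc hH
  obtain ⟨C2, hC2, h2⟩ := exists_int hB hH hH1
  set A1 : ℤ → Set Ω := fun k =>
    {ω | ∃ t ∈ Icc (k : ℝ) (k + 1), 1 + |(k : ℝ)| < |B t ω - B k ω|} with hA1
  set A2 : ℤ → Set Ω := fun k => {ω | k ≠ 0 ∧ (k : ℝ) ^ 2 / 64 < |B k ω|} with hA2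
  have hb1 : ∀ k : ℤ, P (A1 k) ≤ ENNReal.ofReal (C1 * (1 / (k : ℝ) ^ 2) +
      C1 * (if k = 0 then 1 else 0)) := by
    intro k
    have hk0 : 0 ≤ |(k : ℝ)| := abs_nonneg _
    refine (h1 k (1 + |(k : ℝ)|) (by linarith)).trans ?_
    apply ENNReal.ofReal_le_ofReal
    by_cases hk : k = 0
    · subst hk
      simp
    · have hk1 : (k : ℝ) ≠ 0 := by exact_mod_cast hk
      have hk2 : 0 < |(k : ℝ)| := abs_pos.2 hk1
      rw [if_neg hk, mul_zero, add_zero, mul_one_div]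
      apply div_le_div_of_nonneg_left hC1.le (by positivity)
      rw [← sq_abs (k : ℝ)]
      nlinarith
  have hb2 : ∀ k : ℤ, P (A2 k) ≤ ENNReal.ofReal (C2 * (1 / (k : ℝ) ^ 2)) := by
    intro k
    by_cases hk : k = 0
    · have e : A2 k = ∅ := by
        ext ω
        simp [hA2, hk]
      rw [e, measure_empty]
      exact bot_le
    · have e : A2 k ⊆ {ω | (k : ℝ) ^ 2 / 64 < |B k ω|} := fun ω hω => hω.2
      refine (measure_mono e).trans ((h2 k hk).trans ?_)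
      rw [mul_one_div]
  have hsq : Summable fun k : ℤ => 1 / (k : ℝ) ^ 2 := Real.summable_one_div_int_pow.2 (by norm_num)
  have hite : Summable fun k : ℤ => (if k = 0 then (1 : ℝ) else 0) :=
    (hasSum_ite_eq (0 : ℤ) (1 : ℝ)).summable
  have hs1 : ∑' k, P (A1 k) ≠ ∞ := by
    have hf : Summable fun k : ℤ => C1 * (1 / (k : ℝ) ^ 2) + C1 * (if k = 0 then 1 else 0) :=
      (hsq.mul_left _).add (hite.mul_left _)
    exact ne_top_of_le_ne_top hf.tsum_ofReal_ne_top (ENNReal.tsum_le_tsum hb1)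
  have hs2 : ∑' k, P (A2 k) ≠ ∞ :=
    ne_top_of_le_ne_top (hsq.mul_left C2).tsum_ofReal_ne_top (ENNReal.tsum_le_tsum hb2)
  filter_upwards [ae_finite_setOfPred_mem hs1, ae_finite_setOfPred_mem hs2] with ω hω1 hω2
  have hfin : ({k : ℤ | ω ∈ A1 k} ∪ {k : ℤ | ω ∈ A2 k}).Finite := hω1.union hω2
  have hK : IsCompact (⋃ k ∈ ({k : ℤ | ω ∈ A1 k} ∪ {k : ℤ | ω ∈ A2 k}),
      Icc (k : ℝ) (k + 1)) := hfin.isCompact_biUnion fun k _ => isCompact_Icc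
  obtain ⟨M, hM⟩ := hK.exists_bound_of_continuousOn (hc ω).continuousOn
  refine ⟨max M (|B 0 ω| + 11), fun x => ?_⟩
  have hx0 : 0 ≤ x ^ 2 / 16 := by positivity
  have hk1 : (⌊x⌋ : ℝ) ≤ x := Int.floor_le x
  have hk2 : x < (⌊x⌋ : ℝ) + 1 := Int.lt_floor_add_one x
  by_cases hmem : ⌊x⌋ ∈ ({k : ℤ | ω ∈ A1 k} ∪ {k : ℤ | ω ∈ A2 k})
  · have h3 := hM x (mem_biUnion hmem ⟨hk1, hk2.le⟩)
    rw [Real.norm_eq_abs] at h3
    have := le_max_left M (|B 0 ω| + 11)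
    linarith
  · rw [mem_union, not_or] at hmem
    obtain ⟨n1, n2⟩ := hmem
    have h3 : |B x ω - B (⌊x⌋ : ℝ) ω| ≤ 1 + |((⌊x⌋ : ℤ) : ℝ)| := by
      by_contra hcon
      push Not at hcon
      exact n1 ⟨x, ⟨hk1, hk2.le⟩, hcon⟩
    have h4 : |B (⌊x⌋ : ℝ) ω| ≤ |B 0 ω| + ((⌊x⌋ : ℤ) : ℝ) ^ 2 / 64 := by
      by_cases hk : ⌊x⌋ = 0
      · rw [hk]
        simp
      · by_contra hcon
        push Not at hcon
        refine n2 ⟨hk, ?_⟩
        have := abs_nonneg (B 0 ω)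
        linarith
    have h5 : |B x ω| ≤ |B x ω - B (⌊x⌋ : ℝ) ω| + |B (⌊x⌋ : ℝ) ω| := by
      have := abs_add_le (B x ω - B (⌊x⌋ : ℝ) ω) (B (⌊x⌋ : ℝ) ω)
      rwa [sub_add_cancel] at this
    have h6 : |((⌊x⌋ : ℤ) : ℝ)| ≤ |x| + 1 := by
      rw [abs_le]
      have a1 := neg_abs_le x
      have a2 := le_abs_self x
      constructor <;> linarith
    have h7 : ((⌊x⌋ : ℤ) : ℝ) ^ 2 ≤ 2 * x ^ 2 + 2 := by
      rw [← sq_abs ((⌊x⌋ : ℤ) : ℝ), ← sq_abs x]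
      nlinarith [abs_nonneg ((⌊x⌋ : ℤ) : ℝ), abs_nonneg x, sq_nonneg (|x| - 1)]
    have h8 : |x| ≤ x ^ 2 / 32 + 8 := by
      rw [← sq_abs x]
      nlinarith [sq_nonneg (|x| - 16)]
    have := le_max_right M (|B 0 ω| + 11)
    linarith

end Pool.Agent.Lib.MP_e19099_pr.F
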