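import Pool.Agent.Lib.MP_e19099_pr.D_Ver

set_option autoImplicit false

open MeasureTheory ProbabilityTheory Filter Topology Set
open scoped NNReal ENNReal

namespace Pool.Agent.Lib.MP_e19099_pr.F

variable {H : ℝ} {Ω : Type*} [MeasurableSpace Ω] {B : ℝ → Ω → ℝ} {P : Measure Ω}

private theorem incr_memLp (hB : IsFBM H B P) (x : ℝ) : MemLp (B x) 2 P :=
  (hB.gauss.hasGaussianLaw_eval x).memLp_two

private theorem incr_int (hB : IsFBM H B P) (x : ℝ) : Integrable (B x) P :=
  (hB.gauss.hasGaussianLaw_eval x).integrable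

/-- variance of an increment -/
theorem incr_var (hB : IsFBM H B P) (hH : 0 < H) (x h : ℝ) :
    ∫ ω, (B (x + h) ω - B x ω) ^ 2 ∂P = |h| ^ (2 * H) := by
  have hm := fun x => incr_memLp hB x
  have hi : ∀ x y, Integrable (fun ω => B x ω * B y ω) P := fun x y => (hm x).integrable_mul (hm y)
  have h0 : (0 : ℝ) ^ (2 * H) = 0 := Real.zero_rpow (by positivity)
  have h1 : ∀ ω, (B (x + h) ω - B x ω) ^ 2 =
      (B (x + h) ω * B (x + h) ω - 2 * (B (x + h) ω * B x ω)) + B x ω * B x ω := by
    intro ω; ring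
  simp_rw [h1]
  have h2 : Integrable (fun ω => B (x + h) ω * B (x + h) ω - 2 * (B (x + h) ω * B x ω)) P :=
    (hi _ _).sub ((hi _ _).const_mul 2)
  rw [integral_add h2 (hi _ _),
    integral_sub (hi _ _) ((hi _ _).const_mul 2), integral_const_mul, hB.cov, hB.cov, hB.cov]
  simp only [sub_self, abs_zero, h0, add_sub_cancel_left]
  ring

theorem incr_mean (hB : IsFBM H B P) (x h : ℝ) :
    ∫ ω, (B (x + h) ω - B x ω) ∂P = 0 := by
  rw [integral_sub (incr_int hB _) (incr_int hB _), hB.mean, hB.mean, sub_self]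

/-- law of an increment -/
theorem incr_law (hB : IsFBM H B P) (hH : 0 < H) (x h : ℝ) :
    P.map (fun ω => B (x + h) ω - B x ω) = gaussianReal 0 (Real.toNNReal (|h| ^ (2 * H))) := by
  have := hB.isProb
  rw [(hB.gauss.hasGaussianLaw_fun_sub (s := x + h) (t := x)).map_eq_gaussianReal]
  have h1 : P[fun ω => B (x + h) ω - B x ω] = 0 := incr_mean hB x h
  have h2 : Var[fun ω => B (x + h) ω - B x ω; P] = |h| ^ (2 * H) := by
    have hm : Measurable fun ω => B (x + h) ω - B x ω := (hB.meas _).sub (hB.meas _)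
    rw [variance_of_integral_eq_zero hm.aemeasurable h1]
    exact incr_var hB hH x h
  rw [h1, h2]

/-- joint Gaussian law of two increments -/
theorem incr_joint (hB : IsFBM H B P) (x z y w : ℝ) :
    HasGaussianLaw (fun ω => (B (x + z) ω - B x ω, B (y + w) ω - B y ω)) P := by
  classical
  let a : Bool → ℝ := fun b => if b then x + z else y + w
  let b : Bool → ℝ := fun b => if b then x else y
  have h : IsGaussianProcess (fun (s : Bool) ω => B (a s) ω - B (b s) ω) P :=
    hB.gauss.of_isGaussianProcess fun s ↦ ⟨{b s, a s},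
    { toFun x := x ⟨a s, by simp⟩ - x ⟨b s, by simp⟩
      map_add' x y := by simp; ring
      map_smul' c x := by simp; ring },
    by simp⟩
  have h2 := h.hasGaussianLaw_prodMk (s := true) (t := false)
  simpa [a, b] using h2

/-- all moments of an increment, by scaling of the Gaussian -/
theorem incr_moment (hB : IsFBM H B P) (hH : 0 < H) (p : ℕ) (s t : ℝ) :
    ∫⁻ ω, ENNReal.ofReal (|B t ω - B s ω| ^ p) ∂P =
      ENNReal.ofReal ((∫ z, |z| ^ p ∂(gaussianReal 0 1)) * |t - s| ^ (p * H)) := by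
  have := hB.isProb
  have hlaw := incr_law hB hH s (t - s)
  rw [add_sub_cancel] at hlaw
  have hm : Measurable fun ω => B t ω - B s ω := (hB.meas t).sub (hB.meas s)
  have hf : Measurable fun z : ℝ => ENNReal.ofReal (|z| ^ p) := by fun_prop
  have h1 : ∫⁻ ω, ENNReal.ofReal (|B t ω - B s ω| ^ p) ∂P =
      ∫⁻ z, ENNReal.ofReal (|z| ^ p) ∂(P.map fun ω => B t ω - B s ω) := by
    rw [lintegral_map hf hm]
  set c : ℝ := |t - s| ^ H with hc
  have hc0 : 0 ≤ c := Real.rpow_nonneg (abs_nonneg _) _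
  have h2 : gaussianReal 0 (Real.toNNReal (|t - s| ^ (2 * H))) =
      (gaussianReal 0 1).map (fun z => c * z) := by
    rw [gaussianReal_map_const_mul]
    congr 1
    · ring
    · rw [mul_one]
      ext
      rw [Real.coe_toNNReal _ (Real.rpow_nonneg (abs_nonneg _) _)]
      show |t - s| ^ (2 * H) = c ^ 2
      rw [hc, ← Real.rpow_natCast, ← Real.rpow_mul (abs_nonneg _)]
      congr 1
      push_cast
      ring
  have h3 : ∀ z : ℝ, ENNReal.ofReal (|c * z| ^ p) =
      ENNReal.ofReal (c ^ p) * ENNReal.ofReal (|z| ^ p) := by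
    intro z
    rw [← ENNReal.ofReal_mul (by positivity), abs_mul, abs_of_nonneg hc0, mul_pow]
  have h4 : Integrable (fun z : ℝ => |z| ^ p) (gaussianReal 0 1) := by
    rcases Nat.eq_zero_or_pos p with hp | hp
    · subst hp
      simp
    · have h5 : MemLp id (p : ℝ≥0) (gaussianReal 0 1) := memLp_id_gaussianReal (p : ℝ≥0)
      have h6 := h5.integrable_norm_pow (p := p) hp.ne'
      simpa using h6
  rw [h1, hlaw, h2, lintegral_map hf (by fun_prop)]
  simp_rw [h3]
  rw [lintegral_const_mul _ hf, ← ofReal_integral_eq_lintegral_ofReal h4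
    (Eventually.of_forall fun z => by positivity), ← ENNReal.ofReal_mul (by positivity), mul_comm]
  congr 2
  rw [hc, ← Real.rpow_natCast, ← Real.rpow_mul (abs_nonneg _)]
  congr 1
  ring

end Pool.Agent.Lib.MP_e19099_pr.F
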