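import Pool.Agent.Lib.MP_e19099_pr.D_L2a

set_option autoImplicit false

open MeasureTheory ProbabilityTheory Filter Topology Set
open scoped NNReal ENNReal

namespace Pool.Agent.Lib.MP_e19099_pr.F

/-- dyadic floor -/
private noncomputable def dfl (t : ℝ) (k : ℕ) : ℝ := (⌊t * 2 ^ k⌋₊ : ℝ) / 2 ^ k

private theorem dfl_nonneg (t : ℝ) (k : ℕ) : 0 ≤ dfl t k := by
  unfold dfl
  positivity

private theorem dfl_le {t : ℝ} (ht : 0 ≤ t) (k : ℕ) : dfl t k ≤ t := by
  unfold dfl
  rw [div_le_iff₀ (by positivity)]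
  exact Nat.floor_le (by positivity)

private theorem dfl_gt (t : ℝ) (k : ℕ) : t - 1 / 2 ^ k < dfl t k := by
  unfold dfl
  rw [lt_div_iff₀ (by positivity), sub_mul]
  have h1 : (1 : ℝ) / 2 ^ k * 2 ^ k = 1 := by
    field_simp
  rw [h1]
  have := Nat.lt_floor_add_one (t * 2 ^ k)
  linarith

private theorem dfl_succ {t : ℝ} (ht : 0 ≤ t) (k : ℕ) :
    dfl t (k + 1) = dfl t k ∨ dfl t (k + 1) = dfl t k + 1 / 2 ^ (k + 1) := by
  unfold dfl
  set y : ℝ := t * 2 ^ k with hy
  have hy0 : 0 ≤ y := by positivity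
  have h2 : t * 2 ^ (k + 1) = 2 * y := by
    rw [hy, pow_succ]
    ring
  rw [h2]
  have h3 : ⌊2 * y⌋₊ = 2 * ⌊y⌋₊ ∨ ⌊2 * y⌋₊ = 2 * ⌊y⌋₊ + 1 := by
    have l1 := Nat.floor_le hy0
    have l2 := Nat.lt_floor_add_one y
    rcases lt_or_ge (2 * y) (2 * ⌊y⌋₊ + 1) with h | h
    · left
      rw [Nat.floor_eq_iff (by positivity)]
      push_cast
      constructor
      · linarith
      · exact h
    · right
      rw [Nat.floor_eq_iff (by positivity)]
      push_cast
      constructor
      · exact h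
      · linarith
  rcases h3 with h | h
  · left
    rw [h, pow_succ]
    push_cast
    field_simp
  · right
    rw [h, pow_succ]
    push_cast
    field_simp

/-- Dyadic expansion: for `0 < h ≤ 1` choose `k` with `2^(-(k+1)) < h ≤ 2^(-k)`, put
`s_m = ⌊h 2^(k+m)⌋ / 2^(k+m)` (`s_0 ∈ {0, 2^(-k)}`; start the telescope with `F 0 = 0`,
`F (m+1) x = b (x + s_m) - b x`), `s_(m+1) - s_m ∈ {0, 2^(-(k+m+1))}`, `s_m → h`. Use
`shift_weight` with `c = s_m` and `telescope_L2` with `θ = 2^(-H)`. Same for negative lags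
(apply the argument with `s = -1`). -/
theorem bound_of_dyadic {H : ℝ} (hH : 0 < H) {b : ℝ → ℝ} (hb : Continuous b) {C : ℝ}
    (hC : 0 < C)
    (h : ∀ s : ℝ, s = 1 ∨ s = -1 → ∀ j : ℕ,
      ∫⁻ x, ENNReal.ofReal (Real.exp (-x ^ 2 / 16) * (b (x + s / 2 ^ j) - b x) ^ 2) ≤
        ENNReal.ofReal (C * ((2 : ℝ) ^ (-(2 * H))) ^ j)) :
    ∃ C', 0 < C' ∧ ∀ h : ℝ, |h| ≤ 1 →
      ∫⁻ x, ENNReal.ofReal (Real.exp (-x ^ 2 / 8) * (b (x + h) - b x) ^ 2) ≤
        ENNReal.ofReal (C' * |h| ^ (2 * H)) := by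
  set θ : ℝ := (2 : ℝ) ^ (-H) with hθdef
  have hθ : 0 < θ := Real.rpow_pos_of_pos (by norm_num) _
  have hθ1 : θ < 1 := Real.rpow_lt_one_of_one_lt_of_neg (by norm_num) (by linarith)
  have hθ' : 0 < 1 - θ := by linarith
  set r : ℝ := (2 : ℝ) ^ (-(2 * H)) with hrdef
  have hr : 0 < r := Real.rpow_pos_of_pos (by norm_num) _
  have hθr : θ ^ 2 = r := by
    rw [hθdef, hrdef, ← Real.rpow_natCast, ← Real.rpow_mul (by norm_num)]
    congr 1
    push_cast
    ring
  refine ⟨2 * C * 2 ^ (2 * H) / (1 - θ) ^ 2, by positivity, fun τ hτ => ?_⟩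
  obtain ⟨s, t, hs, ht0, ht⟩ : ∃ s t : ℝ, (s = 1 ∨ s = -1) ∧ 0 ≤ t ∧ τ = s * t ∧ |τ| = t := by
    rcases le_total 0 τ with h0 | h0
    · exact ⟨1, τ, Or.inl rfl, h0, by ring, abs_of_nonneg h0⟩
    · exact ⟨-1, -τ, Or.inr rfl, by linarith, by ring, abs_of_nonpos h0⟩
  obtain ⟨hst, hta⟩ := ht
  rw [hta] at hτ
  rcases eq_or_lt_of_le ht0 with h0 | hpos
  · have e1 : ∀ x : ℝ, ENNReal.ofReal (Real.exp (-x ^ 2 / 8) * (b (x + τ) - b x) ^ 2) = 0 := by
      intro x
      rw [hst, ← h0, mul_zero, add_zero, sub_self]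
      simp
    simp_rw [e1]
    simp
  obtain ⟨k, hk1, hk2⟩ := exists_nat_pow_near_of_lt_one hpos hτ (show (0 : ℝ) < 1 / 2 by norm_num)
    (by norm_num)
  have habs : |s| = 1 := by
    rcases hs with h1 | h1 <;> simp [h1]
  -- the telescope
  let S : ℕ → ℝ := fun m => dfl t (k + m)
  let F : ℕ → ℝ → ℝ := fun m x => match m with
    | 0 => 0
    | m + 1 => b (x + s * S m) - b x
  have hF : ∀ m, Continuous (F m) := fun m => by
    cases m with
    | zero => exact continuous_const
    | succ m => exact (hb.comp (continuous_id.add continuous_const)).sub hb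
  set A : ℝ := √(2 * C * r ^ k) with hA
  have hA2 : A ^ 2 = 2 * C * r ^ k := Real.sq_sqrt (by positivity)
  have hzero : ∀ m, (∀ x, F (m + 1) x = F m x) →
      ∫⁻ x, ENNReal.ofReal (Real.exp (-x ^ 2 / 8) * (F (m + 1) x - F m x) ^ 2) ≤
      ENNReal.ofReal ((A * θ ^ m) ^ 2) := fun m hm => by
    have e1 : ∀ x : ℝ, ENNReal.ofReal (Real.exp (-x ^ 2 / 8) * (F (m + 1) x - F m x) ^ 2) = 0 := by
      intro x
      rw [hm x, sub_self]
      simp
    simp_rw [e1]
    simp
  have hstep : ∀ m, ∫⁻ x, ENNReal.ofReal (Real.exp (-x ^ 2 / 8) * (F (m + 1) x - F m x) ^ 2) ≤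
      ENNReal.ofReal ((A * θ ^ m) ^ 2) := by
    intro m
    cases m with
    | zero =>
      have hfl : ⌊t * 2 ^ k⌋₊ = 0 ∨ ⌊t * 2 ^ k⌋₊ = 1 := by
        have h1 : t * 2 ^ k ≤ 1 := by
          calc t * 2 ^ k ≤ (1 / 2) ^ k * 2 ^ k := mul_le_mul_of_nonneg_right hk2 (by positivity)
            _ = 1 := by rw [← mul_pow]; norm_num
        have h2 : ⌊t * 2 ^ k⌋₊ ≤ 1 := by
          have := Nat.floor_le_floor h1
          rwa [Nat.floor_one] at this
        omega
      rcases hfl with h1 | h1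
      · refine hzero 0 fun x => ?_
        show b (x + s * S 0) - b x = 0
        have : S 0 = 0 := by
          show dfl t (k + 0) = 0
          unfold dfl
          rw [add_zero, h1]
          simp
        rw [this, mul_zero, add_zero, sub_self]
      · have hS0 : s * S 0 = s / 2 ^ k := by
          have : S 0 = 1 / 2 ^ k := by
            show dfl t (k + 0) = 1 / 2 ^ k
            unfold dfl
            rw [add_zero, h1, Nat.cast_one]
          rw [this]
          ring
        calc ∫⁻ x, ENNReal.ofReal (Real.exp (-x ^ 2 / 8) * (F (0 + 1) x - F 0 x) ^ 2)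
            ≤ ∫⁻ x, ENNReal.ofReal (Real.exp (-x ^ 2 / 16) * (b (x + s / 2 ^ k) - b x) ^ 2) := by
              refine lintegral_mono fun x => ENNReal.ofReal_le_ofReal ?_
              show Real.exp (-x ^ 2 / 8) * (b (x + s * S 0) - b x - 0) ^ 2 ≤ _
              rw [hS0, sub_zero]
              refine mul_le_mul_of_nonneg_right (Real.exp_le_exp.2 ?_) (sq_nonneg _)
              nlinarith [sq_nonneg x]
          _ ≤ ENNReal.ofReal (C * r ^ k) := h s hs k
          _ ≤ ENNReal.ofReal ((A * θ ^ 0) ^ 2) := by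
              refine ENNReal.ofReal_le_ofReal ?_
              rw [pow_zero, mul_one, hA2]
              have : 0 < C * r ^ k := by positivity
              linarith
    | succ m =>
      rcases dfl_succ ht0 (k + m) with h1 | h1
      · refine hzero (m + 1) fun x => ?_
        show b (x + s * S (m + 1)) - b x = b (x + s * S m) - b x
        have : S (m + 1) = S m := h1
        rw [this]
      · have hSm : S (m + 1) = S m + 1 / 2 ^ (k + m + 1) := h1
        have hc : |s * S m| ≤ 1 := by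
          rw [abs_mul, habs, one_mul, abs_of_nonneg (dfl_nonneg _ _)]
          exact (dfl_le ht0 _).trans hτ
        have h2 := shift_weight (f := fun y => (b (y + s / 2 ^ (k + m + 1)) - b y) ^ 2)
          (((hb.comp (continuous_id.add continuous_const)).sub hb).pow 2)
          (fun x => sq_nonneg _) hc
        calc ∫⁻ x, ENNReal.ofReal (Real.exp (-x ^ 2 / 8) * (F (m + 1 + 1) x - F (m + 1) x) ^ 2)
            = ∫⁻ x, ENNReal.ofReal (Real.exp (-x ^ 2 / 8) *
                (b (x + s * S m + s / 2 ^ (k + m + 1)) - b (x + s * S m)) ^ 2) := by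
              refine lintegral_congr fun x => ?_
              show ENNReal.ofReal (Real.exp (-x ^ 2 / 8) *
                (b (x + s * S (m + 1)) - b x - (b (x + s * S m) - b x)) ^ 2) = _
              rw [hSm]
              congr 2
              have e1 : x + s * (S m + 1 / 2 ^ (k + m + 1)) = x + s * S m + s / 2 ^ (k + m + 1) := by
                ring
              rw [e1]
              ring
          _ ≤ 2 * ∫⁻ x, ENNReal.ofReal (Real.exp (-x ^ 2 / 16) *
                (b (x + s / 2 ^ (k + m + 1)) - b x) ^ 2) := h2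
          _ ≤ 2 * ENNReal.ofReal (C * r ^ (k + m + 1)) := by
              gcongr
              exact h s hs (k + m + 1)
          _ = ENNReal.ofReal ((A * θ ^ (m + 1)) ^ 2) := by
              have h3 : (2 : ℝ≥0∞) = ENNReal.ofReal 2 := by simp
              rw [h3, ← ENNReal.ofReal_mul (by norm_num)]
              congr 1
              rw [mul_pow, hA2, ← pow_mul, mul_comm (m + 1) 2, pow_mul, hθr]
              ring
  have hlim : ∀ x, Tendsto (fun m => F m x) atTop (𝓝 (b (x + τ) - b x)) := by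
    intro x
    rw [← tendsto_add_atTop_iff_nat 1]
    show Tendsto (fun m => b (x + s * S m) - b x) atTop (𝓝 (b (x + τ) - b x))
    have hS : Tendsto S atTop (𝓝 t) := by
      have h1 : Tendsto (fun m : ℕ => t - 1 / 2 ^ (k + m)) atTop (𝓝 t) := by
        have h2 : Tendsto (fun m : ℕ => (1 / 2 : ℝ) ^ m) atTop (𝓝 0) :=
          tendsto_pow_atTop_nhds_zero_of_lt_one (by norm_num) (by norm_num)
        have h3 : Tendsto (fun m : ℕ => t - 1 / 2 ^ k * (1 / 2 : ℝ) ^ m) atTop (𝓝 (t - 1 / 2 ^ k * 0)) :=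
          (h2.const_mul _).const_sub t
        rw [mul_zero, sub_zero] at h3
        refine h3.congr fun m => ?_
        rw [pow_add, div_pow, one_pow]
        field_simp
      exact tendsto_of_tendsto_of_tendsto_of_le_of_le h1 tendsto_const_nhds
        (fun m => (dfl_gt t (k + m)).le) (fun m => dfl_le ht0 (k + m))
    have h4 : Tendsto (fun m => x + s * S m) atTop (𝓝 (x + τ)) := by
      rw [hst]
      exact (hS.const_mul s).const_add x
    exact ((hb.tendsto _).comp h4).sub_const _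
  have hfin := telescope_L2 hF ((hb.comp (continuous_id.add continuous_const)).sub hb)
    (fun x => rfl) hlim (Real.sqrt_nonneg _) hθ hθ1 hstep
  refine hfin.trans (ENNReal.ofReal_le_ofReal ?_)
  rw [div_pow, hA2, hta, div_mul_eq_mul_div]
  refine div_le_div_of_nonneg_right ?_ (by positivity)
  have h5 : r ^ k = ((1 / 2 : ℝ) ^ k) ^ (2 * H) := by
    rw [hrdef, ← Real.rpow_natCast, ← Real.rpow_mul (by norm_num), one_div, inv_pow,
      ← Real.rpow_natCast 2 k, ← Real.rpow_neg (by norm_num), ← Real.rpow_mul (by norm_num)]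
    congr 1
    ring
  have h6 : ((1 / 2 : ℝ) ^ k) ^ (2 * H) ≤ (2 * t) ^ (2 * H) := by
    refine Real.rpow_le_rpow (by positivity) ?_ (by positivity)
    rw [pow_succ] at hk1
    linarith
  rw [Real.mul_rpow (by norm_num) ht0] at h6
  rw [h5]
  calc 2 * C * ((1 / 2 : ℝ) ^ k) ^ (2 * H) ≤ 2 * C * (2 ^ (2 * H) * t ^ (2 * H)) :=
        mul_le_mul_of_nonneg_left h6 (by positivity)
    _ = 2 * C * 2 ^ (2 * H) * t ^ (2 * H) := by ring

end Pool.Agent.Lib.MP_e19099_pr.F
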