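import Mathlib

set_option autoImplicit false

open MeasureTheory ProbabilityTheory Filter Topology Set
open scoped NNReal ENNReal

namespace Pool.Agent.Lib.MP_e19099_pr.F

/-- change of variables and comparison of Gaussian weights:
`e^(-(x)²/8)` at `x = y - c`, `|c| ≤ 1`, is at most `2 e^(-y²/16)` (`(y-c)² ≥ y²/2 - c²`). -/
theorem shift_weight {f : ℝ → ℝ} (hf : Continuous f) (hf0 : ∀ x, 0 ≤ f x) {c : ℝ} (hc : |c| ≤ 1) :
    ∫⁻ x, ENNReal.ofReal (Real.exp (-x ^ 2 / 8) * f (x + c)) ≤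
      2 * ∫⁻ x, ENNReal.ofReal (Real.exp (-x ^ 2 / 16) * f x) := by
  have h1 : ∫⁻ x, ENNReal.ofReal (Real.exp (-x ^ 2 / 8) * f (x + c)) =
      ∫⁻ x, ENNReal.ofReal (Real.exp (-(x - c) ^ 2 / 8) * f x) := by
    rw [← lintegral_add_right_eq_self
      (fun x => ENNReal.ofReal (Real.exp (-(x - c) ^ 2 / 8) * f x)) c]
    refine lintegral_congr fun x => ?_
    rw [add_sub_cancel_right]
  rw [h1, ← lintegral_const_mul' _ _ (by norm_num)]
  refine lintegral_mono fun x => ?_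
  have h2 : (2 : ℝ≥0∞) = ENNReal.ofReal 2 := by simp
  rw [h2, ← ENNReal.ofReal_mul (by norm_num)]
  refine ENNReal.ofReal_le_ofReal ?_
  have h3 : c ^ 2 ≤ 1 := by
    rw [← sq_abs]
    nlinarith [abs_nonneg c]
  have h4 : -(x - c) ^ 2 / 8 ≤ -x ^ 2 / 16 + 1 / 8 := by
    nlinarith [sq_nonneg (x - 2 * c)]
  have h5 : Real.exp (1 / 8) ≤ 2 := by
    have h6 : Real.exp 1 < 2.7182818286 := Real.exp_one_lt_d9
    have h7 : Real.exp (1 / 8) ^ 8 = Real.exp 1 := by
      rw [← Real.exp_nat_mul]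
      norm_num
    by_contra hcon
    push Not at hcon
    have h8 : (2 : ℝ) ^ 8 ≤ Real.exp (1 / 8) ^ 8 := pow_le_pow_left₀ (by norm_num) hcon.le 8
    rw [h7] at h8
    norm_num at h8
    linarith
  have h6 : Real.exp (-(x - c) ^ 2 / 8) ≤ 2 * Real.exp (-x ^ 2 / 16) := by
    calc Real.exp (-(x - c) ^ 2 / 8) ≤ Real.exp (-x ^ 2 / 16 + 1 / 8) := Real.exp_le_exp.2 h4
      _ = Real.exp (1 / 8) * Real.exp (-x ^ 2 / 16) := by rw [Real.exp_add, mul_comm]
      _ ≤ 2 * Real.exp (-x ^ 2 / 16) := mul_le_mul_of_nonneg_right h5 (Real.exp_pos _).le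
  calc Real.exp (-(x - c) ^ 2 / 8) * f x ≤ (2 * Real.exp (-x ^ 2 / 16)) * f x :=
        mul_le_mul_of_nonneg_right h6 (hf0 x)
    _ = 2 * (Real.exp (-x ^ 2 / 16) * f x) := by ring

/-- the weighted square integral as an `L²` norm -/
private theorem L2a_norm (f : ℝ → ℝ) :
    eLpNorm (fun x => Real.exp (-x ^ 2 / 16) * f x) 2 volume ^ 2 =
      ∫⁻ x, ENNReal.ofReal (Real.exp (-x ^ 2 / 8) * (f x) ^ 2) := by
  rw [eLpNorm_eq_lintegral_rpow_enorm_toReal (by norm_num) (by norm_num), ENNReal.toReal_ofNat,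
    ← ENNReal.rpow_natCast, ← ENNReal.rpow_mul]
  have e2 : (1 / 2 : ℝ) * ((2 : ℕ) : ℝ) = 1 := by norm_num
  rw [e2, ENNReal.rpow_one]
  refine lintegral_congr fun x => ?_
  rw [show (2 : ℝ) = ((2 : ℕ) : ℝ) by norm_num, ENNReal.rpow_natCast, Real.enorm_eq_ofReal_abs,
    ← ENNReal.ofReal_pow (abs_nonneg _), sq_abs, mul_pow]
  congr 2
  rw [← Real.exp_nat_mul]
  congr 1
  push_cast
  ring

/-- Minkowski and Fatou for a telescoping sequence of continuous functions, weight `e^(-x²/8)`: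
if `F m → G` pointwise, `F 0 = 0` and `‖F (m+1) - F m‖² ≤ A² θ^(2m)` then
`‖G‖² ≤ (A/(1-θ))²`. -/
theorem telescope_L2 {F : ℕ → ℝ → ℝ} {G : ℝ → ℝ} (hF : ∀ m, Continuous (F m))
    (hG : Continuous G) (hF0 : ∀ x, F 0 x = 0) (hl : ∀ x, Tendsto (fun m => F m x) atTop (𝓝 (G x)))
    {A θ : ℝ} (hA : 0 ≤ A) (hθ : 0 < θ) (hθ1 : θ < 1)
    (h : ∀ m, ∫⁻ x, ENNReal.ofReal (Real.exp (-x ^ 2 / 8) * (F (m + 1) x - F m x) ^ 2) ≤
      ENNReal.ofReal ((A * θ ^ m) ^ 2)) :
    ∫⁻ x, ENNReal.ofReal (Real.exp (-x ^ 2 / 8) * (G x) ^ 2) ≤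
      ENNReal.ofReal ((A / (1 - θ)) ^ 2) := by
  have hw : Continuous fun x : ℝ => Real.exp (-x ^ 2 / 16) := by fun_prop
  have hθ' : 0 < 1 - θ := by linarith
  have hstep : ∀ m, eLpNorm (fun x => Real.exp (-x ^ 2 / 16) * (F (m + 1) x - F m x)) 2 volume ≤
      ENNReal.ofReal (A * θ ^ m) := fun m => by
    have h1 := h m
    rw [← L2a_norm (fun x => F (m + 1) x - F m x), ENNReal.ofReal_pow (by positivity)] at h1
    exact (ENNReal.pow_le_pow_left_iff (by norm_num)).1 h1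
  have hbd : ∀ m, eLpNorm (fun x => Real.exp (-x ^ 2 / 16) * F m x) 2 volume ≤
      ENNReal.ofReal (A * ∑ k ∈ Finset.range m, θ ^ k) := by
    intro m
    induction m with
    | zero =>
      have h1 : (fun x => Real.exp (-x ^ 2 / 16) * F 0 x) = fun _ => 0 := by
        funext x
        rw [hF0, mul_zero]
      rw [h1]
      simp
    | succ m ih =>
      have h1 : (fun x => Real.exp (-x ^ 2 / 16) * F (m + 1) x) =
          (fun x => Real.exp (-x ^ 2 / 16) * F m x) +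
            fun x => Real.exp (-x ^ 2 / 16) * (F (m + 1) x - F m x) := by
        funext x
        show _ = Real.exp (-x ^ 2 / 16) * F m x + Real.exp (-x ^ 2 / 16) * (F (m + 1) x - F m x)
        ring
      rw [h1]
      refine (eLpNorm_add_le (hw.mul (hF m)).aestronglyMeasurable
        (hw.mul ((hF (m + 1)).sub (hF m))).aestronglyMeasurable (by norm_num)).trans ?_
      refine (add_le_add ih (hstep m)).trans (le_of_eq ?_)
      rw [← ENNReal.ofReal_add (by positivity) (by positivity), Finset.sum_range_succ]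
      congr 1
      ring
  have hgeo : ∀ m, ∑ k ∈ Finset.range m, θ ^ k ≤ 1 / (1 - θ) := fun m => by
    rw [le_div_iff₀ hθ', geom_sum_mul_neg]
    linarith [pow_pos hθ m]
  have hbd' : ∀ m, eLpNorm (fun x => Real.exp (-x ^ 2 / 16) * F m x) 2 volume ≤
      ENNReal.ofReal (A / (1 - θ)) := fun m => by
    refine (hbd m).trans (ENNReal.ofReal_le_ofReal ?_)
    rw [div_eq_mul_one_div]
    exact mul_le_mul_of_nonneg_left (hgeo m) hA
  have hlim : eLpNorm (fun x => Real.exp (-x ^ 2 / 16) * G x) 2 volume ≤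
      ENNReal.ofReal (A / (1 - θ)) := by
    refine (Lp.eLpNorm_lim_le_liminf_eLpNorm (f := fun m x => Real.exp (-x ^ 2 / 16) * F m x)
      (fun m => (hw.mul (hF m)).aestronglyMeasurable) _
      (Eventually.of_forall fun x => (hl x).const_mul _)).trans ?_
    refine (liminf_le_liminf (Eventually.of_forall hbd')).trans (le_of_eq ?_)
    rw [liminf_const]
  rw [← L2a_norm G, ENNReal.ofReal_pow (by positivity)]
  exact ENNReal.pow_le_pow_left hlim

end Pool.Agent.Lib.MP_e19099_pr.F
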