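import Mathlib

set_option autoImplicit false

open MeasureTheory ProbabilityTheory Filter Topology Set
open scoped NNReal ENNReal

namespace Pool.Agent.Lib.MP_e19099_pr.F

/-- Riemann-Stieltjes sums for a continuous weight `d ≥ 0` -/
private theorem vg_step {g d : ℝ → ℝ} (hg : Continuous g) (hd : Continuous d)
    (hd0 : ∀ x, 0 ≤ d x) {N m : ℕ} (hm : 0 < m) (hN : ∀ x, g x ≠ 0 → |x| < N) {η δ : ℝ}
    (hmδ : 1 / (m : ℝ) < δ) (hδ : ∀ x y : ℝ, |x - y| < δ → |g x - g y| ≤ η) (q : ℕ → ℝ)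
    (hq : ∀ i, q i = -N + i / m) :
    |(∫ x, g x * d x) - ∑ i ∈ Finset.range (2 * N * m), g (q (i + 1)) * ∫ x in (q i)..(q (i + 1)), d x| ≤
      η * ∫ x in (-(N : ℝ))..N, d x := by
  have hmr : (0 : ℝ) < m := by exact_mod_cast hm
  have hgd : Continuous fun x => g x * d x := hg.mul hd
  have q0 : q 0 = -N := by rw [hq]; simp
  have qM : q (2 * N * m) = N := by
    rw [hq]
    push_cast
    field_simp
    ring
  have hle : ∀ i, q i ≤ q (i + 1) := fun i => by
    rw [hq, hq]
    push_cast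
    have : (i : ℝ) / m ≤ (i + 1) / m := div_le_div_of_nonneg_right (by linarith) hmr.le
    linarith
  have e1 : ∫ x, g x * d x = ∑ i ∈ Finset.range (2 * N * m), ∫ x in (q i)..(q (i + 1)), g x * d x := by
    rw [intervalIntegral.sum_integral_adjacent_intervals
      (fun i _ => hgd.intervalIntegrable _ _), q0, qM]
    refine (intervalIntegral.integral_eq_integral_of_support_subset ?_).symm
    intro x hx
    have h1 : g x ≠ 0 := fun h => hx (by simp [h])
    have h2 := abs_lt.1 (hN x h1)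
    exact ⟨h2.1, h2.2.le⟩
  have e2 : ∫ x in (-(N : ℝ))..N, d x =
      ∑ i ∈ Finset.range (2 * N * m), ∫ x in (q i)..(q (i + 1)), d x := by
    rw [intervalIntegral.sum_integral_adjacent_intervals
      (fun i _ => hd.intervalIntegrable _ _), q0, qM]
  rw [e1, e2, ← Finset.sum_sub_distrib, Finset.mul_sum]
  refine (Finset.abs_sum_le_sum_abs _ _).trans (Finset.sum_le_sum fun i _ => ?_)
  have hcd : Continuous fun x => g (q (i + 1)) * d x := continuous_const.mul hd
  rw [← intervalIntegral.integral_const_mul, ← intervalIntegral.integral_sub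
    (hgd.intervalIntegrable _ _) (hcd.intervalIntegrable _ _),
    ← intervalIntegral.integral_const_mul, ← Real.norm_eq_abs]
  refine intervalIntegral.norm_integral_le_of_norm_le (hle i) (Eventually.of_forall fun x hx => ?_)
    ((continuous_const.mul hd).intervalIntegrable _ _)
  have h3 : |x - q (i + 1)| < δ := by
    rw [abs_of_nonpos (by linarith [hx.2])]
    have h4 : q (i + 1) - q i = 1 / m := by
      rw [hq, hq]
      push_cast
      ring
    linarith [hx.1]
  have h5 := hδ x (q (i + 1)) h3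
  rw [Real.norm_eq_abs, ← sub_mul, abs_mul, abs_of_nonneg (hd0 x)]
  exact mul_le_mul_of_nonneg_right h5 (hd0 x)

private theorem vg_ind {d : ℝ → ℝ} {a b : ℝ} (hab : a ≤ b) :
    ∫ x, (Ioc a b).indicator (fun _ => (1 : ℝ)) x * d x = ∫ x in a..b, d x := by
  have h1 : (fun x => (Ioc a b).indicator (fun _ => (1 : ℝ)) x * d x) = (Ioc a b).indicator d := by
    funext x
    by_cases hx : x ∈ Ioc a b
    · rw [indicator_of_mem hx, indicator_of_mem hx, one_mul]
    · rw [indicator_of_notMem hx, indicator_of_notMem hx, zero_mul]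
  rw [h1, integral_indicator measurableSet_Ioc, intervalIntegral.integral_of_le hab]

/-- from rational intervals to compactly supported continuous functions, by uniform approximation
with step functions with rational jump points. -/
theorem vague_of_intervals {D : ℕ → ℝ → ℝ} (hD : ∀ k, Continuous (D k))
    (hD0 : ∀ k x, 0 ≤ D k x)
    (hI : ∀ q r : ℚ, Tendsto (fun k => ∫ x, (Ioc (q : ℝ) r).indicator (fun _ => (1 : ℝ)) x * D k x)
      atTop (𝓝 (∫ x, (Ioc (q : ℝ) r).indicator (fun _ => (1 : ℝ)) x)))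
    {g : ℝ → ℝ} (hg : Continuous g) (hgc : HasCompactSupport g) :
    Tendsto (fun k => ∫ x, g x * D k x) atTop (𝓝 (∫ x, g x)) := by
  -- a bounded interval which contains the support
  obtain ⟨N, hN0, hN⟩ : ∃ N : ℕ, 0 < N ∧ ∀ x, g x ≠ 0 → |x| < N := by
    obtain ⟨R, hR⟩ := (Metric.isBounded_iff_subset_closedBall (0 : ℝ)).1 hgc.isBounded
    obtain ⟨N, hN⟩ := exists_nat_gt (max R 0)
    have h0 : (0 : ℝ) < N := lt_of_le_of_lt (le_max_right _ _) hN
    refine ⟨N, by exact_mod_cast h0, fun x hx => ?_⟩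
    have h1 := hR (subset_tsupport g (show x ∈ Function.support g from hx))
    rw [mem_closedBall_zero_iff, Real.norm_eq_abs] at h1
    exact lt_of_le_of_lt (h1.trans (le_max_left _ _)) hN
  have hNr : (0 : ℝ) < N := by exact_mod_cast hN0
  -- convergence on rational intervals
  have hJ : ∀ q r : ℚ, q ≤ r → Tendsto (fun k => ∫ x in (q : ℝ)..r, D k x) atTop
      (𝓝 (∫ x in (q : ℝ)..r, (1 : ℝ))) := by
    intro q r hqr
    have hqr' : (q : ℝ) ≤ r := by exact_mod_cast hqr
    have h1 := hI q r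
    simp_rw [vg_ind hqr'] at h1
    have h2 := vg_ind (d := fun _ => (1 : ℝ)) hqr'
    simp_rw [mul_one] at h2
    rwa [h2] at h1
  rw [Metric.tendsto_atTop]
  intro ε hε
  set η : ℝ := ε / (2 * (4 * N + 3)) with hη
  have hηpos : 0 < η := by positivity
  obtain ⟨δ, hδ, hδg⟩ := Metric.uniformContinuous_iff.1
    (hgc.uniformContinuous_of_continuous hg) η hηpos
  obtain ⟨m0, hm0⟩ := exists_nat_gt (1 / δ)
  set m : ℕ := m0 + 1 with hmdef
  have hm : 0 < m := Nat.succ_pos _
  have hmr : (0 : ℝ) < m := by exact_mod_cast hm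
  have hmδ : 1 / (m : ℝ) < δ := by
    rw [div_lt_iff₀ hmr]
    rw [div_lt_iff₀ hδ] at hm0
    have : (m : ℝ) = m0 + 1 := by rw [hmdef]; push_cast; ring
    nlinarith
  have hδ' : ∀ x y : ℝ, |x - y| < δ → |g x - g y| ≤ η := fun x y hxy => by
    have := hδg (a := x) (b := y) (by rwa [Real.dist_eq])
    rw [Real.dist_eq] at this
    exact this.le
  let qQ : ℕ → ℚ := fun i => -(N : ℚ) + (i : ℚ) / m
  let q : ℕ → ℝ := fun i => ((qQ i : ℚ) : ℝ)
  have hq : ∀ i, q i = -N + i / m := fun i => by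
    show (((-(N : ℚ) + (i : ℚ) / m : ℚ)) : ℝ) = _
    push_cast
    ring
  have hqle : ∀ i, qQ i ≤ qQ (i + 1) := fun i => by
    show -(N : ℚ) + (i : ℚ) / m ≤ -(N : ℚ) + ((i + 1 : ℕ) : ℚ) / m
    push_cast
    have hmq : (0 : ℚ) < m := by exact_mod_cast hm
    have : (i : ℚ) / m ≤ (i + 1) / m := div_le_div_of_nonneg_right (by linarith) hmq.le
    linarith
  -- the step function sums converge
  have hsum : Tendsto (fun k => ∑ i ∈ Finset.range (2 * N * m), g (q (i + 1)) *
      ∫ x in (q i)..(q (i + 1)), D k x) atTop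
      (𝓝 (∑ i ∈ Finset.range (2 * N * m), g (q (i + 1)) * ∫ x in (q i)..(q (i + 1)), (1 : ℝ))) :=
    tendsto_finsetSum _ fun i _ => (hJ (qQ i) (qQ (i + 1)) (hqle i)).const_mul _
  have htot : Tendsto (fun k => ∫ x in (-(N : ℝ))..N, D k x) atTop
      (𝓝 (∫ x in (-(N : ℝ))..N, (1 : ℝ))) := by
    have h1 := hJ (-(N : ℚ)) N (by
      have : (0 : ℚ) ≤ N := Nat.cast_nonneg _
      linarith)
    have c1 : (((-(N : ℚ)) : ℚ) : ℝ) = -(N : ℝ) := by push_cast; rfl
    have c2 : (((N : ℚ)) : ℝ) = (N : ℝ) := by push_cast; rfl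
    rw [c1, c2] at h1
    exact h1
  have hone : ∫ x in (-(N : ℝ))..N, (1 : ℝ) = 2 * N := by
    rw [intervalIntegral.integral_const, smul_eq_mul]
    ring
  rw [hone] at htot
  obtain ⟨K1, hK1⟩ := Metric.tendsto_atTop.1 hsum η hηpos
  obtain ⟨K2, hK2⟩ := Metric.tendsto_atTop.1 htot 1 one_pos
  refine ⟨max K1 K2, fun k hk => ?_⟩
  have h1 := hK1 k (le_trans (le_max_left _ _) hk)
  have h2 := hK2 k (le_trans (le_max_right _ _) hk)
  rw [Real.dist_eq] at h1 h2 ⊢
  have s1 := vg_step hg (hD k) (hD0 k) hm hN hmδ hδ' q hq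
  have s2 := vg_step hg (continuous_const (y := (1 : ℝ))) (fun _ => zero_le_one) hm hN hmδ hδ' q hq
  simp_rw [mul_one] at s2
  rw [hone] at s2
  have h3 := (abs_lt.1 h2).2
  have h4 : η * ∫ x in (-(N : ℝ))..N, D k x ≤ η * (2 * N + 1) :=
    mul_le_mul_of_nonneg_left (by linarith) hηpos.le
  have a1 := abs_le.1 (s1.trans h4)
  have a2 := abs_le.1 s2
  have a3 := abs_lt.1 h1
  have h5 : η * (2 * N + 1) + η + η * (2 * N) < ε := by
    have : η * (2 * (4 * N + 3)) = ε := by
      rw [hη]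
      field_simp
    nlinarith
  rw [abs_lt]
  constructor <;> linarith [a1.1, a1.2, a2.1, a2.2, a3.1, a3.2]

end Pool.Agent.Lib.MP_e19099_pr.F
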