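import Pool.Agent.Lib.MP_e19099_pr.D_Seq
import Pool.Agent.Lib.MP_e19099_pr.D_L2
import Pool.Agent.Lib.MP_e19099_pr.D_Vague
import Pool.Agent.Lib.MP_e19099_pr.D_Fill
import Pool.Agent.Lib.MP_e19099_pr.D_Grow

set_option autoImplicit false

open MeasureTheory ProbabilityTheory Filter Topology Set
open scoped NNReal ENNReal

namespace Pool.Agent.Lib.MP_e19099_pr.F

variable {H : ℝ} {Ω : Type*} [MeasurableSpace Ω] {B : ℝ → Ω → ℝ} {P : Measure Ω}

private theorem abs_lag {p : ℕ} {s : ℝ} (hs : s = 1 ∨ s = -1) (k : ℕ) :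
    |lag p s k| = 1 / ((k : ℝ) + 1) ^ p := by
  unfold lag
  have h1 : |s| = 1 := by rcases hs with rfl | rfl <;> simp
  rw [abs_div, h1, abs_of_pos (by positivity : (0 : ℝ) < ((k : ℝ) + 1) ^ p)]

private theorem summable_lag {p : ℕ} {s : ℝ} (hs : s = 1 ∨ s = -1) {β : ℝ}
    (hp : 1 < (p : ℝ) * β) : Summable fun k => |lag p s k| ^ β := by
  have h1 : Summable fun k : ℕ => 1 / ((k : ℝ) + 1) ^ ((p : ℝ) * β) := by
    have h2 : Summable fun k : ℕ => 1 / (k : ℝ) ^ ((p : ℝ) * β) :=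
      Real.summable_one_div_nat_rpow.2 hp
    have h3 := (summable_nat_add_iff 1).2 h2
    simpa using h3
  refine h1.congr fun k => ?_
  rw [abs_lag hs k]
  have hk : (0 : ℝ) < (k : ℝ) + 1 := by positivity
  rw [Real.div_rpow (by norm_num) (by positivity), Real.one_rpow, Real.rpow_mul hk.le,
    Real.rpow_natCast]

/-- for all rational intervals along the lags `± (k+1)^(-p)`, `p * bet H > 1` -/
theorem ae_lln_lag (hB : IsFBM H B P) (hc : ∀ ω, Continuous fun x => B x ω) (hH : 0 < H)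
    (hH1 : H < 1) : ∃ p : ℕ, 1 ≤ p ∧ ∀ᵐ ω ∂P, ∀ q r : ℚ, ∀ s : ℝ, s = 1 ∨ s = -1 →
      Tendsto (fun k : ℕ => |lag p s k| ^ (-(2 * H)) *
        SF B ((Ioc (q : ℝ) r).indicator fun _ => (1 : ℝ)) (lag p s k) ω) atTop
        (𝓝 (∫ x, (Ioc (q : ℝ) r).indicator (fun _ => (1 : ℝ)) x)) := by
  have hb := bet_pos hH1
  obtain ⟨p, hp⟩ := exists_nat_gt (1 / bet H)
  have hp1 : 1 < (p : ℝ) * bet H := by
    rwa [div_lt_iff₀ hb] at hp
  have hp2 : 1 ≤ p := by
    rcases Nat.eq_zero_or_pos p with h0 | h0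
    · rw [h0] at hp1
      norm_num at hp1
    · exact h0
  refine ⟨p, hp2, ?_⟩
  have key : ∀ q r : ℚ, ∀ s : ℝ, s = 1 ∨ s = -1 → ∀ᵐ ω ∂P,
      Tendsto (fun k : ℕ => |lag p s k| ^ (-(2 * H)) *
        SF B ((Ioc (q : ℝ) r).indicator fun _ => (1 : ℝ)) (lag p s k) ω) atTop
        (𝓝 (∫ x, (Ioc (q : ℝ) r).indicator (fun _ => (1 : ℝ)) x)) := by
    intro q r s hs
    refine ae_lln_seq hB hc hH hH1 (measurable_const.indicator measurableSet_Ioc) ?_ ?_ ?_ ?_
      (summable_lag hs hp1)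
    · intro x
      exact indicator_nonneg (fun _ _ => zero_le_one) x
    · intro x
      exact indicator_le_self' (fun _ _ => zero_le_one) x
    · rw [integrable_indicator_iff measurableSet_Ioc]
      exact integrableOn_const (by simp) (by simp)
    · intro k h0
      have h1 := abs_lag (p := p) hs k
      rw [h0, abs_zero] at h1
      have : (0 : ℝ) < 1 / ((k : ℝ) + 1) ^ p := by positivity
      linarith
  have h1 : ∀ᵐ ω ∂P, ∀ q r : ℚ,
      Tendsto (fun k : ℕ => |lag p 1 k| ^ (-(2 * H)) *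
        SF B ((Ioc (q : ℝ) r).indicator fun _ => (1 : ℝ)) (lag p 1 k) ω) atTop
        (𝓝 (∫ x, (Ioc (q : ℝ) r).indicator (fun _ => (1 : ℝ)) x)) :=
    ae_all_iff.2 fun q => ae_all_iff.2 fun r => key q r 1 (Or.inl rfl)
  have h2 : ∀ᵐ ω ∂P, ∀ q r : ℚ,
      Tendsto (fun k : ℕ => |lag p (-1) k| ^ (-(2 * H)) *
        SF B ((Ioc (q : ℝ) r).indicator fun _ => (1 : ℝ)) (lag p (-1) k) ω) atTop
        (𝓝 (∫ x, (Ioc (q : ℝ) r).indicator (fun _ => (1 : ℝ)) x)) :=
    ae_all_iff.2 fun q => ae_all_iff.2 fun r => key q r (-1) (Or.inr rfl)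
  filter_upwards [h1, h2] with ω w1 w2 q r s hs
  rcases hs with rfl | rfl
  · exact w1 q r
  · exact w2 q r

theorem ae_good_cont (hB : IsFBM H B P) (hc : ∀ ω, Continuous fun x => B x ω) (hH : 0 < H)
    (hH1 : H < 1) : ∀ᵐ ω ∂P, Good H fun x => B x ω := by
  obtain ⟨p, hp, hl⟩ := ae_lln_lag hB hc hH hH1
  filter_upwards [ae_growth hB hc hH hH1, ae_dyadic hB hc hH hH1, hl] with ω hg hd hl
  obtain ⟨C, hC, hd⟩ := hd
  obtain ⟨C', hC', hbd⟩ := bound_of_dyadic hH (hc ω) hC hd
  refine ⟨hc ω, hg, ⟨C', fun h hh => ?_⟩, fun g hgc hgs => ?_⟩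
  · have hcont : Continuous fun x => Real.exp (-x ^ 2 / 8) * (B (x + h) ω - B x ω) ^ 2 := by
      have h1 : Continuous fun x => B (x + h) ω := (hc ω).comp (continuous_add_const h)
      have h2 := hc ω
      fun_prop
    rw [integral_eq_lintegral_of_nonneg_ae (ae_of_all _ fun x => by positivity)
      hcont.aestronglyMeasurable]
    refine (ENNReal.toReal_mono ENNReal.ofReal_ne_top (hbd h hh)).trans (le_of_eq ?_)
    exact ENNReal.toReal_ofReal (by positivity)
  · refine full_of_seq hH (hc ω) hC' hbd hgc hgs hp fun s hs => ?_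
    have hD : ∀ k, Continuous fun x =>
        |lag p s k| ^ (-(2 * H)) * (B (x + lag p s k) ω - B x ω) ^ 2 := by
      intro k
      have h1 : Continuous fun x => B (x + lag p s k) ω := (hc ω).comp (continuous_add_const _)
      have h2 := hc ω
      fun_prop
    have hv := vague_of_intervals (D := fun k x =>
      |lag p s k| ^ (-(2 * H)) * (B (x + lag p s k) ω - B x ω) ^ 2) hD
      (fun k x => by positivity) ?_ hgc hgs
    · refine hv.congr fun k => ?_
      rw [← integral_const_mul]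
      refine integral_congr_ae (ae_of_all _ fun x => ?_)
      simp only
      ring
    · intro q r
      refine (hl q r s hs).congr fun k => ?_
      unfold SF
      rw [← integral_const_mul]
      refine integral_congr_ae (ae_of_all _ fun x => ?_)
      simp only
      ring

/-- Almost every path of fractional Brownian motion is good. -/
theorem ae_good (hB : IsFBM H B P) (hH : 0 < H) (hH1 : H < 1) :
    ∀ᵐ ω ∂P, Good H fun x => B x ω := by
  obtain ⟨B', hB', hc', he⟩ := exists_cont_version hB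
  filter_upwards [ae_good_cont hB' hc' hH hH1, he] with ω h1 h2
  have h3 : (fun x => B' x ω) = fun x => B x ω := funext h2
  rwa [h3] at h1

end Pool.Agent.Lib.MP_e19099_pr.F
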