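import Pool.Agent.Lib.MP_e19099_pr.D_Incr
import Pool.Agent.Lib.MP_e19099_pr.D_Chaining

set_option autoImplicit false

open MeasureTheory ProbabilityTheory Filter Topology Set
open scoped NNReal ENNReal

namespace Pool.Agent.Lib.MP_e19099_pr.F

variable {H : ℝ} {Ω : Type*} [MeasurableSpace Ω] {B : ℝ → Ω → ℝ} {P : Measure Ω}

/-- oscillation over a unit interval: `chaining` with `p H > 1`, `p ≥ 2`, `β = p H - 1`,
`incr_moment`. -/
theorem exists_osc (hB : IsFBM H B P) (hc : ∀ ω, Continuous fun x => B x ω) (hH : 0 < H) :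
    ∃ C : ℝ, 0 < C ∧ ∀ (k : ℤ) (η : ℝ), 1 ≤ η →
      P {ω | ∃ t ∈ Icc (k : ℝ) (k + 1), η < |B t ω - B k ω|} ≤ ENNReal.ofReal (C / η ^ 2) := by
  obtain ⟨p, hp2, hpH⟩ : ∃ p : ℕ, 2 ≤ p ∧ 1 < (p : ℝ) * H := by
    obtain ⟨q, hq⟩ := exists_nat_gt (1 / H)
    refine ⟨max q 2, le_max_right _ _, ?_⟩
    have h1 : (q : ℝ) ≤ ((max q 2 : ℕ) : ℝ) := by exact_mod_cast le_max_left q 2
    have h2 : 1 < (q : ℝ) * H := by rwa [div_lt_iff₀ hH] at hq
    exact h2.trans_le (mul_le_mul_of_nonneg_right h1 hH.le)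
  obtain ⟨M, hM⟩ : ∃ M : ℝ, M = ∫ z, |z| ^ p ∂(gaussianReal 0 1) := ⟨_, rfl⟩
  have hM0 : 0 ≤ M := by
    rw [hM]
    exact integral_nonneg fun z => by positivity
  obtain ⟨β, hβ⟩ : ∃ β : ℝ, β = p * H - 1 := ⟨_, rfl⟩
  have hβ0 : 0 < β := by rw [hβ]; linarith
  refine ⟨|chC p β * M| + 1, by positivity, fun k η hη => ?_⟩
  have hη0 : 0 < η := by linarith
  have h1 := chaining P (Z := B) (a := (k : ℝ)) (L := 1) one_pos
    (fun ω => (hc ω).continuousOn) (fun t _ => hB.meas t) (p := p) (by omega) hβ0 hM0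
    (fun s _ t _ => by
      rw [incr_moment hB hH p s t, ← hM]
      have : 1 + β = p * H := by rw [hβ]; ring
      rw [this]) hη0
  refine h1.trans (ENNReal.ofReal_le_ofReal ?_)
  rw [Real.one_rpow, mul_one]
  have h2 : η ^ 2 ≤ η ^ p := pow_le_pow_right₀ hη hp2
  have h3 : chC p β * M ≤ |chC p β * M| + 1 := by
    have := le_abs_self (chC p β * M)
    linarith
  calc chC p β * M / η ^ p ≤ (|chC p β * M| + 1) / η ^ p := by gcongr
    _ ≤ (|chC p β * M| + 1) / η ^ 2 := by gcongr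

/-- values at integers: Markov with the fourth moment (`B 0 = 0` a.s. from the covariance). -/
theorem exists_int (hB : IsFBM H B P) (hH : 0 < H) (hH1 : H < 1) :
    ∃ C : ℝ, 0 < C ∧ ∀ k : ℤ, k ≠ 0 →
      P {ω | (k : ℝ) ^ 2 / 64 < |B k ω|} ≤ ENNReal.ofReal (C / (k : ℝ) ^ 2) := by
  haveI : IsProbabilityMeasure P := hB.isProb
  have hB0 : ∀ᵐ ω ∂P, B 0 ω = 0 := by
    have h1 : ∫ ω, B 0 ω * B 0 ω ∂P = 0 := by
      rw [hB.cov 0 0]
      have : (0 : ℝ) ^ (2 * H) = 0 := Real.zero_rpow (by positivity)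
      simp [this]
    have hmem : MemLp (B 0) 2 P := (hB.gauss.hasGaussianLaw_eval 0).memLp_two
    have hint : Integrable (fun ω => B 0 ω * B 0 ω) P := by
      have := hmem.integrable_sq
      simpa [pow_two] using this
    have h2 := (integral_eq_zero_iff_of_nonneg (fun ω => mul_self_nonneg (B 0 ω)) hint).1 h1
    filter_upwards [h2] with ω hω
    exact mul_self_eq_zero.1 hω
  obtain ⟨M, hM⟩ : ∃ M : ℝ, M = ∫ z, |z| ^ 4 ∂(gaussianReal 0 1) := ⟨_, rfl⟩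
  have hM0 : 0 ≤ M := by
    rw [hM]
    exact integral_nonneg fun z => by positivity
  refine ⟨M * 64 ^ 4 + 1, by positivity, fun k hk => ?_⟩
  have hk1 : (1 : ℝ) ≤ |(k : ℝ)| := by
    have : 1 ≤ |k| := Int.one_le_abs hk
    exact_mod_cast this
  have hk0 : (k : ℝ) ≠ 0 := by exact_mod_cast hk
  have hkp : 0 < (k : ℝ) ^ 2 / 64 := by positivity
  have hmom : ∫⁻ ω, ENNReal.ofReal (|B k ω| ^ 4) ∂P =
      ENNReal.ofReal (M * |(k : ℝ)| ^ ((4 : ℕ) * H)) := by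
    have h := incr_moment hB hH 4 0 (k : ℝ)
    rw [sub_zero, ← hM] at h
    rw [← h]
    refine lintegral_congr_ae ?_
    filter_upwards [hB0] with ω hω
    rw [hω, sub_zero]
  have hmeas : Measurable fun ω => ENNReal.ofReal (|B k ω| ^ 4) :=
    ENNReal.measurable_ofReal.comp ((hB.meas _).abs.pow_const 4)
  have hc0 : ENNReal.ofReal (((k : ℝ) ^ 2 / 64) ^ 4) ≠ 0 := by
    rw [Ne, ENNReal.ofReal_eq_zero, not_le]
    positivity
  have hmk := meas_ge_le_lintegral_div hmeas.aemeasurable (μ := P) hc0 ENNReal.ofReal_ne_top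
  have hsub : {ω | (k : ℝ) ^ 2 / 64 < |B k ω|} ⊆
      {ω | ENNReal.ofReal (((k : ℝ) ^ 2 / 64) ^ 4) ≤ ENNReal.ofReal (|B k ω| ^ 4)} := by
    intro ω hω
    simp only [mem_setOf_eq] at hω ⊢
    exact ENNReal.ofReal_le_ofReal (pow_le_pow_left₀ hkp.le hω.le 4)
  refine (measure_mono hsub).trans (hmk.trans ?_)
  rw [hmom, ← ENNReal.ofReal_div_of_pos (by positivity)]
  refine ENNReal.ofReal_le_ofReal ?_
  have hpw : |(k : ℝ)| ^ (((4 : ℕ) : ℝ) * H) ≤ (k : ℝ) ^ 4 := by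
    calc |(k : ℝ)| ^ (((4 : ℕ) : ℝ) * H) ≤ |(k : ℝ)| ^ ((4 : ℕ) : ℝ) :=
          Real.rpow_le_rpow_of_exponent_le hk1 (by push_cast; linarith)
      _ = |(k : ℝ)| ^ 4 := Real.rpow_natCast _ 4
      _ = (k : ℝ) ^ 4 := by
          rw [← abs_pow]
          exact abs_of_nonneg (by positivity)
  have hksq : (1 : ℝ) ≤ (k : ℝ) ^ 2 := by
    rw [← sq_abs]
    exact one_le_pow₀ hk1
  calc M * |(k : ℝ)| ^ (((4 : ℕ) : ℝ) * H) / ((k : ℝ) ^ 2 / 64) ^ 4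
      ≤ M * (k : ℝ) ^ 4 / ((k : ℝ) ^ 2 / 64) ^ 4 := by gcongr
    _ = M * 64 ^ 4 / ((k : ℝ) ^ 2 * (k : ℝ) ^ 2) := by field_simp
    _ ≤ M * 64 ^ 4 / ((k : ℝ) ^ 2 * 1) := by gcongr
    _ ≤ (M * 64 ^ 4 + 1) / (k : ℝ) ^ 2 := by
        rw [mul_one]
        gcongr
        linarith

end Pool.Agent.Lib.MP_e19099_pr.F
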