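import Mathlib

set_option autoImplicit false

open MeasureTheory ProbabilityTheory Filter Topology Set
open scoped NNReal ENNReal

namespace Pool.Agent.Lib.MP_e19099_pr.F

private theorem riesz_aux {β : ℝ} (hβ1 : β ≤ 1 / 2) :
    IntervalIntegrable (fun x : ℝ => |x| ^ (-β)) volume 0 1 := by
  have h := intervalIntegral.intervalIntegrable_rpow' (a := 0) (b := 1) (r := -β) (by linarith)
  refine h.congr ?_
  rw [Set.uIoc_of_le zero_le_one]
  intro x hx
  simp only
  rw [abs_of_pos hx.1]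

private theorem riesz_aux' {β : ℝ} (hβ1 : β ≤ 1 / 2) :
    IntervalIntegrable (fun x : ℝ => |x| ^ (-β)) volume (-1) 1 := by
  have h1 := riesz_aux hβ1
  have h2 : IntervalIntegrable (fun x : ℝ => |x| ^ (-β)) volume (-1) 0 := by
    have := (IntervalIntegrable.iff_comp_neg (f := fun x : ℝ => |x| ^ (-β)) (a := 0) (b := 1)).1 h1
    simp only [abs_neg, neg_zero] at this
    exact this.symm
  exact h2.trans h1

/-- `∫∫ g g |x-y|^(-β) < ∞` for `0 ≤ g ≤ 1` integrable, `0 < β ≤ 1/2`: split `|x-y| ≤ 1`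
(`∫_{|u|≤1} |u|^(-β) du ≤ 4`, `g y ≤ 1`) and `|x-y| > 1` (kernel at most `1`). -/
theorem integrable_riesz {g : ℝ → ℝ} (hg : Measurable g) (hg0 : ∀ x, 0 ≤ g x)
    (hg1 : ∀ x, g x ≤ 1) (hgi : Integrable g) {β : ℝ} (hβ : 0 < β) (hβ1 : β ≤ 1 / 2) :
    Integrable (fun p : ℝ × ℝ => g p.1 * g p.2 * |p.1 - p.2| ^ (-β))
      ((volume : Measure ℝ).prod volume) := by
  set K : ℝ → ℝ := (Set.Ioc (-1 : ℝ) 1).indicator (fun u => |u| ^ (-β)) with hK
  have hKi : Integrable K := by
    have h := riesz_aux' hβ1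
    rw [intervalIntegrable_iff_integrableOn_Ioc_of_le (by norm_num)] at h
    rw [hK, integrable_indicator_iff measurableSet_Ioc]
    exact h
  have hK0 : ∀ u, 0 ≤ K u := by
    intro u
    rw [hK]
    refine Set.indicator_nonneg (fun u _ => ?_) u
    positivity
  have h1 : Integrable (fun p : ℝ × ℝ => g p.1 * g p.2) ((volume : Measure ℝ).prod volume) :=
    hgi.mul_prod hgi
  have h2 : Integrable (fun p : ℝ × ℝ => g p.2 * K (p.1 - p.2))
      ((volume : Measure ℝ).prod volume) :=
    Integrable.convolution_integrand (ContinuousLinearMap.mul ℝ ℝ) hgi hKi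
  refine (h1.add h2).mono' ?_ (Filter.Eventually.of_forall ?_)
  · refine Measurable.aestronglyMeasurable ?_
    exact ((hg.comp measurable_fst).mul (hg.comp measurable_snd)).mul
      ((measurable_fst.sub measurable_snd).abs.pow_const _)
  · rintro ⟨x, y⟩
    simp only [Pi.add_apply]
    have hnn : 0 ≤ |x - y| ^ (-β) := by positivity
    rw [Real.norm_of_nonneg (mul_nonneg (mul_nonneg (hg0 x) (hg0 y)) hnn)]
    by_cases hxy : x - y ∈ Set.Ioc (-1 : ℝ) 1
    · have hKv : K (x - y) = |x - y| ^ (-β) := by rw [hK, Set.indicator_of_mem hxy]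
      rw [hKv]
      have := mul_nonneg (hg0 x) (hg0 y)
      have h3 : g x * g y * |x - y| ^ (-β) ≤ g y * |x - y| ^ (-β) := by
        refine mul_le_mul_of_nonneg_right ?_ hnn
        nlinarith [hg1 x, hg0 x, hg0 y]
      linarith
    · have habs : 1 ≤ |x - y| := by
        by_contra hlt
        rw [not_le, abs_lt] at hlt
        exact hxy ⟨hlt.1, hlt.2.le⟩
      have h3 : |x - y| ^ (-β) ≤ 1 := Real.rpow_le_one_of_one_le_of_nonpos habs (by linarith)
      have h4 : 0 ≤ g y * K (x - y) := mul_nonneg (hg0 y) (hK0 _)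
      have := mul_nonneg (hg0 x) (hg0 y)
      nlinarith

end Pool.Agent.Lib.MP_e19099_pr.F
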