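import Pool.Agent.Lib.MP_e19099_pr.D_Cov

set_option autoImplicit false

open MeasureTheory ProbabilityTheory Filter Topology Set
open scoped NNReal ENNReal

namespace Pool.Agent.Lib.MP_e19099_pr.F

variable {H : ℝ} {Ω : Type*} [MeasurableSpace Ω] {B : ℝ → Ω → ℝ} {P : Measure Ω}

private theorem sf_joint (hB : IsFBM H B P) (hc : ∀ ω, Continuous fun x => B x ω)
    {g : ℝ → ℝ} (hg : Measurable g) (h : ℝ) :
    Measurable fun p : ℝ × Ω => g p.1 * (B (p.1 + h) p.2 - B p.1 p.2) ^ 2 := by
  have hj := measurable_joint hB hc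
  have h1 : Measurable fun p : ℝ × Ω => B (p.1 + h) p.2 := by
    have : Measurable fun p : ℝ × Ω => ((p.1 + h, p.2) : ℝ × Ω) :=
      (measurable_fst.add_const h).prodMk measurable_snd
    exact hj.comp this
  exact (hg.comp measurable_fst).mul ((h1.sub hj).pow_const 2)

/-- Tonelli: `E ∫ g Δ² = |h|^(2H) ∫ g < ∞` -/
theorem ae_integrable_SF (hB : IsFBM H B P) (hc : ∀ ω, Continuous fun x => B x ω) (hH : 0 < H)
    {g : ℝ → ℝ} (hg : Measurable g) (hg0 : ∀ x, 0 ≤ g x) (hgi : Integrable g) (h : ℝ) :
    ∀ᵐ ω ∂P, Integrable (fun x => g x * (B (x + h) ω - B x ω) ^ 2) := by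
  have := hB.isProb
  have hm := sf_joint hB hc hg h
  have hint : Integrable (fun p : ℝ × Ω => g p.1 * (B (p.1 + h) p.2 - B p.1 p.2) ^ 2)
      ((volume : Measure ℝ).prod P) := by
    rw [integrable_prod_iff hm.aestronglyMeasurable]
    constructor
    · refine Filter.Eventually.of_forall fun x => ?_
      exact (integrable_incr_pow hB hH x h 2).const_mul (g x)
    · refine (hgi.mul_const (|h| ^ (2 * H))).congr (Filter.Eventually.of_forall fun x => ?_)
      simp only
      have hcg : ∀ ω, ‖g x * (B (x + h) ω - B x ω) ^ 2‖ = g x * (B (x + h) ω - B x ω) ^ 2 := by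
        intro ω
        exact Real.norm_of_nonneg (mul_nonneg (hg0 x) (sq_nonneg _))
      simp only [hcg]
      rw [integral_const_mul, incr_var hB hH x h]
  exact hint.prod_left_ae

theorem measurable_SF (hB : IsFBM H B P) (hc : ∀ ω, Continuous fun x => B x ω)
    {g : ℝ → ℝ} (hg : Measurable g) (h : ℝ) : Measurable (SF B g h) := by
  have hm := sf_joint hB hc hg h
  have hm2 : StronglyMeasurable (Function.uncurry fun (ω : Ω) (x : ℝ) =>
      g x * (B (x + h) ω - B x ω) ^ 2) := by
    refine Measurable.stronglyMeasurable ?_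
    exact hm.comp measurable_swap
  exact (hm2.integral_prod_right (ν := (volume : Measure ℝ))).measurable

end Pool.Agent.Lib.MP_e19099_pr.F
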