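import Pool.Agent.Lib.MP_e19099_pr.D_Var
import Pool.Agent.Lib.MP_e19099_pr.D_BC

set_option autoImplicit false

open MeasureTheory ProbabilityTheory Filter Topology Set
open scoped NNReal ENNReal

namespace Pool.Agent.Lib.MP_e19099_pr.F

variable {H : ℝ} {Ω : Type*} [MeasurableSpace Ω] {B : ℝ → Ω → ℝ} {P : Measure Ω}

/-- law of large numbers along a summable sequence of lags -/
theorem ae_lln_seq (hB : IsFBM H B P) (hc : ∀ ω, Continuous fun x => B x ω) (hH : 0 < H)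
    (hH1 : H < 1) {g : ℝ → ℝ} (hg : Measurable g) (hg0 : ∀ x, 0 ≤ g x)
    (hg1 : ∀ x, g x ≤ 1) (hgi : Integrable g) {u : ℕ → ℝ} (hu : ∀ k, u k ≠ 0)
    (hs : Summable fun k => |u k| ^ (bet H)) :
    ∀ᵐ ω ∂P, Tendsto (fun k => |u k| ^ (-(2 * H)) * SF B g (u k) ω) atTop (𝓝 (∫ x, g x)) := by
  obtain ⟨C, hC, hb⟩ := exists_var_SF hB hc hH hH1 hg hg0 hg1 hgi
  refine ae_tendsto_of_sq (Z := fun k ω => |u k| ^ (-(2 * H)) * SF B g (u k) ω)
    (a := fun k => C * |u k| ^ (bet H)) ?_ ?_ (hs.mul_left C) ?_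
  · intro k
    exact ((measurable_SF hB hc hg (u k)).const_mul _).aemeasurable
  · intro k
    exact mul_nonneg hC.le (Real.rpow_nonneg (abs_nonneg _) _)
  · intro k
    exact hb (u k) (hu k)

private theorem seq_side (hB : IsFBM H B P) (hc : ∀ ω, Continuous fun x => B x ω) (hH : 0 < H)
    (hH1 : H < 1) {s : ℝ} (hs : |s| = 1) :
    ∀ᵐ ω ∂P, ∃ M : ℝ, 0 < M ∧ ∀ j : ℕ,
      ∫⁻ x, ENNReal.ofReal (Real.exp (-x ^ 2 / 16) * (B (x + s / 2 ^ j) ω - B x ω) ^ 2) ≤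
        ENNReal.ofReal (M * ((2 : ℝ) ^ (-(2 * H))) ^ j) := by
  have hg : Measurable fun x : ℝ => Real.exp (-x ^ 2 / 16) := by fun_prop
  have hg0 : ∀ x : ℝ, 0 ≤ Real.exp (-x ^ 2 / 16) := fun x => (Real.exp_pos _).le
  have hg1 : ∀ x : ℝ, Real.exp (-x ^ 2 / 16) ≤ 1 := by
    intro x
    rw [Real.exp_le_one_iff]
    nlinarith [sq_nonneg x]
  have hgi : Integrable fun x : ℝ => Real.exp (-x ^ 2 / 16) := by
    have := integrable_exp_neg_mul_sq (b := 1 / 16) (by norm_num)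
    refine this.congr ?_
    filter_upwards with x
    congr 1
    ring
  have hab : ∀ k : ℕ, |s / 2 ^ k| = (2 : ℝ) ^ (-(k : ℝ)) := by
    intro k
    rw [abs_div, hs, abs_of_pos (by positivity), Real.rpow_neg (by norm_num), Real.rpow_natCast,
      one_div]
  have hne : ∀ k : ℕ, s / 2 ^ k ≠ 0 := by
    intro k h
    have := hab k
    rw [h, abs_zero] at this
    exact (Real.rpow_pos_of_pos (by norm_num) _).ne this
  have hpw : ∀ (k : ℕ) (a : ℝ), |s / 2 ^ k| ^ a = ((2 : ℝ) ^ (-a)) ^ k := by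
    intro k a
    rw [hab k, ← Real.rpow_mul (by norm_num), ← Real.rpow_natCast ((2 : ℝ) ^ (-a)),
      ← Real.rpow_mul (by norm_num)]
    congr 1
    ring
  have hsum : Summable fun k : ℕ => |s / 2 ^ k| ^ (bet H) := by
    simp only [hpw]
    refine summable_geometric_of_lt_one (Real.rpow_nonneg (by norm_num) _) ?_
    exact Real.rpow_lt_one_of_one_lt_of_neg (by norm_num) (by linarith [bet_pos hH1])
  have hlim := ae_lln_seq hB hc hH hH1 hg hg0 hg1 hgi hne hsum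
  have hint : ∀ᵐ ω ∂P, ∀ k : ℕ, Integrable
      (fun x => Real.exp (-x ^ 2 / 16) * (B (x + s / 2 ^ k) ω - B x ω) ^ 2) := by
    rw [ae_all_iff]
    intro k
    exact ae_integrable_SF hB hc hH hg hg0 hgi (s / 2 ^ k)
  filter_upwards [hlim, hint] with ω hl hi
  obtain ⟨M, hM⟩ := hl.bddAbove_range
  refine ⟨max M 1, lt_of_lt_of_le one_pos (le_max_right _ _), fun j => ?_⟩
  have h1 : |s / 2 ^ j| ^ (-(2 * H)) * SF B (fun x => Real.exp (-x ^ 2 / 16)) (s / 2 ^ j) ω ≤ M :=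
    hM ⟨j, rfl⟩
  have hpos : 0 < ((2 : ℝ) ^ (-(2 * H))) ^ j := by positivity
  have h2 : |s / 2 ^ j| ^ (-(2 * H)) = (((2 : ℝ) ^ (-(2 * H))) ^ j)⁻¹ := by
    rw [Real.rpow_neg (abs_nonneg _), hpw]
  rw [h2] at h1
  have h3 : SF B (fun x => Real.exp (-x ^ 2 / 16)) (s / 2 ^ j) ω ≤
      M * ((2 : ℝ) ^ (-(2 * H))) ^ j := by
    rw [inv_mul_le_iff₀ hpos] at h1
    linarith
  rw [← ofReal_integral_eq_lintegral_ofReal (hi j)
    (Filter.Eventually.of_forall fun x => mul_nonneg (hg0 x) (sq_nonneg _))]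
  refine ENNReal.ofReal_le_ofReal ?_
  refine le_trans (show _ ≤ M * ((2 : ℝ) ^ (-(2 * H))) ^ j from h3) ?_
  exact mul_le_mul_of_nonneg_right (le_max_left _ _) hpos.le

/-- boundedness along dyadic lags of both signs for the weight `e^(-x²/16)`: `ae_lln_seq` with
`u k = s * 2^(-k)` (a convergent sequence is bounded), `ae_integrable_SF` for the integrability. -/
theorem ae_dyadic (hB : IsFBM H B P) (hc : ∀ ω, Continuous fun x => B x ω) (hH : 0 < H)
    (hH1 : H < 1) :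
    ∀ᵐ ω ∂P, ∃ C : ℝ, 0 < C ∧ ∀ s : ℝ, s = 1 ∨ s = -1 → ∀ j : ℕ,
      ∫⁻ x, ENNReal.ofReal (Real.exp (-x ^ 2 / 16) * (B (x + s / 2 ^ j) ω - B x ω) ^ 2) ≤
        ENNReal.ofReal (C * ((2 : ℝ) ^ (-(2 * H))) ^ j) := by
  filter_upwards [seq_side hB hc hH hH1 (s := 1) (by norm_num),
    seq_side hB hc hH hH1 (s := -1) (by norm_num)] with ω h1 h2
  obtain ⟨M1, hM1, h1⟩ := h1
  obtain ⟨M2, hM2, h2⟩ := h2
  refine ⟨max M1 M2, lt_of_lt_of_le hM1 (le_max_left _ _), ?_⟩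
  rintro s (rfl | rfl) j
  · refine (h1 j).trans (ENNReal.ofReal_le_ofReal ?_)
    exact mul_le_mul_of_nonneg_right (le_max_left _ _) (by positivity)
  · refine (h2 j).trans (ENNReal.ofReal_le_ofReal ?_)
    exact mul_le_mul_of_nonneg_right (le_max_right _ _) (by positivity)

end Pool.Agent.Lib.MP_e19099_pr.F
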