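import Pool.Agent.Lib.MP_e19099_pr.D_SFa
import Pool.Agent.Lib.MP_e19099_pr.D_Far
import Pool.Agent.Lib.MP_e19099_pr.D_Riesz

set_option autoImplicit false

open MeasureTheory ProbabilityTheory Filter Topology Set
open scoped NNReal ENNReal

namespace Pool.Agent.Lib.MP_e19099_pr.F

variable {H : ℝ} {Ω : Type*} [MeasurableSpace Ω] {B : ℝ → Ω → ℝ} {P : Measure Ω}

private theorem D_Var_diag :
    ∀ᵐ p : ℝ × ℝ ∂((volume : Measure ℝ).prod volume), p.1 ≠ p.2 := by
  rw [ae_iff]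
  have h1 : {p : ℝ × ℝ | ¬ p.1 ≠ p.2} = {p : ℝ × ℝ | p.1 = p.2} := by
    ext p
    simp
  rw [h1]
  have hms : MeasurableSet {p : ℝ × ℝ | p.1 = p.2} := measurableSet_eq_fun measurable_fst measurable_snd
  rw [Measure.measure_prod_null hms]
  refine Eventually.of_forall fun x => ?_
  have h2 : Prod.mk x ⁻¹' {p : ℝ × ℝ | p.1 = p.2} = {x} := by
    ext y
    simp [eq_comm]
  show (volume : Measure ℝ) (Prod.mk x ⁻¹' {p : ℝ × ℝ | p.1 = p.2}) = 0
  rw [h2]
  simp

/-- Variance bound: a.s. `|h|^(-2H) SF - ∫ g = ∫ g (|h|^(-2H) Δ² - 1)`; expand the square as a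
double integral, Fubini (`incr_sq_cov_abs`), `incr_sq_cov`, `exists_rk_sq`, `integrable_riesz`. -/
theorem exists_var_SF (hB : IsFBM H B P) (hc : ∀ ω, Continuous fun x => B x ω) (hH : 0 < H)
    (hH1 : H < 1) {g : ℝ → ℝ} (hg : Measurable g) (hg0 : ∀ x, 0 ≤ g x)
    (hg1 : ∀ x, g x ≤ 1) (hgi : Integrable g) :
    ∃ C : ℝ, 0 < C ∧ ∀ h : ℝ, h ≠ 0 →
      ∫⁻ ω, ENNReal.ofReal ((|h| ^ (-(2 * H)) * SF B g h ω - ∫ x, g x) ^ 2) ∂P ≤
        ENNReal.ofReal (C * |h| ^ (bet H)) := by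
  obtain ⟨Ck, hCk, hk⟩ := exists_rk_sq hH hH1
  have hR := integrable_riesz hg hg0 hg1 hgi (bet_pos hH1) bet_le
  set R : ℝ := ∫ p : ℝ × ℝ, g p.1 * g p.2 * |p.1 - p.2| ^ (-bet H)
    ∂((volume : Measure ℝ).prod volume) with hRdef
  have hR0 : 0 ≤ R := integral_nonneg fun p => by
    have := hg0 p.1
    have := hg0 p.2
    show 0 ≤ g p.1 * g p.2 * |p.1 - p.2| ^ (-bet H)
    positivity
  have hprob : IsProbabilityMeasure P := hB.gauss.isProbabilityMeasure
  refine ⟨2 * Ck * R + 1, by positivity, ?_⟩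
  intro h hh
  have hh0 : 0 < |h| := abs_pos.2 hh
  set s : ℝ := |h| ^ (2 * H) with hs
  set D : ℝ → Ω → ℝ := fun x ω => (B (x + h) ω - B x ω) ^ 2 - s with hD
  have hBm : Measurable (Function.uncurry B) :=
    measurable_uncurry_of_continuous_of_measurable hc hB.meas
  have hDm : Measurable (fun q : ℝ × Ω => D q.1 q.2) := by
    have h1 : Measurable fun q : ℝ × Ω => B (q.1 + h) q.2 :=
      hBm.comp ((measurable_fst.add_const h).prodMk measurable_snd)
    have h2 : Measurable fun q : ℝ × Ω => B q.1 q.2 := hBm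
    exact ((h1.sub h2).pow_const 2).sub_const s
  set F : (ℝ × ℝ) × Ω → ℝ := fun q => g q.1.1 * g q.1.2 * (D q.1.1 q.2 * D q.1.2 q.2) with hF
  have hFm : Measurable F := by
    have h1 : Measurable fun q : (ℝ × ℝ) × Ω => D q.1.1 q.2 :=
      hDm.comp ((measurable_fst.comp measurable_fst).prodMk measurable_snd)
    have h2 : Measurable fun q : (ℝ × ℝ) × Ω => D q.1.2 q.2 :=
      hDm.comp ((measurable_snd.comp measurable_fst).prodMk measurable_snd)
    exact ((hg.comp (measurable_fst.comp measurable_fst)).mul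
      (hg.comp (measurable_snd.comp measurable_fst))).mul (h1.mul h2)
  have hgg : Integrable (fun p : ℝ × ℝ => g p.1 * g p.2) ((volume : Measure ℝ).prod volume) :=
    hgi.mul_prod hgi
  have hFi : Integrable F (((volume : Measure ℝ).prod volume).prod P) := by
    refine ⟨hFm.aestronglyMeasurable, ?_⟩
    unfold HasFiniteIntegral
    rw [lintegral_prod _ hFm.enorm.aemeasurable]
    have h1 : ∀ p : ℝ × ℝ, ∫⁻ ω, ‖F (p, ω)‖ₑ ∂P ≤ ENNReal.ofReal (2 * |h| ^ (4 * H) * (g p.1 * g p.2)) := by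
      intro p
      have h2 : ∀ ω, ‖F (p, ω)‖ₑ = ENNReal.ofReal (g p.1 * g p.2) *
          ENNReal.ofReal |((B (p.1 + h) ω - B p.1 ω) ^ 2 - |h| ^ (2 * H)) *
            ((B (p.2 + h) ω - B p.2 ω) ^ 2 - |h| ^ (2 * H))| := by
        intro ω
        rw [← ENNReal.ofReal_mul (mul_nonneg (hg0 _) (hg0 _)), Real.enorm_eq_ofReal_abs, hF]
        simp only
        rw [abs_mul, abs_of_nonneg (mul_nonneg (hg0 _) (hg0 _))]
      simp_rw [h2]
      have hm : Measurable fun ω => ENNReal.ofReal |((B (p.1 + h) ω - B p.1 ω) ^ 2 - |h| ^ (2 * H)) *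
            ((B (p.2 + h) ω - B p.2 ω) ^ 2 - |h| ^ (2 * H))| := by
        have h3 : Measurable fun ω => D p.1 ω := hDm.comp measurable_prodMk_left
        have h4 : Measurable fun ω => D p.2 ω := hDm.comp measurable_prodMk_left
        exact (h3.mul h4).abs.ennreal_ofReal
      rw [lintegral_const_mul _ hm]
      refine (mul_le_mul_right (incr_sq_cov_abs hB hH p.1 p.2 h) _).trans (le_of_eq ?_)
      rw [← ENNReal.ofReal_mul (mul_nonneg (hg0 _) (hg0 _))]
      congr 1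
      ring
    refine lt_of_le_of_lt (lintegral_mono h1) ?_
    have h5 := (hgg.const_mul (2 * |h| ^ (4 * H)))
    exact h5.lintegral_lt_top
  -- the two iterated integrals
  have hswap : ∫ ω, ∫ p, F (p, ω) ∂((volume : Measure ℝ).prod volume) ∂P =
      ∫ p, ∫ ω, F (p, ω) ∂P ∂((volume : Measure ℝ).prod volume) := by
    rw [← integral_prod_symm F hFi, integral_prod F hFi]
  have hcov : ∀ p : ℝ × ℝ, ∫ ω, F (p, ω) ∂P = g p.1 * g p.2 * (2 * (rk H (p.1 - p.2) h) ^ 2) := by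
    intro p
    rw [← incr_sq_cov hB hH p.1 p.2 h, ← integral_const_mul]
  set c : ℝ := |h| ^ (-(2 * H)) with hcdef
  have hcs : c * s = 1 := by
    rw [hcdef, hs, Real.rpow_neg hh0.le, inv_mul_cancel₀]
    exact (Real.rpow_pos_of_pos hh0 _).ne'
  have hG : ∀ᵐ ω ∂P, (c * SF B g h ω - ∫ x, g x) ^ 2 =
      c ^ 2 * ∫ p, F (p, ω) ∂((volume : Measure ℝ).prod volume) := by
    filter_upwards [ae_integrable_SF hB hc hH hg hg0 hgi h] with ω hω
    have h1 : ∫ p, F (p, ω) ∂((volume : Measure ℝ).prod volume) =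
        (∫ x, g x * D x ω) * ∫ x, g x * D x ω := by
      rw [← integral_prod_mul]
      refine integral_congr_ae (Eventually.of_forall fun p => ?_)
      show g p.1 * g p.2 * (D p.1 ω * D p.2 ω) = g p.1 * D p.1 ω * (g p.2 * D p.2 ω)
      ring
    have h2 : ∫ x, g x * D x ω = SF B g h ω - s * ∫ x, g x := by
      unfold SF
      rw [← integral_const_mul, ← integral_sub hω (hgi.const_mul s)]
      refine integral_congr_ae (Eventually.of_forall fun x => ?_)
      show g x * ((B (x + h) ω - B x ω) ^ 2 - s) = g x * (B (x + h) ω - B x ω) ^ 2 - s * g x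
      ring
    rw [h1, h2]
    have h3 : c * SF B g h ω - ∫ x, g x = c * (SF B g h ω - s * ∫ x, g x) := by
      rw [mul_sub, ← mul_assoc, hcs, one_mul]
    rw [h3]
    ring
  have hGi : Integrable (fun ω => ∫ p, F (p, ω) ∂((volume : Measure ℝ).prod volume)) P :=
    hFi.integral_prod_right
  have hLi : Integrable (fun p => ∫ ω, F (p, ω) ∂P) ((volume : Measure ℝ).prod volume) :=
    hFi.integral_prod_left
  have e1 : ∫⁻ ω, ENNReal.ofReal ((c * SF B g h ω - ∫ x, g x) ^ 2) ∂P =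
      ENNReal.ofReal (∫ ω, c ^ 2 * ∫ p, F (p, ω) ∂((volume : Measure ℝ).prod volume) ∂P) := by
    rw [ofReal_integral_eq_lintegral_ofReal (hGi.const_mul _)]
    · refine lintegral_congr_ae ?_
      filter_upwards [hG] with ω hω
      rw [hω]
    · filter_upwards [hG] with ω hω
      show 0 ≤ c ^ 2 * ∫ p, F (p, ω) ∂((volume : Measure ℝ).prod volume)
      rw [← hω]
      positivity
  rw [e1, integral_const_mul, hswap]
  refine ENNReal.ofReal_le_ofReal ?_
  have hbound : ∫ p, ∫ ω, F (p, ω) ∂P ∂((volume : Measure ℝ).prod volume) ≤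
      ∫ p : ℝ × ℝ, (2 * Ck * |h| ^ (4 * H) * |h| ^ (bet H)) *
        (g p.1 * g p.2 * |p.1 - p.2| ^ (-bet H)) ∂((volume : Measure ℝ).prod volume) := by
    refine integral_mono_ae hLi (hR.const_mul _) ?_
    filter_upwards [D_Var_diag] with p hp
    show ∫ ω, F (p, ω) ∂P ≤ (2 * Ck * |h| ^ (4 * H) * |h| ^ (bet H)) *
        (g p.1 * g p.2 * |p.1 - p.2| ^ (-bet H))
    rw [hcov]
    have hd : p.1 - p.2 ≠ 0 := sub_ne_zero.2 hp
    have h1 := hk (p.1 - p.2) h hd hh
    have h2 : (|h| / |p.1 - p.2|) ^ (bet H) = |h| ^ (bet H) * |p.1 - p.2| ^ (-bet H) := by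
      rw [Real.div_rpow (abs_nonneg _) (abs_nonneg _), Real.rpow_neg (abs_nonneg _), div_eq_mul_inv]
    rw [h2] at h1
    have h3 : 0 ≤ g p.1 * g p.2 := mul_nonneg (hg0 _) (hg0 _)
    calc g p.1 * g p.2 * (2 * (rk H (p.1 - p.2) h) ^ 2)
        ≤ g p.1 * g p.2 * (2 * (Ck * |h| ^ (4 * H) * (|h| ^ (bet H) * |p.1 - p.2| ^ (-bet H)))) :=
          mul_le_mul_of_nonneg_left (mul_le_mul_of_nonneg_left h1 (by norm_num)) h3
      _ = _ := by ring
  rw [integral_const_mul, ← hRdef] at hbound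
  have hc4 : c ^ 2 * |h| ^ (4 * H) = 1 := by
    have h1 : |h| ^ (4 * H) = s ^ 2 := by
      rw [hs, ← Real.rpow_natCast, ← Real.rpow_mul hh0.le]
      congr 1
      push_cast
      ring
    rw [h1, ← mul_pow, hcs, one_pow]
  have hb0 : 0 ≤ |h| ^ (bet H) := (Real.rpow_pos_of_pos hh0 _).le
  calc c ^ 2 * ∫ p, ∫ ω, F (p, ω) ∂P ∂((volume : Measure ℝ).prod volume)
      ≤ c ^ 2 * (2 * Ck * |h| ^ (4 * H) * |h| ^ (bet H) * R) :=
        mul_le_mul_of_nonneg_left hbound (sq_nonneg c)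
    _ = (c ^ 2 * |h| ^ (4 * H)) * (2 * Ck * R * |h| ^ (bet H)) := by ring
    _ = 2 * Ck * R * |h| ^ (bet H) := by rw [hc4, one_mul]
    _ ≤ (2 * Ck * R + 1) * |h| ^ (bet H) := by
        rw [add_mul]
        linarith

end Pool.Agent.Lib.MP_e19099_pr.F
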