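import Pool.Agent.Lib.MP_e19099_pr.D_Defs

open MeasureTheory ProbabilityTheory Filter Topology Set
open scoped NNReal ENNReal

namespace Pool.Agent.Lib.MP_e19099_pr.F

variable {H : ℝ} {Ω : Type*} [MeasurableSpace Ω] {B : ℝ → Ω → ℝ} {P : Measure Ω}

theorem IsFBM.isProb (hB : IsFBM H B P) : IsProbabilityMeasure P :=
  hB.gauss.isProbabilityMeasure

/-- a version all of whose paths are continuous -/
theorem exists_cont_version (hB : IsFBM H B P) :
    ∃ B' : ℝ → Ω → ℝ, IsFBM H B' P ∧ (∀ ω, Continuous fun x => B' x ω) ∧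
      ∀ᵐ ω ∂P, ∀ x, B' x ω = B x ω := by
  classical
  obtain ⟨N, hN⟩ : ∃ N, N = toMeasurable P {ω | ¬ Continuous fun x => B x ω} := ⟨_, rfl⟩
  have hNm : MeasurableSet N := by rw [hN]; exact measurableSet_toMeasurable _ _
  have hN0 : P N = 0 := by
    rw [hN, measure_toMeasurable]
    exact ae_iff.1 hB.cont
  have hNs : ∀ ω, ω ∉ N → Continuous fun x => B x ω := by
    intro ω hω
    by_contra hc
    refine hω ?_
    rw [hN]
    exact subset_toMeasurable _ _ hc
  have hae : ∀ᵐ ω ∂P, ω ∉ N := measure_eq_zero_iff_ae_notMem.1 hN0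
  have hae2 : ∀ᵐ ω ∂P, ∀ x, (if ω ∈ N then 0 else B x ω) = B x ω := by
    filter_upwards [hae] with ω hω x
    rw [if_neg hω]
  refine ⟨fun x ω => if ω ∈ N then 0 else B x ω, ?_, ?_, hae2⟩
  · refine ⟨?_, ?_, ?_, ?_, ?_⟩
    · intro x
      exact Measurable.ite hNm measurable_const (hB.meas x)
    · refine hB.gauss.congr fun x => ?_
      filter_upwards [hae2] with ω hω
      exact (hω x).symm
    · intro x
      refine (integral_congr_ae ?_).trans (hB.mean x)
      filter_upwards [hae2] with ω hω
      exact hω x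
    · intro x y
      refine (integral_congr_ae ?_).trans (hB.cov x y)
      filter_upwards [hae2] with ω hω
      simp only [hω x, hω y]
    · filter_upwards [hae] with ω hω
      simp only [if_neg hω]
      exact hNs ω hω
  · intro ω
    by_cases hω : ω ∈ N
    · simp only [if_pos hω]
      exact continuous_const
    · simp only [if_neg hω]
      exact hNs ω hω

theorem measurable_joint (hB : IsFBM H B P) (hc : ∀ ω, Continuous fun x => B x ω) :
    Measurable fun p : ℝ × Ω => B p.1 p.2 :=
  measurable_uncurry_of_continuous_of_measurable (u := B) hc hB.meas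

end Pool.Agent.Lib.MP_e19099_pr.F
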