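import Mathlib

/-!
# Diffusion limits of Metropolis-Hastings chains with rough targets: definitions
-/

set_option autoImplicit false

open MeasureTheory ProbabilityTheory Filter Set
open scoped NNReal Topology ENNReal

noncomputable section

namespace Pool.Agent.Lib.MP_e19099_pr

/-! ### The Skorokhod space -/

/-- Càdlàg paths on `[0, ∞)`: right continuous with left limits. -/
def IsCadlag (x : ℝ≥0 → ℝ) : Prop :=
  ∀ t, ContinuousWithinAt x (Ici t) t ∧ ∃ l, Tendsto x (𝓝[<] t) (𝓝 l)

/-- The Skorokhod space `D([0, ∞), ℝ)`, with the `σ`-algebra generated by the coordinates. -/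
def D : Type := {x : ℝ≥0 → ℝ // IsCadlag x}

instance : MeasurableSpace D := inferInstanceAs (MeasurableSpace {x : ℝ≥0 → ℝ // IsCadlag x})

/-- Convergence of a sequence in the Skorokhod `J₁` topology of `D([0, ∞), ℝ)`: there are time
changes (increasing bijections `σ n` of `[0, ∞)`) with `σ n → id` and `x n - y ∘ σ n → 0`,
uniformly on bounded time intervals. -/
def TendstoJ1 (x : ℕ → D) (y : D) : Prop :=
  ∃ σ : ℕ → (ℝ≥0 ≃o ℝ≥0), ∀ T : ℝ≥0, ∀ ε : ℝ, 0 < ε → ∀ᶠ n in atTop, ∀ t ≤ T,
    |((σ n t : ℝ≥0) : ℝ) - (t : ℝ)| < ε ∧ |(x n).1 t - y.1 (σ n t)| < ε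

/-- Weak convergence of probability measures on the Skorokhod space: convergence of the integrals
of all bounded (measurable) functionals that are continuous for the `J₁` topology. -/
def TendstoWeakly (μ : ℕ → Measure D) (ν : Measure D) : Prop :=
  ∀ Φ : D → ℝ, Measurable Φ → (∃ C : ℝ, ∀ x, |Φ x| ≤ C) →
    (∀ (x : ℕ → D) (y : D), TendstoJ1 x y → Tendsto (fun n => Φ (x n)) atTop (𝓝 (Φ y))) →
    Tendsto (fun n => ∫ x, Φ x ∂(μ n)) atTop (𝓝 (∫ x, Φ x ∂ν))

/-! ### Markov chains -/

/-- `X` is a Markov chain with initial distribution `Pi` and transition kernel `K`: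
for every `k` the conditional distribution of `X (k+1)` given `X 0, …, X k` is `K (X k)`. -/
structure IsChain {Ω E : Type*} [MeasurableSpace Ω] [MeasurableSpace E] (P : Measure Ω)
    (X : ℕ → Ω → E) (Pi : Measure E) (K : Kernel E E) : Prop where
  meas : ∀ k, Measurable (X k)
  init : P.map (X 0) = Pi
  step : ∀ k : ℕ,
    P.map (fun ω => ((fun i : Fin (k + 1) => X i ω), X (k + 1) ω))
      = (P.map fun ω (i : Fin (k + 1)) => X i ω) ⊗ₘ
          (K.comap (fun h : Fin (k + 1) → E => h (Fin.last k)) (measurable_pi_apply _))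

/-- The Metropolis-Hastings acceptance probability for the target density `d` and the proposal
density `q` (with respect to a common reference measure). -/
def accept {E : Type*} (d : E → ℝ) (q : E → E → ℝ) (x y : E) : ℝ :=
  min 1 (d y * q y x / (d x * q x y))

/-- `K` is the Metropolis-Hastings kernel for the target density `d` and the proposal density `q`
with respect to the reference measure `ν`: propose `y` with density `q x y`, accept it with
probability `accept d q x y` and stay at `x` otherwise. -/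
def IsMH {E : Type*} [MeasurableSpace E] (ν : Measure E) (d : E → ℝ) (q : E → E → ℝ)
    (K : Kernel E E) : Prop :=
  ∀ x, K x = ν.withDensity (fun y => ENNReal.ofReal (q x y * accept d q x y))
    + ENNReal.ofReal (1 - ∫ y, q x y * accept d q x y ∂ν) • Measure.dirac x

/-! ### One dimensional targets and their Dirichlet forms -/

/-- The probability measure with density proportional to `exp (V x)`. -/
def target (V : ℝ → ℝ) : Measure ℝ :=
  (∫⁻ x, ENNReal.ofReal (Real.exp (V x)))⁻¹ •
    volume.withDensity (fun x => ENNReal.ofReal (Real.exp (V x)))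

/-- The domain of the Dirichlet form: `u ∈ L²(π)` is absolutely continuous with (weak)
derivative `u' ∈ L²(π)`. -/
structure Dom (π : Measure ℝ) (u u' : ℝ → ℝ) : Prop where
  loc : ∀ a b, IntervalIntegrable u' volume a b
  ftc : ∀ a b, u b - u a = ∫ t in a..b, u' t
  l2 : MemLp u 2 π
  l2' : MemLp u' 2 π

/-- `u` (with derivative `u'`) is the resolvent `G_lam f` of the Dirichlet form
`E(u,w) = (h/2) ∫ u' w' dπ` on `L²(π)`: `E(u,w) + lam ⟨u,w⟩ = ⟨f,w⟩` for all `w` in the
domain. -/
def IsResolvent (π : Measure ℝ) (h lam : ℝ) (f u u' : ℝ → ℝ) : Prop :=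
  Dom π u u' ∧ ∀ w w', Dom π w w' →
    h / 2 * ∫ x, u' x * w' x ∂π + lam * ∫ x, u x * w x ∂π = ∫ x, f x * w x ∂π

/-- `U` is a (stationary) Langevin diffusion for `π` with speed `h`: a process with continuous
paths and marginal distributions `π` which is Markov with the resolvent of the Dirichlet form
`E(u,u) = (h/2) ∫ (u')² dπ` on `L²(π)`: for all bounded continuous `f`, all `lam > 0` and `s ≥ 0`,
`E[∫₀^∞ exp(-lam t) f(U_{s+t}) dt | U_r, r ≤ s] = (G_lam f)(U_s)`. -/
structure IsLangevin {Ω : Type*} [MeasurableSpace Ω] (Q : Measure Ω) (U : ℝ≥0 → Ω → ℝ)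
    (π : Measure ℝ) (h : ℝ) : Prop where
  cont : ∀ ω, Continuous fun t => U t ω
  meas : ∀ t, Measurable (U t)
  stat : ∀ t, Q.map (U t) = π
  markov : ∀ f : ℝ → ℝ, Continuous f → (∃ C : ℝ, ∀ x, |f x| ≤ C) → ∀ lam : ℝ, 0 < lam →
    ∃ u u' : ℝ → ℝ, IsResolvent π h lam f u u' ∧ ∀ s : ℝ≥0,
      Q[fun ω => ∫ t in Ioi (0 : ℝ), Real.exp (-lam * t) * f (U (s + t.toNNReal) ω)
        | ⨆ r : {r : ℝ≥0 // r ≤ s}, MeasurableSpace.comap (U r) inferInstance]
      =ᵐ[Q] fun ω => u (U s ω)

/-! ### Fractional Brownian motion -/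

/-- `B` is a two-sided fractional Brownian motion with Hurst parameter `H`: a centred Gaussian
process on `ℝ` with the usual covariance and almost surely continuous paths. -/
structure IsFBM {Ω : Type*} [MeasurableSpace Ω] (P : Measure Ω) (H : ℝ) (B : ℝ → Ω → ℝ) :
    Prop where
  gauss : IsGaussianProcess B P
  meas : ∀ x, Measurable (B x)
  cont : ∀ᵐ ω ∂P, Continuous fun x => B x ω
  mean : ∀ x, ∫ ω, B x ω ∂P = 0
  cov : ∀ x y, ∫ ω, B x ω * B y ω ∂P
    = (|x| ^ (2 * H) + |y| ^ (2 * H) - |x - y| ^ (2 * H)) / 2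

end Pool.Agent.Lib.MP_e19099_pr

end
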