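import Pool.Agent.Lib.MP_e19099_pr.OrthC

/-!
# Density of the range (task A7)

The set of classes in `Lp ℝ 2 (tgt p)` of the functions `lam v - L v` is a submodule (`vf_comb`, `gen_comb`,
`isTest_comb`); its orthogonal complement is `0` by `orth_zero`, so it is dense
(`Submodule.topologicalClosure_eq_top_iff`).
-/

set_option autoImplicit false

open MeasureTheory ProbabilityTheory Filter Set
open scoped NNReal Topology ENNReal

namespace Pool.Agent.Lib.MP_e19099_pr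

variable {p g : ℝ → ℝ} {h lam : ℝ}

theorem core_memLp (hp : Dens p) {q : ℝ → ℝ} (hq : IsTest q) (a : ℝ) :
    MemLp (fun x => lam * vf p q a x - gen h p q x) 2 (tgt p) := by
  obtain ⟨C₁, h1⟩ := vf_bdd hp hq a
  obtain ⟨C₂, h2⟩ := gen_bdd hp hq h
  have hc : Continuous fun x => lam * vf p q a x - gen h p q x :=
    (continuous_const.mul (vf_cont hp hq a)).sub (gen_cont hp hq h)
  refine memLp_bdd hp hc.measurable (C := |lam| * C₁ + C₂) ?_
  intro x
  calc |lam * vf p q a x - gen h p q x| ≤ |lam * vf p q a x| + |gen h p q x| := abs_sub _ _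
    _ ≤ |lam| * C₁ + C₂ := by
      rw [abs_mul]
      have := mul_le_mul_of_nonneg_left (h1 x) (abs_nonneg lam)
      linarith [h2 x]

private lemma isTest_zero : IsTest (fun _ => (0 : ℝ)) :=
  ⟨contDiff_const, HasCompactSupport.zero⟩

/-- the classes of the functions `lam v - L v` -/
private noncomputable def coreSub (hp : Dens p) (h lam : ℝ) : Submodule ℝ (Lp ℝ 2 (tgt p)) where
  carrier := {f | ∃ q a, IsTest q ∧ f =ᵐ[tgt p] fun x => lam * vf p q a x - gen h p q x}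
  zero_mem' := by
    refine ⟨fun _ => 0, 0, isTest_zero, ?_⟩
    filter_upwards [Lp.coeFn_zero ℝ 2 (tgt p)] with x hx
    rw [hx]
    simp [vf, gen]
  add_mem' := by
    rintro f₁ f₂ ⟨q₁, a₁, h₁, e₁⟩ ⟨q₂, a₂, h₂, e₂⟩
    refine ⟨fun x => 1 * q₁ x + 1 * q₂ x, 1 * a₁ + 1 * a₂, isTest_comb h₁ h₂ 1 1, ?_⟩
    filter_upwards [Lp.coeFn_add f₁ f₂, e₁, e₂] with x hx hx₁ hx₂
    rw [hx, Pi.add_apply, hx₁, hx₂, vf_comb hp h₁ h₂, gen_comb h₁ h₂]
    ring
  smul_mem' := by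
    rintro c f₁ ⟨q₁, a₁, h₁, e₁⟩
    refine ⟨fun x => c * q₁ x + 0 * q₁ x, c * a₁ + 0 * a₁, isTest_comb h₁ h₁ c 0, ?_⟩
    filter_upwards [Lp.coeFn_smul c f₁, e₁] with x hx hx₁
    rw [hx, Pi.smul_apply, hx₁, vf_comb hp h₁ h₁, gen_comb h₁ h₁, smul_eq_mul]
    ring

theorem core_dense (hp : Dens p) (hlam : 0 < lam) (hh : 0 < h) (hg : MemLp g 2 (tgt p)) {ε : ℝ}
    (hε : 0 < ε) :
    ∃ q a, IsTest q ∧ ∫ x, (lam * vf p q a x - gen h p q x - g x) ^ 2 ∂(tgt p) ≤ ε := by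
  have horth : (coreSub hp h lam)ᗮ = ⊥ := by
    rw [Submodule.eq_bot_iff]
    intro u hu
    have h0 : ∀ᵐ x ∂(tgt p), u x = 0 := by
      refine orth_zero hp hlam hh (Lp.memLp u) ?_
      intro q hq a
      have hm := core_memLp (h := h) (lam := lam) hp hq a
      have h1 : hm.toLp ∈ coreSub hp h lam := ⟨q, a, hq, hm.coeFn_toLp⟩
      have h2 := (Submodule.mem_orthogonal _ _).1 hu _ h1
      rw [L2.inner_def] at h2
      rw [← h2]
      apply integral_congr_ae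
      filter_upwards [hm.coeFn_toLp] with x hx
      rw [hx]
      simp [mul_comm]
    exact (Lp.eq_zero_iff_ae_eq_zero).2 h0
  have hd : (coreSub hp h lam).topologicalClosure = ⊤ :=
    Submodule.topologicalClosure_eq_top_iff.2 horth
  have hmem : hg.toLp ∈ closure ((coreSub hp h lam : Submodule ℝ (Lp ℝ 2 (tgt p))) :
      Set (Lp ℝ 2 (tgt p))) := by
    rw [← Submodule.topologicalClosure_coe, hd]
    trivial
  obtain ⟨f, hf, hfd⟩ := Metric.mem_closure_iff.1 hmem (Real.sqrt ε) (Real.sqrt_pos.2 hε)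
  obtain ⟨q, a, hq, hfe⟩ := hf
  refine ⟨q, a, hq, ?_⟩
  have h1 : ∫ x, (lam * vf p q a x - gen h p q x - g x) ^ 2 ∂(tgt p) =
      ‖f - hg.toLp‖ ^ 2 := by
    rw [← real_inner_self_eq_norm_sq, L2.inner_def]
    apply integral_congr_ae
    filter_upwards [Lp.coeFn_sub f hg.toLp, hfe, hg.coeFn_toLp] with x hx hx₁ hx₂
    rw [hx, Pi.sub_apply, hx₁, hx₂]
    simp [sq]
  rw [h1]
  rw [dist_comm, dist_eq_norm] at hfd
  calc ‖f - hg.toLp‖ ^ 2 ≤ Real.sqrt ε ^ 2 :=
        pow_le_pow_left₀ (norm_nonneg _) hfd.le 2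
    _ = ε := Real.sq_sqrt hε.le

end Pool.Agent.Lib.MP_e19099_pr
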