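import Pool.Agent.Lib.MP_e19099_pr.Core

/-!
# Energy of test functions (task A8)

`core_energy`: `core_ibp` with `w = v = vf p q a`, `w' = q/p` (`vf_dom`): `∫ (q/p)² dtgt = - ∫ (q'/p) v dtgt`, i.e.
`(h/2) ∫ (q/p)² = - ∫ (L v) v`.
`core_coercive`: `lam ∫ v² ≤ ∫ g v ≤ √(∫ g²) √(∫ v²)` (`g = lam v - L v`), so `lam² ∫ v² ≤ ∫ g²`; and
`(h/2) ∫ (q/p)² ≤ ∫ g v ≤ √(∫ g²) √(∫ v²) ≤ (1/lam) ∫ g²`.
`res_weak`: from `core_ibp`: for `(w, w')` in the domain, `(h/2) ∫ (q/p) w' + lam ∫ v w = ∫ (lam v - L v) w`.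
`res_unique`: subtract; `(u - w, u' - w')` is in the domain.
-/

set_option autoImplicit false

open MeasureTheory ProbabilityTheory Filter Set
open scoped NNReal Topology ENNReal

namespace Pool.Agent.Lib.MP_e19099_pr

variable {p q : ℝ → ℝ} {h lam : ℝ}

private theorem dissip_gen_memLp (hp : Dens p) (hq : IsTest q) : MemLp (gen h p q) 2 (tgt p) := by
  obtain ⟨C, hC⟩ := gen_bdd hp hq h
  exact memLp_bdd hp (gen_cont hp hq h).measurable hC

private theorem dissip_int {f g : ℝ → ℝ} (hf : MemLp f 2 (tgt p)) (hg : MemLp g 2 (tgt p)) :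
    Integrable (fun x => f x * g x) (tgt p) := hf.integrable_mul hg

theorem res_weak (hp : Dens p) (hq : IsTest q) (a : ℝ) {w w' : ℝ → ℝ} (hw : Dom (tgt p) w w') :
    h / 2 * ∫ x, (q x / p x) * w' x ∂(tgt p) + lam * ∫ x, vf p q a x * w x ∂(tgt p)
      = ∫ x, (lam * vf p q a x - gen h p q x) * w x ∂(tgt p) := by
  have hv := vf_dom hp hq a
  have hg : MemLp (gen h p q) 2 (tgt p) := dissip_gen_memLp hp hq
  have e1 : ∫ x, (lam * vf p q a x - gen h p q x) * w x ∂(tgt p) =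
      ∫ x, (lam * (vf p q a x * w x) - gen h p q x * w x) ∂(tgt p) := by
    congr 1
    funext x
    ring
  have e2 : ∫ x, gen h p q x * w x ∂(tgt p) =
      h / 2 * ∫ x, (deriv q x / p x) * w x ∂(tgt p) := by
    rw [← integral_const_mul]
    congr 1
    funext x
    unfold gen
    ring
  rw [e1, integral_sub ((dissip_int hv.l2 hw.l2).const_mul lam) (dissip_int hg hw.l2),
    integral_const_mul, e2, core_ibp hp hq hw]
  ring

theorem core_energy (hp : Dens p) (hq : IsTest q) (a : ℝ) :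
    h / 2 * ∫ x, (q x / p x) ^ 2 ∂(tgt p) + lam * ∫ x, vf p q a x ^ 2 ∂(tgt p)
      = ∫ x, (lam * vf p q a x - gen h p q x) * vf p q a x ∂(tgt p) := by
  rw [← res_weak hp hq a (vf_dom hp hq a)]
  simp only [pow_two]

theorem core_coercive (hp : Dens p) (hh : 0 < h) (hlam : 0 < lam) (hq : IsTest q) (a : ℝ) :
    lam ^ 2 * ∫ x, vf p q a x ^ 2 ∂(tgt p)
      ≤ ∫ x, (lam * vf p q a x - gen h p q x) ^ 2 ∂(tgt p) ∧
    h / 2 * lam * ∫ x, (q x / p x) ^ 2 ∂(tgt p)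
      ≤ ∫ x, (lam * vf p q a x - gen h p q x) ^ 2 ∂(tgt p) := by
  have hv := vf_dom hp hq a
  have hg : MemLp (gen h p q) 2 (tgt p) := dissip_gen_memLp hp hq
  have hg2 : MemLp (fun x => lam * vf p q a x - gen h p q x) 2 (tgt p) :=
    (hv.l2.const_mul lam).sub hg
  have hE := core_energy (h := h) (lam := lam) hp hq a
  have hB : 0 ≤ ∫ x, (q x / p x) ^ 2 ∂(tgt p) := integral_nonneg (fun x => sq_nonneg _)
  have hA : 0 ≤ ∫ x, vf p q a x ^ 2 ∂(tgt p) := integral_nonneg (fun x => sq_nonneg _)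
  have hG : 0 ≤ ∫ x, (lam * vf p q a x - gen h p q x) ^ 2 ∂(tgt p) :=
    integral_nonneg (fun x => sq_nonneg _)
  have i1 : Integrable (fun x => (lam * vf p q a x - gen h p q x) * vf p q a x) (tgt p) :=
    dissip_int hg2 hv.l2
  have i2 : Integrable (fun x => (lam * vf p q a x - gen h p q x) ^ 2) (tgt p) := hg2.integrable_sq
  have i3 : Integrable (fun x => vf p q a x ^ 2) (tgt p) := hv.l2.integrable_sq
  have hAM : 2 * lam * ∫ x, (lam * vf p q a x - gen h p q x) * vf p q a x ∂(tgt p) ≤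
      ∫ x, (lam * vf p q a x - gen h p q x) ^ 2 ∂(tgt p) +
        lam ^ 2 * ∫ x, vf p q a x ^ 2 ∂(tgt p) := by
    rw [← integral_const_mul, ← integral_const_mul, ← integral_add i2 (i3.const_mul _)]
    apply integral_mono (i1.const_mul _) (i2.add (i3.const_mul _))
    intro x
    have h1 := sq_nonneg ((lam * vf p q a x - gen h p q x) - lam * vf p q a x)
    show 2 * lam * ((lam * vf p q a x - gen h p q x) * vf p q a x) ≤
      (lam * vf p q a x - gen h p q x) ^ 2 + lam ^ 2 * vf p q a x ^ 2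
    nlinarith
  rw [← hE] at hAM
  have hBh : 0 ≤ h / 2 * lam * ∫ x, (q x / p x) ^ 2 ∂(tgt p) := by positivity
  have hAl : 0 ≤ lam ^ 2 * ∫ x, vf p q a x ^ 2 ∂(tgt p) := by positivity
  constructor
  · nlinarith
  · nlinarith

theorem dom_sub {u u' w w' : ℝ → ℝ} (hu : Dom (tgt p) u u') (hw : Dom (tgt p) w w') :
    Dom (tgt p) (fun x => u x - w x) (fun x => u' x - w' x) := by
  refine ⟨fun a b => (hu.loc a b).sub (hw.loc a b), fun a b => ?_, hu.l2.sub hw.l2,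
    hu.l2'.sub hw.l2'⟩
  rw [intervalIntegral.integral_sub (hu.loc a b) (hw.loc a b), ← hu.ftc, ← hw.ftc]
  ring

theorem dom_cont {u u' : ℝ → ℝ} (hu : Dom (tgt p) u u') : Continuous u := by
  have h1 : u = fun x => u 0 + ∫ t in (0 : ℝ)..x, u' t := by
    funext x
    rw [← hu.ftc 0 x]
    ring
  rw [h1]
  exact continuous_const.add (intervalIntegral.continuous_primitive hu.loc 0)

theorem res_unique (hp : Dens p) (hh : 0 < h) (hlam : 0 < lam) {f u u' w w' : ℝ → ℝ}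
    (hf : MemLp f 2 (tgt p)) (hu : IsResolvent (tgt p) h lam f u u')
    (hw : IsResolvent (tgt p) h lam f w w') : u = w := by
  have hz := dom_sub hu.1 hw.1
  have e1 := hu.2 _ _ hz
  have e2 := hw.2 _ _ hz
  have s1 : ∫ x, (u' x - w' x) ^ 2 ∂(tgt p) =
      ∫ x, u' x * (u' x - w' x) ∂(tgt p) - ∫ x, w' x * (u' x - w' x) ∂(tgt p) := by
    rw [← integral_sub (dissip_int hu.1.l2' hz.l2') (dissip_int hw.1.l2' hz.l2')]
    congr 1
    funext x
    ring
  have s2 : ∫ x, (u x - w x) ^ 2 ∂(tgt p) =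
      ∫ x, u x * (u x - w x) ∂(tgt p) - ∫ x, w x * (u x - w x) ∂(tgt p) := by
    rw [← integral_sub (dissip_int hu.1.l2 hz.l2) (dissip_int hw.1.l2 hz.l2)]
    congr 1
    funext x
    ring
  have hz1 : 0 ≤ ∫ x, (u' x - w' x) ^ 2 ∂(tgt p) := integral_nonneg (fun x => sq_nonneg _)
  have hz2 : 0 ≤ ∫ x, (u x - w x) ^ 2 ∂(tgt p) := integral_nonneg (fun x => sq_nonneg _)
  have hsum : h / 2 * ∫ x, (u' x - w' x) ^ 2 ∂(tgt p) + lam * ∫ x, (u x - w x) ^ 2 ∂(tgt p) = 0 := by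
    rw [s1, s2]
    linarith
  have hzero : ∫ x, (u x - w x) ^ 2 ∂(tgt p) = 0 := by
    have h1 : 0 ≤ h / 2 * ∫ x, (u' x - w' x) ^ 2 ∂(tgt p) := by positivity
    have h2 : lam * ∫ x, (u x - w x) ^ 2 ∂(tgt p) ≤ 0 := by linarith
    by_contra hne
    have h3 : 0 < ∫ x, (u x - w x) ^ 2 ∂(tgt p) := lt_of_le_of_ne hz2 (Ne.symm hne)
    have h4 := mul_pos hlam h3
    linarith
  have hint : Integrable (fun x => (u x - w x) ^ 2) (tgt p) := hz.l2.integrable_sq
  have hae := (integral_eq_zero_iff_of_nonneg (fun x => sq_nonneg (u x - w x)) hint).1 hzero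
  have hae2 : ∀ᵐ x ∂(tgt p), u x = w x := by
    filter_upwards [hae] with x hx
    have h5 : (u x - w x) ^ 2 = 0 := hx
    have h6 := pow_eq_zero_iff (two_ne_zero) |>.1 h5
    linarith
  have hae3 : u =ᵐ[volume] w := (ae_tgt hp).1 hae2
  exact (Continuous.ae_eq_iff_eq volume (dom_cont hu.1) (dom_cont hw.1)).1 hae3

end Pool.Agent.Lib.MP_e19099_pr
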