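import Pool.Agent.Lib.MP_e19099_pr.EWt

/-!
# MALA: the weight for the normalization (module E, E4b)

`S_n = sdn (nrm V) (mq D v_n)`, `v_n = vH l (2+H) n`.
`incM_hell`: `W n = ½ (√(p(x)q(x,y)) - √(p(y)q(y,x)))² = S_n (cosh(R/2) - 1)` (`sdn_exp_neg`, `sdn_exp_pos`), `m = p/8`; `bdd`: `(√a - √b)² ≤ (a+b) (log(a/b))²/4` with
`a = p(x)q(x,y)`, `b = p(y)q(y,x)`, so `W ≤ (a+b) R²/8`, `R² ≤ 2 Kf² + 2 ρ²`, `rho_le`, `pq_m_le` (`e^{-3x²/8}(1+x²) ≤ C e^{-x²/4}`, symmetric in `x, y`);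
`loc`: on compacts `R` is small (`kf_abs`, `rho_le`), `|cosh(R/2) - 1 - R²/8| ≤ η R²`, `|R² - Kf²| ≤ 2|Kf||ρ| + ρ² ≤ η Kf² + (1 + 1/η) ρ²`,
`|S_n - p(x) γ_v| ≤ η γ_v` on compacts for small `z`, `v` (`sdn_m`, `mth_le`, uniform continuity of `√p`), `gau_two`.
`Zf_m`: `1 - Z = ∫ W n` (`pq_one`, symmetry of the Lebesgue measure under swap).
-/

set_option autoImplicit false

open MeasureTheory ProbabilityTheory Filter Set
open scoped NNReal Topology ENNReal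

namespace Pool.Agent.Lib.MP_e19099_pr

variable {H l : ℝ} {φ β D V : ℝ → ℝ}

private theorem ewh_dens (hM : MPot H φ β D V) : Dens (nrm V) :=
  nrm_dens (continuous_iff_continuousAt.2 fun x => (hM.dV x).continuousAt) hM.exp_int

private theorem ewh_W {p : ℝ → ℝ} {q : ℝ → ℝ → ℝ} (hp : Dens p) (hq : IsProp q) (z : ℝ × ℝ) :
    (√(p z.1 * q z.1 z.2) - √(p z.2 * q z.2 z.1)) ^ 2 / 2
      = sdn p q z * (Real.cosh (Rf p q z / 2) - 1) := by
  have ha : 0 < p z.1 * q z.1 z.2 := mul_pos (hp.pos _) (hq.pos _ _)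
  have hb : 0 < p z.2 * q z.2 z.1 := mul_pos (hp.pos _) (hq.pos _ _)
  have h1 : √(p z.1 * q z.1 z.2) * √(p z.2 * q z.2 z.1) = sdn p q z := by
    unfold sdn
    rw [Real.sqrt_mul ha.le]
  have h2 := Real.sq_sqrt ha.le
  have h3 := Real.sq_sqrt hb.le
  have h4 := sdn_exp_neg hp hq z
  have h5 := sdn_exp_pos hp hq z
  have h6 : -(Rf p q z) / 2 = -(Rf p q z / 2) := by ring
  rw [h6] at h4
  rw [Real.cosh_eq]
  linear_combination h2 / 2 + h3 / 2 - h1 - h4 / 2 - h5 / 2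

private theorem ewh_cosh_le (t : ℝ) : Real.cosh t - 1 ≤ t ^ 2 * Real.cosh t := by
  wlog h : 0 ≤ t with Hw
  · have := Hw (-t) (by linarith)
    rwa [Real.cosh_neg, neg_sq] at this
  have h1 : 1 - t ≤ Real.exp (-t) := by
    have := Real.add_one_le_exp (-t)
    linarith
  have h2 : Real.exp (-t) ≤ 1 := Real.exp_le_one_iff.2 (by linarith)
  have h3 : Real.exp t * Real.exp (-t) = 1 := by
    rw [← Real.exp_add]
    simp
  have h4 : 0 < Real.exp t := Real.exp_pos t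
  have h5 : 0 < Real.exp (-t) := Real.exp_pos _
  rw [Real.cosh_eq]
  have h6 : (1 - Real.exp (-t)) ^ 2 ≤ t ^ 2 := by
    apply pow_le_pow_left₀ (by linarith) (by linarith)
  have h7 : (Real.exp t + Real.exp (-t)) / 2 - 1
      = Real.exp t * (1 - Real.exp (-t)) ^ 2 / 2 := by
    linear_combination (1 - Real.exp (-t) / 2) * h3
  rw [h7]
  have h8 : Real.exp t * (1 - Real.exp (-t)) ^ 2 ≤ Real.exp t * t ^ 2 :=
    mul_le_mul_of_nonneg_left h6 h4.le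
  have h9 : 0 ≤ t ^ 2 * Real.exp (-t) := by positivity
  linarith

private theorem ewh_cosh_abs (t : ℝ) (ht : t ^ 2 / 2 ≤ 1) :
    |Real.cosh t - 1 - t ^ 2 / 2| ≤ (t ^ 2 / 2) ^ 2 := by
  have h1 : 1 + t ^ 2 / 2 ≤ Real.cosh t := by
    have e : Real.cosh t = 1 + 2 * Real.sinh (t / 2) ^ 2 := by
      have h := Real.cosh_two_mul (t / 2)
      have h' := Real.cosh_sq (t / 2)
      rw [show 2 * (t / 2) = t by ring] at h
      linarith
    have h3 : (t / 2) ^ 2 ≤ Real.sinh (t / 2) ^ 2 := by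
      rw [← sq_abs (t / 2), ← sq_abs (Real.sinh (t / 2)), Real.abs_sinh]
      exact pow_le_pow_left₀ (abs_nonneg _) (Real.self_le_sinh_iff.2 (abs_nonneg _)) 2
    nlinarith
  have h2 := Real.cosh_le_exp_half_sq t
  have h3 : |t ^ 2 / 2| ≤ 1 := by
    rw [abs_of_nonneg (by positivity)]
    exact ht
  have h4 := Real.abs_exp_sub_one_sub_id_le h3
  rw [abs_le] at h4 ⊢
  constructor
  · nlinarith [sq_nonneg (t ^ 2 / 2)]
  · linarith [h4.2]

private theorem ewh_cosh_abs' (R : ℝ) (h : R ^ 2 ≤ 8) :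
    |(Real.cosh (R / 2) - 1) - R ^ 2 / 8| ≤ (R ^ 2 / 8) ^ 2 := by
  have h1 : (R / 2) ^ 2 / 2 = R ^ 2 / 8 := by ring
  have h2 := ewh_cosh_abs (R / 2) (by rw [h1]; linarith)
  rw [h1] at h2
  exact h2

private theorem ewh_gsym (v : ℝ≥0) (z : ℝ × ℝ) :
    gaussianPDFReal 0 v (z.1 - z.2) = gaussianPDFReal 0 v (z.2 - z.1) := by
  unfold gaussianPDFReal
  congr 3
  ring

private theorem ewh_meas (hM : MPot H φ β D V) {v : ℝ≥0} (hv : 0 < v) :
    Measurable fun z : ℝ × ℝ => (√(nrm V z.1 * mq D v z.1 z.2)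
        - √(nrm V z.2 * mq D v z.2 z.1)) ^ 2 / 2 := by
  have hp := ewh_dens hM
  have hq := mq_prop hM hv
  have h1 : Measurable fun z : ℝ × ℝ => nrm V z.1 * mq D v z.1 z.2 :=
    (hp.cont.measurable.comp measurable_fst).mul hq.meas
  have h2 : Measurable fun z : ℝ × ℝ => nrm V z.2 * mq D v z.2 z.1 := h1.comp measurable_swap
  exact ((h1.sqrt.sub h2.sqrt).pow_const 2).div_const 2

/-- one of the two halves of the bound -/
private theorem ewh_half {K R g a C₁ C₂ x w z E E' : ℝ} (hg : 0 ≤ g)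
    (hE : 0 ≤ E) (hE' : 0 ≤ E') (hC₁ : 0 < C₁) (hC₂ : 0 < C₂)
    (ha : a ≤ C₂ * E * g)
    (hR : R ^ 2 ≤ 2 * K + 2 * (C₁ * (w ^ 2 * z ^ 2 * (1 + x ^ 2 + z ^ 2)))) (hK : 0 ≤ K)
    (hEE : E ≤ E') (hEx : (1 + x ^ 2) * E ≤ 8 * E') :
    a * R ^ 2 ≤ (C₂ * (2 + 16 * C₁)) * E' * (K + w ^ 2 * z ^ 2 * (1 + z ^ 2)) * g := by
  have hR0 : 0 ≤ R ^ 2 := sq_nonneg R
  have h1 : a * R ^ 2 ≤ C₂ * E * g * R ^ 2 := mul_le_mul_of_nonneg_right ha hR0
  have hCEg : 0 ≤ C₂ * E * g := by positivity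
  have h2 : C₂ * E * g * R ^ 2
      ≤ C₂ * E * g * (2 * K + 2 * (C₁ * (w ^ 2 * z ^ 2 * (1 + x ^ 2 + z ^ 2)))) :=
    mul_le_mul_of_nonneg_left hR hCEg
  have h3 : E * (2 * K + 2 * (C₁ * (w ^ 2 * z ^ 2 * (1 + x ^ 2 + z ^ 2))))
      ≤ (2 + 16 * C₁) * E' * (K + w ^ 2 * z ^ 2 * (1 + z ^ 2)) := by
    have h4 : E * K ≤ E' * K := mul_le_mul_of_nonneg_right hEE hK
    have h5 : E * (1 + x ^ 2 + z ^ 2) ≤ 8 * E' * (1 + z ^ 2) := by
      have h6 : E * (1 + x ^ 2 + z ^ 2) ≤ E * ((1 + x ^ 2) * (1 + z ^ 2)) := by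
        apply mul_le_mul_of_nonneg_left _ hE
        nlinarith [mul_nonneg (sq_nonneg x) (sq_nonneg z)]
      have h7 : E * ((1 + x ^ 2) * (1 + z ^ 2)) = ((1 + x ^ 2) * E) * (1 + z ^ 2) := by ring
      rw [h7] at h6
      exact h6.trans (mul_le_mul_of_nonneg_right hEx (by positivity))
    have h8 : 0 ≤ w ^ 2 * z ^ 2 := by positivity
    have h9 : (w ^ 2 * z ^ 2) * (E * (1 + x ^ 2 + z ^ 2)) ≤ (w ^ 2 * z ^ 2) * (8 * E' * (1 + z ^ 2)) :=
      mul_le_mul_of_nonneg_left h5 h8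
    have h10 : C₁ * ((w ^ 2 * z ^ 2) * (E * (1 + x ^ 2 + z ^ 2)))
        ≤ C₁ * ((w ^ 2 * z ^ 2) * (8 * E' * (1 + z ^ 2))) := mul_le_mul_of_nonneg_left h9 hC₁.le
    have h11 : 0 ≤ C₁ * (E' * K) := by positivity
    have h12 : 0 ≤ E' * (w ^ 2 * z ^ 2 * (1 + z ^ 2)) := by positivity
    nlinarith
  calc a * R ^ 2 ≤ C₂ * E * g * (2 * K + 2 * (C₁ * (w ^ 2 * z ^ 2 * (1 + x ^ 2 + z ^ 2)))) :=
        h1.trans h2
    _ = (C₂ * g) * (E * (2 * K + 2 * (C₁ * (w ^ 2 * z ^ 2 * (1 + x ^ 2 + z ^ 2))))) := by ring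
    _ ≤ (C₂ * g) * ((2 + 16 * C₁) * E' * (K + w ^ 2 * z ^ 2 * (1 + z ^ 2))) :=
        mul_le_mul_of_nonneg_left h3 (by positivity)
    _ = _ := by ring

private theorem ewh_exp (x : ℝ) :
    Real.exp (-3 * x ^ 2 / 8) ≤ Real.exp (-x ^ 2 / 4) ∧
      (1 + x ^ 2) * Real.exp (-3 * x ^ 2 / 8) ≤ 8 * Real.exp (-x ^ 2 / 4) := by
  constructor
  · apply Real.exp_le_exp.2
    nlinarith [sq_nonneg x]
  · have h1 : Real.exp (-x ^ 2 / 4) = Real.exp (-3 * x ^ 2 / 8) * Real.exp (x ^ 2 / 8) := by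
      rw [← Real.exp_add]
      congr 1
      ring
    have h2 := Real.add_one_le_exp (x ^ 2 / 8)
    have h3 := Real.exp_pos (-3 * x ^ 2 / 8)
    rw [h1]
    have h4 : 1 + x ^ 2 ≤ 8 * Real.exp (x ^ 2 / 8) := by nlinarith
    nlinarith

private theorem ewh_rho_swap (D : ℝ → ℝ) (v : ℝ≥0) (z : ℝ × ℝ) :
    rho D v z.swap = - rho D v z := by
  unfold rho
  rw [Prod.fst_swap, Prod.snd_swap]
  ring

private theorem ewh_bdd (hM : MPot H φ β D V) :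
    ∃ (v₀ : ℝ≥0) (A : ℝ), 0 < v₀ ∧ 0 < A ∧ ∀ v : ℝ≥0, 0 < v → v ≤ v₀ → ∀ x y : ℝ,
      |(√(nrm V x * mq D v x y) - √(nrm V y * mq D v y x)) ^ 2 / 2|
        ≤ A * (Real.exp (-x ^ 2 / 4) + Real.exp (-y ^ 2 / 4))
      * (Kf β (x, y) ^ 2 + (v : ℝ) ^ 2 * (y - x) ^ 2 * (1 + (y - x) ^ 2))
      * gaussianPDFReal 0 (2 * v) (y - x) := by
  have hp := ewh_dens hM
  obtain ⟨v₀, C₂, hv₀, hC₂, hpq⟩ := pq_m_le hM
  obtain ⟨C₁, hC₁, hrho⟩ := rho_le hM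
  refine ⟨v₀, C₂ * (2 + 16 * C₁) / 8, hv₀, by positivity, fun v hv hvv x y => ?_⟩
  have hq := mq_prop hM hv
  rw [abs_of_nonneg (by positivity)]
  have hW := ewh_W hp hq (x, y)
  simp only at hW
  rw [hW]
  have hS := sdn_pos hp hq (x, y)
  set S := sdn (nrm V) (mq D v) (x, y) with hSd
  set R := Rf (nrm V) (mq D v) (x, y) with hRd
  set g := gaussianPDFReal 0 (2 * v) (y - x) with hgd
  have hg : 0 ≤ g := gaussianPDFReal_nonneg _ _ _
  have h4 := sdn_exp_neg hp hq (x, y)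
  have h5 := sdn_exp_pos hp hq (x, y)
  rw [← hSd, ← hRd] at h4 h5
  simp only at h4 h5
  have h6 : -R / 2 = -(R / 2) := by ring
  rw [h6] at h4
  have h7 := ewh_cosh_le (R / 2)
  have h8 : S * (Real.cosh (R / 2) - 1)
      ≤ (nrm V x * mq D v x y * R ^ 2 + nrm V y * mq D v y x * R ^ 2) / 8 := by
    have h9 : S * (Real.cosh (R / 2) - 1) ≤ S * ((R / 2) ^ 2 * Real.cosh (R / 2)) :=
      mul_le_mul_of_nonneg_left h7 hS.le
    refine h9.trans (le_of_eq ?_)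
    rw [← h4, ← h5, Real.cosh_eq]
    ring
  refine h8.trans ?_
  have hR1 : R = Kf β (x, y) - rho D v (x, y) := Rf_m hM hv (x, y)
  have hR2 : R ^ 2 ≤ 2 * Kf β (x, y) ^ 2 + 2 * rho D v (x, y) ^ 2 := by
    rw [hR1]
    nlinarith [sq_nonneg (Kf β (x, y) + rho D v (x, y))]
  have hr1 := hrho v (x, y)
  have hr2 := hrho v (y, x)
  have hsw := ewh_rho_swap D v (x, y)
  rw [Prod.swap_prod_mk] at hsw
  rw [hsw, neg_sq] at hr2
  simp only at hr1 hr2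
  have hyx : (x - y) ^ 2 = (y - x) ^ 2 := by ring
  rw [hyx] at hr2
  have hpa := hpq v hv hvv (x, y)
  have hpb := hpq v hv hvv (y, x)
  simp only at hpa hpb
  have hgs := ewh_gsym (2 * v) (x, y)
  simp only at hgs
  rw [hgs] at hpb
  have hK : 0 ≤ Kf β (x, y) ^ 2 := sq_nonneg _
  have e1 := ewh_exp x
  have e2 := ewh_exp y
  have ha := ewh_half (K := Kf β (x, y) ^ 2) (R := R) (g := g) (a := nrm V x * mq D v x y)
    (C₁ := C₁) (C₂ := C₂) (x := x) (w := (v : ℝ)) (z := y - x) (E := Real.exp (-3 * x ^ 2 / 8))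
    (E' := Real.exp (-x ^ 2 / 4)) hg (Real.exp_pos _).le (Real.exp_pos _).le hC₁ hC₂ hpa
    (by linarith) hK e1.1 e1.2
  have hb := ewh_half (K := Kf β (x, y) ^ 2) (R := R) (g := g) (a := nrm V y * mq D v y x)
    (C₁ := C₁) (C₂ := C₂) (x := y) (w := (v : ℝ)) (z := y - x) (E := Real.exp (-3 * y ^ 2 / 8))
    (E' := Real.exp (-y ^ 2 / 4)) hg (Real.exp_pos _).le (Real.exp_pos _).le hC₁ hC₂ hpb
    (by linarith) hK e2.1 e2.2
  linarith

/-- the local estimate with explicit parameters -/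
private theorem ewh_loc_alg {s p K r R c η η₁ g G P Λ : ℝ}
    (hR : R = K - r) (hs : 0 ≤ s) (hsP : s ≤ P) (hp : 0 ≤ p) (hpP : p ≤ P) (hP : 0 < P)
    (hsp : |s - p| ≤ η / 8) (hη : 0 < η) (hη₁ : η₁ = η / P) (hc : |c - R ^ 2 / 8| ≤ (R ^ 2 / 8) ^ 2)
    (hR2 : R ^ 2 ≤ η / P) (hg : 0 ≤ g) (hgG : g ≤ 2 * G)
    (hΛ : Λ = 2 * (η / 8 + P / 8 * (1 + 1 / η₁))) :
    |s * g * c - 1 / 8 * p * K ^ 2 * g| ≤ (η * K ^ 2 + Λ * r ^ 2) * G := by
  have hη₁0 : 0 < η₁ := by rw [hη₁]; positivity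
  have hPη : P * η₁ = η := by rw [hη₁]; field_simp
  have h1 : |R ^ 2 - K ^ 2| ≤ η₁ * K ^ 2 + (1 + 1 / η₁) * r ^ 2 := by
    have e : R ^ 2 - K ^ 2 = -2 * K * r + r ^ 2 := by rw [hR]; ring
    have e2 : 0 ≤ (η₁ * |K| - |r|) ^ 2 / η₁ := by positivity
    have e3 : (η₁ * |K| - |r|) ^ 2 / η₁ = η₁ * K ^ 2 - 2 * (|K| * |r|) + (1 / η₁) * r ^ 2 := by
      rw [← sq_abs K, ← sq_abs r]
      field_simp
      ring
    have e4 : |(-2 * K * r + r ^ 2)| ≤ 2 * (|K| * |r|) + r ^ 2 := by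
      refine (abs_add_le _ _).trans (le_of_eq ?_)
      rw [abs_mul, abs_mul, abs_of_nonneg (sq_nonneg r)]
      norm_num
      ring
    rw [e]
    linarith
  have hR0 : 0 ≤ R ^ 2 := sq_nonneg R
  have h2 : R ^ 2 ≤ 2 * K ^ 2 + 2 * r ^ 2 := by
    rw [hR]
    nlinarith [sq_nonneg (K + r)]
  -- the three terms
  have h3 : |s * (c - R ^ 2 / 8)| ≤ η / 64 * R ^ 2 := by
    rw [abs_mul, abs_of_nonneg hs]
    have a1 : s * |c - R ^ 2 / 8| ≤ P * (R ^ 2 / 8) ^ 2 :=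
      mul_le_mul hsP hc (abs_nonneg _) hP.le
    have a2 : P * (R ^ 2 / 8) ^ 2 = (P * R ^ 2) * R ^ 2 / 64 := by ring
    have a3 : P * R ^ 2 ≤ η := by
      have := mul_le_mul_of_nonneg_left hR2 hP.le
      rwa [mul_div_cancel₀ _ hP.ne'] at this
    have a4 : (P * R ^ 2) * R ^ 2 ≤ η * R ^ 2 := mul_le_mul_of_nonneg_right a3 hR0
    linarith
  have h4 : |(s - p) * (R ^ 2 / 8)| ≤ η / 64 * R ^ 2 := by
    rw [abs_mul, abs_of_nonneg (by positivity : 0 ≤ R ^ 2 / 8)]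
    have := mul_le_mul_of_nonneg_right hsp (by positivity : 0 ≤ R ^ 2 / 8)
    linarith
  have h5 : |p / 8 * (R ^ 2 - K ^ 2)| ≤ η / 8 * K ^ 2 + P / 8 * (1 + 1 / η₁) * r ^ 2 := by
    rw [abs_mul, abs_of_nonneg (by positivity : 0 ≤ p / 8)]
    have a1 : p / 8 * |R ^ 2 - K ^ 2| ≤ P / 8 * (η₁ * K ^ 2 + (1 + 1 / η₁) * r ^ 2) :=
      mul_le_mul (by linarith) h1 (abs_nonneg _) (by positivity)
    refine a1.trans (le_of_eq ?_)
    linear_combination K ^ 2 / 8 * hPη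
  have h6 : |s * c - 1 / 8 * p * K ^ 2| ≤ (η * K ^ 2 + Λ * r ^ 2) / 2 := by
    have e : s * c - 1 / 8 * p * K ^ 2 = s * (c - R ^ 2 / 8) + (s - p) * (R ^ 2 / 8)
        + p / 8 * (R ^ 2 - K ^ 2) := by ring
    rw [e]
    refine (abs_add_le _ _).trans ?_
    have := abs_add_le (s * (c - R ^ 2 / 8)) ((s - p) * (R ^ 2 / 8))
    rw [hΛ]
    have b1 : η * R ^ 2 ≤ η * (2 * K ^ 2 + 2 * r ^ 2) := mul_le_mul_of_nonneg_left h2 hη.le
    have b2 : 0 ≤ η * K ^ 2 := by positivity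
    have b3 : 0 ≤ η * r ^ 2 := by positivity
    linarith
  have h7 : s * g * c - 1 / 8 * p * K ^ 2 * g = (s * c - 1 / 8 * p * K ^ 2) * g := by ring
  rw [h7, abs_mul, abs_of_nonneg hg]
  have hB : 0 ≤ (η * K ^ 2 + Λ * r ^ 2) / 2 := (abs_nonneg _).trans h6
  calc |s * c - 1 / 8 * p * K ^ 2| * g ≤ (η * K ^ 2 + Λ * r ^ 2) / 2 * (2 * G) :=
        mul_le_mul h6 hgG hg hB
    _ = _ := by ring

private theorem ewh_s (hM : MPot H φ β D V) {C : ℝ} (hC : 0 < C) (hpC : ∀ x, nrm V x ≤ C)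
    (A' : ℝ) {ε : ℝ} (hε : 0 < ε) :
    ∃ δ v₁ : ℝ, 0 < δ ∧ 0 < v₁ ∧ ∀ v : ℝ≥0, (v : ℝ) ≤ v₁ → ∀ x y, |x| ≤ A' → |y - x| ≤ δ →
      |√(nrm V x * nrm V y) * Real.exp (mth D v (x, y)) - nrm V x| ≤ ε := by
  have hp := ewh_dens hM
  obtain ⟨C₄, hC₄, hmth⟩ := mth_le hM
  have hFc : Continuous fun x => √(nrm V x) := hp.cont.sqrt
  have hK : IsCompact (Icc (-(|A'| + 1)) (|A'| + 1)) := isCompact_Icc
  have huc := hK.uniformContinuousOn_of_continuous hFc.continuousOn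
  rw [Metric.uniformContinuousOn_iff] at huc
  obtain ⟨δ₁, hδ₁, huc⟩ := huc (ε / (2 * (√C + 1))) (by positivity)
  set θ₀ : ℝ := min 1 (ε / (4 * (C + 1))) with hθ₀
  have hθ₀0 : 0 < θ₀ := lt_min one_pos (by positivity)
  refine ⟨min (min 1 (δ₁ / 2)) (θ₀ / (2 * C₄)), θ₀ / (2 * C₄ * (2 + A' ^ 2)),
    lt_min (lt_min one_pos (by positivity)) (by positivity), by positivity, ?_⟩
  intro v hv x y hx hy
  have hy1 : |y - x| ≤ 1 := hy.trans ((min_le_left _ _).trans (min_le_left _ _))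
  have hy2 : |y - x| ≤ δ₁ / 2 := hy.trans ((min_le_left _ _).trans (min_le_right _ _))
  have hy3 : |y - x| ≤ θ₀ / (2 * C₄) := hy.trans (min_le_right _ _)
  have hA : |x| ≤ |A'| := hx.trans (le_abs_self _)
  have hz2 : (y - x) ^ 2 ≤ |y - x| := by
    rw [← sq_abs]
    nlinarith [abs_nonneg (y - x)]
  have hx2 : x ^ 2 ≤ A' ^ 2 := by
    rw [← sq_abs x, ← sq_abs A']
    exact pow_le_pow_left₀ (abs_nonneg _) hA 2
  -- θ
  have hθ : |mth D v (x, y)| ≤ θ₀ := by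
    have h1 := (hmth v (x, y)).2
    simp only at h1
    have hv0 : (0 : ℝ) ≤ v := v.coe_nonneg
    have h2 : (v : ℝ) * (1 + x ^ 2 + (y - x) ^ 2) ≤ θ₀ / (2 * C₄ * (2 + A' ^ 2)) * (2 + A' ^ 2) :=
      mul_le_mul hv (by linarith) (by positivity) (by positivity)
    have h3 : θ₀ / (2 * C₄ * (2 + A' ^ 2)) * (2 + A' ^ 2) = θ₀ / (2 * C₄) := by
      field_simp
    rw [h3] at h2
    have h4 : C₄ * ((v : ℝ) * (1 + x ^ 2 + (y - x) ^ 2) + (y - x) ^ 2)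
        ≤ C₄ * (θ₀ / (2 * C₄) + θ₀ / (2 * C₄)) :=
      mul_le_mul_of_nonneg_left (by linarith) hC₄.le
    have h5 : C₄ * (θ₀ / (2 * C₄) + θ₀ / (2 * C₄)) = θ₀ := by
      field_simp
      ring
    linarith
  have hθ1 : |mth D v (x, y)| ≤ 1 := hθ.trans (min_le_left _ _)
  have hexp := Real.abs_exp_sub_one_le hθ1
  -- F
  have hFx : √(nrm V x) ≤ √C := Real.sqrt_le_sqrt (hpC x)
  have hFy : √(nrm V y) ≤ √C := Real.sqrt_le_sqrt (hpC y)
  have hFx0 := Real.sqrt_nonneg (nrm V x)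
  have hFy0 := Real.sqrt_nonneg (nrm V y)
  have hxK : x ∈ Icc (-(|A'| + 1)) (|A'| + 1) := by
    rw [abs_le] at hA
    constructor <;> linarith [hA.1, hA.2]
  have hyK : y ∈ Icc (-(|A'| + 1)) (|A'| + 1) := by
    rw [abs_le] at hA hy1
    constructor <;> linarith [hA.1, hA.2, hy1.1, hy1.2]
  have hd : dist y x < δ₁ := by
    rw [Real.dist_eq]
    linarith
  have hF := huc y hyK x hxK hd
  rw [Real.dist_eq] at hF
  have e1 : √(nrm V x * nrm V y) = √(nrm V x) * √(nrm V y) := Real.sqrt_mul (hp.pos x).le _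
  have e2 : nrm V x = √(nrm V x) * √(nrm V x) := (Real.mul_self_sqrt (hp.pos x).le).symm
  have e3 : √(nrm V x * nrm V y) * Real.exp (mth D v (x, y)) - nrm V x
      = √(nrm V x) * √(nrm V y) * (Real.exp (mth D v (x, y)) - 1)
        + √(nrm V x) * (√(nrm V y) - √(nrm V x)) := by
    rw [e1]
    nth_rewrite 2 [e2]
    ring
  rw [e3]
  have hCs : √C * √C = C := Real.mul_self_sqrt hC.le
  have b1 : |√(nrm V x) * √(nrm V y) * (Real.exp (mth D v (x, y)) - 1)| ≤ ε / 2 := by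
    rw [abs_mul, abs_of_nonneg (by positivity)]
    have c1 : √(nrm V x) * √(nrm V y) ≤ C := by
      rw [← hCs]
      exact mul_le_mul hFx hFy hFy0 (Real.sqrt_nonneg _)
    have c2 : |Real.exp (mth D v (x, y)) - 1| ≤ 2 * (ε / (4 * (C + 1))) :=
      hexp.trans (mul_le_mul_of_nonneg_left (hθ.trans (min_le_right _ _)) (by norm_num))
    have c3 := mul_le_mul c1 c2 (abs_nonneg _) hC.le
    refine c3.trans ?_
    rw [show C * (2 * (ε / (4 * (C + 1)))) = (C / (C + 1)) * (ε / 2) by field_simp; ring]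
    have c4 : C / (C + 1) ≤ 1 := by
      rw [div_le_one (by positivity)]
      linarith
    nlinarith
  have b2 : |√(nrm V x) * (√(nrm V y) - √(nrm V x))| ≤ ε / 2 := by
    rw [abs_mul, abs_of_nonneg hFx0]
    have c1 : √(nrm V x) * |√(nrm V y) - √(nrm V x)| ≤ √C * (ε / (2 * (√C + 1))) :=
      mul_le_mul hFx hF.le (abs_nonneg _) (Real.sqrt_nonneg _)
    refine c1.trans ?_
    have hs := Real.sqrt_nonneg C
    rw [show √C * (ε / (2 * (√C + 1))) = (√C / (√C + 1)) * (ε / 2) by field_simp]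
    have c4 : √C / (√C + 1) ≤ 1 := by
      rw [div_le_one (by positivity)]
      linarith
    nlinarith
  refine (abs_add_le _ _).trans ?_
  linarith

private theorem ewh_loc (hM : MPot H φ β D V) (hH : 0 < H) (hl : 0 < l) (A' η : ℝ) (hη : 0 < η) :
    ∃ δ Λ : ℝ, 0 < δ ∧ ∀ᶠ n : ℕ in atTop, ∀ x y, |x| ≤ A' → |y - x| ≤ δ →
    |(√(nrm V x * mq D (vH l (2 + H) n) x y) - √(nrm V y * mq D (vH l (2 + H) n) y x)) ^ 2 / 2
      - 1 / 8 * nrm V x * Kf β (x, y) ^ 2 * gaussianPDFReal 0 (vH l (2 + H) n) (y - x)|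
      ≤ (η * Kf β (x, y) ^ 2 + Λ * ((vH l (2 + H) n : ℝ) ^ 2 * (y - x) ^ 2))
        * gaussianPDFReal 0 (2 * vH l (2 + H) n) (y - x) := by
  have hp := ewh_dens hM
  obtain ⟨C, hC, hnrm⟩ := hM.nrm_le
  have hpC : ∀ x, nrm V x ≤ C := fun x => by
    refine (hnrm x).trans ?_
    have : Real.exp (-7 * x ^ 2 / 16) ≤ 1 := Real.exp_le_one_iff.2 (by nlinarith [sq_nonneg x])
    nlinarith
  obtain ⟨C₁, hC₁, hrho⟩ := rho_le hM
  obtain ⟨C₅', hkf'⟩ := kf_abs hM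
  set C₅ : ℝ := |C₅'| + 1 with hC₅
  have hC₅0 : 0 < C₅ := by positivity
  have hkf : ∀ z, |Kf β z| ≤ C₅ * (z.2 - z.1) ^ 2 := fun z => by
    refine (hkf' z).trans (mul_le_mul_of_nonneg_right ?_ (sq_nonneg _))
    rw [hC₅]
    linarith [le_abs_self C₅']
  set P : ℝ := C + 1 with hP
  have hP0 : 0 < P := by positivity
  set ε₂ : ℝ := min 1 (η / 8) with hε₂
  have hε₂0 : 0 < ε₂ := lt_min one_pos (by positivity)
  obtain ⟨δ₀, v₁, hδ₀, hv₁, hs⟩ := ewh_s hM hC hpC A' hε₂0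
  set R₀ : ℝ := min (η / P) 8 with hR₀
  have hR₀0 : 0 < R₀ := lt_min (by positivity) (by norm_num)
  set Q : ℝ := 2 + A' ^ 2 with hQ
  have hQ0 : 0 < Q := by positivity
  set δ : ℝ := min (min 1 δ₀) (R₀ / (4 * C₅ ^ 2)) with hδd
  have hδ : 0 < δ := lt_min (lt_min one_pos hδ₀) (by positivity)
  set w₁ : ℝ := min (min 1 v₁) (R₀ / (4 * C₁ * Q)) with hw₁
  have hw₁0 : 0 < w₁ := lt_min (lt_min one_pos hv₁) (by positivity)
  set η₁ : ℝ := η / P with hη₁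
  have hη₁0 : 0 < η₁ := by positivity
  set Λ : ℝ := 2 * (η / 8 + P / 8 * (1 + 1 / η₁)) with hΛ
  have hΛ0 : 0 ≤ Λ := by positivity
  refine ⟨δ, Λ * (C₁ * Q), hδ, ?_⟩
  have hlim : Tendsto (fun n => (vH l (2 + H) n : ℝ)) atTop (𝓝 0) := by
    have := (NNReal.continuous_coe.tendsto 0).comp (vH_lim (a := 2 + H) hl (by linarith))
    rwa [NNReal.coe_zero] at this
  filter_upwards [hlim.eventually (gt_mem_nhds hw₁0)] with n hn x y hx hy
  have hv := vH_pos hl (2 + H) n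
  have hq := mq_prop hM hv
  set v := vH l (2 + H) n with hvd
  have hv0 : (0 : ℝ) < v := hv
  have hn1 : (v : ℝ) ≤ 1 := hn.le.trans ((min_le_left _ _).trans (min_le_left _ _))
  have hn2 : (v : ℝ) ≤ v₁ := hn.le.trans ((min_le_left _ _).trans (min_le_right _ _))
  have hn3 : (v : ℝ) ≤ R₀ / (4 * C₁ * Q) := hn.le.trans (min_le_right _ _)
  have hy1 : |y - x| ≤ 1 := hy.trans ((min_le_left _ _).trans (min_le_left _ _))
  have hy2 : |y - x| ≤ δ₀ := hy.trans ((min_le_left _ _).trans (min_le_right _ _))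
  have hy3 : |y - x| ≤ R₀ / (4 * C₅ ^ 2) := hy.trans (min_le_right _ _)
  have hz2 : (y - x) ^ 2 ≤ |y - x| := by
    rw [← sq_abs]
    nlinarith [abs_nonneg (y - x)]
  have hz2' : (y - x) ^ 2 ≤ 1 := hz2.trans hy1
  have hx2 : x ^ 2 ≤ A' ^ 2 := by
    rw [← sq_abs x, ← sq_abs A']
    exact pow_le_pow_left₀ (abs_nonneg _) (hx.trans (le_abs_self _)) 2
  have hW := ewh_W hp hq (x, y)
  simp only at hW
  rw [hW, sdn_m hM hv (x, y)]
  simp only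
  have hR1 : Rf (nrm V) (mq D v) (x, y) = Kf β (x, y) - rho D v (x, y) := Rf_m hM hv (x, y)
  have hK4 : Kf β (x, y) ^ 2 ≤ C₅ ^ 2 * |y - x| := by
    have h1 := hkf (x, y)
    simp only at h1
    have h2 : Kf β (x, y) ^ 2 ≤ (C₅ * (y - x) ^ 2) ^ 2 := by
      rw [← sq_abs (Kf β (x, y))]
      exact pow_le_pow_left₀ (abs_nonneg _) h1 2
    have h3 : (C₅ * (y - x) ^ 2) ^ 2 = C₅ ^ 2 * ((y - x) ^ 2 * (y - x) ^ 2) := by ring
    have h4 : (y - x) ^ 2 * (y - x) ^ 2 ≤ |y - x| * 1 :=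
      mul_le_mul hz2 hz2' (sq_nonneg _) (abs_nonneg _)
    rw [h3] at h2
    refine h2.trans ?_
    rw [mul_one] at h4
    exact mul_le_mul_of_nonneg_left h4 (by positivity)
  have hrQ : rho D v (x, y) ^ 2 ≤ C₁ * Q * ((v : ℝ) ^ 2 * (y - x) ^ 2) := by
    have h1 := hrho v (x, y)
    simp only at h1
    refine h1.trans ?_
    have h2 : (v : ℝ) ^ 2 * (y - x) ^ 2 * (1 + x ^ 2 + (y - x) ^ 2)
        ≤ (v : ℝ) ^ 2 * (y - x) ^ 2 * Q :=
      mul_le_mul_of_nonneg_left (by rw [hQ]; linarith) (by positivity)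
    have h3 := mul_le_mul_of_nonneg_left h2 hC₁.le
    linarith
  have hR2 : Rf (nrm V) (mq D v) (x, y) ^ 2 ≤ R₀ := by
    have h1 : Rf (nrm V) (mq D v) (x, y) ^ 2 ≤ 2 * Kf β (x, y) ^ 2 + 2 * rho D v (x, y) ^ 2 := by
      rw [hR1]
      nlinarith [sq_nonneg (Kf β (x, y) + rho D v (x, y))]
    have h2 : C₅ ^ 2 * |y - x| ≤ R₀ / 4 := by
      have := mul_le_mul_of_nonneg_left hy3 (by positivity : 0 ≤ C₅ ^ 2)
      refine this.trans (le_of_eq ?_)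
      field_simp
    have h3 : C₁ * Q * ((v : ℝ) ^ 2 * (y - x) ^ 2) ≤ R₀ / 4 := by
      have a1 : (v : ℝ) ^ 2 * (y - x) ^ 2 ≤ (v : ℝ) * 1 := by
        apply mul_le_mul _ hz2' (sq_nonneg _) hv0.le
        nlinarith
      rw [mul_one] at a1
      have a2 : C₁ * Q * ((v : ℝ) ^ 2 * (y - x) ^ 2) ≤ C₁ * Q * (R₀ / (4 * C₁ * Q)) :=
        mul_le_mul_of_nonneg_left (a1.trans hn3) (by positivity)
      refine a2.trans (le_of_eq ?_)
      field_simp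
    linarith
  have hsv := hs v hn2 x y hx hy2
  have hs0 : 0 ≤ √(nrm V x * nrm V y) * Real.exp (mth D v (x, y)) := by positivity
  have hsP : √(nrm V x * nrm V y) * Real.exp (mth D v (x, y)) ≤ P := by
    have h1 := (abs_le.1 hsv).2
    have h2 : ε₂ ≤ 1 := min_le_left _ _
    have h3 := hpC x
    rw [hP]
    linarith
  have hc : |(Real.cosh (Rf (nrm V) (mq D v) (x, y) / 2) - 1)
      - Rf (nrm V) (mq D v) (x, y) ^ 2 / 8| ≤ (Rf (nrm V) (mq D v) (x, y) ^ 2 / 8) ^ 2 :=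
    ewh_cosh_abs' _ (hR2.trans (min_le_right _ _))
  have hmain := ewh_loc_alg (s := √(nrm V x * nrm V y) * Real.exp (mth D v (x, y)))
    (p := nrm V x) (K := Kf β (x, y)) (r := rho D v (x, y)) (R := Rf (nrm V) (mq D v) (x, y))
    (c := Real.cosh (Rf (nrm V) (mq D v) (x, y) / 2) - 1) (η := η) (η₁ := η₁)
    (g := gaussianPDFReal 0 v (y - x)) (G := gaussianPDFReal 0 (2 * v) (y - x)) (P := P) (Λ := Λ)
    hR1 hs0 hsP (hp.pos x).le ((hpC x).trans (by rw [hP]; linarith)) hP0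
    (hsv.trans (min_le_right _ _)) hη hη₁ hc (hR2.trans (min_le_left _ _))
    (gaussianPDFReal_nonneg _ _ _) (gau_two hv _) hΛ
  refine hmain.trans ?_
  apply mul_le_mul_of_nonneg_right _ (gaussianPDFReal_nonneg _ _ _)
  have := mul_le_mul_of_nonneg_left hrQ hΛ0
  linarith

theorem incM_hell (hM : MPot H φ β D V) (hH : 0 < H) (hl : 0 < l) :
    ∃ A, IncM β (fun x => 1 / 8 * nrm V x) A (vH l (2 + H))
      (fun n z => (√(nrm V z.1 * mq D (vH l (2 + H) n) z.1 z.2)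
        - √(nrm V z.2 * mq D (vH l (2 + H) n) z.2 z.1)) ^ 2 / 2) := by
  have hp := ewh_dens hM
  obtain ⟨C, hC, hnrm⟩ := hM.nrm_le
  obtain ⟨v₀, A, hv₀, hA, hb⟩ := ewh_bdd hM
  refine ⟨C + A, ?_, ?_, ?_, ?_, ?_⟩
  · exact fun n => ewh_meas hM (vH_pos hl _ n)
  · exact hp.cont.const_mul _
  · intro x
    have h0 := (hp.pos x).le
    rw [abs_of_nonneg (by positivity)]
    have h1 := hnrm x
    have h2 : Real.exp (-7 * x ^ 2 / 16) ≤ Real.exp (-x ^ 2 / 4) :=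
      Real.exp_le_exp.2 (by nlinarith [sq_nonneg x])
    have h3 := Real.exp_pos (-x ^ 2 / 4)
    nlinarith [mul_le_mul_of_nonneg_left h2 hC.le]
  · have hlim := vH_lim (a := 2 + H) hl (by linarith)
    filter_upwards [hlim.eventually (gt_mem_nhds hv₀)] with n hn x y
    have h := hb (vH l (2 + H) n) (vH_pos hl _ n) hn.le x y
    refine h.trans ?_
    have hg := gaussianPDFReal_nonneg 0 (2 * vH l (2 + H) n) (y - x)
    apply mul_le_mul_of_nonneg_right _ hg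
    apply mul_le_mul_of_nonneg_right _ (by positivity)
    apply mul_le_mul_of_nonneg_right _ (by positivity)
    linarith
  · intro A' η hη
    exact ewh_loc hM hH hl A' η hη

theorem Zf_m (hM : MPot H φ β D V) {v : ℝ≥0} (hv : 0 < v) :
    1 - Zf (nrm V) (mq D v) = ∫ z : ℝ × ℝ, (√(nrm V z.1 * mq D v z.1 z.2)
        - √(nrm V z.2 * mq D v z.2 z.1)) ^ 2 / 2 := by
  have hp := ewh_dens hM
  have hq := mq_prop hM hv
  have hi := pq_integrable hp hq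
  have hi2 : Integrable fun z : ℝ × ℝ => nrm V z.2 * mq D v z.2 z.1 := by
    have h := hi
    rw [Measure.volume_eq_prod] at h ⊢
    exact h.swap
  have h1 := pq_one hp hq
  have h2 : ∫ z : ℝ × ℝ, nrm V z.2 * mq D v z.2 z.1 = 1 := by
    rw [← h1]
    rw [Measure.volume_eq_prod]
    exact integral_prod_swap fun z : ℝ × ℝ => nrm V z.1 * mq D v z.1 z.2
  have hs := sdn_integrable hp hq
  have h3 : ∀ z : ℝ × ℝ, (√(nrm V z.1 * mq D v z.1 z.2)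
        - √(nrm V z.2 * mq D v z.2 z.1)) ^ 2 / 2
      = (nrm V z.1 * mq D v z.1 z.2 + nrm V z.2 * mq D v z.2 z.1) / 2
        - sdn (nrm V) (mq D v) z := by
    intro z
    have ha : 0 < nrm V z.1 * mq D v z.1 z.2 := mul_pos (hp.pos _) (hq.pos _ _)
    have hb : 0 < nrm V z.2 * mq D v z.2 z.1 := mul_pos (hp.pos _) (hq.pos _ _)
    have h1 : √(nrm V z.1 * mq D v z.1 z.2) * √(nrm V z.2 * mq D v z.2 z.1)
        = sdn (nrm V) (mq D v) z := by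
      unfold sdn
      rw [Real.sqrt_mul ha.le]
    have h2 := Real.sq_sqrt ha.le
    have h3 := Real.sq_sqrt hb.le
    linear_combination h2 / 2 + h3 / 2 - h1
  have h4 : ∫ z : ℝ × ℝ, ((nrm V z.1 * mq D v z.1 z.2 + nrm V z.2 * mq D v z.2 z.1) / 2
        - sdn (nrm V) (mq D v) z) = (∫ z : ℝ × ℝ, (nrm V z.1 * mq D v z.1 z.2
        + nrm V z.2 * mq D v z.2 z.1) / 2) - ∫ z, sdn (nrm V) (mq D v) z :=
    integral_sub ((hi.add hi2).div_const 2) hs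
  simp_rw [h3]
  rw [h4, integral_div, integral_add hi hi2, h1, h2]
  unfold Zf
  norm_num

end Pool.Agent.Lib.MP_e19099_pr
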