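import Pool.Agent.Lib.MP_e19099_pr.EWcos
import Pool.Agent.Lib.MP_e19099_pr.EWhell

/-!
# MALA: central limit conditions (module E, E4)

`m_z`: `Zf_m`, `mw_lim` with `incM_hell`.  `m_zlim`: `Z^(n+1) = (1 - (1-Z))^(n+1)`, `(n+1)(1-Z) → σ²/8`.
`m_clt`: `integral_sm`, `mw_lim` with `incM_cos`, `Z → 1`.  `m_rsq`: `min 1 R² ≤ R²`, `mw_lim` with `incM_sq` (a convergent sequence is bounded), `Z⁻¹` bounded.
-/

set_option autoImplicit false

open MeasureTheory ProbabilityTheory Filter Set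
open scoped NNReal Topology ENNReal

namespace Pool.Agent.Lib.MP_e19099_pr

/-- the target integral `∫ φ² dπ` and `σ` for MALA -/
noncomputable def sgM (H l : ℝ) (φ V : ℝ → ℝ) : ℝ :=
  √(l ^ (2 * (2 + H)) * (kap H * ∫ x, nrm V x * φ x ^ 2) * gmom (4 + 2 * H))

variable {H l : ℝ} {φ β D V : ℝ → ℝ}

private theorem ec_cont (hM : MPot H φ β D V) : Continuous V :=
  continuous_iff_continuousAt.2 fun x => (hM.dV x).continuousAt

private theorem ec_dens (hM : MPot H φ β D V) : Dens (nrm V) := nrm_dens (ec_cont hM) hM.exp_int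

private theorem ec_int (hM : MPot H φ β D V) : Integrable fun x => nrm V x * φ x ^ 2 := by
  have hd := ec_dens hM
  refine hd.int.mono' (hd.cont.mul (hM.φcont.pow 2)).aestronglyMeasurable
    (Eventually.of_forall fun x => ?_)
  have h1 := hM.φmem x
  have h2 : φ x ^ 2 ≤ 1 := pow_le_one₀ h1.1.le h1.2
  rw [Real.norm_eq_abs, abs_of_nonneg (mul_nonneg (hd.pos x).le (sq_nonneg _))]
  calc nrm V x * φ x ^ 2 ≤ nrm V x * 1 := mul_le_mul_of_nonneg_left h2 (hd.pos x).le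
    _ = nrm V x := mul_one _

private theorem ec_arg (hM : MPot H φ β D V) (hH : 0 < H) (hl : 0 < l) :
    0 < l ^ (2 * (2 + H)) * (kap H * ∫ x, nrm V x * φ x ^ 2) * gmom (4 + 2 * H) := by
  have hd := ec_dens hM
  have h1 : 0 < l ^ (2 * (2 + H)) := Real.rpow_pos_of_pos hl _
  have h2 : 0 < kap H := by
    rw [kap_eq hH]
    positivity
  have h3 : 0 < ∫ x, nrm V x * φ x ^ 2 := by
    have hpos : ∀ x, 0 < nrm V x * φ x ^ 2 := fun x =>
      mul_pos (hd.pos x) (pow_pos (hM.φmem x).1 2)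
    rw [integral_pos_iff_support_of_nonneg (fun x => (hpos x).le) (ec_int hM)]
    have h : Function.support (fun x => nrm V x * φ x ^ 2) = univ :=
      eq_univ_of_forall fun z => (hpos z).ne'
    rw [h]
    simp
  have h4 : 0 < gmom (4 + 2 * H) := by
    rw [gmom_eq (by linarith)]
    have h1 : 0 < Real.Gamma ((4 + 2 * H + 1) / 2) := Real.Gamma_pos_of_pos (by linarith)
    have h2 : 0 < √Real.pi := Real.sqrt_pos.2 Real.pi_pos
    have h3 : (0 : ℝ) < 2 ^ ((4 + 2 * H) / 2) := Real.rpow_pos_of_pos (by norm_num) _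
    positivity
  exact mul_pos (mul_pos h1 (mul_pos h2 h3)) h4

theorem sgM_pos (hM : MPot H φ β D V) (hH : 0 < H) (hl : 0 < l) : 0 < sgM H l φ V :=
  Real.sqrt_pos.2 (ec_arg hM hH hl)

theorem sgM_sq (hM : MPot H φ β D V) (hH : 0 < H) (hl : 0 < l) :
    sgM H l φ V ^ 2
      = l ^ (2 * (2 + H)) * (kap H * ∫ x, nrm V x * φ x ^ 2) * gmom (4 + 2 * H) :=
  Real.sq_sqrt (ec_arg hM hH hl).le

private theorem ec_val (hM : MPot H φ β D V) (hH : 0 < H) (hl : 0 < l) (c : ℝ) :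
    l ^ (2 * (2 + H)) * (kap H * ∫ x, c * nrm V x * φ x ^ 2) * gmom (4 + 2 * H) =
      c * sgM H l φ V ^ 2 := by
  have h1 : ∫ x, c * nrm V x * φ x ^ 2 = c * ∫ x, nrm V x * φ x ^ 2 := by
    rw [← integral_const_mul]
    refine integral_congr_ae (Eventually.of_forall fun x => ?_)
    simp only
    ring
  rw [sgM_sq hM hH hl, h1]
  ring

theorem m_z (hM : MPot H φ β D V) (hH : 0 < H) (hH1 : H < 1) (hl : 0 < l) :
    Tendsto (fun n : ℕ => ((n : ℝ) + 1) * (1 - Zf (nrm V) (mq D (vH l (2 + H) n)))) atTop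
      (𝓝 (sgM H l φ V ^ 2 / 8)) := by
  obtain ⟨A, hW⟩ := incM_hell hM hH hl
  have h := mw_lim hM hH hH1 hl hW
  rw [ec_val hM hH hl] at h
  have h1 : 1 / 8 * sgM H l φ V ^ 2 = sgM H l φ V ^ 2 / 8 := by ring
  rw [h1] at h
  refine h.congr fun n => ?_
  rw [Zf_m hM (vH_pos hl (2 + H) n)]

private theorem ec_z_one (hM : MPot H φ β D V) (hH : 0 < H) (hH1 : H < 1) (hl : 0 < l) :
    Tendsto (fun n : ℕ => Zf (nrm V) (mq D (vH l (2 + H) n))) atTop (𝓝 1) := by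
  have h := m_z hM hH hH1 hl
  have h1 : Tendsto (fun n : ℕ => ((n : ℝ) + 1)⁻¹) atTop (𝓝 0) := by
    have h2 := tendsto_one_div_add_atTop_nhds_zero_nat (𝕜 := ℝ)
    refine h2.congr fun n => ?_
    rw [one_div]
  have h3 := h.mul h1
  rw [mul_zero] at h3
  have h4 := (tendsto_const_nhds (x := (1 : ℝ))).sub h3
  rw [sub_zero] at h4
  refine h4.congr fun n => ?_
  have h5 : ((n : ℝ) + 1) ≠ 0 := by positivity
  field_simp
  ring

private theorem ec_zi_one (hM : MPot H φ β D V) (hH : 0 < H) (hH1 : H < 1) (hl : 0 < l) :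
    Tendsto (fun n : ℕ => (Zf (nrm V) (mq D (vH l (2 + H) n)))⁻¹) atTop (𝓝 1) := by
  have h := (ec_z_one hM hH hH1 hl).inv₀ one_ne_zero
  rwa [inv_one] at h

theorem m_zlim (hM : MPot H φ β D V) (hH : 0 < H) (hH1 : H < 1) (hl : 0 < l) :
    Tendsto (fun n : ℕ => Zf (nrm V) (mq D (vH l (2 + H) n)) ^ (n + 1)) atTop
      (𝓝 (Real.exp (-sgM H l φ V ^ 2 / 8))) := by
  set g : ℕ → ℝ := fun n => Zf (nrm V) (mq D (vH l (2 + H) (n - 1))) - 1 with hg
  have h1 : Tendsto (fun n : ℕ => (n : ℝ) * g n) atTop (𝓝 (-sgM H l φ V ^ 2 / 8)) := by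
    rw [← tendsto_add_atTop_iff_nat 1]
    have h2 := (m_z hM hH hH1 hl).neg
    rw [← neg_div] at h2
    refine h2.congr fun n => ?_
    simp only [hg, Nat.add_sub_cancel, Nat.cast_add, Nat.cast_one]
    ring
  have h3 := Real.tendsto_one_add_pow_exp_of_tendsto h1
  rw [← tendsto_add_atTop_iff_nat 1] at h3
  refine h3.congr fun n => ?_
  simp only [hg, Nat.add_sub_cancel]
  congr 1
  ring

theorem m_clt (hM : MPot H φ β D V) (hH : 0 < H) (hH1 : H < 1) (hl : 0 < l) (t : ℝ) :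
    Tendsto (fun n : ℕ => ((n : ℝ) + 1) *
      ∫ z, (1 - Real.cos (t * Rf (nrm V) (mq D (vH l (2 + H) n)) z))
        ∂(sm (nrm V) (mq D (vH l (2 + H) n)))) atTop (𝓝 (t ^ 2 * sgM H l φ V ^ 2 / 2)) := by
  obtain ⟨A, hW⟩ := incM_cos hM hH hl t
  have h := mw_lim hM hH hH1 hl hW
  rw [ec_val hM hH hl] at h
  have h1 : t ^ 2 / 2 * sgM H l φ V ^ 2 = t ^ 2 * sgM H l φ V ^ 2 / 2 := by ring
  rw [h1] at h
  have h2 := (ec_zi_one hM hH hH1 hl).mul h
  rw [one_mul] at h2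
  refine h2.congr fun n => ?_
  rw [integral_sm (ec_dens hM) (mq_prop hM (vH_pos hl (2 + H) n))]
  ring

theorem m_rsq (hM : MPot H φ β D V) (hH : 0 < H) (hH1 : H < 1) (hl : 0 < l) :
    ∃ C : ℝ, ∀ n : ℕ, ((n : ℝ) + 1) *
      ∫ z, min 1 (Rf (nrm V) (mq D (vH l (2 + H) n)) z ^ 2)
        ∂(sm (nrm V) (mq D (vH l (2 + H) n))) ≤ C := by
  obtain ⟨A, hW⟩ := incM_sq hM hH hl
  have hlim := mw_lim hM hH hH1 hl hW
  obtain ⟨C0, hC0⟩ := hlim.bddAbove_range
  have hC : ∀ n : ℕ, ((n : ℝ) + 1) * ∫ z : ℝ × ℝ, Rf (nrm V) (mq D (vH l (2 + H) n)) z ^ 2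
        * sdn (nrm V) (mq D (vH l (2 + H) n)) z ≤ C0 := fun n => hC0 (mem_range_self n)
  obtain ⟨B, hB⟩ := (ec_zi_one hM hH hH1 hl).bddAbove_range
  have hB' : ∀ n, (Zf (nrm V) (mq D (vH l (2 + H) n)))⁻¹ ≤ B := fun n => hB (mem_range_self n)
  have hd := ec_dens hM
  have hq : ∀ n, IsProp (mq D (vH l (2 + H) n)) := fun n => mq_prop hM (vH_pos hl (2 + H) n)
  have hZ : ∀ n, 0 < (Zf (nrm V) (mq D (vH l (2 + H) n)))⁻¹ := fun n =>
    inv_pos.2 (Zf_pos hd (hq n))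
  obtain ⟨C1, hC1⟩ := mw_bdd (l := l) hM hH hl
  obtain ⟨hr, -⟩ := mw_rho hH hH1 hl
  obtain ⟨N, hN⟩ := eventually_atTop.1 hW.bdd
  -- integrability of the weight for large `n`
  have hint : ∀ n, N ≤ n → Integrable fun z : ℝ × ℝ =>
      Rf (nrm V) (mq D (vH l (2 + H) n)) z ^ 2 * sdn (nrm V) (mq D (vH l (2 + H) n)) z := by
    intro n hn
    have hg := (((hC1 n).1.add (hr n)).const_mul A)
    refine hg.mono' (hW.meas n).aestronglyMeasurable (Eventually.of_forall fun z => ?_)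
    rw [Real.norm_eq_abs]
    refine (hN n hn z.1 z.2).trans (le_of_eq ?_)
    simp only [Pi.add_apply, Prod.mk.eta]
    ring
  have hs0 : ∀ n z, 0 ≤ sdn (nrm V) (mq D (vH l (2 + H) n)) z := fun n z =>
    (sdn_pos hd (hq n) z).le
  have hbig : ∀ n, N ≤ n → ((n : ℝ) + 1) *
      ∫ z, min 1 (Rf (nrm V) (mq D (vH l (2 + H) n)) z ^ 2)
        ∂(sm (nrm V) (mq D (vH l (2 + H) n))) ≤ |B| * |C0| := by
    intro n hn
    have hn0 : (0 : ℝ) ≤ (n : ℝ) + 1 := by positivity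
    rw [integral_sm hd (hq n)]
    have h1 : ∫ z : ℝ × ℝ, min 1 (Rf (nrm V) (mq D (vH l (2 + H) n)) z ^ 2) *
        sdn (nrm V) (mq D (vH l (2 + H) n)) z ≤
        ∫ z : ℝ × ℝ, Rf (nrm V) (mq D (vH l (2 + H) n)) z ^ 2 *
          sdn (nrm V) (mq D (vH l (2 + H) n)) z :=
      integral_mono_of_nonneg
        (Eventually.of_forall fun z => mul_nonneg (le_min zero_le_one (sq_nonneg _)) (hs0 n z))
        (hint n hn)
        (Eventually.of_forall fun z => mul_le_mul_of_nonneg_right (min_le_right _ _) (hs0 n z))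
    calc ((n : ℝ) + 1) * ((Zf (nrm V) (mq D (vH l (2 + H) n)))⁻¹ *
          ∫ z : ℝ × ℝ, min 1 (Rf (nrm V) (mq D (vH l (2 + H) n)) z ^ 2) *
            sdn (nrm V) (mq D (vH l (2 + H) n)) z)
        = (Zf (nrm V) (mq D (vH l (2 + H) n)))⁻¹ * (((n : ℝ) + 1) *
          ∫ z : ℝ × ℝ, min 1 (Rf (nrm V) (mq D (vH l (2 + H) n)) z ^ 2) *
            sdn (nrm V) (mq D (vH l (2 + H) n)) z) := by ring
      _ ≤ (Zf (nrm V) (mq D (vH l (2 + H) n)))⁻¹ * |C0| :=
          mul_le_mul_of_nonneg_left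
            ((mul_le_mul_of_nonneg_left h1 hn0).trans ((hC n).trans (le_abs_self _))) (hZ n).le
      _ ≤ |B| * |C0| :=
          mul_le_mul_of_nonneg_right ((hB' n).trans (le_abs_self _)) (abs_nonneg _)
  refine ⟨|B| * |C0| + ((N : ℝ) + 1), fun n => ?_⟩
  rcases le_or_gt N n with hn | hn
  · have h1 := hbig n hn
    have h2 : (0 : ℝ) ≤ (N : ℝ) + 1 := by positivity
    linarith
  · haveI := sm_prob hd (hq n)
    have h1 : ∫ z, min 1 (Rf (nrm V) (mq D (vH l (2 + H) n)) z ^ 2)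
        ∂(sm (nrm V) (mq D (vH l (2 + H) n))) ≤ 1 := by
      have h2 : ∫ z, min 1 (Rf (nrm V) (mq D (vH l (2 + H) n)) z ^ 2)
          ∂(sm (nrm V) (mq D (vH l (2 + H) n))) ≤
          ∫ _z, (1 : ℝ) ∂(sm (nrm V) (mq D (vH l (2 + H) n))) :=
        integral_mono_of_nonneg
          (Eventually.of_forall fun z => le_min zero_le_one (sq_nonneg _))
          (integrable_const _) (Eventually.of_forall fun z => min_le_left _ _)
      simpa using h2
    have hn0 : (0 : ℝ) ≤ (n : ℝ) + 1 := by positivity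
    have h3 := mul_le_mul_of_nonneg_left h1 hn0
    rw [mul_one] at h3
    have h4 : (n : ℝ) < N := by exact_mod_cast hn
    have h5 : 0 ≤ |B| * |C0| := by positivity
    linarith

end Pool.Agent.Lib.MP_e19099_pr
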