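import Pool.Agent.Lib.MP_e19099_pr.EClt
import Pool.Agent.Lib.MP_e19099_pr.CGen

/-!
# MALA: the first coordinate condition (module E, E7)

`mg D V t v (x,y) = 1_{|y-x| ≤ 1} (∫_x^y t) / √(p(x)p(y)) · exp(-mth)`, so that `mg · sdn = 1_{|y-x| ≤ 1} (∫_x^y t) γ_v(y-x)` exactly (`sdn_m`).
Let `t` have support in `[-A, A]`; if `|y-x| ≤ 1` and `∫_x^y t ≠ 0` then `x, y ∈ [-A-1, A+1]`, where `p` is bounded below and `|mth| ≤ C (v + z²)`.
`mg_bdd`: for `v ≤ 1` … in general with a bound depending on `max v = l²` (`v = l² τ ≤ l²`).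
`mg_close`: `∫ (v(y) - v(x) - mg)² ds ≤ 2 Z⁻¹ ∫∫ (·)² √(p(x)p(y)) γ_{2v}`, `2 v = vH (√2 l) a n`; `(Δv - mg)² ≤ 2 (Δv - g₀)² + 2 g₀² (e^{-mth} - 1)²` with
`g₀ = 1 (∫ t)/√(pp)`; `J(z) = ∫ (Δv - g₀)² √(pp) dx` satisfies `small_avg` and the second term is `≤ C z² (v + z²)²`.
`mg_tail`: on the support of `mg`, `|R| ≤ C (z² + v|z|)`, so `|R| > 1` forces `|z| > δ`.
`mg_pair`: as `rwg_pair`.
`mg_gen`: `mg_pair`, `core_gen` with `a = 2 + H`, `Z → 1`.
-/

set_option autoImplicit false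

open MeasureTheory ProbabilityTheory Filter Set
open scoped NNReal Topology ENNReal

namespace Pool.Agent.Lib.MP_e19099_pr

noncomputable def mg (D V t : ℝ → ℝ) (v : ℝ≥0) (z : ℝ × ℝ) : ℝ :=
  if |z.2 - z.1| ≤ 1 then
    (∫ u in z.1..z.2, t u) / √(nrm V z.1 * nrm V z.2) * Real.exp (-mth D v z) else 0

variable {H l : ℝ} {φ β D V t : ℝ → ℝ}

private theorem ef_V (hM : MPot H φ β D V) : Continuous V :=
  continuous_iff_continuousAt.mpr fun x => (hM.dV x).continuousAt

private theorem ef_D (hM : MPot H φ β D V) : Continuous D :=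
  continuous_iff_continuousAt.mpr fun x => (hM.dD x).continuousAt

private theorem ef_dens (hM : MPot H φ β D V) : Dens (nrm V) := nrm_dens (ef_V hM) hM.exp_int

/-- the function `mg` without the exponential factor -/
private noncomputable def g0 (V t : ℝ → ℝ) (z : ℝ × ℝ) : ℝ :=
  if |z.2 - z.1| ≤ 1 then (∫ u in z.1..z.2, t u) / √(nrm V z.1 * nrm V z.2) else 0

private theorem ef_mg_eq (v : ℝ≥0) (z : ℝ × ℝ) :
    mg D V t v z = g0 V t z * Real.exp (-mth D v z) := by
  unfold mg g0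
  split_ifs
  · rfl
  · rw [zero_mul]

private theorem ef_prim (ht : IsTest t) : Continuous fun z : ℝ × ℝ => ∫ u in z.1..z.2, t u := by
  have h := (CGenAux.prim_cont ht).comp
    ((continuous_snd.sub continuous_fst).prodMk (continuous_fst : Continuous fun z : ℝ × ℝ => z.1))
  refine h.congr fun z => ?_
  show (∫ u in z.1..(z.1 + (z.2 - z.1)), t u) = _
  rw [add_sub_cancel]

private theorem ef_set : MeasurableSet {z : ℝ × ℝ | |z.2 - z.1| ≤ 1} :=
  measurableSet_le (continuous_abs.measurable.comp (measurable_snd.sub measurable_fst))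
    measurable_const

private theorem ef_sq_meas (hM : MPot H φ β D V) :
    Continuous fun z : ℝ × ℝ => √(nrm V z.1 * nrm V z.2) :=
  Real.continuous_sqrt.comp
    (((ef_dens hM).cont.comp continuous_fst).mul ((ef_dens hM).cont.comp continuous_snd))

private theorem ef_g0_meas (hM : MPot H φ β D V) (ht : IsTest t) : Measurable (g0 V t) :=
  Measurable.ite ef_set ((ef_prim ht).measurable.div (ef_sq_meas hM).measurable) measurable_const

private theorem ef_mth_meas (hM : MPot H φ β D V) (v : ℝ≥0) : Measurable (mth D v) := by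
  have h1 : Measurable fun z : ℝ × ℝ => D z.1 := (ef_D hM).measurable.comp measurable_fst
  have h2 : Measurable fun z : ℝ × ℝ => D z.2 := (ef_D hM).measurable.comp measurable_snd
  exact ((measurable_const.mul ((h1.pow_const 2).add (h2.pow_const 2))).neg).sub
    (((measurable_snd.sub measurable_fst).mul (h2.sub h1)).div_const 4)

private theorem ef_g0 (hM : MPot H φ β D V) (ht : IsTest t) :
    ∃ A C : ℝ, 0 < A ∧ 0 < C ∧ (∀ z, g0 V t z ≠ 0 → |z.2 - z.1| ≤ 1 ∧ |z.1| ≤ A) ∧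
      ∀ z, |g0 V t z| ≤ C * |z.2 - z.1| := by
  obtain ⟨A, hA0, hA⟩ := CGenAux.exists_supp ht
  have hp := ef_dens hM
  obtain ⟨K, hK⟩ := ht.smooth.continuous.bounded_above_of_compact_support ht.supp
  have hK0 : 0 ≤ K := (norm_nonneg _).trans (hK 0)
  obtain ⟨x0, -, hx0⟩ := (isCompact_Icc (a := -(A + 2)) (b := A + 2)).exists_isMinOn
    (nonempty_Icc.mpr (by linarith)) hp.cont.continuousOn
  have hm : 0 < nrm V x0 := hp.pos x0
  have h1 : ∀ z, g0 V t z ≠ 0 → |z.2 - z.1| ≤ 1 ∧ |z.1| ≤ A + 1 := by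
    intro z hz
    by_cases h : |z.2 - z.1| ≤ 1
    · refine ⟨h, ?_⟩
      by_contra hc
      apply hz
      unfold g0
      rw [if_pos h]
      have h2 := CGenAux.prim_zero (x := z.1) (z := z.2 - z.1) hA h
        (fun hh => hc (abs_le.mpr hh))
      rw [add_sub_cancel] at h2
      rw [h2, zero_div]
    · exact absurd (by unfold g0; rw [if_neg h]) hz
  refine ⟨A + 1, K / nrm V x0 + 1, by linarith, by positivity, h1, fun z => ?_⟩
  by_cases hz : g0 V t z = 0
  · rw [hz, abs_zero]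
    positivity
  · obtain ⟨h2, h3⟩ := h1 z hz
    have h2' := abs_le.mp h2
    have h3' := abs_le.mp h3
    have hz1 : z.1 ∈ Icc (-(A + 2)) (A + 2) := ⟨by linarith [h3'.1], by linarith [h3'.2]⟩
    have hz2 : z.2 ∈ Icc (-(A + 2)) (A + 2) :=
      ⟨by linarith [h3'.1, h2'.1], by linarith [h3'.2, h2'.2]⟩
    have e1 : nrm V x0 ≤ √(nrm V z.1 * nrm V z.2) := by
      rw [Real.le_sqrt' hm, sq]
      exact mul_le_mul (hx0 hz1) (hx0 hz2) hm.le (hp.pos _).le
    have e2 : |∫ u in z.1..z.2, t u| ≤ K * |z.2 - z.1| :=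
      intervalIntegral.norm_integral_le_of_norm_le_const (fun u _ => hK u)
    unfold g0
    rw [if_pos h2, abs_div, abs_of_nonneg (Real.sqrt_nonneg _)]
    calc |∫ u in z.1..z.2, t u| / √(nrm V z.1 * nrm V z.2)
        ≤ K * |z.2 - z.1| / nrm V x0 := by gcongr
      _ = K / nrm V x0 * |z.2 - z.1| := by ring
      _ ≤ (K / nrm V x0 + 1) * |z.2 - z.1| := by
        have := abs_nonneg (z.2 - z.1)
        nlinarith

/-- bound for `mth` on the support of `g0` -/
private theorem ef_mth (hM : MPot H φ β D V) {A : ℝ} (hA : 0 < A) :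
    ∃ M : ℝ, 0 < M ∧ ∀ (v : ℝ≥0) (z : ℝ × ℝ), |z.2 - z.1| ≤ 1 → |z.1| ≤ A →
      |mth D v z| ≤ M * (v + (z.2 - z.1) ^ 2) := by
  obtain ⟨C, hC0, hC⟩ := mth_le hM
  refine ⟨C * (2 + A ^ 2), by positivity, fun v z h1 h2 => ?_⟩
  refine (hC v z).2.trans ?_
  have e1 : (z.2 - z.1) ^ 2 ≤ 1 := by
    rw [← sq_abs]
    exact pow_le_one₀ (abs_nonneg _) h1
  have e2 : z.1 ^ 2 ≤ A ^ 2 := by
    rw [← sq_abs]
    exact pow_le_pow_left₀ (abs_nonneg _) h2 2
  have e3 : (v : ℝ) * (1 + z.1 ^ 2 + (z.2 - z.1) ^ 2) ≤ v * (2 + A ^ 2) :=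
    mul_le_mul_of_nonneg_left (by linarith) v.coe_nonneg
  have e4 : (z.2 - z.1) ^ 2 ≤ (2 + A ^ 2) * (z.2 - z.1) ^ 2 := by
    nlinarith [sq_nonneg (z.2 - z.1), sq_nonneg A]
  calc C * (v * (1 + z.1 ^ 2 + (z.2 - z.1) ^ 2) + (z.2 - z.1) ^ 2)
      ≤ C * (v * (2 + A ^ 2) + (2 + A ^ 2) * (z.2 - z.1) ^ 2) := by gcongr
    _ = C * (2 + A ^ 2) * (v + (z.2 - z.1) ^ 2) := by ring

private theorem ef_exp (s : ℝ) : |Real.exp s - 1| ≤ |s| * Real.exp |s| := by
  rcases le_total 0 s with hs | hs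
  · have h1 := Real.add_one_le_exp (-s)
    have h2 := Real.exp_pos s
    have h3 : Real.exp (-s) * Real.exp s = 1 := by rw [← Real.exp_add, neg_add_cancel, Real.exp_zero]
    have h4 : 1 ≤ Real.exp s := Real.one_le_exp hs
    rw [abs_of_nonneg (by linarith), abs_of_nonneg hs]
    nlinarith
  · have h1 := Real.add_one_le_exp s
    have h2 : Real.exp s ≤ 1 := Real.exp_le_one_iff.mpr hs
    have h3 : 1 ≤ Real.exp |s| := Real.one_le_exp (abs_nonneg s)
    rw [abs_of_nonpos (by linarith)]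
    have h4 : |s| = -s := abs_of_nonpos hs
    have h5 : 0 ≤ |s| := abs_nonneg s
    nlinarith

private theorem ef_prop {v : ℝ≥0} (hv : 0 < v) :
    IsProp (fun x y => gaussianPDFReal 0 v (y - x)) where
  meas := (measurable_gaussianPDFReal 0 v).comp (measurable_snd.sub measurable_fst)
  pos := fun x y => gaussianPDFReal_pos _ _ _ hv.ne'
  one := fun x => by
    rw [integral_sub_right_eq_self (fun y => gaussianPDFReal 0 v y) x]
    exact integral_gaussianPDFReal_eq_one 0 hv.ne'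

private theorem ef_even (v : ℝ≥0) (x y : ℝ) :
    gaussianPDFReal 0 v (x - y) = gaussianPDFReal 0 v (y - x) := by
  rw [gaussianPDFReal_def]
  show (√(2 * Real.pi * v))⁻¹ * Real.exp (-(x - y - 0) ^ 2 / (2 * v)) =
    (√(2 * Real.pi * v))⁻¹ * Real.exp (-(y - x - 0) ^ 2 / (2 * v))
  have : (x - y - 0) ^ 2 = (y - x - 0) ^ 2 := by ring
  rw [this]

/-- `√(p(x)p(y)) γ_v(y-x)` is integrable -/
private theorem ef_int {p : ℝ → ℝ} (hp : Dens p) {v : ℝ≥0} (hv : 0 < v) :
    Integrable fun z : ℝ × ℝ => √(p z.1 * p z.2) * gaussianPDFReal 0 v (z.2 - z.1) := by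
  refine (sdn_integrable hp (ef_prop hv)).congr (Eventually.of_forall fun z => ?_)
  have h0 : 0 ≤ gaussianPDFReal 0 v (z.2 - z.1) := gaussianPDFReal_nonneg _ _ _
  show √(p z.1 * gaussianPDFReal 0 v (z.2 - z.1) * (p z.2 * gaussianPDFReal 0 v (z.1 - z.2))) = _
  rw [ef_even v z.1 z.2]
  have h1 : p z.1 * gaussianPDFReal 0 v (z.2 - z.1) * (p z.2 * gaussianPDFReal 0 v (z.2 - z.1)) =
      p z.1 * p z.2 * (gaussianPDFReal 0 v (z.2 - z.1)) ^ 2 := by ring
  rw [h1, Real.sqrt_mul (mul_pos (hp.pos _) (hp.pos _)).le, Real.sqrt_sq h0]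

/-- Fubini -/
private theorem ef_fub {U : ℝ × ℝ → ℝ} {v : ℝ≥0} (hv : 0 < v)
    (hI : Integrable (fun z : ℝ × ℝ => U z * gaussianPDFReal 0 v (z.2 - z.1))) :
    ∫ z : ℝ × ℝ, U z * gaussianPDFReal 0 v (z.2 - z.1)
      = ∫ h, (∫ x, U (x, x + h)) ∂(gaussianReal 0 v) := by
  have hT : MeasurePreserving (fun z : ℝ × ℝ => (z.1, z.1 + z.2))
      ((volume : Measure ℝ).prod volume) ((volume : Measure ℝ).prod volume) :=
    measurePreserving_prod_add volume volume
  have hTe : MeasurableEmbedding (fun z : ℝ × ℝ => (z.1, z.1 + z.2)) :=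
    (MeasurableEquiv.shearAddRight ℝ).measurableEmbedding
  rw [Measure.volume_eq_prod] at hI
  have hcomp : (fun z : ℝ × ℝ => U z * gaussianPDFReal 0 v (z.2 - z.1)) ∘
      (fun z : ℝ × ℝ => (z.1, z.1 + z.2)) =
      fun z : ℝ × ℝ => U (z.1, z.1 + z.2) * gaussianPDFReal 0 v z.2 := by
    funext z
    show U (z.1, z.1 + z.2) * gaussianPDFReal 0 v (z.1 + z.2 - z.1) = _
    rw [add_sub_cancel_left]
  have Gi : Integrable (fun z : ℝ × ℝ => U (z.1, z.1 + z.2) * gaussianPDFReal 0 v z.2)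
      ((volume : Measure ℝ).prod volume) := by
    rw [← hT.integrable_comp_emb hTe, hcomp] at hI
    exact hI
  have h1 : ∫ z : ℝ × ℝ, U z * gaussianPDFReal 0 v (z.2 - z.1) ∂((volume : Measure ℝ).prod volume)
      = ∫ z : ℝ × ℝ, U (z.1, z.1 + z.2) * gaussianPDFReal 0 v z.2
        ∂((volume : Measure ℝ).prod volume) := by
    rw [← hT.integral_comp hTe]
    refine integral_congr_ae (ae_of_all _ fun z => ?_)
    exact congrFun hcomp z
  rw [Measure.volume_eq_prod, h1, integral_prod_symm _ Gi,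
    integral_gaussianReal_eq_integral_smul hv.ne']
  refine integral_congr_ae (ae_of_all _ fun h => ?_)
  show ∫ x, U (x, x + h) * gaussianPDFReal 0 v h = gaussianPDFReal 0 v h • ∫ x, U (x, x + h)
  rw [integral_mul_const, smul_eq_mul, mul_comm]

private theorem ef_sqrt_le {a b : ℝ} (ha : 0 ≤ a) (hb : 0 ≤ b) : √(a * b) ≤ (a + b) / 2 := by
  rw [Real.sqrt_le_iff]
  exact ⟨by linarith, by nlinarith [sq_nonneg (a - b)]⟩

/-- `∫ √(p(x)p(x+h)) dx ≤ 1` -/
private theorem ef_one {p : ℝ → ℝ} (hp : Dens p) (h : ℝ) :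
    Integrable (fun x => √(p x * p (x + h))) ∧ ∫ x, √(p x * p (x + h)) ≤ 1 := by
  have i1 : Integrable fun x => p (x + h) := hp.int.comp_add_right h
  have i2 : Integrable fun x => (p x + p (x + h)) / 2 := (hp.int.add i1).div_const 2
  have hc : Continuous fun x => √(p x * p (x + h)) :=
    Real.continuous_sqrt.comp (hp.cont.mul (hp.cont.comp (continuous_id.add continuous_const)))
  have hle : ∀ x, √(p x * p (x + h)) ≤ (p x + p (x + h)) / 2 := fun x =>
    ef_sqrt_le (hp.pos x).le (hp.pos _).le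
  have i3 : Integrable (fun x => √(p x * p (x + h))) := by
    refine i2.mono' hc.aestronglyMeasurable (Eventually.of_forall fun x => ?_)
    rw [Real.norm_eq_abs, abs_of_nonneg (Real.sqrt_nonneg _)]
    exact hle x
  refine ⟨i3, (integral_mono i3 i2 hle).trans (le_of_eq ?_)⟩
  rw [integral_div, integral_add hp.int i1, integral_add_right_eq_self p h, hp.one]
  norm_num

private theorem ef_G_meas {U : ℝ × ℝ → ℝ} (hU : Measurable U) :
    Measurable (fun h : ℝ => ∫ x, U (x, x + h)) := by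
  have h1 : StronglyMeasurable (fun z : ℝ × ℝ => U (z.2, z.2 + z.1)) :=
    (hU.comp (measurable_snd.prodMk (measurable_snd.add measurable_fst))).stronglyMeasurable
  exact (h1.integral_prod_right (ν := volume)).measurable

private theorem ef_row {p : ℝ → ℝ} (hp : Dens p) {F : ℝ × ℝ → ℝ} (hF : Measurable F) {B : ℝ}
    {h : ℝ} (hb : ∀ x, |F (x, x + h)| ≤ B) :
    Integrable (fun x => F (x, x + h) * √(p x * p (x + h))) ∧
      |∫ x, F (x, x + h) * √(p x * p (x + h))| ≤ B := by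
  obtain ⟨i1, i2⟩ := ef_one hp h
  have hB : 0 ≤ B := (abs_nonneg _).trans (hb 0)
  have hm : Measurable fun x : ℝ => F (x, x + h) :=
    hF.comp (measurable_id.prodMk (measurable_id.add_const h))
  refine ⟨i1.bdd_mul (c := B) hm.aestronglyMeasurable (Eventually.of_forall fun x => hb x), ?_⟩
  rw [← Real.norm_eq_abs]
  refine (norm_integral_le_of_norm_le (i1.const_mul B) (Eventually.of_forall fun x => ?_)).trans ?_
  · rw [norm_mul, Real.norm_eq_abs, Real.norm_eq_abs, abs_of_nonneg (Real.sqrt_nonneg _)]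
    exact mul_le_mul_of_nonneg_right (hb x) (Real.sqrt_nonneg _)
  · rw [integral_const_mul]
    exact mul_le_of_le_one_right hB i2

private theorem ef_pow_int (v : ℝ≥0) (k : ℕ) :
    Integrable (fun z : ℝ => z ^ k) (gaussianReal 0 v) := by
  have h := (memLp_id_gaussianReal (μ := 0) (v := v) (k : ℝ≥0)).integrable_norm_pow'
  refine h.mono (by fun_prop) (ae_of_all _ fun z => ?_)
  simp

private theorem ef_J_int (v : ℝ≥0) {J : ℝ → ℝ} (hJ : Measurable J) {C : ℝ}
    (hb : ∀ z, |J z| ≤ C * z ^ 2 * (1 + z ^ 4)) :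
    Integrable (fun z => |J z|) (gaussianReal 0 v) := by
  refine (((ef_pow_int v 2).add (ef_pow_int v 6)).const_mul C).mono' hJ.abs.aestronglyMeasurable
    (ae_of_all _ fun z => ?_)
  rw [Real.norm_eq_abs, abs_abs]
  refine (hb z).trans (le_of_eq ?_)
  simp only [Pi.add_apply]
  ring

private theorem ef_two (l a : ℝ) (n : ℕ) : 2 * vH l a n = vH (√2 * l) a n := by
  apply NNReal.coe_injective
  rw [NNReal.coe_mul, vH_coe, vH_coe, mul_pow, Real.sq_sqrt (by norm_num)]
  push_cast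
  ring

private theorem ef_zlim (hM : MPot H φ β D V) (hH : 0 < H) (hH1 : H < 1) (hl : 0 < l) :
    Tendsto (fun n : ℕ => (Zf (nrm V) (mq D (vH l (2 + H) n)))⁻¹) atTop (𝓝 1) := by
  have h1 := m_z hM hH hH1 hl
  have h2 : Tendsto (fun n : ℕ => 1 / ((n : ℝ) + 1)) atTop (𝓝 0) :=
    tendsto_one_div_add_atTop_nhds_zero_nat
  have h3 := (h1.mul h2).const_sub 1
  rw [mul_zero, sub_zero] at h3
  have h4 : Tendsto (fun n : ℕ => Zf (nrm V) (mq D (vH l (2 + H) n))) atTop (𝓝 1) := by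
    refine h3.congr fun n => ?_
    have : (n : ℝ) + 1 ≠ 0 := by positivity
    field_simp
    ring
  have h5 := h4.inv₀ one_ne_zero
  rwa [inv_one] at h5

/-- the averaging principle -/
private theorem ef_lim (hM : MPot H φ β D V) (hH : 0 < H) (hH1 : H < 1) (hl : 0 < l)
    {F : ℕ → ℝ × ℝ → ℝ} {J : ℝ → ℝ} {C B : ℝ} {e : ℕ → ℝ}
    (hF : ∀ n, Measurable (F n)) (hF0 : ∀ n z, 0 ≤ F n z)
    (hFB : ∀ᶠ n in atTop, ∀ z, F n z ≤ B)
    (hJ : Measurable J) (hb : ∀ z, |J z| ≤ C * z ^ 2 * (1 + z ^ 4))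
    (hl0 : ∀ ε : ℝ, 0 < ε → ∃ δ : ℝ, 0 < δ ∧ ∀ z, |z| ≤ δ → |J z| ≤ ε * z ^ 2)
    (he : Tendsto (fun n => (tauH (2 + H) n)⁻¹ * e n) atTop (𝓝 0))
    (hFJ : ∀ᶠ n in atTop, ∀ h, ∫ x, F n (x, x + h) * √(nrm V x * nrm V (x + h)) ≤ J h + e n) :
    Tendsto (fun n => (tauH (2 + H) n)⁻¹ *
      ∫ z, F n z ∂(sm (nrm V) (mq D (vH l (2 + H) n)))) atTop (𝓝 0) := by
  have hp := ef_dens hM
  have ha : 0 < 2 + H := by linarith
  have hl2 : 0 < √2 * l := by positivity
  obtain ⟨v₀, hv₀, hv₀'⟩ := sdn_m_le hM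
  have l1 := small_avg hl2 ha hJ hb hl0
  have l2 := ef_zlim hM hH hH1 hl
  have lim : Tendsto (fun n => 2 * (Zf (nrm V) (mq D (vH l (2 + H) n)))⁻¹ *
      ((tauH (2 + H) n)⁻¹ * (∫ z, |J z| ∂(gaussianReal 0 (vH (√2 * l) (2 + H) n))) +
        (tauH (2 + H) n)⁻¹ * e n)) atTop (𝓝 0) := by
    have := (l2.const_mul 2).mul (l1.add he)
    simpa using this
  have hvn : ∀ᶠ n in atTop, vH l (2 + H) n < v₀ := (vH_lim hl ha).eventually_lt_const hv₀
  refine squeeze_zero' (Eventually.of_forall fun n => ?_) ?_ lim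
  · exact mul_nonneg (inv_nonneg.mpr (tauH_pos _ n).le) (integral_nonneg (hF0 n))
  filter_upwards [hvn, hFB, hFJ] with n hn hB hJn
  have hv := vH_pos hl (2 + H) n
  have hv2 : 0 < 2 * vH l (2 + H) n := by positivity
  have hq := mq_prop hM hv
  set v := vH l (2 + H) n with hvdef
  have hτ : 0 < (tauH (2 + H) n)⁻¹ := inv_pos.mpr (tauH_pos _ n)
  have hZ : 0 < (Zf (nrm V) (mq D v))⁻¹ := inv_pos.mpr (Zf_pos hp hq)
  have hBa : ∀ z, |F n z| ≤ B := fun z => by rw [abs_of_nonneg (hF0 n z)]; exact hB z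
  have i1 : Integrable fun z : ℝ × ℝ => F n z * sdn (nrm V) (mq D v) z :=
    (sdn_integrable hp hq).bdd_mul (c := B) (hF n).aestronglyMeasurable
      (Eventually.of_forall fun z => hBa z)
  have i2 : Integrable fun z : ℝ × ℝ => F n z * √(nrm V z.1 * nrm V z.2) *
      gaussianPDFReal 0 (2 * v) (z.2 - z.1) := by
    have := (ef_int hp hv2).bdd_mul (c := B) (hF n).aestronglyMeasurable
      (Eventually.of_forall fun z => hBa z)
    refine this.congr (Eventually.of_forall fun z => ?_)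
    simp only
    ring
  have e1 : ∫ z : ℝ × ℝ, F n z * sdn (nrm V) (mq D v) z ≤
      2 * ∫ z : ℝ × ℝ, F n z * √(nrm V z.1 * nrm V z.2) *
        gaussianPDFReal 0 (2 * v) (z.2 - z.1) := by
    rw [← integral_const_mul]
    refine integral_mono i1 (i2.const_mul 2) fun z => ?_
    have h1 := mul_le_mul_of_nonneg_left (hv₀' v hv hn.le z) (hF0 n z)
    simp only
    calc _ ≤ _ := h1
      _ = _ := by ring
  have e2 := ef_fub (U := fun z => F n z * √(nrm V z.1 * nrm V z.2)) hv2 i2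
  have hGm : Measurable fun h : ℝ => ∫ x, F n (x, x + h) * √(nrm V x * nrm V (x + h)) :=
    ef_G_meas (U := fun z => F n z * √(nrm V z.1 * nrm V z.2))
      ((hF n).mul (ef_sq_meas hM).measurable)
  have e3 : ∫ h, (∫ x, F n (x, x + h) * √(nrm V x * nrm V (x + h)))
      ∂(gaussianReal 0 (2 * v)) ≤ ∫ h, (|J h| + e n) ∂(gaussianReal 0 (2 * v)) := by
    refine integral_mono ?_ ((ef_J_int _ hJ hb).add (integrable_const _)) fun h => ?_
    · exact Integrable.of_bound hGm.aestronglyMeasurable B (ae_of_all _ fun h =>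
        (ef_row hp (hF n) (B := B) (fun x => hBa _)).2)
    · exact (hJn h).trans (by linarith [le_abs_self (J h)])
  have e4 : ∫ h, (|J h| + e n) ∂(gaussianReal 0 (2 * v)) =
      (∫ z, |J z| ∂(gaussianReal 0 (vH (√2 * l) (2 + H) n))) + e n := by
    rw [integral_add (ef_J_int _ hJ hb) (integrable_const _), integral_const, hvdef, ef_two]
    simp
  rw [integral_sm hp hq]
  calc (tauH (2 + H) n)⁻¹ * ((Zf (nrm V) (mq D v))⁻¹ *
        ∫ z : ℝ × ℝ, F n z * sdn (nrm V) (mq D v) z)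
      ≤ (tauH (2 + H) n)⁻¹ * ((Zf (nrm V) (mq D v))⁻¹ *
        (2 * ((∫ z, |J z| ∂(gaussianReal 0 (vH (√2 * l) (2 + H) n))) + e n))) := by
        refine mul_le_mul_of_nonneg_left (mul_le_mul_of_nonneg_left ?_ hZ.le) hτ.le
        refine e1.trans (mul_le_mul_of_nonneg_left ?_ (by norm_num))
        rw [e2]
        rw [e4] at e3
        exact e3
    _ = _ := by ring

/-- the error of the first order approximation of the increment -/
private noncomputable def Pe (V t : ℝ → ℝ) (a : ℝ) (z : ℝ × ℝ) : ℝ :=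
  vf (nrm V) t a z.2 - vf (nrm V) t a z.1 - g0 V t z

private theorem ef_Pe_meas (hM : MPot H φ β D V) (ht : IsTest t) (a : ℝ) :
    Measurable (Pe V t a) := by
  have h1 := (vf_cont (ef_dens hM) ht a).measurable
  exact ((h1.comp measurable_snd).sub (h1.comp measurable_fst)).sub (ef_g0_meas hM ht)

private theorem ef_Pe_le (hM : MPot H φ β D V) (ht : IsTest t) (a : ℝ) :
    ∃ C : ℝ, 0 < C ∧ ∀ z, |Pe V t a z| ≤ C * |z.2 - z.1| := by
  obtain ⟨A, C, hA, hC, -, h2⟩ := ef_g0 hM ht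
  obtain ⟨L, hL, hL'⟩ := vf_lip (ef_dens hM) ht a
  refine ⟨L + C, by linarith, fun z => ?_⟩
  have h3 := hL' z.2 z.1
  have h4 := h2 z
  unfold Pe
  refine (abs_sub _ _).trans ?_
  linarith

private theorem ef_Pe_small (hM : MPot H φ β D V) (ht : IsTest t) (a : ℝ) {ε : ℝ} (hε : 0 < ε) :
    ∃ δ : ℝ, 0 < δ ∧ ∀ z : ℝ × ℝ, |z.2 - z.1| ≤ δ → |Pe V t a z| ≤ ε * |z.2 - z.1| := by
  obtain ⟨A, hA0, hA⟩ := CGenAux.exists_supp ht
  have hp := ef_dens hM
  obtain ⟨K, hK⟩ := ht.smooth.continuous.bounded_above_of_compact_support ht.supp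
  have hK0 : 0 ≤ K := (norm_nonneg _).trans (hK 0)
  set Φ : ℝ × ℝ × ℝ → ℝ := fun q =>
    1 / nrm V (q.1 + q.2.2) - 1 / √(nrm V q.1 * nrm V (q.1 + q.2.1)) with hΦ
  have hΦc : Continuous Φ := by
    have c1 : Continuous fun q : ℝ × ℝ × ℝ => nrm V (q.1 + q.2.2) :=
      hp.cont.comp (continuous_fst.add (continuous_snd.comp continuous_snd))
    have c2 : Continuous fun q : ℝ × ℝ × ℝ => √(nrm V q.1 * nrm V (q.1 + q.2.1)) :=
      Real.continuous_sqrt.comp ((hp.cont.comp continuous_fst).mul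
        (hp.cont.comp (continuous_fst.add (continuous_fst.comp continuous_snd))))
    exact (continuous_const.div c1 fun q => (hp.pos _).ne').sub
      (continuous_const.div c2 fun q => (Real.sqrt_pos.mpr (mul_pos (hp.pos _) (hp.pos _))).ne')
  set S : Set (ℝ × ℝ × ℝ) := Icc (-(A + 1)) (A + 1) ×ˢ (Icc (-1) 1 ×ˢ Icc (-1) 1) with hS
  have hSc : IsCompact S := isCompact_Icc.prod (isCompact_Icc.prod isCompact_Icc)
  have huc := hSc.uniformContinuousOn_of_continuous hΦc.continuousOn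
  rw [Metric.uniformContinuousOn_iff] at huc
  obtain ⟨δ, hδ, hδ'⟩ := huc (ε / (K + 1)) (by positivity)
  refine ⟨min (δ / 2) 1, by positivity, fun z hz => ?_⟩
  have hz1 : |z.2 - z.1| ≤ 1 := hz.trans (min_le_right _ _)
  have hz2 : |z.2 - z.1| ≤ δ / 2 := hz.trans (min_le_left _ _)
  have e1 : Pe V t a z = ∫ u in z.1..z.2, t u * (1 / nrm V u - 1 / √(nrm V z.1 * nrm V z.2)) := by
    unfold Pe g0
    rw [if_pos hz1, (vf_dom hp ht a).ftc z.1 z.2]
    have i1 : IntervalIntegrable (fun u => t u / nrm V u) volume z.1 z.2 :=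
      (qp_cont hp ht).intervalIntegrable _ _
    have i2 : IntervalIntegrable (fun u => t u / √(nrm V z.1 * nrm V z.2)) volume z.1 z.2 :=
      (ht.smooth.continuous.div_const _).intervalIntegrable _ _
    rw [← intervalIntegral.integral_div, ← intervalIntegral.integral_sub i1 i2]
    refine intervalIntegral.integral_congr fun u _ => ?_
    ring
  rw [e1]
  have e2 : ∀ u ∈ uIoc z.1 z.2, ‖t u * (1 / nrm V u - 1 / √(nrm V z.1 * nrm V z.2))‖ ≤ ε := by
    intro u hu
    by_cases htu : t u = 0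
    · rw [htu, zero_mul, norm_zero]
      exact hε.le
    · have hu1 : u ∈ Ioo (-A) A := by
        by_contra hc
        exact htu (hA u hc).1
      have hux : |u - z.1| ≤ |z.2 - z.1| := abs_sub_left_of_mem_uIcc (uIoc_subset_uIcc hu)
      have hux1 := abs_le.mp (hux.trans hz1)
      have hzz := abs_le.mp hz1
      have m1 : ((z.1, z.2 - z.1, u - z.1) : ℝ × ℝ × ℝ) ∈ S :=
        ⟨⟨by linarith [hu1.1, hux1.2], by linarith [hu1.2, hux1.1]⟩, ⟨hzz.1, hzz.2⟩,
          ⟨hux1.1, hux1.2⟩⟩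
      have m2 : ((z.1, 0, 0) : ℝ × ℝ × ℝ) ∈ S :=
        ⟨⟨by linarith [hu1.1, hux1.2], by linarith [hu1.2, hux1.1]⟩, ⟨by norm_num, by norm_num⟩,
          ⟨by norm_num, by norm_num⟩⟩
      have hd : dist ((z.1, z.2 - z.1, u - z.1) : ℝ × ℝ × ℝ) (z.1, 0, 0) < δ := by
        rw [Prod.dist_eq, Prod.dist_eq]
        simp only [dist_self, Real.dist_eq, sub_zero]
        refine max_lt hδ (max_lt ?_ ?_)
        · linarith
        · linarith
      have h1 := hδ' _ m1 _ m2 hd
      have h2 : Φ (z.1, 0, 0) = 0 := by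
        simp only [hΦ, add_zero]
        rw [Real.sqrt_mul_self (hp.pos _).le, sub_self]
      have h3 : Φ (z.1, z.2 - z.1, u - z.1) = 1 / nrm V u - 1 / √(nrm V z.1 * nrm V z.2) := by
        simp only [hΦ, add_sub_cancel]
      rw [Real.dist_eq, h2, sub_zero, h3] at h1
      rw [norm_mul, Real.norm_eq_abs (1 / nrm V u - _)]
      calc ‖t u‖ * |1 / nrm V u - 1 / √(nrm V z.1 * nrm V z.2)|
          ≤ (K + 1) * (ε / (K + 1)) :=
            mul_le_mul ((hK u).trans (by linarith)) h1.le (abs_nonneg _) (by linarith)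
        _ = ε := by
            have : K + 1 ≠ 0 := by positivity
            field_simp
  exact intervalIntegral.norm_integral_le_of_norm_le_const e2

/-- the averaged square of `Pe` -/
private noncomputable def J1 (V t : ℝ → ℝ) (a h : ℝ) : ℝ :=
  ∫ x, Pe V t a (x, x + h) ^ 2 * √(nrm V x * nrm V (x + h))

private theorem ef_J1_meas (hM : MPot H φ β D V) (ht : IsTest t) (a : ℝ) :
    Measurable (J1 V t a) :=
  ef_G_meas (U := fun z => Pe V t a z ^ 2 * √(nrm V z.1 * nrm V z.2))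
    (((ef_Pe_meas hM ht a).pow_const 2).mul (ef_sq_meas hM).measurable)

private theorem ef_J1_le (hM : MPot H φ β D V) (ht : IsTest t) (a : ℝ) {c h : ℝ}
    (hc : ∀ x, |Pe V t a (x, x + h)| ≤ c * |h|) : |J1 V t a h| ≤ c ^ 2 * h ^ 2 := by
  have h1 : ∀ x, |Pe V t a (x, x + h) ^ 2| ≤ c ^ 2 * h ^ 2 := by
    intro x
    rw [abs_of_nonneg (sq_nonneg _), ← sq_abs, ← sq_abs h, ← mul_pow]
    exact pow_le_pow_left₀ (abs_nonneg _) (hc x) 2
  exact (ef_row (F := fun z => Pe V t a z ^ 2) (ef_dens hM) ((ef_Pe_meas hM ht a).pow_const 2)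
    h1).2

theorem mg_meas (hM : MPot H φ β D V) (ht : IsTest t) (v : ℝ≥0) : Measurable (mg D V t v) := by
  have h1 : mg D V t v = fun z => g0 V t z * Real.exp (-mth D v z) := by
    funext z
    exact ef_mg_eq v z
  rw [h1]
  exact (ef_g0_meas hM ht).mul (ef_mth_meas hM v).neg.exp

theorem mg_bdd (hM : MPot H φ β D V) (ht : IsTest t) (v₁ : ℝ≥0) :
    ∃ C : ℝ, ∀ v : ℝ≥0, v ≤ v₁ → ∀ z, |mg D V t v z| ≤ C * |z.2 - z.1| ∧ |mg D V t v z| ≤ C := by
  obtain ⟨A, C, hA, hC, h1, h2⟩ := ef_g0 hM ht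
  obtain ⟨M, hM0, hM1⟩ := ef_mth hM hA
  refine ⟨C * Real.exp (M * (v₁ + 1)), fun v hv z => ?_⟩
  rw [ef_mg_eq, abs_mul, abs_of_pos (Real.exp_pos _)]
  by_cases hz : g0 V t z = 0
  · rw [hz, abs_zero, zero_mul]
    exact ⟨by positivity, by positivity⟩
  · obtain ⟨h3, h4⟩ := h1 z hz
    have h5 := hM1 v z h3 h4
    have e1 : (z.2 - z.1) ^ 2 ≤ 1 := by
      rw [← sq_abs]
      exact pow_le_one₀ (abs_nonneg _) h3
    have hv' : (v : ℝ) ≤ v₁ := hv
    have e2 : M * (v + (z.2 - z.1) ^ 2) ≤ M * (v₁ + 1) :=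
      mul_le_mul_of_nonneg_left (by linarith) hM0.le
    have e3 : Real.exp (-mth D v z) ≤ Real.exp (M * (v₁ + 1)) :=
      Real.exp_le_exp.mpr ((neg_le_abs _).trans (h5.trans e2))
    have e4 : |g0 V t z| * Real.exp (-mth D v z) ≤
        C * |z.2 - z.1| * Real.exp (M * (v₁ + 1)) :=
      mul_le_mul (h2 z) e3 (Real.exp_pos _).le (by positivity)
    constructor
    · calc _ ≤ _ := e4
        _ = _ := by ring
    · refine e4.trans ?_
      have e5 : C * |z.2 - z.1| ≤ C := mul_le_of_le_one_right hC.le h3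
      exact mul_le_mul_of_nonneg_right e5 (Real.exp_pos _).le

private theorem ef_e10 {v w : ℝ} (hw0 : 0 ≤ w) :
    w * (v + w) ^ 2 ≤ 2 * (w ^ 2 + w ^ 3 + v ^ 4) := by
  have f1 : (v + w) ^ 2 ≤ 2 * (v ^ 2 + w ^ 2) := by nlinarith [sq_nonneg (v - w)]
  have f2 : w * v ^ 2 ≤ w ^ 2 + v ^ 4 := by
    nlinarith [sq_nonneg (w - v ^ 2), sq_nonneg w, sq_nonneg (v ^ 2)]
  have f3 := mul_le_mul_of_nonneg_left f1 hw0
  calc w * (v + w) ^ 2 ≤ w * (2 * (v ^ 2 + w ^ 2)) := f3
    _ = 2 * (w * v ^ 2) + 2 * w ^ 3 := by ring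
    _ ≤ 2 * (w ^ 2 + v ^ 4) + 2 * w ^ 3 := by linarith
    _ = _ := by ring

/-- the second error -/
private theorem ef_key {A C0 M : ℝ} (hg1 : ∀ z, g0 V t z ≠ 0 → |z.2 - z.1| ≤ 1 ∧ |z.1| ≤ A)
    (hg2 : ∀ z, |g0 V t z| ≤ C0 * |z.2 - z.1|)
    (hM1 : ∀ (v : ℝ≥0) (z : ℝ × ℝ), |z.2 - z.1| ≤ 1 → |z.1| ≤ A →
      |mth D v z| ≤ M * (v + (z.2 - z.1) ^ 2)) (hM0 : 0 < M) (hC0' : 0 < C0) :
    ∀ v : ℝ≥0, v ≤ 1 → ∀ z : ℝ × ℝ,
      (g0 V t z * (Real.exp (-mth D v z) - 1)) ^ 2 ≤
        C0 ^ 2 * (2 * M ^ 2 * Real.exp (2 * M) ^ 2) *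
          ((z.2 - z.1) ^ 4 + (z.2 - z.1) ^ 6 + (v : ℝ) ^ 4) := by
  intro v hv z
  have hv' : (v : ℝ) ≤ 1 := hv
  have hv0 : (0 : ℝ) ≤ v := v.coe_nonneg
  by_cases hz : g0 V t z = 0
  · rw [hz, zero_mul, zero_pow (by norm_num)]
    positivity
  · obtain ⟨h3, h4⟩ := hg1 z hz
    have h5 := hM1 v z h3 h4
    have e1 : (z.2 - z.1) ^ 2 ≤ 1 := by
      rw [← sq_abs]
      exact pow_le_one₀ (abs_nonneg _) h3
    have e2 : |mth D v z| ≤ 2 * M := by
      refine h5.trans ?_
      calc M * (v + (z.2 - z.1) ^ 2) ≤ M * (1 + 1) :=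
            mul_le_mul_of_nonneg_left (add_le_add hv' e1) hM0.le
        _ = 2 * M := by ring
    have e3 := ef_exp (-mth D v z)
    rw [abs_neg] at e3
    have e4 : |Real.exp (-mth D v z) - 1| ≤ M * (v + (z.2 - z.1) ^ 2) * Real.exp (2 * M) :=
      e3.trans (mul_le_mul h5 (Real.exp_le_exp.mpr e2) (Real.exp_pos _).le (by positivity))
    have e5 : |g0 V t z * (Real.exp (-mth D v z) - 1)| ≤
        C0 * |z.2 - z.1| * (M * (v + (z.2 - z.1) ^ 2) * Real.exp (2 * M)) := by
      rw [abs_mul]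
      exact mul_le_mul (hg2 z) e4 (abs_nonneg _) (by positivity)
    rw [← sq_abs]
    refine (pow_le_pow_left₀ (abs_nonneg _) e5 2).trans ?_
    have e6 : |z.2 - z.1| ^ 2 = (z.2 - z.1) ^ 2 := sq_abs _
    have e7 : (z.2 - z.1) ^ 4 = ((z.2 - z.1) ^ 2) ^ 2 := by ring
    have e8 : (z.2 - z.1) ^ 6 = ((z.2 - z.1) ^ 2) ^ 3 := by ring
    rw [e7, e8]
    generalize (z.2 - z.1) ^ 2 = w at e6 e1 ⊢
    have hw0 : 0 ≤ w := by rw [← e6]; positivity
    have e9 : (C0 * |z.2 - z.1| * (M * (v + w) * Real.exp (2 * M))) ^ 2 =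
        C0 ^ 2 * (M ^ 2 * Real.exp (2 * M) ^ 2) * (w * (v + w) ^ 2) := by
      rw [← e6]
      ring
    rw [e9]
    have e10 := ef_e10 (v := (v : ℝ)) hw0
    have e11 : 0 ≤ C0 ^ 2 * (M ^ 2 * Real.exp (2 * M) ^ 2) := by positivity
    calc _ ≤ C0 ^ 2 * (M ^ 2 * Real.exp (2 * M) ^ 2) * (2 * (w ^ 2 + w ^ 3 + (v : ℝ) ^ 4)) :=
          mul_le_mul_of_nonneg_left e10 e11
      _ = _ := by ring

theorem mg_close (hM : MPot H φ β D V) (hH : 0 < H) (hH1 : H < 1) (hl : 0 < l) (ht : IsTest t)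
    (a : ℝ) :
    Tendsto (fun n => (tauH (2 + H) n)⁻¹ *
      ∫ z, (vf (nrm V) t a z.2 - vf (nrm V) t a z.1 - mg D V t (vH l (2 + H) n) z) ^ 2
        ∂(sm (nrm V) (mq D (vH l (2 + H) n)))) atTop (𝓝 0) := by
  have hp := ef_dens hM
  have ha : 0 < 2 + H := by linarith
  obtain ⟨C, hC⟩ := mg_bdd hM ht 1
  have hC0 : 0 ≤ C := (abs_nonneg _).trans (hC 1 le_rfl 0).2
  obtain ⟨B, hB⟩ := vf_bdd hp ht a
  have hB0 : 0 ≤ B := (abs_nonneg _).trans (hB 0)
  obtain ⟨K, hK0, hK⟩ := ef_Pe_le hM ht a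
  obtain ⟨A, C0, hA, hC0', hg1, hg2⟩ := ef_g0 hM ht
  obtain ⟨M, hM0, hM1⟩ := ef_mth hM hA
  set E : ℝ := C0 ^ 2 * (2 * M ^ 2 * Real.exp (2 * M) ^ 2) with hE
  have hE0 : 0 ≤ E := by positivity
  have hv1 : ∀ᶠ n in atTop, vH l (2 + H) n < 1 := (vH_lim hl ha).eventually_lt_const one_pos
  have key := ef_key hg1 hg2 hM1 hM0 hC0'
  -- apply the averaging principle
  refine ef_lim hM hH hH1 hl
    (F := fun n z => (vf (nrm V) t a z.2 - vf (nrm V) t a z.1
      - mg D V t (vH l (2 + H) n) z) ^ 2)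
    (J := fun h => 2 * J1 V t a h + 2 * E * (h ^ 4 + h ^ 6))
    (C := 2 * K ^ 2 + 4 * E) (B := (2 * B + C) ^ 2)
    (e := fun n => 2 * E * (vH l (2 + H) n : ℝ) ^ 4)
    (fun n => ?_) (fun n z => sq_nonneg _) ?_ ?_ (fun z => ?_) (fun ε hε => ?_) ?_ ?_
  · have h1 := (vf_cont hp ht a).measurable
    exact ((((h1.comp measurable_snd).sub (h1.comp measurable_fst)).sub
      (mg_meas hM ht _))).pow_const 2
  · filter_upwards [hv1] with n hn z
    rw [← sq_abs]
    refine pow_le_pow_left₀ (abs_nonneg _) ?_ 2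
    have h1 := (hC _ hn.le z).2
    have h2 := hB z.1
    have h3 := hB z.2
    refine (abs_sub _ _).trans ?_
    have h4 := abs_sub (vf (nrm V) t a z.2) (vf (nrm V) t a z.1)
    linarith
  · exact ((ef_J1_meas hM ht a).const_mul 2).add
      (((measurable_id.pow_const 4).add (measurable_id.pow_const 6)).const_mul (2 * E))
  · have h1 := ef_J1_le hM ht a (c := K) (h := z) (fun x => by
      have := hK (x, x + z)
      simpa using this)
    have h2 : |2 * J1 V t a z + 2 * E * (z ^ 4 + z ^ 6)| ≤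
        2 * |J1 V t a z| + 2 * E * (z ^ 4 + z ^ 6) := by
      refine (abs_add_le _ _).trans ?_
      rw [abs_mul, abs_of_nonneg (by norm_num : (0 : ℝ) ≤ 2),
        abs_of_nonneg (by positivity : 0 ≤ 2 * E * (z ^ 4 + z ^ 6))]
    refine h2.trans ?_
    have h3 : 0 ≤ z ^ 2 := sq_nonneg z
    have h4 : 0 ≤ z ^ 4 := by positivity
    have h5 : 0 ≤ z ^ 6 := by positivity
    have h6 : z ^ 4 ≤ z ^ 2 + z ^ 6 := by
      have e1 : z ^ 4 = z ^ 2 * z ^ 2 := by ring
      have e2 : z ^ 6 = z ^ 2 * (z ^ 2) ^ 2 := by ring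
      rw [e1, e2]
      nlinarith [sq_nonneg (z ^ 2 - 1), mul_nonneg h3 (sq_nonneg (z ^ 2 - 1))]
    have h7 : 0 ≤ K ^ 2 * z ^ 6 := by positivity
    have h8 : (2 * K ^ 2 + 4 * E) * z ^ 2 * (1 + z ^ 4) =
        2 * (K ^ 2 * z ^ 2) + 2 * (K ^ 2 * z ^ 6) + 4 * (E * (z ^ 2 + z ^ 6)) := by ring
    rw [h8]
    have h9 : E * (z ^ 4 + z ^ 6) ≤ 2 * (E * (z ^ 2 + z ^ 6)) := by
      have := mul_le_mul_of_nonneg_left h6 hE0
      have h10 : 0 ≤ E * z ^ 2 := by positivity
      nlinarith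
    linarith
  · obtain ⟨δ, hδ, hδ'⟩ := ef_Pe_small hM ht a (ε := √(ε / 4)) (by positivity)
    obtain ⟨δ2, hδ2, hδ2'⟩ : ∃ δ2 : ℝ, 0 < δ2 ∧ 4 * E * δ2 ^ 2 ≤ ε / 2 ∧ δ2 ≤ 1 := by
      refine ⟨min 1 (√(ε / (8 * E + 8))), by positivity, ?_, min_le_left _ _⟩
      have h1 : (min 1 (√(ε / (8 * E + 8)))) ^ 2 ≤ ε / (8 * E + 8) := by
        have h2 := pow_le_pow_left₀ (by positivity) (min_le_right 1 (√(ε / (8 * E + 8)))) 2
        rwa [Real.sq_sqrt (by positivity)] at h2
      calc 4 * E * (min 1 (√(ε / (8 * E + 8)))) ^ 2 ≤ 4 * E * (ε / (8 * E + 8)) :=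
            mul_le_mul_of_nonneg_left h1 (by positivity)
        _ ≤ ε / 2 := by
            rw [mul_div_assoc', div_le_div_iff₀ (by positivity) (by norm_num)]
            nlinarith
    refine ⟨min δ δ2, by positivity, fun z hz => ?_⟩
    have hz1 := hz.trans (min_le_left _ _)
    have hz2 := hz.trans (min_le_right _ _)
    have h1 := ef_J1_le hM ht a (c := √(ε / 4)) (h := z) (fun x => by
      have := hδ' (x, x + z) (by simpa using hz1)
      simpa using this)
    rw [Real.sq_sqrt (by positivity)] at h1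
    have h2 : |2 * J1 V t a z + 2 * E * (z ^ 4 + z ^ 6)| ≤
        2 * |J1 V t a z| + 2 * E * (z ^ 4 + z ^ 6) := by
      refine (abs_add_le _ _).trans ?_
      rw [abs_mul, abs_of_nonneg (by norm_num : (0 : ℝ) ≤ 2),
        abs_of_nonneg (by positivity : 0 ≤ 2 * E * (z ^ 4 + z ^ 6))]
    refine h2.trans ?_
    have h3 : z ^ 2 ≤ δ2 ^ 2 := by
      rw [← sq_abs]
      exact pow_le_pow_left₀ (abs_nonneg _) hz2 2
    have h4 : z ^ 2 ≤ 1 := h3.trans (pow_le_one₀ hδ2.le hδ2'.2)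
    have h5 : 0 ≤ z ^ 2 := sq_nonneg z
    have h6 : 2 * E * (z ^ 4 + z ^ 6) ≤ ε / 2 * z ^ 2 := by
      have e1 : z ^ 4 = z ^ 2 * z ^ 2 := by ring
      have e2 : z ^ 6 = z ^ 2 * z ^ 2 * z ^ 2 := by ring
      have e3 : z ^ 6 ≤ z ^ 4 := by
        rw [e1, e2]
        exact mul_le_of_le_one_right (by positivity) h4
      calc 2 * E * (z ^ 4 + z ^ 6) ≤ 2 * E * (z ^ 4 + z ^ 4) := by gcongr
        _ = 4 * E * z ^ 2 * z ^ 2 := by ring
        _ ≤ 4 * E * δ2 ^ 2 * z ^ 2 := by gcongr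
        _ ≤ ε / 2 * z ^ 2 := mul_le_mul_of_nonneg_right hδ2'.1 h5
    linarith
  · have h1 : ∀ n, (tauH (2 + H) n)⁻¹ * (2 * E * (vH l (2 + H) n : ℝ) ^ 4) =
        2 * E * l ^ 2 * (vH l (2 + H) n : ℝ) ^ 3 := by
      intro n
      have h2 := (tauH_pos (2 + H) n).ne'
      have h3 : (vH l (2 + H) n : ℝ) ^ 4 =
          (vH l (2 + H) n : ℝ) ^ 3 * (l ^ 2 * tauH (2 + H) n) := by
        rw [← vH_coe]
        ring
      rw [h3]
      field_simp
    simp_rw [h1]
    have h4 : Tendsto (fun n => (vH l (2 + H) n : ℝ)) atTop (𝓝 0) := by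
      have := (NNReal.continuous_coe.tendsto 0).comp (vH_lim (l := l) hl ha)
      rwa [NNReal.coe_zero] at this
    have h5 := (h4.pow 3).const_mul (2 * E * l ^ 2)
    simpa using h5
  · filter_upwards [hv1] with n hn h
    set v := vH l (2 + H) n with hv
    have p1 : ∀ x, (vf (nrm V) t a (x + h) - vf (nrm V) t a x - mg D V t v (x, x + h)) ^ 2 *
        √(nrm V x * nrm V (x + h)) ≤
        2 * (Pe V t a (x, x + h) ^ 2 * √(nrm V x * nrm V (x + h))) +
          2 * E * (h ^ 4 + h ^ 6 + (v : ℝ) ^ 4) * √(nrm V x * nrm V (x + h)) := by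
      intro x
      have h1 := key v hn.le (x, x + h)
      simp only [add_sub_cancel_left] at h1
      have h2 : vf (nrm V) t a (x + h) - vf (nrm V) t a x - mg D V t v (x, x + h) =
          Pe V t a (x, x + h) - g0 V t (x, x + h) * (Real.exp (-mth D v (x, x + h)) - 1) := by
        rw [ef_mg_eq]
        unfold Pe
        ring
      rw [h2]
      have h3 : (Pe V t a (x, x + h) -
          g0 V t (x, x + h) * (Real.exp (-mth D v (x, x + h)) - 1)) ^ 2 ≤
          2 * Pe V t a (x, x + h) ^ 2 + 2 * E * (h ^ 4 + h ^ 6 + (v : ℝ) ^ 4) := by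
        nlinarith [sq_nonneg (Pe V t a (x, x + h) +
          g0 V t (x, x + h) * (Real.exp (-mth D v (x, x + h)) - 1))]
      have h4 := mul_le_mul_of_nonneg_right h3 (Real.sqrt_nonneg (nrm V x * nrm V (x + h)))
      refine h4.trans (le_of_eq ?_)
      ring
    obtain ⟨i1, i2⟩ := ef_one hp h
    have r1 := ef_row (F := fun z => Pe V t a z ^ 2) (h := h) hp
      ((ef_Pe_meas hM ht a).pow_const 2) (B := (K * |h|) ^ 2) (fun x => by
        rw [abs_of_nonneg (sq_nonneg _), ← sq_abs]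
        have := hK (x, x + h)
        simp only [add_sub_cancel_left] at this
        exact pow_le_pow_left₀ (abs_nonneg _) this 2)
    have r2 := ef_row (F := fun z => (vf (nrm V) t a z.2 - vf (nrm V) t a z.1
      - mg D V t v z) ^ 2) (h := h) hp (by
        have h1 := (vf_cont hp ht a).measurable
        exact ((((h1.comp measurable_snd).sub (h1.comp measurable_fst)).sub
          (mg_meas hM ht _))).pow_const 2) (B := (2 * B + C) ^ 2) (fun x => by
        rw [abs_of_nonneg (sq_nonneg _), ← sq_abs]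
        refine pow_le_pow_left₀ (abs_nonneg _) ?_ 2
        have h1 := (hC _ hn.le (x, x + h)).2
        have h2 := hB x
        have h3 := hB (x + h)
        refine (abs_sub _ _).trans ?_
        have h4 := abs_sub (vf (nrm V) t a (x + h)) (vf (nrm V) t a x)
        simp only
        linarith)
    have hi : Integrable fun x => 2 * (Pe V t a (x, x + h) ^ 2 * √(nrm V x * nrm V (x + h))) +
        2 * E * (h ^ 4 + h ^ 6 + (v : ℝ) ^ 4) * √(nrm V x * nrm V (x + h)) :=
      (r1.1.const_mul 2).add (i1.const_mul (2 * E * (h ^ 4 + h ^ 6 + (v : ℝ) ^ 4)))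
    refine (integral_mono r2.1 hi p1).trans ?_
    rw [integral_add (r1.1.const_mul 2) (i1.const_mul _), integral_const_mul,
      integral_const_mul]
    have e2 : 2 * E * (h ^ 4 + h ^ 6 + (v : ℝ) ^ 4) * ∫ x, √(nrm V x * nrm V (x + h)) ≤
        2 * E * (h ^ 4 + h ^ 6 + (v : ℝ) ^ 4) := mul_le_of_le_one_right (by positivity) i2
    unfold J1
    linarith

theorem mg_tail (hM : MPot H φ β D V) (hH : 0 < H) (hH1 : H < 1) (hl : 0 < l) (ht : IsTest t) :
    Tendsto (fun n => (tauH (2 + H) n)⁻¹ *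
      ∫ z in {z | 1 < |Rf (nrm V) (mq D (vH l (2 + H) n)) z|}, |mg D V t (vH l (2 + H) n) z|
        ∂(sm (nrm V) (mq D (vH l (2 + H) n)))) atTop (𝓝 0) := by
  have hp := ef_dens hM
  have ha : 0 < 2 + H := by linarith
  obtain ⟨C, hC⟩ := mg_bdd hM ht 1
  have hC0 : 0 ≤ C := (abs_nonneg _).trans (hC 1 le_rfl 0).2
  obtain ⟨A, C0, hA, hC0', hg1, hg2⟩ := ef_g0 hM ht
  obtain ⟨k, hk⟩ := kf_abs hM
  obtain ⟨r, hr0, hr⟩ := rho_le hM
  have hv1 : ∀ᶠ n in atTop, vH l (2 + H) n < 1 := (vH_lim hl ha).eventually_lt_const one_pos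
  set L : ℝ := |k| + √(r * (2 + A ^ 2)) + 1 with hL
  have hL0 : 0 < L := by positivity
  have hR : ∀ v : ℝ≥0, 0 < v → v ≤ 1 → ∀ z : ℝ × ℝ, |z.2 - z.1| ≤ 1 → |z.1| ≤ A →
      |Rf (nrm V) (mq D v) z| ≤ L * |z.2 - z.1| := by
    intro v hv hv1 z h1 h2
    have hv' : (v : ℝ) ≤ 1 := hv1
    have hv0 : (0 : ℝ) ≤ v := v.coe_nonneg
    rw [Rf_m hM hv]
    have e1 : (z.2 - z.1) ^ 2 ≤ |z.2 - z.1| := by
      rw [← sq_abs, sq]
      exact mul_le_of_le_one_left (abs_nonneg _) h1
    have e2 : |Kf β z| ≤ |k| * |z.2 - z.1| := by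
      refine (hk z).trans ?_
      calc k * (z.2 - z.1) ^ 2 ≤ |k| * (z.2 - z.1) ^ 2 :=
            mul_le_mul_of_nonneg_right (le_abs_self k) (sq_nonneg _)
        _ ≤ |k| * |z.2 - z.1| := mul_le_mul_of_nonneg_left e1 (abs_nonneg _)
    have e3 : rho D v z ^ 2 ≤ r * (2 + A ^ 2) * (z.2 - z.1) ^ 2 := by
      refine (hr v z).trans ?_
      have f1 : (z.2 - z.1) ^ 2 ≤ 1 := by
        rw [← sq_abs]
        exact pow_le_one₀ (abs_nonneg _) h1
      have f2 : z.1 ^ 2 ≤ A ^ 2 := by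
        rw [← sq_abs]
        exact pow_le_pow_left₀ (abs_nonneg _) h2 2
      have f3 : (v : ℝ) ^ 2 ≤ 1 := pow_le_one₀ hv0 hv'
      have f4 : (v : ℝ) ^ 2 * (z.2 - z.1) ^ 2 ≤ (z.2 - z.1) ^ 2 :=
        mul_le_of_le_one_left (sq_nonneg _) f3
      have f5 : (v : ℝ) ^ 2 * (z.2 - z.1) ^ 2 * (1 + z.1 ^ 2 + (z.2 - z.1) ^ 2) ≤
          (z.2 - z.1) ^ 2 * (2 + A ^ 2) :=
        mul_le_mul f4 (by linarith) (by positivity) (sq_nonneg _)
      calc _ ≤ r * ((z.2 - z.1) ^ 2 * (2 + A ^ 2)) := mul_le_mul_of_nonneg_left f5 hr0.le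
        _ = _ := by ring
    have e4 : |rho D v z| ≤ √(r * (2 + A ^ 2)) * |z.2 - z.1| := by
      have := Real.abs_le_sqrt e3
      rwa [Real.sqrt_mul (by positivity), Real.sqrt_sq_eq_abs] at this
    refine (abs_sub _ _).trans ?_
    have e5 := abs_nonneg (z.2 - z.1)
    rw [hL]
    nlinarith
  have hRm : ∀ n, MeasurableSet {z | 1 < |Rf (nrm V) (mq D (vH l (2 + H) n)) z|} := fun n =>
    measurableSet_lt measurable_const (Rf_meas hp (mq_prop hM (vH_pos hl _ n))).abs
  have hlim := ef_lim hM hH hH1 hl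
    (F := fun n => {z | 1 < |Rf (nrm V) (mq D (vH l (2 + H) n)) z|}.indicator
      fun z => |mg D V t (vH l (2 + H) n) z|)
    (J := fun h => if |h| < 1 / L then 0 else C * L ^ 2 * h ^ 2)
    (C := C * L ^ 2) (B := C) (e := fun _ => 0)
    (fun n => (mg_meas hM ht _).abs.indicator (hRm n))
    (fun n z => indicator_nonneg (fun z _ => abs_nonneg _) z)
    (by
      filter_upwards [hv1] with n hn z
      refine (indicator_le_self' (fun _ _ => abs_nonneg _) z).trans ?_
      exact (hC _ hn.le z).2)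
    (Measurable.ite (measurableSet_lt continuous_abs.measurable measurable_const)
      measurable_const ((measurable_id.pow_const 2).const_mul _))
    (fun z => by
      have h1 : 0 ≤ C * L ^ 2 * z ^ 2 := by positivity
      have h2 : 0 ≤ C * L ^ 2 * z ^ 2 * z ^ 4 := by positivity
      split_ifs
      · rw [abs_zero]
        positivity
      · rw [abs_of_nonneg h1]
        linarith)
    (fun ε hε => by
      refine ⟨1 / L / 2, by positivity, fun z hz => ?_⟩
      have h1 : |z| < 1 / L := by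
        have : 0 < 1 / L := by positivity
        linarith
      rw [if_pos h1, abs_zero]
      positivity)
    (by simp)
    (by
      filter_upwards [hv1] with n hn h
      rw [add_zero]
      split_ifs with hh
      · have h0 : ∀ x, {z | 1 < |Rf (nrm V) (mq D (vH l (2 + H) n)) z|}.indicator
            (fun z => |mg D V t (vH l (2 + H) n) z|) (x, x + h) *
            √(nrm V x * nrm V (x + h)) = 0 := by
          intro x
          by_cases hx : 1 < |Rf (nrm V) (mq D (vH l (2 + H) n)) (x, x + h)|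
          · have hg : g0 V t (x, x + h) = 0 := by
              by_contra hne
              obtain ⟨h3, h4⟩ := hg1 _ hne
              have h5 := hR _ (vH_pos hl _ n) hn.le _ h3 h4
              simp only [add_sub_cancel_left] at h5
              have h6 : L * |h| < 1 := by
                rw [lt_div_iff₀ hL0] at hh
                linarith
              linarith
            have h7 : mg D V t (vH l (2 + H) n) (x, x + h) = 0 := by
              rw [ef_mg_eq, hg, zero_mul]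
            have h8 : {z | 1 < |Rf (nrm V) (mq D (vH l (2 + H) n)) z|}.indicator
                (fun z => |mg D V t (vH l (2 + H) n) z|) (x, x + h) = 0 := by
              rw [indicator_of_mem (show (x, x + h) ∈
                {z | 1 < |Rf (nrm V) (mq D (vH l (2 + H) n)) z|} from hx), h7, abs_zero]
            rw [h8, zero_mul]
          · rw [indicator_of_notMem (show (x, x + h) ∉
              {z | 1 < |Rf (nrm V) (mq D (vH l (2 + H) n)) z|} from hx), zero_mul]
        simp_rw [h0]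
        rw [integral_zero]
      · have h1 := (ef_row (F := {z | 1 < |Rf (nrm V) (mq D (vH l (2 + H) n)) z|}.indicator
          fun z => |mg D V t (vH l (2 + H) n) z|) (h := h) hp
          ((mg_meas hM ht _).abs.indicator (hRm n)) (B := C) (fun x => by
            rw [abs_of_nonneg (indicator_nonneg (fun z _ => abs_nonneg _) _)]
            refine (indicator_le_self' (fun _ _ => abs_nonneg _) _).trans ?_
            exact (hC _ hn.le _).2)).2
        refine (le_abs_self _).trans (h1.trans ?_)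
        have h2 : 1 ≤ (L * |h|) ^ 2 := by
          rw [not_lt, div_le_iff₀ hL0] at hh
          exact one_le_pow₀ (by linarith)
        rw [mul_pow, sq_abs] at h2
        calc C = C * 1 := (mul_one C).symm
          _ ≤ C * (L ^ 2 * h ^ 2) := mul_le_mul_of_nonneg_left h2 hC0
          _ = _ := by ring)
  refine hlim.congr fun n => ?_
  rw [integral_indicator (hRm n)]

theorem mg_pair (hM : MPot H φ β D V) (ht : IsTest t) {v : ℝ≥0} (hv : 0 < v) {w : ℝ → ℝ}
    (hw : Measurable w) (hw1 : ∀ x, |w x| ≤ 1) :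
    ∫ z, mg D V t v z * (w z.2 - w z.1) ∂(sm (nrm V) (mq D v))
      = -2 * (Zf (nrm V) (mq D v))⁻¹ * ∫ x, w x *
        ∫ z in {z : ℝ | |z| ≤ 1}, (∫ u in x..(x + z), t u) ∂(gaussianReal 0 v) := by
  obtain ⟨C, hC⟩ := mg_bdd hM ht v
  obtain ⟨A, hA0, hA⟩ := CGenAux.exists_supp ht
  have hc := ht.smooth.continuous
  obtain ⟨K, hK'⟩ := hc.bounded_above_of_compact_support ht.supp
  have hK0 : 0 ≤ K := (norm_nonneg _).trans (hK' 0)
  have hC0 : 0 ≤ C := (abs_nonneg _).trans (hC v le_rfl 0).2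
  have hp := ef_dens hM
  have hq := mq_prop hM hv
  set Q : ℝ → ℝ → ℝ := fun h x => ∫ u in x..(x + h), t u with hQ
  have hQc : Continuous fun z : ℝ × ℝ => Q z.1 z.2 := CGenAux.prim_cont ht
  have hQx : ∀ h, Continuous fun x => Q h x := fun h =>
    hQc.comp (continuous_const.prodMk continuous_id)
  have hQb : ∀ h x, |Q h x| ≤ K * |h| := by
    intro h x
    have := intervalIntegral.norm_integral_le_of_norm_le_const (a := x) (b := x + h) (f := t)
      (C := K) (fun u _ => hK' u)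
    rw [Real.norm_eq_abs, add_sub_cancel_left] at this
    exact this
  have hQ0 : ∀ h x, |h| ≤ 1 → x ∉ Icc (-(A + 1)) (A + 1) → Q h x = 0 := fun h x hh hx =>
    CGenAux.prim_zero hA hh hx
  have hQn : ∀ h x, Q h (x - h) = - Q (-h) x := by
    intro h x
    simp only [hQ]
    rw [sub_add_cancel, ← sub_eq_add_neg, intervalIntegral.integral_symm]
  set γ := gaussianReal 0 v with hγ
  set U : ℝ × ℝ → ℝ := fun z =>
    if |z.2 - z.1| ≤ 1 then (∫ u in z.1..z.2, t u) * (w z.2 - w z.1) else 0 with hU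
  -- the density cancels
  have hcan : ∀ z : ℝ × ℝ, mg D V t v z * (w z.2 - w z.1) * sdn (nrm V) (mq D v) z =
      U z * gaussianPDFReal 0 v (z.2 - z.1) := by
    intro z
    rw [sdn_m hM hv]
    simp only [hU, mg]
    have hs : √(nrm V z.1 * nrm V z.2) ≠ 0 :=
      (Real.sqrt_pos.mpr (mul_pos (hp.pos _) (hp.pos _))).ne'
    split_ifs
    · rw [Real.exp_neg]
      have he := (Real.exp_pos (mth D v z)).ne'
      field_simp
    · ring
  have hFm : Measurable fun z : ℝ × ℝ => mg D V t v z * (w z.2 - w z.1) :=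
    (mg_meas hM ht v).mul ((hw.comp measurable_snd).sub (hw.comp measurable_fst))
  have hFb : ∀ z : ℝ × ℝ, ‖mg D V t v z * (w z.2 - w z.1)‖ ≤ C * 2 := by
    intro z
    rw [Real.norm_eq_abs, abs_mul]
    refine mul_le_mul (hC v le_rfl z).2 ?_ (abs_nonneg _) hC0
    have := abs_sub (w z.2) (w z.1)
    have h1 := hw1 z.2
    have h2 := hw1 z.1
    linarith
  have hI : Integrable fun z : ℝ × ℝ => U z * gaussianPDFReal 0 v (z.2 - z.1) := by
    refine ((sdn_integrable hp hq).bdd_mul (c := C * 2) hFm.aestronglyMeasurable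
      (Eventually.of_forall fun z => hFb z)).congr (Eventually.of_forall fun z => ?_)
    exact hcan z
  rw [integral_sm hp hq]
  simp_rw [hcan]
  rw [ef_fub hv hI]
  set G : ℝ → ℝ → ℝ := fun h x => if |h| ≤ 1 then w x * Q h x else 0 with hG
  set B : ℝ → ℝ := fun h => ∫ x, G h x with hB
  have hSm : MeasurableSet {z : ℝ × ℝ | |z.1| ≤ 1} :=
    measurableSet_le (continuous_abs.measurable.comp measurable_fst) measurable_const
  have hGm : Measurable fun z : ℝ × ℝ => G z.1 z.2 :=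
    Measurable.ite hSm ((hw.comp measurable_snd).mul hQc.measurable) measurable_const
  have hGb : ∀ h x, |G h x| ≤ K := by
    intro h x
    simp only [hG]
    split_ifs with hh
    · rw [abs_mul]
      calc |w x| * |Q h x| ≤ 1 * (K * |h|) :=
            mul_le_mul (hw1 x) (hQb h x) (abs_nonneg _) zero_le_one
        _ ≤ K := by
            rw [one_mul]
            exact mul_le_of_le_one_right hK0 hh
    · rw [abs_zero]
      exact hK0
  have hG0 : ∀ h x, x ∉ Icc (-(A + 1)) (A + 1) → G h x = 0 := by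
    intro h x hx
    simp only [hG]
    split_ifs with hh
    · rw [hQ0 h x hh hx, mul_zero]
    · rfl
  have hGi : Integrable (Function.uncurry G) (γ.prod (volume : Measure ℝ)) := by
    have h1 : Integrable (fun x : ℝ => (Icc (-(A + 1)) (A + 1)).indicator (fun _ => K) x)
        volume := by
      rw [integrable_indicator_iff measurableSet_Icc]
      exact integrableOn_const (by rw [Real.volume_Icc]; exact ENNReal.ofReal_ne_top)
    refine (h1.comp_snd γ).mono' hGm.aestronglyMeasurable (Eventually.of_forall fun z => ?_)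
    rw [Real.norm_eq_abs]
    show |G z.1 z.2| ≤ (Icc (-(A + 1)) (A + 1)).indicator (fun _ => K) z.2
    by_cases hz : z.2 ∈ Icc (-(A + 1)) (A + 1)
    · rw [indicator_of_mem hz]
      exact hGb _ _
    · rw [indicator_of_notMem hz, hG0 _ _ hz, abs_zero]
  have hBi : Integrable B γ := hGi.integral_prod_left
  have hmp : MeasurePreserving (fun x : ℝ => -x) γ γ := by
    refine ⟨measurable_neg, ?_⟩
    rw [hγ, gaussianReal_map_neg, neg_zero]
  have hBneg : ∫ h, B (-h) ∂γ = ∫ h, B h ∂γ :=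
    hmp.integral_comp (MeasurableEquiv.neg ℝ).measurableEmbedding B
  have hBni : Integrable (fun h => B (-h)) γ :=
    (hmp.integrable_comp_emb (MeasurableEquiv.neg ℝ).measurableEmbedding).mpr hBi
  have hcs : ∀ h, |h| ≤ 1 → HasCompactSupport fun x => Q h x := fun h hh =>
    HasCompactSupport.intro (isCompact_Icc (a := -(A + 1)) (b := A + 1)) fun x hx => hQ0 h x hh hx
  have hwQi : ∀ h, |h| ≤ 1 → Integrable fun x => w x * Q h x := by
    intro h hh
    refine Integrable.bdd_mul (c := 1) ((hQx h).integrable_of_hasCompactSupport (hcs h hh))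
      hw.aestronglyMeasurable (Eventually.of_forall fun x => ?_)
    rw [Real.norm_eq_abs]
    exact hw1 x
  have hin : ∀ h, ∫ x, U (x, x + h) = -(B h + B (-h)) := by
    intro h
    by_cases hh : |h| ≤ 1
    · have hh' : |-h| ≤ 1 := by rwa [abs_neg]
      have e1 : ∀ x, U (x, x + h) = w (x + h) * Q h x - w x * Q h x := by
        intro x
        simp only [hU, hQ]
        rw [if_pos (by rwa [add_sub_cancel_left])]
        ring
      have e2 : ∫ x, w (x + h) * Q h x = ∫ x, w x * Q h (x - h) := by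
        have := integral_add_right_eq_self (μ := (volume : Measure ℝ))
          (fun x => w x * Q h (x - h)) h
        simp only [add_sub_cancel_right] at this
        exact this
      have e3 : Integrable fun x => w (x + h) * Q h x := by
        refine Integrable.bdd_mul (c := 1) ((hQx h).integrable_of_hasCompactSupport (hcs h hh))
          (hw.comp (measurable_add_const h)).aestronglyMeasurable (Eventually.of_forall fun x => ?_)
        rw [Real.norm_eq_abs]
        exact hw1 _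
      simp_rw [e1]
      rw [integral_sub e3 (hwQi h hh), e2]
      have e4 : ∫ x, w x * Q h (x - h) = - B (-h) := by
        simp only [hB, hG]
        rw [← integral_neg]
        refine integral_congr_ae (Eventually.of_forall fun x => ?_)
        simp only
        rw [if_pos hh', hQn]
        ring
      have e5 : ∫ x, w x * Q h x = B h := by
        simp only [hB, hG]
        refine integral_congr_ae (Eventually.of_forall fun x => ?_)
        simp only
        rw [if_pos hh]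
      rw [e4, e5]
      ring
    · have hh' : ¬ |-h| ≤ 1 := by rwa [abs_neg]
      have e1 : ∀ x, U (x, x + h) = 0 := by
        intro x
        simp only [hU]
        rw [if_neg (by rwa [add_sub_cancel_left])]
      simp_rw [e1]
      have e2 : B h = 0 := by
        simp only [hB, hG, if_neg hh, integral_zero]
      have e3 : B (-h) = 0 := by
        simp only [hB, hG, if_neg hh', integral_zero]
      rw [e2, e3, integral_zero]
      ring
  simp_rw [hin]
  rw [integral_neg, integral_add hBi hBni, hBneg]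
  have hsw : ∫ h, B h ∂γ = ∫ x, w x *
        ∫ z in {z : ℝ | |z| ≤ 1}, (∫ u in x..(x + z), t u) ∂γ := by
    rw [hB, integral_integral_swap hGi]
    refine integral_congr_ae (Eventually.of_forall fun x => ?_)
    simp only
    rw [← integral_indicator CGenAux.measS, ← integral_const_mul]
    refine integral_congr_ae (Eventually.of_forall fun h => ?_)
    simp only [hG, indicator, mem_ofPred_eq]
    by_cases hh : |h| ≤ 1
    · simp only [hh, if_true]
      rfl
    · simp only [hh, if_false, mul_zero]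
  rw [hsw]
  ring

theorem mg_gen (hM : MPot H φ β D V) (hH : 0 < H) (hH1 : H < 1) (hl : 0 < l) (ht : IsTest t)
    {ε : ℝ} (hε : 0 < ε) :
    ∀ᶠ n in atTop, ∀ w : ℝ → ℝ, Measurable w → (∀ x, |w x| ≤ 1) →
      |1 / (2 * tauH (2 + H) n) * ∫ z, mg D V t (vH l (2 + H) n) z * (w z.2 - w z.1)
          ∂(sm (nrm V) (mq D (vH l (2 + H) n)))
        + l ^ 2 / 2 * ∫ x, w x * deriv t x| ≤ ε := by
  have ha : 0 < 2 + H := by linarith
  have hdc : Continuous (deriv t) := ht.smooth.continuous_deriv le_rfl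
  have hdi : Integrable (deriv t) := hdc.integrable_of_hasCompactSupport ht.supp.deriv
  set T : ℝ := ∫ x, |deriv t x| with hT
  have hT0 : 0 ≤ T := integral_nonneg fun x => abs_nonneg _
  have lz := ef_zlim hM hH hH1 hl
  have l1 : ∀ᶠ n in atTop, (Zf (nrm V) (mq D (vH l (2 + H) n)))⁻¹ < 2 :=
    lz.eventually_lt_const (by norm_num)
  have l2 : ∀ᶠ n in atTop, |1 - (Zf (nrm V) (mq D (vH l (2 + H) n)))⁻¹| * (l ^ 2 / 2 * T)
      < ε / 2 := by
    have h1 := ((lz.const_sub 1).abs).mul_const (l ^ 2 / 2 * T)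
    rw [sub_self, abs_zero, zero_mul] at h1
    exact h1.eventually_lt_const (by positivity)
  filter_upwards [core_gen hl ha ht (ε := ε / 4) (by positivity), l1, l2] with n hn h1 h2 w hw hw1
  have hv := vH_pos hl (2 + H) n
  have hZ : 0 < (Zf (nrm V) (mq D (vH l (2 + H) n)))⁻¹ :=
    inv_pos.mpr (Zf_pos (ef_dens hM) (mq_prop hM hv))
  rw [mg_pair hM ht hv hw hw1]
  have h3 := hn w hw hw1
  have hW : |∫ x, w x * deriv t x| ≤ T := by
    rw [← Real.norm_eq_abs]
    refine norm_integral_le_of_norm_le hdi.abs (Eventually.of_forall fun x => ?_)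
    rw [Real.norm_eq_abs, abs_mul]
    exact mul_le_of_le_one_left (abs_nonneg _) (hw1 x)
  set X : ℝ := ∫ x, w x * ∫ z in {z : ℝ | |z| ≤ 1}, (∫ u in x..(x + z), t u)
    ∂(gaussianReal 0 (vH l (2 + H) n)) with hX
  set W : ℝ := ∫ x, w x * deriv t x with hWd
  set Z : ℝ := (Zf (nrm V) (mq D (vH l (2 + H) n)))⁻¹ with hZd
  have hτ := (tauH_pos (2 + H) n).ne'
  have e1 : 1 / (2 * tauH (2 + H) n) * (-2 * Z * X) + l ^ 2 / 2 * W =
      -(Z * ((tauH (2 + H) n)⁻¹ * X - l ^ 2 / 2 * W)) + (1 - Z) * (l ^ 2 / 2 * W) := by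
    field_simp
    ring
  rw [e1]
  refine (abs_add_le _ _).trans ?_
  rw [abs_neg, abs_mul, abs_mul, abs_of_pos hZ]
  have e2 : Z * |(tauH (2 + H) n)⁻¹ * X - l ^ 2 / 2 * W| ≤ 2 * (ε / 4) :=
    mul_le_mul h1.le h3 (abs_nonneg _) (by norm_num)
  have e3 : |l ^ 2 / 2 * W| ≤ l ^ 2 / 2 * T := by
    rw [abs_mul, abs_of_nonneg (by positivity)]
    exact mul_le_mul_of_nonneg_left hW (by positivity)
  have e4 : |1 - Z| * |l ^ 2 / 2 * W| ≤ |1 - Z| * (l ^ 2 / 2 * T) :=
    mul_le_mul_of_nonneg_left e3 (abs_nonneg _)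
  linarith

end Pool.Agent.Lib.MP_e19099_pr
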