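import Pool.Agent.Lib.MP_e19099_pr.EKern
import Pool.Agent.Lib.MP_e19099_pr.CPar

/-!
# MALA proposals: identities and bounds (module E, E2)

`mq D v x y` = density at `y` of `N(x + (v/2) D x, v)`.
`Rf_m`: `R = Kf - (v/8)(D(y)² - D(x)²)`.
`sdn_m`: `sdn = √(p(x)p(y)) exp(-(v/16)(D(x)²+D(y)²) - ¼ (y-x)(D y - D x)) γ_v(y-x)` (complete the squares).
`mth_abs`: `|¼ z (D y - D x)| ≤ C z²`.
`sdn_m_le`: for `v ≤ v₀`: `γ_v(z) e^{C z²} ≤ √2 γ_{2v}(z)`.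
`pq_m_le`: `(z - μ)² ≥ z²/2 - μ²`, `μ = (v/2) D x`, `μ²/(2v) = v D(x)²/8 ≤ C v (1+x²) ≤ C + x²/16`, so `p(x) q(x,y) ≤ C e^{-3x²/8} γ_{2v}(z)` for `v ≤ v₀`.
`gau_two`: `γ_v ≤ √2 γ_{2v}`.
-/

set_option autoImplicit false

open MeasureTheory ProbabilityTheory Filter Set
open scoped NNReal Topology ENNReal

namespace Pool.Agent.Lib.MP_e19099_pr

/-- MALA proposal density -/
noncomputable def mq (D : ℝ → ℝ) (v : ℝ≥0) (x y : ℝ) : ℝ := gaussianPDFReal (x + v / 2 * D x) v y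

/-- the correction exponent of the symmetrized density -/
noncomputable def mth (D : ℝ → ℝ) (v : ℝ≥0) (z : ℝ × ℝ) : ℝ :=
  -(v / 16 * (D z.1 ^ 2 + D z.2 ^ 2)) - (z.2 - z.1) * (D z.2 - D z.1) / 4

/-- the second part of the log ratio -/
noncomputable def rho (D : ℝ → ℝ) (v : ℝ≥0) (z : ℝ × ℝ) : ℝ := v / 8 * (D z.2 ^ 2 - D z.1 ^ 2)

variable {H : ℝ} {φ β D V : ℝ → ℝ} {v : ℝ≥0}

private theorem gd (μ : ℝ) (v : ℝ≥0) (x : ℝ) : gaussianPDFReal μ v x =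
    (√(2 * Real.pi * v))⁻¹ * Real.exp (-(x - μ) ^ 2 / (2 * v)) := rfl

private theorem cst_pos (hv : 0 < v) : 0 < (√(2 * Real.pi * v))⁻¹ := by
  have h : (0 : ℝ) < v := hv
  have h2 := Real.pi_pos
  exact inv_pos.2 (Real.sqrt_pos.2 (by positivity))

private theorem cst_two (v : ℝ≥0) : (√(2 * Real.pi * v))⁻¹
    = √2 * (√(2 * Real.pi * ((2 * v : ℝ≥0) : ℝ)))⁻¹ := by
  have h1 : 2 * Real.pi * ((2 * v : ℝ≥0) : ℝ) = 2 * (2 * Real.pi * v) := by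
    push_cast
    ring
  have h2 : √2 ≠ 0 := (Real.sqrt_pos.2 zero_lt_two).ne'
  rw [h1, Real.sqrt_mul zero_le_two, mul_inv, ← mul_assoc, mul_inv_cancel₀ h2, one_mul]

private theorem gau_gen (hv : 0 < v) {z t : ℝ} (ht : t ≤ -z ^ 2 / (4 * v)) :
    (√(2 * Real.pi * v))⁻¹ * Real.exp t ≤ 2 * gaussianPDFReal 0 (2 * v) z := by
  have hv2 : (0 : ℝ≥0) < 2 * v := by positivity
  have hp := cst_pos hv2
  rw [cst_two v, gd]
  have h1 : -(z - 0) ^ 2 / (2 * ((2 * v : ℝ≥0) : ℝ)) = -z ^ 2 / (4 * v) := by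
    push_cast
    ring
  rw [h1]
  have h2 : √2 ≤ 2 := by
    rw [Real.sqrt_le_left zero_le_two]
    norm_num
  calc √2 * (√(2 * Real.pi * ((2 * v : ℝ≥0) : ℝ)))⁻¹ * Real.exp t
      ≤ 2 * (√(2 * Real.pi * ((2 * v : ℝ≥0) : ℝ)))⁻¹ * Real.exp (-z ^ 2 / (4 * v)) :=
        mul_le_mul (mul_le_mul_of_nonneg_right h2 hp.le) (Real.exp_le_exp.2 ht)
          (Real.exp_pos _).le (mul_nonneg zero_le_two hp.le)
    _ = _ := by ring

theorem gau_two (hv : 0 < v) (z : ℝ) :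
    gaussianPDFReal 0 v z ≤ 2 * gaussianPDFReal 0 (2 * v) z := by
  rw [gd 0 v z]
  refine gau_gen hv ?_
  have h : (0 : ℝ) < v := hv
  rw [sub_zero, div_le_div_iff₀ (by positivity) (by positivity)]
  nlinarith [mul_nonneg (sq_nonneg z) h.le]

private theorem vcont (hM : MPot H φ β D V) : Continuous V :=
  continuous_iff_continuousAt.2 fun x => (hM.dV x).continuousAt

private theorem dcont (hM : MPot H φ β D V) : Continuous D :=
  continuous_iff_continuousAt.2 fun x => (hM.dD x).continuousAt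

private theorem densM (hM : MPot H φ β D V) : Dens (nrm V) := nrm_dens (vcont hM) hM.exp_int

private theorem mq_cont (hM : MPot H φ β D V) :
    Continuous (Function.uncurry (mq D v)) := by
  have h := dcont hM
  have h1 : Function.uncurry (mq D v) = fun z : ℝ × ℝ => (√(2 * Real.pi * v))⁻¹ *
      Real.exp (-(z.2 - (z.1 + v / 2 * D z.1)) ^ 2 / (2 * v)) := rfl
  rw [h1]
  fun_prop

theorem mq_prop (hM : MPot H φ β D V) (hv : 0 < v) : IsProp (mq D v) where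
  meas := (mq_cont hM).measurable
  pos _ _ := gaussianPDFReal_pos _ _ _ hv.ne'
  one _ := integral_gaussianPDFReal_eq_one _ hv.ne'

theorem Rf_m (hM : MPot H φ β D V) (hv : 0 < v) (z : ℝ × ℝ) :
    Rf (nrm V) (mq D v) z = Kf β z - rho D v z := by
  have hv' : (0 : ℝ) < v := hv
  have hc := cst_pos hv
  have hd := densM hM
  unfold Rf mq rho
  rw [gd, gd]
  set c := (√(2 * Real.pi * v))⁻¹ with hcdef
  have h1 := nrm_ratio (vcont hM) hM.exp_int z.1 z.2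
  have h2 := kf_eq hM z.1 z.2
  have hpx := (hd.pos z.1).ne'
  have h3 : nrm V z.2 * (c * Real.exp (-(z.1 - (z.2 + v / 2 * D z.2)) ^ 2 / (2 * v))) /
      (nrm V z.1 * (c * Real.exp (-(z.2 - (z.1 + v / 2 * D z.1)) ^ 2 / (2 * v))))
      = Real.exp (V z.2 - V z.1 + (-(z.1 - (z.2 + v / 2 * D z.2)) ^ 2 / (2 * v)
        - -(z.2 - (z.1 + v / 2 * D z.1)) ^ 2 / (2 * v))) := by
    rw [Real.exp_add, Real.exp_sub (-(z.1 - (z.2 + v / 2 * D z.2)) ^ 2 / (2 * v)), ← h1]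
    have hcn := hc.ne'
    have hen := (Real.exp_pos (-(z.2 - (z.1 + v / 2 * D z.1)) ^ 2 / (2 * v))).ne'
    field_simp
  rw [h3, Real.log_exp]
  have h4 : Kf β z = V z.2 - V z.1 - (z.2 - z.1) * (D z.1 + D z.2) / 2 := h2.symm
  rw [h4]
  field_simp
  ring

theorem sdn_m (hM : MPot H φ β D V) (hv : 0 < v) (z : ℝ × ℝ) :
    sdn (nrm V) (mq D v) z = √(nrm V z.1 * nrm V z.2) * Real.exp (mth D v z)
      * gaussianPDFReal 0 v (z.2 - z.1) := by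
  have hv' : (0 : ℝ) < v := hv
  have hc := cst_pos hv
  have hd := densM hM
  have hx := hd.pos z.1
  have hy := hd.pos z.2
  unfold sdn mq mth
  rw [gd, gd, gd]
  set c := (√(2 * Real.pi * v))⁻¹ with hcdef
  set E1 := Real.exp (-(z.2 - (z.1 + v / 2 * D z.1)) ^ 2 / (2 * v)) with hE1
  set E2 := Real.exp (-(z.1 - (z.2 + v / 2 * D z.2)) ^ 2 / (2 * v)) with hE2
  set E3 := Real.exp (-(v / 16 * (D z.1 ^ 2 + D z.2 ^ 2)) - (z.2 - z.1) * (D z.2 - D z.1) / 4)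
    with hE3
  set E4 := Real.exp (-(z.2 - z.1 - 0) ^ 2 / (2 * v)) with hE4
  have h1 : E1 * E2 = (E3 * E4) ^ 2 := by
    rw [hE1, hE2, hE3, hE4, ← Real.exp_add, ← Real.exp_add, ← Real.exp_nat_mul]
    congr 1
    push_cast
    field_simp
    ring
  have h2 : nrm V z.1 * (c * E1) * (nrm V z.2 * (c * E2))
      = (√(nrm V z.1 * nrm V z.2) * E3 * (c * E4)) ^ 2 := by
    have h3 : √(nrm V z.1 * nrm V z.2) ^ 2 = nrm V z.1 * nrm V z.2 :=
      Real.sq_sqrt (mul_pos hx hy).le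
    calc nrm V z.1 * (c * E1) * (nrm V z.2 * (c * E2))
        = (nrm V z.1 * nrm V z.2) * c ^ 2 * (E1 * E2) := by ring
      _ = √(nrm V z.1 * nrm V z.2) ^ 2 * c ^ 2 * (E3 * E4) ^ 2 := by rw [h1, h3]
      _ = _ := by ring
  rw [h2, Real.sqrt_sq]
  have h5 := Real.exp_pos (-(v / 16 * (D z.1 ^ 2 + D z.2 ^ 2)) -
    (z.2 - z.1) * (D z.2 - D z.1) / 4)
  have h6 := Real.exp_pos (-(z.2 - z.1 - 0) ^ 2 / (2 * v))
  exact mul_nonneg (mul_nonneg (Real.sqrt_nonneg _) h5.le) (mul_nonneg hc.le h6.le)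

private theorem dsq {C x d : ℝ} (hd : |d| ≤ C * (1 + |x|)) :
    d ^ 2 ≤ 2 * C ^ 2 * (1 + x ^ 2) := by
  have h1 : d ^ 2 ≤ (C * (1 + |x|)) ^ 2 := by
    rw [← sq_abs]
    exact pow_le_pow_left₀ (abs_nonneg _) hd 2
  have h2 : (1 + |x|) ^ 2 ≤ 2 * (1 + x ^ 2) := by
    have := sq_abs x
    nlinarith [sq_nonneg (1 - |x|)]
  calc d ^ 2 ≤ (C * (1 + |x|)) ^ 2 := h1
    _ = C ^ 2 * (1 + |x|) ^ 2 := by ring
    _ ≤ C ^ 2 * (2 * (1 + x ^ 2)) := mul_le_mul_of_nonneg_left h2 (sq_nonneg C)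
    _ = _ := by ring

private theorem dsq2 {C x y d e : ℝ} (hd : |d| ≤ C * (1 + |x|)) (he : |e| ≤ C * (1 + |y|)) :
    d ^ 2 + e ^ 2 ≤ 6 * C ^ 2 * (1 + x ^ 2 + (y - x) ^ 2) := by
  have h1 := dsq hd
  have h2 := dsq he
  have h3 : y ^ 2 ≤ 2 * x ^ 2 + 2 * (y - x) ^ 2 := by nlinarith [sq_nonneg (x - (y - x))]
  have h4 : 0 ≤ C ^ 2 := sq_nonneg C
  nlinarith [mul_nonneg h4 (sq_nonneg x), mul_nonneg h4 (sq_nonneg (y - x)),
    mul_le_mul_of_nonneg_left h3 h4]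

theorem mth_le (hM : MPot H φ β D V) :
    ∃ C : ℝ, 0 < C ∧ ∀ (v : ℝ≥0) (z : ℝ × ℝ), mth D v z ≤ C * (z.2 - z.1) ^ 2 ∧
      |mth D v z| ≤ C * (v * (1 + z.1 ^ 2 + (z.2 - z.1) ^ 2) + (z.2 - z.1) ^ 2) := by
  obtain ⟨C, hC, hL, hG, -⟩ := hM.dlip
  refine ⟨C ^ 2 + C, by positivity, fun v z => ?_⟩
  have hv : (0 : ℝ) ≤ v := v.2
  have h1 : |(z.2 - z.1) * (D z.2 - D z.1) / 4| ≤ C * (z.2 - z.1) ^ 2 := by
    rw [abs_div, abs_mul, abs_of_pos (by norm_num : (0 : ℝ) < 4)]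
    have h2 := mul_le_mul_of_nonneg_left (hL z.1 z.2) (abs_nonneg (z.2 - z.1))
    have h3 : |z.2 - z.1| * (C * |z.2 - z.1|) = C * (z.2 - z.1) ^ 2 := by
      rw [← sq_abs (z.2 - z.1)]
      ring
    rw [h3] at h2
    have h4 : 0 ≤ C * (z.2 - z.1) ^ 2 := by positivity
    linarith
  have h5 : 0 ≤ (v : ℝ) / 16 * (D z.1 ^ 2 + D z.2 ^ 2) := by positivity
  have h6 : 0 ≤ C ^ 2 * (z.2 - z.1) ^ 2 := by positivity
  unfold mth
  have h7 := abs_le.1 h1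
  constructor
  · nlinarith [h7.1]
  · have h8 : (v : ℝ) / 16 * (D z.1 ^ 2 + D z.2 ^ 2)
        ≤ C ^ 2 * (v * (1 + z.1 ^ 2 + (z.2 - z.1) ^ 2)) := by
      have h9 := dsq2 (hG z.1) (hG z.2)
      have h10 := mul_le_mul_of_nonneg_left h9 (by positivity : 0 ≤ (v : ℝ) / 16)
      have h11 : 0 ≤ C ^ 2 * (v * (1 + z.1 ^ 2 + (z.2 - z.1) ^ 2)) := by positivity
      nlinarith
    have h12 : 0 ≤ C * ((v : ℝ) * (1 + z.1 ^ 2 + (z.2 - z.1) ^ 2)) := by positivity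
    rw [abs_le]
    constructor
    · nlinarith [h7.2]
    · nlinarith [h7.1]

theorem rho_le (hM : MPot H φ β D V) :
    ∃ C : ℝ, 0 < C ∧ ∀ (v : ℝ≥0) (z : ℝ × ℝ), rho D v z ^ 2
      ≤ C * (v ^ 2 * (z.2 - z.1) ^ 2 * (1 + z.1 ^ 2 + (z.2 - z.1) ^ 2)) := by
  obtain ⟨C, hC, hL, hG, -⟩ := hM.dlip
  refine ⟨C ^ 4, by positivity, fun v z => ?_⟩
  have hv : (0 : ℝ) ≤ v := v.2
  unfold rho
  have h1 : (D z.2 - D z.1) ^ 2 ≤ C ^ 2 * (z.2 - z.1) ^ 2 := by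
    rw [← sq_abs (D z.2 - D z.1), ← sq_abs (z.2 - z.1), ← mul_pow]
    exact pow_le_pow_left₀ (abs_nonneg _) (hL z.1 z.2) 2
  have h2 : (D z.2 + D z.1) ^ 2 ≤ 12 * C ^ 2 * (1 + z.1 ^ 2 + (z.2 - z.1) ^ 2) := by
    have h3 := dsq2 (hG z.1) (hG z.2)
    nlinarith [sq_nonneg (D z.2 - D z.1)]
  have h4 : (D z.2 - D z.1) ^ 2 * (D z.2 + D z.1) ^ 2
      ≤ C ^ 2 * (z.2 - z.1) ^ 2 * (12 * C ^ 2 * (1 + z.1 ^ 2 + (z.2 - z.1) ^ 2)) :=
    mul_le_mul h1 h2 (sq_nonneg _) (by positivity)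
  have h5 : 0 ≤ C ^ 4 * ((v : ℝ) ^ 2 * (z.2 - z.1) ^ 2 * (1 + z.1 ^ 2 + (z.2 - z.1) ^ 2)) := by
    positivity
  calc ((v : ℝ) / 8 * (D z.2 ^ 2 - D z.1 ^ 2)) ^ 2
      = (v : ℝ) ^ 2 / 64 * ((D z.2 - D z.1) ^ 2 * (D z.2 + D z.1) ^ 2) := by ring
    _ ≤ (v : ℝ) ^ 2 / 64 * (C ^ 2 * (z.2 - z.1) ^ 2 *
        (12 * C ^ 2 * (1 + z.1 ^ 2 + (z.2 - z.1) ^ 2))) :=
        mul_le_mul_of_nonneg_left h4 (by positivity)
    _ = 12 / 64 * (C ^ 4 * ((v : ℝ) ^ 2 * (z.2 - z.1) ^ 2 *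
        (1 + z.1 ^ 2 + (z.2 - z.1) ^ 2))) := by ring
    _ ≤ _ := by linarith

theorem sdn_m_le (hM : MPot H φ β D V) :
    ∃ v₀ : ℝ≥0, 0 < v₀ ∧ ∀ v : ℝ≥0, 0 < v → v ≤ v₀ → ∀ z : ℝ × ℝ,
      sdn (nrm V) (mq D v) z
        ≤ 2 * √(nrm V z.1 * nrm V z.2) * gaussianPDFReal 0 (2 * v) (z.2 - z.1) := by
  obtain ⟨C, hC, hm⟩ := mth_le hM
  refine ⟨⟨1 / (4 * C), by positivity⟩, ?_, fun v hv hle z => ?_⟩
  · rw [← NNReal.coe_pos]
    show 0 < 1 / (4 * C)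
    positivity
  · have hv' : (0 : ℝ) < v := hv
    have hle' : (v : ℝ) ≤ 1 / (4 * C) := hle
    rw [le_div_iff₀ (by positivity)] at hle'
    rw [sdn_m hM hv, gd 0 v]
    have h1 := (hm v z).1
    have h2 : mth D v z + -(z.2 - z.1 - 0) ^ 2 / (2 * v) ≤ -(z.2 - z.1) ^ 2 / (4 * v) := by
      have h3 : C * (z.2 - z.1) ^ 2 ≤ (z.2 - z.1) ^ 2 / (4 * v) := by
        rw [le_div_iff₀ (by positivity)]
        nlinarith [sq_nonneg (z.2 - z.1)]
      have h4 : -(z.2 - z.1 - 0) ^ 2 / (2 * (v : ℝ))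
          = -(z.2 - z.1) ^ 2 / (4 * v) - (z.2 - z.1) ^ 2 / (4 * v) := by
        rw [sub_zero]
        field_simp
        ring
      rw [h4]
      linarith
    have h5 := gau_gen hv h2
    have h6 : √(nrm V z.1 * nrm V z.2) * Real.exp (mth D v z) * ((√(2 * Real.pi * v))⁻¹ *
        Real.exp (-(z.2 - z.1 - 0) ^ 2 / (2 * v))) = √(nrm V z.1 * nrm V z.2) *
        ((√(2 * Real.pi * v))⁻¹ * Real.exp (mth D v z + -(z.2 - z.1 - 0) ^ 2 / (2 * v))) := by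
      rw [Real.exp_add]
      ring
    rw [h6]
    refine (mul_le_mul_of_nonneg_left h5 (Real.sqrt_nonneg _)).trans (le_of_eq ?_)
    ring

theorem pq_m_le (hM : MPot H φ β D V) :
    ∃ (v₀ : ℝ≥0) (C : ℝ), 0 < v₀ ∧ 0 < C ∧ ∀ v : ℝ≥0, 0 < v → v ≤ v₀ → ∀ z : ℝ × ℝ,
      nrm V z.1 * mq D v z.1 z.2
        ≤ C * Real.exp (-3 * z.1 ^ 2 / 8) * gaussianPDFReal 0 (2 * v) (z.2 - z.1) := by
  obtain ⟨C, hC, hL, hG, -⟩ := hM.dlip
  obtain ⟨C1, hC1, hn⟩ := hM.nrm_le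
  refine ⟨⟨1 / (4 * C ^ 2), by positivity⟩, 2 * Real.exp (1 / 16) * C1, ?_, by positivity,
    fun v hv hle z => ?_⟩
  · rw [← NNReal.coe_pos]
    show 0 < 1 / (4 * C ^ 2)
    positivity
  · have hv' : (0 : ℝ) < v := hv
    have hle' : (v : ℝ) ≤ 1 / (4 * C ^ 2) := hle
    rw [le_div_iff₀ (by positivity)] at hle'
    have hd := densM hM
    set h := z.2 - z.1 with hh
    set μ := (v : ℝ) / 2 * D z.1 with hμ
    have h1 : mq D v z.1 z.2 = (√(2 * Real.pi * v))⁻¹ * Real.exp (-(h - μ) ^ 2 / (2 * v)) := by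
      unfold mq
      rw [gd]
      congr 3
      rw [hh]
      ring
    -- the exponent
    have h2 : -(h - μ) ^ 2 / (2 * v) - (1 / 16 + z.1 ^ 2 / 16) ≤ -h ^ 2 / (4 * v) := by
      have h3 : (h - μ) ^ 2 ≥ h ^ 2 / 2 - μ ^ 2 := by nlinarith [sq_nonneg (h - 2 * μ)]
      have h4 : μ ^ 2 / (2 * v) ≤ 1 / 16 + z.1 ^ 2 / 16 := by
        have h5 := dsq (hG z.1)
        have h6 : μ ^ 2 / (2 * v) = v * D z.1 ^ 2 / 8 := by
          rw [hμ]
          field_simp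
          ring
        rw [h6]
        have h7 : (v : ℝ) * D z.1 ^ 2 ≤ v * (2 * C ^ 2 * (1 + z.1 ^ 2)) :=
          mul_le_mul_of_nonneg_left h5 hv'.le
        have h8 : (v : ℝ) * (4 * C ^ 2) * (1 + z.1 ^ 2) ≤ 1 * (1 + z.1 ^ 2) :=
          mul_le_mul_of_nonneg_right hle' (by positivity)
        nlinarith
      have h9 : -(h - μ) ^ 2 / (2 * (v : ℝ)) ≤ -(h ^ 2 / 2 - μ ^ 2) / (2 * v) :=
        div_le_div_of_nonneg_right (by linarith) (by positivity)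
      have h10 : -(h ^ 2 / 2 - μ ^ 2) / (2 * (v : ℝ)) = -h ^ 2 / (4 * v) + μ ^ 2 / (2 * v) := by
        field_simp
        ring
      linarith
    have h11 := gau_gen hv h2
    have hg0 : 0 ≤ gaussianPDFReal 0 (2 * v) h := gaussianPDFReal_nonneg _ _ _
    have h12 : mq D v z.1 z.2 ≤ 2 * gaussianPDFReal 0 (2 * v) h *
        Real.exp (1 / 16 + z.1 ^ 2 / 16) := by
      rw [h1]
      have h13 : Real.exp (-(h - μ) ^ 2 / (2 * v)) = Real.exp (-(h - μ) ^ 2 / (2 * v)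
          - (1 / 16 + z.1 ^ 2 / 16)) * Real.exp (1 / 16 + z.1 ^ 2 / 16) := by
        rw [← Real.exp_add]
        congr 1
        ring
      rw [h13, ← mul_assoc]
      exact mul_le_mul_of_nonneg_right h11 (Real.exp_pos _).le
    have hq0 : 0 ≤ mq D v z.1 z.2 := gaussianPDFReal_nonneg _ _ _
    calc nrm V z.1 * mq D v z.1 z.2
        ≤ (C1 * Real.exp (-7 * z.1 ^ 2 / 16)) * (2 * gaussianPDFReal 0 (2 * v) h *
          Real.exp (1 / 16 + z.1 ^ 2 / 16)) :=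
          mul_le_mul (hn z.1) h12 hq0 (by positivity)
      _ = 2 * Real.exp (1 / 16) * C1 * Real.exp (-3 * z.1 ^ 2 / 8) *
          gaussianPDFReal 0 (2 * v) h := by
          rw [Real.exp_add]
          have h14 : Real.exp (-3 * z.1 ^ 2 / 8)
              = Real.exp (-7 * z.1 ^ 2 / 16) * Real.exp (z.1 ^ 2 / 16) := by
            rw [← Real.exp_add]
            congr 1
            ring
          rw [h14]
          ring

private theorem g_map (μ : ℝ) (v : ℝ≥0) :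
    gaussianReal μ v = (gaussianReal 0 1).map (fun ξ => μ + √(v : ℝ) * ξ) := by
  have h1 := gaussianReal_map_const_mul (μ := 0) (v := 1) (√(v : ℝ))
  have h2 := gaussianReal_map_const_add (μ := 0) (v := v) μ
  have h3 : (NNReal.mk (√(v : ℝ) ^ 2) (sq_nonneg _)) * 1 = v := by
    rw [mul_one]
    ext
    exact Real.sq_sqrt v.2
  rw [mul_zero, h3] at h1
  rw [zero_add, ← h1, Measure.map_map (measurable_const_add μ) (measurable_const_mul _)] at h2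
  exact h2.symm

private theorem ev4 : Even 4 := by decide

private theorem g_four : Integrable (fun z : ℝ => z ^ 4) (gaussianReal 0 1) := by
  have h := (memLp_id_gaussianReal' (μ := 0) (v := 1) ((4 : ℕ) : ℝ≥0∞)
    (by simp)).integrable_norm_pow (p := 4) (by norm_num)
  refine h.congr (Eventually.of_forall fun z => ?_)
  show |z| ^ 4 = z ^ 4
  exact ev4.pow_abs z

private theorem four_le (a b : ℝ) : (a + b) ^ 4 ≤ 8 * (a ^ 4 + b ^ 4) := by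
  have e1 : (a + b) ^ 2 ≤ 2 * (a ^ 2 + b ^ 2) := by nlinarith [sq_nonneg (a - b)]
  have e2 : (a + b) ^ 4 = ((a + b) ^ 2) ^ 2 := by ring
  have e3 : ((a + b) ^ 2) ^ 2 ≤ (2 * (a ^ 2 + b ^ 2)) ^ 2 := pow_le_pow_left₀ (sq_nonneg _) e1 2
  nlinarith [sq_nonneg (a ^ 2 - b ^ 2)]

private theorem g_mom (μ : ℝ) (v : ℝ≥0) (x : ℝ) :
    Integrable (fun y => (y - x) ^ 4) (gaussianReal μ v) ∧
      ∫ y, (y - x) ^ 4 ∂(gaussianReal μ v)
        ≤ 8 * ((μ - x) ^ 4 + (v : ℝ) ^ 2 * ∫ z, z ^ 4 ∂(gaussianReal 0 1)) := by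
  have hb : ∀ ξ : ℝ, (μ + √(v : ℝ) * ξ - x) ^ 4 ≤ 8 * ((μ - x) ^ 4 + (v : ℝ) ^ 2 * ξ ^ 4) :=
    fun ξ => by
      have h0 : √(v : ℝ) ^ 2 = (v : ℝ) := Real.sq_sqrt v.2
      have h1 : (√(v : ℝ)) ^ 4 = (v : ℝ) ^ 2 := by
        calc (√(v : ℝ)) ^ 4 = (√(v : ℝ) ^ 2) ^ 2 := by ring
          _ = (v : ℝ) ^ 2 := by rw [h0]
      have h2 := four_le (μ - x) (√(v : ℝ) * ξ)
      rw [mul_pow, h1] at h2
      refine le_trans (le_of_eq ?_) h2
      ring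
  have hm : Measurable fun y : ℝ => (y - x) ^ 4 := (measurable_id.sub_const x).pow_const 4
  have hm2 : Measurable fun ξ : ℝ => μ + √(v : ℝ) * ξ :=
    (measurable_id.const_mul _).const_add _
  have hi : Integrable (fun ξ : ℝ => 8 * ((μ - x) ^ 4 + (v : ℝ) ^ 2 * ξ ^ 4))
      (gaussianReal 0 1) := ((integrable_const _).add (g_four.const_mul _)).const_mul 8
  have hi2 : Integrable (fun ξ : ℝ => (μ + √(v : ℝ) * ξ - x) ^ 4) (gaussianReal 0 1) := by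
    refine hi.mono' (hm.comp hm2).aestronglyMeasurable (Eventually.of_forall fun ξ => ?_)
    rw [Real.norm_eq_abs, abs_of_nonneg (ev4.pow_nonneg _)]
    exact hb ξ
  rw [g_map μ v]
  constructor
  · rw [integrable_map_measure hm.aestronglyMeasurable hm2.aemeasurable]
    exact hi2
  · rw [integral_map hm2.aemeasurable hm.aestronglyMeasurable]
    refine (integral_mono hi2 hi hb).trans (le_of_eq ?_)
    rw [integral_const_mul, integral_add (integrable_const _) (g_four.const_mul _),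
      integral_const_mul]
    simp

private theorem w_int (hM : MPot H φ β D V) : Integrable fun x => nrm V x * (1 + x ^ 4) := by
  obtain ⟨C1, hC1, hn⟩ := hM.nrm_le
  have hd := densM hM
  have h1 : Integrable fun x : ℝ => 58 * C1 * Real.exp (-(1 / 4) * x ^ 2) :=
    (integrable_exp_neg_mul_sq (by norm_num)).const_mul _
  refine h1.mono' (hd.cont.mul (by fun_prop)).aestronglyMeasurable
    (Eventually.of_forall fun x => ?_)
  have hx4 : 0 ≤ x ^ 4 := ev4.pow_nonneg _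
  rw [Real.norm_eq_abs, abs_of_nonneg (mul_nonneg (hd.pos x).le (by linarith))]
  have ht : 0 ≤ 3 * x ^ 2 / 16 := by positivity
  have h2 := Real.quadratic_le_exp_of_nonneg ht
  have h3 : 1 + x ^ 4 ≤ 58 * Real.exp (3 * x ^ 2 / 16) := by
    have h4 : (3 * x ^ 2 / 16) ^ 2 / 2 = 9 / 512 * x ^ 4 := by ring
    rw [h4] at h2
    nlinarith
  calc nrm V x * (1 + x ^ 4)
      ≤ (C1 * Real.exp (-7 * x ^ 2 / 16)) * (58 * Real.exp (3 * x ^ 2 / 16)) :=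
        mul_le_mul (hn x) h3 (by linarith) (by positivity)
    _ = 58 * C1 * (Real.exp (-7 * x ^ 2 / 16) * Real.exp (3 * x ^ 2 / 16)) := by ring
    _ = 58 * C1 * Real.exp (-(1 / 4) * x ^ 2) := by
        rw [← Real.exp_add]
        congr 2
        ring

/-- fourth moment of the proposal: `z = (v/2) D x + √v ξ` -/
theorem mq_mom (hM : MPot H φ β D V) :
    ∃ C : ℝ, ∀ v : ℝ≥0, 0 < v →
      Integrable (fun z : ℝ × ℝ => (z.2 - z.1) ^ 4 * (nrm V z.1 * mq D v z.1 z.2)) ∧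
      ∫ z : ℝ × ℝ, (z.2 - z.1) ^ 4 * (nrm V z.1 * mq D v z.1 z.2)
        ≤ C * ((v : ℝ) ^ 2 + (v : ℝ) ^ 4) := by
  obtain ⟨C, hC, hL, hG, -⟩ := hM.dlip
  have hd := densM hM
  set M := ∫ z, z ^ 4 ∂(gaussianReal 0 1) with hMdef
  have hM0 : 0 ≤ M := integral_nonneg fun z => ev4.pow_nonneg _
  have hw := w_int hM
  set W := ∫ x, nrm V x * (1 + x ^ 4) with hW
  have hW0 : 0 ≤ W := integral_nonneg fun x => by
    have h1 : 0 ≤ x ^ 4 := ev4.pow_nonneg _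
    exact mul_nonneg (hd.pos x).le (by linarith)
  refine ⟨8 * (C ^ 4 * W + M), fun v hv => ?_⟩
  have hv' : (0 : ℝ) < v := hv
  have hpc := hd.cont
  have hqc := mq_cont (v := v) hM
  have hFc : Continuous fun z : ℝ × ℝ => (z.2 - z.1) ^ 4 * (nrm V z.1 * mq D v z.1 z.2) := by
    have h1 : Continuous fun z : ℝ × ℝ => mq D v z.1 z.2 := hqc
    fun_prop
  have hq0 : ∀ x y, 0 ≤ mq D v x y := fun x y => gaussianPDFReal_nonneg _ _ _
  have hF0 : ∀ z : ℝ × ℝ, 0 ≤ (z.2 - z.1) ^ 4 * (nrm V z.1 * mq D v z.1 z.2) := fun z =>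
    mul_nonneg (ev4.pow_nonneg _) (mul_nonneg (hd.pos _).le (hq0 _ _))
  -- the inner integrals
  have hin : ∀ x, Integrable (fun y => (y - x) ^ 4 * (nrm V x * mq D v x y)) ∧
      ∫ y, (y - x) ^ 4 * (nrm V x * mq D v x y)
        = nrm V x * ∫ y, (y - x) ^ 4 ∂(gaussianReal (x + v / 2 * D x) v) := by
    intro x
    constructor
    · have h1 := (g_mom (x + v / 2 * D x) v x).1
      rw [gaussianReal_of_var_ne_zero _ hv.ne', integrable_withDensity_iff_integrable_smul'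
        (measurable_gaussianPDF _ _) (Eventually.of_forall fun _ => gaussianPDF_lt_top)] at h1
      refine (h1.const_mul (nrm V x)).congr (Eventually.of_forall fun y => ?_)
      simp only [toReal_gaussianPDF, smul_eq_mul]
      unfold mq
      ring
    · rw [integral_gaussianReal_eq_integral_smul hv.ne', ← integral_const_mul]
      refine integral_congr_ae (Eventually.of_forall fun y => ?_)
      simp only [smul_eq_mul]
      unfold mq
      ring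
  have hle : ∀ x, ∫ y, (y - x) ^ 4 * (nrm V x * mq D v x y)
      ≤ 8 * (C ^ 4 * (v : ℝ) ^ 4) * (nrm V x * (1 + x ^ 4)) + 8 * ((v : ℝ) ^ 2 * M) * nrm V x := by
    intro x
    rw [(hin x).2]
    have h1 := (g_mom (x + v / 2 * D x) v x).2
    have h2 : (x + v / 2 * D x - x) ^ 4 ≤ C ^ 4 * (v : ℝ) ^ 4 * (1 + x ^ 4) := by
      have h3 := dsq (hG x)
      have h4 : (D x ^ 2) ^ 2 ≤ (2 * C ^ 2 * (1 + x ^ 2)) ^ 2 :=
        pow_le_pow_left₀ (sq_nonneg _) h3 2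
      have h5 : (1 + x ^ 2) ^ 2 ≤ 2 * (1 + x ^ 4) := by nlinarith [sq_nonneg (1 - x ^ 2)]
      calc (x + v / 2 * D x - x) ^ 4 = (v : ℝ) ^ 4 / 16 * (D x ^ 2) ^ 2 := by ring
        _ ≤ (v : ℝ) ^ 4 / 16 * (2 * C ^ 2 * (1 + x ^ 2)) ^ 2 :=
          mul_le_mul_of_nonneg_left h4 (by positivity)
        _ = (v : ℝ) ^ 4 * C ^ 4 / 4 * (1 + x ^ 2) ^ 2 := by ring
        _ ≤ (v : ℝ) ^ 4 * C ^ 4 / 4 * (2 * (1 + x ^ 4)) :=
          mul_le_mul_of_nonneg_left h5 (by positivity)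
        _ ≤ C ^ 4 * (v : ℝ) ^ 4 * (1 + x ^ 4) := by
          have h6 : 0 ≤ C ^ 4 * (v : ℝ) ^ 4 * (1 + x ^ 4) := by
            have h7 : 0 ≤ x ^ 4 := ev4.pow_nonneg _
            positivity
          nlinarith
    have h8 := mul_le_mul_of_nonneg_left (h1.trans (mul_le_mul_of_nonneg_left
      (add_le_add_left h2 ((v : ℝ) ^ 2 * M)) (by norm_num : (0 : ℝ) ≤ 8))) (hd.pos x).le
    refine h8.trans (le_of_eq ?_)
    ring
  have hdom : Integrable fun x => 8 * (C ^ 4 * (v : ℝ) ^ 4) * (nrm V x * (1 + x ^ 4))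
      + 8 * ((v : ℝ) ^ 2 * M) * nrm V x := (hw.const_mul _).add (hd.int.const_mul _)
  have hnorm : ∀ x, ∫ y, ‖(y - x) ^ 4 * (nrm V x * mq D v x y)‖
      = ∫ y, (y - x) ^ 4 * (nrm V x * mq D v x y) := fun x =>
    integral_congr_ae (Eventually.of_forall fun y => by
      simp only
      rw [Real.norm_eq_abs, abs_of_nonneg (hF0 (x, y))])
  have hint : Integrable (fun z : ℝ × ℝ => (z.2 - z.1) ^ 4 * (nrm V z.1 * mq D v z.1 z.2)) := by
    rw [Measure.volume_eq_prod, integrable_prod_iff hFc.aestronglyMeasurable]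
    refine ⟨Eventually.of_forall fun x => (hin x).1, ?_⟩
    refine hdom.mono' ?_ (Eventually.of_forall fun x => ?_)
    · exact (hFc.norm.stronglyMeasurable.integral_prod_right').aestronglyMeasurable
    · have h1 : 0 ≤ ∫ y, ‖(y - x) ^ 4 * (nrm V x * mq D v x y)‖ :=
        integral_nonneg fun y => norm_nonneg _
      rw [Real.norm_eq_abs, abs_of_nonneg h1]
      show ∫ y, ‖(y - x) ^ 4 * (nrm V x * mq D v x y)‖ ≤ _
      rw [hnorm x]
      exact hle x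
  refine ⟨hint, ?_⟩
  have hint2 := hint
  rw [Measure.volume_eq_prod] at hint2 ⊢
  rw [integral_prod _ hint2]
  have h1 : ∫ x, ∫ y, (y - x) ^ 4 * (nrm V x * mq D v x y)
      ≤ ∫ x, (8 * (C ^ 4 * (v : ℝ) ^ 4) * (nrm V x * (1 + x ^ 4))
        + 8 * ((v : ℝ) ^ 2 * M) * nrm V x) :=
    integral_mono hint2.integral_prod_left hdom hle
  refine h1.trans ?_
  rw [integral_add (hw.const_mul _) (hd.int.const_mul _), integral_const_mul,
    integral_const_mul, hd.one, ← hW]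
  have h2 : 0 ≤ C ^ 4 * W * (v : ℝ) ^ 2 := by positivity
  have h3 : 0 ≤ M * (v : ℝ) ^ 4 := by positivity
  nlinarith

end Pool.Agent.Lib.MP_e19099_pr
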