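import Pool.Agent.Lib.MP_e19099_pr.EPot
import Pool.Agent.Lib.MP_e19099_pr.CGAvg

/-!
# The trapezoidal error (module E, E1)

`Kf β (x,y) = z² ∫_0^1 (1/2 - r) β(x + r z) dr`, `z = y - x`.
`kf_eq`: `V y - V x - ½ z (D x + D y) = ∫_x^y (m - u) D'(u) du` with `m = (x+y)/2` (integrate by parts), `D' = -1 + β`, and the constant does not contribute.
`kf_swap`: substitute `r → 1 - r`.
`kf_sq`: `∫_0^1 (1/2 - r) dr = 0`, so `Kf = z² ∫ (1/2 - r)(β(x+rz) - β x) dr`, Cauchy-Schwarz, `hM.bound`.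
`kf_pol`: polarization: `(∫ κ f)² = -½ ∫∫ κ κ' (f(r) - f(r'))²` for `∫ κ = 0`.
`kf_lln`: `|z|^{-2H} ∫ g(x) (β(x+rz) - β(x+r'z))² dx → |r - r'|^{2H} ∫ g φ²` (substitute `x → x - r'z`, uniform continuity of `g`, `hM.bound`), dominated convergence in `(r,r')`.
`kap_eq`: for `s > 0`: `∫_s^1 (1/2-r)(1/2-r+s) dr = 1/12 - s/4 + s³/6`, so `kap H = -∫_0^1 s^{2H} (1/12 - s/4 + s³/6) ds`.
-/

set_option autoImplicit false

open MeasureTheory ProbabilityTheory Filter Set
open scoped NNReal Topology ENNReal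

namespace Pool.Agent.Lib.MP_e19099_pr

/-- the trapezoidal error -/
noncomputable def Kf (β : ℝ → ℝ) (z : ℝ × ℝ) : ℝ :=
  (z.2 - z.1) ^ 2 * ∫ r in (0 : ℝ)..1, (1 / 2 - r) * β (z.1 + r * (z.2 - z.1))

/-- `κ_H = E |∫_0^1 (1/2 - r) B_r dr|²` -/
noncomputable def kap (H : ℝ) : ℝ :=
  -(1 / 2) * ∫ r in (0 : ℝ)..1, ∫ r' in (0 : ℝ)..1,
    (1 / 2 - r) * (1 / 2 - r') * |r - r'| ^ (2 * H)

/-- `∫_0^t (p + q u) u^a du` -/
private theorem ek_prim {a : ℝ} (ha : 0 < a) (p q : ℝ) {t : ℝ} (ht : 0 ≤ t) :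
    ∫ u in (0 : ℝ)..t, (p + q * u) * u ^ a =
      p * t ^ (a + 1) / (a + 1) + q * t ^ (a + 2) / (a + 2) := by
  have h1 : ∀ u ∈ Set.uIcc (0 : ℝ) t, (p + q * u) * u ^ a = p * u ^ a + q * u ^ (a + 1) := by
    intro u hu
    rw [Set.uIcc_of_le ht] at hu
    have h2 : u ^ (a + 1) = u ^ a * u := by
      rw [Real.rpow_add_one' hu.1 (by linarith)]
    rw [h2]
    ring
  have i1 : IntervalIntegrable (fun u : ℝ => p * u ^ a) volume 0 t :=
    (intervalIntegral.intervalIntegrable_rpow' (by linarith)).const_mul p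
  have i2 : IntervalIntegrable (fun u : ℝ => q * u ^ (a + 1)) volume 0 t :=
    (intervalIntegral.intervalIntegrable_rpow' (by linarith)).const_mul q
  rw [intervalIntegral.integral_congr h1, intervalIntegral.integral_add i1 i2,
    intervalIntegral.integral_const_mul, intervalIntegral.integral_const_mul,
    integral_rpow (Or.inl (by linarith)), integral_rpow (Or.inl (by linarith)),
    Real.zero_rpow (by linarith), Real.zero_rpow (by linarith)]
  have h3 : a + 1 + 1 = a + 2 := by ring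
  rw [h3]
  ring

/-- the inner integral -/
private theorem ek_inner {a : ℝ} (ha : 0 < a) {r : ℝ} (hr : r ∈ Set.Icc (0 : ℝ) 1) :
    ∫ r' in (0 : ℝ)..1, (1 / 2 - r') * |r - r'| ^ a =
      ((1 / 2 - r) * r ^ (a + 1) / (a + 1) + r ^ (a + 2) / (a + 2)) +
      ((1 / 2 - r) * (1 - r) ^ (a + 1) / (a + 1) - (1 - r) ^ (a + 2) / (a + 2)) := by
  have hc : Continuous fun r' : ℝ => (1 / 2 - r') * |r - r'| ^ a := by
    refine (by fun_prop : Continuous fun r' : ℝ => 1 / 2 - r').mul ?_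
    exact (by fun_prop : Continuous fun r' : ℝ => |r - r'|).rpow_const fun _ => Or.inr ha.le
  rw [← intervalIntegral.integral_add_adjacent_intervals (hc.intervalIntegrable 0 r)
    (hc.intervalIntegrable r 1)]
  congr 1
  · have h1 : ∫ r' in (0 : ℝ)..r, (1 / 2 - r') * |r - r'| ^ a =
        ∫ u in (0 : ℝ)..r, ((1 / 2 - r) + 1 * u) * u ^ a := by
      have h2 := intervalIntegral.integral_comp_sub_left (a := 0) (b := r)
        (fun u : ℝ => ((1 / 2 - r) + 1 * u) * |u| ^ a) r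
      rw [sub_zero, sub_self] at h2
      have h3 : ∫ r' in (0 : ℝ)..r, (1 / 2 - r') * |r - r'| ^ a =
          ∫ x in (0 : ℝ)..r, ((1 / 2 - r) + 1 * (r - x)) * |r - x| ^ a := by
        refine intervalIntegral.integral_congr fun x _ => ?_
        ring
      rw [h3, h2]
      refine intervalIntegral.integral_congr fun x hx => ?_
      rw [Set.uIcc_of_le hr.1] at hx
      rw [abs_of_nonneg hx.1]
    rw [h1, ek_prim ha _ _ hr.1]
    ring
  · have h1 : ∫ r' in r..(1 : ℝ), (1 / 2 - r') * |r - r'| ^ a =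
        ∫ u in (0 : ℝ)..(1 - r), ((1 / 2 - r) + (-1) * u) * u ^ a := by
      have h2 := intervalIntegral.integral_comp_sub_right (a := r) (b := 1)
        (fun u : ℝ => ((1 / 2 - r) + (-1) * u) * |u| ^ a) r
      rw [sub_self] at h2
      have h3 : ∫ r' in r..(1 : ℝ), (1 / 2 - r') * |r - r'| ^ a =
          ∫ x in r..(1 : ℝ), ((1 / 2 - r) + (-1) * (x - r)) * |x - r| ^ a := by
        refine intervalIntegral.integral_congr fun x _ => ?_
        rw [abs_sub_comm]
        ring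
      rw [h3, h2]
      refine intervalIntegral.integral_congr fun x hx => ?_
      rw [Set.uIcc_of_le (by linarith [hr.2])] at hx
      rw [abs_of_nonneg hx.1]
    rw [h1, ek_prim ha _ _ (by linarith [hr.2])]
    ring

/-- `∫_0^1 r^b = 1/(b+1)` -/
private theorem ek_pow {b : ℝ} (hb : 0 < b) : ∫ r in (0 : ℝ)..1, r ^ b = 1 / (b + 1) := by
  rw [integral_rpow (Or.inl (by linarith)), Real.zero_rpow (by linarith), Real.one_rpow]
  ring

theorem kap_eq {H : ℝ} (hH : 0 < H) :
    kap H = H / (8 * (2 * H + 1) * (H + 1) * (H + 2)) := by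
  set a := 2 * H with ha'
  have ha : 0 < a := by positivity
  -- the function `P`
  set P : ℝ → ℝ := fun r => (1 / 2 - r) ^ 2 * r ^ (a + 1) / (a + 1) +
    (1 / 2 - r) * r ^ (a + 2) / (a + 2) with hP
  have hPc : Continuous P := by
    have c1 : Continuous fun r : ℝ => r ^ (a + 1) :=
      continuous_id.rpow_const fun _ => Or.inr (by linarith)
    have c2 : Continuous fun r : ℝ => r ^ (a + 2) :=
      continuous_id.rpow_const fun _ => Or.inr (by linarith)
    exact ((((by fun_prop : Continuous fun r : ℝ => (1 / 2 - r) ^ 2).mul c1).div_const _).add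
      (((by fun_prop : Continuous fun r : ℝ => 1 / 2 - r).mul c2).div_const _))
  have h1 : ∫ r in (0 : ℝ)..1, ∫ r' in (0 : ℝ)..1,
      (1 / 2 - r) * (1 / 2 - r') * |r - r'| ^ a = ∫ r in (0 : ℝ)..1, (P r + P (1 - r)) := by
    refine intervalIntegral.integral_congr fun r hr => ?_
    rw [Set.uIcc_of_le zero_le_one] at hr
    have h2 : ∫ r' in (0 : ℝ)..1, (1 / 2 - r) * (1 / 2 - r') * |r - r'| ^ a =
        (1 / 2 - r) * ∫ r' in (0 : ℝ)..1, (1 / 2 - r') * |r - r'| ^ a := by
      rw [← intervalIntegral.integral_const_mul]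
      refine intervalIntegral.integral_congr fun x _ => ?_
      ring
    rw [h2, ek_inner ha hr, hP]
    simp only
    ring
  have h3 : ∫ r in (0 : ℝ)..1, P (1 - r) = ∫ r in (0 : ℝ)..1, P r := by
    simp
  have h4 : ∫ r in (0 : ℝ)..1, P r =
      (1 / (4 * (a + 2)) - 1 / (a + 3) + 1 / (a + 4)) / (a + 1) +
        (1 / (2 * (a + 3)) - 1 / (a + 4)) / (a + 2) := by
    have e : ∀ r ∈ Set.uIcc (0 : ℝ) 1, P r =
        ((1 / 4) / (a + 1)) * r ^ (a + 1) + (-(1 / (a + 1)) + (1 / 2) / (a + 2)) * r ^ (a + 2) +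
          (1 / (a + 1) - 1 / (a + 2)) * r ^ (a + 3) := by
      intro r hr
      rw [Set.uIcc_of_le zero_le_one] at hr
      have e1 : r ^ (a + 2) = r ^ (a + 1) * r := by
        rw [← Real.rpow_add_one' hr.1 (by linarith)]
        congr 1
        ring
      have e2 : r ^ (a + 3) = r ^ (a + 1) * r * r := by
        rw [← e1, ← Real.rpow_add_one' hr.1 (by linarith)]
        congr 1
        ring
      rw [hP]
      simp only
      rw [e1, e2]
      field_simp
      ring
    have j1 : IntervalIntegrable (fun r : ℝ => ((1 / 4) / (a + 1)) * r ^ (a + 1)) volume 0 1 :=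
      (intervalIntegral.intervalIntegrable_rpow' (by linarith)).const_mul _
    have j2 : IntervalIntegrable (fun r : ℝ => (-(1 / (a + 1)) + (1 / 2) / (a + 2)) *
        r ^ (a + 2)) volume 0 1 :=
      (intervalIntegral.intervalIntegrable_rpow' (by linarith)).const_mul _
    have j3 : IntervalIntegrable (fun r : ℝ => (1 / (a + 1) - 1 / (a + 2)) * r ^ (a + 3))
        volume 0 1 :=
      (intervalIntegral.intervalIntegrable_rpow' (by linarith)).const_mul _
    rw [intervalIntegral.integral_congr e, intervalIntegral.integral_add (j1.add j2) j3,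
      intervalIntegral.integral_add j1 j2, intervalIntegral.integral_const_mul,
      intervalIntegral.integral_const_mul, intervalIntegral.integral_const_mul,
      ek_pow (by linarith), ek_pow (by linarith), ek_pow (by linarith)]
    have e3 : a + 1 + 1 = a + 2 := by ring
    have e4 : a + 2 + 1 = a + 3 := by ring
    have e5 : a + 3 + 1 = a + 4 := by ring
    rw [e3, e4, e5]
    field_simp
    ring
  have j4 : IntervalIntegrable (fun r : ℝ => P (1 - r)) volume 0 1 :=
    (hPc.comp (by fun_prop : Continuous fun r : ℝ => 1 - r)).intervalIntegrable _ _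
  unfold kap
  rw [← ha', h1, intervalIntegral.integral_add (hPc.intervalIntegrable _ _) j4, h3, h4]
  rw [ha']
  field_simp
  ring
variable {H : ℝ} {φ β D V : ℝ → ℝ}

private theorem ek_cont (hM : MPot H φ β D V) : Continuous (Kf β) := by
  have hb := hM.bcont
  refine (by fun_prop : Continuous fun z : ℝ × ℝ => (z.2 - z.1) ^ 2).mul ?_
  refine intervalIntegral.continuous_parametric_intervalIntegral_of_continuous' ?_ 0 1
  fun_prop

theorem kf_meas (hM : MPot H φ β D V) : Measurable (Kf β) := (ek_cont hM).measurable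

private theorem ek_half : ∫ r in (0 : ℝ)..1, (1 / 2 - r) = 0 := by
  rw [intervalIntegral.integral_sub (by simp) (by simp)]
  simp

theorem kf_eq (hM : MPot H φ β D V) (x y : ℝ) :
    V y - V x - (y - x) * (D x + D y) / 2 = Kf β (x, y) := by
  have hb := hM.bcont
  set h := y - x with hh
  have hd : ∀ r : ℝ, HasDerivAt (fun r => V (x + r * h) + (1 / 2 - r) * (h * D (x + r * h)))
      ((1 / 2 - r) * (h ^ 2 * (-1 + β (x + r * h)))) r := by
    intro r
    have h1 : HasDerivAt (fun r : ℝ => x + r * h) h r := by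
      simpa using ((hasDerivAt_id r).mul_const h).const_add x
    have h2 : HasDerivAt (fun r => V (x + r * h)) (D (x + r * h) * h) r :=
      (hM.dV (x + r * h)).comp r h1
    have h3 : HasDerivAt (fun r => D (x + r * h)) ((-1 + β (x + r * h)) * h) r :=
      (hM.dD (x + r * h)).comp r h1
    have h4 : HasDerivAt (fun r : ℝ => 1 / 2 - r) (-1) r := by
      exact (hasDerivAt_id r).const_sub (1 / 2)
    have h5 := h2.add (h4.mul (h3.const_mul h))
    refine h5.congr_deriv ?_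
    ring
  have hc : Continuous fun r : ℝ => (1 / 2 - r) * (h ^ 2 * (-1 + β (x + r * h))) := by fun_prop
  have h6 := intervalIntegral.integral_eq_sub_of_hasDerivAt (a := 0) (b := 1)
    (fun r _ => hd r) (hc.intervalIntegrable _ _)
  have i1 : IntervalIntegrable (fun r : ℝ => (-h ^ 2) * (1 / 2 - r)) volume 0 1 :=
    (by fun_prop : Continuous fun r : ℝ => (-h ^ 2) * (1 / 2 - r)).intervalIntegrable _ _
  have i2 : IntervalIntegrable (fun r : ℝ => h ^ 2 * ((1 / 2 - r) * β (x + r * h))) volume 0 1 :=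
    (by fun_prop : Continuous fun r : ℝ => h ^ 2 * ((1 / 2 - r) *
      β (x + r * h))).intervalIntegrable _ _
  have h7 : ∫ r in (0 : ℝ)..1, (1 / 2 - r) * (h ^ 2 * (-1 + β (x + r * h))) = Kf β (x, y) := by
    have e : ∀ r : ℝ, (1 / 2 - r) * (h ^ 2 * (-1 + β (x + r * h))) =
        (-h ^ 2) * (1 / 2 - r) + h ^ 2 * ((1 / 2 - r) * β (x + r * h)) := fun r => by ring
    simp only [e]
    rw [intervalIntegral.integral_add i1 i2, intervalIntegral.integral_const_mul,
      intervalIntegral.integral_const_mul, ek_half, mul_zero, zero_add]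
    rfl
  rw [← h7, h6]
  have e1 : x + 1 * h = y := by rw [hh]; ring
  have e0 : x + 0 * h = x := by ring
  rw [e1, e0]
  ring

theorem kf_swap (hM : MPot H φ β D V) (z : ℝ × ℝ) : Kf β z.swap = - Kf β z := by
  have _ := hM
  have h1 := intervalIntegral.integral_comp_sub_left (a := 0) (b := 1)
    (fun r : ℝ => (1 / 2 - r) * β (z.2 + r * (z.1 - z.2))) 1
  rw [sub_self, sub_zero] at h1
  have h2 : ∫ r in (0 : ℝ)..1, (1 / 2 - (1 - r)) * β (z.2 + (1 - r) * (z.1 - z.2)) =
      -∫ r in (0 : ℝ)..1, (1 / 2 - r) * β (z.1 + r * (z.2 - z.1)) := by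
    rw [← intervalIntegral.integral_neg]
    refine intervalIntegral.integral_congr fun r _ => ?_
    have e : z.2 + (1 - r) * (z.1 - z.2) = z.1 + r * (z.2 - z.1) := by ring
    simp only [e]
    ring
  unfold Kf
  rw [Prod.fst_swap, Prod.snd_swap, ← h1, h2]
  ring

theorem kf_abs (hM : MPot H φ β D V) : ∃ C : ℝ, ∀ z, |Kf β z| ≤ C * (z.2 - z.1) ^ 2 := by
  obtain ⟨C, hC⟩ := hM.bbdd
  have hC0 : 0 ≤ C := (abs_nonneg _).trans (hC 0)
  refine ⟨C, fun z => ?_⟩
  unfold Kf
  rw [abs_mul, abs_of_nonneg (sq_nonneg _), mul_comm]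
  refine mul_le_mul_of_nonneg_right ?_ (sq_nonneg _)
  have h1 := intervalIntegral.norm_integral_le_of_norm_le_const (a := 0) (b := 1) (C := C)
    (f := fun r : ℝ => (1 / 2 - r) * β (z.1 + r * (z.2 - z.1))) (fun r hr => by
      rw [Set.uIoc_of_le zero_le_one] at hr
      rw [norm_mul, Real.norm_eq_abs, Real.norm_eq_abs]
      have h2 : |1 / 2 - r| ≤ 1 := by
        rw [abs_le]
        constructor <;> linarith [hr.1, hr.2]
      calc |1 / 2 - r| * |β (z.1 + r * (z.2 - z.1))| ≤ 1 * C :=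
            mul_le_mul h2 (hC _) (abs_nonneg _) zero_le_one
        _ = C := one_mul C)
  simpa using h1

/-- `MPot H` forces `0 < H` -/
private theorem ek_hpos (hM : MPot H φ β D V) : 0 < H := by
  by_contra hH
  rw [not_lt] at hH
  obtain ⟨C, hC⟩ := hM.bbdd
  have hb := hM.bcont
  set g : ℝ → ℝ := fun x => max (1 - |x|) 0 with hg
  have hgc : Continuous g := by
    rw [hg]; fun_prop
  have hgs : HasCompactSupport g := by
    refine HasCompactSupport.intro (isCompact_Icc (a := (-1 : ℝ)) (b := 1)) fun x hx => ?_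
    rw [hg]
    simp only
    rw [max_eq_right]
    by_contra hcon
    rw [not_le] at hcon
    apply hx
    have : |x| < 1 := by linarith
    exact ⟨(abs_lt.1 this).1.le, (abs_lt.1 this).2.le⟩
  have hg0 : ∀ x, 0 ≤ g x := fun x => le_max_right _ _
  have hl := hM.lln g hgc hgs
  have hint : Integrable g := hgc.integrable_of_hasCompactSupport hgs
  -- the integrals tend to zero
  have hz : Tendsto (fun h : ℝ => ∫ x, g x * (β (x + h) - β x) ^ 2) (𝓝[≠] 0) (𝓝 0) := by
    have h1 : Tendsto (fun h : ℝ => ∫ x, g x * (β (x + h) - β x) ^ 2) (𝓝[≠] 0)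
        (𝓝 (∫ x, g x * (0 : ℝ))) := by
      refine tendsto_integral_filter_of_dominated_convergence (fun x => g x * (2 * C) ^ 2)
        (Eventually.of_forall fun h => (by fun_prop :
          Continuous fun x => g x * (β (x + h) - β x) ^ 2).aestronglyMeasurable)
        (Eventually.of_forall fun h => Eventually.of_forall fun x => ?_)
        (hint.mul_const _) (Eventually.of_forall fun x => ?_)
      · rw [Real.norm_of_nonneg (mul_nonneg (hg0 x) (sq_nonneg _))]
        refine mul_le_mul_of_nonneg_left ?_ (hg0 x)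
        rw [← sq_abs (β (x + h) - β x)]
        refine pow_le_pow_left₀ (abs_nonneg _) ?_ 2
        exact (abs_sub _ _).trans (by linarith [hC (x + h), hC x])
      · have h2 : Tendsto (fun h : ℝ => g x * (β (x + h) - β x) ^ 2) (𝓝 0)
            (𝓝 (g x * (β (x + 0) - β x) ^ 2)) :=
          (by fun_prop : Continuous fun h : ℝ => g x * (β (x + h) - β x) ^ 2).tendsto 0
        rw [add_zero, sub_self] at h2
        simp only [ne_eq, OfNat.ofNat_ne_zero, not_false_eq_true, zero_pow] at h2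
        exact h2.mono_left nhdsWithin_le_nhds
    simpa using h1
  have hsmall : ∀ᶠ h : ℝ in 𝓝[≠] 0, |h| ≤ 1 := by
    have h1 : ∀ᶠ h : ℝ in 𝓝 (0 : ℝ), |h| < 1 := by
      have := (continuous_abs : Continuous fun x : ℝ => |x|).tendsto 0
      rw [abs_zero] at this
      exact (tendsto_order.1 this).2 1 one_pos
    exact (h1.filter_mono nhdsWithin_le_nhds).mono fun h hh => hh.le
  have hz2 : Tendsto (fun h : ℝ => |h| ^ (-(2 * H)) * ∫ x, g x * (β (x + h) - β x) ^ 2)
      (𝓝[≠] 0) (𝓝 0) := by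
    refine squeeze_zero' (Eventually.of_forall fun h => ?_) ?_ hz
    · exact mul_nonneg (Real.rpow_nonneg (abs_nonneg _) _)
        (integral_nonneg fun x => mul_nonneg (hg0 x) (sq_nonneg _))
    · filter_upwards [hsmall] with h hh
      have h3 : |h| ^ (-(2 * H)) ≤ 1 := Real.rpow_le_one (abs_nonneg _) hh (by linarith)
      have h4 : 0 ≤ ∫ x, g x * (β (x + h) - β x) ^ 2 :=
        integral_nonneg fun x => mul_nonneg (hg0 x) (sq_nonneg _)
      calc |h| ^ (-(2 * H)) * ∫ x, g x * (β (x + h) - β x) ^ 2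
          ≤ 1 * ∫ x, g x * (β (x + h) - β x) ^ 2 := mul_le_mul_of_nonneg_right h3 h4
        _ = _ := one_mul _
  have huniq := tendsto_nhds_unique hl hz2
  have hφc := hM.φcont
  have hpos : 0 < ∫ x, g x * φ x ^ 2 := by
    refine Continuous.integral_pos_of_hasCompactSupport_nonneg_nonzero (x := 0)
      (by fun_prop) hgs.mul_right (fun x => mul_nonneg (hg0 x) (sq_nonneg _)) ?_
    have h1 : g 0 = 1 := by rw [hg]; simp
    have h2 := (hM.φmem 0).1
    rw [h1, one_mul]
    exact (pow_pos h2 2).ne'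
  linarith

theorem kf_pol (hM : MPot H φ β D V) (x h : ℝ) :
    (∫ r in (0 : ℝ)..1, (1 / 2 - r) * β (x + r * h)) ^ 2
      = -(1 / 2) * ∫ r in (0 : ℝ)..1, ∫ r' in (0 : ℝ)..1,
        (1 / 2 - r) * (1 / 2 - r') * (β (x + r * h) - β (x + r' * h)) ^ 2 := by
  have hb := hM.bcont
  set A := ∫ r in (0 : ℝ)..1, (1 / 2 - r) * β (x + r * h) with hA
  set B := ∫ r in (0 : ℝ)..1, (1 / 2 - r) * β (x + r * h) ^ 2 with hB
  have h1 : ∀ r : ℝ, ∫ r' in (0 : ℝ)..1,
      (1 / 2 - r) * (1 / 2 - r') * (β (x + r * h) - β (x + r' * h)) ^ 2 =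
      (-2 * A) * ((1 / 2 - r) * β (x + r * h)) + B * (1 / 2 - r) := by
    intro r
    have e : ∀ r' : ℝ, (1 / 2 - r) * (1 / 2 - r') * (β (x + r * h) - β (x + r' * h)) ^ 2 =
        ((1 / 2 - r) * β (x + r * h) ^ 2) * (1 / 2 - r') +
        (-2 * ((1 / 2 - r) * β (x + r * h))) * ((1 / 2 - r') * β (x + r' * h)) +
        (1 / 2 - r) * ((1 / 2 - r') * β (x + r' * h) ^ 2) := fun r' => by ring
    simp only [e]
    have i1 : IntervalIntegrable (fun r' : ℝ => ((1 / 2 - r) * β (x + r * h) ^ 2) *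
        (1 / 2 - r')) volume 0 1 := (by fun_prop : Continuous fun r' : ℝ =>
          ((1 / 2 - r) * β (x + r * h) ^ 2) * (1 / 2 - r')).intervalIntegrable _ _
    have i2 : IntervalIntegrable (fun r' : ℝ => (-2 * ((1 / 2 - r) * β (x + r * h))) *
        ((1 / 2 - r') * β (x + r' * h))) volume 0 1 := (by fun_prop : Continuous fun r' : ℝ =>
          (-2 * ((1 / 2 - r) * β (x + r * h))) *
          ((1 / 2 - r') * β (x + r' * h))).intervalIntegrable _ _
    have i3 : IntervalIntegrable (fun r' : ℝ => (1 / 2 - r) *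
        ((1 / 2 - r') * β (x + r' * h) ^ 2)) volume 0 1 := (by fun_prop :
          Continuous fun r' : ℝ => (1 / 2 - r) *
          ((1 / 2 - r') * β (x + r' * h) ^ 2)).intervalIntegrable _ _
    rw [intervalIntegral.integral_add (i1.add i2) i3, intervalIntegral.integral_add i1 i2,
      intervalIntegral.integral_const_mul, intervalIntegral.integral_const_mul,
      intervalIntegral.integral_const_mul, ek_half, ← hA, ← hB]
    ring
  simp only [h1]
  have i1 : IntervalIntegrable (fun r : ℝ => (-2 * A) * ((1 / 2 - r) * β (x + r * h)))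
      volume 0 1 := (by fun_prop : Continuous fun r : ℝ =>
        (-2 * A) * ((1 / 2 - r) * β (x + r * h))).intervalIntegrable _ _
  have i2 : IntervalIntegrable (fun r : ℝ => B * (1 / 2 - r)) volume 0 1 :=
    (by fun_prop : Continuous fun r : ℝ => B * (1 / 2 - r)).intervalIntegrable _ _
  rw [intervalIntegral.integral_add i1 i2, intervalIntegral.integral_const_mul,
    intervalIntegral.integral_const_mul, ek_half, ← hA]
  ring

private theorem ek_fub {F : ℝ → ℝ → ℝ} (hF : Continuous (Function.uncurry F)) {G : ℝ → ℝ}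
    (hG : Integrable G) (hb : ∀ x, ∀ r ∈ Ioc (0 : ℝ) 1, |F x r| ≤ G x) :
    Integrable (fun x => ∫ r in (0 : ℝ)..1, F x r) ∧
      IntervalIntegrable (fun r => ∫ x, F x r) volume 0 1 ∧
      ∫ x, ∫ r in (0 : ℝ)..1, F x r = ∫ r in (0 : ℝ)..1, ∫ x, F x r := by
  have hi : Integrable (Function.uncurry F)
      ((volume : Measure ℝ).prod (volume.restrict (Ioc (0 : ℝ) 1))) := by
    refine Integrable.mono' (hG.comp_fst (volume.restrict (Ioc (0 : ℝ) 1)))
      hF.aestronglyMeasurable ?_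
    have e : (volume : Measure ℝ).prod (volume.restrict (Ioc (0 : ℝ) 1)) =
        ((volume : Measure ℝ).prod volume).restrict (univ ×ˢ Ioc (0 : ℝ) 1) := by
      rw [← Measure.prod_restrict, Measure.restrict_univ]
    rw [e]
    refine ae_restrict_of_forall_mem (MeasurableSet.univ.prod measurableSet_Ioc) fun z hz => ?_
    exact hb z.1 z.2 hz.2
  have e1 : ∀ x, ∫ r in (0 : ℝ)..1, F x r = ∫ r, F x r ∂(volume.restrict (Ioc (0 : ℝ) 1)) :=
    fun x => intervalIntegral.integral_of_le zero_le_one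
  simp only [e1]
  refine ⟨hi.integral_prod_left, ?_, ?_⟩
  · rw [intervalIntegrable_iff_integrableOn_Ioc_of_le zero_le_one]
    exact hi.integral_prod_right
  · rw [integral_integral_swap hi, intervalIntegral.integral_of_le zero_le_one]

private theorem ek_gauss8 : Integrable fun x : ℝ => Real.exp (-x ^ 2 / 8) := by
  have h := integrable_exp_neg_mul_sq (b := 1 / 8) (by norm_num)
  refine h.congr (Eventually.of_forall fun x => ?_)
  simp only
  congr 1
  ring

private theorem ek_jensen {f : ℝ → ℝ} (hf : Continuous f) :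
    (∫ r in (0 : ℝ)..1, f r) ^ 2 ≤ ∫ r in (0 : ℝ)..1, f r ^ 2 := by
  set m := ∫ r in (0 : ℝ)..1, f r with hm
  have h1 : 0 ≤ ∫ r in (0 : ℝ)..1, (f r - m) ^ 2 :=
    intervalIntegral.integral_nonneg zero_le_one fun r _ => sq_nonneg _
  have h2 : ∫ r in (0 : ℝ)..1, (f r - m) ^ 2 = (∫ r in (0 : ℝ)..1, f r ^ 2) - m ^ 2 := by
    have e : ∀ r, (f r - m) ^ 2 = f r ^ 2 + ((-2 * m) * f r + m ^ 2) := fun r => by ring
    simp only [e]
    have i1 : IntervalIntegrable (fun r => f r ^ 2) volume 0 1 :=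
      (hf.pow 2).intervalIntegrable _ _
    have i2 : IntervalIntegrable (fun r => (-2 * m) * f r) volume 0 1 :=
      (continuous_const.mul hf).intervalIntegrable _ _
    have i3 : IntervalIntegrable (fun _ : ℝ => m ^ 2) volume 0 1 := by simp
    rw [intervalIntegral.integral_add i1 (i2.add i3), intervalIntegral.integral_add i2 i3,
      intervalIntegral.integral_const_mul, ← hm]
    simp
    ring
  linarith

/-- `Kf` through increments -/
private theorem ek_incr (hM : MPot H φ β D V) (x h : ℝ) :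
    Kf β (x, x + h) = h ^ 2 * ∫ r in (0 : ℝ)..1, (1 / 2 - r) * (β (x + r * h) - β x) := by
  have hb := hM.bcont
  unfold Kf
  have e1 : (x, x + h).2 - (x, x + h).1 = h := by simp
  simp only [e1]
  congr 1
  have i1 : IntervalIntegrable (fun r : ℝ => (1 / 2 - r) * β (x + r * h)) volume 0 1 :=
    (by fun_prop : Continuous fun r : ℝ => (1 / 2 - r) * β (x + r * h)).intervalIntegrable _ _
  have i2 : IntervalIntegrable (fun r : ℝ => β x * (1 / 2 - r)) volume 0 1 :=
    (by fun_prop : Continuous fun r : ℝ => β x * (1 / 2 - r)).intervalIntegrable _ _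
  have h2 : ∫ r in (0 : ℝ)..1, (1 / 2 - r) * (β (x + r * h) - β x) =
      (∫ r in (0 : ℝ)..1, (1 / 2 - r) * β (x + r * h)) -
        ∫ r in (0 : ℝ)..1, β x * (1 / 2 - r) := by
    rw [← intervalIntegral.integral_sub i1 i2]
    refine intervalIntegral.integral_congr fun r _ => ?_
    ring
  rw [h2, intervalIntegral.integral_const_mul, ek_half, mul_zero, sub_zero]

theorem kf_sq (hM : MPot H φ β D V) :
    ∃ C : ℝ, ∀ h : ℝ, Integrable (fun x => Real.exp (-x ^ 2 / 8) * Kf β (x, x + h) ^ 2) ∧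
      ∫ x, Real.exp (-x ^ 2 / 8) * Kf β (x, x + h) ^ 2 ≤ C * |h| ^ (4 + 2 * H) := by
  have hH := ek_hpos hM
  obtain ⟨C, hC⟩ := hM.bbdd
  have hC0 : 0 ≤ C := (abs_nonneg _).trans (hC 0)
  obtain ⟨K, hK⟩ := hM.bound
  have hb := hM.bcont
  have hK0 : 0 ≤ K := by
    have h1 := hK 1
    have h2 : (0 : ℝ) ≤ ∫ x, Real.exp (-x ^ 2 / 8) * (β (x + 1) - β x) ^ 2 :=
      integral_nonneg fun x => by positivity
    simp only [abs_one, Real.one_rpow, mul_one] at h1
    linarith
  refine ⟨K, fun h => ?_⟩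
  set F : ℝ → ℝ → ℝ := fun x r => (h ^ 2) ^ 2 * (Real.exp (-x ^ 2 / 8) *
    ((1 / 2 - r) * (β (x + r * h) - β x)) ^ 2) with hF
  have hFc : Continuous (Function.uncurry F) := by
    have e : Function.uncurry F = fun z : ℝ × ℝ => (h ^ 2) ^ 2 * (Real.exp (-z.1 ^ 2 / 8) *
      ((1 / 2 - z.2) * (β (z.1 + z.2 * h) - β z.1)) ^ 2) := rfl
    rw [e]
    fun_prop
  have hinc : ∀ x r, r ∈ Ioc (0 : ℝ) 1 →
      ((1 / 2 - r) * (β (x + r * h) - β x)) ^ 2 ≤ (β (x + r * h) - β x) ^ 2 := by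
    intro x r hr
    rw [mul_pow]
    have h1 : (1 / 2 - r) ^ 2 ≤ 1 := by nlinarith [hr.1, hr.2]
    calc (1 / 2 - r) ^ 2 * (β (x + r * h) - β x) ^ 2 ≤ 1 * (β (x + r * h) - β x) ^ 2 :=
          mul_le_mul_of_nonneg_right h1 (sq_nonneg _)
      _ = _ := one_mul _
  have hsq : ∀ x s, (β (x + s) - β x) ^ 2 ≤ (2 * C) ^ 2 := by
    intro x s
    rw [← sq_abs]
    refine pow_le_pow_left₀ (abs_nonneg _) ?_ 2
    exact (abs_sub _ _).trans (by linarith [hC (x + s), hC x])
  obtain ⟨f1, f2, f3⟩ := ek_fub hFc (G := fun x => (h ^ 2) ^ 2 * (Real.exp (-x ^ 2 / 8) *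
      (2 * C) ^ 2)) ((ek_gauss8.mul_const _).const_mul _) (fun x r hr => by
    rw [hF]
    simp only
    rw [abs_of_nonneg (by positivity)]
    refine mul_le_mul_of_nonneg_left (mul_le_mul_of_nonneg_left ?_ (Real.exp_pos _).le)
      (by positivity)
    exact (hinc x r hr).trans (hsq x (r * h)))
  have hpt : ∀ x, Real.exp (-x ^ 2 / 8) * Kf β (x, x + h) ^ 2 ≤ ∫ r in (0 : ℝ)..1, F x r := by
    intro x
    rw [ek_incr hM, mul_pow, hF]
    simp only
    rw [intervalIntegral.integral_const_mul, intervalIntegral.integral_const_mul]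
    have h1 := ek_jensen (f := fun r => (1 / 2 - r) * (β (x + r * h) - β x)) (by fun_prop)
    have h2 : 0 ≤ Real.exp (-x ^ 2 / 8) * (h ^ 2) ^ 2 := by positivity
    have h3 := mul_le_mul_of_nonneg_left h1 h2
    linarith
  have hKc : Continuous fun x => Real.exp (-x ^ 2 / 8) * Kf β (x, x + h) ^ 2 := by
    have := ek_cont hM
    fun_prop
  have hint : Integrable (fun x => Real.exp (-x ^ 2 / 8) * Kf β (x, x + h) ^ 2) := by
    refine Integrable.mono' f1 hKc.aestronglyMeasurable (Eventually.of_forall fun x => ?_)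
    rw [Real.norm_of_nonneg (by positivity)]
    exact hpt x
  refine ⟨hint, (integral_mono hint f1 hpt).trans ?_⟩
  rw [f3]
  have hr : ∀ r ∈ Icc (0 : ℝ) 1, ∫ x, F x r ≤ (h ^ 2) ^ 2 * (K * |h| ^ (2 * H)) := by
    intro r hr
    rw [hF]
    simp only
    rw [integral_const_mul]
    refine mul_le_mul_of_nonneg_left ?_ (by positivity)
    have h1 : ∫ x, Real.exp (-x ^ 2 / 8) * ((1 / 2 - r) * (β (x + r * h) - β x)) ^ 2 ≤
        ∫ x, Real.exp (-x ^ 2 / 8) * (β (x + r * h) - β x) ^ 2 := by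
      have hI : Integrable fun x => Real.exp (-x ^ 2 / 8) * (β (x + r * h) - β x) ^ 2 := by
        refine Integrable.mono' (ek_gauss8.mul_const ((2 * C) ^ 2))
          (by fun_prop : Continuous fun x => Real.exp (-x ^ 2 / 8) *
            (β (x + r * h) - β x) ^ 2).aestronglyMeasurable (Eventually.of_forall fun x => ?_)
        rw [Real.norm_of_nonneg (by positivity)]
        exact mul_le_mul_of_nonneg_left (hsq x (r * h)) (Real.exp_pos _).le
      refine integral_mono_of_nonneg (Eventually.of_forall fun x => by positivity) hI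
        (Eventually.of_forall fun x => ?_)
      refine mul_le_mul_of_nonneg_left ?_ (Real.exp_pos _).le
      rw [mul_pow]
      have h1 : (1 / 2 - r) ^ 2 ≤ 1 := by nlinarith [hr.1, hr.2]
      calc (1 / 2 - r) ^ 2 * (β (x + r * h) - β x) ^ 2 ≤ 1 * (β (x + r * h) - β x) ^ 2 :=
            mul_le_mul_of_nonneg_right h1 (sq_nonneg _)
        _ = _ := one_mul _
    refine (h1.trans (hK (r * h))).trans (mul_le_mul_of_nonneg_left ?_ hK0)
    refine Real.rpow_le_rpow (abs_nonneg _) ?_ (by positivity)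
    rw [abs_mul, abs_of_nonneg hr.1]
    exact mul_le_of_le_one_left (abs_nonneg _) hr.2
  have h1 : ∫ r in (0 : ℝ)..1, ∫ x, F x r ≤
      ∫ _r in (0 : ℝ)..1, (h ^ 2) ^ 2 * (K * |h| ^ (2 * H)) :=
    intervalIntegral.integral_mono_on zero_le_one f2 (by simp) hr
  refine h1.trans (le_of_eq ?_)
  rw [intervalIntegral.integral_const, sub_zero, one_smul,
    Real.rpow_add' (abs_nonneg _) (by positivity)]
  have e : |h| ^ (4 : ℝ) = (h ^ 2) ^ 2 := by
    rw [← sq_abs h]
    norm_cast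
    ring
  rw [e]
  ring

private theorem ek_K (hM : MPot H φ β D V) : ∃ K : ℝ, 0 ≤ K ∧ ∀ h : ℝ,
    Integrable (fun x => Real.exp (-x ^ 2 / 8) * (β (x + h) - β x) ^ 2) ∧
    ∫ x, Real.exp (-x ^ 2 / 8) * (β (x + h) - β x) ^ 2 ≤ K * |h| ^ (2 * H) := by
  obtain ⟨C, hC⟩ := hM.bbdd
  obtain ⟨K, hK⟩ := hM.bound
  have hb := hM.bcont
  have hK0 : 0 ≤ K := by
    have h1 := hK 1
    have h2 : (0 : ℝ) ≤ ∫ x, Real.exp (-x ^ 2 / 8) * (β (x + 1) - β x) ^ 2 :=
      integral_nonneg fun x => by positivity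
    simp only [abs_one, Real.one_rpow, mul_one] at h1
    linarith
  refine ⟨K, hK0, fun h => ⟨?_, hK h⟩⟩
  refine Integrable.mono' (ek_gauss8.mul_const ((2 * C) ^ 2))
    (by fun_prop : Continuous fun x => Real.exp (-x ^ 2 / 8) *
      (β (x + h) - β x) ^ 2).aestronglyMeasurable (Eventually.of_forall fun x => ?_)
  rw [Real.norm_of_nonneg (by positivity)]
  refine mul_le_mul_of_nonneg_left ?_ (Real.exp_pos _).le
  rw [← sq_abs]
  refine pow_le_pow_left₀ (abs_nonneg _) ?_ 2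
  exact (abs_sub _ _).trans (by linarith [hC (x + h), hC x])

/-- translates of a test function are bounded by the Gaussian -/
private theorem ek_test {g : ℝ → ℝ} (hg : Continuous g) (hg' : HasCompactSupport g) :
    ∃ W : ℝ, 0 ≤ W ∧ (∀ s x : ℝ, |s| ≤ 1 → |g (x - s)| ≤ W * Real.exp (-x ^ 2 / 8)) ∧
      ∀ ε : ℝ, 0 < ε → ∃ δ : ℝ, 0 < δ ∧ δ ≤ 1 ∧ ∀ s x : ℝ, |s| < δ →
        |g (x - s) - g x| ≤ ε * Real.exp (-x ^ 2 / 8) := by
  obtain ⟨G, hG⟩ := hg.bounded_above_of_compact_support hg'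
  have hG0 : 0 ≤ G := (norm_nonneg _).trans (hG 0)
  obtain ⟨R, hR0, hR⟩ := hg'.isCompact.isBounded.subset_ball_lt 0 0
  have hz : ∀ x, R ≤ |x| → g x = 0 := by
    intro x hx
    by_contra hne
    have h1 := hR (subset_tsupport g hne)
    rw [Metric.mem_ball, dist_zero_right, Real.norm_eq_abs] at h1
    linarith
  have hz' : ∀ s x : ℝ, |s| ≤ 1 → R + 1 ≤ |x| → g (x - s) = 0 := by
    intro s x hs hx
    apply hz
    have h1 := abs_sub_abs_le_abs_sub x s
    linarith
  set E := Real.exp ((R + 1) ^ 2 / 8) with hE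
  have hEb : ∀ x : ℝ, |x| < R + 1 → 1 ≤ E * Real.exp (-x ^ 2 / 8) := by
    intro x hx
    rw [hE, ← Real.exp_add]
    apply Real.one_le_exp
    have h1 : x ^ 2 ≤ (R + 1) ^ 2 := by
      rw [← sq_abs x]
      exact pow_le_pow_left₀ (abs_nonneg _) hx.le 2
    linarith
  have hE0 : 0 < E := Real.exp_pos _
  refine ⟨G * E, by positivity, fun s x hs => ?_, fun ε hε => ?_⟩
  · rcases lt_or_ge |x| (R + 1) with hx | hx
    · have h1 := hG (x - s)
      rw [Real.norm_eq_abs] at h1
      have h2 := mul_le_mul_of_nonneg_left (hEb x hx) hG0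
      linarith
    · rw [hz' s x hs hx, abs_zero]
      positivity
  · have huc := hg'.uniformContinuous_of_continuous hg
    obtain ⟨δ, hδ, hδ'⟩ := Metric.uniformContinuous_iff.1 huc (ε / E) (by positivity)
    refine ⟨min δ 1, lt_min hδ one_pos, min_le_right _ _, fun s x hs => ?_⟩
    have hs1 : |s| < δ := lt_of_lt_of_le hs (min_le_left _ _)
    have hs2 : |s| ≤ 1 := (lt_of_lt_of_le hs (min_le_right _ _)).le
    rcases lt_or_ge |x| (R + 1) with hx | hx
    · have h1 := hδ' (a := x - s) (b := x) (by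
        rw [Real.dist_eq]
        have : x - s - x = -s := by ring
        rw [this, abs_neg]
        exact hs1)
      rw [Real.dist_eq] at h1
      have h2 := mul_le_mul_of_nonneg_left (hEb x hx) (by positivity : 0 ≤ ε / E)
      have h3 : ε / E * (E * Real.exp (-x ^ 2 / 8)) = ε * Real.exp (-x ^ 2 / 8) := by
        field_simp
      linarith
    · rw [hz' s x hs2 hx, hz x (by linarith), sub_zero, abs_zero]
      positivity

private theorem ek_shift (g : ℝ → ℝ) (β : ℝ → ℝ) (r r' h : ℝ) :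
    ∫ x, g x * (β (x + r * h) - β (x + r' * h)) ^ 2 =
      ∫ x, g (x - r' * h) * (β (x + (r - r') * h) - β x) ^ 2 := by
  rw [← integral_sub_right_eq_self (fun x => g x * (β (x + r * h) - β (x + r' * h)) ^ 2)
    (r' * h)]
  refine integral_congr_ae (Eventually.of_forall fun x => ?_)
  simp only
  have e1 : x - r' * h + r * h = x + (r - r') * h := by ring
  have e2 : x - r' * h + r' * h = x := by ring
  rw [e1, e2]

theorem kf_two (hM : MPot H φ β D V) (hH : 0 < H) {g : ℝ → ℝ} (hg : Continuous g)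
    (hg' : HasCompactSupport g) (r r' : ℝ) (hr : r ≠ r') :
    Tendsto (fun h : ℝ => |h| ^ (-(2 * H)) * ∫ x, g x * (β (x + r * h) - β (x + r' * h)) ^ 2)
      (𝓝[≠] 0) (𝓝 (|r - r'| ^ (2 * H) * ∫ x, g x * φ x ^ 2)) := by
  have hb := hM.bcont
  obtain ⟨K, hK0, hK⟩ := ek_K hM
  obtain ⟨W, hW0, hW, hu⟩ := ek_test hg hg'
  have hrr : r - r' ≠ 0 := sub_ne_zero.2 hr
  have hp : 0 < |r - r'| := abs_pos.2 hrr
  -- the main term
  have hk : Tendsto (fun h : ℝ => (r - r') * h) (𝓝[≠] 0) (𝓝[≠] 0) := by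
    refine tendsto_nhdsWithin_iff.2 ⟨?_, ?_⟩
    · have h1 : Tendsto (fun h : ℝ => (r - r') * h) (𝓝 0) (𝓝 ((r - r') * 0)) :=
        (continuous_const.mul continuous_id).tendsto 0
      rw [mul_zero] at h1
      exact h1.mono_left nhdsWithin_le_nhds
    · filter_upwards [self_mem_nhdsWithin] with h hh
      exact mul_ne_zero hrr hh
  have h1 := (hM.lln g hg hg').comp hk
  have h2 := h1.const_mul (|r - r'| ^ (2 * H))
  have hpow : ∀ h : ℝ, h ≠ 0 → |r - r'| ^ (2 * H) * |(r - r') * h| ^ (-(2 * H)) =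
      |h| ^ (-(2 * H)) := by
    intro h hh
    rw [abs_mul, Real.mul_rpow (abs_nonneg _) (abs_nonneg _), ← mul_assoc, ← Real.rpow_add hp]
    simp
  -- the error
  have herr : Tendsto (fun h : ℝ => |h| ^ (-(2 * H)) *
      (∫ x, g x * (β (x + r * h) - β (x + r' * h)) ^ 2) -
      |r - r'| ^ (2 * H) * (|(r - r') * h| ^ (-(2 * H)) *
        ∫ x, g x * (β (x + (r - r') * h) - β x) ^ 2)) (𝓝[≠] 0) (𝓝 0) := by
    rw [Metric.tendsto_nhds]
    intro ε hε
    set Q := K * |r - r'| ^ (2 * H) + 1 with hQ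
    have hrp : 0 ≤ |r - r'| ^ (2 * H) := Real.rpow_nonneg (abs_nonneg _) _
    have hQ0 : 0 < Q := by positivity
    obtain ⟨δ, hδ, hδ1, hδ'⟩ := hu (ε / Q) (by positivity)
    have hs : ∀ᶠ h : ℝ in 𝓝[≠] 0, |r' * h| < δ := by
      have h3 : Tendsto (fun h : ℝ => |r' * h|) (𝓝 0) (𝓝 (|r' * 0|)) :=
        (by fun_prop : Continuous fun h : ℝ => |r' * h|).tendsto 0
      rw [mul_zero, abs_zero] at h3
      exact ((tendsto_order.1 h3).2 δ hδ).filter_mono nhdsWithin_le_nhds
    filter_upwards [hs, self_mem_nhdsWithin] with h hh1 hh0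
    have hh0' : h ≠ 0 := hh0
    have hhp : 0 < |h| := abs_pos.2 hh0'
    rw [Real.dist_eq, sub_zero, ← mul_assoc, hpow h hh0', ← mul_sub, abs_mul,
      abs_of_pos (Real.rpow_pos_of_pos hhp _), ek_shift]
    have i1 : Integrable fun x => g (x - r' * h) * (β (x + (r - r') * h) - β x) ^ 2 := by
      have hgs : HasCompactSupport fun x => g (x - r' * h) :=
        hg'.comp_homeomorph (Homeomorph.subRight (r' * h))
      exact (by fun_prop : Continuous fun x => g (x - r' * h) *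
        (β (x + (r - r') * h) - β x) ^ 2).integrable_of_hasCompactSupport hgs.mul_right
    have i2 : Integrable fun x => g x * (β (x + (r - r') * h) - β x) ^ 2 :=
      (by fun_prop : Continuous fun x => g x *
        (β (x + (r - r') * h) - β x) ^ 2).integrable_of_hasCompactSupport hg'.mul_right
    rw [← integral_sub i1 i2]
    have h4 : |∫ x, (g (x - r' * h) * (β (x + (r - r') * h) - β x) ^ 2 -
        g x * (β (x + (r - r') * h) - β x) ^ 2)| ≤
        ε / Q * (K * |(r - r') * h| ^ (2 * H)) := by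
      rw [← Real.norm_eq_abs]
      refine (norm_integral_le_of_norm_le ((hK ((r - r') * h)).1.const_mul (ε / Q))
        (Eventually.of_forall fun x => ?_)).trans ?_
      · rw [← sub_mul, norm_mul, Real.norm_eq_abs, Real.norm_of_nonneg (sq_nonneg _)]
        have := mul_le_mul_of_nonneg_right (hδ' (r' * h) x hh1)
          (sq_nonneg (β (x + (r - r') * h) - β x))
        linarith
      · rw [integral_const_mul]
        exact mul_le_mul_of_nonneg_left (hK _).2 (by positivity)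
    have h5 := mul_le_mul_of_nonneg_left h4 (Real.rpow_pos_of_pos hhp (-(2 * H))).le
    refine lt_of_le_of_lt h5 ?_
    rw [abs_mul, Real.mul_rpow (abs_nonneg _) (abs_nonneg _)]
    have e1 : |h| ^ (-(2 * H)) * |h| ^ (2 * H) = 1 := by
      rw [← Real.rpow_add hhp]
      simp
    have e2 : |h| ^ (-(2 * H)) * (ε / Q * (K * (|r - r'| ^ (2 * H) * |h| ^ (2 * H)))) =
        ε * (K * |r - r'| ^ (2 * H)) / Q * (|h| ^ (-(2 * H)) * |h| ^ (2 * H)) := by ring
    rw [e2, e1, mul_one, div_lt_iff₀ hQ0, hQ]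
    exact mul_lt_mul_of_pos_left (by linarith) hε
  have h3 := herr.add h2
  rw [zero_add] at h3
  refine h3.congr fun h => ?_
  simp only [Function.comp]
  ring

/-- the rescaled two point integral -/
private noncomputable def ekT (H : ℝ) (g β : ℝ → ℝ) (h r r' : ℝ) : ℝ :=
  |h| ^ (-(2 * H)) * ∫ x, g x * (β (x + r * h) - β (x + r' * h)) ^ 2

private theorem ekT_lim (hM : MPot H φ β D V) {g : ℝ → ℝ} (hg : Continuous g)
    (hg' : HasCompactSupport g) (r r' : ℝ) :
    Tendsto (fun h : ℝ => ekT H g β h r r') (𝓝[≠] 0)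
      (𝓝 (|r - r'| ^ (2 * H) * ∫ x, g x * φ x ^ 2)) := by
  have hH := ek_hpos hM
  by_cases hr : r = r'
  · subst hr
    have e : ∀ h : ℝ, ekT H g β h r r = 0 := by
      intro h
      unfold ekT
      simp
    simp only [e, sub_self, abs_zero]
    rw [Real.zero_rpow (by positivity), zero_mul]
    exact tendsto_const_nhds
  · exact kf_two hM hH hg hg' r r' hr

private theorem ekT_bdd (hM : MPot H φ β D V) {g : ℝ → ℝ} (hg : Continuous g)
    (hg' : HasCompactSupport g) : ∃ M : ℝ, 0 ≤ M ∧ ∀ h : ℝ, h ≠ 0 → |h| ≤ 1 →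
      ∀ r ∈ Icc (0 : ℝ) 1, ∀ r' ∈ Icc (0 : ℝ) 1, |ekT H g β h r r'| ≤ M := by
  have hH := ek_hpos hM
  have hb := hM.bcont
  obtain ⟨K, hK0, hK⟩ := ek_K hM
  obtain ⟨W, hW0, hW, -⟩ := ek_test hg hg'
  refine ⟨W * K, by positivity, fun h hh0 hh r hr r' hr' => ?_⟩
  have hhp : 0 < |h| := abs_pos.2 hh0
  unfold ekT
  rw [ek_shift, abs_mul, abs_of_pos (Real.rpow_pos_of_pos hhp _)]
  have hs : |r' * h| ≤ 1 := by
    rw [abs_mul, abs_of_nonneg hr'.1]
    exact mul_le_one₀ hr'.2 (abs_nonneg _) hh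
  have h4 : |∫ x, g (x - r' * h) * (β (x + (r - r') * h) - β x) ^ 2| ≤
      W * (K * |(r - r') * h| ^ (2 * H)) := by
    rw [← Real.norm_eq_abs]
    refine (norm_integral_le_of_norm_le ((hK ((r - r') * h)).1.const_mul W)
      (Eventually.of_forall fun x => ?_)).trans ?_
    · rw [norm_mul, Real.norm_eq_abs, Real.norm_of_nonneg (sq_nonneg _)]
      have := mul_le_mul_of_nonneg_right (hW (r' * h) x hs)
        (sq_nonneg (β (x + (r - r') * h) - β x))
      linarith
    · rw [integral_const_mul]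
      exact mul_le_mul_of_nonneg_left (hK _).2 hW0
  have h5 := mul_le_mul_of_nonneg_left h4 (Real.rpow_pos_of_pos hhp (-(2 * H))).le
  refine h5.trans ?_
  rw [abs_mul, Real.mul_rpow (abs_nonneg _) (abs_nonneg _)]
  have e1 : |h| ^ (-(2 * H)) * |h| ^ (2 * H) = 1 := by
    rw [← Real.rpow_add hhp]
    simp
  have e2 : |h| ^ (-(2 * H)) * (W * (K * (|r - r'| ^ (2 * H) * |h| ^ (2 * H)))) =
      W * K * |r - r'| ^ (2 * H) * (|h| ^ (-(2 * H)) * |h| ^ (2 * H)) := by ring
  rw [e2, e1, mul_one]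
  have h6 : |r - r'| ^ (2 * H) ≤ 1 := by
    refine Real.rpow_le_one (abs_nonneg _) ?_ (by positivity)
    rw [abs_le]
    constructor <;> linarith [hr.1, hr.2, hr'.1, hr'.2]
  calc W * K * |r - r'| ^ (2 * H) ≤ W * K * 1 :=
        mul_le_mul_of_nonneg_left h6 (by positivity)
    _ = W * K := mul_one _

private theorem ekT_meas (hM : MPot H φ β D V) {g : ℝ → ℝ} (hg : Continuous g) (h : ℝ) :
    StronglyMeasurable fun z : ℝ × ℝ => ekT H g β h z.1 z.2 := by
  have hb := hM.bcont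
  unfold ekT
  refine StronglyMeasurable.const_mul ?_ _
  have hc : Continuous fun w : (ℝ × ℝ) × ℝ =>
      g w.2 * (β (w.2 + w.1.1 * h) - β (w.2 + w.1.2 * h)) ^ 2 := by fun_prop
  exact StronglyMeasurable.integral_prod_right (f := fun (z : ℝ × ℝ) (x : ℝ) =>
    g x * (β (x + z.1 * h) - β (x + z.2 * h)) ^ 2) hc.stronglyMeasurable

private theorem ek_small : ∀ᶠ h : ℝ in 𝓝[≠] 0, |h| ≤ 1 := by
  have h1 : ∀ᶠ h : ℝ in 𝓝 (0 : ℝ), |h| < 1 := by
    have := (continuous_abs : Continuous fun x : ℝ => |x|).tendsto 0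
    rw [abs_zero] at this
    exact (tendsto_order.1 this).2 1 one_pos
  exact (h1.filter_mono nhdsWithin_le_nhds).mono fun h hh => hh.le

private theorem ek_kk {r r' : ℝ} (hr : r ∈ Icc (0 : ℝ) 1) (hr' : r' ∈ Icc (0 : ℝ) 1) :
    |(1 / 2 - r) * (1 / 2 - r')| ≤ 1 := by
  rw [abs_mul]
  refine mul_le_one₀ ?_ (abs_nonneg _) ?_
  · rw [abs_le]
    constructor <;> linarith [hr.1, hr.2]
  · rw [abs_le]
    constructor <;> linarith [hr'.1, hr'.2]

/-- the double integral of `ekT` converges -/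
private theorem ek_dbl (hM : MPot H φ β D V) {g : ℝ → ℝ} (hg : Continuous g)
    (hg' : HasCompactSupport g) :
    Tendsto (fun h : ℝ => ∫ r in (0 : ℝ)..1, ∫ r' in (0 : ℝ)..1,
        (1 / 2 - r) * (1 / 2 - r') * ekT H g β h r r') (𝓝[≠] 0)
      (𝓝 (∫ r in (0 : ℝ)..1, ∫ r' in (0 : ℝ)..1,
        (1 / 2 - r) * (1 / 2 - r') * (|r - r'| ^ (2 * H) * ∫ x, g x * φ x ^ 2))) := by
  obtain ⟨M, hM0, hMb⟩ := ekT_bdd hM hg hg'
  have hmeas : ∀ h : ℝ, StronglyMeasurable fun z : ℝ × ℝ =>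
      (1 / 2 - z.1) * (1 / 2 - z.2) * ekT H g β h z.1 z.2 := fun h =>
    ((by fun_prop : Continuous fun z : ℝ × ℝ =>
      (1 / 2 - z.1) * (1 / 2 - z.2)).stronglyMeasurable).mul (ekT_meas hM hg h)
  have hbd : ∀ h : ℝ, h ≠ 0 → |h| ≤ 1 → ∀ r ∈ Icc (0 : ℝ) 1, ∀ r' ∈ Icc (0 : ℝ) 1,
      ‖(1 / 2 - r) * (1 / 2 - r') * ekT H g β h r r'‖ ≤ M := by
    intro h h0 h1 r hr r' hr'
    rw [norm_mul, Real.norm_eq_abs, Real.norm_eq_abs]
    calc |(1 / 2 - r) * (1 / 2 - r')| * |ekT H g β h r r'| ≤ 1 * M :=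
          mul_le_mul (ek_kk hr hr') (hMb h h0 h1 r hr r' hr') (abs_nonneg _) zero_le_one
      _ = M := one_mul M
  refine intervalIntegral.tendsto_integral_filter_of_dominated_convergence (fun _ => M)
    (Eventually.of_forall fun h => ?_) ?_ (by simp) (Eventually.of_forall fun r hr => ?_)
  · have h1 := StronglyMeasurable.integral_prod_right
      (ν := (volume : Measure ℝ).restrict (Ioc (0 : ℝ) 1))
      (f := fun r r' : ℝ => (1 / 2 - r) * (1 / 2 - r') * ekT H g β h r r') (hmeas h)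
    have e : (fun r : ℝ => ∫ r' in (0 : ℝ)..1, (1 / 2 - r) * (1 / 2 - r') * ekT H g β h r r') =
        fun r => ∫ r', (1 / 2 - r) * (1 / 2 - r') * ekT H g β h r r'
          ∂((volume : Measure ℝ).restrict (Ioc (0 : ℝ) 1)) := by
      funext r
      exact intervalIntegral.integral_of_le zero_le_one
    rw [e]
    exact h1.aestronglyMeasurable
  · filter_upwards [ek_small, self_mem_nhdsWithin] with h h1 h0
    refine Eventually.of_forall fun r hr => ?_
    rw [Set.uIoc_of_le zero_le_one] at hr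
    have h2 := intervalIntegral.norm_integral_le_of_norm_le_const (a := 0) (b := 1) (C := M)
      (f := fun r' : ℝ => (1 / 2 - r) * (1 / 2 - r') * ekT H g β h r r') (fun r' hr' => by
        rw [Set.uIoc_of_le zero_le_one] at hr'
        exact hbd h h0 h1 r ⟨hr.1.le, hr.2⟩ r' ⟨hr'.1.le, hr'.2⟩)
    simpa using h2
  · rw [Set.uIoc_of_le zero_le_one] at hr
    refine intervalIntegral.tendsto_integral_filter_of_dominated_convergence (fun _ => M)
      (Eventually.of_forall fun h => ?_) ?_ (by simp) (Eventually.of_forall fun r' _ => ?_)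
    · exact ((hmeas h).comp_measurable (measurable_const.prodMk measurable_id :
        Measurable fun r' : ℝ => (r, r'))).aestronglyMeasurable
    · filter_upwards [ek_small, self_mem_nhdsWithin] with h h1 h0
      refine Eventually.of_forall fun r' hr' => ?_
      rw [Set.uIoc_of_le zero_le_one] at hr'
      exact hbd h h0 h1 r ⟨hr.1.le, hr.2⟩ r' ⟨hr'.1.le, hr'.2⟩
    · exact (ekT_lim hM hg hg' r r').const_mul _

private theorem ek_swap (hM : MPot H φ β D V) {g : ℝ → ℝ} (hg : Continuous g)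
    (hg' : HasCompactSupport g) (h : ℝ) :
    ∫ x, g x * Kf β (x, x + h) ^ 2 = -(1 / 2) * (h ^ 2) ^ 2 *
      ∫ r in (0 : ℝ)..1, ∫ r' in (0 : ℝ)..1, (1 / 2 - r) * (1 / 2 - r') *
        ∫ x, g x * (β (x + r * h) - β (x + r' * h)) ^ 2 := by
  obtain ⟨C, hC⟩ := hM.bbdd
  have hb := hM.bcont
  have hgi : Integrable g := hg.integrable_of_hasCompactSupport hg'
  have hsq : ∀ x r r' : ℝ, (β (x + r * h) - β (x + r' * h)) ^ 2 ≤ (2 * C) ^ 2 := by
    intro x r r'
    rw [← sq_abs]
    refine pow_le_pow_left₀ (abs_nonneg _) ?_ 2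
    exact (abs_sub _ _).trans (by linarith [hC (x + r * h), hC (x + r' * h)])
  have hpt : ∀ x, g x * Kf β (x, x + h) ^ 2 = (-(1 / 2) * (h ^ 2) ^ 2) *
      ∫ r in (0 : ℝ)..1, ∫ r' in (0 : ℝ)..1,
        g x * ((1 / 2 - r) * (1 / 2 - r') * (β (x + r * h) - β (x + r' * h)) ^ 2) := by
    intro x
    have e1 : (x, x + h).2 - (x, x + h).1 = h := by simp
    unfold Kf
    simp only [e1]
    rw [mul_pow, kf_pol hM x h]
    simp only [intervalIntegral.integral_const_mul]
    ring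
  simp only [hpt]
  rw [integral_const_mul]
  congr 1
  have hbd : ∀ x : ℝ, ∀ r ∈ Icc (0 : ℝ) 1, ∀ r' ∈ Icc (0 : ℝ) 1,
      |g x * ((1 / 2 - r) * (1 / 2 - r') * (β (x + r * h) - β (x + r' * h)) ^ 2)| ≤
        |g x| * (2 * C) ^ 2 := by
    intro x r hr r' hr'
    rw [abs_mul, abs_mul, abs_of_nonneg (sq_nonneg (β (x + r * h) - β (x + r' * h)))]
    refine mul_le_mul_of_nonneg_left ?_ (abs_nonneg _)
    calc |(1 / 2 - r) * (1 / 2 - r')| * (β (x + r * h) - β (x + r' * h)) ^ 2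
        ≤ 1 * (2 * C) ^ 2 := mul_le_mul (ek_kk hr hr') (hsq x r r') (sq_nonneg _) zero_le_one
      _ = (2 * C) ^ 2 := one_mul _
  have hc1 : Continuous (Function.uncurry fun x r : ℝ => ∫ r' in (0 : ℝ)..1,
      g x * ((1 / 2 - r) * (1 / 2 - r') * (β (x + r * h) - β (x + r' * h)) ^ 2)) := by
    refine intervalIntegral.continuous_parametric_intervalIntegral_of_continuous'
      (f := fun (z : ℝ × ℝ) (r' : ℝ) => g z.1 * ((1 / 2 - z.2) * (1 / 2 - r') *
        (β (z.1 + z.2 * h) - β (z.1 + r' * h)) ^ 2)) ?_ 0 1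
    fun_prop
  have hG : Integrable fun x => |g x| * (2 * C) ^ 2 := hgi.abs.mul_const _
  obtain ⟨-, -, f3⟩ := ek_fub hc1 hG (fun x r hr => by
    have h2 := intervalIntegral.norm_integral_le_of_norm_le_const (a := 0) (b := 1)
      (C := |g x| * (2 * C) ^ 2)
      (f := fun r' : ℝ => g x * ((1 / 2 - r) * (1 / 2 - r') *
        (β (x + r * h) - β (x + r' * h)) ^ 2)) (fun r' hr' => by
        rw [Set.uIoc_of_le zero_le_one] at hr'
        exact hbd x r ⟨hr.1.le, hr.2⟩ r' ⟨hr'.1.le, hr'.2⟩)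
    simpa using h2)
  rw [f3]
  refine intervalIntegral.integral_congr fun r hr => ?_
  rw [Set.uIcc_of_le zero_le_one] at hr
  have hc2 : Continuous (Function.uncurry fun x r' : ℝ =>
      g x * ((1 / 2 - r) * (1 / 2 - r') * (β (x + r * h) - β (x + r' * h)) ^ 2)) := by
    show Continuous fun z : ℝ × ℝ =>
      g z.1 * ((1 / 2 - r) * (1 / 2 - z.2) * (β (z.1 + r * h) - β (z.1 + z.2 * h)) ^ 2)
    fun_prop
  obtain ⟨-, -, f4⟩ := ek_fub hc2 hG (fun x r' hr' => hbd x r hr r' ⟨hr'.1.le, hr'.2⟩)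
  rw [f4]
  refine intervalIntegral.integral_congr fun r' _ => ?_
  rw [← integral_const_mul]
  refine integral_congr_ae (Eventually.of_forall fun x => ?_)
  simp only
  ring

theorem kf_lln (hM : MPot H φ β D V) (hH : 0 < H) {g : ℝ → ℝ} (hg : Continuous g)
    (hg' : HasCompactSupport g) :
    Tendsto (fun h : ℝ => |h| ^ (-(4 + 2 * H)) * ∫ x, g x * Kf β (x, x + h) ^ 2)
      (𝓝[≠] 0) (𝓝 (kap H * ∫ x, g x * φ x ^ 2)) := by
  have h1 := (ek_dbl hM hg hg').const_mul (-(1 / 2))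
  have hlim : -(1 / 2) * (∫ r in (0 : ℝ)..1, ∫ r' in (0 : ℝ)..1,
      (1 / 2 - r) * (1 / 2 - r') * (|r - r'| ^ (2 * H) * ∫ x, g x * φ x ^ 2)) =
      kap H * ∫ x, g x * φ x ^ 2 := by
    unfold kap
    rw [mul_assoc]
    congr 1
    rw [← intervalIntegral.integral_mul_const]
    refine intervalIntegral.integral_congr fun r _ => ?_
    rw [← intervalIntegral.integral_mul_const]
    refine intervalIntegral.integral_congr fun r' _ => ?_
    ring
  rw [hlim] at h1
  refine h1.congr' ?_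
  filter_upwards [self_mem_nhdsWithin] with h hh0
  have hh0' : h ≠ 0 := hh0
  have hhp : 0 < |h| := abs_pos.2 hh0'
  rw [ek_swap hM hg hg' h]
  have e1 : |h| ^ (-(4 + 2 * H)) * (h ^ 2) ^ 2 = |h| ^ (-(2 * H)) := by
    have e2 : (h ^ 2) ^ 2 = |h| ^ (4 : ℝ) := by
      rw [← sq_abs h]
      norm_cast
      ring
    rw [e2, ← Real.rpow_add hhp]
    congr 1
    ring
  have e3 : ∫ r in (0 : ℝ)..1, ∫ r' in (0 : ℝ)..1, (1 / 2 - r) * (1 / 2 - r') *
      ekT H g β h r r' = |h| ^ (-(2 * H)) * ∫ r in (0 : ℝ)..1, ∫ r' in (0 : ℝ)..1,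
        (1 / 2 - r) * (1 / 2 - r') * ∫ x, g x * (β (x + r * h) - β (x + r' * h)) ^ 2 := by
    rw [← intervalIntegral.integral_const_mul]
    refine intervalIntegral.integral_congr fun r _ => ?_
    rw [← intervalIntegral.integral_const_mul]
    refine intervalIntegral.integral_congr fun r' _ => ?_
    unfold ekT
    ring
  rw [e3, ← e1]
  ring

/-- extension to rapidly decreasing `m`: cut off and use `kf_sq` for the tail -/
theorem kf_lln' (hM : MPot H φ β D V) (hH : 0 < H) {m : ℝ → ℝ} (hm : Continuous m) {A : ℝ}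
    (hA : ∀ x, |m x| ≤ A * Real.exp (-x ^ 2 / 4)) :
    Tendsto (fun h : ℝ => |h| ^ (-(4 + 2 * H)) * ∫ x, m x * Kf β (x, x + h) ^ 2)
      (𝓝[≠] 0) (𝓝 (kap H * ∫ x, m x * φ x ^ 2)) := by
  have hA0 : 0 ≤ A := by
    have h1 := (abs_nonneg _).trans (hA 0)
    simpa using h1
  obtain ⟨C, hC⟩ := kf_sq hM
  have hC0 : 0 ≤ C := by
    have h1 := (hC 1).2
    have h2 : (0 : ℝ) ≤ ∫ x, Real.exp (-x ^ 2 / 8) * Kf β (x, x + 1) ^ 2 :=
      integral_nonneg fun x => by positivity
    simp only [abs_one, Real.one_rpow, mul_one] at h1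
    linarith
  set J : ℝ := ∫ x : ℝ, Real.exp (-x ^ 2 / 8) with hJ
  have hJ0 : 0 ≤ J := integral_nonneg fun x => (Real.exp_pos _).le
  have hφc := hM.φcont
  have hKc := ek_cont hM
  -- cutoffs
  set χ : ℕ → ℝ → ℝ := fun n x => max 0 (min 1 ((n : ℝ) + 1 - |x|)) with hχ
  have hχc : ∀ n, Continuous (χ n) := fun n => by
    rw [hχ]; fun_prop
  have hχs : ∀ n, HasCompactSupport (χ n) := by
    intro n
    refine HasCompactSupport.intro (isCompact_Icc (a := -((n : ℝ) + 1)) (b := (n : ℝ) + 1))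
      fun x hx => ?_
    rw [hχ]
    simp only
    rw [max_eq_left]
    by_contra hcon
    rw [not_le] at hcon
    apply hx
    have h1 : 0 < (n : ℝ) + 1 - |x| := lt_of_lt_of_le hcon (min_le_right _ _)
    have h2 : |x| < (n : ℝ) + 1 := by linarith
    exact ⟨(abs_lt.1 h2).1.le, (abs_lt.1 h2).2.le⟩
  have hχ1 : ∀ n x, 0 ≤ 1 - χ n x ∧ 1 - χ n x ≤ 1 := by
    intro n x
    rw [hχ]
    simp only
    constructor
    · have : max 0 (min 1 ((n : ℝ) + 1 - |x|)) ≤ 1 := max_le zero_le_one (min_le_left _ _)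
      linarith
    · linarith [le_max_left (0 : ℝ) (min 1 ((n : ℝ) + 1 - |x|))]
  have htail : ∀ (n : ℕ) (x : ℝ), |m x - m x * χ n x| ≤
      A * Real.exp (-(n : ℝ) ^ 2 / 8) * Real.exp (-x ^ 2 / 8) := by
    intro n x
    have e : m x - m x * χ n x = m x * (1 - χ n x) := by ring
    rw [e, abs_mul, abs_of_nonneg (hχ1 n x).1]
    rcases le_or_gt |x| n with hx | hx
    · have h1 : χ n x = 1 := by
        rw [hχ]
        simp only
        rw [min_eq_left (by linarith), max_eq_right zero_le_one]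
      rw [h1, sub_self, mul_zero]
      positivity
    · have h1 : Real.exp (-x ^ 2 / 4) ≤ Real.exp (-(n : ℝ) ^ 2 / 8) * Real.exp (-x ^ 2 / 8) := by
        rw [← Real.exp_add]
        apply Real.exp_le_exp.2
        have h2 : (n : ℝ) ^ 2 ≤ x ^ 2 := by
          rw [← sq_abs x]
          exact pow_le_pow_left₀ (Nat.cast_nonneg n) hx.le 2
        linarith
      calc |m x| * (1 - χ n x) ≤ (A * Real.exp (-x ^ 2 / 4)) * 1 :=
            mul_le_mul (hA x) (hχ1 n x).2 (hχ1 n x).1 (by positivity)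
        _ = A * Real.exp (-x ^ 2 / 4) := mul_one _
        _ ≤ A * (Real.exp (-(n : ℝ) ^ 2 / 8) * Real.exp (-x ^ 2 / 8)) :=
            mul_le_mul_of_nonneg_left h1 hA0
        _ = _ := by ring
  have hm8 : ∀ x, |m x| ≤ A * Real.exp (-x ^ 2 / 8) := by
    intro x
    refine (hA x).trans (mul_le_mul_of_nonneg_left ?_ hA0)
    apply Real.exp_le_exp.2
    nlinarith [sq_nonneg x]
  -- tail of the quadratic form
  have hmi : ∀ h : ℝ, Integrable fun x => m x * Kf β (x, x + h) ^ 2 := by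
    intro h
    refine Integrable.mono' ((hC h).1.const_mul A)
      (by fun_prop : Continuous fun x => m x * Kf β (x, x + h) ^ 2).aestronglyMeasurable
      (Eventually.of_forall fun x => ?_)
    rw [norm_mul, Real.norm_eq_abs, Real.norm_of_nonneg (sq_nonneg _)]
    have := mul_le_mul_of_nonneg_right (hm8 x) (sq_nonneg (Kf β (x, x + h)))
    linarith
  have hmi' : ∀ (n : ℕ) (h : ℝ), Integrable fun x => m x * χ n x * Kf β (x, x + h) ^ 2 := by
    intro n h
    have h1 := hχc n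
    exact (by fun_prop : Continuous fun x =>
      m x * χ n x * Kf β (x, x + h) ^ 2).integrable_of_hasCompactSupport
        ((hχs n).mul_left.mul_right)
  have hd1 : ∀ (n : ℕ) (h : ℝ), |(∫ x, m x * Kf β (x, x + h) ^ 2) -
      ∫ x, m x * χ n x * Kf β (x, x + h) ^ 2| ≤
      A * Real.exp (-(n : ℝ) ^ 2 / 8) * (C * |h| ^ (4 + 2 * H)) := by
    intro n h
    rw [← integral_sub (hmi h) (hmi' n h), ← Real.norm_eq_abs]
    refine (norm_integral_le_of_norm_le
      ((hC h).1.const_mul (A * Real.exp (-(n : ℝ) ^ 2 / 8)))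
      (Eventually.of_forall fun x => ?_)).trans ?_
    · rw [← sub_mul, norm_mul, Real.norm_eq_abs, Real.norm_of_nonneg (sq_nonneg _)]
      have := mul_le_mul_of_nonneg_right (htail n x) (sq_nonneg (Kf β (x, x + h)))
      linarith
    · rw [integral_const_mul]
      exact mul_le_mul_of_nonneg_left (hC h).2 (by positivity)
  have hφ1 : ∀ x, φ x ^ 2 ≤ 1 := fun x => pow_le_one₀ (hM.φmem x).1.le (hM.φmem x).2
  have hd2 : ∀ n : ℕ, |(∫ x, m x * χ n x * φ x ^ 2) - ∫ x, m x * φ x ^ 2| ≤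
      A * Real.exp (-(n : ℝ) ^ 2 / 8) * J := by
    intro n
    have h1 := hχc n
    have i1 : Integrable fun x => m x * φ x ^ 2 := by
      refine Integrable.mono' (ek_gauss8.const_mul A)
        (by fun_prop : Continuous fun x => m x * φ x ^ 2).aestronglyMeasurable
        (Eventually.of_forall fun x => ?_)
      rw [norm_mul, Real.norm_eq_abs, Real.norm_of_nonneg (sq_nonneg _)]
      calc |m x| * φ x ^ 2 ≤ (A * Real.exp (-x ^ 2 / 8)) * 1 :=
            mul_le_mul (hm8 x) (hφ1 x) (sq_nonneg _) (by positivity)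
        _ = _ := mul_one _
    have i2 : Integrable fun x => m x * χ n x * φ x ^ 2 :=
      (by fun_prop : Continuous fun x =>
        m x * χ n x * φ x ^ 2).integrable_of_hasCompactSupport ((hχs n).mul_left.mul_right)
    rw [abs_sub_comm, ← integral_sub i1 i2, ← Real.norm_eq_abs]
    refine (norm_integral_le_of_norm_le
      (ek_gauss8.const_mul (A * Real.exp (-(n : ℝ) ^ 2 / 8)))
      (Eventually.of_forall fun x => ?_)).trans (le_of_eq (integral_const_mul _ _))
    rw [← sub_mul, norm_mul, Real.norm_eq_abs, Real.norm_of_nonneg (sq_nonneg _)]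
    calc |m x - m x * χ n x| * φ x ^ 2
        ≤ (A * Real.exp (-(n : ℝ) ^ 2 / 8) * Real.exp (-x ^ 2 / 8)) * 1 :=
          mul_le_mul (htail n x) (hφ1 x) (sq_nonneg _) (by positivity)
      _ = _ := mul_one _
  -- the limit
  have hexp : Tendsto (fun n : ℕ => (A * C + |kap H| * (A * J)) * Real.exp (-(n : ℝ) ^ 2 / 8))
      atTop (𝓝 0) := by
    have h1 : Tendsto (fun n : ℕ => (n : ℝ) ^ 2 / 8) atTop atTop :=
      ((tendsto_pow_atTop two_ne_zero).comp tendsto_natCast_atTop_atTop).atTop_div_const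
        (by norm_num)
    have h2 := (Real.tendsto_exp_neg_atTop_nhds_zero.comp h1).const_mul
      (A * C + |kap H| * (A * J))
    rw [mul_zero] at h2
    refine h2.congr fun n => ?_
    simp only [Function.comp]
    congr 2
    ring
  rw [Metric.tendsto_nhds]
  intro ε hε
  obtain ⟨n, hn⟩ := ((tendsto_order.1 hexp).2 (ε / 2) (by positivity)).exists
  have hcn := hχc n
  have hl := kf_lln hM hH (g := fun x => m x * χ n x) (by fun_prop) (hχs n).mul_left
  rw [Metric.tendsto_nhds] at hl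
  filter_upwards [hl (ε / 2) (by positivity), self_mem_nhdsWithin] with h hh hh0
  have hh0' : h ≠ 0 := hh0
  have hhp : 0 < |h| := abs_pos.2 hh0'
  have hpp := Real.rpow_pos_of_pos hhp (-(4 + 2 * H))
  rw [Real.dist_eq] at hh ⊢
  have h3 : |(|h| ^ (-(4 + 2 * H)) * ∫ x, m x * Kf β (x, x + h) ^ 2) -
      |h| ^ (-(4 + 2 * H)) * ∫ x, m x * χ n x * Kf β (x, x + h) ^ 2| ≤
      A * C * Real.exp (-(n : ℝ) ^ 2 / 8) := by
    rw [← mul_sub, abs_mul, abs_of_pos hpp]
    refine (mul_le_mul_of_nonneg_left (hd1 n h) hpp.le).trans (le_of_eq ?_)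
    have e1 : |h| ^ (-(4 + 2 * H)) * |h| ^ (4 + 2 * H) = 1 := by
      rw [← Real.rpow_add hhp]
      simp
    calc |h| ^ (-(4 + 2 * H)) * (A * Real.exp (-(n : ℝ) ^ 2 / 8) * (C * |h| ^ (4 + 2 * H)))
        = A * C * Real.exp (-(n : ℝ) ^ 2 / 8) *
          (|h| ^ (-(4 + 2 * H)) * |h| ^ (4 + 2 * H)) := by ring
      _ = _ := by rw [e1, mul_one]
  have h4 : |kap H * (∫ x, m x * χ n x * φ x ^ 2) - kap H * ∫ x, m x * φ x ^ 2| ≤
      |kap H| * (A * J) * Real.exp (-(n : ℝ) ^ 2 / 8) := by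
    rw [← mul_sub, abs_mul]
    refine (mul_le_mul_of_nonneg_left (hd2 n) (abs_nonneg _)).trans (le_of_eq ?_)
    ring
  have h5 : (|h| ^ (-(4 + 2 * H)) * ∫ x, m x * Kf β (x, x + h) ^ 2) -
      kap H * ∫ x, m x * φ x ^ 2 =
      ((|h| ^ (-(4 + 2 * H)) * ∫ x, m x * Kf β (x, x + h) ^ 2) -
        |h| ^ (-(4 + 2 * H)) * ∫ x, m x * χ n x * Kf β (x, x + h) ^ 2) +
      ((|h| ^ (-(4 + 2 * H)) * ∫ x, m x * χ n x * Kf β (x, x + h) ^ 2) -
        kap H * ∫ x, m x * χ n x * φ x ^ 2) +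
      (kap H * (∫ x, m x * χ n x * φ x ^ 2) - kap H * ∫ x, m x * φ x ^ 2) := by ring
  rw [h5]
  have h6 := abs_add_three ((|h| ^ (-(4 + 2 * H)) * ∫ x, m x * Kf β (x, x + h) ^ 2) -
        |h| ^ (-(4 + 2 * H)) * ∫ x, m x * χ n x * Kf β (x, x + h) ^ 2)
      ((|h| ^ (-(4 + 2 * H)) * ∫ x, m x * χ n x * Kf β (x, x + h) ^ 2) -
        kap H * ∫ x, m x * χ n x * φ x ^ 2)
      (kap H * (∫ x, m x * χ n x * φ x ^ 2) - kap H * ∫ x, m x * φ x ^ 2)
  linarith

end Pool.Agent.Lib.MP_e19099_pr
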