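import Pool.Agent.Lib.MP_e19099_pr.DGood
import Pool.Agent.Lib.MP_e19099_pr.CNrm

/-!
# The MALA potential (module E, E0)

`β = b φ_c`, `D x = -x + ∫_0^x β`, `V x = -x²/2 + ∫_0^x β(u) (x-u) du`; `V' = D`, `D' = -1 + β`.
`bbdd`: `|β u| ≤ (C + u²/16) min(1, c'|u|^{-3}) ≤ C₁/(1+|u|)`.  `up`: `|∫_0^x β(u)(x-u) du| ≤ C₁ |x| log(1+|x|) ≤ C + x²/16`.
`bound`: `β(x+h) - β(x) = φ(x+h) (b(x+h) - b(x)) + b(x) (φ(x+h) - φ(x))`, `φ` is bounded by `1` and Lipschitz (`phic_lip`); for `|h| > 1` use that `β` is bounded.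
`lln`: the same decomposition, `φ(x+h)² → φ(x)²` uniformly, the second term is `O(|h|) = o(|h|^H)` in `L²`; `g φ²` is continuous with compact support, so `hb.lln` applies.
-/

set_option autoImplicit false

open MeasureTheory ProbabilityTheory Filter Set
open scoped NNReal Topology ENNReal

namespace Pool.Agent.Lib.MP_e19099_pr

/-- the cutoff `φ_c(x) = min(1, c^{3/(2H)} |x|^{-3})`, `φ_c(0) = 1` -/
noncomputable def phic (H c x : ℝ) : ℝ :=
  if x = 0 then 1 else min 1 (c ^ (3 / (2 * H)) * |x| ^ (-3 : ℝ))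

/-- the radius inside which `φ_c = 1` -/
private noncomputable def epR (H c : ℝ) : ℝ := c ^ (1 / (2 * H))

private theorem ep_R_pos (H : ℝ) {c : ℝ} (hc : 0 < c) : 0 < epR H c := Real.rpow_pos_of_pos hc _

private theorem ep_R_cube (H : ℝ) {c : ℝ} (hc : 0 < c) : c ^ (3 / (2 * H)) = epR H c ^ 3 := by
  unfold epR
  rw [← Real.rpow_natCast, ← Real.rpow_mul hc.le]
  congr 1
  push_cast
  ring

private theorem ep_phic {H c : ℝ} (hc : 0 < c) (x : ℝ) :
    phic H c x = (epR H c / max (epR H c) |x|) ^ 3 := by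
  have hm := ep_R_pos H hc
  unfold phic
  by_cases hx : x = 0
  · rw [if_pos hx, hx, abs_zero, max_eq_left hm.le, div_self hm.ne', one_pow]
  · have hp : 0 < |x| := abs_pos.2 hx
    rw [if_neg hx, ep_R_cube H hc]
    have h1 : |x| ^ (-3 : ℝ) = (|x| ^ 3)⁻¹ := by
      rw [Real.rpow_neg hp.le]
      congr 1
      norm_cast
    rw [h1, ← div_eq_mul_inv, ← div_pow]
    rcases le_or_gt |x| (epR H c) with h | h
    · rw [max_eq_left h, div_self hm.ne', one_pow, min_eq_left]
      exact one_le_pow₀ ((one_le_div hp).2 h)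
    · rw [max_eq_right h.le, min_eq_right]
      exact pow_le_one₀ (by positivity) ((div_le_one hp).2 h.le)

private theorem ep_t {H c : ℝ} (hc : 0 < c) (x : ℝ) :
    0 < epR H c / max (epR H c) |x| ∧ epR H c / max (epR H c) |x| ≤ 1 := by
  have hm := ep_R_pos H hc
  have h1 : 0 < max (epR H c) |x| := lt_max_of_lt_left hm
  exact ⟨div_pos hm h1, (div_le_one h1).2 (le_max_left _ _)⟩

theorem phic_mem {H c : ℝ} (hc : 0 < c) (x : ℝ) : 0 < phic H c x ∧ phic H c x ≤ 1 := by
  rw [ep_phic hc]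
  exact ⟨pow_pos (ep_t hc x).1 3, pow_le_one₀ (ep_t hc x).1.le (ep_t hc x).2⟩

theorem phic_lip {H c : ℝ} (hc : 0 < c) :
    ∃ C : ℝ, 0 ≤ C ∧ ∀ x y, |phic H c x - phic H c y| ≤ C * |x - y| := by
  have hm := ep_R_pos H hc
  refine ⟨3 / epR H c, by positivity, fun x y => ?_⟩
  rw [ep_phic hc, ep_phic hc]
  obtain ⟨t0, t1⟩ := ep_t (H := H) hc x
  obtain ⟨u0, u1⟩ := ep_t (H := H) hc y
  have hr : epR H c ≤ max (epR H c) |x| := le_max_left _ _
  have hs : epR H c ≤ max (epR H c) |y| := le_max_left _ _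
  have hrs : |max (epR H c) (|x|) - max (epR H c) (|y|)| ≤ |x - y| := by
    refine (abs_max_sub_max_le_max _ _ _ _).trans ?_
    rw [sub_self, abs_zero, max_eq_right (abs_nonneg _)]
    exact abs_abs_sub_abs_le _ _
  set r := max (epR H c) |x| with hrdef
  set s := max (epR H c) |y| with hsdef
  set m := epR H c with hmdef
  have hr0 : 0 < r := hm.trans_le hr
  have hs0 : 0 < s := hm.trans_le hs
  have h1 : |m / r - m / s| ≤ |x - y| / m := by
    have e : m / r - m / s = m * (s - r) / (r * s) := by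
      field_simp
    rw [e, abs_div, abs_mul, abs_of_pos hm, abs_of_pos (mul_pos hr0 hs0), abs_sub_comm s r,
      div_le_div_iff₀ (mul_pos hr0 hs0) hm]
    have h2 : m * m ≤ r * s := mul_le_mul hr hs hm.le hr0.le
    calc m * |r - s| * m = |r - s| * (m * m) := by ring
      _ ≤ |x - y| * (r * s) := mul_le_mul hrs h2 (by positivity) (abs_nonneg _)
  have h2 : (m / r) ^ 3 - (m / s) ^ 3 =
      (m / r - m / s) * ((m / r) ^ 2 + (m / r) * (m / s) + (m / s) ^ 2) := by ring
  rw [h2, abs_mul]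
  have h3 : |(m / r) ^ 2 + (m / r) * (m / s) + (m / s) ^ 2| ≤ 3 := by
    rw [abs_of_nonneg (by positivity)]
    nlinarith [mul_le_one₀ t1 u0.le u1, pow_le_one₀ t0.le t1 (n := 2), pow_le_one₀ u0.le u1 (n := 2)]
  calc |m / r - m / s| * |(m / r) ^ 2 + (m / r) * (m / s) + (m / s) ^ 2|
      ≤ |x - y| / m * 3 := mul_le_mul h1 h3 (abs_nonneg _) (by positivity)
    _ = 3 / m * |x - y| := by ring

private theorem ep_cont {H c : ℝ} (hc : 0 < c) : Continuous (phic H c) := by
  have hm := ep_R_pos H hc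
  have h : phic H c = fun x => (epR H c / max (epR H c) |x|) ^ 3 := funext fun x => ep_phic hc x
  rw [h]
  refine Continuous.pow (Continuous.div continuous_const (by fun_prop) fun x => ?_) 3
  exact (lt_max_of_lt_left hm).ne'

/-- the decay of `φ_c` -/
private theorem ep_decay {H c : ℝ} (hc : 0 < c) (x : ℝ) :
    phic H c x * |x| ^ 3 ≤ epR H c ^ 3 := by
  have hm := ep_R_pos H hc
  rw [ep_phic hc, ← mul_pow]
  refine pow_le_pow_left₀ (mul_nonneg (ep_t hc x).1.le (abs_nonneg _)) ?_ 3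
  have h1 : 0 < max (epR H c) |x| := lt_max_of_lt_left hm
  rw [div_mul_eq_mul_div, div_le_iff₀ h1]
  exact mul_le_mul_of_nonneg_left (le_max_right _ _) hm.le

private theorem ep_growth {H : ℝ} {b : ℝ → ℝ} (hb : Good H b) :
    ∃ C : ℝ, 0 ≤ C ∧ ∀ x, |b x| ≤ C + x ^ 2 / 16 := by
  obtain ⟨C, hC⟩ := hb.growth
  refine ⟨C, ?_, hC⟩
  have := (abs_nonneg _).trans (hC 0)
  simpa using this

/-- what is needed of the MALA potential -/
structure MPot (H : ℝ) (φ β D V : ℝ → ℝ) : Prop where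
  dV : ∀ x, HasDerivAt V (D x) x
  dD : ∀ x, HasDerivAt D (-1 + β x) x
  bcont : Continuous β
  bbdd : ∃ C : ℝ, ∀ x, |β x| ≤ C
  up : ∃ C : ℝ, ∀ x, V x ≤ C - 7 * x ^ 2 / 16
  φcont : Continuous φ
  φmem : ∀ x, 0 < φ x ∧ φ x ≤ 1
  bound : ∃ C : ℝ, ∀ h : ℝ, ∫ x, Real.exp (-x ^ 2 / 8) * (β (x + h) - β x) ^ 2
    ≤ C * |h| ^ (2 * H)
  lln : ∀ g : ℝ → ℝ, Continuous g → HasCompactSupport g →
    Tendsto (fun h : ℝ => |h| ^ (-(2 * H)) * ∫ x, g x * (β (x + h) - β x) ^ 2) (𝓝[≠] 0)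
      (𝓝 (∫ x, g x * φ x ^ 2))

/-- the derivative of the potential -/
noncomputable def Dm (H c : ℝ) (b : ℝ → ℝ) (x : ℝ) : ℝ :=
  -x + ∫ u in (0 : ℝ)..x, b u * phic H c u

/-- the potential `-x²/2 + ∫_0^x b φ_c (x - u) du` -/
noncomputable def Vm (H c : ℝ) (b : ℝ → ℝ) (x : ℝ) : ℝ :=
  -x ^ 2 / 2 + ∫ u in (0 : ℝ)..x, b u * phic H c u * (x - u)

theorem beta_decay {H c : ℝ} (hc : 0 < c) {b : ℝ → ℝ} (hb : Good H b) :
    ∃ C : ℝ, 0 < C ∧ ∀ u, |b u * phic H c u| ≤ C / (1 + |u|) := by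
  obtain ⟨C, hC0, hC⟩ := ep_growth hb
  have hm := ep_R_pos H hc
  refine ⟨2 * (C + 1) * (1 + epR H c ^ 3), by positivity, fun u => ?_⟩
  have hp : 0 < 1 + |u| := by positivity
  obtain ⟨f0, f1⟩ := phic_mem (H := H) hc u
  rw [le_div_iff₀ hp, abs_mul, abs_of_pos f0]
  have hu2 : u ^ 2 = |u| ^ 2 := (sq_abs u).symm
  have hbu := hC u
  rw [hu2] at hbu
  have hk : 0 < epR H c ^ 3 := pow_pos hm 3
  rcases le_or_gt |u| 1 with h | h
  · have h1 : |b u| ≤ C + 1 := by nlinarith [abs_nonneg u]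
    calc |b u| * phic H c u * (1 + |u|) ≤ (C + 1) * 1 * (1 + 1) := by
          refine mul_le_mul (mul_le_mul h1 f1 f0.le (by positivity)) (by linarith) hp.le
            (by positivity)
      _ = 2 * (C + 1) * 1 := by ring
      _ ≤ 2 * (C + 1) * (1 + epR H c ^ 3) := by
          refine mul_le_mul_of_nonneg_left ?_ (by positivity)
          linarith
  · have hd := ep_decay (H := H) hc u
    have h0 : 1 ≤ |u| ^ 2 := one_le_pow₀ h.le
    have h1 : |b u| ≤ (C + 1) * |u| ^ 2 := by nlinarith [mul_le_mul_of_nonneg_left h0 hC0]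
    have h2 : 1 + |u| ≤ 2 * |u| := by linarith
    calc |b u| * phic H c u * (1 + |u|) ≤ ((C + 1) * |u| ^ 2) * phic H c u * (2 * |u|) := by
          refine mul_le_mul (mul_le_mul_of_nonneg_right h1 f0.le) h2 hp.le (by positivity)
      _ = 2 * (C + 1) * (phic H c u * |u| ^ 3) := by ring
      _ ≤ 2 * (C + 1) * (epR H c ^ 3) := mul_le_mul_of_nonneg_left hd (by positivity)
      _ ≤ 2 * (C + 1) * (1 + epR H c ^ 3) := by
          refine mul_le_mul_of_nonneg_left ?_ (by positivity)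
          linarith

/-- the double primitive of a function with the decay `1/(1+|u|)` -/
private theorem ep_up_pos {β : ℝ → ℝ} (hβ : Continuous β) {C : ℝ}
    (h : ∀ u, |β u| ≤ C / (1 + |u|)) {x : ℝ} (hx : 0 ≤ x) :
    |∫ u in (0 : ℝ)..x, β u * (x - u)| ≤ x ^ 2 / 16 + 128 * C ^ 4 := by
  have h1 : |∫ u in (0 : ℝ)..x, β u * (x - u)| ≤
      ∫ u in (0 : ℝ)..x, ((1 / 16) * (x - u) + x * (4 * C ^ 2 * ((1 + u) ^ 2)⁻¹)) := by
    rw [← Real.norm_eq_abs]
    refine intervalIntegral.norm_integral_le_of_norm_le hx ?_ ?_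
    · refine Eventually.of_forall fun u hu => ?_
      have hu0 : 0 < u := hu.1
      have hux : u ≤ x := hu.2
      have h2 := h u
      rw [abs_of_pos hu0] at h2
      have hp : 0 < 1 + u := by linarith
      rw [norm_mul, Real.norm_eq_abs, Real.norm_of_nonneg (by linarith : (0 : ℝ) ≤ x - u)]
      have h3 : C / (1 + u) ≤ 1 / 16 + 4 * C ^ 2 * ((1 + u) ^ 2)⁻¹ := by
        have e : 4 * C ^ 2 * ((1 + u) ^ 2)⁻¹ = 4 * (C / (1 + u)) ^ 2 := by
          rw [div_pow]
          ring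
        rw [e]
        nlinarith [sq_nonneg (2 * (C / (1 + u)) - 1 / 4)]
      have h4 : 0 ≤ 4 * C ^ 2 * ((1 + u) ^ 2)⁻¹ := by positivity
      calc |β u| * (x - u) ≤ (1 / 16 + 4 * C ^ 2 * ((1 + u) ^ 2)⁻¹) * (x - u) :=
            mul_le_mul_of_nonneg_right (h2.trans h3) (by linarith)
        _ = 1 / 16 * (x - u) + (4 * C ^ 2 * ((1 + u) ^ 2)⁻¹) * (x - u) := by ring
        _ ≤ 1 / 16 * (x - u) + (4 * C ^ 2 * ((1 + u) ^ 2)⁻¹) * x := by
            have := mul_le_mul_of_nonneg_left (by linarith : x - u ≤ x) h4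
            linarith
        _ = _ := by ring
    · refine ContinuousOn.intervalIntegrable ?_
      rw [uIcc_of_le hx]
      refine ContinuousOn.add (by fun_prop) (ContinuousOn.mul continuousOn_const
        (ContinuousOn.mul continuousOn_const (ContinuousOn.inv₀ (by fun_prop) ?_)))
      intro u hu
      have : 0 < 1 + u := by linarith [hu.1]
      positivity
  have hF : ∫ u in (0 : ℝ)..x, ((1 / 16) * (x - u) + x * (4 * C ^ 2 * ((1 + u) ^ 2)⁻¹)) =
      ((1 / 16) * (x * x - x ^ 2 / 2) + x * (4 * C ^ 2 * (-(1 + x)⁻¹))) -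
      ((1 / 16) * (x * 0 - (0 : ℝ) ^ 2 / 2) + x * (4 * C ^ 2 * (-(1 + (0 : ℝ))⁻¹))) := by
    refine intervalIntegral.integral_eq_sub_of_hasDerivAt
      (f := fun u => (1 / 16) * (x * u - u ^ 2 / 2) + x * (4 * C ^ 2 * (-(1 + u)⁻¹))) ?_ ?_
    · intro u hu
      rw [uIcc_of_le hx] at hu
      have hp : 1 + u ≠ 0 := by linarith [hu.1]
      have d1 : HasDerivAt (fun u : ℝ => x * u - u ^ 2 / 2) (x - u) u := by
        have := ((hasDerivAt_id u).const_mul x).sub ((hasDerivAt_pow 2 u).div_const 2)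
        refine this.congr_deriv ?_
        simp
      have d2 : HasDerivAt (fun u : ℝ => -(1 + u)⁻¹) (((1 + u) ^ 2)⁻¹) u := by
        have := (((hasDerivAt_id u).const_add 1).inv hp).neg
        refine this.congr_deriv ?_
        simp only [id_eq]
        rw [neg_div, neg_neg, one_div]
      exact (d1.const_mul (1 / 16)).add ((d2.const_mul (4 * C ^ 2)).const_mul x)
    · refine ContinuousOn.intervalIntegrable ?_
      rw [uIcc_of_le hx]
      refine ContinuousOn.add (by fun_prop) (ContinuousOn.mul continuousOn_const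
        (ContinuousOn.mul continuousOn_const (ContinuousOn.inv₀ (by fun_prop) ?_)))
      intro u hu
      have : 0 < 1 + u := by linarith [hu.1]
      positivity
  rw [hF] at h1
  refine h1.trans ?_
  have hp : 0 < (1 + x)⁻¹ := by positivity
  have h2 : x * (4 * C ^ 2 * (-(1 + x)⁻¹)) ≤ 0 := by
    have : 0 ≤ x * (4 * C ^ 2 * (1 + x)⁻¹) := by positivity
    linarith
  have h3 : (1 + (0 : ℝ))⁻¹ = 1 := by norm_num
  rw [h3]
  nlinarith [sq_nonneg (x - 64 * C ^ 2)]

private theorem ep_up {β : ℝ → ℝ} (hβ : Continuous β) {C : ℝ}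
    (h : ∀ u, |β u| ≤ C / (1 + |u|)) (x : ℝ) :
    |∫ u in (0 : ℝ)..x, β u * (x - u)| ≤ x ^ 2 / 16 + 128 * C ^ 4 := by
  rcases le_total 0 x with hx | hx
  · exact ep_up_pos hβ h hx
  · have h1 := ep_up_pos (β := fun u => β (-u)) (by fun_prop) (C := C)
      (fun u => by simpa using h (-u)) (x := -x) (by linarith)
    have h2 : ∫ u in (0 : ℝ)..(-x), β (-u) * (-x - u) = ∫ u in (0 : ℝ)..x, β u * (x - u) := by
      have h3 := intervalIntegral.integral_comp_neg (a := 0) (b := -x)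
        (f := fun u => β u * (-x + u))
      simp only [neg_neg, neg_zero] at h3
      have h4 : ∫ u in (0 : ℝ)..(-x), β (-u) * (-x - u) =
          ∫ u in (0 : ℝ)..(-x), β (-u) * (-x + -u) := by
        refine intervalIntegral.integral_congr fun u _ => ?_
        ring
      rw [h4, h3, intervalIntegral.integral_symm, ← intervalIntegral.integral_neg]
      refine intervalIntegral.integral_congr fun u _ => ?_
      ring
    rw [h2] at h1
    rwa [neg_sq] at h1

theorem vm_up {H c : ℝ} (hc : 0 < c) {b : ℝ → ℝ} (hb : Good H b) :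
    ∃ C : ℝ, ∀ x, Vm H c b x ≤ C - 7 * x ^ 2 / 16 := by
  obtain ⟨C, -, hC⟩ := beta_decay hc hb
  have hcb := hb.cont
  have hcp := ep_cont (H := H) hc
  refine ⟨128 * C ^ 4, fun x => ?_⟩
  have h1 := ep_up (β := fun u => b u * phic H c u) (by fun_prop) hC x
  have h2 := (abs_le.1 h1).2
  unfold Vm
  linarith

private theorem ep_gauss : Integrable fun x : ℝ => Real.exp (-x ^ 2 / 16) := by
  have h := integrable_exp_neg_mul_sq (b := 1 / 16) (by norm_num)
  refine h.congr (Eventually.of_forall fun x => ?_)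
  simp only
  congr 1
  ring

private theorem ep_pt {f : ℝ → ℝ} {A B : ℝ} (hA : 0 ≤ A) (hB : 0 ≤ B)
    (hf : ∀ x, |f x| ≤ A + B * x ^ 2) (x : ℝ) :
    Real.exp (-x ^ 2 / 8) * f x ^ 2 ≤ 2 * (A + 16 * B) ^ 2 * Real.exp (-x ^ 2 / 16) := by
  have hu : (0 : ℝ) ≤ x ^ 2 / 16 := by positivity
  have h1 := Real.quadratic_le_exp_of_nonneg hu
  have h2 : (1 + x ^ 2 / 16) ^ 2 ≤ 2 * Real.exp (x ^ 2 / 16) := by nlinarith
  have h3 : f x ^ 2 ≤ ((A + 16 * B) * (1 + x ^ 2 / 16)) ^ 2 := by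
    rw [← sq_abs (f x)]
    refine pow_le_pow_left₀ (abs_nonneg _) ((hf x).trans ?_) 2
    nlinarith [mul_nonneg hA hu]
  have h4 : f x ^ 2 ≤ 2 * (A + 16 * B) ^ 2 * Real.exp (x ^ 2 / 16) := by
    refine h3.trans ?_
    rw [mul_pow]
    have := mul_le_mul_of_nonneg_left h2 (sq_nonneg (A + 16 * B))
    linarith
  have h5 : Real.exp (-x ^ 2 / 8) * Real.exp (x ^ 2 / 16) = Real.exp (-x ^ 2 / 16) := by
    rw [← Real.exp_add]
    congr 1
    ring
  calc Real.exp (-x ^ 2 / 8) * f x ^ 2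
      ≤ Real.exp (-x ^ 2 / 8) * (2 * (A + 16 * B) ^ 2 * Real.exp (x ^ 2 / 16)) :=
        mul_le_mul_of_nonneg_left h4 (Real.exp_pos _).le
    _ = 2 * (A + 16 * B) ^ 2 * (Real.exp (-x ^ 2 / 8) * Real.exp (x ^ 2 / 16)) := by ring
    _ = _ := by rw [h5]

private theorem ep_int {f : ℝ → ℝ} (hc : Continuous f) {A B : ℝ} (hA : 0 ≤ A) (hB : 0 ≤ B)
    (hf : ∀ x, |f x| ≤ A + B * x ^ 2) :
    Integrable (fun x => Real.exp (-x ^ 2 / 8) * f x ^ 2) ∧
      ∫ x, Real.exp (-x ^ 2 / 8) * f x ^ 2 ≤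
        2 * (A + 16 * B) ^ 2 * ∫ x : ℝ, Real.exp (-x ^ 2 / 16) := by
  have hi : Integrable (fun x => Real.exp (-x ^ 2 / 8) * f x ^ 2) := by
    refine Integrable.mono' (ep_gauss.const_mul (2 * (A + 16 * B) ^ 2))
      (by fun_prop) (Eventually.of_forall fun x => ?_)
    rw [Real.norm_of_nonneg (by positivity)]
    exact ep_pt hA hB hf x
  refine ⟨hi, ?_⟩
  rw [← integral_const_mul]
  exact integral_mono hi (ep_gauss.const_mul _) fun x => ep_pt hA hB hf x

/-- the increments of `b` are square integrable with the weight -/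
private theorem ep_incr {H : ℝ} {b : ℝ → ℝ} (hb : Good H b) (h : ℝ) :
    Integrable fun x => Real.exp (-x ^ 2 / 8) * (b (x + h) - b x) ^ 2 := by
  obtain ⟨C, hC0, hC⟩ := ep_growth hb
  have hcb := hb.cont
  refine (ep_int (f := fun x => b (x + h) - b x) (by fun_prop) (A := 2 * C + h ^ 2 / 8)
    (B := 3 / 16) (by positivity) (by norm_num) fun x => ?_).1
  have h1 := hC (x + h)
  have h2 := hC x
  refine (abs_sub _ _).trans ?_
  nlinarith [sq_nonneg (x - h)]

/-- the second term of the increment of `β` -/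
private theorem ep_second {H c : ℝ} (hc : 0 < c) {b : ℝ → ℝ} (hb : Good H b) :
    ∃ M : ℝ, 0 ≤ M ∧ ∀ h : ℝ, |h| ≤ 1 →
      Integrable (fun x => Real.exp (-x ^ 2 / 8) *
        (b (x + h) * (phic H c (x + h) - phic H c x)) ^ 2) ∧
      ∫ x, Real.exp (-x ^ 2 / 8) *
        (b (x + h) * (phic H c (x + h) - phic H c x)) ^ 2 ≤ M * h ^ 2 := by
  obtain ⟨C, hC0, hC⟩ := ep_growth hb
  obtain ⟨L, hL0, hL⟩ := phic_lip (H := H) hc
  have hcb := hb.cont
  have hcp := ep_cont (H := H) hc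
  have hJ0 : 0 ≤ ∫ x : ℝ, Real.exp (-x ^ 2 / 16) := integral_nonneg fun x => (Real.exp_pos _).le
  refine ⟨2 * (L * (C + 3)) ^ 2 * ∫ x : ℝ, Real.exp (-x ^ 2 / 16), by positivity,
    fun h hh => ?_⟩
  have h1 := ep_int (f := fun x => b (x + h) * (phic H c (x + h) - phic H c x)) (by fun_prop)
    (A := (C + 1) * (L * |h|)) (B := (1 / 8) * (L * |h|)) (by positivity) (by positivity)
    (fun x => by
      rw [abs_mul]
      have h2 := hL (x + h) x
      rw [add_sub_cancel_left] at h2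
      have h3 : |b (x + h)| ≤ (C + 1) + 1 / 8 * x ^ 2 := by
        refine (hC (x + h)).trans ?_
        have h4 : h ^ 2 ≤ 1 := by
          rw [← sq_abs]
          exact pow_le_one₀ (abs_nonneg _) hh
        nlinarith [sq_nonneg (x - h)]
      calc |b (x + h)| * |phic H c (x + h) - phic H c x| ≤
          ((C + 1) + 1 / 8 * x ^ 2) * (L * |h|) :=
            mul_le_mul h3 h2 (abs_nonneg _) (by positivity)
        _ = _ := by ring)
  refine ⟨h1.1, h1.2.trans (le_of_eq ?_)⟩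
  rw [← sq_abs h]
  ring

theorem beta_bound {H c : ℝ} (hH : 0 < H) (hH1 : H < 1) (hc : 0 < c) {b : ℝ → ℝ}
    (hb : Good H b) :
    ∃ C : ℝ, ∀ h : ℝ, ∫ x, Real.exp (-x ^ 2 / 8)
      * (b (x + h) * phic H c (x + h) - b x * phic H c x) ^ 2 ≤ C * |h| ^ (2 * H) := by
  obtain ⟨D, hD⟩ := hb.bound
  obtain ⟨M, hM0, hM⟩ := ep_second (H := H) hc hb
  obtain ⟨B, hB0, hB⟩ := beta_decay (H := H) hc hb
  have hcb := hb.cont
  have hcp := ep_cont (H := H) hc
  have hBb : ∀ u, |b u * phic H c u| ≤ B := fun u => by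
    refine (hB u).trans ?_
    have : (1 : ℝ) ≤ 1 + |u| := by linarith [abs_nonneg u]
    exact div_le_self hB0.le this
  have hD0 : 0 ≤ D := by
    have h1 := hD 1 (by simp)
    have h2 : (0 : ℝ) ≤ ∫ x, Real.exp (-x ^ 2 / 8) * (b (x + 1) - b x) ^ 2 :=
      integral_nonneg fun x => by positivity
    simp only [abs_one, Real.one_rpow, mul_one] at h1
    linarith
  set J : ℝ := ∫ x : ℝ, Real.exp (-x ^ 2 / 16) with hJ
  have hJ0 : 0 ≤ J := integral_nonneg fun x => (Real.exp_pos _).le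
  have hall : ∀ h : ℝ, Integrable (fun x => Real.exp (-x ^ 2 / 8) *
        (b (x + h) * phic H c (x + h) - b x * phic H c x) ^ 2) ∧
      ∫ x, Real.exp (-x ^ 2 / 8) *
        (b (x + h) * phic H c (x + h) - b x * phic H c x) ^ 2 ≤ 2 * (2 * B) ^ 2 * J := fun h => by
    have h1 := ep_int (f := fun x => b (x + h) * phic H c (x + h) - b x * phic H c x)
      (by fun_prop) (A := 2 * B) (B := 0) (by positivity) le_rfl
      (fun x => by
        refine (abs_sub _ _).trans ?_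
        have := hBb (x + h)
        have := hBb x
        linarith)
    refine ⟨h1.1, h1.2.trans (le_of_eq ?_)⟩
    rw [mul_zero, add_zero]
  refine ⟨2 * D + 2 * M + 8 * B ^ 2 * J, fun h => ?_⟩
  have hK0 : 0 ≤ 8 * B ^ 2 * J := by positivity
  rcases le_or_gt |h| 1 with hh | hh
  · have i1 := (ep_incr hb h).const_mul 2
    have i2 := (hM h hh).1.const_mul 2
    have h1 : ∫ x, Real.exp (-x ^ 2 / 8) *
        (b (x + h) * phic H c (x + h) - b x * phic H c x) ^ 2 ≤
        2 * (∫ x, Real.exp (-x ^ 2 / 8) * (b (x + h) - b x) ^ 2) +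
        2 * ∫ x, Real.exp (-x ^ 2 / 8) *
          (b (x + h) * (phic H c (x + h) - phic H c x)) ^ 2 := by
      rw [← integral_const_mul, ← integral_const_mul, ← integral_add i1 i2]
      refine integral_mono (hall h).1 (i1.add i2) fun x => ?_
      simp only
      obtain ⟨f0, f1⟩ := phic_mem (H := H) hc x
      have e : b (x + h) * phic H c (x + h) - b x * phic H c x =
          phic H c x * (b (x + h) - b x) + b (x + h) * (phic H c (x + h) - phic H c x) := by ring
      rw [e]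
      set u := b (x + h) - b x with hu
      set v := b (x + h) * (phic H c (x + h) - phic H c x) with hv
      have h2 : (phic H c x * u) ^ 2 ≤ u ^ 2 := by
        rw [mul_pow]
        exact mul_le_of_le_one_left (sq_nonneg _) (pow_le_one₀ f0.le f1)
      have h3 : (phic H c x * u + v) ^ 2 ≤ 2 * u ^ 2 + 2 * v ^ 2 := by
        nlinarith [sq_nonneg (phic H c x * u - v)]
      have h4 := mul_le_mul_of_nonneg_left h3 (Real.exp_pos (-x ^ 2 / 8)).le
      linarith
    have h2 := hD h hh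
    have h3 := (hM h hh).2
    have h4 : h ^ 2 ≤ |h| ^ (2 * H) := by
      rw [← sq_abs h, ← Real.rpow_two]
      exact Real.rpow_le_rpow_of_exponent_ge' (abs_nonneg _) hh (by positivity) (by linarith)
    have h5 : (0 : ℝ) ≤ |h| ^ (2 * H) := Real.rpow_nonneg (abs_nonneg _) _
    have h6 : M * h ^ 2 ≤ M * |h| ^ (2 * H) := mul_le_mul_of_nonneg_left h4 hM0
    have h7 := mul_nonneg hK0 h5
    calc _ ≤ _ := h1
      _ ≤ 2 * (D * |h| ^ (2 * H)) + 2 * (M * |h| ^ (2 * H)) := by linarith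
      _ ≤ (2 * D + 2 * M + 8 * B ^ 2 * J) * |h| ^ (2 * H) := by linarith
  · have h1 := (hall h).2
    have h2 : (1 : ℝ) ≤ |h| ^ (2 * H) := Real.one_le_rpow hh.le (by positivity)
    calc _ ≤ _ := h1
      _ = 8 * B ^ 2 * J * 1 := by ring
      _ ≤ (2 * D + 2 * M + 8 * B ^ 2 * J) * |h| ^ (2 * H) :=
          mul_le_mul (by linarith) h2 zero_le_one (by positivity)

/-- perturbation of a quadratic variation by a term of order `|h|` -/
private theorem ep_pert {H : ℝ} (hH : 0 < H) (hH1 : H < 1) {g : ℝ → ℝ} (hg : Continuous g)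
    (hgs : HasCompactSupport g) {U W : ℝ → ℝ → ℝ} (hU : ∀ h, Continuous (U h))
    (hW : ∀ h, Continuous (W h)) {D M L : ℝ}
    (hUi : ∀ h : ℝ, |h| ≤ 1 → Integrable fun x => Real.exp (-x ^ 2 / 8) * U h x ^ 2)
    (hUb : ∀ h : ℝ, |h| ≤ 1 → ∫ x, Real.exp (-x ^ 2 / 8) * U h x ^ 2 ≤ D * |h| ^ (2 * H))
    (hWi : ∀ h : ℝ, |h| ≤ 1 → Integrable fun x => Real.exp (-x ^ 2 / 8) * W h x ^ 2)
    (hWb : ∀ h : ℝ, |h| ≤ 1 → ∫ x, Real.exp (-x ^ 2 / 8) * W h x ^ 2 ≤ M * h ^ 2)
    (hl : Tendsto (fun h : ℝ => |h| ^ (-(2 * H)) * ∫ x, g x * U h x ^ 2) (𝓝[≠] 0) (𝓝 L)) :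
    Tendsto (fun h : ℝ => |h| ^ (-(2 * H)) * ∫ x, g x * (U h x + W h x) ^ 2) (𝓝[≠] 0) (𝓝 L) := by
  have _ := hH
  -- `|g| ≤ K e^{-x²/8}`
  obtain ⟨K, hK⟩ : ∃ K, ∀ x, |g x| ≤ K * Real.exp (-x ^ 2 / 8) := by
    have hc : Continuous fun x => g x * Real.exp (x ^ 2 / 8) := by fun_prop
    obtain ⟨K, hK⟩ := hc.bounded_above_of_compact_support (hgs.mul_right)
    refine ⟨K, fun x => ?_⟩
    have h1 := hK x
    rw [norm_mul, Real.norm_eq_abs, Real.norm_of_nonneg (Real.exp_pos _).le] at h1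
    have h2 : |g x| = |g x| * Real.exp (x ^ 2 / 8) * Real.exp (-x ^ 2 / 8) := by
      rw [mul_assoc, ← Real.exp_add]
      have : x ^ 2 / 8 + -x ^ 2 / 8 = 0 := by ring
      rw [this, Real.exp_zero, mul_one]
    rw [h2]
    exact mul_le_mul_of_nonneg_right h1 (Real.exp_pos _).le
  have hK0 : 0 ≤ K := by
    have := (abs_nonneg _).trans (hK 0)
    simpa using this
  have hgi : ∀ {f : ℝ → ℝ}, Continuous f → Integrable fun x => g x * f x := by
    intro f hf
    exact (hg.mul hf).integrable_of_hasCompactSupport (hgs.mul_right)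
  -- the difference
  have hdiff : ∀ h : ℝ, h ≠ 0 → |h| ≤ 1 →
      |(∫ x, g x * (U h x + W h x) ^ 2) - ∫ x, g x * U h x ^ 2| ≤
      K * (|h| ^ (1 - H) * (D * |h| ^ (2 * H)) + (|h| ^ (-(1 - H)) + 1) * (M * h ^ 2)) := by
    intro h h0 hh
    have hp : 0 < |h| := abs_pos.2 h0
    have hUc := hU h
    have hWc := hW h
    set t : ℝ := |h| ^ (1 - H) with ht
    have ht0 : 0 < t := Real.rpow_pos_of_pos hp _
    have hti : |h| ^ (-(1 - H)) = t⁻¹ := by rw [Real.rpow_neg hp.le]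
    rw [hti]
    have i1 : Integrable fun x => g x * (U h x + W h x) ^ 2 := hgi (by fun_prop)
    have i2 : Integrable fun x => g x * U h x ^ 2 := hgi (by fun_prop)
    rw [← integral_sub i1 i2]
    have j1 := (hUi h hh).const_mul t
    have j2 := (hWi h hh).const_mul (t⁻¹ + 1)
    have h1 : |∫ x, (g x * (U h x + W h x) ^ 2 - g x * U h x ^ 2)| ≤
        ∫ x, K * (t * (Real.exp (-x ^ 2 / 8) * U h x ^ 2) +
          (t⁻¹ + 1) * (Real.exp (-x ^ 2 / 8) * W h x ^ 2)) := by
      rw [← Real.norm_eq_abs]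
      refine norm_integral_le_of_norm_le ((j1.add j2).const_mul K)
        (Eventually.of_forall fun x => ?_)
      rw [← mul_sub, norm_mul, Real.norm_eq_abs, Real.norm_eq_abs]
      set u := U h x with hu
      set v := W h x with hv
      have h2 : |(u + v) ^ 2 - u ^ 2| ≤ t * u ^ 2 + (t⁻¹ + 1) * v ^ 2 := by
        have h3 : 2 * (|u| * |v|) ≤ t * u ^ 2 + t⁻¹ * v ^ 2 := by
          have h4 : 0 ≤ t⁻¹ * (t * |u| - |v|) ^ 2 := by positivity
          have h5 : t⁻¹ * (t * |u| - |v|) ^ 2 =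
              t * |u| ^ 2 - 2 * (|u| * |v|) + t⁻¹ * |v| ^ 2 := by
            field_simp
            ring
          rw [sq_abs, sq_abs] at h5
          linarith
        have h6 : (u + v) ^ 2 - u ^ 2 = 2 * (u * v) + v ^ 2 := by ring
        rw [h6]
        refine (abs_add_le _ _).trans ?_
        rw [abs_mul, abs_mul, abs_two, abs_of_nonneg (sq_nonneg v)]
        linarith
      have h7 : 0 ≤ t * u ^ 2 + (t⁻¹ + 1) * v ^ 2 := by positivity
      calc |g x| * |(u + v) ^ 2 - u ^ 2|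
          ≤ (K * Real.exp (-x ^ 2 / 8)) * (t * u ^ 2 + (t⁻¹ + 1) * v ^ 2) :=
            mul_le_mul (hK x) h2 (abs_nonneg _) (by positivity)
        _ = K * (t * (Real.exp (-x ^ 2 / 8) * u ^ 2) +
          (t⁻¹ + 1) * (Real.exp (-x ^ 2 / 8) * v ^ 2)) := by ring
    refine h1.trans ?_
    rw [integral_const_mul, integral_add j1 j2, integral_const_mul, integral_const_mul]
    refine mul_le_mul_of_nonneg_left ?_ hK0
    exact add_le_add (mul_le_mul_of_nonneg_left (hUb h hh) ht0.le)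
      (mul_le_mul_of_nonneg_left (hWb h hh) (by positivity))
  -- the limit of the error
  have hpow : ∀ r : ℝ, 0 < r → Tendsto (fun h : ℝ => |h| ^ r) (𝓝[≠] 0) (𝓝 0) := by
    intro r hr
    have h1 : Tendsto (fun h : ℝ => |h| ^ r) (𝓝 0) (𝓝 (|(0 : ℝ)| ^ r)) :=
      ((continuous_abs.rpow_const fun _ => Or.inr hr.le).tendsto 0)
    rw [abs_zero, Real.zero_rpow hr.ne'] at h1
    exact h1.mono_left nhdsWithin_le_nhds
  have herr : Tendsto (fun h : ℝ => K * (D * |h| ^ (1 - H) + M * |h| ^ (1 - H) +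
      M * |h| ^ (2 - 2 * H))) (𝓝[≠] 0) (𝓝 0) := by
    have h1 := (((hpow (1 - H) (by linarith)).const_mul D).add
      ((hpow (1 - H) (by linarith)).const_mul M)).add
      ((hpow (2 - 2 * H) (by linarith)).const_mul M)
    have h2 := h1.const_mul K
    simpa using h2
  have hsmall : ∀ᶠ h : ℝ in 𝓝[≠] 0, |h| ≤ 1 := by
    have h1 : ∀ᶠ h : ℝ in 𝓝 (0 : ℝ), |h| < 1 := by
      have := (continuous_abs : Continuous fun x : ℝ => |x|).tendsto 0
      rw [abs_zero] at this
      exact (tendsto_order.1 this).2 1 one_pos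
    exact (h1.filter_mono nhdsWithin_le_nhds).mono fun h hh => hh.le
  have hz : Tendsto (fun h : ℝ => |h| ^ (-(2 * H)) * (∫ x, g x * (U h x + W h x) ^ 2) -
      |h| ^ (-(2 * H)) * ∫ x, g x * U h x ^ 2) (𝓝[≠] 0) (𝓝 0) := by
    refine squeeze_zero_norm' ?_ herr
    filter_upwards [hsmall, self_mem_nhdsWithin] with h hh h0
    have h0' : h ≠ 0 := h0
    have hp : 0 < |h| := abs_pos.2 h0'
    have hpp : 0 < |h| ^ (-(2 * H)) := Real.rpow_pos_of_pos hp _
    rw [← mul_sub, Real.norm_eq_abs, abs_mul, abs_of_pos hpp]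
    have h1 := mul_le_mul_of_nonneg_left (hdiff h h0' hh) hpp.le
    refine h1.trans (le_of_eq ?_)
    have e1 : |h| ^ (-(2 * H)) * |h| ^ (2 * H) = 1 := by
      rw [← Real.rpow_add hp]
      simp
    have e2 : h ^ 2 = |h| ^ (2 : ℝ) := by
      rw [Real.rpow_two, sq_abs]
    have e3 : |h| ^ (-(2 * H)) * |h| ^ (-(1 - H)) * |h| ^ (2 : ℝ) = |h| ^ (1 - H) := by
      rw [← Real.rpow_add hp, ← Real.rpow_add hp]
      congr 1
      ring
    have e4 : |h| ^ (-(2 * H)) * |h| ^ (2 : ℝ) = |h| ^ (2 - 2 * H) := by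
      rw [← Real.rpow_add hp]
      congr 1
      ring
    rw [e2]
    calc |h| ^ (-(2 * H)) * (K * (|h| ^ (1 - H) * (D * |h| ^ (2 * H)) +
          (|h| ^ (-(1 - H)) + 1) * (M * |h| ^ (2 : ℝ))))
        = K * (D * |h| ^ (1 - H) * (|h| ^ (-(2 * H)) * |h| ^ (2 * H)) +
          M * (|h| ^ (-(2 * H)) * |h| ^ (-(1 - H)) * |h| ^ (2 : ℝ)) +
          M * (|h| ^ (-(2 * H)) * |h| ^ (2 : ℝ))) := by ring
      _ = _ := by rw [e1, e3, e4, mul_one]
  have hfin := hz.add hl
  rw [zero_add] at hfin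
  refine hfin.congr fun h => ?_
  ring

theorem beta_lln {H c : ℝ} (hH : 0 < H) (hH1 : H < 1) (hc : 0 < c) {b : ℝ → ℝ}
    (hb : Good H b) {g : ℝ → ℝ} (hg : Continuous g) (hg' : HasCompactSupport g) :
    Tendsto (fun h : ℝ => |h| ^ (-(2 * H)) * ∫ x, g x
      * (b (x + h) * phic H c (x + h) - b x * phic H c x) ^ 2) (𝓝[≠] 0)
      (𝓝 (∫ x, g x * phic H c x ^ 2)) := by
  obtain ⟨D, hD⟩ := hb.bound
  obtain ⟨M, hM0, hM⟩ := ep_second (H := H) hc hb
  have hcb := hb.cont
  have hcp := ep_cont (H := H) hc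
  have hle : ∀ h x, Real.exp (-x ^ 2 / 8) * (phic H c x * (b (x + h) - b x)) ^ 2 ≤
      Real.exp (-x ^ 2 / 8) * (b (x + h) - b x) ^ 2 := by
    intro h x
    obtain ⟨f0, f1⟩ := phic_mem (H := H) hc x
    refine mul_le_mul_of_nonneg_left ?_ (Real.exp_pos _).le
    rw [mul_pow]
    exact mul_le_of_le_one_left (sq_nonneg _) (pow_le_one₀ f0.le f1)
  have hi : ∀ h, Integrable fun x => Real.exp (-x ^ 2 / 8) *
      (phic H c x * (b (x + h) - b x)) ^ 2 := by
    intro h
    refine (ep_incr hb h).mono' (by fun_prop) (Eventually.of_forall fun x => ?_)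
    rw [Real.norm_of_nonneg (by positivity)]
    exact hle h x
  have hl := hb.lln (fun x => g x * phic H c x ^ 2) (by fun_prop) hg'.mul_right
  have hl' : Tendsto (fun h : ℝ => |h| ^ (-(2 * H)) *
      ∫ x, g x * (phic H c x * (b (x + h) - b x)) ^ 2) (𝓝[≠] 0)
      (𝓝 (∫ x, g x * phic H c x ^ 2)) := by
    refine hl.congr fun h => ?_
    congr 1
    refine integral_congr_ae (Eventually.of_forall fun x => ?_)
    simp only
    ring
  have key := ep_pert hH hH1 hg hg' (U := fun h x => phic H c x * (b (x + h) - b x))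
    (W := fun h x => b (x + h) * (phic H c (x + h) - phic H c x)) (fun h => by fun_prop)
    (fun h => by fun_prop) (D := D) (M := M) (fun h _ => hi h)
    (fun h hh => (integral_mono (hi h) (ep_incr hb h) (hle h)).trans (hD h hh))
    (fun h hh => (hM h hh).1) (fun h hh => (hM h hh).2) hl'
  refine key.congr fun h => ?_
  congr 1
  refine integral_congr_ae (Eventually.of_forall fun x => ?_)
  simp only
  ring

theorem Good.mpot {H c : ℝ} (hH : 0 < H) (hH1 : H < 1) (hc : 0 < c) {b : ℝ → ℝ}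
    (hb : Good H b) :
    MPot H (phic H c) (fun x => b x * phic H c x) (Dm H c b) (Vm H c b) := by
  have hcb := hb.cont
  have hcp := ep_cont (H := H) hc
  have hβ : Continuous fun x => b x * phic H c x := by fun_prop
  have d1 : ∀ x, HasDerivAt (fun x => ∫ u in (0 : ℝ)..x, b u * phic H c u)
      (b x * phic H c x) x := fun x =>
    intervalIntegral.integral_hasDerivAt_right (hβ.intervalIntegrable _ _)
      hβ.aestronglyMeasurable.stronglyMeasurableAtFilter hβ.continuousAt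
  have hβ2 : Continuous fun x => b x * phic H c x * x := by fun_prop
  have d2 : ∀ x, HasDerivAt (fun x => ∫ u in (0 : ℝ)..x, b u * phic H c u * u)
      (b x * phic H c x * x) x := fun x =>
    intervalIntegral.integral_hasDerivAt_right (hβ2.intervalIntegrable _ _)
      hβ2.aestronglyMeasurable.stronglyMeasurableAtFilter hβ2.continuousAt
  have hV : Vm H c b = fun x => -x ^ 2 / 2 + (x * (∫ u in (0 : ℝ)..x, b u * phic H c u) -
      ∫ u in (0 : ℝ)..x, b u * phic H c u * u) := by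
    funext x
    unfold Vm
    congr 1
    rw [← intervalIntegral.integral_const_mul,
      ← intervalIntegral.integral_sub ((hβ.const_mul x).intervalIntegrable _ _)
        (hβ2.intervalIntegrable _ _)]
    refine intervalIntegral.integral_congr fun u _ => ?_
    ring
  obtain ⟨B, hB0, hB⟩ := beta_decay (H := H) hc hb
  refine
    { dV := fun x => ?_
      dD := fun x => ?_
      bcont := hβ
      bbdd := ⟨B, fun u => ?_⟩
      up := vm_up hc hb
      φcont := hcp
      φmem := fun x => phic_mem hc x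
      bound := beta_bound hH hH1 hc hb
      lln := fun g hg hg' => beta_lln hH hH1 hc hb hg hg' }
  · rw [hV]
    have h1 : HasDerivAt (fun x : ℝ => -x ^ 2 / 2) (-x) x := by
      have := ((hasDerivAt_pow 2 x).neg).div_const 2
      refine this.congr_deriv ?_
      simp only [Nat.cast_ofNat, Nat.add_one_sub_one, pow_one]
      ring
    have h2 := h1.add (((hasDerivAt_id x).mul (d1 x)).sub (d2 x))
    refine h2.congr_deriv ?_
    unfold Dm
    simp only [id_eq]
    ring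
  · have h1 := ((hasDerivAt_id x).neg).add (d1 x)
    exact h1
  · refine (hB u).trans ?_
    have : (1 : ℝ) ≤ 1 + |u| := by linarith [abs_nonneg u]
    exact div_le_self hB0.le this

/-- simple consequences -/
theorem MPot.dlip {H : ℝ} {φ β D V : ℝ → ℝ} (hM : MPot H φ β D V) :
    ∃ C : ℝ, 0 < C ∧ (∀ x y, |D y - D x| ≤ C * |y - x|) ∧ (∀ x, |D x| ≤ C * (1 + |x|)) ∧
      ∀ x, |β x| ≤ C := by
  obtain ⟨B, hB⟩ := hM.bbdd
  have hB0 : 0 ≤ B := (abs_nonneg _).trans (hB 0)
  have hL : ∀ x y, |D y - D x| ≤ (1 + B) * |y - x| := by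
    intro x y
    have h1 := Convex.norm_image_sub_le_of_norm_hasDerivWithin_le (f := D)
      (f' := fun x => -1 + β x) (C := 1 + B) (s := univ)
      (fun z _ => (hM.dD z).hasDerivWithinAt) (fun z _ => by
        rw [Real.norm_eq_abs]
        refine (abs_add_le _ _).trans ?_
        rw [abs_neg, abs_one]
        have := hB z
        linarith) convex_univ (mem_univ x) (mem_univ y)
    simpa [Real.norm_eq_abs] using h1
  have hD0 := abs_nonneg (D 0)
  refine ⟨1 + B + |D 0|, by positivity, fun x y => ?_, fun x => ?_, fun x => ?_⟩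
  · refine (hL x y).trans (mul_le_mul_of_nonneg_right (by linarith) (abs_nonneg _))
  · have h1 := hL 0 x
    rw [sub_zero] at h1
    have h2 : |D x| ≤ |D x - D 0| + |D 0| := by
      have := abs_add_le (D x - D 0) (D 0)
      simpa using this
    nlinarith [abs_nonneg x, mul_nonneg hD0 (abs_nonneg x)]
  · have := hB x
    linarith

theorem MPot.exp_int {H : ℝ} {φ β D V : ℝ → ℝ} (hM : MPot H φ β D V) :
    Integrable fun x => Real.exp (V x) := by
  obtain ⟨C, hC⟩ := hM.up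
  have hVc : Continuous V := continuous_iff_continuousAt.2 fun x => (hM.dV x).continuousAt
  have h := (integrable_exp_neg_mul_sq (b := 7 / 16) (by norm_num)).const_mul (Real.exp C)
  refine Integrable.mono' h (Real.continuous_exp.comp hVc).aestronglyMeasurable
    (Eventually.of_forall fun x => ?_)
  rw [Real.norm_of_nonneg (Real.exp_pos _).le, ← Real.exp_add]
  apply Real.exp_le_exp.2
  have := hC x
  linarith

theorem MPot.nrm_le {H : ℝ} {φ β D V : ℝ → ℝ} (hM : MPot H φ β D V) :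
    ∃ C : ℝ, 0 < C ∧ ∀ x, nrm V x ≤ C * Real.exp (-7 * x ^ 2 / 16) := by
  obtain ⟨C, hC⟩ := hM.up
  have hZ : 0 < ∫ y, Real.exp (V y) := integral_exp_pos hM.exp_int
  refine ⟨Real.exp C / ∫ y, Real.exp (V y), by positivity, fun x => ?_⟩
  unfold nrm
  rw [div_mul_eq_mul_div]
  refine div_le_div_of_nonneg_right ?_ hZ.le
  rw [← Real.exp_add]
  apply Real.exp_le_exp.2
  have := hC x
  linarith

end Pool.Agent.Lib.MP_e19099_pr
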