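import Pool.Agent.Lib.MP_e19099_pr.EClt
import Pool.Agent.Lib.MP_e19099_pr.BSetup

/-!
# MALA: the cut measure (module E, E5)

`cutA v = v^{-1/4}`, `Qc v = [-cutA v, cutA v]²`, `sc D V v` = the symmetrized measure conditioned on `Qc v`.
`cut_mass`: `s(Qcᶜ) ≤ 2 Z⁻¹ ∫∫_{|x| > A} 2 √(p(x)p(y)) γ_{2v} ≤ C e^{-A²/8}` (`sdn_m_le`, `nrm_le`), `A² = v^{-1/2}`; with `v = vH l (2+H) n` polynomially small in `n`,
`(n+1) s(Qcᶜ) → 0` (`Z⁻¹` is bounded by `m_z`).
`cut_close`: `|∫ F ds - ∫ F ds'| ≤ 2 s(Qcᶜ)` for `|F| ≤ 1`.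
`cut_num`, `cut_den`: with `a(y) = √p(y) exp(-(v/16) D(y)²)`: for `|x|, |y| ≤ A` `|log a(y) - log a(x)| ≤ L |y-x|`, `L = C(1+A)`, `L √v → 0` as `v → 0`;
`θ = -¼ z (D y - D x)`, `|θ| ≤ C z²`.
`∫_{|y| ≤ A} a(y) γ_v(z) |e^θ - 1| dy ≤ a(x) ∫ e^{L|z|} C z² e^{Cz²} γ_v ≤ C a(x) v`, and
`∫_{|y| ≤ A} a(y) γ_v(z) e^θ dy ≥ a(x) ∫ over the half interval |z| ≤ √v inside [-A,A] ≥ c a(x)`.
-/

set_option autoImplicit false

open MeasureTheory ProbabilityTheory Filter Set
open scoped NNReal Topology ENNReal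

namespace Pool.Agent.Lib.MP_e19099_pr

noncomputable def cutA (v : ℝ≥0) : ℝ := (v : ℝ) ^ (-(1 / 4 : ℝ))

/-- the square `[-A, A]²` -/
def Qc (v : ℝ≥0) : Set (ℝ × ℝ) := {z | |z.1| ≤ cutA v ∧ |z.2| ≤ cutA v}

/-- the conditioned measure -/
noncomputable def sc (D V : ℝ → ℝ) (v : ℝ≥0) : Measure (ℝ × ℝ) :=
  ProbabilityTheory.cond (sm (nrm V) (mq D v)) (Qc v)

/-- `a(x) = √p(x) exp(-(v/16) D(x)²)` -/
noncomputable def av (D V : ℝ → ℝ) (v : ℝ≥0) (x : ℝ) : ℝ :=
  √(nrm V x) * Real.exp (-(v / 16 * D x ^ 2))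

/-- `θ = -¼ z (D y - D x)` -/
noncomputable def tht (D : ℝ → ℝ) (z : ℝ × ℝ) : ℝ := -((z.2 - z.1) * (D z.2 - D z.1) / 4)

variable {H l : ℝ} {φ β D V : ℝ → ℝ} {v : ℝ≥0}

private theorem EPsdA_dens (hM : MPot H φ β D V) : Dens (nrm V) :=
  nrm_dens (continuous_iff_continuousAt.2 fun x => (hM.dV x).continuousAt) hM.exp_int

private theorem EPsdA_Dcont (hM : MPot H φ β D V) : Continuous D :=
  continuous_iff_continuousAt.2 fun x => (hM.dD x).continuousAt

private theorem EPsdA_Vcont (hM : MPot H φ β D V) : Continuous V :=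
  continuous_iff_continuousAt.2 fun x => (hM.dV x).continuousAt

private theorem EPsdA_cutA_pos (hv : 0 < v) : 0 < cutA v :=
  Real.rpow_pos_of_pos (by exact_mod_cast hv) _

private theorem EPsdA_Qc_meas (v : ℝ≥0) : MeasurableSet (Qc v) := by
  have h1 : Measurable fun z : ℝ × ℝ => |z.1| := measurable_fst.abs
  have h2 : Measurable fun z : ℝ × ℝ => |z.2| := measurable_snd.abs
  exact (measurableSet_le h1 measurable_const).inter (measurableSet_le h2 measurable_const)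

/-- `A ^ 4 * v = 1` -/
private theorem EPsdA_cutA4 (hv : 0 < v) : cutA v ^ 4 * (v : ℝ) = 1 := by
  have hv' : (0 : ℝ) < v := by exact_mod_cast hv
  unfold cutA
  rw [← Real.rpow_natCast, ← Real.rpow_mul hv'.le]
  have : (-(1 / 4 : ℝ)) * ((4 : ℕ) : ℝ) = -1 := by norm_num
  rw [this, Real.rpow_neg_one, inv_mul_cancel₀ hv'.ne']

theorem sdn_av (hM : MPot H φ β D V) (hv : 0 < v) (z : ℝ × ℝ) :
    sdn (nrm V) (mq D v) z = av D V v z.1 * av D V v z.2 * Real.exp (tht D z)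
      * gaussianPDFReal 0 v (z.2 - z.1) := by
  have hd := EPsdA_dens hM
  rw [sdn_m hM hv]
  unfold av mth tht
  rw [Real.sqrt_mul (hd.pos _).le]
  have h1 : Real.exp (-(↑v / 16 * (D z.1 ^ 2 + D z.2 ^ 2)) - (z.2 - z.1) * (D z.2 - D z.1) / 4) =
      Real.exp (-(↑v / 16 * D z.1 ^ 2)) * Real.exp (-(↑v / 16 * D z.2 ^ 2)) *
        Real.exp (-((z.2 - z.1) * (D z.2 - D z.1) / 4)) := by
    rw [← Real.exp_add, ← Real.exp_add]
    congr 1
    ring
  rw [h1]
  ring

theorem cut_pos (hM : MPot H φ β D V) (hv : 0 < v) : sm (nrm V) (mq D v) (Qc v) ≠ 0 := by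
  have hd := EPsdA_dens hM
  have hq := mq_prop hM hv
  intro h0
  have h1 : ∀ᵐ z ∂(sm (nrm V) (mq D v)), z ∉ Qc v := measure_eq_zero_iff_ae_notMem.1 h0
  rw [ae_sm hd hq] at h1
  have h2 : (volume : Measure (ℝ × ℝ)) (Qc v) = 0 := measure_eq_zero_iff_ae_notMem.2 h1
  have hA := EPsdA_cutA_pos hv
  have h3 : Ioo (-cutA v) (cutA v) ×ˢ Ioo (-cutA v) (cutA v) ⊆ Qc v := by
    rintro z ⟨hz1, hz2⟩
    exact ⟨abs_le.2 ⟨hz1.1.le, hz1.2.le⟩, abs_le.2 ⟨hz2.1.le, hz2.2.le⟩⟩
  have h4 : 0 < (volume : Measure (ℝ × ℝ)) (Ioo (-cutA v) (cutA v) ×ˢ Ioo (-cutA v) (cutA v)) :=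
    (isOpen_Ioo.prod isOpen_Ioo).measure_pos volume ⟨(0, 0), ⟨by linarith, hA⟩, ⟨by linarith, hA⟩⟩
  have h5 := measure_mono_null h3 h2
  rw [h5] at h4
  exact lt_irrefl _ h4

theorem sc_prob (hM : MPot H φ β D V) (hv : 0 < v) : IsProbabilityMeasure (sc D V v) := by
  have := sm_prob (EPsdA_dens hM) (mq_prop hM hv)
  exact ProbabilityTheory.cond_isProbabilityMeasure (cut_pos hM hv)

theorem sc_swap (hM : MPot H φ β D V) (hv : 0 < v) : (sc D V v).map Prod.swap = sc D V v := by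
  have h1 := sm_swap (EPsdA_dens hM) (mq_prop hM hv)
  have h2 : Prod.swap ⁻¹' (Qc v) = Qc v := by
    ext z
    exact and_comm
  unfold sc ProbabilityTheory.cond
  rw [Measure.map_smul]
  congr 1
  have h3 := Measure.restrict_map (μ := sm (nrm V) (mq D v)) measurable_swap (EPsdA_Qc_meas v)
  rw [h1, h2] at h3
  exact h3.symm

theorem cut_close (hM : MPot H φ β D V) (hv : 0 < v) {F : ℝ × ℝ → ℝ} (hF : MB 1 F) :
    |∫ z, F z ∂(sm (nrm V) (mq D v)) - ∫ z, F z ∂(sc D V v)|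
      ≤ 2 * (sm (nrm V) (mq D v)).real (Qc v)ᶜ := by
  have := sm_prob (EPsdA_dens hM) (mq_prop hM hv)
  have hQ := EPsdA_Qc_meas v
  set μ := sm (nrm V) (mq D v) with hμ
  have hpos : 0 < μ.real (Qc v) := by
    rw [measureReal_def]
    exact ENNReal.toReal_pos (cut_pos hM hv) (measure_ne_top _ _)
  have hcompl : μ.real (Qc v)ᶜ = 1 - μ.real (Qc v) := by
    rw [measureReal_compl hQ]
    simp
  have hle1 : μ.real (Qc v) ≤ 1 := by
    have := measureReal_nonneg (μ := μ) (s := (Qc v)ᶜ)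
    linarith
  have hint : Integrable F μ := by
    refine (integrable_const (1 : ℝ)).mono' hF.meas.aestronglyMeasurable ?_
    exact Eventually.of_forall fun z => hF.bdd z
  have h1 : ∫ z, F z ∂(sc D V v) = (μ.real (Qc v))⁻¹ * ∫ z in Qc v, F z ∂μ := by
    unfold sc ProbabilityTheory.cond
    rw [integral_smul_measure, ENNReal.toReal_inv, smul_eq_mul]
    rfl
  have h2 : ∫ z, F z ∂μ = (∫ z in Qc v, F z ∂μ) + ∫ z in (Qc v)ᶜ, F z ∂μ :=
    (integral_add_compl hQ hint).symm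
  have h3 : |∫ z in Qc v, F z ∂μ| ≤ μ.real (Qc v) := by
    have := norm_setIntegral_le_of_norm_le_const (μ := μ) (s := Qc v) (f := F) (C := 1)
      (measure_lt_top _ _) (fun z _ => hF.bdd z)
    rwa [one_mul, Real.norm_eq_abs] at this
  have h4 : |∫ z in (Qc v)ᶜ, F z ∂μ| ≤ μ.real (Qc v)ᶜ := by
    have := norm_setIntegral_le_of_norm_le_const (μ := μ) (s := (Qc v)ᶜ) (f := F) (C := 1)
      (measure_lt_top _ _) (fun z _ => hF.bdd z)
    rwa [one_mul, Real.norm_eq_abs] at this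
  rw [h1, h2]
  set I := ∫ z in Qc v, F z ∂μ
  set J := ∫ z in (Qc v)ᶜ, F z ∂μ
  set m := μ.real (Qc v)
  have h5 : I + J - m⁻¹ * I = J - (m⁻¹ - 1) * I := by ring
  rw [h5]
  have h6 : 0 ≤ m⁻¹ - 1 := by
    have : 1 ≤ m⁻¹ := (one_le_inv₀ hpos).2 hle1
    linarith
  have h7 : |(m⁻¹ - 1) * I| ≤ 1 - m := by
    rw [abs_mul, abs_of_nonneg h6]
    calc (m⁻¹ - 1) * |I| ≤ (m⁻¹ - 1) * m := mul_le_mul_of_nonneg_left h3 h6
      _ = 1 - m := by
        rw [sub_mul, inv_mul_cancel₀ hpos.ne', one_mul]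
  calc |J - (m⁻¹ - 1) * I| ≤ |J| + |(m⁻¹ - 1) * I| := abs_sub _ _
    _ ≤ μ.real (Qc v)ᶜ + (1 - m) := add_le_add h4 h7
    _ = 2 * μ.real (Qc v)ᶜ := by rw [hcompl]; ring

private theorem EPsdA_shear {g : ℝ → ℝ} (hg : Measurable g) (hi : Integrable g) (h0 : ∀ x, 0 ≤ g x)
    {w : ℝ≥0} (hw : w ≠ 0) :
    Integrable (fun z : ℝ × ℝ => g z.1 * gaussianPDFReal 0 w (z.2 - z.1)) ∧
      ∫ z : ℝ × ℝ, g z.1 * gaussianPDFReal 0 w (z.2 - z.1) = ∫ x, g x := by
  have hγ : ∀ x : ℝ, (fun y => gaussianPDFReal 0 w (y - x)) = gaussianPDFReal x w := by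
    intro x
    funext y
    rw [gaussianPDFReal_sub, zero_add]
  have hγi : ∀ x : ℝ, Integrable (fun y => gaussianPDFReal 0 w (y - x)) := fun x => by
    rw [hγ]
    exact integrable_gaussianPDFReal x w
  have hγ1 : ∀ x : ℝ, ∫ y, gaussianPDFReal 0 w (y - x) = 1 := fun x => by
    rw [hγ]
    exact integral_gaussianPDFReal_eq_one x hw
  have hm : Measurable fun z : ℝ × ℝ => g z.1 * gaussianPDFReal 0 w (z.2 - z.1) :=
    (hg.comp measurable_fst).mul
      ((measurable_gaussianPDFReal 0 w).comp (measurable_snd.sub measurable_fst))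
  have hint : Integrable (fun z : ℝ × ℝ => g z.1 * gaussianPDFReal 0 w (z.2 - z.1)) := by
    rw [Measure.volume_eq_prod, integrable_prod_iff hm.aestronglyMeasurable]
    refine ⟨Eventually.of_forall fun x => (hγi x).const_mul (g x), ?_⟩
    refine hi.congr (Eventually.of_forall fun x => ?_)
    show g x = ∫ y, ‖g x * gaussianPDFReal 0 w (y - x)‖
    have h1 : ∀ y, ‖g x * gaussianPDFReal 0 w (y - x)‖ = g x * gaussianPDFReal 0 w (y - x) :=
      fun y => by
        rw [Real.norm_eq_abs, abs_of_nonneg (mul_nonneg (h0 x) (gaussianPDFReal_nonneg _ _ _))]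
    simp_rw [h1]
    rw [integral_const_mul, hγ1, mul_one]
  refine ⟨hint, ?_⟩
  rw [Measure.volume_eq_prod] at hint ⊢
  rw [integral_prod _ hint]
  have h1 : ∀ x, ∫ y, g x * gaussianPDFReal 0 w (y - x) = g x := fun x => by
    rw [integral_const_mul, hγ1, mul_one]
  simp_rw [h1]

private theorem EPsdA_gneg (w : ℝ≥0) (z : ℝ) : gaussianPDFReal 0 w (-z) = gaussianPDFReal 0 w z := by
  unfold gaussianPDFReal
  congr 2
  ring

private theorem EPsdA_shear2 {g : ℝ → ℝ} (hg : Measurable g) (hi : Integrable g) (h0 : ∀ x, 0 ≤ g x)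
    {w : ℝ≥0} (hw : w ≠ 0) :
    Integrable (fun z : ℝ × ℝ => g z.2 * gaussianPDFReal 0 w (z.2 - z.1)) ∧
      ∫ z : ℝ × ℝ, g z.2 * gaussianPDFReal 0 w (z.2 - z.1) = ∫ x, g x := by
  obtain ⟨h1, h2⟩ := EPsdA_shear hg hi h0 hw
  have h3 : ∀ z : ℝ × ℝ, g z.2 * gaussianPDFReal 0 w (z.2 - z.1) =
      (fun z : ℝ × ℝ => g z.1 * gaussianPDFReal 0 w (z.2 - z.1)) z.swap := by
    intro z
    simp only [Prod.fst_swap, Prod.snd_swap]
    rw [← EPsdA_gneg, neg_sub]
  constructor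
  · rw [Measure.volume_eq_prod] at h1 ⊢
    exact h1.swap.congr (Eventually.of_forall fun z => (h3 z).symm)
  · rw [Measure.volume_eq_prod] at h2 ⊢
    rw [← h2]
    simp_rw [h3]
    exact integral_prod_swap (fun z : ℝ × ℝ => g z.1 * gaussianPDFReal 0 w (z.2 - z.1))

private theorem EPsdA_mass (hM : MPot H φ β D V) :
    ∃ (v₀ : ℝ≥0) (C : ℝ), 0 < v₀ ∧ 0 ≤ C ∧ ∀ v : ℝ≥0, 0 < v → v ≤ v₀ →
      (sm (nrm V) (mq D v)).real (Qc v)ᶜ ≤ (Zf (nrm V) (mq D v))⁻¹ * (C * (v : ℝ) ^ 4) := by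
  have hd := EPsdA_dens hM
  obtain ⟨C1, hC1, hnrm⟩ := hM.nrm_le
  obtain ⟨v₀, hv₀, hsdn⟩ := sdn_m_le hM
  set h : ℝ → ℝ := fun x => x ^ 16 * √(nrm V x) with hh
  have hpm : Measurable (nrm V) := hd.cont.measurable
  have hhm : Measurable h := (measurable_id.pow_const 16).mul hpm.sqrt
  have hh0 : ∀ x, 0 ≤ h x := fun x => mul_nonneg (by positivity) (Real.sqrt_nonneg _)
  have hsq : ∀ x, √(nrm V x) ≤ √C1 * Real.exp (-(7 / 32) * x ^ 2) := by
    intro x
    rw [Real.sqrt_le_iff]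
    refine ⟨by positivity, ?_⟩
    rw [mul_pow, Real.sq_sqrt hC1.le, ← Real.exp_nat_mul]
    refine (hnrm x).trans (le_of_eq ?_)
    congr 2
    push_cast
    ring
  have hhi : Integrable h := by
    have h1 := (integrable_rpow_mul_exp_neg_mul_sq (b := 7 / 32) (by norm_num) (s := (16 : ℕ))
      (by norm_num)).const_mul (√C1)
    refine h1.mono' hhm.aestronglyMeasurable (Eventually.of_forall fun x => ?_)
    rw [Real.norm_eq_abs, abs_of_nonneg (hh0 x), Real.rpow_natCast]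
    have h2 := mul_le_mul_of_nonneg_left (hsq x) (show (0 : ℝ) ≤ x ^ 16 by positivity)
    calc x ^ 16 * √(nrm V x) ≤ x ^ 16 * (√C1 * Real.exp (-(7 / 32) * x ^ 2)) := h2
      _ = √C1 * (x ^ 16 * Real.exp (-(7 / 32) * x ^ 2)) := by ring
  have hsC : ∀ x, √(nrm V x) ≤ √C1 := fun x => by
    refine (hsq x).trans ?_
    have h1 : Real.exp (-(7 / 32) * x ^ 2) ≤ 1 := by
      rw [Real.exp_le_one_iff]
      nlinarith [sq_nonneg x]
    nlinarith [Real.sqrt_nonneg C1]
  refine ⟨v₀, 4 * √C1 * ∫ x, h x, hv₀, ?_, ?_⟩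
  · exact mul_nonneg (by positivity) (integral_nonneg hh0)
  intro v hv hvv
  have hq := mq_prop hM hv
  have hprob := sm_prob hd hq
  have hQ := EPsdA_Qc_meas v
  have hv' : (0 : ℝ) < v := by exact_mod_cast hv
  have h1 : (sm (nrm V) (mq D v)).real (Qc v)ᶜ =
      ∫ z, (Qc v)ᶜ.indicator (fun _ => (1 : ℝ)) z ∂(sm (nrm V) (mq D v)) := by
    rw [integral_indicator hQ.compl, setIntegral_const, smul_eq_mul, mul_one]
  rw [h1, integral_sm hd hq]
  refine mul_le_mul_of_nonneg_left ?_ (inv_nonneg.2 (Zf_pos hd hq).le)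
  have h2w : (2 * v : ℝ≥0) ≠ 0 := by positivity
  obtain ⟨i1, e1⟩ := EPsdA_shear hhm hhi hh0 h2w
  obtain ⟨i2, e2⟩ := EPsdA_shear2 hhm hhi hh0 h2w
  have hbound : ∀ z : ℝ × ℝ, (Qc v)ᶜ.indicator (fun _ => (1 : ℝ)) z * sdn (nrm V) (mq D v) z ≤
      (2 * √C1 * (v : ℝ) ^ 4) * (h z.1 * gaussianPDFReal 0 (2 * v) (z.2 - z.1) +
        h z.2 * gaussianPDFReal 0 (2 * v) (z.2 - z.1)) := by
    intro z
    have hγ := gaussianPDFReal_nonneg 0 (2 * v) (z.2 - z.1)
    by_cases hz : z ∈ Qc v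
    · rw [indicator_of_notMem (show z ∉ (Qc v)ᶜ from fun hc => hc hz), zero_mul]
      have := hh0 z.1
      have := hh0 z.2
      positivity
    · rw [indicator_of_mem hz, one_mul]
      refine (hsdn v hv hvv z).trans ?_
      have hA := EPsdA_cutA_pos hv
      have hA4 := EPsdA_cutA4 hv
      have hA16 : cutA v ^ 16 * (v : ℝ) ^ 4 = 1 := by
        calc cutA v ^ 16 * (v : ℝ) ^ 4 = (cutA v ^ 4 * (v : ℝ)) ^ 4 := by ring
          _ = 1 := by rw [hA4, one_pow]
      have hkey : ∀ t : ℝ, cutA v < |t| → 1 ≤ (v : ℝ) ^ 4 * t ^ 16 := by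
        intro t ht
        have h3 : cutA v ^ 16 ≤ |t| ^ 16 := pow_le_pow_left₀ hA.le ht.le 16
        have h4 : |t| ^ 16 = t ^ 16 := by
          rw [← abs_pow, abs_of_nonneg (by positivity)]
        rw [h4] at h3
        calc (1 : ℝ) = (v : ℝ) ^ 4 * cutA v ^ 16 := by rw [mul_comm]; exact hA16.symm
          _ ≤ (v : ℝ) ^ 4 * t ^ 16 := mul_le_mul_of_nonneg_left h3 (by positivity)
      have h5 : 1 ≤ (v : ℝ) ^ 4 * (z.1 ^ 16 + z.2 ^ 16) := by
        have h6 : cutA v < |z.1| ∨ cutA v < |z.2| := by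
          by_contra hcon
          push Not at hcon
          exact hz hcon
        have h7 : 0 ≤ (v : ℝ) ^ 4 * z.1 ^ 16 := by positivity
        have h8 : 0 ≤ (v : ℝ) ^ 4 * z.2 ^ 16 := by positivity
        rcases h6 with h6 | h6
        · have := hkey _ h6
          linarith
        · have := hkey _ h6
          linarith
      rw [Real.sqrt_mul (hd.pos _).le]
      have ha := Real.sqrt_nonneg (nrm V z.1)
      have hb := Real.sqrt_nonneg (nrm V z.2)
      have h9 : √(nrm V z.1) * √(nrm V z.2) ≤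
          (v : ℝ) ^ 4 * (z.1 ^ 16 + z.2 ^ 16) * (√(nrm V z.1) * √(nrm V z.2)) :=
        le_mul_of_one_le_left (mul_nonneg ha hb) h5
      have h10 : z.1 ^ 16 * (√(nrm V z.1) * √(nrm V z.2)) ≤ √C1 * h z.1 := by
        calc z.1 ^ 16 * (√(nrm V z.1) * √(nrm V z.2)) = h z.1 * √(nrm V z.2) := by rw [hh]; ring
          _ ≤ h z.1 * √C1 := mul_le_mul_of_nonneg_left (hsC _) (hh0 _)
          _ = √C1 * h z.1 := mul_comm _ _
      have h11 : z.2 ^ 16 * (√(nrm V z.1) * √(nrm V z.2)) ≤ √C1 * h z.2 := by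
        calc z.2 ^ 16 * (√(nrm V z.1) * √(nrm V z.2)) = h z.2 * √(nrm V z.1) := by rw [hh]; ring
          _ ≤ h z.2 * √C1 := mul_le_mul_of_nonneg_left (hsC _) (hh0 _)
          _ = √C1 * h z.2 := mul_comm _ _
      have h12 : √(nrm V z.1) * √(nrm V z.2) ≤ (v : ℝ) ^ 4 * (√C1 * h z.1 + √C1 * h z.2) := by
        refine h9.trans ?_
        have h13 := mul_le_mul_of_nonneg_left (add_le_add h10 h11)
          (show (0 : ℝ) ≤ (v : ℝ) ^ 4 by positivity)
        refine le_trans (le_of_eq ?_) h13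
        ring
      calc 2 * (√(nrm V z.1) * √(nrm V z.2)) * gaussianPDFReal 0 (2 * v) (z.2 - z.1)
          ≤ 2 * ((v : ℝ) ^ 4 * (√C1 * h z.1 + √C1 * h z.2)) *
            gaussianPDFReal 0 (2 * v) (z.2 - z.1) :=
            mul_le_mul_of_nonneg_right (mul_le_mul_of_nonneg_left h12 (by norm_num)) hγ
        _ = _ := by ring
  have hle := integral_mono_of_nonneg (μ := (volume : Measure (ℝ × ℝ)))
    (f := fun z => (Qc v)ᶜ.indicator (fun _ => (1 : ℝ)) z * sdn (nrm V) (mq D v) z)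
    (Eventually.of_forall fun z => mul_nonneg (indicator_nonneg (fun _ _ => zero_le_one) z)
      (sdn_pos hd hq z).le)
    ((i1.add i2).const_mul (2 * √C1 * (v : ℝ) ^ 4)) (Eventually.of_forall hbound)
  refine hle.trans (le_of_eq ?_)
  rw [integral_const_mul]
  have h14 : ∫ z : ℝ × ℝ, ((fun z : ℝ × ℝ => h z.1 * gaussianPDFReal 0 (2 * v) (z.2 - z.1)) +
      fun z : ℝ × ℝ => h z.2 * gaussianPDFReal 0 (2 * v) (z.2 - z.1)) z = (∫ x, h x) + ∫ x, h x := by
    rw [integral_add' i1 i2, e1, e2]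
  rw [h14]
  ring

theorem cut_mass (hM : MPot H φ β D V) (hH : 0 < H) (hH1 : H < 1) (hl : 0 < l) :
    Tendsto (fun n : ℕ => ((n : ℝ) + 1) *
      (sm (nrm V) (mq D (vH l (2 + H) n))).real (Qc (vH l (2 + H) n))ᶜ) atTop (𝓝 0) := by
  obtain ⟨v₀, C, hv₀, hC, hmass⟩ := EPsdA_mass hM
  have ha : (0 : ℝ) < 2 + H := by linarith
  have hd := EPsdA_dens hM
  have hvlim := vH_lim hl ha
  have hZ : Tendsto (fun n : ℕ => 1 - Zf (nrm V) (mq D (vH l (2 + H) n))) atTop (𝓝 0) := by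
    have h1 := (m_z hM hH hH1 hl).mul tendsto_one_div_add_atTop_nhds_zero_nat
    rw [mul_zero] at h1
    refine h1.congr fun n => ?_
    have : ((n : ℝ) + 1) ≠ 0 := by positivity
    field_simp
  have hZ2 : ∀ᶠ n : ℕ in atTop, (Zf (nrm V) (mq D (vH l (2 + H) n)))⁻¹ ≤ 2 := by
    filter_upwards [hZ.eventually (gt_mem_nhds (show (0 : ℝ) < 1 / 2 by norm_num))] with n hn
    have h2 : 1 / 2 ≤ Zf (nrm V) (mq D (vH l (2 + H) n)) := by linarith
    rw [inv_le_comm₀ (by linarith) (by norm_num)]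
    linarith
  have hvn : ∀ᶠ n : ℕ in atTop, vH l (2 + H) n ≤ v₀ :=
    hvlim.eventually (ge_mem_nhds hv₀)
  have hlim : Tendsto (fun n : ℕ => 2 * C * (l ^ (2 * (2 + H)) *
      (vH l (2 + H) n : ℝ) ^ (2 - H))) atTop (𝓝 0) := by
    have h1 : Tendsto (fun n : ℕ => ((vH l (2 + H) n : ℝ≥0) : ℝ)) atTop (𝓝 0) := by
      have := (NNReal.tendsto_coe.2 hvlim)
      simpa using this
    have h2 : Tendsto (fun n : ℕ => ((vH l (2 + H) n : ℝ≥0) : ℝ) ^ (2 - H)) atTop (𝓝 0) := by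
      have h3 : ContinuousAt (fun x : ℝ => x ^ (2 - H)) 0 :=
        Real.continuousAt_rpow_const _ _ (Or.inr (by linarith))
      have h4 := h3.tendsto.comp h1
      rw [Real.zero_rpow (by linarith)] at h4
      exact h4
    have h5 := (h2.const_mul (l ^ (2 * (2 + H)))).const_mul (2 * C)
    simpa using h5
  refine squeeze_zero' (Eventually.of_forall fun n => ?_) ?_ hlim
  · exact mul_nonneg (by positivity) measureReal_nonneg
  · filter_upwards [hZ2, hvn] with n h1 h2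
    have hvp := vH_pos hl (2 + H) n
    have hvp' : (0 : ℝ) < (vH l (2 + H) n : ℝ) := by exact_mod_cast hvp
    have h3 := hmass _ hvp h2
    have h4 := vH_pow hl ha n
    have h5 : ((n : ℝ) + 1) * (vH l (2 + H) n : ℝ) ^ 4 =
        l ^ (2 * (2 + H)) * (vH l (2 + H) n : ℝ) ^ (2 - H) := by
      rw [← h4, mul_assoc, ← Real.rpow_add hvp']
      congr 1
      have : (2 + H + (2 - H) : ℝ) = ((4 : ℕ) : ℝ) := by norm_num
      rw [this, Real.rpow_natCast]
    have h6 : 0 ≤ C * (vH l (2 + H) n : ℝ) ^ 4 := by positivity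
    calc ((n : ℝ) + 1) * (sm (nrm V) (mq D (vH l (2 + H) n))).real (Qc (vH l (2 + H) n))ᶜ
        ≤ ((n : ℝ) + 1) * (2 * (C * (vH l (2 + H) n : ℝ) ^ 4)) := by
          refine mul_le_mul_of_nonneg_left (h3.trans ?_) (by positivity)
          exact mul_le_mul_of_nonneg_right h1 h6
      _ = 2 * C * (((n : ℝ) + 1) * (vH l (2 + H) n : ℝ) ^ 4) := by ring
      _ = _ := by rw [h5]

/-- local comparison of `av` -/
private theorem EPsdA_ratio (hM : MPot H φ β D V) :
    ∃ K : ℝ, 0 < K ∧ (∀ x y, |tht D (x, y)| ≤ K * (y - x) ^ 2) ∧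
      ∀ (v : ℝ≥0), (v : ℝ) ≤ 1 → ∀ A : ℝ, 0 ≤ A → ∀ x y, |x| ≤ A → |y| ≤ A →
        av D V v y ≤ av D V v x * Real.exp (K * (1 + A) * |y - x|) := by
  obtain ⟨C, hC, hlip, hlin, -⟩ := hM.dlip
  have hd := EPsdA_dens hM
  refine ⟨C + C ^ 2, by positivity, ?_, ?_⟩
  · intro x y
    unfold tht
    simp only
    rw [abs_neg, abs_div, abs_mul, abs_of_pos (show (0 : ℝ) < 4 by norm_num)]
    have h1 := hlip x y
    have h2 : |y - x| * |D y - D x| ≤ |y - x| * (C * |y - x|) :=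
      mul_le_mul_of_nonneg_left h1 (abs_nonneg _)
    have h3 : |y - x| * (C * |y - x|) = C * (y - x) ^ 2 := by
      rw [← sq_abs (y - x)]
      ring
    have h4 : 0 ≤ C * (y - x) ^ 2 := by positivity
    have h5 : 0 ≤ C ^ 2 * (y - x) ^ 2 := by positivity
    rw [div_le_iff₀ (by norm_num)]
    nlinarith
  · intro v hv1 A hA x y hx hy
    have hnr : nrm V y = nrm V x * Real.exp (V y - V x) := by
      have h1 := nrm_ratio (EPsdA_Vcont hM) hM.exp_int x y
      rw [← h1, mul_div_cancel₀ _ (hd.pos x).ne']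
    have hsq : √(nrm V y) = √(nrm V x) * Real.exp ((V y - V x) / 2) := by
      rw [hnr, Real.sqrt_mul (hd.pos x).le]
      congr 1
      rw [Real.sqrt_eq_iff_mul_self_eq (Real.exp_pos _).le (Real.exp_pos _).le, ← Real.exp_add]
      congr 1
      ring
    have hV : |V y - V x| ≤ C * (1 + A) * |y - x| := by
      have h1 := Convex.norm_image_sub_le_of_norm_hasDerivWithin_le (f := V) (f' := D)
        (s := Icc (-A) A) (C := C * (1 + A)) (x := x) (y := y)
        (fun t _ => (hM.dV t).hasDerivWithinAt)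
        (fun t ht => by
          rw [Real.norm_eq_abs]
          refine (hlin t).trans ?_
          have : |t| ≤ A := abs_le.2 ht
          exact mul_le_mul_of_nonneg_left (by linarith) hC.le)
        (convex_Icc _ _) (abs_le.1 hx) (abs_le.1 hy)
      exact h1
    have hD2 : |D y ^ 2 - D x ^ 2| ≤ 2 * C ^ 2 * (1 + A) * |y - x| := by
      have h1 : D y ^ 2 - D x ^ 2 = (D y - D x) * (D y + D x) := by ring
      rw [h1, abs_mul]
      have h2 := hlip x y
      have h3 : |D y + D x| ≤ 2 * (C * (1 + A)) := by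
        have h4 : |D y| ≤ C * (1 + A) :=
          (hlin y).trans (mul_le_mul_of_nonneg_left (by linarith) hC.le)
        have h5 : |D x| ≤ C * (1 + A) :=
          (hlin x).trans (mul_le_mul_of_nonneg_left (by linarith) hC.le)
        have h6 := abs_add_le (D y) (D x)
        linarith
      calc |D y - D x| * |D y + D x| ≤ (C * |y - x|) * (2 * (C * (1 + A))) :=
            mul_le_mul h2 h3 (abs_nonneg _) (by positivity)
        _ = _ := by ring
    unfold av
    rw [hsq]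
    have h1 : √(nrm V x) * Real.exp ((V y - V x) / 2) * Real.exp (-(↑v / 16 * D y ^ 2)) =
        √(nrm V x) * Real.exp (-(↑v / 16 * D x ^ 2)) *
          Real.exp ((V y - V x) / 2 - v / 16 * (D y ^ 2 - D x ^ 2)) := by
      rw [mul_assoc, mul_assoc, ← Real.exp_add, ← Real.exp_add]
      congr 2
      ring
    rw [h1]
    refine mul_le_mul_of_nonneg_left (Real.exp_le_exp.2 ?_) (by positivity)
    have h2 : (V y - V x) / 2 ≤ C * (1 + A) * |y - x| := by
      have h3 := (abs_le.1 hV).2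
      have h4 : 0 ≤ C * (1 + A) * |y - x| := by positivity
      linarith
    have h5 : -(v / 16 * (D y ^ 2 - D x ^ 2)) ≤ C ^ 2 * (1 + A) * |y - x| := by
      have h6 := (abs_le.1 hD2).1
      have h7 : (0 : ℝ) ≤ v := v.2
      have h8 : -(v / 16 * (D y ^ 2 - D x ^ 2)) ≤ v / 16 * (2 * C ^ 2 * (1 + A) * |y - x|) := by
        have : v / 16 * (-(D y ^ 2 - D x ^ 2)) ≤ v / 16 * (2 * C ^ 2 * (1 + A) * |y - x|) :=
          mul_le_mul_of_nonneg_left (by linarith) (by positivity)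
        linarith
      have h9 : 0 ≤ 2 * C ^ 2 * (1 + A) * |y - x| := by positivity
      have h10 : v / 16 * (2 * C ^ 2 * (1 + A) * |y - x|) ≤ 1 / 16 * (2 * C ^ 2 * (1 + A) * |y - x|) :=
        mul_le_mul_of_nonneg_right (by linarith) h9
      linarith
    have h11 : (C + C ^ 2) * (1 + A) * |y - x| = C * (1 + A) * |y - x| + C ^ 2 * (1 + A) * |y - x| := by
      ring
    rw [h11]
    linarith

/-- smallness of the step -/
private theorem EPsdA_small {K : ℝ} (hK : 0 < K) :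
    ∃ v₀ : ℝ≥0, 0 < v₀ ∧ ∀ v : ℝ≥0, 0 < v → v ≤ v₀ →
      (v : ℝ) ≤ 1 ∧ 1 ≤ cutA v ∧ (K * (1 + cutA v)) ^ 2 * (v : ℝ) ≤ 1 ∧ K * v ≤ 1 / 8 := by
  set w : ℝ := min 1 (min (1 / (16 * K ^ 4)) (1 / (8 * K))) with hw
  have hw0 : 0 < w := by
    rw [hw]
    positivity
  refine ⟨⟨w, hw0.le⟩, hw0, ?_⟩
  intro v hv hvw
  have hv' : (0 : ℝ) < v := by exact_mod_cast hv
  have hvw' : (v : ℝ) ≤ w := hvw
  have h1 : (v : ℝ) ≤ 1 := hvw'.trans (min_le_left _ _)
  have h2 : (v : ℝ) ≤ 1 / (16 * K ^ 4) :=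
    hvw'.trans ((min_le_right _ _).trans (min_le_left _ _))
  have h3 : (v : ℝ) ≤ 1 / (8 * K) :=
    hvw'.trans ((min_le_right _ _).trans (min_le_right _ _))
  have hA := EPsdA_cutA_pos hv
  have hA4 := EPsdA_cutA4 hv
  have hA1 : 1 ≤ cutA v := by
    by_contra hcon
    push Not at hcon
    have h5 : cutA v ^ 4 < 1 := pow_lt_one₀ hA.le hcon (by norm_num)
    nlinarith
  refine ⟨h1, hA1, ?_, ?_⟩
  · have h6 : (K * (1 + cutA v)) ^ 2 * (v : ℝ) ≤ (4 * K ^ 2) * (cutA v ^ 2 * v) := by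
      have h7 : (1 + cutA v) ^ 2 ≤ (2 * cutA v) ^ 2 := by
        refine pow_le_pow_left₀ (by linarith) (by linarith) 2
      have h8 : 0 ≤ K ^ 2 * (v : ℝ) := by positivity
      calc (K * (1 + cutA v)) ^ 2 * (v : ℝ) = K ^ 2 * (v : ℝ) * (1 + cutA v) ^ 2 := by ring
        _ ≤ K ^ 2 * (v : ℝ) * (2 * cutA v) ^ 2 := mul_le_mul_of_nonneg_left h7 h8
        _ = _ := by ring
    refine h6.trans ?_
    -- `(A² v)² = v`
    have h9 : (cutA v ^ 2 * (v : ℝ)) ^ 2 = v := by
      calc (cutA v ^ 2 * (v : ℝ)) ^ 2 = (cutA v ^ 4 * (v : ℝ)) * (v : ℝ) := by ring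
        _ = (v : ℝ) := by rw [hA4, one_mul]
    have h10 : (4 * K ^ 2 * (cutA v ^ 2 * (v : ℝ))) ^ 2 ≤ 1 ^ 2 := by
      rw [mul_pow, h9]
      calc (4 * K ^ 2) ^ 2 * (v : ℝ) ≤ (4 * K ^ 2) ^ 2 * (1 / (16 * K ^ 4)) :=
            mul_le_mul_of_nonneg_left h2 (by positivity)
        _ = 1 ^ 2 := by
            field_simp
            ring
    exact (abs_le_of_sq_le_sq' h10 zero_le_one).2
  · calc K * (v : ℝ) ≤ K * (1 / (8 * K)) := mul_le_mul_of_nonneg_left h3 hK.le
      _ = 1 / 8 := by field_simp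

/-- `γ_v e^{z²/(4v)} ≤ 2 γ_{2v}` -/
private theorem EPsdA_gauss {v : ℝ≥0} (hv : 0 < v) (z : ℝ) :
    gaussianPDFReal 0 v z * Real.exp (z ^ 2 / (4 * v)) ≤ 2 * gaussianPDFReal 0 (2 * v) z := by
  have hv' : (0 : ℝ) < v := by exact_mod_cast hv
  unfold gaussianPDFReal
  have h1 : Real.exp (-(z - 0) ^ 2 / (2 * v)) * Real.exp (z ^ 2 / (4 * v)) =
      Real.exp (-(z - 0) ^ 2 / (2 * ((2 * v : ℝ≥0) : ℝ))) := by
    rw [← Real.exp_add]
    congr 1
    push_cast
    field_simp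
    ring
  rw [mul_assoc, h1, ← mul_assoc]
  refine mul_le_mul_of_nonneg_right ?_ (Real.exp_pos _).le
  have h2 : √(2 * Real.pi * ((2 * v : ℝ≥0) : ℝ)) ≤ 2 * √(2 * Real.pi * v) := by
    rw [Real.sqrt_le_iff]
    refine ⟨by positivity, ?_⟩
    rw [mul_pow, Real.sq_sqrt (by positivity)]
    push_cast
    have : 0 < Real.pi * (v : ℝ) := by positivity
    nlinarith
  have h3 : 0 < √(2 * Real.pi * ((2 * v : ℝ≥0) : ℝ)) := by
    rw [Real.sqrt_pos]
    have : (0 : ℝ) < ((2 * v : ℝ≥0) : ℝ) := by push_cast; linarith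
    positivity
  have h4 : 0 < √(2 * Real.pi * (v : ℝ)) := by
    rw [Real.sqrt_pos]
    positivity
  rw [inv_eq_one_div, inv_eq_one_div, ← mul_div_assoc, mul_one, div_le_div_iff₀ h4 h3]
  linarith

private theorem EPsdA_var {w : ℝ≥0} (hw : w ≠ 0) (x : ℝ) :
    Integrable (fun y : ℝ => (y - x) ^ 2 * gaussianPDFReal 0 w (y - x)) ∧
      ∫ y, (y - x) ^ 2 * gaussianPDFReal 0 w (y - x) = w := by
  have h0 : Integrable (fun z : ℝ => z ^ 2) (gaussianReal 0 w) := by
    have h1 := (memLp_id_gaussianReal (μ := 0) (v := w) 2)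
    exact h1.integrable_sq
  have h1 : Integrable (fun z : ℝ => z ^ 2 * gaussianPDFReal 0 w z) := by
    rw [gaussianReal_of_var_ne_zero 0 hw] at h0
    rw [integrable_withDensity_iff_integrable_smul' (measurable_gaussianPDF 0 w)
      (Eventually.of_forall fun z => gaussianPDF_lt_top)] at h0
    refine h0.congr (Eventually.of_forall fun z => ?_)
    show (gaussianPDF 0 w z).toReal • z ^ 2 = _
    rw [toReal_gaussianPDF, smul_eq_mul, mul_comm]
  have h2 : ∫ z : ℝ, z ^ 2 * gaussianPDFReal 0 w z = w := by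
    have h3 : ∫ z, z ^ 2 ∂(gaussianReal 0 w) = ∫ z : ℝ, z ^ 2 * gaussianPDFReal 0 w z := by
      rw [integral_gaussianReal_eq_integral_smul hw]
      refine integral_congr_ae (Eventually.of_forall fun z => ?_)
      show gaussianPDFReal 0 w z • z ^ 2 = _
      rw [smul_eq_mul, mul_comm]
    rw [← h3]
    have h4 := variance_fun_id_gaussianReal (μ := 0) (v := w)
    rw [variance_eq_integral (by fun_prop), integral_id_gaussianReal] at h4
    simpa using h4
  exact ⟨h1.comp_sub_right x, by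
    rw [integral_sub_right_eq_self (fun z : ℝ => z ^ 2 * gaussianPDFReal 0 w z) x, h2]⟩

private theorem EPsdA_set (v : ℝ≥0) : {y : ℝ | |y| ≤ cutA v} = Icc (-cutA v) (cutA v) := by
  ext y
  rw [mem_ofPred_eq, mem_Icc]
  exact abs_le

private theorem EPsdA_avcont (hM : MPot H φ β D V) (v : ℝ≥0) : Continuous (av D V v) := by
  have h1 := (EPsdA_dens hM).cont
  have h2 := EPsdA_Dcont hM
  unfold av
  fun_prop

private theorem EPsdA_thtcont (hM : MPot H φ β D V) (x : ℝ) : Continuous fun y => tht D (x, y) := by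
  have h2 := EPsdA_Dcont hM
  unfold tht
  fun_prop

private theorem EPsdA_gcont (w : ℝ≥0) (x : ℝ) : Continuous fun y => gaussianPDFReal 0 w (y - x) := by
  unfold gaussianPDFReal
  fun_prop

private theorem EPsdA_avpos (hM : MPot H φ β D V) (v : ℝ≥0) (x : ℝ) : 0 < av D V v x := by
  have h1 := (EPsdA_dens hM).pos x
  unfold av
  positivity

theorem cut_num (hM : MPot H φ β D V) :
    ∃ (v₀ : ℝ≥0) (C : ℝ), 0 < v₀ ∧ 0 < C ∧ ∀ v : ℝ≥0, 0 < v → v ≤ v₀ → ∀ x, |x| ≤ cutA v →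
      ∫ y in {y : ℝ | |y| ≤ cutA v}, av D V v y * gaussianPDFReal 0 v (y - x)
        * |Real.exp (tht D (x, y)) - 1| ≤ C * v * av D V v x := by
  obtain ⟨K, hK, htht, hav⟩ := EPsdA_ratio hM
  obtain ⟨v₀, hv₀, hsm⟩ := EPsdA_small hK
  refine ⟨v₀, K * Real.exp 2 * 2 * 2, hv₀, by positivity, ?_⟩
  intro v hv hvv x hx
  obtain ⟨h1, hA1, hL, hKv⟩ := hsm v hv hvv
  have hv' : (0 : ℝ) < v := by exact_mod_cast hv
  have hA := EPsdA_cutA_pos hv
  set L := K * (1 + cutA v) with hLdef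
  have hL0 : 0 < L := by positivity
  have hax := EPsdA_avpos hM v x
  have hpt : ∀ y, |y| ≤ cutA v → av D V v y * gaussianPDFReal 0 v (y - x) *
      |Real.exp (tht D (x, y)) - 1| ≤
      av D V v x * (K * Real.exp 2 * 2) * ((y - x) ^ 2 * gaussianPDFReal 0 (2 * v) (y - x)) := by
    intro y hy
    set z := y - x with hz
    have e1 := hav v h1 (cutA v) hA.le x y hx hy
    have e2 := htht x y
    have e3 : |Real.exp (tht D (x, y)) - 1| ≤ K * z ^ 2 * Real.exp (K * z ^ 2) := by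
      set t := tht D (x, y)
      have e4 : |Real.exp t - 1| ≤ |t| * Real.exp |t| := by
        rcases le_total 0 t with ht | ht
        · rw [abs_of_nonneg ht, abs_of_nonneg (by linarith [Real.one_le_exp ht])]
          have e5 := Real.add_one_le_exp (-t)
          have e6 : Real.exp (-t) * Real.exp t = 1 := by
            rw [← Real.exp_add, neg_add_cancel, Real.exp_zero]
          nlinarith [Real.exp_pos t]
        · have e7 : Real.exp t ≤ 1 := Real.exp_le_one_iff.2 ht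
          rw [abs_of_nonpos ht, abs_of_nonpos (by linarith)]
          have e5 := Real.add_one_le_exp t
          have e8 : 1 ≤ Real.exp (-t) := Real.one_le_exp (by linarith)
          nlinarith
      refine e4.trans ?_
      exact mul_le_mul e2 (Real.exp_le_exp.2 e2) (Real.exp_pos _).le (by positivity)
    have e9 : L * |z| ≤ 2 + z ^ 2 / (8 * v) := by
      have e10 : L * |z| ≤ 2 * (L ^ 2 * v) + z ^ 2 / (8 * v) := by
        have e11 : 0 ≤ (4 * L * v - |z|) ^ 2 := sq_nonneg _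
        have e12 : 2 * (L ^ 2 * v) + z ^ 2 / (8 * v) - L * |z| = (4 * L * v - |z|) ^ 2 / (8 * v) := by
          rw [← sq_abs z]
          field_simp
          ring
        have e13 : 0 ≤ (4 * L * v - |z|) ^ 2 / (8 * v) := by positivity
        linarith
      linarith
    have e14 : K * z ^ 2 ≤ z ^ 2 / (8 * v) := by
      rw [le_div_iff₀ (by positivity)]
      nlinarith [sq_nonneg z]
    have e15 : Real.exp (L * |z|) * Real.exp (K * z ^ 2) ≤ Real.exp 2 * Real.exp (z ^ 2 / (4 * v)) := by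
      rw [← Real.exp_add, ← Real.exp_add]
      refine Real.exp_le_exp.2 ?_
      have e16 : z ^ 2 / (4 * v) = z ^ 2 / (8 * v) + z ^ 2 / (8 * v) := by
        field_simp
        ring
      linarith
    have hg := gaussianPDFReal_nonneg 0 v z
    calc av D V v y * gaussianPDFReal 0 v z * |Real.exp (tht D (x, y)) - 1|
        ≤ (av D V v x * Real.exp (L * |z|)) * gaussianPDFReal 0 v z *
            (K * z ^ 2 * Real.exp (K * z ^ 2)) :=
          mul_le_mul (mul_le_mul_of_nonneg_right e1 hg) e3 (abs_nonneg _)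
            (mul_nonneg (by positivity) hg)
      _ = av D V v x * (K * z ^ 2) * gaussianPDFReal 0 v z *
            (Real.exp (L * |z|) * Real.exp (K * z ^ 2)) := by ring
      _ ≤ av D V v x * (K * z ^ 2) * gaussianPDFReal 0 v z *
            (Real.exp 2 * Real.exp (z ^ 2 / (4 * v))) :=
          mul_le_mul_of_nonneg_left e15 (mul_nonneg (by positivity) hg)
      _ = av D V v x * (K * z ^ 2) * Real.exp 2 *
            (gaussianPDFReal 0 v z * Real.exp (z ^ 2 / (4 * v))) := by ring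
      _ ≤ av D V v x * (K * z ^ 2) * Real.exp 2 * (2 * gaussianPDFReal 0 (2 * v) z) :=
          mul_le_mul_of_nonneg_left (EPsdA_gauss hv z) (by positivity)
      _ = _ := by ring
  have h2v : (2 * v : ℝ≥0) ≠ 0 := by positivity
  obtain ⟨i1, i2⟩ := EPsdA_var h2v x
  have hms : MeasurableSet {y : ℝ | |y| ≤ cutA v} := by
    rw [EPsdA_set]
    exact measurableSet_Icc
  calc ∫ y in {y : ℝ | |y| ≤ cutA v}, av D V v y * gaussianPDFReal 0 v (y - x) *
        |Real.exp (tht D (x, y)) - 1|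
      ≤ ∫ y in {y : ℝ | |y| ≤ cutA v}, av D V v x * (K * Real.exp 2 * 2) *
          ((y - x) ^ 2 * gaussianPDFReal 0 (2 * v) (y - x)) := by
        refine setIntegral_mono_on ?_ (i1.const_mul _).integrableOn hms hpt
        rw [EPsdA_set]
        refine ContinuousOn.integrableOn_compact isCompact_Icc (Continuous.continuousOn ?_)
        exact ((EPsdA_avcont hM v).mul (EPsdA_gcont v x)).mul
          ((Real.continuous_exp.comp (EPsdA_thtcont hM x)).sub continuous_const).abs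
    _ ≤ ∫ y, av D V v x * (K * Real.exp 2 * 2) *
          ((y - x) ^ 2 * gaussianPDFReal 0 (2 * v) (y - x)) := by
        refine setIntegral_le_integral (i1.const_mul _) (Eventually.of_forall fun y => ?_)
        have := gaussianPDFReal_nonneg 0 (2 * v) (y - x)
        show 0 ≤ av D V v x * (K * Real.exp 2 * 2) * ((y - x) ^ 2 * gaussianPDFReal 0 (2 * v) (y - x))
        positivity
    _ = K * Real.exp 2 * 2 * 2 * v * av D V v x := by
        rw [integral_const_mul, i2]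
        push_cast
        ring

theorem cut_den (hM : MPot H φ β D V) :
    ∃ (v₀ : ℝ≥0) (c : ℝ), 0 < v₀ ∧ 0 < c ∧ ∀ v : ℝ≥0, 0 < v → v ≤ v₀ → ∀ x, |x| ≤ cutA v →
      c * av D V v x ≤ ∫ y in {y : ℝ | |y| ≤ cutA v}, av D V v y * gaussianPDFReal 0 v (y - x)
        * Real.exp (tht D (x, y)) := by
  obtain ⟨K, hK, htht, hav⟩ := EPsdA_ratio hM
  obtain ⟨v₀, hv₀, hsm⟩ := EPsdA_small hK
  refine ⟨v₀, Real.exp (-1) * ((√(2 * Real.pi))⁻¹ * Real.exp (-(1 / 2))) * Real.exp (-1), hv₀,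
    by positivity, ?_⟩
  intro v hv hvv x hx
  obtain ⟨h1, hA1, hL, hKv⟩ := hsm v hv hvv
  have hv' : (0 : ℝ) < v := by exact_mod_cast hv
  have hA := EPsdA_cutA_pos hv
  set L := K * (1 + cutA v) with hLdef
  have hL0 : 0 < L := by positivity
  have hax := EPsdA_avpos hM v x
  set r := √(v : ℝ) with hr
  have hr0 : 0 < r := Real.sqrt_pos.2 hv'
  have hr2 : r ^ 2 = v := Real.sq_sqrt hv'.le
  have hr1 : r ≤ 1 := by
    rw [hr, Real.sqrt_le_iff]
    exact ⟨zero_le_one, by simpa using h1⟩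
  have hLr : L * r ≤ 1 := by
    have : (L * r) ^ 2 ≤ 1 ^ 2 := by
      rw [mul_pow, hr2]
      simpa using hL
    exact (abs_le_of_sq_le_sq' this zero_le_one).2
  -- the half interval
  obtain ⟨s, t, hst, hsub, hnear⟩ : ∃ s t : ℝ, t = s + r ∧ Icc s t ⊆ Icc (-cutA v) (cutA v) ∧
      ∀ y ∈ Icc s t, |y - x| ≤ r := by
    have hx' := abs_le.1 hx
    rcases le_total 0 x with h0 | h0
    · refine ⟨x - r, x, by ring, ?_, ?_⟩
      · exact Icc_subset_Icc (by linarith) hx'.2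
      · intro y hy
        rw [abs_le]
        constructor <;> linarith [hy.1, hy.2]
    · refine ⟨x, x + r, rfl, ?_, ?_⟩
      · exact Icc_subset_Icc hx'.1 (by linarith)
      · intro y hy
        rw [abs_le]
        constructor <;> linarith [hy.1, hy.2]
  have hcont : Continuous fun y => av D V v y * gaussianPDFReal 0 v (y - x) *
      Real.exp (tht D (x, y)) :=
    ((EPsdA_avcont hM v).mul (EPsdA_gcont v x)).mul
      (Real.continuous_exp.comp (EPsdA_thtcont hM x))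
  have hnn : ∀ y, 0 ≤ av D V v y * gaussianPDFReal 0 v (y - x) * Real.exp (tht D (x, y)) := by
    intro y
    have := gaussianPDFReal_nonneg 0 v (y - x)
    have := (EPsdA_avpos hM v y).le
    positivity
  rw [EPsdA_set]
  have hpt : ∀ y ∈ Icc s t, (av D V v x * Real.exp (-1)) *
      (((√(2 * Real.pi))⁻¹ * r⁻¹) * Real.exp (-(1 / 2))) * Real.exp (-1) ≤
      av D V v y * gaussianPDFReal 0 v (y - x) * Real.exp (tht D (x, y)) := by
    intro y hy
    have hyx := hnear y hy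
    have hyA : |y| ≤ cutA v := abs_le.2 (hsub hy)
    have e1 : av D V v x * Real.exp (-1) ≤ av D V v y := by
      have e2 := hav v h1 (cutA v) hA.le y x hyA hx
      have e3 : L * |x - y| ≤ 1 := by
        rw [abs_sub_comm]
        exact (mul_le_mul_of_nonneg_left hyx hL0.le).trans hLr
      have e4 : av D V v x ≤ av D V v y * Real.exp 1 :=
        e2.trans (mul_le_mul_of_nonneg_left (Real.exp_le_exp.2 e3) (EPsdA_avpos hM v y).le)
      have e5 : Real.exp 1 * Real.exp (-1) = 1 := by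
        rw [← Real.exp_add, add_neg_cancel, Real.exp_zero]
      calc av D V v x * Real.exp (-1) ≤ av D V v y * Real.exp 1 * Real.exp (-1) :=
            mul_le_mul_of_nonneg_right e4 (Real.exp_pos _).le
        _ = av D V v y := by rw [mul_assoc, e5, mul_one]
    have hsq : (y - x) ^ 2 ≤ v := by
      rw [← hr2, ← sq_abs]
      exact pow_le_pow_left₀ (abs_nonneg _) hyx 2
    have e6 : (√(2 * Real.pi))⁻¹ * r⁻¹ * Real.exp (-(1 / 2)) ≤ gaussianPDFReal 0 v (y - x) := by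
      unfold gaussianPDFReal
      rw [Real.sqrt_mul (by positivity) (v : ℝ), mul_inv]
      refine mul_le_mul_of_nonneg_left (Real.exp_le_exp.2 ?_) (by positivity)
      rw [sub_zero, neg_div, neg_le_neg_iff, div_le_iff₀ (by positivity)]
      linarith
    have e7 : Real.exp (-1) ≤ Real.exp (tht D (x, y)) := by
      refine Real.exp_le_exp.2 ?_
      have e8 := (abs_le.1 (htht x y)).1
      have e9 : K * (y - x) ^ 2 ≤ K * v := mul_le_mul_of_nonneg_left hsq hK.le
      linarith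
    have hc1 : 0 ≤ (√(2 * Real.pi))⁻¹ * r⁻¹ * Real.exp (-(1 / 2)) := by positivity
    have hy0 := (EPsdA_avpos hM v y).le
    exact mul_le_mul (mul_le_mul e1 e6 hc1 hy0) e7 (Real.exp_pos _).le
      (mul_nonneg hy0 (gaussianPDFReal_nonneg _ _ _))
  have hvol : (volume : Measure ℝ).real (Icc s t) = r := by
    rw [measureReal_def, Real.volume_Icc, ENNReal.toReal_ofReal (by rw [hst]; linarith), hst]
    ring
  calc Real.exp (-1) * ((√(2 * Real.pi))⁻¹ * Real.exp (-(1 / 2))) * Real.exp (-1) * av D V v x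
      = r * ((av D V v x * Real.exp (-1)) *
        (((√(2 * Real.pi))⁻¹ * r⁻¹) * Real.exp (-(1 / 2))) * Real.exp (-1)) := by
        field_simp
    _ = ∫ _y in Icc s t, (av D V v x * Real.exp (-1)) *
        (((√(2 * Real.pi))⁻¹ * r⁻¹) * Real.exp (-(1 / 2))) * Real.exp (-1) := by
        rw [setIntegral_const, smul_eq_mul, hvol]
    _ ≤ ∫ y in Icc s t, av D V v y * gaussianPDFReal 0 v (y - x) * Real.exp (tht D (x, y)) := by
        refine setIntegral_mono_on ?_ ?_ measurableSet_Icc hpt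
        · exact integrableOn_const (by
            rw [Real.volume_Icc]; exact ENNReal.ofReal_ne_top)
        · exact hcont.continuousOn.integrableOn_compact isCompact_Icc
    _ ≤ ∫ y in Icc (-cutA v) (cutA v), av D V v y * gaussianPDFReal 0 v (y - x) *
          Real.exp (tht D (x, y)) := by
        refine setIntegral_mono_set (hcont.continuousOn.integrableOn_compact isCompact_Icc)
          (Eventually.of_forall hnn) (Eventually.of_forall hsub)

end Pool.Agent.Lib.MP_e19099_pr
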