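import Pool.Agent.Lib.MP_e19099_pr.EPsdA
import Pool.Agent.Lib.MP_e19099_pr.CRwId

/-!
# MALA: almost nonnegativity (module E, E6)

`cut_psd`: with `F = f a 1_{[-A,A]}` and `c = 1/(Z s(Qc))`: `∫ f f ds' = c ∫∫ F(x)F(y) γ_v + c ∫∫ F(x)F(y) γ_v (e^θ - 1)`; the first term is `≥ 0` (`gau_psd`), the second
is `≥ -c ∫ f(x)² a(x) ∫_{|y|≤A} a(y) γ_v |e^θ - 1|` by `|f(x)f(y)| ≤ ½(f(x)²+f(y)²)` and symmetry, and by `cut_num`, `cut_den` this is `≥ -(C/c₀) v ∫ f(x)² ds'`.
`psd_one`: for every symmetric probability measure `-∫ f(x)² ≤ ∫ f(x) f(y)`.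
`m_aux`: `s' n = sc D V (v n)`, `δ n = min 1 (C v n)` if `v n ≤ v₀`, `1` otherwise; `η n = 2 (n+1) s(Qcᶜ)`.
-/

set_option autoImplicit false

open MeasureTheory ProbabilityTheory Filter Set
open scoped NNReal Topology ENNReal

namespace Pool.Agent.Lib.MP_e19099_pr

variable {H l : ℝ} {φ β D V : ℝ → ℝ}

private theorem EPsdB_bdd {s : Measure (ℝ × ℝ)} [IsFiniteMeasure s] {g : ℝ × ℝ → ℝ} {K : ℝ}
    (hm : Measurable g) (hb : ∀ z, |g z| ≤ K) : Integrable g s :=
  Integrable.of_bound hm.aestronglyMeasurable K (Eventually.of_forall hb)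

private theorem EPsdB_sq {C x : ℝ} (h : |x| ≤ C) : |x ^ 2| ≤ C ^ 2 := by
  rw [abs_of_nonneg (sq_nonneg x), ← sq_abs]
  exact pow_le_pow_left₀ (abs_nonneg x) h 2

theorem psd_one {s : Measure (ℝ × ℝ)} [IsProbabilityMeasure s] (hs : s.map Prod.swap = s) {C : ℝ}
    {f : ℝ → ℝ} (hf : MB C f) : -∫ z, f z.1 ^ 2 ∂s ≤ ∫ z, f z.1 * f z.2 ∂s := by
  have hm1 : Measurable fun z : ℝ × ℝ => f z.1 := hf.meas.comp measurable_fst
  have hm2 : Measurable fun z : ℝ × ℝ => f z.2 := hf.meas.comp measurable_snd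
  have hi1 : Integrable (fun z : ℝ × ℝ => f z.1 ^ 2) s :=
    EPsdB_bdd (hm1.pow_const 2) (K := C ^ 2) fun z => EPsdB_sq (hf.bdd _)
  have hi2 : Integrable (fun z : ℝ × ℝ => f z.2 ^ 2) s :=
    EPsdB_bdd (hm2.pow_const 2) (K := C ^ 2) fun z => EPsdB_sq (hf.bdd _)
  have hi3 : Integrable (fun z : ℝ × ℝ => f z.1 * f z.2) s := by
    refine EPsdB_bdd (hm1.mul hm2) (K := C * C) fun z => ?_
    rw [abs_mul]
    exact mul_le_mul (hf.bdd _) (hf.bdd _) (abs_nonneg _) ((abs_nonneg _).trans (hf.bdd z.1))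
  have he : ∫ z : ℝ × ℝ, f z.2 ^ 2 ∂s = ∫ z : ℝ × ℝ, f z.1 ^ 2 ∂s := by
    nth_rewrite 2 [← hs]
    rw [integral_map measurable_swap.aemeasurable
      (hm1.pow_const 2).aestronglyMeasurable]
    rfl
  have h1 : ∫ z : ℝ × ℝ, -((f z.1 ^ 2 + f z.2 ^ 2) / 2) ∂s = -∫ z, f z.1 ^ 2 ∂s := by
    rw [integral_neg, integral_div, integral_add hi1 hi2, he]
    ring
  rw [← h1]
  refine integral_mono ((hi1.add hi2).div_const 2).neg hi3 fun z => ?_
  show -((f z.1 ^ 2 + f z.2 ^ 2) / 2) ≤ f z.1 * f z.2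
  nlinarith [sq_nonneg (f z.1 + f z.2)]

private theorem EPsdB_Q (v : ℝ≥0) :
    Qc v = {x : ℝ | |x| ≤ cutA v} ×ˢ {x : ℝ | |x| ≤ cutA v} := rfl

private theorem EPsdB_Icc (v : ℝ≥0) : {x : ℝ | |x| ≤ cutA v} = Icc (-cutA v) (cutA v) := by
  ext x
  show |x| ≤ cutA v ↔ -cutA v ≤ x ∧ x ≤ cutA v
  exact abs_le

private theorem EPsdB_Qm (v : ℝ≥0) : MeasurableSet (Qc v) := by
  rw [EPsdB_Q, EPsdB_Icc]
  exact measurableSet_Icc.prod measurableSet_Icc

private theorem EPsdB_Qcomp (v : ℝ≥0) : IsCompact (Qc v) := by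
  rw [EPsdB_Q, EPsdB_Icc]
  exact isCompact_Icc.prod isCompact_Icc

private theorem EPsdB_contD (hM : MPot H φ β D V) : Continuous D :=
  continuous_iff_continuousAt.2 fun x => (hM.dD x).continuousAt

private theorem EPsdB_contV (hM : MPot H φ β D V) : Continuous V :=
  continuous_iff_continuousAt.2 fun x => (hM.dV x).continuousAt

private theorem EPsdB_av_cont (hM : MPot H φ β D V) (v : ℝ≥0) : Continuous (av D V v) := by
  have h1 := EPsdB_contD hM
  have h2 := EPsdB_contV hM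
  unfold av nrm
  fun_prop

private theorem EPsdB_av_nonneg (v : ℝ≥0) (x : ℝ) : 0 ≤ av D V v x := by
  unfold av
  positivity

private theorem EPsdB_tht_cont (hM : MPot H φ β D V) : Continuous (tht D) := by
  have h1 := EPsdB_contD hM
  unfold tht
  fun_prop

private theorem EPsdB_gau_cont (v : ℝ≥0) :
    Continuous fun z : ℝ × ℝ => gaussianPDFReal 0 v (z.2 - z.1) := by
  have h : Continuous (gaussianPDFReal 0 v) := by
    rw [gaussianPDFReal_def]
    fun_prop
  exact h.comp (continuous_snd.sub continuous_fst)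

/-- integrals of bounded functions over the cut square -/
private theorem EPsdB_int (v : ℝ≥0) {g h : ℝ × ℝ → ℝ} {K : ℝ} (hg : Measurable g)
    (hb : ∀ z, |g z| ≤ K) (hh : Continuous h) : IntegrableOn (fun z => g z * h z) (Qc v) := by
  have h1 : IntegrableOn h (Qc v) := hh.continuousOn.integrableOn_compact (EPsdB_Qcomp v)
  exact h1.bdd_mul (c := K) hg.aestronglyMeasurable (Eventually.of_forall hb)

private theorem EPsdB_swap (v : ℝ≥0) (g : ℝ × ℝ → ℝ) :
    ∫ z in Qc v, g z.swap = ∫ z in Qc v, g z := by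
  rw [← integral_indicator (EPsdB_Qm v), ← integral_indicator (EPsdB_Qm v)]
  have h1 : (Qc v).indicator (fun z => g z.swap) = fun z => (Qc v).indicator g z.swap := by
    funext z
    by_cases hz : z ∈ Qc v
    · have hz' : z.swap ∈ Qc v := ⟨hz.2, hz.1⟩
      rw [indicator_of_mem hz, indicator_of_mem hz']
    · have hz' : z.swap ∉ Qc v := fun h => hz ⟨h.2, h.1⟩
      rw [indicator_of_notMem hz, indicator_of_notMem hz']
  rw [h1, Measure.volume_eq_prod]
  exact integral_prod_swap ((Qc v).indicator g)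

/-- the conditioned measure in terms of the Lebesgue measure -/
private theorem EPsdB_sc (hM : MPot H φ β D V) {v : ℝ≥0} (hv : 0 < v) (hp : Dens (nrm V)) :
    ∃ κ : ℝ, 0 < κ ∧ ∀ g : ℝ × ℝ → ℝ, ∫ z, g z ∂(sc D V v) =
      κ * ∫ z in Qc v, g z * sdn (nrm V) (mq D v) z := by
  have hq := mq_prop hM hv
  have hQ := cut_pos hM hv
  have := sm_prob hp hq
  have hr : 0 < (sm (nrm V) (mq D v)).real (Qc v) :=
    ENNReal.toReal_pos hQ (measure_ne_top _ _)
  refine ⟨((sm (nrm V) (mq D v)).real (Qc v))⁻¹ * (Zf (nrm V) (mq D v))⁻¹,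
    mul_pos (inv_pos.2 hr) (inv_pos.2 (Zf_pos hp hq)), fun g => ?_⟩
  unfold sc ProbabilityTheory.cond
  rw [integral_smul_measure, ← integral_indicator (EPsdB_Qm v), integral_sm hp hq,
    ENNReal.toReal_inv, smul_eq_mul, ← mul_assoc, ← integral_indicator (EPsdB_Qm v)]
  congr 2
  funext z
  by_cases hz : z ∈ Qc v
  · rw [indicator_of_mem hz, indicator_of_mem hz]
  · rw [indicator_of_notMem hz, indicator_of_notMem hz, zero_mul]

theorem cut_psd (hM : MPot H φ β D V) :
    ∃ (v₀ : ℝ≥0) (C : ℝ), 0 < v₀ ∧ 0 < C ∧ ∀ v : ℝ≥0, 0 < v → v ≤ v₀ → ∀ (C' : ℝ) (f : ℝ → ℝ),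
      MB C' f → -(C * v) * ∫ z, f z.1 ^ 2 ∂(sc D V v) ≤ ∫ z, f z.1 * f z.2 ∂(sc D V v) := by
  obtain ⟨v₁, C₁, hv₁, hC₁, hnum⟩ := cut_num hM
  obtain ⟨v₂, c, hv₂, hc, hden⟩ := cut_den hM
  refine ⟨min v₁ v₂, C₁ / c, lt_min hv₁ hv₂, by positivity, fun v hv hvv C' f hf => ?_⟩
  have hp : Dens (nrm V) := nrm_dens (EPsdB_contV hM) hM.exp_int
  obtain ⟨κ, hκ, hint⟩ := EPsdB_sc hM hv hp
  rw [hint, hint]
  set A : Set ℝ := {x : ℝ | |x| ≤ cutA v} with hA
  have hAm : MeasurableSet A := by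
    rw [hA, EPsdB_Icc]
    exact measurableSet_Icc
  have hac := EPsdB_av_cont hM v
  have hgc := EPsdB_gau_cont v
  have htc := EPsdB_tht_cont hM
  have hm1 : Measurable fun z : ℝ × ℝ => f z.1 := hf.meas.comp measurable_fst
  have hm2 : Measurable fun z : ℝ × ℝ => f z.2 := hf.meas.comp measurable_snd
  have hG : Continuous fun z : ℝ × ℝ => av D V v z.1 * (av D V v z.2 *
      gaussianPDFReal 0 v (z.2 - z.1)) :=
    (hac.comp continuous_fst).mul ((hac.comp continuous_snd).mul hgc)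
  have hE : Continuous fun z : ℝ × ℝ => Real.exp (tht D z) := Real.continuous_exp.comp htc
  have hE1 : Continuous fun z : ℝ × ℝ => |Real.exp (tht D z) - 1| := (hE.sub continuous_const).abs
  -- the main terms
  set G : ℝ × ℝ → ℝ := fun z => av D V v z.1 * (av D V v z.2 *
      gaussianPDFReal 0 v (z.2 - z.1)) with hGdef
  have hG0 : ∀ z, 0 ≤ G z := fun z => mul_nonneg (EPsdB_av_nonneg v _)
    (mul_nonneg (EPsdB_av_nonneg v _) (gaussianPDFReal_nonneg _ _ _))
  have hsdn : ∀ z, sdn (nrm V) (mq D v) z = G z * Real.exp (tht D z) := fun z => by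
    rw [sdn_av hM hv, hGdef]
    ring
  have hb1 : ∀ z : ℝ × ℝ, |f z.1 ^ 2| ≤ C' ^ 2 := fun z => EPsdB_sq (hf.bdd _)
  have hb3 : ∀ z : ℝ × ℝ, |f z.1 * f z.2| ≤ C' * C' := fun z => by
    rw [abs_mul]
    exact mul_le_mul (hf.bdd _) (hf.bdd _) (abs_nonneg _) ((abs_nonneg _).trans (hf.bdd z.1))
  have hi1 : IntegrableOn (fun z : ℝ × ℝ => f z.1 ^ 2 * (G z * Real.exp (tht D z))) (Qc v) :=
    EPsdB_int v (hm1.pow_const 2) hb1 (hG.mul hE)
  have hi2 : IntegrableOn (fun z : ℝ × ℝ => f z.1 ^ 2 * (G z * |Real.exp (tht D z) - 1|)) (Qc v) :=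
    EPsdB_int v (hm1.pow_const 2) hb1 (hG.mul hE1)
  have hi2' : IntegrableOn (fun z : ℝ × ℝ => f z.2 ^ 2 * (G z * |Real.exp (tht D z) - 1|)) (Qc v) :=
    EPsdB_int v (hm2.pow_const 2) (fun z => EPsdB_sq (hf.bdd z.2)) (hG.mul hE1)
  have hi3 : IntegrableOn (fun z : ℝ × ℝ => f z.1 * f z.2 * G z) (Qc v) :=
    EPsdB_int v (hm1.mul hm2) hb3 hG
  have hi4 : IntegrableOn (fun z : ℝ × ℝ => f z.1 * f z.2 * (G z * (Real.exp (tht D z) - 1)))
      (Qc v) := EPsdB_int v (hm1.mul hm2) hb3 (hG.mul (hE.sub continuous_const))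
  -- first term
  have h1 : 0 ≤ ∫ z in Qc v, f z.1 * f z.2 * G z := by
    have hFi : Integrable (A.indicator fun x => f x * av D V v x) := by
      rw [integrable_indicator_iff hAm]
      have h2 : IntegrableOn (av D V v) A := by
        rw [hA, EPsdB_Icc]
        exact hac.continuousOn.integrableOn_compact isCompact_Icc
      exact h2.bdd_mul (c := C') hf.meas.aestronglyMeasurable (Eventually.of_forall hf.bdd)
    have h3 := (gau_psd hv (F := A.indicator fun x => f x * av D V v x)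
      ((hf.meas.mul hac.measurable).indicator hAm) hFi).2
    refine h3.trans (le_of_eq ?_)
    rw [← integral_indicator (EPsdB_Qm v)]
    refine integral_congr_ae (Eventually.of_forall fun z => ?_)
    show A.indicator (fun x => f x * av D V v x) z.1 * A.indicator (fun x => f x * av D V v x) z.2 *
      gaussianPDFReal 0 v (z.2 - z.1) = (Qc v).indicator (fun z => f z.1 * f z.2 * G z) z
    by_cases hz : z ∈ Qc v
    · rw [indicator_of_mem hz, indicator_of_mem (show z.1 ∈ A from hz.1),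
        indicator_of_mem (show z.2 ∈ A from hz.2), hGdef]
      ring
    · rw [indicator_of_notMem hz]
      by_cases hz1 : z.1 ∈ A
      · have hz2 : z.2 ∉ A := fun h => hz ⟨hz1, h⟩
        rw [indicator_of_notMem hz2]
        ring
      · rw [indicator_of_notMem hz1]
        ring
  -- second term
  have h2 : -∫ z in Qc v, f z.1 ^ 2 * (G z * |Real.exp (tht D z) - 1|) ≤
      ∫ z in Qc v, f z.1 * f z.2 * (G z * (Real.exp (tht D z) - 1)) := by
    have he : ∫ z in Qc v, f z.2 ^ 2 * (G z * |Real.exp (tht D z) - 1|) =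
        ∫ z in Qc v, f z.1 ^ 2 * (G z * |Real.exp (tht D z) - 1|) := by
      rw [← EPsdB_swap v fun z => f z.1 ^ 2 * (G z * |Real.exp (tht D z) - 1|)]
      refine integral_congr_ae (Eventually.of_forall fun z => ?_)
      show f z.2 ^ 2 * (G z * |Real.exp (tht D z) - 1|) =
        f z.swap.1 ^ 2 * (G z.swap * |Real.exp (tht D z.swap) - 1|)
      have e1 : G z.swap = G z := by
        have e2 : gaussianPDFReal 0 v (z.1 - z.2) = gaussianPDFReal 0 v (z.2 - z.1) := by
          rw [gaussianPDFReal_def]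
          show (√(2 * Real.pi * v))⁻¹ * Real.exp (-(z.1 - z.2 - 0) ^ 2 / (2 * v)) =
            (√(2 * Real.pi * v))⁻¹ * Real.exp (-(z.2 - z.1 - 0) ^ 2 / (2 * v))
          have e3 : (z.1 - z.2 - 0) ^ 2 = (z.2 - z.1 - 0) ^ 2 := by ring
          rw [e3]
        show av D V v z.2 * (av D V v z.1 * gaussianPDFReal 0 v (z.1 - z.2)) =
          av D V v z.1 * (av D V v z.2 * gaussianPDFReal 0 v (z.2 - z.1))
        rw [e2]
        ring
      have e4 : tht D z.swap = tht D z := by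
        unfold tht
        rw [Prod.fst_swap, Prod.snd_swap]
        ring
      rw [e1, e4]
      rfl
    have h3 : ∫ z in Qc v, -((f z.1 ^ 2 * (G z * |Real.exp (tht D z) - 1|) +
        f z.2 ^ 2 * (G z * |Real.exp (tht D z) - 1|)) / 2) =
        -∫ z in Qc v, f z.1 ^ 2 * (G z * |Real.exp (tht D z) - 1|) := by
      rw [integral_neg, integral_div, integral_add hi2 hi2', he]
      ring
    rw [← h3]
    refine integral_mono ((hi2.add hi2').div_const 2).neg hi4 fun z => ?_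
    show -((f z.1 ^ 2 * (G z * |Real.exp (tht D z) - 1|) +
        f z.2 ^ 2 * (G z * |Real.exp (tht D z) - 1|)) / 2) ≤
        f z.1 * f z.2 * (G z * (Real.exp (tht D z) - 1))
    have h4 : |f z.1 * f z.2| ≤ (f z.1 ^ 2 + f z.2 ^ 2) / 2 := by
      rw [abs_le]
      constructor
      · nlinarith [sq_nonneg (f z.1 + f z.2)]
      · nlinarith [sq_nonneg (f z.1 - f z.2)]
    have h5 : |f z.1 * f z.2 * (G z * (Real.exp (tht D z) - 1))| ≤
        (f z.1 ^ 2 + f z.2 ^ 2) / 2 * (G z * |Real.exp (tht D z) - 1|) := by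
      rw [abs_mul (f z.1 * f z.2), abs_mul (G z), abs_of_nonneg (hG0 z)]
      exact mul_le_mul_of_nonneg_right h4 (mul_nonneg (hG0 z) (abs_nonneg _))
    have h6 := (abs_le.1 h5).1
    linarith
  -- comparison of the two integrals over the square
  have h3 : ∫ z in Qc v, f z.1 ^ 2 * (G z * |Real.exp (tht D z) - 1|) ≤
      C₁ / c * v * ∫ z in Qc v, f z.1 ^ 2 * (G z * Real.exp (tht D z)) := by
    rw [← integral_const_mul]
    have hi1' : IntegrableOn (fun z : ℝ × ℝ => C₁ / c * v *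
        (f z.1 ^ 2 * (G z * Real.exp (tht D z)))) (A ×ˢ A) (volume.prod volume) := by
      rw [← Measure.volume_eq_prod]
      exact hi1.const_mul _
    have hi2'' : IntegrableOn (fun z : ℝ × ℝ => f z.1 ^ 2 * (G z * |Real.exp (tht D z) - 1|))
        (A ×ˢ A) (volume.prod volume) := by
      rw [← Measure.volume_eq_prod]
      exact hi2
    have e1 : ∫ z in Qc v, f z.1 ^ 2 * (G z * |Real.exp (tht D z) - 1|) =
        ∫ x in A, ∫ y in A, f x ^ 2 * (G (x, y) * |Real.exp (tht D (x, y)) - 1|) := by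
      rw [EPsdB_Q, Measure.volume_eq_prod]
      exact setIntegral_prod _ hi2''
    have e2 : ∫ z in Qc v, C₁ / c * v * (f z.1 ^ 2 * (G z * Real.exp (tht D z))) =
        ∫ x in A, ∫ y in A, C₁ / c * v * (f x ^ 2 * (G (x, y) * Real.exp (tht D (x, y)))) := by
      rw [EPsdB_Q, Measure.volume_eq_prod]
      exact setIntegral_prod _ hi1'
    rw [e1, e2]
    have j1 : IntegrableOn (fun x => ∫ y in A,
        f x ^ 2 * (G (x, y) * |Real.exp (tht D (x, y)) - 1|)) A := by
      have h4 := hi2''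
      unfold IntegrableOn at h4
      rw [← Measure.prod_restrict] at h4
      exact h4.integral_prod_left
    have j2 : IntegrableOn (fun x => ∫ y in A,
        C₁ / c * v * (f x ^ 2 * (G (x, y) * Real.exp (tht D (x, y))))) A := by
      have h4 := hi1'
      unfold IntegrableOn at h4
      rw [← Measure.prod_restrict] at h4
      exact h4.integral_prod_left
    refine setIntegral_mono_on j1 j2 hAm fun x hx => ?_
    have k1 : ∫ y in A, f x ^ 2 * (G (x, y) * |Real.exp (tht D (x, y)) - 1|) =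
        f x ^ 2 * av D V v x * ∫ y in A, av D V v y * gaussianPDFReal 0 v (y - x)
        * |Real.exp (tht D (x, y)) - 1| := by
      rw [← integral_const_mul]
      refine integral_congr_ae (Eventually.of_forall fun y => ?_)
      show f x ^ 2 * (av D V v x * (av D V v y * gaussianPDFReal 0 v (y - x)) *
        |Real.exp (tht D (x, y)) - 1|) = _
      ring
    have k2 : ∫ y in A, C₁ / c * v * (f x ^ 2 * (G (x, y) * Real.exp (tht D (x, y)))) =
        f x ^ 2 * av D V v x * (C₁ / c * v * ∫ y in A, av D V v y * gaussianPDFReal 0 v (y - x)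
        * Real.exp (tht D (x, y))) := by
      rw [← integral_const_mul, ← integral_const_mul]
      refine integral_congr_ae (Eventually.of_forall fun y => ?_)
      show C₁ / c * v * (f x ^ 2 * (av D V v x * (av D V v y * gaussianPDFReal 0 v (y - x)) *
        Real.exp (tht D (x, y)))) = _
      ring
    rw [k1, k2]
    refine mul_le_mul_of_nonneg_left ?_ (mul_nonneg (sq_nonneg _) (EPsdB_av_nonneg v _))
    have n1 := hnum v hv (hvv.trans (min_le_left _ _)) x hx
    have n2 := hden v hv (hvv.trans (min_le_right _ _)) x hx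
    refine n1.trans ?_
    have hv' : (0 : ℝ) ≤ v := v.coe_nonneg
    calc C₁ * v * av D V v x = C₁ / c * v * (c * av D V v x) := by
          field_simp
      _ ≤ _ := mul_le_mul_of_nonneg_left n2 (by positivity)
  have h4 : ∫ z in Qc v, f z.1 * f z.2 * sdn (nrm V) (mq D v) z =
      (∫ z in Qc v, f z.1 * f z.2 * G z) +
        ∫ z in Qc v, f z.1 * f z.2 * (G z * (Real.exp (tht D z) - 1)) := by
    rw [← integral_add hi3 hi4]
    refine integral_congr_ae (Eventually.of_forall fun z => ?_)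
    show f z.1 * f z.2 * sdn (nrm V) (mq D v) z =
      f z.1 * f z.2 * G z + f z.1 * f z.2 * (G z * (Real.exp (tht D z) - 1))
    rw [hsdn]
    ring
  have h5 : ∫ z in Qc v, f z.1 ^ 2 * sdn (nrm V) (mq D v) z =
      ∫ z in Qc v, f z.1 ^ 2 * (G z * Real.exp (tht D z)) := by
    refine integral_congr_ae (Eventually.of_forall fun z => ?_)
    show f z.1 ^ 2 * sdn (nrm V) (mq D v) z = f z.1 ^ 2 * (G z * Real.exp (tht D z))
    rw [hsdn]
  rw [h4, h5]
  have h6 : -(C₁ / c * v) * ∫ z in Qc v, f z.1 ^ 2 * (G z * Real.exp (tht D z)) ≤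
      (∫ z in Qc v, f z.1 * f z.2 * G z) +
        ∫ z in Qc v, f z.1 * f z.2 * (G z * (Real.exp (tht D z) - 1)) := by linarith
  calc -(C₁ / c * v) * (κ * ∫ z in Qc v, f z.1 ^ 2 * (G z * Real.exp (tht D z)))
      = κ * (-(C₁ / c * v) * ∫ z in Qc v, f z.1 ^ 2 * (G z * Real.exp (tht D z))) := by ring
    _ ≤ _ := mul_le_mul_of_nonneg_left h6 hκ.le

theorem m_aux (hM : MPot H φ β D V) (hH : 0 < H) (hH1 : H < 1) (hl : 0 < l) :
    ∃ (s' : ℕ → Measure (ℝ × ℝ)) (δ η : ℕ → ℝ),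
      Aux (nrm V) (fun n => mq D (vH l (2 + H) n)) s' δ η := by
  obtain ⟨v₀, C, hv₀, hC, hpsd⟩ := cut_psd hM
  have hv : ∀ n, 0 < vH l (2 + H) n := vH_pos hl (2 + H)
  have hvl := vH_lim (l := l) (a := 2 + H) hl (by linarith)
  refine ⟨fun n => sc D V (vH l (2 + H) n),
    fun n => if vH l (2 + H) n ≤ v₀ then min 1 (C * vH l (2 + H) n) else 1,
    fun n => 2 * (((n : ℝ) + 1) *
      (sm (nrm V) (mq D (vH l (2 + H) n))).real (Qc (vH l (2 + H) n))ᶜ), ?_⟩
  refine ⟨fun n => sc_prob hM (hv n), fun n => sc_swap hM (hv n), ?_, ?_, ?_, ?_, ?_⟩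
  · have h1 : ∀ᶠ n in atTop, vH l (2 + H) n ≤ v₀ := hvl.eventually (ge_mem_nhds hv₀)
    have h2 : Tendsto (fun n => min 1 (C * (vH l (2 + H) n : ℝ))) atTop (𝓝 0) := by
      have h3 : Tendsto (fun n => ((vH l (2 + H) n : ℝ≥0) : ℝ)) atTop (𝓝 0) := by
        rw [← NNReal.coe_zero, NNReal.tendsto_coe]
        exact hvl
      have h4 : Tendsto (fun n => min 1 (C * (vH l (2 + H) n : ℝ))) atTop (𝓝 (min 1 (C * 0))) :=
        tendsto_const_nhds.min (h3.const_mul C)
      simpa using h4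
    refine h2.congr' ?_
    filter_upwards [h1] with n hn
    rw [if_pos hn]
  · have h1 := (cut_mass hM hH hH1 hl).const_mul 2
    rw [mul_zero] at h1
    exact h1
  · intro n
    have h1 : (0 : ℝ) ≤ C * vH l (2 + H) n := mul_nonneg hC.le (NNReal.coe_nonneg _)
    show 0 ≤ (if vH l (2 + H) n ≤ v₀ then min 1 (C * (vH l (2 + H) n : ℝ)) else 1) ∧
      (if vH l (2 + H) n ≤ v₀ then min 1 (C * (vH l (2 + H) n : ℝ)) else 1) ≤ 1
    split_ifs
    · exact ⟨le_min zero_le_one h1, min_le_left _ _⟩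
    · exact ⟨zero_le_one, le_rfl⟩
  · intro n F hF
    refine (cut_close hM (hv n) hF).trans (le_of_eq ?_)
    have : (n : ℝ) + 1 ≠ 0 := by positivity
    field_simp
  · intro n C' f hf
    have := sc_prob hM (hv n)
    have h1 := psd_one (sc_swap hM (hv n)) hf
    show -(if vH l (2 + H) n ≤ v₀ then min 1 (C * (vH l (2 + H) n : ℝ)) else 1) *
      ∫ z, f z.1 ^ 2 ∂(sc D V (vH l (2 + H) n)) ≤ ∫ z, f z.1 * f z.2 ∂(sc D V (vH l (2 + H) n))
    split_ifs with hn
    · have h2 := hpsd _ (hv n) hn C' f hf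
      rcases min_choice 1 (C * (vH l (2 + H) n : ℝ)) with h3 | h3
      · rw [h3]
        linarith
      · rw [h3]
        exact h2
    · linarith

end Pool.Agent.Lib.MP_e19099_pr
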