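import Pool.Agent.Lib.MP_e19099_pr.EFc
import Pool.Agent.Lib.MP_e19099_pr.EPsdB

/-!
# MALA proposals satisfy the conditions of module B (module E, E8)

Collect `m_clt`, `m_rsq`, `m_zlim`, `m_aux`, `mq_mom` (`v⁴ ≤ l⁴ v²` as `v ≤ l²`), `mg_*`.
-/

set_option autoImplicit false

open MeasureTheory ProbabilityTheory Filter Set
open scoped NNReal Topology ENNReal

namespace Pool.Agent.Lib.MP_e19099_pr

private theorem ESetup_tau_le {a : ℝ} (ha : 0 < a) (n : ℕ) : tauH a n ≤ 1 := by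
  unfold tauH
  refine Real.rpow_le_one_of_one_le_of_nonpos ?_ ?_
  · have : (0 : ℝ) ≤ n := Nat.cast_nonneg n
    linarith
  · have : 0 < 1 / a := by positivity
    linarith

theorem m_setup {H l : ℝ} {φ β D V : ℝ → ℝ} (hM : MPot H φ β D V) (hH : 0 < H) (hH1 : H < 1)
    (hl : 0 < l) :
    BSetup (nrm V) (fun n => mq D (vH l (2 + H) n)) l (sgM H l φ V) (tauH (2 + H)) := by
  have hcont : Continuous V := continuous_iff_continuousAt.2 fun x => (hM.dV x).continuousAt
  have hd : Dens (nrm V) := nrm_dens hcont hM.exp_int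
  have hp : ∀ n, IsProp (mq D (vH l (2 + H) n)) := fun n => mq_prop hM (vH_pos hl _ n)
  have ha : 0 < 2 + H := by linarith
  refine
    { dens := hd
      prop := hp
      lpos := hl
      σpos := sgM_pos hM hH hl
      tpos := tauH_pos _
      tlim := tauH_lim ha
      int4 := fun n => ?_
      mom := ?_
      clt := m_clt hM hH hH1 hl
      rsq := m_rsq hM hH hH1 hl
      zlim := m_zlim hM hH hH1 hl
      aux := m_aux hM hH hH1 hl
      fc := fun t ht a => ?_ }
  · obtain ⟨C, hC⟩ := mq_mom hM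
    exact (hC _ (vH_pos hl _ n)).1
  · obtain ⟨C, hC⟩ := mq_mom hM
    refine ⟨|C| * (l ^ 4 + l ^ 8), fun n => ?_⟩
    have h1 := (hC _ (vH_pos hl (2 + H) n)).2
    have ht0 := tauH_pos (2 + H) n
    have ht1 := ESetup_tau_le ha n
    rw [vH_coe] at h1
    have h2 : (l ^ 2 * tauH (2 + H) n) ^ 2 + (l ^ 2 * tauH (2 + H) n) ^ 4
        ≤ (l ^ 4 + l ^ 8) * tauH (2 + H) n ^ 2 := by
      have h3 : tauH (2 + H) n ^ 4 ≤ tauH (2 + H) n ^ 2 :=
        pow_le_pow_of_le_one ht0.le ht1 (by norm_num)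
      have h4 : 0 ≤ l ^ 8 := by positivity
      nlinarith [mul_le_mul_of_nonneg_left h3 h4]
    calc _ ≤ C * ((l ^ 2 * tauH (2 + H) n) ^ 2 + (l ^ 2 * tauH (2 + H) n) ^ 4) := h1
      _ ≤ |C| * ((l ^ 2 * tauH (2 + H) n) ^ 2 + (l ^ 2 * tauH (2 + H) n) ^ 4) :=
          mul_le_mul_of_nonneg_right (le_abs_self C) (by positivity)
      _ ≤ |C| * ((l ^ 4 + l ^ 8) * tauH (2 + H) n ^ 2) :=
          mul_le_mul_of_nonneg_left h2 (abs_nonneg C)
      _ = |C| * (l ^ 4 + l ^ 8) * tauH (2 + H) n ^ 2 := by ring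
  · obtain ⟨C, hC⟩ := mg_bdd hM ht (Real.toNNReal (l ^ 2))
    have hv : ∀ n, vH l (2 + H) n ≤ Real.toNNReal (l ^ 2) := fun n => by
      unfold vH
      refine Real.toNNReal_le_toNNReal ?_
      exact mul_le_of_le_one_right (sq_nonneg l) (ESetup_tau_le ha n)
    exact ⟨fun n => mg D V t (vH l (2 + H) n), C,
      { meas := fun _ => mg_meas hM ht _
        lip := fun n z => (hC _ (hv n) z).1
        bdd := fun n z => (hC _ (hv n) z).2
        close := mg_close hM hH hH1 hl ht a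
        tail := mg_tail hM hH hH1 hl ht
        gen := fun ε hε => mg_gen hM hH hH1 hl ht hε }⟩

end Pool.Agent.Lib.MP_e19099_pr
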