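import Pool.Agent.Lib.MP_e19099_pr.EWt

/-!
# MALA: the weights for the central limit condition (module E, E4a)

`S_n = sdn (nrm V) (mq D v_n)`, `v_n = vH l (2+H) n`.
`incM_cos`: `W n = (1 - cos(t R)) S_n`, `m = (t²/2) p`.  `bdd`: `1 - cos(tR) ≤ t² R²/2 ≤ t² (Kf² + ρ²)`, `rho_le`, `sdn_m_le`, `√(p(x)p(y)) ≤ ½(p(x)+p(y))` and `nrm_le`
(`e^{-7x²/16} (1+x²) ≤ C e^{-x²/4}`; for the term with `p(y)` write `1 + x² + z² ≤ 3 (1 + y² + z²)`).
`loc`: `|1 - cos(tR) - (t²/2) Kf²| ≤ |cos(tR) - cos(tKf)| + t⁴ Kf⁴/24`, `|cos a - cos b| ≤ ½ |a² - b²|`, `|R² - Kf²| ≤ 2|Kf||ρ| + ρ² ≤ η Kf² + (1 + 1/η) ρ²`, `|Kf| ≤ C δ²`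
(`kf_abs`); and `|S_n - p(x) γ_v| ≤ η γ_v` on compacts for small `z`, `v` (`sdn_m`, `mth_le`, uniform continuity of `√p`), `gau_two`.
`incM_sq`: the same with `R²` in place of `1 - cos`.
-/

set_option autoImplicit false

open MeasureTheory ProbabilityTheory Filter Set
open scoped NNReal Topology ENNReal

namespace Pool.Agent.Lib.MP_e19099_pr

variable {H l : ℝ} {φ β D V : ℝ → ℝ}

private theorem ewc_exp (x : ℝ) :
    (1 + x ^ 2) * Real.exp (-7 * x ^ 2 / 16) ≤ 6 * Real.exp (-x ^ 2 / 4) := by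
  have h1 : Real.exp (-7 * x ^ 2 / 16) * Real.exp (3 * x ^ 2 / 16) = Real.exp (-x ^ 2 / 4) := by
    rw [← Real.exp_add]
    congr 1
    ring
  have h2 : 3 * x ^ 2 / 16 + 1 ≤ Real.exp (3 * x ^ 2 / 16) := Real.add_one_le_exp _
  have h3 : 1 + x ^ 2 ≤ 6 * Real.exp (3 * x ^ 2 / 16) := by nlinarith [sq_nonneg x]
  rw [← h1]
  have h4 := Real.exp_pos (-7 * x ^ 2 / 16)
  calc (1 + x ^ 2) * Real.exp (-7 * x ^ 2 / 16)
      ≤ (6 * Real.exp (3 * x ^ 2 / 16)) * Real.exp (-7 * x ^ 2 / 16) :=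
        mul_le_mul_of_nonneg_right h3 h4.le
    _ = 6 * (Real.exp (-7 * x ^ 2 / 16) * Real.exp (3 * x ^ 2 / 16)) := by ring

private theorem ewc_exp' (x : ℝ) : Real.exp (-7 * x ^ 2 / 16) ≤ Real.exp (-x ^ 2 / 4) :=
  Real.exp_le_exp.2 (by nlinarith [sq_nonneg x])

private theorem ewc_exp1 (x : ℝ) : Real.exp (-7 * x ^ 2 / 16) ≤ 1 :=
  Real.exp_le_one_iff.2 (by nlinarith [sq_nonneg x])

private theorem ewc_nonneg (V : ℝ → ℝ) (x : ℝ) : 0 ≤ nrm V x := by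
  unfold nrm
  exact div_nonneg (Real.exp_pos _).le (integral_nonneg fun y => (Real.exp_pos _).le)

private theorem ewc_cont (hM : MPot H φ β D V) : Continuous (nrm V) := by
  have h1 : Continuous V := continuous_iff_continuousAt.2 fun x => (hM.dV x).continuousAt
  unfold nrm
  exact (Real.continuous_exp.comp h1).div_const _

private theorem ewc_Dcont (hM : MPot H φ β D V) : Continuous D :=
  continuous_iff_continuousAt.2 fun x => (hM.dD x).continuousAt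

private theorem ewc_meas (hM : MPot H φ β D V) {v : ℝ≥0} (hv : 0 < v) :
    Measurable (Rf (nrm V) (mq D v)) ∧ Measurable (sdn (nrm V) (mq D v)) := by
  have hD := (ewc_Dcont hM).measurable
  have hp := (ewc_cont hM).measurable
  have hg : Measurable (gaussianPDFReal 0 v) := measurable_gaussianPDFReal _ _
  constructor
  · have h : Rf (nrm V) (mq D v) = fun z => Kf β z - rho D v z := funext fun z => Rf_m hM hv z
    rw [h]
    refine (kf_meas hM).sub ?_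
    unfold rho
    exact (((hD.comp measurable_snd).pow_const 2).sub
      ((hD.comp measurable_fst).pow_const 2)).const_mul _
  · have h : sdn (nrm V) (mq D v) = fun z => √(nrm V z.1 * nrm V z.2) * Real.exp (mth D v z)
      * gaussianPDFReal 0 v (z.2 - z.1) := funext fun z => sdn_m hM hv z
    rw [h]
    have h1 : Measurable fun z : ℝ × ℝ => √(nrm V z.1 * nrm V z.2) :=
      ((hp.comp measurable_fst).mul (hp.comp measurable_snd)).sqrt
    have h2 : Measurable (mth D v) := by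
      unfold mth
      exact (((((hD.comp measurable_fst).pow_const 2).add
        ((hD.comp measurable_snd).pow_const 2)).const_mul _).neg).sub
        ((((measurable_snd.sub measurable_fst).mul
          ((hD.comp measurable_snd).sub (hD.comp measurable_fst)))).div_const _)
    exact (h1.mul (Real.measurable_exp.comp h2)).mul (hg.comp (measurable_snd.sub measurable_fst))

private theorem ewc_sdn_nonneg (hM : MPot H φ β D V) {v : ℝ≥0} (hv : 0 < v) (z : ℝ × ℝ) :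
    0 ≤ sdn (nrm V) (mq D v) z := by
  rw [sdn_m hM hv]
  exact mul_nonneg (mul_nonneg (Real.sqrt_nonneg _) (Real.exp_pos _).le)
    (gaussianPDFReal_nonneg _ _ _)

private theorem ewc_sqrt_le {a b : ℝ} (ha : 0 ≤ a) (hb : 0 ≤ b) : 2 * √(a * b) ≤ a + b := by
  rw [Real.sqrt_mul ha]
  have h1 := Real.sq_sqrt ha
  have h2 := Real.sq_sqrt hb
  nlinarith [sq_nonneg (√a - √b)]

/-- the pointwise bound -/
private theorem ewc_bdd (hM : MPot H φ β D V) {C1 C2 : ℝ} (hC1 : 0 < C1) (hC2 : 0 < C2)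
    (hp : ∀ x, nrm V x ≤ C1 * Real.exp (-7 * x ^ 2 / 16)) {v : ℝ≥0} (hv : 0 < v)
    (hρ : ∀ z : ℝ × ℝ, rho D v z ^ 2
      ≤ C2 * (v ^ 2 * (z.2 - z.1) ^ 2 * (1 + z.1 ^ 2 + (z.2 - z.1) ^ 2)))
    (hS : ∀ z : ℝ × ℝ, sdn (nrm V) (mq D v) z
        ≤ 2 * √(nrm V z.1 * nrm V z.2) * gaussianPDFReal 0 (2 * v) (z.2 - z.1))
    {ω : ℝ → ℝ} {c : ℝ} (hc : 0 ≤ c) (h1 : ∀ r, |ω r| ≤ c * r ^ 2) (x y : ℝ) :
    |ω (Rf (nrm V) (mq D v) (x, y)) * sdn (nrm V) (mq D v) (x, y)| ≤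
      (2 * c * C1 * (1 + 18 * C2)) * (Real.exp (-x ^ 2 / 4) + Real.exp (-y ^ 2 / 4))
      * (Kf β (x, y) ^ 2 + (v : ℝ) ^ 2 * (y - x) ^ 2 * (1 + (y - x) ^ 2))
      * gaussianPDFReal 0 (2 * v) (y - x) := by
  have hS0 := ewc_sdn_nonneg hM hv (x, y)
  have hSx := hS (x, y)
  have hρx := hρ (x, y)
  have hR := Rf_m hM hv (x, y)
  have hW := h1 (Rf (nrm V) (mq D v) (x, y))
  have hG : 0 ≤ gaussianPDFReal 0 (2 * v) (y - x) := gaussianPDFReal_nonneg _ _ _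
  have hpx := ewc_nonneg V x
  have hpy := ewc_nonneg V y
  have hsq := ewc_sqrt_le hpx hpy
  simp only at hSx hρx
  set S := sdn (nrm V) (mq D v) (x, y)
  set R := Rf (nrm V) (mq D v) (x, y)
  set K := Kf β (x, y)
  set ρ := rho D v (x, y)
  set G := gaussianPDFReal 0 (2 * v) (y - x)
  set z := y - x with hz
  set Ex := Real.exp (-x ^ 2 / 4)
  set Ey := Real.exp (-y ^ 2 / 4)
  have hEx : 0 < Ex := Real.exp_pos _
  have hEy : 0 < Ey := Real.exp_pos _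
  rw [abs_mul, abs_of_nonneg hS0]
  have hR2 : R ^ 2 ≤ 2 * (K ^ 2 + ρ ^ 2) := by
    rw [hR]
    nlinarith [sq_nonneg (K + ρ)]
  have hSS : S ≤ (nrm V x + nrm V y) * G := hSx.trans (mul_le_mul_of_nonneg_right hsq hG)
  have a1 : nrm V x ≤ C1 * Ex := (hp x).trans (mul_le_mul_of_nonneg_left (ewc_exp' x) hC1.le)
  have a2 : nrm V y ≤ C1 * Ey := (hp y).trans (mul_le_mul_of_nonneg_left (ewc_exp' y) hC1.le)
  have b1 : (1 + x ^ 2) * nrm V x ≤ 6 * C1 * Ex := by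
    calc (1 + x ^ 2) * nrm V x ≤ (1 + x ^ 2) * (C1 * Real.exp (-7 * x ^ 2 / 16)) :=
          mul_le_mul_of_nonneg_left (hp x) (by positivity)
      _ = C1 * ((1 + x ^ 2) * Real.exp (-7 * x ^ 2 / 16)) := by ring
      _ ≤ C1 * (6 * Ex) := mul_le_mul_of_nonneg_left (ewc_exp x) hC1.le
      _ = 6 * C1 * Ex := by ring
  have b2 : (1 + y ^ 2) * nrm V y ≤ 6 * C1 * Ey := by
    calc (1 + y ^ 2) * nrm V y ≤ (1 + y ^ 2) * (C1 * Real.exp (-7 * y ^ 2 / 16)) :=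
          mul_le_mul_of_nonneg_left (hp y) (by positivity)
      _ = C1 * ((1 + y ^ 2) * Real.exp (-7 * y ^ 2 / 16)) := by ring
      _ ≤ C1 * (6 * Ey) := mul_le_mul_of_nonneg_left (ewc_exp y) hC1.le
      _ = 6 * C1 * Ey := by ring
  have d1 : 1 + x ^ 2 + z ^ 2 ≤ (1 + x ^ 2) * (1 + z ^ 2) := by nlinarith [sq_nonneg (x * z)]
  have d2 : 1 + x ^ 2 + z ^ 2 ≤ 3 * ((1 + y ^ 2) * (1 + z ^ 2)) := by
    have hx : x = y - z := by rw [hz]; ring
    rw [hx]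
    nlinarith [sq_nonneg (y + z), sq_nonneg (y * z), sq_nonneg y]
  have e1 : (1 + x ^ 2 + z ^ 2) * nrm V x ≤ 18 * C1 * Ex * (1 + z ^ 2) := by
    calc (1 + x ^ 2 + z ^ 2) * nrm V x ≤ ((1 + x ^ 2) * (1 + z ^ 2)) * nrm V x :=
          mul_le_mul_of_nonneg_right d1 hpx
      _ = ((1 + x ^ 2) * nrm V x) * (1 + z ^ 2) := by ring
      _ ≤ (6 * C1 * Ex) * (1 + z ^ 2) := mul_le_mul_of_nonneg_right b1 (by positivity)
      _ ≤ 18 * C1 * Ex * (1 + z ^ 2) := by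
          refine mul_le_mul_of_nonneg_right ?_ (by positivity)
          nlinarith [mul_pos hC1 hEx]
  have e2 : (1 + x ^ 2 + z ^ 2) * nrm V y ≤ 18 * C1 * Ey * (1 + z ^ 2) := by
    calc (1 + x ^ 2 + z ^ 2) * nrm V y ≤ (3 * ((1 + y ^ 2) * (1 + z ^ 2))) * nrm V y :=
          mul_le_mul_of_nonneg_right d2 hpy
      _ = 3 * ((1 + y ^ 2) * nrm V y) * (1 + z ^ 2) := by ring
      _ ≤ 3 * (6 * C1 * Ey) * (1 + z ^ 2) := by gcongr
      _ = 18 * C1 * Ey * (1 + z ^ 2) := by ring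
  have f1 : K ^ 2 * (nrm V x + nrm V y) ≤ C1 * (Ex + Ey) * K ^ 2 := by
    have : nrm V x + nrm V y ≤ C1 * (Ex + Ey) := by linarith
    calc K ^ 2 * (nrm V x + nrm V y) ≤ K ^ 2 * (C1 * (Ex + Ey)) :=
          mul_le_mul_of_nonneg_left this (sq_nonneg _)
      _ = _ := by ring
  have f2 : ρ ^ 2 * (nrm V x + nrm V y) ≤
      18 * C1 * C2 * (Ex + Ey) * ((v : ℝ) ^ 2 * z ^ 2 * (1 + z ^ 2)) := by
    calc ρ ^ 2 * (nrm V x + nrm V y)
        ≤ (C2 * ((v : ℝ) ^ 2 * z ^ 2 * (1 + x ^ 2 + z ^ 2))) * (nrm V x + nrm V y) :=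
          mul_le_mul_of_nonneg_right hρx (by linarith)
      _ = (C2 * ((v : ℝ) ^ 2 * z ^ 2)) *
          ((1 + x ^ 2 + z ^ 2) * nrm V x + (1 + x ^ 2 + z ^ 2) * nrm V y) := by ring
      _ ≤ (C2 * ((v : ℝ) ^ 2 * z ^ 2)) *
          (18 * C1 * Ex * (1 + z ^ 2) + 18 * C1 * Ey * (1 + z ^ 2)) :=
          mul_le_mul_of_nonneg_left (add_le_add e1 e2) (by positivity)
      _ = _ := by ring
  calc |ω R| * S ≤ (c * R ^ 2) * S := mul_le_mul_of_nonneg_right hW hS0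
    _ ≤ (c * (2 * (K ^ 2 + ρ ^ 2))) * ((nrm V x + nrm V y) * G) := by
        refine mul_le_mul (mul_le_mul_of_nonneg_left hR2 hc) hSS hS0 (by positivity)
    _ = 2 * c * (K ^ 2 * (nrm V x + nrm V y) + ρ ^ 2 * (nrm V x + nrm V y)) * G := by ring
    _ ≤ 2 * c * (C1 * (Ex + Ey) * K ^ 2 +
          18 * C1 * C2 * (Ex + Ey) * ((v : ℝ) ^ 2 * z ^ 2 * (1 + z ^ 2))) * G := by
        refine mul_le_mul_of_nonneg_right ?_ hG
        exact mul_le_mul_of_nonneg_left (add_le_add f1 f2) (by positivity)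
    _ ≤ (2 * c * C1 * (1 + 18 * C2)) * (Ex + Ey)
          * (K ^ 2 + (v : ℝ) ^ 2 * z ^ 2 * (1 + z ^ 2)) * G := by
        refine mul_le_mul_of_nonneg_right ?_ hG
        have g1 : 0 ≤ 2 * c * (C1 * (Ex + Ey)) * (18 * C2 * K ^ 2 +
          (v : ℝ) ^ 2 * z ^ 2 * (1 + z ^ 2)) := by positivity
        nlinarith [g1]

/-- the local estimate, algebraic part -/
private theorem ewc_alg {c B C1 ε K ρ R S w p g G : ℝ} (hc : 0 ≤ c) (hB : 0 ≤ B) (hC1 : 0 < C1)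
    (hε : 0 < ε) (hR : R = K - ρ) (hRε : R ^ 2 ≤ ε) (hw : |w - c * R ^ 2| ≤ B * R ^ 4)
    (hS0 : 0 ≤ S) (hS : S ≤ 2 * C1 * G) (hSp : |S - p * g| ≤ ε * g) (hg : g ≤ 2 * G) :
    |w * S - c * p * K ^ 2 * g| ≤ ((4 * B * C1 + 2 * c * C1 + 2 * c) * ε * K ^ 2 +
      (4 * B * C1 * ε + 2 * c * C1 * (1 + 1 / ε)) * ρ ^ 2) * G := by
  have hR2 : R ^ 2 ≤ 2 * K ^ 2 + 2 * ρ ^ 2 := by
    rw [hR]
    nlinarith [sq_nonneg (K + ρ)]
  have hR4 : R ^ 4 ≤ ε * (2 * K ^ 2 + 2 * ρ ^ 2) := by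
    have : R ^ 4 = R ^ 2 * R ^ 2 := by ring
    rw [this]
    exact mul_le_mul hRε hR2 (sq_nonneg _) hε.le
  have hG : 0 ≤ G := by
    have := hS0.trans hS
    by_contra hcon
    have h1 : 2 * C1 * G < 0 := mul_neg_of_pos_of_neg (by positivity) (not_le.1 hcon)
    linarith
  have t1 : |(w - c * R ^ 2) * S| ≤ (B * (ε * (2 * K ^ 2 + 2 * ρ ^ 2))) * (2 * C1 * G) := by
    rw [abs_mul, abs_of_nonneg hS0]
    exact mul_le_mul (hw.trans (mul_le_mul_of_nonneg_left hR4 hB)) hS hS0 (by positivity)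
  have hdiff : |R ^ 2 - K ^ 2| ≤ ε * K ^ 2 + (1 + 1 / ε) * ρ ^ 2 := by
    have e1 : R ^ 2 - K ^ 2 = ρ ^ 2 - 2 * K * ρ := by rw [hR]; ring
    have e2 : |2 * K * ρ| ≤ ε * K ^ 2 + 1 / ε * ρ ^ 2 := by
      have h1 : 0 ≤ (√ε * K - √ε⁻¹ * ρ) ^ 2 := sq_nonneg _
      have h2 : 0 ≤ (√ε * K + √ε⁻¹ * ρ) ^ 2 := sq_nonneg _
      have h3 : √ε ^ 2 = ε := Real.sq_sqrt hε.le
      have h4 : √ε⁻¹ ^ 2 = ε⁻¹ := Real.sq_sqrt (inv_pos.2 hε).le
      have h5 : √ε * √ε⁻¹ = 1 := by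
        rw [← Real.sqrt_mul hε.le, mul_inv_cancel₀ hε.ne', Real.sqrt_one]
      have h6 : (√ε * K - √ε⁻¹ * ρ) ^ 2 = ε * K ^ 2 + ε⁻¹ * ρ ^ 2 - 2 * K * ρ := by
        have : (√ε * K - √ε⁻¹ * ρ) ^ 2 =
          √ε ^ 2 * K ^ 2 + √ε⁻¹ ^ 2 * ρ ^ 2 - 2 * (√ε * √ε⁻¹) * K * ρ := by ring
        rw [this, h3, h4, h5]
        ring
      have h7 : (√ε * K + √ε⁻¹ * ρ) ^ 2 = ε * K ^ 2 + ε⁻¹ * ρ ^ 2 + 2 * K * ρ := by
        have : (√ε * K + √ε⁻¹ * ρ) ^ 2 =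
          √ε ^ 2 * K ^ 2 + √ε⁻¹ ^ 2 * ρ ^ 2 + 2 * (√ε * √ε⁻¹) * K * ρ := by ring
        rw [this, h3, h4, h5]
        ring
      rw [h6] at h1
      rw [h7] at h2
      rw [one_div, abs_le]
      constructor <;> linarith
    rw [e1]
    have h8 := abs_sub (ρ ^ 2) (2 * K * ρ)
    rw [abs_of_nonneg (sq_nonneg ρ)] at h8
    linarith
  have t2 : |c * (R ^ 2 - K ^ 2) * S| ≤ (c * (ε * K ^ 2 + (1 + 1 / ε) * ρ ^ 2)) * (2 * C1 * G) := by
    rw [abs_mul, abs_mul, abs_of_nonneg hS0, abs_of_nonneg hc]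
    exact mul_le_mul (mul_le_mul_of_nonneg_left hdiff hc) hS hS0 (by positivity)
  have t3 : |c * K ^ 2 * (S - p * g)| ≤ (c * K ^ 2) * (ε * (2 * G)) := by
    rw [abs_mul, abs_of_nonneg (by positivity : 0 ≤ c * K ^ 2)]
    exact mul_le_mul_of_nonneg_left (hSp.trans (mul_le_mul_of_nonneg_left hg hε.le))
      (by positivity)
  have e : w * S - c * p * K ^ 2 * g = (w - c * R ^ 2) * S + c * (R ^ 2 - K ^ 2) * S +
    c * K ^ 2 * (S - p * g) := by ring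
  rw [e]
  have a1 := abs_add_le ((w - c * R ^ 2) * S + c * (R ^ 2 - K ^ 2) * S) (c * K ^ 2 * (S - p * g))
  have a2 := abs_add_le ((w - c * R ^ 2) * S) (c * (R ^ 2 - K ^ 2) * S)
  have e' : ((4 * B * C1 + 2 * c * C1 + 2 * c) * ε * K ^ 2 +
      (4 * B * C1 * ε + 2 * c * C1 * (1 + 1 / ε)) * ρ ^ 2) * G =
      (B * (ε * (2 * K ^ 2 + 2 * ρ ^ 2))) * (2 * C1 * G) +
      (c * (ε * K ^ 2 + (1 + 1 / ε) * ρ ^ 2)) * (2 * C1 * G) +
      (c * K ^ 2) * (ε * (2 * G)) := by ring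
  rw [e']
  linarith

/-- the product of the densities near the diagonal -/
private theorem ewc_near (hM : MPot H φ β D V) {C1 C4 : ℝ} (hC1 : 0 < C1) (hC4 : 0 < C4)
    (hp1 : ∀ x, nrm V x ≤ C1)
    (hm : ∀ (v : ℝ≥0) (z : ℝ × ℝ), mth D v z ≤ C4 * (z.2 - z.1) ^ 2 ∧
      |mth D v z| ≤ C4 * (v * (1 + z.1 ^ 2 + (z.2 - z.1) ^ 2) + (z.2 - z.1) ^ 2))
    (a ε : ℝ) (hε : 0 < ε) :
    ∃ δ κ : ℝ, 0 < δ ∧ δ ≤ 1 ∧ 0 < κ ∧ ∀ v : ℝ≥0, (v : ℝ) ≤ κ → ∀ x y, |x| ≤ a → |y - x| ≤ δ →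
      |√(nrm V x * nrm V y) * Real.exp (mth D v (x, y)) - nrm V x| ≤ ε := by
  have hpc := ewc_cont hM
  have hpos : ∀ x, 0 ≤ nrm V x := ewc_nonneg V
  have hcs : Continuous fun x => √(nrm V x) := hpc.sqrt
  have huc := (isCompact_Icc (a := -(|a| + 1)) (b := |a| + 1)).uniformContinuousOn_of_continuous
    hcs.continuousOn
  rw [Metric.uniformContinuousOn_iff] at huc
  have hs1 : 0 < √C1 + 1 := by positivity
  obtain ⟨δ1, hδ1, huc1⟩ := huc (ε / (4 * (√C1 + 1))) (by positivity)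
  have ha2 : 0 < 2 + a ^ 2 := by positivity
  refine ⟨min 1 (min (δ1 / 2) (min (ε / (8 * C1 * C4)) (1 / (2 * C4)))),
    min (ε / (8 * C1 * C4 * (2 + a ^ 2))) (1 / (2 * C4 * (2 + a ^ 2))), by positivity,
    min_le_left _ _, by positivity, ?_⟩
  intro v hv x y hx hxy
  have hv0 : (0 : ℝ) ≤ v := v.coe_nonneg
  have hz1 : |y - x| ≤ 1 := hxy.trans (min_le_left _ _)
  have hz2 : |y - x| ≤ δ1 / 2 := hxy.trans ((min_le_right _ _).trans (min_le_left _ _))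
  have hz3 : |y - x| ≤ ε / (8 * C1 * C4) := hxy.trans ((min_le_right _ _).trans
    ((min_le_right _ _).trans (min_le_left _ _)))
  have hz4 : |y - x| ≤ 1 / (2 * C4) := hxy.trans ((min_le_right _ _).trans
    ((min_le_right _ _).trans (min_le_right _ _)))
  have hv1 : (v : ℝ) ≤ ε / (8 * C1 * C4 * (2 + a ^ 2)) := hv.trans (min_le_left _ _)
  have hv2 : (v : ℝ) ≤ 1 / (2 * C4 * (2 + a ^ 2)) := hv.trans (min_le_right _ _)
  have hzz : (y - x) ^ 2 ≤ |y - x| := by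
    rw [← sq_abs]
    have := abs_nonneg (y - x)
    nlinarith
  have ha0 : 0 ≤ a := (abs_nonneg x).trans hx
  have hxx : x ^ 2 ≤ a ^ 2 := by
    rw [← sq_abs x]
    exact pow_le_pow_left₀ (abs_nonneg x) hx 2
  have hmm := (hm v (x, y)).2
  simp only at hmm
  have hden : 1 + x ^ 2 + (y - x) ^ 2 ≤ 2 + a ^ 2 := by linarith
  have hm1 : |mth D v (x, y)| ≤ C4 * (v * (2 + a ^ 2)) + C4 * |y - x| := by
    refine hmm.trans ?_
    rw [← mul_add]
    refine mul_le_mul_of_nonneg_left ?_ hC4.le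
    exact add_le_add (mul_le_mul_of_nonneg_left hden hv0) hzz
  have c1 : C4 * (v * (2 + a ^ 2)) ≤ 1 / 2 := by
    calc C4 * (v * (2 + a ^ 2)) ≤ C4 * (1 / (2 * C4 * (2 + a ^ 2)) * (2 + a ^ 2)) := by gcongr
      _ = 1 / 2 := by field_simp
  have c2 : C4 * |y - x| ≤ 1 / 2 := by
    calc C4 * |y - x| ≤ C4 * (1 / (2 * C4)) := by gcongr
      _ = 1 / 2 := by field_simp
  have c3 : C1 * (C4 * (v * (2 + a ^ 2))) ≤ ε / 8 := by
    calc C1 * (C4 * (v * (2 + a ^ 2)))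
        ≤ C1 * (C4 * (ε / (8 * C1 * C4 * (2 + a ^ 2)) * (2 + a ^ 2))) := by gcongr
      _ = ε / 8 := by field_simp
  have c4 : C1 * (C4 * |y - x|) ≤ ε / 8 := by
    calc C1 * (C4 * |y - x|) ≤ C1 * (C4 * (ε / (8 * C1 * C4))) := by gcongr
      _ = ε / 8 := by field_simp
  have hmle1 : |mth D v (x, y)| ≤ 1 := by linarith
  have hexp := Real.abs_exp_sub_one_le hmle1
  have hq : √(nrm V x * nrm V y) ≤ C1 := by
    rw [Real.sqrt_le_left hC1.le, sq]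
    exact mul_le_mul (hp1 x) (hp1 y) (hpos y) hC1.le
  have hxI : x ∈ Icc (-(|a| + 1)) (|a| + 1) := by
    have := abs_le.1 hx
    have h2 := le_abs_self a
    constructor <;> linarith
  have hyI : y ∈ Icc (-(|a| + 1)) (|a| + 1) := by
    have h1 := abs_le.1 hx
    have h2 := abs_le.1 hz1
    have h3 := le_abs_self a
    constructor <;> linarith
  have hdist := huc1 y hyI x hxI (by rw [Real.dist_eq]; linarith)
  rw [Real.dist_eq] at hdist
  have hsx : √(nrm V x) ≤ √C1 := Real.sqrt_le_sqrt (hp1 x)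
  have s1 : |√(nrm V x * nrm V y) - nrm V x| ≤ ε / 4 := by
    have e1 : √(nrm V x * nrm V y) - nrm V x = √(nrm V x) * (√(nrm V y) - √(nrm V x)) := by
      rw [Real.sqrt_mul (hpos x), mul_sub, Real.mul_self_sqrt (hpos x)]
    rw [e1, abs_mul, abs_of_nonneg (Real.sqrt_nonneg _)]
    calc √(nrm V x) * |√(nrm V y) - √(nrm V x)|
        ≤ (√C1 + 1) * (ε / (4 * (√C1 + 1))) :=
          mul_le_mul (by linarith) hdist.le (abs_nonneg _) hs1.le
      _ = ε / 4 := by field_simp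
  have s2 : |√(nrm V x * nrm V y) * (Real.exp (mth D v (x, y)) - 1)| ≤ ε / 2 := by
    rw [abs_mul, abs_of_nonneg (Real.sqrt_nonneg _)]
    calc √(nrm V x * nrm V y) * |Real.exp (mth D v (x, y)) - 1|
        ≤ C1 * (2 * |mth D v (x, y)|) := mul_le_mul hq hexp (abs_nonneg _) hC1.le
      _ ≤ C1 * (2 * (C4 * (v * (2 + a ^ 2)) + C4 * |y - x|)) := by gcongr
      _ = 2 * (C1 * (C4 * (v * (2 + a ^ 2)))) + 2 * (C1 * (C4 * |y - x|)) := by ring
      _ ≤ ε / 2 := by linarith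
  have e2 : √(nrm V x * nrm V y) * Real.exp (mth D v (x, y)) - nrm V x =
    √(nrm V x * nrm V y) * (Real.exp (mth D v (x, y)) - 1) +
      (√(nrm V x * nrm V y) - nrm V x) := by ring
  rw [e2]
  refine (abs_add_le _ _).trans ?_
  linarith

private theorem ewc_gen (hM : MPot H φ β D V) (hH : 0 < H) (hl : 0 < l) {ω : ℝ → ℝ} {c B : ℝ}
    (hc : 0 ≤ c) (hB : 0 ≤ B) (hω : Measurable ω) (h1 : ∀ r, |ω r| ≤ c * r ^ 2)
    (h2 : ∀ r, |ω r - c * r ^ 2| ≤ B * r ^ 4) :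
    ∃ A, IncM β (fun x => c * nrm V x) A (vH l (2 + H))
      (fun n z => ω (Rf (nrm V) (mq D (vH l (2 + H) n)) z)
        * sdn (nrm V) (mq D (vH l (2 + H) n)) z) := by
  obtain ⟨C1, hC1, hp⟩ := hM.nrm_le
  obtain ⟨C2, hC2, hρ⟩ := rho_le hM
  obtain ⟨C3, hK⟩ := kf_abs hM
  obtain ⟨C4, hC4, hm⟩ := mth_le hM
  obtain ⟨v₀, hv₀, hS⟩ := sdn_m_le hM
  have hp1 : ∀ x, nrm V x ≤ C1 := fun x => (hp x).trans
    (by have := mul_le_mul_of_nonneg_left (ewc_exp1 x) hC1.le; linarith)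
  have hp0 : ∀ x, 0 ≤ nrm V x := ewc_nonneg V
  have hvpos : ∀ n, 0 < vH l (2 + H) n := fun n => vH_pos hl _ n
  have hvlim : Tendsto (vH l (2 + H)) atTop (𝓝 0) := vH_lim hl (by linarith)
  have hvr : Tendsto (fun n => (vH l (2 + H) n : ℝ)) atTop (𝓝 0) := by
    have := (NNReal.continuous_coe.tendsto 0).comp hvlim
    rwa [NNReal.coe_zero] at this
  have key : ∀ κ : ℝ, 0 < κ → ∀ᶠ n in atTop, (vH l (2 + H) n : ℝ) ≤ κ := fun κ hκ =>
    (hvr.eventually (gt_mem_nhds hκ)).mono fun n hn => hn.le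
  have hv0ev : ∀ᶠ n in atTop, vH l (2 + H) n ≤ v₀ :=
    (hvlim.eventually (gt_mem_nhds hv₀)).mono fun n hn => hn.le
  refine ⟨2 * c * C1 * (1 + 18 * C2), ⟨?_, ?_, ?_, ?_, ?_⟩⟩
  · intro n
    obtain ⟨m1, m2⟩ := ewc_meas hM (hvpos n)
    exact (hω.comp m1).mul m2
  · exact (ewc_cont hM).const_mul c
  · intro x
    rw [abs_of_nonneg (mul_nonneg hc (hp0 x))]
    have e1 : nrm V x ≤ C1 * Real.exp (-x ^ 2 / 4) :=
      (hp x).trans (mul_le_mul_of_nonneg_left (ewc_exp' x) hC1.le)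
    have hE := Real.exp_pos (-x ^ 2 / 4)
    have e2 : 0 ≤ c * C1 * Real.exp (-x ^ 2 / 4) * (1 + 36 * C2) := by positivity
    calc c * nrm V x ≤ c * (C1 * Real.exp (-x ^ 2 / 4)) := mul_le_mul_of_nonneg_left e1 hc
      _ ≤ 2 * c * C1 * (1 + 18 * C2) * Real.exp (-x ^ 2 / 4) := by nlinarith [e2]
  · filter_upwards [hv0ev] with n hn
    intro x y
    exact ewc_bdd hM hC1 hC2 hp (hvpos n) (hρ _) (hS _ (hvpos n) hn) hc h1 x y
  · intro A' η hη
    set T : ℝ := 4 * B * C1 + 2 * c * C1 + 2 * c with hT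
    have hT0 : 0 ≤ T := by positivity
    set ε : ℝ := η / (T + 1) with hεdef
    have hε : 0 < ε := by positivity
    have hTε : T * ε ≤ η := by
      rw [hεdef, mul_div_assoc', div_le_iff₀ (by positivity)]
      nlinarith
    obtain ⟨δ1, κ1, hδ1, hδ11, hκ1, hnear⟩ := ewc_near hM hC1 hC4 hp1 hm A' ε hε
    have ha2 : 0 < 2 + A' ^ 2 := by positivity
    set δ : ℝ := min δ1 (ε / (4 * (C3 ^ 2 + 1))) with hδdef
    have hδ : 0 < δ := by positivity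
    refine ⟨δ, (4 * B * C1 * ε + 2 * c * C1 * (1 + 1 / ε)) * (C2 * (2 + A' ^ 2)), hδ, ?_⟩
    filter_upwards [hv0ev, key κ1 hκ1, key 1 one_pos,
      key (ε / (4 * C2 * (2 + A' ^ 2))) (by positivity)] with n hn1 hn2 hn3 hn4
    intro x y hx hxy
    set v := vH l (2 + H) n with hvdef
    have hv0 : (0 : ℝ) ≤ v := v.coe_nonneg
    have hz1 : |y - x| ≤ δ1 := hxy.trans (min_le_left _ _)
    have hz2 : |y - x| ≤ 1 := hz1.trans hδ11
    have hz3 : |y - x| ≤ ε / (4 * (C3 ^ 2 + 1)) := hxy.trans (min_le_right _ _)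
    have hzz : (y - x) ^ 2 ≤ |y - x| := by
      rw [← sq_abs]
      have := abs_nonneg (y - x)
      nlinarith
    have hzz1 : (y - x) ^ 2 ≤ 1 := hzz.trans hz2
    have hxx : x ^ 2 ≤ A' ^ 2 := by
      rw [← sq_abs x]
      exact pow_le_pow_left₀ (abs_nonneg x) hx 2
    have hρ2 : rho D v (x, y) ^ 2 ≤ C2 * (2 + A' ^ 2) * ((v : ℝ) ^ 2 * (y - x) ^ 2) := by
      have h3 := hρ v (x, y)
      simp only at h3
      refine h3.trans ?_
      have h4 : 1 + x ^ 2 + (y - x) ^ 2 ≤ 2 + A' ^ 2 := by linarith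
      calc C2 * ((v : ℝ) ^ 2 * (y - x) ^ 2 * (1 + x ^ 2 + (y - x) ^ 2))
          ≤ C2 * ((v : ℝ) ^ 2 * (y - x) ^ 2 * (2 + A' ^ 2)) := by gcongr
        _ = _ := by ring
    have hK2 : Kf β (x, y) ^ 2 ≤ ε / 4 := by
      have h3 := hK (x, y)
      simp only at h3
      have h4 : Kf β (x, y) ^ 2 ≤ (C3 * (y - x) ^ 2) ^ 2 := by
        rw [← sq_abs (Kf β (x, y))]
        exact pow_le_pow_left₀ (abs_nonneg _) h3 2
      have h5 : (C3 * (y - x) ^ 2) ^ 2 ≤ C3 ^ 2 * |y - x| := by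
        have h6 : ((y - x) ^ 2) ^ 2 ≤ |y - x| := by
          have : ((y - x) ^ 2) ^ 2 ≤ (y - x) ^ 2 := by
            nlinarith [sq_nonneg (y - x)]
          exact this.trans hzz
        rw [mul_pow]
        exact mul_le_mul_of_nonneg_left h6 (sq_nonneg _)
      have h7 : C3 ^ 2 * |y - x| ≤ ε / 4 := by
        calc C3 ^ 2 * |y - x| ≤ (C3 ^ 2 + 1) * (ε / (4 * (C3 ^ 2 + 1))) :=
              mul_le_mul (by linarith) hz3 (abs_nonneg _) (by positivity)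
          _ = ε / 4 := by field_simp
      exact h4.trans (h5.trans h7)
    have hρε : rho D v (x, y) ^ 2 ≤ ε / 4 := by
      refine hρ2.trans ?_
      have h3 : (v : ℝ) ^ 2 * (y - x) ^ 2 ≤ v := by
        have h5 : (v : ℝ) ^ 2 ≤ v := by nlinarith
        calc (v : ℝ) ^ 2 * (y - x) ^ 2 ≤ v * 1 :=
              mul_le_mul h5 hzz1 (sq_nonneg _) hv0
          _ = v := mul_one _
      calc C2 * (2 + A' ^ 2) * ((v : ℝ) ^ 2 * (y - x) ^ 2)
          ≤ C2 * (2 + A' ^ 2) * (ε / (4 * C2 * (2 + A' ^ 2))) := by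
            gcongr
            exact h3.trans hn4
        _ = ε / 4 := by field_simp
    have hR := Rf_m hM (hvpos n) (x, y)
    rw [← hvdef] at hR
    have hRε : Rf (nrm V) (mq D v) (x, y) ^ 2 ≤ ε := by
      rw [hR]
      nlinarith [sq_nonneg (Kf β (x, y) + rho D v (x, y))]
    have hG : 0 ≤ gaussianPDFReal 0 (2 * v) (y - x) := gaussianPDFReal_nonneg _ _ _
    have hS1 : sdn (nrm V) (mq D v) (x, y) ≤ 2 * C1 * gaussianPDFReal 0 (2 * v) (y - x) := by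
      have h3 := hS v (hvpos n) hn1 (x, y)
      simp only at h3
      refine h3.trans (mul_le_mul_of_nonneg_right ?_ hG)
      have hq : √(nrm V x * nrm V y) ≤ C1 := by
        rw [Real.sqrt_le_left hC1.le, sq]
        exact mul_le_mul (hp1 x) (hp1 y) (hp0 y) hC1.le
      linarith
    have hSp : |sdn (nrm V) (mq D v) (x, y) - nrm V x * gaussianPDFReal 0 v (y - x)| ≤
        ε * gaussianPDFReal 0 v (y - x) := by
      rw [sdn_m hM (hvpos n)]
      have h3 : √(nrm V x * nrm V y) * Real.exp (mth D v (x, y)) * gaussianPDFReal 0 v (y - x) -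
        nrm V x * gaussianPDFReal 0 v (y - x) =
        (√(nrm V x * nrm V y) * Real.exp (mth D v (x, y)) - nrm V x) *
          gaussianPDFReal 0 v (y - x) := by ring
      show |√(nrm V x * nrm V y) * Real.exp (mth D v (x, y)) * gaussianPDFReal 0 v (y - x) -
        nrm V x * gaussianPDFReal 0 v (y - x)| ≤ _
      rw [h3, abs_mul, abs_of_nonneg (gaussianPDFReal_nonneg _ _ _)]
      exact mul_le_mul_of_nonneg_right (hnear v hn2 x y hx hz1) (gaussianPDFReal_nonneg _ _ _)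
    have halg := ewc_alg hc hB hC1 hε hR hRε (h2 _) (ewc_sdn_nonneg hM (hvpos n) (x, y)) hS1 hSp
      (gau_two (hvpos n) (y - x))
    show |ω (Rf (nrm V) (mq D v) (x, y)) * sdn (nrm V) (mq D v) (x, y)
      - c * nrm V x * Kf β (x, y) ^ 2 * gaussianPDFReal 0 v (y - x)| ≤ _
    refine halg.trans (mul_le_mul_of_nonneg_right ?_ hG)
    have hL : 0 ≤ 4 * B * C1 * ε + 2 * c * C1 * (1 + 1 / ε) := by positivity
    have i1 := mul_le_mul_of_nonneg_right hTε (sq_nonneg (Kf β (x, y)))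
    have i2 := mul_le_mul_of_nonneg_left hρ2 hL
    have i3 : (4 * B * C1 * ε + 2 * c * C1 * (1 + 1 / ε)) *
        (C2 * (2 + A' ^ 2) * ((v : ℝ) ^ 2 * (y - x) ^ 2)) =
      (4 * B * C1 * ε + 2 * c * C1 * (1 + 1 / ε)) * (C2 * (2 + A' ^ 2)) *
        ((v : ℝ) ^ 2 * (y - x) ^ 2) := by ring
    rw [i3] at i2
    exact add_le_add i1 i2

private theorem ewc_cos (a : ℝ) : |(1 - Real.cos a) - a ^ 2 / 2| ≤ a ^ 4 := by
  have h0 : 0 ≤ 1 - Real.cos a := by linarith [Real.cos_le_one a]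
  have h1 : 1 - Real.cos a ≤ a ^ 2 / 2 := by linarith [Real.one_sub_sq_div_two_le_cos (x := a)]
  rcases le_total |a| 1 with h | h
  · have hb := Real.cos_bound h
    have h4 : |a| ^ 4 = a ^ 4 := by
      rw [show (4 : ℕ) = 2 * 2 from rfl, pow_mul, sq_abs, ← pow_mul]
    rw [h4] at hb
    have h5 : (1 - Real.cos a) - a ^ 2 / 2 = -(Real.cos a - (1 - a ^ 2 / 2)) := by ring
    rw [h5, abs_neg]
    have h6 : 0 ≤ a ^ 4 := by positivity
    linarith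
  · have h2 : 1 ≤ a ^ 2 := by
      rw [← sq_abs]
      exact one_le_pow₀ h
    rw [abs_le]
    constructor <;> nlinarith

theorem incM_cos (hM : MPot H φ β D V) (hH : 0 < H) (hl : 0 < l) (t : ℝ) :
    ∃ A, IncM β (fun x => t ^ 2 / 2 * nrm V x) A (vH l (2 + H))
      (fun n z => (1 - Real.cos (t * Rf (nrm V) (mq D (vH l (2 + H) n)) z))
        * sdn (nrm V) (mq D (vH l (2 + H) n)) z) := by
  refine ewc_gen (ω := fun r => 1 - Real.cos (t * r)) (c := t ^ 2 / 2) (B := t ^ 4) hM hH hl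
    (by positivity) (by positivity) ?_ ?_ ?_
  · exact measurable_const.sub (Real.measurable_cos.comp (measurable_id.const_mul t))
  · intro r
    have h0 : 0 ≤ 1 - Real.cos (t * r) := by linarith [Real.cos_le_one (t * r)]
    have h1 : 1 - Real.cos (t * r) ≤ (t * r) ^ 2 / 2 := by
      linarith [Real.one_sub_sq_div_two_le_cos (x := t * r)]
    rw [abs_of_nonneg h0]
    refine h1.trans (le_of_eq ?_)
    ring
  · intro r
    have h := ewc_cos (t * r)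
    have e1 : (t * r) ^ 2 / 2 = t ^ 2 / 2 * r ^ 2 := by ring
    have e2 : (t * r) ^ 4 = t ^ 4 * r ^ 4 := by ring
    rw [e1, e2] at h
    exact h

theorem incM_sq (hM : MPot H φ β D V) (hH : 0 < H) (hl : 0 < l) :
    ∃ A, IncM β (nrm V) A (vH l (2 + H))
      (fun n z => Rf (nrm V) (mq D (vH l (2 + H) n)) z ^ 2
        * sdn (nrm V) (mq D (vH l (2 + H) n)) z) := by
  obtain ⟨A, hA⟩ := ewc_gen (ω := fun r => r ^ 2) (c := 1) (B := 0) hM hH hl
    zero_le_one le_rfl (measurable_id.pow_const 2)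
    (fun r => by rw [abs_of_nonneg (sq_nonneg r), one_mul])
    (fun r => by rw [one_mul, sub_self, abs_zero, zero_mul])
  refine ⟨A, ?_⟩
  have e : (fun x => 1 * nrm V x) = nrm V := by
    funext x
    rw [one_mul]
  rw [e] at hA
  exact hA

end Pool.Agent.Lib.MP_e19099_pr
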