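import Pool.Agent.Lib.MP_e19099_pr.EId

/-!
# The law of large numbers for MALA weights (module E, E3)

`a = 2 + H`, `v n = vH l a n`, `(n+1) v^{2+H} = l^{2(2+H)}` (`vH_pow`), `gauss_avg` with exponent `2a = 4 + 2H`.
`mw_main`: `(n+1) ∫∫ m(x) Kf² γ_v → L kap ∫ m φ² · gmom(4+2H)`: Fubini (`y = x + z`) and `gauss_avg`, `kf_lln'`, `kf_sq`.
`mw_bdd`: `(n+1) ∫∫ (e^{-x²/4} + e^{-y²/4}) Kf² γ_{2v} ≤ C` (`kf_swap` for the second term, `gauss_avg_bdd`); with the factor `1_{|x| > A}` it is `≤ C e^{-(A-1)²/8}`-small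
uniformly in `n` up to the part `|z| > 1`, and the part `|z| > δ` tends to `0` (`1 ≤ z²/δ²`, exponent `4 + 2H + 2`).
`mw_rho`: `(n+1) ∫∫ (e^{-x²/4} + e^{-y²/4}) v² z² (1 + z²) γ_{2v} ≤ C (n+1) v³ → 0`, since `(n+1) v^{2+H}` is constant and `H < 1`.
`mw_lim`: combine: `|W n - m Kf² γ_v|` is small relative to `Kf² γ_{2v}` for `|x| ≤ A'`, `|z| ≤ δ`, and the rest is small.
-/

set_option autoImplicit false

open MeasureTheory ProbabilityTheory Filter Set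
open scoped NNReal Topology ENNReal

namespace Pool.Agent.Lib.MP_e19099_pr

/-- weights comparable with `m(x) Kf² γ_v` -/
structure IncM (β m : ℝ → ℝ) (A : ℝ) (v : ℕ → ℝ≥0) (W : ℕ → ℝ × ℝ → ℝ) : Prop where
  meas : ∀ n, Measurable (W n)
  mcont : Continuous m
  mbdd : ∀ x, |m x| ≤ A * Real.exp (-x ^ 2 / 4)
  bdd : ∀ᶠ n : ℕ in atTop, ∀ x y, |W n (x, y)|
    ≤ A * (Real.exp (-x ^ 2 / 4) + Real.exp (-y ^ 2 / 4))
      * (Kf β (x, y) ^ 2 + (v n : ℝ) ^ 2 * (y - x) ^ 2 * (1 + (y - x) ^ 2))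
      * gaussianPDFReal 0 (2 * v n) (y - x)
  loc : ∀ A' η : ℝ, 0 < η → ∃ δ Λ : ℝ, 0 < δ ∧ ∀ᶠ n : ℕ in atTop, ∀ x y, |x| ≤ A' → |y - x| ≤ δ →
    |W n (x, y) - m x * Kf β (x, y) ^ 2 * gaussianPDFReal 0 (v n) (y - x)|
      ≤ (η * Kf β (x, y) ^ 2 + Λ * ((v n : ℝ) ^ 2 * (y - x) ^ 2))
        * gaussianPDFReal 0 (2 * v n) (y - x)

variable {H l : ℝ} {φ β D V m : ℝ → ℝ} {A : ℝ} {W : ℕ → ℝ × ℝ → ℝ}

/-! ### auxiliary: Gaussian integrals -/

private theorem ew_pow_int (v : ℝ≥0) (k : ℕ) :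
    Integrable (fun z : ℝ => |z| ^ k) (gaussianReal 0 v) := by
  have h := (memLp_id_gaussianReal (μ := 0) (v := v) (k : ℝ≥0)).integrable_norm_pow'
  simpa [Real.norm_eq_abs] using h

private theorem ew_le {a : ℝ} (ha : 0 ≤ a) {m : ℕ} (hm : a ≤ m) {x : ℝ} (hx : 0 ≤ x) :
    x ^ a ≤ 1 + x ^ m := by
  rcases le_or_gt x 1 with h | h
  · have h1 : x ^ a ≤ 1 := Real.rpow_le_one hx h ha
    have h2 : 0 ≤ x ^ m := by positivity
    linarith
  · have h1 : x ^ a ≤ x ^ (m : ℝ) := Real.rpow_le_rpow_of_exponent_le h.le hm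
    rw [Real.rpow_natCast] at h1
    linarith

private theorem ew_poly {a : ℝ} (ha : 0 ≤ a) (v : ℝ≥0) (hv : v ≠ 0) (C : ℝ) :
    Integrable (fun h : ℝ => C * |h| ^ a * (1 + |h| ^ 4) * gaussianPDFReal 0 v h) := by
  obtain ⟨m, hm⟩ := exists_nat_ge a
  have hdom : Integrable (fun h : ℝ => |C| * ((1 + |h| ^ m) + (|h| ^ 4 + |h| ^ (m + 4))))
      (gaussianReal 0 v) :=
    (((integrable_const 1).add (ew_pow_int v m)).add
      ((ew_pow_int v 4).add (ew_pow_int v (m + 4)))).const_mul _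
  have hmain : Integrable (fun h : ℝ => C * |h| ^ a * (1 + |h| ^ 4)) (gaussianReal 0 v) := by
    refine hdom.mono' ?_ (ae_of_all _ fun h => ?_)
    · have hm : Measurable (fun h : ℝ => C * |h| ^ a * (1 + |h| ^ 4)) := by fun_prop
      exact hm.aestronglyMeasurable
    · have h1 : |h| ^ a ≤ 1 + |h| ^ m := ew_le ha hm (abs_nonneg h)
      rw [Real.norm_eq_abs, abs_mul, abs_mul, abs_of_nonneg (Real.rpow_nonneg (abs_nonneg h) _),
        abs_of_nonneg (by positivity : (0 : ℝ) ≤ 1 + |h| ^ 4), mul_assoc]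
      refine mul_le_mul_of_nonneg_left ?_ (abs_nonneg C)
      calc |h| ^ a * (1 + |h| ^ 4) ≤ (1 + |h| ^ m) * (1 + |h| ^ 4) :=
            mul_le_mul_of_nonneg_right h1 (by positivity)
        _ = (1 + |h| ^ m) + (|h| ^ 4 + |h| ^ (m + 4)) := by
            rw [pow_add]
            ring
  rw [gaussianReal_of_var_ne_zero _ hv] at hmain
  rw [integrable_withDensity_iff_integrable_smul' (measurable_gaussianPDF _ _)
    (ae_of_all _ fun _ => gaussianPDF_lt_top)] at hmain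
  refine hmain.congr (ae_of_all _ fun h => ?_)
  show (gaussianPDF 0 v h).toReal • (C * |h| ^ a * (1 + |h| ^ 4)) =
    C * |h| ^ a * (1 + |h| ^ 4) * gaussianPDFReal 0 v h
  rw [toReal_gaussianPDF, smul_eq_mul]
  ring

private theorem ew_fub {b : ℝ} (hb0 : 0 ≤ b) {U : ℝ × ℝ → ℝ} (hU : Measurable U) {C : ℝ}
    (hb : ∀ h : ℝ, Integrable (fun x => U (x, x + h)) ∧
      ∫ x, |U (x, x + h)| ≤ C * |h| ^ b * (1 + |h| ^ 4)) {v : ℝ≥0} (hv : 0 < v) :
    Integrable (fun z : ℝ × ℝ => U z * gaussianPDFReal 0 v (z.2 - z.1)) ∧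
    ∫ z : ℝ × ℝ, U z * gaussianPDFReal 0 v (z.2 - z.1)
      = ∫ h, (∫ x, U (x, x + h)) ∂(gaussianReal 0 v) := by
  have hT : MeasurePreserving (fun z : ℝ × ℝ => (z.1, z.1 + z.2))
      ((volume : Measure ℝ).prod volume) ((volume : Measure ℝ).prod volume) :=
    measurePreserving_prod_add volume volume
  have hTe : MeasurableEmbedding (fun z : ℝ × ℝ => (z.1, z.1 + z.2)) :=
    (MeasurableEquiv.shearAddRight ℝ).measurableEmbedding
  have hgm : Measurable (gaussianPDFReal 0 v) := measurable_gaussianPDFReal _ _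
  have hm : Measurable (fun z : ℝ × ℝ => U (z.1, z.1 + z.2) * gaussianPDFReal 0 v z.2) :=
    (hU.comp (measurable_fst.prodMk (measurable_fst.add measurable_snd))).mul
      (hgm.comp measurable_snd)
  have Gi : Integrable (fun z : ℝ × ℝ => U (z.1, z.1 + z.2) * gaussianPDFReal 0 v z.2)
      ((volume : Measure ℝ).prod volume) := by
    rw [integrable_prod_iff' hm.aestronglyMeasurable]
    have hsec : ∀ h : ℝ, Integrable (fun x => U (x, x + h) * gaussianPDFReal 0 v h) :=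
      fun h => (hb h).1.mul_const _
    refine ⟨ae_of_all _ fun h => hsec h, ?_⟩
    have h1 : ∀ h : ℝ, ∫ x, ‖U (x, x + h) * gaussianPDFReal 0 v h‖ =
        (∫ x, |U (x, x + h)|) * gaussianPDFReal 0 v h := by
      intro h
      rw [← integral_mul_const]
      refine integral_congr_ae (ae_of_all _ fun x => ?_)
      show ‖U (x, x + h) * gaussianPDFReal 0 v h‖ = |U (x, x + h)| * gaussianPDFReal 0 v h
      rw [norm_mul, Real.norm_eq_abs, Real.norm_of_nonneg (gaussianPDFReal_nonneg _ _ _)]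
    refine (ew_poly hb0 v hv.ne' C).mono' ?_ (ae_of_all _ fun h => ?_)
    · exact (hm.norm.stronglyMeasurable.integral_prod_left).aestronglyMeasurable
    · show ‖∫ x, ‖U (x, x + h) * gaussianPDFReal 0 v h‖‖ ≤ _
      rw [h1 h, Real.norm_of_nonneg (mul_nonneg (integral_nonneg fun x => abs_nonneg _)
        (gaussianPDFReal_nonneg _ _ _))]
      exact mul_le_mul_of_nonneg_right (hb h).2 (gaussianPDFReal_nonneg _ _ _)
  have hcomp : (fun z : ℝ × ℝ => U z * gaussianPDFReal 0 v (z.2 - z.1)) ∘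
      (fun z : ℝ × ℝ => (z.1, z.1 + z.2)) =
      fun z : ℝ × ℝ => U (z.1, z.1 + z.2) * gaussianPDFReal 0 v z.2 := by
    funext z
    show U (z.1, z.1 + z.2) * gaussianPDFReal 0 v (z.1 + z.2 - z.1) = _
    rw [add_sub_cancel_left]
  have hI : Integrable (fun z : ℝ × ℝ => U z * gaussianPDFReal 0 v (z.2 - z.1))
      ((volume : Measure ℝ).prod volume) := by
    rw [← hT.integrable_comp_emb hTe, hcomp]
    exact Gi
  refine ⟨hI, ?_⟩
  have h1 : ∫ z : ℝ × ℝ, U z * gaussianPDFReal 0 v (z.2 - z.1) ∂((volume : Measure ℝ).prod volume)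
      = ∫ z : ℝ × ℝ, U (z.1, z.1 + z.2) * gaussianPDFReal 0 v z.2
        ∂((volume : Measure ℝ).prod volume) := by
    rw [← hT.integral_comp hTe]
    refine integral_congr_ae (ae_of_all _ fun z => ?_)
    exact congrFun hcomp z
  have h2 : ∫ z : ℝ × ℝ, U z * gaussianPDFReal 0 v (z.2 - z.1) =
    ∫ z : ℝ × ℝ, U z * gaussianPDFReal 0 v (z.2 - z.1) ∂((volume : Measure ℝ).prod volume) := rfl
  rw [h2, h1, integral_prod_symm _ Gi, integral_gaussianReal_eq_integral_smul hv.ne']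
  refine integral_congr_ae (ae_of_all _ fun h => ?_)
  show ∫ x, U (x, x + h) * gaussianPDFReal 0 v h = gaussianPDFReal 0 v h • ∫ x, U (x, x + h)
  rw [integral_mul_const, smul_eq_mul, mul_comm]

private theorem ew_J_meas {U : ℝ × ℝ → ℝ} (hU : Measurable U) :
    Measurable (fun h : ℝ => ∫ x, U (x, x + h)) := by
  have h1 : StronglyMeasurable (fun z : ℝ × ℝ => U (z.2, z.2 + z.1)) :=
    (hU.comp (measurable_snd.prodMk (measurable_snd.add measurable_fst))).stronglyMeasurable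
  exact (h1.integral_prod_right (ν := volume)).measurable

private theorem ew_bdd {b C L : ℝ} (hb0 : 0 ≤ b) {U : ℝ × ℝ → ℝ} (hU : Measurable U)
    (hU0 : ∀ z, 0 ≤ U z)
    (hb : ∀ h : ℝ, Integrable (fun x => U (x, x + h)) ∧
      ∫ x, U (x, x + h) ≤ C * |h| ^ b * (1 + |h| ^ 4)) {v : ℕ → ℝ≥0}
    (hv : ∀ n, 0 < v n) (hv0 : Tendsto v atTop (𝓝 0)) {N : ℕ → ℝ} (hN0 : ∀ n, 0 ≤ N n)
    (hN : Tendsto (fun n => N n * (v n : ℝ) ^ (b / 2)) atTop (𝓝 L)) :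
    ∃ C' : ℝ, 0 ≤ C' ∧ ∀ n,
      Integrable (fun z : ℝ × ℝ => U z * gaussianPDFReal 0 (v n) (z.2 - z.1)) ∧
      N n * ∫ z : ℝ × ℝ, U z * gaussianPDFReal 0 (v n) (z.2 - z.1) ≤ C' := by
  have habs : ∀ h : ℝ, ∫ x, |U (x, x + h)| = ∫ x, U (x, x + h) := fun h =>
    integral_congr_ae (ae_of_all _ fun x => abs_of_nonneg (hU0 _))
  have hbU : ∀ h : ℝ, Integrable (fun x => U (x, x + h)) ∧
      ∫ x, |U (x, x + h)| ≤ C * |h| ^ b * (1 + |h| ^ 4) := by
    intro h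
    rw [habs h]
    exact hb h
  obtain ⟨C', hC'⟩ := gauss_avg_bdd (a := b) (C := C) hb0 (ew_J_meas hU)
    (fun z => (abs_integral_le_integral_abs).trans (hbU z).2) hv hv0 hN0 hN
  have hkey : ∀ n, N n * ∫ z : ℝ × ℝ, U z * gaussianPDFReal 0 (v n) (z.2 - z.1) ≤ C' := by
    intro n
    rw [(ew_fub hb0 hU hbU (hv n)).2]
    refine le_trans (le_of_eq ?_) (hC' n)
    congr 1
    refine integral_congr_ae (ae_of_all _ fun h => ?_)
    show ∫ x, U (x, x + h) = |(∫ x, U (x, x + h))|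
    rw [abs_of_nonneg (integral_nonneg fun x => hU0 _)]
  refine ⟨C', ?_, fun n => ⟨(ew_fub hb0 hU hbU (hv n)).1, hkey n⟩⟩
  refine le_trans ?_ (hkey 0)
  exact mul_nonneg (hN0 0) (integral_nonneg fun z =>
    mul_nonneg (hU0 z) (gaussianPDFReal_nonneg _ _ _))

/-! ### auxiliary: the scale -/

private theorem ew_two_pos (hl : 0 < l) (H : ℝ) (n : ℕ) : 0 < 2 * vH l (2 + H) n :=
  mul_pos two_pos (vH_pos hl _ n)

private theorem ew_two_lim (hH : 0 < H) (hl : 0 < l) :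
    Tendsto (fun n => 2 * vH l (2 + H) n) atTop (𝓝 0) := by
  have h := (vH_lim hl (by linarith : 0 < 2 + H)).const_mul (2 : ℝ≥0)
  rwa [mul_zero] at h

private theorem ew_two_N (hH : 0 < H) (hl : 0 < l) (n : ℕ) :
    ((n : ℝ) + 1) * ((2 * vH l (2 + H) n : ℝ≥0) : ℝ) ^ (2 + H)
      = 2 ^ (2 + H) * l ^ (2 * (2 + H)) := by
  rw [NNReal.coe_mul, NNReal.coe_ofNat, Real.mul_rpow (by norm_num) (vH l (2 + H) n).coe_nonneg,
    ← vH_pow hl (by linarith : 0 < 2 + H) n]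
  ring

/-! ### auxiliary: the weights -/

private theorem ew_C (hM : MPot H φ β D V) : ∃ C : ℝ, 0 ≤ C ∧ ∀ h : ℝ,
    Integrable (fun x => Real.exp (-x ^ 2 / 8) * Kf β (x, x + h) ^ 2) ∧
      ∫ x, Real.exp (-x ^ 2 / 8) * Kf β (x, x + h) ^ 2 ≤ C * |h| ^ (4 + 2 * H) := by
  obtain ⟨C, hC⟩ := kf_sq hM
  refine ⟨C, ?_, hC⟩
  have h1 := (hC 1).2
  have h2 : (0 : ℝ) ≤ ∫ x, Real.exp (-x ^ 2 / 8) * Kf β (x, x + 1) ^ 2 :=
    integral_nonneg fun x => by positivity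
  rw [abs_one, Real.one_rpow, mul_one] at h1
  exact h2.trans h1

private theorem ew_shift (hM : MPot H φ β D V)
    (hi : ∀ h : ℝ, Integrable (fun x => Real.exp (-x ^ 2 / 8) * Kf β (x, x + h) ^ 2)) (h : ℝ) :
    Integrable (fun x => Real.exp (-(x + h) ^ 2 / 8) * Kf β (x, x + h) ^ 2) ∧
      ∫ x, Real.exp (-(x + h) ^ 2 / 8) * Kf β (x, x + h) ^ 2
        = ∫ x, Real.exp (-x ^ 2 / 8) * Kf β (x, x + (-h)) ^ 2 := by
  have e : (fun x => Real.exp (-(x + h) ^ 2 / 8) * Kf β (x, x + h) ^ 2) =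
      fun x => (fun y => Real.exp (-y ^ 2 / 8) * Kf β (y, y + (-h)) ^ 2) (x + h) := by
    funext x
    show Real.exp (-(x + h) ^ 2 / 8) * Kf β (x, x + h) ^ 2 =
      Real.exp (-(x + h) ^ 2 / 8) * Kf β (x + h, x + h + (-h)) ^ 2
    have h1 := kf_swap hM (x, x + h)
    rw [add_neg_cancel_right]
    have h2 : Kf β (x + h, x) = - Kf β (x, x + h) := h1
    rw [h2, neg_sq]
  rw [e]
  exact ⟨(hi (-h)).comp_add_right h,
    integral_add_right_eq_self (fun y => Real.exp (-y ^ 2 / 8) * Kf β (y, y + (-h)) ^ 2) h⟩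

private theorem ew_exp (x : ℝ) : Real.exp (-x ^ 2 / 4) ≤ Real.exp (-x ^ 2 / 8) :=
  Real.exp_le_exp.2 (by nlinarith [sq_nonneg x])

/-- the weight with `e^{-x²/8}` -/
private theorem ew_Q8 (hM : MPot H φ β D V) : ∃ C : ℝ, 0 ≤ C ∧ ∀ h : ℝ,
    Integrable (fun x => (Real.exp (-x ^ 2 / 8) + Real.exp (-(x + h) ^ 2 / 8))
      * Kf β (x, x + h) ^ 2) ∧
      ∫ x, (Real.exp (-x ^ 2 / 8) + Real.exp (-(x + h) ^ 2 / 8)) * Kf β (x, x + h) ^ 2
        ≤ C * |h| ^ (4 + 2 * H) * (1 + |h| ^ 4) := by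
  obtain ⟨C, hC0, hC⟩ := ew_C hM
  refine ⟨2 * C, by positivity, fun h => ?_⟩
  have i1 := (hC h).1
  have i2 := ew_shift hM (fun h => (hC h).1) h
  have e : (fun x => (Real.exp (-x ^ 2 / 8) + Real.exp (-(x + h) ^ 2 / 8))
      * Kf β (x, x + h) ^ 2) = fun x => Real.exp (-x ^ 2 / 8) * Kf β (x, x + h) ^ 2 +
        Real.exp (-(x + h) ^ 2 / 8) * Kf β (x, x + h) ^ 2 := by
    funext x
    ring
  rw [e]
  refine ⟨i1.add i2.1, ?_⟩
  rw [integral_add i1 i2.1, i2.2]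
  have h1 := (hC h).2
  have h2 := (hC (-h)).2
  rw [abs_neg] at h2
  have h3 : 0 ≤ C * |h| ^ (4 + 2 * H) := mul_nonneg hC0 (Real.rpow_nonneg (abs_nonneg h) _)
  have h4 : 0 ≤ |h| ^ 4 := by positivity
  nlinarith [mul_nonneg h3 h4]

private theorem ew_meas8 (hM : MPot H φ β D V) (c : ℝ) : Measurable (fun z : ℝ × ℝ =>
    (Real.exp (-z.1 ^ 2 / c) + Real.exp (-z.2 ^ 2 / c)) * Kf β z ^ 2) := by
  have h1 := kf_meas hM
  have h2 : Measurable (fun z : ℝ × ℝ => Real.exp (-z.1 ^ 2 / c) + Real.exp (-z.2 ^ 2 / c)) := by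
    fun_prop
  exact h2.mul (h1.pow_const 2)

/-- the weight with `e^{-x²/4}` -/
private theorem ew_Q4 (hM : MPot H φ β D V) : ∃ C : ℝ, 0 ≤ C ∧ ∀ h : ℝ,
    Integrable (fun x => (Real.exp (-x ^ 2 / 4) + Real.exp (-(x + h) ^ 2 / 4))
      * Kf β (x, x + h) ^ 2) ∧
      ∫ x, (Real.exp (-x ^ 2 / 4) + Real.exp (-(x + h) ^ 2 / 4)) * Kf β (x, x + h) ^ 2
        ≤ C * |h| ^ (4 + 2 * H) * (1 + |h| ^ 4) := by
  obtain ⟨C, hC0, hC⟩ := ew_Q8 hM
  refine ⟨C, hC0, fun h => ?_⟩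
  have hle : ∀ x, (Real.exp (-x ^ 2 / 4) + Real.exp (-(x + h) ^ 2 / 4)) * Kf β (x, x + h) ^ 2 ≤
      (Real.exp (-x ^ 2 / 8) + Real.exp (-(x + h) ^ 2 / 8)) * Kf β (x, x + h) ^ 2 := fun x =>
    mul_le_mul_of_nonneg_right (add_le_add (ew_exp x) (ew_exp (x + h))) (sq_nonneg _)
  have hint : Integrable (fun x => (Real.exp (-x ^ 2 / 4) + Real.exp (-(x + h) ^ 2 / 4))
      * Kf β (x, x + h) ^ 2) := by
    refine (hC h).1.mono' ?_ (ae_of_all _ fun x => ?_)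
    · have h1 := (ew_meas8 hM 4).comp
        ((measurable_id (α := ℝ)).prodMk (measurable_id.add_const h))
      exact h1.aestronglyMeasurable
    · rw [Real.norm_of_nonneg (by positivity)]
      exact hle x
  exact ⟨hint, (integral_mono hint (hC h).1 hle).trans (hC h).2⟩

theorem mw_main (hM : MPot H φ β D V) (hH : 0 < H) (hl : 0 < l) (hm : Continuous m)
    (hA : ∀ x, |m x| ≤ A * Real.exp (-x ^ 2 / 4)) :
    Tendsto (fun n : ℕ => ((n : ℝ) + 1) * ∫ z : ℝ × ℝ, m z.1 * Kf β z ^ 2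
      * gaussianPDFReal 0 (vH l (2 + H) n) (z.2 - z.1)) atTop
      (𝓝 (l ^ (2 * (2 + H)) * (kap H * ∫ x, m x * φ x ^ 2) * gmom (4 + 2 * H))) := by
  have hA0 : 0 ≤ A := by
    have h := (abs_nonneg _).trans (hA 0)
    simpa using h
  obtain ⟨C, hC0, hC⟩ := ew_C hM
  have hUm : Measurable (fun z : ℝ × ℝ => m z.1 * Kf β z ^ 2) :=
    (hm.measurable.comp measurable_fst).mul ((kf_meas hM).pow_const 2)
  have hle : ∀ h x, |m x * Kf β (x, x + h) ^ 2| ≤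
      A * (Real.exp (-x ^ 2 / 8) * Kf β (x, x + h) ^ 2) := by
    intro h x
    rw [abs_mul, abs_of_nonneg (sq_nonneg (Kf β (x, x + h))), ← mul_assoc]
    refine mul_le_mul_of_nonneg_right ((hA x).trans ?_) (sq_nonneg _)
    exact mul_le_mul_of_nonneg_left (ew_exp x) hA0
  have hb : ∀ h : ℝ, Integrable (fun x => (fun z : ℝ × ℝ => m z.1 * Kf β z ^ 2) (x, x + h)) ∧
      ∫ x, |(fun z : ℝ × ℝ => m z.1 * Kf β z ^ 2) (x, x + h)|
        ≤ A * C * |h| ^ (4 + 2 * H) * (1 + |h| ^ 4) := by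
    intro h
    have hi : Integrable (fun x => (fun z : ℝ × ℝ => m z.1 * Kf β z ^ 2) (x, x + h)) := by
      refine ((hC h).1.const_mul A).mono' ?_ (ae_of_all _ fun x => hle h x)
      exact (hUm.comp ((measurable_id (α := ℝ)).prodMk
        (measurable_id.add_const h))).aestronglyMeasurable
    refine ⟨hi, ?_⟩
    calc ∫ x, |(fun z : ℝ × ℝ => m z.1 * Kf β z ^ 2) (x, x + h)|
        ≤ ∫ x, A * (Real.exp (-x ^ 2 / 8) * Kf β (x, x + h) ^ 2) :=
          integral_mono hi.abs ((hC h).1.const_mul A) (hle h)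
      _ = A * ∫ x, Real.exp (-x ^ 2 / 8) * Kf β (x, x + h) ^ 2 := integral_const_mul _ _
      _ ≤ A * (C * |h| ^ (4 + 2 * H)) := mul_le_mul_of_nonneg_left (hC h).2 hA0
      _ ≤ A * C * |h| ^ (4 + 2 * H) * (1 + |h| ^ 4) := by
          have h3 : 0 ≤ A * C * |h| ^ (4 + 2 * H) :=
            mul_nonneg (mul_nonneg hA0 hC0) (Real.rpow_nonneg (abs_nonneg h) _)
          have h4 : 0 ≤ |h| ^ 4 := by positivity
          nlinarith [mul_nonneg h3 h4]
  have ha2 : (4 + 2 * H) / 2 = 2 + H := by ring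
  have hN : Tendsto (fun n : ℕ => ((n : ℝ) + 1) * (vH l (2 + H) n : ℝ) ^ ((4 + 2 * H) / 2)) atTop
      (𝓝 (l ^ (2 * (2 + H)))) := by
    rw [ha2]
    refine tendsto_const_nhds.congr fun n => ?_
    exact (vH_pow hl (by linarith : 0 < 2 + H) n).symm
  have h := gauss_avg (a := 4 + 2 * H) (C := A * C) (by linarith) (ew_J_meas hUm)
    (fun z => (abs_integral_le_integral_abs).trans (hb z).2) (kf_lln' hM hH hm hA)
    (vH_pos hl (2 + H)) (vH_lim hl (by linarith : 0 < 2 + H)) (N := fun n => (n : ℝ) + 1) hN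
  refine h.congr fun n => ?_
  rw [(ew_fub (by linarith : (0 : ℝ) ≤ 4 + 2 * H) hUm hb (vH_pos hl (2 + H) n)).2]

private theorem ew_bddC (hM : MPot H φ β D V) (hH : 0 < H) (hl : 0 < l) {c : ℝ}
    (hc : ∃ C : ℝ, 0 ≤ C ∧ ∀ h : ℝ,
      Integrable (fun x => (Real.exp (-x ^ 2 / c) + Real.exp (-(x + h) ^ 2 / c))
      * Kf β (x, x + h) ^ 2) ∧
      ∫ x, (Real.exp (-x ^ 2 / c) + Real.exp (-(x + h) ^ 2 / c)) * Kf β (x, x + h) ^ 2
        ≤ C * |h| ^ (4 + 2 * H) * (1 + |h| ^ 4)) :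
    ∃ C : ℝ, 0 ≤ C ∧ ∀ n : ℕ,
      Integrable (fun z : ℝ × ℝ => (Real.exp (-z.1 ^ 2 / c) + Real.exp (-z.2 ^ 2 / c))
        * Kf β z ^ 2 * gaussianPDFReal 0 (2 * vH l (2 + H) n) (z.2 - z.1)) ∧
      ((n : ℝ) + 1) * ∫ z : ℝ × ℝ, (Real.exp (-z.1 ^ 2 / c) + Real.exp (-z.2 ^ 2 / c))
        * Kf β z ^ 2 * gaussianPDFReal 0 (2 * vH l (2 + H) n) (z.2 - z.1) ≤ C := by
  obtain ⟨C, hC0, hC⟩ := hc
  have ha2 : (4 + 2 * H) / 2 = 2 + H := by ring
  refine ew_bdd (b := 4 + 2 * H) (C := C) (L := 2 ^ (2 + H) * l ^ (2 * (2 + H))) (by linarith)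
    (ew_meas8 hM c) (fun z => by positivity) hC (ew_two_pos hl H) (ew_two_lim hH hl)
    (N := fun n => (n : ℝ) + 1) (fun n => by positivity) ?_
  rw [ha2]
  refine tendsto_const_nhds.congr fun n => ?_
  exact (ew_two_N hH hl n).symm

theorem mw_bdd (hM : MPot H φ β D V) (hH : 0 < H) (hl : 0 < l) :
    ∃ C : ℝ, ∀ n : ℕ,
      Integrable (fun z : ℝ × ℝ => (Real.exp (-z.1 ^ 2 / 4) + Real.exp (-z.2 ^ 2 / 4))
        * Kf β z ^ 2 * gaussianPDFReal 0 (2 * vH l (2 + H) n) (z.2 - z.1)) ∧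
      ((n : ℝ) + 1) * ∫ z : ℝ × ℝ, (Real.exp (-z.1 ^ 2 / 4) + Real.exp (-z.2 ^ 2 / 4))
        * Kf β z ^ 2 * gaussianPDFReal 0 (2 * vH l (2 + H) n) (z.2 - z.1) ≤ C := by
  obtain ⟨C, _, hC⟩ := ew_bddC hM hH hl (ew_Q4 hM)
  exact ⟨C, hC⟩

/-- the weight with an additional factor `z²` -/
private theorem ew_far2 (hM : MPot H φ β D V) (hH : 0 < H) (hl : 0 < l) :
    ∃ C : ℝ, 0 ≤ C ∧ ∀ n : ℕ,
      Integrable (fun z : ℝ × ℝ => ((Real.exp (-z.1 ^ 2 / 4) + Real.exp (-z.2 ^ 2 / 4))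
        * Kf β z ^ 2 * (z.2 - z.1) ^ 2) *
          gaussianPDFReal 0 (2 * vH l (2 + H) n) (z.2 - z.1)) ∧
      ((n : ℝ) + 1) * ∫ z : ℝ × ℝ, ((Real.exp (-z.1 ^ 2 / 4) + Real.exp (-z.2 ^ 2 / 4))
        * Kf β z ^ 2 * (z.2 - z.1) ^ 2) *
          gaussianPDFReal 0 (2 * vH l (2 + H) n) (z.2 - z.1)
        ≤ C * ((2 * vH l (2 + H) n : ℝ≥0) : ℝ) := by
  obtain ⟨C, hC0, hC⟩ := ew_Q4 hM
  have hm : Measurable (fun z : ℝ × ℝ => (Real.exp (-z.1 ^ 2 / 4) + Real.exp (-z.2 ^ 2 / 4))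
        * Kf β z ^ 2 * (z.2 - z.1) ^ 2) :=
    (ew_meas8 hM 4).mul ((measurable_snd.sub measurable_fst).pow_const 2)
  have hb : ∀ h : ℝ, Integrable (fun x => (fun z : ℝ × ℝ =>
      (Real.exp (-z.1 ^ 2 / 4) + Real.exp (-z.2 ^ 2 / 4))
        * Kf β z ^ 2 * (z.2 - z.1) ^ 2) (x, x + h)) ∧
      ∫ x, (fun z : ℝ × ℝ => (Real.exp (-z.1 ^ 2 / 4) + Real.exp (-z.2 ^ 2 / 4))
        * Kf β z ^ 2 * (z.2 - z.1) ^ 2) (x, x + h)
        ≤ C * |h| ^ (6 + 2 * H) * (1 + |h| ^ 4) := by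
    intro h
    have e : (fun x => (fun z : ℝ × ℝ => (Real.exp (-z.1 ^ 2 / 4) + Real.exp (-z.2 ^ 2 / 4))
        * Kf β z ^ 2 * (z.2 - z.1) ^ 2) (x, x + h)) =
        fun x => ((Real.exp (-x ^ 2 / 4) + Real.exp (-(x + h) ^ 2 / 4))
      * Kf β (x, x + h) ^ 2) * h ^ 2 := by
      funext x
      show (Real.exp (-x ^ 2 / 4) + Real.exp (-(x + h) ^ 2 / 4))
        * Kf β (x, x + h) ^ 2 * (x + h - x) ^ 2 = _
      rw [add_sub_cancel_left]
    rw [e]
    refine ⟨(hC h).1.mul_const _, ?_⟩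
    rw [integral_mul_const]
    have h1 : |h| ^ (6 + 2 * H) = |h| ^ (4 + 2 * H) * h ^ 2 := by
      have h2 : 6 + 2 * H = (4 + 2 * H) + 2 := by ring
      rw [h2, Real.rpow_add_of_nonneg (abs_nonneg h) (by linarith) (by norm_num),
        Real.rpow_two, sq_abs]
    rw [h1]
    calc _ ≤ (C * |h| ^ (4 + 2 * H) * (1 + |h| ^ 4)) * h ^ 2 :=
          mul_le_mul_of_nonneg_right (hC h).2 (sq_nonneg h)
      _ = _ := by ring
  have hvpos : ∀ n, (0 : ℝ) < ((2 * vH l (2 + H) n : ℝ≥0) : ℝ) := fun n =>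
    NNReal.coe_pos.mpr (ew_two_pos hl H n)
  obtain ⟨C', hC'0, hC'⟩ := ew_bdd (b := 6 + 2 * H) (C := C)
    (L := 2 ^ (2 + H) * l ^ (2 * (2 + H))) (by linarith) hm
    (fun z => by positivity) hb (ew_two_pos hl H) (ew_two_lim hH hl)
    (N := fun n => ((n : ℝ) + 1) / ((2 * vH l (2 + H) n : ℝ≥0) : ℝ))
    (fun n => div_nonneg (by positivity) (hvpos n).le) (by
      refine tendsto_const_nhds.congr fun n => ?_
      rw [← ew_two_N hH hl n]
      have h1 : (6 + 2 * H) / 2 = (2 + H) + 1 := by ring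
      have h2 := hvpos n
      rw [h1, Real.rpow_add h2 (2 + H) 1, Real.rpow_one]
      field_simp)
  refine ⟨C', hC'0, fun n => ⟨(hC' n).1, ?_⟩⟩
  have h1 := (hC' n).2
  rw [div_mul_eq_mul_div, div_le_iff₀ (hvpos n)] at h1
  exact h1

private theorem ew_tail_exp {R x : ℝ} (hR : 1 ≤ R) (hx : R - 1 ≤ |x|) :
    Real.exp (-x ^ 2 / 4) ≤ Real.exp (-(R - 1) ^ 2 / 8) * Real.exp (-x ^ 2 / 8) := by
  rw [← Real.exp_add]
  apply Real.exp_le_exp.2
  have h1 : (R - 1) ^ 2 ≤ x ^ 2 := by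
    rw [← sq_abs x]
    exact pow_le_pow_left₀ (by linarith) hx 2
  linarith

private theorem ew_rho0 : Tendsto (fun R : ℝ => Real.exp (-(R - 1) ^ 2 / 8)) atTop (𝓝 0) := by
  have h1 : Tendsto (fun R : ℝ => (R - 1) ^ 2 / 8) atTop atTop := by
    have h2 : Tendsto (fun R : ℝ => R - 1) atTop atTop :=
      tendsto_atTop_add_const_right _ _ tendsto_id
    exact ((tendsto_pow_atTop (by norm_num : (2 : ℕ) ≠ 0)).comp h2).atTop_div_const (by norm_num)
  have h3 := Real.tendsto_exp_neg_atTop_nhds_zero.comp h1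
  refine h3.congr fun R => ?_
  show Real.exp (-((R - 1) ^ 2 / 8)) = Real.exp (-(R - 1) ^ 2 / 8)
  congr 1
  ring

private theorem ew_farS (A' δ : ℝ) :
    MeasurableSet {z : ℝ × ℝ | A' < |z.1| ∨ δ < |z.2 - z.1|} := by
  have h1 : MeasurableSet {z : ℝ × ℝ | A' < |z.1|} :=
    measurableSet_lt measurable_const (by fun_prop)
  have h2 : MeasurableSet {z : ℝ × ℝ | δ < |z.2 - z.1|} :=
    measurableSet_lt measurable_const (by fun_prop)
  exact h1.union h2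

/-- the part away from the compact and from the diagonal -/
theorem mw_far (hM : MPot H φ β D V) (hH : 0 < H) (hl : 0 < l) {ε : ℝ} (hε : 0 < ε) :
    ∃ A' : ℝ, ∀ δ : ℝ, 0 < δ → ∀ᶠ n : ℕ in atTop,
      ((n : ℝ) + 1) * ∫ z in {z : ℝ × ℝ | A' < |z.1| ∨ δ < |z.2 - z.1|},
        (Real.exp (-z.1 ^ 2 / 4) + Real.exp (-z.2 ^ 2 / 4))
        * Kf β z ^ 2 * gaussianPDFReal 0 (2 * vH l (2 + H) n) (z.2 - z.1) ≤ ε := by
  obtain ⟨C1, hC10, hC1⟩ := ew_bddC hM hH hl (ew_Q8 hM)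
  obtain ⟨C2, hC20, hC2⟩ := ew_far2 hM hH hl
  obtain ⟨C3, hC3⟩ := mw_bdd hM hH hl
  obtain ⟨R, hRε, hR1⟩ : ∃ R : ℝ, C1 * Real.exp (-(R - 1) ^ 2 / 8) < ε / 2 ∧ 1 ≤ R := by
    have h0 : Tendsto (fun R : ℝ => C1 * Real.exp (-(R - 1) ^ 2 / 8)) atTop (𝓝 0) := by
      have := ew_rho0.const_mul C1
      rwa [mul_zero] at this
    have h1 : ∀ᶠ R : ℝ in atTop, C1 * Real.exp (-(R - 1) ^ 2 / 8) < ε / 2 :=
      h0.eventually (gt_mem_nhds (by linarith))
    obtain ⟨R, hR⟩ := (h1.and (eventually_ge_atTop 1)).exists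
    exact ⟨R, hR⟩
  refine ⟨R, fun δ hδ => ?_⟩
  set ρ := Real.exp (-(R - 1) ^ 2 / 8) with hρ
  have hρ0 : 0 ≤ ρ := (Real.exp_pos _).le
  set δ' := min δ 1 with hδ'
  have hδ'0 : 0 < δ' := lt_min hδ one_pos
  have hlim : Tendsto (fun n => C2 / δ' ^ 2 * ((2 * vH l (2 + H) n : ℝ≥0) : ℝ)) atTop (𝓝 0) := by
    have h1 := (NNReal.continuous_coe.tendsto 0).comp (ew_two_lim hH hl)
    have h2 := h1.const_mul (C2 / δ' ^ 2)
    rw [NNReal.coe_zero, mul_zero] at h2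
    exact h2
  filter_upwards [hlim.eventually (gt_mem_nhds (by linarith : 0 < ε / 2))] with n hn
  set γ : ℝ × ℝ → ℝ := fun z => gaussianPDFReal 0 (2 * vH l (2 + H) n) (z.2 - z.1) with hγ
  have hγ0 : ∀ z, 0 ≤ γ z := fun z => gaussianPDFReal_nonneg _ _ _
  have hpt : ∀ z : ℝ × ℝ, ({z : ℝ × ℝ | R < |z.1| ∨ δ < |z.2 - z.1|}).indicator
      (fun z => (Real.exp (-z.1 ^ 2 / 4) + Real.exp (-z.2 ^ 2 / 4)) * Kf β z ^ 2 * γ z) z ≤
      ρ * ((Real.exp (-z.1 ^ 2 / 8) + Real.exp (-z.2 ^ 2 / 8)) * Kf β z ^ 2 * γ z) +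
      1 / δ' ^ 2 * (((Real.exp (-z.1 ^ 2 / 4) + Real.exp (-z.2 ^ 2 / 4)) * Kf β z ^ 2
        * (z.2 - z.1) ^ 2) * γ z) := by
    intro z
    have hg := hγ0 z
    by_cases hz : z ∈ {z : ℝ × ℝ | R < |z.1| ∨ δ < |z.2 - z.1|}
    · rw [indicator_of_mem hz]
      have hK : 0 ≤ Kf β z ^ 2 := sq_nonneg _
      rcases le_or_gt |z.2 - z.1| δ' with h1 | h1
      · have hz1 : R < |z.1| := by
          rcases hz with h | h
          · exact h
          · exact absurd (h1.trans (min_le_left _ _)) (not_le.mpr h)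
        have h2 : Real.exp (-z.1 ^ 2 / 4) ≤ ρ * Real.exp (-z.1 ^ 2 / 8) :=
          ew_tail_exp hR1 (by linarith)
        have h3 : Real.exp (-z.2 ^ 2 / 4) ≤ ρ * Real.exp (-z.2 ^ 2 / 8) := by
          refine ew_tail_exp hR1 ?_
          have h4 : |z.1| ≤ |z.2| + |z.2 - z.1| := by
            have h5 := abs_sub z.2 (z.2 - z.1)
            rwa [sub_sub_cancel] at h5
          have h6 := h1.trans (min_le_right _ _)
          linarith
        have h4 : (Real.exp (-z.1 ^ 2 / 4) + Real.exp (-z.2 ^ 2 / 4)) * Kf β z ^ 2 * γ z ≤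
            ρ * ((Real.exp (-z.1 ^ 2 / 8) + Real.exp (-z.2 ^ 2 / 8)) * Kf β z ^ 2 * γ z) := by
          calc (Real.exp (-z.1 ^ 2 / 4) + Real.exp (-z.2 ^ 2 / 4)) * Kf β z ^ 2 * γ z
              ≤ (ρ * Real.exp (-z.1 ^ 2 / 8) + ρ * Real.exp (-z.2 ^ 2 / 8)) * Kf β z ^ 2 * γ z := by
                gcongr
            _ = _ := by ring
        have h5 : 0 ≤ 1 / δ' ^ 2 * (((Real.exp (-z.1 ^ 2 / 4) + Real.exp (-z.2 ^ 2 / 4))
            * Kf β z ^ 2 * (z.2 - z.1) ^ 2) * γ z) := by positivity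
        linarith
      · have h2 : 1 ≤ 1 / δ' ^ 2 * (z.2 - z.1) ^ 2 := by
          rw [one_div, le_inv_mul_iff₀ (by positivity), mul_one, ← sq_abs (z.2 - z.1)]
          exact pow_le_pow_left₀ hδ'0.le h1.le 2
        have h3 : 0 ≤ (Real.exp (-z.1 ^ 2 / 4) + Real.exp (-z.2 ^ 2 / 4)) * Kf β z ^ 2 * γ z := by
          positivity
        have h4 : (Real.exp (-z.1 ^ 2 / 4) + Real.exp (-z.2 ^ 2 / 4)) * Kf β z ^ 2 * γ z ≤
            1 / δ' ^ 2 * (((Real.exp (-z.1 ^ 2 / 4) + Real.exp (-z.2 ^ 2 / 4)) * Kf β z ^ 2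
        * (z.2 - z.1) ^ 2) * γ z) := by
          calc _ = ((Real.exp (-z.1 ^ 2 / 4) + Real.exp (-z.2 ^ 2 / 4)) * Kf β z ^ 2 * γ z) * 1 :=
                (mul_one _).symm
            _ ≤ ((Real.exp (-z.1 ^ 2 / 4) + Real.exp (-z.2 ^ 2 / 4)) * Kf β z ^ 2 * γ z) *
                (1 / δ' ^ 2 * (z.2 - z.1) ^ 2) := mul_le_mul_of_nonneg_left h2 h3
            _ = _ := by ring
        have h5 : 0 ≤ ρ * ((Real.exp (-z.1 ^ 2 / 8) + Real.exp (-z.2 ^ 2 / 8))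
            * Kf β z ^ 2 * γ z) := by positivity
        linarith
    · rw [indicator_of_notMem hz]
      positivity
  have hfi : Integrable (({z : ℝ × ℝ | R < |z.1| ∨ δ < |z.2 - z.1|}).indicator
      (fun z => (Real.exp (-z.1 ^ 2 / 4) + Real.exp (-z.2 ^ 2 / 4)) * Kf β z ^ 2 * γ z)) :=
    (hC3 n).1.indicator (ew_farS R δ)
  have g1 := ((hC1 n).1.const_mul ρ)
  have g2 := ((hC2 n).1.const_mul (1 / δ' ^ 2))
  have hn1 : (0 : ℝ) ≤ (n : ℝ) + 1 := by positivity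
  rw [← integral_indicator (ew_farS R δ)]
  refine (mul_le_mul_of_nonneg_left (integral_mono hfi (g1.add g2) hpt) hn1).trans ?_
  calc ((n : ℝ) + 1) * ∫ z : ℝ × ℝ,
        (ρ * ((Real.exp (-z.1 ^ 2 / 8) + Real.exp (-z.2 ^ 2 / 8)) * Kf β z ^ 2 * γ z) +
        1 / δ' ^ 2 * (((Real.exp (-z.1 ^ 2 / 4) + Real.exp (-z.2 ^ 2 / 4)) * Kf β z ^ 2
        * (z.2 - z.1) ^ 2) * γ z))
      = ρ * (((n : ℝ) + 1) * ∫ z : ℝ × ℝ,
          (Real.exp (-z.1 ^ 2 / 8) + Real.exp (-z.2 ^ 2 / 8)) * Kf β z ^ 2 * γ z) +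
        1 / δ' ^ 2 * (((n : ℝ) + 1) * ∫ z : ℝ × ℝ,
          ((Real.exp (-z.1 ^ 2 / 4) + Real.exp (-z.2 ^ 2 / 4)) * Kf β z ^ 2
        * (z.2 - z.1) ^ 2) * γ z) := by
        rw [integral_add g1 g2, integral_const_mul, integral_const_mul]
        ring
    _ ≤ ρ * C1 + 1 / δ' ^ 2 * (C2 * ((2 * vH l (2 + H) n : ℝ≥0) : ℝ)) := by
        refine add_le_add (mul_le_mul_of_nonneg_left (hC1 n).2 hρ0)
          (mul_le_mul_of_nonneg_left (hC2 n).2 (by positivity))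
    _ ≤ ε := by
        have h1 : 1 / δ' ^ 2 * (C2 * ((2 * vH l (2 + H) n : ℝ≥0) : ℝ)) =
          C2 / δ' ^ 2 * ((2 * vH l (2 + H) n : ℝ≥0) : ℝ) := by ring
        rw [h1, mul_comm ρ C1]
        linarith

private theorem ew_e4 : Integrable (fun x : ℝ => Real.exp (-x ^ 2 / 4)) := by
  have h2 := (integrable_exp_neg_mul_sq (b := 1 / 4) (by norm_num))
  refine h2.congr (ae_of_all _ fun x => ?_)
  show Real.exp (-(1 / 4) * x ^ 2) = Real.exp (-x ^ 2 / 4)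
  congr 1
  ring

private theorem ew_G (hH : 0 < H) (hl : 0 < l) : ∃ C : ℝ, 0 ≤ C ∧ ∀ n : ℕ,
      Integrable (fun z : ℝ × ℝ => ((Real.exp (-z.1 ^ 2 / 4) + Real.exp (-z.2 ^ 2 / 4))
        * ((z.2 - z.1) ^ 2 * (1 + (z.2 - z.1) ^ 2))) *
          gaussianPDFReal 0 (2 * vH l (2 + H) n) (z.2 - z.1)) ∧
      ∫ z : ℝ × ℝ, ((Real.exp (-z.1 ^ 2 / 4) + Real.exp (-z.2 ^ 2 / 4))
        * ((z.2 - z.1) ^ 2 * (1 + (z.2 - z.1) ^ 2))) *
          gaussianPDFReal 0 (2 * vH l (2 + H) n) (z.2 - z.1)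
        ≤ C * (vH l (2 + H) n : ℝ) := by
  set g : ℝ := ∫ x : ℝ, Real.exp (-x ^ 2 / 4) with hg
  have hg0 : 0 ≤ g := integral_nonneg fun x => (Real.exp_pos _).le
  have hm : Measurable (fun z : ℝ × ℝ => (Real.exp (-z.1 ^ 2 / 4) + Real.exp (-z.2 ^ 2 / 4))
        * ((z.2 - z.1) ^ 2 * (1 + (z.2 - z.1) ^ 2))) := by fun_prop
  have hb : ∀ h : ℝ, Integrable (fun x => (fun z : ℝ × ℝ =>
      (Real.exp (-z.1 ^ 2 / 4) + Real.exp (-z.2 ^ 2 / 4))
        * ((z.2 - z.1) ^ 2 * (1 + (z.2 - z.1) ^ 2))) (x, x + h)) ∧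
      ∫ x, (fun z : ℝ × ℝ => (Real.exp (-z.1 ^ 2 / 4) + Real.exp (-z.2 ^ 2 / 4))
        * ((z.2 - z.1) ^ 2 * (1 + (z.2 - z.1) ^ 2))) (x, x + h)
        ≤ (4 * g) * |h| ^ (2 : ℝ) * (1 + |h| ^ 4) := by
    intro h
    have e : (fun x => (fun z : ℝ × ℝ => (Real.exp (-z.1 ^ 2 / 4) + Real.exp (-z.2 ^ 2 / 4))
        * ((z.2 - z.1) ^ 2 * (1 + (z.2 - z.1) ^ 2))) (x, x + h)) =
        fun x => (Real.exp (-x ^ 2 / 4) + Real.exp (-(x + h) ^ 2 / 4)) *
          (h ^ 2 * (1 + h ^ 2)) := by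
      funext x
      show (Real.exp (-x ^ 2 / 4) + Real.exp (-(x + h) ^ 2 / 4))
        * ((x + h - x) ^ 2 * (1 + (x + h - x) ^ 2)) = _
      rw [add_sub_cancel_left]
    have i2 : Integrable (fun x : ℝ => Real.exp (-(x + h) ^ 2 / 4)) := ew_e4.comp_add_right h
    have e2 : ∫ x : ℝ, Real.exp (-(x + h) ^ 2 / 4) = g :=
      integral_add_right_eq_self (fun x : ℝ => Real.exp (-x ^ 2 / 4)) h
    rw [e]
    refine ⟨(ew_e4.add i2).mul_const _, ?_⟩
    rw [integral_mul_const, integral_add ew_e4 i2, e2, ← hg, Real.rpow_two, sq_abs]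
    have h4 : |h| ^ 4 = h ^ 4 := by
      rw [show (4 : ℕ) = 2 * 2 from rfl, pow_mul, sq_abs, ← pow_mul]
    rw [h4]
    have h5 : h ^ 2 * (1 + h ^ 2) ≤ 2 * (h ^ 2 * (1 + h ^ 4)) := by
      have h6 : 1 + h ^ 2 ≤ 2 * (1 + h ^ 4) := by nlinarith [sq_nonneg (h ^ 2 - 1), sq_nonneg h]
      nlinarith [mul_le_mul_of_nonneg_left h6 (sq_nonneg h)]
    calc (g + g) * (h ^ 2 * (1 + h ^ 2)) ≤ (g + g) * (2 * (h ^ 2 * (1 + h ^ 4))) :=
          mul_le_mul_of_nonneg_left h5 (by linarith)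
      _ = _ := by ring
  have hvpos : ∀ n, (0 : ℝ) < ((2 * vH l (2 + H) n : ℝ≥0) : ℝ) := fun n =>
    NNReal.coe_pos.mpr (ew_two_pos hl H n)
  obtain ⟨C', hC'0, hC'⟩ := ew_bdd (b := 2) (C := 4 * g) (L := 1) (by norm_num) hm
    (fun z => by positivity) hb (ew_two_pos hl H) (ew_two_lim hH hl)
    (N := fun n => 1 / ((2 * vH l (2 + H) n : ℝ≥0) : ℝ))
    (fun n => div_nonneg (by positivity) (hvpos n).le) (by
      refine tendsto_const_nhds.congr fun n => ?_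
      have h2 := hvpos n
      rw [div_self (by norm_num : (2 : ℝ) ≠ 0), Real.rpow_one]
      field_simp)
  refine ⟨2 * C', by positivity, fun n => ⟨(hC' n).1, ?_⟩⟩
  have h1 := (hC' n).2
  rw [div_mul_eq_mul_div, div_le_iff₀ (hvpos n), one_mul] at h1
  refine h1.trans (le_of_eq ?_)
  rw [NNReal.coe_mul, NNReal.coe_ofNat]
  ring

theorem mw_rho (hH : 0 < H) (hH1 : H < 1) (hl : 0 < l) :
    (∀ n, Integrable (fun z : ℝ × ℝ => (Real.exp (-z.1 ^ 2 / 4) + Real.exp (-z.2 ^ 2 / 4))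
        * ((vH l (2 + H) n : ℝ) ^ 2 * (z.2 - z.1) ^ 2 * (1 + (z.2 - z.1) ^ 2))
        * gaussianPDFReal 0 (2 * vH l (2 + H) n) (z.2 - z.1))) ∧
    Tendsto (fun n : ℕ => ((n : ℝ) + 1) *
      ∫ z : ℝ × ℝ, (Real.exp (-z.1 ^ 2 / 4) + Real.exp (-z.2 ^ 2 / 4))
        * ((vH l (2 + H) n : ℝ) ^ 2 * (z.2 - z.1) ^ 2 * (1 + (z.2 - z.1) ^ 2))
        * gaussianPDFReal 0 (2 * vH l (2 + H) n) (z.2 - z.1)) atTop (𝓝 0) := by
  obtain ⟨C, hC0, hC⟩ := ew_G hH hl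
  have e : ∀ n, (fun z : ℝ × ℝ => (Real.exp (-z.1 ^ 2 / 4) + Real.exp (-z.2 ^ 2 / 4))
        * ((vH l (2 + H) n : ℝ) ^ 2 * (z.2 - z.1) ^ 2 * (1 + (z.2 - z.1) ^ 2))
        * gaussianPDFReal 0 (2 * vH l (2 + H) n) (z.2 - z.1)) =
      fun z : ℝ × ℝ => (vH l (2 + H) n : ℝ) ^ 2 *
        (((Real.exp (-z.1 ^ 2 / 4) + Real.exp (-z.2 ^ 2 / 4))
        * ((z.2 - z.1) ^ 2 * (1 + (z.2 - z.1) ^ 2))) *
          gaussianPDFReal 0 (2 * vH l (2 + H) n) (z.2 - z.1)) := by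
    intro n
    funext z
    ring
  refine ⟨fun n => ?_, ?_⟩
  · rw [e n]
    exact (hC n).1.const_mul _
  · have hlim : Tendsto (fun n => C * l ^ (2 * (2 + H)) * (vH l (2 + H) n : ℝ) ^ (1 - H)) atTop
        (𝓝 0) := by
      have h1 := (NNReal.continuous_coe.tendsto 0).comp (vH_lim hl (by linarith : 0 < 2 + H))
      rw [NNReal.coe_zero] at h1
      have h2 := h1.rpow_const (p := 1 - H) (Or.inr (by linarith))
      rw [Real.zero_rpow (by linarith)] at h2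
      have h3 := h2.const_mul (C * l ^ (2 * (2 + H)))
      rw [mul_zero] at h3
      exact h3
    refine squeeze_zero (fun n => ?_) (fun n => ?_) hlim
    · exact mul_nonneg (by positivity) (integral_nonneg fun z =>
        mul_nonneg (by positivity) (gaussianPDFReal_nonneg _ _ _))
    · simp only [e n]
      rw [integral_const_mul]
      have hv : (0 : ℝ) < vH l (2 + H) n := NNReal.coe_pos.mpr (vH_pos hl _ n)
      have h1 : (vH l (2 + H) n : ℝ) ^ 3 =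
          (vH l (2 + H) n : ℝ) ^ (2 + H) * (vH l (2 + H) n : ℝ) ^ (1 - H) := by
        rw [← Real.rpow_add hv]
        have : 2 + H + (1 - H) = ((3 : ℕ) : ℝ) := by
          push_cast
          ring
        rw [this, Real.rpow_natCast]
      calc ((n : ℝ) + 1) * ((vH l (2 + H) n : ℝ) ^ 2 * ∫ z : ℝ × ℝ,
          ((Real.exp (-z.1 ^ 2 / 4) + Real.exp (-z.2 ^ 2 / 4))
        * ((z.2 - z.1) ^ 2 * (1 + (z.2 - z.1) ^ 2))) *
          gaussianPDFReal 0 (2 * vH l (2 + H) n) (z.2 - z.1))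
          ≤ ((n : ℝ) + 1) * ((vH l (2 + H) n : ℝ) ^ 2 * (C * (vH l (2 + H) n : ℝ))) :=
            mul_le_mul_of_nonneg_left (mul_le_mul_of_nonneg_left (hC n).2 (sq_nonneg _))
              (by positivity)
        _ = C * (((n : ℝ) + 1) * (vH l (2 + H) n : ℝ) ^ 3) := by ring
        _ = C * ((((n : ℝ) + 1) * (vH l (2 + H) n : ℝ) ^ (2 + H)) *
            (vH l (2 + H) n : ℝ) ^ (1 - H)) := by
            rw [h1]
            ring
        _ = C * l ^ (2 * (2 + H)) * (vH l (2 + H) n : ℝ) ^ (1 - H) := by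
            rw [vH_pow hl (by linarith : 0 < 2 + H) n]
            ring

theorem mw_lim (hM : MPot H φ β D V) (hH : 0 < H) (hH1 : H < 1) (hl : 0 < l)
    (hW : IncM β m A (vH l (2 + H)) W) :
    Tendsto (fun n : ℕ => ((n : ℝ) + 1) * ∫ z : ℝ × ℝ, W n z) atTop
      (𝓝 (l ^ (2 * (2 + H)) * (kap H * ∫ x, m x * φ x ^ 2) * gmom (4 + 2 * H))) := by
  have hA0 : 0 ≤ A := by
    have h := (abs_nonneg _).trans (hW.mbdd 0)
    simpa using h
  have hmain := mw_main hM hH hl hW.mcont hW.mbdd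
  obtain ⟨C, hC⟩ := mw_bdd hM hH hl
  obtain ⟨hR, hR0⟩ := mw_rho hH hH1 hl
  have hC0 : 0 ≤ C := by
    refine le_trans ?_ (hC 0).2
    exact mul_nonneg (by positivity) (integral_nonneg fun z =>
      mul_nonneg (by positivity) (gaussianPDFReal_nonneg _ _ _))
  have hdiff : Tendsto (fun n : ℕ => ((n : ℝ) + 1) * (∫ z : ℝ × ℝ, W n z)
      - ((n : ℝ) + 1) * ∫ z : ℝ × ℝ, m z.1 * Kf β z ^ 2
      * gaussianPDFReal 0 (vH l (2 + H) n) (z.2 - z.1)) atTop (𝓝 0) := by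
    rw [Metric.tendsto_nhds]
    intro ε hε
    obtain ⟨A', hA'⟩ := mw_far hM hH hl (ε := ε / (4 * (3 * A + 1))) (by positivity)
    set X : ℝ := Real.exp (A' ^ 2 / 4) with hX
    have hX0 : 0 < X := Real.exp_pos _
    set η : ℝ := ε / (4 * X * (C + 1)) with hη
    have hη0 : 0 < η := by positivity
    obtain ⟨δ, Λ, hδ, hloc⟩ := hW.loc A' η hη0
    have hlast : Tendsto (fun n : ℕ => (A + |Λ| * X) * (((n : ℝ) + 1) *
      ∫ z : ℝ × ℝ, (Real.exp (-z.1 ^ 2 / 4) + Real.exp (-z.2 ^ 2 / 4))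
        * ((vH l (2 + H) n : ℝ) ^ 2 * (z.2 - z.1) ^ 2 * (1 + (z.2 - z.1) ^ 2))
        * gaussianPDFReal 0 (2 * vH l (2 + H) n) (z.2 - z.1))) atTop (𝓝 0) := by
      have := hR0.const_mul (A + |Λ| * X)
      rwa [mul_zero] at this
    filter_upwards [hloc, hW.bdd, hA' δ hδ, hlast.eventually (gt_mem_nhds (by linarith : 0 < ε / 4))]
      with n h1 h2 h3 h4
    set γ : ℝ × ℝ → ℝ := fun z => gaussianPDFReal 0 (2 * vH l (2 + H) n) (z.2 - z.1) with hγ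
    set γ1 : ℝ × ℝ → ℝ := fun z => gaussianPDFReal 0 (vH l (2 + H) n) (z.2 - z.1) with hγ1
    set v : ℝ := (vH l (2 + H) n : ℝ) with hv
    have hγ0 : ∀ z, 0 ≤ γ z := fun z => gaussianPDFReal_nonneg _ _ _
    have hγ10 : ∀ z, 0 ≤ γ1 z := fun z => gaussianPDFReal_nonneg _ _ _
    have hγ2 : ∀ z, γ1 z ≤ 2 * γ z := fun z => gau_two (vH_pos hl (2 + H) n) _
    set E : ℝ × ℝ → ℝ := fun z => Real.exp (-z.1 ^ 2 / 4) + Real.exp (-z.2 ^ 2 / 4) with hE
    have hE0 : ∀ z, 0 ≤ E z := fun z => by positivity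
    set K : ℝ × ℝ → ℝ := fun z => E z * Kf β z ^ 2 * γ z with hK
    set R : ℝ × ℝ → ℝ := fun z => E z * (v ^ 2 * (z.2 - z.1) ^ 2 * (1 + (z.2 - z.1) ^ 2)) * γ z
      with hRd
    have hK0 : ∀ z, 0 ≤ K z := fun z =>
      mul_nonneg (mul_nonneg (hE0 z) (sq_nonneg _)) (hγ0 z)
    have hRR0 : ∀ z, 0 ≤ R z := fun z => by
      have h5 : 0 ≤ v := (vH l (2 + H) n).coe_nonneg
      exact mul_nonneg (mul_nonneg (hE0 z) (by positivity)) (hγ0 z)
    have iK : Integrable K := (hC n).1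
    have iR : Integrable R := hR n
    set F : Set (ℝ × ℝ) := {z : ℝ × ℝ | A' < |z.1| ∨ δ < |z.2 - z.1|} with hF
    have hFm : MeasurableSet F := ew_farS A' δ
    have iF : Integrable (F.indicator K) := iK.indicator hFm
    -- integrability of `W n`
    have hWb : ∀ z, |W n z| ≤ A * K z + A * R z := by
      intro z
      refine (h2 z.1 z.2).trans (le_of_eq ?_)
      simp only [hK, hRd, hE, hγ]
      ring
    have iW : Integrable (W n) :=
      ((iK.const_mul A).add (iR.const_mul A)).mono' (hW.meas n).aestronglyMeasurable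
        (ae_of_all _ hWb)
    have hmb : ∀ z : ℝ × ℝ, |m z.1 * Kf β z ^ 2 * γ1 z| ≤ 2 * A * K z := by
      intro z
      rw [abs_mul, abs_mul, abs_of_nonneg (hγ10 z), abs_of_nonneg (sq_nonneg (Kf β z))]
      have h5 : |m z.1| ≤ A * E z := by
        refine (hW.mbdd z.1).trans (mul_le_mul_of_nonneg_left ?_ hA0)
        simp only [hE]
        have := (Real.exp_pos (-z.2 ^ 2 / 4)).le
        linarith
      calc |m z.1| * Kf β z ^ 2 * γ1 z ≤ (A * E z) * Kf β z ^ 2 * (2 * γ z) := by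
            refine mul_le_mul (mul_le_mul_of_nonneg_right h5 (sq_nonneg _)) (hγ2 z) (hγ10 z) ?_
            exact mul_nonneg (mul_nonneg hA0 (hE0 z)) (sq_nonneg _)
        _ = 2 * A * K z := by
            simp only [hK]
            ring
    have im : Integrable (fun z : ℝ × ℝ => m z.1 * Kf β z ^ 2 * γ1 z) := by
      refine (iK.const_mul (2 * A)).mono' ?_ (ae_of_all _ hmb)
      have m1 : Measurable (fun z : ℝ × ℝ => m z.1 * Kf β z ^ 2) :=
        (hW.mcont.measurable.comp measurable_fst).mul ((kf_meas hM).pow_const 2)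
      have m2 : Measurable γ1 :=
        (measurable_gaussianPDFReal _ _).comp (measurable_snd.sub measurable_fst)
      exact (m1.mul m2).aestronglyMeasurable
    -- pointwise bound
    have hpt : ∀ z, |W n z - m z.1 * Kf β z ^ 2 * γ1 z| ≤
        3 * A * F.indicator K z + η * X * K z + (A + |Λ| * X) * R z := by
      intro z
      have hKz := hK0 z
      have hRz := hRR0 z
      have hΛ := abs_nonneg Λ
      by_cases hz : z ∈ F
      · rw [indicator_of_mem hz]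
        have h5 := abs_sub (W n z) (m z.1 * Kf β z ^ 2 * γ1 z)
        have h6 := hWb z
        have h7 := hmb z
        have h8 : 0 ≤ η * X * K z := by positivity
        have h9 : 0 ≤ |Λ| * X * R z := by positivity
        have h10 : (A + |Λ| * X) * R z = A * R z + |Λ| * X * R z := by ring
        rw [h10]
        linarith
      · rw [indicator_of_notMem hz, mul_zero, zero_add]
        have hz' : ¬ (A' < |z.1| ∨ δ < |z.2 - z.1|) := hz
        rw [not_or, not_lt, not_lt] at hz'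
        have h5 := h1 z.1 z.2 hz'.1 hz'.2
        have h6 : 1 ≤ X * E z := by
          have e1 : X * Real.exp (-z.1 ^ 2 / 4) = Real.exp (A' ^ 2 / 4 + -z.1 ^ 2 / 4) := by
            rw [hX, ← Real.exp_add]
          have e2 : 1 ≤ X * Real.exp (-z.1 ^ 2 / 4) := by
            rw [e1]
            apply Real.one_le_exp
            have h7 : z.1 ^ 2 ≤ A' ^ 2 := by
              rw [← sq_abs z.1]
              exact pow_le_pow_left₀ (abs_nonneg _) hz'.1 2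
            linarith
          have e3 : 0 ≤ X * Real.exp (-z.2 ^ 2 / 4) := by positivity
          simp only [hE]
          rw [mul_add]
          linarith
        have h7 : η * (Kf β z ^ 2 * γ z) ≤ η * X * K z := by
          have e1 : 0 ≤ Kf β z ^ 2 * γ z := mul_nonneg (sq_nonneg _) (hγ0 z)
          calc η * (Kf β z ^ 2 * γ z) = η * (1 * (Kf β z ^ 2 * γ z)) := by ring
            _ ≤ η * ((X * E z) * (Kf β z ^ 2 * γ z)) := by gcongr
            _ = η * X * K z := by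
                simp only [hK]
                ring
        have h8 : Λ * (v ^ 2 * (z.2 - z.1) ^ 2 * γ z) ≤ |Λ| * X * R z := by
          have e1 : 0 ≤ v ^ 2 * (z.2 - z.1) ^ 2 * γ z :=
            mul_nonneg (by positivity) (hγ0 z)
          have e2 : v ^ 2 * (z.2 - z.1) ^ 2 * γ z ≤
              v ^ 2 * (z.2 - z.1) ^ 2 * (1 + (z.2 - z.1) ^ 2) * γ z := by
            have e3 : 0 ≤ v ^ 2 * (z.2 - z.1) ^ 2 * (z.2 - z.1) ^ 2 * γ z :=
              mul_nonneg (by positivity) (hγ0 z)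
            linarith
          have e4 : 0 ≤ v ^ 2 * (z.2 - z.1) ^ 2 * (1 + (z.2 - z.1) ^ 2) * γ z := e1.trans e2
          calc Λ * (v ^ 2 * (z.2 - z.1) ^ 2 * γ z) ≤ |Λ| * (v ^ 2 * (z.2 - z.1) ^ 2 * γ z) :=
                mul_le_mul_of_nonneg_right (le_abs_self Λ) e1
            _ ≤ |Λ| * (1 * (v ^ 2 * (z.2 - z.1) ^ 2 * (1 + (z.2 - z.1) ^ 2) * γ z)) := by
                rw [one_mul]
                exact mul_le_mul_of_nonneg_left e2 hΛ
            _ ≤ |Λ| * ((X * E z) * (v ^ 2 * (z.2 - z.1) ^ 2 * (1 + (z.2 - z.1) ^ 2) * γ z)) := by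
                gcongr
            _ = |Λ| * X * R z := by
                simp only [hRd]
                ring
        have h9 : 0 ≤ A * R z := mul_nonneg hA0 hRz
        refine h5.trans ?_
        have h10 : (η * Kf β (z.1, z.2) ^ 2 + Λ * (v ^ 2 * (z.2 - z.1) ^ 2)) *
            gaussianPDFReal 0 (2 * vH l (2 + H) n) (z.2 - z.1) =
            η * (Kf β z ^ 2 * γ z) + Λ * (v ^ 2 * (z.2 - z.1) ^ 2 * γ z) := by
          simp only [hγ]
          ring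
        have h11 : (A + |Λ| * X) * R z = A * R z + |Λ| * X * R z := by ring
        rw [h10, h11]
        linarith
    have hn1 : (0 : ℝ) ≤ (n : ℝ) + 1 := by positivity
    have hint : |∫ z : ℝ × ℝ, (W n z - m z.1 * Kf β z ^ 2 * γ1 z)| ≤
        3 * A * (∫ z, F.indicator K z) + η * X * (∫ z, K z) + (A + |Λ| * X) * ∫ z, R z := by
      refine (abs_integral_le_integral_abs).trans ?_
      refine (integral_mono (iW.sub im).abs
        (((iF.const_mul (3 * A)).add (iK.const_mul (η * X))).add (iR.const_mul (A + |Λ| * X)))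
        hpt).trans (le_of_eq ?_)
      rw [integral_add' ((iF.const_mul (3 * A)).add (iK.const_mul (η * X)))
        (iR.const_mul (A + |Λ| * X)), integral_add' (iF.const_mul (3 * A)) (iK.const_mul (η * X)),
        integral_const_mul, integral_const_mul, integral_const_mul]
    rw [integral_sub iW im] at hint
    rw [Real.dist_eq, sub_zero, ← mul_sub, abs_mul, abs_of_nonneg hn1]
    have b1 : 3 * A * (((n : ℝ) + 1) * ∫ z, F.indicator K z) ≤ ε / 4 := by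
      rw [integral_indicator hFm]
      calc 3 * A * (((n : ℝ) + 1) * ∫ z in F, K z) ≤ 3 * A * (ε / (4 * (3 * A + 1))) :=
            mul_le_mul_of_nonneg_left h3 (by positivity)
        _ ≤ (3 * A + 1) * (ε / (4 * (3 * A + 1))) :=
            mul_le_mul_of_nonneg_right (by linarith) (by positivity)
        _ = ε / 4 := by
            field_simp
    have b2 : η * X * (((n : ℝ) + 1) * ∫ z, K z) ≤ ε / 4 := by
      calc η * X * (((n : ℝ) + 1) * ∫ z, K z) ≤ η * X * C :=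
            mul_le_mul_of_nonneg_left (hC n).2 (by positivity)
        _ ≤ η * X * (C + 1) := mul_le_mul_of_nonneg_left (by linarith) (by positivity)
        _ = ε / 4 := by
            rw [hη]
            field_simp
    have b3 : (A + |Λ| * X) * (((n : ℝ) + 1) * ∫ z, R z) < ε / 4 := h4
    calc ((n : ℝ) + 1) * |(∫ z : ℝ × ℝ, W n z) - ∫ z : ℝ × ℝ, m z.1 * Kf β z ^ 2 * γ1 z|
        ≤ ((n : ℝ) + 1) * (3 * A * (∫ z, F.indicator K z) + η * X * (∫ z, K z)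
          + (A + |Λ| * X) * ∫ z, R z) := mul_le_mul_of_nonneg_left hint hn1
      _ = 3 * A * (((n : ℝ) + 1) * ∫ z, F.indicator K z) + η * X * (((n : ℝ) + 1) * ∫ z, K z)
          + (A + |Λ| * X) * (((n : ℝ) + 1) * ∫ z, R z) := by ring
      _ < ε := by linarith
  have h := hdiff.add hmain
  rw [zero_add] at h
  refine h.congr fun n => ?_
  ring

end Pool.Agent.Lib.MP_e19099_pr
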