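import Pool.Agent.Lib.MP_e19099_pr.ESetup
import Pool.Agent.Lib.MP_e19099_pr.CRwSetup
import Pool.Agent.Lib.MP_e19099_pr.BMain

/-!
# Definitions for the final statements

Everything is indexed so that the dimension is `n + 1`.
-/

set_option autoImplicit false

open MeasureTheory ProbabilityTheory Filter Set
open scoped NNReal Topology ENNReal

namespace Pool.Agent.Lib.MP_e19099_pr

/-- The càdlàg path `t ↦ x_{⌊r t⌋}`. -/
noncomputable def sped (r : ℝ) (x : ℕ → ℝ) : D :=
  ⟨fun t => x ⌊r * (t : ℝ)⌋₊, by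
    have h := stepPath_cadlag r⁻¹ x
    simpa [div_eq_mul_inv, mul_comm] using h⟩

/-- A process with continuous paths as a random element of the Skorokhod space. -/
def IsLangevin.path {Ω : Type*} [MeasurableSpace Ω] {Q : Measure Ω} {U : ℝ≥0 → Ω → ℝ}
    {π : Measure ℝ} {h : ℝ} (hU : IsLangevin Q U π h) (ω : Ω) : D :=
  ⟨fun t => U t ω, cont_cadlag (hU.cont ω)⟩

/-- The proposal variance `l² d^{-1/a}` in dimension `d = n + 1`. -/
noncomputable def propVar (l a : ℝ) (n : ℕ) : ℝ≥0 :=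
  Real.toNNReal (l ^ 2 * ((n : ℝ) + 1) ^ (-(1 / a)))

/-- The speed `2 l² Φ(-σ/2)`, where `σ = √s`. -/
noncomputable def speed (l s : ℝ) : ℝ := 2 * l ^ 2 * cdf (gaussianReal 0 1) (-√s / 2)

/-- The statement that for the one dimensional target `exp V` (unnormalized), proposal densities
`q n` in dimension `n + 1`, time speed-up `(n+1)^{1/a}` and speed `h`: Metropolis-Hastings kernels
exist, a Langevin diffusion for the target with speed `h` exists, and for all stationary
Metropolis-Hastings chains and all Langevin diffusions with speed `h` the sped-up first coordinate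
converges weakly in the Skorokhod space to the Langevin diffusion. -/
def DiffusionLimit.{u, v} (V : ℝ → ℝ) (q : ∀ n : ℕ, (Fin (n + 1) → ℝ) → (Fin (n + 1) → ℝ) → ℝ)
    (a h : ℝ) : Prop :=
  (∀ n, ∃ K : Kernel (Fin (n + 1) → ℝ) (Fin (n + 1) → ℝ),
    IsMH volume (fun x => ∏ i, Real.exp (V (x i))) (q n) K) ∧
  (∃ Q : Measure C(ℝ≥0, ℝ), IsLangevin Q (fun t y => y t) (target V) h) ∧
  ∀ (Ω : ℕ → Type u) (_ : ∀ n, MeasurableSpace (Ω n)) (P : ∀ n, Measure (Ω n))
    (X : ∀ n, ℕ → Ω n → Fin (n + 1) → ℝ)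
    (K : ∀ n : ℕ, Kernel (Fin (n + 1) → ℝ) (Fin (n + 1) → ℝ)),
    (∀ n, IsMH volume (fun x => ∏ i, Real.exp (V (x i))) (q n) (K n)) →
    (∀ n, IsChain (P n) (X n) (Measure.pi fun _ => target V) (K n)) →
    ∀ (Ω' : Type v) (_ : MeasurableSpace Ω') (Q : Measure Ω') (U : ℝ≥0 → Ω' → ℝ)
      (hU : IsLangevin Q U (target V) h),
      TendstoWeakly
        (fun n => (P n).map fun ω => sped (((n : ℝ) + 1) ^ (1 / a)) fun k => X n k ω 0)
        (Q.map hU.path)

end Pool.Agent.Lib.MP_e19099_pr
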