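import Pool.Agent.Lib.MP_e19099_pr.FDefs

/-!
# Final assembly

`b_limit`: `nrm_dens`, `target_eq`, `isMH_nrm`; kernels by `mh_kernel_exists`; `b_setup`, `abs_exists`, `abs_conv`.  `sp (tauH a n) (fun x => x 0) (X n) = sped ((n+1)^{1/a}) …` since
`t / (n+1)^{-1/a} = (n+1)^{1/a} t`; `toD (pathOf hU ω) = hU.path ω` by definition.
`speed l (σ²) = spd l σ` for `σ > 0`.
-/

set_option autoImplicit false

open MeasureTheory ProbabilityTheory Filter Set
open scoped NNReal Topology ENNReal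

namespace Pool.Agent.Lib.MP_e19099_pr

universe u v

private theorem ff_speed {l σ : ℝ} (hσ : 0 < σ) : spd l σ = speed l (σ ^ 2) := by
  unfold spd speed abar
  rw [Real.sqrt_sq hσ.le]
  ring

private theorem ff_sp {Ω : Type*} {E : Type*} {a : ℝ} (n : ℕ) (φ : E → ℝ) (X : ℕ → Ω → E)
    (ω : Ω) : sp (tauH a n) φ X ω = sped (((n : ℝ) + 1) ^ (1 / a)) fun k => φ (X k ω) := by
  apply Subtype.ext
  funext t
  show φ (X ⌊(t : ℝ) / tauH a n⌋₊ ω) = φ (X ⌊((n : ℝ) + 1) ^ (1 / a) * (t : ℝ)⌋₊ ω)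
  have h1 : (t : ℝ) / tauH a n = ((n : ℝ) + 1) ^ (1 / a) * (t : ℝ) := by
    unfold tauH
    rw [Real.rpow_neg (by positivity), div_inv_eq_mul, mul_comm]
  rw [h1]

theorem b_limit {V : ℝ → ℝ} (hc : Continuous V) (hi : Integrable fun x => Real.exp (V x))
    {q : ℕ → ℝ → ℝ → ℝ} {l σ a : ℝ} (ha : 0 < a) (B : BSetup (nrm V) q l σ (tauH a)) :
    DiffusionLimit.{u, v} V (fun n x y => ∏ i, q n (x i) (y i)) a (speed l (σ ^ 2)) := by
  have _ := ha
  have hd : Dens (nrm V) := nrm_dens hc hi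
  have htgt : target V = tgt (nrm V) := target_eq hc hi
  have hsp : spd l σ = speed l (σ ^ 2) := ff_speed B.σpos
  have hex : ∀ n : ℕ, ∃ K : Kernel (Fin (n + 1) → ℝ) (Fin (n + 1) → ℝ),
      IsMH volume (dN (nrm V)) (qN (q n)) K := fun n => mh_kernel_exists hd (B.prop n)
  refine ⟨fun n => ?_, ?_, ?_⟩
  · obtain ⟨K, hK⟩ := hex n
    exact ⟨K, (isMH_nrm hc hi).2 hK⟩
  · choose K hK using hex
    obtain ⟨Q, -, hQ⟩ := abs_exists (b_setup B hK)
    refine ⟨Q, ?_⟩
    rw [htgt, ← hsp]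
    exact hQ
  · intro Ω mΩ P X K hK hX Ω' mΩ' Q U hU
    have hK' : ∀ n, IsMH volume (dN (nrm V)) (qN (q n)) (K n) := fun n =>
      (isMH_nrm hc hi).1 (hK n)
    have hX' : ∀ n, IsChain (P n) (X n) (pw (tgt (nrm V)) (n + 1)) (K n) := by
      intro n
      have h := hX n
      rw [htgt] at h
      exact h
    have hU' : IsLangevin Q U (tgt (nrm V)) (spd l σ) := by
      rw [← htgt, hsp]
      exact hU
    have h := abs_conv (b_setup B hK') hX' hU'
    have e1 : (fun n => (P n).map (sp (tauH a n) (fun x : Fin (n + 1) → ℝ => x 0) (X n))) =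
        fun n => (P n).map fun ω => sped (((n : ℝ) + 1) ^ (1 / a)) fun k => X n k ω 0 := by
      funext n
      congr 1
      funext ω
      exact ff_sp n _ (X n) ω
    rw [e1] at h
    exact h

/-- RWM for a good path -/
theorem rwm_good {H l : ℝ} (hH : 0 < H) (hH1 : H < 1) (hl : 0 < l) {b : ℝ → ℝ} (hb : Good H b) :
    (Integrable fun x => Real.exp (b x - x ^ 2 / 2)) ∧
    DiffusionLimit.{u, v} (fun x => b x - x ^ 2 / 2)
      (fun n x y => ∏ i, gaussianPDFReal (x i) (propVar l H n) (y i)) H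
      (speed l (l ^ (2 * H) * (2 ^ H * Real.Gamma (H + 1 / 2) / √Real.pi))) := by
  have hV := hb.vgood hH hH1
  refine ⟨hV.exp_int, ?_⟩
  have h := b_limit.{u, v} hV.cont hV.exp_int hH (rw_setup hH hH1 hl hV)
  have e1 : sgR H l ^ 2 = l ^ (2 * H) * (2 ^ H * Real.Gamma (H + 1 / 2) / √Real.pi) := by
    rw [sgR_sq hH hl, gmom_eq (by linarith)]
    have h1 : 2 * H / 2 = H := by ring
    have h2 : (2 * H + 1) / 2 = H + 1 / 2 := by ring
    rw [h1, h2]
  rw [e1] at h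
  exact h

/-- MALA for a good path -/
theorem mala_good {H l c : ℝ} (hH : 0 < H) (hH1 : H < 1) (hl : 0 < l) (hc : 0 < c) {b : ℝ → ℝ}
    (hb : Good H b) {V : ℝ → ℝ}
    (hV : ∀ x, V x = -x ^ 2 / 2 + ∫ u in (0 : ℝ)..x, b u * phic H c u * (x - u)) :
    (Integrable fun x => Real.exp (V x)) ∧
    DiffusionLimit.{u, v} V
      (fun n x y => ∏ i, gaussianPDFReal (x i + propVar l (2 + H) n / 2 * deriv V (x i))
        (propVar l (2 + H) n) (y i)) (2 + H)
      (speed l (l ^ (4 + 2 * H) * (2 ^ (H - 1) * Real.Gamma (H + 5 / 2) / √Real.pi)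
        * (H / (2 + 7 * H + 7 * H ^ 2 + 2 * H ^ 3)) * ∫ x, phic H c x ^ 2 ∂(target V))) := by
  have hVm : V = Vm H c b := funext hV
  have hM := hb.mpot hH hH1 hc
  rw [← hVm] at hM
  have hcont : Continuous V := continuous_iff_continuousAt.2 fun x => (hM.dV x).continuousAt
  have hd : Dens (nrm V) := nrm_dens hcont hM.exp_int
  refine ⟨hM.exp_int, ?_⟩
  have h := b_limit.{u, v} hcont hM.exp_int (by linarith : 0 < 2 + H) (m_setup hM hH hH1 hl)
  have e1 : sgM H l (phic H c) V ^ 2 =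
      l ^ (4 + 2 * H) * (2 ^ (H - 1) * Real.Gamma (H + 5 / 2) / √Real.pi)
        * (H / (2 + 7 * H + 7 * H ^ 2 + 2 * H ^ 3)) * ∫ x, phic H c x ^ 2 ∂(target V) := by
    rw [sgM_sq hM hH hl, gmom_eq (by linarith : 0 < 4 + 2 * H), kap_eq hH,
      target_eq hcont hM.exp_int, integral_tgt hd]
    have h1 : (4 + 2 * H) / 2 = 2 + H := by ring
    have h2 : (4 + 2 * H + 1) / 2 = H + 5 / 2 := by ring
    have h3 : 2 * (2 + H) = 4 + 2 * H := by ring
    have h4 : (2 : ℝ) ^ (2 + H) = 8 * 2 ^ (H - 1) := by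
      have : (2 : ℝ) + H = 3 + (H - 1) := by ring
      rw [this, Real.rpow_add (by norm_num)]
      norm_num
    have h5 : ∫ x, nrm V x * phic H c x ^ 2 = ∫ x, phic H c x ^ 2 * nrm V x := by
      refine integral_congr_ae (Eventually.of_forall fun x => ?_)
      simp only
      ring
    rw [h1, h2, h3, h4, h5]
    have h6 : (2 * H + 1) * (H + 1) * (H + 2) = 2 + 7 * H + 7 * H ^ 2 + 2 * H ^ 3 := by ring
    have h7 : H / (8 * (2 * H + 1) * (H + 1) * (H + 2)) =
        1 / 8 * (H / (2 + 7 * H + 7 * H ^ 2 + 2 * H ^ 3)) := by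
      rw [← h6]
      have : 8 * (2 * H + 1) * (H + 1) * (H + 2) = 8 * ((2 * H + 1) * (H + 1) * (H + 2)) := by
        ring
      rw [this, div_mul_div_comm, one_mul]
    rw [h7]
    ring
  rw [e1] at h
  have e2 : (fun (n : ℕ) (x y : Fin (n + 1) → ℝ) =>
      ∏ i, mq (Dm H c b) (vH l (2 + H) n) (x i) (y i)) =
      fun n x y => ∏ i, gaussianPDFReal (x i + propVar l (2 + H) n / 2 * deriv V (x i))
        (propVar l (2 + H) n) (y i) := by
    funext n x y
    refine Finset.prod_congr rfl fun i _ => ?_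
    rw [(hM.dV (x i)).deriv]
    rfl
  rw [e2] at h
  exact h

end Pool.Agent.Lib.MP_e19099_pr
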