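import Pool.Agent.Lib.MP_e19099_pr.Defs

/-!
# Replacing a random variable by a close one (task A25)

`ν` is tight: choose `R` with `ν {|x| > R} ≤ ε'`; `f` is uniformly continuous on `[-R-1, R+1]`: choose `η ≤ 1` with
`|f a - f b| ≤ ε'` for `a, b` there, `|a - b| ≤ η`.  Then
`E |f B - f A| ≤ ε' + 2C (P(|A| > R) + P(|B - A| > η)) ≤ ε' + 2C (ε' + δ/η⁴)`.
-/

set_option autoImplicit false

open MeasureTheory ProbabilityTheory Filter Set
open scoped NNReal Topology ENNReal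

namespace Pool.Agent.Lib.MP_e19099_pr

/-- `f` is continuous and bounded by `C` -/
structure BC (C : ℝ) (f : ℝ → ℝ) : Prop where
  cont : Continuous f
  bdd : ∀ x, |f x| ≤ C

universe u

private theorem Replace_tight (ν : Measure ℝ) [IsProbabilityMeasure ν] {ε : ℝ} (hε : 0 < ε) :
    ∃ R : ℝ, 0 ≤ R ∧ ν.real {x | R < |x|} ≤ ε := by
  have h1 : Tendsto (fun n : ℕ => ν {x : ℝ | (n : ℝ) < |x|}) atTop
      (𝓝 (ν (⋂ n : ℕ, {x : ℝ | (n : ℝ) < |x|}))) := by
    refine tendsto_measure_iInter_atTop ?_ ?_ ?_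
    · intro n
      exact (measurableSet_lt measurable_const measurable_id.abs).nullMeasurableSet
    · intro m n hmn x hx
      have hx' : (n : ℝ) < |x| := hx
      have hmn' : (m : ℝ) ≤ n := by exact_mod_cast hmn
      exact lt_of_le_of_lt hmn' hx'
    · exact ⟨0, measure_ne_top _ _⟩
  have h2 : (⋂ n : ℕ, {x : ℝ | (n : ℝ) < |x|}) = ∅ := by
    ext x
    simp only [mem_iInter, mem_ofPred_eq, mem_empty_iff_false, iff_false, not_forall, not_lt]
    exact exists_nat_ge |x|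
  rw [h2, measure_empty] at h1
  have h3 := (ENNReal.tendsto_nhds_zero.1 h1) (ENNReal.ofReal ε) (ENNReal.ofReal_pos.2 hε)
  obtain ⟨n, hn⟩ := h3.exists
  exact ⟨n, n.cast_nonneg, ENNReal.toReal_le_of_le_ofReal hε.le hn⟩

theorem rv_replace {C : ℝ} {f : ℝ → ℝ} (hf : BC C f) (ν : Measure ℝ) [IsProbabilityMeasure ν]
    {ε : ℝ} (hε : 0 < ε) :
    ∃ δ : ℝ, 0 < δ ∧ ∀ (Ω : Type u) [MeasurableSpace Ω] (P : Measure Ω) [IsProbabilityMeasure P]
      (A B : Ω → ℝ), Measurable A → Measurable B → P.map A = ν →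
      Integrable (fun ω => (B ω - A ω) ^ 4) P → ∫ ω, (B ω - A ω) ^ 4 ∂P ≤ δ →
      ∫ ω, |f (B ω) - f (A ω)| ∂P ≤ ε := by
  have hC : 0 ≤ C := (abs_nonneg _).trans (hf.bdd 0)
  have hC1 : 0 < 1 + 4 * C := by positivity
  obtain ⟨ε', hε', hεε⟩ : ∃ ε' : ℝ, 0 < ε' ∧ ε' * (1 + 4 * C) = ε :=
    ⟨ε / (1 + 4 * C), by positivity, by field_simp⟩
  obtain ⟨R, hR0, hR⟩ := Replace_tight ν hε'
  have huc := (isCompact_Icc (a := -R - 1) (b := R + 1)).uniformContinuousOn_of_continuous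
    hf.cont.continuousOn
  obtain ⟨δ0, hδ0, hδ⟩ := Metric.uniformContinuousOn_iff.1 huc ε' hε'
  obtain ⟨η, hη0, hη1, hηδ⟩ : ∃ η : ℝ, 0 < η ∧ η ≤ 1 ∧ η < δ0 := by
    refine ⟨min 1 (δ0 / 2), by positivity, min_le_left _ _, ?_⟩
    have := min_le_right 1 (δ0 / 2)
    linarith
  refine ⟨ε' * η ^ 4, by positivity, ?_⟩
  intro Ω _ P _ A B hA hB hmap hint hle
  have hS : MeasurableSet {x : ℝ | R < |x|} := measurableSet_lt measurable_const measurable_id.abs
  have hAS : MeasurableSet (A ⁻¹' {x : ℝ | R < |x|}) := hA hS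
  have hPS : P.real (A ⁻¹' {x : ℝ | R < |x|}) ≤ ε' := by
    have h1 : P.real (A ⁻¹' {x : ℝ | R < |x|}) = ν.real {x : ℝ | R < |x|} := by
      rw [← hmap, measureReal_def, measureReal_def, Measure.map_apply hA hS]
    rw [h1]
    exact hR
  have hpt : ∀ ω, |f (B ω) - f (A ω)| ≤
      ε' + (A ⁻¹' {x : ℝ | R < |x|}).indicator (fun _ => 2 * C) ω
        + 2 * C / η ^ 4 * (B ω - A ω) ^ 4 := by
    intro ω
    have h2C : |f (B ω) - f (A ω)| ≤ 2 * C := by
      have h1 := hf.bdd (B ω)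
      have h2 := hf.bdd (A ω)
      calc |f (B ω) - f (A ω)| ≤ |f (B ω)| + |f (A ω)| := abs_sub _ _
        _ ≤ 2 * C := by linarith
    have hn1 : 0 ≤ (A ⁻¹' {x : ℝ | R < |x|}).indicator (fun _ => 2 * C) ω :=
      indicator_nonneg (fun _ _ => by positivity) _
    have hn2 : 0 ≤ 2 * C / η ^ 4 * (B ω - A ω) ^ 4 := by positivity
    by_cases h1 : R < |A ω|
    · rw [indicator_of_mem (s := A ⁻¹' {x : ℝ | R < |x|}) (a := ω) h1]
      linarith
    · by_cases h2 : η < |B ω - A ω|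
      · have h3 : 1 ≤ (B ω - A ω) ^ 4 / η ^ 4 := by
          rw [one_le_div (by positivity)]
          have h4 : (B ω - A ω) ^ 4 = |B ω - A ω| ^ 4 := by
            rw [← abs_pow, abs_of_nonneg (by positivity)]
          rw [h4]
          exact pow_le_pow_left₀ hη0.le h2.le 4
        have h5 : 2 * C ≤ 2 * C / η ^ 4 * (B ω - A ω) ^ 4 := by
          calc 2 * C = 2 * C * 1 := by ring
            _ ≤ 2 * C * ((B ω - A ω) ^ 4 / η ^ 4) := by gcongr
            _ = _ := by ring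
        linarith
      · rw [not_lt] at h1 h2
        have hA' : A ω ∈ Icc (-R - 1) (R + 1) := by
          have := abs_le.1 h1
          constructor <;> linarith [this.1, this.2]
        have hB' : B ω ∈ Icc (-R - 1) (R + 1) := by
          have e1 := abs_le.1 h1
          have e2 := abs_le.1 h2
          constructor <;> linarith [e1.1, e1.2, e2.1, e2.2]
        have h3 := hδ (B ω) hB' (A ω) hA' (by rw [Real.dist_eq]; linarith)
        rw [Real.dist_eq] at h3
        linarith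
  have hi1 : Integrable (fun _ : Ω => ε') P := integrable_const _
  have hi2 : Integrable ((A ⁻¹' {x : ℝ | R < |x|}).indicator (fun _ => 2 * C)) P :=
    (integrable_const _).indicator hAS
  have hi3 : Integrable (fun ω => 2 * C / η ^ 4 * (B ω - A ω) ^ 4) P := hint.const_mul _
  have hi0 : Integrable (fun ω => |f (B ω) - f (A ω)|) P := by
    refine Integrable.of_bound (C := 2 * C) ?_ ?_
    · exact ((hf.cont.measurable.comp hB).sub (hf.cont.measurable.comp hA)).abs.aestronglyMeasurable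
    · refine Eventually.of_forall (fun ω => ?_)
      rw [Real.norm_eq_abs, abs_abs]
      have h1 := hf.bdd (B ω)
      have h2 := hf.bdd (A ω)
      calc |f (B ω) - f (A ω)| ≤ |f (B ω)| + |f (A ω)| := abs_sub _ _
        _ ≤ 2 * C := by linarith
  have hmono := integral_mono hi0 ((hi1.add hi2).add hi3) hpt
  refine hmono.trans ?_
  rw [integral_add' (hi1.add hi2) hi3, integral_add' hi1 hi2, integral_indicator_const _ hAS,
      integral_const_mul, integral_const]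
  simp only [probReal_univ, smul_eq_mul, one_mul]
  have e2 : P.real (A ⁻¹' {x : ℝ | R < |x|}) * (2 * C) ≤ ε' * (2 * C) := by gcongr
  have e3 : 2 * C / η ^ 4 * ∫ ω, (B ω - A ω) ^ 4 ∂P ≤ 2 * C / η ^ 4 * (ε' * η ^ 4) := by gcongr
  have e4 : 2 * C / η ^ 4 * (ε' * η ^ 4) = ε' * (2 * C) := by
    field_simp
  rw [e4] at e3
  rw [← hεε]
  linarith

private theorem Replace_prod {ι : Type*} (T : Finset ι) {a b : ι → ℝ}
    (ha : ∀ t ∈ T, |a t| ≤ 1) (hb : ∀ t ∈ T, |b t| ≤ 1) :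
    |(∏ t ∈ T, a t) - ∏ t ∈ T, b t| ≤ ∑ t ∈ T, |a t - b t| ∧ |∏ t ∈ T, b t| ≤ 1 := by
  classical
  induction T using Finset.induction_on with
  | empty => simp
  | insert t T ht ih =>
    obtain ⟨ih1, ih2⟩ := ih (fun s hs => ha s (Finset.mem_insert_of_mem hs))
      (fun s hs => hb s (Finset.mem_insert_of_mem hs))
    have h1 := ha t (Finset.mem_insert_self _ _)
    have h2 := hb t (Finset.mem_insert_self _ _)
    rw [Finset.prod_insert ht, Finset.prod_insert ht, Finset.sum_insert ht]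
    constructor
    · have e : a t * (∏ s ∈ T, a s) - b t * ∏ s ∈ T, b s =
          a t * ((∏ s ∈ T, a s) - ∏ s ∈ T, b s) + (a t - b t) * ∏ s ∈ T, b s := by ring
      rw [e]
      refine (abs_add_le _ _).trans ?_
      rw [abs_mul, abs_mul]
      have e1 : |a t| * |(∏ s ∈ T, a s) - ∏ s ∈ T, b s| ≤ 1 * ∑ t ∈ T, |a t - b t| :=
        mul_le_mul h1 ih1 (abs_nonneg _) zero_le_one
      have e2 : |a t - b t| * |∏ s ∈ T, b s| ≤ |a t - b t| * 1 :=
        mul_le_mul_of_nonneg_left ih2 (abs_nonneg _)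
      linarith
    · rw [abs_mul]
      exact mul_le_one₀ h2 (abs_nonneg _) ih2

/-- elementary: replacing the factors of a product -/
theorem prod_replace {ι : Type*} (T : Finset ι) {a b : ι → ℝ} {A B M : ℝ}
    (ha : ∀ t ∈ T, |a t| ≤ 1) (hb : ∀ t ∈ T, |b t| ≤ 1) (hA : |A| ≤ M) :
    |(∏ t ∈ T, a t) * A - (∏ t ∈ T, b t) * B| ≤ M * (∑ t ∈ T, |a t - b t|) + |A - B| := by
  obtain ⟨h1, h2⟩ := Replace_prod T ha hb
  have e : (∏ t ∈ T, a t) * A - (∏ t ∈ T, b t) * B =
      A * ((∏ t ∈ T, a t) - ∏ t ∈ T, b t) + (∏ t ∈ T, b t) * (A - B) := by ring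
  rw [e]
  refine (abs_add_le _ _).trans ?_
  rw [abs_mul, abs_mul]
  have e1 : |A| * |(∏ t ∈ T, a t) - ∏ t ∈ T, b t| ≤ M * ∑ t ∈ T, |a t - b t| :=
    mul_le_mul hA h1 (abs_nonneg _) ((abs_nonneg _).trans hA)
  have e2 : |∏ t ∈ T, b t| * |A - B| ≤ 1 * |A - B| :=
    mul_le_mul_of_nonneg_right h2 (abs_nonneg _)
  linarith

end Pool.Agent.Lib.MP_e19099_pr
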