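import Pool.Agent.Lib.MP_e19099_pr.PathMeas
import Pool.Agent.Lib.MP_e19099_pr.Replace

/-!
# Laws on the path space are determined by product functionals (task A28a)

The sets `⋂_{t ∈ T} {y | y t ∈ F t}` (`T` finite, `F t` closed) form a π-system that generates the Borel σ-algebra
(`path_borel_eq`; put `F t = univ` outside of `T`); the indicator of a closed set `F` is the decreasing limit of continuous functions with values
in `[0,1]` (`thickenedIndicator`, or `max 0 (1 - m · infDist x F)`, for `F` nonempty), dominated convergence.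
-/

set_option autoImplicit false

open MeasureTheory ProbabilityTheory Filter Set
open scoped NNReal Topology ENNReal

namespace Pool.Agent.Lib.MP_e19099_pr

/-- cylinder sets with closed bases -/
def cyl : Set (Set C(ℝ≥0, ℝ)) :=
  {A | ∃ (T : Finset ℝ≥0) (F : ℝ≥0 → Set ℝ), (∀ t, IsClosed (F t)) ∧
    A = {y | ∀ t ∈ T, y t ∈ F t}}

/-- cylinder sets with closed bases and times in `[0, s]` -/
def cylS (s : ℝ≥0) : Set (Set C(ℝ≥0, ℝ)) :=
  {A | ∃ (T : Finset ℝ≥0) (F : ℝ≥0 → Set ℝ), (∀ t ∈ T, t ≤ s) ∧ (∀ t, IsClosed (F t)) ∧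
    A = {y | ∀ t ∈ T, y t ∈ F t}}

private def cylP (Q : ℝ≥0 → Prop) : Set (Set C(ℝ≥0, ℝ)) :=
  {A | ∃ (T : Finset ℝ≥0) (F : ℝ≥0 → Set ℝ), (∀ t ∈ T, Q t) ∧ (∀ t, IsClosed (F t)) ∧
    A = {y | ∀ t ∈ T, y t ∈ F t}}

private theorem cylP_pi (Q : ℝ≥0 → Prop) : IsPiSystem (cylP Q) := by
  classical
  rintro A ⟨T, F, hT, hF, rfl⟩ B ⟨T', F', hT', hF', rfl⟩ _
  refine ⟨T ∪ T', fun t => (if t ∈ T then F t else univ) ∩ (if t ∈ T' then F' t else univ), ?_, ?_, ?_⟩
  · intro t ht
    rcases Finset.mem_union.mp ht with h | h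
    · exact hT t h
    · exact hT' t h
  · intro t
    refine IsClosed.inter ?_ ?_
    · split_ifs
      · exact hF t
      · exact isClosed_univ
    · split_ifs
      · exact hF' t
      · exact isClosed_univ
  · ext y
    simp only [mem_inter_iff, mem_ofPred_eq, Finset.mem_union]
    constructor
    · rintro ⟨h1, h2⟩ t _
      refine ⟨?_, ?_⟩
      · split_ifs with h
        · exact h1 t h
        · exact mem_univ _
      · split_ifs with h
        · exact h2 t h
        · exact mem_univ _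
    · intro h
      refine ⟨fun t ht => ?_, fun t ht => ?_⟩
      · have := (h t (Or.inl ht)).1
        rwa [if_pos ht] at this
      · have := (h t (Or.inr ht)).2
        rwa [if_pos ht] at this

private theorem cylP_gen (Q : ℝ≥0 → Prop) :
    (⨆ r : {r : ℝ≥0 // Q r}, MeasurableSpace.comap (fun y : C(ℝ≥0, ℝ) => y r)
      (inferInstance : MeasurableSpace ℝ)) = MeasurableSpace.generateFrom (cylP Q) := by
  apply le_antisymm
  · refine iSup_le fun r => ?_
    have hb : (inferInstance : MeasurableSpace ℝ) = MeasurableSpace.generateFrom {s | IsClosed s} := by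
      rw [← borel_eq_generateFrom_isClosed]
      exact BorelSpace.measurable_eq
    rw [hb, MeasurableSpace.comap_generateFrom]
    refine MeasurableSpace.generateFrom_mono ?_
    rintro A ⟨F, hF, rfl⟩
    refine ⟨{r.1}, fun _ => F, ?_, fun _ => hF, ?_⟩
    · intro t ht
      rw [Finset.mem_singleton] at ht
      subst ht
      exact r.2
    · ext y
      simp
  · refine MeasurableSpace.generateFrom_le ?_
    rintro A ⟨T, F, hT, hF, rfl⟩
    have h1 : {y : C(ℝ≥0, ℝ) | ∀ t ∈ T, y t ∈ F t} = ⋂ t ∈ T, (fun y : C(ℝ≥0, ℝ) => y t) ⁻¹' (F t) := by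
      ext y
      simp
    rw [h1]
    refine MeasurableSet.biInter (m := ⨆ r : {r : ℝ≥0 // Q r},
      MeasurableSpace.comap (fun y : C(ℝ≥0, ℝ) => y r) (inferInstance : MeasurableSpace ℝ))
      T.countable_toSet ?_
    intro t ht
    have h2 := le_iSup (fun r : {r : ℝ≥0 // Q r} => MeasurableSpace.comap
      (fun y : C(ℝ≥0, ℝ) => y r) (inferInstance : MeasurableSpace ℝ)) ⟨t, hT t ht⟩
    exact h2 _ ⟨F t, (hF t).measurableSet, rfl⟩

private theorem cyl_eq : cyl = cylP (fun _ => True) := by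
  unfold cyl cylP
  ext A
  constructor
  · rintro ⟨T, F, hF, rfl⟩
    exact ⟨T, F, fun _ _ => trivial, hF, rfl⟩
  · rintro ⟨T, F, _, hF, rfl⟩
    exact ⟨T, F, hF, rfl⟩

theorem cyl_pi : IsPiSystem cyl := by
  rw [cyl_eq]
  exact cylP_pi _

theorem cylS_pi (s : ℝ≥0) : IsPiSystem (cylS s) :=
  cylP_pi (fun t => t ≤ s)

theorem cyl_gen : (borel C(ℝ≥0, ℝ)) = MeasurableSpace.generateFrom cyl := by
  rw [cyl_eq, ← cylP_gen, path_borel_eq]
  apply le_antisymm
  · refine iSup_le fun r => ?_
    exact le_iSup (fun r : {r : ℝ≥0 // True} => MeasurableSpace.comap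
      (fun y : C(ℝ≥0, ℝ) => y r) (inferInstance : MeasurableSpace ℝ)) ⟨r, trivial⟩
  · refine iSup_le fun r => ?_
    exact le_iSup (fun r : ℝ≥0 => MeasurableSpace.comap
      (fun y : C(ℝ≥0, ℝ) => y r) (inferInstance : MeasurableSpace ℝ)) r.1

theorem cylS_gen (s : ℝ≥0) :
    (⨆ r : {r : ℝ≥0 // r ≤ s}, MeasurableSpace.comap (fun y : C(ℝ≥0, ℝ) => y r) inferInstance)
      = MeasurableSpace.generateFrom (cylS s) :=
  cylP_gen (fun t => t ≤ s)

/-- approximation of the indicator of a closed set by continuous functions -/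
theorem closed_approx {F : Set ℝ} (hF : IsClosed F) :
    ∃ g : ℕ → ℝ → ℝ, (∀ m, BC 1 (g m)) ∧
      ∀ x, Tendsto (fun m => g m x) atTop (𝓝 (F.indicator (fun _ => 1) x)) := by
  rcases F.eq_empty_or_nonempty with rfl | hne
  · refine ⟨fun _ _ => 0, fun m => ⟨continuous_const, fun x => by simp⟩, fun x => ?_⟩
    simp
  · refine ⟨fun m x => max 0 (1 - m * Metric.infDist x F), fun m => ⟨?_, ?_⟩, fun x => ?_⟩
    · exact continuous_const.max (continuous_const.sub
        (continuous_const.mul (Metric.continuous_infDist_pt F)))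
    · intro x
      have h1 : (0 : ℝ) ≤ m * Metric.infDist x F :=
        mul_nonneg (Nat.cast_nonneg m) Metric.infDist_nonneg
      rw [abs_of_nonneg (le_max_left _ _)]
      exact max_le zero_le_one (by linarith)
    · by_cases hx : x ∈ F
      · rw [indicator_of_mem hx]
        have h0 : Metric.infDist x F = 0 := Metric.infDist_zero_of_mem hx
        simp only [h0, mul_zero, sub_zero]
        have : max (0 : ℝ) 1 = 1 := max_eq_right zero_le_one
        rw [this]
        exact tendsto_const_nhds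
      · rw [indicator_of_notMem hx]
        have hpos : 0 < Metric.infDist x F := (hF.notMem_iff_infDist_pos hne).mp hx
        refine tendsto_const_nhds.congr' ?_
        obtain ⟨N, hN⟩ := exists_nat_ge (1 / Metric.infDist x F)
        filter_upwards [eventually_ge_atTop N] with m hm
        have h2 : (1 : ℝ) / Metric.infDist x F ≤ m := hN.trans (by exact_mod_cast hm)
        rw [div_le_iff₀ hpos] at h2
        rw [max_eq_left (by linarith)]

theorem fdd_ext {μ ν : Measure C(ℝ≥0, ℝ)} [IsProbabilityMeasure μ] [IsProbabilityMeasure ν]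
    (h : ∀ (T : Finset ℝ≥0) (G : ℝ≥0 → ℝ → ℝ), (∀ t, BC 1 (G t)) →
      ∫ y, ∏ t ∈ T, G t (y t) ∂μ = ∫ y, ∏ t ∈ T, G t (y t) ∂ν) : μ = ν := by
  refine MeasureTheory.ext_of_generate_finite cyl cyl_gen cyl_pi ?_ (by simp)
  rintro A ⟨T, F, hF, rfl⟩
  choose g hg hgt using fun t => closed_approx (hF t)
  have hA : MeasurableSet {y : C(ℝ≥0, ℝ) | ∀ t ∈ T, y t ∈ F t} := by
    have h1 : {y : C(ℝ≥0, ℝ) | ∀ t ∈ T, y t ∈ F t} = ⋂ t ∈ T, (fun y : C(ℝ≥0, ℝ) => y t) ⁻¹' (F t) := by
      ext y
      simp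
    rw [h1]
    exact MeasurableSet.biInter T.countable_toSet fun t _ => (path_meas_eval t) (hF t).measurableSet
  have key : ∀ (ρ : Measure C(ℝ≥0, ℝ)) [IsProbabilityMeasure ρ],
      Tendsto (fun m : ℕ => ∫ y, ∏ t ∈ T, g t m (y t) ∂ρ) atTop
        (𝓝 (ρ.real {y : C(ℝ≥0, ℝ) | ∀ t ∈ T, y t ∈ F t})) := by
    intro ρ _
    rw [← integral_indicator_one hA]
    refine tendsto_integral_of_dominated_convergence (fun _ => (1 : ℝ)) ?_ (integrable_const _) ?_ ?_
    · intro m
      refine (Finset.measurable_prod T fun t _ => ?_).aestronglyMeasurable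
      exact (hg t m).cont.measurable.comp (path_meas_eval t)
    · intro m
      refine Eventually.of_forall fun y => ?_
      rw [norm_prod]
      refine Finset.prod_le_one (fun t _ => norm_nonneg _) fun t _ => ?_
      exact (hg t m).bdd _
    · refine Eventually.of_forall fun y => ?_
      have h2 : ({y : C(ℝ≥0, ℝ) | ∀ t ∈ T, y t ∈ F t}.indicator (1 : C(ℝ≥0, ℝ) → ℝ) y)
          = ∏ t ∈ T, (F t).indicator (fun _ => (1 : ℝ)) (y t) := by
        by_cases hy : ∀ t ∈ T, y t ∈ F t
        · rw [indicator_of_mem (show y ∈ {y : C(ℝ≥0, ℝ) | ∀ t ∈ T, y t ∈ F t} from hy)]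
          rw [Finset.prod_eq_one]
          · rfl
          · intro t ht
            rw [indicator_of_mem (hy t ht)]
        · rw [indicator_of_notMem (show y ∉ {y : C(ℝ≥0, ℝ) | ∀ t ∈ T, y t ∈ F t} from hy)]
          push Not at hy
          obtain ⟨t, ht, hyt⟩ := hy
          rw [Finset.prod_eq_zero ht]
          rw [indicator_of_notMem hyt]
      rw [h2]
      exact tendsto_finsetProd T fun t _ => hgt t (y t)
  have e1 := key μ
  have e2 := key ν
  have e3 : (fun m : ℕ => ∫ y, ∏ t ∈ T, g t m (y t) ∂μ) = fun m : ℕ => ∫ y, ∏ t ∈ T, g t m (y t) ∂ν := by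
    funext m
    exact h T (fun t => g t m) (fun t => hg t m)
  rw [e3] at e1
  have e4 := tendsto_nhds_unique e1 e2
  exact (measureReal_eq_measureReal_iff).mp e4

end Pool.Agent.Lib.MP_e19099_pr
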