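import Pool.Agent.Lib.MP_e19099_pr.Paths

/-!
# Fourth moments of the interpolation (task A19b)

Let `s < t`, `k = ⌊s/τ⌋₊`, `l = ⌊t/τ⌋₊`.  If `k = l`: `Y_t - Y_s = ((t-s)/τ) (x (k+1) - x k)`, and `t - s ≤ τ`, so
`E ≤ ((t-s)/τ)⁴ C τ² ≤ C (t-s)²`.  If `k < l`: `Y_t - Y_s = (Y_t - x l) + (x l - x (k+1)) + (x (k+1) - Y_s)`, the three
terms have fourth moments `≤ C (t - lτ)²`, `≤ C ((l-k-1)τ)²`, `≤ C ((k+1)τ - s)²`; `(a+b+c)⁴ ≤ 27 (a⁴+b⁴+c⁴)` and the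
sum of the squares is at most `(t-s)²`.
-/

set_option autoImplicit false

open MeasureTheory ProbabilityTheory Filter Set
open scoped NNReal Topology ENNReal

namespace Pool.Agent.Lib.MP_e19099_pr

variable {Ω : Type*} [MeasurableSpace Ω] {P : Measure Ω} {x : ℕ → Ω → ℝ} {C τ : ℝ}

private theorem pow4_add3 (a b c : ℝ) : (a + b + c) ^ 4 ≤ 27 * (a ^ 4 + b ^ 4 + c ^ 4) := by
  have h1 : (a + b + c) ^ 2 ≤ 3 * (a ^ 2 + b ^ 2 + c ^ 2) := by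
    nlinarith [sq_nonneg (a - b), sq_nonneg (b - c), sq_nonneg (a - c)]
  have h2 : (a ^ 2 + b ^ 2 + c ^ 2) ^ 2 ≤ 3 * (a ^ 4 + b ^ 4 + c ^ 4) := by
    nlinarith [sq_nonneg (a ^ 2 - b ^ 2), sq_nonneg (b ^ 2 - c ^ 2), sq_nonneg (a ^ 2 - c ^ 2)]
  have h3 : ((a + b + c) ^ 2) ^ 2 ≤ (3 * (a ^ 2 + b ^ 2 + c ^ 2)) ^ 2 :=
    pow_le_pow_left₀ (sq_nonneg _) h1 2
  nlinarith

/-- pointwise decomposition of an increment of the linear interpolation -/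
private theorem decomp (y z : ℝ) (hy : 0 ≤ y) (hyz : y ≤ z) :
    ∃ (p r : ℝ) (l k n m : ℕ), 0 ≤ p ∧ p ≤ 1 ∧ 0 ≤ r ∧ r ≤ 1 ∧
      p ^ 2 + (m : ℝ) ^ 2 + r ^ 2 ≤ (z - y) ^ 2 ∧
      ∀ x : ℕ → ℝ, lin x z - lin x y
        = p * (x (l + 1) - x l) + (x (n + m) - x n) + r * (x (k + 1) - x k) := by
  have hz : 0 ≤ z := hy.trans hyz
  have hy1 := Nat.floor_le hy
  have hz1 := Nat.floor_le hz
  have hy2 := Nat.lt_floor_add_one y
  have hz2 := Nat.lt_floor_add_one z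
  have hle : ⌊y⌋₊ ≤ ⌊z⌋₊ := Nat.floor_mono hyz
  rcases hle.eq_or_lt with h | h
  · refine ⟨z - y, 0, ⌊y⌋₊, 0, 0, 0, by linarith, ?_, le_rfl, zero_le_one, by simp, fun x => ?_⟩
    · rw [← h] at hz2; linarith
    · rw [lin, lin, ← h]; simp; ring
  · obtain ⟨m, hm⟩ : ∃ m : ℕ, ⌊z⌋₊ = ⌊y⌋₊ + 1 + m := ⟨⌊z⌋₊ - ⌊y⌋₊ - 1, by omega⟩
    have hm' : (⌊z⌋₊ : ℝ) = ⌊y⌋₊ + 1 + m := by exact_mod_cast hm
    have hm0 : (0 : ℝ) ≤ m := Nat.cast_nonneg m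
    refine ⟨z - ⌊z⌋₊, 1 - (y - ⌊y⌋₊), ⌊z⌋₊, ⌊y⌋₊, ⌊y⌋₊ + 1, m, by linarith, by linarith,
      by linarith, by linarith, ?_, fun x => ?_⟩
    · have e : z - y = (z - ⌊z⌋₊) + m + (1 - (y - ⌊y⌋₊)) := by rw [hm']; ring
      rw [e]
      have h1 : 0 ≤ z - ⌊z⌋₊ := by linarith
      have h2 : 0 ≤ 1 - (y - ⌊y⌋₊) := by linarith
      nlinarith [mul_nonneg h1 hm0, mul_nonneg h1 h2, mul_nonneg hm0 h2]
    · rw [lin, lin, ← hm]
      ring

private theorem sq4_le {p : ℝ} (h0 : 0 ≤ p) (h1 : p ≤ 1) : p ^ 4 ≤ p ^ 2 := by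
  have : p ^ 2 ≤ 1 := pow_le_one₀ h0 h1
  nlinarith [sq_nonneg p]

private theorem core [IsProbabilityMeasure P] (hτ : 0 < τ)
    (hx : ∀ k, Measurable (x k))
    (h : ∀ k m, Integrable (fun ω => (x (k + m) ω - x k ω) ^ 4) P) (s t : ℝ≥0) (hst : s ≤ t) :
    Integrable (fun ω => (interp τ (fun k => x k ω) t - interp τ (fun k => x k ω) s) ^ 4) P ∧
    ((∀ k m : ℕ, ∫ ω, (x (k + m) ω - x k ω) ^ 4 ∂P ≤ C * (m * τ) ^ 2) →
    ∫ ω, (interp τ (fun k => x k ω) t - interp τ (fun k => x k ω) s) ^ 4 ∂P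
      ≤ 27 * C * ((t : ℝ) - s) ^ 2) := by
  have hy : 0 ≤ (s : ℝ) / τ := div_nonneg s.2 hτ.le
  have hyz : (s : ℝ) / τ ≤ (t : ℝ) / τ := by
    have : (s : ℝ) ≤ t := by exact_mod_cast hst
    gcongr
  obtain ⟨p, r, l, k, n, m, hp0, hp1, hr0, hr1, hsq, hdec⟩ := decomp _ _ hy hyz
  have hpt : ∀ ω, (interp τ (fun k => x k ω) t - interp τ (fun k => x k ω) s) ^ 4
      ≤ 27 * (p ^ 2 * (x (l + 1) ω - x l ω) ^ 4 + (x (n + m) ω - x n ω) ^ 4
        + r ^ 2 * (x (k + 1) ω - x k ω) ^ 4) := by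
    intro ω
    rw [interp_apply, interp_apply]
    have e1 : ∀ a : ℝ, 0 ≤ a ^ 4 := fun a => by positivity
    have e2 : (p * (x (l + 1) ω - x l ω)) ^ 4 ≤ p ^ 2 * (x (l + 1) ω - x l ω) ^ 4 := by
      rw [mul_pow]; exact mul_le_mul_of_nonneg_right (sq4_le hp0 hp1) (e1 _)
    have e3 : (r * (x (k + 1) ω - x k ω)) ^ 4 ≤ r ^ 2 * (x (k + 1) ω - x k ω) ^ 4 := by
      rw [mul_pow]; exact mul_le_mul_of_nonneg_right (sq4_le hr0 hr1) (e1 _)
    rw [hdec (fun k => x k ω)]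
    refine (pow4_add3 _ _ _).trans ?_
    linarith
  have hint : Integrable (fun ω => 27 * (p ^ 2 * (x (l + 1) ω - x l ω) ^ 4
      + (x (n + m) ω - x n ω) ^ 4 + r ^ 2 * (x (k + 1) ω - x k ω) ^ 4)) P :=
    ((((h l 1).const_mul _).add (h n m)).add ((h k 1).const_mul _)).const_mul _
  have hmeas : Measurable fun ω =>
      (interp τ (fun k => x k ω) t - interp τ (fun k => x k ω) s) ^ 4 := by
    simp only [interp_apply, hdec]
    have h1 := hx (l + 1)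
    have h2 := hx l
    have h3 := hx (n + m)
    have h4 := hx n
    have h5 := hx (k + 1)
    have h6 := hx k
    fun_prop
  have hI : Integrable (fun ω =>
      (interp τ (fun k => x k ω) t - interp τ (fun k => x k ω) s) ^ 4) P := by
    refine hint.mono' hmeas.aestronglyMeasurable (Eventually.of_forall fun ω => ?_)
    rw [Real.norm_of_nonneg (by positivity)]
    exact hpt ω
  refine ⟨hI, fun h' => ?_⟩
  have hC : 0 ≤ C := by
    have h1 := h' 0 1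
    have h2 : 0 ≤ ∫ ω, (x (0 + 1) ω - x 0 ω) ^ 4 ∂P :=
      integral_nonneg fun ω => by positivity
    have h3 : 0 ≤ C * ((1 : ℕ) * τ) ^ 2 := h2.trans h1
    have h4 : 0 < ((1 : ℕ) * τ) ^ 2 := by positivity
    exact nonneg_of_mul_nonneg_left h3 h4
  calc ∫ ω, (interp τ (fun k => x k ω) t - interp τ (fun k => x k ω) s) ^ 4 ∂P
      ≤ ∫ ω, 27 * (p ^ 2 * (x (l + 1) ω - x l ω) ^ 4
      + (x (n + m) ω - x n ω) ^ 4 + r ^ 2 * (x (k + 1) ω - x k ω) ^ 4) ∂P :=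
        integral_mono hI hint hpt
    _ = 27 * (p ^ 2 * ∫ ω, (x (l + 1) ω - x l ω) ^ 4 ∂P
      + ∫ ω, (x (n + m) ω - x n ω) ^ 4 ∂P + r ^ 2 * ∫ ω, (x (k + 1) ω - x k ω) ^ 4 ∂P) := by
        rw [integral_const_mul, integral_add, integral_add, integral_const_mul,
          integral_const_mul]
        · exact (h l 1).const_mul _
        · exact h n m
        · exact ((h l 1).const_mul _).add (h n m)
        · exact (h k 1).const_mul _
    _ ≤ 27 * (p ^ 2 * (C * ((1 : ℕ) * τ) ^ 2) + C * (m * τ) ^ 2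
        + r ^ 2 * (C * ((1 : ℕ) * τ) ^ 2)) := by
        gcongr
        · exact h' l 1
        · exact h' n m
        · exact h' k 1
    _ = 27 * C * τ ^ 2 * (p ^ 2 + (m : ℝ) ^ 2 + r ^ 2) := by push_cast; ring
    _ ≤ 27 * C * τ ^ 2 * ((t : ℝ) / τ - (s : ℝ) / τ) ^ 2 := by gcongr
    _ = 27 * C * ((t : ℝ) - s) ^ 2 := by field_simp

theorem interp_mom_int [IsProbabilityMeasure P] (hτ : 0 < τ) (hx : ∀ k, Measurable (x k))
    (h : ∀ k m, Integrable (fun ω => (x (k + m) ω - x k ω) ^ 4) P) (s t : ℝ≥0) :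
    Integrable (fun ω => (interp τ (fun k => x k ω) t - interp τ (fun k => x k ω) s) ^ 4) P := by
  rcases le_total s t with hst | hst
  · exact (core (C := 0) hτ hx h s t hst).1
  · have := (core (C := 0) hτ hx h t s hst).1
    refine this.congr (Eventually.of_forall fun ω => ?_)
    ring

theorem interp_mom [IsProbabilityMeasure P] (hτ : 0 < τ) (hx : ∀ k, Measurable (x k))
    (h : ∀ k m, Integrable (fun ω => (x (k + m) ω - x k ω) ^ 4) P)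
    (h' : ∀ k m : ℕ, ∫ ω, (x (k + m) ω - x k ω) ^ 4 ∂P ≤ C * (m * τ) ^ 2) (s t : ℝ≥0) :
    ∫ ω, (interp τ (fun k => x k ω) t - interp τ (fun k => x k ω) s) ^ 4 ∂P
      ≤ 27 * C * ((t : ℝ) - s) ^ 2 := by
  rcases le_total s t with hst | hst
  · exact (core hτ hx h s t hst).2 h'
  · have := (core hτ hx h t s hst).2 h'
    calc ∫ ω, (interp τ (fun k => x k ω) t - interp τ (fun k => x k ω) s) ^ 4 ∂P
        = ∫ ω, (interp τ (fun k => x k ω) s - interp τ (fun k => x k ω) t) ^ 4 ∂P := by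
          congr 1; funext ω; ring
      _ ≤ _ := this
      _ = _ := by ring

end Pool.Agent.Lib.MP_e19099_pr
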