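import Pool.Agent.Lib.MP_e19099_pr.LimFun
import Pool.Agent.Lib.MP_e19099_pr.FddExt

/-!
# Limit laws (task A28b)

`IsLim p h μ`: `μ` is a probability measure on the path space with marginals `tgt p` satisfying the resolvent identity.
`lim_isLim`: the functionals `y ↦ lfun ..` and `y ↦ f (y t)` are bounded and continuous, so their integrals converge along `L`;
`chain_lfun`, `chain_marg` give the limits; uniqueness of limits.  (`BoundedContinuousFunction.ofNormedAddCommGroup` or `mkOfBound` to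
turn them into bounded continuous functions; `ProbabilityMeasure.tendsto_iff_forall_integral_tendsto`.)
For `stat` use `ext_of_forall_integral_eq_of_IsFiniteMeasure`.  `u` is continuous by `dom_cont` and bounded by `res_bdd`.
-/

set_option autoImplicit false

open MeasureTheory ProbabilityTheory Filter Set
open scoped NNReal Topology ENNReal

namespace Pool.Agent.Lib.MP_e19099_pr

structure IsLim (p : ℝ → ℝ) (h : ℝ) (μ : Measure C(ℝ≥0, ℝ)) : Prop where
  prob : IsProbabilityMeasure μ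
  stat : ∀ t : ℝ≥0, μ.map (fun y => y t) = tgt p
  res : ∀ (C : ℝ) (f : ℝ → ℝ), BC C f → ∀ lam : ℝ, 0 < lam → ∀ u u' : ℝ → ℝ,
    IsResolvent (tgt p) h lam f u u' → ∀ (s : ℝ≥0) (T : Finset ℝ≥0), (∀ t ∈ T, t ≤ s) →
    ∀ G : ℝ≥0 → ℝ → ℝ, (∀ t, BC 1 (G t)) → ∫ y, lfun lam f u T G s y ∂μ = 0

universe u

variable {E : ℕ → Type} [∀ n, MeasurableSpace (E n)] {p : ℝ → ℝ} {h : ℝ} {τ : ℕ → ℝ}
  {Pi : ∀ n, Measure (E n)} {K : ∀ n, Kernel (E n) (E n)} {φ : ∀ n, E n → ℝ}
  {Ω : ℕ → Type u} [∀ n, MeasurableSpace (Ω n)] {P : ∀ n, Measure (Ω n)}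
  {X : ∀ n, ℕ → Ω n → E n}

/-- integrals of bounded continuous functionals along the chains converge to the integral for the
limit law -/
private theorem isLim_conv (S : Setup E p h τ Pi K φ)
    (hX : ∀ n, IsChain (P n) (X n) (Pi n) (K n))
    {ρ : ℕ → ProbabilityMeasure C(ℝ≥0, ℝ)}
    (hρ : ∀ n, (ρ n : Measure C(ℝ≥0, ℝ)) = (P n).map (ip (τ n) (φ n) (X n)))
    {L : Filter ℕ} {μ : ProbabilityMeasure C(ℝ≥0, ℝ)}
    (hμ : Tendsto ρ L (𝓝 μ)) {Φ : C(ℝ≥0, ℝ) → ℝ} (hΦ : Continuous Φ) {M : ℝ}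
    (hM : ∀ y, |Φ y| ≤ M) :
    Tendsto (fun n => ∫ ω, Φ (ip (τ n) (φ n) (X n) ω) ∂(P n)) L
      (𝓝 (∫ y, Φ y ∂(μ : Measure C(ℝ≥0, ℝ)))) := by
  have h1 := (ProbabilityMeasure.tendsto_iff_forall_integral_tendsto.mp hμ)
    (BoundedContinuousFunction.ofNormedAddCommGroup Φ hΦ M hM)
  refine h1.congr fun n => ?_
  rw [hρ n, integral_map (ip_meas S hX n).aemeasurable]
  · rfl
  · exact (BoundedContinuousFunction.ofNormedAddCommGroup Φ hΦ M
      hM).continuous.measurable.aestronglyMeasurable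

theorem lim_isLim (S : Setup E p h τ Pi K φ) (hX : ∀ n, IsChain (P n) (X n) (Pi n) (K n))
    {ρ : ℕ → ProbabilityMeasure C(ℝ≥0, ℝ)}
    (hρ : ∀ n, (ρ n : Measure C(ℝ≥0, ℝ)) = (P n).map (ip (τ n) (φ n) (X n)))
    {L : Filter ℕ} [L.NeBot] (hL : L ≤ atTop) {μ : ProbabilityMeasure C(ℝ≥0, ℝ)}
    (hμ : Tendsto ρ L (𝓝 μ)) : IsLim p h (μ : Measure C(ℝ≥0, ℝ)) := by
  refine ⟨inferInstance, fun t => ?_, ?_⟩
  · have := tgt_prob S.dens
    have : IsProbabilityMeasure ((μ : Measure C(ℝ≥0, ℝ)).map (fun y : C(ℝ≥0, ℝ) => y t)) :=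
      Measure.isProbabilityMeasure_map (path_meas_eval t).aemeasurable
    refine ext_of_forall_integral_eq_of_IsFiniteMeasure fun g => ?_
    have hg : BC ‖g‖ g := ⟨g.continuous, fun x => g.norm_coe_le_norm x⟩
    rw [integral_map (path_meas_eval t).aemeasurable g.continuous.measurable.aestronglyMeasurable]
    have h1 := isLim_conv S hX hρ hμ (Φ := fun y : C(ℝ≥0, ℝ) => g (y t))
      (g.continuous.comp (continuous_eval_const t)) (M := ‖g‖) (fun y => hg.bdd _)
    have h2 := (chain_marg S hX hg t).mono_left hL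
    exact tendsto_nhds_unique h1 h2
  · intro C f hf lam hlam u u' hu s T hT G hG
    have huBC : BC (C / lam) u :=
      ⟨dom_cont hu.1, res_bdd S hlam ⟨hf.cont.measurable, hf.bdd⟩ hu⟩
    obtain ⟨c1, c2⟩ := lfun_cont hlam hf huBC T hG s
    have h1 := isLim_conv S hX hρ hμ c1 c2
    have h2 := (chain_lfun S hX hlam hf hu hT hG).mono_left hL
    exact tendsto_nhds_unique h1 h2

end Pool.Agent.Lib.MP_e19099_pr
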