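import Pool.Agent.Lib.MP_e19099_pr.PathMeas

/-!
# Continuous limits in the Skorokhod topology (task A31)

`j1_of_close`: `σ n = OrderIso.refl`; `y n → y` locally uniformly (`ContinuousMap.tendsto_iff_forall_isCompact_tendstoUniformlyOn` on `Icc 0 T`).
`j1_compact`: by contradiction: for every `m` there are `y_m ∈ K` and `x_m` with `|x_m t - y_m t| ≤ 1/(m+1)` for `t ≤ m` and
`|Φ x_m - Φ (toD y_m)| > ε`; a subsequence of `y_m` converges to some `y` (`IsCompact.tendsto_subseq`, the space is metrizable,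
first countable); along it `x_m → toD y` and `toD y_m → toD y` in `J₁`, a contradiction.
-/

set_option autoImplicit false

open MeasureTheory ProbabilityTheory Filter Set
open scoped NNReal Topology ENNReal

namespace Pool.Agent.Lib.MP_e19099_pr

/-- `Φ` is (sequentially) continuous for the `J₁` topology -/
def J1Cont (Φ : D → ℝ) : Prop :=
  ∀ (x : ℕ → D) (y : D), TendstoJ1 x y → Tendsto (fun n => Φ (x n)) atTop (𝓝 (Φ y))

theorem j1_of_close {y : ℕ → C(ℝ≥0, ℝ)} {y₀ : C(ℝ≥0, ℝ)} (hy : Tendsto y atTop (𝓝 y₀))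
    {x : ℕ → D} (hx : ∀ T : ℝ≥0, ∀ ε : ℝ, 0 < ε → ∀ᶠ n in atTop, ∀ t ≤ T,
      |(x n).1 t - y n t| < ε) : TendstoJ1 x (toD y₀) := by
  refine ⟨fun _ => OrderIso.refl _, fun T ε hε => ?_⟩
  have h1 := (ContinuousMap.tendsto_iff_forall_isCompact_tendstoUniformlyOn.1 hy) (Icc 0 T)
    isCompact_Icc
  rw [Metric.tendstoUniformlyOn_iff] at h1
  filter_upwards [h1 (ε / 2) (by positivity), hx T (ε / 2) (by positivity)] with n hn1 hn2 t ht
  refine ⟨by simpa using hε, ?_⟩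
  have h3 := hn1 t ⟨zero_le, ht⟩
  have h4 := hn2 t ht
  rw [Real.dist_eq] at h3
  show |(x n).1 t - y₀ t| < ε
  calc |(x n).1 t - y₀ t| = |((x n).1 t - y n t) - (y₀ t - y n t)| := by ring_nf
    _ ≤ |(x n).1 t - y n t| + |y₀ t - y n t| := abs_sub _ _
    _ < ε := by linarith

theorem j1_cont_toD {Φ : D → ℝ} (hΦ : J1Cont Φ) : Continuous fun y => Φ (toD y) := by
  rw [continuous_iff_seqContinuous]
  intro y y₀ hy
  refine hΦ _ _ (j1_of_close hy fun T ε hε => Eventually.of_forall fun n t _ => ?_)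
  show |y n t - y n t| < ε
  simpa using hε

theorem j1_compact {Φ : D → ℝ} (hΦ : J1Cont Φ) {A : Set C(ℝ≥0, ℝ)} (hA : IsCompact A) {ε : ℝ}
    (hε : 0 < ε) :
    ∃ (δ : ℝ) (T : ℝ≥0), 0 < δ ∧ ∀ y ∈ A, ∀ x : D, (∀ t ≤ T, |x.1 t - y t| ≤ δ) →
      |Φ x - Φ (toD y)| ≤ ε := by
  by_contra hcon
  push Not at hcon
  have hcon' : ∀ m : ℕ, ∃ y ∈ A, ∃ x : D, (∀ t ≤ (m : ℝ≥0), |x.1 t - y t| ≤ 1 / ((m : ℝ) + 1)) ∧
      ε < |Φ x - Φ (toD y)| := fun m => hcon (1 / ((m : ℝ) + 1)) m (by positivity)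
  choose y hyA x hxy hxε using hcon'
  obtain ⟨y₀, hy₀, φ, hφ, hlim⟩ := hA.tendsto_subseq hyA
  have h1 : TendstoJ1 (fun n => x (φ n)) (toD y₀) := by
    refine j1_of_close hlim fun T δ hδ => ?_
    obtain ⟨N, hN⟩ := exists_nat_one_div_lt hδ
    obtain ⟨M, hM⟩ := exists_nat_ge T
    filter_upwards [eventually_ge_atTop (max N M)] with n hn t ht
    have hn1 : N ≤ φ n := (le_max_left _ _).trans (hn.trans (hφ.id_le n))
    have hn2 : M ≤ φ n := (le_max_right _ _).trans (hn.trans (hφ.id_le n))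
    have h2 : t ≤ (φ n : ℝ≥0) := ht.trans (hM.trans (by exact_mod_cast hn2))
    refine (hxy (φ n) t h2).trans_lt (lt_of_le_of_lt ?_ hN)
    have : (N : ℝ) ≤ φ n := by exact_mod_cast hn1
    gcongr
  have h2 : TendstoJ1 (fun n => toD (y (φ n))) (toD y₀) := by
    refine j1_of_close hlim fun T ε hε => Eventually.of_forall fun n t _ => ?_
    show |y (φ n) t - y (φ n) t| < ε
    simpa using hε
  have h3 := ((hΦ _ _ h1).sub (hΦ _ _ h2)).abs
  rw [sub_self, abs_zero] at h3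
  obtain ⟨n, hn⟩ := (h3.eventually (gt_mem_nhds hε)).exists
  exact absurd hn (not_lt.2 (hxε (φ n)).le)

end Pool.Agent.Lib.MP_e19099_pr
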