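import Pool.Agent.Lib.MP_e19099_pr.Compact

/-!
# Tightness (task A23)

Use `isTightMeasureSet_iff_exists_isCompact_measure_compl_le`.  Take `ρ = 2^{-1/8}` (or `ρ = 9/10`: `ρ^4 > 1/2 · 1.3`).
With `ρ = 9/10`: by Markov's inequality `μ(|y(dy j (k+1)) - y(dy j k)| > ρ^j) ≤ ρ^{-4j} C 2^{-2j}`, sum over `k < N 2^j`:
`≤ C N (ρ^{-4}/2)^j`, `ρ^{-4}/2 < 0.77`; the sum over `j ≥ J` is `≤ C N (0.77)^J / 0.23`, choose `J N` so that it is `≤ ε 2^{-N-2}`;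
choose `A` with `ν {|x| > A} ≤ ε/2`.
-/

set_option autoImplicit false

open MeasureTheory ProbabilityTheory Filter Set
open scoped NNReal Topology ENNReal

namespace Pool.Agent.Lib.MP_e19099_pr

private theorem TightC_markov {μ : Measure C(ℝ≥0, ℝ)} [IsFiniteMeasure μ] {C : ℝ}
    (hi : ∀ s t : ℝ≥0, Integrable (fun y : C(ℝ≥0, ℝ) => (y t - y s) ^ 4) μ)
    (hm : ∀ s t : ℝ≥0, ∫ y : C(ℝ≥0, ℝ), (y t - y s) ^ 4 ∂μ ≤ C * ((t : ℝ) - s) ^ 2)
    {ρ : ℝ} (hρ : 0 < ρ) (j k : ℕ) :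
    μ {y | ρ ^ j < |y (dy j (k + 1)) - y (dy j k)|} ≤
      ENNReal.ofReal (C * (1 / (4 * ρ ^ 4)) ^ j) := by
  have h1 := mul_meas_ge_le_integral_of_nonneg (μ := μ)
    (f := fun y : C(ℝ≥0, ℝ) => (y (dy j (k + 1)) - y (dy j k)) ^ 4)
    (Eventually.of_forall (fun y => by positivity)) (hi _ _) ((ρ ^ j) ^ 4)
  have h2 : ((dy j (k + 1) : ℝ≥0) : ℝ) - dy j k = 1 / 2 ^ j := by
    simp only [dy, NNReal.coe_div, NNReal.coe_natCast, NNReal.coe_pow, NNReal.coe_ofNat]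
    push_cast
    ring
  have h3 := hm (dy j k) (dy j (k + 1))
  rw [h2] at h3
  have h4 : μ.real {y | (ρ ^ j) ^ 4 ≤ (y (dy j (k + 1)) - y (dy j k)) ^ 4} ≤
      C * (1 / (4 * ρ ^ 4)) ^ j := by
    have h5 := h1.trans h3
    have h6 : 0 < (ρ ^ j) ^ 4 := by positivity
    have h7 : C * (1 / (4 * ρ ^ 4)) ^ j = C * (1 / 2 ^ j) ^ 2 / (ρ ^ j) ^ 4 := by
      have e1 : (4 : ℝ) ^ j = (2 ^ j) ^ 2 := by
        rw [← pow_mul, mul_comm, pow_mul]
        norm_num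
      have e2 : (ρ ^ 4) ^ j = (ρ ^ j) ^ 4 := by
        rw [← pow_mul, ← pow_mul, mul_comm]
      rw [div_pow, mul_pow, one_pow, e1, e2]
      field_simp
    rw [h7, le_div_iff₀ h6, mul_comm]
    exact h5
  calc μ {y | ρ ^ j < |y (dy j (k + 1)) - y (dy j k)|}
      ≤ μ {y | (ρ ^ j) ^ 4 ≤ (y (dy j (k + 1)) - y (dy j k)) ^ 4} := by
        refine measure_mono (fun y hy => ?_)
        have hy' : ρ ^ j < |y (dy j (k + 1)) - y (dy j k)| := hy
        have e2 : (y (dy j (k + 1)) - y (dy j k)) ^ 4 = |y (dy j (k + 1)) - y (dy j k)| ^ 4 := by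
          rw [← abs_pow, abs_of_nonneg (by positivity)]
        show (ρ ^ j) ^ 4 ≤ (y (dy j (k + 1)) - y (dy j k)) ^ 4
        rw [e2]
        exact pow_le_pow_left₀ (by positivity) hy'.le 4
    _ = ENNReal.ofReal (μ.real {y | (ρ ^ j) ^ 4 ≤ (y (dy j (k + 1)) - y (dy j k)) ^ 4}) :=
        (ofReal_measureReal (measure_ne_top _ _)).symm
    _ ≤ _ := ENNReal.ofReal_le_ofReal h4

private theorem TightC_sum {μ : Measure C(ℝ≥0, ℝ)} [IsFiniteMeasure μ] {C : ℝ} (hC : 0 ≤ C)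
    (hi : ∀ s t : ℝ≥0, Integrable (fun y : C(ℝ≥0, ℝ) => (y t - y s) ^ 4) μ)
    (hm : ∀ s t : ℝ≥0, ∫ y : C(ℝ≥0, ℝ), (y t - y s) ^ 4 ∂μ ≤ C * ((t : ℝ) - s) ^ 2)
    {ρ : ℝ} (hρ : 0 < ρ) {q : ℝ} (hq : q = 1 / (2 * ρ ^ 4)) (hq1 : q < 1) (N J : ℕ) :
    μ (⋃ i : ℕ, ⋃ k ∈ Finset.range (N * 2 ^ (J + i)),
      {y | ρ ^ (J + i) < |y (dy (J + i) (k + 1)) - y (dy (J + i) k)|}) ≤
      ENNReal.ofReal (C * N * q ^ J * (1 - q)⁻¹) := by
  have hq0 : 0 ≤ q := by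
    rw [hq]
    positivity
  calc μ (⋃ i : ℕ, ⋃ k ∈ Finset.range (N * 2 ^ (J + i)),
      {y | ρ ^ (J + i) < |y (dy (J + i) (k + 1)) - y (dy (J + i) k)|})
      ≤ ∑' i : ℕ, μ (⋃ k ∈ Finset.range (N * 2 ^ (J + i)),
      {y | ρ ^ (J + i) < |y (dy (J + i) (k + 1)) - y (dy (J + i) k)|}) := measure_iUnion_le _
    _ ≤ ∑' i : ℕ, ENNReal.ofReal (C * N * q ^ J * q ^ i) := by
        refine ENNReal.tsum_le_tsum (fun i => ?_)
        refine (measure_biUnion_finset_le _ _).trans ?_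
        refine (Finset.sum_le_sum (fun k _ => TightC_markov hi hm hρ (J + i) k)).trans ?_
        rw [Finset.sum_const, Finset.card_range, nsmul_eq_mul]
        have e1 : ((N * 2 ^ (J + i) : ℕ) : ℝ≥0∞) = ENNReal.ofReal ((N * 2 ^ (J + i) : ℕ) : ℝ) :=
          (ENNReal.ofReal_natCast _).symm
        rw [e1, ← ENNReal.ofReal_mul (Nat.cast_nonneg _)]
        refine ENNReal.ofReal_le_ofReal (le_of_eq ?_)
        push_cast
        have e2 : C * N * q ^ J * q ^ i = C * N * q ^ (J + i) := by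
          rw [pow_add]
          ring
        have e3 : q ^ (J + i) = 2 ^ (J + i) * (1 / (4 * ρ ^ 4)) ^ (J + i) := by
          rw [← mul_pow, hq]
          congr 1
          field_simp
          norm_num
        rw [e2, e3]
        ring
    _ = ENNReal.ofReal (∑' i : ℕ, C * N * q ^ J * q ^ i) := by
        refine (ENNReal.ofReal_tsum_of_nonneg (fun i => by positivity) ?_).symm
        exact (summable_geometric_of_lt_one hq0 hq1).mul_left _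
    _ = _ := by
        rw [tsum_mul_left, tsum_geometric_of_lt_one hq0 hq1]

private theorem TightC_tight (ν : Measure ℝ) [IsProbabilityMeasure ν] {ε : ℝ} (hε : 0 < ε) :
    ∃ R : ℝ, ν {x | R < |x|} ≤ ENNReal.ofReal ε := by
  have h1 : Tendsto (fun n : ℕ => ν {x : ℝ | (n : ℝ) < |x|}) atTop
      (𝓝 (ν (⋂ n : ℕ, {x : ℝ | (n : ℝ) < |x|}))) := by
    refine tendsto_measure_iInter_atTop ?_ ?_ ?_
    · intro n
      exact (measurableSet_lt measurable_const measurable_id.abs).nullMeasurableSet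
    · intro m n hmn x hx
      have hx' : (n : ℝ) < |x| := hx
      have hmn' : (m : ℝ) ≤ n := by exact_mod_cast hmn
      exact lt_of_le_of_lt hmn' hx'
    · exact ⟨0, measure_ne_top _ _⟩
  have h2 : (⋂ n : ℕ, {x : ℝ | (n : ℝ) < |x|}) = ∅ := by
    ext x
    simp only [mem_iInter, mem_ofPred_eq, mem_empty_iff_false, iff_false, not_forall, not_lt]
    exact exists_nat_ge |x|
  rw [h2, measure_empty] at h1
  have h3 := (ENNReal.tendsto_nhds_zero.1 h1) (ENNReal.ofReal ε) (ENNReal.ofReal_pos.2 hε)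
  obtain ⟨n, hn⟩ := h3.exists
  exact ⟨n, hn⟩

theorem tight_of_mom4 {S : Set (Measure C(ℝ≥0, ℝ))} {ν : Measure ℝ} [IsProbabilityMeasure ν]
    {C : ℝ} (h0 : ∀ μ ∈ S, μ.map (fun y => y 0) = ν)
    (hi : ∀ μ ∈ S, ∀ s t : ℝ≥0, Integrable (fun y : C(ℝ≥0, ℝ) => (y t - y s) ^ 4) μ)
    (hm : ∀ μ ∈ S, ∀ s t : ℝ≥0, ∫ y : C(ℝ≥0, ℝ), (y t - y s) ^ 4 ∂μ ≤ C * ((t : ℝ) - s) ^ 2) :
    IsTightMeasureSet S := by
  rw [isTightMeasureSet_iff_exists_isCompact_measure_compl_le]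
  intro ε hε
  obtain ⟨e, he0, heε⟩ : ∃ e : ℝ, 0 < e ∧ ENNReal.ofReal e ≤ ε := by
    have h1 : min ε 1 ≠ ⊤ := ne_top_of_le_ne_top ENNReal.one_ne_top (min_le_right _ _)
    refine ⟨(min ε 1).toReal, ENNReal.toReal_pos (by positivity) h1, ?_⟩
    rw [ENNReal.ofReal_toReal h1]
    exact min_le_left _ _
  obtain ⟨A, hA⟩ := TightC_tight ν (half_pos he0)
  obtain ⟨ρ, hρ0, hρ1, q, hq, hq0, hq1⟩ : ∃ ρ : ℝ, 0 < ρ ∧ ρ < 1 ∧ ∃ q : ℝ, q = 1 / (2 * ρ ^ 4) ∧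
      0 < q ∧ q < 1 := by
    refine ⟨9 / 10, by norm_num, by norm_num, _, rfl, by norm_num, by norm_num⟩
  obtain ⟨D, hD0, hCD⟩ : ∃ D : ℝ, 0 ≤ D ∧ C ≤ D := ⟨max C 0, le_max_right _ _, le_max_left _ _⟩
  have hJ : ∀ N : ℕ, ∃ J : ℕ, D * N * q ^ J * (1 - q)⁻¹ ≤ e / 4 * (1 / 2) ^ N := by
    intro N
    have h1 : Tendsto (fun J : ℕ => D * N * q ^ J * (1 - q)⁻¹) atTop (𝓝 (D * N * 0 * (1 - q)⁻¹)) :=
      ((tendsto_pow_atTop_nhds_zero_of_lt_one hq0.le hq1).const_mul _).mul_const _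
    rw [mul_zero, zero_mul] at h1
    have h2 : 0 < e / 4 * (1 / 2) ^ N := by positivity
    exact (h1.eventually_le_const h2).exists
  choose J hJ using hJ
  refine ⟨kset ρ A J, kset_compact hρ0 hρ1 A J, fun μ hμ => ?_⟩
  have hmap := h0 μ hμ
  have hev : Measurable (fun y : C(ℝ≥0, ℝ) => y 0) := path_meas_eval 0
  have hfin : IsFiniteMeasure μ := by
    refine ⟨?_⟩
    have h1 : μ univ = ν univ := by
      rw [← hmap, Measure.map_apply hev MeasurableSet.univ, preimage_univ]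
    rw [h1]
    exact measure_lt_top _ _
  have hmD : ∀ s t : ℝ≥0, ∫ y : C(ℝ≥0, ℝ), (y t - y s) ^ 4 ∂μ ≤ D * ((t : ℝ) - s) ^ 2 :=
    fun s t => (hm μ hμ s t).trans (mul_le_mul_of_nonneg_right hCD (sq_nonneg _))
  have hsub : (kset ρ A J)ᶜ ⊆ ((fun y : C(ℝ≥0, ℝ) => y 0) ⁻¹' {x : ℝ | A < |x|}) ∪
      ⋃ N : ℕ, ⋃ i : ℕ, ⋃ k ∈ Finset.range (N * 2 ^ (J N + i)),
      {y | ρ ^ (J N + i) < |y (dy (J N + i) (k + 1)) - y (dy (J N + i) k)|} := by
    intro y hy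
    by_contra hn
    apply hy
    rw [mem_union, not_or] at hn
    refine ⟨not_lt.1 hn.1, fun N j hj k hk => ?_⟩
    by_contra hc
    apply hn.2
    rw [not_le] at hc
    obtain ⟨i, rfl⟩ := Nat.exists_eq_add_of_le hj
    simp only [mem_iUnion, Finset.mem_range]
    exact ⟨N, i, k, hk, hc⟩
  refine (measure_mono hsub).trans ((measure_union_le _ _).trans ?_)
  have e1 : μ ((fun y : C(ℝ≥0, ℝ) => y 0) ⁻¹' {x : ℝ | A < |x|}) ≤ ENNReal.ofReal (e / 2) := by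
    have hAm : MeasurableSet {x : ℝ | A < |x|} := measurableSet_lt measurable_const measurable_id.abs
    rw [← Measure.map_apply hev hAm, hmap]
    exact hA
  have e2 : μ (⋃ N : ℕ, ⋃ i : ℕ, ⋃ k ∈ Finset.range (N * 2 ^ (J N + i)),
      {y | ρ ^ (J N + i) < |y (dy (J N + i) (k + 1)) - y (dy (J N + i) k)|}) ≤
      ENNReal.ofReal (e / 2) := by
    refine (measure_iUnion_le _).trans ?_
    calc ∑' N : ℕ, μ (⋃ i : ℕ, ⋃ k ∈ Finset.range (N * 2 ^ (J N + i)),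
          {y | ρ ^ (J N + i) < |y (dy (J N + i) (k + 1)) - y (dy (J N + i) k)|})
        ≤ ∑' N : ℕ, ENNReal.ofReal (e / 4 * (1 / 2) ^ N) := by
          refine ENNReal.tsum_le_tsum (fun N => ?_)
          exact (TightC_sum hD0 (hi μ hμ) hmD hρ0 hq hq1 N (J N)).trans
            (ENNReal.ofReal_le_ofReal (hJ N))
      _ = ENNReal.ofReal (∑' N : ℕ, e / 4 * (1 / 2) ^ N) := by
          refine (ENNReal.ofReal_tsum_of_nonneg (fun i => by positivity) ?_).symm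
          exact (summable_geometric_two).mul_left _
      _ = ENNReal.ofReal (e / 2) := by
          rw [tsum_mul_left, tsum_geometric_two]
          congr 1
          ring
  refine (add_le_add e1 e2).trans ?_
  rw [← ENNReal.ofReal_add (by positivity) (by positivity), add_halves]
  exact heε

end Pool.Agent.Lib.MP_e19099_pr
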