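import Pool.Agent.Lib.MP_e19099_pr.Unique
import Pool.Agent.Lib.MP_e19099_pr.TightC

/-!
# Convergence of the laws of the interpolated paths (task A29)

The set of laws is tight by `tight_of_mom4` (`ip_mom`; law of `ip .. 0 = φ(X_0)` is `tgt p`: `S.law`, `init`).  By
`isCompact_closure_of_isTightMeasureSet` its closure is compact; every cluster point is `IsLim` (`lim_isLim` along the filter
`atTop ⊓ comap ρ (𝓝 μ)`), so they all coincide (`lim_unique`), and the sequence converges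
(`IsCompact.tendsto_nhds_of_unique_mapClusterPt`); cluster points exist by compactness.
-/

set_option autoImplicit false

open MeasureTheory ProbabilityTheory Filter Set
open scoped NNReal Topology ENNReal

namespace Pool.Agent.Lib.MP_e19099_pr

universe u

variable {E : ℕ → Type} [∀ n, MeasurableSpace (E n)] {p : ℝ → ℝ} {h : ℝ} {τ : ℕ → ℝ}
  {Pi : ∀ n, Measure (E n)} {K : ∀ n, Kernel (E n) (E n)} {φ : ∀ n, E n → ℝ}
  {Ω : ℕ → Type u} [∀ n, MeasurableSpace (Ω n)] {P : ∀ n, Measure (Ω n)}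
  {X : ∀ n, ℕ → Ω n → E n}

theorem lim_tight (S : Setup E p h τ Pi K φ) (hX : ∀ n, IsChain (P n) (X n) (Pi n) (K n)) :
    IsTightMeasureSet (range fun n => (P n).map (ip (τ n) (φ n) (X n))) := by
  haveI := tgt_prob S.dens
  obtain ⟨C, _, hC⟩ := ip_mom S hX
  have hm4 : ∀ s t : ℝ≥0, Measurable (fun y : C(ℝ≥0, ℝ) => (y t - y s) ^ 4) := fun s t =>
    ((path_meas_eval t).sub (path_meas_eval s)).pow_const 4
  refine tight_of_mom4 (ν := tgt p) (C := C) ?_ ?_ ?_
  · rintro μ ⟨n, rfl⟩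
    show ((P n).map (ip (τ n) (φ n) (X n))).map (fun y => y 0) = tgt p
    rw [Measure.map_map (path_meas_eval 0) (ip_meas S hX n)]
    have h0 : ((fun y : C(ℝ≥0, ℝ) => y 0) ∘ ip (τ n) (φ n) (X n)) = φ n ∘ X n 0 := by
      funext ω
      exact interp_grid (S.tpos n) (fun k => φ n (X n k ω)) 0 0 (by simp)
    rw [h0, ← Measure.map_map (S.meas n) ((hX n).meas 0), (hX n).init, S.law n]
  · rintro μ ⟨n, rfl⟩ s t
    show Integrable _ ((P n).map (ip (τ n) (φ n) (X n)))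
    rw [integrable_map_measure (hm4 s t).aestronglyMeasurable (ip_meas S hX n).aemeasurable]
    exact (hC n s t).1
  · rintro μ ⟨n, rfl⟩ s t
    show ∫ y : C(ℝ≥0, ℝ), (y t - y s) ^ 4 ∂((P n).map (ip (τ n) (φ n) (X n))) ≤ _
    rw [integral_map (ip_meas S hX n).aemeasurable (hm4 s t).aestronglyMeasurable]
    exact (hC n s t).2

theorem lim_law (S : Setup E p h τ Pi K φ) (hX : ∀ n, IsChain (P n) (X n) (Pi n) (K n))
    {ρ : ℕ → ProbabilityMeasure C(ℝ≥0, ℝ)}
    (hρ : ∀ n, (ρ n : Measure C(ℝ≥0, ℝ)) = (P n).map (ip (τ n) (φ n) (X n))) :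
    ∃ μ : ProbabilityMeasure C(ℝ≥0, ℝ), IsLim p h (μ : Measure C(ℝ≥0, ℝ)) ∧
      Tendsto ρ atTop (𝓝 μ) := by
  have htight : IsTightMeasureSet
      {((μ : ProbabilityMeasure C(ℝ≥0, ℝ)) : Measure C(ℝ≥0, ℝ)) | μ ∈ range ρ} := by
    have h1 : {((μ : ProbabilityMeasure C(ℝ≥0, ℝ)) : Measure C(ℝ≥0, ℝ)) | μ ∈ range ρ}
        = range fun n => (P n).map (ip (τ n) (φ n) (X n)) := by
      ext μ
      constructor
      · rintro ⟨_, ⟨n, rfl⟩, rfl⟩
        exact ⟨n, (hρ n).symm⟩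
      · rintro ⟨n, rfl⟩
        exact ⟨ρ n, ⟨n, rfl⟩, hρ n⟩
    rw [h1]
    exact lim_tight S hX
  have hcomp : IsCompact (closure (range ρ)) := isCompact_closure_of_isTightMeasureSet htight
  have hmem : ∀ᶠ n in (atTop : Filter ℕ), ρ n ∈ closure (range ρ) :=
    Eventually.of_forall fun n => subset_closure (mem_range_self n)
  have hlim : ∀ μ : ProbabilityMeasure C(ℝ≥0, ℝ), MapClusterPt μ atTop ρ →
      IsLim p h (μ : Measure C(ℝ≥0, ℝ)) := by
    intro μ hμ
    obtain ⟨U, hU1, hU2⟩ := mapClusterPt_iff_ultrafilter.1 hμ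
    exact lim_isLim S hX hρ hU1 hU2
  obtain ⟨μ, _, hμ⟩ := hcomp.exists_mapClusterPt (u := ρ) (f := atTop)
    (by rw [le_principal_iff]; exact hmem)
  refine ⟨μ, hlim μ hμ, hcomp.tendsto_nhds_of_unique_mapClusterPt hmem fun ν _ hν => ?_⟩
  exact Subtype.ext (lim_unique S (hlim ν hν) (hlim μ hμ))

end Pool.Agent.Lib.MP_e19099_pr
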