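import Pool.Agent.Lib.MP_e19099_pr.J1
import Pool.Agent.Lib.MP_e19099_pr.LimLaw

/-!
# From the interpolated paths to the step paths (task A32)

`osc_small`: `sup_{t ≤ T} |stepPath - ip| ≤ max_{k ≤ T/τ} |φ(X_{k+1}) - φ(X_k)|` (`interp_step`), and by Markov's inequality the probability that this
exceeds `δ` is `≤ (T/τ + 1) C τ² / δ⁴ → 0` (law of `(X_k, X_{k+1})` by `IsChain.edge`, `S.mom`).
`pass_step`: `|∫ Φ(stepPath) - ∫ Φ(toD ip)| ≤ ε + 2C (P(ip ∉ A) + P(osc > δ))` with a compact `A` from tightness (`lim_tight`)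
and `δ, T` from `j1_compact`; and `∫ Φ(toD ip) dP = ∫ Φ ∘ toD dρ n → ∫ Φ ∘ toD dμ` (`j1_cont_toD`, bounded).
The set `{∃ t ≤ T, |stepPath t - ip t| > δ}` is contained in the finite union over `k ≤ T/τ` of the measurable sets
`{|φ(X_{k+1}) - φ(X_k)| > δ}`, use this union.
-/

set_option autoImplicit false

open MeasureTheory ProbabilityTheory Filter Set
open scoped NNReal Topology ENNReal

namespace Pool.Agent.Lib.MP_e19099_pr

universe u

variable {E : ℕ → Type} [∀ n, MeasurableSpace (E n)] {p : ℝ → ℝ} {h : ℝ} {τ : ℕ → ℝ}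
  {Pi : ∀ n, Measure (E n)} {K : ∀ n, Kernel (E n) (E n)} {φ : ∀ n, E n → ℝ}
  {Ω : ℕ → Type u} [∀ n, MeasurableSpace (Ω n)] {P : ∀ n, Measure (Ω n)}
  {X : ∀ n, ℕ → Ω n → E n}

/-- the step path of the observable along the chain -/
noncomputable def sp {Ω E : Type*} (τ : ℝ) (φ : E → ℝ) (X : ℕ → Ω → E) (ω : Ω) : D :=
  stepPath τ (fun k => φ (X k ω))

private theorem osc_one (S : Setup E p h τ Pi K φ) (hX : ∀ n, IsChain (P n) (X n) (Pi n) (K n))
    {C : ℝ} (hC : ∀ n, ∫ z : E n × E n, (φ n z.2 - φ n z.1) ^ 4 ∂(Pi n ⊗ₘ K n) ≤ C * τ n ^ 2)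
    {δ : ℝ} (hδ : 0 < δ) (n k : ℕ) :
    (P n).real {ω | δ < |φ n (X n (k + 1) ω) - φ n (X n k ω)|} ≤ C * τ n ^ 2 / δ ^ 4 := by
  have hXn := hX n
  have := hXn.prob (S.rev n)
  have hm : Measurable fun ω => (X n k ω, X n (k + 1) ω) := (hXn.meas k).prodMk (hXn.meas (k + 1))
  have hF : Measurable fun z : E n × E n => (φ n z.2 - φ n z.1) ^ 4 := by
    have h1 : Measurable fun z : E n × E n => φ n z.2 := (S.meas n).comp measurable_snd
    have h2 : Measurable fun z : E n × E n => φ n z.1 := (S.meas n).comp measurable_fst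
    exact (h1.sub h2).pow_const 4
  have hint : Integrable (fun ω => (φ n (X n (k + 1) ω) - φ n (X n k ω)) ^ 4) (P n) := by
    have := S.int4 n
    rw [← hXn.edge (S.rev n) k, integrable_map_measure hF.aestronglyMeasurable hm.aemeasurable]
      at this
    exact this
  have hval : ∫ ω, (φ n (X n (k + 1) ω) - φ n (X n k ω)) ^ 4 ∂(P n) ≤ C * τ n ^ 2 := by
    have := hC n
    rw [← hXn.edge (S.rev n) k, integral_map hm.aemeasurable hF.aestronglyMeasurable] at this
    exact this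
  have h1 := mul_meas_ge_le_integral_of_nonneg (μ := P n)
    (f := fun ω => (φ n (X n (k + 1) ω) - φ n (X n k ω)) ^ 4)
    (Eventually.of_forall fun ω => by positivity) hint (δ ^ 4)
  have h2 : (P n).real {ω | δ < |φ n (X n (k + 1) ω) - φ n (X n k ω)|} ≤
      (P n).real {ω | δ ^ 4 ≤ (φ n (X n (k + 1) ω) - φ n (X n k ω)) ^ 4} := by
    refine measureReal_mono (fun ω hω => ?_) (measure_ne_top _ _)
    simp only [mem_ofPred_eq] at hω ⊢
    have := pow_le_pow_left₀ hδ.le (le_of_lt hω) 4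
    calc δ ^ 4 ≤ |φ n (X n (k + 1) ω) - φ n (X n k ω)| ^ 4 := this
      _ = _ := by rw [← abs_pow, abs_of_nonneg (by positivity)]
  rw [le_div_iff₀ (by positivity)]
  calc (P n).real {ω | δ < |φ n (X n (k + 1) ω) - φ n (X n k ω)|} * δ ^ 4
      ≤ (P n).real {ω | δ ^ 4 ≤ (φ n (X n (k + 1) ω) - φ n (X n k ω)) ^ 4} * δ ^ 4 := by gcongr
    _ = δ ^ 4 * (P n).real {ω | δ ^ 4 ≤ (φ n (X n (k + 1) ω) - φ n (X n k ω)) ^ 4} := mul_comm _ _
    _ ≤ _ := h1
    _ ≤ _ := hval

theorem osc_small (S : Setup E p h τ Pi K φ) (hX : ∀ n, IsChain (P n) (X n) (Pi n) (K n))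
    (T : ℝ≥0) {δ : ℝ} (hδ : 0 < δ) :
    Tendsto (fun n => (P n).real {ω | ∃ k ≤ ⌊(T : ℝ) / τ n⌋₊,
      δ < |φ n (X n (k + 1) ω) - φ n (X n k ω)|}) atTop (𝓝 0) := by
  obtain ⟨C, hC⟩ := S.mom
  have hbd : ∀ n, (P n).real {ω | ∃ k ≤ ⌊(T : ℝ) / τ n⌋₊,
      δ < |φ n (X n (k + 1) ω) - φ n (X n k ω)|} ≤ (T * τ n + τ n ^ 2) * (C / δ ^ 4) := by
    intro n
    have hτ := S.tpos n
    have := (hX n).prob (S.rev n)
    have hCn : 0 ≤ C := by
      have h1 : 0 ≤ C * τ n ^ 2 := le_trans (integral_nonneg fun z => by positivity) (hC n)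
      exact nonneg_of_mul_nonneg_left h1 (by positivity)
    have hset : {ω | ∃ k ≤ ⌊(T : ℝ) / τ n⌋₊, δ < |φ n (X n (k + 1) ω) - φ n (X n k ω)|}
        = ⋃ k ∈ Finset.range (⌊(T : ℝ) / τ n⌋₊ + 1),
          {ω | δ < |φ n (X n (k + 1) ω) - φ n (X n k ω)|} := by
      ext ω
      simp only [mem_ofPred_eq, mem_iUnion, Finset.mem_range, exists_prop, Nat.lt_succ_iff]
    rw [hset]
    refine (measureReal_biUnion_finset_le _ _).trans ?_
    refine (Finset.sum_le_sum fun k _ => osc_one S hX hC hδ n k).trans ?_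
    rw [Finset.sum_const, Finset.card_range, nsmul_eq_mul]
    have h1 : ((⌊(T : ℝ) / τ n⌋₊ + 1 : ℕ) : ℝ) ≤ T / τ n + 1 := by
      push_cast
      have := Nat.floor_le (div_nonneg T.coe_nonneg hτ.le)
      linarith
    calc ((⌊(T : ℝ) / τ n⌋₊ + 1 : ℕ) : ℝ) * (C * τ n ^ 2 / δ ^ 4)
        ≤ (T / τ n + 1) * (C * τ n ^ 2 / δ ^ 4) := by gcongr
      _ = (T * τ n + τ n ^ 2) * (C / δ ^ 4) := by field_simp
  refine squeeze_zero (fun n => measureReal_nonneg) hbd ?_
  have h1 : Tendsto (fun n => ((T : ℝ) * τ n + τ n ^ 2) * (C / δ ^ 4)) atTop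
      (𝓝 (((T : ℝ) * 0 + 0 ^ 2) * (C / δ ^ 4))) :=
    ((S.tlim.const_mul _).add (S.tlim.pow 2)).mul_const _
  simpa using h1

theorem pass_step (S : Setup E p h τ Pi K φ) (hX : ∀ n, IsChain (P n) (X n) (Pi n) (K n))
    {ρ : ℕ → ProbabilityMeasure C(ℝ≥0, ℝ)}
    (hρ : ∀ n, (ρ n : Measure C(ℝ≥0, ℝ)) = (P n).map (ip (τ n) (φ n) (X n)))
    {μ : ProbabilityMeasure C(ℝ≥0, ℝ)} (hμ : Tendsto ρ atTop (𝓝 μ)) :
    TendstoWeakly (fun n => (P n).map (sp (τ n) (φ n) (X n)))
      ((μ : Measure C(ℝ≥0, ℝ)).map toD) := by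
  intro Φ hΦm hΦb hΦ
  obtain ⟨C, hC⟩ := hΦb
  have hspm : ∀ n, Measurable (sp (τ n) (φ n) (X n)) := fun n =>
    stepPath_meas (τ n) fun k => (S.meas n).comp ((hX n).meas k)
  have hipm : ∀ n, Measurable (ip (τ n) (φ n) (X n)) := ip_meas S hX
  have hcont : Continuous fun y => Φ (toD y) := j1_cont_toD hΦ
  -- the bounded continuous functional on the path space
  let F : BoundedContinuousFunction C(ℝ≥0, ℝ) ℝ :=
    BoundedContinuousFunction.ofNormedAddCommGroup (fun y => Φ (toD y)) hcont C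
      (fun y => by rw [Real.norm_eq_abs]; exact hC _)
  have h1 : Tendsto (fun n => ∫ ω, Φ (toD (ip (τ n) (φ n) (X n) ω)) ∂(P n)) atTop
      (𝓝 (∫ x, Φ x ∂((μ : Measure C(ℝ≥0, ℝ)).map toD))) := by
    have h2 := (ProbabilityMeasure.tendsto_iff_forall_integral_tendsto.1 hμ) F
    rw [integral_map toD_meas.aemeasurable hΦm.aestronglyMeasurable]
    refine h2.congr fun n => ?_
    rw [hρ n, integral_map (hipm n).aemeasurable (F.continuous.measurable.aestronglyMeasurable)]
    rfl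
  have h3 : ∀ n, ∫ x, Φ x ∂((P n).map (sp (τ n) (φ n) (X n)))
      = ∫ ω, Φ (sp (τ n) (φ n) (X n) ω) ∂(P n) := fun n =>
    integral_map (hspm n).aemeasurable hΦm.aestronglyMeasurable
  simp only [h3]
  have h4 : Tendsto (fun n => ∫ ω, Φ (sp (τ n) (φ n) (X n) ω) ∂(P n)
      - ∫ ω, Φ (toD (ip (τ n) (φ n) (X n) ω)) ∂(P n)) atTop (𝓝 0) := by
    rw [Metric.tendsto_atTop']
    intro η hη
    have hC0 : 0 < |C| + 1 := by positivity
    have hC1 : ∀ x, |Φ x| ≤ |C| + 1 := fun x => (hC x).trans ((le_abs_self C).trans (by linarith))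
    set C' := |C| + 1 with hC'
    obtain ⟨A, hA, hAm⟩ := isTightMeasureSet_iff_exists_isCompact_measure_compl_le.1
      (lim_tight S hX) (ENNReal.ofReal (η / (8 * C'))) (ENNReal.ofReal_pos.2 (by positivity))
    obtain ⟨δ, T, hδ, hAT⟩ := j1_compact hΦ hA (ε := η / 8) (by positivity)
    have hosc := (osc_small S hX T hδ).eventually (gt_mem_nhds (show 0 < η / (8 * C') by positivity))
    obtain ⟨N, hN⟩ := eventually_atTop.1 hosc
    refine ⟨N, fun n hn => ?_⟩
    have hoscn := hN n hn.le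
    have := (hX n).prob (S.rev n)
    set O := {ω | ∃ k ≤ ⌊(T : ℝ) / τ n⌋₊, δ < |φ n (X n (k + 1) ω) - φ n (X n k ω)|} with hO
    have hOm : MeasurableSet O := by
      have : O = ⋃ k ∈ Finset.range (⌊(T : ℝ) / τ n⌋₊ + 1),
          {ω | δ < |φ n (X n (k + 1) ω) - φ n (X n k ω)|} := by
        ext ω
        simp only [hO, mem_ofPred_eq, mem_iUnion, Finset.mem_range, exists_prop, Nat.lt_succ_iff]
      rw [this]
      refine Finset.measurableSet_biUnion _ fun k _ => measurableSet_lt measurable_const ?_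
      have e1 := (S.meas n).comp ((hX n).meas (k + 1))
      have e2 := (S.meas n).comp ((hX n).meas k)
      exact (e1.sub e2).abs
    set B := (ip (τ n) (φ n) (X n)) ⁻¹' Aᶜ with hB
    have hAc : MeasurableSet Aᶜ := hA.isClosed.measurableSet.compl
    have hBm : MeasurableSet B := (hipm n) hAc
    have hBr : (P n).real B ≤ η / (8 * C') := by
      have h5 := hAm _ (mem_range_self n)
      rw [Measure.map_apply (hipm n) hAc] at h5
      rw [measureReal_def]
      refine (ENNReal.toReal_mono ENNReal.ofReal_ne_top h5).trans ?_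
      rw [ENNReal.toReal_ofReal (by positivity)]
    have hpt : ∀ ω, |Φ (sp (τ n) (φ n) (X n) ω) - Φ (toD (ip (τ n) (φ n) (X n) ω))|
        ≤ η / 8 + (2 * C') * (B.indicator (fun _ => (1 : ℝ)) ω)
          + (2 * C') * (O.indicator (fun _ => (1 : ℝ)) ω) := by
      intro ω
      have htriv : |Φ (sp (τ n) (φ n) (X n) ω) - Φ (toD (ip (τ n) (φ n) (X n) ω))| ≤ 2 * C' := by
        refine (abs_sub _ _).trans ?_
        have := hC1 (sp (τ n) (φ n) (X n) ω)
        have := hC1 (toD (ip (τ n) (φ n) (X n) ω))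
        linarith
      by_cases hωB : ω ∈ B
      · rw [indicator_of_mem hωB]
        have : 0 ≤ (2 * C') * (O.indicator (fun _ => (1 : ℝ)) ω) :=
          mul_nonneg (by positivity) (indicator_nonneg (fun _ _ => zero_le_one) _)
        linarith
      · by_cases hωO : ω ∈ O
        · rw [indicator_of_mem hωO]
          have : 0 ≤ (2 * C') * (B.indicator (fun _ => (1 : ℝ)) ω) :=
            mul_nonneg (by positivity) (indicator_nonneg (fun _ _ => zero_le_one) _)
          linarith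
        · rw [indicator_of_notMem hωB, indicator_of_notMem hωO]
          have hmem : ip (τ n) (φ n) (X n) ω ∈ A := by
            by_contra hcon
            exact hωB hcon
          have := hAT _ hmem (sp (τ n) (φ n) (X n) ω) (fun t ht => ?_)
          · linarith
          · refine (interp_step (S.tpos n) (fun k => φ n (X n k ω)) t).trans ?_
            by_contra hcon
            refine hωO ⟨⌊(t : ℝ) / τ n⌋₊, Nat.floor_mono ?_, not_le.1 hcon⟩
            have h1 : (t : ℝ) ≤ T := by exact_mod_cast ht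
            have h2 := S.tpos n
            gcongr
    have hi1 : Integrable (fun ω => Φ (sp (τ n) (φ n) (X n) ω)) (P n) :=
      Integrable.of_bound (hΦm.comp (hspm n)).aestronglyMeasurable C'
        (Eventually.of_forall fun ω => hC1 _)
    have hi2 : Integrable (fun ω => Φ (toD (ip (τ n) (φ n) (X n) ω))) (P n) :=
      Integrable.of_bound (hΦm.comp (toD_meas.comp (hipm n))).aestronglyMeasurable C'
        (Eventually.of_forall fun ω => hC1 _)
    have hiB : Integrable (B.indicator (fun _ => (1 : ℝ))) (P n) :=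
      (integrable_const 1).indicator hBm
    have hiO : Integrable (O.indicator (fun _ => (1 : ℝ))) (P n) :=
      (integrable_const 1).indicator hOm
    rw [Real.dist_eq, sub_zero, ← integral_sub hi1 hi2]
    calc |∫ ω, (Φ (sp (τ n) (φ n) (X n) ω) - Φ (toD (ip (τ n) (φ n) (X n) ω))) ∂(P n)|
        ≤ ∫ ω, |Φ (sp (τ n) (φ n) (X n) ω) - Φ (toD (ip (τ n) (φ n) (X n) ω))| ∂(P n) :=
          abs_integral_le_integral_abs
      _ ≤ ∫ ω, (η / 8 + (2 * C') * (B.indicator (fun _ => (1 : ℝ)) ω)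
          + (2 * C') * (O.indicator (fun _ => (1 : ℝ)) ω)) ∂(P n) :=
          integral_mono (hi1.sub hi2).abs
            (((integrable_const _).add (hiB.const_mul _)).add (hiO.const_mul _)) hpt
      _ = η / 8 + (2 * C') * (P n).real B + (2 * C') * (P n).real O := by
          rw [integral_add (f := fun ω => η / 8 + (2 * C') * (B.indicator (fun _ => (1 : ℝ)) ω))
              ((integrable_const _).add (hiB.const_mul _)) (hiO.const_mul _),
            integral_add (integrable_const _) (hiB.const_mul _), integral_const_mul,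
            integral_const_mul, integral_indicator_const _ hBm, integral_indicator_const _ hOm,
            integral_const, probReal_univ]
          simp
      _ ≤ η / 8 + (2 * C') * (η / (8 * C')) + (2 * C') * (η / (8 * C')) := by
          gcongr
      _ = 5 * η / 8 := by field_simp; ring
      _ < η := by linarith
  have h5 := h4.add h1
  rw [zero_add] at h5
  refine h5.congr fun n => ?_
  ring

end Pool.Agent.Lib.MP_e19099_pr
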