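import Pool.Agent.Lib.MP_e19099_pr.Defs

/-!
# Uniqueness for Laplace transforms (task A27)

For `g` continuous and bounded with `∫₀^∞ e^{-k t} g t = 0` for `k = 1, 2, …`: put `ψ(x) = x · g(-log x)` on `(0, 1]`, `ψ(0) = 0`,
continuous on `[0, 1]`; substituting `x = e^{-t}`, `∫₀¹ x^{k} ψ(x) dx = ∫₀^∞ e^{-(k+2) t} g(t) dt = 0` for `k ≥ 0`.  By Weierstrass
(`polynomialFunctions_closure_eq_top` or `exists_polynomial_near_of_continuousOn`) `∫ ψ² = 0`, so `ψ = 0`.
(Alternatively work directly on `Ioi 0` with the algebra generated by `e^{-t}`.)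
-/

set_option autoImplicit false

open MeasureTheory ProbabilityTheory Filter Set
open scoped NNReal Topology ENNReal

namespace Pool.Agent.Lib.MP_e19099_pr

namespace LaplaceAux

private noncomputable def psi (g : ℝ → ℝ) (x : ℝ) : ℝ := x * g (-Real.log x)

private lemma psi_cont {g : ℝ → ℝ} (hc : ContinuousOn g (Ici 0)) {C : ℝ} (hb : ∀ t, |g t| ≤ C) :
    ContinuousOn (psi g) (Icc 0 1) := by
  intro x hx
  rcases eq_or_lt_of_le hx.1 with h0 | h0
  · subst h0
    have h1 : Tendsto (fun x : ℝ => C * |x|) (𝓝[Icc 0 1] 0) (𝓝 0) := by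
      have : Continuous (fun x : ℝ => C * |x|) := by fun_prop
      have h2 := this.tendsto 0
      simp only [abs_zero, mul_zero] at h2
      exact h2.mono_left nhdsWithin_le_nhds
    have h3 : Tendsto (psi g) (𝓝[Icc 0 1] 0) (𝓝 0) := by
      apply squeeze_zero_norm (fun y => ?_) h1
      unfold psi
      rw [Real.norm_eq_abs, abs_mul, mul_comm]
      exact mul_le_mul_of_nonneg_right (hb _) (abs_nonneg _)
    unfold ContinuousWithinAt
    have h4 : psi g 0 = 0 := by simp [psi]
    rw [h4]
    exact h3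
  · unfold psi
    have h1 : ContinuousWithinAt (fun x : ℝ => -Real.log x) (Icc 0 1) x :=
      (Real.continuousAt_log h0.ne').neg.continuousWithinAt
    have h2 : MapsTo (fun x : ℝ => -Real.log x) (Icc 0 1) (Ici 0) := by
      intro y hy
      simp only [mem_Ici, Left.nonneg_neg_iff]
      exact Real.log_nonpos hy.1 hy.2
    have h3 : ContinuousWithinAt g (Ici 0) (-Real.log x) := hc _ (h2 hx)
    exact continuousWithinAt_id.mul (ContinuousWithinAt.comp (f := fun x : ℝ => -Real.log x) h3 h1 h2)

private lemma image_exp : (fun t : ℝ => Real.exp (-t)) '' (Ioi 0) = Ioo 0 1 := by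
  ext x
  constructor
  · rintro ⟨t, ht, rfl⟩
    exact ⟨Real.exp_pos _, by
      rw [Real.exp_lt_one_iff]; exact neg_lt_zero.mpr ht⟩
  · intro hx
    refine ⟨-Real.log x, ?_, ?_⟩
    · simp only [mem_Ioi, Left.neg_pos_iff]
      exact Real.log_neg hx.1 hx.2
    · simp only [neg_neg]
      exact Real.exp_log hx.1

private lemma moment {g : ℝ → ℝ}
    (h : ∀ lam : ℝ, 0 < lam → ∫ t in Ioi (0 : ℝ), Real.exp (-lam * t) * g t = 0) (k : ℕ) :
    ∫ x in Ioo (0 : ℝ) 1, x ^ k * psi g x = 0 := by
  have h1 := MeasureTheory.integral_image_eq_integral_abs_deriv_smul (s := Ioi (0 : ℝ))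
    (f := fun t : ℝ => Real.exp (-t)) (f' := fun t : ℝ => -Real.exp (-t)) measurableSet_Ioi
    (fun t _ => by
      have := ((hasDerivAt_id t).neg).exp
      simpa using this.hasDerivWithinAt)
    (fun a _ b _ hab => by
      have := Real.exp_injective hab
      linarith)
    (fun x : ℝ => x ^ k * psi g x)
  rw [image_exp] at h1
  rw [h1]
  refine Eq.trans ?_ (h (k + 2) (by positivity))
  apply setIntegral_congr_fun measurableSet_Ioi
  intro t _
  simp only [psi, abs_neg, smul_eq_mul, Real.log_exp, neg_neg]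
  rw [abs_of_pos (Real.exp_pos _), ← Real.exp_nat_mul]
  have : Real.exp (-((k : ℝ) + 2) * t) = Real.exp (-t) * Real.exp (k * -t) * Real.exp (-t) := by
    rw [← Real.exp_add, ← Real.exp_add]
    congr 1
    ring
  rw [this]
  ring

private lemma moment_poly {g : ℝ → ℝ} (hc : ContinuousOn g (Ici 0)) {C : ℝ} (hb : ∀ t, |g t| ≤ C)
    (h : ∀ lam : ℝ, 0 < lam → ∫ t in Ioi (0 : ℝ), Real.exp (-lam * t) * g t = 0)
    (p : Polynomial ℝ) :
    ∫ x in (0 : ℝ)..1, p.eval x * psi g x = 0 := by
  have hk : ∀ k : ℕ, ∫ x in (0 : ℝ)..1, x ^ k * psi g x = 0 := by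
    intro k
    rw [intervalIntegral.integral_of_le zero_le_one, integral_Ioc_eq_integral_Ioo]
    exact moment h k
  have hci := psi_cont hc hb
  induction p using Polynomial.induction_on' with
  | add p q hp hq =>
    have h1 : ∀ r : Polynomial ℝ, IntervalIntegrable (fun x => r.eval x * psi g x) volume 0 1 := by
      intro r
      apply ContinuousOn.intervalIntegrable
      rw [uIcc_of_le zero_le_one]
      exact r.continuous.continuousOn.mul hci
    simp only [Polynomial.eval_add, add_mul]
    rw [intervalIntegral.integral_add (h1 p) (h1 q), hp, hq, add_zero]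
  | monomial n a =>
    simp only [Polynomial.eval_monomial, mul_assoc]
    rw [intervalIntegral.integral_const_mul, hk, mul_zero]

end LaplaceAux

open LaplaceAux in
theorem laplace_unique {g : ℝ → ℝ} (hc : ContinuousOn g (Ici 0)) {C : ℝ} (hb : ∀ t, |g t| ≤ C)
    (h : ∀ lam : ℝ, 0 < lam → ∫ t in Ioi (0 : ℝ), Real.exp (-lam * t) * g t = 0) :
    ∀ t, 0 ≤ t → g t = 0 := by
  have hci := psi_cont hc hb
  have hC : 0 ≤ C := (abs_nonneg _).trans (hb 0)
  have hpsi : ∀ x ∈ Icc (0 : ℝ) 1, |psi g x| ≤ C := by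
    intro x hx
    unfold psi
    rw [abs_mul, abs_of_nonneg hx.1]
    calc x * |g (-Real.log x)| ≤ 1 * C :=
          mul_le_mul hx.2 (hb _) (abs_nonneg _) zero_le_one
      _ = C := one_mul C
  -- the square integral vanishes
  have hsq : ∀ ε : ℝ, 0 < ε → ∫ x in (0 : ℝ)..1, psi g x * psi g x ≤ ε * C := by
    intro ε hε
    obtain ⟨p, hp⟩ := exists_polynomial_near_of_continuousOn 0 1 (psi g) hci ε hε
    have h0 := moment_poly hc hb h p
    have hI1 : IntervalIntegrable (fun x => psi g x * psi g x) volume 0 1 := by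
      apply ContinuousOn.intervalIntegrable
      rw [uIcc_of_le zero_le_one]
      exact hci.mul hci
    have hI2 : IntervalIntegrable (fun x => p.eval x * psi g x) volume 0 1 := by
      apply ContinuousOn.intervalIntegrable
      rw [uIcc_of_le zero_le_one]
      exact p.continuous.continuousOn.mul hci
    have h1 : ∫ x in (0 : ℝ)..1, psi g x * psi g x
        = ∫ x in (0 : ℝ)..1, (psi g x * psi g x - p.eval x * psi g x) := by
      rw [intervalIntegral.integral_sub hI1 hI2, h0, sub_zero]
    rw [h1]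
    have h2 : ∫ x in (0 : ℝ)..1, (psi g x * psi g x - p.eval x * psi g x)
        ≤ ∫ x in (0 : ℝ)..1, ε * C := by
      apply intervalIntegral.integral_mono_on zero_le_one (hI1.sub hI2)
        intervalIntegrable_const
      intro x hx
      have h3 := hp x hx
      have h4 := hpsi x hx
      calc psi g x * psi g x - p.eval x * psi g x = -((p.eval x - psi g x) * psi g x) := by ring
        _ ≤ |(p.eval x - psi g x) * psi g x| := neg_le_abs _
        _ = |p.eval x - psi g x| * |psi g x| := abs_mul _ _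
        _ ≤ ε * C := mul_le_mul h3.le h4 (abs_nonneg _) hε.le
    refine h2.trans (le_of_eq ?_)
    simp
  have hsq0 : ∫ x in (0 : ℝ)..1, psi g x * psi g x ≤ 0 := by
    apply le_of_forall_pos_le_add
    intro δ hδ
    have h5 := hsq (δ / (C + 1)) (by positivity)
    refine h5.trans ?_
    rw [zero_add, div_mul_eq_mul_div, div_le_iff₀ (by positivity)]
    nlinarith
  have hzero : ∀ x ∈ Icc (0 : ℝ) 1, psi g x = 0 := by
    intro x hx
    by_contra hne
    have h6 : 0 < ∫ x in (0 : ℝ)..1, psi g x * psi g x := by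
      apply intervalIntegral.integral_pos zero_lt_one (hci.mul hci)
      · intro y _
        exact mul_self_nonneg _
      · exact ⟨x, hx, mul_self_pos.mpr hne⟩
    linarith
  intro t ht
  have h7 := hzero (Real.exp (-t)) ⟨(Real.exp_pos _).le, by
    rw [Real.exp_le_one_iff]; linarith⟩
  unfold psi at h7
  rw [Real.log_exp, neg_neg] at h7
  rcases mul_eq_zero.mp h7 with h8 | h8
  · exact absurd h8 (Real.exp_pos _).ne'
  · exact h8

end Pool.Agent.Lib.MP_e19099_pr
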