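import Pool.Agent.Lib.MP_e19099_pr.Setup

/-!
# Strong convergence of the resolvents (task A12b)

Let `ε > 0`, `v = vf p q a`, `g = lam v - L v` with `∫ (g - f)² dtgt ≤ ε`, `∫ (v - u)² dtgt ≤ ε` (`res_exists`), and
`w n = U n - v ∘ φ n`.  By `en_sub`, `resv_weak` (for `U, U` and for `U, v`),
`lam ∫ w² + en w w = ∫ f U - 2 ∫ f v + lam ∫ v² + en v v`
`= ∫ (f - g) U + [∫ g U - ∫ f v] - ∫ f v + [lam ∫ v² + en v v]`, and the brackets converge to `0` (`setup_Uv`) and to
`∫ v g` (`setup_vv`).  So `limsup lam ∫ w² ≤ √ε C/lam + ∫ v (g - f) ≤ √ε C / lam + √ε ‖v‖` and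
`‖v‖ ≤ (1/lam) ‖g‖ ≤ (1/lam) (C + √ε)` (`core_coercive`).  Finally `‖U - u∘φ‖ ≤ ‖w‖ + ‖v - u‖`.
`res_bdd`: `|U n| ≤ C/lam`, and `U n - u ∘ φ n → 0` in `L²`, so `|u| ≤ C/lam` `tgt p`-a.e. and `u` is continuous
(for a.e. statement: `∫ (|u| - C/lam)₊² dtgt ≤ ∫ |U n - u ∘ φ n|² → 0`).
-/

set_option autoImplicit false

open MeasureTheory ProbabilityTheory Filter Set
open scoped NNReal Topology ENNReal

namespace Pool.Agent.Lib.MP_e19099_pr

variable {E : ℕ → Type} [∀ n, MeasurableSpace (E n)] {p : ℝ → ℝ} {h : ℝ} {τ : ℕ → ℝ}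
  {Pi : ∀ n, Measure (E n)} {K : ∀ n, Kernel (E n) (E n)} {φ : ∀ n, E n → ℝ}

namespace Strong

/-- a bounded measurable function is integrable -/
theorem mb_int {X : Type*} [MeasurableSpace X] {μ : Measure X} [IsFiniteMeasure μ] {C : ℝ}
    {f : X → ℝ} (hf : MB C f) : Integrable f μ :=
  Integrable.of_bound hf.meas.aestronglyMeasurable C (Eventually.of_forall hf.bdd)

theorem mb_mul {X : Type*} [MeasurableSpace X] {C C' : ℝ} {f g : X → ℝ} (hf : MB C f)
    (hg : MB C' g) : MB (C * C') (fun x => f x * g x) :=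
  ⟨hf.meas.mul hg.meas, fun x => by
    rw [abs_mul]
    exact mul_le_mul (hf.bdd x) (hg.bdd x) (abs_nonneg _) (hf.nonneg x)⟩

theorem mb_sub {X : Type*} [MeasurableSpace X] {C C' : ℝ} {f g : X → ℝ} (hf : MB C f)
    (hg : MB C' g) : MB (C + C') (fun x => f x - g x) :=
  ⟨hf.meas.sub hg.meas, fun x => (abs_sub _ _).trans (add_le_add (hf.bdd x) (hg.bdd x))⟩

theorem mb_sq {X : Type*} [MeasurableSpace X] {C : ℝ} {f : X → ℝ} (hf : MB C f) :
    MB (C * C) (fun x => f x ^ 2) := by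
  have h1 := mb_mul hf hf
  have e : (fun x => f x * f x) = fun x => f x ^ 2 := by funext x; ring
  rwa [e] at h1

theorem mb_phi (S : Setup E p h τ Pi K φ) {C : ℝ} {f : ℝ → ℝ} (hf : MB C f) (n : ℕ) :
    MB C (fun x => f (φ n x)) := ⟨hf.meas.comp (S.meas n), fun x => hf.bdd _⟩

theorem mb_vf (S : Setup E p h τ Pi K φ) {q : ℝ → ℝ} (hq : IsTest q) (a : ℝ) :
    ∃ C, MB C (vf p q a) := by
  obtain ⟨C, hC⟩ := vf_bdd S.dens hq a
  exact ⟨C, (vf_cont S.dens hq a).measurable, hC⟩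

theorem mb_gen (S : Setup E p h τ Pi K φ) {q : ℝ → ℝ} (hq : IsTest q) :
    ∃ C, MB C (gen h p q) := by
  obtain ⟨C, hC⟩ := gen_bdd S.dens hq h
  exact ⟨C, (gen_cont S.dens hq h).measurable, hC⟩

theorem mb_g (S : Setup E p h τ Pi K φ) {q : ℝ → ℝ} (hq : IsTest q) (a lam : ℝ) :
    ∃ C, MB C (fun x => lam * vf p q a x - gen h p q x) := by
  obtain ⟨C₁, h1⟩ := mb_vf S hq a
  obtain ⟨C₂, h2⟩ := mb_gen S hq
  have h3 : MB (|lam|) (fun _ : ℝ => lam) := ⟨measurable_const, fun _ => le_rfl⟩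
  exact ⟨_, mb_sub (mb_mul h3 h1) h2⟩

end Strong

open Strong

/-- the exact identity for `w = U - v` -/
theorem strong_identity (S : Setup E p h τ Pi K φ) {lam C : ℝ} (hlam : 0 < lam) {f : ℝ → ℝ}
    (hf : MB C f) {q : ℝ → ℝ} (hq : IsTest q) (a : ℝ) (n : ℕ) :
    lam * ∫ x, (resv (τ n) lam (K n) (fun x => f (φ n x)) x - vf p q a (φ n x)) ^ 2 ∂(Pi n)
      ≤ ∫ x, (f (φ n x) - (lam * vf p q a (φ n x) - gen h p q (φ n x)))
          * resv (τ n) lam (K n) (fun x => f (φ n x)) x ∂(Pi n)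
        + (∫ x, resv (τ n) lam (K n) (fun x => f (φ n x)) x
            * (lam * vf p q a (φ n x) - gen h p q (φ n x)) ∂(Pi n)
          - ∫ x, f x * vf p q a x ∂(tgt p))
        - ∫ x, f x * vf p q a x ∂(tgt p)
        + (lam * ∫ x, vf p q a x ^ 2 ∂(tgt p)
          + en (τ n) (Pi n) (K n) (fun x => vf p q a (φ n x)) (fun x => vf p q a (φ n x))) := by
  have hprob : IsProbabilityMeasure (Pi n) := (S.rev n).prob
  have hmk : IsMarkovKernel (K n) := (S.rev n).markov
  obtain ⟨Cv, hv0⟩ := mb_vf S hq a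
  obtain ⟨Cg, hg0⟩ := mb_g S hq a lam
  have hfφ : MB C (fun x => f (φ n x)) := mb_phi S hf n
  have hU : MB (C / lam) (resv (τ n) lam (K n) (fun x => f (φ n x))) :=
    resv_mb (S.tpos n) hlam hfφ
  have hv : MB Cv (fun x => vf p q a (φ n x)) := mb_phi S hv0 n
  have hg : MB Cg (fun x => lam * vf p q a (φ n x) - gen h p q (φ n x)) := mb_phi S hg0 n
  set U := resv (τ n) lam (K n) (fun x => f (φ n x)) with hUdef
  set V : E n → ℝ := fun x => vf p q a (φ n x) with hVdef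
  have e1 := resv_weak (S.rev n) (S.tpos n) hlam hfφ hU
  have e2 := resv_weak (S.rev n) (S.tpos n) hlam hfφ hv
  have e3 := en_sub (S.rev n) (S.tpos n) hU hv
  have e4 : 0 ≤ en (τ n) (Pi n) (K n) (fun x => U x - V x) (fun x => U x - V x) :=
    en_nonneg (S.tpos n)
  have e5 : ∫ x, (U x - V x) ^ 2 ∂(Pi n) =
      ∫ x, U x * U x ∂(Pi n) - 2 * ∫ x, U x * V x ∂(Pi n) + ∫ x, V x ^ 2 ∂(Pi n) := by
    have i1 : Integrable (fun x => U x * U x) (Pi n) := mb_int (mb_mul hU hU)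
    have i2 : Integrable (fun x => U x * V x) (Pi n) := mb_int (mb_mul hU hv)
    have i3 : Integrable (fun x => V x ^ 2) (Pi n) := mb_int (mb_sq hv)
    have i4 : Integrable (fun x => U x * U x - 2 * (U x * V x)) (Pi n) :=
      i1.sub (i2.const_mul 2)
    rw [← integral_const_mul, ← integral_sub i1 (i2.const_mul 2), ← integral_add i4 i3]
    refine integral_congr_ae (Eventually.of_forall fun x => ?_)
    simp only
    ring
  have e6 : ∫ x, V x ^ 2 ∂(Pi n) = ∫ x, vf p q a x ^ 2 ∂(tgt p) :=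
    S.integral_phi (g := fun x => vf p q a x ^ 2) (mb_sq hv0).meas n
  have e7 : ∫ x, f (φ n x) * V x ∂(Pi n) = ∫ x, f x * vf p q a x ∂(tgt p) :=
    S.integral_phi (g := fun x => f x * vf p q a x) (hf.meas.mul hv0.meas) n
  have e8 : ∫ x, f (φ n x) * U x ∂(Pi n) =
      ∫ x, (f (φ n x) - (lam * vf p q a (φ n x) - gen h p q (φ n x))) * U x ∂(Pi n) +
        ∫ x, U x * (lam * vf p q a (φ n x) - gen h p q (φ n x)) ∂(Pi n) := by
    rw [← integral_add (mb_int (mb_mul (mb_sub hfφ hg) hU)) (mb_int (mb_mul hU hg))]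
    refine integral_congr_ae (Eventually.of_forall fun x => ?_)
    simp only
    ring
  rw [e5, e6]
  rw [e3] at e4
  rw [e8] at e1
  rw [e7] at e2
  have e9 : lam * (∫ x, U x * U x ∂(Pi n) - 2 * ∫ x, U x * V x ∂(Pi n) +
      ∫ x, vf p q a x ^ 2 ∂(tgt p)) = lam * ∫ x, U x * U x ∂(Pi n) -
        2 * (lam * ∫ x, U x * V x ∂(Pi n)) + lam * ∫ x, vf p q a x ^ 2 ∂(tgt p) := by ring
  rw [e9]
  linarith

theorem strong (S : Setup E p h τ Pi K φ) {lam C : ℝ} (hlam : 0 < lam) {f : ℝ → ℝ}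
    (hf : MB C f) {u u' : ℝ → ℝ} (hu : IsResolvent (tgt p) h lam f u u') :
    Tendsto (fun n => ∫ x, (resv (τ n) lam (K n) (fun x => f (φ n x)) x - u (φ n x)) ^ 2 ∂(Pi n))
      atTop (𝓝 0) := by
  have hp := S.dens
  have hprob : IsProbabilityMeasure (tgt p) := tgt_prob hp
  have hC : 0 ≤ C := hf.nonneg 0
  have hfL : MemLp f 2 (tgt p) := memLp_bdd hp hf.meas hf.bdd
  obtain ⟨u₁, u₁', hu₁, hc₁, happ⟩ := res_exists hp S.hpos hlam hfL
  have huu : u = u₁ := res_unique hp S.hpos hlam hfL hu hu₁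
  rw [← huu] at happ hc₁
  set Kc : ℝ := 2 / lam * (1 + 3 / 2 * (C ^ 2 + 1) / lam ^ 2) + 2 with hKc
  have hKpos : 0 < Kc := by positivity
  rw [Metric.tendsto_atTop]
  intro η hη
  obtain ⟨δ, hδ0, hδ1, hδ2⟩ : ∃ δ : ℝ, 0 < δ ∧ δ ≤ 1 ∧ Kc * δ < η := by
    refine ⟨min 1 (η / (2 * Kc)), lt_min one_pos (by positivity), min_le_left _ _, ?_⟩
    calc Kc * min 1 (η / (2 * Kc)) ≤ Kc * (η / (2 * Kc)) :=
          mul_le_mul_of_nonneg_left (min_le_right _ _) hKpos.le
      _ = η / 2 := by field_simp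
      _ < η := by linarith
  obtain ⟨q, a, hq, hgf, hvu⟩ := happ (δ ^ 2) (by positivity)
  obtain ⟨Cv, hv0⟩ := mb_vf S hq a
  obtain ⟨Cg, hg0⟩ := mb_g S hq a lam
  obtain ⟨Ce, he0⟩ := mb_gen S hq
  set F : ℝ := ∫ x, f x * vf p q a x ∂(tgt p) with hF
  -- the limit
  have hB := setup_Uv S hlam hf hq a
  have hD := setup_vv S hq a
  set L : ℝ := (F - F) - F + (lam * ∫ x, vf p q a x ^ 2 ∂(tgt p) +
    -∫ x, vf p q a x * gen h p q x ∂(tgt p)) with hL
  have hR : Tendsto (fun n => (∫ x, resv (τ n) lam (K n) (fun x => f (φ n x)) x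
            * (lam * vf p q a (φ n x) - gen h p q (φ n x)) ∂(Pi n) - F) - F
        + (lam * ∫ x, vf p q a x ^ 2 ∂(tgt p)
          + en (τ n) (Pi n) (K n) (fun x => vf p q a (φ n x)) (fun x => vf p q a (φ n x))))
      atTop (𝓝 L) :=
    ((hB.sub_const F).sub_const F).add (hD.const_add _)
  -- bound for `L`
  have iv2 : Integrable (fun x => vf p q a x ^ 2) (tgt p) := mb_int (mb_sq hv0)
  have ig2 : Integrable (fun x => (lam * vf p q a x - gen h p q x) ^ 2) (tgt p) :=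
    mb_int (mb_sq hg0)
  have if2 : Integrable (fun x => f x ^ 2) (tgt p) := mb_int (mb_sq hf)
  have igf2 : Integrable (fun x => (lam * vf p q a x - gen h p q x - f x) ^ 2) (tgt p) :=
    mb_int (mb_sq (mb_sub hg0 hf))
  have hLe : L = ∫ x, vf p q a x * (lam * vf p q a x - gen h p q x - f x) ∂(tgt p) := by
    have i1 : Integrable (fun x => vf p q a x * gen h p q x) (tgt p) := mb_int (mb_mul hv0 he0)
    have i2 : Integrable (fun x => f x * vf p q a x) (tgt p) := mb_int (mb_mul hf hv0)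
    rw [hL, hF]
    have i3 : Integrable (fun x => lam * vf p q a x ^ 2 - vf p q a x * gen h p q x) (tgt p) :=
      (iv2.const_mul lam).sub i1
    have e1 : ∫ x, vf p q a x * (lam * vf p q a x - gen h p q x - f x) ∂(tgt p) =
        ∫ x, (lam * vf p q a x ^ 2 - vf p q a x * gen h p q x - f x * vf p q a x) ∂(tgt p) := by
      refine integral_congr_ae (Eventually.of_forall fun x => ?_)
      simp only
      ring
    rw [e1, integral_sub i3 i2, integral_sub (iv2.const_mul lam) i1, integral_const_mul]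
    ring
  have hf2 : ∫ x, f x ^ 2 ∂(tgt p) ≤ C ^ 2 := by
    have h1 : ∫ x, f x ^ 2 ∂(tgt p) ≤ ∫ _, C ^ 2 ∂(tgt p) :=
      integral_mono if2 (integrable_const _) fun x => by
        show f x ^ 2 ≤ C ^ 2
        exact sq_le_sq' (abs_le.mp (hf.bdd x)).1 (abs_le.mp (hf.bdd x)).2
    simpa using h1
  have hg2 : ∫ x, (lam * vf p q a x - gen h p q x) ^ 2 ∂(tgt p) ≤ 2 * C ^ 2 + 2 * δ ^ 2 := by
    have h1 : ∫ x, (lam * vf p q a x - gen h p q x) ^ 2 ∂(tgt p) ≤
        ∫ x, (2 * f x ^ 2 + 2 * (lam * vf p q a x - gen h p q x - f x) ^ 2) ∂(tgt p) :=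
      integral_mono ig2 ((if2.const_mul 2).add (igf2.const_mul 2)) fun x => by
        show (lam * vf p q a x - gen h p q x) ^ 2 ≤
          2 * f x ^ 2 + 2 * (lam * vf p q a x - gen h p q x - f x) ^ 2
        nlinarith [sq_nonneg (2 * f x - (lam * vf p q a x - gen h p q x))]
    rw [integral_add (if2.const_mul 2) (igf2.const_mul 2), integral_const_mul,
      integral_const_mul] at h1
    linarith
  have hv2 : ∫ x, vf p q a x ^ 2 ∂(tgt p) ≤ (2 * C ^ 2 + 2 * δ ^ 2) / lam ^ 2 := by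
    have h1 := (core_coercive hp S.hpos hlam hq a).1
    rw [le_div_iff₀ (by positivity)]
    linarith
  have hLb : L ≤ δ / 2 + δ * (C ^ 2 + 1) / lam ^ 2 := by
    have h1 : ∫ x, vf p q a x * (lam * vf p q a x - gen h p q x - f x) ∂(tgt p) ≤
        ∫ x, (δ / 2 * vf p q a x ^ 2 +
          1 / (2 * δ) * (lam * vf p q a x - gen h p q x - f x) ^ 2) ∂(tgt p) :=
      integral_mono (mb_int (mb_mul hv0 (mb_sub hg0 hf)))
        ((iv2.const_mul _).add (igf2.const_mul _)) fun x => by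
        show vf p q a x * (lam * vf p q a x - gen h p q x - f x) ≤
          δ / 2 * vf p q a x ^ 2 + 1 / (2 * δ) * (lam * vf p q a x - gen h p q x - f x) ^ 2
        have h2 : δ / 2 * vf p q a x ^ 2 +
            1 / (2 * δ) * (lam * vf p q a x - gen h p q x - f x) ^ 2 -
            vf p q a x * (lam * vf p q a x - gen h p q x - f x) =
            1 / (2 * δ) * (δ * vf p q a x - (lam * vf p q a x - gen h p q x - f x)) ^ 2 := by
          field_simp
          ring
        have h3 : 0 ≤ 1 / (2 * δ) *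
            (δ * vf p q a x - (lam * vf p q a x - gen h p q x - f x)) ^ 2 := by positivity
        linarith
    rw [integral_add (iv2.const_mul _) (igf2.const_mul _), integral_const_mul,
      integral_const_mul] at h1
    have h4 : δ / 2 * ∫ x, vf p q a x ^ 2 ∂(tgt p) ≤
        δ / 2 * ((2 * C ^ 2 + 2 * 1) / lam ^ 2) := by
      refine mul_le_mul_of_nonneg_left (hv2.trans ?_) (by positivity)
      refine div_le_div_of_nonneg_right ?_ (by positivity)
      nlinarith
    have h5 : 1 / (2 * δ) * ∫ x, (lam * vf p q a x - gen h p q x - f x) ^ 2 ∂(tgt p) ≤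
        1 / (2 * δ) * δ ^ 2 := mul_le_mul_of_nonneg_left hgf (by positivity)
    have h6 : 1 / (2 * δ) * δ ^ 2 = δ / 2 := by field_simp
    have h7 : δ / 2 * ((2 * C ^ 2 + 2 * 1) / lam ^ 2) = δ * (C ^ 2 + 1) / lam ^ 2 := by
      field_simp
    rw [hLe]
    linarith
  -- bound for `A n`
  have hA : ∀ n, ∫ x, (f (φ n x) - (lam * vf p q a (φ n x) - gen h p q (φ n x)))
      * resv (τ n) lam (K n) (fun x => f (φ n x)) x ∂(Pi n) ≤
      δ / 2 + δ * C ^ 2 / (2 * lam ^ 2) := by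
    intro n
    have hprobn : IsProbabilityMeasure (Pi n) := (S.rev n).prob
    have hmk : IsMarkovKernel (K n) := (S.rev n).markov
    have hfφ : MB C (fun x => f (φ n x)) := mb_phi S hf n
    have hU : MB (C / lam) (resv (τ n) lam (K n) (fun x => f (φ n x))) :=
      resv_mb (S.tpos n) hlam hfφ
    have hg : MB Cg (fun x => lam * vf p q a (φ n x) - gen h p q (φ n x)) := mb_phi S hg0 n
    set U := resv (τ n) lam (K n) (fun x => f (φ n x)) with hUdef
    have j1 : Integrable (fun x => (lam * vf p q a (φ n x) - gen h p q (φ n x) - f (φ n x)) ^ 2)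
        (Pi n) := mb_int (mb_sq (mb_sub hg hfφ))
    have j2 : Integrable (fun x => U x ^ 2) (Pi n) := mb_int (mb_sq hU)
    have h1 : ∫ x, (f (φ n x) - (lam * vf p q a (φ n x) - gen h p q (φ n x))) * U x ∂(Pi n) ≤
        ∫ x, (1 / (2 * δ) * (lam * vf p q a (φ n x) - gen h p q (φ n x) - f (φ n x)) ^ 2 +
          δ / 2 * U x ^ 2) ∂(Pi n) :=
      integral_mono (mb_int (mb_mul (mb_sub hfφ hg) hU))
        ((j1.const_mul _).add (j2.const_mul _)) fun x => by
        show (f (φ n x) - (lam * vf p q a (φ n x) - gen h p q (φ n x))) * U x ≤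
          1 / (2 * δ) * (lam * vf p q a (φ n x) - gen h p q (φ n x) - f (φ n x)) ^ 2 +
          δ / 2 * U x ^ 2
        have h2 : 1 / (2 * δ) * (lam * vf p q a (φ n x) - gen h p q (φ n x) - f (φ n x)) ^ 2 +
          δ / 2 * U x ^ 2 -
            (f (φ n x) - (lam * vf p q a (φ n x) - gen h p q (φ n x))) * U x =
            1 / (2 * δ) * (δ * U x +
              (lam * vf p q a (φ n x) - gen h p q (φ n x) - f (φ n x))) ^ 2 := by
          field_simp
          ring
        have h3 : 0 ≤ 1 / (2 * δ) * (δ * U x +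
              (lam * vf p q a (φ n x) - gen h p q (φ n x) - f (φ n x))) ^ 2 := by positivity
        linarith
    rw [integral_add (j1.const_mul _) (j2.const_mul _), integral_const_mul,
      integral_const_mul] at h1
    have h4 : ∫ x, (lam * vf p q a (φ n x) - gen h p q (φ n x) - f (φ n x)) ^ 2 ∂(Pi n) =
        ∫ x, (lam * vf p q a x - gen h p q x - f x) ^ 2 ∂(tgt p) :=
      S.integral_phi (g := fun x => (lam * vf p q a x - gen h p q x - f x) ^ 2)
        (mb_sq (mb_sub hg0 hf)).meas n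
    have h5 : ∫ x, U x ^ 2 ∂(Pi n) ≤ (C / lam) ^ 2 := by
      have h6 : ∫ x, U x ^ 2 ∂(Pi n) ≤ ∫ _, (C / lam) ^ 2 ∂(Pi n) :=
        integral_mono j2 (integrable_const _) fun x => by
          show U x ^ 2 ≤ (C / lam) ^ 2
          exact sq_le_sq' (abs_le.mp (hU.bdd x)).1 (abs_le.mp (hU.bdd x)).2
      simpa using h6
    rw [h4] at h1
    have h7 : 1 / (2 * δ) * ∫ x, (lam * vf p q a x - gen h p q x - f x) ^ 2 ∂(tgt p) ≤
        1 / (2 * δ) * δ ^ 2 := mul_le_mul_of_nonneg_left hgf (by positivity)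
    have h8 : 1 / (2 * δ) * δ ^ 2 = δ / 2 := by field_simp
    have h9 : δ / 2 * ∫ x, U x ^ 2 ∂(Pi n) ≤ δ / 2 * (C / lam) ^ 2 :=
      mul_le_mul_of_nonneg_left h5 (by positivity)
    have h10 : δ / 2 * (C / lam) ^ 2 = δ * C ^ 2 / (2 * lam ^ 2) := by
      field_simp
    linarith
  -- the final estimate
  have hX : ∀ n, ∫ x, (resv (τ n) lam (K n) (fun x => f (φ n x)) x - u (φ n x)) ^ 2 ∂(Pi n) ≤
      2 * ∫ x, (resv (τ n) lam (K n) (fun x => f (φ n x)) x - vf p q a (φ n x)) ^ 2 ∂(Pi n) +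
        2 * δ ^ 2 := by
    intro n
    have hprobn : IsProbabilityMeasure (Pi n) := (S.rev n).prob
    have hmk : IsMarkovKernel (K n) := (S.rev n).markov
    have hfφ : MB C (fun x => f (φ n x)) := mb_phi S hf n
    have hU : MB (C / lam) (resv (τ n) lam (K n) (fun x => f (φ n x))) :=
      resv_mb (S.tpos n) hlam hfφ
    have hv : MB Cv (fun x => vf p q a (φ n x)) := mb_phi S hv0 n
    set U := resv (τ n) lam (K n) (fun x => f (φ n x)) with hUdef
    have hcu : Continuous u := hc₁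
    have huL : MemLp u 2 (tgt p) := hu.1.l2
    have hvL : MemLp (vf p q a) 2 (tgt p) := memLp_bdd hp hv0.meas hv0.bdd
    have ivu : Integrable (fun x => (vf p q a x - u x) ^ 2) (tgt p) := (hvL.sub huL).integrable_sq
    have ivu' : Integrable (fun x => (vf p q a (φ n x) - u (φ n x)) ^ 2) (Pi n) :=
      S.integrable_phi (g := fun x => (vf p q a x - u x) ^ 2)
        ((hv0.meas.sub hcu.measurable).pow_const 2) ivu n
    have iu2 : Integrable (fun x => u (φ n x) ^ 2) (Pi n) :=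
      S.integrable_phi (g := fun x => u x ^ 2) (hcu.measurable.pow_const 2) huL.integrable_sq n
    have iuv : Integrable (fun x => (U x - vf p q a (φ n x)) ^ 2) (Pi n) :=
      mb_int (mb_sq (mb_sub hU hv))
    have huφ : MemLp (fun x => u (φ n x)) 2 (Pi n) :=
      (memLp_two_iff_integrable_sq
        (hcu.measurable.comp (S.meas n)).aestronglyMeasurable).2 iu2
    have hUL : MemLp U 2 (Pi n) :=
      (memLp_two_iff_integrable_sq hU.meas.aestronglyMeasurable).2 (mb_int (mb_sq hU))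
    have iUu : Integrable (fun x => (U x - u (φ n x)) ^ 2) (Pi n) := (hUL.sub huφ).integrable_sq
    have h1 : ∫ x, (U x - u (φ n x)) ^ 2 ∂(Pi n) ≤
        ∫ x, (2 * (U x - vf p q a (φ n x)) ^ 2 +
          2 * (vf p q a (φ n x) - u (φ n x)) ^ 2) ∂(Pi n) :=
      integral_mono iUu ((iuv.const_mul 2).add (ivu'.const_mul 2)) fun x => by
        show (U x - u (φ n x)) ^ 2 ≤ 2 * (U x - vf p q a (φ n x)) ^ 2 +
          2 * (vf p q a (φ n x) - u (φ n x)) ^ 2
        nlinarith [sq_nonneg ((U x - vf p q a (φ n x)) - (vf p q a (φ n x) - u (φ n x)))]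
    rw [integral_add (iuv.const_mul 2) (ivu'.const_mul 2), integral_const_mul,
      integral_const_mul] at h1
    have h2 : ∫ x, (vf p q a (φ n x) - u (φ n x)) ^ 2 ∂(Pi n) =
        ∫ x, (vf p q a x - u x) ^ 2 ∂(tgt p) :=
      S.integral_phi (g := fun x => (vf p q a x - u x) ^ 2)
        ((hv0.meas.sub hcu.measurable).pow_const 2) n
    rw [h2] at h1
    linarith
  have hlim : 2 / lam * ((δ / 2 + δ * C ^ 2 / (2 * lam ^ 2)) + L) + 2 * δ ^ 2 < η := by
    have h1 : 2 / lam * ((δ / 2 + δ * C ^ 2 / (2 * lam ^ 2)) + L) ≤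
        2 / lam * ((δ / 2 + δ * C ^ 2 / (2 * lam ^ 2)) +
          (δ / 2 + δ * (C ^ 2 + 1) / lam ^ 2)) :=
      mul_le_mul_of_nonneg_left (by linarith) (by positivity)
    have h2 : (δ / 2 + δ * C ^ 2 / (2 * lam ^ 2)) + (δ / 2 + δ * (C ^ 2 + 1) / lam ^ 2) ≤
        δ * (1 + 3 / 2 * (C ^ 2 + 1) / lam ^ 2) := by
      have h3 : δ * (1 + 3 / 2 * (C ^ 2 + 1) / lam ^ 2) -
          ((δ / 2 + δ * C ^ 2 / (2 * lam ^ 2)) + (δ / 2 + δ * (C ^ 2 + 1) / lam ^ 2)) =
          δ / (2 * lam ^ 2) := by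
        field_simp
        ring
      have h4 : 0 ≤ δ / (2 * lam ^ 2) := by positivity
      linarith
    have h5 : 2 / lam * ((δ / 2 + δ * C ^ 2 / (2 * lam ^ 2)) +
        (δ / 2 + δ * (C ^ 2 + 1) / lam ^ 2)) ≤
        2 / lam * (δ * (1 + 3 / 2 * (C ^ 2 + 1) / lam ^ 2)) :=
      mul_le_mul_of_nonneg_left h2 (by positivity)
    have h6 : 2 * δ ^ 2 ≤ 2 * δ := by nlinarith
    have h7 : Kc * δ = 2 / lam * (δ * (1 + 3 / 2 * (C ^ 2 + 1) / lam ^ 2)) + 2 * δ := by
      rw [hKc]; ring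
    linarith
  have hT : Tendsto (fun n => 2 / lam * ((δ / 2 + δ * C ^ 2 / (2 * lam ^ 2)) +
      ((∫ x, resv (τ n) lam (K n) (fun x => f (φ n x)) x
            * (lam * vf p q a (φ n x) - gen h p q (φ n x)) ∂(Pi n) - F) - F
        + (lam * ∫ x, vf p q a x ^ 2 ∂(tgt p)
          + en (τ n) (Pi n) (K n) (fun x => vf p q a (φ n x)) (fun x => vf p q a (φ n x))))) +
        2 * δ ^ 2) atTop
      (𝓝 (2 / lam * ((δ / 2 + δ * C ^ 2 / (2 * lam ^ 2)) + L) + 2 * δ ^ 2)) :=
    ((hR.const_add _).const_mul _).add_const _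
  have hev := hT.eventually_lt_const hlim
  rw [eventually_atTop] at hev
  obtain ⟨N, hN⟩ := hev
  refine ⟨N, fun n hn => ?_⟩
  have h1 := hN n hn
  have h2 := hX n
  have h3 := strong_identity S hlam hf hq a n
  have h4 := hA n
  have h5 : ∫ x, (resv (τ n) lam (K n) (fun x => f (φ n x)) x - vf p q a (φ n x)) ^ 2 ∂(Pi n) ≤
      1 / lam * ((δ / 2 + δ * C ^ 2 / (2 * lam ^ 2)) +
      ((∫ x, resv (τ n) lam (K n) (fun x => f (φ n x)) x
            * (lam * vf p q a (φ n x) - gen h p q (φ n x)) ∂(Pi n) - F) - F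
        + (lam * ∫ x, vf p q a x ^ 2 ∂(tgt p)
          + en (τ n) (Pi n) (K n) (fun x => vf p q a (φ n x)) (fun x => vf p q a (φ n x))))) := by
    rw [one_div, ← div_eq_inv_mul, le_div_iff₀ hlam, mul_comm]
    linarith
  have h6 : 0 ≤ ∫ x, (resv (τ n) lam (K n) (fun x => f (φ n x)) x - u (φ n x)) ^ 2 ∂(Pi n) :=
    integral_nonneg fun x => sq_nonneg _
  rw [Real.dist_eq, sub_zero, abs_of_nonneg h6]
  refine lt_of_le_of_lt (h2.trans ?_) h1
  have h7 := mul_le_mul_of_nonneg_left h5 (by norm_num : (0 : ℝ) ≤ 2)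
  refine (add_le_add_left h7 _).trans (le_of_eq ?_)
  ring

theorem res_bdd (S : Setup E p h τ Pi K φ) {lam C : ℝ} (hlam : 0 < lam) {f : ℝ → ℝ}
    (hf : MB C f) {u u' : ℝ → ℝ} (hu : IsResolvent (tgt p) h lam f u u') (x : ℝ) :
    |u x| ≤ C / lam := by
  have hp := S.dens
  have hprob : IsProbabilityMeasure (tgt p) := tgt_prob hp
  have hC : 0 ≤ C := hf.nonneg 0
  have hcu : Continuous u := dom_cont hu.1
  have huL : MemLp u 2 (tgt p) := hu.1.l2
  set r : ℝ → ℝ := fun x => max (|u x| - C / lam) 0 with hr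
  have hrc : Continuous r := (hcu.abs.sub continuous_const).max continuous_const
  have hr0 : ∀ x, 0 ≤ r x := fun x => le_max_right _ _
  have hru : ∀ x, r x ≤ |u x| := by
    intro x
    have : 0 ≤ C / lam := by positivity
    exact max_le (by linarith) (abs_nonneg _)
  have hri : Integrable (fun x => r x ^ 2) (tgt p) := by
    refine Integrable.mono huL.integrable_sq (hrc.pow 2).aestronglyMeasurable
      (Eventually.of_forall fun x => ?_)
    rw [Real.norm_of_nonneg (sq_nonneg _), Real.norm_of_nonneg (sq_nonneg _), ← sq_abs (u x)]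
    exact pow_le_pow_left₀ (hr0 x) (hru x) 2
  have hle : ∀ n, ∫ x, r x ^ 2 ∂(tgt p) ≤
      ∫ x, (resv (τ n) lam (K n) (fun x => f (φ n x)) x - u (φ n x)) ^ 2 ∂(Pi n) := by
    intro n
    have hprobn : IsProbabilityMeasure (Pi n) := (S.rev n).prob
    have hmk : IsMarkovKernel (K n) := (S.rev n).markov
    have hfφ : MB C (fun x => f (φ n x)) := mb_phi S hf n
    have hU : MB (C / lam) (resv (τ n) lam (K n) (fun x => f (φ n x))) :=
      resv_mb (S.tpos n) hlam hfφ
    set U := resv (τ n) lam (K n) (fun x => f (φ n x)) with hUdef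
    have iu2 : Integrable (fun x => u (φ n x) ^ 2) (Pi n) :=
      S.integrable_phi (g := fun x => u x ^ 2) (hcu.measurable.pow_const 2) huL.integrable_sq n
    have huφ : MemLp (fun x => u (φ n x)) 2 (Pi n) :=
      (memLp_two_iff_integrable_sq
        (hcu.measurable.comp (S.meas n)).aestronglyMeasurable).2 iu2
    have hUL : MemLp U 2 (Pi n) :=
      (memLp_two_iff_integrable_sq hU.meas.aestronglyMeasurable).2 (mb_int (mb_sq hU))
    have iUu : Integrable (fun x => (U x - u (φ n x)) ^ 2) (Pi n) := (hUL.sub huφ).integrable_sq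
    have h1 : ∫ x, r (φ n x) ^ 2 ∂(Pi n) = ∫ x, r x ^ 2 ∂(tgt p) :=
      S.integral_phi (g := fun x => r x ^ 2) (hrc.pow 2).measurable n
    rw [← h1]
    refine integral_mono (S.integrable_phi (g := fun x => r x ^ 2) (hrc.pow 2).measurable hri n)
      iUu fun x => ?_
    show r (φ n x) ^ 2 ≤ (U x - u (φ n x)) ^ 2
    rw [← sq_abs (U x - u (φ n x))]
    refine pow_le_pow_left₀ (hr0 _) (max_le ?_ (abs_nonneg _)) 2
    have h2 := hU.bdd x
    have h3 : |u (φ n x)| ≤ |U x - u (φ n x)| + |U x| := by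
      have h4 : u (φ n x) = U x - (U x - u (φ n x)) := by ring
      calc |u (φ n x)| = |U x - (U x - u (φ n x))| := by rw [← h4]
        _ ≤ |U x| + |U x - u (φ n x)| := abs_sub _ _
        _ = |U x - u (φ n x)| + |U x| := by ring
    linarith
  have hzero : ∫ x, r x ^ 2 ∂(tgt p) = 0 := by
    refine le_antisymm ?_ (integral_nonneg fun x => sq_nonneg _)
    exact ge_of_tendsto (strong S hlam hf hu) (Eventually.of_forall hle)
  have hae := (integral_eq_zero_iff_of_nonneg (fun x => sq_nonneg (r x)) hri).1 hzero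
  have hae2 : ∀ᵐ x ∂(tgt p), r x = 0 := by
    filter_upwards [hae] with x hx
    have h5 : (r x) ^ 2 = 0 := hx
    exact pow_eq_zero_iff (two_ne_zero) |>.1 h5
  have hae3 : r =ᵐ[volume] fun _ => 0 := (ae_tgt hp).1 hae2
  have h6 : r = fun _ => 0 := (Continuous.ae_eq_iff_eq volume hrc continuous_const).1 hae3
  have h7 : r x = 0 := congrFun h6 x
  have h8 : |u x| - C / lam ≤ r x := le_max_left _ _
  linarith

end Pool.Agent.Lib.MP_e19099_pr
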