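import Pool.Agent.Lib.MP_e19099_pr.StepE
import Pool.Agent.Lib.MP_e19099_pr.Strong

/-!
# The resolvent identity in the limit (task A26b)

`chain_lfun`: put `k = ⌊s/τ⌋₊`, `k_t = ⌊t/τ⌋₊ ≤ k` (`t ∈ T`), `Σ = ∑' j, τ (1+lam τ)^{-(j+1)} f(φ X_{k+j})`.
By `prod_replace`, `ip_close` (for `G t`, `u`, which is bounded by `res_bdd` and continuous by `dom_cont`) and `ip_potl`,
`E lfun (ip) - E [∏ G_t(φ X_{k_t}) (Σ - u(φ X_k))] → 0`; by `markov_resv` the latter is
`E [∏ G_t(φ X_{k_t}) (U(X_k) - u(φ X_k))]`, at most `∫ |U - u ∘ φ| dPi ≤ √(∫ (U - u ∘ φ)²) → 0` (`strong`, `IsChain.law`).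
`chain_marg`: `ip_close` and `IsChain.law`, `S.law`.
-/

set_option autoImplicit false

open MeasureTheory ProbabilityTheory Filter Set
open scoped NNReal Topology ENNReal

namespace Pool.Agent.Lib.MP_e19099_pr

/-- the functional `∏_{t ∈ T} G_t(y_t) (∫₀^∞ e^{-lam r} f(y_{s+r}) dr - u(y_s))` -/
noncomputable def lfun (lam : ℝ) (f u : ℝ → ℝ) (T : Finset ℝ≥0) (G : ℝ≥0 → ℝ → ℝ) (s : ℝ≥0)
    (y : C(ℝ≥0, ℝ)) : ℝ :=
  (∏ t ∈ T, G t (y t)) * (potl lam f s y - u (y s))

theorem lfun_cont {lam C C' : ℝ} (hlam : 0 < lam) {f u : ℝ → ℝ} (hf : BC C f) (hu : BC C' u)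
    (T : Finset ℝ≥0) {G : ℝ≥0 → ℝ → ℝ} (hG : ∀ t, BC 1 (G t)) (s : ℝ≥0) :
    Continuous (lfun lam f u T G s) ∧ ∀ y, |lfun lam f u T G s y| ≤ C / lam + C' := by
  have hev : ∀ t : ℝ≥0, Continuous (fun y : C(ℝ≥0, ℝ) => y t) := fun t =>
    continuous_eval_const t
  refine ⟨?_, fun y => ?_⟩
  · unfold lfun
    refine Continuous.mul ?_ ((potl_cont hlam hf s).sub (hu.cont.comp (hev s)))
    exact continuous_finsetProd T fun t _ => (hG t).cont.comp (hev t)
  · unfold lfun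
    rw [abs_mul, Finset.abs_prod]
    have h1 : ∏ t ∈ T, |G t (y t)| ≤ 1 :=
      Finset.prod_le_one (fun t _ => abs_nonneg _) fun t _ => (hG t).bdd _
    have h2 : |potl lam f s y - u (y s)| ≤ C / lam + C' := by
      calc |potl lam f s y - u (y s)| ≤ |potl lam f s y| + |u (y s)| := abs_sub _ _
        _ ≤ C / lam + C' := add_le_add (potl_bdd hlam hf s y) (hu.bdd _)
    calc (∏ t ∈ T, |G t (y t)|) * |potl lam f s y - u (y s)| ≤
        1 * |potl lam f s y - u (y s)| := mul_le_mul_of_nonneg_right h1 (abs_nonneg _)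
      _ = |potl lam f s y - u (y s)| := one_mul _
      _ ≤ C / lam + C' := h2

universe u

variable {E : ℕ → Type} [∀ n, MeasurableSpace (E n)] {p : ℝ → ℝ} {h : ℝ} {τ : ℕ → ℝ}
  {Pi : ∀ n, Measure (E n)} {K : ∀ n, Kernel (E n) (E n)} {φ : ∀ n, E n → ℝ}
  {Ω : ℕ → Type u} [∀ n, MeasurableSpace (Ω n)] {P : ∀ n, Measure (Ω n)}
  {X : ∀ n, ℕ → Ω n → E n}

private theorem lf_floor {τ s : ℝ} (hτ : 0 < τ) (hs : 0 ≤ s) :
    |(⌊s / τ⌋₊ : ℝ) * τ - s| ≤ 2 * τ := by
  have h1 : (⌊s / τ⌋₊ : ℝ) ≤ s / τ := Nat.floor_le (by positivity)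
  have h2 : s / τ < ⌊s / τ⌋₊ + 1 := Nat.lt_floor_add_one _
  have h3 : s / τ * τ = s := by field_simp
  rw [abs_le]
  constructor
  · nlinarith
  · nlinarith

/-- convergence of the one point replacement errors -/
private theorem lf_close (S : Setup E p h τ Pi K φ)
    (hX : ∀ n, IsChain (P n) (X n) (Pi n) (K n)) {C : ℝ} {f : ℝ → ℝ} (hf : BC C f) (t : ℝ≥0) :
    Tendsto (fun n => ∫ ω, |f (ip (τ n) (φ n) (X n) ω t)
      - f (φ n (X n ⌊(t : ℝ) / τ n⌋₊ ω))| ∂(P n)) atTop (𝓝 0) := by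
  rw [Metric.tendsto_atTop']
  intro ε hε
  obtain ⟨N, hN⟩ := eventually_atTop.mp (ip_close S hX hf (half_pos hε))
  refine ⟨N, fun n hn => ?_⟩
  have h1 := hN n hn.le ⌊(t : ℝ) / τ n⌋₊ t (lf_floor (S.tpos n) t.coe_nonneg)
  rw [Real.dist_eq, sub_zero, abs_of_nonneg (integral_nonneg fun ω => abs_nonneg _)]
  linarith

private theorem lf_law (S : Setup E p h τ Pi K φ)
    (hX : ∀ n, IsChain (P n) (X n) (Pi n) (K n)) {g : ∀ n, E n → ℝ} (n k : ℕ)
    (hg : Measurable (g n)) : ∫ ω, g n (X n k ω) ∂(P n) = ∫ x, g n x ∂(Pi n) := by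
  rw [← (hX n).law (S.rev n) k, integral_map ((hX n).meas k).aemeasurable
    hg.aestronglyMeasurable]

private theorem chain_marg_aux (S : Setup E p h τ Pi K φ)
    (hX : ∀ n, IsChain (P n) (X n) (Pi n) (K n))
    {C : ℝ} {f : ℝ → ℝ} (hf : BC C f) (t : ℝ≥0) :
    Tendsto (fun n => ∫ ω, f (ip (τ n) (φ n) (X n) ω t) ∂(P n)) atTop
      (𝓝 (∫ x, f x ∂(tgt p))) := by
  have h0 := lf_close S hX hf t
  rw [tendsto_iff_norm_sub_tendsto_zero]
  refine squeeze_zero (fun n => norm_nonneg _) (fun n => ?_) h0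
  have := (hX n).prob (S.rev n)
  have hm1 : Measurable (fun ω => f (ip (τ n) (φ n) (X n) ω t)) :=
    hf.cont.measurable.comp ((path_meas_eval t).comp (ip_meas S hX n))
  have hm2 : Measurable (fun ω => f (φ n (X n ⌊(t : ℝ) / τ n⌋₊ ω))) :=
    hf.cont.measurable.comp ((S.meas n).comp ((hX n).meas _))
  have hi1 : Integrable (fun ω => f (ip (τ n) (φ n) (X n) ω t)) (P n) :=
    Integrable.of_bound hm1.aestronglyMeasurable C (Eventually.of_forall fun ω => hf.bdd _)
  have hi2 : Integrable (fun ω => f (φ n (X n ⌊(t : ℝ) / τ n⌋₊ ω))) (P n) :=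
    Integrable.of_bound hm2.aestronglyMeasurable C (Eventually.of_forall fun ω => hf.bdd _)
  have h1 : ∫ ω, f (φ n (X n ⌊(t : ℝ) / τ n⌋₊ ω)) ∂(P n) = ∫ x, f x ∂(tgt p) := by
    rw [lf_law S hX (g := fun n x => f (φ n x)) n _ (hf.cont.measurable.comp (S.meas n))]
    exact S.integral_phi hf.cont.measurable n
  rw [← h1, ← integral_sub hi1 hi2]
  exact norm_integral_le_integral_norm _

theorem chain_lfun (S : Setup E p h τ Pi K φ) (hX : ∀ n, IsChain (P n) (X n) (Pi n) (K n))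
    {C lam : ℝ} (hlam : 0 < lam) {f : ℝ → ℝ} (hf : BC C f) {u u' : ℝ → ℝ}
    (hu : IsResolvent (tgt p) h lam f u u') {T : Finset ℝ≥0} {s : ℝ≥0} (hT : ∀ t ∈ T, t ≤ s)
    {G : ℝ≥0 → ℝ → ℝ} (hG : ∀ t, BC 1 (G t)) :
    Tendsto (fun n => ∫ ω, lfun lam f u T G s (ip (τ n) (φ n) (X n) ω) ∂(P n)) atTop (𝓝 0) := by
  have hfMB : MB C f := ⟨hf.cont.measurable, hf.bdd⟩
  have huc : Continuous u := dom_cont hu.1
  have hub : ∀ x, |u x| ≤ C / lam := res_bdd S hlam hfMB hu
  have huBC : BC (C / lam) u := ⟨huc, hub⟩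
  have hfn : ∀ n, MB C (fun x => f (φ n x)) := fun n =>
    ⟨hf.cont.measurable.comp (S.meas n), fun x => hf.bdd _⟩
  have hC : 0 ≤ C := (abs_nonneg _).trans (hf.bdd 0)
  have hCl : 0 ≤ C / lam := by positivity
  -- the discrete sums
  obtain ⟨Sg, hSg⟩ : ∃ Sg : ∀ n, Ω n → ℝ, Sg = fun n ω =>
      ∑' j : ℕ, τ n * ((1 + lam * τ n) ^ (j + 1))⁻¹
        * f (φ n (X n (⌊(s : ℝ) / τ n⌋₊ + j) ω)) := ⟨_, rfl⟩
  have hterm : ∀ n ω j, ‖τ n * ((1 + lam * τ n) ^ (j + 1))⁻¹
      * f (φ n (X n (⌊(s : ℝ) / τ n⌋₊ + j) ω))‖ ≤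
        C * (τ n * ((1 + lam * τ n) ^ (j + 1))⁻¹) := by
    intro n ω j
    have h1 : 0 < 1 + lam * τ n := by
      have := mul_pos hlam (S.tpos n)
      linarith
    have h2 : 0 ≤ τ n * ((1 + lam * τ n) ^ (j + 1))⁻¹ :=
      mul_nonneg (S.tpos n).le (by positivity)
    rw [norm_mul, Real.norm_eq_abs, Real.norm_eq_abs, abs_of_nonneg h2, mul_comm]
    exact mul_le_mul_of_nonneg_right (hf.bdd _) h2
  have hsummable : ∀ n ω, Summable (fun j : ℕ => τ n * ((1 + lam * τ n) ^ (j + 1))⁻¹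
      * f (φ n (X n (⌊(s : ℝ) / τ n⌋₊ + j) ω))) := fun n ω =>
    Summable.of_norm_bounded ((weights_sum (S.tpos n) hlam).mul_left C).summable (hterm n ω)
  have hSgm : ∀ n, Measurable (Sg n) := by
    intro n
    rw [hSg]
    refine measurable_of_tendsto_metrizable
      (f := fun (N : ℕ) (ω : Ω n) => ∑ j ∈ Finset.range N,
        τ n * ((1 + lam * τ n) ^ (j + 1))⁻¹ * f (φ n (X n (⌊(s : ℝ) / τ n⌋₊ + j) ω))) ?_ ?_
    · intro N
      exact Finset.measurable_sum _ fun j _ =>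
        (hf.cont.measurable.comp ((S.meas n).comp ((hX n).meas _))).const_mul _
    · rw [tendsto_pi_nhds]
      intro ω
      exact (hsummable n ω).hasSum.tendsto_sum_nat
  have hSgb : ∀ n ω, |Sg n ω| ≤ C / lam := by
    intro n ω
    rw [hSg]
    have h := tsum_of_norm_bounded ((weights_sum (S.tpos n) hlam).mul_left C) (hterm n ω)
    rw [mul_one_div] at h
    exact h
  -- the history functional
  obtain ⟨B, hB⟩ : ∃ B : ∀ n, Ω n → ℝ, B = fun n ω =>
      ∏ t ∈ T, G t (φ n (X n ⌊(t : ℝ) / τ n⌋₊ ω)) := ⟨_, rfl⟩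
  have hBm : ∀ n, Measurable (B n) := by
    intro n
    rw [hB]
    exact Finset.measurable_prod T fun t _ =>
      (hG t).cont.measurable.comp ((S.meas n).comp ((hX n).meas _))
  have hBb : ∀ n ω, |B n ω| ≤ 1 := by
    intro n ω
    rw [hB]
    simp only
    rw [Finset.abs_prod]
    exact Finset.prod_le_one (fun t _ => abs_nonneg _) fun t _ => (hG t).bdd _
  -- step one: replacement
  have step1 : Tendsto (fun n => ∫ ω, |lfun lam f u T G s (ip (τ n) (φ n) (X n) ω)
      - B n ω * (Sg n ω - u (φ n (X n ⌊(s : ℝ) / τ n⌋₊ ω)))| ∂(P n)) atTop (𝓝 0) := by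
    have e1 : Tendsto (fun n => (C / lam + C / lam) * (∑ t ∈ T,
        ∫ ω, |G t (ip (τ n) (φ n) (X n) ω t) - G t (φ n (X n ⌊(t : ℝ) / τ n⌋₊ ω))| ∂(P n))
        + (∫ ω, |Sg n ω - potl lam f s (ip (τ n) (φ n) (X n) ω)| ∂(P n)
          + ∫ ω, |u (ip (τ n) (φ n) (X n) ω s) - u (φ n (X n ⌊(s : ℝ) / τ n⌋₊ ω))| ∂(P n)))
        atTop (𝓝 ((C / lam + C / lam) * (∑ t ∈ T, (0 : ℝ)) + (0 + 0))) := by
      refine Tendsto.add (Tendsto.const_mul _ (tendsto_finsetSum T fun t _ =>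
        lf_close S hX (hG t) t)) (Tendsto.add ?_ (lf_close S hX huBC s))
      rw [hSg]
      exact ip_potl S hX hlam hf s
    have e2 : (C / lam + C / lam) * (∑ t ∈ T, (0 : ℝ)) + (0 + 0) = 0 := by simp
    rw [e2] at e1
    refine squeeze_zero (fun n => integral_nonneg fun ω => abs_nonneg _) (fun n => ?_) e1
    have := (hX n).prob (S.rev n)
    have hym := ip_meas S hX n
    have m1 : ∀ t, Measurable (fun ω => G t (ip (τ n) (φ n) (X n) ω t)
        - G t (φ n (X n ⌊(t : ℝ) / τ n⌋₊ ω))) := fun t =>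
      ((hG t).cont.measurable.comp ((path_meas_eval t).comp hym)).sub
        ((hG t).cont.measurable.comp ((S.meas n).comp ((hX n).meas _)))
    have m2 : Measurable (fun ω => Sg n ω - potl lam f s (ip (τ n) (φ n) (X n) ω)) :=
      (hSgm n).sub ((potl_cont hlam hf s).measurable.comp hym)
    have m3 : Measurable (fun ω => u (ip (τ n) (φ n) (X n) ω s)
        - u (φ n (X n ⌊(s : ℝ) / τ n⌋₊ ω))) :=
      (huc.measurable.comp ((path_meas_eval s).comp hym)).sub
        (huc.measurable.comp ((S.meas n).comp ((hX n).meas _)))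
    have i1 : ∀ t, Integrable (fun ω => |G t (ip (τ n) (φ n) (X n) ω t)
        - G t (φ n (X n ⌊(t : ℝ) / τ n⌋₊ ω))|) (P n) := by
      intro t
      refine (Integrable.of_bound (m1 t).aestronglyMeasurable (1 + 1)
        (Eventually.of_forall fun ω => ?_)).abs
      exact (abs_sub _ _).trans (add_le_add ((hG t).bdd _) ((hG t).bdd _))
    have i2 : Integrable (fun ω => |Sg n ω - potl lam f s (ip (τ n) (φ n) (X n) ω)|) (P n) := by
      refine (Integrable.of_bound m2.aestronglyMeasurable (C / lam + C / lam)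
        (Eventually.of_forall fun ω => ?_)).abs
      exact (abs_sub _ _).trans (add_le_add (hSgb n ω) (potl_bdd hlam hf s _))
    have i3 : Integrable (fun ω => |u (ip (τ n) (φ n) (X n) ω s)
        - u (φ n (X n ⌊(s : ℝ) / τ n⌋₊ ω))|) (P n) := by
      refine (Integrable.of_bound m3.aestronglyMeasurable (C / lam + C / lam)
        (Eventually.of_forall fun ω => ?_)).abs
      exact (abs_sub _ _).trans (add_le_add (hub _) (hub _))
    have i4 : Integrable (fun ω => ∑ t ∈ T, |G t (ip (τ n) (φ n) (X n) ω t)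
        - G t (φ n (X n ⌊(t : ℝ) / τ n⌋₊ ω))|) (P n) := integrable_finsetSum T fun t _ => i1 t
    have i23 : Integrable (fun ω => |Sg n ω - potl lam f s (ip (τ n) (φ n) (X n) ω)|
        + |u (ip (τ n) (φ n) (X n) ω s) - u (φ n (X n ⌊(s : ℝ) / τ n⌋₊ ω))|) (P n) := i2.add i3
    have i5 : Integrable (fun ω => (C / lam + C / lam) * (∑ t ∈ T,
        |G t (ip (τ n) (φ n) (X n) ω t) - G t (φ n (X n ⌊(t : ℝ) / τ n⌋₊ ω))|)
        + (|Sg n ω - potl lam f s (ip (τ n) (φ n) (X n) ω)|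
          + |u (ip (τ n) (φ n) (X n) ω s) - u (φ n (X n ⌊(s : ℝ) / τ n⌋₊ ω))|)) (P n) :=
      (i4.const_mul _).add i23
    have h1 : ∫ ω, |lfun lam f u T G s (ip (τ n) (φ n) (X n) ω)
        - B n ω * (Sg n ω - u (φ n (X n ⌊(s : ℝ) / τ n⌋₊ ω)))| ∂(P n) ≤
        ∫ ω, ((C / lam + C / lam) * (∑ t ∈ T, |G t (ip (τ n) (φ n) (X n) ω t)
          - G t (φ n (X n ⌊(t : ℝ) / τ n⌋₊ ω))|)
          + (|Sg n ω - potl lam f s (ip (τ n) (φ n) (X n) ω)|
            + |u (ip (τ n) (φ n) (X n) ω s) - u (φ n (X n ⌊(s : ℝ) / τ n⌋₊ ω))|)) ∂(P n) := by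
      apply integral_mono_of_nonneg (Eventually.of_forall fun ω => abs_nonneg _) i5
      refine Eventually.of_forall fun ω => ?_
      have h2 := prod_replace T (a := fun t => G t (ip (τ n) (φ n) (X n) ω t))
        (b := fun t => G t (φ n (X n ⌊(t : ℝ) / τ n⌋₊ ω)))
        (A := potl lam f s (ip (τ n) (φ n) (X n) ω) - u (ip (τ n) (φ n) (X n) ω s))
        (B := Sg n ω - u (φ n (X n ⌊(s : ℝ) / τ n⌋₊ ω))) (M := C / lam + C / lam)
        (fun t _ => (hG t).bdd _) (fun t _ => (hG t).bdd _)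
        ((abs_sub _ _).trans (add_le_add (potl_bdd hlam hf s _) (hub _)))
      have h3 : |potl lam f s (ip (τ n) (φ n) (X n) ω) - u (ip (τ n) (φ n) (X n) ω s)
          - (Sg n ω - u (φ n (X n ⌊(s : ℝ) / τ n⌋₊ ω)))| ≤
          |Sg n ω - potl lam f s (ip (τ n) (φ n) (X n) ω)|
            + |u (ip (τ n) (φ n) (X n) ω s) - u (φ n (X n ⌊(s : ℝ) / τ n⌋₊ ω))| := by
        have h4 : potl lam f s (ip (τ n) (φ n) (X n) ω) - u (ip (τ n) (φ n) (X n) ω s)
            - (Sg n ω - u (φ n (X n ⌊(s : ℝ) / τ n⌋₊ ω))) =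
            -(Sg n ω - potl lam f s (ip (τ n) (φ n) (X n) ω))
              - (u (ip (τ n) (φ n) (X n) ω s) - u (φ n (X n ⌊(s : ℝ) / τ n⌋₊ ω))) := by ring
        rw [h4]
        refine (abs_sub _ _).trans (le_of_eq ?_)
        rw [abs_neg]
      simp only [hB, lfun]
      linarith
    refine h1.trans (le_of_eq ?_)
    rw [integral_add (i4.const_mul _) i23, integral_const_mul,
      integral_finsetSum T (fun t _ => i1 t), integral_add i2 i3]
  -- step two: the main term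
  have step2 : Tendsto (fun n => ∫ ω, B n ω * (Sg n ω
      - u (φ n (X n ⌊(s : ℝ) / τ n⌋₊ ω))) ∂(P n)) atTop (𝓝 0) := by
    have e1 := (strong S hlam hfMB hu).sqrt
    rw [Real.sqrt_zero] at e1
    refine squeeze_zero_norm (fun n => ?_) e1
    have := (hX n).prob (S.rev n)
    have hmk := (S.rev n).markov
    have hpr := (S.rev n).prob
    obtain ⟨k, hk⟩ : ∃ k, k = ⌊(s : ℝ) / τ n⌋₊ := ⟨_, rfl⟩
    have hkt : ∀ t ∈ T, ⌊(t : ℝ) / τ n⌋₊ ≤ k := by
      intro t ht
      rw [hk]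
      apply Nat.floor_le_floor
      have : (t : ℝ) ≤ s := by exact_mod_cast hT t ht
      exact div_le_div_of_nonneg_right this (S.tpos n).le
    obtain ⟨Gh, hGh⟩ : ∃ Gh : (Fin (k + 1) → E n) → ℝ, Gh = fun hh =>
        ∏ t ∈ T, G t (φ n (hh ⟨min ⌊(t : ℝ) / τ n⌋₊ k, Nat.lt_succ_of_le (min_le_right _ _)⟩)) := ⟨_, rfl⟩
    have hGhB : ∀ ω, Gh (fun i => X n i ω) = B n ω := by
      intro ω
      rw [hGh, hB]
      refine Finset.prod_congr rfl fun t ht => ?_
      simp only [min_eq_left (hkt t ht)]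
    have hGhMB : MB 1 Gh := by
      constructor
      · rw [hGh]
        exact Finset.measurable_prod T fun t _ =>
          (hG t).cont.measurable.comp ((S.meas n).comp (measurable_pi_apply _))
      · intro hh
        rw [hGh]
        simp only
        rw [Finset.abs_prod]
        exact Finset.prod_le_one (fun t _ => abs_nonneg _) fun t _ => (hG t).bdd _
    have hmr := (hX n).markov_resv (S.rev n) (S.tpos n) hlam hGhMB (hfn n)
    simp only [hGhB] at hmr
    have hres := resv_mb (K := K n) (S.tpos n) hlam (hfn n)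
    have hSg' : ∀ ω, Sg n ω = ∑' j : ℕ, τ n * ((1 + lam * τ n) ^ (j + 1))⁻¹
        * f (φ n (X n (k + j) ω)) := by
      intro ω
      rw [hSg, hk]
    simp only [← hSg'] at hmr
    rw [← hk]
    have mu : Measurable (fun ω => u (φ n (X n k ω))) :=
      huc.measurable.comp ((S.meas n).comp ((hX n).meas _))
    have mr : Measurable (fun ω => resv (τ n) lam (K n) (fun x => f (φ n x)) (X n k ω)) :=
      hres.meas.comp ((hX n).meas _)
    have j1 : Integrable (fun ω => B n ω * Sg n ω) (P n) := by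
      refine Integrable.of_bound ((hBm n).mul (hSgm n)).aestronglyMeasurable (1 * (C / lam))
        (Eventually.of_forall fun ω => ?_)
      rw [norm_mul]
      exact mul_le_mul (hBb n ω) (hSgb n ω) (norm_nonneg _) zero_le_one
    have j2 : Integrable (fun ω => B n ω * u (φ n (X n k ω))) (P n) := by
      refine Integrable.of_bound ((hBm n).mul mu).aestronglyMeasurable (1 * (C / lam))
        (Eventually.of_forall fun ω => ?_)
      rw [norm_mul]
      exact mul_le_mul (hBb n ω) (hub _) (norm_nonneg _) zero_le_one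
    have j3 : Integrable (fun ω => B n ω *
        resv (τ n) lam (K n) (fun x => f (φ n x)) (X n k ω)) (P n) := by
      refine Integrable.of_bound ((hBm n).mul mr).aestronglyMeasurable (1 * (C / lam))
        (Eventually.of_forall fun ω => ?_)
      rw [norm_mul]
      exact mul_le_mul (hBb n ω) (hres.bdd _) (norm_nonneg _) zero_le_one
    have h1 : ∫ ω, B n ω * (Sg n ω - u (φ n (X n k ω))) ∂(P n) =
        ∫ ω, B n ω * (resv (τ n) lam (K n) (fun x => f (φ n x)) (X n k ω)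
          - u (φ n (X n k ω))) ∂(P n) := by
      have h2 : ∀ ω, B n ω * (Sg n ω - u (φ n (X n k ω))) =
          B n ω * Sg n ω - B n ω * u (φ n (X n k ω)) := fun ω => by ring
      have h3 : ∀ ω, B n ω * (resv (τ n) lam (K n) (fun x => f (φ n x)) (X n k ω)
          - u (φ n (X n k ω))) = B n ω * resv (τ n) lam (K n) (fun x => f (φ n x)) (X n k ω)
            - B n ω * u (φ n (X n k ω)) := fun ω => by ring
      simp only [h2, h3]
      rw [integral_sub j1 j2, integral_sub j3 j2, hmr]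
    rw [h1]
    -- Cauchy-Schwarz
    have mw : Measurable (fun x => resv (τ n) lam (K n) (fun x => f (φ n x)) x
        - u (φ n x)) := hres.meas.sub (huc.measurable.comp (S.meas n))
    have bw : ∀ x, |resv (τ n) lam (K n) (fun x => f (φ n x)) x - u (φ n x)| ≤
        C / lam + C / lam := fun x =>
      (abs_sub _ _).trans (add_le_add (hres.bdd _) (hub _))
    have iw : Integrable (fun x => |resv (τ n) lam (K n) (fun x => f (φ n x)) x
        - u (φ n x)|) (Pi n) :=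
      (Integrable.of_bound mw.aestronglyMeasurable _ (Eventually.of_forall bw)).abs
    have iw2 : Integrable (fun x => |resv (τ n) lam (K n) (fun x => f (φ n x)) x
        - u (φ n x)| ^ 2) (Pi n) := by
      refine Integrable.of_bound (mw.norm.pow_const 2).aestronglyMeasurable
        ((C / lam + C / lam) ^ 2) (Eventually.of_forall fun x => ?_)
      rw [norm_pow, Real.norm_eq_abs, abs_abs]
      exact pow_le_pow_left₀ (abs_nonneg _) (bw x) 2
    have h4 : ‖∫ ω, B n ω * (resv (τ n) lam (K n) (fun x => f (φ n x)) (X n k ω)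
        - u (φ n (X n k ω))) ∂(P n)‖ ≤
        ∫ x, |resv (τ n) lam (K n) (fun x => f (φ n x)) x - u (φ n x)| ∂(Pi n) := by
      rw [← lf_law S hX (g := fun n x => |resv (τ n) lam (K n) (fun x => f (φ n x)) x
        - u (φ n x)|) n k mw.norm]
      refine norm_integral_le_of_norm_le ?_ (Eventually.of_forall fun ω => ?_)
      · refine (Integrable.of_bound (mr.sub mu).aestronglyMeasurable (C / lam + C / lam)
          (Eventually.of_forall fun ω => bw _)).abs
      · rw [norm_mul]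
        calc ‖B n ω‖ * ‖resv (τ n) lam (K n) (fun x => f (φ n x)) (X n k ω)
            - u (φ n (X n k ω))‖ ≤ 1 * ‖resv (τ n) lam (K n) (fun x => f (φ n x)) (X n k ω)
            - u (φ n (X n k ω))‖ := mul_le_mul_of_nonneg_right (hBb n ω) (norm_nonneg _)
          _ = _ := one_mul _
    refine h4.trans ?_
    apply Real.le_sqrt_of_sq_le
    have h5 := (Even.convexOn_pow (𝕜 := ℝ) (n := 2) (by decide)).map_integral_le (μ := Pi n)
      (f := fun x => |resv (τ n) lam (K n) (fun x => f (φ n x)) x - u (φ n x)|)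
      (continuous_pow 2).continuousOn isClosed_univ (Eventually.of_forall fun _ => mem_univ _)
      iw iw2
    refine h5.trans (le_of_eq ?_)
    refine integral_congr_ae (Eventually.of_forall fun x => ?_)
    simp only [sq_abs]
  -- conclusion
  have hfin : Tendsto (fun n => (∫ ω, |lfun lam f u T G s (ip (τ n) (φ n) (X n) ω)
      - B n ω * (Sg n ω - u (φ n (X n ⌊(s : ℝ) / τ n⌋₊ ω)))| ∂(P n))
      + ‖∫ ω, B n ω * (Sg n ω - u (φ n (X n ⌊(s : ℝ) / τ n⌋₊ ω))) ∂(P n)‖) atTop (𝓝 0) := by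
    have := step1.add step2.norm
    rwa [norm_zero, add_zero] at this
  refine squeeze_zero_norm (fun n => ?_) hfin
  have := (hX n).prob (S.rev n)
  have k1 : Integrable (fun ω => lfun lam f u T G s (ip (τ n) (φ n) (X n) ω)) (P n) := by
    obtain ⟨c1, c2⟩ := lfun_cont hlam hf huBC T hG s
    exact Integrable.of_bound (c1.measurable.comp (ip_meas S hX n)).aestronglyMeasurable
      (C / lam + C / lam) (Eventually.of_forall fun ω => c2 _)
  have mu : Measurable (fun ω => u (φ n (X n ⌊(s : ℝ) / τ n⌋₊ ω))) :=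
    huc.measurable.comp ((S.meas n).comp ((hX n).meas _))
  have k2 : Integrable (fun ω => B n ω * (Sg n ω
      - u (φ n (X n ⌊(s : ℝ) / τ n⌋₊ ω)))) (P n) := by
    refine Integrable.of_bound ((hBm n).mul ((hSgm n).sub mu)).aestronglyMeasurable
      (1 * (C / lam + C / lam)) (Eventually.of_forall fun ω => ?_)
    rw [norm_mul]
    exact mul_le_mul (hBb n ω) ((abs_sub _ _).trans (add_le_add (hSgb n ω) (hub _)))
      (norm_nonneg _) zero_le_one
  have h1 : ∫ ω, lfun lam f u T G s (ip (τ n) (φ n) (X n) ω) ∂(P n) =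
      ∫ ω, (lfun lam f u T G s (ip (τ n) (φ n) (X n) ω)
        - B n ω * (Sg n ω - u (φ n (X n ⌊(s : ℝ) / τ n⌋₊ ω)))) ∂(P n)
      + ∫ ω, B n ω * (Sg n ω - u (φ n (X n ⌊(s : ℝ) / τ n⌋₊ ω))) ∂(P n) := by
    rw [integral_sub k1 k2]; ring
  rw [h1]
  exact (norm_add_le _ _).trans (add_le_add (norm_integral_le_integral_norm _) le_rfl)

theorem chain_marg (S : Setup E p h τ Pi K φ) (hX : ∀ n, IsChain (P n) (X n) (Pi n) (K n))
    {C : ℝ} {f : ℝ → ℝ} (hf : BC C f) (t : ℝ≥0) :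
    Tendsto (fun n => ∫ ω, f (ip (τ n) (φ n) (X n) ω t) ∂(P n)) atTop
      (𝓝 (∫ x, f x ∂(tgt p))) :=
  chain_marg_aux S hX hf t

end Pool.Agent.Lib.MP_e19099_pr
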