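import Pool.Agent.Lib.MP_e19099_pr.ChainLaw

/-!
# Fourth moments of martingales (task A17)

`M_m = ∑_{i < m} d(X_i, X_{i+1})`, `D = ∫ d⁴ d(Pi ⊗ₘ K)`, `a_k = √(E M_k⁴)`.  `M_{k+1}⁴ = M⁴ + 4 M³ d + 6 M² d² + 4 M d³ + d⁴`;
`E M_k³ d = 0` by `pair_int` (`M_k³` is a function of `(X_0, …, X_k)`, `M_k³ d` is integrable as `|M|³|d| ≤ M⁴ + d⁴`),
`E M² d² ≤ a_k √D`, `4 |E M d³| ≤ 4 √a_k D^{3/4} ≤ 2 a_k √D + 2 D` (Hölder, or: `4|M||d|³ = 4 (|M||d|) d² ≤ 2 M² d² + 2 d⁴`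
pointwise).  So `a_{k+1}² ≤ a_k² + 8 a_k √D + 3 D ≤ (a_k + 4 √D)²`, `a_k ≤ 4 k √D`.
-/

set_option autoImplicit false

open MeasureTheory ProbabilityTheory Filter Set
open scoped NNReal Topology ENNReal

namespace Pool.Agent.Lib.MP_e19099_pr

variable {Ω E : Type*} [MeasurableSpace Ω] [MeasurableSpace E] {P : Measure Ω} {X : ℕ → Ω → E}
  {Pi : Measure E} {K : Kernel E E}

/-- the martingale `∑_{i < m} d(X_i, X_{i+1})` -/
noncomputable def mart (d : E × E → ℝ) (X : ℕ → Ω → E) (m : ℕ) (ω : Ω) : ℝ :=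
  ∑ i ∈ Finset.range m, d (X i ω, X (i + 1) ω)

private theorem Mart4_cs {α : Type*} [MeasurableSpace α] {μ : Measure α} {a b : α → ℝ}
    (ha : MemLp a 2 μ) (hb : MemLp b 2 μ) :
    ∫ x, a x * b x ∂μ ≤ √(∫ x, (a x) ^ 2 ∂μ) * √(∫ x, (b x) ^ 2 ∂μ) := by
  have h2 : (ENNReal.ofReal 2) = 2 := by norm_num
  have h1 := integral_mul_norm_le_Lp_mul_Lq (μ := μ) (f := a) (g := b)
    Real.HolderConjugate.two_two (by rw [h2]; exact ha) (by rw [h2]; exact hb)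
  have e1 : ∫ x, a x * b x ∂μ ≤ ∫ x, ‖a x‖ * ‖b x‖ ∂μ := by
    refine (le_abs_self _).trans ?_
    refine (norm_integral_le_integral_norm (fun x => a x * b x)).trans (le_of_eq ?_)
    simp only [norm_mul]
  refine e1.trans (h1.trans (le_of_eq ?_))
  simp only [Real.norm_eq_abs, Real.rpow_two, sq_abs, Real.sqrt_eq_rpow]

private theorem Mart4_edge (hX : IsChain P X Pi K) (hR : Rev Pi K) {d : E × E → ℝ}
    (hd : Measurable d) (hd4 : Integrable (fun z => d z ^ 4) (Pi ⊗ₘ K)) (k : ℕ) :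
    Integrable (fun ω => d (X k ω, X (k + 1) ω) ^ 4) P ∧
      ∫ ω, d (X k ω, X (k + 1) ω) ^ 4 ∂P = ∫ z, d z ^ 4 ∂(Pi ⊗ₘ K) := by
  have hm : Measurable (fun ω => (X k ω, X (k + 1) ω)) := (hX.meas k).prodMk (hX.meas (k + 1))
  rw [← hX.edge hR k] at hd4 ⊢
  constructor
  · exact (integrable_map_measure (hd.pow_const 4).aestronglyMeasurable hm.aemeasurable).1 hd4
  · rw [integral_map hm.aemeasurable (hd.pow_const 4).aestronglyMeasurable]

private theorem Mart4_meas (hX : IsChain P X Pi K) {d : E × E → ℝ} (hd : Measurable d) (m : ℕ) :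
    Measurable (mart d X m) := by
  unfold mart
  exact Finset.measurable_fun_sum _ fun i _ =>
    hd.comp ((hX.meas i).prodMk (hX.meas (i + 1)))

private theorem Mart4_succ {d : E × E → ℝ} (m : ℕ) (ω : Ω) :
    mart d X (m + 1) ω = mart d X m ω + d (X m ω, X (m + 1) ω) := by
  unfold mart
  rw [Finset.sum_range_succ]

theorem IsChain.mart4_int (hX : IsChain P X Pi K) (hR : Rev Pi K) {d : E × E → ℝ}
    (hd : Measurable d) (hd4 : Integrable (fun z => d z ^ 4) (Pi ⊗ₘ K)) (m : ℕ) :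
    Integrable (fun ω => mart d X m ω ^ 4) P := by
  induction m with
  | zero =>
    have : (fun ω => mart d X 0 ω ^ 4) = fun _ : Ω => (0 : ℝ) := by
      funext ω
      simp [mart]
    rw [this]
    exact integrable_zero _ _ _
  | succ m ih =>
    have h1 := (Mart4_edge hX hR hd hd4 m).1
    refine ((ih.add h1).const_mul 8).mono' ((Mart4_meas hX hd (m + 1)).pow_const 4).aestronglyMeasurable
      (Eventually.of_forall fun ω => ?_)
    rw [Mart4_succ, Real.norm_of_nonneg (by positivity)]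
    show _ ≤ 8 * (mart d X m ω ^ 4 + d (X m ω, X (m + 1) ω) ^ 4)
    set a := mart d X m ω
    set b := d (X m ω, X (m + 1) ω)
    have h2 : (a + b) ^ 2 ≤ 2 * (a ^ 2 + b ^ 2) := by nlinarith [sq_nonneg (a - b)]
    have h3 : (a + b) ^ 4 ≤ (2 * (a ^ 2 + b ^ 2)) ^ 2 := by
      calc (a + b) ^ 4 = ((a + b) ^ 2) ^ 2 := by ring
        _ ≤ _ := pow_le_pow_left₀ (sq_nonneg _) h2 2
    nlinarith [sq_nonneg (a ^ 2 - b ^ 2)]

theorem IsChain.mart4_step (hX : IsChain P X Pi K) (hR : Rev Pi K) {d : E × E → ℝ}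
    (hd : Measurable d) (hd4 : Integrable (fun z => d z ^ 4) (Pi ⊗ₘ K))
    (h0 : ∀ᵐ x ∂Pi, ∫ y, d (x, y) ∂(K x) = 0) (m : ℕ) :
    ∫ ω, mart d X (m + 1) ω ^ 4 ∂P
      ≤ (√(∫ ω, mart d X m ω ^ 4 ∂P) + 4 * √(∫ z, d z ^ 4 ∂(Pi ⊗ₘ K))) ^ 2 := by
  obtain ⟨hDi, hDe⟩ := Mart4_edge hX hR hd hd4 m
  have hMi := hX.mart4_int hR hd hd4 m
  set M : Ω → ℝ := fun ω => mart d X m ω with hM
  set D : Ω → ℝ := fun ω => d (X m ω, X (m + 1) ω) with hD
  have hMm : Measurable M := Mart4_meas hX hd m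
  have hDm : Measurable D := hd.comp ((hX.meas m).prodMk (hX.meas (m + 1)))
  -- integrability of `M ^ 3 * D`
  have hi3 : Integrable (fun ω => M ω ^ 3 * D ω) P := by
    refine (hMi.add hDi).mono' ((hMm.pow_const 3).mul hDm).aestronglyMeasurable
      (Eventually.of_forall fun ω => ?_)
    show ‖M ω ^ 3 * D ω‖ ≤ M ω ^ 4 + D ω ^ 4
    rw [Real.norm_eq_abs, abs_le]
    set a := M ω
    set b := D ω
    constructor
    · nlinarith [sq_nonneg (a ^ 2 + a * b), sq_nonneg (a ^ 2 - b ^ 2), sq_nonneg (a * b),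
        sq_nonneg (a ^ 2), sq_nonneg (b ^ 2)]
    · nlinarith [sq_nonneg (a ^ 2 - a * b), sq_nonneg (a ^ 2 - b ^ 2), sq_nonneg (a * b),
        sq_nonneg (a ^ 2), sq_nonneg (b ^ 2)]
  have hi2 : Integrable (fun ω => M ω ^ 2 * D ω ^ 2) P := by
    refine (hMi.add hDi).mono' ((hMm.pow_const 2).mul (hDm.pow_const 2)).aestronglyMeasurable
      (Eventually.of_forall fun ω => ?_)
    show ‖M ω ^ 2 * D ω ^ 2‖ ≤ M ω ^ 4 + D ω ^ 4
    rw [Real.norm_of_nonneg (by positivity)]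
    nlinarith [sq_nonneg (M ω ^ 2 - D ω ^ 2), sq_nonneg (M ω ^ 2), sq_nonneg (D ω ^ 2)]
  -- the cross term vanishes
  have hzero : ∫ ω, M ω ^ 3 * D ω ∂P = 0 := by
    set G : (Fin (m + 1) → E) → ℝ := fun h => (∑ i : Fin m, d (h i.castSucc, h i.succ)) ^ 3 with hG
    have hGm : Measurable G := by
      refine Measurable.pow_const ?_ 3
      exact Finset.measurable_fun_sum _ fun i _ =>
        hd.comp ((measurable_pi_apply _).prodMk (measurable_pi_apply _))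
    have hGe : ∀ ω, G (fun i => X i ω) = M ω ^ 3 := by
      intro ω
      simp only [hG, hM, mart]
      rw [Finset.sum_range (fun i => d (X i ω, X (i + 1) ω))]
      rfl
    have h1 := hX.pair_int hR hGm hd (k := m) (by
      simp_rw [hGe]
      exact hi3)
    simp_rw [hGe] at h1
    rw [show (∫ ω, M ω ^ 3 * D ω ∂P) = ∫ ω, M ω ^ 3 * d (X m ω, X (m + 1) ω) ∂P from rfl, h1]
    have h2 : ∀ᵐ ω ∂P, ∫ y, d (X m ω, y) ∂(K (X m ω)) = 0 := by
      have h3 := hX.law hR m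
      rw [← h3] at h0
      exact ae_of_ae_map (hX.meas m).aemeasurable h0
    rw [integral_eq_zero_of_ae]
    filter_upwards [h2] with ω hω
    rw [hω, mul_zero]
    rfl
  -- the bound
  have hle : ∫ ω, mart d X (m + 1) ω ^ 4 ∂P ≤
      ∫ ω, ((M ω ^ 4 + 4 * (M ω ^ 3 * D ω)) + (8 * (M ω ^ 2 * D ω ^ 2) + 3 * D ω ^ 4)) ∂P := by
    apply integral_mono (hX.mart4_int hR hd hd4 (m + 1))
      ((hMi.add (hi3.const_mul 4)).add ((hi2.const_mul 8).add (hDi.const_mul 3)))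
    intro ω
    simp only
    rw [Mart4_succ]
    show (M ω + D ω) ^ 4 ≤ (M ω ^ 4 + 4 * (M ω ^ 3 * D ω)) + (8 * (M ω ^ 2 * D ω ^ 2)
      + 3 * D ω ^ 4)
    set a := M ω
    set b := D ω
    nlinarith [mul_nonneg (sq_nonneg b) (sq_nonneg (a - b))]
  have hsum : ∫ ω, ((M ω ^ 4 + 4 * (M ω ^ 3 * D ω)) + (8 * (M ω ^ 2 * D ω ^ 2) + 3 * D ω ^ 4)) ∂P =
      ∫ ω, M ω ^ 4 ∂P + 8 * ∫ ω, M ω ^ 2 * D ω ^ 2 ∂P + 3 * ∫ ω, D ω ^ 4 ∂P := by
    have i1 : Integrable (fun ω => M ω ^ 4) P := hMi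
    have i2 : Integrable (fun ω => 4 * (M ω ^ 3 * D ω)) P := hi3.const_mul 4
    have i3 : Integrable (fun ω => 8 * (M ω ^ 2 * D ω ^ 2)) P := hi2.const_mul 8
    have i4 : Integrable (fun ω => 3 * D ω ^ 4) P := hDi.const_mul 3
    have i12 : Integrable (fun ω => M ω ^ 4 + 4 * (M ω ^ 3 * D ω)) P := i1.add i2
    have i34 : Integrable (fun ω => 8 * (M ω ^ 2 * D ω ^ 2) + 3 * D ω ^ 4) P := i3.add i4
    rw [integral_add i12 i34, integral_add i1 i2, integral_add i3 i4,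
      integral_const_mul, integral_const_mul, integral_const_mul, hzero]
    ring
  have hcs : ∫ ω, M ω ^ 2 * D ω ^ 2 ∂P ≤ √(∫ ω, M ω ^ 4 ∂P) * √(∫ ω, D ω ^ 4 ∂P) := by
    have hM2 : MemLp (fun ω => M ω ^ 2) 2 P := by
      rw [memLp_two_iff_integrable_sq (hMm.pow_const 2).aestronglyMeasurable]
      refine hMi.congr (Eventually.of_forall fun ω => ?_)
      simp only
      ring
    have hD2 : MemLp (fun ω => D ω ^ 2) 2 P := by
      rw [memLp_two_iff_integrable_sq (hDm.pow_const 2).aestronglyMeasurable]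
      refine hDi.congr (Eventually.of_forall fun ω => ?_)
      simp only
      ring
    have h1 := Mart4_cs hM2 hD2
    have e1 : ∀ x : ℝ, (x ^ 2) ^ 2 = x ^ 4 := fun x => by ring
    simp_rw [e1] at h1
    exact h1
  set A := ∫ ω, M ω ^ 4 ∂P with hA
  have hA0 : 0 ≤ A := integral_nonneg fun ω => by positivity
  have hB : ∫ ω, D ω ^ 4 ∂P = ∫ z, d z ^ 4 ∂(Pi ⊗ₘ K) := hDe
  rw [← hB]
  set B := ∫ ω, D ω ^ 4 ∂P with hBdef
  have hB0 : 0 ≤ B := integral_nonneg fun ω => by positivity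
  rw [hsum] at hle
  have sA := Real.sq_sqrt hA0
  have sB := Real.sq_sqrt hB0
  calc ∫ ω, mart d X (m + 1) ω ^ 4 ∂P ≤ A + 8 * ∫ ω, M ω ^ 2 * D ω ^ 2 ∂P + 3 * B := hle
    _ ≤ A + 8 * (√A * √B) + 3 * B := by linarith
    _ ≤ (√A + 4 * √B) ^ 2 := by nlinarith [Real.sqrt_nonneg A, Real.sqrt_nonneg B]

theorem IsChain.mart4 (hX : IsChain P X Pi K) (hR : Rev Pi K) {d : E × E → ℝ}
    (hd : Measurable d) (hd4 : Integrable (fun z => d z ^ 4) (Pi ⊗ₘ K))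
    (h0 : ∀ᵐ x ∂Pi, ∫ y, d (x, y) ∂(K x) = 0) (m : ℕ) :
    ∫ ω, mart d X m ω ^ 4 ∂P ≤ 16 * m ^ 2 * ∫ z, d z ^ 4 ∂(Pi ⊗ₘ K) := by
  set B := ∫ z, d z ^ 4 ∂(Pi ⊗ₘ K) with hB
  have hB0 : 0 ≤ B := integral_nonneg fun z => by positivity
  have key : √(∫ ω, mart d X m ω ^ 4 ∂P) ≤ 4 * m * √B := by
    induction m with
    | zero =>
      have : (fun ω => mart d X 0 ω ^ 4) = fun _ : Ω => (0 : ℝ) := by
        funext ω
        simp [mart]
      rw [this]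
      simp
    | succ m ih =>
      have h1 := hX.mart4_step hR hd hd4 h0 m
      have h2 : √(∫ ω, mart d X (m + 1) ω ^ 4 ∂P) ≤ √(∫ ω, mart d X m ω ^ 4 ∂P) + 4 * √B := by
        rw [Real.sqrt_le_left (by positivity)]
        exact h1
      push_cast
      linarith
  have hA0 : 0 ≤ ∫ ω, mart d X m ω ^ 4 ∂P := integral_nonneg fun ω => by positivity
  calc ∫ ω, mart d X m ω ^ 4 ∂P = (√(∫ ω, mart d X m ω ^ 4 ∂P)) ^ 2 := (Real.sq_sqrt hA0).symm
    _ ≤ (4 * m * √B) ^ 2 := pow_le_pow_left₀ (Real.sqrt_nonneg _) key 2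
    _ = 16 * m ^ 2 * (√B) ^ 2 := by ring
    _ = 16 * m ^ 2 * B := by rw [Real.sq_sqrt hB0]

end Pool.Agent.Lib.MP_e19099_pr
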