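import Pool.Agent.Lib.MP_e19099_pr.Energy

/-!
# Reversal, algebraic part (task A16a)

`foldK K [F₀, …, F_m] = F₀ · K(F₁ · K(… K F_m))`.  Put `J(L, R) = ∫ foldK L · kop K (foldK R) dPi`; by self-adjointness
`J(L, R) = J(R, L)`, and `J(F :: L, R) = ∫ F · K(fold L) · K(fold R) = J(F :: R, L) = J(L, F :: R)`.  By induction on `L`
(generalizing `R`) `J(L, R) = J([], L.reverse ++ R)`.  With `R = []`, `kop K 1 = 1` and `kop_mean` the claim follows.
-/

set_option autoImplicit false

open MeasureTheory ProbabilityTheory Filter Set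
open scoped NNReal Topology ENNReal

namespace Pool.Agent.Lib.MP_e19099_pr

variable {E : Type*} [MeasurableSpace E]

/-- `F₀ · K(F₁ · K(… K F_m))` -/
noncomputable def foldK (K : Kernel E E) : List (E → ℝ) → E → ℝ
  | [] => fun _ => 1
  | F :: L => fun x => F x * kop K (foldK K L) x

variable {Pi : Measure E} {K : Kernel E E}

theorem foldK_mb (hR : Rev Pi K) {L : List (E → ℝ)} (hL : ∀ F ∈ L, MB 1 F) :
    MB 1 (foldK K L) := by
  haveI := hR.markov
  induction L with
  | nil => exact ⟨measurable_const, fun _ => by simp [foldK]⟩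
  | cons F L ih =>
    have h1 : MB 1 F := hL F (by simp)
    have h2 : MB 1 (kop K (foldK K L)) := kop_mb (ih fun G hG => hL G (by simp [hG]))
    refine ⟨h1.meas.mul h2.meas, fun x => ?_⟩
    show |F x * kop K (foldK K L) x| ≤ 1
    rw [abs_mul]
    exact mul_le_one₀ (h1.bdd x) (abs_nonneg _) (h2.bdd x)

private theorem revFold_one (hR : Rev Pi K) (x : E) : kop K (foldK K []) x = 1 := by
  haveI := hR.markov
  show ∫ _, (1 : ℝ) ∂(K x) = 1
  simp

private theorem revFold_move (hR : Rev Pi K) {L : List (E → ℝ)} :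
    ∀ {R : List (E → ℝ)}, (∀ F ∈ L, MB 1 F) → (∀ F ∈ R, MB 1 F) →
    ∫ x, foldK K L x * kop K (foldK K R) x ∂Pi = ∫ x, kop K (foldK K (L.reverse ++ R)) x ∂Pi := by
  induction L with
  | nil =>
    intro R _ _
    simp [foldK]
  | cons F L ih =>
    intro R hL hRR
    have hL' : ∀ G ∈ L, MB 1 G := fun G hG => hL G (by simp [hG])
    have hFR : ∀ G ∈ F :: R, MB 1 G := by
      intro G hG
      rcases List.mem_cons.1 hG with rfl | hG
      · exact hL G (by simp)
      · exact hRR G hG
    have h1 : ∫ x, foldK K (F :: L) x * kop K (foldK K R) x ∂Pi =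
        ∫ x, foldK K (F :: R) x * kop K (foldK K L) x ∂Pi :=
      integral_congr_ae (Eventually.of_forall fun x => by
        show (F x * kop K (foldK K L) x) * kop K (foldK K R) x =
          (F x * kop K (foldK K R) x) * kop K (foldK K L) x
        ring)
    have h2 : ∫ x, kop K (foldK K (F :: R)) x * foldK K L x ∂Pi =
        ∫ x, foldK K L x * kop K (foldK K (F :: R)) x ∂Pi :=
      integral_congr_ae (Eventually.of_forall fun x => mul_comm _ _)
    rw [h1, hR.kop_symm (foldK_mb hR hFR) (foldK_mb hR hL'), h2, ih hL' hFR]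
    simp

theorem foldK_reverse (hR : Rev Pi K) {L : List (E → ℝ)} (hL : ∀ F ∈ L, MB 1 F) :
    ∫ x, foldK K L x ∂Pi = ∫ x, foldK K L.reverse x ∂Pi := by
  have h1 := revFold_move hR (L := L) (R := []) hL (by simp)
  simp only [revFold_one hR, mul_one, List.append_nil] at h1
  rw [h1]
  exact hR.kop_mean (foldK_mb hR fun F hF => hL F (List.mem_reverse.1 hF))

end Pool.Agent.Lib.MP_e19099_pr
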