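import Pool.Agent.Lib.MP_e19099_pr.MarkovPow
import Pool.Agent.Lib.MP_e19099_pr.RevFold

/-!
# Reversal of the stationary chain (task A16b)

`chain_fold`: for every `k` and bounded `G` of the history up to time `k`,
`E G(h_k) ∏_{i ≤ m} F_i(X_{k+i}) = E G(h_k) foldK K [F_0, …, F_m] (X_k)`, by induction on the list
(`pair` with `F (x, y) = foldK K L y`, after conditioning the tail at time `k + 1`).
`chain_reverse`: both laws are probability measures on `Fin (m+1) → E`; they agree on boxes `∏ A_i` (a π-system generating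
the product σ-algebra: `isPiSystem_pi`, `generateFrom_pi`, `MeasureTheory.ext_of_generate_finite`), by `chain_fold` with indicators `F_i = 1_{A_i}` and
`foldK_reverse`.
-/

set_option autoImplicit false

open MeasureTheory ProbabilityTheory Filter Set
open scoped NNReal Topology ENNReal

namespace Pool.Agent.Lib.MP_e19099_pr

variable {Ω E : Type*} [MeasurableSpace Ω] [MeasurableSpace E] {P : Measure Ω} {X : ℕ → Ω → E}
  {Pi : Measure E} {K : Kernel E E}

/-- `∏ F_i(X_{k+i})` along a list of functions -/
noncomputable def listProd (X : ℕ → Ω → E) : List (E → ℝ) → ℕ → Ω → ℝ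
  | [], _, _ => 1
  | F :: L, k, ω => F (X k ω) * listProd X L (k + 1) ω

private theorem listProd_meas (hX : ∀ k, Measurable (X k)) {L : List (E → ℝ)}
    (hL : ∀ F ∈ L, MB 1 F) : ∀ k, Measurable (listProd X L k) := by
  induction L with
  | nil =>
    intro k
    exact measurable_const
  | cons F L ih =>
    intro k
    exact ((hL F (by simp)).meas.comp (hX k)).mul (ih (fun G hG => hL G (by simp [hG])) (k + 1))

theorem IsChain.chain_fold (hX : IsChain P X Pi K) (hR : Rev Pi K) {L : List (E → ℝ)}
    (hL : ∀ F ∈ L, MB 1 F) {k : ℕ} {C : ℝ} {G : (Fin (k + 1) → E) → ℝ} (hG : MB C G) :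
    ∫ ω, G (fun i => X i ω) * listProd X L k ω ∂P
      = ∫ ω, G (fun i => X i ω) * foldK K L (X k ω) ∂P := by
  induction L generalizing k C G with
  | nil => rfl
  | cons F L ih =>
    have hF : MB 1 F := hL F (by simp)
    have hL' : ∀ F ∈ L, MB 1 F := fun G hG => hL G (by simp [hG])
    have hG' : MB (C * 1) (fun h : Fin (k + 1) → E => G h * F (h (Fin.last k))) := by
      refine ⟨hG.meas.mul (hF.meas.comp (measurable_pi_apply _)), fun h => ?_⟩
      rw [abs_mul]
      exact mul_le_mul (hG.bdd _) (hF.bdd _) (abs_nonneg _) ((abs_nonneg _).trans (hG.bdd h))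
    have hle : k + 1 ≤ (k + 1) + 1 := by omega
    have hG'' : MB (C * 1) (fun h : Fin ((k + 1) + 1) → E =>
        G (fun i => h (Fin.castLE hle i)) * F (h (Fin.castLE hle (Fin.last k)))) := by
      refine ⟨hG'.meas.comp (measurable_pi_lambda _ fun i => measurable_pi_apply _), fun h => ?_⟩
      exact hG'.bdd (fun i => h (Fin.castLE hle i))
    have h1 := ih hL' (k := k + 1) hG''
    have h2 := hX.pair hR hG' (F := fun z : E × E => foldK K L z.2) (C' := 1)
      ⟨(foldK_mb hR hL').meas.comp measurable_snd, fun z => (foldK_mb hR hL').bdd _⟩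
    have h3 : ∫ ω, G (fun i => X i ω) * listProd X (F :: L) k ω ∂P =
        ∫ ω, (G (fun i => X i ω) * F (X k ω)) * listProd X L (k + 1) ω ∂P := by
      refine integral_congr_ae (Eventually.of_forall fun ω => ?_)
      show G (fun i => X i ω) * (F (X k ω) * listProd X L (k + 1) ω) = _
      ring
    have h4 : ∫ ω, G (fun i => X i ω) * foldK K (F :: L) (X k ω) ∂P =
        ∫ ω, (G (fun i => X i ω) * F (X k ω)) * kop K (foldK K L) (X k ω) ∂P := by
      refine integral_congr_ae (Eventually.of_forall fun ω => ?_)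
      show G (fun i => X i ω) * (F (X k ω) * kop K (foldK K L) (X k ω)) = _
      ring
    rw [h3, h4]
    exact h1.trans h2

set_option linter.unusedSectionVars false in
private theorem listProd_ofFn {n : ℕ} (F : Fin n → E → ℝ) (k : ℕ) (ω : Ω) :
    listProd X (List.ofFn F) k ω = ∏ i : Fin n, F i (X (k + i) ω) := by
  induction n generalizing k with
  | zero =>
    simp [listProd]
  | succ n ih =>
    rw [List.ofFn_succ, listProd, Fin.prod_univ_succ, ih]
    congr 1
    refine Finset.prod_congr rfl fun i _ => ?_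
    have h : k + 1 + (i : ℕ) = k + ((i.succ : Fin (n + 1)) : ℕ) := by
      rw [Fin.val_succ]
      ring
    rw [h]

set_option linter.unusedSectionVars false in
private theorem reverse_ofFn {n : ℕ} (F : Fin n → E → ℝ) :
    (List.ofFn F).reverse = List.ofFn (fun i => F (Fin.rev i)) := by
  apply List.ext_getElem
  · simp
  · intro i h1 h2
    rw [List.getElem_reverse, List.getElem_ofFn, List.getElem_ofFn]
    congr 1
    ext
    simp only [List.length_ofFn, Fin.val_rev]
    omega

/-- the measure of a box -/
private theorem box_meas (hX : IsChain P X Pi K) (hR : Rev Pi K) {n : ℕ} {s : Fin n → Set E}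
    (hs : ∀ i, MeasurableSet (s i)) :
    (P {ω | ∀ i, X i ω ∈ s i}).toReal =
      ∫ x, foldK K (List.ofFn (fun i => (s i).indicator (fun _ => (1 : ℝ)))) x ∂Pi := by
  have := hX.prob hR
  have hL : ∀ F ∈ List.ofFn (fun i => (s i).indicator (fun _ => (1 : ℝ))), MB 1 F := by
    intro F hF
    rw [List.mem_ofFn] at hF
    obtain ⟨i, rfl⟩ := hF
    refine ⟨measurable_const.indicator (hs i), fun x => ?_⟩
    by_cases h : x ∈ s i
    · simp [indicator_of_mem h]
    · simp [indicator_of_notMem h]
  have h1 := hX.chain_fold hR hL (k := 0) (C := 1) (G := fun _ => 1)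
    ⟨measurable_const, fun _ => by simp⟩
  simp only [one_mul] at h1
  have h2 : ∫ ω, foldK K (List.ofFn (fun i => (s i).indicator (fun _ => (1 : ℝ)))) (X 0 ω) ∂P =
      ∫ x, foldK K (List.ofFn (fun i => (s i).indicator (fun _ => (1 : ℝ)))) x ∂Pi := by
    conv_rhs => rw [← hX.law hR 0]
    rw [integral_map (hX.meas 0).aemeasurable (foldK_mb hR hL).meas.aestronglyMeasurable]
  rw [← h2, ← h1]
  have h3 : ∀ ω, listProd X (List.ofFn (fun i => (s i).indicator (fun _ => (1 : ℝ)))) 0 ω =
      ({ω | ∀ i : Fin n, X i ω ∈ s i} : Set Ω).indicator (fun _ => (1 : ℝ)) ω := by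
    intro ω
    rw [listProd_ofFn]
    by_cases h : ∀ i : Fin n, X i ω ∈ s i
    · rw [indicator_of_mem (show ω ∈ {ω | ∀ i : Fin n, X i ω ∈ s i} from h)]
      refine Finset.prod_eq_one fun i _ => ?_
      rw [zero_add, indicator_of_mem (h i)]
    · rw [indicator_of_notMem (show ω ∉ {ω | ∀ i : Fin n, X i ω ∈ s i} from h)]
      push Not at h
      obtain ⟨i, hi⟩ := h
      refine Finset.prod_eq_zero (Finset.mem_univ i) ?_
      rw [zero_add, indicator_of_notMem hi]
  simp_rw [h3]
  have hm : MeasurableSet {ω | ∀ i : Fin n, X i ω ∈ s i} := by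
    have : {ω | ∀ i : Fin n, X i ω ∈ s i} = ⋂ i : Fin n, X i ⁻¹' s i := by
      ext ω
      simp
    rw [this]
    exact MeasurableSet.iInter fun i => hX.meas i (hs i)
  rw [integral_indicator_const _ hm]
  simp [Measure.real]

theorem IsChain.chain_reverse (hX : IsChain P X Pi K) (hR : Rev Pi K) (m : ℕ) :
    P.map (fun ω (i : Fin (m + 1)) => X (m - i) ω) = P.map (fun ω (i : Fin (m + 1)) => X i ω) := by
  have := hX.prob hR
  have m1 : Measurable (fun ω (i : Fin (m + 1)) => X (m - i) ω) :=
    measurable_pi_lambda _ fun i => hX.meas _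
  have m2 : Measurable (fun ω (i : Fin (m + 1)) => X i ω) :=
    measurable_pi_lambda _ fun i => hX.meas _
  have p1 : IsProbabilityMeasure (P.map (fun ω (i : Fin (m + 1)) => X (m - i) ω)) :=
    Measure.isProbabilityMeasure_map m1.aemeasurable
  have p2 : IsProbabilityMeasure (P.map (fun ω (i : Fin (m + 1)) => X i ω)) :=
    Measure.isProbabilityMeasure_map m2.aemeasurable
  refine ext_of_generate_finite _ generateFrom_pi.symm isPiSystem_pi ?_ ?_
  · rintro A ⟨s, hs, rfl⟩
    have hs' : ∀ i, MeasurableSet (s i) := fun i => hs i (mem_univ i)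
    have hA : MeasurableSet (univ.pi s) := MeasurableSet.univ_pi hs'
    rw [Measure.map_apply m1 hA, Measure.map_apply m2 hA]
    have e1 : (fun ω (i : Fin (m + 1)) => X (m - i) ω) ⁻¹' univ.pi s =
        {ω | ∀ i : Fin (m + 1), X i ω ∈ s (Fin.rev i)} := by
      ext ω
      constructor
      · intro h i
        have h1 := h (Fin.rev i) (mem_univ _)
        have h2 : m - ((Fin.rev i : Fin (m + 1)) : ℕ) = i := by
          rw [Fin.val_rev]
          omega
        simp only [h2] at h1
        exact h1
      · intro h i _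
        have h1 := h (Fin.rev i)
        have h2 : ((Fin.rev i : Fin (m + 1)) : ℕ) = m - i := by
          rw [Fin.val_rev]
          omega
        rw [h2, Fin.rev_rev] at h1
        exact h1
    have e2 : (fun ω (i : Fin (m + 1)) => X i ω) ⁻¹' univ.pi s =
        {ω | ∀ i : Fin (m + 1), X i ω ∈ s i} := by
      ext ω
      exact ⟨fun h i => h i (mem_univ _), fun h i _ => h i⟩
    rw [e1, e2]
    have b1 := box_meas hX hR (fun i => hs' (Fin.rev i))
    have b2 := box_meas hX hR hs'
    have hL : ∀ F ∈ List.ofFn (fun i => (s i).indicator (fun _ => (1 : ℝ))), MB 1 F := by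
      intro F hF
      rw [List.mem_ofFn] at hF
      obtain ⟨i, rfl⟩ := hF
      refine ⟨measurable_const.indicator (hs' i), fun x => ?_⟩
      by_cases h : x ∈ s i
      · simp [indicator_of_mem h]
      · simp [indicator_of_notMem h]
    have b3 := foldK_reverse hR hL
    rw [reverse_ofFn, ← b1, ← b2] at b3
    exact ((ENNReal.toReal_eq_toReal_iff' (measure_ne_top _ _) (measure_ne_top _ _)).1 b3).symm
  · rw [measure_univ, measure_univ]

end Pool.Agent.Lib.MP_e19099_pr
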