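import Pool.Agent.Lib.MP_e19099_pr.Mart4
import Pool.Agent.Lib.MP_e19099_pr.RevLaw

/-!
# Fourth moments of increments (task A18)

`b x = ∫ (φ y - φ x) K(x, dy)` (`b` is measurable), `d (x, y) = φ y - φ x - b x`; `∫ d(x, y) K(x, dy) = 0` for `Pi`-a.e. `x` (those where
`y ↦ φ y - φ x` is `K x`-integrable), `∫ b⁴ dPi ≤ D₄ := ∫ (φ y - φ x)⁴ d(Pi ⊗ₘ K)` (Jensen), `∫ d⁴ ≤ 16 D₄`
(`(a - b)⁴ ≤ 8 (a⁴ + b⁴)`).
With `M = mart d X m` and `M̂ = ∑_{i<m} (φ(X_i) - φ(X_{i+1}) - b(X_{i+1}))` (which is `mart d` of the reversed path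
`Y_i = X_{m-i}`, reindex the sum), `φ(X_m) - φ(X_0) = ½ (M - M̂) + ½ (b(X_0) - b(X_m))`.
By `chain_reverse` `E M̂⁴ = E M⁴ ≤ 16 m² · 16 D₄` (`M` and `M̂` are the same functional of `(X_0..X_m)`, resp. of the reversed vector).
`(½(A - B) + ½(c - e))⁴ ≤ 4 (A⁴ + B⁴ + c⁴ + e⁴)` so `E ≤ 4 (512 m² D₄ + 2 D₄) ≤ 2056 m² D₄`.
For `k > 0` use `IsChain.shift`.
-/

set_option autoImplicit false

open MeasureTheory ProbabilityTheory Filter Set
open scoped NNReal Topology ENNReal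

namespace Pool.Agent.Lib.MP_e19099_pr

variable {Ω E : Type*} [MeasurableSpace Ω] [MeasurableSpace E] {P : Measure Ω} {X : ℕ → Ω → E}
  {Pi : Measure E} {K : Kernel E E}

/-- the drift `b x = ∫ (φ y - φ x) K(x, dy)` -/
noncomputable def drift (K : Kernel E E) (φ : E → ℝ) (x : E) : ℝ := ∫ y, (φ y - φ x) ∂(K x)

theorem drift_meas (hR : Rev Pi K) {φ : E → ℝ} (hφ : Measurable φ) : Measurable (drift K φ) := by
  have := hR.markov
  have h1 : StronglyMeasurable (fun z : E × E => φ z.2 - φ z.1) :=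
    ((hφ.comp measurable_snd).sub (hφ.comp measurable_fst)).stronglyMeasurable
  exact (h1.integral_kernel_prod_right' (κ := K)).measurable

private theorem m4_meas {φ : E → ℝ} (hφ : Measurable φ) :
    Measurable (fun z : E × E => φ z.2 - φ z.1) :=
  (hφ.comp measurable_snd).sub (hφ.comp measurable_fst)

private theorem m4_int (x : E) [IsProbabilityMeasure (K x)] {φ : E → ℝ} (hφ : Measurable φ)
    (h : Integrable (fun y => (φ y - φ x) ^ 4) (K x)) :
    Integrable (fun y => φ y - φ x) (K x) := by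
  refine ((integrable_const (1 : ℝ)).add h).mono' (hφ.sub_const _).aestronglyMeasurable
    (Eventually.of_forall fun y => ?_)
  simp only [Pi.add_apply, Real.norm_eq_abs]
  have h1 : |φ y - φ x| ^ 4 = (φ y - φ x) ^ 4 := Even.pow_abs (by decide) _
  rw [← h1]
  have h2 : 0 ≤ |φ y - φ x| := abs_nonneg _
  nlinarith [sq_nonneg (|φ y - φ x| ^ 2 - 1 / 2), sq_nonneg (|φ y - φ x| - 1 / 2)]

private theorem m4_ae (hR : Rev Pi K) {φ : E → ℝ} (hφ : Measurable φ)
    (h4 : Integrable (fun z : E × E => (φ z.2 - φ z.1) ^ 4) (Pi ⊗ₘ K)) :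
    ∀ᵐ x ∂Pi, Integrable (fun y => (φ y - φ x) ^ 4) (K x) := by
  have := hR.prob
  have := hR.markov
  exact ((Measure.integrable_compProd_iff
    ((m4_meas hφ).pow_const 4).aestronglyMeasurable).1 h4).1

private theorem m4_ih (hR : Rev Pi K) {φ : E → ℝ} (hφ : Measurable φ)
    (h4 : Integrable (fun z : E × E => (φ z.2 - φ z.1) ^ 4) (Pi ⊗ₘ K)) :
    Integrable (fun x => ∫ y, (φ y - φ x) ^ 4 ∂(K x)) Pi := by
  have := hR.prob
  have := hR.markov
  have h1 := ((Measure.integrable_compProd_iff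
    ((m4_meas hφ).pow_const 4).aestronglyMeasurable).1 h4).2
  refine h1.congr (Eventually.of_forall fun x => ?_)
  refine integral_congr_ae (Eventually.of_forall fun y => ?_)
  simp only [Real.norm_eq_abs]
  exact abs_of_nonneg (by positivity)

theorem drift_mean (hR : Rev Pi K) {φ : E → ℝ} (hφ : Measurable φ)
    (h4 : Integrable (fun z : E × E => (φ z.2 - φ z.1) ^ 4) (Pi ⊗ₘ K)) :
    ∀ᵐ x ∂Pi, ∫ y, (φ y - φ x - drift K φ x) ∂(K x) = 0 := by
  have := hR.markov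
  filter_upwards [m4_ae hR hφ h4] with x hx
  have h1 := m4_int x hφ hx
  rw [integral_sub h1 (integrable_const _), integral_const, probReal_univ, one_smul]
  exact sub_self _

theorem drift4 (hR : Rev Pi K) {φ : E → ℝ} (hφ : Measurable φ)
    (h4 : Integrable (fun z : E × E => (φ z.2 - φ z.1) ^ 4) (Pi ⊗ₘ K)) :
    Integrable (fun x => drift K φ x ^ 4) Pi ∧
      ∫ x, drift K φ x ^ 4 ∂Pi ≤ ∫ z : E × E, (φ z.2 - φ z.1) ^ 4 ∂(Pi ⊗ₘ K) := by
  have := hR.prob
  have := hR.markov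
  have hle : ∀ᵐ x ∂Pi, drift K φ x ^ 4 ≤ ∫ y, (φ y - φ x) ^ 4 ∂(K x) := by
    filter_upwards [m4_ae hR hφ h4] with x hx
    exact (Even.convexOn_pow (𝕜 := ℝ) (n := 4) (by decide)).map_integral_le
      (continuous_pow 4).continuousOn isClosed_univ (Eventually.of_forall fun _ => mem_univ _)
      (m4_int x hφ hx) hx
  have hint := m4_ih hR hφ h4
  have hi : Integrable (fun x => drift K φ x ^ 4) Pi := by
    refine hint.mono' ((drift_meas hR hφ).pow_const 4).aestronglyMeasurable ?_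
    filter_upwards [hle] with x hx
    rw [Real.norm_eq_abs, abs_of_nonneg (by positivity)]
    exact hx
  refine ⟨hi, ?_⟩
  rw [Measure.integral_compProd h4]
  exact integral_mono_ae hi hint hle

/-- the identity behind the forward/backward martingale decomposition -/
theorem lyons_zheng (φ b : ℕ → ℝ) (m : ℕ) :
    φ m - φ 0 = 1 / 2 * (∑ i ∈ Finset.range m, (φ (i + 1) - φ i - b i))
      - 1 / 2 * (∑ i ∈ Finset.range m, (φ i - φ (i + 1) - b (i + 1)))
      + 1 / 2 * (b 0 - b m) := by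
  induction m with
  | zero => simp
  | succ m ih =>
    rw [Finset.sum_range_succ, Finset.sum_range_succ]
    linarith

private theorem m4_edge (hR : Rev Pi K) {φ : E → ℝ} (hφ : Measurable φ)
    (h4 : Integrable (fun z : E × E => (φ z.2 - φ z.1) ^ 4) (Pi ⊗ₘ K)) :
    Integrable (fun z : E × E => drift K φ z.1 ^ 4) (Pi ⊗ₘ K) ∧
      ∫ z : E × E, drift K φ z.1 ^ 4 ∂(Pi ⊗ₘ K) ≤
        ∫ z : E × E, (φ z.2 - φ z.1) ^ 4 ∂(Pi ⊗ₘ K) := by
  obtain ⟨h1, h2⟩ := drift4 hR hφ h4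
  have hmp : MeasurePreserving (Prod.fst : E × E → E) (Pi ⊗ₘ K) Pi :=
    ⟨measurable_fst, hR.edge_fst⟩
  have hm : AEStronglyMeasurable (fun x => drift K φ x ^ 4) Pi :=
    ((drift_meas hR hφ).pow_const 4).aestronglyMeasurable
  constructor
  · exact hmp.integrable_comp_of_integrable h1
  · have h3 : ∫ z : E × E, drift K φ z.1 ^ 4 ∂(Pi ⊗ₘ K) = ∫ x, drift K φ x ^ 4 ∂Pi := by
      conv_rhs => rw [← hR.edge_fst]
      rw [integral_map measurable_fst.aemeasurable]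
      rw [hR.edge_fst]
      exact hm
    rw [h3]
    exact h2

private theorem m4_d (hR : Rev Pi K) {φ : E → ℝ} (hφ : Measurable φ)
    (h4 : Integrable (fun z : E × E => (φ z.2 - φ z.1) ^ 4) (Pi ⊗ₘ K)) :
    Integrable (fun z : E × E => (φ z.2 - φ z.1 - drift K φ z.1) ^ 4) (Pi ⊗ₘ K) ∧
      ∫ z : E × E, (φ z.2 - φ z.1 - drift K φ z.1) ^ 4 ∂(Pi ⊗ₘ K) ≤
        16 * ∫ z : E × E, (φ z.2 - φ z.1) ^ 4 ∂(Pi ⊗ₘ K) := by
  obtain ⟨h1, h2⟩ := m4_edge hR hφ h4
  have hpt : ∀ z : E × E, (φ z.2 - φ z.1 - drift K φ z.1) ^ 4 ≤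
      8 * ((φ z.2 - φ z.1) ^ 4 + drift K φ z.1 ^ 4) := by
    intro z
    have h5 : ∀ a b : ℝ, (a - b) ^ 4 ≤ 8 * (a ^ 4 + b ^ 4) := by
      intro a b
      nlinarith [sq_nonneg (a + b), sq_nonneg (a ^ 2 - b ^ 2), sq_nonneg (a * b),
        mul_nonneg (sq_nonneg (a + b)) (sq_nonneg (a - b)), sq_nonneg ((a + b) ^ 2),
        mul_nonneg (sq_nonneg (a + b)) (sq_nonneg a), mul_nonneg (sq_nonneg (a + b)) (sq_nonneg b)]
    exact h5 _ _
  have hg : Integrable (fun z : E × E => 8 * ((φ z.2 - φ z.1) ^ 4 + drift K φ z.1 ^ 4))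
      (Pi ⊗ₘ K) := (h4.add h1).const_mul 8
  have hi : Integrable (fun z : E × E => (φ z.2 - φ z.1 - drift K φ z.1) ^ 4) (Pi ⊗ₘ K) := by
    refine hg.mono' ((((m4_meas hφ).sub
      ((drift_meas hR hφ).comp measurable_fst)).pow_const 4).aestronglyMeasurable)
      (Eventually.of_forall fun z => ?_)
    rw [Real.norm_eq_abs, abs_of_nonneg (by positivity)]
    exact hpt z
  refine ⟨hi, ?_⟩
  have h6 := integral_mono hi hg hpt
  rw [integral_const_mul, integral_add h4 h1] at h6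
  linarith

/-- the functional of the history -/
private noncomputable def m4F (d : E × E → ℝ) (m : ℕ) (v : Fin (m + 1) → E) : ℝ :=
  ∑ i : Fin m, d (v i.castSucc, v i.succ)

private theorem m4F_meas {d : E × E → ℝ} (hd : Measurable d) (m : ℕ) : Measurable (m4F d m) := by
  unfold m4F
  refine Finset.measurable_sum _ fun i _ => ?_
  exact hd.comp ((measurable_pi_apply _).prodMk (measurable_pi_apply _))

private theorem m4F_fwd (d : E × E → ℝ) (X : ℕ → Ω → E) (m : ℕ) (ω : Ω) :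
    m4F d m (fun i : Fin (m + 1) => X i ω) = mart d X m ω := by
  unfold m4F mart
  rw [Finset.sum_range]
  rfl

private theorem m4F_bwd (d : E × E → ℝ) (X : ℕ → Ω → E) (m : ℕ) (ω : Ω) :
    m4F d m (fun i : Fin (m + 1) => X (m - i) ω) =
      ∑ i ∈ Finset.range m, d (X (i + 1) ω, X i ω) := by
  rw [← Finset.sum_range_reflect]
  unfold m4F
  rw [Finset.sum_range]
  refine Finset.sum_congr rfl fun i _ => ?_
  have hi := i.isLt
  have h1 : m - 1 - (i : ℕ) + 1 = m - ((i.castSucc : Fin (m + 1)) : ℕ) := by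
    simp only [Fin.val_castSucc]
    omega
  have h2 : m - 1 - (i : ℕ) = m - ((i.succ : Fin (m + 1)) : ℕ) := by
    simp only [Fin.val_succ]
    omega
  rw [h1, h2]

private theorem m4_zero (hX : IsChain P X Pi K) (hR : Rev Pi K) {φ : E → ℝ} (hφ : Measurable φ)
    (h4 : Integrable (fun z : E × E => (φ z.2 - φ z.1) ^ 4) (Pi ⊗ₘ K)) (m : ℕ) :
    Integrable (fun ω => (φ (X m ω) - φ (X 0 ω)) ^ 4) P ∧
      ∫ ω, (φ (X m ω) - φ (X 0 ω)) ^ 4 ∂P
        ≤ 2056 * m ^ 2 * ∫ z : E × E, (φ z.2 - φ z.1) ^ 4 ∂(Pi ⊗ₘ K) := by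
  have hP := hX.prob hR
  rcases Nat.eq_zero_or_pos m with rfl | hm
  · simp
  set D : ℝ := ∫ z : E × E, (φ z.2 - φ z.1) ^ 4 ∂(Pi ⊗ₘ K) with hD
  have hD0 : 0 ≤ D := integral_nonneg fun z => by positivity
  set d : E × E → ℝ := fun z => φ z.2 - φ z.1 - drift K φ z.1 with hd
  have hdm : Measurable d := (m4_meas hφ).sub ((drift_meas hR hφ).comp measurable_fst)
  obtain ⟨hd4, hd4le⟩ := m4_d hR hφ h4
  have h0 : ∀ᵐ x ∂Pi, ∫ y, d (x, y) ∂(K x) = 0 := drift_mean hR hφ h4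
  have hM := hX.mart4_int hR hdm hd4 m
  have hMle := hX.mart4 hR hdm hd4 h0 m
  -- the reversed martingale
  have hrev := hX.chain_reverse hR m
  have hXf : Measurable (fun ω (i : Fin (m + 1)) => X i ω) :=
    measurable_pi_lambda _ fun i => hX.meas _
  have hXb : Measurable (fun ω (i : Fin (m + 1)) => X (m - i) ω) :=
    measurable_pi_lambda _ fun i => hX.meas _
  have hFm : Measurable (fun v : Fin (m + 1) → E => m4F d m v ^ 4) := (m4F_meas hdm m).pow_const 4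
  set N : Ω → ℝ := fun ω => ∑ i ∈ Finset.range m, d (X (i + 1) ω, X i ω) with hN
  have hNint : Integrable (fun ω => N ω ^ 4) P := by
    have h1 : Integrable (fun v : Fin (m + 1) → E => m4F d m v ^ 4)
        (P.map (fun ω (i : Fin (m + 1)) => X i ω)) := by
      rw [integrable_map_measure hFm.aestronglyMeasurable hXf.aemeasurable]
      refine hM.congr (Eventually.of_forall fun ω => ?_)
      simp only [Function.comp_apply, m4F_fwd]
    rw [← hrev, integrable_map_measure hFm.aestronglyMeasurable hXb.aemeasurable] at h1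
    refine h1.congr (Eventually.of_forall fun ω => ?_)
    simp only [Function.comp_apply, m4F_bwd]
    rfl
  have hNeq : ∫ ω, N ω ^ 4 ∂P = ∫ ω, mart d X m ω ^ 4 ∂P := by
    have h1 : ∫ ω, mart d X m ω ^ 4 ∂P =
        ∫ v, m4F d m v ^ 4 ∂(P.map (fun ω (i : Fin (m + 1)) => X i ω)) := by
      rw [integral_map hXf.aemeasurable hFm.aestronglyMeasurable]
      refine integral_congr_ae (Eventually.of_forall fun ω => ?_)
      simp only [m4F_fwd]
    have h2 : ∫ ω, N ω ^ 4 ∂P =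
        ∫ v, m4F d m v ^ 4 ∂(P.map (fun ω (i : Fin (m + 1)) => X (m - i) ω)) := by
      rw [integral_map hXb.aemeasurable hFm.aestronglyMeasurable]
      refine integral_congr_ae (Eventually.of_forall fun ω => ?_)
      simp only [m4F_bwd]
      rfl
    rw [h1, h2, hrev]
  -- the drift terms
  obtain ⟨hb4, hb4le⟩ := drift4 hR hφ h4
  have hbm : AEStronglyMeasurable (fun x => drift K φ x ^ 4) Pi :=
    ((drift_meas hR hφ).pow_const 4).aestronglyMeasurable
  have hbint : ∀ j, Integrable (fun ω => drift K φ (X j ω) ^ 4) P := by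
    intro j
    have hmp : MeasurePreserving (X j) P Pi := ⟨hX.meas j, hX.law hR j⟩
    exact hmp.integrable_comp_of_integrable hb4
  have hble : ∀ j, ∫ ω, drift K φ (X j ω) ^ 4 ∂P ≤ D := by
    intro j
    have h3 : ∫ ω, drift K φ (X j ω) ^ 4 ∂P = ∫ x, drift K φ x ^ 4 ∂Pi := by
      conv_rhs => rw [← hX.law hR j]
      rw [integral_map (hX.meas j).aemeasurable]
      rw [hX.law hR j]
      exact hbm
    rw [h3]
    exact hb4le
  -- the pointwise inequality
  have hpt : ∀ ω, (φ (X m ω) - φ (X 0 ω)) ^ 4 ≤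
      4 * (mart d X m ω ^ 4 + N ω ^ 4 + drift K φ (X 0 ω) ^ 4 + drift K φ (X m ω) ^ 4) := by
    intro ω
    have h5 := lyons_zheng (fun i => φ (X i ω)) (fun i => drift K φ (X i ω)) m
    have h6 : (∑ i ∈ Finset.range m, (φ (X (i + 1) ω) - φ (X i ω) - drift K φ (X i ω))) =
        mart d X m ω := rfl
    have h7 : (∑ i ∈ Finset.range m, (φ (X i ω) - φ (X (i + 1) ω) - drift K φ (X (i + 1) ω))) =
        N ω := rfl
    rw [h6, h7] at h5
    rw [h5]
    have h8 : ∀ a b c e : ℝ, (1 / 2 * a - 1 / 2 * b + 1 / 2 * (c - e)) ^ 4 ≤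
        4 * (a ^ 4 + b ^ 4 + c ^ 4 + e ^ 4) := by
      intro a b c e
      have h9 : ∀ x y : ℝ, (x + y) ^ 4 ≤ 8 * (x ^ 4 + y ^ 4) := by
        intro x y
        nlinarith [mul_nonneg (sq_nonneg (x - y)) (sq_nonneg x),
          mul_nonneg (sq_nonneg (x - y)) (sq_nonneg y), sq_nonneg ((x - y) ^ 2),
          mul_nonneg (sq_nonneg (x + y)) (sq_nonneg (x - y))]
      have h10 := h9 (1 / 2 * a - 1 / 2 * b) (1 / 2 * (c - e))
      have h11 := h9 (1 / 2 * a) (-(1 / 2 * b))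
      have h12 := h9 (1 / 2 * c) (-(1 / 2 * e))
      have h13 : (1 / 2 * a + -(1 / 2 * b)) = 1 / 2 * a - 1 / 2 * b := by ring
      have h14 : (1 / 2 * c + -(1 / 2 * e)) = 1 / 2 * (c - e) := by ring
      rw [h13] at h11
      rw [h14] at h12
      nlinarith [h10, h11, h12]
    exact h8 _ _ _ _
  have hg : Integrable (fun ω => 4 * (mart d X m ω ^ 4 + N ω ^ 4 + drift K φ (X 0 ω) ^ 4 +
      drift K φ (X m ω) ^ 4)) P :=
    (((hM.add hNint).add (hbint 0)).add (hbint m)).const_mul 4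
  have hmeas : AEStronglyMeasurable (fun ω => (φ (X m ω) - φ (X 0 ω)) ^ 4) P :=
    (((hφ.comp (hX.meas m)).sub (hφ.comp (hX.meas 0))).pow_const 4).aestronglyMeasurable
  have hi : Integrable (fun ω => (φ (X m ω) - φ (X 0 ω)) ^ 4) P := by
    refine hg.mono' hmeas (Eventually.of_forall fun ω => ?_)
    rw [Real.norm_eq_abs, abs_of_nonneg (by positivity)]
    exact hpt ω
  refine ⟨hi, ?_⟩
  have h6 := integral_mono hi hg hpt
  have i1 : Integrable (fun ω => mart d X m ω ^ 4 + N ω ^ 4) P := hM.add hNint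
  have i2 : Integrable (fun ω => mart d X m ω ^ 4 + N ω ^ 4 + drift K φ (X 0 ω) ^ 4) P :=
    i1.add (hbint 0)
  rw [integral_const_mul, integral_add i2 (hbint m), integral_add i1 (hbint 0),
    integral_add hM hNint, hNeq] at h6
  have hm1 : (1 : ℝ) ≤ m := by exact_mod_cast hm
  have hm2 : (1 : ℝ) ≤ (m : ℝ) ^ 2 := by nlinarith
  have h7 : ∫ ω, mart d X m ω ^ 4 ∂P ≤ 256 * (m : ℝ) ^ 2 * D := by
    refine hMle.trans ?_
    have h8 : 16 * (m : ℝ) ^ 2 * ∫ z, d z ^ 4 ∂(Pi ⊗ₘ K) ≤ 16 * (m : ℝ) ^ 2 * (16 * D) :=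
      mul_le_mul_of_nonneg_left hd4le (by positivity)
    linarith
  have h8 := hble 0
  have h9 := hble m
  have h10 : D ≤ (m : ℝ) ^ 2 * D := by nlinarith
  nlinarith [h6, h7, h8, h9, h10]

theorem IsChain.mom4 (hX : IsChain P X Pi K) (hR : Rev Pi K) {φ : E → ℝ} (hφ : Measurable φ)
    (h4 : Integrable (fun z : E × E => (φ z.2 - φ z.1) ^ 4) (Pi ⊗ₘ K)) (k m : ℕ) :
    Integrable (fun ω => (φ (X (k + m) ω) - φ (X k ω)) ^ 4) P ∧
      ∫ ω, (φ (X (k + m) ω) - φ (X k ω)) ^ 4 ∂P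
        ≤ 2056 * m ^ 2 * ∫ z : E × E, (φ z.2 - φ z.1) ^ 4 ∂(Pi ⊗ₘ K) :=
  m4_zero (hX.shift hR k) hR hφ h4 m

end Pool.Agent.Lib.MP_e19099_pr
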