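import Pool.Agent.Lib.MP_e19099_pr.Core

/-!
# Orthogonality, first part (task A3)

`u ∈ L²(π)` is orthogonal to all `lam v - L v`.
`orth_mean`: take `q = 0`, `a = 1`.
`orth_weak`: `∫ u (gen h p q) dtgt = (h/2) ∫ u q' dx`.  Put `F = cumul p u`.  For every `x`,
`v x = v_∞ - ∫_{Ioi x} q/p` (`q/p` is integrable, `v_∞ = a + ∫_{Ioi 0} q/p`), so by `orth_mean` and Fubini
`∫ u v dtgt = - ∫∫ 1_{x<t} u(x) p(x) (q/p)(t) = - ∫ (q/p)(t) F(t) dt`.  Hence
`(h/2) ∫ u q' = lam ∫ u v dtgt = - lam ∫ (q/p) F`.
`cumul_cont`, `cumul_bdd`: `u p` is integrable (`u ∈ L² ⊂ L¹` of a probability measure).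
-/

set_option autoImplicit false

open MeasureTheory ProbabilityTheory Filter Set
open scoped NNReal Topology ENNReal

namespace Pool.Agent.Lib.MP_e19099_pr

/-- `y ↦ ∫_{-∞}^y u p` -/
noncomputable def cumul (p u : ℝ → ℝ) (y : ℝ) : ℝ := ∫ x in Iic y, u x * p x

variable {p u : ℝ → ℝ} {h lam : ℝ}

theorem up_integrable (hp : Dens p) (hu : MemLp u 2 (tgt p)) : Integrable fun x => u x * p x := by
  have := tgt_prob hp
  exact (integrable_tgt hp u).1 (hu.integrable (by norm_num))

theorem cumul_cont (hp : Dens p) (hu : MemLp u 2 (tgt p)) : Continuous (cumul p u) := by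
  have hi := up_integrable hp hu
  have h1 : cumul p u = fun y => cumul p u 0 + ∫ x in (0 : ℝ)..y, u x * p x := by
    funext y
    have h2 := intervalIntegral.integral_Iic_sub_Iic (f := fun x => u x * p x) (μ := volume)
      (a := 0) (b := y) hi.integrableOn hi.integrableOn
    unfold cumul
    linarith
  rw [h1]
  exact continuous_const.add (intervalIntegral.continuous_primitive
    (fun a b => hi.intervalIntegrable) 0)

namespace OrthA

theorem test_zero : IsTest (fun _ : ℝ => (0 : ℝ)) :=
  ⟨contDiff_const, HasCompactSupport.zero⟩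

/-- Fubini: `∫ u p (∫_{Ioi x} g) = ∫ g F` -/
theorem fubini (hp : Dens p) (hu : MemLp u 2 (tgt p)) {g : ℝ → ℝ} (hg : Integrable g) :
    ∫ x, (u x * p x) * ∫ t in Ioi x, g t = ∫ t, g t * cumul p u t := by
  have hi := up_integrable hp hu
  have hprod : Integrable (fun z : ℝ × ℝ => (u z.1 * p z.1) * g z.2) (volume.prod volume) :=
    hi.mul_prod hg
  have hset : MeasurableSet {z : ℝ × ℝ | z.1 < z.2} := measurableSet_lt measurable_fst measurable_snd
  have hprod' : Integrable ({z : ℝ × ℝ | z.1 < z.2}.indicator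
      (fun z : ℝ × ℝ => (u z.1 * p z.1) * g z.2)) (volume.prod volume) := hprod.indicator hset
  have h1 := integral_integral_swap (f := fun x t => ({z : ℝ × ℝ | z.1 < z.2}.indicator
      (fun z : ℝ × ℝ => (u z.1 * p z.1) * g z.2)) (x, t)) hprod'
  have h2 : ∀ x, ∫ t, ({z : ℝ × ℝ | z.1 < z.2}.indicator
      (fun z : ℝ × ℝ => (u z.1 * p z.1) * g z.2)) (x, t) = (u x * p x) * ∫ t in Ioi x, g t := by
    intro x
    rw [← integral_const_mul, ← integral_indicator measurableSet_Ioi]
    refine integral_congr_ae (Filter.Eventually.of_forall fun t => ?_)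
    beta_reduce
    by_cases h : x < t
    · rw [indicator_of_mem (show (x, t) ∈ {z : ℝ × ℝ | z.1 < z.2} from h),
        indicator_of_mem (show t ∈ Ioi x from h)]
    · rw [indicator_of_notMem (show (x, t) ∉ {z : ℝ × ℝ | z.1 < z.2} from h),
        indicator_of_notMem (show t ∉ Ioi x from h)]
  have h3 : ∀ t, ∫ x, ({z : ℝ × ℝ | z.1 < z.2}.indicator
      (fun z : ℝ × ℝ => (u z.1 * p z.1) * g z.2)) (x, t) = g t * cumul p u t := by
    intro t
    unfold cumul
    rw [integral_Iic_eq_integral_Iio, ← integral_const_mul, ← integral_indicator measurableSet_Iio]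
    refine integral_congr_ae (Filter.Eventually.of_forall fun x => ?_)
    beta_reduce
    by_cases h : x < t
    · rw [indicator_of_mem (show (x, t) ∈ {z : ℝ × ℝ | z.1 < z.2} from h),
        indicator_of_mem (show x ∈ Iio t from h)]
      ring
    · rw [indicator_of_notMem (show (x, t) ∉ {z : ℝ × ℝ | z.1 < z.2} from h),
        indicator_of_notMem (show x ∉ Iio t from h)]
  simp only [h2, h3] at h1
  exact h1

end OrthA

theorem orth_mean (hp : Dens p) (hlam : 0 < lam) (hu : MemLp u 2 (tgt p))
    (horth : ∀ q, IsTest q → ∀ a, ∫ x, u x * (lam * vf p q a x - gen h p q x) ∂(tgt p) = 0) :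
    ∫ x, u x * p x = 0 := by
  have h1 := horth (fun _ => 0) OrthA.test_zero 1
  have h2 : ∀ x, u x * (lam * vf p (fun _ => 0) 1 x - gen h p (fun _ => 0) x) = lam * u x := by
    intro x
    unfold vf gen
    simp
    ring
  simp only [h2] at h1
  rw [integral_const_mul] at h1
  have h3 := (mul_eq_zero.1 h1).resolve_left hlam.ne'
  rwa [integral_tgt hp] at h3

theorem orth_weak (hp : Dens p) (hlam : 0 < lam) (hh : 0 < h) (hu : MemLp u 2 (tgt p))
    (horth : ∀ q, IsTest q → ∀ a, ∫ x, u x * (lam * vf p q a x - gen h p q x) ∂(tgt p) = 0)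
    {q : ℝ → ℝ} (hq : IsTest q) :
    ∫ x, u x * deriv q x = - ∫ x, (2 * lam / h * (cumul p u x / p x)) * q x := by
  have hi := up_integrable hp hu
  have hmean := orth_mean hp hlam hu horth
  have hqc := qp_cont hp hq
  have hqs : HasCompactSupport fun x => q x / p x := qp_supp hq
  have hqi : Integrable fun x => q x / p x := hqc.integrable_of_hasCompactSupport hqs
  have h1 := horth q hq 0
  rw [integral_tgt hp] at h1
  -- `v x = c - ∫_{Ioi x} q/p`
  have hv : ∀ x, vf p q 0 x = (∫ t in Ioi (0 : ℝ), q t / p t) - ∫ t in Ioi x, q t / p t := by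
    intro x
    unfold vf
    rw [intervalIntegral.integral_Ioi_sub_Ioi' hqi.integrableOn hqi.integrableOn, zero_add]
  obtain ⟨Cv, hCv⟩ := vf_bdd hp hq 0
  obtain ⟨Cg, hCg⟩ := gen_bdd hp hq h
  have hA : Integrable fun x => (u x * p x) * vf p q 0 x :=
    hi.mul_bdd (c := Cv) (vf_cont hp hq 0).aestronglyMeasurable
      (Filter.Eventually.of_forall fun x => by simpa [Real.norm_eq_abs] using hCv x)
  have hB : Integrable fun x => (u x * p x) * gen h p q x :=
    hi.mul_bdd (c := Cg) (gen_cont hp hq h).aestronglyMeasurable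
      (Filter.Eventually.of_forall fun x => by simpa [Real.norm_eq_abs] using hCg x)
  have h2 : lam * (∫ x, (u x * p x) * vf p q 0 x) - ∫ x, (u x * p x) * gen h p q x = 0 := by
    rw [← integral_const_mul, ← integral_sub (hA.const_mul lam) hB]
    refine Eq.trans (integral_congr_ae (Filter.Eventually.of_forall fun x => ?_)) h1
    show lam * (u x * p x * vf p q 0 x) - u x * p x * gen h p q x =
      u x * (lam * vf p q 0 x - gen h p q x) * p x
    ring
  have h3 : ∫ x, (u x * p x) * gen h p q x = h / 2 * ∫ x, u x * deriv q x := by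
    rw [← integral_const_mul]
    refine integral_congr_ae (Filter.Eventually.of_forall fun x => ?_)
    have hpx := (hp.pos x).ne'
    show u x * p x * gen h p q x = h / 2 * (u x * deriv q x)
    unfold gen
    field_simp
  have h4 : ∫ x, (u x * p x) * vf p q 0 x = - ∫ t, (q t / p t) * cumul p u t := by
    rw [← OrthA.fubini hp hu hqi]
    have h5 : ∀ x, (u x * p x) * vf p q 0 x =
        (∫ t in Ioi (0 : ℝ), q t / p t) * (u x * p x) - (u x * p x) * ∫ t in Ioi x, q t / p t := by
      intro x
      rw [hv x]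
      ring
    have hC : Integrable fun x => (u x * p x) * ∫ t in Ioi x, q t / p t := by
      have h6 : (fun x => (u x * p x) * ∫ t in Ioi x, q t / p t) = fun x =>
          (∫ t in Ioi (0 : ℝ), q t / p t) * (u x * p x) - (u x * p x) * vf p q 0 x := by
        funext x
        rw [hv x]
        ring
      rw [h6]
      exact (hi.const_mul _).sub hA
    simp only [h5]
    rw [integral_sub (hi.const_mul _) hC, integral_const_mul, hmean, mul_zero, zero_sub]
  rw [h3, h4] at h2
  have h7 : ∫ x, (2 * lam / h * (cumul p u x / p x)) * q x =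
      2 * lam / h * ∫ t, (q t / p t) * cumul p u t := by
    rw [← integral_const_mul]
    refine integral_congr_ae (Filter.Eventually.of_forall fun x => ?_)
    show 2 * lam / h * (cumul p u x / p x) * q x = 2 * lam / h * (q x / p x * cumul p u x)
    ring
  rw [h7]
  have h8 : ∀ I K : ℝ, lam * -K - h / 2 * I = 0 → I = -(2 * lam / h * K) := by
    intro I K hIK
    have hne := hh.ne'
    field_simp
    linarith
  exact h8 _ _ h2

end Pool.Agent.Lib.MP_e19099_pr
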