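import Pool.Agent.Lib.MP_e19099_pr.OrthA

/-!
# Orthogonality, second part (task A5)

`U = cumul p G` is `C¹` with `U' = G p`, `G' = c₀ U / p`, so `H = G U` has `H' = c₀ U²/p + G² p ≥ 0`.
Suppose `H y₀ > 0`; then `H y ≥ H y₀ =: a` for `y ≥ y₀`.  As `∫ G p = 0`, `U y = - ∫_{Ioi y} G p`, so by Cauchy-Schwarz
`(U y)² ≤ N S(y)`, `N = ∫ G² p`, `S y = ∫_{Ioi y} p > 0`.  So `G(y)² ≥ a²/(N S(y))` and
`N ≥ ∫_{y₀}^Y G² p ≥ (a²/N) ∫_{y₀}^Y p/S = (a²/N) (log S(y₀) - log S(Y))` which tends to `∞` as `Y → ∞` (`S Y → 0`):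
contradiction.
-/

set_option autoImplicit false

open MeasureTheory ProbabilityTheory Filter Set
open scoped NNReal Topology ENNReal

namespace Pool.Agent.Lib.MP_e19099_pr

variable {p G : ℝ → ℝ} {c c₀ : ℝ}

private theorem iic_deriv {f : ℝ → ℝ} (hf : Continuous f) (hi : Integrable f) (y : ℝ) :
    HasDerivAt (fun y => ∫ x in Iic y, f x) (f y) y := by
  have h1 : (fun y => ∫ x in Iic y, f x) =
      fun y => (∫ x in Iic (0 : ℝ), f x) + ∫ x in (0 : ℝ)..y, f x := by
    funext y
    rw [← intervalIntegral.integral_Iic_sub_Iic hi.integrableOn hi.integrableOn]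
    ring
  rw [h1]
  exact (hf.integral_hasStrictDerivAt 0 y).hasDerivAt.const_add _

private theorem ioi_eq {f : ℝ → ℝ} (hi : Integrable f) (y : ℝ) :
    ∫ x in Ioi y, f x = (∫ x, f x) - ∫ x in Iic y, f x := by
  have h := intervalIntegral.integral_Iic_add_Ioi (b := y) hi.integrableOn hi.integrableOn
  linarith

private theorem ioi_deriv {f : ℝ → ℝ} (hf : Continuous f) (hi : Integrable f) (y : ℝ) :
    HasDerivAt (fun y => ∫ x in Ioi y, f x) (-f y) y := by
  have h1 : (fun y => ∫ x in Ioi y, f x) = fun y => (∫ x, f x) - ∫ x in Iic y, f x := by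
    funext y
    exact ioi_eq hi y
  rw [h1]
  exact (iic_deriv hf hi y).const_sub _

theorem cumul_deriv (hp : Dens p) (hG : Continuous G) (hG2 : MemLp G 2 (tgt p)) (y : ℝ) :
    HasDerivAt (cumul p G) (G y * p y) y :=
  iic_deriv (hG.mul hp.cont) (up_integrable hp hG2) y

theorem prod_deriv (hp : Dens p) (hG : Continuous G) (hG2 : MemLp G 2 (tgt p))
    (hGe : ∀ y, G y = c + ∫ t in (0 : ℝ)..y, c₀ * (cumul p G t / p t)) (y : ℝ) :
    HasDerivAt (fun y => G y * cumul p G y)
      (c₀ * (cumul p G y ^ 2 / p y) + G y ^ 2 * p y) y := by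
  have hU := cumul_deriv hp hG hG2 y
  have hc : Continuous fun t => c₀ * (cumul p G t / p t) :=
    continuous_const.mul ((cumul_cont hp hG2).div hp.cont fun t => (hp.pos t).ne')
  have hGd : HasDerivAt G (c₀ * (cumul p G y / p y)) y := by
    have h1 : G = fun y => c + ∫ t in (0 : ℝ)..y, c₀ * (cumul p G t / p t) := funext hGe
    have h2 : HasDerivAt (fun y => c + ∫ t in (0 : ℝ)..y, c₀ * (cumul p G t / p t))
        (c₀ * (cumul p G y / p y)) y :=
      (hc.integral_hasStrictDerivAt 0 y).hasDerivAt.const_add _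
    rw [← h1] at h2
    exact h2
  have h3 := hGd.mul hU
  refine h3.congr_deriv ?_
  ring

private theorem cauchy_tail (hp : Dens p) (hG2i : Integrable fun x => G x ^ 2 * p x)
    (hGi : Integrable fun x => G x * p x) (y : ℝ) (hS : 0 < ∫ x in Ioi y, p x) :
    (∫ x in Ioi y, G x * p x) ^ 2 ≤ (∫ x in Ioi y, G x ^ 2 * p x) * ∫ x in Ioi y, p x := by
  set A := ∫ x in Ioi y, G x ^ 2 * p x
  set B := ∫ x in Ioi y, G x * p x
  set C := ∫ x in Ioi y, p x
  have h : ∀ t : ℝ, 0 ≤ A - 2 * t * B + t ^ 2 * C := by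
    intro t
    have h1 : A - 2 * t * B + t ^ 2 * C = ∫ x in Ioi y, (G x - t) ^ 2 * p x := by
      have e : (fun x => (G x - t) ^ 2 * p x) =
          fun x => (G x ^ 2 * p x - 2 * t * (G x * p x)) + t ^ 2 * p x := by
        funext x; ring
      rw [e, integral_add, integral_sub, integral_const_mul, integral_const_mul]
      · exact hG2i.integrableOn
      · exact (hGi.const_mul _).integrableOn
      · exact (hG2i.sub (hGi.const_mul _)).integrableOn
      · exact (hp.int.const_mul _).integrableOn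
    rw [h1]
    exact integral_nonneg fun x => mul_nonneg (sq_nonneg _) (hp.pos x).le
  have h2 := h (B / C)
  have h3 : A - 2 * (B / C) * B + (B / C) ^ 2 * C = (A * C - B ^ 2) / C := by
    field_simp
    ring
  rw [h3] at h2
  have h4 := (div_nonneg_iff.mp h2)
  rcases h4 with ⟨h5, _⟩ | ⟨_, h5⟩
  · linarith
  · linarith

theorem prod_nonpos (hp : Dens p) (hG : Continuous G) (hG2 : MemLp G 2 (tgt p))
    (h0 : ∫ x, G x * p x = 0) (hc₀ : 0 < c₀)
    (hGe : ∀ y, G y = c + ∫ t in (0 : ℝ)..y, c₀ * (cumul p G t / p t)) (y₀ : ℝ) :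
    G y₀ * cumul p G y₀ ≤ 0 := by
  by_contra hcon
  push Not at hcon
  set H : ℝ → ℝ := fun y => G y * cumul p G y with hH
  set a : ℝ := H y₀ with ha
  have ha0 : 0 < a := hcon
  have hGi := up_integrable hp hG2
  have hG2i : Integrable fun x => G x ^ 2 * p x := (integrable_tgt hp _).mp hG2.integrable_sq
  set N : ℝ := ∫ x, G x ^ 2 * p x with hN
  set S : ℝ → ℝ := fun y => ∫ x in Ioi y, p x with hSdef
  have hSpos : ∀ y, 0 < S y := by
    intro y
    rw [hSdef]
    simp only
    rw [setIntegral_pos_iff_support_of_nonneg_ae]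
    · have : Function.support p = univ := by
        ext x; simp [(hp.pos x).ne']
      rw [this, univ_inter]
      simp
    · exact Filter.Eventually.of_forall fun x => (hp.pos x).le
    · exact hp.int.integrableOn
  -- monotonicity of `H`
  have hHm : Monotone H := by
    apply monotone_of_hasDerivAt_nonneg (fun y => prod_deriv hp hG hG2 hGe y)
    intro y
    have := hp.pos y
    simp only [Pi.zero_apply]
    positivity
  have hHa : ∀ y, y₀ ≤ y → a ≤ H y := fun y hy => hHm hy
  -- the bound on `U`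
  have hU : ∀ y, (cumul p G y) ^ 2 ≤ N * S y := by
    intro y
    have h1 : cumul p G y = - ∫ x in Ioi y, G x * p x := by
      rw [ioi_eq hGi y, h0, cumul]
      ring
    rw [h1, neg_sq]
    refine (cauchy_tail hp hG2i hGi y (hSpos y)).trans ?_
    refine mul_le_mul_of_nonneg_right ?_ (hSpos y).le
    exact setIntegral_le_integral hG2i
      (Filter.Eventually.of_forall fun x => mul_nonneg (sq_nonneg _) (hp.pos x).le)
  have hkey : ∀ y, y₀ ≤ y → a ^ 2 ≤ N * (G y ^ 2) * S y := by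
    intro y hy
    have h1 : a ^ 2 ≤ (H y) ^ 2 := pow_le_pow_left₀ ha0.le (hHa y hy) 2
    have h2 : (H y) ^ 2 = G y ^ 2 * (cumul p G y) ^ 2 := by
      rw [hH]; ring
    have h3 : G y ^ 2 * (cumul p G y) ^ 2 ≤ G y ^ 2 * (N * S y) :=
      mul_le_mul_of_nonneg_left (hU y) (sq_nonneg _)
    calc a ^ 2 ≤ (H y) ^ 2 := h1
      _ = G y ^ 2 * (cumul p G y) ^ 2 := h2
      _ ≤ G y ^ 2 * (N * S y) := h3
      _ = N * (G y ^ 2) * S y := by ring
  -- the function `Ψ`
  set Ψ : ℝ → ℝ := fun y => N * (∫ x in Iic y, G x ^ 2 * p x) + a ^ 2 * Real.log (S y) with hΨ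
  have hΨd : ∀ y, HasDerivAt Ψ (N * (G y ^ 2 * p y) + a ^ 2 * (-p y / S y)) y := by
    intro y
    have h1 : HasDerivAt (fun y => ∫ x in Iic y, G x ^ 2 * p x) (G y ^ 2 * p y) y :=
      iic_deriv ((hG.pow 2).mul hp.cont) hG2i y
    have h2 : HasDerivAt S (-p y) y := ioi_deriv hp.cont hp.int y
    exact (h1.const_mul N).add ((h2.log (hSpos y).ne').const_mul (a ^ 2))
  have hΨm : MonotoneOn Ψ (Ici y₀) := by
    apply monotoneOn_of_deriv_nonneg (convex_Ici y₀)
    · exact fun y _ => (hΨd y).continuousAt.continuousWithinAt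
    · exact fun y _ => (hΨd y).differentiableAt.differentiableWithinAt
    · intro y hy
      rw [interior_Ici] at hy
      rw [(hΨd y).deriv]
      have h1 := hkey y (le_of_lt hy)
      have h2 : a ^ 2 / S y ≤ N * G y ^ 2 := by
        rw [div_le_iff₀ (hSpos y)]; exact h1
      have h3 : 0 ≤ (N * G y ^ 2 - a ^ 2 / S y) * p y :=
        mul_nonneg (by linarith) (hp.pos y).le
      have h4 : N * (G y ^ 2 * p y) + a ^ 2 * (-p y / S y) =
          (N * G y ^ 2 - a ^ 2 / S y) * p y := by ring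
      rw [h4]
      exact h3
  have hN0 : 0 ≤ N := integral_nonneg fun x => mul_nonneg (sq_nonneg _) (hp.pos x).le
  have hlog : ∀ Y, y₀ ≤ Y → Ψ y₀ - N * N ≤ a ^ 2 * Real.log (S Y) := by
    intro Y hY
    have h1 := hΨm (mem_Ici.mpr le_rfl) (mem_Ici.mpr hY) hY
    have h2 : (∫ x in Iic Y, G x ^ 2 * p x) ≤ N := setIntegral_le_integral hG2i
      (Filter.Eventually.of_forall fun x => mul_nonneg (sq_nonneg _) (hp.pos x).le)
    have h3 : Ψ Y ≤ N * N + a ^ 2 * Real.log (S Y) := by
      rw [hΨ]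
      have := mul_le_mul_of_nonneg_left h2 hN0
      simp only
      linarith
    linarith
  -- `S Y → 0`
  have hS0 : Tendsto S atTop (𝓝 0) := by
    have h1 : Tendsto (fun Y => ∫ x in (0 : ℝ)..Y, p x) atTop (𝓝 (∫ x in Ioi (0 : ℝ), p x)) :=
      intervalIntegral_tendsto_integral_Ioi 0 hp.int.integrableOn tendsto_id
    have h2 : S = fun Y => (∫ x in Ioi (0 : ℝ), p x) - ∫ x in (0 : ℝ)..Y, p x := by
      funext Y
      rw [hSdef]
      simp only
      rw [ioi_eq hp.int Y, ioi_eq hp.int 0,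
        ← intervalIntegral.integral_Iic_sub_Iic hp.int.integrableOn hp.int.integrableOn]
      ring
    rw [h2]
    have h3 := (tendsto_const_nhds (x := ∫ x in Ioi (0 : ℝ), p x)).sub h1
    rwa [sub_self] at h3
  have hlt : Tendsto (fun Y => a ^ 2 * Real.log (S Y)) atTop atBot := by
    have h1 : Tendsto (fun Y => Real.log (S Y)) atTop atBot := by
      apply Real.tendsto_log_nhdsGT_zero.comp
      rw [tendsto_nhdsWithin_iff]
      exact ⟨hS0, Filter.Eventually.of_forall fun Y => hSpos Y⟩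
    exact h1.const_mul_atBot (by positivity)
  have hev := (hlt.eventually (eventually_lt_atBot (Ψ y₀ - N * N))).and (eventually_ge_atTop y₀)
  obtain ⟨Y, hY1, hY2⟩ := hev.exists
  have := hlog Y hY2
  linarith

end Pool.Agent.Lib.MP_e19099_pr
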