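import Pool.Agent.Lib.MP_e19099_pr.OrthB
import Pool.Agent.Lib.MP_e19099_pr.DBR

/-!
# Orthogonality, third part (task A6)

`orth_cont`: Reflection: `p̃ x = p (-x)`, `G̃ x = G (-x)`: `cumul p̃ G̃ y = ∫_{Ici (-y)} G p = - cumul p G (-y)`,
`G̃ y = c + ∫_0^y c₀ cumul p̃ G̃ / p̃` (substitute `t ↦ -t`), so `prod_nonpos` for `(p̃, G̃)` gives
`G y · cumul p G y ≥ 0` for all `y`.  With `prod_nonpos`, `G · cumul p G = 0` identically, its derivative vanishes, so
`G² p = 0`.
`orth_zero`: by `orth_weak` and `dbr` with `k = (2 lam / h) cumul p u / p` (continuous), `u = G` a.e. with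
`G y = c + ∫₀^y k`; `cumul p u = cumul p G`; apply `orth_cont` with `c₀ = 2 lam / h`.
(`u` is locally integrable by `memLp_loc`.)
-/

set_option autoImplicit false

open MeasureTheory ProbabilityTheory Filter Set
open scoped NNReal Topology ENNReal

namespace Pool.Agent.Lib.MP_e19099_pr

variable {p u G : ℝ → ℝ} {h lam c c₀ : ℝ}

theorem orth_cont (hp : Dens p) (hG : Continuous G) (hG2 : MemLp G 2 (tgt p))
    (h0 : ∫ x, G x * p x = 0) (hc₀ : 0 < c₀)
    (hGe : ∀ y, G y = c + ∫ t in (0 : ℝ)..y, c₀ * (cumul p G t / p t)) (y : ℝ) : G y = 0 := by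
  have hI : Integrable fun x => G x * p x := up_integrable hp hG2
  have hp' : Dens fun x => p (-x) :=
    { cont := hp.cont.comp continuous_neg
      pos := fun x => hp.pos (-x)
      int := hp.int.comp_neg
      one := by
        rw [integral_neg_eq_self (fun x => p x)]
        exact hp.one }
  have hG' : Continuous fun x => G (-x) := hG.comp continuous_neg
  have hG2' : MemLp (fun x => G (-x)) 2 (tgt fun x => p (-x)) := by
    rw [memLp_two_iff_integrable_sq hG'.aestronglyMeasurable, integrable_tgt hp']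
    have h1 := (memLp_two_iff_integrable_sq hG.aestronglyMeasurable).1 hG2
    rw [integrable_tgt hp] at h1
    exact h1.comp_neg
  have h0' : ∫ x, G (-x) * p (-x) = 0 := by
    rw [integral_neg_eq_self (fun x => G x * p x)]
    exact h0
  have hcum : ∀ y, cumul (fun x => p (-x)) (fun x => G (-x)) y = - cumul p G (-y) := by
    intro y
    unfold cumul
    rw [integral_comp_neg_Iic y (fun x => G x * p x)]
    have h1 := intervalIntegral.integral_Iic_add_Ioi (b := -y) hI.integrableOn hI.integrableOn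
    rw [h0] at h1
    linarith
  have hGe' : ∀ y, G (-y) = c + ∫ t in (0 : ℝ)..y,
      c₀ * (cumul (fun x => p (-x)) (fun x => G (-x)) t / p (-t)) := by
    intro y
    rw [hGe (-y)]
    congr 1
    have h1 : (∫ t in (0 : ℝ)..y,
        c₀ * (cumul (fun x => p (-x)) (fun x => G (-x)) t / p (-t))) =
        ∫ t in (0 : ℝ)..y, (fun s => -(c₀ * (cumul p G s / p s))) (-t) := by
      refine intervalIntegral.integral_congr fun t _ => ?_
      simp only [hcum t]
      ring
    rw [h1, intervalIntegral.integral_comp_neg (fun s => -(c₀ * (cumul p G s / p s))),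
      intervalIntegral.integral_neg, neg_zero, intervalIntegral.integral_symm]
  have hz : ∀ y, G y * cumul p G y = 0 := by
    intro y
    refine le_antisymm (prod_nonpos hp hG hG2 h0 hc₀ hGe y) ?_
    have h1 := prod_nonpos hp' hG' hG2' h0' hc₀ hGe' (-y)
    simp only [hcum, neg_neg] at h1
    linarith
  have hd := prod_deriv hp hG hG2 hGe y
  have hd0 : HasDerivAt (fun y => G y * cumul p G y) 0 y := by
    have h1 : (fun y => G y * cumul p G y) = fun _ => (0 : ℝ) := funext hz
    rw [h1]
    exact hasDerivAt_const y (0 : ℝ)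
  have h1 := hd.unique hd0
  have h2 : 0 ≤ c₀ * (cumul p G y ^ 2 / p y) :=
    mul_nonneg hc₀.le (div_nonneg (sq_nonneg _) (hp.pos y).le)
  have h3 : 0 ≤ G y ^ 2 * p y := mul_nonneg (sq_nonneg _) (hp.pos y).le
  have h4 : G y ^ 2 * p y = 0 := by linarith
  rcases mul_eq_zero.1 h4 with h5 | h5
  · exact pow_eq_zero_iff (two_ne_zero) |>.1 h5
  · exact absurd h5 (hp.pos y).ne'

theorem orth_zero (hp : Dens p) (hlam : 0 < lam) (hh : 0 < h) (hu : MemLp u 2 (tgt p))
    (horth : ∀ q, IsTest q → ∀ a, ∫ x, u x * (lam * vf p q a x - gen h p q x) ∂(tgt p) = 0) :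
    ∀ᵐ x ∂(tgt p), u x = 0 := by
  have hk : Continuous fun y => 2 * lam / h * (cumul p u y / p y) :=
    continuous_const.mul ((cumul_cont hp hu).div hp.cont fun y => (hp.pos y).ne')
  have hloc : LocallyIntegrable u := by
    intro x
    have h1 := (memLp_loc hp hu (x - 1) (x + 1)).1
    refine ⟨Ioo (x - 1) (x + 1), Ioo_mem_nhds (by linarith) (by linarith), ?_⟩
    exact h1.mono_set Ioo_subset_Ioc_self
  obtain ⟨c, hc⟩ := dbr hloc hk fun q hq => orth_weak hp hlam hh hu horth hq
  obtain ⟨G, hGdef⟩ : ∃ G : ℝ → ℝ,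
      G = fun y => c + ∫ t in (0 : ℝ)..y, 2 * lam / h * (cumul p u t / p t) := ⟨_, rfl⟩
  have huG : ∀ᵐ x, u x = G x := by
    rw [hGdef]
    exact hc
  have hG : Continuous G := by
    rw [hGdef]
    exact continuous_const.add
      (intervalIntegral.continuous_primitive (fun a b => hk.intervalIntegrable a b) 0)
  have huG' : u =ᵐ[tgt p] G := (ae_tgt hp).2 huG
  have hG2 : MemLp G 2 (tgt p) := (memLp_congr_ae huG').1 hu
  have h0 : ∫ x, G x * p x = 0 := by
    rw [← orth_mean hp hlam hu horth]
    refine integral_congr_ae ?_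
    filter_upwards [huG] with x hx
    rw [hx]
  have hcum : ∀ y, cumul p u y = cumul p G y := by
    intro y
    unfold cumul
    refine integral_congr_ae (ae_restrict_of_ae ?_)
    filter_upwards [huG] with x hx
    rw [hx]
  have hGe : ∀ y, G y = c + ∫ t in (0 : ℝ)..y, (2 * lam / h) * (cumul p G t / p t) := by
    intro y
    conv_lhs => rw [hGdef]
    simp only [hcum]
  have hz := orth_cont hp hG hG2 h0 (show 0 < 2 * lam / h by positivity) hGe
  filter_upwards [huG'] with x hx
  rw [hx, hz x]

end Pool.Agent.Lib.MP_e19099_pr
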