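import Pool.Agent.Lib.MP_e19099_pr.Defs

/-!
# Interpolated and step paths (task A19a)

`lin x y = x ⌊y⌋₊ + (y - ⌊y⌋₊)(x (⌊y⌋₊ + 1) - x ⌊y⌋₊)` is continuous on `ℝ` (linear for `y ≤ 1`, and on each `[k, k+1]`;
locally finite closed cover, or: `lin x y = x 0 + ∑_{k < N} (x (k+1) - x k) · clamp (y - k)` for `y ≤ N` with `clamp` to `[0,1]` for
`k ≥ 1` …).
`stepPath_cadlag`: on a right neighbourhood of `t` the function `⌊t/τ⌋₊` is constant (`τ > 0`), left limits similarly; if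
`τ ≤ 0` then `t/τ ≤ 0` and the path is constant.
-/

set_option autoImplicit false

open MeasureTheory ProbabilityTheory Filter Set
open scoped NNReal Topology ENNReal

namespace Pool.Agent.Lib.MP_e19099_pr

/-- linear interpolation of a sequence -/
noncomputable def lin (x : ℕ → ℝ) (y : ℝ) : ℝ :=
  x ⌊y⌋₊ + (y - ⌊y⌋₊) * (x (⌊y⌋₊ + 1) - x ⌊y⌋₊)

private theorem floor_right (a z : ℝ) (h1 : a ≤ z) (h2 : z < ⌊a⌋₊ + 1) : ⌊z⌋₊ = ⌊a⌋₊ := by
  apply le_antisymm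
  · rcases lt_or_ge z 0 with h | h
    · rw [Nat.floor_of_nonpos h.le]; exact Nat.zero_le _
    · have : ⌊z⌋₊ < ⌊a⌋₊ + 1 := by
        rw [Nat.floor_lt h]; push_cast; exact h2
      omega
  · exact Nat.floor_mono h1

private theorem floor_left (a z : ℝ) (h1 : (⌈a⌉₊ : ℝ) - 1 ≤ z) (h2 : z < a) (hz : 0 ≤ z) :
    ⌊z⌋₊ = ⌈a⌉₊ - 1 := by
  have ha : 0 < ⌈a⌉₊ := Nat.ceil_pos.2 (lt_of_le_of_lt hz h2)
  rw [Nat.floor_eq_iff hz]
  have h3 : ((⌈a⌉₊ - 1 : ℕ) : ℝ) = (⌈a⌉₊ : ℝ) - 1 := by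
    rw [Nat.cast_sub ha]; simp
  rw [h3]
  refine ⟨h1, ?_⟩
  have := Nat.le_ceil a
  linarith

/-- on a left neighbourhood of any point the floor is constant -/
private theorem floor_left' (a : ℝ) : ∃ m : ℕ, ∃ b < a, ∀ z, b < z → z < a → ⌊z⌋₊ = m := by
  rcases le_or_gt a 0 with h | h
  · refine ⟨0, a - 1, by linarith, fun z _ hz => Nat.floor_of_nonpos (hz.le.trans h)⟩
  · refine ⟨⌈a⌉₊ - 1, (⌈a⌉₊ : ℝ) - 1, ?_, ?_⟩
    · have := Nat.ceil_lt_add_one h.le; linarith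
    · intro z h1 h2
      refine floor_left a z h1.le h2 (le_trans ?_ h1.le)
      have : 0 < ⌈a⌉₊ := Nat.ceil_pos.2 h
      have : (1 : ℝ) ≤ ⌈a⌉₊ := by exact_mod_cast this
      linarith

theorem lin_cont (x : ℕ → ℝ) : Continuous (lin x) := by
  rw [continuous_iff_continuousAt]
  intro a
  rw [continuousAt_iff_continuous_left_right]
  have hL : ∀ k : ℕ, Continuous fun z : ℝ => x k + (z - k) * (x (k + 1) - x k) := by
    intro k; fun_prop
  constructor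
  · rcases le_or_gt a 0 with h | h
    · refine ((hL 0).continuousWithinAt (s := Iic a) (x := a)).congr (fun z hz => ?_) ?_
      · have : ⌊z⌋₊ = 0 := Nat.floor_of_nonpos (le_trans hz h)
        simp [lin, this]
      · have : ⌊a⌋₊ = 0 := Nat.floor_of_nonpos h
        simp [lin, this]
    · have hc : 0 < ⌈a⌉₊ := Nat.ceil_pos.2 h
      obtain ⟨m, hm⟩ : ∃ m : ℕ, ⌈a⌉₊ = m + 1 := ⟨⌈a⌉₊ - 1, by omega⟩
      have hma : (m : ℝ) < a := by
        have := Nat.ceil_lt_add_one h.le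
        rw [hm] at this; push_cast at this; linarith
      have ham : a ≤ m + 1 := by
        have := Nat.le_ceil a
        rw [hm] at this; push_cast at this; exact this
      have key : ∀ z, (m : ℝ) < z → z ≤ a → lin x z = x m + (z - m) * (x (m + 1) - x m) := by
        intro z h1 h2
        have hz0 : 0 ≤ z := le_trans (Nat.cast_nonneg m) h1.le
        rcases lt_or_eq_of_le (h2.trans ham) with h3 | h3
        · have : ⌊z⌋₊ = m := by
            rw [Nat.floor_eq_iff hz0]; exact ⟨h1.le, h3⟩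
          simp [lin, this]
        · have : ⌊z⌋₊ = m + 1 := by
            rw [Nat.floor_eq_iff hz0]; push_cast; exact ⟨h3.ge, by linarith⟩
          rw [lin, this]
          push_cast
          rw [h3]; ring
      refine ((hL m).continuousWithinAt (s := Iic a) (x := a)).congr_of_eventuallyEq ?_
        (key a hma le_rfl)
      have h1 : Ioc (m : ℝ) a ∈ 𝓝[≤] a := Ioc_mem_nhdsLE hma
      filter_upwards [h1] with z hz
      exact key z hz.1 hz.2
  · have key : ∀ z, a ≤ z → z < ⌊a⌋₊ + 1 →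
        lin x z = x ⌊a⌋₊ + (z - ⌊a⌋₊) * (x (⌊a⌋₊ + 1) - x ⌊a⌋₊) := by
      intro z h1 h2
      rw [lin, floor_right a z h1 h2]
    refine ((hL ⌊a⌋₊).continuousWithinAt (s := Ici a) (x := a)).congr_of_eventuallyEq ?_ rfl
    have h1 : Ico a ((⌊a⌋₊ : ℝ) + 1) ∈ 𝓝[≥] a := Ico_mem_nhdsGE (Nat.lt_floor_add_one a)
    filter_upwards [h1] with z hz
    exact key z hz.1 hz.2

/-- the linear interpolation of `x` with time step `τ`, a continuous path -/
noncomputable def interp (τ : ℝ) (x : ℕ → ℝ) : C(ℝ≥0, ℝ) where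
  toFun t := lin x ((t : ℝ) / τ)
  continuous_toFun := (lin_cont x).comp (by fun_prop)

theorem stepPath_cadlag (τ : ℝ) (x : ℕ → ℝ) : IsCadlag fun t : ℝ≥0 => x ⌊(t : ℝ) / τ⌋₊ := by
  intro t
  rcases le_or_gt τ 0 with hτ | hτ
  · have : (fun t : ℝ≥0 => x ⌊(t : ℝ) / τ⌋₊) = fun _ => x 0 := by
      funext s
      have : (s : ℝ) / τ ≤ 0 := div_nonpos_of_nonneg_of_nonpos s.2 hτ
      rw [Nat.floor_of_nonpos this]
    rw [this]
    exact ⟨continuousWithinAt_const, _, tendsto_const_nhds⟩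
  · have hc : Continuous fun s : ℝ≥0 => (s : ℝ) / τ := by fun_prop
    constructor
    · have h1 : ∀ᶠ s : ℝ≥0 in 𝓝[≥] t, (s : ℝ) / τ < ⌊(t : ℝ) / τ⌋₊ + 1 :=
        (hc.continuousAt.eventually_lt continuousAt_const (Nat.lt_floor_add_one _)).filter_mono
          nhdsWithin_le_nhds
      have h2 : (fun s : ℝ≥0 => x ⌊(s : ℝ) / τ⌋₊) =ᶠ[𝓝[≥] t] fun _ => x ⌊(t : ℝ) / τ⌋₊ := by
        filter_upwards [h1, self_mem_nhdsWithin] with s hs hs'
        rw [floor_right _ _ _ hs]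
        have : (t : ℝ) ≤ s := by exact_mod_cast hs'
        gcongr
      exact continuousWithinAt_const.congr_of_eventuallyEq h2 rfl
    · obtain ⟨m, b, hb, hm⟩ := floor_left' ((t : ℝ) / τ)
      refine ⟨x m, ?_⟩
      have h1 : ∀ᶠ s : ℝ≥0 in 𝓝[<] t, b < (s : ℝ) / τ :=
        (continuousAt_const.eventually_lt hc.continuousAt hb).filter_mono nhdsWithin_le_nhds
      have h2 : (fun s : ℝ≥0 => x ⌊(s : ℝ) / τ⌋₊) =ᶠ[𝓝[<] t] fun _ => x m := by
        filter_upwards [h1, self_mem_nhdsWithin] with s hs hs'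
        rw [hm _ hs]
        have : (s : ℝ) < t := by exact_mod_cast hs'
        gcongr
      exact tendsto_const_nhds.congr' h2.symm

/-- the piecewise constant path with time step `τ` -/
noncomputable def stepPath (τ : ℝ) (x : ℕ → ℝ) : D :=
  ⟨fun t => x ⌊(t : ℝ) / τ⌋₊, stepPath_cadlag τ x⟩

theorem cont_cadlag {y : ℝ≥0 → ℝ} (hy : Continuous y) : IsCadlag y := by
  intro t
  exact ⟨hy.continuousWithinAt, y t, (hy.tendsto t).mono_left nhdsWithin_le_nhds⟩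

/-- continuous paths as elements of the Skorokhod space -/
def toD (y : C(ℝ≥0, ℝ)) : D := ⟨y, cont_cadlag y.continuous⟩

theorem interp_apply (τ : ℝ) (x : ℕ → ℝ) (t : ℝ≥0) : interp τ x t = lin x ((t : ℝ) / τ) := rfl

theorem interp_grid {τ : ℝ} (hτ : 0 < τ) (x : ℕ → ℝ) (k : ℕ) (t : ℝ≥0) (ht : (t : ℝ) = k * τ) :
    interp τ x t = x k := by
  rw [interp_apply, ht, mul_div_assoc, div_self hτ.ne', mul_one, lin]
  simp

/-- distance between the interpolation and the step path -/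
theorem interp_step {τ : ℝ} (hτ : 0 < τ) (x : ℕ → ℝ) (t : ℝ≥0) :
    |x ⌊(t : ℝ) / τ⌋₊ - interp τ x t| ≤ |x (⌊(t : ℝ) / τ⌋₊ + 1) - x ⌊(t : ℝ) / τ⌋₊| := by
  rw [interp_apply, lin]
  have h0 : 0 ≤ (t : ℝ) / τ := div_nonneg t.2 hτ.le
  have h1 := Nat.floor_le h0
  have h2 := Nat.lt_floor_add_one ((t : ℝ) / τ)
  have : x ⌊(t : ℝ) / τ⌋₊ - (x ⌊(t : ℝ) / τ⌋₊ + ((t : ℝ) / τ - ⌊(t : ℝ) / τ⌋₊) *
      (x (⌊(t : ℝ) / τ⌋₊ + 1) - x ⌊(t : ℝ) / τ⌋₊))
      = -(((t : ℝ) / τ - ⌊(t : ℝ) / τ⌋₊) * (x (⌊(t : ℝ) / τ⌋₊ + 1) - x ⌊(t : ℝ) / τ⌋₊)) := by ring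
  rw [this, abs_neg, abs_mul, abs_of_nonneg (by linarith)]
  apply mul_le_of_le_one_left (abs_nonneg _)
  linarith

theorem meas_toD : ∀ t : ℝ≥0, Measurable fun x : D => x.1 t := by
  intro t
  exact (measurable_pi_apply t).comp measurable_subtype_coe

theorem stepPath_meas {Ω : Type*} [MeasurableSpace Ω] (τ : ℝ) {x : ℕ → Ω → ℝ}
    (hx : ∀ k, Measurable (x k)) : Measurable fun ω => stepPath τ (fun k => x k ω) := by
  apply Measurable.subtype_mk
  exact measurable_pi_lambda _ fun t => hx _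

end Pool.Agent.Lib.MP_e19099_pr
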