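import Pool.Agent.Lib.MP_e19099_pr.Dissip

/-!
# Closedness of the form (task A9a)

Let `(w m, w' m)` be in the domain, Cauchy in `L²(π)` (both components).  By completeness of `Lp` there are limits
`u₀, u'` in `L²(π)`.  On every `[-A, A]`, `L²(π)` convergence implies `L¹(dx)` convergence (`p` is bounded below), so
`∫_a^b w' m → ∫_a^b u'`.  The numbers `w m 0` converge: `w m 0 = ∫_0^1 w m x dx - ∫_0^1 ∫_0^x w' m`, both terms converge.
Put `u x = lim w m 0 + ∫_0^x u'`; then `w m → u` pointwise (locally uniformly), so `u = u₀` a.e. (a subsequence of `w m`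
converges a.e. to `u₀`).
-/

set_option autoImplicit false

open MeasureTheory ProbabilityTheory Filter Set
open scoped NNReal Topology ENNReal

namespace Pool.Agent.Lib.MP_e19099_pr

variable {p : ℝ → ℝ}

namespace ResA

theorem lp_norm_sq {μ : Measure ℝ} (a b : Lp ℝ 2 μ) {f g : ℝ → ℝ} (hf : a =ᵐ[μ] f)
    (hg : b =ᵐ[μ] g) : ‖a - b‖ ^ 2 = ∫ x, (f x - g x) ^ 2 ∂μ := by
  have h1 : ‖a - b‖ ^ 2 = inner ℝ (a - b) (a - b) := (real_inner_self_eq_norm_sq _).symm
  rw [h1, L2.inner_def]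
  refine integral_congr_ae ?_
  filter_upwards [hf, hg, Lp.coeFn_sub a b] with x h2 h3 h4
  rw [h4, Pi.sub_apply, h2, h3]
  simp [pow_two]

theorem complete {μ : Measure ℝ} {f : ℕ → ℝ → ℝ} (hf : ∀ m, MemLp (f m) 2 μ)
    (hc : ∀ ε : ℝ, 0 < ε → ∃ N, ∀ m ≥ N, ∀ k ≥ N, ∫ x, (f m x - f k x) ^ 2 ∂μ ≤ ε) :
    ∃ g : ℝ → ℝ, MemLp g 2 μ ∧ Tendsto (fun m => ∫ x, (f m x - g x) ^ 2 ∂μ) atTop (𝓝 0) ∧
      ∃ ns : ℕ → ℕ, StrictMono ns ∧ ∀ᵐ x ∂μ, Tendsto (fun i => f (ns i) x) atTop (𝓝 (g x)) := by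
  have hF : ∀ m, ((hf m).toLp (f m) : ℝ → ℝ) =ᵐ[μ] f m := fun m => (hf m).coeFn_toLp
  have hcau : CauchySeq (fun m => (hf m).toLp (f m)) := by
    rw [Metric.cauchySeq_iff]
    intro ε hε
    obtain ⟨N, hN⟩ := hc ((ε / 2) ^ 2) (by positivity)
    refine ⟨N, fun m hm k hk => ?_⟩
    rw [dist_eq_norm]
    have h1 := lp_norm_sq ((hf m).toLp (f m)) ((hf k).toLp (f k)) (hF m) (hF k)
    have h2 := hN m hm k hk
    rw [← h1] at h2
    have h3 : ‖(hf m).toLp (f m) - (hf k).toLp (f k)‖ ≤ ε / 2 :=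
      le_of_sq_le_sq h2 (by positivity)
    linarith
  obtain ⟨G, hG⟩ := cauchySeq_tendsto_of_complete hcau
  refine ⟨G, Lp.memLp G, ?_, ?_⟩
  · have h1 : ∀ m, ∫ x, (f m x - (G : ℝ → ℝ) x) ^ 2 ∂μ = ‖(hf m).toLp (f m) - G‖ ^ 2 := by
      intro m
      exact (lp_norm_sq _ _ (hF m) (Filter.EventuallyEq.refl _ _)).symm
    simp only [h1]
    have h2 : Tendsto (fun m => ‖(hf m).toLp (f m) - G‖) atTop (𝓝 0) :=
      tendsto_iff_norm_sub_tendsto_zero.1 hG
    have h3 := h2.pow 2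
    simpa using h3
  · have h1 := tendstoInMeasure_of_tendsto_Lp hG
    obtain ⟨ns, hns, hae⟩ := h1.exists_seq_tendsto_ae
    refine ⟨ns, hns, ?_⟩
    have hall : ∀ᵐ x ∂μ, ∀ m, ((hf m).toLp (f m) : ℝ → ℝ) x = f m x := ae_all_iff.2 hF
    filter_upwards [hae, hall] with x h2 h3
    refine h2.congr fun i => ?_
    exact h3 (ns i)

/-- local `L¹` estimate -/
theorem local_est (hp : Dens p) (A : ℝ) : ∃ C : ℝ, 0 ≤ C ∧ ∀ f : ℝ → ℝ, MemLp f 2 (tgt p) →
    ∀ x ∈ Icc (-A) A, ∀ y ∈ Icc (-A) A, (∫ t in x..y, f t) ^ 2 ≤ C * ∫ t, f t ^ 2 ∂(tgt p) := by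
  have := tgt_prob hp
  by_cases hA : -A ≤ A
  swap
  · refine ⟨0, le_rfl, fun f _ x hx => absurd (hx.1.trans hx.2) hA⟩
  obtain ⟨z, _, hz⟩ := isCompact_Icc.exists_isMinOn (nonempty_Icc.2 hA) hp.cont.continuousOn
  have hc : 0 < p z := hp.pos z
  refine ⟨(1 / p z) ^ 2, by positivity, fun f hf x hx y hy => ?_⟩
  have hloc := memLp_loc hp hf (-A) A
  have hloc' : IntegrableOn f (Icc (-A) A) := by
    rw [intervalIntegrable_iff_integrableOn_Icc_of_le hA] at hloc
    exact hloc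
  have habs : MemLp (fun t => |f t|) 2 (tgt p) := hf.abs
  have hint : Integrable (fun t => |f t|) (tgt p) := habs.integrable (by norm_num)
  have hint' : Integrable (fun t => |f t| * p t) := (integrable_tgt hp _).1 hint
  have h1 : |∫ t in x..y, f t| ≤ 1 / p z * ∫ t, |f t| ∂(tgt p) := by
    calc |∫ t in x..y, f t| ≤ ∫ t in Set.uIoc x y, |f t| := by
          have := intervalIntegral.norm_integral_le_integral_norm_uIoc (f := f) (a := x) (b := y)
            (μ := volume)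
          simpa [Real.norm_eq_abs] using this
      _ ≤ ∫ t in Icc (-A) A, |f t| := by
          refine setIntegral_mono_set hloc'.abs ?_ ?_
          · exact Filter.Eventually.of_forall fun t => abs_nonneg _
          · refine HasSubset.Subset.eventuallyLE fun t ht => ?_
            rw [Set.uIoc, mem_Ioc] at ht
            have h3 : -A ≤ min x y := le_min hx.1 hy.1
            have h4 : max x y ≤ A := max_le hx.2 hy.2
            exact ⟨h3.trans ht.1.le, ht.2.trans h4⟩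
      _ ≤ ∫ t in Icc (-A) A, 1 / p z * (|f t| * p t) := by
          refine setIntegral_mono_on hloc'.abs (hint'.integrableOn.const_mul _) measurableSet_Icc ?_
          intro t ht
          have h3 : p z ≤ p t := hz ht
          rw [one_div, ← mul_assoc, mul_comm (p z)⁻¹, mul_assoc]
          have h4 : 1 ≤ (p z)⁻¹ * p t := by
            rw [inv_mul_eq_div, one_le_div hc]
            exact h3
          exact le_mul_of_one_le_right (abs_nonneg _) h4
      _ = 1 / p z * ∫ t in Icc (-A) A, |f t| * p t := by rw [integral_const_mul]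
      _ ≤ 1 / p z * ∫ t, |f t| * p t := by
          refine mul_le_mul_of_nonneg_left ?_ (by positivity)
          refine setIntegral_le_integral hint' ?_
          exact Filter.Eventually.of_forall fun t => mul_nonneg (abs_nonneg _) (hp.pos t).le
      _ = 1 / p z * ∫ t, |f t| ∂(tgt p) := by rw [integral_tgt hp]
  have h2 : (∫ t, |f t| ∂(tgt p)) ^ 2 ≤ ∫ t, f t ^ 2 ∂(tgt p) := by
    have h3 := variance_eq_sub habs
    have h4 := variance_nonneg (fun t => |f t|) (tgt p)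
    have h5 : ∫ t, (((fun t => |f t|) ^ 2 : ℝ → ℝ)) t ∂(tgt p) = ∫ t, f t ^ 2 ∂(tgt p) := by
      refine integral_congr_ae (Filter.Eventually.of_forall fun t => ?_)
      simp [sq_abs]
    rw [h3, h5] at h4
    linarith
  have h6 : (∫ t in x..y, f t) ^ 2 ≤ (1 / p z * ∫ t, |f t| ∂(tgt p)) ^ 2 := by
    rw [← sq_abs (∫ t in x..y, f t)]
    exact pow_le_pow_left₀ (abs_nonneg _) h1 2
  calc (∫ t in x..y, f t) ^ 2 ≤ (1 / p z * ∫ t, |f t| ∂(tgt p)) ^ 2 := h6
    _ = (1 / p z) ^ 2 * (∫ t, |f t| ∂(tgt p)) ^ 2 := by ring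
    _ ≤ (1 / p z) ^ 2 * ∫ t, f t ^ 2 ∂(tgt p) := mul_le_mul_of_nonneg_left h2 (by positivity)

/-- Sobolev estimate -/
theorem sobolev (hp : Dens p) (A : ℝ) (hA : 1 ≤ A) : ∃ C : ℝ, 0 ≤ C ∧ ∀ u u' : ℝ → ℝ,
    Dom (tgt p) u u' → ∀ x ∈ Icc (-A) A,
      u x ^ 2 ≤ C * (∫ t, u t ^ 2 ∂(tgt p) + ∫ t, u' t ^ 2 ∂(tgt p)) := by
  obtain ⟨C, hC0, hC⟩ := local_est hp A
  refine ⟨2 * C, by positivity, fun u u' hu x hx => ?_⟩
  set I := ∫ t, u t ^ 2 ∂(tgt p) with hI
  set J := ∫ t, u' t ^ 2 ∂(tgt p) with hJ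
  have hI0 : 0 ≤ I := integral_nonneg fun t => sq_nonneg _
  have hJ0 : 0 ≤ J := integral_nonneg fun t => sq_nonneg _
  have h1 : ∀ y ∈ Icc (-A) A, |u x| ≤ |u y| + Real.sqrt (C * J) := by
    intro y hy
    have h2 := hu.ftc y x
    have h3 := hC u' hu.l2' y hy x hx
    have h4 : |∫ t in y..x, u' t| ≤ Real.sqrt (C * J) := Real.abs_le_sqrt h3
    have h5 : u x = u y + ∫ t in y..x, u' t := by linarith
    rw [h5]
    exact (abs_add_le _ _).trans (by linarith)
  have hloc : IntervalIntegrable (fun y => |u y|) volume 0 1 := (memLp_loc hp hu.l2 0 1).abs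
  have h6 : |u x| ≤ (∫ y in (0 : ℝ)..1, |u y|) + Real.sqrt (C * J) := by
    have h7 : ∫ y in (0 : ℝ)..1, |u x| ≤ ∫ y in (0 : ℝ)..1, (|u y| + Real.sqrt (C * J)) := by
      refine intervalIntegral.integral_mono_on zero_le_one (by simp)
        (hloc.add (by simp)) ?_
      intro y hy
      exact h1 y ⟨by linarith [hy.1], by linarith [hy.2]⟩
    rw [intervalIntegral.integral_add hloc (by simp)] at h7
    simpa using h7
  have h8 : (∫ y in (0 : ℝ)..1, |u y|) ≤ Real.sqrt (C * I) := by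
    have h9 := hC (fun y => |u y|) hu.l2.abs 0 ⟨by linarith, by linarith⟩ 1 ⟨by linarith, by linarith⟩
    have h10 : ∫ t, |u t| ^ 2 ∂(tgt p) = I := by
      rw [hI]
      refine integral_congr_ae (Filter.Eventually.of_forall fun t => ?_)
      simp [sq_abs]
    rw [h10] at h9
    exact Real.le_sqrt_of_sq_le h9
  have h11 : |u x| ≤ Real.sqrt (C * I) + Real.sqrt (C * J) := by linarith
  have h12 : |u x| ^ 2 ≤ (Real.sqrt (C * I) + Real.sqrt (C * J)) ^ 2 :=
    pow_le_pow_left₀ (abs_nonneg _) h11 2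
  rw [sq_abs] at h12
  have h13 := Real.sq_sqrt (mul_nonneg hC0 hI0)
  have h14 := Real.sq_sqrt (mul_nonneg hC0 hJ0)
  nlinarith [sq_nonneg (Real.sqrt (C * I) - Real.sqrt (C * J))]

end ResA

theorem dom_closed (hp : Dens p) {w w' : ℕ → ℝ → ℝ} (hw : ∀ m, Dom (tgt p) (w m) (w' m))
    (hc : ∀ ε : ℝ, 0 < ε → ∃ N, ∀ m ≥ N, ∀ k ≥ N,
      ∫ x, (w m x - w k x) ^ 2 ∂(tgt p) ≤ ε ∧ ∫ x, (w' m x - w' k x) ^ 2 ∂(tgt p) ≤ ε) :
    ∃ u u' : ℝ → ℝ, Dom (tgt p) u u' ∧
      Tendsto (fun m => ∫ x, (w m x - u x) ^ 2 ∂(tgt p)) atTop (𝓝 0) ∧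
      Tendsto (fun m => ∫ x, (w' m x - u' x) ^ 2 ∂(tgt p)) atTop (𝓝 0) := by
  obtain ⟨g, hg, hglim, ns, hns, hgae⟩ := ResA.complete (fun m => (hw m).l2) (fun ε hε => by
    obtain ⟨N, hN⟩ := hc ε hε
    exact ⟨N, fun m hm k hk => (hN m hm k hk).1⟩)
  obtain ⟨u', hu', hu'lim, _⟩ := ResA.complete (fun m => (hw m).l2') (fun ε hε => by
    obtain ⟨N, hN⟩ := hc ε hε
    exact ⟨N, fun m hm k hk => (hN m hm k hk).2⟩)
  -- pointwise limits
  have hcau : ∀ x, ∃ l, Tendsto (fun m => w m x) atTop (𝓝 l) := by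
    intro x
    apply cauchySeq_tendsto_of_complete
    obtain ⟨C, hC0, hC⟩ := ResA.sobolev hp (max 1 |x|) (le_max_left _ _)
    have hx : x ∈ Icc (-(max 1 |x|)) (max 1 |x|) :=
      ⟨(neg_le_neg (le_max_right _ _)).trans (neg_abs_le x), (le_abs_self x).trans (le_max_right _ _)⟩
    rw [Metric.cauchySeq_iff]
    intro ε hε
    obtain ⟨N, hN⟩ := hc (ε ^ 2 / (4 * (C + 1))) (by positivity)
    refine ⟨N, fun m hm k hk => ?_⟩
    have h1 := hC _ _ (dom_sub (hw m) (hw k)) x hx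
    have h2 := hN m hm k hk
    have h3 : (w m x - w k x) ^ 2 ≤ C * (ε ^ 2 / (4 * (C + 1)) + ε ^ 2 / (4 * (C + 1))) :=
      h1.trans (mul_le_mul_of_nonneg_left (add_le_add h2.1 h2.2) hC0)
    have h4 : C * (ε ^ 2 / (4 * (C + 1)) + ε ^ 2 / (4 * (C + 1))) < ε ^ 2 := by
      have h5 : C * (ε ^ 2 / (4 * (C + 1)) + ε ^ 2 / (4 * (C + 1))) = ε ^ 2 * (C / (2 * (C + 1))) := by
        field_simp
        ring
      rw [h5]
      have h6 : C / (2 * (C + 1)) < 1 := by
        rw [div_lt_one (by positivity)]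
        linarith
      have h7 : 0 < ε ^ 2 := by positivity
      nlinarith
    rw [Real.dist_eq]
    exact abs_lt_of_sq_lt_sq (h3.trans_lt h4) hε.le
  choose u hu using hcau
  have huae : g =ᵐ[tgt p] u := by
    filter_upwards [hgae] with x hx
    exact tendsto_nhds_unique hx ((hu x).comp hns.tendsto_atTop)
  refine ⟨u, u', ⟨fun a b => memLp_loc hp hu' a b, ?_, hg.ae_eq huae, hu'⟩, ?_, hu'lim⟩
  · intro a b
    obtain ⟨C, hC0, hC⟩ := ResA.local_est hp (max |a| |b|)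
    have ha : a ∈ Icc (-(max |a| |b|)) (max |a| |b|) :=
      ⟨(neg_le_neg (le_max_left _ _)).trans (neg_abs_le a), (le_abs_self a).trans (le_max_left _ _)⟩
    have hb : b ∈ Icc (-(max |a| |b|)) (max |a| |b|) :=
      ⟨(neg_le_neg (le_max_right _ _)).trans (neg_abs_le b),
        (le_abs_self b).trans (le_max_right _ _)⟩
    have h1 : Tendsto (fun m => (w m b - w m a) - ∫ t in a..b, u' t) atTop
        (𝓝 ((u b - u a) - ∫ t in a..b, u' t)) := ((hu b).sub (hu a)).sub_const _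
    have h2 : Tendsto (fun m => (w m b - w m a) - ∫ t in a..b, u' t) atTop (𝓝 0) := by
      rw [tendsto_zero_iff_abs_tendsto_zero]
      have h3 : Tendsto (fun m => Real.sqrt (C * ∫ x, (w' m x - u' x) ^ 2 ∂(tgt p))) atTop (𝓝 0) := by
        have h4 := (hu'lim.const_mul C).sqrt
        simpa using h4
      refine squeeze_zero (fun m => abs_nonneg _) (fun m => ?_) h3
      have h5 : (w m b - w m a) - ∫ t in a..b, u' t = ∫ t in a..b, (w' m t - u' t) := by
        rw [(hw m).ftc a b, intervalIntegral.integral_sub ((hw m).loc a b) (memLp_loc hp hu' a b)]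
      rw [Function.comp_apply, h5]
      exact Real.abs_le_sqrt (hC _ ((hw m).l2'.sub hu') a ha b hb)
    have h6 := tendsto_nhds_unique h1 h2
    linarith
  · refine hglim.congr fun m => ?_
    refine integral_congr_ae ?_
    filter_upwards [huae] with x hx
    rw [hx]

end Pool.Agent.Lib.MP_e19099_pr
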