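import Pool.Agent.Lib.MP_e19099_pr.ResA
import Pool.Agent.Lib.MP_e19099_pr.Dense

/-!
# Existence of the resolvent (task A9b)

By `core_dense` choose test functions with `‖lam v_m - L v_m - f‖² ≤ 1/(m+1)`.  By `core_coercive` applied to differences
(`vf_sub`, `gen_sub`), `(v_m, v_m')` is Cauchy; take the limit `(u, u')` of `dom_closed`.  Pass to the limit in `res_weak`
(all terms are continuous for `L²(π)` convergence, Cauchy-Schwarz).
-/

set_option autoImplicit false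

open MeasureTheory ProbabilityTheory Filter Set
open scoped NNReal Topology ENNReal

namespace Pool.Agent.Lib.MP_e19099_pr

variable {p f : ℝ → ℝ} {h lam : ℝ}

/-- Cauchy-Schwarz -/
private theorem ResB_cs {μ : Measure ℝ} {a b : ℝ → ℝ} (ha : MemLp a 2 μ) (hb : MemLp b 2 μ) :
    |∫ x, a x * b x ∂μ| ≤ Real.sqrt (∫ x, (a x) ^ 2 ∂μ) * Real.sqrt (∫ x, (b x) ^ 2 ∂μ) := by
  have h2 : (ENNReal.ofReal 2) = 2 := by norm_num
  have hpq : (2 : ℝ).HolderConjugate 2 := Real.HolderConjugate.two_two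
  have h1 := integral_mul_norm_le_Lp_mul_Lq (μ := μ) (f := a) (g := b) hpq (by rw [h2]; exact ha)
    (by rw [h2]; exact hb)
  have e1 : |∫ x, a x * b x ∂μ| ≤ ∫ x, ‖a x‖ * ‖b x‖ ∂μ := by
    refine (norm_integral_le_integral_norm (fun x => a x * b x)).trans (le_of_eq ?_)
    simp only [norm_mul]
  refine e1.trans (h1.trans (le_of_eq ?_))
  simp only [Real.norm_eq_abs, Real.rpow_two, sq_abs, Real.sqrt_eq_rpow]

/-- continuity of the pairing -/
private theorem ResB_lim {μ : Measure ℝ} {s : ℕ → ℝ → ℝ} {t w : ℝ → ℝ}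
    (hs : ∀ m, MemLp (s m) 2 μ) (ht : MemLp t 2 μ) (hw : MemLp w 2 μ)
    (hlim : Tendsto (fun m => ∫ x, (s m x - t x) ^ 2 ∂μ) atTop (𝓝 0)) :
    Tendsto (fun m => ∫ x, s m x * w x ∂μ) atTop (𝓝 (∫ x, t x * w x ∂μ)) := by
  rw [tendsto_iff_norm_sub_tendsto_zero]
  have hb : Tendsto (fun m => Real.sqrt (∫ x, (s m x - t x) ^ 2 ∂μ) *
      Real.sqrt (∫ x, (w x) ^ 2 ∂μ)) atTop (𝓝 0) := by
    have h1 := ((Real.continuous_sqrt.tendsto 0).comp hlim).mul_const
      (Real.sqrt (∫ x, (w x) ^ 2 ∂μ))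
    rw [Real.sqrt_zero, zero_mul] at h1
    exact h1
  refine squeeze_zero (fun m => norm_nonneg _) (fun m => ?_) hb
  have h1 : ∫ x, s m x * w x ∂μ - ∫ x, t x * w x ∂μ = ∫ x, (s m x - t x) * w x ∂μ := by
    have i1 : Integrable (fun x => s m x * w x) μ := (hs m).integrable_mul hw
    have i2 : Integrable (fun x => t x * w x) μ := ht.integrable_mul hw
    rw [← integral_sub i1 i2]
    refine integral_congr_ae (Eventually.of_forall fun x => ?_)
    simp only
    ring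
  rw [h1]
  exact ResB_cs ((hs m).sub ht) hw

theorem res_exists (hp : Dens p) (hh : 0 < h) (hlam : 0 < lam) (hf : MemLp f 2 (tgt p)) :
    ∃ u u' : ℝ → ℝ, IsResolvent (tgt p) h lam f u u' ∧ Continuous u ∧
      ∀ ε : ℝ, 0 < ε → ∃ q a, IsTest q ∧
        ∫ x, (lam * vf p q a x - gen h p q x - f x) ^ 2 ∂(tgt p) ≤ ε ∧
        ∫ x, (vf p q a x - u x) ^ 2 ∂(tgt p) ≤ ε := by
  have hprob := tgt_prob hp
  have hch : ∀ m : ℕ, ∃ q a, IsTest q ∧
      ∫ x, (lam * vf p q a x - gen h p q x - f x) ^ 2 ∂(tgt p) ≤ 1 / ((m : ℝ) + 1) :=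
    fun m => core_dense hp hlam hh hf (by positivity)
  choose q a hq hqa using hch
  set v : ℕ → ℝ → ℝ := fun m => vf p (q m) (a m) with hv
  set v' : ℕ → ℝ → ℝ := fun m x => q m x / p x with hv'
  set g : ℕ → ℝ → ℝ := fun m x => lam * vf p (q m) (a m) x - gen h p (q m) x with hg
  have hdom : ∀ m, Dom (tgt p) (v m) (v' m) := fun m => vf_dom hp (hq m) (a m)
  have hgL : ∀ m, MemLp (g m) 2 (tgt p) := fun m => core_memLp hp (hq m) (a m)
  have hgf : ∀ m, ∫ x, (g m x - f x) ^ 2 ∂(tgt p) ≤ 1 / ((m : ℝ) + 1) := hqa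
  have hggi : ∀ m k, ∫ x, (g m x - g k x) ^ 2 ∂(tgt p) ≤
      2 * (1 / ((m : ℝ) + 1)) + 2 * (1 / ((k : ℝ) + 1)) := by
    intro m k
    have i1 : Integrable (fun x => (g m x - f x) ^ 2) (tgt p) := ((hgL m).sub hf).integrable_sq
    have i2 : Integrable (fun x => (g k x - f x) ^ 2) (tgt p) := ((hgL k).sub hf).integrable_sq
    have i3 : Integrable (fun x => (g m x - g k x) ^ 2) (tgt p) :=
      ((hgL m).sub (hgL k)).integrable_sq
    have h1 : ∫ x, (g m x - g k x) ^ 2 ∂(tgt p) ≤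
        ∫ x, (2 * (g m x - f x) ^ 2 + 2 * (g k x - f x) ^ 2) ∂(tgt p) := by
      apply integral_mono i3 ((i1.const_mul 2).add (i2.const_mul 2))
      intro x
      show (g m x - g k x) ^ 2 ≤ 2 * (g m x - f x) ^ 2 + 2 * (g k x - f x) ^ 2
      nlinarith [sq_nonneg ((g m x - f x) + (g k x - f x))]
    rw [integral_add (i1.const_mul 2) (i2.const_mul 2), integral_const_mul,
      integral_const_mul] at h1
    have := hgf m
    have := hgf k
    linarith
  have hco : ∀ m k, lam ^ 2 * ∫ x, (v m x - v k x) ^ 2 ∂(tgt p) ≤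
        ∫ x, (g m x - g k x) ^ 2 ∂(tgt p) ∧
      h / 2 * lam * ∫ x, (v' m x - v' k x) ^ 2 ∂(tgt p) ≤
        ∫ x, (g m x - g k x) ^ 2 ∂(tgt p) := by
    intro m k
    have h1 := core_coercive hp hh hlam (isTest_sub (hq m) (hq k)) (a m - a k)
    have e1 : (fun x => (lam * vf p (fun x => q m x - q k x) (a m - a k) x -
        gen h p (fun x => q m x - q k x) x) ^ 2) = fun x => (g m x - g k x) ^ 2 := by
      funext x
      rw [vf_sub hp (hq m) (hq k), gen_sub (hq m) (hq k)]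
      simp only [hg]
      ring
    have e2 : (fun x => vf p (fun x => q m x - q k x) (a m - a k) x ^ 2) =
        fun x => (v m x - v k x) ^ 2 := by
      funext x
      rw [vf_sub hp (hq m) (hq k)]
    have e3 : (fun x => ((q m x - q k x) / p x) ^ 2) = fun x => (v' m x - v' k x) ^ 2 := by
      funext x
      simp only [hv', sub_div]
    rw [e1, e2, e3] at h1
    exact h1
  obtain ⟨u, u', hu, hlu, hlu'⟩ := dom_closed hp hdom (by
    intro ε hε
    set c := min (lam ^ 2) (h / 2 * lam) with hc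
    have hcpos : 0 < c := lt_min (by positivity) (by positivity)
    obtain ⟨N, hN⟩ := exists_nat_gt (4 / (c * ε))
    have hsm : ∀ m : ℕ, N ≤ m → 1 / ((m : ℝ) + 1) ≤ c * ε / 4 := by
      intro m hm
      have h1 : (N : ℝ) ≤ m := by exact_mod_cast hm
      rw [div_le_iff₀ (by positivity)]
      have h2 : 4 / (c * ε) < (m : ℝ) + 1 := by linarith
      rw [div_lt_iff₀ (by positivity)] at h2
      linarith
    refine ⟨N, fun m hm k hk => ?_⟩
    have h1 := hggi m k
    have h2 := hco m k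
    have h3 := hsm m hm
    have h4 := hsm k hk
    have h5 : ∫ x, (g m x - g k x) ^ 2 ∂(tgt p) ≤ c * ε := by linarith
    have n1 : 0 ≤ ∫ x, (v m x - v k x) ^ 2 ∂(tgt p) := integral_nonneg fun x => sq_nonneg _
    have n2 : 0 ≤ ∫ x, (v' m x - v' k x) ^ 2 ∂(tgt p) := integral_nonneg fun x => sq_nonneg _
    constructor
    · have h6 : c * ∫ x, (v m x - v k x) ^ 2 ∂(tgt p) ≤ c * ε :=
        (mul_le_mul_of_nonneg_right (min_le_left _ _) n1).trans (h2.1.trans h5)
      exact le_of_mul_le_mul_left h6 hcpos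
    · have h6 : c * ∫ x, (v' m x - v' k x) ^ 2 ∂(tgt p) ≤ c * ε :=
        (mul_le_mul_of_nonneg_right (min_le_right _ _) n2).trans (h2.2.trans h5)
      exact le_of_mul_le_mul_left h6 hcpos)
  have hlg : Tendsto (fun m => ∫ x, (g m x - f x) ^ 2 ∂(tgt p)) atTop (𝓝 0) :=
    squeeze_zero (fun m => integral_nonneg fun x => sq_nonneg _) hgf
      tendsto_one_div_add_atTop_nhds_zero_nat
  refine ⟨u, u', ⟨hu, fun w w' hw => ?_⟩, dom_cont hu, fun ε hε => ?_⟩
  · have l1 := ResB_lim (fun m => (hdom m).l2') hu.l2' hw.l2' hlu'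
    have l2 := ResB_lim (fun m => (hdom m).l2) hu.l2 hw.l2 hlu
    have l3 := ResB_lim hgL hf hw.l2 hlg
    have l4 := (l1.const_mul (h / 2)).add (l2.const_mul lam)
    refine tendsto_nhds_unique (l4.congr fun m => ?_) l3
    exact res_weak hp (hq m) (a m) hw
  · have h1 : ∀ᶠ m : ℕ in atTop, ∫ x, (g m x - f x) ^ 2 ∂(tgt p) < ε :=
      hlg.eventually_lt_const hε
    have h2 : ∀ᶠ m : ℕ in atTop, ∫ x, (v m x - u x) ^ 2 ∂(tgt p) < ε :=
      hlu.eventually_lt_const hε
    obtain ⟨m, hm1, hm2⟩ := (h1.and h2).exists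
    exact ⟨q m, a m, hq m, hm1.le, hm2.le⟩

end Pool.Agent.Lib.MP_e19099_pr
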