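import Pool.Agent.Lib.MP_e19099_pr.Energy
import Pool.Agent.Lib.MP_e19099_pr.ResB

/-!
# The abstract setup (task A12a)

A sequence of stationary reversible chains (kernels `K n` on `E n`, stationary laws `Pi n`), observables
`φ n : E n → ℝ` with law `tgt p`, time steps `τ n → 0`, fourth moment bound for the increments of `φ` and convergence of
the generators on test functions in the weak sense `genr`.

`setup_vv`: apply `genr` with `u n = v ∘ φ n`, `v = vf p q a`: bounded by `vf_bdd`, and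
`∫ (v(φ y) - v(φ x))² ≤ L² ∫ (φ y - φ x)² ≤ L² √(∫ (φ y - φ x)⁴) ≤ L² √C τ` by `vf_lip`; the second integral is
`∫ v (gen v) dtgt` by `law`.
`setup_Uv`: apply `genr` to `U n = resv ..` (bounded by `resv_mb`, energy `resv_energy'`), and the identity `resv_weak`
with `v ∘ φ n`: `lam ∫ U v + en U v = ∫ f v dtgt`.
-/

set_option autoImplicit false

open MeasureTheory ProbabilityTheory Filter Set
open scoped NNReal Topology ENNReal

namespace Pool.Agent.Lib.MP_e19099_pr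

structure Setup (E : ℕ → Type) [∀ n, MeasurableSpace (E n)] (p : ℝ → ℝ) (h : ℝ) (τ : ℕ → ℝ)
    (Pi : ∀ n, Measure (E n)) (K : ∀ n, Kernel (E n) (E n)) (φ : ∀ n, E n → ℝ) : Prop where
  dens : Dens p
  hpos : 0 < h
  rev : ∀ n, Rev (Pi n) (K n)
  meas : ∀ n, Measurable (φ n)
  law : ∀ n, (Pi n).map (φ n) = tgt p
  tpos : ∀ n, 0 < τ n
  tlim : Tendsto τ atTop (𝓝 0)
  int4 : ∀ n, Integrable (fun z : E n × E n => (φ n z.2 - φ n z.1) ^ 4) (Pi n ⊗ₘ K n)
  mom : ∃ C : ℝ, ∀ n, ∫ z : E n × E n, (φ n z.2 - φ n z.1) ^ 4 ∂(Pi n ⊗ₘ K n) ≤ C * τ n ^ 2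
  genr : ∀ q, IsTest q → ∀ a M : ℝ, ∀ u : ∀ n, E n → ℝ, (∀ n, MB M (u n)) →
    (∀ n, ∫ z : E n × E n, (u n z.2 - u n z.1) ^ 2 ∂(Pi n ⊗ₘ K n) ≤ M * τ n) →
    Tendsto (fun n => en (τ n) (Pi n) (K n) (u n) (fun x => vf p q a (φ n x))
      + ∫ x, u n x * gen h p q (φ n x) ∂(Pi n)) atTop (𝓝 0)

variable {E : ℕ → Type} [∀ n, MeasurableSpace (E n)] {p : ℝ → ℝ} {h : ℝ} {τ : ℕ → ℝ}
  {Pi : ∀ n, Measure (E n)} {K : ∀ n, Kernel (E n) (E n)} {φ : ∀ n, E n → ℝ}

theorem Setup.integral_phi (S : Setup E p h τ Pi K φ) {g : ℝ → ℝ} (hg : Measurable g) (n : ℕ) :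
    ∫ x, g (φ n x) ∂(Pi n) = ∫ x, g x ∂(tgt p) := by
  rw [← S.law n, integral_map (S.meas n).aemeasurable hg.aestronglyMeasurable]

theorem Setup.integrable_phi (S : Setup E p h τ Pi K φ) {g : ℝ → ℝ} (hg : Measurable g)
    (hi : Integrable g (tgt p)) (n : ℕ) : Integrable (fun x => g (φ n x)) (Pi n) := by
  rw [← S.law n, integrable_map_measure hg.aestronglyMeasurable (S.meas n).aemeasurable] at hi
  exact hi

private theorem setup_sq (S : Setup E p h τ Pi K φ) {C : ℝ}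
    (hC : ∀ n, ∫ z : E n × E n, (φ n z.2 - φ n z.1) ^ 4 ∂(Pi n ⊗ₘ K n) ≤ C * τ n ^ 2)
    {v : ℝ → ℝ} {L : ℝ} (hL : ∀ x y, |v x - v y| ≤ L * |x - y|) (n : ℕ) :
    ∫ z : E n × E n, (v (φ n z.2) - v (φ n z.1)) ^ 2 ∂(Pi n ⊗ₘ K n) ≤
      (L ^ 2 * ((C + 1) / 2)) * τ n := by
  have hprob := (S.rev n).edge_prob
  have ht := S.tpos n
  have h1 : ∫ z : E n × E n, (v (φ n z.2) - v (φ n z.1)) ^ 2 ∂(Pi n ⊗ₘ K n) ≤
      ∫ z : E n × E n, (L ^ 2 * (((φ n z.2 - φ n z.1) ^ 4 / τ n + τ n) / 2)) ∂(Pi n ⊗ₘ K n) := by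
    apply integral_mono_of_nonneg (Eventually.of_forall fun z => sq_nonneg _)
    · exact ((((S.int4 n).div_const (τ n)).add (integrable_const (τ n))).div_const 2).const_mul
        (L ^ 2)
    · refine Eventually.of_forall fun z => ?_
      simp only
      have e1 := hL (φ n z.2) (φ n z.1)
      set D := φ n z.2 - φ n z.1 with hD
      have e2 : (v (φ n z.2) - v (φ n z.1)) ^ 2 ≤ L ^ 2 * D ^ 2 := by
        have := pow_le_pow_left₀ (abs_nonneg _) e1 2
        rw [sq_abs, mul_pow, sq_abs] at this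
        exact this
      have e3 : D ^ 2 ≤ (D ^ 4 / τ n + τ n) / 2 := by
        rw [le_div_iff₀ (by norm_num), ← sub_nonneg]
        have : D ^ 4 / τ n + τ n - D ^ 2 * 2 = (D ^ 2 - τ n) ^ 2 / τ n := by
          field_simp
          ring
        rw [this]
        positivity
      exact e2.trans (mul_le_mul_of_nonneg_left e3 (sq_nonneg _))
  refine h1.trans ?_
  rw [integral_const_mul, integral_div,
    integral_add ((S.int4 n).div_const (τ n)) (integrable_const (τ n)), integral_div,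
    integral_const, probReal_univ, one_smul]
  have h2 : (∫ z : E n × E n, (φ n z.2 - φ n z.1) ^ 4 ∂(Pi n ⊗ₘ K n)) / τ n ≤ C * τ n := by
    rw [div_le_iff₀ ht]
    calc _ ≤ C * τ n ^ 2 := hC n
      _ = C * τ n * τ n := by ring
  have h3 : ((∫ z : E n × E n, (φ n z.2 - φ n z.1) ^ 4 ∂(Pi n ⊗ₘ K n)) / τ n + τ n) / 2 ≤
      ((C + 1) / 2) * τ n := by linarith
  calc _ ≤ L ^ 2 * (((C + 1) / 2) * τ n) := mul_le_mul_of_nonneg_left h3 (sq_nonneg _)
    _ = _ := by ring

theorem setup_vv (S : Setup E p h τ Pi K φ) {q : ℝ → ℝ} (hq : IsTest q) (a : ℝ) :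
    Tendsto (fun n => en (τ n) (Pi n) (K n) (fun x => vf p q a (φ n x))
      (fun x => vf p q a (φ n x))) atTop (𝓝 (- ∫ x, vf p q a x * gen h p q x ∂(tgt p))) := by
  obtain ⟨C1, hC1⟩ := vf_bdd S.dens hq a
  obtain ⟨L, hL0, hL⟩ := vf_lip S.dens hq a
  obtain ⟨C, hC⟩ := S.mom
  set M := max C1 (L ^ 2 * ((C + 1) / 2)) with hM
  have hvm : Measurable (vf p q a) := (vf_cont S.dens hq a).measurable
  have hgm : Measurable (gen h p q) := (gen_cont S.dens hq h).measurable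
  have h1 := S.genr q hq a M (fun n x => vf p q a (φ n x))
    (fun n => ⟨hvm.comp (S.meas n), fun x => (hC1 _).trans (le_max_left _ _)⟩)
    (fun n => (setup_sq S hC hL n).trans
      (mul_le_mul_of_nonneg_right (le_max_right _ _) (S.tpos n).le))
  have h2 : ∀ n, ∫ x, vf p q a (φ n x) * gen h p q (φ n x) ∂(Pi n) =
      ∫ x, vf p q a x * gen h p q x ∂(tgt p) :=
    fun n => S.integral_phi (g := fun x => vf p q a x * gen h p q x) (hvm.mul hgm) n
  have h3 := h1.sub_const (∫ x, vf p q a x * gen h p q x ∂(tgt p))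
  rw [zero_sub] at h3
  refine h3.congr fun n => ?_
  rw [h2 n]
  ring

theorem setup_Uv (S : Setup E p h τ Pi K φ) {lam C : ℝ} (hlam : 0 < lam) {f : ℝ → ℝ}
    (hf : MB C f) {q : ℝ → ℝ} (hq : IsTest q) (a : ℝ) :
    Tendsto (fun n => ∫ x, resv (τ n) lam (K n) (fun x => f (φ n x)) x
      * (lam * vf p q a (φ n x) - gen h p q (φ n x)) ∂(Pi n)) atTop
      (𝓝 (∫ x, f x * vf p q a x ∂(tgt p))) := by
  obtain ⟨C1, hC1⟩ := vf_bdd S.dens hq a
  obtain ⟨C2, hC2⟩ := gen_bdd S.dens hq h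
  set M := max (C / lam) (2 * C ^ 2 / lam) with hM
  have hvm : Measurable (vf p q a) := (vf_cont S.dens hq a).measurable
  have hgm : Measurable (gen h p q) := (gen_cont S.dens hq h).measurable
  have hfn : ∀ n, MB C (fun x => f (φ n x)) := fun n =>
    ⟨hf.meas.comp (S.meas n), fun x => hf.bdd _⟩
  have hvn : ∀ n, MB C1 (fun x => vf p q a (φ n x)) := fun n =>
    ⟨hvm.comp (S.meas n), fun x => hC1 _⟩
  have hgn : ∀ n, MB C2 (fun x => gen h p q (φ n x)) := fun n =>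
    ⟨hgm.comp (S.meas n), fun x => hC2 _⟩
  have hU : ∀ n, MB (C / lam) (resv (τ n) lam (K n) (fun x => f (φ n x))) := fun n => by
    have := (S.rev n).markov
    exact resv_mb (S.tpos n) hlam (hfn n)
  have h1 := S.genr q hq a M (fun n => resv (τ n) lam (K n) (fun x => f (φ n x)))
    (fun n => ⟨(hU n).meas, fun x => ((hU n).bdd x).trans (le_max_left _ _)⟩)
    (fun n => (resv_energy' (S.rev n) (S.tpos n) hlam (hfn n)).trans
      (mul_le_mul_of_nonneg_right (le_max_right _ _) (S.tpos n).le))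
  have h2 : ∀ n, lam * ∫ x, resv (τ n) lam (K n) (fun x => f (φ n x)) x * vf p q a (φ n x) ∂(Pi n)
      + en (τ n) (Pi n) (K n) (resv (τ n) lam (K n) (fun x => f (φ n x)))
        (fun x => vf p q a (φ n x)) = ∫ x, f x * vf p q a x ∂(tgt p) := by
    intro n
    rw [resv_weak (S.rev n) (S.tpos n) hlam (hfn n) (hvn n)]
    exact S.integral_phi (g := fun x => f x * vf p q a x) (hf.meas.mul hvm) n
  have hint : ∀ n {C3 : ℝ} {g : E n → ℝ}, MB C3 g →
      Integrable (fun x => resv (τ n) lam (K n) (fun x => f (φ n x)) x * g x) (Pi n) := by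
    intro n C3 g hg
    have := (S.rev n).prob
    refine Integrable.of_bound ((hU n).meas.mul hg.meas).aestronglyMeasurable (C / lam * C3)
      (Eventually.of_forall fun x => ?_)
    rw [Real.norm_eq_abs, abs_mul]
    exact mul_le_mul ((hU n).bdd x) (hg.bdd x) (abs_nonneg _) ((hU n).nonneg x)
  have h3 : ∀ n, ∫ x, resv (τ n) lam (K n) (fun x => f (φ n x)) x
      * (lam * vf p q a (φ n x) - gen h p q (φ n x)) ∂(Pi n) =
      lam * ∫ x, resv (τ n) lam (K n) (fun x => f (φ n x)) x * vf p q a (φ n x) ∂(Pi n) -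
      ∫ x, resv (τ n) lam (K n) (fun x => f (φ n x)) x * gen h p q (φ n x) ∂(Pi n) := by
    intro n
    rw [← integral_const_mul, ← integral_sub ((hint n (hvn n)).const_mul lam) (hint n (hgn n))]
    refine integral_congr_ae (Eventually.of_forall fun x => ?_)
    simp only
    ring
  have h4 := h1.const_sub (∫ x, f x * vf p q a x ∂(tgt p))
  rw [sub_zero] at h4
  refine h4.congr fun n => ?_
  rw [h3 n, ← h2 n]
  ring

end Pool.Agent.Lib.MP_e19099_pr
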