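import Pool.Agent.Lib.MP_e19099_pr.PathMeas
import Pool.Agent.Lib.MP_e19099_pr.Replace

/-!
# Discrete and continuous resolvent sums (task A24)

`wfun lam τ r = (1 + lam τ)^{-(⌊r/τ⌋₊ + 1)}`: the integral over `Ioi 0` of `wfun · a ⌊r/τ⌋₊` is
`∑ τ (1 + lam τ)^{-(j+1)} a j` (`disc_sum`, `a` bounded).  `wt_tendsto`: pointwise `wfun lam τ r → exp (-lam r)` as `τ → 0+`
(`(1 + lam τ)^{-m}` with `m τ → r`: logarithm, `log (1 + x)/x → 1`); for `τ ≤ 1` the domination
`wfun lam τ r ≤ (1 + lam τ)^{-r/τ} ≤ (1 + lam)^{-r}` (Bernoulli `(1 + lam τ)^{1/τ} ≥ 1 + lam`), dominated convergence.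
`potl_disc`: both sides as integrals over `Ioi 0`; `|w a - e b| ≤ |w - e| |a| + e |a - b|`.
-/

set_option autoImplicit false

open MeasureTheory ProbabilityTheory Filter Set
open scoped NNReal Topology ENNReal

namespace Pool.Agent.Lib.MP_e19099_pr

/-- the discrete exponential weight -/
noncomputable def wfun (lam τ r : ℝ) : ℝ := ((1 + lam * τ) ^ (⌊r / τ⌋₊ + 1))⁻¹

/-- `∫₀^∞ |wfun - exp(-lam r)| dr` -/
noncomputable def wt (lam τ : ℝ) : ℝ := ∫ r in Ioi (0 : ℝ), |wfun lam τ r - Real.exp (-lam * r)|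

/-- `∫₀^∞ e^{-lam r} f(y_{s+r}) dr` -/
noncomputable def potl (lam : ℝ) (f : ℝ → ℝ) (s : ℝ≥0) (y : C(ℝ≥0, ℝ)) : ℝ :=
  ∫ r in Ioi (0 : ℝ), Real.exp (-lam * r) * f (y (s + r.toNNReal))

variable {lam τ C : ℝ}

private theorem Weights_pos (hτ : 0 < τ) (hlam : 0 < lam) (r : ℝ) : 0 < wfun lam τ r := by
  unfold wfun
  positivity

private theorem Weights_meas : Measurable (wfun lam τ) := by
  have h1 : Measurable (fun j : ℕ => ((1 + lam * τ) ^ (j + 1))⁻¹) := measurable_of_countable _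
  have h2 : Measurable (fun r : ℝ => ⌊r / τ⌋₊) := Nat.measurable_floor.comp (measurable_id.div_const τ)
  exact h1.comp h2

private theorem Weights_le (hτ : 0 < τ) (hlam : 0 < lam) {r : ℝ} (_hr : 0 < r) :
    wfun lam τ r ≤ Real.exp (-(Real.log (1 + lam * τ) / τ) * r) := by
  unfold wfun
  have hp : 0 < lam * τ := by positivity
  have h1 : 1 < 1 + lam * τ := by linarith
  have h0 : 0 < 1 + lam * τ := by linarith
  have e1 : Real.exp (-(Real.log (1 + lam * τ) / τ) * r) =
      (Real.exp (Real.log (1 + lam * τ) * (r / τ)))⁻¹ := by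
    rw [← Real.exp_neg]
    congr 1
    ring
  rw [e1]
  have e2 : Real.exp (Real.log (1 + lam * τ) * (r / τ)) = (1 + lam * τ) ^ (r / τ) :=
    (Real.rpow_def_of_pos h0 _).symm
  rw [e2, ← Real.rpow_natCast]
  refine inv_anti₀ (Real.rpow_pos_of_pos h0 _) ?_
  refine Real.rpow_le_rpow_of_exponent_le h1.le ?_
  have := (Nat.lt_floor_add_one (r / τ)).le
  push_cast
  exact this

theorem wfun_integrable (hτ : 0 < τ) (hlam : 0 < lam) : IntegrableOn (wfun lam τ) (Ioi 0) := by
  have hp : 0 < lam * τ := by positivity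
  have hc : 0 < Real.log (1 + lam * τ) / τ := div_pos (Real.log_pos (by linarith)) hτ
  refine Integrable.mono' (exp_neg_integrableOn_Ioi 0 hc) Weights_meas.aestronglyMeasurable ?_
  refine (ae_restrict_iff' measurableSet_Ioi).2 (Eventually.of_forall (fun r hr => ?_))
  rw [Real.norm_eq_abs, abs_of_pos (Weights_pos hτ hlam r)]
  exact Weights_le hτ hlam hr

private theorem Weights_mul_int (hτ : 0 < τ) (hlam : 0 < lam) {a : ℕ → ℝ} (ha : ∀ j, |a j| ≤ C) :
    IntegrableOn (fun r => wfun lam τ r * a ⌊r / τ⌋₊) (Ioi 0) := by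
  have h2 : Measurable (fun r : ℝ => a ⌊r / τ⌋₊) :=
    (measurable_of_countable a).comp (Nat.measurable_floor.comp (measurable_id.div_const τ))
  refine Integrable.mono' ((wfun_integrable hτ hlam).mul_const C)
    (Weights_meas.mul h2).aestronglyMeasurable ?_
  refine Eventually.of_forall (fun r => ?_)
  rw [Real.norm_eq_abs, abs_mul, abs_of_pos (Weights_pos hτ hlam r)]
  exact mul_le_mul_of_nonneg_left (ha _) (Weights_pos hτ hlam r).le

theorem disc_sum (hτ : 0 < τ) (hlam : 0 < lam) {a : ℕ → ℝ} (ha : ∀ j, |a j| ≤ C) :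
    ∑' j : ℕ, τ * ((1 + lam * τ) ^ (j + 1))⁻¹ * a j
      = ∫ r in Ioi (0 : ℝ), wfun lam τ r * a ⌊r / τ⌋₊ := by
  have hfl : ∀ (j : ℕ) (r : ℝ), r ∈ Ico ((j : ℝ) * τ) (((j : ℝ) + 1) * τ) ↔ 0 ≤ r ∧ ⌊r / τ⌋₊ = j := by
    intro j r
    constructor
    · rintro ⟨h1, h2⟩
      have h0 : 0 ≤ r := le_trans (by positivity) h1
      refine ⟨h0, (Nat.floor_eq_iff (by positivity)).2 ⟨?_, ?_⟩⟩
      · rwa [le_div_iff₀ hτ]
      · rwa [div_lt_iff₀ hτ]
    · rintro ⟨h0, h1⟩
      have h2 := (Nat.floor_eq_iff (by positivity : 0 ≤ r / τ)).1 h1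
      constructor
      · rw [← le_div_iff₀ hτ]
        exact h2.1
      · rw [← div_lt_iff₀ hτ]
        exact h2.2
  have hU : (⋃ j : ℕ, Ico ((j : ℝ) * τ) (((j : ℝ) + 1) * τ)) = Ici 0 := by
    ext r
    simp only [mem_iUnion, hfl, mem_Ici]
    exact ⟨fun ⟨_, h, _⟩ => h, fun h => ⟨_, h, rfl⟩⟩
  have hd : Pairwise (Function.onFun Disjoint (fun j : ℕ => Ico ((j : ℝ) * τ) (((j : ℝ) + 1) * τ))) := by
    intro i j hij
    refine Set.disjoint_left.2 (fun r h1 h2 => hij ?_)
    exact ((hfl i r).1 h1).2.symm.trans ((hfl j r).1 h2).2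
  have hint : IntegrableOn (fun r => wfun lam τ r * a ⌊r / τ⌋₊)
      (⋃ j : ℕ, Ico ((j : ℝ) * τ) (((j : ℝ) + 1) * τ)) := by
    rw [hU, integrableOn_Ici_iff_integrableOn_Ioi]
    exact Weights_mul_int hτ hlam ha
  rw [← integral_Ici_eq_integral_Ioi, ← hU,
    integral_iUnion (fun j => measurableSet_Ico) hd hint]
  refine tsum_congr (fun j => ?_)
  have e1 : ∫ r in Ico ((j : ℝ) * τ) (((j : ℝ) + 1) * τ), wfun lam τ r * a ⌊r / τ⌋₊ =
      ∫ r in Ico ((j : ℝ) * τ) (((j : ℝ) + 1) * τ), ((1 + lam * τ) ^ (j + 1))⁻¹ * a j := by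
    refine setIntegral_congr_fun measurableSet_Ico (fun r hr => ?_)
    have := ((hfl j r).1 hr).2
    simp only [wfun, this]
  rw [e1, setIntegral_const]
  have e2 : volume.real (Ico ((j : ℝ) * τ) (((j : ℝ) + 1) * τ)) = τ := by
    rw [Real.volume_real_Ico]
    have : ((j : ℝ) + 1) * τ - j * τ = τ := by ring
    rw [this]
    exact max_eq_left hτ.le
  rw [e2, smul_eq_mul]
  ring

private theorem Weights_lim (hlam : 0 < lam) {τ : ℕ → ℝ} (hτ : ∀ n, 0 < τ n)
    (hτ' : Tendsto τ atTop (𝓝 0)) {r : ℝ} (hr : 0 < r) :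
    Tendsto (fun n => wfun lam (τ n) r) atTop (𝓝 (Real.exp (-lam * r))) := by
  have h1 : Tendsto (fun n => (τ n)⁻¹) atTop atTop := by
    refine Tendsto.inv_tendsto_nhdsGT_zero ?_
    exact tendsto_nhdsWithin_iff.2 ⟨hτ', Eventually.of_forall hτ⟩
  have h2 : Tendsto (fun n => (τ n)⁻¹ * Real.log (1 + lam / (τ n)⁻¹)) atTop (𝓝 lam) :=
    (Real.tendsto_mul_log_one_add_div_atTop lam).comp h1
  have h3 : Tendsto (fun n => ((⌊r / τ n⌋₊ : ℝ) + 1) * τ n) atTop (𝓝 r) := by
    have h4 : Tendsto (fun n => r + τ n) atTop (𝓝 (r + 0)) := tendsto_const_nhds.add hτ'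
    rw [add_zero] at h4
    refine tendsto_of_tendsto_of_tendsto_of_le_of_le tendsto_const_nhds h4 ?_ ?_
    · intro n
      have := (Nat.lt_floor_add_one (r / τ n)).le
      rw [div_le_iff₀ (hτ n)] at this
      exact this
    · intro n
      have h5 := Nat.floor_le (by have := hτ n; positivity : 0 ≤ r / τ n)
      rw [le_div_iff₀ (hτ n)] at h5
      show ((⌊r / τ n⌋₊ : ℝ) + 1) * τ n ≤ r + τ n
      linarith
  have h6 := ((h3.mul h2).neg).rexp
  have e1 : ∀ n, wfun lam (τ n) r =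
      Real.exp (-(((⌊r / τ n⌋₊ : ℝ) + 1) * τ n * ((τ n)⁻¹ * Real.log (1 + lam / (τ n)⁻¹)))) := by
    intro n
    have hn := hτ n
    have h0 : 0 < 1 + lam * τ n := by positivity
    unfold wfun
    rw [Real.exp_neg]
    congr 1
    have e2 : ((⌊r / τ n⌋₊ : ℝ) + 1) * τ n * ((τ n)⁻¹ * Real.log (1 + lam / (τ n)⁻¹)) =
        Real.log (1 + lam * τ n) * ((⌊r / τ n⌋₊ + 1 : ℕ) : ℝ) := by
      have e3 : τ n * (τ n)⁻¹ = 1 := mul_inv_cancel₀ hn.ne'
      rw [div_inv_eq_mul]
      push_cast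
      calc ((⌊r / τ n⌋₊ : ℝ) + 1) * τ n * ((τ n)⁻¹ * Real.log (1 + lam * τ n))
          = ((⌊r / τ n⌋₊ : ℝ) + 1) * (τ n * (τ n)⁻¹) * Real.log (1 + lam * τ n) := by ring
        _ = _ := by rw [e3]; ring
    rw [e2, ← Real.rpow_def_of_pos h0, Real.rpow_natCast]
  simp_rw [e1]
  have e3 : -lam * r = -(r * lam) := by ring
  rw [e3]
  exact h6

private theorem Weights_exp_int (hlam : 0 < lam) :
    IntegrableOn (fun r : ℝ => Real.exp (-lam * r)) (Ioi 0) :=
  exp_neg_integrableOn_Ioi 0 hlam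

theorem wt_tendsto (hlam : 0 < lam) {τ : ℕ → ℝ} (hτ : ∀ n, 0 < τ n)
    (hτ' : Tendsto τ atTop (𝓝 0)) : Tendsto (fun n => wt lam (τ n)) atTop (𝓝 0) := by
  have hc : 0 < Real.log (1 + lam) := Real.log_pos (by linarith)
  have hb : Integrable (fun r : ℝ => Real.exp (-(Real.log (1 + lam)) * r) + Real.exp (-lam * r))
      (volume.restrict (Ioi 0)) :=
    (exp_neg_integrableOn_Ioi 0 hc).add (Weights_exp_int hlam)
  have hme : Measurable (fun r : ℝ => Real.exp (-lam * r)) := by fun_prop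
  have h := tendsto_integral_filter_of_dominated_convergence (μ := volume.restrict (Ioi (0 : ℝ)))
    (l := atTop) (F := fun n r => |wfun lam (τ n) r - Real.exp (-lam * r)|)
    (f := fun _ => (0 : ℝ)) _
    (Eventually.of_forall (fun n => ((Weights_meas (lam := lam) (τ := τ n)).sub
      hme).abs.aestronglyMeasurable)) ?_ hb ?_
  · simpa [wt] using h
  · have h1 : ∀ᶠ n in atTop, τ n ≤ 1 := hτ'.eventually_le_const one_pos
    filter_upwards [h1] with n hn
    refine (ae_restrict_iff' measurableSet_Ioi).2 (Eventually.of_forall (fun r hr => ?_))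
    have hr' : 0 < r := hr
    have hn0 := hτ n
    have hw := Weights_pos (hτ n) hlam r
    have he := Real.exp_pos (-lam * r)
    rw [Real.norm_eq_abs, abs_abs]
    have h2 : wfun lam (τ n) r ≤ Real.exp (-(Real.log (1 + lam)) * r) := by
      refine (Weights_le (hτ n) hlam hr').trans (Real.exp_le_exp.2 ?_)
      have h3 : Real.log (1 + lam) ≤ Real.log (1 + lam * τ n) / τ n := by
        have h4 : 1 + (τ n)⁻¹ * (lam * τ n) ≤ (1 + lam * τ n) ^ ((τ n)⁻¹) := by
          refine one_add_mul_self_le_rpow_one_add ?_ ?_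
          · have : 0 < lam * τ n := by positivity
            linarith
          · exact (one_le_inv₀ hn0).2 hn
        have h5 : (τ n)⁻¹ * (lam * τ n) = lam := by
          field_simp
        rw [h5] at h4
        have h6 := Real.log_le_log (by linarith) h4
        rw [Real.log_rpow (by positivity)] at h6
        rw [div_eq_inv_mul]
        exact h6
      nlinarith
    rw [abs_le]
    constructor <;> linarith
  · refine (ae_restrict_iff' measurableSet_Ioi).2 (Eventually.of_forall (fun r hr => ?_))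
    have h1 := (Weights_lim hlam hτ hτ' hr).sub_const (Real.exp (-lam * r))
    have h2 := h1.abs
    simpa using h2

private theorem Weights_f_meas {f : ℝ → ℝ} (hf : BC C f) (s : ℝ≥0) (y : C(ℝ≥0, ℝ)) :
    Continuous (fun r : ℝ => f (y (s + r.toNNReal))) := by
  exact hf.cont.comp (y.continuous.comp (continuous_const.add continuous_real_toNNReal))

theorem potl_bdd (hlam : 0 < lam) {f : ℝ → ℝ} (hf : BC C f) (s : ℝ≥0) (y : C(ℝ≥0, ℝ)) :
    |potl lam f s y| ≤ C / lam := by
  unfold potl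
  have h1 := norm_integral_le_of_norm_le (μ := volume.restrict (Ioi (0 : ℝ)))
    (f := fun r : ℝ => Real.exp (-lam * r) * f (y (s + r.toNNReal)))
    (g := fun r : ℝ => Real.exp (-lam * r) * C) ((Weights_exp_int hlam).mul_const C)
    (Eventually.of_forall (fun r => by
      rw [Real.norm_eq_abs, abs_mul, abs_of_pos (Real.exp_pos _)]
      exact mul_le_mul_of_nonneg_left (hf.bdd _) (Real.exp_pos _).le))
  rw [Real.norm_eq_abs] at h1
  refine h1.trans (le_of_eq ?_)
  rw [integral_mul_const, integral_exp_mul_Ioi (by linarith : -lam < 0)]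
  simp
  field_simp

theorem potl_cont (hlam : 0 < lam) {f : ℝ → ℝ} (hf : BC C f) (s : ℝ≥0) :
    Continuous (potl lam f s) := by
  unfold potl
  refine continuous_of_dominated (bound := fun r : ℝ => Real.exp (-lam * r) * C) ?_ ?_
    ((Weights_exp_int hlam).mul_const C) ?_
  · intro y
    have h1 : Continuous (fun r : ℝ => Real.exp (-lam * r)) := by fun_prop
    exact (h1.mul (Weights_f_meas hf s y)).aestronglyMeasurable
  · intro y
    refine Eventually.of_forall (fun r => ?_)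
    rw [Real.norm_eq_abs, abs_mul, abs_of_pos (Real.exp_pos _)]
    exact mul_le_mul_of_nonneg_left (hf.bdd _) (Real.exp_pos _).le
  · refine Eventually.of_forall (fun r => ?_)
    exact continuous_const.mul (hf.cont.comp (continuous_eval_const _))

theorem potl_disc (hτ : 0 < τ) (hlam : 0 < lam) {f : ℝ → ℝ} (hf : BC C f) (s : ℝ≥0)
    (y : C(ℝ≥0, ℝ)) (x : ℕ → ℝ) (k : ℕ) :
    |∑' j : ℕ, τ * ((1 + lam * τ) ^ (j + 1))⁻¹ * f (x (k + j)) - potl lam f s y|
      ≤ C * wt lam τ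
        + ∫ r in Ioi (0 : ℝ), Real.exp (-lam * r)
            * |f (x (k + ⌊r / τ⌋₊)) - f (y (s + r.toNNReal))| := by
  have ha : ∀ j : ℕ, |f (x (k + j))| ≤ C := fun j => hf.bdd _
  rw [disc_sum (a := fun j => f (x (k + j))) hτ hlam ha]
  unfold potl wt
  have hme : Measurable (fun r : ℝ => Real.exp (-lam * r)) := by fun_prop
  have ham : Measurable (fun r : ℝ => f (x (k + ⌊r / τ⌋₊))) :=
    (measurable_of_countable (fun j : ℕ => f (x (k + j)))).comp
      (Nat.measurable_floor.comp (measurable_id.div_const τ))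
  have hbm : Measurable (fun r : ℝ => f (y (s + r.toNNReal))) := (Weights_f_meas hf s y).measurable
  have i1 : IntegrableOn (fun r => wfun lam τ r * f (x (k + ⌊r / τ⌋₊))) (Ioi 0) :=
    Weights_mul_int (a := fun j => f (x (k + j))) hτ hlam ha
  have i2 : IntegrableOn (fun r : ℝ => Real.exp (-lam * r) * f (y (s + r.toNNReal))) (Ioi 0) := by
    refine Integrable.mono' ((Weights_exp_int hlam).mul_const C)
      (hme.mul hbm).aestronglyMeasurable (Eventually.of_forall (fun r => ?_))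
    rw [Real.norm_eq_abs, abs_mul, abs_of_pos (Real.exp_pos _)]
    exact mul_le_mul_of_nonneg_left (hf.bdd _) (Real.exp_pos _).le
  have i3 : IntegrableOn (fun r => C * |wfun lam τ r - Real.exp (-lam * r)|) (Ioi 0) :=
    (((wfun_integrable hτ hlam).sub (Weights_exp_int hlam)).abs).const_mul C
  have i4 : IntegrableOn (fun r : ℝ => Real.exp (-lam * r)
      * |f (x (k + ⌊r / τ⌋₊)) - f (y (s + r.toNNReal))|) (Ioi 0) := by
    refine Integrable.mono' ((Weights_exp_int hlam).mul_const (2 * C))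
      (hme.mul (ham.sub hbm).abs).aestronglyMeasurable (Eventually.of_forall (fun r => ?_))
    rw [Real.norm_eq_abs, abs_mul, abs_of_pos (Real.exp_pos _), abs_abs]
    refine mul_le_mul_of_nonneg_left ?_ (Real.exp_pos _).le
    have e1 := hf.bdd (x (k + ⌊r / τ⌋₊))
    have e2 := hf.bdd (y (s + r.toNNReal))
    have e3 := abs_sub (f (x (k + ⌊r / τ⌋₊))) (f (y (s + r.toNNReal)))
    linarith
  rw [← integral_sub i1 i2, ← integral_const_mul, ← integral_add i3 i4, ← Real.norm_eq_abs]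
  refine norm_integral_le_of_norm_le (i3.add i4) (Eventually.of_forall (fun r => ?_))
  rw [Real.norm_eq_abs]
  have e : wfun lam τ r * f (x (k + ⌊r / τ⌋₊)) - Real.exp (-lam * r) * f (y (s + r.toNNReal)) =
      (wfun lam τ r - Real.exp (-lam * r)) * f (x (k + ⌊r / τ⌋₊)) +
        Real.exp (-lam * r) * (f (x (k + ⌊r / τ⌋₊)) - f (y (s + r.toNNReal))) := by ring
  rw [e]
  refine (abs_add_le _ _).trans ?_
  rw [abs_mul, abs_mul, abs_of_pos (Real.exp_pos _)]
  have e1 : |wfun lam τ r - Real.exp (-lam * r)| * |f (x (k + ⌊r / τ⌋₊))| ≤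
      |wfun lam τ r - Real.exp (-lam * r)| * C :=
    mul_le_mul_of_nonneg_left (hf.bdd _) (abs_nonneg _)
  have e2 : C * |wfun lam τ r - Real.exp (-lam * r)| =
      |wfun lam τ r - Real.exp (-lam * r)| * C := mul_comm _ _

  linarith

end Pool.Agent.Lib.MP_e19099_pr
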