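import Pool.Agent.Lib.MP_e19099_pr.Setup
import Pool.Agent.Lib.MP_e19099_pr.Mom4
import Pool.Agent.Lib.MP_e19099_pr.InterpMom
import Pool.Agent.Lib.MP_e19099_pr.Weights

/-!
# Comparison of the chain and its interpolation (task A26a)

`ip τ φ X ω` is the interpolated path of `φ(X_k)`.
`ip_mom`: `mom4` and the bound of `S.mom` give the hypotheses of `interp_mom` with `C = 2056 C₀`.
`ip_close`: `φ(X_k) = ip (kτ)` (`interp_grid`); law of `φ(X_k)` is `tgt p`; if `|kτ - t| ≤ 2τ` then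
`E (ip t - φ(X_k))⁴ ≤ C (2τ)² → 0`: apply `rv_replace` (uniformly in `k, t`).
`ip_potl`: `potl_disc` with `x k = φ (X k ω)`, `y = ip ω`, `k = ⌊s/τ⌋₊`; take expectations, Fubini for the last term
(joint measurability: `path_meas_uncurry`, `interp_meas`), for each `r > 0`: `|(k + ⌊r/τ⌋₊) τ - (s + r)| ≤ 2τ`, so by `ip_close` the
inner expectation is `≤ ε`.
-/

set_option autoImplicit false

open MeasureTheory ProbabilityTheory Filter Set
open scoped NNReal Topology ENNReal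

namespace Pool.Agent.Lib.MP_e19099_pr

/-- interpolated path of the observable `φ` along the chain -/
noncomputable def ip {Ω E : Type*} (τ : ℝ) (φ : E → ℝ) (X : ℕ → Ω → E) (ω : Ω) : C(ℝ≥0, ℝ) :=
  interp τ (fun k => φ (X k ω))

universe u

variable {E : ℕ → Type} [∀ n, MeasurableSpace (E n)] {p : ℝ → ℝ} {h : ℝ} {τ : ℕ → ℝ}
  {Pi : ∀ n, Measure (E n)} {K : ∀ n, Kernel (E n) (E n)} {φ : ∀ n, E n → ℝ}
  {Ω : ℕ → Type u} [∀ n, MeasurableSpace (Ω n)] {P : ∀ n, Measure (Ω n)}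
  {X : ∀ n, ℕ → Ω n → E n}

theorem ip_meas (S : Setup E p h τ Pi K φ) (hX : ∀ n, IsChain (P n) (X n) (Pi n) (K n)) (n : ℕ) :
    Measurable (ip (τ n) (φ n) (X n)) :=
  interp_meas (τ n) (x := fun k ω => φ n (X n k ω)) fun k => (S.meas n).comp ((hX n).meas k)

theorem ip_mom (S : Setup E p h τ Pi K φ) (hX : ∀ n, IsChain (P n) (X n) (Pi n) (K n)) :
    ∃ C : ℝ, 0 ≤ C ∧ ∀ n, ∀ s t : ℝ≥0,
      Integrable (fun ω => (ip (τ n) (φ n) (X n) ω t - ip (τ n) (φ n) (X n) ω s) ^ 4) (P n) ∧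
      ∫ ω, (ip (τ n) (φ n) (X n) ω t - ip (τ n) (φ n) (X n) ω s) ^ 4 ∂(P n)
        ≤ C * ((t : ℝ) - s) ^ 2 := by
  obtain ⟨C₀, hC₀⟩ := S.mom
  refine ⟨27 * (2056 * |C₀|), by positivity, fun n s t => ?_⟩
  have := (hX n).prob (S.rev n)
  have hm : ∀ k, Measurable (fun ω => φ n (X n k ω)) := fun k => (S.meas n).comp ((hX n).meas k)
  have h1 : ∀ k m, Integrable (fun ω => (φ n (X n (k + m) ω) - φ n (X n k ω)) ^ 4) (P n) :=
    fun k m => ((hX n).mom4 (S.rev n) (S.meas n) (S.int4 n) k m).1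
  have h2 : ∀ k m : ℕ, ∫ ω, (φ n (X n (k + m) ω) - φ n (X n k ω)) ^ 4 ∂(P n) ≤
      (2056 * |C₀|) * (m * τ n) ^ 2 := by
    intro k m
    have h3 := ((hX n).mom4 (S.rev n) (S.meas n) (S.int4 n) k m).2
    have h4 : ∫ z : E n × E n, (φ n z.2 - φ n z.1) ^ 4 ∂(Pi n ⊗ₘ K n) ≤ |C₀| * τ n ^ 2 :=
      (hC₀ n).trans (mul_le_mul_of_nonneg_right (le_abs_self _) (sq_nonneg _))
    calc _ ≤ 2056 * (m : ℝ) ^ 2 * ∫ z : E n × E n, (φ n z.2 - φ n z.1) ^ 4 ∂(Pi n ⊗ₘ K n) := h3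
      _ ≤ 2056 * (m : ℝ) ^ 2 * (|C₀| * τ n ^ 2) :=
          mul_le_mul_of_nonneg_left h4 (by positivity)
      _ = (2056 * |C₀|) * (m * τ n) ^ 2 := by ring
  exact ⟨interp_mom_int (S.tpos n) (x := fun k ω => φ n (X n k ω)) hm h1 s t,
    interp_mom (S.tpos n) (x := fun k ω => φ n (X n k ω)) hm h1 h2 s t⟩

private theorem ip_law (S : Setup E p h τ Pi K φ) (hX : ∀ n, IsChain (P n) (X n) (Pi n) (K n))
    (n k : ℕ) : (P n).map (fun ω => φ n (X n k ω)) = tgt p := by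
  have h1 : (fun ω => φ n (X n k ω)) = φ n ∘ X n k := rfl
  rw [h1, ← Measure.map_map (S.meas n) ((hX n).meas k), (hX n).law (S.rev n) k, S.law n]

theorem ip_close (S : Setup E p h τ Pi K φ) (hX : ∀ n, IsChain (P n) (X n) (Pi n) (K n))
    {C : ℝ} {f : ℝ → ℝ} (hf : BC C f) {ε : ℝ} (hε : 0 < ε) :
    ∀ᶠ n in atTop, ∀ (k : ℕ) (t : ℝ≥0), |k * τ n - t| ≤ 2 * τ n →
      ∫ ω, |f (ip (τ n) (φ n) (X n) ω t) - f (φ n (X n k ω))| ∂(P n) ≤ ε := by
  have := tgt_prob S.dens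
  obtain ⟨C₁, hC₁, hmom⟩ := ip_mom S hX
  obtain ⟨δ, hδ, hrep⟩ := rv_replace.{u} hf (tgt p) hε
  have hlim : Tendsto (fun n => C₁ * (2 * τ n) ^ 2) atTop (𝓝 (C₁ * (2 * 0) ^ 2)) :=
    ((S.tlim.const_mul 2).pow 2).const_mul C₁
  have hlim0 : C₁ * (2 * 0) ^ 2 = 0 := by ring
  rw [hlim0] at hlim
  filter_upwards [hlim.eventually (eventually_le_nhds hδ)] with n hn k t hkt
  have := (hX n).prob (S.rev n)
  have hτ := S.tpos n
  obtain ⟨s, hs⟩ : ∃ s : ℝ≥0, (s : ℝ) = k * τ n := ⟨⟨k * τ n, by positivity⟩, rfl⟩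
  have hgrid : ∀ ω, ip (τ n) (φ n) (X n) ω s = φ n (X n k ω) := fun ω =>
    interp_grid hτ _ k s hs
  refine hrep (Ω n) (P n) (fun ω => φ n (X n k ω)) (fun ω => ip (τ n) (φ n) (X n) ω t)
    ((S.meas n).comp ((hX n).meas k)) ((path_meas_eval t).comp (ip_meas S hX n))
    (ip_law S hX n k) ?_ ?_
  · have h1 := (hmom n s t).1
    simp only [hgrid] at h1
    exact h1
  · have h1 := (hmom n s t).2
    simp only [hgrid] at h1
    refine h1.trans (le_trans (mul_le_mul_of_nonneg_left ?_ hC₁) hn)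
    rw [hs]
    have h2 : ((t : ℝ) - k * τ n) ^ 2 = |k * τ n - t| ^ 2 := by
      rw [sq_abs]; ring
    rw [h2]
    exact pow_le_pow_left₀ (abs_nonneg _) hkt 2

private theorem floor_close {τ s : ℝ} (hτ : 0 < τ) (hs : 0 ≤ s) :
    |(⌊s / τ⌋₊ : ℝ) * τ - s| ≤ τ := by
  have h1 : (⌊s / τ⌋₊ : ℝ) ≤ s / τ := Nat.floor_le (by positivity)
  have h2 : s / τ < ⌊s / τ⌋₊ + 1 := Nat.lt_floor_add_one _
  have h3 : s / τ * τ = s := by field_simp
  rw [abs_le]
  constructor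
  · nlinarith
  · nlinarith

theorem ip_potl (S : Setup E p h τ Pi K φ) (hX : ∀ n, IsChain (P n) (X n) (Pi n) (K n))
    {C lam : ℝ} (hlam : 0 < lam) {f : ℝ → ℝ} (hf : BC C f) (s : ℝ≥0) :
    Tendsto (fun n => ∫ ω, |∑' j : ℕ, τ n * ((1 + lam * τ n) ^ (j + 1))⁻¹
        * f (φ n (X n (⌊(s : ℝ) / τ n⌋₊ + j) ω)) - potl lam f s (ip (τ n) (φ n) (X n) ω)| ∂(P n))
      atTop (𝓝 0) := by
  have hC : 0 ≤ C := (abs_nonneg _).trans (hf.bdd 0)
  rw [Metric.tendsto_atTop']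
  intro ε hε
  have hwt := wt_tendsto hlam S.tpos S.tlim
  have hw : Tendsto (fun n => C * wt lam (τ n)) atTop (𝓝 (C * 0)) := hwt.const_mul C
  rw [mul_zero] at hw
  have hev := (hw.eventually (eventually_le_nhds (by positivity : (0 : ℝ) < ε / 4))).and
    (ip_close S hX hf (by positivity : (0 : ℝ) < lam * (ε / 4)))
  obtain ⟨N, hN⟩ := eventually_atTop.mp hev
  refine ⟨N, fun n hn => ?_⟩
  obtain ⟨hn1, hn2⟩ := hN n hn.le
  have := (hX n).prob (S.rev n)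
  have hτ := S.tpos n
  obtain ⟨k, hk⟩ : ∃ k, k = ⌊(s : ℝ) / τ n⌋₊ := ⟨_, rfl⟩
  rw [← hk]
  obtain ⟨y, hy⟩ : ∃ y : Ω n → C(ℝ≥0, ℝ), y = ip (τ n) (φ n) (X n) := ⟨_, rfl⟩
  have hym : Measurable y := by rw [hy]; exact ip_meas S hX n
  rw [← hy]
  rw [← hy] at hn2
  -- the error term
  obtain ⟨F, hF⟩ : ∃ F : Ω n → ℝ → ℝ, F = fun ω r => Real.exp (-lam * r) *
      |f (φ n (X n (k + ⌊r / τ n⌋₊) ω)) - f (y ω (s + r.toNNReal))| := ⟨_, rfl⟩
  have hFm : Measurable (Function.uncurry F) := by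
    rw [hF]
    have hm1 : Measurable (fun z : Ω n × ℕ => φ n (X n z.2 z.1)) :=
      measurable_from_prod_countable_left fun m => (S.meas n).comp ((hX n).meas m)
    have hm2 : Measurable (fun z : Ω n × ℝ => (z.1, k + ⌊z.2 / τ n⌋₊)) :=
      measurable_fst.prodMk
        ((Nat.measurable_floor.comp (measurable_snd.div_const (τ n))).const_add k)
    have hm3 : Measurable (fun z : Ω n × ℝ => (y z.1, s + z.2.toNNReal)) :=
      (hym.comp measurable_fst).prodMk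
        ((measurable_real_toNNReal.comp measurable_snd).const_add s)
    have hm4 := path_meas_uncurry.comp hm3
    have hm5 := hm1.comp hm2
    have hm6 : Measurable (fun z : Ω n × ℝ => Real.exp (-lam * z.2)) :=
      Real.measurable_exp.comp (measurable_snd.const_mul (-lam))
    have hm7 := (hf.cont.measurable.comp hm5).sub (hf.cont.measurable.comp hm4)
    exact hm6.mul hm7.norm
  have hFb : ∀ ω r, |F ω r| ≤ Real.exp (-lam * r) * (2 * C) := by
    intro ω r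
    rw [hF]
    simp only
    rw [abs_mul, abs_of_pos (Real.exp_pos _), abs_abs]
    apply mul_le_mul_of_nonneg_left _ (Real.exp_pos _).le
    calc |f (φ n (X n (k + ⌊r / τ n⌋₊) ω)) - f (y ω (s + r.toNNReal))| ≤
        |f (φ n (X n (k + ⌊r / τ n⌋₊) ω))| + |f (y ω (s + r.toNNReal))| := abs_sub _ _
      _ ≤ C + C := add_le_add (hf.bdd _) (hf.bdd _)
      _ = 2 * C := by ring
  have hexp : IntegrableOn (fun r : ℝ => Real.exp (-lam * r)) (Ioi 0) :=
    integrableOn_exp_mul_Ioi (by linarith) 0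
  have hFi : Integrable (Function.uncurry F) ((P n).prod (volume.restrict (Ioi 0))) := by
    have h1 : Integrable (fun z : Ω n × ℝ => (fun _ : Ω n => (1 : ℝ)) z.1 *
        (fun r : ℝ => Real.exp (-lam * r) * (2 * C)) z.2)
        ((P n).prod (volume.restrict (Ioi 0))) :=
      (integrable_const (1 : ℝ)).mul_prod (hexp.mul_const (2 * C))
    refine h1.mono' hFm.aestronglyMeasurable (Eventually.of_forall fun z => ?_)
    rw [Real.norm_eq_abs]
    simp only [one_mul]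
    exact hFb z.1 z.2
  have hswap : ∫ ω, (∫ r in Ioi (0 : ℝ), F ω r) ∂(P n) =
      ∫ r in Ioi (0 : ℝ), ∫ ω, F ω r ∂(P n) := integral_integral_swap hFi
  have hFg : Integrable (fun ω => ∫ r in Ioi (0 : ℝ), F ω r) (P n) := hFi.integral_prod_left
  have hle : ∫ ω, |∑' j : ℕ, τ n * ((1 + lam * τ n) ^ (j + 1))⁻¹
      * f (φ n (X n (k + j) ω)) - potl lam f s (y ω)| ∂(P n) ≤
      ∫ ω, (C * wt lam (τ n) + ∫ r in Ioi (0 : ℝ), F ω r) ∂(P n) := by
    apply integral_mono_of_nonneg (Eventually.of_forall fun ω => abs_nonneg _)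
      ((integrable_const _).add hFg)
    refine Eventually.of_forall fun ω => ?_
    have h1 := potl_disc hτ hlam hf s (y ω) (fun j => φ n (X n j ω)) k
    rw [hF]
    exact h1
  have hinner : ∀ r ∈ Ioi (0 : ℝ), ∫ ω, F ω r ∂(P n) ≤ Real.exp (-lam * r) * (lam * (ε / 4)) := by
    intro r hr
    have hr0 : 0 < r := hr
    have h1 : ∫ ω, F ω r ∂(P n) = Real.exp (-lam * r) *
        ∫ ω, |f (y ω (s + r.toNNReal)) - f (φ n (X n (k + ⌊r / τ n⌋₊) ω))| ∂(P n) := by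
      rw [← integral_const_mul, hF]
      refine integral_congr_ae (Eventually.of_forall fun ω => ?_)
      simp only
      rw [abs_sub_comm]
    rw [h1]
    apply mul_le_mul_of_nonneg_left _ (Real.exp_pos _).le
    apply hn2
    rw [NNReal.coe_add, Real.coe_toNNReal r hr0.le]
    have h2 := floor_close hτ (NNReal.coe_nonneg s)
    have h3 := floor_close hτ hr0.le
    rw [← hk] at h2
    have h4 : ((k + ⌊r / τ n⌋₊ : ℕ) : ℝ) * τ n - ((s : ℝ) + r) =
        ((k : ℝ) * τ n - s) + ((⌊r / τ n⌋₊ : ℝ) * τ n - r) := by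
      push_cast; ring
    rw [h4]
    calc _ ≤ |(k : ℝ) * τ n - s| + |(⌊r / τ n⌋₊ : ℝ) * τ n - r| := abs_add_le _ _
      _ ≤ 2 * τ n := by
        have : |(k : ℝ) * τ n - s| ≤ τ n := h2
        linarith
  have hint : ∫ r in Ioi (0 : ℝ), ∫ ω, F ω r ∂(P n) ≤ ε / 4 := by
    have h1 : ∫ r in Ioi (0 : ℝ), ∫ ω, F ω r ∂(P n) ≤
        ∫ r in Ioi (0 : ℝ), Real.exp (-lam * r) * (lam * (ε / 4)) :=
      setIntegral_mono_on hFi.integral_prod_right (hexp.mul_const _) measurableSet_Ioi hinner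
    refine h1.trans (le_of_eq ?_)
    rw [integral_mul_const, integral_exp_mul_Ioi (by linarith : -lam < 0) 0]
    rw [mul_zero, Real.exp_zero]
    field_simp
  have hnn : 0 ≤ ∫ ω, |∑' j : ℕ, τ n * ((1 + lam * τ n) ^ (j + 1))⁻¹
      * f (φ n (X n (k + j) ω)) - potl lam f s (y ω)| ∂(P n) :=
    integral_nonneg fun ω => abs_nonneg _
  rw [Real.dist_eq, sub_zero, abs_of_nonneg hnn]
  calc _ ≤ ∫ ω, (C * wt lam (τ n) + ∫ r in Ioi (0 : ℝ), F ω r) ∂(P n) := hle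
    _ = C * wt lam (τ n) + ∫ ω, (∫ r in Ioi (0 : ℝ), F ω r) ∂(P n) := by
        rw [integral_add (integrable_const _) hFg, integral_const, probReal_univ, one_smul]
    _ ≤ ε / 4 + ε / 4 := by
        rw [hswap]
        exact add_le_add hn1 hint
    _ < ε := by linarith

end Pool.Agent.Lib.MP_e19099_pr
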