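import Pool.Agent.Lib.MP_e19099_pr.Defs

/-!
# Densities (task A1)

`tgt p` is the measure with density `p`.  All proofs are routine: `integral_withDensity_eq_integral_toReal_smul`,
`ENNReal.toReal_ofReal`.  For `memLp_loc`: on `[a, b]` the continuous function `p` is bounded below by some `m > 0`, so
`∫_a^b f² ≤ (1/m) ∫ f² dtgt`, and `L² ⊂ L¹` on bounded intervals.
-/

set_option autoImplicit false

open MeasureTheory ProbabilityTheory Filter Set
open scoped NNReal Topology ENNReal

namespace Pool.Agent.Lib.MP_e19099_pr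

/-- `p` is a continuous, positive probability density on `ℝ`. -/
structure Dens (p : ℝ → ℝ) : Prop where
  cont : Continuous p
  pos : ∀ x, 0 < p x
  int : Integrable p
  one : ∫ x, p x = 1

/-- The measure with density `p`. -/
noncomputable def tgt (p : ℝ → ℝ) : Measure ℝ :=
  volume.withDensity (fun x => ENNReal.ofReal (p x))

variable {p : ℝ → ℝ}

private theorem tgt_meas (hp : Dens p) : Measurable (fun x => ENNReal.ofReal (p x)) :=
  hp.cont.measurable.ennreal_ofReal

private theorem tgt_toReal (hp : Dens p) (x : ℝ) : (ENNReal.ofReal (p x)).toReal = p x :=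
  ENNReal.toReal_ofReal (hp.pos x).le

theorem tgt_prob (hp : Dens p) : IsProbabilityMeasure (tgt p) := by
  constructor
  unfold tgt
  rw [withDensity_apply _ MeasurableSet.univ, Measure.restrict_univ,
    ← ofReal_integral_eq_lintegral_ofReal hp.int (Eventually.of_forall fun x => (hp.pos x).le),
    hp.one, ENNReal.ofReal_one]

theorem integral_tgt (hp : Dens p) (f : ℝ → ℝ) : ∫ x, f x ∂(tgt p) = ∫ x, f x * p x := by
  unfold tgt
  rw [integral_withDensity_eq_integral_toReal_smul (tgt_meas hp)
    (Eventually.of_forall fun x => ENNReal.ofReal_lt_top)]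
  refine integral_congr_ae (Eventually.of_forall fun x => ?_)
  show (ENNReal.ofReal (p x)).toReal • f x = f x * p x
  rw [tgt_toReal hp, smul_eq_mul, mul_comm]

theorem integrable_tgt (hp : Dens p) (f : ℝ → ℝ) :
    Integrable f (tgt p) ↔ Integrable (fun x => f x * p x) := by
  unfold tgt
  rw [integrable_withDensity_iff_integrable_smul' (tgt_meas hp)
    (Eventually.of_forall fun x => ENNReal.ofReal_lt_top)]
  refine integrable_congr (Eventually.of_forall fun x => ?_)
  show (ENNReal.ofReal (p x)).toReal • f x = f x * p x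
  rw [tgt_toReal hp, smul_eq_mul, mul_comm]

theorem ae_tgt (hp : Dens p) {s : ℝ → Prop} : (∀ᵐ x ∂(tgt p), s x) ↔ ∀ᵐ x, s x := by
  unfold tgt
  rw [ae_withDensity_iff (tgt_meas hp)]
  have h : ∀ x, ENNReal.ofReal (p x) ≠ 0 := fun x => by
    rw [Ne, ENNReal.ofReal_eq_zero, not_le]
    exact hp.pos x
  constructor
  · intro h1
    filter_upwards [h1] with x hx
    exact hx (h x)
  · intro h1
    filter_upwards [h1] with x hx _
    exact hx

private theorem vol_ac_tgt (hp : Dens p) : (volume : Measure ℝ) ≪ tgt p := by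
  rw [← Measure.ae_le_iff_absolutelyContinuous]
  intro s hs
  exact (ae_tgt hp).1 hs

theorem memLp_loc (hp : Dens p) {f : ℝ → ℝ} (hf : MemLp f 2 (tgt p)) (a b : ℝ) :
    IntervalIntegrable f volume a b := by
  have hmeas : AEStronglyMeasurable f volume := hf.1.mono_ac (vol_ac_tgt hp)
  have hsq : Integrable (fun x => f x ^ 2) (tgt p) := hf.integrable_sq
  have hsq' : Integrable (fun x => f x ^ 2 * p x) := (integrable_tgt hp _).1 hsq
  obtain ⟨x0, _, hx0⟩ := isCompact_uIcc.exists_isMinOn (nonempty_uIcc (a := a) (b := b))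
    hp.cont.continuousOn
  have hm : 0 < p x0 := hp.pos x0
  rw [intervalIntegrable_iff]
  have hsub : uIoc a b ⊆ uIcc a b := uIoc_subset_uIcc
  have hfin : volume (uIoc a b) ≠ ⊤ := by
    rw [uIoc, Real.volume_Ioc]
    exact ENNReal.ofReal_ne_top
  have hbound : IntegrableOn (fun x => 1 + (p x0)⁻¹ * (f x ^ 2 * p x)) (uIoc a b) volume := by
    apply Integrable.add
    · exact integrableOn_const hfin
    · exact (hsq'.const_mul _).integrableOn
  refine Integrable.mono' hbound hmeas.restrict ?_
  rw [ae_restrict_iff' measurableSet_uIoc]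
  refine Eventually.of_forall fun x hx => ?_
  have h1 : p x0 ≤ p x := hx0 (hsub hx)
  have h2 : f x ^ 2 ≤ (p x0)⁻¹ * (f x ^ 2 * p x) := by
    have h3 : (p x0)⁻¹ * (f x ^ 2 * p x0) = f x ^ 2 := by
      field_simp
    calc f x ^ 2 = (p x0)⁻¹ * (f x ^ 2 * p x0) := h3.symm
      _ ≤ _ := mul_le_mul_of_nonneg_left
        (mul_le_mul_of_nonneg_left h1 (sq_nonneg _)) (inv_nonneg.2 hm.le)
  rw [Real.norm_eq_abs]
  have h4 : |f x| ≤ 1 + f x ^ 2 := by
    rw [← sq_abs (f x)]
    nlinarith [abs_nonneg (f x), sq_nonneg (|f x| - 1)]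
  linarith

theorem memLp_bdd (hp : Dens p) {f : ℝ → ℝ} (hf : Measurable f) {C : ℝ} (h : ∀ x, |f x| ≤ C) :
    MemLp f 2 (tgt p) := by
  have := tgt_prob hp
  exact MemLp.of_bound hf.aestronglyMeasurable C (Eventually.of_forall h)

end Pool.Agent.Lib.MP_e19099_pr
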