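import Pool.Agent.Lib.MP_e19099_pr.IsLim
import Pool.Agent.Lib.MP_e19099_pr.Laplace

/-!
# Uniqueness of the limit law (task A28c)

`lim_fdd`: by `Finset.induction_on_max` on `T`, for all `G`.  `T = ∅`: both sides are `1`.  `T = {b}` (the predecessor is empty): `stat`.
Otherwise let `s = T.max'`, all of `T` is `≤ s < b`; consider `ψ_μ r = ∫ ∏_{t ∈ T} G_t(y_t) · f(y_{s+r}) dμ`, `r ≥ 0`, `f = G b`: continuous
(dominated convergence), bounded by `1`.  By Fubini its Laplace transform is `∫ ∏ G_t(y_t) potl lam f s y dμ` and by `res` this is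
`∫ ∏ G_t(y_t) u(y_s) dμ`, which agrees with the one for `ν` by the induction hypothesis applied to `G` with `G_s` replaced by `G_s · u · lam/C'`
(`C' > 0`; `u` exists by `res_exists` and `res_bdd`).  `laplace_unique` for `ψ_μ - ψ_ν`, then `r = b - s`.
-/

set_option autoImplicit false

open MeasureTheory ProbabilityTheory Filter Set
open scoped NNReal Topology ENNReal

namespace Pool.Agent.Lib.MP_e19099_pr

variable {E : ℕ → Type} [∀ n, MeasurableSpace (E n)] {p : ℝ → ℝ} {h : ℝ} {τ : ℕ → ℝ}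
  {Pi : ∀ n, Measure (E n)} {K : ∀ n, Kernel (E n) (E n)} {φ : ∀ n, E n → ℝ}

private theorem prod_meas {T : Finset ℝ≥0} {G : ℝ≥0 → ℝ → ℝ} (hG : ∀ t, BC 1 (G t)) :
    Measurable fun y : C(ℝ≥0, ℝ) => ∏ t ∈ T, G t (y t) :=
  Finset.measurable_prod T fun t _ => (hG t).cont.measurable.comp (path_meas_eval t)

private theorem prod_bdd {T : Finset ℝ≥0} {G : ℝ≥0 → ℝ → ℝ} (hG : ∀ t, BC 1 (G t))
    (y : C(ℝ≥0, ℝ)) : |∏ t ∈ T, G t (y t)| ≤ 1 := by
  rw [Finset.abs_prod]
  exact Finset.prod_le_one (fun t _ => abs_nonneg _) fun t _ => (hG t).bdd _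

private theorem shift_meas {f : ℝ → ℝ} (hf : Continuous f) (s : ℝ≥0) :
    Measurable fun z : ℝ × C(ℝ≥0, ℝ) => f (z.2 (s + z.1.toNNReal)) := by
  have h1 : Measurable fun z : ℝ × C(ℝ≥0, ℝ) => (z.2, s + z.1.toNNReal) :=
    measurable_snd.prodMk (measurable_const.add measurable_fst.real_toNNReal)
  exact hf.measurable.comp (path_meas_uncurry.comp h1)

/-- the Laplace transform of `r ↦ ∫ ∏ G_t(y_t) f(y_{s+r}) dμ` -/
theorem lim_laplace {μ : Measure C(ℝ≥0, ℝ)} (hμ : IsLim p h μ) {C lam C' : ℝ} (hlam : 0 < lam)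
    {f u u' : ℝ → ℝ} (hf : BC C f) (hu : IsResolvent (tgt p) h lam f u u') (hu' : BC C' u)
    {s : ℝ≥0} {T : Finset ℝ≥0} (hT : ∀ t ∈ T, t ≤ s) {G : ℝ≥0 → ℝ → ℝ} (hG : ∀ t, BC 1 (G t)) :
    ∫ r in Ioi (0 : ℝ), Real.exp (-lam * r)
        * ∫ y : C(ℝ≥0, ℝ), (∏ t ∈ T, G t (y t)) * f (y (s + r.toNNReal)) ∂μ
      = ∫ y : C(ℝ≥0, ℝ), (∏ t ∈ T, G t (y t)) * u (y s) ∂μ := by
  have hprob := hμ.prob
  have hexp : IntegrableOn (fun r : ℝ => Real.exp (-lam * r)) (Ioi 0) :=
    exp_neg_integrableOn_Ioi 0 hlam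
  have hC0 : 0 ≤ C := (abs_nonneg _).trans (hf.bdd 0)
  have hC0' : 0 ≤ C' := (abs_nonneg _).trans (hu'.bdd 0)
  have hint : Integrable (fun z : ℝ × C(ℝ≥0, ℝ) =>
      Real.exp (-lam * z.1) * ((∏ t ∈ T, G t (z.2 t)) * f (z.2 (s + z.1.toNNReal))))
      ((volume.restrict (Ioi (0 : ℝ))).prod μ) := by
    have h1 : Integrable (fun z : ℝ × C(ℝ≥0, ℝ) => Real.exp (-lam * z.1) * C)
        ((volume.restrict (Ioi (0 : ℝ))).prod μ) :=
      Integrable.mul_prod (f := fun r : ℝ => Real.exp (-lam * r)) (g := fun _ : C(ℝ≥0, ℝ) => C)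
        hexp (integrable_const C)
    refine h1.mono' ?_ (Eventually.of_forall fun z => ?_)
    · refine Measurable.aestronglyMeasurable ?_
      refine Measurable.mul ?_ (Measurable.mul ?_ (shift_meas hf.cont s))
      · exact Real.measurable_exp.comp (measurable_const.mul measurable_fst)
      · exact (prod_meas hG).comp measurable_snd
    · rw [Real.norm_eq_abs, abs_mul, abs_mul, abs_of_pos (Real.exp_pos _)]
      refine mul_le_mul_of_nonneg_left ?_ (Real.exp_pos _).le
      calc |∏ t ∈ T, G t (z.2 t)| * |f (z.2 (s + z.1.toNNReal))|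
          ≤ 1 * C := mul_le_mul (prod_bdd hG _) (hf.bdd _) (abs_nonneg _) zero_le_one
        _ = C := one_mul C
  have hswap := integral_integral_swap
    (f := fun (r : ℝ) (y : C(ℝ≥0, ℝ)) =>
      Real.exp (-lam * r) * ((∏ t ∈ T, G t (y t)) * f (y (s + r.toNNReal)))) hint
  have hl : ∫ r in Ioi (0 : ℝ), Real.exp (-lam * r)
        * ∫ y : C(ℝ≥0, ℝ), (∏ t ∈ T, G t (y t)) * f (y (s + r.toNNReal)) ∂μ
      = ∫ y : C(ℝ≥0, ℝ), (∏ t ∈ T, G t (y t)) * potl lam f s y ∂μ := by
    calc ∫ r in Ioi (0 : ℝ), Real.exp (-lam * r)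
        * ∫ y : C(ℝ≥0, ℝ), (∏ t ∈ T, G t (y t)) * f (y (s + r.toNNReal)) ∂μ
        = ∫ r in Ioi (0 : ℝ), ∫ y : C(ℝ≥0, ℝ),
          Real.exp (-lam * r) * ((∏ t ∈ T, G t (y t)) * f (y (s + r.toNNReal))) ∂μ := by
          refine integral_congr_ae (Eventually.of_forall fun r => ?_)
          simp only
          rw [integral_const_mul]
      _ = ∫ y : C(ℝ≥0, ℝ), (∫ r in Ioi (0 : ℝ),
          Real.exp (-lam * r) * ((∏ t ∈ T, G t (y t)) * f (y (s + r.toNNReal)))) ∂μ := hswap
      _ = _ := by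
          refine integral_congr_ae (Eventually.of_forall fun y => ?_)
          simp only
          unfold potl
          rw [← integral_const_mul]
          refine integral_congr_ae (Eventually.of_forall fun r => ?_)
          simp only
          ring
  rw [hl]
  have hres := hμ.res C f hf lam hlam u u' hu s T hT G hG
  have i1 : Integrable (fun y : C(ℝ≥0, ℝ) => (∏ t ∈ T, G t (y t)) * potl lam f s y) μ := by
    refine Integrable.of_bound
      (((prod_meas hG).mul (potl_cont hlam hf s).measurable).aestronglyMeasurable) (C / lam)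
      (Eventually.of_forall fun y => ?_)
    rw [Real.norm_eq_abs, abs_mul]
    calc |∏ t ∈ T, G t (y t)| * |potl lam f s y| ≤ 1 * (C / lam) :=
          mul_le_mul (prod_bdd hG _) (potl_bdd hlam hf s y) (abs_nonneg _) zero_le_one
      _ = C / lam := one_mul _
  have i2 : Integrable (fun y : C(ℝ≥0, ℝ) => (∏ t ∈ T, G t (y t)) * u (y s)) μ := by
    refine Integrable.of_bound
      (((prod_meas hG).mul (hu'.cont.measurable.comp (path_meas_eval s))).aestronglyMeasurable) C'
      (Eventually.of_forall fun y => ?_)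
    rw [Real.norm_eq_abs, abs_mul]
    calc |∏ t ∈ T, G t (y t)| * |u (y s)| ≤ 1 * C' :=
          mul_le_mul (prod_bdd hG _) (hu'.bdd _) (abs_nonneg _) zero_le_one
      _ = C' := one_mul _
  have h3 : ∫ y, lfun lam f u T G s y ∂μ
      = ∫ y : C(ℝ≥0, ℝ), (∏ t ∈ T, G t (y t)) * potl lam f s y ∂μ
        - ∫ y : C(ℝ≥0, ℝ), (∏ t ∈ T, G t (y t)) * u (y s) ∂μ := by
    rw [← integral_sub i1 i2]
    refine integral_congr_ae (Eventually.of_forall fun y => ?_)
    simp only [lfun]
    ring
  rw [h3] at hres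
  linarith

/-- the correlation function -/
private noncomputable def psi (μ : Measure C(ℝ≥0, ℝ)) (T : Finset ℝ≥0) (G : ℝ≥0 → ℝ → ℝ)
    (f : ℝ → ℝ) (s : ℝ≥0) (r : ℝ) : ℝ :=
  ∫ y : C(ℝ≥0, ℝ), (∏ t ∈ T, G t (y t)) * f (y (s + r.toNNReal)) ∂μ

private theorem psi_bound {T : Finset ℝ≥0} {G : ℝ≥0 → ℝ → ℝ} (hG : ∀ t, BC 1 (G t))
    {f : ℝ → ℝ} (hf : BC 1 f) (s : ℝ≥0) (r : ℝ) (y : C(ℝ≥0, ℝ)) :
    ‖(∏ t ∈ T, G t (y t)) * f (y (s + r.toNNReal))‖ ≤ 1 := by
  rw [Real.norm_eq_abs, abs_mul]
  calc |∏ t ∈ T, G t (y t)| * |f (y (s + r.toNNReal))| ≤ 1 * 1 :=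
        mul_le_mul (prod_bdd hG _) (hf.bdd _) (abs_nonneg _) zero_le_one
    _ = 1 := one_mul _

private theorem psi_cont (μ : Measure C(ℝ≥0, ℝ)) [IsProbabilityMeasure μ] {T : Finset ℝ≥0}
    {G : ℝ≥0 → ℝ → ℝ} (hG : ∀ t, BC 1 (G t)) {f : ℝ → ℝ} (hf : BC 1 f) (s : ℝ≥0) :
    Continuous (psi μ T G f s) := by
  unfold psi
  refine continuous_of_dominated (bound := fun _ => (1 : ℝ)) ?_ ?_ (integrable_const _) ?_
  · intro r
    refine ((prod_meas hG).mul ?_).aestronglyMeasurable
    exact hf.cont.measurable.comp (path_meas_eval _)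
  · intro r
    exact Eventually.of_forall fun y => psi_bound hG hf s r y
  · refine Eventually.of_forall fun y => ?_
    refine continuous_const.mul (hf.cont.comp (y.continuous.comp ?_))
    exact continuous_const.add continuous_real_toNNReal

private theorem psi_bdd (μ : Measure C(ℝ≥0, ℝ)) [IsProbabilityMeasure μ] {T : Finset ℝ≥0}
    {G : ℝ≥0 → ℝ → ℝ} (hG : ∀ t, BC 1 (G t)) {f : ℝ → ℝ} (hf : BC 1 f) (s : ℝ≥0) (r : ℝ) :
    |psi μ T G f s r| ≤ 1 := by
  have h1 := norm_integral_le_of_norm_le_const (μ := μ)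
    (Eventually.of_forall fun y => psi_bound hG hf s r y (T := T))
  rw [Real.norm_eq_abs] at h1
  simpa [psi] using h1

theorem lim_fdd (S : Setup E p h τ Pi K φ) {μ ν : Measure C(ℝ≥0, ℝ)} (hμ : IsLim p h μ)
    (hν : IsLim p h ν) (T : Finset ℝ≥0) :
    ∀ G : ℝ≥0 → ℝ → ℝ, (∀ t, BC 1 (G t)) →
      ∫ y, ∏ t ∈ T, G t (y t) ∂μ = ∫ y, ∏ t ∈ T, G t (y t) ∂ν := by
  have hpμ := hμ.prob
  have hpν := hν.prob
  induction T using Finset.induction_on_max with
  | empty =>
    intro G hG
    simp
  | insert b T₀ hb ih =>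
    intro G hG
    have hbn : b ∉ T₀ := fun hm => lt_irrefl _ (hb b hm)
    rcases T₀.eq_empty_or_nonempty with rfl | hne
    · have hm : ∀ {ρ : Measure C(ℝ≥0, ℝ)}, IsLim p h ρ →
          ∫ y, ∏ t ∈ insert b (∅ : Finset ℝ≥0), G t (y t) ∂ρ = ∫ x, G b x ∂(tgt p) := by
        intro ρ hρ
        rw [← hρ.stat b, integral_map (path_meas_eval b).aemeasurable
          (hG b).cont.aestronglyMeasurable]
        refine integral_congr_ae (Eventually.of_forall fun y => ?_)
        simp
      rw [hm hμ, hm hν]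
    · set s := T₀.max' hne with hs
      have hsT : s ∈ T₀ := T₀.max'_mem hne
      have hTs : ∀ t ∈ T₀, t ≤ s := fun t ht => T₀.le_max' t ht
      have hsb : s < b := hb s hsT
      have key : ∀ t : ℝ, 0 ≤ t → psi μ T₀ G (G b) s t - psi ν T₀ G (G b) s t = 0 := by
        refine laplace_unique (C := 2)
          (((psi_cont μ hG (hG b) s).sub (psi_cont ν hG (hG b) s)).continuousOn) ?_ ?_
        · intro t
          have h1 := psi_bdd μ hG (hG b) s t (T := T₀)
          have h2 := psi_bdd ν hG (hG b) s t (T := T₀)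
          calc |psi μ T₀ G (G b) s t - psi ν T₀ G (G b) s t|
              ≤ |psi μ T₀ G (G b) s t| + |psi ν T₀ G (G b) s t| := abs_sub _ _
            _ ≤ 2 := by linarith
        · intro lam hlam
          obtain ⟨u, u', hu, _, _⟩ := res_exists S.dens S.hpos hlam
            (memLp_bdd S.dens (hG b).cont.measurable (hG b).bdd)
          have hub := fun x => res_bdd S hlam ⟨(hG b).cont.measurable, (hG b).bdd⟩ hu x
          have huB : BC (1 / lam) u := ⟨dom_cont hu.1, hub⟩
          have e1 := lim_laplace hμ hlam (hG b) hu huB hTs hG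
          have e2 := lim_laplace hν hlam (hG b) hu huB hTs hG
          -- the induction hypothesis
          have hG' : ∀ t, BC 1 (Function.update G s (fun x => G s x * (lam * u x)) t) := by
            intro t
            by_cases hts : t = s
            · subst hts
              rw [Function.update_self]
              refine ⟨(hG _).cont.mul (continuous_const.mul huB.cont), fun x => ?_⟩
              rw [abs_mul, abs_mul, abs_of_pos hlam]
              have h3 : lam * |u x| ≤ 1 := by
                have := huB.bdd x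
                rw [le_div_iff₀ hlam] at this
                linarith
              calc |G _ x| * (lam * |u x|) ≤ 1 * 1 :=
                    mul_le_mul ((hG _).bdd x) h3 (by positivity) zero_le_one
                _ = 1 := one_mul _
            · rw [Function.update_of_ne hts]
              exact hG t
          have ih' := ih _ hG'
          have hpr : ∀ y : C(ℝ≥0, ℝ),
              ∏ t ∈ T₀, (Function.update G s (fun x => G s x * (lam * u x)) t) (y t)
                = lam * ((∏ t ∈ T₀, G t (y t)) * u (y s)) := by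
            intro y
            rw [← Finset.mul_prod_erase T₀ _ hsT, ← Finset.mul_prod_erase T₀ (fun t => G t (y t)) hsT,
              Function.update_self]
            have h4 : ∏ x ∈ T₀.erase s, (Function.update G s (fun x => G s x * (lam * u x)) x) (y x)
                = ∏ x ∈ T₀.erase s, G x (y x) := by
              refine Finset.prod_congr rfl fun t ht => ?_
              rw [Function.update_of_ne (Finset.ne_of_mem_erase ht)]
            rw [h4]
            ring
          simp only [hpr] at ih'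
          rw [integral_const_mul, integral_const_mul] at ih'
          have ih2 := mul_left_cancel₀ hlam.ne' ih'
          have hexp : IntegrableOn (fun r : ℝ => Real.exp (-lam * r)) (Ioi 0) :=
            exp_neg_integrableOn_Ioi 0 hlam
          have hi : ∀ (ρ : Measure C(ℝ≥0, ℝ)) [IsProbabilityMeasure ρ],
              IntegrableOn (fun r : ℝ => Real.exp (-lam * r) * psi ρ T₀ G (G b) s r) (Ioi 0) := by
            intro ρ _
            refine Integrable.mul_bdd (c := 1) hexp
              (psi_cont ρ hG (hG b) s).aestronglyMeasurable (Eventually.of_forall fun r => ?_)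
            rw [Real.norm_eq_abs]
            exact psi_bdd ρ hG (hG b) s r
          calc ∫ t in Ioi (0 : ℝ), Real.exp (-lam * t)
                * (psi μ T₀ G (G b) s t - psi ν T₀ G (G b) s t)
              = ∫ t in Ioi (0 : ℝ), (Real.exp (-lam * t) * psi μ T₀ G (G b) s t
                - Real.exp (-lam * t) * psi ν T₀ G (G b) s t) := by
                refine integral_congr_ae (Eventually.of_forall fun r => ?_)
                simp only
                ring
            _ = (∫ t in Ioi (0 : ℝ), Real.exp (-lam * t) * psi μ T₀ G (G b) s t)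
                - ∫ t in Ioi (0 : ℝ), Real.exp (-lam * t) * psi ν T₀ G (G b) s t :=
                integral_sub (hi μ) (hi ν)
            _ = 0 := by
                have e3 : (∫ t in Ioi (0 : ℝ), Real.exp (-lam * t) * psi μ T₀ G (G b) s t)
                    = ∫ y : C(ℝ≥0, ℝ), (∏ t ∈ T₀, G t (y t)) * u (y s) ∂μ := e1
                have e4 : (∫ t in Ioi (0 : ℝ), Real.exp (-lam * t) * psi ν T₀ G (G b) s t)
                    = ∫ y : C(ℝ≥0, ℝ), (∏ t ∈ T₀, G t (y t)) * u (y s) ∂ν := e2
                rw [e3, e4, ih2, sub_self]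
      have hfin := key ((b : ℝ) - s) (sub_nonneg.mpr (by exact_mod_cast hsb.le))
      have hbs : s + ((b : ℝ) - s).toNNReal = b := by
        rw [← NNReal.coe_inj, NNReal.coe_add, Real.coe_toNNReal _
          (sub_nonneg.mpr (by exact_mod_cast hsb.le))]
        ring
      unfold psi at hfin
      rw [hbs] at hfin
      have hfin2 := sub_eq_zero.mp hfin
      have hin : ∀ y : C(ℝ≥0, ℝ), ∏ t ∈ insert b T₀, G t (y t)
          = (∏ t ∈ T₀, G t (y t)) * G b (y b) := by
        intro y
        rw [Finset.prod_insert hbn, mul_comm]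
      simp only [hin]
      exact hfin2

theorem lim_unique (S : Setup E p h τ Pi K φ) {μ ν : Measure C(ℝ≥0, ℝ)} (hμ : IsLim p h μ)
    (hν : IsLim p h ν) : μ = ν := by
  have hpμ := hμ.prob
  have hpν := hν.prob
  exact fdd_ext fun T G hG => lim_fdd S hμ hν T G hG

end Pool.Agent.Lib.MP_e19099_pr
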